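import Pool.Agent.Lib.MP_60cbcc_al.H3ABase

/-!
The absolute value on the algebraic closure; limits of matrices of bounded spectral radius.
-/

namespace Pool.Agent.Lib.MP_60cbcc_al.H3A

open Matrix Filter Topology

set_option linter.unusedSectionVars false

variable {k : Type} [NontriviallyNormedField k] [ProperSpace k] {ν : Type} [Fintype ν]
  [DecidableEq ν] {G : Subgroup (GL ν k)}

theorem abs_le_of_pow {a b C : ℝ} (hb : 0 ≤ b) (h : ∀ N : ℕ, a ^ N ≤ C * b ^ N) : a ≤ b := by
  by_contra hab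
  push Not at hab
  rcases hb.eq_or_lt with rfl | hb
  · have := h 1
    simp only [pow_one, mul_zero] at this
    exact absurd hab (not_lt.2 this)
  · obtain ⟨N, hN⟩ := ((tendsto_pow_atTop_atTop_of_one_lt ((one_lt_div hb).2 hab)).eventually
      (eventually_gt_atTop C)).exists
    rw [div_pow, lt_div_iff₀ (pow_pos hb N)] at hN
    exact absurd (h N) (not_le.2 hN)

theorem abs_tri {L : Type} [CommRing L] (F : L → ℝ) (h0 : ∀ x, 0 ≤ F x)
    (hm : ∀ x y, F (x * y) = F x * F y) (h1 : F 1 = 1) (hn : ∀ n : ℕ, F n ≤ n) (K : ℝ)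
    (hK0 : 0 ≤ K)
    (hK : ∀ (s : Finset ℕ) (f : ℕ → L), F (∑ i ∈ s, f i) ≤ K * ∑ i ∈ s, F (f i)) (x y : L) :
    F (x + y) ≤ F x + F y := by
  have hp : ∀ (z : L) (N : ℕ), F (z ^ N) = F z ^ N := fun z N => by
    induction N with
    | zero => simpa using h1
    | succ N ih => rw [pow_succ, hm, ih, pow_succ]
  refine abs_le_of_pow (C := K) (add_nonneg (h0 x) (h0 y)) fun N => ?_
  rw [← hp, add_pow, add_pow]
  refine (hK _ _).trans (mul_le_mul_of_nonneg_left (Finset.sum_le_sum fun i _ => ?_) hK0)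
  rw [hm, hm, hp, hp]
  exact mul_le_mul_of_nonneg_left (hn _) (mul_nonneg (pow_nonneg (h0 x) _) (pow_nonneg (h0 y) _))

theorem abs_shell {E : Type} [NormedAddCommGroup E] [NormedSpace k E] [ProperSpace E]
    (g : E → ℝ) (hg : Continuous g) (h0 : g 0 = 0) (hp : ∀ v, v ≠ 0 → 0 < g v)
    (hs : ∀ (c : k) v, g (c • v) = ‖c‖ * g v) :
    ∃ a b : ℝ, 0 < a ∧ 0 < b ∧ ∀ v, a * ‖v‖ ≤ g v ∧ g v ≤ b * ‖v‖ := by
  obtain ⟨c, hc⟩ := NormedField.exists_one_lt_norm k
  have hc0 : 0 < ‖c‖ := one_pos.trans hc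
  have hS : IsCompact (Metric.closedBall (0 : E) 1 ∩ {v | 1 / ‖c‖ ≤ ‖v‖}) :=
    (isCompact_closedBall 0 1).inter_right (isClosed_le continuous_const continuous_norm)
  obtain ⟨a, ha, ha'⟩ : ∃ a : ℝ, 0 < a ∧
      ∀ v ∈ Metric.closedBall (0 : E) 1 ∩ {v | 1 / ‖c‖ ≤ ‖v‖}, a ≤ g v := by
    refine hS.exists_forall_le' hg.continuousOn fun v hv => hp v ?_
    rintro rfl
    have := hv.2
    simp only [Set.mem_ofPred_eq, norm_zero] at this
    exact absurd (one_div_pos.2 hc0) (not_lt.2 this)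
  obtain ⟨b, hb⟩ := hS.bddAbove_image hg.continuousOn
  refine ⟨a, max b 1 * ‖c‖, ha, by positivity, fun v => ?_⟩
  by_cases hv : v = 0
  · simp [hv, h0]
  obtain ⟨d, hd, h1, h2, h3⟩ := rescale_to_shell hc one_pos hv
  have hm : d • v ∈ Metric.closedBall (0 : E) 1 ∩ {v | 1 / ‖c‖ ≤ ‖v‖} :=
    ⟨mem_closedBall_zero_iff.2 h1.le, h2⟩
  have hd0 : 0 < ‖d‖ := norm_pos_iff.2 hd
  have e1 := ha' _ hm
  have e2 : g (d • v) ≤ max b 1 := (hb ⟨_, hm, rfl⟩).trans (le_max_left _ _)
  rw [hs] at e1 e2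
  rw [norm_smul] at h1
  have hg0 := hp v hv
  constructor
  · have : a * (‖d‖ * ‖v‖) ≤ ‖d‖ * g v := by nlinarith
    have h4 : ‖d‖ * (a * ‖v‖) ≤ ‖d‖ * g v := by linarith
    exact le_of_mul_le_mul_left h4 hd0
  · rw [inv_one, one_mul] at h3
    calc g v = ‖d‖⁻¹ * (‖d‖ * g v) := by field_simp
      _ ≤ (‖c‖ * ‖v‖) * max b 1 := by gcongr
      _ = _ := by ring

/-- The absolute value on a finite extension. -/
noncomputable def absF (k : Type) [NontriviallyNormedField k] {L : Type} [Field L] [Algebra k L]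
    (x : L) : ℝ :=
  ‖Algebra.norm k x‖ ^ ((Module.finrank k L : ℝ)⁻¹)

section Fin

variable {L : Type} [Field L] [Algebra k L] [FiniteDimensional k L]

theorem absF_nonneg (x : L) : 0 ≤ absF k x := Real.rpow_nonneg (norm_nonneg _) _

theorem absF_mul (x y : L) : absF k (x * y) = absF k x * absF k y := by
  unfold absF
  rw [map_mul, norm_mul, Real.mul_rpow (norm_nonneg _) (norm_nonneg _)]

theorem absF_algebraMap (c : k) : absF k (algebraMap k L c) = ‖c‖ := by
  unfold absF
  rw [Algebra.norm_algebraMap, norm_pow,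
    Real.pow_rpow_inv_natCast (norm_nonneg _) Module.finrank_pos.ne']

theorem absF_pos {x : L} (hx : x ≠ 0) : 0 < absF k x :=
  Real.rpow_pos_of_pos (norm_pos_iff.2 (Algebra.norm_ne_zero_iff.2 hx)) _

theorem absF_zero : absF k (0 : L) = 0 := by
  rw [← map_zero (algebraMap k L), absF_algebraMap, norm_zero]

theorem absF_add (x y : L) : absF k (x + y) ≤ absF k x + absF k y := by
  classical
  let b := Module.finBasis k L
  have hcont : Continuous fun v : Fin (Module.finrank k L) → k => absF k (b.equivFun.symm v) := by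
    unfold absF
    refine Continuous.rpow_const (Continuous.norm ?_) fun _ => Or.inr (by positivity)
    simp_rw [Algebra.norm_eq_matrix_det b]
    exact Continuous.matrix_det
      (LinearMap.continuous_of_finiteDimensional
        ((Algebra.leftMulMatrix b).toLinearMap ∘ₗ b.equivFun.symm.toLinearMap))
  obtain ⟨a, c, ha, hc, h⟩ := abs_shell (k := k) _ hcont (by rw [map_zero, absF_zero])
    (fun v hv => absF_pos (b.equivFun.symm.map_ne_zero_iff.2 hv))
    (fun c v => by rw [map_smul, Algebra.smul_def, absF_mul, absF_algebraMap])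
  have h' : ∀ z : L, a * ‖b.equivFun z‖ ≤ absF k z ∧ absF k z ≤ c * ‖b.equivFun z‖ := fun z => by
    simpa only [LinearEquiv.symm_apply_apply] using h (b.equivFun z)
  refine abs_tri (absF k) absF_nonneg absF_mul
    (by rw [← map_one (algebraMap k L), absF_algebraMap, norm_one]) (fun n => ?_) (c / a)
    (by positivity) (fun s f => ?_) x y
  · rw [← map_natCast (algebraMap k L), absF_algebraMap]
    simpa using Nat.norm_cast_le (α := k) n
  · refine (h' _).2.trans ?_
    rw [map_sum, div_eq_mul_inv, mul_assoc]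
    refine mul_le_mul_of_nonneg_left ((norm_sum_le _ _).trans ?_) hc.le
    rw [Finset.mul_sum]
    refine Finset.sum_le_sum fun i _ => ?_
    rw [← div_eq_inv_mul, le_div_iff₀ ha, mul_comm]
    exact (h' _).1

theorem absF_eq (x : L) :
    absF k x = ‖(minpoly k x).coeff 0‖ ^ (((minpoly k x).natDegree : ℝ)⁻¹) := by
  have hx : IsIntegral k x := Algebra.IsIntegral.isIntegral x
  have e := Module.finrank_mul_finrank k (IntermediateField.adjoin k {x}) L
  have hp : 0 < Module.finrank (IntermediateField.adjoin k {x}) L := Module.finrank_pos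
  unfold absF
  rw [Algebra.norm_eq_norm_adjoin k x, ← IntermediateField.adjoin.powerBasis_gen hx,
    Algebra.PowerBasis.norm_gen_eq_coeff_zero_minpoly, IntermediateField.adjoin.powerBasis_gen hx,
    IntermediateField.minpoly_gen, ← e, IntermediateField.adjoin.finrank hx, norm_pow, norm_mul,
    norm_pow, norm_neg, norm_one, one_pow, one_mul, ← Real.rpow_natCast,
    ← Real.rpow_mul (norm_nonneg _)]
  congr 1
  have : (Module.finrank (IntermediateField.adjoin k {x}) L : ℝ) ≠ 0 := by exact_mod_cast hp.ne'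
  push_cast
  rw [mul_inv, mul_left_comm, mul_inv_cancel₀ this, mul_one]

end Fin

theorem exists_abs : ∃ A : AbsoluteValue (AlgebraicClosure k) ℝ,
    (∀ x : k, A (algebraMap k _ x) = ‖x‖) ∧ ∀ x y, minpoly k x = minpoly k y → A x = A y := by
  let A : AlgebraicClosure k → ℝ := fun x =>
    ‖(minpoly k x).coeff 0‖ ^ (((minpoly k x).natDegree : ℝ)⁻¹)
  have key : ∀ x y : AlgebraicClosure k, ∃ L : IntermediateField k (AlgebraicClosure k),
      FiniteDimensional k L ∧ x ∈ L ∧ y ∈ L := fun x y =>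
    ⟨IntermediateField.adjoin k {x, y}, IntermediateField.finiteDimensional_adjoin_pair
      (Algebra.IsIntegral.isIntegral x) (Algebra.IsIntegral.isIntegral y),
      IntermediateField.subset_adjoin _ _ (by simp), IntermediateField.subset_adjoin _ _ (by simp)⟩
  have hA : ∀ (L : IntermediateField k (AlgebraicClosure k)) [FiniteDimensional k L] (x : L),
      A x = absF k x := fun L _ x => by
    rw [absF_eq, IntermediateField.minpoly_eq]
  refine ⟨⟨⟨A, fun x y => ?_⟩, fun x => Real.rpow_nonneg (norm_nonneg _) _, fun x => ?_,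
    fun x y => ?_⟩, fun x => ?_, fun x y h => ?_⟩
  · obtain ⟨L, hL, hx, hy⟩ := key x y
    have := absF_mul (k := k) (⟨x, hx⟩ : L) ⟨y, hy⟩
    rwa [← hA, ← hA, ← hA] at this
  · obtain ⟨L, hL, hx, -⟩ := key x x
    change A x = 0 ↔ _
    rw [show A x = absF k (⟨x, hx⟩ : L) from hA L ⟨x, hx⟩]
    refine ⟨fun h => ?_, fun h => ?_⟩
    · by_contra h'
      exact (absF_pos (k := k) (x := (⟨x, hx⟩ : L)) fun e => h' (congrArg Subtype.val e)).ne' h
    · rw [show (⟨x, hx⟩ : L) = 0 from Subtype.ext h, absF_zero]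
  · obtain ⟨L, hL, hx, hy⟩ := key x y
    have := absF_add (k := k) (⟨x, hx⟩ : L) ⟨y, hy⟩
    rwa [← hA, ← hA, ← hA] at this
  · obtain ⟨L, hL, -, -⟩ := key 0 0
    have := absF_algebraMap (L := L) x
    rwa [← hA] at this
  · change A x = A y
    simp only [A, h]

theorem abs_root_le {K : Type} [NormedField K] (f : k →+* K) (hf : ∀ x, ‖f x‖ = ‖x‖)
    {m : Type} [Fintype m] [DecidableEq m] (S : Matrix m m k) {r C : ℝ} (hr : 0 ≤ r)
    (hS : ∀ (l : ℕ) a b, ‖(S ^ l) a b‖ ≤ C * r ^ l) {z : K}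
    (hz : z ∈ (S.charpoly.map f).roots) : ‖z‖ ≤ r := by
  have h1 := (Polynomial.mem_roots'.1 hz).2
  rw [Polynomial.IsRoot, ← Matrix.charpoly_map, Matrix.eval_charpoly,
    ← Matrix.exists_mulVec_eq_zero_iff] at h1
  obtain ⟨v, hv, h2⟩ := h1
  have h3 : S.map f *ᵥ v = z • v := by
    rw [Matrix.sub_mulVec, sub_eq_zero] at h2
    rw [← h2]
    funext i
    simp [Matrix.scalar_apply, Matrix.mulVec_diagonal]
  have h4 : ∀ l : ℕ, (S ^ l).map f *ᵥ v = z ^ l • v := fun l => by
    induction l with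
    | zero => simp
    | succ l ih =>
      rw [pow_succ, Matrix.map_mul, ← Matrix.mulVec_mulVec, h3, Matrix.mulVec_smul, ih,
        smul_smul, pow_succ']
  obtain ⟨a, ha⟩ := Function.ne_iff.1 hv
  have ha0 : 0 < ‖v a‖ := norm_pos_iff.2 ha
  refine abs_le_of_pow (C := C * (∑ b, ‖v b‖) / ‖v a‖) hr fun l => ?_
  have h5 := congrArg (fun w => ‖w a‖) (h4 l)
  simp only [Pi.smul_apply, smul_eq_mul, norm_mul, norm_pow] at h5
  rw [div_mul_eq_mul_div, le_div_iff₀ ha0, ← h5]
  simp only [Matrix.mulVec, dotProduct, Matrix.map_apply]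
  refine (norm_sum_le _ _).trans ?_
  rw [Finset.mul_sum, Finset.sum_mul]
  refine Finset.sum_le_sum fun b _ => ?_
  rw [norm_mul, hf, mul_right_comm]
  exact mul_le_mul_of_nonneg_right (hS l a b) (norm_nonneg _)

theorem abs_coeff_le {m : Type} [Fintype m] [DecidableEq m] (S : Matrix m m k) {r C : ℝ}
    (hr : 0 ≤ r) (hS : ∀ (l : ℕ) a b, ‖(S ^ l) a b‖ ≤ C * r ^ l) (j : ℕ) :
    ‖S.charpoly.coeff j‖ ≤ r ^ (Fintype.card m - j) * (Fintype.card m).choose j := by
  obtain ⟨A, hA, -⟩ := exists_abs (k := k)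
  let _ := A.toNormedField
  have hf : ∀ x : k, ‖algebraMap k (AlgebraicClosure k) x‖ = ‖x‖ := hA
  have := Polynomial.coeff_le_of_roots_le (f := algebraMap k (AlgebraicClosure k)) j
    S.charpoly_monic (IsAlgClosed.splits _) fun z hz => abs_root_le _ hf S hr hS hz
  rwa [Polynomial.coeff_map, hf, Matrix.charpoly_natDegree_eq_dim] at this

theorem nil_of_lim {m : Type} [Fintype m] [DecidableEq m] (T : ℕ → Matrix m m k) (R : ℝ)
    (hT : ∀ i, Gr (T i) R) (c : ℕ → k) (hc : Tendsto c atTop (𝓝 0)) (φ : Matrix m m k)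
    (h : Tendsto (fun i => c i • T i) atTop (𝓝 φ)) : IsNilpotent φ := by
  have hρ : 0 ≤ max R 0 + 1 := by positivity
  have hb : ∀ i j, ‖(c i • T i).charpoly.coeff j‖ ≤
      (‖c i‖ * (max R 0 + 1)) ^ (Fintype.card m - j) * (Fintype.card m).choose j := fun i j => by
    obtain ⟨C, hC⟩ := hT i (max R 0 + 1) (by linarith [le_max_left R 0])
    refine abs_coeff_le (C := C) _ (by positivity) (fun l a b => ?_) j
    rw [smul_pow, Matrix.smul_apply, smul_eq_mul, norm_mul, norm_pow, mul_pow, mul_left_comm]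
    exact mul_le_mul_of_nonneg_left (hC l a b) (by positivity)
  have h0 : ∀ j ∈ Finset.range (Fintype.card m),
      Tendsto (fun i => (c i • T i).charpoly.coeff j) atTop (𝓝 0) := fun j hj => by
    refine squeeze_zero_norm (hb · j) ?_
    have h1 : Fintype.card m - j ≠ 0 := Nat.sub_ne_zero_of_lt (Finset.mem_range.1 hj)
    have := ((hc.norm.mul_const (max R 0 + 1)).pow (Fintype.card m - j)).mul_const
      ((Fintype.card m).choose j : ℝ)
    simpa [h1] using this
  have h2 : ∀ i, (c i • T i) ^ Fintype.card m =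
      -∑ j ∈ Finset.range (Fintype.card m), (c i • T i).charpoly.coeff j • (c i • T i) ^ j :=
    fun i => by
      have h3 := Matrix.aeval_self_charpoly (c i • T i)
      have h4 := (c i • T i).charpoly_monic.coeff_natDegree
      rw [Polynomial.aeval_eq_sum_range, Finset.sum_range_succ, h4, one_smul,
        Matrix.charpoly_natDegree_eq_dim] at h3
      exact eq_neg_of_add_eq_zero_right h3
  refine ⟨Fintype.card m, tendsto_nhds_unique (h.pow _) ?_⟩
  simp_rw [h2]
  have := (tendsto_finsetSum (Finset.range (Fintype.card m))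
    fun j hj => (h0 j hj).smul (h.pow j)).neg
  simpa using this

end Pool.Agent.Lib.MP_60cbcc_al.H3A
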