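import Pool.Agent.Lib.MP_60cbcc_al.H3ZMain

/-!
The main theorem for abstract factors, with a weak form of irreducibility.
-/

namespace Pool.Agent.Lib.MP_60cbcc_al.H3Z

open MeasureTheory MulAction
open scoped Pointwise

set_option linter.unusedSectionVars false

theorem mem_clos2 {Γ M L : Type} [Group Γ] [Group M] [TopologicalSpace M] [IsTopologicalGroup M]
    [Group L] [TopologicalSpace L] (hL : Weak L) {q : Γ →* M}
    (Δ : Subgroup Γ) [Δ.FiniteIndex] (i : L →* M) (hi : Continuous i)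
    (hq : ∀ a, i a ∈ q.range.topologicalClosure) (a : L) :
    i a ∈ (Δ.map q).topologicalClosure := by
  set C := (Δ.map q).topologicalClosure
  have hC : IsClosed (C : Set M) := Subgroup.isClosed_topologicalClosure _
  have h0 : ∀ g ∈ q.range.topologicalClosure, ∃ c : Γ ⧸ Δ, (q c.out)⁻¹ * g ∈ C := fun g hg => by
    refine closure_minimal (t := {g | ∃ c : Γ ⧸ Δ, (q c.out)⁻¹ * g ∈ C}) ?_ ?_ hg
    · rintro _ ⟨γ, rfl⟩
      obtain ⟨c, δ, rfl⟩ := W2.exists_out Δ γ
      exact ⟨c, by simpa using Subgroup.le_topologicalClosure _ (Subgroup.mem_map_of_mem q δ.2)⟩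
    · rw [Set.ofPred_exists]
      exact isClosed_iUnion_of_finite fun c => hC.preimage (continuous_const_mul _)
  choose c hc using fun b => h0 _ (hq b)
  have h1 : Function.Injective fun y : L ⧸ C.comap i => c y.out := fun y y' h => by
    rw [← y.out_eq, ← y'.out_eq]
    refine QuotientGroup.eq.2 ?_
    have h2 := mul_mem (inv_mem (hc y.out)) (hc y'.out)
    rw [show c y.out = c y'.out from h] at h2
    simpa [Subgroup.mem_comap, mul_assoc] using h2
  have := Finite.of_injective _ h1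
  exact (hL.nfi (C.comap i) (hC.preimage hi) Subgroup.finiteIndex_of_finite_quotient).ge
    (Subgroup.mem_top a)

variable {ι Γ X : Type} [Finite ι] [DecidableEq ι] {G : ι → Type} [∀ i, Group (G i)]
  [∀ i, TopologicalSpace (G i)] [∀ i, IsTopologicalGroup (G i)] [∀ i, LocallyCompactSpace (G i)]
  [∀ i, SecondCountableTopology (G i)] [∀ i, T2Space (G i)] [∀ i, MeasurableSpace (G i)]
  [∀ i, BorelSpace (G i)] [Group Γ]

/-- The closures of the projections contain the distinguished subgroups. -/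
def Hd (L : ∀ i, Subgroup (G i)) (j : Γ →* ∀ i, G i) : Prop :=
  ∀ i (k : {k // k ≠ i}) (a : L k.1),
    (MonoidHom.mulSingle (fun k : {k // k ≠ i} => G k.1) k).comp (L k.1).subtype a ∈
      (w1q j i).range.topologicalClosure

theorem wrapA2 [Countable Γ] [Nontrivial ι] (L K : ∀ i, Subgroup (G i)) (hf : ∀ i, Low (L i) (K i))
    (j : Γ →* ∀ i, G i) (hj : Lat j)
    (hd : Hd L j)
    (hc : ∀ γ k, j γ k ∈ Subgroup.centralizer (L k : Set (G k)) → γ = 1)
    [MeasurableSpace X] [MulAction Γ X] [MeasurableConstSMul Γ X] (μ : Measure X)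
    [IsProbabilityMeasure μ] [SMulInvariantMeasure Γ X μ]
    (hF : ∀ γ : Γ, MeasurableSet {x : X | γ • x = x}) :
    ∃ Δ : Subgroup Γ, Δ.FiniteIndex ∧
      ∀ᵐ x ∂μ, (orbit Δ x).Finite ∨ ∀ δ ∈ Δ, δ • x = x → δ = 1 := by
  have hmul : ∀ i, ((L i ⊔ K i : Subgroup (G i)) : Set (G i)) = (L i : Set (G i)) * K i := fun i =>
    have := (hf i).norm
    Subgroup.normal_mul _ _
  have hcl : ∀ i, IsClosed ((L i ⊔ K i : Subgroup (G i)) : Set (G i)) := fun i => by
    rw [hmul]
    exact (hf i).closed.mul_right_of_isCompact (hf i).cpt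
  have hop : ∀ i, IsOpen ((L i ⊔ K i : Subgroup (G i)) : Set (G i)) := fun i =>
    have := (hf i).fi
    Subgroup.isOpen_of_isClosed_of_finiteIndex _ (hcl i)
  have hlc : ∀ i, LocallyCompactSpace (L i ⊔ K i : Subgroup (G i)) := fun i =>
    (hcl i).locallyCompactSpace
  have hsc : ∀ (i : ι) (N : Subgroup (G i)), SecondCountableTopology N := fun i N =>
    TopologicalSpace.Subtype.secondCountableTopology (N : Set (G i))
  let Δ : Subgroup Γ := ⨅ i, (L i ⊔ K i).comap ((Pi.evalMonoidHom G i).comp j)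
  have hΔ : Δ.FiniteIndex := Subgroup.finiteIndex_iInf fun i =>
    have := (hf i).fi
    W2.fi_comap _ _
  let j' : Δ →* ∀ i, (L i ⊔ K i : Subgroup (G i)) := MonoidHom.pi fun i =>
    (((Pi.evalMonoidHom G i).comp j).comp Δ.subtype).codRestrict (L i ⊔ K i)
      fun δ => Subgroup.mem_iInf.1 δ.2 i
  let e : (∀ i, (L i ⊔ K i : Subgroup (G i))) →* ∀ i, G i :=
    MonoidHom.pi fun i => (L i ⊔ K i).subtype.comp
      (Pi.evalMonoidHom (fun i => (L i ⊔ K i : Subgroup (G i))) i)
  have he : Topology.IsOpenEmbedding e := by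
    refine ⟨Topology.IsEmbedding.piMap fun i => Topology.IsEmbedding.subtypeVal, ?_⟩
    have h1 : Set.range e = Set.pi Set.univ fun i => ((L i ⊔ K i : Subgroup (G i)) : Set (G i)) := by
      ext g
      constructor
      · rintro ⟨y, rfl⟩ i _
        exact (y i).2
      · intro h
        exact ⟨fun i => ⟨g i, h i trivial⟩, rfl⟩
    rw [h1]
    exact isOpen_set_pi Set.finite_univ fun i _ => hop i
  have hj' : Lat j' := W2.lat_sub hj he Δ fun _ => rfl
  refine ⟨Δ, hΔ, ?_⟩
  have key := wa_main (G := fun i => (L i ⊔ K i : Subgroup (G i))) (L := fun i => L i)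
    (fun i => (hf i).rig) (fun i => Subgroup.inclusion le_sup_left)
    (fun i => Topology.IsEmbedding.inclusion
      (SetLike.coe_subset_coe.2 (le_sup_left : L i ≤ L i ⊔ K i)))
    (fun i => by
      rw [Subgroup.inclusion_range]
      exact (hf i).norm.subgroupOf _)
    (fun i => (K i).subgroupOf (L i ⊔ K i))
    (fun i => (hcl i).isClosedEmbedding_subtypeVal.isCompact_preimage (hf i).cpt)
    (fun i g => by
      obtain ⟨a, ha, k, hk, h⟩ := (hmul i).le g.2
      exact ⟨⟨a, ha⟩, ⟨k, Subgroup.mem_sup_right hk⟩, hk, Subtype.ext h.symm⟩)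
    j' hj' (fun i k a => by
      have hin : Topology.IsInducing (Pi.map fun (t : {k // k ≠ i})
          (y : (L t.1 ⊔ K t.1 : Subgroup (G t.1))) => (y : G t.1)) :=
        Topology.IsInducing.piMap fun _ => Topology.IsInducing.subtypeVal
      rw [hin.closure_eq_preimage_closure_image, Set.mem_preimage]
      have h1 := mem_clos2 (hf k.1).weak Δ
        ((MonoidHom.mulSingle (fun k : {k // k ≠ i} => G k.1) k).comp (L k.1).subtype)
        ((continuous_mulSingle (A := fun k : {k // k ≠ i} => G k.1) k).comp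
          continuous_subtype_val) (hd i k) a
      have h2 : (Pi.map fun (t : {k // k ≠ i})
          (y : (L t.1 ⊔ K t.1 : Subgroup (G t.1))) => (y : G t.1))
          (MonoidHom.mulSingle (fun t : {k // k ≠ i} => (L t.1 ⊔ K t.1 : Subgroup (G t.1))) k
            (Subgroup.inclusion le_sup_left a)) =
          ((MonoidHom.mulSingle (fun k : {k // k ≠ i} => G k.1) k).comp (L k.1).subtype) a := by
        funext t
        by_cases h : t = k
        · subst h
          simp
        · simp [Pi.mulSingle_eq_of_ne h]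
      rw [h2]
      refine closure_mono ?_ h1
      rintro _ ⟨γ, hγ, rfl⟩
      exact ⟨_, ⟨⟨γ, hγ⟩, rfl⟩, rfl⟩)
    (fun γ k h => Subtype.ext (hc γ.1 k (Subgroup.mem_centralizer_iff.2 fun a ha =>
      congrArg Subtype.val (h ⟨a, ha⟩)))) μ (fun δ => hF δ.1)
  filter_upwards [key] with x hx
  exact hx.imp id fun h δ hδ hx => congrArg Subtype.val (h ⟨δ, hδ⟩ hx)

theorem wrapB2 [Countable Γ] (L : ∀ i, Subgroup (G i)) (hf : ∀ i, (∃ K, Low (L i) K) ∨ High (L i))
    (hr : ∃ i, High (L i)) (j : Γ →* ∀ i, G i) (hj : Lat j)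
    (hd : Hd L j)
    (hc : ∀ γ k, j γ k ∈ Subgroup.centralizer (L k : Set (G k)) → γ = 1)
    [MeasurableSpace X] [MulAction Γ X] [MeasurableConstSMul Γ X] (μ : Measure X)
    [IsProbabilityMeasure μ] [SMulInvariantMeasure Γ X μ]
    (hF : ∀ γ : Γ, MeasurableSet {x : X | γ • x = x}) :
    ∃ Δ : Subgroup Γ, Δ.FiniteIndex ∧ ((∀ i, High (L i)) → Δ = ⊤) ∧
      ∀ᵐ x ∂μ, (orbit Δ x).Finite ∨ ∀ δ ∈ Δ, δ • x = x → δ = 1 := by
  classical
  choose K hK using fun k : {k // ¬ High (L k)} => (hf k.1).resolve_right k.2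
  let E : ∀ k : {k // ¬ High (L k)}, Subgroup (G k.1) := fun k => L k.1 ⊔ K k
  have hmul : ∀ k, (E k : Set (G k.1)) = (L k.1 : Set (G k.1)) * (K k : Set (G k.1)) := fun k =>
    have := (hK k).norm
    Subgroup.normal_mul _ _
  have hcl : ∀ k, IsClosed (E k : Set (G k.1)) := fun k => by
    rw [hmul]
    exact (hK k).closed.mul_right_of_isCompact (hK k).cpt
  have hfi : ∀ k, (E k).FiniteIndex := fun k => (hK k).fi
  have hop : ∀ k, IsOpen (E k : Set (G k.1)) := fun k =>
    Subgroup.isOpen_of_isClosed_of_finiteIndex _ (hcl k)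
  have : ∀ k, LocallyCompactSpace (E k) := fun k => (hcl k).locallyCompactSpace
  have : ∀ k, SecondCountableTopology (E k) := fun k =>
    TopologicalSpace.Subtype.secondCountableTopology _
  have : ∀ k, SecondCountableTopology (L k) := fun k =>
    TopologicalSpace.Subtype.secondCountableTopology _
  have : ∀ k, BorelSpace (E k) := fun k => Subtype.borelSpace _
  let Δ : Subgroup Γ := ⨅ k : {k // ¬ High (L k)}, (E k).comap ((Pi.evalMonoidHom G k.1).comp j)
  have hΔ : Δ.FiniteIndex := Subgroup.finiteIndex_iInf fun k => W2.fi_comap _ _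
  let j' : Δ →* (∀ i : {i // High (L i)}, G i.1) × ∀ k : {k // ¬ High (L k)}, E k :=
    { toFun := fun δ => (fun i => j δ i.1, fun k => ⟨j δ k.1, Subgroup.mem_iInf.1 δ.2 k⟩)
      map_one' := Prod.ext (funext fun i => by simp) (funext fun k => Subtype.ext (by simp))
      map_mul' := fun a b =>
        Prod.ext (funext fun i => by simp) (funext fun k => Subtype.ext (by simp)) }
  let e : (∀ i : {i // High (L i)}, G i.1) × (∀ k : {k // ¬ High (L k)}, E k) →* ∀ i, G i :=
    { toFun := fun z i => if h : High (L i) then z.1 ⟨i, h⟩ else (z.2 ⟨i, h⟩ : G i)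
      map_one' := funext fun i => by by_cases h : High (L i) <;> simp [h]
      map_mul' := fun a b => funext fun i => by by_cases h : High (L i) <;> simp [h] }
  have hv : Topology.IsOpenEmbedding
      (Pi.map fun (k : {k // ¬ High (L k)}) (z : E k) => (z : G k.1)) :=
    Topology.IsOpenEmbedding.piMap fun k => (hop k).isOpenEmbedding_subtypeVal
  have he : Topology.IsOpenEmbedding e :=
    (Homeomorph.piEquivPiSubtypeProd (fun i => High (L i)) G).symm.isOpenEmbedding.comp
      (Topology.IsOpenEmbedding.id.prodMap hv)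
  have hj' : Lat j' := W2.lat_sub hj he Δ fun δ => funext fun i => by
    by_cases h : High (L i) <;> simp [e, j', h]
  refine ⟨Δ, hΔ, fun h => iInf_eq_top.2 fun k => absurd (h k.1) k.2, ?_⟩
  refine (wb_core (X := X) (fun i : {i // High (L i)} => L i.1) (fun i => i.2)
    (fun k => (hK k).rig) (fun k => Subgroup.inclusion (le_sup_left : L k.1 ≤ E k))
    (fun k => Topology.IsEmbedding.inclusion (le_sup_left : L k.1 ≤ E k)) (fun k => ⟨?_⟩) (fun k => (K k).subgroupOf (E k))
    (fun k => (hcl k).isClosedEmbedding_subtypeVal.isCompact_preimage (hK k).cpt) (fun k g => ?_)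
    j' hj' (fun k a => ?_) (fun γ i h => Subtype.ext (hc γ i.1 h))
    (fun γ k h => Subtype.ext (hc γ k.1 fun a ha => congrArg Subtype.val (h ⟨a, ha⟩))) μ
    (fun γ => hF γ)).mono fun x hx =>
      hx.imp id fun h δ hδ hx' => congrArg Subtype.val (h ⟨δ, hδ⟩ hx')
  · rintro _ ⟨a, rfl⟩ g
    exact ⟨⟨_, (hK k).norm.conj_mem _ a.2 g⟩, rfl⟩
  · obtain ⟨a, ha, c, hc', e'⟩ := (hmul k).le g.2
    exact ⟨⟨a, ha⟩, ⟨c, (le_sup_right : K k ≤ E k) hc'⟩, hc', Subtype.ext e'.symm⟩
  · obtain ⟨i₀, hi₀⟩ := hr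
    have hne : ∀ t : {k // ¬ High (L k)}, t.1 ≠ i₀ := fun t h => t.2 (h ▸ hi₀)
    have h1 := mem_clos2 (hK k).weak Δ
      ((MonoidHom.mulSingle (fun t : {t // t ≠ i₀} => G t.1) ⟨k.1, hne k⟩).comp (L k.1).subtype)
      ((continuous_mulSingle (A := fun t : {t // t ≠ i₀} => G t.1) _).comp continuous_subtype_val)
      (hd i₀ ⟨k.1, hne k⟩) a
    rw [hv.isInducing.closure_eq_preimage_closure_image]
    have h2 := map_mem_closure
      (f := fun (g : ∀ t : {t // t ≠ i₀}, G t.1) (t : {k // ¬ High (L k)}) => g ⟨t.1, hne t⟩)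
      (t := (Pi.map fun (k : {k // ¬ High (L k)}) (z : E k) => (z : G k.1)) ''
        Set.range fun γ => (j' γ).2) (by fun_prop) h1 (by
        rintro _ ⟨γ, hγ, rfl⟩
        exact ⟨_, ⟨⟨γ, hγ⟩, rfl⟩, rfl⟩)
    refine Set.mem_preimage.2 (Eq.subst (motive := fun y => y ∈ closure _) ?_ h2)
    funext t
    by_cases h : t = k
    · subst h
      simp
    · have h' : (⟨t.1, hne t⟩ : {t // t ≠ i₀}) ≠ ⟨k.1, hne k⟩ :=
        fun h' => h (Subtype.ext (Subtype.mk.inj h'))
      simp [Pi.mulSingle_eq_of_ne h, Pi.mulSingle_eq_of_ne h']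

omit [∀ i, SecondCountableTopology (G i)] [∀ i, MeasurableSpace (G i)] [∀ i, BorelSpace (G i)] in
/-- A discrete normal subgroup centralises every `L k` in the closure of the image. -/
theorem main_norm2 (q : Γ →* ∀ i, G i) (N : Subgroup Γ) [hN : N.Normal]
    (hfin : ∀ K, IsCompact K → {γ | γ ∈ N ∧ q γ ∈ K}.Finite) (k : ι) {L : Subgroup (G k)}
    (hk : Std L) (hq : ∀ a : L, (MonoidHom.mulSingle G k).comp L.subtype a ∈
      q.range.topologicalClosure) {γ : Γ} (hγ : γ ∈ N) : q γ k ∈ Subgroup.center (G k) := by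
  have h1 : ∀ K, IsCompact K → ((N.map q : Set (∀ i, G i)) ∩ K).Finite := fun K hK =>
    ((hfin K hK).image q).subset (by
      rintro _ ⟨⟨x, hx, rfl⟩, hx'⟩
      exact ⟨x, ⟨hx, hx'⟩, rfl⟩)
  have h2 : IsClosed (N.map q : Set (∀ i, G i)) := w1_closed_of_fin h1
  let e : L →* ∀ i, G i := (MonoidHom.mulSingle G k).comp L.subtype
  have he : Continuous e := (continuous_mulSingle k).comp continuous_subtype_val
  have h3 : ∀ (a : L), ∀ n ∈ N.map q, e a * n * (e a)⁻¹ ∈ N.map q := by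
    rintro a _ ⟨x, hx, rfl⟩
    refine closure_minimal (t := {g | g * q x * g⁻¹ ∈ N.map q}) ?_ (h2.preimage (by fun_prop))
      (hq a)
    rintro _ ⟨y, rfl⟩
    exact ⟨y * x * y⁻¹, hN.conj_mem x hx y, by simp⟩
  have h4 : (N.map q).comap e ≤ Subgroup.center L := by
    refine (hk.weak.qs _ ⟨fun n hn a => ?_⟩ (h2.preimage he)).resolve_right fun e' => ?_
    · rw [Subgroup.mem_comap, map_mul, map_mul, map_inv]
      exact h3 a _ hn
    have := hk.closed.locallyCompactSpace
    refine hk.weak.nd (w1_disc fun K hK => ?_)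
    refine ((h1 _ (hK.image he)).preimage
      ((Pi.mulSingle_injective k).comp Subtype.val_injective).injOn).subset fun a ha =>
        ⟨?_, a, ha, rfl⟩
    have : a ∈ (N.map q).comap e := by
      rw [e']
      trivial
    exact this
  refine hk.cen (main_central hk.weak.perf fun a => hk.cen fun b hb => ?_)
  have h5 : (a : G k) * q γ k * (a : G k)⁻¹ * (q γ k)⁻¹ ∈ L := by
    have := mul_mem a.2 (hk.norm.conj_mem _ (inv_mem a.2) (q γ k))
    simpa only [mul_assoc] using this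
  have h6 : (⟨_, h5⟩ : L) ∈ (N.map q).comap e := by
    have h7 := mul_mem (h3 a _ ⟨γ, hγ, rfl⟩) (inv_mem ⟨γ, hγ, rfl⟩ : (q γ)⁻¹ ∈ N.map q)
    exact (w1_single_comm k (a : G k) (q γ) ▸ h7 :)
  exact congrArg Subtype.val (Subgroup.mem_center_iff.1 (h4 h6) ⟨b, hb⟩)

/-- In a centre-free irreducible lattice no non-trivial element centralises a factor. -/
theorem no_cent2 (L : ∀ i, Subgroup (G i)) (hf : ∀ i, Std (L i))
    (j : Γ →* ∀ i, G i) (hj : Lat j)
    (hd : Hd L j) (hZ : Subgroup.center Γ = ⊥)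
    (γ : Γ) (k : ι) (h : j γ k ∈ Subgroup.centralizer (L k : Set (G k))) : γ = 1 := by
  let N : Subgroup Γ := ((Pi.evalMonoidHom G k).comp j).ker
  have hfin : ∀ K, IsCompact K → {γ | γ ∈ N ∧ w1q j k γ ∈ K}.Finite := fun K hK =>
    (hj.fin _ ((w1e G k).toHomeomorph.isCompact_preimage.2
      ((isCompact_singleton (x := 1)).prod hK))).subset fun δ hδ => ⟨hδ.1, hδ.2⟩
  have h1 : ∀ n ∈ N, n = 1 := fun n hn =>
    Subgroup.mem_bot.1 (hZ ▸ Subgroup.mem_center_iff.2 fun g => hj.inj (by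
      rw [map_mul, map_mul]
      funext i
      by_cases hi : i = k
      · subst hi
        have h2 : j n i = 1 := hn
        simp [h2]
      · exact Subgroup.mem_center_iff.1
          (main_norm2 (G := fun t : {t // t ≠ k} => G t.1) (w1q j k) N hfin ⟨i, hi⟩
            (hf i) (hd k ⟨i, hi⟩) hn) (j g i)))
  refine Subgroup.mem_bot.1 (hZ ▸ Subgroup.mem_center_iff.2 fun g => ?_)
  have h2 : g * γ * g⁻¹ * γ⁻¹ ∈ N := by
    have h3 := Subgroup.mem_center_iff.1 ((hf k).cen h) (j g k)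
    change j (g * γ * g⁻¹ * γ⁻¹) k = 1
    simp [h3]
  calc g * γ = g * γ * g⁻¹ * γ⁻¹ * (γ * g) := by group
    _ = γ * g := by rw [h1 _ h2, one_mul]

open W2 in
/-- The main theorem for abstract factors. -/
theorem main2 [Countable Γ] (L : ∀ i, Subgroup (G i))
    (hf : ∀ i, (∃ K, Low (L i) K) ∨ High (L i)) (hr : Nontrivial ι ∨ ∃ i, High (L i))
    (j : Γ →* ∀ i, G i) (hj : Lat j) (hd' : Hd L j) (hZ : Subgroup.center Γ = ⊥)
    [MeasurableSpace X] [StandardBorelSpace X] [MulAction Γ X]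
    [MeasurableConstSMul Γ X] (μ : Measure X) [IsProbabilityMeasure μ] [ErgodicSMul Γ X μ] :
    (∃ F : Set X, F.Finite ∧ μ Fᶜ = 0) ∨ ∀ᵐ x ∂μ, stabilizer Γ x = ⊥ := by
  have hs : ∀ i, Std (L i) := fun i => (hf i).elim (fun ⟨_, h⟩ => h.toStd) fun h => h.toStd
  have hc := no_cent2 L hs j hj hd' hZ
  obtain ⟨Δ, _, h5, h6⟩ : ∃ Δ : Subgroup Γ, Δ.FiniteIndex ∧ (Subsingleton ι → Δ = ⊤) ∧
      ∀ᵐ x ∂μ, (orbit Δ x).Finite ∨ ∀ δ ∈ Δ, δ • x = x → δ = 1 := by
    by_cases hH : ∃ i, High (L i)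
    · obtain ⟨i, hi⟩ := hH
      obtain ⟨Δ, a, b, c⟩ := wrapB2 L hf ⟨i, hi⟩ j hj hd' hc μ fix_meas
      exact ⟨Δ, a, fun _ => b fun k => Subsingleton.elim i k ▸ hi, c⟩
    · have := hr.resolve_right hH
      choose K hK using fun i => (hf i).resolve_right fun h => hH ⟨i, h⟩
      obtain ⟨Δ, a, c⟩ := wrapA2 L K hK j hj hd' hc μ fix_meas
      exact ⟨Δ, a, fun h => (not_subsingleton ι h).elim, c⟩
  rcases erg (Γ := Γ) μ (fin_meas (Γ := Γ) fix_meas) (fun γ => by
    simp only [Set.preimage_ofPred_eq, orbit_smul]) with h | h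
  · exact .inl (ess_finite μ h)
  have h7 : ∀ᵐ x ∂μ, ∀ δ ∈ Δ, δ • x = x → δ = 1 := by
    filter_upwards [h, h6] with x hx hx'
    exact hx'.resolve_left fun h => hx (fin_orbit Δ h)
  have h8 : ∀ γ : Γ, ∀ᵐ x ∂μ, γ • x = x → γ = 1 := fun γ => by
    rcases subsingleton_or_nontrivial ι with hι | hι
    · exact h7.mono fun x hx => hx γ (h5 hι ▸ Subgroup.mem_top γ)
    by_cases h9 : μ {x : X | γ • x = x} = 0
    · exact measure_mono_null (fun x hx => by_contra fun h => hx fun e => (h e).elim) h9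
    have := fi_centralizer μ fix_meas Δ h7 h9
    obtain ⟨i, k, hk⟩ := exists_pair_ne ι
    refine .of_forall fun _ _ => hc γ i fun a ha => ?_
    have h10 := closure_minimal
      (t := {m : ∀ t : {t // t ≠ k}, G t.1 | m ⟨i, hk⟩ * j γ i = j γ i * m ⟨i, hk⟩}) ?_
      (isClosed_eq (by fun_prop) (by fun_prop)) (mem_clos2 (hs i).weak
        (Subgroup.centralizer {γ})
        ((MonoidHom.mulSingle (fun t : {t // t ≠ k} => G t.1) ⟨i, hk⟩).comp (L i).subtype)
        ((continuous_mulSingle _).comp continuous_subtype_val) (hd' k ⟨i, hk⟩) ⟨a, ha⟩)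
    · simpa using h10
    rintro _ ⟨δ, hδ, rfl⟩
    have h11 := congrArg (fun g : Γ => j g i) (Subgroup.mem_centralizer_singleton_iff.1 hδ)
    simp only [map_mul] at h11
    exact h11
  exact .inr ((ae_all_iff.2 h8).mono fun x hx => (Subgroup.eq_bot_iff_forall _).2 hx)

end Pool.Agent.Lib.MP_60cbcc_al.H3Z
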