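import Pool.Agent.Lib.MP_60cbcc_al.H3AChart

/-!
First properties of the group of points.
-/

namespace Pool.Agent.Lib.MP_60cbcc_al.H3A

open Matrix Filter Topology

set_option linter.unusedSectionVars false

namespace Alg

open MvPolynomial

section One

variable {K : Type} [Field K] {ν : Type} [Fintype ν] [DecidableEq ν] {G : Subgroup (GL ν K)}

/-- The ring of polynomial functions has no zero divisors. -/
def Pr (G : Subgroup (GL ν K)) : Prop :=
  ∀ f f' : GL ν K → K, Reg G f → Reg G f' → (∀ g ∈ G, f g * f' g = 0) →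
    (∀ g ∈ G, f g = 0) ∨ ∀ g ∈ G, f' g = 0

theorem Pr.prod (h : Pr G) {ι : Type} (s : Finset ι) {f : ι → GL ν K → K}
    (hf : ∀ i, Reg G (f i)) (h0 : ∀ g ∈ G, ∏ i ∈ s, f i g = 0) : ∃ i ∈ s, ∀ g ∈ G, f i g = 0 := by
  classical
  induction s using Finset.induction_on with
  | empty => simpa using h0 1 G.one_mem
  | insert a s ha ih =>
    simp only [Finset.prod_insert ha] at h0
    rcases h _ _ (hf a) (Reg.prod s fun i _ => hf i) h0 with h1 | h1
    · exact ⟨a, Finset.mem_insert_self a s, h1⟩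
    · obtain ⟨i, hi, h2⟩ := ih h1
      exact ⟨i, Finset.mem_insert_of_mem hi, h2⟩

/-- One of finitely many closed sets that cover a dense set is everything. -/
theorem Pr.cover (h : Pr G) {ι J : Type} {s : Set ι} (hs : s.Finite) {f : ι → J → GL ν K → K}
    (hf : ∀ i j, Reg G (f i j)) {D : Set (GL ν K)} (hz : ZD G D)
    (hD : ∀ g ∈ D, ∃ i ∈ s, ∀ j, f i j g = 0) : ∃ i ∈ s, ∀ j, ∀ g ∈ G, f i j g = 0 := by
  by_contra hn
  have h1 : ∀ i : s, ∃ j, ¬ ∀ g ∈ G, f i j g = 0 := fun i =>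
    not_forall.1 fun h2 => hn ⟨i, i.2, h2⟩
  choose j hj using h1
  have := hs.fintype
  obtain ⟨i, -, h2⟩ := h.prod Finset.univ (f := fun i : s => f i (j i)) (fun i => hf i _)
    (hz _ (Reg.prod _ fun i _ => hf i.1 _) fun g hg => by
      obtain ⟨i, hi, h3⟩ := hD g hg
      exact Finset.prod_eq_zero (Finset.mem_univ ⟨i, hi⟩) (h3 _))
  exact hj i h2

theorem reg_left (a : Matrix ν ν K) (i j : ν) : Reg G fun g => (a * g.1) i j :=
  Reg.matmul (F := fun _ => a) (fun _ _ => Reg.const _) Reg.entry i j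

theorem reg_right (a : Matrix ν ν K) (i j : ν) : Reg G fun g => (g.1 * a) i j :=
  Reg.matmul (F' := fun _ => a) Reg.entry (fun _ _ => Reg.const _) i j

theorem reg_conj (hd : ∀ g ∈ G, g.1.det = 1) (x : GL ν K) (i j : ν) :
    Reg G fun g => (g * x * g⁻¹).1 i j :=
  Reg.matmul (F := fun g => g.1 * x.1) (reg_right x.1) (Reg.inv_entry hd) i j

theorem aeval_coords (g : GL ν K) (p : MvPolynomial (ν × ν) K) :
    aeval (coords g) p = ev g.1 p := rfl

theorem pr_of_prime (h : (vanishingIdeal K (coords '' (G : Set (GL ν K)))).IsPrime) : Pr G := by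
  rintro f f' ⟨p, hp⟩ ⟨p', hp'⟩ h0
  have h1 : p * p' ∈ vanishingIdeal K (coords '' (G : Set (GL ν K))) := by
    rintro _ ⟨g, hg, rfl⟩
    rw [map_mul, aeval_coords, aeval_coords, ← hp g hg, ← hp' g hg, h0 g hg]
  exact (h.mem_or_mem h1).imp (fun h2 g hg => (hp g hg).trans (h2 _ ⟨g, hg, rfl⟩))
    fun h2 g hg => (hp' g hg).trans (h2 _ ⟨g, hg, rfl⟩)

end One

section Two

variable {k : Type} [Field k] {K : Type} [Field K] [Algebra k K] {ν : Type} [Fintype ν]
  [DecidableEq ν] {A : Subgroup (GL ν K)}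

variable (K) in
/-- Extension of scalars. -/
abbrev io : GL ν k →* GL ν K := Matrix.GeneralLinearGroup.map (algebraMap k K)

theorem aeval_io (g : GL ν k) (p : MvPolynomial (ν × ν) k) :
    aeval (coords (io K g)) p = algebraMap k K (ev g.1 p) :=
  aeval_algebraMap_apply K (coords g) p

theorem aeval_io_eq_zero {g : GL ν k} {p : MvPolynomial (ν × ν) k} :
    aeval (coords (io K g)) p = 0 ↔ ev g.1 p = 0 := by
  rw [aeval_io, map_eq_zero]

theorem io_injective : Function.Injective (io K : GL ν k → GL ν K) := fun _ _ h =>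
  Units.ext (Matrix.ext fun i j => (algebraMap k K).injective
    (congrArg (fun g : GL ν K => g.1 i j) h))

theorem reg_aeval (p : MvPolynomial (ν × ν) k) : Reg A fun x => aeval (coords x) p :=
  ⟨MvPolynomial.map (algebraMap k K) p, fun g _ => by
    rw [← aeval_coords, aeval_map_algebraMap]⟩

variable (K) in
/-- The closure of a set of rational points. -/
def cl (S : Set (GL ν k)) : Set (GL ν K) :=
  {x | ∀ p, (∀ s ∈ S, ev s.1 p = 0) → aeval (coords x) p = 0}

theorem io_mem_cl {S : Set (GL ν k)} {s : GL ν k} (hs : s ∈ S) : io K s ∈ cl K S :=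
  fun _ hp => aeval_io_eq_zero.2 (hp s hs)

theorem exists_split {σ : Type} (q : MvPolynomial σ K) :
    ∃ (T : Finset (Module.Basis.ofVectorSpaceIndex k K)) (p : _ → MvPolynomial σ k),
      ∀ x : σ → K, aeval x q = ∑ i ∈ T, Module.Basis.ofVectorSpace k K i * aeval x (p i) := by
  classical
  refine ⟨q.support.biUnion fun m => ((Module.Basis.ofVectorSpace k K).repr (coeff m q)).support,
    fun i => ∑ m ∈ q.support, monomial m ((Module.Basis.ofVectorSpace k K).repr (coeff m q) i),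
    fun x => ?_⟩
  conv_lhs => rw [q.as_sum]
  simp only [map_sum, aeval_monomial, Finset.mul_sum]
  rw [Finset.sum_comm]
  refine Finset.sum_congr rfl fun m hm => ?_
  simp only [← mul_assoc, ← Finset.sum_mul]
  congr 1
  conv_lhs => rw [← (Module.Basis.ofVectorSpace k K).linearCombination_repr (coeff m q)]
  rw [Finsupp.linearCombination_apply, Finsupp.sum_of_support_subset _
    (Finset.subset_biUnion_of_mem (fun m =>
      ((Module.Basis.ofVectorSpace k K).repr (coeff m q)).support) hm)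
      (fun i a => a • Module.Basis.ofVectorSpace k K i) fun _ _ => zero_smul _ _]
  exact Finset.sum_congr rfl fun i _ => by rw [Algebra.smul_def, mul_comm]

/-- Polynomials over the large field that vanish on `S` vanish on its closure. -/
theorem split {S : Set (GL ν k)} (hS : ∀ s ∈ S, io K s ∈ A) {x : GL ν K} (hx : x ∈ cl K S)
    (hxA : x ∈ A) {F : GL ν K → K} (hF : Reg A F) (h : ∀ s ∈ S, F (io K s) = 0) : F x = 0 := by
  obtain ⟨q, hq⟩ := hF
  obtain ⟨T, p, hp⟩ := exists_split (k := k) q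
  rw [hq x hxA, ← aeval_coords, hp]
  refine Finset.sum_eq_zero fun i hi => ?_
  rw [hx (p i) fun s hs => ?_, mul_zero]
  have h1 := h s hs
  rw [hq _ (hS s hs), ← aeval_coords, hp] at h1
  refine linearIndependent_iff'.1 (Module.Basis.ofVectorSpace k K).linearIndependent T
    (fun i => ev s.1 (p i)) ?_ i hi
  rw [← h1]
  exact Finset.sum_congr rfl fun i _ => by rw [aeval_io, Algebra.smul_def, mul_comm]

theorem cl_le (hA : IsKClosed k A) {S : Set (GL ν k)} (hS : ∀ s ∈ S, io K s ∈ A) :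
    ∀ x ∈ cl K S, x ∈ A := by
  obtain ⟨I, hI⟩ := hA
  exact fun x hx => (hI x).2 fun p hp => hx p fun s hs =>
    aeval_io_eq_zero.1 ((hI _).1 (hS s hs) p hp)

/-- The closure of a subgroup. -/
def clG (hA : IsKClosed k A) (hd : ∀ g ∈ A, g.1.det = 1) (N : Subgroup (GL ν k))
    (hN : ∀ s ∈ (N : Set (GL ν k)), io K s ∈ A) : Subgroup (GL ν K) where
  carrier := cl K (N : Set (GL ν k))
  one_mem' := by simpa only [map_one] using io_mem_cl (K := K) (S := (N : Set (GL ν k))) N.one_mem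
  mul_mem' := fun {x y} hx hy p hp => by
    have hxA := cl_le hA hN x hx
    have hyA := cl_le hA hN y hy
    have h1 := split hN hx hxA ((reg_aeval p).transl A.one_mem hyA) fun n hn => by
      have h2 := split hN hy hyA ((reg_aeval p).transl (hN n hn) A.one_mem) fun s hs => by
        rw [mul_one, ← map_mul, aeval_io_eq_zero]
        exact hp _ (N.mul_mem hn hs)
      rwa [mul_one, ← one_mul (io K n)] at h2
    rwa [one_mul] at h1
  inv_mem' := fun {x} hx p hp =>
    split hN hx (cl_le hA hN x hx) (Reg.inv hd (reg_aeval p)) fun s hs => by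
      rw [← map_inv, aeval_io_eq_zero]
      exact hp _ (N.inv_mem hs)

theorem clG_closed (hA : IsKClosed k A) (hd : ∀ g ∈ A, g.1.det = 1) (N : Subgroup (GL ν k))
    (hN : ∀ s ∈ (N : Set (GL ν k)), io K s ∈ A) : IsKClosed k (clG hA hd N hN) :=
  ⟨vanishingIdeal k (coords '' (N : Set (GL ν k))), fun _ =>
    ⟨fun hg p hp => hg p fun s hs => hp _ ⟨s, hs, rfl⟩,
      fun hg p hp => hg p (by rintro _ ⟨s, hs, rfl⟩; exact hp s hs)⟩⟩

theorem cl_conj (hA : IsKClosed k A) (hd : ∀ g ∈ A, g.1.det = 1) {N : Subgroup (GL ν k)}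
    (hN : ∀ s ∈ (N : Set (GL ν k)), io K s ∈ A) {D : Set (GL ν k)} (hD : ∀ s ∈ D, io K s ∈ A)
    (hn : ∀ g ∈ D, ∀ x ∈ N, g * x * g⁻¹ ∈ N) {g x : GL ν K} (hg : g ∈ cl K D)
    (hx : x ∈ cl K (N : Set (GL ν k))) : g * x * g⁻¹ ∈ cl K (N : Set (GL ν k)) := fun p hp => by
  have hxA := cl_le hA hN x hx
  refine split hD hg (cl_le hA hD g hg) (F := fun z => aeval (coords (z * x * z⁻¹)) p)
    ((reg_aeval p).comp (fun z hz => A.mul_mem (A.mul_mem hz hxA) (A.inv_mem hz))
      (reg_conj hd x)) fun d hd' => ?_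
  refine split hN hx hxA ((reg_aeval p).transl (hD d hd') (A.inv_mem (hD d hd'))) fun s hs => ?_
  rw [← map_inv, ← map_mul, ← map_mul, aeval_io_eq_zero]
  exact hp _ (hn d hd' s hs)

variable (k) in
/-- Polynomial maps of matrices with coefficients in the small field. -/
def PolyMap (τ : Matrix ν ν K → Matrix ν ν K) : Prop :=
  ∃ φ : ν × ν → MvPolynomial (ν × ν) k, ∀ (x : Matrix ν ν K) (ij : ν × ν),
    aeval (fun ij : ν × ν => x ij.1 ij.2) (φ ij) = τ x ij.1 ij.2

theorem polyMap_tr : PolyMap k fun x : Matrix ν ν K => xᵀ :=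
  ⟨fun ij => X (ij.2, ij.1), fun _ _ => aeval_X _ _⟩

theorem polyMap_mul (a b : GL ν k) :
    PolyMap k fun x : Matrix ν ν K => (io K a).1 * x * (io K b).1 :=
  ⟨fun ij => ∑ d, (∑ c, C (a.1 ij.1 c) * X (c, d)) * C (b.1 d ij.2), fun x ij => by
    simp only [map_sum, map_mul, aeval_C, aeval_X, Matrix.mul_apply]
    rfl⟩

theorem closed_comap {τ : Matrix ν ν K → Matrix ν ν K} (hτ : PolyMap k τ) {σ : GL ν K → GL ν K}
    (hσ : ∀ g, (σ g).1 = τ g.1) {N N' : Subgroup (GL ν K)} (h : ∀ g, g ∈ N' ↔ σ g ∈ N)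
    (hN : IsKClosed k N) : IsKClosed k N' := by
  obtain ⟨φ, hφ⟩ := hτ
  obtain ⟨I, hI⟩ := hN
  refine ⟨Ideal.span (bind₁ φ '' (I : Set (MvPolynomial (ν × ν) k))), fun g => ?_⟩
  have e : (fun ij => aeval (coords g) (φ ij)) = coords (σ g) :=
    funext fun ij => (hφ g.1 ij).trans (by rw [← hσ]; rfl)
  rw [h, hI, zeroLocus_span]
  simp only [mem_zeroLocus_iff, Set.mem_ofPred_eq, Set.forall_mem_image, aeval_bind₁, e]
  rfl

end Two

section Three

variable {k : Type} [Field k] {ν : Type} [Fintype ν] [DecidableEq ν]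
  {A : Subgroup (GL ν (AlgebraicClosure k))}

theorem transport (hA : IsAlmostSimple k A)
    {τ τ' : Matrix ν ν (AlgebraicClosure k) → Matrix ν ν (AlgebraicClosure k)}
    (hτ : PolyMap k τ) (hτ' : PolyMap k τ') (hi : ∀ x, τ' (τ x) = x)
    (σ : GL ν (AlgebraicClosure k) ≃ GL ν (AlgebraicClosure k)) (hσ : ∀ g, (σ g).1 = τ g.1)
    (hσ' : ∀ g, (σ.symm g).1 = τ' g.1) {A' : Subgroup (GL ν (AlgebraicClosure k))}
    (hA' : ∀ g, g ∈ A' ↔ σ g ∈ A)
    (T : Subgroup (GL ν (AlgebraicClosure k)) → Subgroup (GL ν (AlgebraicClosure k)))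
    (hT : ∀ N g, g ∈ T N ↔ σ.symm g ∈ N)
    (hc : ∀ x y, x * y = y * x → σ x * σ y = σ y * σ x)
    (hj : ∀ g ∈ A, ∃ g' ∈ A', ∀ x, σ.symm (g * x * g⁻¹) = g' * σ.symm x * g'⁻¹) :
    IsAlmostSimple k A' := by
  have hs : ∀ g ∈ A, σ.symm g ∈ A' := fun g hg => (hA' _).2 (by rwa [σ.apply_symm_apply])
  obtain ⟨φ, hφ⟩ := id hτ
  obtain ⟨ψ, hψ⟩ := id hτ'
  have e1 : ∀ g, (fun ij => aeval (coords g) (φ ij)) = coords (σ g) := fun g =>
    funext fun ij => (hφ g.1 ij).trans (by rw [← hσ]; rfl)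
  have e2 : ∀ g, (fun ij => aeval (coords g) (ψ ij)) = coords (σ.symm g) := fun g =>
    funext fun ij => (hψ g.1 ij).trans (by rw [← hσ']; rfl)
  have e3 : vanishingIdeal (AlgebraicClosure k)
      (coords '' (A' : Set (GL ν (AlgebraicClosure k)))) =
      (vanishingIdeal (AlgebraicClosure k) (coords '' (A : Set (GL ν (AlgebraicClosure k))))).comap
        (bind₁ fun ij => MvPolynomial.map (algebraMap k (AlgebraicClosure k)) (ψ ij)) := by
    ext q
    simp only [Ideal.mem_comap, mem_vanishingIdeal_iff, Set.forall_mem_image, aeval_bind₁,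
      aeval_map_algebraMap, e2]
    exact ⟨fun h g hg => h (hs g hg), fun h g hg => by
      simpa only [σ.symm_apply_apply] using h ((hA' g).1 hg)⟩
  refine ⟨closed_comap hτ hσ hA' hA.closed, le_antisymm (fun q hq => ?_) ?_, ?_, ?_, ?_⟩
  · rw [e3, Ideal.mem_comap, hA.defined] at hq
    have h1 : bind₁ (fun ij => MvPolynomial.map (algebraMap k (AlgebraicClosure k)) (φ ij))
        (bind₁ (fun ij => MvPolynomial.map (algebraMap k (AlgebraicClosure k)) (ψ ij)) q) = q := by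
      refine MvPolynomial.funext fun z => ?_
      change aeval z _ = aeval z q
      simp only [aeval_bind₁, aeval_map_algebraMap]
      have h2 := hφ (Matrix.of fun i j => z (i, j))
      simp only [Matrix.of_apply, Prod.mk.eta] at h2
      simp only [h2, hψ, hi, Matrix.of_apply, Prod.mk.eta]
    rw [← h1, ← Ideal.mem_comap]
    refine Ideal.map_le_iff_le_comap.2 (fun p hp => ?_) hq
    rw [Ideal.mem_comap, Ideal.mem_comap, ← map_bind₁]
    refine Ideal.mem_map_of_mem _ ?_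
    rintro _ ⟨g, hg, rfl⟩
    rw [aeval_bind₁, e1]
    exact hp _ ⟨_, (hA' g).1 hg, rfl⟩
  · refine Ideal.map_le_iff_le_comap.2 fun p hp x hx => ?_
    rw [aeval_map_algebraMap]
    exact hp x hx
  · rw [e3]
    exact hA.connected.comap _
  · obtain ⟨x, hx, y, hy, h⟩ := hA.noncomm
    exact ⟨_, hs x hx, _, hs y hy, fun h1 => h (by
      simpa only [σ.apply_symm_apply] using hc _ _ h1)⟩
  · intro N hN hn hk
    rcases hA.simple (T N) (fun g hg => by
        simpa only [σ.apply_symm_apply] using (hA' _).1 (hN ((hT N g).1 hg)))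
      (fun g hg x hx => by
        obtain ⟨g', hg', h⟩ := hj g hg
        rw [hT, h]
        exact hn g' hg' _ ((hT N x).1 hx)) (closed_comap hτ' hσ' (hT N) hk) with h | h
    · exact Or.inl (Finite.of_injective (fun x : N => (⟨σ x, (hT N _).2 (by
        rw [σ.symm_apply_apply]; exact x.2)⟩ : T N)) fun x y e =>
          Subtype.ext (σ.injective (congrArg Subtype.val e)))
    · refine Or.inr (le_antisymm hN fun g hg => ?_)
      have := (hT N _).1 (h ▸ (hA' g).1 hg)
      rwa [σ.symm_apply_apply] at this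

theorem det_one (hA : IsAlmostSimple k A) : ∀ g ∈ A, g.1.det = 1 := by
  have hm : ∀ g : GL ν (AlgebraicClosure k),
      g ∈ A ⊓ (Matrix.GeneralLinearGroup.det).ker ↔ g ∈ A ∧ g.1.det = 1 := fun g => by
    rw [Subgroup.mem_inf, MonoidHom.mem_ker, Units.ext_iff]
    rfl
  have hc : ∀ g h : GL ν (AlgebraicClosure k), (g * h * g⁻¹).1.det = h.1.det := fun g h =>
    Matrix.det_units_conj g h.1
  rcases hA.simple (A ⊓ (Matrix.GeneralLinearGroup.det).ker) inf_le_left (fun g hg x hx => by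
      rw [hm] at hx ⊢
      exact ⟨A.mul_mem (A.mul_mem hg hx.1) (A.inv_mem hg), (hc g x).trans hx.2⟩) (by
      obtain ⟨I, hI⟩ := hA.closed
      refine ⟨Ideal.span (insert ((Matrix.of fun i j => X (i, j)).det - 1) I), fun g => ?_⟩
      rw [hm, hI, zeroLocus_span, and_comm]
      simp only [Set.mem_ofPred_eq, Set.forall_mem_insert, map_sub, map_one, sub_eq_zero]
      refine and_congr ?_ Iff.rfl
      rw [AlgHom.map_det]
      refine Eq.congr_left (congrArg Matrix.det (Matrix.ext fun i j => ?_))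
      simp [coords]) with h | h
  · obtain ⟨x, hx, y, hy, hxy⟩ := hA.noncomm
    obtain ⟨c, -, h1⟩ := (pr_of_prime hA.connected).cover (Set.toFinite
      ((A ⊓ (Matrix.GeneralLinearGroup.det).ker : Subgroup _) : Set (GL ν (AlgebraicClosure k))))
      (f := fun c (ij : ν × ν) g => (g.1 * y.1) ij.1 ij.2 - ((c * y).1 * g.1) ij.1 ij.2)
      (fun c ij => (reg_right _ _ _).sub (reg_left _ _ _)) (D := A) (fun _ _ h => h)
      (fun g hg => ⟨g * y * g⁻¹ * y⁻¹, (hm _).2 ⟨A.mul_mem (A.mul_mem (A.mul_mem hg hy)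
        (A.inv_mem hg)) (A.inv_mem hy), by
          rw [Units.val_mul, Matrix.det_mul, hc, ← Matrix.det_mul, Units.mul_inv, Matrix.det_one]⟩,
        fun ij => by
          rw [← Units.val_mul, ← Units.val_mul, inv_mul_cancel_right, inv_mul_cancel_right,
            sub_self]⟩)
    have h2 : ∀ g ∈ A, g * y = c * y * g := fun g hg =>
      Units.ext (Matrix.ext fun i j => sub_eq_zero.1 (h1 (i, j) g hg))
    have h3 := h2 1 A.one_mem
    rw [one_mul, mul_one] at h3
    exact (hxy (by rw [h2 x hx, ← h3])).elim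
  · exact fun g hg => ((hm g).1 (h.symm ▸ hg)).2

end Three

end Alg

variable {k : Type} [NontriviallyNormedField k] [ProperSpace k] {ν : Type} [Fintype ν]
  [DecidableEq ν] {G : Subgroup (GL ν k)}

open Alg

theorem Alg.mem_cl {A : Subgroup (GL ν (AlgebraicClosure k))} (hA : IsAlmostSimple k A)
    {D : Set (GL ν k)} (hz : ZD (points k A) D) : ∀ x ∈ A, x ∈ cl (AlgebraicClosure k) D :=
  fun x hx p hp => hA.dense p (eventually_nhdsWithin_of_forall
    (hz (fun g => ev g.1 p) ⟨p, fun _ _ => rfl⟩ hp)) x hx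

theorem Alg.zd_self : ZD G G := fun _ _ h => h

theorem Good.cj (hG : Good G) (h : GL ν k) : Good (cj h G) := by
  obtain ⟨A, hA, rfl⟩ := hG
  have h1 := polyMap_mul (K := AlgebraicClosure k) h h⁻¹
  have h2 := polyMap_mul (K := AlgebraicClosure k) h⁻¹ h
  rw [map_inv] at h1 h2
  refine ⟨H3A.cj (io _ h) A, ?_, Subgroup.ext fun g => ?_⟩
  · generalize io (AlgebraicClosure k) h = a at h1 h2
    refine transport hA h1 h2 (fun x => ?_) ⟨fun g => a * g * a⁻¹, fun g => a⁻¹ * g * a,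
      fun g => by simp only [mul_assoc, inv_mul_cancel_left, inv_mul_cancel, mul_one],
      fun g => by simp only [mul_assoc, mul_inv_cancel_left, mul_inv_cancel, mul_one]⟩
      (fun g => rfl) (fun g => rfl) (fun _ => mem_cj) (H3A.cj a⁻¹)
      (fun _ _ => by rw [mem_cj, inv_inv]; rfl) (fun x y e => ?_)
      fun g hg => ⟨a⁻¹ * g * a, ?_, fun x => ?_⟩
    · rw [mul_assoc, mul_assoc, Units.inv_mul, mul_one, Units.inv_mul_cancel_left]
    · simp only [Equiv.coe_fn_mk, conj_mul, e]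
    · simpa only [mem_cj, mul_assoc, mul_inv_cancel_left, mul_inv_cancel, mul_one] using hg
    · simp only [Equiv.coe_fn_symm_mk]
      group
  · rw [mem_cj, points, Subgroup.mem_comap, points, Subgroup.mem_comap, mem_cj, map_mul, map_mul,
      map_inv]

theorem Good.tr (hG : Good G) : Good (tr G) := by
  obtain ⟨A, hA, rfl⟩ := hG
  refine ⟨H3A.tr A, transport hA polyMap_tr polyMap_tr transpose_transpose
    ⟨trU, trU, trU_trU, trU_trU⟩ (fun _ => rfl) (fun _ => rfl) (fun _ => Iff.rfl) H3A.tr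
    (fun _ _ => Iff.rfl) (fun x y e => ?_) fun g hg => ⟨trU g⁻¹, A.inv_mem hg, fun x => ?_⟩,
    Subgroup.ext fun g => Iff.rfl⟩
  · change trU x * trU y = trU y * trU x
    rw [← trU_mul, ← trU_mul, e]
  · change trU _ = _ * trU x * _
    rw [trU_mul, trU_mul, trU_inv, inv_inv, mul_assoc]

theorem Good.closed (hG : Good G) {g : GL ν k}
    (h : ∀ p, (∀ x ∈ G, ev x.1 p = 0) → ev g.1 p = 0) : g ∈ G := by
  obtain ⟨A, hA, rfl⟩ := hG
  exact cl_le hA.closed (S := points k A) (fun _ hs => hs) _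
    fun p hp => aeval_io_eq_zero.2 (h p hp)

theorem Good.isClosed (hG : Good G) : IsClosed (G : Set (GL ν k)) := by
  have : (G : Set (GL ν k)) = ⋂ p ∈ {p | ∀ x ∈ G, ev x.1 p = 0}, {g | ev g.1 p = 0} :=
    Set.ext fun g => ⟨fun hg => Set.mem_iInter₂.2 fun p hp => hp g hg,
      fun hg => hG.closed fun p hp => Set.mem_iInter₂.1 hg p hp⟩
  rw [this]
  exact isClosed_biInter fun p _ =>
    isClosed_eq ((continuous_ev p).comp Units.continuous_val) continuous_const

theorem Good.prime (hG : Good G) {f f' : GL ν k → k} (hf : Reg G f) (hf' : Reg G f')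
    (h : ∀ g ∈ G, f g * f' g = 0) : (∀ g ∈ G, f g = 0) ∨ ∀ g ∈ G, f' g = 0 := by
  obtain ⟨A, hA, rfl⟩ := hG
  obtain ⟨p, hp⟩ := hf
  obtain ⟨p', hp'⟩ := hf'
  refine (pr_of_prime hA.connected _ _ (reg_aeval p) (reg_aeval p') fun x hx => ?_).imp
    (fun h1 g hg => (hp g hg).trans (aeval_io_eq_zero.1 (h1 _ hg)))
    fun h1 g hg => (hp' g hg).trans (aeval_io_eq_zero.1 (h1 _ hg))
  rw [← map_mul]
  refine mem_cl hA zd_self x hx _ fun g hg => ?_
  rw [← aeval_coords, map_mul, aeval_coords, aeval_coords, ← hp g hg, ← hp' g hg, h g hg]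

theorem Good.loc (hG : Good G) {f : GL ν k → k} (hf : Reg G f)
    (h : ∀ᶠ g in 𝓝[G] (1 : GL ν k), f g = 0) : ∀ g ∈ G, f g = 0 := by
  obtain ⟨A, hA, rfl⟩ := hG
  obtain ⟨p, hp⟩ := hf
  refine fun g hg => (hp g hg).trans (aeval_io_eq_zero.1 (hA.dense p ?_ _ hg))
  filter_upwards [h, self_mem_nhdsWithin] with x h1 h2
  rw [← hp x h2, h1]

theorem Good.noncomm (hG : Good G) : ∃ x ∈ G, ¬ Cen G x := by
  obtain ⟨A, hA, rfl⟩ := hG
  by_contra hn
  have h1 : ∀ y ∈ A, (∀ s ∈ points k A, io _ s * y = y * io _ s) → ∀ x ∈ A, x * y = y * x :=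
    fun y _ h x hx => Units.ext (Matrix.ext fun i j => by
      have h2 := split (K := AlgebraicClosure k) (S := (points k A : Set (GL ν k)))
        (fun _ hs => hs) (mem_cl hA zd_self x hx) hx
        ((reg_right y.1 i j).sub (reg_left y.1 i j)) fun s hs => by
          rw [← Units.val_mul, h s hs, Units.val_mul, sub_self]
      exact sub_eq_zero.1 h2)
  obtain ⟨x, hx, y, hy, h⟩ := hA.noncomm
  refine h (h1 y hy (fun s hs => (h1 _ hs (fun t ht => ?_) y hy).symm) x hx)
  rw [← map_mul, ← map_mul, not_not.1 (fun h2 => hn ⟨s, hs, h2⟩) t ht]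

theorem Alg.simple (hG : Good G) {N : Subgroup (GL ν k)} (hN : N ≤ G) {D : Set (GL ν k)}
    (hD : D ⊆ G) (hz : ZD G D) (hn : ∀ g ∈ D, ∀ x ∈ N, g * x * g⁻¹ ∈ N) :
    (N : Set (GL ν k)).Finite ∨ ZD G N := by
  obtain ⟨A, hA, rfl⟩ := hG
  rcases hA.simple (clG hA.closed (det_one hA) N hN) (cl_le hA.closed (S := N) hN)
    (fun g hg x hx => cl_conj hA.closed (det_one hA) hN hD hn (mem_cl hA hz g hg) hx)
    (clG_closed _ _ _ _) with h | h
  · exact Or.inl (Finite.of_injective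
      (fun x : N => (⟨io _ x.1, io_mem_cl (S := (N : Set (GL ν k))) x.2⟩ :
        clG hA.closed (det_one hA) N hN))
      fun x y e => Subtype.ext (io_injective (K := AlgebraicClosure k) (congrArg Subtype.val e)))
  · refine Or.inr ?_
    rintro f ⟨p, hp⟩ h0 g hg
    have h1 : io _ g ∈ clG hA.closed (det_one hA) N hN := h.symm ▸ hg
    exact (hp g hg).trans (aeval_io_eq_zero.1 (h1 p fun s hs => (hp s (hN hs)).symm.trans (h0 s hs)))

theorem Good.simple (hG : Good G) {N : Subgroup (GL ν k)} (hN : N ≤ G)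
    (hn : ∀ g ∈ G, ∀ x ∈ N, g * x * g⁻¹ ∈ N) : (N : Set (GL ν k)).Finite ∨ ZD G N :=
  Alg.simple hG hN subset_rfl zd_self hn

theorem Good.det (hG : Good G) : ∀ g ∈ G, g.1.det = 1 := by
  obtain ⟨A, hA, rfl⟩ := hG
  refine fun g hg => (algebraMap k (AlgebraicClosure k)).injective ?_
  rw [map_one, RingHom.map_det]
  exact det_one hA _ hg

theorem ZD.cen {D : Set (GL ν k)} (hz : ZD G D) {x : GL ν k} (h : ∀ g ∈ D, g * x = x * g) :
    Cen G x := fun g hg => Units.ext (Matrix.ext fun i j => sub_eq_zero.1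
  (hz _ ((reg_right x.1 i j).sub (reg_left x.1 i j)) (fun s hs => by
    rw [← Units.val_mul, h s hs, Units.val_mul, sub_self]) g hg))

theorem Good.cen_fin (hG : Good G) : {x | x ∈ G ∧ Cen G x}.Finite := by
  rcases hG.simple (N := G ⊓ Subgroup.centralizer G) inf_le_left (fun g hg x hx => by
    rwa [hx.2 g hg, mul_inv_cancel_right]) with h | h
  · exact h
  · obtain ⟨x, hx, h1⟩ := hG.noncomm
    exact (h1 (h.cen fun g hg => (hg.2 x hx).symm)).elim

/-- A polynomial map with finitely many values on a dense set is constant. -/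
theorem Good.fin_const (hG : Good G) {m m' : Type} [Finite m] [Finite m']
    {F : GL ν k → Matrix m m' k} (hF : ∀ a b, Reg G fun g => F g a b) {D : Set (GL ν k)}
    (hD : D ⊆ G) (hz : ZD G D) (hf : (F '' D).Finite) : ∀ g ∈ G, F g = F 1 := by
  obtain ⟨c, -, h⟩ := Pr.cover (fun _ _ => hG.prime) hf
    (f := fun c (ab : m × m') g => F g ab.1 ab.2 - c ab.1 ab.2)
    (fun c ab => (hF _ _).sub (Reg.const _)) hz fun g hg => ⟨_, ⟨g, hg, rfl⟩, fun _ => sub_self _⟩
  have h1 : ∀ g ∈ G, F g = c := fun g hg => Matrix.ext fun a b => sub_eq_zero.1 (h (a, b) g hg)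
  exact fun g hg => (h1 g hg).trans (h1 1 G.one_mem).symm

theorem ZD.mono {D D' : Set (GL ν k)} (hz : ZD G D) (h : D ⊆ D') : ZD G D' :=
  fun f hf h0 => hz f hf fun s hs => h0 s (h hs)

theorem ZD.mem_Grp {D : Set (GL ν k)} (hz : ZD G D) {R : ν → ν → Prop}
    {ht : ∀ i j l, R i j → R j l → R i l} (h : ∀ g ∈ D, g ∈ Grp R ht) : G ≤ Grp R ht :=
  fun g hg i j hij => not_not.1 fun hr => hij (hz (fun g => (g.1 - 1) i j)
    ((Reg.entry i j).sub (Reg.const _)) (fun s hs => not_not.1 fun h1 => hr (h s hs i j h1)) g hg)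

theorem ZD.irr {D : Set (GL ν k)} (hz : ZD G D) (hD : D ⊆ G) {m : Type} [Fintype m]
    [DecidableEq m] {ρ : GL ν k → Matrix m m k} (hρ : Rep G ρ) (h : Irr (ρ '' G) ⊥ ⊤) :
    Irr (ρ '' D) ⊥ ⊤ := by
  refine ⟨h.lt, fun x hx => h.inv₂ x (Set.image_mono hD hx), fun _ _ _ _ => trivial,
    fun V h1 h2 hV => h.irr V h1 h2 ?_⟩
  rintro _ ⟨g, hg, rfl⟩ v hv
  refine (Subspace.forall_mem_dualAnnihilator_apply_eq_zero_iff V _).1 fun φ hφ => ?_
  refine hz (fun g => φ (ρ g *ᵥ v)) ?_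
    (fun s hs => (Submodule.mem_dualAnnihilator φ).1 hφ _ (hV _ ⟨s, hs, rfl⟩ v hv)) g hg
  exact (Reg.sum Finset.univ fun a _ => (Reg.sum Finset.univ fun b _ =>
    (hρ.reg a b).mul (Reg.const (v b))).mul (Reg.const _)).congr
      fun g _ => (LinearMap.pi_apply_eq_sum_univ φ (ρ g *ᵥ v)).symm

/-- A subgroup normalised by a dense set is central or dense. -/
theorem Good.dich (hG : Good G) {N : Subgroup (GL ν k)} (hN : N ≤ G) {D : Set (GL ν k)}
    (hD : D ⊆ G) (hz : ZD G D) (hn : ∀ g ∈ D, ∀ x ∈ N, g * x * g⁻¹ ∈ N) :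
    (∀ x ∈ N, Cen G x) ∨ ZD G N := by
  refine (Alg.simple hG hN hD hz hn).imp_left fun h x hx g hg => ?_
  have h1 := Units.ext (hG.fin_const (F := fun g => (g * x * g⁻¹).1) (reg_conj hG.det x) hD hz
    ((h.image Units.val).subset (by rintro _ ⟨d, hd, rfl⟩; exact ⟨_, hn d hd x hx, rfl⟩)) g hg)
  rwa [one_mul, inv_one, mul_one, mul_inv_eq_iff_eq_mul] at h1

theorem Good.ker_fin (hG : Good G) {m : Type} [Fintype m] [DecidableEq m]
    {ρ : GL ν k → Matrix m m k} (hρ : Rep G ρ) (hn : ∃ g ∈ G, ρ g ≠ 1) :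
    {g | g ∈ G ∧ ρ g = 1}.Finite := by
  let N : Subgroup (GL ν k) :=
    { carrier := {g | g ∈ G ∧ ρ g = 1}
      one_mem' := ⟨G.one_mem, hρ.one⟩
      mul_mem' := fun {a b} ha hb =>
        ⟨G.mul_mem ha.1 hb.1, by rw [hρ.mul a ha.1 b hb.1, ha.2, hb.2, one_mul]⟩
      inv_mem' := fun {a} ha =>
        ⟨G.inv_mem ha.1, by simpa only [ha.2, mul_one] using (hρ.inv_mul ha.1).1⟩ }
  rcases hG.simple (N := N) (fun _ h => h.1) (fun g hg x hx =>
    ⟨G.mul_mem (G.mul_mem hg hx.1) (G.inv_mem hg), by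
      rw [hρ.mul _ (G.mul_mem hg hx.1) _ (G.inv_mem hg), hρ.mul g hg x hx.1, hx.2, mul_one,
        (hρ.inv_mul hg).2]⟩) with h | h
  · exact h
  · obtain ⟨g, hg, h1⟩ := hn
    exact (h1 (Matrix.ext fun a b => sub_eq_zero.1 (h _ ((hρ.reg a b).sub (Reg.const _))
      (fun s hs => by rw [hs.2, sub_self]) g hg))).elim

theorem Good.ab (hG : Good G) {m : Type} [Fintype m] [DecidableEq m]
    {ρ : GL ν k → Matrix m m k} (hρ : Rep G ρ) (hc : ∀ g ∈ G, ∀ h ∈ G, ρ g * ρ h = ρ h * ρ g) :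
    ∀ g ∈ G, ρ g = 1 := by
  by_contra hn
  have hf := hG.ker_fin hρ (by simpa only [not_forall, exists_prop] using hn)
  obtain ⟨x, hx, h1⟩ := hG.noncomm
  refine h1 fun g hg => ?_
  have h2 := Units.ext (hG.fin_const (F := fun g => (g * x * g⁻¹).1) (reg_conj hG.det x)
    subset_rfl zd_self ((hf.image fun c => (c * x).1).subset ?_) g hg)
  · rwa [one_mul, inv_one, mul_one, mul_inv_eq_iff_eq_mul] at h2
  · rintro _ ⟨d, hd, rfl⟩
    have h3 := G.mul_mem (G.mul_mem hd hx) (G.inv_mem hd)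
    refine ⟨d * x * d⁻¹ * x⁻¹, ⟨G.mul_mem h3 (G.inv_mem hx), ?_⟩,
      congrArg Units.val (inv_mul_cancel_right _ _)⟩
    rw [hρ.mul _ h3 _ (G.inv_mem hx), hρ.mul _ (G.mul_mem hd hx) _ (G.inv_mem hd), hρ.mul d hd x hx,
      hc d hd x hx, mul_assoc (ρ x), (hρ.inv_mul hd).2, mul_one, (hρ.inv_mul hx).2]

theorem Good.sum_zero (hG : Good G) {y : ν → ℝ} (hy : y ∈ aa G) : ∑ i, y i = 0 := by
  induction hy using Submodule.span_induction with
  | mem x hx =>
    obtain ⟨w, hw, rfl⟩ := hx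
    have h0 : ∀ s : Finset ν, ∏ i ∈ s, (pw k : k) ^ w i = (pw k : k) ^ ∑ i ∈ s, w i := fun s => by
      induction s using Finset.induction_on with
      | empty => simp
      | insert a s ha ih =>
        rw [Finset.prod_insert ha, Finset.sum_insert ha, ih, zpow_add₀ (pw k).ne_zero]
    have h1 := congrArg norm (hG.det _ (hw (pw k)))
    rw [dg_val, det_diagonal, h0, norm_zpow, norm_one,
      zpow_eq_one_iff_right₀ pw_pos.le pw_lt.ne] at h1
    simp only [cst]
    exact_mod_cast h1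
  | zero => simp
  | add x y _ _ h1 h2 => simp only [Pi.add_apply, Finset.sum_add_distrib, h1, h2, add_zero]
  | smul c x _ h => simp only [Pi.smul_apply, smul_eq_mul, ← Finset.mul_sum, h, mul_zero]

theorem Good.eq_zero_of_cen (hG : Good G) {y : ν → ℤ} (hy : y ∈ YY G) (h : G ≤ Zgl (cst y)) :
    y = 0 := by
  by_contra hn
  refine infinite_dg hn (hG.cen_fin.subset ?_)
  rintro _ ⟨t, rfl⟩
  exact ⟨hy t, fun g hg => Zgl_comm (h hg) t⟩

end Pool.Agent.Lib.MP_60cbcc_al.H3A
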