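import Mathlib

/-!
The abstract properties of a factor used in the proof.
-/

namespace Pool.Agent.Lib.MP_60cbcc_al.H3Z

open Topology

/-- Every continuous seminorm vanishing on `F` vanishes (Mautner phenomenon). -/
def Mau {L : Type} [Group L] [TopologicalSpace L] (F : Set L) : Prop :=
  ∀ φ : L → ℝ, Continuous φ → φ 1 = 0 → (∀ g, φ g⁻¹ = φ g) → (∀ g h, φ (g * h) ≤ φ g + φ h) →
    (∀ f ∈ F, φ f = 0) → ∀ g, φ g = 0

theorem Mau.of_closure {L : Type} [Group L] [TopologicalSpace L] {F : Set L} {b : L}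
    (hb : b ∈ Subgroup.closure F) (h : Mau {b}) : Mau F := by
  intro φ hc h1 hi hm hF
  have h0 : ∀ g, 0 ≤ φ g := fun g => by
    have := hm g g⁻¹
    rw [mul_inv_cancel, h1, hi] at this
    linarith
  refine h φ hc h1 hi hm ?_
  rintro _ rfl
  clear h
  induction hb using Subgroup.closure_induction with
  | mem x hx => exact hF x hx
  | one => exact h1
  | mul x y _ _ a b => exact le_antisymm (by linarith [hm x y]) (h0 _)
  | inv x _ a => rw [hi, a]

theorem Mau.of_conj {L : Type} [Group L] [TopologicalSpace L] [IsTopologicalGroup L]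
    {F F' : Set L} (g : L) (hF : ∀ f ∈ F, g * f * g⁻¹ ∈ F') (h : Mau F) : Mau F' := by
  intro φ hc h1 hi hm hF' x
  have := h (fun y => φ (g * y * g⁻¹)) (by fun_prop) (by simpa using h1)
    (fun y => by rw [← hi]; congr 1; group)
    (fun y z => by convert hm (g * y * g⁻¹) (g * z * g⁻¹) using 2; group)
    (fun f hf => hF' _ (hF f hf)) (g⁻¹ * x * g)
  simpa [mul_assoc] using this

/-- The properties of a factor used in the proof. -/
structure Rigid (L : Type) [Group L] [TopologicalSpace L] : Prop where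
  cg : ∃ S : Set L, IsCompact S ∧ Subgroup.closure S = ⊤
  qs : ∀ N : Subgroup L, N.Normal → IsClosed (N : Set L) → N ≤ Subgroup.center L ∨ N = ⊤
  perf : Dense (commutator L : Set L)
  nfi : ∀ N : Subgroup L, IsClosed (N : Set L) → N.FiniteIndex → N = ⊤
  nd : ¬ DiscreteTopology L
  mau : ∀ g : L, g ∉ Subgroup.center L → ∃ d : ℕ, ∀ U ∈ 𝓝 (1 : L), ∃ s : Finset L,
    s.card ≤ d ∧ (s : Set L) ⊆ U ∧ ∀ N : ℕ, ∃ h : Fin N → L, ∀ a b, a ≠ b →
      Mau {f | ∃ v ∈ s, f = h a * v * g * (h a * v)⁻¹ ∨ f = h b * v * g * (h b * v)⁻¹}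

/-- Transfer along an isomorphism of topological groups. -/
theorem Rigid.congr {L L' : Type} [Group L] [TopologicalSpace L] [Group L'] [TopologicalSpace L']
    (e : L ≃ₜ* L') (h : Rigid L') : Rigid L := by
  let r : L' →* L := e.symm.toMulEquiv.toMonoidHom
  have hr : ∀ y, r y = e.symm y := fun _ => rfl
  have rc : Continuous r := e.symm.continuous
  have rs : Function.Surjective r := e.symm.surjective
  have cen : ∀ x : L, e x ∈ Subgroup.center L' → x ∈ Subgroup.center L := by
    intro x hx
    rw [Subgroup.mem_center_iff] at hx ⊢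
    exact fun g => e.injective (by rw [map_mul, map_mul, hx])
  have top : ∀ N : Subgroup L, N.comap r = ⊤ → N = ⊤ := by
    intro N hN
    refine top_unique fun x _ => ?_
    obtain ⟨y, rfl⟩ := rs x
    exact (hN.ge (Subgroup.mem_top y) : y ∈ N.comap r)
  refine ⟨?_, fun N hn hc => ?_, ?_, fun N hc hf => ?_, fun hd => ?_, fun g hg => ?_⟩
  · obtain ⟨S, h1, h2⟩ := h.cg
    exact ⟨r '' S, h1.image rc, by
      rw [← MonoidHom.map_closure, h2, Subgroup.map_top_of_surjective r rs]⟩
  · rcases h.qs (N.comap r) (hn.comap r) (hc.preimage rc) with a | a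
    · refine Or.inl fun x hx => cen x (a ?_)
      rw [Subgroup.mem_comap, hr, e.symm_apply_apply]
      exact hx
    · exact Or.inr (top N a)
  · refine (rs.denseRange.dense_image rc h.perf).mono ?_
    rintro _ ⟨y, hy, rfl⟩
    have : (commutator L').map r ≤ commutator L := by
      rw [commutator_def, commutator_def, Subgroup.map_commutator]
      exact Subgroup.commutator_mono le_top le_top
    exact this ⟨y, hy, rfl⟩
  · refine top N (h.nfi _ (hc.preimage rc) ⟨?_⟩)
    rw [Subgroup.index_comap_of_surjective N rs]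
    exact hf.index_ne_zero
  · exact h.nd e.toHomeomorph.discreteTopology
  · obtain ⟨d, hd⟩ := h.mau (e g) fun a => hg (cen g a)
    refine ⟨d, fun U hU => ?_⟩
    obtain ⟨s, s1, s2, s3⟩ := hd (r ⁻¹' U) (rc.continuousAt.preimage_mem_nhds (by rwa [map_one]))
    classical
    refine ⟨s.image r, Finset.card_image_le.trans s1, ?_, fun N => ?_⟩
    · rw [Finset.coe_image]
      exact Set.image_subset_iff.2 s2
    obtain ⟨k, hk⟩ := s3 N
    refine ⟨fun a => r (k a), fun a b hab φ c1 c2 c3 c4 c5 x => ?_⟩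
    obtain ⟨y, rfl⟩ := rs x
    have eg : r (e g) = g := e.symm_apply_apply g
    refine hk a b hab (fun y => φ (r y)) (c1.comp rc) (by simpa using c2)
      (fun y => by simp only [map_inv, c3]) (fun y z => by simp only [map_mul, c4]) ?_ y
    rintro f ⟨v, hv, hf⟩
    refine c5 _ ⟨r v, Finset.mem_image_of_mem r hv, ?_⟩
    rcases hf with rfl | rfl
    · left
      simp only [map_mul, map_inv, eg]
    · right
      simp only [map_mul, map_inv, eg]

end Pool.Agent.Lib.MP_60cbcc_al.H3Z
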