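import Pool.Agent.Lib.MP_60cbcc_al.H3ZDefs2
import Pool.Agent.Lib.MP_60cbcc_al.H3ZClass

/-!
The abstract properties of the factors used in the proof.
-/

namespace Pool.Agent.Lib.MP_60cbcc_al.H3Z

open MeasureTheory Filter Topology
open scoped Pointwise

/-- Quasi-simple, topologically perfect, non-discrete groups without proper closed subgroups of
finite index. -/
structure Weak (L : Type) [Group L] [TopologicalSpace L] : Prop where
  qs : ∀ N : Subgroup L, N.Normal → IsClosed (N : Set L) → N ≤ Subgroup.center L ∨ N = ⊤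
  perf : Dense (commutator L : Set L)
  nfi : ∀ N : Subgroup L, IsClosed (N : Set L) → N.FiniteIndex → N = ⊤
  nd : ¬ DiscreteTopology L

theorem Rigid.weak {L : Type} [Group L] [TopologicalSpace L] (h : Rigid L) : Weak L :=
  ⟨h.qs, h.perf, h.nfi, h.nd⟩

/-- Property (T) in the form used in the proof. -/
def Kaz (G : Type) [Group G] [TopologicalSpace G] : Prop :=
  ∃ (Q : Set G) (C : ℝ), IsCompact Q ∧ 0 ≤ C ∧
    ∀ (H : Type) [NormedAddCommGroup H] [InnerProductSpace ℝ H] [CompleteSpace H]
      (π : G →* (H ≃ₗᵢ[ℝ] H)), (∀ v, Continuous fun g => π g v) →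
      ∀ (v : H) (t : ℝ), 0 ≤ t → (∀ q ∈ Q, ‖π q v - v‖ ≤ t) →
        ∃ w, (∀ g, π g w = w) ∧ ‖v - w‖ ≤ C * t

variable {G : Type} [Group G] [TopologicalSpace G] [IsTopologicalGroup G]

/-- The big cell of an element. -/
structure Cell [MeasurableSpace G] (a : G) (N B : Subgroup G) : Prop where
  mem : a ∈ B
  mau : N ≤ (Subgroup.closure (con a ∪ con a⁻¹)).topologicalClosure
  cell : ∀ m : Measure G, m.IsHaarMeasure →
    ∀ᵐ g ∂m, g ∈ con a * (Subgroup.centralizer {a} : Set G) * (B : Set G)

/-- The conjugates by `N` of any conjugate of `σ` generate a group whose closure contains `N`. -/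
def Gen (σ : G) (N : Subgroup G) : Prop :=
  ∀ (h : G) (J : Subgroup G), IsClosed (J : Set G) →
    (∀ n ∈ N, n * (h⁻¹ * σ * h) * n⁻¹ ∈ J) → N ≤ J

/-- The properties of the distinguished normal subgroup common to all factors. -/
structure Std (L : Subgroup G) : Prop where
  norm : L.Normal
  closed : IsClosed (L : Set G)
  cen : Subgroup.centralizer (L : Set G) ≤ Subgroup.center G
  weak : Weak L

/-- Real factors and tree factors. -/
structure Low (L K : Subgroup G) : Prop extends Std L where
  cpt : IsCompact (K : Set G)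
  fi : (L ⊔ K).FiniteIndex
  rig : Rigid L

/-- Factors of higher rank. -/
structure High [MeasurableSpace G] (L : Subgroup G) : Prop extends Std L where
  kaz : Kaz G
  cpt : ∃ C : Set G, IsCompact C ∧ C * (L : Set G) = Set.univ
  ex : ∃ (B : Subgroup G) (A : Set G), Group.IsSolvable B ∧ A.Countable ∧ (∀ a ∈ A, Cell a L B) ∧
    ∀ J : Subgroup G, IsClosed (J : Set G) → B ≤ J →
      (∀ a ∈ A, Subgroup.centralizer {a} ⊓ L ≤ J) → L ≤ J

end Pool.Agent.Lib.MP_60cbcc_al.H3Z
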