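import Pool.Agent.Lib.MP_60cbcc_al.H3ADefs
import Pool.Agent.Lib.MP_60cbcc_al.H3ZFac

/-!
Notation for the structure theory of groups of rational points.
-/

namespace Pool.Agent.Lib.MP_60cbcc_al.H3A

open Matrix Filter Topology

section Field

variable {k : Type} [Field k] {ν : Type} [Fintype ν] [DecidableEq ν]

/-- Groups of points of almost simple groups. -/
def Good (G : Subgroup (GL ν k)) : Prop :=
  ∃ A : Subgroup (GL ν (AlgebraicClosure k)), IsAlmostSimple k A ∧ G = points k A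

/-- Value of a polynomial at a matrix. -/
noncomputable def ev (x : Matrix ν ν k) (p : MvPolynomial (ν × ν) k) : k :=
  MvPolynomial.eval (fun ij => x ij.1 ij.2) p

/-- Functions that are polynomial on `G`. -/
def Reg (G : Subgroup (GL ν k)) (f : GL ν k → k) : Prop :=
  ∃ p, ∀ g ∈ G, f g = ev g.1 p

/-- Zariski dense subsets of `G`. -/
def ZD (G : Subgroup (GL ν k)) (S : Set (GL ν k)) : Prop :=
  ∀ f, Reg G f → (∀ s ∈ S, f s = 0) → ∀ g ∈ G, f g = 0

/-- Elements commuting with `G`. -/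
def Cen (G : Subgroup (GL ν k)) (x : GL ν k) : Prop :=
  ∀ g ∈ G, g * x = x * g

/-- Polynomial representations. -/
structure Rep (G : Subgroup (GL ν k)) {m : Type} [Fintype m] [DecidableEq m]
    (ρ : GL ν k → Matrix m m k) : Prop where
  one : ρ 1 = 1
  mul : ∀ g ∈ G, ∀ h ∈ G, ρ (g * h) = ρ g * ρ h
  reg : ∀ a b, Reg G fun g => ρ g a b

/-- The Lie algebra. -/
def lie (G : Subgroup (GL ν k)) : Submodule k (Matrix ν ν k) where
  carrier := {X | ∀ p, (∀ g ∈ G, ev g.1 p = 0) →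
    ∑ ij : ν × ν, X ij.1 ij.2 * ev 1 (MvPolynomial.pderiv ij p) = 0}
  zero_mem' := by simp
  add_mem' := fun {X Y} hX hY p hp => by
    simp only [Matrix.add_apply, add_mul, Finset.sum_add_distrib, hX p hp, hY p hp, add_zero]
  smul_mem' := fun c X hX p hp => by
    simp only [Matrix.smul_apply, smul_eq_mul, mul_assoc, ← Finset.mul_sum, hX p hp, mul_zero]

/-- Support of a matrix. -/
def Sup (R : ν → ν → Prop) (x : Matrix ν ν k) : Prop :=
  ∀ i j, x i j ≠ 0 → R i j

omit [DecidableEq ν] in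
theorem Sup.mul {R R' R'' : ν → ν → Prop} (h : ∀ i j l, R i j → R' j l → R'' i l)
    {x y : Matrix ν ν k} (hx : Sup R x) (hy : Sup R' y) : Sup R'' (x * y) := fun i l hil => by
  rw [Matrix.mul_apply] at hil
  obtain ⟨j, -, hj⟩ := Finset.exists_ne_zero_of_sum_ne_zero hil
  exact h i j l (hx i j (left_ne_zero_of_mul hj)) (hy j l (right_ne_zero_of_mul hj))

/-- The matrices with a given support. -/
def supS (R : ν → ν → Prop) : Submodule k (Matrix ν ν k) where
  carrier := {x | Sup R x}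
  zero_mem' := fun _ _ h => (h rfl).elim
  add_mem' := fun {x y} hx hy i j h => by
    by_cases h1 : x i j = 0
    · exact hy i j (by simpa [h1] using h)
    · exact hx i j h1
  smul_mem' := fun c x hx i j h => hx i j (right_ne_zero_of_mul h)

omit [Fintype ν] [DecidableEq ν] in
theorem mem_supS {R : ν → ν → Prop} {x : Matrix ν ν k} : x ∈ supS R ↔ Sup R x := Iff.rfl

/-- A subalgebra of matrices contains the inverses of its invertible elements. -/
theorem inv_mem_subalgebra (A : Subalgebra k (Matrix ν ν k)) {g : GL ν k} (hg : g.1 ∈ A) :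
    (g⁻¹).1 ∈ A := by
  have hinj : Function.Injective (LinearMap.mulLeft k (⟨g.1, hg⟩ : A)) := fun a b h => by
    have h1 : g.1 * a.1 = g.1 * b.1 := congrArg Subtype.val h
    exact Subtype.ext ((Units.mul_right_inj g).1 h1)
  obtain ⟨b, hb⟩ := LinearMap.injective_iff_surjective.1 hinj 1
  have h2 : g.1 * b.1 = 1 := congrArg Subtype.val hb
  rw [Units.inv_eq_of_mul_eq_one_right h2]
  exact b.2

/-- The group of the invertible matrices `1 + x` with `x` supported in a transitive relation. -/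
def Grp (R : ν → ν → Prop) (ht : ∀ i j l, R i j → R j l → R i l) : Subgroup (GL ν k) where
  carrier := {g | Sup R (g.1 - 1)}
  one_mem' := fun _ _ h => (h (by simp)).elim
  mul_mem' := fun {a b} ha hb => by
    have : (a * b).1 - 1 = (a.1 - 1) + (b.1 - 1) + (a.1 - 1) * (b.1 - 1) := by
      simp only [Units.val_mul]; noncomm_ring
    change Sup R _
    rw [this]
    exact (supS R).add_mem ((supS R).add_mem ha hb) (Sup.mul ht ha hb)
  inv_mem' := fun {a} ha => by
    let A : Subalgebra k (Matrix ν ν k) :=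
      { carrier := {x | ∀ y, Sup R y → Sup R (x * y)}
        mul_mem' := fun {x x'} hx hx' y hy => by rw [mul_assoc]; exact hx _ (hx' y hy)
        add_mem' := fun {x x'} hx hx' y hy => by
          rw [add_mul]; exact (supS R).add_mem (hx y hy) (hx' y hy)
        algebraMap_mem' := fun c y hy => by
          rw [← Algebra.smul_def]; exact (supS R).smul_mem c hy }
    have h1 : a.1 ∈ A := fun y hy => by
      have : a.1 * y = (a.1 - 1) * y + y := by noncomm_ring
      rw [this]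
      exact (supS R).add_mem (Sup.mul ht ha hy) hy
    have h2 := inv_mem_subalgebra A h1 _ ha
    have : (a⁻¹).1 - 1 = -((a⁻¹).1 * (a.1 - 1)) := by
      rw [mul_sub, Units.inv_mul, mul_one, neg_sub]
    change Sup R _
    rw [this]
    exact mem_supS.1 (neg_mem (mem_supS.2 h2))

theorem mem_Grp {R : ν → ν → Prop} {ht : ∀ i j l, R i j → R j l → R i l} {g : GL ν k} :
    g ∈ Grp R ht ↔ Sup R (g.1 - 1) := Iff.rfl

theorem mem_Grp_refl {R : ν → ν → Prop} {ht : ∀ i j l, R i j → R j l → R i l}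
    (hr : ∀ i, R i i) {g : GL ν k} : g ∈ Grp R ht ↔ Sup R g.1 := by
  have h1 : Sup R (1 : Matrix ν ν k) := fun i j h => by
    by_cases e : i = j
    · exact e ▸ hr i
    · exact (h (Matrix.one_apply_ne e)).elim
  refine ⟨fun h => ?_, fun h => mem_supS.1 (sub_mem (mem_supS.2 h) (mem_supS.2 h1))⟩
  have := (supS R).add_mem (mem_supS.2 (mem_Grp.1 h)) (mem_supS.2 h1)
  rwa [sub_add_cancel] at this

/-- Unipotent radical attached to a grading. -/
def Ugl (y : ν → ℝ) : Subgroup (GL ν k) :=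
  Grp (fun i j => y j < y i) fun _ _ _ a b => b.trans a

/-- Parabolic subgroup attached to a grading. -/
def Pgl (y : ν → ℝ) : Subgroup (GL ν k) :=
  Grp (fun i j => y j ≤ y i) fun _ _ _ a b => b.trans a

/-- Levi subgroup attached to a grading. -/
def Zgl (y : ν → ℝ) : Subgroup (GL ν k) :=
  Grp (fun i j => y i = y j) fun _ _ _ a b => a.trans b

theorem mem_Ugl {y : ν → ℝ} {g : GL ν k} :
    g ∈ Ugl y ↔ Sup (fun i j => y j < y i) (g.1 - 1) := Iff.rfl

theorem mem_Pgl {y : ν → ℝ} {g : GL ν k} : g ∈ Pgl y ↔ Sup (fun i j => y j ≤ y i) g.1 :=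
  mem_Grp_refl (R := fun i j => y j ≤ y i) fun _ => le_rfl

theorem mem_Zgl {y : ν → ℝ} {g : GL ν k} : g ∈ Zgl y ↔ Sup (fun i j => y i = y j) g.1 :=
  mem_Grp_refl (R := fun i j => y i = y j) fun _ => rfl

/-- Diagonal one-parameter groups. -/
def dg (y : ν → ℤ) (t : kˣ) : GL ν k :=
  ⟨diagonal fun i => (t : k) ^ y i, diagonal fun i => (t : k) ^ (-y i),
    by rw [diagonal_mul_diagonal, ← diagonal_one]
       congr 1; funext i; rw [← zpow_add₀ t.ne_zero]; simp,
    by rw [diagonal_mul_diagonal, ← diagonal_one]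
       congr 1; funext i; rw [← zpow_add₀ t.ne_zero]; simp⟩

theorem dg_val (y : ν → ℤ) (t : kˣ) : (dg y t).1 = diagonal fun i => (t : k) ^ y i := rfl

theorem dg_inv_val (y : ν → ℤ) (t : kˣ) :
    ((dg y t)⁻¹).1 = diagonal fun i => (t : k) ^ (-y i) := rfl

theorem dg_add (y y' : ν → ℤ) (t : kˣ) : dg (y + y') t = dg y t * dg y' t := by
  apply Units.ext
  rw [Units.val_mul, dg_val, dg_val, dg_val, diagonal_mul_diagonal]
  congr 1; funext i; rw [Pi.add_apply, zpow_add₀ t.ne_zero]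

theorem dg_neg (y : ν → ℤ) (t : kˣ) : dg (-y) t = (dg y t)⁻¹ := Units.ext rfl

theorem dg_zero (t : kˣ) : dg (0 : ν → ℤ) t = 1 := Units.ext (by simp [dg_val])

theorem dg_mul (y : ν → ℤ) (t t' : kˣ) : dg y (t * t') = dg y t * dg y t' := by
  apply Units.ext
  rw [Units.val_mul, dg_val, dg_val, dg_val, diagonal_mul_diagonal]
  congr 1; funext i; rw [Units.val_mul, mul_zpow]

theorem dg_one (y : ν → ℤ) : dg y (1 : kˣ) = 1 := Units.ext (by simp [dg_val])

theorem dg_conj_apply (y : ν → ℤ) (t : kˣ) (x : Matrix ν ν k) (i j : ν) :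
    ((dg y t).1 * x * ((dg y t)⁻¹).1) i j = (t : k) ^ (y i - y j) * x i j := by
  rw [dg_val, dg_inv_val, mul_diagonal, diagonal_mul, sub_eq_add_neg, zpow_add₀ t.ne_zero]
  ring

/-- The diagonal cocharacters of a group. -/
def YY (G : Subgroup (GL ν k)) : AddSubgroup (ν → ℤ) where
  carrier := {y | ∀ t, dg y t ∈ G}
  zero_mem' := fun t => by rw [dg_zero]; exact G.one_mem
  add_mem' := fun {a b} ha hb t => by rw [dg_add]; exact G.mul_mem (ha t) (hb t)
  neg_mem' := fun {a} ha t => by rw [dg_neg]; exact G.inv_mem (ha t)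

theorem mem_YY {G : Subgroup (GL ν k)} {y : ν → ℤ} : y ∈ YY G ↔ ∀ t, dg y t ∈ G := Iff.rfl

/-- Integer vectors as real vectors. -/
def cst (y : ν → ℤ) : ν → ℝ := fun i => (y i : ℝ)

/-- The real span of the diagonal cocharacters. -/
def aa (G : Subgroup (GL ν k)) : Submodule ℝ (ν → ℝ) :=
  Submodule.span ℝ (cst '' (YY G : Set (ν → ℤ)))

omit [DecidableEq ν] in
theorem exists_prA (W : Submodule ℝ (ν → ℝ)) (x : ν → ℝ) :
    ∃ z ∈ W, ∀ y ∈ W, z ⬝ᵥ y = x ⬝ᵥ y := by
  let B : LinearMap.BilinForm ℝ W := LinearMap.mk₂ ℝ (fun a b => a.1 ⬝ᵥ b.1)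
    (fun _ _ _ => by simp [add_dotProduct]) (fun _ _ _ => by simp)
    (fun _ _ _ => by simp [dotProduct_add]) (fun _ _ _ => by simp)
  have hB : Function.Injective B := (injective_iff_map_eq_zero B).2 fun a ha =>
    Subtype.ext (dotProduct_self_eq_zero.1 (congrArg (fun f : W →ₗ[ℝ] ℝ => f a) ha))
  have hs : Function.Surjective B :=
    (LinearMap.injective_iff_surjective_of_finrank_eq_finrank
      (Subspace.dual_finrank_eq (K := ℝ) (V := W)).symm).1 hB
  obtain ⟨z, hz⟩ := hs (LinearMap.mk ⟨fun b => x ⬝ᵥ b.1, fun _ _ => by simp [dotProduct_add]⟩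
    fun _ _ => by simp)
  exact ⟨z.1, z.2, fun y hy => congrArg (fun f : W →ₗ[ℝ] ℝ => f ⟨y, hy⟩) hz⟩

/-- The weight of the matrix entry `(i, j)`, as a vector. -/
noncomputable def rt (G : Subgroup (GL ν k)) (i j : ν) : ν → ℝ :=
  (exists_prA (aa G) (Pi.single i 1 - Pi.single j 1)).choose

theorem rt_mem (G : Subgroup (GL ν k)) (i j : ν) : rt G i j ∈ aa G :=
  (exists_prA (aa G) (Pi.single i 1 - Pi.single j 1)).choose_spec.1

theorem rt_dot (G : Subgroup (GL ν k)) (i j : ν) {y : ν → ℝ} (hy : y ∈ aa G) :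
    rt G i j ⬝ᵥ y = y i - y j := by
  rw [rt, (exists_prA (aa G) (Pi.single i 1 - Pi.single j 1)).choose_spec.2 y hy]
  simp [sub_dotProduct]

omit [DecidableEq ν] in
theorem eq_of_dot {W : Submodule ℝ (ν → ℝ)} {x x' : ν → ℝ} (hx : x ∈ W) (hx' : x' ∈ W)
    (h : ∀ y ∈ W, x ⬝ᵥ y = x' ⬝ᵥ y) : x = x' := by
  have h1 := h (x - x') (W.sub_mem hx hx')
  rw [← sub_eq_zero, ← sub_dotProduct] at h1
  exact sub_eq_zero.1 (dotProduct_self_eq_zero.1 h1)

theorem rt_add (G : Subgroup (GL ν k)) (i j l : ν) : rt G i j + rt G j l = rt G i l :=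
  eq_of_dot ((aa G).add_mem (rt_mem G i j) (rt_mem G j l)) (rt_mem G i l) fun y hy => by
    rw [add_dotProduct, rt_dot G i j hy, rt_dot G j l hy, rt_dot G i l hy]; ring

theorem rt_neg (G : Subgroup (GL ν k)) (i j : ν) : -rt G i j = rt G j i :=
  eq_of_dot ((aa G).neg_mem (rt_mem G i j)) (rt_mem G j i) fun y hy => by
    rw [neg_dotProduct, rt_dot G i j hy, rt_dot G j i hy]; ring

theorem rt_eq_zero (G : Subgroup (GL ν k)) (i j : ν) :
    rt G i j = 0 ↔ ∀ y ∈ aa G, y i = y j :=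
  ⟨fun h y hy => by
    have := rt_dot G i j hy
    rw [h, zero_dotProduct] at this
    linarith,
  fun h => eq_of_dot (rt_mem G i j) (aa G).zero_mem fun y hy => by
    rw [rt_dot G i j hy, h y hy, zero_dotProduct, sub_self]⟩

theorem rt_self (G : Subgroup (GL ν k)) (i : ν) : rt G i i = 0 :=
  (rt_eq_zero G i i).2 fun _ _ => rfl

/-- The centraliser of the diagonal torus of `G` in the general linear group. -/
def Mgl (G : Subgroup (GL ν k)) : Subgroup (GL ν k) :=
  Grp (fun i j => rt G i j = 0) fun i j l a b => by rw [← rt_add G i j l, a, b, add_zero]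

theorem mem_Mgl {G : Subgroup (GL ν k)} {g : GL ν k} :
    g ∈ Mgl G ↔ Sup (fun i j => rt G i j = 0) g.1 :=
  mem_Grp_refl (rt_self G)

/-- The unipotent group attached to a ray. -/
def Rgl (G : Subgroup (GL ν k)) (γ : ν → ℝ) : Subgroup (GL ν k) :=
  Grp (fun i j => ∃ c : ℝ, 0 < c ∧ rt G i j = c • γ) fun i j l ⟨a, ha, ea⟩ ⟨b, hb, eb⟩ =>
    ⟨a + b, add_pos ha hb, by rw [← rt_add G i j l, ea, eb, add_smul]⟩

theorem mem_Rgl {G : Subgroup (GL ν k)} {γ : ν → ℝ} {g : GL ν k} :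
    g ∈ Rgl G γ ↔ Sup (fun i j => ∃ c : ℝ, 0 < c ∧ rt G i j = c • γ) (g.1 - 1) := Iff.rfl

/-- The roots. -/
def Rts (G : Subgroup (GL ν k)) : Set (ν → ℝ) :=
  {γ | γ ≠ 0 ∧ ∃ i j, γ = rt G i j ∧ ∃ X ∈ lie G, X i j ≠ 0}

/-- Regular gradings. -/
def Regl (G : Subgroup (GL ν k)) (y : ν → ℝ) : Prop :=
  y ∈ aa G ∧ ∀ i j, y i = y j → rt G i j = 0

/-- Gradings defining the same order. -/
def Pat (y y' : ν → ℝ) : Prop :=
  ∀ i j, y i < y j ↔ y' i < y' j

/-- The diagonal torus is maximal. -/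
def IsMax (G : Subgroup (GL ν k)) : Prop :=
  ∀ h ∈ Mgl G, ∀ y : ν → ℤ, (∀ t, h * dg y t * h⁻¹ ∈ G) → y ∈ YY G

/-- The standing hypotheses. -/
structure Ctx (G : Subgroup (GL ν k)) : Prop where
  good : Good G
  max : IsMax G
  ne : aa G ≠ ⊥

/-- Cocharacters. -/
def Coch (G : Subgroup (GL ν k)) (μ : kˣ → GL ν k) : Prop :=
  (∃ (h : GL ν k) (y : ν → ℤ), ∀ t, μ t = h * dg y t * h⁻¹) ∧ ∀ t, μ t ∈ G

/-- The conjugate `h⁻¹ G h`. -/
def cj (h : GL ν k) (G : Subgroup (GL ν k)) : Subgroup (GL ν k) :=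
  G.comap (MulAut.conj h).toMonoidHom

theorem mem_cj {h g : GL ν k} {G : Subgroup (GL ν k)} : g ∈ cj h G ↔ h * g * h⁻¹ ∈ G := Iff.rfl

/-- Transposition. -/
def trU (g : GL ν k) : GL ν k :=
  ⟨g.1ᵀ, (g⁻¹).1ᵀ, by rw [← transpose_mul, Units.inv_mul, transpose_one],
    by rw [← transpose_mul, Units.mul_inv, transpose_one]⟩

theorem trU_val (g : GL ν k) : (trU g).1 = g.1ᵀ := rfl

theorem trU_mul (g h : GL ν k) : trU (g * h) = trU h * trU g :=
  Units.ext (transpose_mul _ _)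

theorem trU_inv (g : GL ν k) : trU g⁻¹ = (trU g)⁻¹ := Units.ext rfl

theorem trU_trU (g : GL ν k) : trU (trU g) = g := Units.ext rfl

theorem trU_one : trU (1 : GL ν k) = 1 := Units.ext transpose_one

theorem trU_dg (y : ν → ℤ) (t : kˣ) : trU (dg y t) = dg y t :=
  Units.ext (diagonal_transpose _)

/-- The transposed group. -/
def tr (G : Subgroup (GL ν k)) : Subgroup (GL ν k) where
  carrier := {g | trU g ∈ G}
  one_mem' := by change trU 1 ∈ G; rw [trU_one]; exact G.one_mem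
  mul_mem' := fun {a b} ha hb => by
    change trU (a * b) ∈ G; rw [trU_mul]; exact G.mul_mem hb ha
  inv_mem' := fun {a} ha => by change trU a⁻¹ ∈ G; rw [trU_inv]; exact G.inv_mem ha

theorem mem_tr {G : Subgroup (GL ν k)} {g : GL ν k} : g ∈ tr G ↔ trU g ∈ G := Iff.rfl

open Classical in
/-- The diagonal projection on the coordinates satisfying `P`. -/
noncomputable def prj (P : ν → Prop) : Matrix ν ν k :=
  diagonal fun i => if P i then 1 else 0

/-- The principal block on the coordinates satisfying `P`, completed by the identity. -/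
noncomputable def blk (P : ν → Prop) (x : Matrix ν ν k) : Matrix ν ν k :=
  prj P * x * prj P + (1 - prj P)

/-- Principal minors attached to a grading. -/
noncomputable def Dl (y : ν → ℝ) (a : ℝ) (x : Matrix ν ν k) : k :=
  (blk (fun i => a ≤ y i) x).det

/-- The product of the principal minors attached to a grading. -/
noncomputable def DD (y : ν → ℝ) (x : Matrix ν ν k) : k :=
  ∏ l, Dl y (y l) x

/-- The lower unipotent part. -/
noncomputable def lo (y : ν → ℝ) (x : Matrix ν ν k) : Matrix ν ν k :=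
  Matrix.of fun i l => (x * (blk (fun i => y l ≤ y i) x)⁻¹) i l

/-- `n` normalises the diagonal torus and acts on it as the permutation `τ`. -/
def IsW (G : Subgroup (GL ν k)) (n : GL ν k) (τ : Equiv.Perm ν) : Prop :=
  n ∈ G ∧ ∀ y ∈ aa G, y ∘ τ ∈ aa G ∧ Sup (fun i j => y (τ i) = y j) n.1

/-- `τ` acts as the reflection in `γ`. -/
def Refl (G : Subgroup (GL ν k)) (γ : ν → ℝ) (τ : Equiv.Perm ν) : Prop :=
  ∀ y ∈ aa G, y ∘ τ = y - (2 * (γ ⬝ᵥ y) / (γ ⬝ᵥ γ)) • γ

/-- The stabiliser of the line through `DD y` under right translation. -/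
def QQ (G : Subgroup (GL ν k)) (y : ν → ℝ) : Subgroup (GL ν k) where
  carrier := {q | q ∈ G ∧ ∃ c : k, c ≠ 0 ∧ ∀ x ∈ G, DD y (x * q).1 = c * DD y x.1}
  one_mem' := ⟨G.one_mem, 1, one_ne_zero, fun x _ => by simp⟩
  mul_mem' := fun {a b} ⟨ha, c, hc, ea⟩ ⟨hb, d, hd, eb⟩ =>
    ⟨G.mul_mem ha hb, d * c, mul_ne_zero hd hc, fun x hx => by
      rw [← mul_assoc, eb _ (G.mul_mem hx ha), ea x hx, mul_assoc]⟩
  inv_mem' := fun {a} ⟨ha, c, hc, ea⟩ =>
    ⟨G.inv_mem ha, c⁻¹, inv_ne_zero hc, fun x hx => by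
      have := ea _ (G.mul_mem hx (G.inv_mem ha))
      rw [inv_mul_cancel_right] at this
      rw [this, inv_mul_cancel_left₀ hc]⟩

theorem mem_QQ {G : Subgroup (GL ν k)} {y : ν → ℝ} {q : GL ν k} : q ∈ QQ G y ↔
    q ∈ G ∧ ∃ c : k, c ≠ 0 ∧ ∀ x ∈ G, DD y (x * q).1 = c * DD y x.1 := Iff.rfl

/-- Invariant subspaces. -/
def Inv {m : Type} [Fintype m] (H : Set (Matrix m m k)) (V : Submodule k (m → k)) : Prop :=
  ∀ h ∈ H, ∀ v ∈ V, h *ᵥ v ∈ V

/-- Irreducible subquotients. -/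
structure Irr {m : Type} [Fintype m] (H : Set (Matrix m m k)) (V₂ V₁ : Submodule k (m → k)) :
    Prop where
  lt : V₂ < V₁
  inv₂ : Inv H V₂
  inv₁ : Inv H V₁
  irr : ∀ V, V₂ ≤ V → V ≤ V₁ → Inv H V → V = V₂ ∨ V = V₁

end Field

section Normed

variable {k : Type} [NontriviallyNormedField k] {ν : Type} [Fintype ν] [DecidableEq ν]

/-- Bounded sets. -/
def Bd (S : Set (GL ν k)) : Prop :=
  ∃ C : ℝ, ∀ g ∈ S, ∀ i j, ‖g.1 i j‖ ≤ C

/-- The growth rate of the powers is at most `R`. -/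
def Gr {m : Type} [Fintype m] [DecidableEq m] (T : Matrix m m k) (R : ℝ) : Prop :=
  ∀ ρ : ℝ, R < ρ → ∃ C : ℝ, ∀ (l : ℕ) a b, ‖(T ^ l) a b‖ ≤ C * ρ ^ l

/-- The columns of the powers grow at the exact rates given by `w`. -/
def IsVal (g : GL ν k) (w : ν → ℝ) : Prop :=
  ∀ ρ : ℝ, 1 < ρ → ∃ C : ℝ, ∀ (l : ℤ) i j,
    ‖(g ^ l).1 i j‖ ≤ C * Real.exp (-(l * w j)) * ρ ^ l.natAbs

open Classical in
/-- The valuation of an element of the centraliser of the torus. -/
noncomputable def vv (G : Subgroup (GL ν k)) (m : GL ν k) : ν → ℝ := fun j =>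
  -Real.log ‖(blk (fun i => rt G i j = 0) m.1).det‖ /
    (Finset.univ.filter fun i => rt G i j = 0).card

/-- The kernel of the valuation. -/
def M1 (G : Subgroup (GL ν k)) : Set (GL ν k) :=
  {m | m ∈ G ∧ m ∈ Mgl G ∧ vv G m = 0}

/-- The group generated by the unipotent radicals. -/
noncomputable def LL (G : Subgroup (GL ν k)) : Subgroup (GL ν k) :=
  (⨆ y ∈ aa G, G ⊓ Ugl y).topologicalClosure

variable (k) in
/-- A fixed non-zero element of norm less than one. -/
noncomputable def pw : kˣ :=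
  Units.mk0 (NormedField.exists_norm_lt_one k).choose
    (norm_pos_iff.1 (NormedField.exists_norm_lt_one k).choose_spec.1)

theorem pw_lt : ‖(pw k : k)‖ < 1 := (NormedField.exists_norm_lt_one k).choose_spec.2

theorem pw_pos : 0 < ‖(pw k : k)‖ := (NormedField.exists_norm_lt_one k).choose_spec.1

open scoped Matrix.Norms.Elementwise in
/-- A chart at the identity, inverse to `g ↦ π (g - 1)`. -/
structure Chart (G : Subgroup (GL ν k)) (π : Matrix ν ν k →ₗ[k] Matrix ν ν k)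
    (ψ : Matrix ν ν k → GL ν k) : Prop where
  zero : ψ 0 = 1
  der : HasStrictFDerivAt (fun X : lie G => (ψ X).1) (lie G).subtypeL 0
  mem : ∀ᶠ X : lie G in 𝓝 0, ψ X ∈ G ∧ π ((ψ X).1 - 1) = X
  inv : ∀ᶠ g in 𝓝[G] (1 : GL ν k), ψ (π (g.1 - 1)) = g
  tay : ∀ i j (N : ℕ), ∃ p, (fun X : lie G => (ψ X).1 i j - ev X.1 p) =O[𝓝 0] fun X => ‖X‖ ^ N

/-- A projection on the Lie algebra that respects the weights. -/
structure IsPi (G : Subgroup (GL ν k)) (π : Matrix ν ν k →ₗ[k] Matrix ν ν k) : Prop where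
  mem : ∀ X, π X ∈ lie G
  id : ∀ X ∈ lie G, π X = X
  wt : ∀ (Ψ : Set (ν → ℝ)) X, Sup (fun i j => rt G i j ∈ Ψ) X → Sup (fun i j => rt G i j ∈ Ψ) (π X)

/-- Closed groups between `LL G` and `G`. -/
structure Mid (G H : Subgroup (GL ν k)) : Prop where
  closed : IsClosed (H : Set (GL ν k))
  le₁ : LL G ≤ H
  le₂ : H ≤ G

end Normed

end Pool.Agent.Lib.MP_60cbcc_al.H3A
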