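import Pool.Agent.Lib.MP_60cbcc_al.H3AReg

/-!
Topology of matrix groups over a local field.
-/

namespace Pool.Agent.Lib.MP_60cbcc_al.H3A

open Matrix Filter Topology

set_option linter.unusedSectionVars false

variable {k : Type} [NontriviallyNormedField k] [ProperSpace k] {ν : Type} [Fintype ν]
  [DecidableEq ν] {G : Subgroup (GL ν k)}

theorem gl_embedding : IsEmbedding fun g : GL ν k => g.1 :=
  Units.isEmbedding_val_mk' (f := fun x : Matrix ν ν k => x⁻¹)
    (fun x hx => (continuousAt_matrix_inv x (by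
      rw [Ring.inverse_eq_inv']
      exact continuousAt_inv₀ ((Matrix.isUnit_iff_isUnit_det x).1 hx).ne_zero)).continuousWithinAt)
    fun u => (Matrix.coe_units_inv u).symm

theorem gl_tendsto {α : Type} {l : Filter α} {F : α → GL ν k} {g : GL ν k} :
    Tendsto F l (𝓝 g) ↔ ∀ i j, Tendsto (fun a => (F a).1 i j) l (𝓝 (g.1 i j)) := by
  rw [gl_embedding.tendsto_nhds_iff]
  exact tendsto_pi_nhds.trans (forall_congr' fun i => tendsto_pi_nhds)

instance gl_lc : LocallyCompactSpace (GL ν k) := by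
  have : LocallyCompactSpace (Matrix ν ν k) := inferInstanceAs (LocallyCompactSpace (ν → ν → k))
  exact Units.isClosedEmbedding_embedProduct.locallyCompactSpace

instance gl_sc : SecondCountableTopology (GL ν k) := by
  have : SecondCountableTopology (Matrix ν ν k) :=
    inferInstanceAs (SecondCountableTopology (ν → ν → k))
  exact gl_embedding.secondCountableTopology

theorem isClosed_Grp {R : ν → ν → Prop} {ht : ∀ i j l, R i j → R j l → R i l} :
    IsClosed (Grp (k := k) R ht : Set (GL ν k)) := by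
  have : (Grp (k := k) R ht : Set (GL ν k)) =
      ⋂ i, ⋂ j, ⋂ _ : ¬ R i j, {g : GL ν k | (g.1 - 1) i j = 0} := by
    ext g
    simp only [SetLike.mem_coe, mem_Grp, Sup, Set.mem_iInter, Set.mem_ofPred_eq]
    exact forall_congr' fun i => forall_congr' fun j => not_imp_comm
  rw [this]
  refine isClosed_iInter fun i => isClosed_iInter fun j => isClosed_iInter fun _ =>
    isClosed_eq ?_ continuous_const
  exact (Units.continuous_val.sub continuous_const).matrix_elem i j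

theorem continuous_ev (p : MvPolynomial (ν × ν) k) :
    Continuous fun x : Matrix ν ν k => ev x p :=
  (MvPolynomial.continuous_eval p).comp
    (continuous_pi fun ij => continuous_id.matrix_elem ij.1 ij.2)

theorem Reg.continuousOn {f : GL ν k → k} (hf : Reg G f) : ContinuousOn f G := by
  obtain ⟨p, hp⟩ := hf
  exact ((continuous_ev p).comp Units.continuous_val).continuousOn.congr fun g hg => hp g hg

theorem top_ev_bound (p : MvPolynomial (ν × ν) k) : ∃ (C : ℝ) (N : ℕ), 0 ≤ C ∧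
    ∀ (x : Matrix ν ν k) (R : ℝ), 1 ≤ R → (∀ i j, ‖x i j‖ ≤ R) → ‖ev x p‖ ≤ C * R ^ N := by
  induction p using MvPolynomial.induction_on with
  | C a => exact ⟨‖a‖, 0, norm_nonneg a, fun x R _ _ => by simp [ev]⟩
  | add p q hp hq =>
    obtain ⟨C, N, hC, h⟩ := hp
    obtain ⟨C', N', hC', h'⟩ := hq
    refine ⟨C + C', N + N', add_nonneg hC hC', fun x R hR hx => ?_⟩
    have h1 : ev x (p + q) = ev x p + ev x q := map_add _ _ _
    rw [h1, add_mul]
    refine (norm_add_le _ _).trans (add_le_add ((h x R hR hx).trans ?_) ((h' x R hR hx).trans ?_))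
    · exact mul_le_mul_of_nonneg_left (pow_le_pow_right₀ hR (Nat.le_add_right _ _)) hC
    · exact mul_le_mul_of_nonneg_left (pow_le_pow_right₀ hR (Nat.le_add_left _ _)) hC'
  | mul_X p ij hp =>
    obtain ⟨C, N, hC, h⟩ := hp
    refine ⟨C, N + 1, hC, fun x R hR hx => ?_⟩
    have h1 : ev x (p * MvPolynomial.X ij) = ev x p * x ij.1 ij.2 := by simp [ev]
    have hR0 : 0 ≤ R := zero_le_one.trans hR
    rw [h1, norm_mul, pow_succ, ← mul_assoc]
    exact mul_le_mul (h x R hR hx) (hx _ _) (norm_nonneg _) (by positivity)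

theorem top_entry_le (x : Matrix ν ν k) (i j : ν) : ‖x i j‖ ≤ ∑ i, ∑ j, ‖x i j‖ :=
  (Finset.single_le_sum (f := fun j => ‖x i j‖) (fun _ _ => norm_nonneg _)
    (Finset.mem_univ j)).trans
    (Finset.single_le_sum (f := fun i => ∑ j, ‖x i j‖)
      (fun _ _ => Finset.sum_nonneg fun _ _ => norm_nonneg _) (Finset.mem_univ i))

theorem Reg.bound {f : GL ν k → k} (hf : Reg G f) : ∃ (C : ℝ) (N : ℕ), ∀ g ∈ G, ∀ R : ℝ, 1 ≤ R →
    (∀ i j, ‖g.1 i j‖ ≤ R) → ‖f g‖ ≤ C * R ^ N := by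
  obtain ⟨p, hp⟩ := hf
  obtain ⟨C, N, -, h⟩ := top_ev_bound p
  exact ⟨C, N, fun g hg R hR hb => by rw [hp g hg]; exact h g.1 R hR hb⟩

theorem Bd.exists_compact (hc : IsClosed (G : Set (GL ν k))) (hd : ∀ g ∈ G, g.1.det = 1)
    {S : Set (GL ν k)} (hS : S ⊆ G) (hb : Bd S) :
    ∃ K : Set (GL ν k), IsCompact K ∧ S ⊆ K ∧ K ⊆ G := by
  obtain ⟨C, hC⟩ := hb
  have h1 : IsCompact {x : Matrix ν ν k | ∀ i j, ‖x i j‖ ≤ C} := by
    have : {x : Matrix ν ν k | ∀ i j, ‖x i j‖ ≤ C} =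
        (Set.univ.pi fun _ : ν => Set.univ.pi fun _ : ν => Metric.closedBall (0 : k) C) := by
      ext x
      simp only [Set.mem_ofPred_eq]
      exact ⟨fun h i _ j _ => mem_closedBall_zero_iff.2 (h i j),
        fun h i j => mem_closedBall_zero_iff.1 (h i trivial j trivial)⟩
    rw [this]
    exact isCompact_univ_pi fun _ => isCompact_univ_pi fun _ => isCompact_closedBall _ _
  have h2 : IsCompact ({x : Matrix ν ν k | ∀ i j, ‖x i j‖ ≤ C} ∩ {x | x.det = 1}) :=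
    h1.inter_right (isClosed_eq continuous_id.matrix_det continuous_const)
  have h3 := gl_embedding.isInducing.isCompact_preimage' h2 fun x hx => by
    have : IsUnit x := (Matrix.isUnit_iff_isUnit_det x).2 (by rw [hx.2]; exact isUnit_one)
    exact ⟨this.unit, this.unit_spec⟩
  exact ⟨_, h3.inter_right hc, fun g hg => ⟨⟨hC g hg, hd g (hS hg)⟩, hS hg⟩,
    Set.inter_subset_right⟩

theorem bd_of_isCompact {K : Set (GL ν k)} (hK : IsCompact K) : Bd K := by
  have hc : Continuous fun g : GL ν k => ∑ i, ∑ j, ‖g.1 i j‖ :=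
    continuous_finsetSum _ fun i _ => continuous_finsetSum _ fun j _ =>
      (Units.continuous_val.matrix_elem i j).norm
  obtain ⟨C, hC⟩ := hK.bddAbove_image hc.continuousOn
  exact ⟨C, fun g hg i j => (top_entry_le g.1 i j).trans (hC ⟨g, hg, rfl⟩)⟩

theorem top_tendsto_pw {n : ℤ} (hn : 0 < n) :
    Tendsto (fun l : ℕ => ((pw k : k) ^ l) ^ n) atTop (𝓝 0) := by
  have h1 : ‖(pw k : k) ^ n‖ < 1 := by
    rw [norm_zpow]
    exact zpow_lt_one₀ pw_pos pw_lt hn
  refine (tendsto_pow_atTop_nhds_zero_of_norm_lt_one h1).congr fun l => ?_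
  rw [← zpow_natCast, ← zpow_natCast, ← _root_.zpow_mul, ← _root_.zpow_mul, mul_comm]

theorem top_pw_inj {a b : ℤ} (h : (pw k : k) ^ a = (pw k : k) ^ b) : a = b := by
  have h1 := congrArg norm h
  rw [norm_zpow, norm_zpow] at h1
  exact zpow_right_injective₀ pw_pos pw_lt.ne h1

theorem top_nonneg_of_bd {n : ℤ} {x : k} {C : ℝ} (hx : x ≠ 0)
    (h : ∀ l : ℕ, ‖((pw k : k) ^ l) ^ n * x‖ ≤ C) : 0 ≤ n := by
  by_contra hn
  have h1 := ((top_tendsto_pw (k := k) (n := -n) (by omega)).norm).mul_const C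
  rw [norm_zero, zero_mul] at h1
  refine hx (norm_le_zero_iff.1 (ge_of_tendsto' h1 fun l => ?_))
  have h2 : x = ((pw k : k) ^ l) ^ (-n) * (((pw k : k) ^ l) ^ n * x) := by
    rw [← mul_assoc, ← zpow_add₀ (pow_ne_zero _ (pw k).ne_zero), neg_add_cancel, zpow_zero,
      one_mul]
  calc ‖x‖ = ‖((pw k : k) ^ l) ^ (-n)‖ * ‖((pw k : k) ^ l) ^ n * x‖ := by
        rw [← norm_mul, ← h2]
    _ ≤ _ := mul_le_mul_of_nonneg_left (h l) (norm_nonneg _)

theorem top_tendsto_iff {n : ℤ} {x : k} :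
    Tendsto (fun l : ℕ => ((pw k : k) ^ l) ^ n * x) atTop (𝓝 0) ↔ (x ≠ 0 → 0 < n) := by
  refine ⟨fun h hx => ?_, fun h => ?_⟩
  · by_contra hn
    have h1 := h.norm
    rw [norm_zero] at h1
    refine hx (norm_le_zero_iff.1 (ge_of_tendsto' h1 fun l => ?_))
    rw [norm_mul, norm_zpow, norm_pow]
    exact le_mul_of_one_le_left (norm_nonneg _) (one_le_zpow_of_nonpos₀ (pow_pos pw_pos l)
      (pow_le_one₀ (norm_nonneg _) pw_lt.le) (not_lt.1 hn))
  · by_cases hx : x = 0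
    · simp [hx]
    · simpa using (top_tendsto_pw (k := k) (h hx)).mul_const x

theorem laurent_low (s : Finset ℤ) (c : ℤ → k) (a : ℤ) (C : ℝ)
    (h : ∀ l : ℕ, ‖∑ d ∈ s, c d * ((pw k : k) ^ l) ^ d‖ ≤ C * (‖(pw k : k)‖ ^ l) ^ a) :
    ∀ d ∈ s, d < a → c d = 0 := by
  classical
  intro d hd hda
  by_contra hne
  have hs : (s.filter fun e => c e ≠ 0).Nonempty := ⟨d, Finset.mem_filter.2 ⟨hd, hne⟩⟩
  obtain ⟨e, he, hmin⟩ := Finset.exists_min_image _ id hs
  obtain ⟨hes, hce⟩ := Finset.mem_filter.1 he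
  have hea : e < a := lt_of_le_of_lt (hmin d (Finset.mem_filter.2 ⟨hd, hne⟩)) hda
  have hp : ∀ l : ℕ, ((pw k : k) ^ l) ≠ 0 := fun l => pow_ne_zero _ (pw k).ne_zero
  have h1 : Tendsto (fun l : ℕ => ∑ d ∈ s, c d * ((pw k : k) ^ l) ^ (d - e)) atTop
      (𝓝 (∑ d ∈ s, if d = e then c d else 0)) := by
    refine tendsto_finsetSum _ fun d hd => ?_
    by_cases hde : d = e
    · simp [hde]
    · by_cases hcd : c d = 0
      · simp [hcd]
      · have h2 : e ≤ d := hmin d (Finset.mem_filter.2 ⟨hd, hcd⟩)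
        have h3 := (top_tendsto_pw (k := k) (n := d - e) (by omega)).const_mul (c d)
        simpa [hde] using h3
  rw [Finset.sum_ite_eq' s e c, if_pos hes] at h1
  have h2 : Tendsto (fun l : ℕ => ∑ d ∈ s, c d * ((pw k : k) ^ l) ^ (d - e)) atTop (𝓝 0) := by
    have h3 := ((top_tendsto_pw (k := k) (n := a - e) (by omega)).norm).const_mul C
    rw [norm_zero, mul_zero] at h3
    refine squeeze_zero_norm (fun l => ?_) h3
    have h4 : ∑ d ∈ s, c d * ((pw k : k) ^ l) ^ (d - e) =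
        (∑ d ∈ s, c d * ((pw k : k) ^ l) ^ d) * ((pw k : k) ^ l) ^ (-e) := by
      rw [Finset.sum_mul]
      refine Finset.sum_congr rfl fun d _ => ?_
      rw [sub_eq_add_neg, zpow_add₀ (hp l), mul_assoc]
    rw [h4, norm_mul, sub_eq_add_neg, zpow_add₀ (hp l), norm_mul, ← mul_assoc]
    refine mul_le_mul_of_nonneg_right ?_ (norm_nonneg _)
    rw [norm_zpow, norm_pow]
    exact h l
  exact hce (tendsto_nhds_unique h1 h2)

theorem exists_normalise {E : Type} [NormedAddCommGroup E] [NormedSpace k E] [ProperSpace E]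
    {S : Set E} (hS : ¬ Bornology.IsBounded S) :
    ∃ (x : ℕ → E) (c : ℕ → k) (L : E), (∀ i, x i ∈ S) ∧ Tendsto c atTop (𝓝 0) ∧ L ≠ 0 ∧
      Tendsto (fun i => c i • x i) atTop (𝓝 L) := by
  obtain ⟨c0, hc0⟩ := NormedField.exists_one_lt_norm k
  have h1 : ∀ n : ℕ, ∃ x ∈ S, ∃ d : k, ‖d‖ ≤ 1 / ((n : ℝ) + 1) ∧ ‖d • x‖ ≤ 1 ∧
      1 / ‖c0‖ ≤ ‖d • x‖ := fun n => by
    have h2 : ∃ x ∈ S, (n : ℝ) + 1 < ‖x‖ := by
      by_contra h
      push Not at h
      exact hS (isBounded_iff_forall_norm_le.2 ⟨_, h⟩)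
    obtain ⟨x, hx, hn⟩ := h2
    have hn0 : (0 : ℝ) < n + 1 := by positivity
    have hx0 : x ≠ 0 := norm_pos_iff.1 (hn0.trans hn)
    obtain ⟨d, -, h3, h4, -⟩ := rescale_to_shell hc0 one_pos hx0
    refine ⟨x, hx, d, ?_, h3.le, h4⟩
    rw [norm_smul] at h3
    rw [le_div_iff₀ hn0]
    exact (mul_le_mul_of_nonneg_left hn.le (norm_nonneg d)).trans h3.le
  choose x hx d hd h2 h3 using h1
  obtain ⟨L, -, φ, hφ, hL⟩ := (isCompact_closedBall (0 : E) 1).tendsto_subseq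
    (x := fun n => d n • x n) fun n => mem_closedBall_zero_iff.2 (h2 n)
  have hd0 : Tendsto d atTop (𝓝 0) :=
    squeeze_zero_norm hd tendsto_one_div_add_atTop_nhds_zero_nat
  refine ⟨x ∘ φ, d ∘ φ, L, fun i => hx _, hd0.comp hφ.tendsto_atTop, ?_, hL⟩
  have h4 : 1 / ‖c0‖ ≤ ‖L‖ := ge_of_tendsto' hL.norm fun n => h3 (φ n)
  exact norm_pos_iff.1 (lt_of_lt_of_le (one_div_pos.2 (one_pos.trans hc0)) h4)

theorem Rep.gr {m : Type} [Fintype m] [DecidableEq m] {ρ : GL ν k → Matrix m m k}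
    (hρ : Rep G ρ) : ∃ N : ℕ, ∀ g ∈ G, ∀ R : ℝ, 1 ≤ R → Gr g.1 R → Gr (ρ g) (R ^ N) := by
  have h1 := fun ab : m × m => (hρ.reg ab.1 ab.2).bound
  choose C N h1 using h1
  refine ⟨Finset.univ.sup N, fun g hg R hR hgr r hr => ?_⟩
  set M := Finset.univ.sup N with hM
  obtain ⟨r', hr', hr''⟩ : ∃ r', R < r' ∧ r' ^ M < r :=
    ((continuous_pow M).continuousAt.eventually (gt_mem_nhds hr)).exists_gt
  obtain ⟨C1, hC1⟩ := hgr r' hr'
  have hr1 : 1 ≤ r' := hR.trans hr'.le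
  refine ⟨(∑ ab, |C ab|) * max C1 1 ^ M, fun l a b => ?_⟩
  have h2 : 1 ≤ max C1 1 * r' ^ l :=
    one_le_mul_of_one_le_of_one_le (le_max_right _ _) (one_le_pow₀ hr1)
  have h3 := h1 (a, b) (g ^ l) (G.pow_mem hg l) _ h2 fun i j => by
    rw [Units.val_pow_eq_pow_val]
    exact (hC1 l i j).trans (mul_le_mul_of_nonneg_right (le_max_left _ _) (by positivity))
  rw [hρ.pow hg] at h3
  refine h3.trans ?_
  have h4 : C (a, b) ≤ ∑ ab, |C ab| := (le_abs_self _).trans
    (Finset.single_le_sum (f := fun ab => |C ab|) (fun _ _ => abs_nonneg _) (Finset.mem_univ _))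
  have h5 : (max C1 1 * r' ^ l) ^ N (a, b) ≤ max C1 1 ^ M * r ^ l := by
    refine (pow_le_pow_right₀ h2 (Finset.le_sup (f := N) (Finset.mem_univ (a, b)))).trans ?_
    rw [mul_pow, ← pow_mul, mul_comm l, pow_mul]
    exact mul_le_mul_of_nonneg_left (pow_le_pow_left₀ (by positivity) hr''.le l) (by positivity)
  rw [mul_assoc]
  exact mul_le_mul h4 h5 (by positivity) (Finset.sum_nonneg fun _ _ => abs_nonneg _)

theorem IsVal.gr {g : GL ν k} {w : ν → ℝ} (h : IsVal g w) {R : ℝ} (hR0 : 0 < R)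
    (hR : ∀ j, Real.exp (-w j) ≤ R) : Gr g.1 R := by
  intro r hr
  obtain ⟨C, hC⟩ := h (r / R) ((one_lt_div hR0).2 hr)
  refine ⟨|C|, fun l a b => ?_⟩
  have h1 := hC l a b
  rw [zpow_natCast, Units.val_pow_eq_pow_val, Int.natAbs_natCast, Int.cast_natCast,
    ← mul_neg, Real.exp_nat_mul] at h1
  have hr0 : 0 < r := hR0.trans hr
  refine h1.trans ?_
  have h2 : r ^ l = R ^ l * (r / R) ^ l := by
    rw [← mul_pow, mul_div_cancel₀ _ hR0.ne']
  rw [h2, ← mul_assoc]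
  refine mul_le_mul_of_nonneg_right ?_ (by positivity)
  exact mul_le_mul (le_abs_self C) (pow_le_pow_left₀ (Real.exp_pos _).le (hR b) l)
    (by positivity) (abs_nonneg C)

theorem IsVal.conj {g h : GL ν k} {w : ν → ℝ} (hg : IsVal g w) (hh : h ∈ Zgl w) :
    IsVal (h * g * h⁻¹) w := by
  intro r hr
  obtain ⟨C, hC⟩ := hg r hr
  set A := ∑ i, ∑ j, ‖h.1 i j‖ with hA
  set B := ∑ i, ∑ j, ‖(h⁻¹).1 i j‖ with hB
  have hA0 : 0 ≤ A := by positivity
  have hB0 : 0 ≤ B := by positivity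
  have hr0 : 0 < r := one_pos.trans hr
  refine ⟨∑ _b : ν, ∑ _a : ν, A * |C| * B, fun l i j => ?_⟩
  rw [conj_zpow, Units.val_mul, Units.val_mul, Matrix.mul_apply, Finset.sum_mul, Finset.sum_mul]
  refine (norm_sum_le _ _).trans (Finset.sum_le_sum fun b _ => ?_)
  rw [Matrix.mul_apply, Finset.sum_mul, Finset.sum_mul, Finset.sum_mul]
  refine (norm_sum_le _ _).trans (Finset.sum_le_sum fun a _ => ?_)
  by_cases h0 : (h⁻¹).1 b j = 0
  · rw [h0, mul_zero, norm_zero]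
    positivity
  · have h1 : w b = w j := mem_Zgl.1 ((Zgl w).inv_mem hh) b j h0
    have h2 : ‖(g ^ l).1 a b‖ ≤ |C| * Real.exp (-(l * w j)) * r ^ l.natAbs := by
      refine (hC l a b).trans ?_
      rw [h1]
      gcongr
      exact le_abs_self C
    rw [norm_mul, norm_mul]
    calc ‖h.1 i a‖ * ‖(g ^ l).1 a b‖ * ‖(h⁻¹).1 b j‖
        ≤ A * (|C| * Real.exp (-(l * w j)) * r ^ l.natAbs) * B := by
          gcongr
          · exact top_entry_le h.1 i a
          · exact top_entry_le (h⁻¹).1 b j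
      _ = _ := by ring

theorem dg_pw_pow (y : ν → ℤ) (l : ℕ) : dg y (pw k) ^ l = dg y (pw k ^ l) := by
  induction l with
  | zero => rw [pow_zero, pow_zero, dg_one]
  | succ l ih => rw [pow_succ, pow_succ, dg_mul, ih]

theorem top_conj_apply (y : ν → ℤ) (g : GL ν k) (l : ℕ) (i j : ν) :
    (dg y (pw k) ^ l * g * (dg y (pw k) ^ l)⁻¹).1 i j =
      ((pw k : k) ^ l) ^ (y i - y j) * g.1 i j := by
  rw [dg_pw_pow, Units.val_mul, Units.val_mul, dg_conj_apply, Units.val_pow_eq_pow_val]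

theorem top_Zgl_comm {y : ν → ℤ} {g : GL ν k} (hg : g ∈ Zgl (cst y)) (t : kˣ) :
    g * dg y t = dg y t * g := by
  apply Units.ext
  ext i j
  rw [Units.val_mul, Units.val_mul, dg_val, mul_diagonal, diagonal_mul, mul_comm]
  by_cases h : g.1 i j = 0
  · rw [h, mul_zero, mul_zero]
  · have h1 : (y i : ℝ) = y j := mem_Zgl.1 hg i j h
    rw [Int.cast_inj.1 h1]

theorem mem_Ugl_iff_con {y : ν → ℤ} {g : GL ν k} :
    g ∈ Ugl (cst y) ↔ g ∈ H3Z.con (dg y (pw k)) := by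
  change _ ↔ Tendsto _ _ _
  rw [gl_tendsto, mem_Ugl]
  refine forall_congr' fun i => forall_congr' fun j => ?_
  rw [← tendsto_sub_nhds_zero_iff]
  have h1 : ∀ l : ℕ, (dg y (pw k) ^ l * g * (dg y (pw k) ^ l)⁻¹).1 i j - (1 : GL ν k).1 i j =
      ((pw k : k) ^ l) ^ (y i - y j) * (g.1 - 1) i j := fun l => by
    rw [top_conj_apply, Units.val_one, Matrix.sub_apply, mul_sub]
    by_cases e : i = j
    · simp [e]
    · simp [Matrix.one_apply_ne e]
  simp only [h1, top_tendsto_iff, cst, Int.cast_lt, sub_pos]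

theorem mem_Ugl_neg_iff_con {y : ν → ℤ} {g : GL ν k} :
    g ∈ Ugl (-cst y) ↔ g ∈ H3Z.con (dg y (pw k))⁻¹ := by
  have h1 : -cst y = cst (-y) := by
    funext i
    simp [cst]
  rw [h1, ← dg_neg]
  exact mem_Ugl_iff_con

theorem mem_Zgl_iff_comm {y : ν → ℤ} {g : GL ν k} :
    g ∈ Zgl (cst y) ↔ g * dg y (pw k) = dg y (pw k) * g := by
  refine ⟨fun h => top_Zgl_comm h _, fun h => mem_Zgl.2 fun i j hij => ?_⟩
  have h1 : (g * dg y (pw k)).1 i j = (dg y (pw k) * g).1 i j := by rw [h]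
  rw [Units.val_mul, Units.val_mul, dg_val, mul_diagonal, diagonal_mul, mul_comm] at h1
  have h2 := top_pw_inj (mul_right_cancel₀ hij h1)
  simp only [cst, h2]

theorem Zgl_comm {y : ν → ℤ} {g : GL ν k} (hg : g ∈ Zgl (cst y)) (t : kˣ) :
    g * dg y t = dg y t * g :=
  top_Zgl_comm hg t

/-- An element whose conjugates by the powers of `dg y pw` are bounded is in the parabolic. -/
theorem mem_Pgl_of_bd {y : ν → ℤ} {g : GL ν k}
    (h : Bd (Set.range fun l : ℕ => dg y (pw k) ^ l * g * (dg y (pw k) ^ l)⁻¹)) :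
    g ∈ Pgl (cst y) := by
  obtain ⟨C, hC⟩ := h
  refine mem_Pgl.2 fun i j hij => ?_
  have h1 := top_nonneg_of_bd (n := y i - y j) hij fun l => by
    rw [← top_conj_apply]
    exact hC _ ⟨l, rfl⟩ i j
  simp only [cst, Int.cast_le]
  omega

theorem Ugl_inf_Pgl {y : ν → ℝ} {g : GL ν k} (h : g ∈ Ugl y) (h' : g ∈ Pgl (-y)) : g = 1 := by
  apply Units.ext
  rw [Units.val_one, ← sub_eq_zero]
  ext i j
  by_contra hij
  have h1 : y j < y i := mem_Ugl.1 h i j hij
  have h2 : -y j ≤ -y i := mem_Grp.1 h' i j hij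
  linarith

theorem Pgl_inf_Pgl {y : ν → ℝ} {g : GL ν k} (h : g ∈ Pgl y) (h' : g ∈ Pgl (-y)) :
    g ∈ Zgl y := by
  refine mem_Zgl.2 fun i j hij => ?_
  have h1 : y j ≤ y i := mem_Pgl.1 h i j hij
  have h2 : -y j ≤ -y i := mem_Pgl.1 h' i j hij
  linarith

/-- The Levi part is the limit of the conjugates. -/
theorem tendsto_levi {y : ν → ℤ} {z u : GL ν k} (hz : z ∈ Zgl (cst y)) (hu : u ∈ Ugl (cst y)) :
    Tendsto (fun l : ℕ => dg y (pw k) ^ l * (z * u) * (dg y (pw k) ^ l)⁻¹) atTop (𝓝 z) := by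
  have h1 : Tendsto (fun l : ℕ => dg y (pw k) ^ l * u * (dg y (pw k) ^ l)⁻¹) atTop (𝓝 1) :=
    mem_Ugl_iff_con.1 hu
  have h2 := h1.const_mul z
  rw [mul_one] at h2
  refine h2.congr fun l => ?_
  rw [dg_pw_pow, ← mul_assoc, ← mul_assoc, ← mul_assoc, Zgl_comm hz]

/-- The commutator trick. -/
theorem mem_of_con {N : Subgroup (GL ν k)} (hN : IsClosed (N : Set (GL ν k))) {a u : GL ν k}
    (ha : a ∈ N) (hu : u ∈ H3Z.con a) (hn : ∀ x ∈ N, u * x * u⁻¹ ∈ N) : u ∈ N := by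
  have h1 : Tendsto (fun n : ℕ => a ^ n * u * (a ^ n)⁻¹) atTop (𝓝 1) := hu
  have h2 := h1.mul_const u⁻¹
  rw [one_mul] at h2
  have h3 : u⁻¹ ∈ N := hN.mem_of_tendsto h2 (Eventually.of_forall fun n => by
    have := N.mul_mem (N.pow_mem ha n) (hn _ (N.inv_mem (N.pow_mem ha n)))
    simpa only [mul_assoc, SetLike.mem_coe] using this)
  exact (inv_mem_iff (H := N)).1 h3

theorem con_conj {a g u : GL ν k} : u ∈ H3Z.con (g * a * g⁻¹) ↔ g⁻¹ * u * g ∈ H3Z.con a := by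
  change Tendsto _ _ _ ↔ Tendsto _ _ _
  constructor
  · intro h
    have h1 := (h.const_mul g⁻¹).mul_const g
    rw [mul_one, inv_mul_cancel] at h1
    refine h1.congr fun n => ?_
    rw [conj_pow]
    group
  · intro h
    have h1 := (h.const_mul g).mul_const g⁻¹
    rw [mul_one, mul_inv_cancel] at h1
    refine h1.congr fun n => ?_
    rw [conj_pow]
    group

theorem infinite_dg {y : ν → ℤ} (hy : y ≠ 0) : (Set.range (dg (k := k) y)).Infinite := by
  obtain ⟨i, hi⟩ := Function.ne_iff.1 hy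
  refine Set.infinite_of_injective_forall_mem (f := fun l : ℕ => dg y (pw k ^ l))
    (fun l l' h => ?_) fun l => ⟨_, rfl⟩
  have h1 : (dg y (pw k ^ l)).1 i i = (dg y (pw k ^ l')).1 i i := congrArg (fun g => g.1 i i) h
  rw [dg_val, dg_val, diagonal_apply_eq, diagonal_apply_eq, Units.val_pow_eq_pow_val,
    Units.val_pow_eq_pow_val, ← zpow_natCast, ← zpow_natCast, ← _root_.zpow_mul,
    ← _root_.zpow_mul] at h1
  exact_mod_cast mul_right_cancel₀ hi (top_pw_inj h1)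

end Pool.Agent.Lib.MP_60cbcc_al.H3A
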