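import Pool.Agent.Lib.MP_60cbcc_al.H3AAbs
import Pool.Agent.Lib.MP_60cbcc_al.H3ATop

/-!
Irreducible groups of matrices of bounded spectral radius are bounded.
-/

namespace Pool.Agent.Lib.MP_60cbcc_al.H3A

open Matrix Filter Topology

set_option linter.unusedSectionVars false

variable {k : Type} [NontriviallyNormedField k] [ProperSpace k] {ν : Type} [Fintype ν]
  [DecidableEq ν] {G : Subgroup (GL ν k)}

variable {m : Type} [Fintype m] [DecidableEq m]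

theorem burn_not_mem {H : Set (Matrix m m k)} (h1 : 1 ∈ H)
    (hm : ∀ a ∈ H, ∀ b ∈ H, a * b ∈ H) {V₂ V₁ : Submodule k (m → k)} (hI : Irr H V₂ V₁)
    {e : Matrix m m k} (he : ∀ v ∈ V₂, e *ᵥ v ∈ V₂) (he' : ∃ w ∈ V₁, e *ᵥ w ∉ V₂)
    {v : m → k} (hv : v ∈ V₁) (hv' : v ∉ V₂) : ∃ h ∈ H, e *ᵥ (h *ᵥ v) ∉ V₂ := by
  by_contra hc
  push Not at hc
  let V : Submodule k (m → k) :=
    { carrier := {w | w ∈ V₁ ∧ ∀ h ∈ H, e *ᵥ (h *ᵥ w) ∈ V₂}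
      zero_mem' := ⟨V₁.zero_mem, fun h _ => by simp⟩
      add_mem' := fun {a b} ha hb => ⟨V₁.add_mem ha.1 hb.1, fun h hh => by
        rw [mulVec_add, mulVec_add]
        exact V₂.add_mem (ha.2 h hh) (hb.2 h hh)⟩
      smul_mem' := fun c a ha => ⟨V₁.smul_mem c ha.1, fun h hh => by
        rw [mulVec_smul, mulVec_smul]
        exact V₂.smul_mem c (ha.2 h hh)⟩ }
  have hV : Inv H V := fun h hh w hw => ⟨hI.inv₁ h hh w hw.1, fun h' hh' => by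
    rw [mulVec_mulVec w h' h]
    exact hw.2 _ (hm _ hh' _ hh)⟩
  rcases hI.irr V (fun w hw => ⟨hI.lt.le hw, fun h hh => he _ (hI.inv₂ h hh w hw)⟩)
    (fun w hw => hw.1) hV with h | h
  · exact hv' (h ▸ (⟨hv, hc⟩ : v ∈ V))
  · obtain ⟨w, hw, hw'⟩ := he'
    have h2 : w ∈ V := h ▸ hw
    exact hw' (by simpa using h2.2 1 h1)

theorem burn_eq_zero {n : Type} {φ : Matrix n m k} (h : ∀ w, φ *ᵥ w = 0) : φ = 0 := by
  ext i j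
  simpa using congrFun (h (Pi.single j 1)) i

theorem nil_zero {H S : Set (Matrix m m k)} (h1 : 1 ∈ H) (hm : ∀ a ∈ H, ∀ b ∈ H, a * b ∈ H)
    (hH : Irr H ⊥ ⊤) (hS : ∀ φ ∈ S, ∀ ψ ∈ S, ∀ h ∈ H, φ * h * ψ ∈ S)
    (hn : ∀ φ ∈ S, ∀ h ∈ H, IsNilpotent (φ * h)) : ∀ φ ∈ S, φ = 0 := by
  by_contra hc
  push Not at hc
  obtain ⟨φ₀, h0, h0'⟩ := hc
  obtain ⟨_, ⟨φ, ⟨hφ, hne⟩, rfl⟩, hmin⟩ := (wellFounded_lt (α := Submodule k (m → k))).has_min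
    ((fun φ : Matrix m m k => LinearMap.range φ.mulVecLin) '' {φ | φ ∈ S ∧ φ ≠ 0})
    ⟨_, φ₀, ⟨h0, h0'⟩, rfl⟩
  obtain ⟨w, hw⟩ : ∃ w, φ *ᵥ w ≠ 0 := by
    by_contra h
    push Not at h
    exact hne (burn_eq_zero h)
  obtain ⟨h, hh, h2⟩ := burn_not_mem h1 hm hH (e := φ) (fun v hv => by simp_all)
    ⟨w, trivial, hw⟩ (v := φ *ᵥ w) trivial hw
  have h3 : φ * h * φ ≠ 0 := fun e => h2 (by simp [mulVec_mulVec, ← Matrix.mul_assoc, e])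
  have h4 : LinearMap.range (φ * h * φ).mulVecLin ≤ LinearMap.range φ.mulVecLin := by
    rintro _ ⟨x, rfl⟩
    exact ⟨(h * φ) *ᵥ x, by simp [mulVec_mulVec, Matrix.mul_assoc]⟩
  have h5 := h4.eq_of_not_lt (hmin _ ⟨_, ⟨hS φ hφ φ hφ h hh, h3⟩, rfl⟩)
  have h6 : ∀ n : ℕ, ∃ x, φ *ᵥ w = ((φ * h) ^ n * φ) *ᵥ x := fun n => by
    induction n with
    | zero => exact ⟨w, by simp⟩
    | succ n ih =>
      obtain ⟨x, hx⟩ := ih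
      obtain ⟨y, hy⟩ : φ *ᵥ x ∈ LinearMap.range (φ * h * φ).mulVecLin := h5 ▸ ⟨x, rfl⟩
      refine ⟨y, ?_⟩
      rw [hx, ← mulVec_mulVec, ← hy, mulVecLin_apply, mulVec_mulVec, pow_succ,
        Matrix.mul_assoc _ (φ * h)]
  obtain ⟨n, hn'⟩ := hn φ hφ h hh
  obtain ⟨x, hx⟩ := h6 n
  exact hw (by rw [hx, hn', Matrix.zero_mul, zero_mulVec])

theorem exists_irr {H : Set (Matrix m m k)} (h1 : 1 ∈ H) (hm : ∀ a ∈ H, ∀ b ∈ H, a * b ∈ H)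
    {v : m → k} (hv : v ≠ 0) : ∃ V₂ V₁, Irr H V₂ V₁ ∧ v ∈ V₁ ∧ v ∉ V₂ := by
  obtain ⟨V₂, ⟨i2, n2⟩, hmax⟩ := (wellFounded_gt (α := Submodule k (m → k))).has_min
    {V | Inv H V ∧ v ∉ V} ⟨⊥, fun h _ w hw => by simp_all, hv⟩
  obtain ⟨V₁, ⟨i1, l1⟩, hmin⟩ := (wellFounded_lt (α := Submodule k (m → k))).has_min
    {V | Inv H V ∧ V₂ < V} ⟨⊤, fun _ _ _ _ => trivial, lt_top_iff_ne_top.2 fun e => n2 (e ▸ trivial)⟩
  refine ⟨V₂, V₁, ⟨l1, i2, i1, fun V a b c => ?_⟩, ?_, n2⟩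
  · rcases a.eq_or_lt with e | e
    · exact Or.inl e.symm
    · exact Or.inr (b.eq_of_not_lt (hmin V ⟨c, e⟩))
  · by_contra h
    exact hmax V₁ ⟨i1, h⟩ l1

theorem exists_quot {V₂ V₁ : Submodule k (m → k)} (h : V₂ ≤ V₁) :
    ∃ (d : ℕ) (p : Matrix (Fin d) m k) (s : Matrix m (Fin d) k), p * s = 1 ∧
      (∀ w, s *ᵥ w ∈ V₁) ∧ ∀ v ∈ V₁, p *ᵥ v = 0 ↔ v ∈ V₂ := by
  let Q : Submodule k ((m → k) ⧸ V₂) := V₁.map V₂.mkQ
  let e := (Module.finBasis k Q).equivFun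
  obtain ⟨π, hπ⟩ := Q.subtype.exists_leftInverse_of_injective Q.ker_subtype
  let P : (m → k) →ₗ[k] (Fin (Module.finrank k Q) → k) := e.toLinearMap ∘ₗ π ∘ₗ V₂.mkQ
  have hP : ∀ v (hv : v ∈ V₁), P v = e ⟨V₂.mkQ v, v, hv, rfl⟩ := fun v hv =>
    congrArg e (LinearMap.congr_fun hπ ⟨V₂.mkQ v, v, hv, rfl⟩)
  obtain ⟨S, hS⟩ := (P ∘ₗ V₁.subtype).exists_rightInverse_of_surjective (by
    rw [LinearMap.range_eq_top]
    intro w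
    obtain ⟨⟨_, v, hv, rfl⟩, rfl⟩ := e.surjective w
    exact ⟨⟨v, hv⟩, hP v hv⟩)
  refine ⟨_, LinearMap.toMatrix' P, LinearMap.toMatrix' (V₁.subtype ∘ₗ S), ?_, fun w => ?_,
    fun v hv => ?_⟩
  · rw [← LinearMap.toMatrix'_comp, ← LinearMap.comp_assoc, hS, LinearMap.toMatrix'_id]
  · rw [LinearMap.toMatrix'_mulVec]
    exact (S w).2
  · rw [LinearMap.toMatrix'_mulVec, hP v hv, e.map_eq_zero_iff, Subtype.ext_iff]
    exact Submodule.Quotient.mk_eq_zero V₂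

/-- In an irreducible subquotient every vector generates. -/
theorem Irr.exists_not_mem {H : Set (Matrix m m k)} (h1 : 1 ∈ H)
    (hm : ∀ a ∈ H, ∀ b ∈ H, a * b ∈ H) {V₂ V₁ : Submodule k (m → k)} (hI : Irr H V₂ V₁)
    {e : Matrix m m k} (he : ∀ v ∈ V₂, e *ᵥ v ∈ V₂) (he' : ∃ w ∈ V₁, e *ᵥ w ∉ V₂)
    {v : m → k} (hv : v ∈ V₁) (hv' : v ∉ V₂) : ∃ h ∈ H, e *ᵥ (h *ᵥ v) ∉ V₂ :=
  burn_not_mem h1 hm hI he he' hv hv'

theorem Inv.span {H : Set (Matrix m m k)} {V : Submodule k (m → k)} (h : Inv H V)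
    {x : Matrix m m k} (hx : x ∈ Submodule.span k H) {v : m → k} (hv : v ∈ V) :
    x *ᵥ v ∈ V := by
  induction hx using Submodule.span_induction with
  | mem x hx => exact h x hx v hv
  | zero => simp
  | add x y _ _ hx hy => rw [add_mulVec]; exact V.add_mem hx hy
  | smul c x _ hx => rw [smul_mulVec]; exact V.smul_mem c hx

theorem burn_dot {a b : m → k} {A : Matrix m m k} {C : ℝ} (h : ∀ i j, ‖A i j‖ ≤ C) :
    ‖a ⬝ᵥ A *ᵥ b‖ ≤ (∑ i, ∑ j, ‖a i‖ * ‖b j‖) * C := by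
  simp only [dotProduct, mulVec, Finset.sum_mul, Finset.mul_sum]
  refine norm_sum_le_of_le _ fun i _ => norm_sum_le_of_le _ fun j _ => ?_
  rw [norm_mul, norm_mul, mul_assoc, mul_comm ‖b j‖]
  gcongr
  exact h i j

theorem burn_gr {d : ℕ} {p : Matrix (Fin d) m k} {s : Matrix m (Fin d) k} {A : Matrix m m k}
    {B : Matrix (Fin d) (Fin d) k} (h : ∀ l : ℕ, B ^ l = p * A ^ l * s) {R : ℝ} (hA : Gr A R) :
    Gr B R := fun r hr => by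
  obtain ⟨C, hC⟩ := hA r hr
  refine ⟨(∑ a, ∑ b, ∑ i, ∑ j, ‖p a i‖ * ‖s j b‖) * C, fun l a b => ?_⟩
  rcases isEmpty_or_nonempty m with hm | ⟨⟨i₀⟩⟩
  · simp [h, Matrix.mul_apply]
  have h0 : 0 ≤ C * r ^ l := (norm_nonneg _).trans (hC l i₀ i₀)
  have e : (B ^ l) a b = p a ⬝ᵥ (A ^ l) *ᵥ fun j => s j b := by
    rw [h, Matrix.mul_assoc]
    rfl
  rw [e, mul_assoc]
  refine (burn_dot (hC l)).trans (mul_le_mul_of_nonneg_right ?_ h0)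
  refine le_trans ?_ (Finset.single_le_sum (f := fun a => ∑ b, ∑ i, ∑ j, ‖p a i‖ * ‖s j b‖)
    (fun _ _ => by positivity) (Finset.mem_univ a))
  exact Finset.single_le_sum (f := fun b => ∑ i, ∑ j, ‖p a i‖ * ‖s j b‖)
    (fun _ _ => by positivity) (Finset.mem_univ b)

/-- Bounded orbits in an irreducible representation. -/
theorem burn_irr {Γ : Type} [Group Γ] {H N : Subgroup Γ} (hN : N ≤ H)
    (hn : ∀ h ∈ H, ∀ x ∈ N, h * x * h⁻¹ ∈ N) {σ : Γ → Matrix m m k} (h1 : σ 1 = 1)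
    (hm : ∀ g ∈ H, ∀ h ∈ H, σ (g * h) = σ g * σ h)
    (hI : Irr (σ '' H) ⊥ ⊤) (hg : ∀ h ∈ H, ∃ R, ∀ x ∈ N, Gr (σ (x * h)) R) :
    ∃ C : ℝ, ∀ x ∈ N, ∀ i j, ‖σ x i j‖ ≤ C := by
  by_cases hb : Bornology.IsBounded ((fun x i j => σ x i j : Γ → m → m → k) '' N)
  · obtain ⟨C, hC⟩ := hb.exists_norm_le
    exact ⟨C, fun x hx i j =>
      ((norm_le_pi_norm (fun j => σ x i j) j).trans
        (norm_le_pi_norm (fun i j => σ x i j) i)).trans (hC _ ⟨x, hx, rfl⟩)⟩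
  obtain ⟨y, c, L, hy, hc, hL, hlim⟩ := exists_normalise (k := k) hb
  choose x hx hxy using hy
  refine (hL (nil_zero (H := σ '' H) (S := {φ | ∃ h ∈ H, ∃ (x : ℕ → Γ) (c : ℕ → k), (∀ i, x i ∈ N) ∧
    Tendsto c atTop (𝓝 0) ∧ Tendsto (fun i => c i • σ (x i * h)) atTop (𝓝 φ)}) ⟨1, H.one_mem, h1⟩
    ?_ hI ?_ ?_ L ⟨1, H.one_mem, x, c, hx, hc, ?_⟩)).elim
  · rintro _ ⟨a, ha, rfl⟩ _ ⟨b, hb, rfl⟩
    exact ⟨a * b, H.mul_mem ha hb, hm a ha b hb⟩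
  · rintro φ ⟨h, hh, x, c, hx, hc, l1⟩ ψ ⟨h', hh', x', c', hx', hc', l2⟩ _ ⟨g, hg', rfl⟩
    refine ⟨h * g * h', H.mul_mem (H.mul_mem hh hg') hh',
      fun i => x i * (h * g * x' i * (h * g)⁻¹), fun i => c i * c' i,
      fun i => N.mul_mem (hx i) (hn _ (H.mul_mem hh hg') _ (hx' i)), by simpa using hc.mul hc', ?_⟩
    refine ((l1.mul_const (σ g)).mul l2).congr fun i => ?_
    have a1 := H.mul_mem (hN (hx i)) hh
    rw [show x i * (h * g * x' i * (h * g)⁻¹) * (h * g * h') = x i * h * g * (x' i * h') by group,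
      hm _ (H.mul_mem a1 hg') _ (H.mul_mem (hN (hx' i)) hh'), hm _ a1 _ hg', smul_mul_assoc,
      smul_mul_smul_comm]
  · rintro φ ⟨h, hh, x, c, hx, hc, l1⟩ _ ⟨g, hg', rfl⟩
    obtain ⟨R, hR⟩ := hg _ (H.mul_mem hh hg')
    refine nil_of_lim (fun i => σ (x i * (h * g))) R (fun i => hR _ (hx i)) c hc _
      ((l1.mul_const (σ g)).congr fun i => ?_)
    rw [← mul_assoc, hm _ (H.mul_mem (hN (hx i)) hh) _ hg', smul_mul_assoc]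
  · refine hlim.congr fun i => ?_
    rw [mul_one, ← hxy i]
    rfl

theorem burn_pow {Γ : Type} [Group Γ] {H : Subgroup Γ} {σ : Γ → Matrix m m k} (h1 : σ 1 = 1)
    (hm : ∀ g ∈ H, ∀ h ∈ H, σ (g * h) = σ g * σ h) {g : Γ} (hg : g ∈ H) (l : ℕ) :
    σ g ^ l = σ (g ^ l) := by
  induction l with
  | zero => rw [pow_zero, pow_zero, h1]
  | succ l ih => rw [pow_succ, pow_succ, hm _ (H.pow_mem hg l) _ hg, ih]

theorem burnside {Γ : Type} [Group Γ] {H N : Subgroup Γ} (hN : N ≤ H)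
    (hn : ∀ h ∈ H, ∀ x ∈ N, h * x * h⁻¹ ∈ N) {ρ : Γ → Matrix m m k} (h1 : ρ 1 = 1)
    (hm : ∀ g ∈ H, ∀ h ∈ H, ρ (g * h) = ρ g * ρ h) {V₂ V₁ : Submodule k (m → k)}
    (hI : Irr (ρ '' H) V₂ V₁) (hg : ∀ h ∈ H, ∃ R, ∀ x ∈ N, Gr (ρ (x * h)) R)
    (ξ : m → k) (hξ : ∀ v ∈ V₂, ξ ⬝ᵥ v = 0) {v : m → k} (hv : v ∈ V₁) :
    ∃ C : ℝ, ∀ x ∈ N, ‖ξ ⬝ᵥ ρ x *ᵥ v‖ ≤ C := by
  obtain ⟨d, p, s, hps, hs, hp⟩ := exists_quot hI.lt.le
  have i1 : ∀ g ∈ H, ∀ w ∈ V₁, ρ g *ᵥ w ∈ V₁ := fun g hg => hI.inv₁ _ ⟨g, hg, rfl⟩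
  have i2 : ∀ g ∈ H, ∀ w ∈ V₂, ρ g *ᵥ w ∈ V₂ := fun g hg => hI.inv₂ _ ⟨g, hg, rfl⟩
  have ps : ∀ w, p *ᵥ (s *ᵥ w) = w := fun w => by rw [mulVec_mulVec, hps, one_mulVec]
  have k1 : ∀ w ∈ V₁, w - s *ᵥ (p *ᵥ w) ∈ V₂ := fun w hw =>
    (hp _ (V₁.sub_mem hw (hs _))).1 (by rw [mulVec_sub, ps, sub_self])
  have k2 : ∀ g ∈ H, ∀ w ∈ V₁, p *ᵥ (ρ g *ᵥ w) = (p * ρ g * s) *ᵥ (p *ᵥ w) := fun g hg w hw => by
    have := (hp _ (hI.lt.le (i2 g hg _ (k1 w hw)))).2 (i2 g hg _ (k1 w hw))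
    rw [mulVec_sub, mulVec_sub, sub_eq_zero] at this
    rw [this, ← mulVec_mulVec, ← mulVec_mulVec]
  have s1 : p * ρ 1 * s = 1 := by rw [h1, Matrix.mul_one, hps]
  have sm : ∀ g ∈ H, ∀ h ∈ H, p * ρ (g * h) * s = p * ρ g * s * (p * ρ h * s) := by
    intro g hg h hh
    refine sub_eq_zero.1 (burn_eq_zero fun w => ?_)
    have := k2 g hg _ (i1 h hh _ (hs w))
    simp only [mulVec_mulVec, ← Matrix.mul_assoc] at this
    rw [sub_mulVec, hm g hg h hh, sub_eq_zero]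
    simpa only [← Matrix.mul_assoc] using this
  have hI' : Irr ((fun g => p * ρ g * s) '' H) ⊥ ⊤ := by
    refine ⟨?_, fun _ _ w hw => by simp_all, fun _ _ _ _ => trivial, fun V _ _ hV => ?_⟩
    · obtain ⟨w, hw, hw'⟩ := SetLike.exists_of_lt hI.lt
      refine bot_lt_iff_ne_bot.2 fun e => hw' ((hp w hw).1 ?_)
      have : p *ᵥ w ∈ (⊥ : Submodule k (Fin d → k)) := e ▸ trivial
      exact this
    · rcases hI.irr (V₁ ⊓ V.comap p.mulVecLin) (fun w hw => ⟨hI.lt.le hw, by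
          change p *ᵥ w ∈ V
          rw [(hp w (hI.lt.le hw)).2 hw]
          exact V.zero_mem⟩) inf_le_left (by
          rintro _ ⟨g, hg, rfl⟩ w ⟨hw, hw'⟩
          refine ⟨i1 g hg w hw, ?_⟩
          change p *ᵥ (ρ g *ᵥ w) ∈ V
          rw [k2 g hg w hw]
          exact hV _ ⟨g, hg, rfl⟩ _ hw') with e | e
      · refine Or.inl (eq_bot_iff.2 fun w hw => ?_)
        have : s *ᵥ w ∈ V₂ := e ▸ ⟨hs w, by change p *ᵥ (s *ᵥ w) ∈ V; rwa [ps]⟩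
        exact (ps w).symm.trans ((hp _ (hs w)).2 this)
      · refine Or.inr (eq_top_iff.2 fun w _ => ?_)
        have : s *ᵥ w ∈ V₁ ⊓ V.comap p.mulVecLin := e.symm ▸ hs w
        exact ps w ▸ this.2
  obtain ⟨C, hC⟩ := burn_irr hN hn (σ := fun g => p * ρ g * s) s1 sm hI' fun h hh => by
    obtain ⟨R, hR⟩ := hg h hh
    refine ⟨R, fun x hx => burn_gr (p := p) (s := s) (fun l => ?_) (hR x hx)⟩
    have a1 := H.mul_mem (hN hx) hh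
    rw [burn_pow h1 hm a1, burn_pow (σ := fun g => p * ρ g * s) s1 sm a1]
  refine ⟨(∑ i, ∑ j, ‖(ξ ᵥ* s) i‖ * ‖(p *ᵥ v) j‖) * C, fun x hx => ?_⟩
  have := hξ _ (k1 _ (i1 x (hN hx) v hv))
  rw [dotProduct_sub, sub_eq_zero, k2 x (hN hx) v hv, dotProduct_mulVec ξ s] at this
  rw [this]
  exact burn_dot (hC x hx)

end Pool.Agent.Lib.MP_60cbcc_al.H3A
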