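import Pool.Agent.Lib.MP_60cbcc_al.H3ABase

/-!
Commutative algebra at a smooth point.
-/

namespace Pool.Agent.Lib.MP_60cbcc_al.H3A

open Matrix Filter Topology

set_option linter.unusedSectionVars false

open MvPolynomial

variable {k σ : Type} [Field k] [Fintype σ] {c d : ℕ} {x : σ → k}
  {f : Fin c → MvPolynomial σ k} {T : Fin d → MvPolynomial σ k}

/-- The polynomials `f, T` form a system of local coordinates at `x`. -/
structure LocCoord (x : σ → k) (f : Fin c → MvPolynomial σ k) (T : Fin d → MvPolynomial σ k) :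
    Prop where
  f0 : ∀ a, eval x (f a) = 0
  T0 : ∀ b, eval x (T b) = 0
  bij : Function.Bijective fun v : σ → k =>
    ((fun a => ∑ s, v s * eval x (pderiv s (f a)), fun b => ∑ s, v s * eval x (pderiv s (T b))) :
      (Fin c → k) × (Fin d → k))

namespace ChartB

lemma del_mem (x : σ → k) (s : σ) : (X s - C (x s) : MvPolynomial σ k) ∈ RingHom.ker (eval x) := by
  simp [RingHom.mem_ker]

/-- expansion to first order -/
lemma lin (x : σ → k) (q : MvPolynomial σ k) :
    q - C (eval x q) - ∑ s, C (eval x (pderiv s q)) * (X s - C (x s)) ∈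
      RingHom.ker (eval x) ^ 2 := by
  classical
  induction q using MvPolynomial.induction_on with
  | C a => simp
  | add p q hp hq =>
    have := Ideal.add_mem _ hp hq
    simp only [map_add, add_mul, Finset.sum_add_distrib]
    convert this using 1
    ring
  | mul_X p i hp =>
    have hL : ∑ s, C (eval x (pderiv s p)) * (X s - C (x s)) ∈ RingHom.ker (eval x) :=
      Ideal.sum_mem _ fun s _ => Ideal.mul_mem_left _ _ (del_mem x s)
    have h1 : (∑ s, C (eval x (pderiv s p)) * (X s - C (x s))) * (X i - C (x i)) ∈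
        RingHom.ker (eval x) ^ 2 := by
      rw [pow_two]
      exact Ideal.mul_mem_mul hL (del_mem x i)
    have h2 := Ideal.add_mem _ (Ideal.mul_mem_right (X i) _ hp) h1
    have h3 : ∑ s, C (eval x (pderiv s (p * X i))) * (X s - C (x s)) =
        C (x i) * ∑ s, C (eval x (pderiv s p)) * (X s - C (x s)) +
          C (eval x p) * (X i - C (x i)) := by
      have h4 : ∀ s, C (eval x (pderiv s (p * X i))) * (X s - C (x s)) =
          C (x i) * (C (eval x (pderiv s p)) * (X s - C (x s))) +
            if s = i then C (eval x p) * (X i - C (x i)) else 0 := by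
        intro s
        rw [pderiv_mul, pderiv_X]
        by_cases hs : s = i
        · subst hs
          simp only [Pi.single_eq_same, mul_one, map_add, map_mul, eval_X, if_true]
          ring
        · simp only [Pi.single_eq_of_ne' hs, mul_zero, add_zero, map_mul, eval_X, if_neg hs]
          ring
      simp only [h4, Finset.sum_add_distrib, ← Finset.mul_sum, Finset.sum_ite_eq',
        Finset.mem_univ, if_true]
    rw [h3]
    convert h2 using 1
    simp only [map_mul, eval_X]
    ring

/-- a left inverse of the Jacobian matrix at `x` -/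
lemma exists_inv [DecidableEq σ] (h : LocCoord x f T) : ∃ B : Matrix σ (Fin c ⊕ Fin d) k,
    B * (Matrix.of fun j s => eval x (pderiv s (Sum.elim f T j))) = 1 := by
  set A : Matrix (Fin c ⊕ Fin d) σ k := Matrix.of fun j s => eval x (pderiv s (Sum.elim f T j))
    with hA
  have hinj : Function.Injective (Matrix.toLin' A) := by
    intro v w e
    apply h.bij.1
    have e' : ∀ j, ∑ s, v s * eval x (pderiv s (Sum.elim f T j)) =
        ∑ s, w s * eval x (pderiv s (Sum.elim f T j)) := fun j => by
      have := congrFun e j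
      simpa [hA, Matrix.mulVec, dotProduct, mul_comm] using this
    exact Prod.ext (funext fun a => e' (Sum.inl a)) (funext fun b => e' (Sum.inr b))
  obtain ⟨ψ, hψ⟩ := LinearMap.exists_leftInverse_of_injective _ (LinearMap.ker_eq_bot.mpr hinj)
  refine ⟨LinearMap.toMatrix' ψ, ?_⟩
  apply Matrix.toLin'.injective
  rw [Matrix.toLin'_mul, Matrix.toLin'_toMatrix', hψ, Matrix.toLin'_one]

lemma F_mem (h : LocCoord x f T) (j : Fin c ⊕ Fin d) : eval x (Sum.elim f T j) = 0 := by
  cases j with
  | inl a => exact h.f0 a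
  | inr b => exact h.T0 b

lemma sup_mul {R : Type} [CommRing R] {I m : Ideal R} {N M : ℕ} {y z : R} (hy : y ∈ I ⊔ m ^ N)
    (hz : z ∈ I ⊔ m ^ M) : y * z ∈ I ⊔ m ^ (N + M) := by
  obtain ⟨a, ha, b, hb, rfl⟩ := Submodule.mem_sup.mp hy
  obtain ⟨a', ha', b', hb', rfl⟩ := Submodule.mem_sup.mp hz
  refine Submodule.mem_sup.mpr ⟨a * (a' + b') + b * a', Ideal.add_mem _
    (Ideal.mul_mem_right _ _ ha) (Ideal.mul_mem_left _ _ ha'), b * b', ?_, by ring⟩
  rw [pow_add]
  exact Ideal.mul_mem_mul hb hb'

lemma step_one (h : LocCoord x f T) {q : MvPolynomial σ k} (hq : q ∈ RingHom.ker (eval x)) :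
    ∃ p : MvPolynomial (Fin d) k, p.totalDegree ≤ 1 ∧
      q - aeval T p ∈ Ideal.span (Set.range f) ⊔ RingHom.ker (eval x) ^ 2 := by
  classical
  obtain ⟨B, hB⟩ := exists_inv h
  set w : Fin c ⊕ Fin d → k := fun j => ∑ s, eval x (pderiv s q) * B s j with hw
  have h1 : ∀ t, ∑ j, w j * eval x (pderiv t (Sum.elim f T j)) = eval x (pderiv t q) := by
    intro t
    have h2 : ∀ s, ∑ j, B s j * eval x (pderiv t (Sum.elim f T j)) = if s = t then 1 else 0 :=
      fun s => by simpa [Matrix.mul_apply, Matrix.one_apply] using congrFun (congrFun hB s) t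
    simp only [hw, Finset.sum_mul, mul_assoc]
    rw [Finset.sum_comm]
    simp only [← Finset.mul_sum, h2]
    simp
  have h3 := lin x (q - ∑ j, C (w j) * Sum.elim f T j)
  have h4 : eval x (q - ∑ j, C (w j) * Sum.elim f T j) = 0 := by
    rw [map_sub, map_sum, (RingHom.mem_ker).mp hq]
    simp [F_mem h]
  have h5 : ∀ t, eval x (pderiv t (q - ∑ j, C (w j) * Sum.elim f T j)) = 0 := by
    intro t
    rw [map_sub, map_sum, map_sub, map_sum]
    simp only [pderiv_C_mul, map_mul, eval_C]
    rw [h1, sub_self]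
  simp only [h4, h5, map_zero, zero_mul, Finset.sum_const_zero, sub_zero] at h3
  refine ⟨∑ b, C (w (Sum.inr b)) * X b, ?_, ?_⟩
  · refine totalDegree_finsetSum_le fun b _ => (totalDegree_mul _ _).trans ?_
    rw [totalDegree_C, totalDegree_X]
  · refine Submodule.mem_sup.mpr ⟨∑ a, C (w (Sum.inl a)) * f a, Ideal.sum_mem _ fun a _ =>
      Ideal.mul_mem_left _ _ (Ideal.subset_span ⟨a, rfl⟩), _, h3, ?_⟩
    simp only [Fintype.sum_sum_type, Sum.elim_inl, Sum.elim_inr, map_sum, map_mul, aeval_C,
      aeval_X, algebraMap_eq]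
    ring

lemma step (h : LocCoord x f T) (N : ℕ) : ∀ q ∈ RingHom.ker (eval x) ^ N,
    ∃ p : MvPolynomial (Fin d) k, p.totalDegree ≤ N ∧
      q - aeval T p ∈ Ideal.span (Set.range f) ⊔ RingHom.ker (eval x) ^ (N + 1) := by
  induction N with
  | zero =>
    intro q _
    refine ⟨C (eval x q), (totalDegree_C _).le, Ideal.mem_sup_right ?_⟩
    simp [RingHom.mem_ker]
  | succ N ih =>
    intro q hq
    rw [pow_succ] at hq
    refine Submodule.mul_induction_on hq (fun a ha b hb => ?_) fun y z hy hz => ?_
    · obtain ⟨p, hp, hp'⟩ := ih a ha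
      obtain ⟨r, hr, hr'⟩ := step_one h hb
      refine ⟨p * r, (totalDegree_mul _ _).trans (add_le_add hp hr), ?_⟩
      have h1 : aeval T r ∈ Ideal.span (Set.range f) ⊔ RingHom.ker (eval x) ^ 1 := by
        have h2 : b - aeval T r ∈ Ideal.span (Set.range f) ⊔ RingHom.ker (eval x) ^ 1 :=
          (sup_le_sup_left (Ideal.pow_le_pow_right (by norm_num : 1 ≤ 2))
            (Ideal.span (Set.range f)) : _ ≤ _) hr'
        have h3 : b ∈ Ideal.span (Set.range f) ⊔ RingHom.ker (eval x) ^ 1 :=
          Ideal.mem_sup_right (by rwa [pow_one])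
        simpa using Ideal.sub_mem _ h3 h2
      have h5 := sup_mul hp' h1
      have h4 := Ideal.add_mem _ (sup_mul (Ideal.mem_sup_right ha) hr') h5
      convert h4 using 1
      rw [map_mul]
      ring
    · obtain ⟨p, hp, hp'⟩ := hy
      obtain ⟨r, hr, hr'⟩ := hz
      refine ⟨p + r, (totalDegree_add _ _).trans (max_le hp hr), ?_⟩
      convert Ideal.add_mem _ hp' hr' using 1
      rw [map_add]
      ring

/-- the chain rule for a derivation that kills the constants -/
lemma chain {A L M : Type} [CommRing A] [CommRing L] [Algebra A L] [AddCommGroup M] [Module L M]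
    [Module A M] (D : Derivation A L M) (π : MvPolynomial σ k →+* L) (hC : ∀ a, D (π (C a)) = 0)
    (r : MvPolynomial σ k) : D (π r) = ∑ s, π (pderiv s r) • D (π (X s)) := by
  classical
  induction r using MvPolynomial.induction_on with
  | C a => simp [hC]
  | add p q hp hq => simp only [map_add, hp, hq, add_smul, Finset.sum_add_distrib]
  | mul_X p i hp =>
    have h4 : ∀ s, π (pderiv s (p * X i)) • D (π (X s)) =
        π (X i) • (π (pderiv s p) • D (π (X s))) + if s = i then π p • D (π (X i)) else 0 := by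
      intro s
      rw [pderiv_mul, pderiv_X]
      by_cases hs : s = i
      · subst hs
        simp only [Pi.single_eq_same, mul_one, map_add, map_mul, if_true, add_smul, smul_smul,
          mul_comm]
      · simp only [Pi.single_eq_of_ne' hs, mul_zero, add_zero, map_mul, if_neg hs, smul_smul,
          mul_comm]
    simp only [h4, Finset.sum_add_distrib, ← Finset.smul_sum, Finset.sum_ite_eq',
      Finset.mem_univ, if_true]
    rw [map_mul, Derivation.leibniz, hp, add_comm]

lemma der_zero (h : LocCoord x f T) {A L M : Type} [CommRing A] [Field L] [Algebra A L]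
    [AddCommGroup M] [Module L M] [Module A M] (D : Derivation A L M)
    (π : MvPolynomial σ k →+* L) (hπ : ∀ r, π r = 0 → eval x r = 0) (hC : ∀ a, D (π (C a)) = 0)
    (hF : ∀ j, D (π (Sum.elim f T j)) = 0) (r : MvPolynomial σ k) : D (π r) = 0 := by
  classical
  obtain ⟨B, hB⟩ := exists_inv h
  set N : Matrix σ σ (MvPolynomial σ k) :=
    Matrix.of fun t s => ∑ j, C (B t j) * pderiv s (Sum.elim f T j) with hN
  have h1 : (eval x).mapMatrix N = 1 := by
    rw [← hB]
    ext t s
    simp only [RingHom.mapMatrix_apply, Matrix.map_apply, hN, Matrix.of_apply, map_sum, map_mul,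
      eval_C, Matrix.mul_apply]
  have h2 : IsUnit (π.mapMatrix N).det := by
    rw [isUnit_iff_ne_zero, ← RingHom.map_det]
    intro e
    have := hπ _ e
    rw [RingHom.map_det, h1, Matrix.det_one] at this
    exact one_ne_zero this
  have h3 : ∀ t, ∑ s, π.mapMatrix N t s • D (π (X s)) = 0 := by
    intro t
    have h4 : ∀ s, π.mapMatrix N t s = ∑ j, π (C (B t j)) * π (pderiv s (Sum.elim f T j)) := by
      intro s
      simp only [RingHom.mapMatrix_apply, Matrix.map_apply, hN, Matrix.of_apply, map_sum, map_mul]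
    simp only [h4, Finset.sum_smul, mul_smul]
    rw [Finset.sum_comm]
    simp only [← Finset.smul_sum, ← chain D π hC, hF, smul_zero, Finset.sum_const_zero]
  have h5 : ∀ t, D (π (X t)) = 0 := by
    intro t
    have h6 : ∑ s, ((π.mapMatrix N)⁻¹ * π.mapMatrix N) t s • D (π (X s)) = 0 := by
      simp only [Matrix.mul_apply, Finset.sum_smul, mul_smul]
      rw [Finset.sum_comm]
      simp only [← Finset.smul_sum, h3, smul_zero, Finset.sum_const_zero]
    rw [Matrix.nonsing_inv_mul _ h2] at h6
    simpa [Matrix.one_apply] using h6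
  rw [chain D π hC]
  simp [h5]

lemma isAlgebraic_of_der {A B : Type} [CommRing A] [IsDomain A] [CommRing B] [IsDomain B]
    [Algebra A B] [FaithfulSMul A B] [Algebra.FiniteType A B]
    (h : ∀ b : B, KaehlerDifferential.D A (FractionRing B) (algebraMap B (FractionRing B) b) = 0)
    (b : B) : IsAlgebraic A b := by
  have h1 : ∀ z, KaehlerDifferential.D A (FractionRing B) z = 0 := by
    intro z
    obtain ⟨a, s, hs, rfl⟩ := IsFractionRing.div_surjective (A := B) z
    rw [Derivation.leibniz_div, h, h]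
    simp
  have h2 : Subsingleton (KaehlerDifferential A (FractionRing B)) := by
    refine subsingleton_of_forall_eq 0 fun y => ?_
    have h3 : y ∈ Submodule.span (FractionRing B)
        (Set.range (KaehlerDifferential.D A (FractionRing B))) := by
      rw [KaehlerDifferential.span_range_derivation]
      trivial
    refine (Submodule.span_le (p := ⊥)).mpr ?_ h3
    rintro _ ⟨z, rfl⟩
    exact h1 z
  have h4 : Algebra.FormallyUnramified A (FractionRing B) := ⟨h2⟩
  let _ := FractionRing.liftAlgebra A (FractionRing B)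
  have := FractionRing.isScalarTower_liftAlgebra A (FractionRing B)
  have h5 := Algebra.FormallyUnramified.of_restrictScalars A (FractionRing A) (FractionRing B)
  have h6 := Algebra.EssFiniteType.of_isLocalization (FractionRing B) (nonZeroDivisors B)
  have h7 := Algebra.EssFiniteType.comp A B (FractionRing B)
  have h8 := Algebra.EssFiniteType.of_comp A (FractionRing A) (FractionRing B)
  have h9 := Algebra.FormallyUnramified.isSeparable (FractionRing A) (FractionRing B)
  have h10 : IsAlgebraic (FractionRing A) (algebraMap B (FractionRing B) b) :=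
    Algebra.IsAlgebraic.isAlgebraic _
  rw [← IsFractionRing.isAlgebraic_iff A (FractionRing A) (FractionRing B)] at h10
  exact (isAlgebraic_algebraMap_iff (IsFractionRing.injective B (FractionRing B))).mp h10

end ChartB

theorem LocCoord.taylor (h : LocCoord x f T) (q : MvPolynomial σ k) (N : ℕ) :
    ∃ p : MvPolynomial (Fin d) k, p.totalDegree ≤ N ∧
      q - aeval T p ∈ Ideal.span (Set.range f) ⊔ RingHom.ker (eval x) ^ (N + 1) := by
  induction N with
  | zero => exact ChartB.step h 0 q (by simp)
  | succ N ih =>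
    obtain ⟨p, hp, hp'⟩ := ih
    obtain ⟨a, ha, b, hb, e⟩ := Submodule.mem_sup.mp hp'
    obtain ⟨r, hr, hr'⟩ := ChartB.step h (N + 1) b hb
    refine ⟨p + r, (totalDegree_add _ _).trans (max_le (hp.trans (Nat.le_succ N)) hr), ?_⟩
    convert Ideal.add_mem _ (Ideal.mem_sup_left ha) hr' using 1
    rw [map_add, ← sub_sub, ← e]
    ring

theorem LocCoord.krull (h : LocCoord x f T) (q : MvPolynomial σ k)
    (hq : ∀ N : ℕ, q ∈ Ideal.span (Set.range f) ⊔ RingHom.ker (eval x) ^ N) :
    ∃ s, eval x s ≠ 0 ∧ s * q ∈ Ideal.span (Set.range f) := by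
  have _ := h
  have h1 : Ideal.Quotient.mk (Ideal.span (Set.range f)) q ∈ (⨅ i : ℕ, RingHom.ker (eval x) ^ i • ⊤ :
      Submodule (MvPolynomial σ k) (MvPolynomial σ k ⧸ Ideal.span (Set.range f))) := by
    refine (Submodule.mem_iInf _).mpr fun N => ?_
    obtain ⟨a, ha, b, hb, e⟩ := Submodule.mem_sup.mp (hq N)
    have h2 : Ideal.Quotient.mk (Ideal.span (Set.range f)) q =
        b • (1 : MvPolynomial σ k ⧸ Ideal.span (Set.range f)) := by
      rw [← e, map_add, Ideal.Quotient.eq_zero_iff_mem.mpr ha, zero_add]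
      exact (congrArg (Ideal.Quotient.mk (Ideal.span (Set.range f))) (mul_one b)).symm
    rw [h2]
    exact Submodule.smul_mem_smul hb trivial
  obtain ⟨r, hr⟩ := (Ideal.mem_iInf_smul_pow_eq_bot_iff _ _).mp h1
  refine ⟨1 - r, ?_, ?_⟩
  · rw [map_sub, map_one, (RingHom.mem_ker).mp r.2, sub_zero]
    exact one_ne_zero
  · rw [← Ideal.Quotient.eq_zero_iff_mem, sub_mul, one_mul, map_sub, sub_eq_zero]
    exact hr.symm

theorem LocCoord.algebraic (h : LocCoord x f T) (P : Ideal (MvPolynomial σ k)) (hP : P.IsPrime)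
    (h1 : Ideal.span (Set.range f) ≤ P) (h2 : P ≤ RingHom.ker (eval x))
    (h3 : ∀ p : MvPolynomial (Fin d) k, aeval T p ∈ P → p = 0) (q : MvPolynomial σ k)
    (hq : q ∉ P) : ∃ p : MvPolynomial (Fin d) k, p ≠ 0 ∧ aeval T p ∈ P ⊔ Ideal.span {q} := by
  let φ : MvPolynomial (Fin d) k →ₐ[k] MvPolynomial σ k ⧸ P :=
    (Ideal.Quotient.mkₐ k P).comp (aeval T)
  let _ : Algebra (MvPolynomial (Fin d) k) (MvPolynomial σ k ⧸ P) := φ.toRingHom.toAlgebra
  have hφ : ∀ p, algebraMap (MvPolynomial (Fin d) k) (MvPolynomial σ k ⧸ P) p =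
      Ideal.Quotient.mk P (aeval T p) := fun _ => rfl
  have : IsScalarTower k (MvPolynomial (Fin d) k) (MvPolynomial σ k ⧸ P) :=
    IsScalarTower.of_algebraMap_eq fun a => (φ.commutes a).symm
  have : FaithfulSMul (MvPolynomial (Fin d) k) (MvPolynomial σ k ⧸ P) := by
    rw [faithfulSMul_iff_algebraMap_injective, injective_iff_map_eq_zero]
    intro p hp
    exact h3 p (Ideal.Quotient.eq_zero_iff_mem.mp hp)
  have : Algebra.FiniteType (MvPolynomial (Fin d) k) (MvPolynomial σ k ⧸ P) :=
    Algebra.FiniteType.of_restrictScalars_finiteType k _ _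
  have hz : ∀ p : MvPolynomial (Fin d) k,
      KaehlerDifferential.D (MvPolynomial (Fin d) k) (FractionRing (MvPolynomial σ k ⧸ P))
        (algebraMap (MvPolynomial σ k ⧸ P) _ (Ideal.Quotient.mk P (aeval T p))) = 0 := by
    intro p
    rw [← hφ, ← IsScalarTower.algebraMap_apply]
    exact Derivation.map_algebraMap _ _
  have ha : IsAlgebraic (MvPolynomial (Fin d) k) (Ideal.Quotient.mk P q) := by
    refine ChartB.isAlgebraic_of_der (fun b => ?_) _
    obtain ⟨r, rfl⟩ := Ideal.Quotient.mk_surjective b
    refine ChartB.der_zero h _ ((algebraMap (MvPolynomial σ k ⧸ P)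
      (FractionRing (MvPolynomial σ k ⧸ P))).comp (Ideal.Quotient.mk P)) (fun r e => ?_)
      (fun a => ?_) (fun j => ?_) r
    · refine h2 (Ideal.Quotient.eq_zero_iff_mem.mp ?_)
      exact (map_eq_zero_iff _ (IsFractionRing.injective _ _)).mp e
    · have := hz (C a)
      rwa [aeval_C, algebraMap_eq] at this
    · cases j with
      | inl a =>
        rw [RingHom.comp_apply, Sum.elim_inl,
          Ideal.Quotient.eq_zero_iff_mem.mpr (h1 (Ideal.subset_span ⟨a, rfl⟩)), map_zero, map_zero]
      | inr b =>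
        have := hz (X b)
        rwa [aeval_X] at this
  obtain ⟨p, hp, z, hz⟩ := ha.exists_nonzero_dvd
    (mem_nonZeroDivisors_of_ne_zero fun e => hq (Ideal.Quotient.eq_zero_iff_mem.mp e))
  obtain ⟨y, rfl⟩ := Ideal.Quotient.mk_surjective z
  refine ⟨p, hp, Submodule.mem_sup.mpr ⟨aeval T p - q * y, ?_, q * y,
    Ideal.mul_mem_right _ _ (Ideal.subset_span rfl), sub_add_cancel _ _⟩⟩
  rw [← Ideal.Quotient.eq, map_mul, ← hφ]
  exact hz

end Pool.Agent.Lib.MP_60cbcc_al.H3A
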