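import Pool.Agent.Lib.MP_60cbcc_al.H3AChartA
import Pool.Agent.Lib.MP_60cbcc_al.H3AChartB
import Pool.Agent.Lib.MP_60cbcc_al.H3ATop

/-!
The group of points is a manifold near the identity, and it is Zariski dense.
-/

namespace Pool.Agent.Lib.MP_60cbcc_al.H3A

open Filter Topology

set_option linter.unusedSectionVars false

section Par

open MvPolynomial Asymptotics

variable {k : Type} [NontriviallyNormedField k] {σ : Type} [Fintype σ] {c d : ℕ} {x : σ → k}
  {f : Fin c → MvPolynomial σ k} {T : Fin d → MvPolynomial σ k}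

/-- The differential of a polynomial. -/
noncomputable def chD (x : σ → k) (p : MvPolynomial σ k) : (σ → k) →L[k] k :=
  ∑ s, eval x (pderiv s p) • ContinuousLinearMap.proj s

theorem chD_apply (x : σ → k) (p : MvPolynomial σ k) (v : σ → k) :
    chD x p v = ∑ s, v s * eval x (pderiv s p) := by
  simp [chD, mul_comm]

theorem chD_strict (x : σ → k) (p : MvPolynomial σ k) :
    HasStrictFDerivAt (fun y : σ → k => eval y p) (chD x p) x := by
  classical
  induction p using MvPolynomial.induction_on with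
  | C a =>
    have : chD x (C a) = 0 := by ext v; simp [chD_apply]
    rw [this]
    simpa using hasStrictFDerivAt_const a x
  | add p q hp hq =>
    have : chD x (p + q) = chD x p + chD x q := by
      ext v; simp [chD_apply, mul_add, Finset.sum_add_distrib]
    rw [this]
    simpa using hp.fun_add hq
  | mul_X p s hp =>
    have h1 : HasStrictFDerivAt (fun y : σ → k => y s)
        (ContinuousLinearMap.proj s : (σ → k) →L[k] k) x :=
      (ContinuousLinearMap.proj s : (σ → k) →L[k] k).hasStrictFDerivAt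
    have : chD x (p * X s) =
        eval x p • (ContinuousLinearMap.proj s : (σ → k) →L[k] k) + x s • chD x p := by
      ext1 v
      simp only [chD_apply, Derivation.leibniz, smul_eq_mul, map_add, map_mul, eval_X, mul_add,
        Finset.sum_add_distrib, add_apply, smul_apply,
        ContinuousLinearMap.proj_apply, Finset.mul_sum]
      congr 1
      · rw [Finset.sum_eq_single s]
        · simp [mul_comm]
        · intro t _ ht
          simp [pderiv_X_of_ne ht.symm]
        · simp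
      · exact Finset.sum_congr rfl fun t _ => by ring
    rw [this]
    simpa using hp.fun_mul h1

theorem ch_line {P : Polynomial k} (hP : P ≠ 0) {N : ℕ} (hN : P.natDegree ≤ N) {g : k → k}
    (hg : (fun s => g s - P.eval s) =O[𝓝 0] fun s : k => ‖s‖ ^ (N + 1)) :
    ∀ᶠ s in 𝓝[≠] (0 : k), g s ≠ 0 := by
  obtain ⟨Q, hQ, hQ0⟩ := Polynomial.exists_eq_pow_rootMultiplicity_mul_and_not_dvd P hP 0
  have hm : P.rootMultiplicity 0 ≤ N := by
    have h1 := Polynomial.natDegree_le_of_dvd (Polynomial.pow_rootMultiplicity_dvd P 0) hP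
    rw [Polynomial.natDegree_pow, Polynomial.natDegree_X_sub_C, mul_one] at h1
    exact h1.trans hN
  generalize P.rootMultiplicity 0 = m at hQ hm
  rw [Polynomial.dvd_iff_isRoot] at hQ0
  have hc : 0 < ‖Q.eval 0‖ := norm_pos_iff.2 hQ0
  obtain ⟨C, hC0, hC⟩ := hg.exists_pos
  have h1 : Tendsto (fun s : k => ‖Q.eval s‖ - C * ‖s‖) (𝓝 0) (𝓝 (‖Q.eval 0‖ - C * ‖(0 : k)‖)) :=
    (Q.continuous.norm.sub (continuous_const.mul continuous_norm)).tendsto 0
  rw [norm_zero, mul_zero, sub_zero] at h1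
  have h2 : ∀ᶠ s : k in 𝓝 0, ‖s‖ ≤ 1 := by
    filter_upwards [Metric.closedBall_mem_nhds (0 : k) one_pos] with s hs
    simpa using hs
  filter_upwards [self_mem_nhdsWithin, nhdsWithin_le_nhds (h1.eventually (lt_mem_nhds hc)),
    nhdsWithin_le_nhds hC.bound, nhdsWithin_le_nhds h2] with s hs h3 h4 h5 h6
  have hs0 : 0 < ‖s‖ := norm_pos_iff.2 hs
  have h7 : ‖P.eval s‖ = ‖s‖ ^ m * ‖Q.eval s‖ := by
    rw [hQ]; simp
  simp only [h6, zero_sub, norm_neg, h7, norm_pow, norm_norm] at h4
  have h8 : ‖s‖ ^ (N + 1) ≤ ‖s‖ ^ (m + 1) := pow_le_pow_of_le_one hs0.le h5 (by omega)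
  have h9 : ‖s‖ ^ m * ‖Q.eval s‖ ≤ ‖s‖ ^ m * (C * ‖s‖) :=
    h4.trans ((mul_le_mul_of_nonneg_left h8 hC0.le).trans (le_of_eq (by ring)))
  have h10 := le_of_mul_le_mul_left h9 (pow_pos hs0 m)
  have h11 : 0 < ‖Q.eval s‖ - C * ‖s‖ := h3
  linarith

theorem ch_aeval (t₀ : Fin d → k) (s : k) (p : MvPolynomial (Fin d) k) :
    (aeval (fun b => Polynomial.C (t₀ b) * Polynomial.X) p : Polynomial k).eval s =
      eval (s • t₀) p := by
  induction p using MvPolynomial.induction_on with
  | C a => simp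
  | add p q hp hq => simp only [map_add, Polynomial.eval_add, hp, hq]
  | mul_X p b hp =>
    simp only [map_mul, Polynomial.eval_mul, hp, aeval_X, eval_X, Polynomial.eval_C,
      Polynomial.eval_X, Pi.smul_apply, smul_eq_mul]
    ring

theorem ch_tend (t₀ : Fin d → k) : Tendsto (fun s : k => s • t₀) (𝓝 0) (𝓝 0) := by
  have h : Continuous fun s : k => s • t₀ := by fun_prop
  simpa using h.tendsto 0

theorem ch_eval (y : σ → k) (T : Fin d → MvPolynomial σ k) (p : MvPolynomial (Fin d) k) :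
    eval y (aeval T p) = eval (fun b => eval y (T b)) p := by
  induction p using MvPolynomial.induction_on with
  | C a => simp
  | add p q hp hq => simp only [map_add, hp, hq]
  | mul_X p b hp => simp only [map_mul, hp, aeval_X, eval_X]

theorem ch_mono {J m : Ideal (MvPolynomial σ k)} {N : ℕ} : J ⊔ m ^ (N + 1) ≤ J ⊔ m ^ N :=
  sup_le_sup_left (Ideal.pow_le_pow_right (Nat.le_succ N)) _

theorem ch_ray {p : MvPolynomial (Fin d) k} {N : ℕ} (hN : p.totalDegree ≤ N) {t₀ : Fin d → k}
    (ht : eval t₀ p ≠ 0) {F : (Fin d → k) → k}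
    (hF : (fun t => F t - eval t p) =O[𝓝 0] fun t : Fin d → k => ‖t‖ ^ (N + 1)) :
    ∀ᶠ s in 𝓝[≠] (0 : k), F (s • t₀) ≠ 0 := by
  refine ch_line (P := aeval (fun b => Polynomial.C (t₀ b) * Polynomial.X) p) (N := N)
    (g := fun s => F (s • t₀)) (fun h => ht ?_) ?_ ?_
  · have := ch_aeval t₀ 1 p
    rw [h, one_smul] at this
    simpa using this.symm
  · simpa using MvPolynomial.aeval_natDegree_le p hN _ (n := 1) fun b =>
      (Polynomial.natDegree_C_mul_le _ _).trans Polynomial.natDegree_X_le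
  · have h1 := ch_tend t₀
    have h2 : (fun s : k => ‖s • t₀‖ ^ (N + 1)) =O[𝓝 0] fun s : k => ‖s‖ ^ (N + 1) := by
      refine IsBigO.of_bound (‖t₀‖ ^ (N + 1)) (Eventually.of_forall fun s => le_of_eq ?_)
      simp only [norm_smul, norm_pow, norm_mul, norm_norm]
      ring
    simpa only [ch_aeval, Function.comp_def] using (hF.comp_tendsto h1).trans h2

/-- A local parametrisation of the zero set of `f` by the values of `T`. -/
structure ChPar (x : σ → k) (f : Fin c → MvPolynomial σ k) (T : Fin d → MvPolynomial σ k)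
    (ψ : (Fin d → k) → σ → k) (L : (Fin d → k) →L[k] σ → k) : Prop where
  zero : ψ 0 = x
  der : HasStrictFDerivAt ψ L 0
  df : ∀ t a, chD x (f a) (L t) = 0
  dT : ∀ t b, chD x (T b) (L t) = t b
  right : ∀ᶠ t in 𝓝 0, (∀ a, eval (ψ t) (f a) = 0) ∧ ∀ b, eval (ψ t) (T b) = t b
  left : ∀ᶠ y in 𝓝 x, (∀ a, eval y (f a) = 0) → ψ (fun b => eval y (T b)) = y

theorem LocCoord.exists_par [CompleteSpace k] (h : LocCoord x f T) : ∃ ψ L, ChPar x f T ψ L := by
  let D : (σ → k) →L[k] (Fin c → k) × (Fin d → k) :=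
    (ContinuousLinearMap.pi fun a => chD x (f a)).prod (ContinuousLinearMap.pi fun b => chD x (T b))
  have hD : Function.Bijective D := by
    have e : (D : (σ → k) → (Fin c → k) × (Fin d → k)) = fun v : σ → k =>
        ((fun a => ∑ s, v s * eval x (pderiv s (f a)),
          fun b => ∑ s, v s * eval x (pderiv s (T b))) : (Fin c → k) × (Fin d → k)) :=
      funext fun v => Prod.ext (funext fun a => chD_apply _ _ _) (funext fun b => chD_apply _ _ _)
    rw [e]
    exact h.bij
  let E : (σ → k) ≃L[k] (Fin c → k) × (Fin d → k) :=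
    (LinearEquiv.ofBijective (D : (σ → k) →ₗ[k] (Fin c → k) × (Fin d → k)) hD).toContinuousLinearEquiv
  let F : (σ → k) → (Fin c → k) × (Fin d → k) := fun y =>
    (fun a => eval y (f a), fun b => eval y (T b))
  have hF : HasStrictFDerivAt F (E : (σ → k) →L[k] (Fin c → k) × (Fin d → k)) x :=
    (hasStrictFDerivAt_pi.2 fun a => chD_strict x (f a)).prodMk
      (hasStrictFDerivAt_pi.2 fun b => chD_strict x (T b))
  have h0 : F x = (ContinuousLinearMap.inr k (Fin c → k) (Fin d → k)) 0 :=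
    Prod.ext (funext h.f0) (funext h.T0)
  have h1 := hF.to_localInverse
  have h2 := hF.eventually_right_inverse
  rw [h0] at h1 h2
  refine ⟨fun t => hF.localInverse F E x (0, t),
    (E.symm : (Fin c → k) × (Fin d → k) →L[k] (σ → k)).comp
      (ContinuousLinearMap.inr k (Fin c → k) (Fin d → k)), ?_, ?_, fun t a => ?_, fun t b => ?_,
    ?_, ?_⟩
  · have := hF.localInverse_apply_image
    rwa [h0] at this
  · exact h1.comp 0 (ContinuousLinearMap.inr k (Fin c → k) (Fin d → k)).hasStrictFDerivAt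
  · exact congrFun (congrArg Prod.fst (E.apply_symm_apply (0, t))) a
  · exact congrFun (congrArg Prod.snd (E.apply_symm_apply (0, t))) b
  · filter_upwards [((ContinuousLinearMap.inr k (Fin c → k) (Fin d → k)).continuous.tendsto
      0).eventually h2] with t ht
    exact ⟨fun a => congrFun (congrArg Prod.fst ht) a, fun b => congrFun (congrArg Prod.snd ht) b⟩
  · filter_upwards [hF.eventually_left_inverse] with y hy h3
    have : F y = (0, fun b => eval y (T b)) := Prod.ext (funext h3) rfl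
    rwa [this] at hy

variable {ψ : (Fin d → k) → σ → k} {L : (Fin d → k) →L[k] σ → k}

theorem ChPar.strict (h : ChPar x f T ψ L) (q : MvPolynomial σ k) :
    HasStrictFDerivAt (fun t => eval (ψ t) q) ((chD x q).comp L) 0 := by
  have h1 := chD_strict x q
  rw [← h.zero] at h1
  rw [← h.zero]
  exact h1.comp 0 h.der

theorem ChPar.pow (h : ChPar x f T ψ L) (N : ℕ) : ∀ q ∈ RingHom.ker (eval x) ^ N,
    (fun t => eval (ψ t) q) =O[𝓝 0] fun t : Fin d → k => ‖t‖ ^ N := by
  induction N with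
  | zero =>
    intro q _
    simpa using (h.strict q).continuousAt.tendsto.isBigO_one ℝ
  | succ N ih =>
    intro q hq
    rw [pow_succ] at hq
    refine Submodule.mul_induction_on hq (fun a ha b hb => ?_) fun a b ha hb => ?_
    · have h1 := (h.strict b).hasFDerivAt.isBigO_sub
      simp only [h.zero, sub_zero, show eval x b = 0 from hb] at h1
      simpa only [map_mul, pow_succ] using (ih a ha).mul h1.norm_right
    · simpa only [map_add] using ha.add hb

theorem ChPar.span (h : ChPar x f T ψ L) {q : MvPolynomial σ k}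
    (hq : q ∈ Ideal.span (Set.range f)) : ∀ᶠ t in 𝓝 0, eval (ψ t) q = 0 := by
  filter_upwards [h.right] with t ht
  have : Ideal.span (Set.range f) ≤ RingHom.ker (eval (ψ t)) :=
    Ideal.span_le.2 (by rintro _ ⟨a, rfl⟩; exact ht.1 a)
  exact this hq

theorem ChPar.big (h : ChPar x f T ψ L) {N : ℕ} {q : MvPolynomial σ k} {p : MvPolynomial (Fin d) k}
    (hq : q - aeval T p ∈ Ideal.span (Set.range f) ⊔ RingHom.ker (eval x) ^ N) :
    (fun t => eval (ψ t) q - eval t p) =O[𝓝 0] fun t : Fin d → k => ‖t‖ ^ N := by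
  obtain ⟨a, ha, b, hb, e⟩ := Submodule.mem_sup.1 hq
  refine (h.pow N b hb).congr' ?_ EventuallyEq.rfl
  filter_upwards [h.span ha, h.right] with t h1 h2
  have h3 : eval (ψ t) (aeval T p) = eval t p := by
    rw [ch_eval, funext h2.2]
  have := congrArg (eval (ψ t)) e
  rw [map_add, map_sub, h1, zero_add, h3] at this
  exact this

theorem ChPar.ne (h : ChPar x f T ψ L) (hc : LocCoord x f T) {q : MvPolynomial σ k}
    (hq : ¬ ∀ᶠ t in 𝓝 0, eval (ψ t) q = 0) : ∃ p : MvPolynomial (Fin d) k, p ≠ 0 ∧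
      ∀ t₀, eval t₀ p ≠ 0 → ∀ᶠ s in 𝓝[≠] (0 : k), eval (ψ (s • t₀)) q ≠ 0 := by
  by_contra hn
  obtain ⟨s, hs, hsq⟩ := hc.krull q fun N => by
    obtain ⟨p, h1, h2⟩ := hc.taylor q N
    have h3 : p = 0 := by
      by_contra h3
      exact hn ⟨p, h3, fun t₀ ht => ch_ray h1 ht (F := fun t => eval (ψ t) q) (h.big h2)⟩
    rw [h3, map_zero, sub_zero] at h2
    exact ch_mono h2
  refine hq ?_
  have h1 := (h.strict s).continuousAt.eventually_ne (y := 0) (by rwa [h.zero])
  filter_upwards [h.span hsq, h1] with t h2 h3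
  rw [map_mul] at h2
  exact (mul_eq_zero.1 h2).resolve_left h3

theorem ch_exists {p : MvPolynomial (Fin d) k} (hp : p ≠ 0) : ∃ t₀, eval t₀ p ≠ 0 := by
  by_contra hn
  push Not at hn
  exact hp (MvPolynomial.funext fun t => by simpa using hn t)

theorem ch_false {F : (Fin d → k) → k} (hF : ∀ᶠ t in 𝓝 0, F t = 0) {t₀ : Fin d → k}
    (h : ∀ᶠ s in 𝓝[≠] (0 : k), F (s • t₀) ≠ 0) : False := by
  have h1 := ch_tend t₀
  obtain ⟨s, h2, h3⟩ := (h.and (nhdsWithin_le_nhds (h1.eventually hF))).exists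
  exact h2 h3

theorem ChPar.mem_iff (h : ChPar x f T ψ L) (hc : LocCoord x f T) {I : Ideal (MvPolynomial σ k)}
    (hI : I.IsPrime) (h1 : Ideal.span (Set.range f) ≤ I) (h2 : I ≤ RingHom.ker (eval x))
    (h3 : ∀ p : MvPolynomial (Fin d) k, aeval T p ∈ I → p = 0) (q : MvPolynomial σ k) :
    q ∈ I ↔ ∀ᶠ t in 𝓝 0, eval (ψ t) q = 0 := by
  let P : Ideal (MvPolynomial σ k) :=
    { carrier := {q | ∀ᶠ t in 𝓝 0, eval (ψ t) q = 0}
      zero_mem' := Eventually.of_forall fun _ => map_zero _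
      add_mem' := fun {a b} ha hb => by
        filter_upwards [ha, hb] with t e1 e2
        rw [map_add, e1, e2, add_zero]
      smul_mem' := fun a b hb => by
        filter_upwards [hb] with t e
        rw [smul_eq_mul, map_mul, e, mul_zero] }
  have hPI : P ≤ I := fun q hq => by
    obtain ⟨s, hs, hsq⟩ := hc.krull q fun N => by
      obtain ⟨p, e1, e2⟩ := hc.taylor q N
      have e3 : p = 0 := by
        by_contra e3
        obtain ⟨t₀, ht⟩ := ch_exists e3
        exact ch_false hq (ch_ray e1 ht (F := fun t => eval (ψ t) q) (h.big e2))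
      rw [e3, map_zero, sub_zero] at e2
      exact ch_mono e2
    exact (hI.mem_or_mem (h1 hsq)).resolve_left fun e => hs (h2 e)
  have hP : P.IsPrime := by
    refine ⟨fun e => hI.ne_top (top_le_iff.1 (e ▸ hPI)), fun {a b} hab => ?_⟩
    by_contra hn
    obtain ⟨p, e1, e2⟩ := h.ne hc (q := a) fun e => hn (Or.inl e)
    obtain ⟨p', e3, e4⟩ := h.ne hc (q := b) fun e => hn (Or.inr e)
    obtain ⟨t₀, ht⟩ := ch_exists (mul_ne_zero e1 e3)
    rw [map_mul] at ht
    refine ch_false hab (t₀ := t₀) ?_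
    filter_upwards [e2 t₀ (left_ne_zero_of_mul ht), e4 t₀ (right_ne_zero_of_mul ht)] with s e5 e6
    rw [map_mul]
    exact mul_ne_zero e5 e6
  refine ⟨fun hq => ?_, fun hq => hPI hq⟩
  by_contra hn
  obtain ⟨p, e1, e2⟩ := hc.algebraic P hP (fun a ha => h.span ha) (fun a ha => hPI.trans h2 ha)
    (fun p hp => h3 p (hPI hp)) q hn
  exact e1 (h3 p (sup_le hPI ((Ideal.span_singleton_le_iff_mem _).2 hq) e2))

end Par

open Matrix

section Grp

open MvPolynomial Asymptotics

variable {k : Type} [NontriviallyNormedField k] [ProperSpace k] {ν : Type} [Fintype ν]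
  [DecidableEq ν] {A : Subgroup (GL ν (AlgebraicClosure k))}

/-- The entries of a matrix. -/
def chV : Matrix ν ν k →ₗ[k] (ν × ν → k) where
  toFun X ij := X ij.1 ij.2
  map_add' _ _ := rfl
  map_smul' _ _ := rfl

/-- The matrix with given entries. -/
def chM : (ν × ν → k) →ₗ[k] Matrix ν ν k where
  toFun v := Matrix.of fun i j => v (i, j)
  map_add' _ _ := rfl
  map_smul' _ _ := rfl

theorem chV_chM (v : ν × ν → k) : chV (chM v) = v := rfl

theorem chM_chV (X : Matrix ν ν k) : chM (chV X) = X := rfl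

theorem ch_ev_eq (X : Matrix ν ν k) (p : MvPolynomial (ν × ν) k) : ev X p = eval (chV X) p := rfl

theorem chD_one (X : Matrix ν ν k) (p : MvPolynomial (ν × ν) k) :
    chD (chV 1) p (chV X) = ∑ ij : ν × ν, X ij.1 ij.2 * ev 1 (pderiv ij p) :=
  chD_apply _ _ _

/-- The affine polynomial attached to a linear form. -/
noncomputable def chL {σ : Type} [Fintype σ] [DecidableEq σ] (l : (σ → k) →ₗ[k] k) (x : σ → k) :
    MvPolynomial σ k :=
  ∑ s, C (l (Pi.single s 1)) * (X s - C (x s))

theorem ch_lin {σ : Type} [Fintype σ] [DecidableEq σ] (l : (σ → k) →ₗ[k] k) (v : σ → k) :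
    ∑ s, v s * l (Pi.single s 1) = l v := by
  conv_rhs => rw [← Finset.univ_sum_single v, map_sum]
  refine Finset.sum_congr rfl fun s _ => ?_
  rw [← smul_eq_mul, ← map_smul, ← Pi.single_smul, smul_eq_mul, mul_one]

theorem eval_chL {σ : Type} [Fintype σ] [DecidableEq σ] (l : (σ → k) →ₗ[k] k) (x y : σ → k) :
    eval y (chL l x) = l (y - x) := by
  rw [← ch_lin l (y - x)]
  simp [chL, mul_comm]

theorem chD_chL {σ : Type} [Fintype σ] [DecidableEq σ] (l : (σ → k) →ₗ[k] k) (x y v : σ → k) :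
    chD y (chL l x) v = l v := by
  rw [← ch_lin l v, chD_apply]
  refine Finset.sum_congr rfl fun s _ => ?_
  congr 1
  simp only [chL, map_sum, Derivation.leibniz, pderiv_C, map_sub, sub_zero, smul_eq_mul]
  rw [Finset.sum_eq_single s]
  · simp
  · intro t _ ht
    simp [pderiv_X_of_ne ht]
  · simp

theorem ch_aeval_map (g : GL ν k) (p : MvPolynomial (ν × ν) k) :
    aeval (coords (Matrix.GeneralLinearGroup.map (algebraMap k (AlgebraicClosure k)) g)) p =
      algebraMap k (AlgebraicClosure k) (ev g.1 p) := by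
  induction p using MvPolynomial.induction_on with
  | C a => simp [ev]
  | add p q hp hq => simp only [ev, map_add] at hp hq ⊢; rw [hp, hq]
  | mul_X p b hp =>
    simp only [ev, map_mul] at hp ⊢
    rw [hp, aeval_X, eval_X]
    rfl

variable (A) in
/-- The ideal of the group. -/
noncomputable abbrev chI : Ideal (MvPolynomial (ν × ν) k) :=
  vanishingIdeal k (coords '' (A : Set (GL ν (AlgebraicClosure k))))

theorem ch_points (hA : IsAlmostSimple k A) (g : GL ν k) :
    g ∈ points k A ↔ ∀ p ∈ chI A, ev g.1 p = 0 := by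
  refine ⟨fun hg p hp => ?_, fun h => ?_⟩
  · have := hp _ ⟨_, hg, rfl⟩
    rw [ch_aeval_map] at this
    exact (map_eq_zero _).1 this
  · obtain ⟨J, hJ⟩ := hA.closed
    refine (hJ _).2 fun p hp => ?_
    rw [ch_aeval_map, h p, map_zero]
    rintro _ ⟨x, hx, rfl⟩
    exact (hJ x).1 hx p hp

theorem ch_prime (hA : IsAlmostSimple k A) : (chI A).IsPrime := by
  have := hA.connected
  have e : chI A = (vanishingIdeal (AlgebraicClosure k)
      (coords '' (A : Set (GL ν (AlgebraicClosure k))))).comap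
        (MvPolynomial.map (algebraMap k (AlgebraicClosure k))) := by
    ext p
    simp only [Ideal.mem_comap, mem_vanishingIdeal_iff, aeval_map_algebraMap]
  rw [e]
  exact Ideal.comap_isPrime _ _

theorem ch_coord (hA : IsAlmostSimple k A) (g₀ : Submodule k (Matrix ν ν k))
    (hg₀ : ∀ X, X ∈ g₀ ↔ ∀ p ∈ chI A, chD (chV 1) p (chV X) = 0) {d : ℕ}
    (b : Module.Basis (Fin d) k g₀) (τ : Matrix ν ν k →ₗ[k] (Fin d → k))
    (hτ : ∀ X : g₀, τ X = b.equivFun X) :
    ∃ (c : ℕ) (f : Fin c → MvPolynomial (ν × ν) k), (∀ a, f a ∈ chI A) ∧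
      LocCoord (chV 1) f fun a => chL ((LinearMap.proj a).comp (τ.comp chM)) (chV 1) := by
  let W : Submodule k (Module.Dual k (ν × ν → k)) :=
    { carrier := {w | ∃ p ∈ chI A, (chD (chV 1) p : (ν × ν → k) →ₗ[k] k) = w}
      zero_mem' := ⟨0, zero_mem _, LinearMap.ext fun v => by simp [chD_apply]⟩
      add_mem' := by
        rintro _ _ ⟨p, hp, rfl⟩ ⟨q, hq, rfl⟩
        exact ⟨p + q, add_mem hp hq, LinearMap.ext fun v => by
          simp [chD_apply, mul_add, Finset.sum_add_distrib]⟩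
      smul_mem' := by
        rintro a _ ⟨p, hp, rfl⟩
        exact ⟨C a * p, Ideal.mul_mem_left _ _ hp, LinearMap.ext fun v => by
          simp [chD_apply, Finset.mul_sum, mul_left_comm]⟩ }
  have : Module.Free k W := Module.Free.of_divisionRing k W
  let w := Module.finBasis k W
  choose f hf hw using fun a => (w a).2
  have hW : ∀ v, v ∈ W.dualCoannihilator ↔ chM v ∈ g₀ := fun v => by
    rw [Submodule.mem_dualCoannihilator, hg₀]
    exact ⟨fun h p hp => h _ ⟨p, hp, rfl⟩, by rintro h _ ⟨p, hp, rfl⟩; exact h p hp⟩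
  have hd : Module.finrank k W.dualCoannihilator = d := by
    have e : W.dualCoannihilator ≃ₗ[k] g₀ :=
      { toFun := fun v => ⟨chM v.1, (hW _).1 v.2⟩
        map_add' := fun _ _ => rfl
        map_smul' := fun _ _ => rfl
        invFun := fun X => ⟨chV X.1, (hW _).2 X.2⟩
        left_inv := fun _ => rfl
        right_inv := fun _ => rfl }
    rw [e.finrank_eq, Module.finrank_eq_card_basis b, Fintype.card_fin]
  refine ⟨_, f, hf, fun a => (ch_points hA 1).1 (one_mem _) _ (hf a), fun a => ?_, ?_⟩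
  · rw [eval_chL, sub_self, map_zero]
  · let D : (ν × ν → k) →ₗ[k] (Fin (Module.finrank k W) → k) × (Fin d → k) :=
      (LinearMap.pi fun a => (w a).1).prod (τ.comp chM)
    have hinj : Function.Injective D := (injective_iff_map_eq_zero D).2 fun v hv => by
      have h1 : chM v ∈ g₀ := by
        rw [← hW, Submodule.mem_dualCoannihilator]
        intro φ hφ
        have h2 := congrArg (fun z : W => z.1 v) (w.sum_repr ⟨φ, hφ⟩)
        simp only [Submodule.coe_sum, Submodule.coe_smul, LinearMap.sum_apply, LinearMap.smul_apply]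
          at h2
        rw [← h2]
        exact Finset.sum_eq_zero fun a _ => by
          rw [show (w a).1 v = 0 from congrFun (congrArg Prod.fst hv) a, smul_zero]
      have h2 : b.equivFun ⟨chM v, h1⟩ = 0 := (hτ ⟨chM v, h1⟩).symm.trans (congrArg Prod.snd hv)
      have h3 : chM v = 0 := congrArg Subtype.val (b.equivFun.map_eq_zero_iff.1 h2)
      rw [← chV_chM v, h3, map_zero]
    have hs : Function.Surjective D :=
      (LinearMap.injective_iff_surjective_of_finrank_eq_finrank (by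
        rw [← Subspace.finrank_add_finrank_dualCoannihilator_eq W, hd]
        simp)).1 hinj
    have e : (fun v : ν × ν → k => ((fun a => ∑ s, v s * eval (chV 1) (pderiv s (f a)),
        fun a => ∑ s, v s * eval (chV 1)
          (pderiv s (chL ((LinearMap.proj a).comp (τ.comp chM)) (chV 1)))) :
          (Fin (Module.finrank k W) → k) × (Fin d → k))) = D :=
      funext fun v => Prod.ext (funext fun a => by
        change _ = (w a).1 v
        rw [← hw a]
        exact (chD_apply _ _ _).symm) (funext fun a => by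
        change _ = τ (chM v) a
        exact (chD_apply _ _ _).symm.trans (chD_chL _ _ _ _))
    rw [e]
    exact ⟨hinj, hs⟩

open scoped Matrix.Norms.Elementwise in
theorem ch_core (hA : IsAlmostSimple k A) (g₀ : Submodule k (Matrix ν ν k))
    (hg₀ : ∀ X, X ∈ g₀ ↔ ∀ p ∈ chI A, chD (chV 1) p (chV X) = 0)
    (π : Matrix ν ν k →ₗ[k] Matrix ν ν k) (h1 : ∀ X, π X ∈ g₀) (h2 : ∀ X ∈ g₀, π X = X) :
    ∃ ψ : Matrix ν ν k → GL ν k, ψ 0 = 1 ∧
      HasStrictFDerivAt (fun X : g₀ => (ψ X).1) g₀.subtypeL 0 ∧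
      (∀ᶠ X : g₀ in 𝓝 0, ψ X ∈ points k A ∧ π ((ψ X).1 - 1) = X) ∧
      (∀ᶠ g in 𝓝[points k A] (1 : GL ν k), ψ (π (g.1 - 1)) = g) ∧
      (∀ i j (N : ℕ), ∃ p, (fun X : g₀ => (ψ X).1 i j - ev X.1 p) =O[𝓝 0] fun X => ‖X‖ ^ N) ∧
      ∀ q, (∀ᶠ X : g₀ in 𝓝 0, ev (ψ X).1 q = 0) → q ∈ chI A := by
  classical
  obtain ⟨d, ⟨b⟩⟩ : ∃ d, Nonempty (Module.Basis (Fin d) k g₀) := ⟨_, ⟨Module.finBasis k g₀⟩⟩
  let τ : Matrix ν ν k →ₗ[k] (Fin d → k) := b.equivFun.toLinearMap.comp (π.codRestrict g₀ h1)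
  have hτ : ∀ X : g₀, τ X = b.equivFun X := fun X =>
    congrArg b.equivFun (Subtype.ext (h2 X X.2))
  have hτπ : ∀ X, τ (π X) = τ X := fun X =>
    congrArg b.equivFun (Subtype.ext (h2 _ (h1 X)))
  have hπτ : ∀ X (Y : g₀), τ X = τ Y → π X = Y := fun X Y e =>
    congrArg Subtype.val (b.equivFun.injective (e.trans (hτ Y)))
  obtain ⟨c, f, hf, hc⟩ := ch_coord hA g₀ hg₀ b τ hτ
  set T : Fin d → MvPolynomial (ν × ν) k :=
    fun a => chL ((LinearMap.proj a).comp (τ.comp chM)) (chV 1) with hT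
  have hTe : ∀ y, (fun a => eval y (T a)) = τ (chM y - 1) := fun y =>
    funext fun a => eval_chL _ _ _
  have hTd : ∀ a v, chD (chV 1) (T a) v = τ (chM v) a := fun a v => chD_chL _ _ _ _
  obtain ⟨ψ₀, L, hp⟩ := hc.exists_par
  have hI1 : chI A ≤ RingHom.ker (eval (chV 1)) := fun p h => (ch_points hA 1).1 (one_mem _) p h
  have hiff := hp.mem_iff hc (ch_prime hA) (Ideal.span_le.2 (by rintro _ ⟨a, rfl⟩; exact hf a)) hI1
    fun p h => chartA hA T (fun a => (b a).1)
      (fun a p hp => (chD_one _ _).symm.trans ((hg₀ _).1 (b a).2 p hp))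
      (fun a a' => by
        rw [← chD_one, hTd, chM_chV, hτ, b.equivFun_self]) p h
  let ψ : Matrix ν ν k → GL ν k := fun X =>
    if h : (chM (ψ₀ (τ X))).det ≠ 0 then Matrix.GeneralLinearGroup.mkOfDetNeZero _ h else 1
  have hψ : ∀ X, (chM (ψ₀ (τ X))).det ≠ 0 → (ψ X).1 = chM (ψ₀ (τ X)) := fun X h => by
    simp only [ψ, dif_pos h]
    rfl
  let τ' : g₀ →L[k] (Fin d → k) := LinearMap.toContinuousLinearMap (τ.comp g₀.subtype)
  let M' : (ν × ν → k) →L[k] Matrix ν ν k := LinearMap.toContinuousLinearMap chM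
  have ht : Tendsto (fun X : g₀ => τ X) (𝓝 0) (𝓝 0) := by
    have e := τ'.continuous.tendsto 0
    rw [map_zero] at e
    exact e
  have hder : HasStrictFDerivAt (fun X : g₀ => chM (ψ₀ (τ X))) (M'.comp (L.comp τ')) 0 := by
    have e := hp.der
    rw [← τ'.map_zero] at e
    exact M'.hasStrictFDerivAt.comp 0 (e.comp 0 τ'.hasStrictFDerivAt)
  have h0 : chM (ψ₀ (τ 0)) = 1 := by rw [map_zero, hp.zero, chM_chV]
  have hdet : ∀ᶠ t in 𝓝 0, (chM (ψ₀ t)).det ≠ 0 := by
    have e : ContinuousAt (fun t => (chM (ψ₀ t)).det) 0 :=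
      (continuous_id.matrix_det.continuousAt).comp
        (M'.continuous.continuousAt.comp hp.der.continuousAt)
    refine e.eventually_ne ?_
    rw [hp.zero, chM_chV, det_one]
    exact one_ne_zero
  have heq : ∀ᶠ X : g₀ in 𝓝 0, (ψ X).1 = chM (ψ₀ (τ X)) :=
    (ht.eventually hdet).mono fun X h => hψ X h
  refine ⟨ψ, Units.ext ((hψ 0 (by rw [h0, det_one]; exact one_ne_zero)).trans h0), ?_, ?_, ?_,
    fun i j N => ?_, fun q hq => ?_⟩
  · have e : M'.comp (L.comp τ') = g₀.subtypeL := by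
      ext1 X
      have e1 : L (τ X) = chV X := hc.bij.1 (Prod.ext (funext fun a => by
        exact (chD_apply _ _ _).symm.trans (((hp.df _ a).trans
          ((hg₀ _).1 X.2 _ (hf a)).symm).trans (chD_apply _ _ _))) (funext fun a => by
        exact (chD_apply _ _ _).symm.trans (((hp.dT _ a).trans
          (hTd a (chV X)).symm).trans (chD_apply _ _ _))))
      change chM (L (τ X)) = X
      rw [e1, chM_chV]
    rw [← e]
    exact hder.congr_of_eventuallyEq (heq.mono fun X h => h.symm)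
  · obtain ⟨S, hS⟩ : (chI A).FG := IsNoetherian.noetherian _
    have e : ∀ᶠ t in 𝓝 0, ∀ q ∈ S, eval (ψ₀ t) q = 0 :=
      (eventually_all_finset S).2 fun q hq => (hiff q).1 (hS ▸ Ideal.subset_span hq)
    filter_upwards [heq, ht.eventually e, ht.eventually hp.right] with X e1 e2 e3
    refine ⟨(ch_points hA _).2 fun p h => ?_, hπτ _ _ ?_⟩
    · have : chI A ≤ RingHom.ker (eval (ψ₀ (τ X))) := hS ▸ Ideal.span_le.2 e2
      rw [e1, ch_ev_eq, chV_chM]
      exact this h
    · rw [e1, ← hTe]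
      exact funext e3.2
  · have e : Tendsto (fun g : GL ν k => chV g.1) (𝓝 1) (𝓝 (chV 1)) :=
      ((continuous_pi fun ij : ν × ν => (Units.continuous_val.matrix_elem ij.1 ij.2)) :
        Continuous fun g : GL ν k => chV g.1).tendsto 1
    filter_upwards [self_mem_nhdsWithin, nhdsWithin_le_nhds (e.eventually hp.left)] with g e1 e2
    have e3 : chM (ψ₀ (τ (π (g.1 - 1)))) = g.1 := by
      have e4 := e2 fun a => (ch_points hA g).1 e1 _ (hf a)
      rw [hTe, chM_chV] at e4
      rw [hτπ, e4, chM_chV]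
    exact Units.ext ((hψ _ (by rw [e3]; exact g.det_ne_zero)).trans e3)
  · obtain ⟨p, -, e⟩ := hc.taylor (X (i, j)) N
    refine ⟨aeval (fun a => chL ((LinearMap.proj a).comp (τ.comp chM)) 0) p, ?_⟩
    have e1 := (hp.big (ch_mono e)).comp_tendsto ht
    have e2 : (fun X : g₀ => ‖τ X‖ ^ N) =O[𝓝 0] fun X => ‖X‖ ^ N :=
      (τ'.isBigO_id (𝓝 0)).norm_norm.pow N
    refine (e1.trans e2).congr' ?_ EventuallyEq.rfl
    filter_upwards [heq] with X e3
    rw [e3, ch_ev_eq, ch_eval]
    simp only [Function.comp_apply, eval_X, eval_chL, sub_zero]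
    rfl
  · refine (hiff q).2 ?_
    have e : Tendsto (fun t => b.equivFun.symm t) (𝓝 0) (𝓝 0) := by
      have e := (LinearMap.toContinuousLinearMap
        (b.equivFun.symm : (Fin d → k) →ₗ[k] g₀)).continuous.tendsto 0
      rw [map_zero] at e
      exact e
    filter_upwards [e.eventually hq, e.eventually heq] with t e1 e2
    rwa [e2, hτ, LinearEquiv.apply_symm_apply, ch_ev_eq, chV_chM] at e1

end Grp

variable {k : Type} [NontriviallyNormedField k] [ProperSpace k] {ν : Type} [Fintype ν]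
  [DecidableEq ν] {G : Subgroup (GL ν k)}

theorem IsAlmostSimple.dense {A : Subgroup (GL ν (AlgebraicClosure k))} (hA : IsAlmostSimple k A)
    (p : MvPolynomial (ν × ν) k) (hp : ∀ᶠ g in 𝓝[points k A] (1 : GL ν k), ev g.1 p = 0) :
    ∀ x ∈ A, MvPolynomial.aeval (coords x) p = 0 := by
  let g₀ : Submodule k (Matrix ν ν k) :=
    ⨅ q ∈ chI A, LinearMap.ker ((chD (chV 1) q : (ν × ν → k) →ₗ[k] k).comp chV)
  obtain ⟨g₁, hg₁⟩ := g₀.exists_isCompl
  obtain ⟨ψ, h0, h1, h2, -, -, h3⟩ := ch_core hA g₀ (fun X => by simp [g₀])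
    (g₀.subtype.comp (g₀.projectionOnto g₁ hg₁)) (fun X => (g₀.projectionOnto g₁ hg₁ X).2)
    fun X hX => congrArg Subtype.val (Submodule.projectionOnto_apply_left hg₁ ⟨X, hX⟩)
  have h4 : Tendsto (fun X : g₀ => ψ X) (𝓝 0) (𝓝[points k A] 1) := by
    refine tendsto_nhdsWithin_iff.2 ⟨gl_embedding.tendsto_nhds_iff.2 ?_, h2.mono fun X h => h.1⟩
    have := h1.continuousAt.tendsto
    simp only [ZeroMemClass.coe_zero, h0] at this
    exact this
  exact fun x hx => h3 p (h4.eventually hp) _ ⟨x, hx, rfl⟩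

theorem Good.chart (hG : Good G) (π : Matrix ν ν k →ₗ[k] Matrix ν ν k) (h1 : ∀ X, π X ∈ lie G)
    (h2 : ∀ X ∈ lie G, π X = X) : ∃ ψ, Chart G π ψ := by
  obtain ⟨A, hA, rfl⟩ := hG
  obtain ⟨ψ, e1, e2, e3, e4, e5, -⟩ := ch_core hA (lie (points k A)) (fun X =>
    ⟨fun h p hp => (chD_one _ _).trans (h p fun g hg => (ch_points hA g).1 hg p hp),
      fun h p hp => (chD_one _ _).symm.trans (h p (by
        rintro _ ⟨x, hx, rfl⟩
        exact hA.dense p (eventually_mem_nhdsWithin.mono hp) x hx))⟩) π h1 h2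
  exact ⟨ψ, e1, e2, e3, e4, e5⟩

end Pool.Agent.Lib.MP_60cbcc_al.H3A
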