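import Pool.Agent.Lib.MP_60cbcc_al.H3ABase

/-!
Local coordinates on an algebraic group are algebraically independent.
-/

namespace Pool.Agent.Lib.MP_60cbcc_al.H3A

open Matrix Filter Topology

set_option linter.unusedSectionVars false

section Aux

open MvPolynomial

theorem chartA_chain {K B σ : Type} [CommRing K] [CommRing B] [Algebra K B] [Fintype σ]
    (D : Derivation K B B) (T : σ → B) (h : MvPolynomial σ K) :
    D (aeval T h) = ∑ b, aeval T (pderiv b h) * D (T b) := by
  classical
  induction h using MvPolynomial.induction_on with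
  | C a => simp
  | add p q hp hq => simp [hp, hq, add_mul, Finset.sum_add_distrib]
  | mul_X p i hp =>
    have h1 : ∀ b, aeval T (pderiv b (p * X i)) * D (T b) =
        T i * (aeval T (pderiv b p) * D (T b)) + if b = i then aeval T p * D (T i) else 0 := by
      intro b
      rw [pderiv_mul, map_add, map_mul, map_mul, aeval_X]
      by_cases hb : b = i
      · subst hb
        rw [pderiv_X_self, map_one, if_pos rfl]; ring
      · rw [pderiv_X_of_ne (Ne.symm hb), map_zero, if_neg hb]; ring
    simp only [h1, Finset.sum_add_distrib, ← Finset.mul_sum, ← hp, Finset.sum_ite_eq',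
      Finset.mem_univ, if_true]
    rw [map_mul, aeval_X, D.leibniz, smul_eq_mul, smul_eq_mul, add_comm]

theorem chartA_deg {K σ : Type} [Field K] (h : MvPolynomial σ K) (b : σ)
    (hb : pderiv b h ≠ 0) : (pderiv b h).totalDegree < h.totalDegree := by
  classical
  obtain ⟨m, hm, e⟩ := Finset.exists_mem_eq_sup (pderiv b h).support (support_nonempty.2 hb)
    fun s => s.sum fun _ e => e
  have h1 : m + Finsupp.single b 1 ∈ h.support := by
    rw [mem_support_iff] at hm ⊢
    rw [coeff_pderiv] at hm
    exact left_ne_zero_of_mul hm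
  have h2 := le_totalDegree h1
  rw [Finsupp.sum_add_index' (fun _ => rfl) (fun _ _ _ => rfl), Finsupp.sum_single_index rfl] at h2
  rw [totalDegree, e]
  omega

theorem chartA_cast {K σ : Type} [Field K] (h : MvPolynomial σ K) (b : σ)
    (hb : pderiv b h = 0) (m : σ →₀ ℕ) (hm : m ∈ h.support) : (m b : K) = 0 := by
  classical
  by_cases h0 : m b = 0
  · simp [h0]
  have h1 := coeff_pderiv (i := b) h (m - Finsupp.single b 1)
  have h2 : m - Finsupp.single b 1 + Finsupp.single b 1 = m := by
    refine tsub_add_cancel_of_le ?_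
    rw [Finsupp.single_le_iff]
    omega
  rw [hb, coeff_zero, h2] at h1
  have h3 := (mul_eq_zero.1 h1.symm).resolve_left (mem_support_iff.1 hm)
  have h4 : m b = (m - Finsupp.single b 1 : σ →₀ ℕ) b + 1 := by
    rw [Finsupp.tsub_apply, Finsupp.single_eq_same]; omega
  rw [h4, Nat.cast_add, Nat.cast_one, h3]

theorem chartA_pow {K σ : Type} [Field K] [IsAlgClosed K] (p : ℕ) [Fact p.Prime] [CharP K p]
    (h : MvPolynomial σ K) (hd : ∀ m ∈ h.support, ∀ b, p ∣ m b) :
    ∃ h1 : MvPolynomial σ K, h = h1 ^ p := by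
  classical
  have hp : p ≠ 0 := (Fact.out : p.Prime).ne_zero
  have h1 : ∀ m ∈ h.support, ∃ u : MvPolynomial σ K, monomial m (coeff m h) = u ^ p := by
    intro m hm
    choose m' hm' using hd m hm
    obtain ⟨c, hc⟩ := IsAlgClosed.exists_pow_nat_eq (coeff m h) (Nat.pos_of_ne_zero hp)
    refine ⟨monomial ⟨m.support, m', by simp [hm', hp]⟩ c, ?_⟩
    rw [monomial_pow, hc]
    congr 2
    exact Finsupp.ext hm'
  choose! u hu using h1
  refine ⟨∑ m ∈ h.support, u m, ?_⟩
  rw [sum_pow_char]
  conv_lhs => rw [h.as_sum]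
  exact Finset.sum_congr rfl hu

theorem chartA_diff {K σ : Type} [Field K] [IsAlgClosed K] (P : Ideal (MvPolynomial σ K))
    (hP : P.IsPrime) (hD : ∀ b, ∀ h ∈ P, pderiv b h ∈ P) (h : MvPolynomial σ K) (hh : h ∈ P) :
    h = 0 := by
  induction hn : h.totalDegree using Nat.strong_induction_on generalizing h with
  | _ n ih =>
  subst hn
  have hc : h.totalDegree = 0 → h = 0 := fun h0 => by
    by_contra hne
    rw [totalDegree_eq_zero_iff_eq_C] at h0
    have h1 : coeff 0 h ≠ 0 := fun h2 => hne (by rw [h0, h2, C_0])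
    refine hP.ne_top (P.eq_top_of_isUnit_mem hh ?_)
    rw [h0]
    exact (IsUnit.mk0 _ h1).map C
  have h1 : ∀ b, pderiv b h = 0 := fun b => by
    by_contra hb
    exact hb (ih _ (chartA_deg h b hb) _ (hD b h hh) rfl)
  obtain ⟨p, hp⟩ := CharP.exists K
  have hd : ∀ m ∈ h.support, ∀ b, p ∣ m b := fun m hm b =>
    (CharP.cast_eq_zero_iff K p _).1 (chartA_cast h b (h1 b) m hm)
  rcases CharP.char_is_prime_or_zero K p with hpp | rfl
  · have := Fact.mk hpp
    obtain ⟨u, hu⟩ := chartA_pow p h hd
    by_cases hu0 : u = 0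
    · rw [hu, hu0, zero_pow hpp.ne_zero]
    have h2 : ∀ j : ℕ, (u ^ j).totalDegree = j * u.totalDegree := fun j => by
      induction j with
      | zero => simp
      | succ j ihj => rw [pow_succ, totalDegree_mul_of_isDomain (pow_ne_zero _ hu0) hu0, ihj]; ring
    by_cases h3 : u.totalDegree = 0
    · exact hc (by rw [hu, h2, h3, mul_zero])
    · refine (hu0 (ih _ ?_ u (hP.mem_of_pow_mem p (hu ▸ hh)) rfl)).elim
      rw [hu, h2]
      have := hpp.two_le
      nlinarith [Nat.pos_of_ne_zero h3]
  · refine hc ?_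
    rw [totalDegree_eq_zero_iff]
    exact fun m hm b => Nat.eq_zero_of_zero_dvd (hd m hm b)

theorem chartA_indep {K B σ : Type} [Field K] [IsAlgClosed K] [CommRing B] [Algebra K B]
    [Fintype σ] [DecidableEq σ] (I : Ideal B) (hI : I.IsPrime) (D : σ → Derivation K B B)
    (hD : ∀ a, ∀ q ∈ I, D a q ∈ I) (T : σ → B)
    (hT : (Matrix.of fun a b => D a (T b)).det ∉ I) (h : MvPolynomial σ K)
    (hh : aeval T h ∈ I) : h = 0 := by
  refine chartA_diff (I.comap (aeval T : MvPolynomial σ K →ₐ[K] B)) (hI.comap _) ?_ h hh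
  intro b q hq
  have h1 : ((Ideal.Quotient.mk I).mapMatrix (Matrix.of fun a b => D a (T b))).det ≠ 0 := by
    rw [← RingHom.map_det, Ne, Ideal.Quotient.eq_zero_iff_mem]
    exact hT
  have h2 := Matrix.eq_zero_of_mulVec_eq_zero h1
    (v := fun b => Ideal.Quotient.mk I (aeval T (pderiv b q))) (by
      funext a
      have h3 := Ideal.Quotient.eq_zero_iff_mem.2 (hD a _ hq)
      rw [chartA_chain, map_sum] at h3
      rw [Pi.zero_apply, ← h3]
      refine Finset.sum_congr rfl fun b _ => ?_
      rw [map_mul, mul_comm]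
      rfl)
  exact (Ideal.Quotient.eq_zero_iff_mem (I := I)).1 (congrFun h2 b)

variable {K : Type} [Field K] {ν : Type} [Fintype ν] [DecidableEq ν]

/-- The right invariant vector field with value `Y` at the identity. -/
noncomputable def chartA_D (Y : Matrix ν ν K) :
    Derivation K (MvPolynomial (ν × ν) K) (MvPolynomial (ν × ν) K) :=
  mkDerivation K fun ij => ∑ l, C (Y ij.1 l) * X (l, ij.2)

theorem chartA_ev_X (Y g : Matrix ν ν K) (ij : ν × ν) :
    ev g (chartA_D Y (X ij)) = (Y * g) ij.1 ij.2 := by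
  simp [chartA_D, ev, mkDerivation_X, Matrix.mul_apply]

theorem chartA_ev (Y g : Matrix ν ν K) (q : MvPolynomial (ν × ν) K) :
    ev g (chartA_D Y q) = ∑ ij : ν × ν, (Y * g) ij.1 ij.2 * ev g (pderiv ij q) := by
  have h1 := chartA_chain (chartA_D Y) X q
  simp only [aeval_X_left_apply] at h1
  rw [h1, ev, map_sum]
  refine Finset.sum_congr rfl fun ij _ => ?_
  rw [map_mul, mul_comm, ← chartA_ev_X]
  rfl

/-- Right translation. -/
noncomputable def chartA_S (g : Matrix ν ν K) (ij : ν × ν) : MvPolynomial (ν × ν) K :=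
  ∑ l, C (g l ij.2) * X (ij.1, l)

theorem chartA_ev_S (g x : Matrix ν ν K) (q : MvPolynomial (ν × ν) K) :
    ev x (aeval (chartA_S g) q) = ev (x * g) q := by
  induction q using MvPolynomial.induction_on with
  | C a => simp [ev]
  | add p q hp hq => simp only [ev, map_add] at *; rw [hp, hq]
  | mul_X p i hp =>
    simp only [ev, map_mul, aeval_X, eval_X] at *
    rw [hp]
    simp [chartA_S, Matrix.mul_apply, mul_comm]

theorem chartA_ev_one (Y g : Matrix ν ν K) (q : MvPolynomial (ν × ν) K) :
    ev 1 (chartA_D Y (aeval (chartA_S g) q)) = ev g (chartA_D Y q) := by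
  rw [chartA_chain, chartA_ev, ev, map_sum]
  refine Finset.sum_congr rfl fun ij _ => ?_
  rw [map_mul, mul_comm]
  have h1 := chartA_ev_S g 1 (pderiv ij q)
  rw [one_mul] at h1
  rw [← h1]
  congr 1
  have h2 := chartA_ev_X Y 1
  simp only [mul_one, ev] at h2
  simp only [chartA_S, map_sum, C_mul', Derivation.map_smul, Matrix.mul_apply, smul_eval, h2]
  simp only [mul_comm]

theorem chartA_mem (A : Subgroup (GL ν K)) (q : MvPolynomial (ν × ν) K) :
    q ∈ vanishingIdeal K (coords '' (A : Set (GL ν K))) ↔ ∀ g ∈ A, ev g.1 q = 0 := by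
  rw [mem_vanishingIdeal_iff, Set.forall_mem_image]
  rfl

theorem chartA_inv (A : Subgroup (GL ν K)) (Y : Matrix ν ν K)
    (hY : ∀ q ∈ vanishingIdeal K (coords '' (A : Set (GL ν K))), ev 1 (chartA_D Y q) = 0) :
    ∀ q ∈ vanishingIdeal K (coords '' (A : Set (GL ν K))),
      chartA_D Y q ∈ vanishingIdeal K (coords '' (A : Set (GL ν K))) := by
  intro q hq
  rw [chartA_mem] at hq ⊢
  intro g hg
  rw [← chartA_ev_one]
  refine hY _ ((chartA_mem _ _).2 fun x hx => ?_)
  rw [chartA_ev_S]
  exact hq (x * g) (A.mul_mem hx hg)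

theorem chartA_map {k : Type} [Field k] [Algebra k K] (Y : Matrix ν ν k)
    (q : MvPolynomial (ν × ν) k) :
    ev 1 (chartA_D (Y.map (algebraMap k K)) (map (algebraMap k K) q)) =
      algebraMap k K (∑ ij : ν × ν, Y ij.1 ij.2 * ev 1 (pderiv ij q)) := by
  rw [chartA_ev, map_sum, mul_one]
  refine Finset.sum_congr rfl fun ij _ => ?_
  rw [map_mul, pderiv_map, ev, ev, eval_map, Matrix.map_apply]
  congr 1
  rw [eval, coe_eval₂Hom, eval₂_comp_left]
  congr 1
  funext ij
  simp [Matrix.one_apply, apply_ite]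

end Aux

variable {k : Type} [Field k] {ν : Type} [Fintype ν] [DecidableEq ν]
  {G : Subgroup (GL ν k)}

theorem chartA {A : Subgroup (GL ν (AlgebraicClosure k))} (hA : IsAlmostSimple k A) {d : ℕ}
    (T : Fin d → MvPolynomial (ν × ν) k) (X : Fin d → Matrix ν ν k)
    (hX : ∀ a, ∀ p ∈ MvPolynomial.vanishingIdeal k
      (coords '' (A : Set (GL ν (AlgebraicClosure k)))),
      ∑ ij : ν × ν, X a ij.1 ij.2 * ev 1 (MvPolynomial.pderiv ij p) = 0)
    (hT : ∀ a b, ∑ ij : ν × ν, X a ij.1 ij.2 * ev 1 (MvPolynomial.pderiv ij (T b)) =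
      if a = b then 1 else 0)
    (h : MvPolynomial (Fin d) k) (hh : MvPolynomial.aeval T h ∈ MvPolynomial.vanishingIdeal k
      (coords '' (A : Set (GL ν (AlgebraicClosure k))))) : h = 0 := by
  set K := AlgebraicClosure k
  apply MvPolynomial.map_injective (algebraMap k K) (algebraMap k K).injective
  rw [map_zero]
  refine chartA_indep _ hA.connected (fun a => chartA_D ((X a).map (algebraMap k K)))
    (fun a => chartA_inv A _ ?_) (fun b => MvPolynomial.map (algebraMap k K) (T b)) ?_ _ ?_
  · intro q hq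
    have hq' := hq
    rw [hA.defined] at hq'
    clear hq
    induction hq' using Submodule.span_induction with
    | mem x hx =>
      obtain ⟨p, hp, rfl⟩ := hx
      rw [chartA_map, hX a p hp, map_zero]
    | zero => simp [ev]
    | add x y _ _ hx hy =>
      simp only [ev, map_add] at *
      rw [hx, hy, add_zero]
    | smul r x hx0 hx =>
      have h1 : ev 1 x = 0 := (chartA_mem A x).1 (hA.defined ▸ hx0) 1 A.one_mem
      simp only [ev] at *
      rw [smul_eq_mul, Derivation.leibniz, smul_eq_mul, smul_eq_mul, map_add, map_mul, map_mul, hx,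
        h1, mul_zero, zero_mul, add_zero]
  · intro hd
    have h1 := (chartA_mem A _).1 hd 1 A.one_mem
    rw [ev, RingHom.map_det] at h1
    have h2 : (MvPolynomial.eval fun ij : ν × ν => (1 : GL ν K).1 ij.1 ij.2).mapMatrix
        (Matrix.of fun a b => chartA_D ((X a).map (algebraMap k K))
          (MvPolynomial.map (algebraMap k K) (T b))) = 1 := by
      ext a b
      have h3 := chartA_map (K := K) (X a) (T b)
      rw [hT] at h3
      rw [Matrix.one_apply]
      refine h3.trans ?_
      split_ifs <;> simp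
    rw [h2, det_one] at h1
    exact one_ne_zero h1
  · rw [hA.defined]
    have h1 : MvPolynomial.aeval (fun b => MvPolynomial.map (algebraMap k K) (T b))
        (MvPolynomial.map (algebraMap k K) h) =
        MvPolynomial.map (algebraMap k K) (MvPolynomial.aeval T h) := by
      clear hh
      induction h using MvPolynomial.induction_on with
      | C a => simp
      | add p q hp hq => simp only [map_add, hp, hq]
      | mul_X p i hp => simp only [map_mul, hp, MvPolynomial.map_X, MvPolynomial.aeval_X]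
    rw [h1]
    exact Ideal.mem_map_of_mem _ hh

end Pool.Agent.Lib.MP_60cbcc_al.H3A
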