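import Pool.Agent.Lib.MP_60cbcc_al.H3ABase

/-!
Transfer of the properties of a factor along an isomorphism.
-/

namespace Pool.Agent.Lib.MP_60cbcc_al.H3A

open Matrix Filter Topology

set_option linter.unusedSectionVars false

variable {G G' : Type} [Group G] [TopologicalSpace G] [IsTopologicalGroup G] [Group G']
  [TopologicalSpace G'] [IsTopologicalGroup G']

theorem congr_mem (e : G ≃ₜ* G') {L : Subgroup G} {x : G'} :
    x ∈ L.map e.toMulEquiv.toMonoidHom ↔ e.symm x ∈ L :=
  ⟨by rintro ⟨y, hy, rfl⟩; exact (e.symm_apply_apply y).symm ▸ hy,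
    fun h => ⟨e.symm x, h, e.apply_symm_apply x⟩⟩

/-- The isomorphism between the image of a subgroup and the subgroup. -/
def congrSub (e : G ≃ₜ* G') (L : Subgroup G) : L.map e.toMulEquiv.toMonoidHom ≃ₜ* L where
  toFun x := ⟨e.symm x.1, (congr_mem e).1 x.2⟩
  invFun x := ⟨e x.1, x.1, x.2, rfl⟩
  left_inv x := Subtype.ext (e.apply_symm_apply x.1)
  right_inv x := Subtype.ext (e.symm_apply_apply x.1)
  map_mul' x y := Subtype.ext (map_mul e.symm x.1 y.1)
  continuous_toFun := (e.symm.continuous.comp continuous_subtype_val).subtype_mk _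
  continuous_invFun := (e.continuous.comp continuous_subtype_val).subtype_mk _

theorem weak_congr {L L' : Type} [Group L] [TopologicalSpace L] [Group L'] [TopologicalSpace L']
    (e : L ≃ₜ* L') (h : H3Z.Weak L') : H3Z.Weak L := by
  let r : L' →* L := e.symm.toMulEquiv.toMonoidHom
  have hr : ∀ y, r y = e.symm y := fun _ => rfl
  have rc : Continuous r := e.symm.continuous
  have rs : Function.Surjective r := e.symm.surjective
  have cen : ∀ x : L, e x ∈ Subgroup.center L' → x ∈ Subgroup.center L := by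
    intro x hx
    rw [Subgroup.mem_center_iff] at hx ⊢
    exact fun g => e.injective (by rw [map_mul, map_mul, hx])
  have top : ∀ N : Subgroup L, N.comap r = ⊤ → N = ⊤ := by
    intro N hN
    refine top_unique fun x _ => ?_
    obtain ⟨y, rfl⟩ := rs x
    exact (hN.ge (Subgroup.mem_top y) : y ∈ N.comap r)
  refine ⟨fun N hn hc => ?_, ?_, fun N hc hf => ?_, fun hd => ?_⟩
  · rcases h.qs (N.comap r) (hn.comap r) (hc.preimage rc) with a | a
    · refine Or.inl fun x hx => cen x (a ?_)
      rw [Subgroup.mem_comap, hr, e.symm_apply_apply]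
      exact hx
    · exact Or.inr (top N a)
  · refine (rs.denseRange.dense_image rc h.perf).mono ?_
    rintro _ ⟨y, hy, rfl⟩
    have : (commutator L').map r ≤ commutator L := by
      rw [commutator_def, commutator_def, Subgroup.map_commutator]
      exact Subgroup.commutator_mono le_top le_top
    exact this ⟨y, hy, rfl⟩
  · refine top N (h.nfi _ (hc.preimage rc) ⟨?_⟩)
    rw [Subgroup.index_comap_of_surjective N rs]
    exact hf.index_ne_zero
  · exact h.nd e.toHomeomorph.discreteTopology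

theorem std_congr (e : G ≃ₜ* G') {L : Subgroup G} (h : H3Z.Std L) :
    H3Z.Std (L.map e.toMulEquiv.toMonoidHom) := by
  refine ⟨h.norm.map _ e.surjective, e.toHomeomorph.isClosedMap _ h.closed, fun x hx => ?_,
    weak_congr (congrSub e L) h.weak⟩
  obtain ⟨y, rfl⟩ := e.surjective x
  have hy : y ∈ Subgroup.center G := h.cen (Subgroup.mem_centralizer_iff.2 fun l hl =>
    e.injective (by
      rw [map_mul, map_mul]
      exact Subgroup.mem_centralizer_iff.1 hx (e l) ⟨l, hl, rfl⟩))
  refine Subgroup.mem_center_iff.2 fun g => ?_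
  obtain ⟨z, rfl⟩ := e.surjective g
  rw [← map_mul, ← map_mul, Subgroup.mem_center_iff.1 hy z]

theorem low_congr (e : G ≃ₜ* G') {L K : Subgroup G} (h : H3Z.Low L K) :
    H3Z.Low (L.map e.toMulEquiv.toMonoidHom) (K.map e.toMulEquiv.toMonoidHom) := by
  refine ⟨std_congr e h.toStd, h.cpt.image e.continuous, ⟨?_⟩, h.rig.congr (congrSub e L)⟩
  rw [← Subgroup.map_sup, Subgroup.index_map_of_bijective e.bijective]
  exact h.fi.index_ne_zero

theorem con_congr (e : G ≃ₜ* G') {a u : G} (h : u ∈ H3Z.con a) : e u ∈ H3Z.con (e a) := by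
  have h1 : Tendsto (fun n : ℕ => e (a ^ n * u * (a ^ n)⁻¹)) atTop (𝓝 (e 1)) :=
    (e.continuous.tendsto 1).comp h
  simp only [map_mul, map_inv, map_pow, map_one] at h1
  exact h1

theorem kaz_congr (e : G ≃ₜ* G') (h : H3Z.Kaz G) : H3Z.Kaz G' := by
  obtain ⟨Q, C, hQ, hC, h⟩ := h
  refine ⟨e '' Q, C, hQ.image e.continuous, hC, fun E _ _ _ π hπ v t ht hv => ?_⟩
  obtain ⟨w, hw, hb⟩ := h E (π.comp e.toMulEquiv.toMonoidHom)
    (fun v => (hπ v).comp e.continuous) v t ht fun q hq => hv (e q) ⟨q, hq, rfl⟩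
  refine ⟨w, fun g => ?_, hb⟩
  obtain ⟨z, rfl⟩ := e.surjective g
  exact hw z

open scoped Pointwise in
theorem cell_congr [MeasurableSpace G] [BorelSpace G] [MeasurableSpace G'] [BorelSpace G']
    (e : G ≃ₜ* G') {a : G} {N B : Subgroup G} (h : H3Z.Cell a N B) :
    H3Z.Cell (e a) (N.map e.toMulEquiv.toMonoidHom) (B.map e.toMulEquiv.toMonoidHom) := by
  refine ⟨⟨a, h.mem, rfl⟩, ?_, fun m hm => ?_⟩
  · rw [Subgroup.map_le_iff_le_comap]
    refine h.mau.trans (Subgroup.topologicalClosure_minimal _ ?_ ?_)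
    · rw [Subgroup.closure_le]
      intro u hu
      refine Subgroup.le_topologicalClosure _ (Subgroup.subset_closure ?_)
      rcases hu with hu | hu
      · exact Or.inl (con_congr e hu)
      · exact Or.inr (map_inv e a ▸ con_congr e hu)
    · exact (Subgroup.isClosed_topologicalClosure _).preimage e.continuous
  · have h1 := MeasureTheory.ae_of_ae_map e.symm.continuous.measurable.aemeasurable
      (h.cell (m.map e.symm) inferInstance)
    filter_upwards [h1] with g hg
    obtain ⟨_, ⟨u, hu, z, hz, rfl⟩, b, hb, e1⟩ := hg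
    refine ⟨e u * e z, ⟨e u, con_congr e hu, e z, ?_, rfl⟩, e b, ⟨b, hb, rfl⟩, ?_⟩
    · rw [SetLike.mem_coe, Subgroup.mem_centralizer_singleton_iff] at hz ⊢
      rw [← map_mul, ← map_mul, hz]
    · have e2 : u * z * b = e.symm g := e1
      change e u * e z * e b = g
      rw [← map_mul, ← map_mul, e2, e.apply_symm_apply]

theorem high_congr [MeasurableSpace G] [BorelSpace G] [MeasurableSpace G'] [BorelSpace G']
    (e : G ≃ₜ* G') {L : Subgroup G} (h : H3Z.High L) :
    H3Z.High (L.map e.toMulEquiv.toMonoidHom) := by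
  refine ⟨std_congr e h.toStd, kaz_congr e h.kaz, ?_, ?_⟩
  · obtain ⟨C, hC, hL⟩ := h.cpt
    refine ⟨e '' C, hC.image e.continuous, Set.eq_univ_of_forall fun g => ?_⟩
    obtain ⟨c, hc, l, hl, e1⟩ := hL.ge (Set.mem_univ (e.symm g))
    refine ⟨e c, ⟨c, hc, rfl⟩, e l, ⟨l, hl, rfl⟩, ?_⟩
    change e c * e l = g
    rw [← map_mul, ← e.apply_symm_apply g, ← e1]
  · obtain ⟨B, A, hB, hA, hc, hJ⟩ := h.ex
    refine ⟨B.map e.toMulEquiv.toMonoidHom, e '' A,
      Group.isSolvable_of_surjective (f := (congrSub e B).symm.toMulEquiv.toMonoidHom)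
        (congrSub e B).symm.surjective, hA.image _, ?_, fun J h1 h2 h3 => ?_⟩
    · rintro _ ⟨a, ha, rfl⟩
      exact cell_congr e (hc a ha)
    · rw [Subgroup.map_le_iff_le_comap] at h2 ⊢
      refine hJ _ (h1.preimage e.continuous) h2 fun a ha x hx => ?_
      have h4 : x * a = a * x := Subgroup.mem_centralizer_singleton_iff.1 hx.1
      refine h3 (e a) ⟨a, ha, rfl⟩ ⟨Subgroup.mem_centralizer_singleton_iff.2 ?_, x, hx.2, rfl⟩
      change e x * e a = e a * e x
      rw [← map_mul, ← map_mul, h4]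

end Pool.Agent.Lib.MP_60cbcc_al.H3A
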