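import Pool.Agent.Lib.MP_60cbcc_al.H3AQ

/-!
Conjugacy of cocharacters in the stabiliser.
-/

namespace Pool.Agent.Lib.MP_60cbcc_al.H3A

open Matrix Filter Topology

set_option linter.unusedSectionVars false

variable {k : Type} [NontriviallyNormedField k] [ProperSpace k] {ν : Type} [Fintype ν]
  [DecidableEq ν] {G : Subgroup (GL ν k)}

theorem conj_card_le (x : Matrix ν ν k) (P Q : ν → Prop) [DecidablePred P] [DecidablePred Q]
    (H : ∀ a : ν → k, (∀ i, a i ≠ 0 → P i) → (∀ i, (x *ᵥ a) i ≠ 0 → ¬ Q i) → a = 0) :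
    Fintype.card {i // P i} ≤ Fintype.card {i // Q i} := by
  let e : ({i // P i} → k) →ₗ[k] (ν → k) := LinearMap.pi fun i =>
    if hi : P i then LinearMap.proj (⟨i, hi⟩ : {i // P i}) else 0
  have he : ∀ a i, e a i = if hi : P i then a ⟨i, hi⟩ else 0 := by
    intro a i
    simp only [e, LinearMap.pi_apply]
    split_ifs <;> rfl
  let f : ({i // P i} → k) →ₗ[k] ({i // Q i} → k) :=
    (LinearMap.funLeft k k Subtype.val).comp (x.mulVecLin.comp e)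
  have hf : Function.Injective f := (injective_iff_map_eq_zero f).2 fun a ha => by
    have h0 : e a = 0 := H _ (fun i hi => by
      by_contra h
      exact hi (by rw [he, dif_neg h])) fun i hi hq => hi (congrFun ha ⟨i, hq⟩)
    funext i
    have h1 := congrFun h0 i.1
    rwa [he, dif_pos i.2] at h1
  have h2 := LinearMap.finrank_le_finrank_of_injective hf
  rwa [Module.finrank_fintype_fun_eq_card, Module.finrank_fintype_fun_eq_card] at h2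

theorem conj_exists_perm {y y' : ν → ℤ}
    (H : ∀ c : ℤ, Fintype.card {i // c ≤ y' i} = Fintype.card {i // c ≤ y i}) :
    ∃ σ : Equiv.Perm ν, ∀ i, y (σ i) = y' i := by
  have h1 : ∀ (z : ν → ℤ) (c : ℤ), Fintype.card {i // z i = c} + Fintype.card {i // c + 1 ≤ z i} =
      Fintype.card {i // c ≤ z i} := by
    intro z c
    simp only [Fintype.card_subtype, Finset.card_filter, ← Finset.sum_add_distrib]
    refine Finset.sum_congr rfl fun i _ => ?_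
    split_ifs <;> omega
  have h2 : ∀ c, Fintype.card {i // y' i = c} = Fintype.card {i // y i = c} := fun c => by
    have := h1 y c
    have := h1 y' c
    have := H c
    have := H (c + 1)
    omega
  exact ⟨Equiv.ofFiberEquiv fun c => Fintype.equivOfCardEq (h2 c),
    fun i => Equiv.ofFiberEquiv_map _ i⟩

/-- Permutation matrices. -/
def conjPm (σ : Equiv.Perm ν) : GL ν k :=
  ⟨σ.permMatrix k, σ⁻¹.permMatrix k, by rw [← permMatrix_mul]; simp,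
    by rw [← permMatrix_mul]; simp⟩

theorem conjPm_mulVec (σ : Equiv.Perm ν) (v : ν → k) (i : ν) :
    ((conjPm (k := k) σ).1 *ᵥ v) i = v (σ i) := congrFun (permMatrix_mulVec σ) i

theorem conjPm_inv_mulVec (σ : Equiv.Perm ν) (v : ν → k) (i : ν) :
    (((conjPm (k := k) σ)⁻¹).1 *ᵥ v) (σ i) = v i := by
  have h : (((conjPm (k := k) σ)⁻¹).1 *ᵥ v) (σ i) = v (σ⁻¹ (σ i)) :=
    congrFun (permMatrix_mulVec σ⁻¹) (σ i)
  rw [h]
  simp

theorem conjPm_dg {y y' : ν → ℤ} {σ : Equiv.Perm ν} (h : ∀ i, y (σ i) = y' i) (t : kˣ) :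
    conjPm σ * dg y t = dg y' t * conjPm σ := by
  refine Units.ext (Matrix.ext_of_mulVec_single fun j => ?_)
  funext i
  rw [Units.val_mul, Units.val_mul, ← mulVec_mulVec, ← mulVec_mulVec, conjPm_mulVec, dg_val,
    dg_val, mulVec_diagonal, mulVec_diagonal, conjPm_mulVec, h]

theorem conj_dg_inv (y : ν → ℤ) (t : kˣ) : dg y t⁻¹ = (dg y t)⁻¹ :=
  eq_inv_of_mul_eq_one_left (by rw [← dg_mul, inv_mul_cancel, dg_one])

theorem conj_cont_DD (y : ν → ℝ) : Continuous fun g : GL ν k => DD y g.1 := by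
  have h := (Reg.DD (G := (⊤ : Subgroup (GL ν k))) y).continuousOn
  rwa [Subgroup.coe_top, continuousOn_univ] at h

theorem conj_lo_tendsto {y : ν → ℝ} {g : ℕ → GL ν k} {n : GL ν k} (hg : Tendsto g atTop (𝓝 n))
    (hn : DD y n.1 ≠ 0) (i l : ν) :
    Tendsto (fun a => lo y (g a).1 i l) atTop (𝓝 (lo y n.1 i l)) := by
  obtain ⟨p, hp⟩ := lo_poly (k := k) y i l
  have h1 := ((conj_cont_DD y).tendsto n).comp hg
  have h2 := (((continuous_ev p).comp Units.continuous_val).tendsto n).comp hg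
  have h3 : ∀ x : Matrix ν ν k, DD y x ≠ 0 → ev x p / DD y x = lo y x i l := fun x hx => by
    rw [← hp x hx, mul_div_cancel_left₀ _ hx]
  rw [← h3 _ hn]
  exact (h2.div h1 hn).congr' ((h1.eventually_ne hn).mono fun a ha => h3 _ ha)

theorem conj_of_DD {y : ν → ℤ} {n : GL ν k} (h1 : DD (cst y) n.1 ≠ 0)
    (h2 : DD (cst y) (n⁻¹).1 ≠ 0) : ∃ u ∈ Ugl (-cst y), ∃ u' ∈ Ugl (cst y),
      (∀ t, n * dg y t * n⁻¹ = u * u' * dg y t * (u * u')⁻¹) ∧
      ∀ J : Subgroup (GL ν k), IsClosed (J : Set (GL ν k)) → y ∈ YY J →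
        (∀ t, n * dg y t * n⁻¹ ∈ J) →
        (∀ g ∈ J, ∀ v ∈ Ugl (-cst y), ∀ p ∈ Pgl (cst y), g = v * p → v ∈ J) →
        u ∈ J ∧ u' ∈ J := by
  obtain ⟨u, hu, z, hz, u₁, hu₁, hlo, hn⟩ := lu h1
  obtain ⟨v, hv, z', hz', v₁, hv₁, -, hn'⟩ := lu h2
  have hu' : z * u₁ * z⁻¹ ∈ Ugl (cst y) := Pgl_conj_Ugl (Zgl_le_Pgl hz) hu₁
  have he : ∀ t, n * dg y t * n⁻¹ =
      u * (z * u₁ * z⁻¹) * dg y t * (u * (z * u₁ * z⁻¹))⁻¹ := fun t => by
    have h3 : dg y t = z⁻¹ * dg y t * z := by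
      rw [Zgl_comm (inv_mem hz) t, inv_mul_cancel_right]
    conv_lhs => rw [hn, h3]
    group
  refine ⟨u, hu, _, hu', he, fun J hJ hy hμ hl => ?_⟩
  have huJ : u ∈ J := by
    let a : GL ν k := (dg y (pw k))⁻¹
    let g : ℕ → GL ν k := fun l => n * (a ^ l * v * (a ^ l)⁻¹)
    have hg : Tendsto g atTop (𝓝 n) := by
      have h3 := (mem_Ugl_neg_iff_con.1 hv).const_mul n
      rwa [mul_one] at h3
    have h4 : ∀ l, ∃ F : GL ν k, DD (cst y) (g l).1 ≠ 0 → F ∈ J ∧ F.1 = lo (cst y) (g l).1 := by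
      intro l
      by_cases hl0 : DD (cst y) (g l).1 ≠ 0
      · obtain ⟨w, hw, z₂, hz₂, w₁, hw₁, h5, h6⟩ := lu hl0
        have h7 : dg y (pw k ^ l)⁻¹ = a ^ l := by rw [conj_dg_inv, ← dg_pw_pow, inv_pow]
        refine ⟨w, fun _ => ⟨hl _ (hμ (pw k ^ l)⁻¹) w hw (z₂ * w₁ * (dg y (pw k ^ l)⁻¹ * z' * v₁))
          (mul_mem (mul_mem (Zgl_le_Pgl hz₂) (Ugl_le_Pgl hw₁)) (mul_mem (mul_mem
            (Zgl_le_Pgl (dg_mem_Zgl _ _ _)) (Zgl_le_Pgl hz')) (Ugl_le_Pgl hv₁))) ?_, h5⟩⟩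
        rw [← mul_assoc w, ← mul_assoc w, ← h6, h7, hn']
        simp only [g, mul_assoc, inv_mul_cancel_left]
      · exact ⟨1, fun h => absurd h hl0⟩
    choose F hF using h4
    have h5 := (((conj_cont_DD (cst y)).tendsto n).comp hg).eventually_ne h1
    refine hJ.mem_of_tendsto (f := F) (b := atTop) (gl_tendsto.2 fun i j => ?_)
      (h5.mono fun l hl => (hF l hl).1)
    rw [hlo]
    exact (conj_lo_tendsto hg h1 i j).congr' (h5.mono fun l hl => by simp only [(hF l hl).2])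
  refine ⟨huJ, ?_⟩
  have h3 := (mem_Ugl_iff_con.1 (inv_mem hu')).const_mul (z * u₁ * z⁻¹)
  rw [mul_one] at h3
  refine hJ.mem_of_tendsto h3 (Eventually.of_forall fun l => ?_)
  have h4 := mul_mem (mul_mem (mul_mem (inv_mem huJ) (hμ (pw k ^ l))) huJ)
    (inv_mem (mem_YY.1 hy (pw k ^ l)))
  rw [he, ← dg_pw_pow] at h4
  generalize z * u₁ * z⁻¹ = x at h4 ⊢
  simpa only [mul_assoc, _root_.mul_inv_rev, inv_mul_cancel_left, SetLike.mem_coe] using h4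

theorem conj_of_transv {y y' : ν → ℤ} {h : GL ν k}
    (h1 : ∀ (c : ℤ) (v : ν → k), (∀ i, ((h⁻¹).1 *ᵥ v) i ≠ 0 → c ≤ y' i) →
      (∀ i, v i ≠ 0 → y i < c) → v = 0)
    (h2 : ∀ (c : ℤ) (v : ν → k), (∀ i, v i ≠ 0 → c ≤ y i) →
      (∀ i, ((h⁻¹).1 *ᵥ v) i ≠ 0 → y' i < c) → v = 0) :
    ∃ u ∈ Ugl (-cst y), ∃ u' ∈ Ugl (cst y),
      (∀ t, h * dg y' t * h⁻¹ = u * u' * dg y t * (u * u')⁻¹) ∧
      ∀ J : Subgroup (GL ν k), IsClosed (J : Set (GL ν k)) → y ∈ YY J →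
        (∀ t, h * dg y' t * h⁻¹ ∈ J) →
        (∀ g ∈ J, ∀ v ∈ Ugl (-cst y), ∀ p ∈ Pgl (cst y), g = v * p → v ∈ J) →
        u ∈ J ∧ u' ∈ J := by
  have hi : ∀ v : ν → k, (h⁻¹).1 *ᵥ (h.1 *ᵥ v) = v := fun v => by
    rw [mulVec_mulVec, Units.inv_mul, one_mulVec]
  have h1' : ∀ (c : ℤ) (a : ν → k), (∀ i, a i ≠ 0 → c ≤ y' i) →
      (∀ i, (h.1 *ᵥ a) i ≠ 0 → y i < c) → a = 0 := fun c a ha hb => by
    rw [← hi a, h1 c (h.1 *ᵥ a) (by rwa [hi]) hb, mulVec_zero]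
  obtain ⟨σ, hσ⟩ := conj_exists_perm (y := y) (y' := y') fun c => le_antisymm
    (conj_card_le h.1 _ _ fun a ha hb => h1' c a ha fun i hi => not_le.1 (hb i hi))
    (conj_card_le (h⁻¹).1 _ _ fun a ha hb => h2 c a ha fun i hi => not_le.1 (hb i hi))
  have he : ∀ t, h * dg y' t * h⁻¹ = h * conjPm σ * dg y t * (h * conjPm σ)⁻¹ := fun t => by
    rw [mul_assoc h (conjPm σ), conjPm_dg hσ]
    group
  simp only [he]
  refine conj_of_DD (Finset.prod_ne_zero_iff.2 fun l _ => Dl_ne_iff.2 fun v ha hb => ?_)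
    (Finset.prod_ne_zero_iff.2 fun l _ => Dl_ne_iff.2 fun v ha hb => ?_)
  · rw [Units.val_mul, ← mulVec_mulVec] at hb
    have h3 := h1' (y l) _ (fun i hi => by
      rw [conjPm_mulVec] at hi
      rw [← hσ]
      exact Int.cast_le.1 (ha _ hi)) fun i hi => Int.cast_lt.1 (hb i hi)
    funext i
    have h4 := congrFun h3 (σ.symm i)
    rwa [conjPm_mulVec, Equiv.apply_symm_apply] at h4
  · rw [_root_.mul_inv_rev, Units.val_mul, ← mulVec_mulVec] at hb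
    refine h2 (y l) v (fun i hi => Int.cast_le.1 (ha i hi)) fun i hi => ?_
    rw [← hσ]
    exact Int.cast_lt.1 (hb (σ i) (by rwa [conjPm_inv_mulVec]))

section Pair

variable {V₂ V₁ : Submodule k (ν → k)} {P : ν → Prop}

theorem conj_prj_apply (P : ν → Prop) [DecidablePred P] (v : ν → k) (i : ν) :
    ((prj P : Matrix ν ν k) *ᵥ v) i = if P i then v i else 0 := by
  rw [prj, mulVec_diagonal]
  by_cases h : P i <;> simp [h]

theorem conj_lev (hp : ∀ x ∈ V₁, (prj P : Matrix ν ν k) *ᵥ x - x ∈ V₂) {x : ν → k} (hx : x ∈ V₁)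
    (hx' : x ∉ V₂) : ∃ i, x i ≠ 0 ∧ P i := by
  classical
  by_contra h
  have h1 : (prj P : Matrix ν ν k) *ᵥ x = 0 := funext fun i => by
    rw [conj_prj_apply]
    split_ifs with hi
    · by_contra h2
      exact h ⟨i, h2, hi⟩
    · rfl
  have h2 := hp x hx
  rw [h1, zero_sub, neg_mem_iff] at h2
  exact hx' h2

theorem conj_triv (hle : V₂ ≤ V₁) (hp : ∀ x ∈ V₁, (prj P : Matrix ν ν k) *ᵥ x - x ∈ V₂)
    {x : Matrix ν ν k} (h₂ : ∀ v ∈ V₂, x *ᵥ v ∈ V₂) (h₁ : ∀ v ∈ V₁, x *ᵥ v ∈ V₁)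
    (hs : Sup (fun i j => ¬ (P i ∧ P j)) (x - 1)) {v : ν → k} (hv : v ∈ V₁) : x *ᵥ v - v ∈ V₂ := by
  classical
  have hd : ∀ a, (x - 1) *ᵥ a = x *ᵥ a - a := fun a => by rw [sub_mulVec, one_mulVec]
  have h0 : (prj P : Matrix ν ν k) *ᵥ ((x - 1) *ᵥ ((prj P : Matrix ν ν k) *ᵥ v)) = 0 := by
    funext i
    rw [conj_prj_apply]
    split_ifs with hi
    · refine Finset.sum_eq_zero fun j _ => ?_
      rw [conj_prj_apply]
      split_ifs with hj
      · have h3 : (x - 1) i j = 0 := by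
          by_contra h3
          exact hs i j h3 ⟨hi, hj⟩
        exact mul_eq_zero_of_left h3 _
      · exact mul_zero _
    · rfl
  have h3 := hp _ (hd v ▸ sub_mem (h₁ v hv) hv)
  have h4 : (x - 1) *ᵥ ((prj P : Matrix ν ν k) *ᵥ v - v) ∈ V₂ :=
    hd _ ▸ sub_mem (h₂ _ (hp v hv)) (hp v hv)
  have h5 := add_mem (hp _ (hle h4)) h4
  rw [sub_add_cancel, mulVec_sub, mulVec_sub, h0, zero_sub, neg_mem_iff] at h5
  have h6 := sub_mem h5 h3
  rwa [sub_sub_cancel, hd] at h6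

/-- Pairs of elements that induce the same map on a subquotient. -/
def conjRel (Q : Subgroup (GL ν k)) (h₂ : Inv (Units.val '' (Q : Set (GL ν k))) V₂)
    (h₁ : Inv (Units.val '' (Q : Set (GL ν k))) V₁) : Subgroup (GL ν k × GL ν k) where
  carrier := {x | x.1 ∈ Q ∧ x.2 ∈ Q ∧ ∀ v ∈ V₁, x.1.1 *ᵥ v - x.2.1 *ᵥ v ∈ V₂}
  one_mem' := ⟨Q.one_mem, Q.one_mem, fun v _ => by simp⟩
  mul_mem' := fun {a b} ⟨a1, a2, ha⟩ ⟨b1, b2, hb⟩ => ⟨Q.mul_mem a1 b1, Q.mul_mem a2 b2,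
    fun v hv => by
      have h3 := add_mem (h₂ _ ⟨_, a1, rfl⟩ _ (hb v hv)) (ha _ (h₁ _ ⟨_, b2, rfl⟩ v hv))
      rwa [mulVec_sub, sub_add_sub_cancel, mulVec_mulVec, mulVec_mulVec] at h3⟩
  inv_mem' := fun {a} ⟨a1, a2, ha⟩ => ⟨Q.inv_mem a1, Q.inv_mem a2, fun v hv => by
    have h3 := neg_mem (h₂ _ ⟨_, Q.inv_mem a1, rfl⟩ _ (ha _ (h₁ _ ⟨_, Q.inv_mem a2, rfl⟩ v hv)))
    rwa [mulVec_sub, neg_sub, mulVec_mulVec v a.2.1, Units.mul_inv, one_mulVec,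
      mulVec_mulVec _ _ a.1.1, Units.inv_mul, one_mulVec] at h3⟩

theorem conj_rate {δ : ℝ} (h : ∀ θ : ℝ, 1 < θ → ∃ C : ℝ, ∀ l : ℤ,
    Real.exp (l * δ) ≤ C * θ ^ l.natAbs) : δ = 0 := by
  by_contra h0
  have h1 : 0 < |δ| / 2 := half_pos (abs_pos.2 h0)
  obtain ⟨C, hC⟩ := h _ (Real.one_lt_exp_iff.2 h1)
  obtain ⟨n, hn⟩ := exists_nat_ge (C / (|δ| / 2))
  rw [div_le_iff₀ h1] at hn
  have h2 : Real.exp (n * |δ|) ≤ C * Real.exp (|δ| / 2) ^ n := by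
    rcases abs_choice δ with h3 | h3
    · have := hC n
      rw [Int.natAbs_natCast, Int.cast_natCast] at this
      exact (congrArg (fun x => Real.exp (n * x)) h3).trans_le this
    · have := hC (-n)
      rwa [Int.natAbs_neg, Int.natAbs_natCast, Int.cast_neg, Int.cast_natCast, neg_mul, ← mul_neg,
        ← h3] at this
  rw [← Real.exp_nat_mul, show n * |δ| = n * (|δ| / 2) + n * (|δ| / 2) by ring, Real.exp_add] at h2
  have h3 := le_of_mul_le_mul_right h2 (Real.exp_pos _)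
  linarith [Real.add_one_le_exp (n * (|δ| / 2))]

theorem conj_weight (hp : ∀ x ∈ V₁, (prj P : Matrix ν ν k) *ᵥ x - x ∈ V₂) {b m : GL ν k}
    (h₂ : ∀ l : ℤ, ∀ v ∈ V₂, (m ^ l).1 *ᵥ v ∈ V₂)
    (hb : ∀ l : ℤ, ∀ v ∈ V₁, (b ^ l).1 *ᵥ v - (m ^ l).1 *ᵥ v ∈ V₂) {r : ν → ℝ} (hr : IsVal m r)
    {ρ : ℝ} (hρ : ∀ j, P j → r j = ρ) {x : ν → k} (hx : x ∈ V₁) (hx' : x ∉ V₂) {t : k}
    (ht : t ≠ 0) (he : ∀ l : ℤ, (b ^ l).1 *ᵥ x = t ^ l • x) : ρ = -Real.log ‖t‖ := by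
  classical
  obtain ⟨f, hf, hf'⟩ := Submodule.exists_le_ker_of_notMem hx'
  have h1 : ∀ l : ℤ, t ^ l * f x = f ((m ^ l).1 *ᵥ ((prj P : Matrix ν ν k) *ᵥ x)) := fun l => by
    have h3 := LinearMap.mem_ker.1 (hf' (sub_mem (hb l x hx) (h₂ l _ (hp x hx))))
    rwa [he, mulVec_sub, sub_sub, add_sub_cancel, map_sub, map_smul, smul_eq_mul,
      sub_eq_zero] at h3
  rw [eq_neg_iff_add_eq_zero]
  refine conj_rate fun θ hθ => ?_
  obtain ⟨C, hC⟩ := hr θ hθ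
  let K : ℝ := ∑ i, (∑ j, ‖x j‖) * ‖f fun j => if i = j then 1 else 0‖
  refine ⟨|C| * K / ‖f x‖, fun l => ?_⟩
  have h3 : ‖t ^ l * f x‖ ≤ |C| * Real.exp (-(l * ρ)) * θ ^ l.natAbs * K := by
    rw [h1, LinearMap.pi_apply_eq_sum_univ, Finset.mul_sum]
    refine (norm_sum_le _ _).trans (Finset.sum_le_sum fun i _ => ?_)
    rw [norm_smul, ← mul_assoc, Finset.mul_sum]
    refine mul_le_mul_of_nonneg_right ((norm_sum_le _ _).trans
      (Finset.sum_le_sum fun j _ => ?_)) (norm_nonneg _)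
    rw [conj_prj_apply, norm_mul]
    split_ifs with hj
    · refine mul_le_mul_of_nonneg_right ((hC l i j).trans ?_) (norm_nonneg _)
      rw [hρ j hj]
      gcongr
      exact le_abs_self C
    · rw [norm_zero, mul_zero]
      positivity
  have h4 : ‖t‖ ^ l = Real.exp (l * Real.log ‖t‖) := by
    rw [← Real.log_zpow, Real.exp_log (zpow_pos (norm_pos_iff.2 ht) l)]
  rw [norm_mul, norm_zpow, h4] at h3
  rw [div_mul_eq_mul_div, le_div_iff₀ (norm_pos_iff.2 hf), mul_add, Real.exp_add, mul_assoc]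
  refine (mul_le_mul_of_nonneg_left h3 (Real.exp_pos _).le).trans (le_of_eq ?_)
  rw [Real.exp_neg]
  field_simp

end Pair

/-- The matrices that preserve every invariant subspace. -/
def conjAlg (H : Set (Matrix ν ν k)) : Subalgebra k (Matrix ν ν k) where
  carrier := {x | ∀ V, Inv H V → ∀ v ∈ V, x *ᵥ v ∈ V}
  mul_mem' := fun {x x'} hx hx' V hV v hv => by
    rw [← mulVec_mulVec]
    exact hx V hV _ (hx' V hV v hv)
  add_mem' := fun {x x'} hx hx' V hV v hv => by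
    rw [add_mulVec]
    exact add_mem (hx V hV v hv) (hx' V hV v hv)
  algebraMap_mem' := fun c V _ v hv => by
    rw [Algebra.algebraMap_eq_smul_one, smul_mulVec, one_mulVec]
    exact V.smul_mem c hv

/-- The invertible elements of a subalgebra. -/
def conjUn (A : Subalgebra k (Matrix ν ν k)) : Subgroup (GL ν k) where
  carrier := {g | g.1 ∈ A}
  one_mem' := A.one_mem
  mul_mem' := fun ha hb => A.mul_mem ha hb
  inv_mem' := fun ha => inv_mem_subalgebra A ha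

theorem conj_closed (A : Subalgebra k (Matrix ν ν k)) : IsClosed (conjUn A : Set (GL ν k)) :=
  (Submodule.closed_of_finiteDimensional (Subalgebra.toSubmodule A)).preimage Units.continuous_val

theorem conj_sum_prj (y : ν → ℤ) (v : ν → k) :
    ∑ c ∈ Finset.univ.image y, (prj fun i => y i = c : Matrix ν ν k) *ᵥ v = v := by
  funext i
  simp only [Finset.sum_apply, conj_prj_apply, Finset.sum_ite_eq]
  exact if_pos (Finset.mem_image_of_mem y (Finset.mem_univ i))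

theorem conj_eigen (y : ν → ℤ) (c : ℤ) (t : kˣ) (l : ℤ) (v : ν → k) :
    (dg y t ^ l).1 *ᵥ ((prj fun i => y i = c : Matrix ν ν k) *ᵥ v) =
      ((t : k) ^ c) ^ l • (prj fun i => y i = c : Matrix ν ν k) *ᵥ v := by
  have h : dg y t ^ l = dg y (t ^ l) := (map_zpow (MonoidHom.mk' (dg y) (dg_mul y)) t l).symm
  funext i
  rw [h, dg_val, mulVec_diagonal, Pi.smul_apply, conj_prj_apply, smul_eq_mul]
  split_ifs with hi
  · rw [hi, Units.val_zpow_eq_zpow_val, ← _root_.zpow_mul, ← _root_.zpow_mul,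
      mul_comm l]
  · rw [mul_zero, mul_zero]

theorem Good.conj_QQ (hG : Good G) (hM : IsMax G) {w : ν → ℤ} (hw : w ∈ YY G)
    (hr : Regl G (cst w)) {μ : kˣ → GL ν k} (hμ : Coch G μ) (hq : ∀ t, μ t ∈ QQ G (cst w)) :
    ∃ y ∈ YY G, ∃ κ ∈ G, (∀ t, μ t = κ * dg y t * κ⁻¹) ∧ DD (cst w) (κ⁻¹).1 ≠ 0 := by
  obtain ⟨⟨h, y', hμ⟩, hμG⟩ := hμ
  set Q := QQ G (cst w) with hQ
  set H : Set (Matrix ν ν k) := Units.val '' (Q : Set (GL ν k)) with hH
  have hpair : ∀ v : ν → k, v ≠ 0 → ∃ V₂ V₁ i₀, V₂ ≤ V₁ ∧ Inv H V₂ ∧ Inv H V₁ ∧ v ∈ V₁ ∧ v ∉ V₂ ∧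
      ∀ x ∈ V₁, (prj fun i => w i = w i₀ : Matrix ν ν k) *ᵥ x - x ∈ V₂ := by
    intro v hv
    obtain ⟨V₂, V₁, hI, h1, h2⟩ := exists_irr (H := H) ⟨1, Q.one_mem, rfl⟩ (by
      rintro _ ⟨a, ha, rfl⟩ _ ⟨b, hb, rfl⟩
      exact ⟨a * b, Q.mul_mem ha hb, rfl⟩) hv
    obtain ⟨i₀, hi⟩ := hG.pure hM hw hr hI
    exact ⟨V₂, V₁, i₀, hI.lt.le, hI.inv₂, hI.inv₁, h1, h2, hi⟩
  obtain ⟨u, ⟨huQ, hu⟩, m, ⟨hmG, hm⟩, u', ⟨huG', hu'⟩, hb⟩ := hG.QQ_dec hr.1 (hq (pw k))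
  have hmQ : m ∈ Q := P_le_QQ ⟨hmG, Zgl_le_Pgl hm⟩
  have huQ' : u' ∈ Q := P_le_QQ ⟨huG', Ugl_le_Pgl hu'⟩
  obtain ⟨hva, hval⟩ := hG.val hM hmG (hr.Zgl ▸ hm)
  have hcl : ∀ i j, w i = w j → vv G m i = vv G m j := fun i j hij =>
    vv_class m (hr.2 i j (congrArg (Int.cast : ℤ → ℝ) hij))
  have hℓ : 0 < -Real.log ‖(pw k : k)‖ := neg_pos.2 (Real.log_neg pw_pos pw_lt)
  have hK : ∀ v : ν → k, v ≠ 0 → ∃ i j, v i ≠ 0 ∧ ((h⁻¹).1 *ᵥ v) j ≠ 0 ∧
      vv G m i = -Real.log ‖(pw k : k)‖ * y' j := by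
    intro v hv
    obtain ⟨V₂, V₁, i₀, hle, h₂, h₁, hv₁, hv₂, hp⟩ := hpair v hv
    obtain ⟨i, hi, hi'⟩ := conj_lev hp hv₁ hv₂
    have htr : ∀ x ∈ Q, Sup (fun i j => ¬ (w i = w i₀ ∧ w j = w i₀)) (x.1 - 1) →
        (x, 1) ∈ conjRel Q h₂ h₁ := fun x hx hs => ⟨hx, Q.one_mem, fun a ha => by
      have := conj_triv hle hp (h₂ _ ⟨x, hx, rfl⟩) (h₁ _ ⟨x, hx, rfl⟩) hs ha
      simpa using this⟩
    have hrel : (μ (pw k), m) ∈ conjRel Q h₂ h₁ := by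
      have h3 := mul_mem (mul_mem (htr u huQ fun i j hij ⟨a, b⟩ => ?_)
        (show (m, m) ∈ conjRel Q h₂ h₁ from ⟨hmQ, hmQ, fun a _ => by simp⟩))
        (htr u' huQ' fun i j hij ⟨a, b⟩ => ?_)
      · rwa [Prod.mk_mul_mk, Prod.mk_mul_mk, one_mul, mul_one, ← hb] at h3
      · have h4 : -(w j : ℝ) < -(w i : ℝ) := hu i j hij
        rw [a, b] at h4
        exact lt_irrefl _ h4
      · have h4 : (w j : ℝ) < (w i : ℝ) := hu' i j hij
        rw [a, b] at h4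
        exact lt_irrefl _ h4
    obtain ⟨c, hc⟩ : ∃ c, h.1 *ᵥ ((prj fun i => y' i = c : Matrix ν ν k) *ᵥ ((h⁻¹).1 *ᵥ v)) ∉ V₂ := by
      by_contra h3
      push Not at h3
      have h4 := sum_mem (t := Finset.univ.image y') fun c _ => h3 c
      rw [← mulVec_sum, conj_sum_prj, mulVec_mulVec, Units.mul_inv, one_mulVec] at h4
      exact hv₂ h4
    have hc₁ : h.1 *ᵥ ((prj fun i => y' i = c : Matrix ν ν k) *ᵥ ((h⁻¹).1 *ᵥ v)) ∈ V₁ := by
      have h3 := prj_mem_span (k := k) y' fun d => d = c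
      generalize (prj fun i => y' i = c : Matrix ν ν k) = e at h3
      induction h3 using Submodule.span_induction with
      | mem x hx =>
        obtain ⟨t, rfl⟩ := hx
        have h4 := h₁ _ ⟨μ t, hq t, rfl⟩ v hv₁
        rwa [hμ, Units.val_mul, Units.val_mul, ← mulVec_mulVec, ← mulVec_mulVec] at h4
      | zero => simp
      | add x x' _ _ hx hx' =>
        rw [add_mulVec, mulVec_add]
        exact add_mem hx hx'
      | smul a x _ hx =>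
        rw [smul_mulVec, mulVec_smul]
        exact V₁.smul_mem a hx
    have h3 := conj_weight hp (b := μ (pw k)) (m := m)
      (fun l => h₂ _ ⟨m ^ l, Q.zpow_mem hmQ l, rfl⟩) (fun l => (zpow_mem hrel l).2.2) hval
      (fun j hj => hcl j i₀ hj) hc₁ hc (t := (pw k : k) ^ c) (zpow_ne_zero _ (pw k).ne_zero)
      fun l => by
        rw [hμ, conj_zpow, Units.val_mul, Units.val_mul, ← mulVec_mulVec, ← mulVec_mulVec,
          mulVec_mulVec _ (h⁻¹).1 h.1, Units.inv_mul, one_mulVec, conj_eigen, mulVec_smul]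
    obtain ⟨j, hj⟩ : ∃ j, ((prj fun i => y' i = c : Matrix ν ν k) *ᵥ ((h⁻¹).1 *ᵥ v)) j ≠ 0 := by
      by_contra h4
      push Not at h4
      have h5 : (prj fun i => y' i = c : Matrix ν ν k) *ᵥ ((h⁻¹).1 *ᵥ v) = 0 := funext h4
      rw [h5, mulVec_zero] at hc
      exact hc V₂.zero_mem
    rw [conj_prj_apply] at hj
    have hj' : y' j = c := by
      by_contra h4
      exact hj (if_neg h4)
    rw [if_pos hj'] at hj
    refine ⟨i, j, hi, hj, ?_⟩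
    rw [hcl i i₀ hi', h3, norm_zpow, Real.log_zpow, hj']
    ring
  have hy : ∀ i, ∃ c : ℤ, vv G m i = -Real.log ‖(pw k : k)‖ * c := fun i => by
    obtain ⟨i', j, h1, -, h3⟩ := hK (Pi.single i 1) (by simp)
    have h4 : i' = i := by
      by_contra h4
      exact h1 (Pi.single_eq_of_ne h4 _)
    exact ⟨y' j, h4 ▸ h3⟩
  choose y hy using hy
  have hya : cst y ∈ aa G := by
    have h1 : cst y = (-Real.log ‖(pw k : k)‖)⁻¹ • vv G m := funext fun i => by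
      rw [Pi.smul_apply, hy, smul_eq_mul, inv_mul_cancel_left₀ hℓ.ne']
      rfl
    exact h1 ▸ (aa G).smul_mem _ hva
  have hyY := hG.sat hya
  have hyw : ∀ i j, w i = w j → y i = y j := fun i j hij => by
    have h1 := hcl i j hij
    rw [hy, hy] at h1
    exact Int.cast_injective (mul_left_cancel₀ hℓ.ne' h1)
  have hK' : ∀ v : ν → k, v ≠ 0 → ∃ i j, v i ≠ 0 ∧ ((h⁻¹).1 *ᵥ v) j ≠ 0 ∧ y i = y' j := by
    intro v hv
    obtain ⟨i, j, h1, h2, h3⟩ := hK v hv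
    rw [hy] at h3
    exact ⟨i, j, h1, h2, Int.cast_injective (mul_left_cancel₀ hℓ.ne' h3)⟩
  obtain ⟨a, ha, a', ha', he, hJ⟩ := conj_of_transv (y := y) (y' := y') (h := h)
    (fun c v h1 h2 => by
      by_contra hv
      obtain ⟨i, j, h3, h4, h5⟩ := hK' v hv
      have := h1 j h4
      have := h2 i h3
      omega)
    (fun c v h1 h2 => by
      by_contra hv
      obtain ⟨i, j, h3, h4, h5⟩ := hK' v hv
      have := h1 i h3
      have := h2 j h4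
      omega)
  obtain ⟨haG, haG'⟩ := hJ G hG.isClosed hyY (fun t => hμ t ▸ hμG t) fun g hg v hv p hp hgv => by
    obtain ⟨h1, h2⟩ := lo_eq hv hp
    rw [← hgv] at h1 h2
    obtain ⟨x, hx, -, -, -, -, h3, -⟩ := hG.cell hya hg h1
    exact Units.ext (h3.trans h2) ▸ hx.1
  have hdQ : ∀ t, dg y t ∈ Q := fun t => P_le_QQ ⟨hyY t, Zgl_le_Pgl (dg_mem_Zgl _ _ _)⟩
  obtain ⟨haA, haA'⟩ := hJ (conjUn (conjAlg H)) (conj_closed _)
    (fun t V hV => hV _ ⟨_, hdQ t, rfl⟩) (fun t V hV => hV _ ⟨_, hμ t ▸ hq t, rfl⟩)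
    fun g hg v hv p hp hgv => by
      obtain ⟨h1, h2⟩ := lo_eq hv hp
      rw [← hgv] at h1 h2
      have h3 := lo_mem (y := cst y) (conjAlg H) (fun c V hV x hx => hV.span (Submodule.span_mono ?_
        (prj_mem_span y fun d => c ≤ (d : ℝ))) hx) hg h1
      · rwa [h2] at h3
      · rintro _ ⟨t, rfl⟩
        exact ⟨_, hdQ t, rfl⟩
  refine ⟨y, hyY, a * a', G.mul_mem haG haG', fun t => (hμ t).trans (he t),
    Finset.prod_ne_zero_iff.2 fun l _ => Dl_ne_iff.2 fun v h1 h2 => ?_⟩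
  by_contra hv
  obtain ⟨V₂, V₁, i₀, hle, h₂, h₁, hv₁, hv₂, hp⟩ := hpair v hv
  have h3 := inv_mem haA
  have h4 := inv_mem haA'
  have h5 := conj_triv hle hp (h3 V₂ h₂) (h3 V₁ h₁) (fun i j hij ⟨b, b'⟩ => by
    have h6 : -(y j : ℝ) < -(y i : ℝ) := inv_mem ha i j hij
    rw [hyw i j (b.trans b'.symm)] at h6
    exact lt_irrefl _ h6) hv₁
  have h6 := conj_triv hle hp (h4 V₂ h₂) (h4 V₁ h₁) (fun i j hij ⟨b, b'⟩ => by
    have h6 : (y j : ℝ) < (y i : ℝ) := inv_mem ha' i j hij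
    rw [hyw i j (b.trans b'.symm)] at h6
    exact lt_irrefl _ h6) (h3 V₁ h₁ v hv₁)
  rw [_root_.mul_inv_rev, Units.val_mul, ← mulVec_mulVec] at h2
  obtain ⟨i, hi, hi'⟩ := conj_lev hp hv₁ hv₂
  obtain ⟨j, hj, hj'⟩ := conj_lev hp (h4 V₁ h₁ _ (h3 V₁ h₁ v hv₁)) fun h7 => hv₂ (by
    have h8 := sub_mem h7 (add_mem h6 h5)
    rwa [sub_add_sub_cancel, sub_sub_cancel] at h8)
  have h7 : (w l : ℝ) ≤ w i := h1 i hi
  have h8 : (w j : ℝ) < w l := h2 j hj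
  rw [hi'] at h7
  rw [hj'] at h8
  exact absurd h7 (not_le.2 h8)

end Pool.Agent.Lib.MP_60cbcc_al.H3A
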