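import Pool.Agent.Lib.MP_60cbcc_al.H3AAlg

/-!
Non-trivial representations are proper.
-/

namespace Pool.Agent.Lib.MP_60cbcc_al.H3A

open Matrix Filter Topology

set_option linter.unusedSectionVars false

/-- A finitely generated domain with one finite fibre is generically integral. -/
theorem PropZMT {B S : Type} [CommRing B] [CommRing S] [IsDomain S] [Algebra B S]
    [Algebra.FiniteType B S] (p : Ideal S) [p.IsPrime]
    (h : Module.Finite B (S ⧸ (p.under B).map (algebraMap B S))) :
    ∃ b : B, algebraMap B S b ≠ 0 ∧ ∀ x : S, ∃ n, IsIntegral B (algebraMap B S b ^ n * x) := by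
  have : Algebra.WeaklyQuasiFiniteAt B p := inferInstance
  obtain ⟨r, hrp, hr, H⟩ := Algebra.zariskisMainProperty_iff.1
    (Algebra.ZariskisMainProperty.of_finiteType_of_weaklyQuasiFiniteAt (R := B) p)
  have hr0 : r ≠ 0 := fun e => hrp (e ▸ p.zero_mem)
  let r' : integralClosure B S := ⟨r, hr⟩
  have hr' : r' ≠ 0 := fun e => hr0 (congrArg Subtype.val e)
  obtain ⟨P, hP, hPr⟩ := hr
  have h1 : (P.map (algebraMap B (integralClosure B S))).eval₂ (RingHom.id _) r' = 0 := by
    rw [Polynomial.eval₂_map, RingHom.id_comp]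
    apply Subtype.ext
    have := Polynomial.hom_eval₂ P (algebraMap B (integralClosure B S))
      (integralClosure B S).val.toRingHom r'
    exact this.trans hPr
  obtain ⟨i, hi, hi'⟩ := Ideal.exists_coeff_ne_zero_mem_comap_of_non_zero_divisor_root_mem
    (I := Ideal.span {r'}) (fun {x} hx => (mul_eq_zero.1 hx).resolve_right hr')
    (Ideal.mem_span_singleton_self r') (hP.map _).ne_zero h1
  rw [Polynomial.coeff_map] at hi hi'
  obtain ⟨c, hc⟩ := Ideal.mem_span_singleton'.1 (Ideal.mem_comap.1 hi')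
  have hc' : c.1 * r = algebraMap B S (P.coeff i) := congrArg Subtype.val hc
  refine ⟨P.coeff i, fun e => hi (Subtype.ext e), fun x => ?_⟩
  obtain ⟨n, hn⟩ := H x
  refine ⟨n, ?_⟩
  rw [← hc', mul_pow, mul_assoc]
  exact (IsIntegral.pow c.2 n).mul hn

open MvPolynomial in
theorem PropFin {k B σ T : Type} [Field k] [CommRing B] [CommRing T] [Algebra k B] [Algebra k T]
    [Algebra B T] [IsScalarTower k B T] [Finite σ] (ψ : MvPolynomial σ k →ₐ[k] T)
    (hψ : Function.Surjective ψ)
    (h : ∀ s, ∃ P : Polynomial k, P.Monic ∧ ψ (Polynomial.aeval (X s) P) = 0) :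
    Module.Finite B T := by
  have hX : ∀ s, IsIntegral k (ψ (X s)) := fun s => by
    obtain ⟨P, hP, h0⟩ := h s
    exact ⟨P, hP, (Polynomial.aeval_algHom_apply ψ (X s) P).trans h0⟩
  have : Algebra.IsIntegral k T := ⟨fun z => by
    obtain ⟨z, rfl⟩ := hψ z
    induction z using MvPolynomial.induction_on with
    | C a => exact (ψ.commutes a).symm ▸ isIntegral_algebraMap (x := a)
    | add a b ha hb => simpa only [map_add] using ha.add hb
    | mul_X a t ha => simpa only [map_mul] using ha.mul (hX t)⟩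
  have : Algebra.FiniteType k T := .of_surjective ψ hψ
  have : Module.Finite k T := Algebra.IsIntegral.finite
  exact Module.Finite.of_restrictScalars_finite k B T

open MvPolynomial in
/-- A polynomial map on an irreducible variety with a finite fibre: the coordinates are roots of
monic polynomials after multiplication by a non-zero function of the image. -/
theorem PropAlg {k σ τ : Type} [Field k] [Finite σ] (I : Ideal (MvPolynomial σ k)) (hI : I.IsPrime)
    (q : τ → MvPolynomial σ k) (x0 : σ → k) (hx0 : ∀ p ∈ I, eval x0 p = 0)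
    (hfin : {x : σ → AlgebraicClosure k | (∀ p ∈ I, aeval x p = 0) ∧
      ∀ t, aeval x (q t) = algebraMap k _ (eval x0 (q t))}.Finite) :
    ∃ F : MvPolynomial τ k, aeval q F ∉ I ∧ ∀ s, ∃ (n : ℕ) (P : Polynomial (MvPolynomial τ k)),
      P.Monic ∧ ∀ x : σ → k, (∀ p ∈ I, eval x p = 0) →
        (P.map (eval fun t => eval x (q t))).IsRoot (eval (fun t => eval x (q t)) F ^ n * x s) := by
  classical
  let S := MvPolynomial σ k ⧸ I
  let φ : MvPolynomial τ k →ₐ[k] S := (Ideal.Quotient.mkₐ k I).comp (aeval q)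
  let : Algebra (MvPolynomial τ k) S := φ.toRingHom.toAlgebra
  have hφ : ∀ b, algebraMap (MvPolynomial τ k) S b = Ideal.Quotient.mk I (aeval q b) :=
    fun _ => rfl
  have : IsScalarTower k (MvPolynomial τ k) S := IsScalarTower.of_algebraMap_eq fun c =>
    (φ.commutes c).symm
  have : Algebra.FiniteType (MvPolynomial τ k) S :=
    Algebra.FiniteType.of_restrictScalars_finiteType k _ _
  let e : ∀ x : σ → k, (∀ p ∈ I, eval x p = 0) → (S →+* k) := fun x hx =>
    Ideal.Quotient.lift I (eval x) hx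
  have he : ∀ x hx b, e x hx (algebraMap (MvPolynomial τ k) S b) =
      eval (fun t => eval x (q t)) b := fun x hx b => by
    rw [hφ]
    change eval x (aeval q b) = _
    induction b using MvPolynomial.induction_on with
    | C a => simp
    | add a b ha hb => simp only [map_add, ha, hb]
    | mul_X a t ha => simp only [map_mul, ha, aeval_X, eval_X]
  let p : Ideal S := RingHom.ker (e x0 hx0)
  have : p.IsPrime := RingHom.ker_isPrime _
  let J : Ideal S := (p.under (MvPolynomial τ k)).map (algebraMap (MvPolynomial τ k) S)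
  let J0 : Ideal (MvPolynomial σ k) := J.comap (Ideal.Quotient.mk I)
  let ψ : MvPolynomial σ k →ₐ[k] S ⧸ J := (Ideal.Quotient.mkₐ k J).comp (Ideal.Quotient.mkₐ k I)
  have hX : ∀ s, ∃ P : Polynomial k, P.Monic ∧ ψ (Polynomial.aeval (X s) P) = 0 := fun s => by
    let P : Polynomial k := ∏ x ∈ hfin.toFinset, minpoly k (x s)
    have hP : P.Monic := Polynomial.monic_prod_of_monic _ _ fun x _ =>
      minpoly.monic (Algebra.IsIntegral.isIntegral _)
    have h1 : Polynomial.aeval (X s : MvPolynomial σ k) P ∈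
        vanishingIdeal k (zeroLocus (AlgebraicClosure k) J0) := fun x hx => by
      rw [← Polynomial.aeval_algHom_apply, aeval_X, map_prod]
      refine Finset.prod_eq_zero (i := x) (hfin.mem_toFinset.2 ⟨fun p hp => hx p ?_, fun t => ?_⟩)
        (minpoly.aeval _ _)
      · change Ideal.Quotient.mk I p ∈ J
        rw [Ideal.Quotient.eq_zero_iff_mem.2 hp]
        exact J.zero_mem
      · have h2 : q t - C (eval x0 (q t)) ∈ J0 := by
          have h3 : (X t - C (eval x0 (q t)) : MvPolynomial τ k) ∈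
              p.under (MvPolynomial τ k) := by
            change e x0 hx0 (algebraMap (MvPolynomial τ k) S _) = 0
            rw [he]; simp
          have h4 := Ideal.mem_map_of_mem (algebraMap (MvPolynomial τ k) S) h3
          rw [hφ, map_sub, aeval_X, aeval_C] at h4
          exact h4
        have h5 := hx _ h2
        rw [map_sub, aeval_C] at h5
        exact sub_eq_zero.1 h5
    rw [vanishingIdeal_zeroLocus_eq_radical] at h1
    obtain ⟨n, hn⟩ := h1
    refine ⟨P ^ n, hP.pow n, ?_⟩
    rw [map_pow]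
    exact Ideal.Quotient.eq_zero_iff_mem.2 hn
  obtain ⟨F, hF, H⟩ := PropZMT (B := MvPolynomial τ k) p
    (PropFin ψ (Ideal.Quotient.mk_surjective.comp Ideal.Quotient.mk_surjective) hX)
  refine ⟨F, fun h => hF (Ideal.Quotient.eq_zero_iff_mem.2 h), fun s => ?_⟩
  obtain ⟨n, P, hP, hPr⟩ := H (Ideal.Quotient.mk I (X s))
  refine ⟨n, P, hP, fun x hx => ?_⟩
  have h1 := congrArg (e x hx) hPr
  rw [Polynomial.hom_eval₂, map_zero, map_mul, map_pow, he] at h1
  have h2 : (e x hx).comp (algebraMap (MvPolynomial τ k) S) = eval fun t => eval x (q t) :=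
    RingHom.ext (he x hx)
  have h3 : e x hx (Ideal.Quotient.mk I (X s)) = x s := eval_X s
  rw [h2, h3] at h1
  rw [Polynomial.IsRoot.def, Polynomial.eval_map]
  exact h1

open MvPolynomial in
/-- Polynomials over an extension that vanish on a set of rational points. -/
theorem PropDens {k K σ : Type} [Field k] [Field K] [Algebra k K] (T : Set (σ → k)) (x : σ → K)
    (hx : ∀ p : MvPolynomial σ k, (∀ t ∈ T, eval t p = 0) → aeval x p = 0)
    (P : MvPolynomial σ K) (hP : ∀ t ∈ T, eval (fun s => algebraMap k K (t s)) P = 0) :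
    eval x P = 0 := by
  classical
  let β := Module.Basis.ofVectorSpace k K
  let Q := fun i => ∑ d ∈ P.support, (monomial d (β.repr (P.coeff d) i) : MvPolynomial σ k)
  have h1 : ∀ i, aeval x (Q i) = 0 := fun i => hx _ fun t ht => by
    have h2 := congrArg (fun z => β.repr z i) (hP t ht)
    simp only [eval_eq, map_sum, Finsupp.finsetSum_apply, map_zero, Finsupp.zero_apply] at h2
    rw [← h2]
    simp only [Q, map_sum, eval_monomial]
    refine Finset.sum_congr rfl fun d _ => ?_
    rw [mul_comm (coeff d P)]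
    simp only [← map_pow, ← map_prod, ← Algebra.smul_def, map_smul, Finsupp.smul_apply,
      smul_eq_mul, Finsupp.prod]
    ring
  let s := P.support.biUnion fun d => (β.repr (P.coeff d)).support
  have h3 : eval x P = ∑ i ∈ s, β i * aeval x (Q i) := by
    simp only [Q, map_sum, aeval_monomial, Finset.mul_sum]
    rw [Finset.sum_comm, eval_eq]
    refine Finset.sum_congr rfl fun d hd => ?_
    have h4 : coeff d P = ∑ i ∈ s, β.repr (P.coeff d) i • β i := by
      conv_lhs => rw [← β.linearCombination_repr (coeff d P)]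
      rw [Finsupp.linearCombination_apply, Finsupp.sum_of_support_subset _
        (Finset.subset_biUnion_of_mem (fun d => (β.repr (P.coeff d)).support) hd) _ (by simp)]
    conv_lhs => rw [h4]
    rw [Finset.sum_mul]
    refine Finset.sum_congr rfl fun i _ => ?_
    rw [Algebra.smul_def, Finsupp.prod]
    ring
  rw [h3]
  exact Finset.sum_eq_zero fun i _ => by rw [h1, mul_zero]

theorem PropRoot {k : Type} [NormedField k] {P : Polynomial k} (hP : P.Monic) {z : k}
    (hz : P.IsRoot z) {C : ℝ} (h0 : 0 ≤ C) (hC : ∀ i < P.natDegree, ‖P.coeff i‖ ≤ C) :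
    ‖z‖ ≤ C + 1 := by
  have h1 := hz.norm_lt_cauchyBound hP.ne_zero
  rw [Polynomial.cauchyBound, hP.leadingCoeff, nnnorm_one, div_one] at h1
  have h2 : (Finset.range P.natDegree).sup (‖P.coeff ·‖₊) ≤ ⟨C, h0⟩ :=
    Finset.sup_le fun i hi => hC i (Finset.mem_range.1 hi)
  have h3 : ‖z‖₊ ≤ ⟨C, h0⟩ + 1 := h1.le.trans (add_le_add h2 le_rfl)
  exact h3

variable {k : Type} [NontriviallyNormedField k] [ProperSpace k] {ν : Type} [Fintype ν]
  [DecidableEq ν] {G : Subgroup (GL ν k)}

/-- Polynomial identities over the algebraic closure pass from the points to the group. -/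
theorem PropExt {A : Subgroup (GL ν (AlgebraicClosure k))} (hA : IsAlmostSimple k A)
    {f : GL ν (AlgebraicClosure k) → AlgebraicClosure k} (hf : Reg ⊤ f)
    (h : ∀ g ∈ points k A, f (Matrix.GeneralLinearGroup.map (algebraMap k _) g) = 0) :
    ∀ x ∈ A, f x = 0 := fun x hx => by
  obtain ⟨P, hP⟩ := hf
  rw [hP x trivial]
  refine PropDens (coords '' (points k A : Set (GL ν k))) (coords x) (fun p hp => ?_) P ?_
  · exact hA.dense p (eventually_nhdsWithin_of_forall fun g hg => hp _ ⟨g, hg, rfl⟩) x hx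
  · rintro _ ⟨g, hg, rfl⟩
    have h1 := h g hg
    rw [hP _ trivial, ev] at h1
    exact h1

open MvPolynomial in
/-- The fibre over the identity is finite. -/
theorem PropKer (hG : Good G) {m : Type} [Fintype m] [DecidableEq m]
    {ρ : GL ν k → Matrix m m k} (hρ : Rep G ρ) (hn : ∃ g ∈ G, ρ g ≠ 1)
    (q : m × m → MvPolynomial (ν × ν) k) (hq : ∀ ab, ∀ g ∈ G, ρ g ab.1 ab.2 = ev g.1 (q ab)) :
    {x : ν × ν → AlgebraicClosure k |
      (∀ p ∈ vanishingIdeal k (coords '' (G : Set (GL ν k))), aeval x p = 0) ∧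
      ∀ t, aeval x (q t) = (1 : Matrix m m (AlgebraicClosure k)) t.1 t.2}.Finite := by
  have hdet := hG.det
  obtain ⟨A, hA, rfl⟩ := hG
  let ι : GL ν k →* GL ν (AlgebraicClosure k) := Matrix.GeneralLinearGroup.map (algebraMap k _)
  have hι : ∀ (g : GL ν k) (p : MvPolynomial (ν × ν) k),
      aeval (coords (ι g)) p = algebraMap k (AlgebraicClosure k) (ev g.1 p) := fun g p =>
    aeval_algebraMap_apply (AlgebraicClosure k) (coords g) p
  let I := vanishingIdeal k (coords '' (points k A : Set (GL ν k)))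
  have hI : ∀ p, p ∈ I ↔ ∀ g ∈ points k A, ev g.1 p = 0 := fun p =>
    ⟨fun h g hg => h _ ⟨g, hg, rfl⟩, fun h => by rintro _ ⟨g, hg, rfl⟩; exact h g hg⟩
  have hIA : ∀ x, x ∈ A ↔ ∀ p ∈ I, aeval (coords x) p = 0 := fun x => by
    refine ⟨fun hx p hp =>
      hA.dense p (eventually_nhdsWithin_of_forall ((hI p).1 hp)) x hx, fun h => ?_⟩
    obtain ⟨I0, h0⟩ := hA.closed
    refine (h0 x).2 fun p hp => h p ((hI p).2 fun g hg => ?_)
    have := (h0 (ι g)).1 hg p hp
    rw [hι] at this
    exact (algebraMap k (AlgebraicClosure k)).injective (this.trans (map_zero _).symm)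
  let r : GL ν (AlgebraicClosure k) → Matrix m m (AlgebraicClosure k) := fun x =>
    Matrix.of fun a b => aeval (coords x) (q (a, b))
  have hr : ∀ a b, Reg ⊤ fun x => r x a b := fun a b =>
    ⟨MvPolynomial.map (algebraMap k _) (q (a, b)), fun x _ => by
      rw [ev, eval_map]; rfl⟩
  have hrι : ∀ g ∈ points k A, r (ι g) = (algebraMap k (AlgebraicClosure k)).mapMatrix (ρ g) :=
    fun g hg => Matrix.ext fun a b => by
      change aeval (coords (ι g)) (q (a, b)) = algebraMap k _ (ρ g a b)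
      rw [hι, hq (a, b) g hg]
  have hr1 : r 1 = 1 := by rw [← map_one ι, hrι 1 (one_mem _), hρ.one, map_one]
  have hm1 : ∀ g ∈ points k A, ∀ y ∈ A, r (ι g * y) = r (ι g) * r y := fun g hg y hy =>
    Matrix.ext fun a b => sub_eq_zero.1 <| by
      refine PropExt hA (f := fun y => r (ι g * y) a b - (r (ι g) * r y) a b) (Reg.sub ?_ ?_)
        (fun g' hg' => ?_) y hy
      · exact ((hr a b).transl (a := ι g) (b := 1) trivial trivial).congr fun y _ => by
          rw [mul_one]
      · exact Reg.matmul (F := fun _ => r (ι g)) (fun _ _ => Reg.const _) hr a b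
      · change r (ι g * ι g') a b - (r (ι g) * r (ι g')) a b = 0
        rw [← map_mul, hrι _ (mul_mem hg hg'), hrι g hg, hrι g' hg', hρ.mul g hg g' hg', map_mul,
          sub_self]
  have hm : ∀ x ∈ A, ∀ y ∈ A, r (x * y) = r x * r y := fun x hx y hy =>
    Matrix.ext fun a b => sub_eq_zero.1 <| by
      refine PropExt hA (f := fun x => r (x * y) a b - (r x * r y) a b) (Reg.sub ?_ ?_)
        (fun g hg => ?_) x hx
      · exact ((hr a b).transl (a := 1) (b := y) trivial trivial).congr fun x _ => by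
          rw [one_mul]
      · exact Reg.matmul (F' := fun _ => r y) hr (fun _ _ => Reg.const _) a b
      · change r (ι g * y) a b - (r (ι g) * r y) a b = 0
        rw [hm1 g hg y hy, sub_self]
  let N : Subgroup (GL ν (AlgebraicClosure k)) :=
    { carrier := {x | x ∈ A ∧ r x = 1}
      one_mem' := ⟨one_mem _, hr1⟩
      mul_mem' := fun {x y} hx hy => ⟨mul_mem hx.1 hy.1, by
        rw [hm x hx.1 y hy.1, hx.2, hy.2, mul_one]⟩
      inv_mem' := fun {x} hx => ⟨inv_mem hx.1, by
        have := hm _ (inv_mem hx.1) x hx.1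
        rw [inv_mul_cancel, hr1, hx.2, mul_one] at this
        exact this.symm⟩ }
  have hN : ∀ x, x ∈ N ↔ x ∈ A ∧ r x = 1 := fun _ => Iff.rfl
  have hone : ∀ a b, algebraMap k (AlgebraicClosure k) ((1 : Matrix m m k) a b) =
      (1 : Matrix m m (AlgebraicClosure k)) a b := fun a b =>
    congrFun (congrFun (map_one (algebraMap k (AlgebraicClosure k)).mapMatrix) a) b
  have hfin : Finite N := by
    refine (hA.simple N (fun x hx => hx.1) (fun g hg x hx => ⟨mul_mem (mul_mem hg hx.1)
      (inv_mem hg), ?_⟩) ⟨I ⊔ Ideal.span (Set.range fun ab : m × m =>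
        q ab - C ((1 : Matrix m m k) ab.1 ab.2)), fun x => ?_⟩).resolve_right fun h => ?_
    · rw [hm _ (mul_mem hg hx.1) _ (inv_mem hg), hm g hg x hx.1, hx.2, mul_one,
        ← hm g hg _ (inv_mem hg), mul_inv_cancel, hr1]
    · have e : coords x ∈ zeroLocus (AlgebraicClosure k) (I ⊔ Ideal.span (Set.range
          fun ab : m × m => q ab - C ((1 : Matrix m m k) ab.1 ab.2))) ↔
          coords x ∈ zeroLocus (AlgebraicClosure k) I ∧ coords x ∈ zeroLocus (AlgebraicClosure k)
            (Ideal.span (Set.range fun ab : m × m => q ab - C ((1 : Matrix m m k) ab.1 ab.2))) := by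
        rw [zeroLocus_vanishingIdeal_galoisConnection.l_sup]
        rfl
      rw [e, zeroLocus_span, hN, hIA]
      refine and_congr Iff.rfl ⟨fun h => ?_, fun h => Matrix.ext fun a b => ?_⟩
      · rintro _ ⟨ab, rfl⟩
        rw [map_sub, aeval_C, hone, ← h]
        exact sub_self _
      · have := h _ ⟨(a, b), rfl⟩
        rw [map_sub, aeval_C, hone] at this
        exact sub_eq_zero.1 this
    · obtain ⟨g, hg, hne⟩ := hn
      have h1 : ι g ∈ N := h ▸ hg
      have h2 := h1.2
      rw [hrι g hg] at h2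
      exact hne (Matrix.ext fun a b => (algebraMap k (AlgebraicClosure k)).injective
        ((congrFun (congrFun h2 a) b).trans (hone a b).symm))
  refine ((Set.toFinite (N : Set (GL ν (AlgebraicClosure k)))).image coords).subset ?_
  rintro x ⟨hx, hx'⟩
  let M : Matrix ν ν (MvPolynomial (ν × ν) k) := Matrix.of fun i j => X (i, j)
  have h1 : M.det - 1 ∈ I := (hI _).2 fun g hg => by
    rw [ev, map_sub, map_one, RingHom.map_det, sub_eq_zero, ← hdet g hg]
    congr 1
    ext i j
    simp [M]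
  have h2 := hx _ h1
  rw [map_sub, map_one, AlgHom.map_det, sub_eq_zero] at h2
  let y := Matrix.GeneralLinearGroup.mkOfDetNeZero _ (h2.trans_ne one_ne_zero)
  have hy : coords y = x := funext fun ij => by simp [coords, y, M]
  refine ⟨y, ⟨(hIA y).2 (hy.symm ▸ hx), Matrix.ext fun a b => ?_⟩, hy⟩
  change aeval (coords y) (q (a, b)) = _
  rw [hy]
  exact hx' (a, b)

theorem PropCpt (m : Type) [Fintype m] (C : ℝ) :
    IsCompact {M : Matrix m m k | ∀ a b, ‖M a b‖ ≤ C} := by
  have := isCompact_univ_pi fun _ : m => isCompact_univ_pi fun _ : m =>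
    isCompact_closedBall (0 : k) C
  have e : {M : Matrix m m k | ∀ a b, ‖M a b‖ ≤ C} =
      Set.univ.pi fun _ : m => Set.univ.pi fun _ : m => Metric.closedBall (0 : k) C :=
    Set.ext fun M => ⟨fun h a _ b _ => mem_closedBall_zero_iff.2 (h a b),
      fun h a b => mem_closedBall_zero_iff.1 (h a trivial b trivial)⟩
  rw [e]
  exact this

/-- The entries times a power of a fixed function of the image are controlled by the image. -/
theorem PropTame (hG : Good G) {m : Type} [Fintype m] [DecidableEq m]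
    {ρ : GL ν k → Matrix m m k} (hρ : Rep G ρ) (hn : ∃ g ∈ G, ρ g ≠ 1) :
    ∃ F : MvPolynomial (m × m) k, (∃ g ∈ G, ev (ρ g) F ≠ 0) ∧ ∀ ij : ν × ν, ∃ n : ℕ, ∀ C : ℝ,
      ∃ D : ℝ, ∀ g ∈ G, (∀ a b, ‖ρ g a b‖ ≤ C) → ‖ev (ρ g) F‖ ^ n * ‖g.1 ij.1 ij.2‖ ≤ D := by
  choose q hq using fun ab : m × m => hρ.reg ab.1 ab.2
  let I := MvPolynomial.vanishingIdeal k (coords '' (G : Set (GL ν k)))
  have hI : ∀ p, p ∈ I ↔ ∀ g ∈ G, ev g.1 p = 0 := fun p =>
    ⟨fun h g hg => h _ ⟨g, hg, rfl⟩, fun h => by rintro _ ⟨g, hg, rfl⟩; exact h g hg⟩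
  have hp : I.IsPrime := ⟨fun h => by
      have := (hI 1).1 (h ▸ Submodule.mem_top) 1 G.one_mem
      rw [ev, map_one] at this
      exact one_ne_zero this,
    fun {a b} hab => by
      rw [hI, hI]
      refine hG.prime (f := fun g => ev g.1 a) (f' := fun g => ev g.1 b) ⟨a, fun _ _ => rfl⟩
        ⟨b, fun _ _ => rfl⟩ fun g hg => ?_
      have := (hI _).1 hab g hg
      rwa [ev, map_mul] at this⟩
  have hρq : ∀ g ∈ G, (fun t => MvPolynomial.eval (coords g) (q t)) = fun t => ρ g t.1 t.2 :=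
    fun g hg => funext fun t => (hq t g hg).symm
  obtain ⟨F, hF, H⟩ := PropAlg I hp q (coords (1 : GL ν k))
    (fun p hp => (hI p).1 hp 1 G.one_mem) (by
      refine (PropKer hG hρ hn q hq).subset fun x hx => ⟨hx.1, fun t => ?_⟩
      rw [hx.2 t, congrFun (hρq 1 G.one_mem) t, hρ.one]
      exact congrFun (congrFun (map_one (algebraMap k (AlgebraicClosure k)).mapMatrix) t.1) t.2)
  refine ⟨F, ?_, fun ij => ?_⟩
  · by_contra h
    refine hF ((hI _).2 fun g hg => ?_)
    have h1 : ev (ρ g) F = 0 := not_not.1 fun e => h ⟨g, hg, e⟩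
    rw [ev, ← hρq g hg] at h1
    rw [← h1]
    exact MvPolynomial.comp_aeval_apply q (MvPolynomial.aeval (coords g)) F
  · obtain ⟨n, P, hP, h⟩ := H ij
    refine ⟨n, fun C => ?_⟩
    choose c hc using fun i => (PropCpt (k := k) m C).exists_bound_of_continuousOn
      (continuous_ev (P.coeff i)).continuousOn
    refine ⟨∑ i ∈ Finset.range P.natDegree, |c i| + 1, fun g hg hC => ?_⟩
    have h1 := h (coords g) fun p hp => (hI p).1 hp g hg
    rw [hρq g hg] at h1
    have h2 := PropRoot (hP.map _) h1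
      (Finset.sum_nonneg (s := Finset.range P.natDegree) fun i _ => abs_nonneg (c i))
      fun i hi => by
        rw [hP.natDegree_map] at hi
        rw [Polynomial.coeff_map]
        exact (hc i _ hC).trans ((le_abs_self _).trans (Finset.single_le_sum
          (fun i _ => abs_nonneg (c i)) (Finset.mem_range.2 hi)))
    rw [norm_mul, norm_pow] at h2
    exact h2

theorem Good.proper (hG : Good G) {m : Type} [Fintype m] [DecidableEq m]
    {ρ : GL ν k → Matrix m m k} (hρ : Rep G ρ) (hn : ∃ g ∈ G, ρ g ≠ 1) {S : Set (GL ν k)}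
    (hS : S ⊆ G) (hb : ∃ C : ℝ, ∀ g ∈ S, ∀ a b, ‖ρ g a b‖ ≤ C) : Bd S := by
  obtain ⟨C, hC⟩ := hb
  obtain ⟨F, ⟨g0, hg0, hF⟩, H⟩ := PropTame hG hρ hn
  choose n hn' using H
  have hdet : ∀ g ∈ G, (ρ g).det = 1 := fun g hg => by
    have := hG.ab (ρ := fun g => Matrix.of fun _ _ : Unit => (ρ g).det)
      ⟨by ext; simp [hρ.one], fun g hg h hh => by ext; simp [hρ.mul g hg h hh, Matrix.mul_apply],
        fun _ _ => Reg.det hρ.reg⟩
      (fun g _ h _ => by ext; simp [Matrix.mul_apply, mul_comm]) g hg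
    simpa using congrFun (congrFun this ()) ()
  have hK : IsCompact (closure (ρ '' G) ∩ {M : Matrix m m k | ∀ a b, ‖M a b‖ ≤ C}) :=
    (PropCpt m C).inter_left isClosed_closure
  have key := hK.induction_on (p := fun T => Bd {g | g ∈ G ∧ ρ g ∈ T})
    ⟨0, fun g hg => hg.2.elim⟩
    (fun s t hst ⟨D, hD⟩ => ⟨D, fun g hg => hD g ⟨hg.1, hst hg.2⟩⟩)
    (fun s t ⟨D, hD⟩ ⟨D', hD'⟩ => ⟨max D D', fun g hg i j => hg.2.elim
      (fun h => (hD g ⟨hg.1, h⟩ i j).trans (le_max_left _ _))
      fun h => (hD' g ⟨hg.1, h⟩ i j).trans (le_max_right _ _)⟩) ?_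
  · obtain ⟨D, hD⟩ := key
    exact ⟨D, fun g hg => hD g ⟨hS hg, subset_closure ⟨g, hS hg, rfl⟩, hC g hg⟩⟩
  rintro h ⟨hh, -⟩
  have h1 : h.det = 1 := closure_minimal (t := {M : Matrix m m k | M.det = 1})
    (by rintro _ ⟨g, hg, rfl⟩; exact hdet g hg)
    (isClosed_eq continuous_id.matrix_det continuous_const) hh
  obtain ⟨γ, hγ, hne⟩ : ∃ γ ∈ G, ev (ρ γ * h) F ≠ 0 := by
    by_contra hc
    have h2 : ev (ρ g0 * h.adjugate * h) F = 0 :=
      closure_minimal (t := {M : Matrix m m k | ev (ρ g0 * M.adjugate * h) F = 0}) (by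
        rintro _ ⟨g, hg, rfl⟩
        have e : (ρ g).adjugate = ρ g⁻¹ := by
          have := Matrix.adjugate_mul (ρ g)
          rw [hdet g hg, one_smul] at this
          rw [← mul_one (ρ g).adjugate, ← (hρ.inv_mul hg).2, ← mul_assoc, this, one_mul]
        change ev (ρ g0 * (ρ g).adjugate * h) F = 0
        rw [e, ← hρ.mul g0 hg0 _ (G.inv_mem hg)]
        exact not_not.1 fun e => hc ⟨_, G.mul_mem hg0 (G.inv_mem hg), e⟩)
      (isClosed_eq ((continuous_ev F).comp ((continuous_const.matrix_mul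
        continuous_id.matrix_adjugate).matrix_mul continuous_const)) continuous_const) hh
    rw [mul_assoc, Matrix.adjugate_mul, h1, one_smul, mul_one] at h2
    exact hF h2
  have hc : Continuous fun M : Matrix m m k => ρ γ * M := continuous_const.matrix_mul continuous_id
  let δ := ‖ev (ρ γ * h) F‖ / 2
  have hδ : 0 < δ := half_pos (norm_pos_iff.2 hne)
  let C1 := ∑ ab : m × m, ‖(ρ γ * h) ab.1 ab.2‖ + 1
  have e1 : ∀ᶠ M in 𝓝 h, δ < ‖ev (ρ γ * M) F‖ :=
    ((continuous_ev F).comp hc).norm.continuousAt.eventually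
      (lt_mem_nhds (half_lt_self (norm_pos_iff.2 hne)))
  have e2 : ∀ᶠ M in 𝓝 h, ∀ a b, ‖(ρ γ * M) a b‖ < C1 := by
    refine eventually_all.2 fun a => eventually_all.2 fun b => ?_
    refine (hc.matrix_elem a b).norm.continuousAt.eventually (gt_mem_nhds ?_)
    exact (Finset.single_le_sum (f := fun ab : m × m => ‖(ρ γ * h) ab.1 ab.2‖)
      (fun _ _ => norm_nonneg _) (Finset.mem_univ (a, b))).trans_lt (lt_add_one _)
  refine ⟨_, mem_nhdsWithin_of_mem_nhds (e1.and e2), ?_⟩
  choose D hD using fun ij => hn' ij C1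
  refine ⟨∑ ij : ν × ν, |∑ l, ‖(γ⁻¹).1 ij.1 l‖ * (D (l, ij.2) / δ ^ n (l, ij.2))|, ?_⟩
  rintro g ⟨hg, h2, h3⟩ i j
  rw [← hρ.mul γ hγ g hg] at h2 h3
  have h4 : ∀ l, ‖(γ * g).1 l j‖ ≤ D (l, j) / δ ^ n (l, j) := fun l => by
    rw [le_div_iff₀ (pow_pos hδ _), mul_comm]
    exact (mul_le_mul_of_nonneg_right (pow_le_pow_left₀ hδ.le h2.le _) (norm_nonneg _)).trans
      (hD (l, j) _ (G.mul_mem hγ hg) fun a b => (h3 a b).le)
  have h5 : g.1 i j = ∑ l, (γ⁻¹).1 i l * (γ * g).1 l j := by
    rw [← Matrix.mul_apply, ← Units.val_mul, inv_mul_cancel_left]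
  refine le_trans ?_ ((le_abs_self _).trans (Finset.single_le_sum
    (f := fun ij : ν × ν => |∑ l, ‖(γ⁻¹).1 ij.1 l‖ * (D (l, ij.2) / δ ^ n (l, ij.2))|)
    (fun _ _ => abs_nonneg _) (Finset.mem_univ (i, j))))
  rw [h5]
  refine (norm_sum_le _ _).trans (Finset.sum_le_sum fun l _ => ?_)
  rw [norm_mul]
  exact mul_le_mul_of_nonneg_left (h4 l) (norm_nonneg _)

end Pool.Agent.Lib.MP_60cbcc_al.H3A
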