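import Pool.Agent.Lib.MP_60cbcc_al.H3APhi

/-!
The representation generated by the product of the principal minors.
-/

namespace Pool.Agent.Lib.MP_60cbcc_al.H3A

open Matrix Filter Topology

set_option linter.unusedSectionVars false

variable {k : Type} [NontriviallyNormedField k] [ProperSpace k] {ν : Type} [Fintype ν]
  [DecidableEq ν] {G : Subgroup (GL ν k)}

/-- A minimal realisation of a function as a matrix coefficient. -/
structure Real0 (G : Subgroup (GL ν k)) (f : GL ν k → k) {d : ℕ}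
    (ρ : GL ν k → Matrix (Fin d) (Fin d) k) (x ξ : Fin d → k) : Prop where
  rep : Rep G ρ
  coef : ∀ g ∈ G, ξ ⬝ᵥ ρ g *ᵥ x = f g
  span : Submodule.span k ((fun g => ρ g *ᵥ x) '' G) = ⊤
  sep : ∀ v, (∀ g ∈ G, ξ ⬝ᵥ ρ g *ᵥ v = 0) → v = 0

/-- The right translates of a polynomial lie in a finitely generated space. -/
theorem w_fg (p : MvPolynomial (ν × ν) k) : ∃ W : Submodule k (GL ν k → k), W.FG ∧
    ∀ g : GL ν k, (fun x : GL ν k => ev (x * g).1 p) ∈ W := by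
  induction p using MvPolynomial.induction_on with
  | C a =>
    refine ⟨Submodule.span k {fun _ => a}, Submodule.fg_span_singleton _, fun g => ?_⟩
    have : (fun x : GL ν k => ev (x * g).1 (MvPolynomial.C a)) = fun _ => a := by
      funext x
      simp [ev]
    rw [this]
    exact Submodule.mem_span_singleton_self _
  | add p q hp hq =>
    obtain ⟨W, hW, h⟩ := hp
    obtain ⟨W', hW', h'⟩ := hq
    refine ⟨W ⊔ W', hW.sup hW', fun g => ?_⟩
    have : (fun x : GL ν k => ev (x * g).1 (p + q)) =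
        (fun x : GL ν k => ev (x * g).1 p) + fun x : GL ν k => ev (x * g).1 q := by
      funext x
      simp [ev]
    rw [this]
    exact Submodule.add_mem_sup (h g) (h' g)
  | mul_X p ij hp =>
    obtain ⟨W, hW, h⟩ := hp
    refine ⟨W * Submodule.span k (Set.range fun l : ν => fun x : GL ν k => x.1 ij.1 l),
      hW.mul (Submodule.fg_span (Set.finite_range _)), fun g => ?_⟩
    have : (fun x : GL ν k => ev (x * g).1 (p * MvPolynomial.X ij)) =
        (fun x : GL ν k => ev (x * g).1 p) *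
          ∑ l, g.1 l ij.2 • fun x : GL ν k => x.1 ij.1 l := by
      funext x
      simp [ev, Matrix.mul_apply, Finset.sum_apply, mul_comm]
    rw [this]
    exact Submodule.mul_mem_mul (h g) (Submodule.sum_mem _ fun l _ =>
      Submodule.smul_mem _ _ (Submodule.subset_span ⟨l, rfl⟩))

/-- A separating family of functionals spans the dual. -/
theorem w_span {E ι : Type} [AddCommGroup E] [Module k E] [FiniteDimensional k E]
    (L : ι → E →ₗ[k] k) (h : ∀ v, (∀ i, L i v = 0) → v = 0) (K : E →ₗ[k] k) :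
    K ∈ Submodule.span k (Set.range L) := by
  refine FiniteDimensional.mem_span_of_iInf_ker_le_ker fun v hv => ?_
  rw [Submodule.mem_iInf] at hv
  rw [h v hv]
  exact zero_mem _

theorem Reg.exists_real {f : GL ν k → k} (hf : Reg G f) :
    ∃ (d : ℕ) (ρ : GL ν k → Matrix (Fin d) (Fin d) k) (x ξ : Fin d → k), Real0 G f ρ x ξ := by
  classical
  obtain ⟨p, hp⟩ := id hf
  obtain ⟨W, hW, hWp⟩ := w_fg p
  obtain ⟨f0, hf0⟩ : ∃ f0 : GL ν k → k, ∀ g, f0 g = if g ∈ G then f g else 0 := ⟨_, fun _ => rfl⟩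
  have hf0r : Reg G f0 := hf.congr fun g hg => by rw [hf0, if_pos hg]
  obtain ⟨V, hV⟩ : ∃ V : Submodule k (GL ν k → k),
      V = Submodule.span k ((fun g => fun x => f0 (x * g)) '' G) := ⟨_, rfl⟩
  have hle : V ≤ W.map (LinearMap.mulLeft k fun x => if x ∈ G then (1 : k) else 0) := by
    rw [hV, Submodule.span_le]
    rintro _ ⟨g, hg, rfl⟩
    refine ⟨_, hWp g, ?_⟩
    funext x
    simp only [LinearMap.mulLeft_apply, Pi.mul_apply, hf0]
    by_cases hx : x ∈ G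
    · rw [if_pos hx, if_pos (G.mul_mem hx hg), one_mul, hp _ (G.mul_mem hx hg)]
    · rw [if_neg hx, if_neg (fun h => hx ((G.mul_mem_cancel_right hg).1 h)), zero_mul]
  have : FiniteDimensional k
      (W.map (LinearMap.mulLeft k fun x => if x ∈ G then (1 : k) else 0)) :=
    Module.Finite.iff_fg.2 (hW.map _)
  have : FiniteDimensional k V := Submodule.finiteDimensional_of_le hle
  have hprop : ∀ φ ∈ V, Reg G φ ∧ (∀ x, x ∉ G → φ x = 0) ∧
      ∀ g ∈ G, (fun x => φ (x * g)) ∈ V := by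
    intro φ hφ
    rw [hV] at hφ
    induction hφ using Submodule.span_induction with
    | mem φ hφ =>
      obtain ⟨g, hg, rfl⟩ := hφ
      refine ⟨(hf0r.transl G.one_mem hg).congr fun x _ => by rw [one_mul], fun x hx => ?_,
        fun h hh => ?_⟩
      · simp only [hf0]
        rw [if_neg fun h => hx ((G.mul_mem_cancel_right hg).1 h)]
      · rw [hV]
        refine Submodule.subset_span ⟨h * g, G.mul_mem hh hg, ?_⟩
        funext x
        simp only [mul_assoc]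
    | zero => exact ⟨Reg.const 0, fun _ _ => rfl, fun _ _ => V.zero_mem⟩
    | add φ φ' _ _ h h' =>
      exact ⟨h.1.add h'.1, fun x hx => by rw [Pi.add_apply, h.2.1 x hx, h'.2.1 x hx, add_zero],
        fun g hg => V.add_mem (h.2.2 g hg) (h'.2.2 g hg)⟩
    | smul c φ _ h =>
      exact ⟨(Reg.const c).mul h.1, fun x hx => by rw [Pi.smul_apply, h.2.1 x hx, smul_zero],
        fun g hg => V.smul_mem c (h.2.2 g hg)⟩
  have hT : ∀ g : GL ν k, ∃ T : V →ₗ[k] V, g ∈ G → ∀ (φ : V) x, (T φ).1 x = φ.1 (x * g) := by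
    intro g
    by_cases hg : g ∈ G
    · exact ⟨(LinearMap.funLeft k k fun x => x * g).restrict fun φ hφ => (hprop φ hφ).2.2 g hg,
        fun _ _ _ => rfl⟩
    · exact ⟨0, fun h => absurd h hg⟩
  choose T hT using hT
  let b := Module.finBasis k V
  have hf0V : f0 ∈ V := by
    rw [hV]
    refine Submodule.subset_span ⟨1, G.one_mem, ?_⟩
    funext x
    simp only [mul_one]
  have hmv : ∀ g (φ : V), LinearMap.toMatrix b b (T g) *ᵥ b.equivFun φ = b.equivFun (T g φ) :=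
    fun g φ => LinearMap.toMatrix_mulVec_repr b b (T g) φ
  have hxi : ∀ φ : V, (fun a => (b a).1 1) ⬝ᵥ b.equivFun φ = φ.1 1 := by
    intro φ
    have h1 := congrArg (fun ψ : V => ψ.1 1) (b.sum_equivFun φ)
    simp only [Submodule.coe_sum, Finset.sum_apply, Submodule.coe_smul, Pi.smul_apply,
      smul_eq_mul] at h1
    rw [← h1]
    exact Finset.sum_congr rfl fun i _ => mul_comm _ _
  have hsepV : ∀ φ : V, (∀ x : G, φ.1 x = 0) → φ = 0 := by
    intro φ h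
    refine Subtype.ext (funext fun x => ?_)
    by_cases hx : x ∈ G
    · exact h ⟨x, hx⟩
    · exact (hprop φ.1 φ.2).2.1 x hx
  refine ⟨_, fun g => LinearMap.toMatrix b b (T g), b.equivFun ⟨f0, hf0V⟩, fun a => (b a).1 1,
    ⟨?_, fun g hg h hh => ?_, fun a c => ?_⟩, fun g hg => ?_, ?_, fun v hv => ?_⟩
  · have : T 1 = LinearMap.id := by
      ext φ x
      rw [hT 1 G.one_mem, mul_one, LinearMap.id_apply]
    rw [this, LinearMap.toMatrix_id]
  · have : T (g * h) = T g ∘ₗ T h := by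
      ext φ x
      rw [hT _ (G.mul_mem hg hh), LinearMap.comp_apply, hT g hg, hT h hh, mul_assoc]
    rw [this, LinearMap.toMatrix_comp b b b]
  · have h1 : ∀ K ∈ Submodule.span k (Set.range fun x : G =>
        (LinearMap.proj (x : GL ν k) : (GL ν k → k) →ₗ[k] k) ∘ₗ V.subtype),
        Reg G fun g => K (T g (b c)) := by
      intro K hK
      induction hK using Submodule.span_induction with
      | mem K hK =>
        obtain ⟨x, rfl⟩ := hK
        refine ((hprop _ (b c).2).1.transl x.2 G.one_mem).congr fun g hg => ?_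
        rw [mul_one, ← hT g hg]
        rfl
      | zero => exact Reg.const 0
      | add K K' _ _ h h' => exact h.add h'
      | smul r K _ h => exact (Reg.const r).mul h
    refine (h1 (b.coord a) (w_span _ hsepV _)).congr fun g _ => ?_
    rw [LinearMap.toMatrix_apply]
    rfl
  · rw [hmv, hxi, hT g hg, one_mul]
    exact (hf0 g).trans (if_pos hg)
  · rw [eq_top_iff]
    intro v _
    obtain ⟨φ, rfl⟩ := b.equivFun.surjective v
    have h1 : ∀ ψ (hψ : ψ ∈ Submodule.span k ((fun g => fun x => f0 (x * g)) '' G)),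
        b.equivFun ⟨ψ, hV ▸ hψ⟩ ∈ Submodule.span k
          ((fun g => LinearMap.toMatrix b b (T g) *ᵥ b.equivFun ⟨f0, hf0V⟩) '' G) := by
      intro ψ hψ
      induction hψ using Submodule.span_induction with
      | mem ψ hψ =>
        obtain ⟨g, hg, rfl⟩ := hψ
        refine Submodule.subset_span ⟨g, hg, ?_⟩
        simp only [hmv]
        congr 1
        exact Subtype.ext (funext fun x => hT g hg _ x)
      | zero =>
        have : (⟨0, hV ▸ Submodule.zero_mem _⟩ : V) = 0 := rfl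
        rw [this, map_zero]
        exact zero_mem _
      | add ψ ψ' h1 h2 h h' =>
        have : (⟨ψ + ψ', hV ▸ Submodule.add_mem _ h1 h2⟩ : V) = ⟨ψ, hV ▸ h1⟩ + ⟨ψ', hV ▸ h2⟩ := rfl
        rw [this, map_add]
        exact add_mem h h'
      | smul c ψ h1 h =>
        have : (⟨c • ψ, hV ▸ Submodule.smul_mem _ c h1⟩ : V) = c • ⟨ψ, hV ▸ h1⟩ := rfl
        rw [this, map_smul]
        exact Submodule.smul_mem _ c h
    exact h1 φ.1 (hV ▸ φ.2)
  · obtain ⟨φ, rfl⟩ := b.equivFun.surjective v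
    rw [hsepV φ fun x => ?_, map_zero]
    have h1 := hv x x.2
    rwa [hmv, hxi, hT _ x.2, one_mul] at h1

/-- The functional `v ↦ ξ M v`. -/
def wL {d : ℕ} (ξ : Fin d → k) (M : Matrix (Fin d) (Fin d) k) : (Fin d → k) →ₗ[k] k where
  toFun v := ξ ⬝ᵥ M *ᵥ v
  map_add' v v' := by rw [mulVec_add, dotProduct_add]
  map_smul' c v := by rw [mulVec_smul, dotProduct_smul, RingHom.id_apply]

theorem wL_apply {d : ℕ} (ξ : Fin d → k) (M : Matrix (Fin d) (Fin d) k) (v : Fin d → k) :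
    wL ξ M v = ξ ⬝ᵥ M *ᵥ v := rfl

theorem wL_continuous {d : ℕ} (ξ : Fin d → k) (M : Matrix (Fin d) (Fin d) k) :
    Continuous fun v : Fin d → k => ξ ⬝ᵥ M *ᵥ v :=
  continuous_const.dotProduct (continuous_const.matrix_mulVec continuous_id)

/-- Convergence can be tested on a separating family of functionals. -/
theorem w_exists_lim {d : ℕ} {ι α : Type} {l : Filter α} (L : ι → (Fin d → k) →ₗ[k] k)
    (h : ∀ v, (∀ i, L i v = 0) → v = 0) {v : α → Fin d → k}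
    (hv : ∀ i, ∃ y, Tendsto (fun n => L i (v n)) l (𝓝 y)) : ∃ u, Tendsto v l (𝓝 u) := by
  have h1 : ∀ K ∈ Submodule.span k (Set.range L), ∃ y, Tendsto (fun n => K (v n)) l (𝓝 y) := by
    intro K hK
    induction hK using Submodule.span_induction with
    | mem K hK =>
      obtain ⟨i, rfl⟩ := hK
      exact hv i
    | zero => exact ⟨0, tendsto_const_nhds⟩
    | add K K' _ _ h h' =>
      obtain ⟨y, hy⟩ := h
      obtain ⟨y', hy'⟩ := h'
      exact ⟨y + y', hy.add hy'⟩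
    | smul c K _ h =>
      obtain ⟨y, hy⟩ := h
      exact ⟨c * y, hy.const_mul c⟩
  choose u hu using fun a : Fin d => h1 (LinearMap.proj a) (w_span L h _)
  exact ⟨u, tendsto_pi_nhds.2 hu⟩

theorem w_lim {d : ℕ} {ι α : Type} {l : Filter α} (L : ι → (Fin d → k) →ₗ[k] k)
    (h : ∀ v, (∀ i, L i v = 0) → v = 0) {v : α → Fin d → k} {u : Fin d → k}
    (hv : ∀ i, Tendsto (fun n => L i (v n)) l (𝓝 (L i u))) : Tendsto v l (𝓝 u) := by
  have h1 : ∀ K ∈ Submodule.span k (Set.range L), Tendsto (fun n => K (v n)) l (𝓝 (K u)) := by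
    intro K hK
    induction hK using Submodule.span_induction with
    | mem K hK =>
      obtain ⟨i, rfl⟩ := hK
      exact hv i
    | zero => exact tendsto_const_nhds
    | add K K' _ _ h h' => exact h.add h'
    | smul c K _ h => exact h.const_mul c
  exact tendsto_pi_nhds.2 fun a => h1 (LinearMap.proj a) (w_span L h _)

/-- Boundedness of all two-sided translates gives boundedness in the representation. -/
theorem Real0.bd {f : GL ν k → k} {d : ℕ} {ρ : GL ν k → Matrix (Fin d) (Fin d) k}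
    {x ξ : Fin d → k} (h : Real0 G f ρ x ξ) {S : Set (GL ν k)} (hS : S ⊆ G)
    (hb : ∀ g ∈ G, ∀ g' ∈ G, ∃ C : ℝ, ∀ s ∈ S, ‖f (g * s * g')‖ ≤ C) :
    ∃ C : ℝ, ∀ s ∈ S, ∀ a b, ‖ρ s a b‖ ≤ C := by
  have h1 : ∀ g ∈ G, ∀ v ∈ Submodule.span k ((fun g => ρ g *ᵥ x) '' G),
      ∃ C : ℝ, ∀ s ∈ S, ‖wL ξ (ρ g) (ρ s *ᵥ v)‖ ≤ C := by
    intro g hg v hv
    induction hv using Submodule.span_induction with
    | mem v hv =>
      obtain ⟨g', hg', rfl⟩ := hv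
      obtain ⟨C, hC⟩ := hb g hg g' hg'
      refine ⟨C, fun s hs => ?_⟩
      rw [wL_apply, mulVec_mulVec, mulVec_mulVec, ← h.rep.mul g hg s (hS hs),
        ← h.rep.mul _ (G.mul_mem hg (hS hs)) g' hg',
        h.coef _ (G.mul_mem (G.mul_mem hg (hS hs)) hg')]
      exact hC s hs
    | zero => exact ⟨0, fun s _ => by simp⟩
    | add v v' _ _ h h' =>
      obtain ⟨C, hC⟩ := h
      obtain ⟨C', hC'⟩ := h'
      refine ⟨C + C', fun s hs => ?_⟩
      rw [mulVec_add, map_add]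
      exact (norm_add_le _ _).trans (add_le_add (hC s hs) (hC' s hs))
    | smul c v _ h =>
      obtain ⟨C, hC⟩ := h
      refine ⟨‖c‖ * C, fun s hs => ?_⟩
      rw [mulVec_smul, map_smul, norm_smul]
      exact mul_le_mul_of_nonneg_left (hC s hs) (norm_nonneg c)
  have h2 : ∀ v, ∀ K ∈ Submodule.span k (Set.range fun g : G => wL ξ (ρ g)),
      ∃ C : ℝ, ∀ s ∈ S, ‖K (ρ s *ᵥ v)‖ ≤ C := by
    intro v K hK
    induction hK using Submodule.span_induction with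
    | mem K hK =>
      obtain ⟨g, rfl⟩ := hK
      exact h1 g g.2 v (h.span ▸ Submodule.mem_top)
    | zero => exact ⟨0, fun s _ => by simp⟩
    | add K K' _ _ h h' =>
      obtain ⟨C, hC⟩ := h
      obtain ⟨C', hC'⟩ := h'
      exact ⟨C + C', fun s hs => (norm_add_le _ _).trans (add_le_add (hC s hs) (hC' s hs))⟩
    | smul c K _ h =>
      obtain ⟨C, hC⟩ := h
      refine ⟨‖c‖ * C, fun s hs => ?_⟩
      rw [LinearMap.smul_apply, norm_smul]
      exact mul_le_mul_of_nonneg_left (hC s hs) (norm_nonneg c)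
  choose C hC using fun ab : Fin d × Fin d => h2 (Pi.single ab.2 1) (LinearMap.proj ab.1)
    (w_span _ (fun v hv => h.sep v fun g hg => hv ⟨g, hg⟩) _)
  obtain ⟨C0, hC0⟩ := (Set.finite_range C).bddAbove
  refine ⟨C0, fun s hs a b => le_trans (le_of_eq ?_) ((hC (a, b) s hs).trans (hC0 ⟨_, rfl⟩))⟩
  simp

variable {w : ν → ℤ}

section Vec

variable {d : ℕ} {ρ : GL ν k → Matrix (Fin d) (Fin d) k} {x ξ : Fin d → k} {y : ν → ℝ}

theorem Real0.w_mul {f : GL ν k → k} (h : Real0 G f ρ x ξ) {g g' : GL ν k} (hg : g ∈ G)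
    (hg' : g' ∈ G) (v : Fin d → k) : ρ g *ᵥ ρ g' *ᵥ v = ρ (g * g') *ᵥ v := by
  rw [mulVec_mulVec, h.rep.mul g hg g' hg']

theorem Real0.w_tendsto {f : GL ν k → k} (h : Real0 G f ρ x ξ) {α : Type} {l : Filter α}
    {g : α → GL ν k} {g₀ : GL ν k} (hg : ∀ n, g n ∈ G) (h₀ : g₀ ∈ G) (ht : Tendsto g l (𝓝 g₀))
    (v : Fin d → k) : Tendsto (fun n => ρ (g n) *ᵥ v) l (𝓝 (ρ g₀ *ᵥ v)) := by
  have h1 : Tendsto (fun n => ρ (g n)) l (𝓝 (ρ g₀)) :=
    tendsto_pi_nhds.2 fun a => tendsto_pi_nhds.2 fun b =>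
      ((h.rep.reg a b).continuousOn g₀ h₀).tendsto.comp
        (tendsto_nhdsWithin_iff.2 ⟨ht, Eventually.of_forall hg⟩)
  exact ((continuous_id.matrix_mulVec continuous_const).tendsto (ρ g₀)).comp h1

theorem Real0.w_left {f : GL ν k → k} (h : Real0 G f ρ x ξ) {g u : GL ν k} (hg : g ∈ G)
    (hu : u ∈ G) {c : k} (hc : ∀ z ∈ G, f (g * u * z) = c * f (g * z)) (v : Fin d → k) :
    ξ ⬝ᵥ ρ g *ᵥ ρ u *ᵥ v = c * ξ ⬝ᵥ ρ g *ᵥ v := by
  have hv : v ∈ Submodule.span k ((fun g => ρ g *ᵥ x) '' G) := h.span ▸ Submodule.mem_top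
  induction hv using Submodule.span_induction with
  | mem v hv =>
    obtain ⟨z, hz, rfl⟩ := hv
    simp only
    rw [h.w_mul hg hu, h.w_mul (G.mul_mem hg hu) hz, h.w_mul hg hz,
      h.coef _ (G.mul_mem (G.mul_mem hg hu) hz), h.coef _ (G.mul_mem hg hz), hc z hz]
  | zero => simp
  | add v v' _ _ h h' => simp only [mulVec_add, dotProduct_add, h, h', mul_add]
  | smul r v _ h =>
    simp only [mulVec_smul, dotProduct_smul, h, smul_eq_mul]
    ring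

theorem Real0.w_right {f : GL ν k → k} (h : Real0 G f ρ x ξ) {u : GL ν k} (hu : u ∈ G) {c : k}
    (hc : ∀ z ∈ G, f (z * u) = c * f z) : ρ u *ᵥ x = c • x := by
  rw [← sub_eq_zero]
  refine h.sep _ fun g hg => ?_
  rw [mulVec_sub, dotProduct_sub, h.w_mul hg hu, mulVec_smul, dotProduct_smul,
    h.coef _ (G.mul_mem hg hu), h.coef g hg, hc g hg, smul_eq_mul, sub_self]

theorem w_xi_U (h : Real0 G (fun g => DD y g.1) ρ x ξ) {u : GL ν k} (hu : u ∈ G)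
    (hu' : u ∈ Ugl (-y)) (v : Fin d → k) : ξ ⬝ᵥ ρ u *ᵥ v = ξ ⬝ᵥ v := by
  have h1 := h.w_left G.one_mem hu (c := 1) (fun z _ => by
    rw [one_mul, one_mul, one_mul, Units.val_mul, DD_left hu']) v
  simpa only [h.rep.one, one_mulVec, one_mul] using h1

theorem w_xi_Z (h : Real0 G (fun g => DD y g.1) ρ x ξ) {z : GL ν k} (hz : z ∈ G)
    (hz' : z ∈ Zgl y) (v : Fin d → k) : ξ ⬝ᵥ ρ z *ᵥ v = DD y z.1 * ξ ⬝ᵥ v := by
  have h1 := h.w_left G.one_mem hz (c := DD y z.1) (fun g _ => by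
    rw [one_mul, one_mul, Units.val_mul, DD_zl hz']) v
  simpa only [h.rep.one, one_mulVec] using h1

theorem w_x_U (h : Real0 G (fun g => DD y g.1) ρ x ξ) {u : GL ν k} (hu : u ∈ G)
    (hu' : u ∈ Ugl y) : ρ u *ᵥ x = x := by
  rw [h.w_right hu (c := 1) fun z _ => by rw [one_mul, Units.val_mul, DD_right hu'], one_smul]

theorem w_x_Z (h : Real0 G (fun g => DD y g.1) ρ x ξ) {z : GL ν k} (hz : z ∈ G)
    (hz' : z ∈ Zgl y) : ρ z *ᵥ x = DD y z.1 • x :=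
  h.w_right hz fun g _ => by rw [Units.val_mul, DD_zr hz', mul_comm]

theorem w_xi_x (h : Real0 G (fun g => DD y g.1) ρ x ξ) : ξ ⬝ᵥ x = 1 := by
  have h1 := h.coef 1 G.one_mem
  rwa [h.rep.one, one_mulVec, Units.val_one, DD_one] at h1

theorem w_conj (h : Real0 G (fun g => DD y g.1) ρ x ξ) {z g : GL ν k} (hz : z ∈ G)
    (hz' : z ∈ Zgl y) (hg : g ∈ G) :
    ρ (z * g * z⁻¹) *ᵥ x = (DD y (z⁻¹).1 • ρ z) *ᵥ ρ g *ᵥ x := by
  rw [← h.w_mul (G.mul_mem hz hg) (G.inv_mem hz), w_x_Z h (G.inv_mem hz) ((Zgl y).inv_mem hz'),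
    mulVec_smul, smul_mulVec, h.w_mul hz hg]

/-- The normalised powers of the contraction tend to the projection on the line of `x`. -/
theorem w_proj (hG : Good G) (hw : w ∈ YY G) (h : Real0 G (fun g => DD (cst w) g.1) ρ x ξ) :
    Tendsto (fun j : ℕ => DD (cst w) (((dg w (pw k))⁻¹ ^ j)⁻¹).1 • ρ ((dg w (pw k))⁻¹ ^ j)) atTop
      (𝓝 (vecMulVec x ξ)) := by
  have hb : dg w (pw k) ∈ G := hw _
  have haG : ∀ j : ℕ, (dg w (pw k))⁻¹ ^ j ∈ G := fun j => G.pow_mem (G.inv_mem hb) j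
  have haZ : ∀ j : ℕ, (dg w (pw k))⁻¹ ^ j ∈ Zgl (cst w) := fun j =>
    (Zgl _).pow_mem ((Zgl _).inv_mem (dg_mem_Zgl _ _ _)) j
  have hsep : ∀ v, (∀ g : {g : GL ν k // g ∈ G ∧ DD (cst w) g.1 ≠ 0}, wL ξ (ρ g) v = 0) →
      v = 0 := by
    intro v hv
    have hreg : Reg G fun g => ξ ⬝ᵥ ρ g *ᵥ v :=
      Reg.sum Finset.univ fun a _ => (Reg.const (ξ a)).mul
        (Reg.sum Finset.univ fun b _ => (h.rep.reg a b).mul (Reg.const (v b)))
    rcases hG.prime hreg (Reg.DD (cst w)) (fun g hg => by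
      by_cases h0 : DD (cst w) g.1 = 0
      · rw [h0, mul_zero]
      · have h1 : ξ ⬝ᵥ ρ g *ᵥ v = 0 := hv ⟨g, hg, h0⟩
        rw [h1, zero_mul]) with h1 | h1
    · exact h.sep v h1
    · have h2 := h1 1 G.one_mem
      rw [Units.val_one, DD_one] at h2
      exact absurd h2 one_ne_zero
  have hv : ∀ v : Fin d → k, Tendsto (fun j : ℕ =>
      (DD (cst w) (((dg w (pw k))⁻¹ ^ j)⁻¹).1 • ρ ((dg w (pw k))⁻¹ ^ j)) *ᵥ v) atTop
      (𝓝 ((ξ ⬝ᵥ v) • x)) := by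
    intro v
    refine w_lim _ hsep fun g => ?_
    obtain ⟨g, hg, h0⟩ := g
    obtain ⟨u, hu, z, hz, u', hu', -, rfl⟩ := hG.cell (cst_mem hw) hg h0
    have h1 : Tendsto (fun j : ℕ => dg w (pw k) ^ j * u' * (dg w (pw k) ^ j)⁻¹) atTop (𝓝 1) :=
      mem_Ugl_iff_con.1 hu'.2
    have h2 := h.w_tendsto (fun j : ℕ => G.mul_mem (G.mul_mem (G.pow_mem hb j) hu'.1)
      (G.inv_mem (G.pow_mem hb j))) G.one_mem h1 v
    rw [h.rep.one, one_mulVec] at h2
    have h3 := ((continuous_const.dotProduct continuous_id).tendsto v).comp h2 (x := atTop)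
      (f := fun j : ℕ => ρ (dg w (pw k) ^ j * u' * (dg w (pw k) ^ j)⁻¹) *ᵥ v)
      (g := fun v' : Fin d → k => ξ ⬝ᵥ v')
    have h4 := h3.const_mul (DD (cst w) z.1)
    have h5 : wL ξ (ρ (u * z * u')) ((ξ ⬝ᵥ v) • x) = DD (cst w) z.1 * ξ ⬝ᵥ v := by
      rw [map_smul, wL_apply, h.coef _ hg, DD_lu hu.2 hu'.2, smul_eq_mul, mul_comm]
    simp only [h5]
    refine h4.congr fun j => ?_
    have hs : dg w (pw k) ^ j * u' * (dg w (pw k) ^ j)⁻¹ ∈ G :=
      G.mul_mem (G.mul_mem (G.pow_mem hb j) hu'.1) (G.inv_mem (G.pow_mem hb j))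
    have e : u * z * u' * (dg w (pw k))⁻¹ ^ j =
        u * (z * ((dg w (pw k))⁻¹ ^ j * (dg w (pw k) ^ j * u' * (dg w (pw k) ^ j)⁻¹))) := by
      rw [inv_pow]
      group
    have e1 : DD (cst w) (((dg w (pw k))⁻¹ ^ j)⁻¹).1 * DD (cst w) ((dg w (pw k))⁻¹ ^ j).1 = 1 := by
      rw [← DD_zl ((Zgl _).inv_mem (haZ j)), Units.inv_mul, DD_one]
    rw [Function.comp_apply, wL_apply, smul_mulVec, mulVec_smul, dotProduct_smul,
      h.w_mul hg (haG j), e, ← h.w_mul hu.1 (G.mul_mem hz.1 (G.mul_mem (haG j) hs)),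
      w_xi_U h hu.1 hu.2, ← h.w_mul hz.1 (G.mul_mem (haG j) hs), w_xi_Z h hz.1 hz.2,
      ← h.w_mul (haG j) hs, w_xi_Z h (haG j) (haZ j), smul_eq_mul]
    linear_combination (-(DD (cst w) z.1 *
      ξ ⬝ᵥ ρ (dg w (pw k) ^ j * u' * (dg w (pw k) ^ j)⁻¹) *ᵥ v)) * e1
  refine tendsto_pi_nhds.2 fun a => tendsto_pi_nhds.2 fun b => ?_
  have h1 := tendsto_pi_nhds.1 (hv (Pi.single b 1)) a
  simpa [vecMulVec_apply, mul_comm] using h1

/-- The orbit of `x` under the opposite unipotent group is closed. -/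
theorem w_closed (hG : Good G) (hw : w ∈ YY G) (h : Real0 G (fun g => DD (cst w) g.1) ρ x ξ)
    {u : ℕ → GL ν k} (hu : ∀ i, u i ∈ G ⊓ Ugl (-cst w)) {v : Fin d → k}
    (hv : Tendsto (fun i => ρ (u i) *ᵥ x) atTop (𝓝 v)) :
    ∃ c : k, ∃ g ∈ G, v = c • ρ g *ᵥ x := by
  classical
  obtain ⟨a, ha⟩ : ∃ a : GL ν k, a = (dg w (pw k))⁻¹ := ⟨_, rfl⟩
  have haG : a ∈ G := ha ▸ G.inv_mem (hw _)
  have haZ : a ∈ Zgl (cst w) := ha ▸ (Zgl _).inv_mem (dg_mem_Zgl _ _ _)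
  have hT := w_proj hG hw h
  rw [← ha] at hT
  obtain ⟨T, hTd⟩ : ∃ T : ℕ → Matrix (Fin d) (Fin d) k,
      T = fun j : ℕ => DD (cst w) ((a ^ j)⁻¹).1 • ρ (a ^ j) := ⟨_, rfl⟩
  rw [← hTd] at hT
  have hTc : ∀ (j : ℕ), ∀ g ∈ G, ρ (a ^ j * g * (a ^ j)⁻¹) *ᵥ x = T j *ᵥ ρ g *ᵥ x := by
    intro j g hg
    rw [hTd]
    exact w_conj h (G.pow_mem haG j) ((Zgl _).pow_mem haZ j) hg
  have hnorm : ∀ z ∈ Zgl (cst w), z ∈ G → ∀ s ∈ G ⊓ Ugl (-cst w),
      z * s * z⁻¹ ∈ G ⊓ Ugl (-cst w) := fun z hz hzG s hs =>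
    ⟨G.mul_mem (G.mul_mem hzG hs.1) (G.inv_mem hzG),
      Pgl_conj_Ugl (Zgl_le_Pgl (Zgl_neg (k := k) (y := cst w) ▸ hz)) hs.2⟩
  obtain ⟨K0, hK0, hK1⟩ := exists_compact_mem_nhds (1 : GL ν k)
  have hUc : IsClosed ((G ⊓ Ugl (-cst w) : Subgroup (GL ν k)) : Set (GL ν k)) :=
    hG.isClosed.inter isClosed_Grp
  obtain ⟨K, hK⟩ : ∃ K : Set (GL ν k), K = K0 ∩ (G ⊓ Ugl (-cst w) : Subgroup (GL ν k)) := ⟨_, rfl⟩
  have hKc : IsCompact K := hK ▸ hK0.inter_right hUc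
  have hKU : ∀ s ∈ K, s ∈ G ⊓ Ugl (-cst w) := fun s hs => (hK ▸ hs).2
  have hKev : ∀ s : ℕ → GL ν k, (∀ i, s i ∈ G ⊓ Ugl (-cst w)) → Tendsto s atTop (𝓝 1) →
      ∀ᶠ i in atTop, s i ∈ K := fun s hs ht =>
    (ht.eventually hK1).mono fun i hi => hK ▸ ⟨hi, hs i⟩
  have hcont : ContinuousOn (fun g => ρ g *ᵥ x) K := by
    intro g hg
    have h1 : Tendsto ρ (𝓝[K] g) (𝓝 (ρ g)) :=
      tendsto_pi_nhds.2 fun a => tendsto_pi_nhds.2 fun b =>
        (((h.rep.reg a b).continuousOn.mono fun s hs => (hKU s hs).1) g hg).tendsto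
    exact ((continuous_id.matrix_mulVec continuous_const).tendsto (ρ g)).comp h1
  have hcl : IsClosed ((fun g => ρ g *ᵥ x) '' K) := (hKc.image_of_continuousOn hcont).isClosed
  by_cases hex : ∃ j, T j *ᵥ v ∈ (fun g => ρ g *ᵥ x) '' K
  · obtain ⟨j, s, hs, e⟩ := hex
    have hj : a ^ j ∈ G := G.pow_mem haG j
    refine ⟨(DD (cst w) ((a ^ j)⁻¹).1)⁻¹, (a ^ j)⁻¹ * s, G.mul_mem (G.inv_mem hj) (hKU s hs).1, ?_⟩
    simp only [hTd] at e
    rw [← h.w_mul (G.inv_mem hj) (hKU s hs).1, e, smul_mulVec, mulVec_smul,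
      h.w_mul (G.inv_mem hj) hj, inv_mul_cancel, h.rep.one, one_mulVec, smul_smul,
      inv_mul_cancel₀ (DD_z_ne ((Zgl _).inv_mem ((Zgl _).pow_mem haZ j))), one_smul]
  exfalso
  have hP : ∀ i, ∃ j, T j *ᵥ ρ (u i) *ᵥ x ∈ (fun g => ρ g *ᵥ x) '' K := by
    intro i
    have h1 : Tendsto (fun j : ℕ => a ^ j * u i * (a ^ j)⁻¹) atTop (𝓝 1) := by
      rw [ha]
      exact mem_Ugl_neg_iff_con.1 (hu i).2
    obtain ⟨j, hj⟩ := (hKev _ (fun j => hnorm _ ((Zgl _).pow_mem haZ j) (G.pow_mem haG j) _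
      (hu i)) h1).exists
    exact ⟨j, _, hj, hTc j _ (hu i).1⟩
  have hm : Tendsto (fun i => Nat.find (hP i)) atTop atTop := by
    refine tendsto_atTop.2 fun J => ?_
    have h1 : ∀ᶠ i in atTop, ∀ j ∈ Finset.range J,
        T j *ᵥ ρ (u i) *ᵥ x ∉ (fun g => ρ g *ᵥ x) '' K := by
      refine (eventually_all_finset _).2 fun j _ => ?_
      have h2 : Tendsto (fun i => T j *ᵥ ρ (u i) *ᵥ x) atTop (𝓝 (T j *ᵥ v)) :=
        ((continuous_const.matrix_mulVec continuous_id).tendsto v).comp hv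
      exact h2.eventually (hcl.isOpen_compl.mem_nhds fun h3 => hex ⟨j, h3⟩)
    refine h1.mono fun i hi => ?_
    exact (Nat.le_find_iff _ _).2 fun j hj => hi j (Finset.mem_range.2 hj)
  choose s hs es using fun i => Nat.find_spec (hP i)
  have hxv : ξ ⬝ᵥ v = 1 := by
    have h1 : Tendsto (fun i => ξ ⬝ᵥ ρ (u i) *ᵥ x) atTop (𝓝 (ξ ⬝ᵥ v)) :=
      ((continuous_const.dotProduct continuous_id).tendsto v).comp hv
    have h2 : (fun i => ξ ⬝ᵥ ρ (u i) *ᵥ x) = fun _ => 1 := by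
      funext i
      rw [w_xi_U h (hu i).1 (hu i).2, w_xi_x h]
    rw [h2] at h1
    exact tendsto_nhds_unique h1 tendsto_const_nhds
  have hsx : Tendsto (fun i => ρ (s i) *ᵥ x) atTop (𝓝 x) := by
    have h1 : Tendsto (fun i => (T (Nat.find (hP i)), ρ (u i) *ᵥ x)) atTop
        (𝓝 (vecMulVec x ξ, v)) := (hT.comp hm).prodMk_nhds hv
    have h2 := ((continuous_fst.matrix_mulVec continuous_snd).tendsto _).comp h1
    have h3 : vecMulVec x ξ *ᵥ v = x := by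
      rw [vecMulVec_mulVec, hxv]
      simp
    simp only [h3] at h2
    exact h2.congr fun i => (es i).symm
  obtain ⟨s₀, hs₀, σ, hσ, hlim⟩ := hKc.tendsto_subseq hs
  have hfix : ρ s₀ *ᵥ x = x :=
    tendsto_nhds_unique (h.w_tendsto (fun i => (hKU _ (hs (σ i))).1) (hKU _ hs₀).1 hlim x)
      (hsx.comp hσ.tendsto_atTop)
  have hfix' : ρ s₀⁻¹ *ᵥ x = x := by
    conv_lhs => rw [← hfix]
    rw [h.w_mul (G.inv_mem (hKU _ hs₀).1) (hKU _ hs₀).1, inv_mul_cancel, h.rep.one, one_mulVec]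
  have h1 : Tendsto (fun i => a⁻¹ * (s (σ i) * s₀⁻¹) * a⁻¹⁻¹) atTop (𝓝 1) := by
    have h2 := ((hlim.mul_const s₀⁻¹).const_mul a⁻¹).mul_const a⁻¹⁻¹
    rwa [mul_inv_cancel, mul_one, mul_inv_cancel] at h2
  have hmem : ∀ i, s (σ i) * s₀⁻¹ ∈ G ⊓ Ugl (-cst w) := fun i =>
    mul_mem (hKU _ (hs (σ i))) (inv_mem (hKU _ hs₀))
  obtain ⟨i, hi1, hi2⟩ := ((hKev _ (fun i => hnorm _ ((Zgl _).inv_mem haZ) (G.inv_mem haG) _
    (hmem i)) h1).and ((hm.comp hσ.tendsto_atTop).eventually_ge_atTop 1)).exists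
  obtain ⟨n, hn⟩ : ∃ n, Nat.find (hP (σ i)) = n + 1 := ⟨Nat.find (hP (σ i)) - 1, by
    have : 1 ≤ Nat.find (hP (σ i)) := hi2
    omega⟩
  refine Nat.find_min (hP (σ i)) (m := n) (by omega) ⟨_, hi1, ?_⟩
  have e1 := es (σ i)
  rw [hn] at e1
  simp only at e1 ⊢
  have hc : a ^ (n + 1) * u (σ i) * (a ^ (n + 1))⁻¹ ∈ G :=
    G.mul_mem (G.mul_mem (G.pow_mem haG _) (hu _).1) (G.inv_mem (G.pow_mem haG _))
  have e2 : a ^ n * u (σ i) * (a ^ n)⁻¹ =
      a⁻¹ * (a ^ (n + 1) * u (σ i) * (a ^ (n + 1))⁻¹) * a⁻¹⁻¹ := by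
    group
  rw [w_conj h (G.inv_mem haG) ((Zgl _).inv_mem haZ) (hmem i).1,
    ← h.w_mul (hKU _ (hs (σ i))).1 (G.inv_mem (hKU _ hs₀).1), hfix', e1, ← hTc _ _ (hu _).1,
    ← hTc _ _ (hu _).1, e2, w_conj h (G.inv_mem haG) ((Zgl _).inv_mem haZ) hc]

/-- The cone over the orbit of `x` is closed. -/
theorem w_cone (hG : Good G) (hw : w ∈ YY G) (h : Real0 G (fun g => DD (cst w) g.1) ρ x ξ)
    {c : ℕ → k} {g : ℕ → GL ν k} (hg : ∀ i, g i ∈ G) {v : Fin d → k}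
    (hv : Tendsto (fun i => c i • ρ (g i) *ᵥ x) atTop (𝓝 v)) (h0 : v ≠ 0) :
    ∃ c' : k, ∃ g' ∈ G, v = c' • ρ g' *ᵥ x := by
  obtain ⟨γ, hγ, hγ0⟩ : ∃ γ ∈ G, ξ ⬝ᵥ ρ γ *ᵥ v ≠ 0 := by
    by_contra h1
    exact h0 (h.sep v fun γ hγ => by_contra fun h2 => h1 ⟨γ, hγ, h2⟩)
  have h1 : Tendsto (fun i => c i * DD (cst w) (γ * g i).1) atTop (𝓝 (ξ ⬝ᵥ ρ γ *ᵥ v)) := by
    refine (((wL_continuous ξ (ρ γ)).tendsto v).comp hv).congr fun i => ?_
    rw [Function.comp_apply, mulVec_smul, dotProduct_smul, h.w_mul hγ (hg i),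
      h.coef _ (G.mul_mem hγ (hg i)), smul_eq_mul]
  have h2 : ∀ i, ∃ u ∈ G ⊓ Ugl (-cst w), c i * DD (cst w) (γ * g i).1 ≠ 0 →
      ρ u *ᵥ x = (c i * DD (cst w) (γ * g i).1)⁻¹ • ρ γ *ᵥ (c i • ρ (g i) *ᵥ x) := by
    intro i
    by_cases h3 : c i * DD (cst w) (γ * g i).1 = 0
    · exact ⟨1, one_mem _, fun h4 => absurd h3 h4⟩
    · obtain ⟨u, hu, z, hz, u', hu', -, e⟩ :=
        hG.cell (cst_mem hw) (G.mul_mem hγ (hg i)) (right_ne_zero_of_mul h3)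
      refine ⟨u, hu, fun _ => ?_⟩
      rw [mulVec_smul, h.w_mul hγ (hg i)]
      rw [e] at h3 ⊢
      rw [DD_lu hu.2 hu'.2] at h3 ⊢
      rw [← h.w_mul (G.mul_mem hu.1 hz.1) hu'.1, w_x_U h hu'.1 hu'.2, ← h.w_mul hu.1 hz.1,
        w_x_Z h hz.1 hz.2, mulVec_smul, smul_smul, smul_smul, mul_assoc, inv_mul_cancel₀ h3,
        one_smul]
  choose u hu eu using h2
  have h3 : Tendsto (fun i => ρ (u i) *ᵥ x) atTop (𝓝 ((ξ ⬝ᵥ ρ γ *ᵥ v)⁻¹ • ρ γ *ᵥ v)) := by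
    have h4 : Tendsto (fun i => ρ γ *ᵥ (c i • ρ (g i) *ᵥ x)) atTop (𝓝 (ρ γ *ᵥ v)) :=
      ((continuous_const.matrix_mulVec continuous_id).tendsto v).comp hv
    refine ((h1.inv₀ hγ0).smul h4).congr' ?_
    exact (h1.eventually_ne hγ0).mono fun i hi => (eu i hi).symm
  obtain ⟨c', g', hg', e⟩ := w_closed hG hw h hu h3
  refine ⟨(ξ ⬝ᵥ ρ γ *ᵥ v) * c', γ⁻¹ * g', G.mul_mem (G.inv_mem hγ) hg', ?_⟩
  rw [← h.w_mul (G.inv_mem hγ) hg', mul_smul, ← mulVec_smul, ← e, mulVec_smul,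
    h.w_mul (G.inv_mem hγ) hγ, inv_mul_cancel, h.rep.one, one_mulVec, smul_smul,
    mul_inv_cancel₀ hγ0, one_smul]

end Vec

/-- The cone over the orbit of `DD` under right translations is closed. -/
theorem Good.cone (hG : Good G) (hw : w ∈ YY G) {c : ℕ → k} {g : ℕ → GL ν k} (hg : ∀ i, g i ∈ G)
    {f : GL ν k → k}
    (hf : ∀ x ∈ G, Tendsto (fun i => c i * DD (cst w) (x * g i).1) atTop (𝓝 (f x)))
    (h0 : ∃ x ∈ G, f x ≠ 0) :
    ∃ c' : k, ∃ g' ∈ G, ∀ x ∈ G, f x = c' * DD (cst w) (x * g').1 := by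
  obtain ⟨d, ρ, x₀, ξ, h⟩ := (Reg.DD (G := G) (cst w)).exists_real
  have h1 : ∀ x ∈ G, ∀ (r : k), ∀ s ∈ G,
      ξ ⬝ᵥ ρ x *ᵥ (r • ρ s *ᵥ x₀) = r * DD (cst w) (x * s).1 := by
    intro x hx r s hs
    rw [mulVec_smul, dotProduct_smul, h.w_mul hx hs, h.coef _ (G.mul_mem hx hs), smul_eq_mul]
  obtain ⟨v, hv⟩ := w_exists_lim (l := atTop) (fun x : G => wL ξ (ρ x))
    (fun v hv => h.sep v fun g hg => hv ⟨g, hg⟩) (v := fun i => c i • ρ (g i) *ᵥ x₀)
    fun x => ⟨f x, (hf x x.2).congr fun i => (h1 x x.2 _ _ (hg i)).symm⟩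
  have h2 : ∀ x ∈ G, f x = ξ ⬝ᵥ ρ x *ᵥ v := fun x hx =>
    tendsto_nhds_unique (hf x hx) ((((wL_continuous ξ (ρ x)).tendsto v).comp hv).congr
      fun i => h1 x hx _ _ (hg i))
  have hv0 : v ≠ 0 := by
    obtain ⟨x, hx, hx0⟩ := h0
    rintro rfl
    exact hx0 (by rw [h2 x hx, mulVec_zero, dotProduct_zero])
  obtain ⟨c', g', hg', e⟩ := w_cone hG hw h hg hv hv0
  exact ⟨c', g', hg', fun x hx => by rw [h2 x hx, e, h1 x hx _ _ hg']⟩

/-- An unbounded family has a non-zero normalised limit in the cone. -/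
theorem Good.unbd (hG : Good G) (hw : w ∈ YY G) {S : Set (GL ν k)} (hS : S ⊆ G) {x₀ : GL ν k}
    (hx : x₀ ∈ G) (hb : ¬ ∃ C : ℝ, ∀ s ∈ S, ‖DD (cst w) (x₀ * s).1‖ ≤ C) :
    ∃ g ∈ G, ∀ x ∈ G, (∃ C : ℝ, ∀ s ∈ S, ‖DD (cst w) (x * s).1‖ ≤ C) →
      DD (cst w) (x * g).1 = 0 := by
  obtain ⟨d, ρ, x₁, ξ, h⟩ := (Reg.DD (G := G) (cst w)).exists_real
  have h1 : ∀ x ∈ G, ∀ s ∈ G, ξ ⬝ᵥ ρ x *ᵥ ρ s *ᵥ x₁ = DD (cst w) (x * s).1 := by
    intro x hx s hs
    rw [h.w_mul hx hs, h.coef _ (G.mul_mem hx hs)]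
  have hub : ¬ Bornology.IsBounded ((fun s => ρ s *ᵥ x₁) '' S) := by
    intro h2
    obtain ⟨R, hR⟩ := h2.exists_norm_le
    refine hb ⟨‖LinearMap.toContinuousLinearMap (wL ξ (ρ x₀))‖ * R, fun s hs => ?_⟩
    rw [← h1 x₀ hx s (hS hs)]
    exact ((LinearMap.toContinuousLinearMap (wL ξ (ρ x₀))).le_opNorm _).trans
      (mul_le_mul_of_nonneg_left (hR _ ⟨s, hs, rfl⟩) (norm_nonneg _))
  obtain ⟨X, c, L, hX, hc, hL, hlim⟩ := exists_normalise (k := k) hub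
  choose s hs es using hX
  have hlim' : Tendsto (fun i => c i • ρ (s i) *ᵥ x₁) atTop (𝓝 L) :=
    hlim.congr fun i => by rw [← es i]
  obtain ⟨c', g, hg, e⟩ := w_cone hG hw h (fun i => hS (hs i)) hlim' hL
  refine ⟨g, hg, fun x hx ⟨C, hC⟩ => ?_⟩
  have h2 : Tendsto (fun i => c i * DD (cst w) (x * s i).1) atTop (𝓝 (ξ ⬝ᵥ ρ x *ᵥ L)) := by
    refine (((wL_continuous ξ (ρ x)).tendsto L).comp hlim').congr fun i => ?_
    rw [Function.comp_apply, mulVec_smul, dotProduct_smul, h1 x hx _ (hS (hs i)), smul_eq_mul]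
  have h3 : Tendsto (fun i => c i * DD (cst w) (x * s i).1) atTop (𝓝 0) := by
    refine squeeze_zero_norm (a := fun i => ‖c i‖ * C) (fun i => ?_) ?_
    · rw [norm_mul]
      exact mul_le_mul_of_nonneg_left (hC _ (hs i)) (norm_nonneg _)
    · simpa using hc.norm.mul_const C
  have h4 := tendsto_nhds_unique h2 h3
  rw [e, mulVec_smul, dotProduct_smul, h1 x hx g hg, smul_eq_mul, mul_eq_zero] at h4
  refine h4.resolve_left fun h5 => hL ?_
  rw [e, h5, zero_smul]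

/-- A cocharacter fixes a point in the closure of every orbit. -/
theorem Good.fixed (hG : Good G) (hw : w ∈ YY G) {μ : kˣ → GL ν k} (hμ : Coch G μ)
    {g₀ : GL ν k} (hg : g₀ ∈ G) : ∃ g ∈ G, (∀ t, g⁻¹ * μ t * g ∈ QQ G (cst w)) ∧
      ∀ x ∈ G, (∃ d : ℤ, ∀ t : kˣ, ∀ z ∈ G,
        DD (cst w) (x * μ t * z).1 = (t : k) ^ d * DD (cst w) (x * z).1) →
        DD (cst w) (x * g).1 ≠ 0 → DD (cst w) (x * g₀).1 ≠ 0 := by
  classical
  obtain ⟨n, ρ, x₁, ξ, h⟩ := (Reg.DD (G := G) (cst w)).exists_real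
  obtain ⟨s, e, he, hee, hsum, -, -⟩ := h.rep.diag hμ
  have h1 : ∀ x ∈ G, ∀ z ∈ G, ξ ⬝ᵥ ρ x *ᵥ ρ z *ᵥ x₁ = DD (cst w) (x * z).1 := by
    intro x hx z hz
    rw [h.w_mul hx hz, h.coef _ (G.mul_mem hx hz)]
  obtain ⟨v₀, hv₀⟩ : ∃ v₀, v₀ = ρ g₀ *ᵥ x₁ := ⟨_, rfl⟩
  have hdec : ∑ j ∈ s, e j *ᵥ v₀ = v₀ := by rw [← sum_mulVec, hsum, one_mulVec]
  have hne : (s.filter fun j => e j *ᵥ v₀ ≠ 0).Nonempty := by
    by_contra h2
    have h3 : v₀ = 0 := by
      rw [← hdec]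
      exact Finset.sum_eq_zero fun j hj => by_contra fun h4 =>
        h2 ⟨j, Finset.mem_filter.2 ⟨hj, h4⟩⟩
    have h4 := h1 _ (G.inv_mem hg) _ hg
    rw [← hv₀, h3, mulVec_zero, dotProduct_zero, inv_mul_cancel, Units.val_one, DD_one] at h4
    exact zero_ne_one h4
  obtain ⟨d, hd, hmin⟩ := Finset.exists_min_image _ id hne
  obtain ⟨hds, hd0⟩ := Finset.mem_filter.1 hd
  have heig : ∀ j ∈ s, ∀ (t : kˣ) (v : Fin n → k),
      ρ (μ t) *ᵥ e j *ᵥ v = (t : k) ^ j • e j *ᵥ v := by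
    intro j hj t v
    rw [mulVec_mulVec, he, Finset.sum_mul, Finset.sum_eq_single j, smul_mul_assoc, hee, if_pos rfl,
      smul_mulVec]
    · intro i _ hi
      rw [smul_mul_assoc, hee, if_neg hi, smul_zero]
    · exact fun h2 => absurd hj h2
  have hp0 : (pw k : k) ≠ 0 := (pw k).ne_zero
  have hlim : Tendsto (fun l : ℕ => ((pw k : k) ^ l) ^ (-d) • ρ (μ (pw k ^ l) * g₀) *ᵥ x₁) atTop
      (𝓝 (e d *ᵥ v₀)) := by
    have h2 : ∀ l : ℕ, ((pw k : k) ^ l) ^ (-d) • ρ (μ (pw k ^ l) * g₀) *ᵥ x₁ =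
        ∑ j ∈ s, ((pw k : k) ^ l) ^ (j - d) • e j *ᵥ v₀ := by
      intro l
      rw [← h.w_mul (hμ.2 _) hg, ← hv₀, he, sum_mulVec, Finset.smul_sum]
      refine Finset.sum_congr rfl fun j _ => ?_
      rw [smul_mulVec, smul_smul, Units.val_pow_eq_pow_val, ← zpow_add₀ (pow_ne_zero l hp0),
        neg_add_eq_sub]
    have h3 : e d *ᵥ v₀ = ∑ j ∈ s, if j = d then e j *ᵥ v₀ else 0 := by
      rw [Finset.sum_ite_eq' s d, if_pos hds]
    simp only [h2]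
    rw [h3]
    refine tendsto_finsetSum _ fun j hj => ?_
    by_cases hjd : j = d
    · simp only [hjd, sub_self, zpow_zero, one_smul, if_true]
      exact tendsto_const_nhds
    · rw [if_neg hjd]
      by_cases h4 : e j *ᵥ v₀ = 0
      · simp only [h4, smul_zero]
        exact tendsto_const_nhds
      · have h5 : d ≤ j := hmin j (Finset.mem_filter.2 ⟨hj, h4⟩)
        obtain ⟨m, hm⟩ : ∃ m : ℕ, j - d = (m + 1 : ℕ) := ⟨(j - d - 1).toNat, by omega⟩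
        have h6 := ((tendsto_pow_atTop_nhds_zero_of_norm_lt_one (pw_lt (k := k))).pow
          (m + 1)).smul_const (e j *ᵥ v₀)
        rw [zero_pow m.succ_ne_zero, zero_smul] at h6
        simpa only [hm, zpow_natCast] using h6
  obtain ⟨c', g, hgG, eg⟩ := w_cone hG hw h (fun l => G.mul_mem (hμ.2 _) hg) hlim hd0
  have hc' : c' ≠ 0 := by
    rintro rfl
    exact hd0 (by rw [eg, zero_smul])
  have hge : ∀ t : kˣ, ρ (μ t) *ᵥ ρ g *ᵥ x₁ = (t : k) ^ d • ρ g *ᵥ x₁ := by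
    intro t
    have h2 := heig d hds t v₀
    rw [eg, mulVec_smul, smul_comm] at h2
    exact smul_right_injective _ hc' h2
  refine ⟨g, hgG, fun t => ⟨G.mul_mem (G.mul_mem (G.inv_mem hgG) (hμ.2 t)) hgG, (t : k) ^ d,
    zpow_ne_zero d t.ne_zero, fun x hx => ?_⟩, fun x hx ⟨d', hd'⟩ hx0 => ?_⟩
  · have hxg : x * g⁻¹ ∈ G := G.mul_mem hx (G.inv_mem hgG)
    have e1 : x * (g⁻¹ * μ t * g) = x * g⁻¹ * (μ t * g) := by group
    rw [e1, ← h1 _ hxg _ (G.mul_mem (hμ.2 t) hgG), ← h.w_mul (hμ.2 t) hgG, hge, mulVec_smul,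
      dotProduct_smul, h1 _ hxg _ hgG, inv_mul_cancel_right, smul_eq_mul]
  · have h2 : ∀ j ∈ s, ξ ⬝ᵥ ρ x *ᵥ e j *ᵥ v₀ ≠ 0 → j = d' := by
      intro j hj h3
      have h4 := h.w_left hx (hμ.2 (pw k)) (hd' (pw k)) (e j *ᵥ v₀)
      rw [heig j hj, mulVec_smul, dotProduct_smul, smul_eq_mul] at h4
      have h5 := congrArg norm (mul_right_cancel₀ h3 h4)
      rw [norm_zpow, norm_zpow] at h5
      exact zpow_right_injective₀ pw_pos pw_lt.ne h5
    have h3 : ξ ⬝ᵥ ρ x *ᵥ e d *ᵥ v₀ ≠ 0 := by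
      rw [eg, mulVec_smul, dotProduct_smul, h1 x hx g hgG, smul_eq_mul]
      exact mul_ne_zero hc' hx0
    rw [← h1 x hx g₀ hg, ← hv₀, ← hdec, mulVec_sum, dotProduct_sum, Finset.sum_eq_single d]
    · exact h3
    · intro j hj hjd
      by_contra h4
      exact hjd ((h2 j hj h4).trans (h2 d hds h3).symm)
    · exact fun h4 => absurd hds h4

end Pool.Agent.Lib.MP_60cbcc_al.H3A
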