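import Pool.Agent.Lib.MP_60cbcc_al.H3AConj
import Pool.Agent.Lib.MP_60cbcc_al.H3AW
import Pool.Agent.Lib.MP_60cbcc_al.H3AProp

/-!
Translates of the big cell cover the group; compactness; reflections.
-/

namespace Pool.Agent.Lib.MP_60cbcc_al.H3A

open Matrix Filter Topology

set_option linter.unusedSectionVars false

variable {k : Type} [NontriviallyNormedField k] [ProperSpace k] {ν : Type} [Fintype ν]
  [DecidableEq ν] {G : Subgroup (GL ν k)}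

variable {w : ν → ℤ}

theorem cov_aux (hG : Ctx G) (hw : w ∈ YY G) (hr : Regl G (cst w)) {μ : kˣ → GL ν k}
    (hμ : Coch G μ) {g : GL ν k} (hg : g ∈ G) (h : ∀ t, g⁻¹ * μ t * g ∈ QQ G (cst w)) :
    ∃ y ∈ YY G, ∃ n ∈ G, (∀ t, μ t = n * dg y t * n⁻¹) ∧ DD (cst w) (n⁻¹ * g).1 ≠ 0 := by
  obtain ⟨y, hy, κ, hκ, h1, h2⟩ := hG.good.conj_QQ hG.max hw hr (hμ.conj (G.inv_mem hg))
    (by simpa only [inv_inv] using h)
  refine ⟨y, hy, g * κ, G.mul_mem hg hκ, fun t => ?_, by simpa using h2⟩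
  rw [mul_assoc g, _root_.mul_inv_rev, ← mul_assoc, mul_assoc g, ← h1]
  group

theorem Ctx.cov (hG : Ctx G) (hw : w ∈ YY G) (hr : Regl G (cst w)) {g : GL ν k} (hg : g ∈ G) :
    ∃ n τ, IsW G n τ ∧ DD (cst w) (n * g).1 ≠ 0 := by
  obtain ⟨g₁, h1, h2, h3⟩ := hG.good.fixed hw (coch_dg hw) hg
  obtain ⟨y, -, n, hn, h4, h5⟩ := cov_aux hG hw hr (coch_dg hw) h1 h2
  obtain ⟨τ, hτ⟩ := hG.max.isW hn hr fun t => (h4 t).symm
  refine ⟨_, _, hτ.inv, h3 _ (G.inv_mem hn) ⟨?_, fun t z _ => ?_⟩ h5⟩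
  swap
  rw [h4 t, show n⁻¹ * (n * dg y t * n⁻¹) * z = dg y t * (n⁻¹ * z) by group, Units.val_mul,
    DD_zl (dg_mem_Zgl _ _ _), DD_dg]

theorem Ctx.conj_coch (hG : Ctx G) {μ : kˣ → GL ν k} (hμ : Coch G μ) :
    ∃ y ∈ YY G, ∃ g ∈ G, ∀ t, μ t = g * dg y t * g⁻¹ := by
  obtain ⟨w, hw, hr, -⟩ := exists_regl (G := G) rfl (aa G).zero_mem
  obtain ⟨g₁, h1, h2, -⟩ := hG.good.fixed hw hμ G.one_mem
  obtain ⟨y, hy, n, hn, h4, -⟩ := cov_aux hG hw hr hμ h1 h2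
  exact ⟨y, hy, n, hn, h4⟩

theorem cov_size (hG : Ctx G) (hw : w ∈ YY G) (hr : Regl G (cst w)) {α : Type} {S : Set α}
    {F : α → GL ν k} (hS : ∀ s ∈ S, F s ∈ G)
    (hb : ∀ n τ, IsW G n τ → ∃ C : ℝ, ∀ s ∈ S, ‖DD (cst w) (n * F s).1‖ ≤ C) :
    ∀ g ∈ G, ∃ C : ℝ, ∀ s ∈ S, ‖DD (cst w) (g * F s).1‖ ≤ C := fun g hg => by
  by_contra c
  obtain ⟨g', h1, h2⟩ := hG.good.unbd hw (S := F '' S) (Set.forall_mem_image.2 hS) hg
    (by simpa only [Set.forall_mem_image] using c)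
  obtain ⟨n, τ, h3, h4⟩ := hG.cov hw hr h1
  exact h4 (h2 n h3.1 (by simpa only [Set.forall_mem_image] using hb n τ h3))

theorem cov_top {y : ν → ℝ} (h : ∑ i, y i = 0) (l : ν) :
    0 ≤ ∑ i ∈ Finset.univ.filter (fun i => y l ≤ y i), y i := by
  rcases le_total 0 (y l) with c | c
  · exact Finset.sum_nonneg fun i hi => c.trans (Finset.mem_filter.1 hi).2
  · have := Finset.sum_filter_add_sum_filter_not Finset.univ (fun i => y l ≤ y i) y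
    have := Finset.sum_nonpos (s := Finset.univ.filter fun i => ¬ y l ≤ y i) (f := y)
      fun i hi => (not_le.1 (Finset.mem_filter.1 hi).2).le.trans c
    linarith

theorem cov_ne (hG : Ctx G) (hr : Regl G (cst w)) : DD (cst w) (dg w (pw k)).1 ≠ 1 := by
  have h0 := hG.good.sum_zero hr.1
  obtain ⟨l, hl⟩ : ∃ l, 0 < cst w l := by
    by_contra! c
    have h1 := (Finset.sum_eq_zero_iff_of_nonpos fun i _ => c i).1 h0
    refine hG.ne ((Submodule.eq_bot_iff _).2 fun y hy => funext fun i => ?_)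
    have h2 := hG.good.sum_zero hy
    rw [Finset.sum_congr rfl fun j _ => (rt_eq_zero G j i).1 (hr.2 j i
      ((h1 j (Finset.mem_univ _)).trans (h1 i (Finset.mem_univ _)).symm)) y hy] at h2
    have := Fintype.card_pos_iff.2 ⟨i⟩
    simpa [this.ne'] using h2
  rw [DD_dg]
  intro c
  have h1 := congrArg norm c
  rw [norm_zpow, norm_one, zpow_eq_one_iff_right₀ pw_pos.le pw_lt.ne] at h1
  have h2 := congrArg (Int.cast : ℤ → ℝ) h1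
  push_cast at h2
  refine (Finset.sum_pos' (fun l _ => cov_top h0 l) ⟨l, Finset.mem_univ _, Finset.sum_pos'
    (fun i hi => hl.le.trans (Finset.mem_filter.1 hi).2) ⟨l, by simp, hl⟩⟩).ne' h2

theorem Ctx.size (hG : Ctx G) (hw : w ∈ YY G) (hr : Regl G (cst w)) {S : Set (GL ν k)}
    (hS : S ⊆ G) (hb : ∀ n τ n' τ', IsW G n τ → IsW G n' τ' →
      ∃ C : ℝ, ∀ s ∈ S, ‖DD (cst w) (n * s * n').1‖ ≤ C) : Bd S := by
  have e : ∀ a b : GL ν k, DD (cst w) (a * trU b).1 = DD (cst w) (b * trU a).1 := fun a b => by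
    rw [← DD_transpose, ← trU_val, trU_mul, trU_trU]
  obtain ⟨d, ρ, x, ξ, h⟩ := (Reg.DD (G := G) (cst w)).exists_real
  refine hG.good.proper h.rep ⟨_, hw (pw k), fun c => cov_ne hG hr ?_⟩ hS
    (h.bd hS fun g hg g' hg' => ?_)
  · have := h.coef 1 G.one_mem
    rw [← h.coef _ (hw _), c, ← h.rep.one, this]
    exact DD_one
  · have := cov_size hG.tr (YY_tr (G := G) ▸ hw) (S := S) (F := fun s => trU (g * s))
      (by rwa [Regl, aa_tr, rt_tr]) (fun s hs => G.mul_mem hg (hS hs)) (fun n τ hn => by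
        simpa only [e, mul_assoc] using cov_size hG hw hr (S := S) (F := fun s => s * trU n)
          (fun s hs => G.mul_mem (hS hs) hn.1)
          (fun n' τ' hn' => by simpa only [mul_assoc] using hb n' τ' _ _ hn' hn.of_tr) g hg)
      (trU g') hg'
    exact this.imp fun C h s hs => (congrArg norm (e (trU g') (g * s))).ge.trans (h s hs)

theorem Ctx.compact_M1 (hG : Ctx G) : IsCompact (M1 G) := by
  obtain ⟨w, hw, hr, -⟩ := exists_regl (G := G) rfl (aa G).zero_mem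
  obtain ⟨K, h1, h2, -⟩ := (hG.size hw hr (S := M1 G) (fun _ h => h.1) fun n τ n' τ' hn _ =>
    ⟨‖DD (cst w) (n * n').1‖, fun m hm => by
      have a := hn.conj_Mgl hm.2.1
      rw [show n * m * n' = n * m * n⁻¹ * (n * n') by group, Units.val_mul,
        DD_zl (Mgl_le_Zgl hr.1 a), norm_mul,
        norm_DD_of_vv hr.1 a (by rw [hn.vv hm.2.1, hm.2.2]; rfl), one_mul]⟩).exists_compact
    hG.good.isClosed hG.good.det fun _ h => h.1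
  exact h1.of_isClosed_subset (isClosed_M1 hG.good.isClosed) h2

/-- Elements of the cell of a reflection. -/
def CovBr (G : Subgroup (GL ν k)) (γ : ν → ℝ) (r : GL ν k) : Prop :=
  ∃ n τ, IsW G n τ ∧ Refl G γ τ ∧ ∃ u ∈ G ⊓ Rgl G γ, ∃ u' ∈ G ⊓ Rgl G γ, r = u * n * u'

theorem CovBr.conj {γ : ν → ℝ} {r n : GL ν k} {τ : Equiv.Perm ν} (h : CovBr G γ r)
    (hn : IsW G n τ) : CovBr G (γ ∘ τ) (n * r * n⁻¹) := by
  obtain ⟨m, σ, h1, h2, u, hu, u', hu', rfl⟩ := h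
  have a := fun x (hx : x ∈ G ⊓ Rgl G γ) => show n * x * n⁻¹ ∈ G ⊓ Rgl G (γ ∘ τ) from
    ⟨G.mul_mem (G.mul_mem hn.1 hx.1) (G.inv_mem hn.1), hn.conj_Rgl hx.2⟩
  exact ⟨_, _, (hn.mul h1).mul hn.inv, mul_assoc τ⁻¹ σ τ ▸ h2.conj hn, _, a u hu, _, a u' hu',
    by group⟩

theorem cov_class {y z : ν → ℝ} (hy : Regl G y) (hz : z ∈ aa G) (i j : ν) (h : y i = y j) :
    z i = z j := (rt_eq_zero G i j).1 (hy.2 i j h) z hz

theorem cov_br (hG : Ctx G) {y γ : ν → ℝ} (hy : Regl G y) (hγ : γ ∈ aa G) (h0 : 0 < γ ⬝ᵥ y)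
    {r n : GL ν k} {τ : Equiv.Perm ν} (hr : r ∈ G) (hr' : r ∈ Rgl G (-γ)) (hn : IsW G n τ)
    (hn' : n ∉ Mgl G) (h : DD y (n * r).1 ≠ 0) : CovBr G γ r := by
  obtain ⟨u, hu, z, hz, u', hu', -, e⟩ := hG.good.cell hy.1 (G.mul_mem hn.1 hr) h
  have a : ∀ x ∈ aa G, γ ⬝ᵥ x = 0 → Sup (fun i j => x (τ i) = x j) (n * r).1 := fun x hx c =>
    Sup.mul (R' := fun i j => x i = x j) (fun _ _ _ => Eq.trans) (hn.2 x hx).2
      (mem_Zgl.1 (Rgl_le_Zgl hx (by rw [neg_dotProduct, c, neg_zero]) hr'))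
  have b : ∀ x ∈ aa G, γ ⬝ᵥ x = 0 → x ∘ τ = x := fun x hx c =>
    act_of_DD h (cov_class hy hx) (cov_class hy (hn.2 x hx).1) (a x hx c)
  have c : ∀ x ∈ aa G, γ ⬝ᵥ x = 0 → u ∈ Zgl x ∧ z ∈ Zgl x ∧ u' ∈ Zgl x := fun x hx c =>
    lu_Grp hu.2 hz.2 hu'.2 (e ▸ mem_Zgl.2 fun i j d => (congrFun (b x hx c) i).symm.trans
      (a x hx c i j d))
  have d := (hn.refl hγ b hn').inv hγ
  have f := hn.inv.conj_Rgl (mem_Rgl_of (neg_mem hγ) (neg_mem hy.1) (by simpa using h0) hu.2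
    fun x hx e => (c x hx (by simpa using e)).1)
  rw [show (-γ) ∘ ⇑τ⁻¹ = -(γ ∘ ⇑τ⁻¹) from rfl, d.self hγ (by rintro rfl; simp at h0),
    neg_neg] at f
  refine ⟨_, _, hn.inv.mul (isW_of_Mgl hz.1 (hy.Zgl ▸ hz.2)), by rwa [one_mul], _,
    ⟨G.mul_mem (G.mul_mem hn.inv.1 hu.1) hn.inv.inv.1, f⟩, u',
    ⟨hu'.1, mem_Rgl_of hγ hy.1 h0 hu'.2 fun x hx e => (c x hx e).2.2⟩, ?_⟩
  rw [← inv_mul_cancel_left n r, e]
  group

/-- The Bruhat decomposition in rank one. -/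
theorem Ctx.bruhat (hG : Ctx G) {γ : ν → ℝ} (h0 : γ ≠ 0) {r : GL ν k} (hr : r ∈ G)
    (hr' : r ∈ Rgl G (-γ)) (h1 : r ≠ 1) : ∃ n τ, IsW G n τ ∧ Refl G γ τ ∧
      ∃ u ∈ G ⊓ Rgl G γ, ∃ u' ∈ G ⊓ Rgl G γ, r = u * n * u' := by
  have hγ := (mem_aa_of_Rgl hr' h1).1
  obtain ⟨v, hv, hp, -⟩ := rat_diff (YY G) hγ
  obtain ⟨w, hw, hw', -⟩ := exists_regl (G := G) rfl (aa G).zero_mem
  have a : ∀ l : ℕ, IsW G (dg (-v) (pw k) ^ l) 1 := fun l =>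
    isW_of_Mgl (pow_mem (neg_mem hv (pw k)) l) (pow_mem (dg_mem_Mgl _ _) l)
  have := mt (hG.size hw hw' (S := Set.range fun l : ℕ =>
    dg (-v) (pw k) ^ l * r * (dg (-v) (pw k) ^ l)⁻¹) (Set.forall_mem_range.2 fun l =>
      G.mul_mem (G.mul_mem (a l).1 hr) (a l).inv.1)) fun c => h1 (Ugl_inf_Pgl (hp.Ugl (k := k) ▸
        Rgl_le_Ugl hγ (lt_of_le_of_ne (dotProduct_self_star_nonneg _) fun e =>
          h0 (neg_eq_zero.1 (dotProduct_self_eq_zero.1 e.symm))) hr')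
        (cst_neg v ▸ mem_Pgl_of_bd c))
  push Not at this
  obtain ⟨n, τ, n', τ', hn, hn', h⟩ := this
  simp only [Set.exists_range_iff] at h
  obtain ⟨s, hs⟩ : ∃ s : ℕ → GL ν k, ∀ l, s l = n'⁻¹ * (dg (-v) (pw k) ^ l * r *
    (dg (-v) (pw k) ^ l)⁻¹) * n'⁻¹⁻¹ := ⟨_, fun _ => rfl⟩
  have s1 : ∀ l, s l ∈ G := fun l => hs l ▸
    G.mul_mem (G.mul_mem hn'.inv.1 (G.mul_mem (G.mul_mem (a l).1 hr) (a l).inv.1)) hn'.inv.inv.1
  have s2 : ∀ l, s l ∈ Rgl G (-(γ ∘ ⇑τ'⁻¹)) := fun l =>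
    hs l ▸ hn'.inv.conj_Rgl ((a l).conj_Rgl hr')
  replace h : ∀ C : ℝ, ∃ l, C < ‖DD (cst w) (n * n' * s l).1‖ := fun C => (h C).imp fun l e => by
    rwa [hs, inv_inv, ← mul_assoc, ← mul_assoc (n * n'), mul_inv_cancel_right]
  have h2 : 0 < (γ ∘ ⇑τ'⁻¹) ⬝ᵥ cst w := by
    by_contra! c
    rcases c.eq_or_lt with c | c
    · obtain ⟨-, i, j, t, ht, e⟩ := mem_aa_of_Rgl (s2 0) fun e => h1 (by simpa [hs, mul_assoc, inv_mul_eq_one] using e)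
      refine hw'.ne_zero (i := i) (j := j) (fun d => h0 (funext fun i => ?_)) (by rw [e, smul_dotProduct, neg_dotProduct, c, neg_zero, smul_zero])
      simpa [ht.ne'] using congrFun (e.symm.trans d) (τ' i)
    · obtain ⟨l, hl⟩ := h ‖DD (cst w) (n * n').1‖
      rw [Units.val_mul _ (s l), DD_right (Rgl_le_Ugl hw'.1 (by simpa using c) (s2 l))] at hl
      exact hl.false
  obtain ⟨l, hl⟩ := h 0
  have := ((cov_br hG hw' (hn'.inv.2 γ (neg_mem_iff.1 hγ)).1 h2 (s1 l) (s2 l) (hn.mul hn')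
    (fun c => ?_) (norm_pos_iff.1 hl)).conj hn').conj (a l).inv
  · rw [hs, show ((γ ∘ ⇑τ'⁻¹) ∘ τ') ∘ ⇑(1 : Equiv.Perm ν)⁻¹ = γ from funext fun i => by simp] at this
    change CovBr G γ r
    simpa only [mul_assoc, inv_inv, mul_inv_cancel_left, inv_mul_cancel_left, mul_inv_cancel,
      inv_mul_cancel, mul_one] using this
  · obtain ⟨l, hl⟩ := h ‖DD (cst w) (n * n').1‖
    rw [Units.val_mul _ (s l), DD_zl (Mgl_le_Zgl hw'.1 c),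
      DD_of_Ugl (Rgl_le_Ugl (neg_mem hw'.1) (by simpa using h2) (s2 l)), mul_one] at hl
    exact hl.false

theorem Ctx.exists_refl (hG : Ctx G) {γ : ν → ℝ} (hγ : γ ∈ Rts G) {J : Subgroup (GL ν k)}
    (h1 : G ⊓ Rgl G γ ≤ J) (h2 : G ⊓ Rgl G (-γ) ≤ J) :
    ∃ n ∈ J, ∃ τ, IsW G n τ ∧ Refl G γ τ := by
  obtain ⟨r, hr, hr', r1⟩ := hG.good.exists_Rgl hγ
  obtain ⟨n, τ, hn, hτ, u, hu, u', hu', e⟩ :=
    hG.bruhat (neg_ne_zero.2 hγ.1) hr (by rwa [neg_neg]) r1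
  refine ⟨n, ?_, τ, hn, by simpa using hτ.smul (neg_ne_zero.2 one_ne_zero)⟩
  rw [show n = u⁻¹ * r * u'⁻¹ by rw [e]; group]
  exact J.mul_mem (J.mul_mem (J.inv_mem (h2 hu)) (h1 ⟨hr, hr'⟩)) (J.inv_mem (h2 hu'))

theorem Ctx.neg_mem (hG : Ctx G) {γ : ν → ℝ} (hγ : γ ∈ Rts G) : -γ ∈ Rts G := by
  obtain ⟨n, -, τ, hn, hτ⟩ := hG.exists_refl hγ (J := ⊤) le_top le_top
  exact hτ.self (Rts_mem hγ) hγ.1 ▸ hn.Rts hγ

/-- The stabiliser of a chamber acts trivially. -/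
theorem Ctx.simply (hG : Ctx G) {n : GL ν k} {τ : Equiv.Perm ν} (hn : IsW G n τ) {y : ν → ℝ}
    (hy : y ∈ aa G) (hr : ∀ γ ∈ Rts G, γ ⬝ᵥ y ≠ 0)
    (h : ∀ γ ∈ Rts G, 0 < γ ⬝ᵥ y → 0 < γ ⬝ᵥ (y ∘ τ)) : ∀ z ∈ aa G, z ∘ τ = z := by
  obtain ⟨w, hw, hw', h1⟩ := exists_regl (G := G) rfl hy
  have a : ∀ γ ∈ Rts G, 0 < γ ⬝ᵥ y ↔ 0 < γ ⬝ᵥ cst w := fun γ hγ => by
    have := hr γ hγ
    obtain ⟨-, i, j, rfl, -⟩ := hγ
    rw [rt_dot G i j hy] at this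
    rw [rt_dot G i j hy, rt_dot G i j hw'.1, sub_pos, sub_pos]
    exact ⟨fun c => Int.cast_lt.2 (h1 _ _ c), fun c => (lt_or_gt_of_ne (sub_ne_zero.1 this)).resolve_left
      fun d => (h1 _ _ d).not_gt (Int.cast_lt.1 c)⟩
  have b : ∀ γ x : ν → ℝ, γ ⬝ᵥ (x ∘ τ) = (γ ∘ ⇑τ⁻¹) ⬝ᵥ x := fun γ x => by
    rw [← dot_comp _ _ τ⁻¹]
    congr 1
    exact funext fun i => by simp
  have c := hG.good.U_le hw'.1 (hn.Regl hw') fun γ hγ e => by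
    rw [b, ← a _ (hn.inv.Rts hγ), ← b]
    exact h γ hγ ((a γ hγ).2 e)
  have d : DD (cst w) n.1 ≠ 0 := fun d => by
    rcases hG.good.prime ((Reg.DD (cst w)).transl G.one_mem hn.1) (Reg.DD (cst w)) (fun g hg => by
      refine mul_eq_zero.2 ((em _).symm.imp_left fun e => ?_)
      obtain ⟨u, hu, z, hz, u', hu', -, rfl⟩ := hG.good.cell hw'.1 hg e
      have f := hn.inv.conj_Ugl (hn.2 _ hw'.1).1 (c hu')
      rw [show (cst w ∘ τ) ∘ ⇑τ⁻¹ = cst w from funext fun i => by simp] at f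
      rw [show 1 * (u * z * u') * n = u * (z * n) * (n⁻¹ * u' * n⁻¹⁻¹) by group, DD_lu hu.2 f,
        Units.val_mul, DD_zl hz.2, d, mul_zero]) with e | e
    · simpa [DD_one] using e _ hn.inv.1
    · simpa [DD_one] using e _ G.one_mem
  exact fun z hz => act_of_DD d (cov_class hw' hz) (cov_class hw' (hn.2 z hz).1) (hn.2 z hz).2

end Pool.Agent.Lib.MP_60cbcc_al.H3A
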