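import Mathlib

/-!
Almost simple linear algebraic groups, their rational points and their rank.
-/

namespace Pool.Agent.Lib.MP_60cbcc_al.H3A

open MvPolynomial

variable (k : Type) [Field k] {K : Type} [Field K] [Algebra k K] {ν : Type} [Fintype ν]
  [DecidableEq ν]

/-- The entries of an invertible matrix, as a point of affine space. -/
def coords (g : GL ν K) : ν × ν → K := fun ij => g.1 ij.1 ij.2

/-- Subgroups of the general linear group cut out by polynomials with coefficients in `k`. -/
def IsKClosed (N : Subgroup (GL ν K)) : Prop :=
  ∃ I : Ideal (MvPolynomial (ν × ν) k), ∀ g, g ∈ N ↔ coords g ∈ zeroLocus K I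

/-- Almost `k`-simple algebraic `k`-groups: Zariski closed subgroups of the general linear group
over the algebraic closure whose ideal is generated by polynomials over `k`, that are connected
and not commutative, and all of whose proper `k`-closed normal subgroups are finite. -/
structure IsAlmostSimple (G : Subgroup (GL ν (AlgebraicClosure k))) : Prop where
  closed : IsKClosed k G
  defined : vanishingIdeal (AlgebraicClosure k) (coords '' (G : Set (GL ν (AlgebraicClosure k)))) =
    (vanishingIdeal k (coords '' (G : Set (GL ν (AlgebraicClosure k))))).map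
      (MvPolynomial.map (algebraMap k (AlgebraicClosure k)))
  connected :
    (vanishingIdeal (AlgebraicClosure k) (coords '' (G : Set (GL ν (AlgebraicClosure k))))).IsPrime
  noncomm : ∃ x ∈ G, ∃ y ∈ G, x * y ≠ y * x
  simple : ∀ N ≤ G, (∀ g ∈ G, ∀ x ∈ N, g * x * g⁻¹ ∈ N) → IsKClosed k N → Finite N ∨ N = G

/-- The group of `k`-points. -/
def points (G : Subgroup (GL ν K)) : Subgroup (GL ν k) :=
  G.comap (Matrix.GeneralLinearGroup.map (algebraMap k K))

/-- `H` contains the points of a split torus of dimension `r`: after conjugation by `h` it contains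
the diagonal one-parameter groups given by `r` independent integer vectors. -/
def HasSplitTorus (H : Subgroup (GL ν k)) (r : ℕ) : Prop :=
  ∃ (h : GL ν k) (y : Fin r → ν → ℤ), LinearIndependent ℤ y ∧
    ∀ j (t : kˣ), ∃ g ∈ H, g.1 * h.1 = h.1 * Matrix.diagonal fun i => (t : k) ^ y j i

/-- The rank: the largest dimension of a split torus. -/
noncomputable def splitRank (H : Subgroup (GL ν k)) : ℕ :=
  sSup {r | HasSplitTorus k H r}

end Pool.Agent.Lib.MP_60cbcc_al.H3A
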