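import Pool.Agent.Lib.MP_60cbcc_al.H3ATor

/-!
Example: the special linear groups.
-/

namespace Pool.Agent.Lib.MP_60cbcc_al.H3A

open Matrix

/-- The special linear group as a subgroup of the general linear group. -/
abbrev slK (n : ℕ) (K : Type) [Field K] : Subgroup (GL (Fin n) K) :=
  (Matrix.GeneralLinearGroup.det : GL (Fin n) K →* Kˣ).ker

section ExGroup

open Matrix.SpecialLinearGroup

open scoped LinearAlgebra.Projectivization commutatorElement

variable {ι K : Type} [Fintype ι] [DecidableEq ι] [Field K]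

theorem Ex_diag (g : SpecialLinearGroup ι K) (d : ι → K) (hg : g.1 = diagonal d)
    {p q : ι} (hpq : p ≠ q) {x y : K} (h : d p * x = y * d q) :
    g * SpecialLinearGroup.transvection hpq x = SpecialLinearGroup.transvection hpq y * g :=
  Subtype.ext <| by
    have : diagonal d * single p q x = single p q y * diagonal d := by
      ext a b
      simp only [diagonal_mul, mul_diagonal, single_apply]
      split_ifs with hh
      · obtain ⟨rfl, rfl⟩ := hh
        exact h
      · simp
    simp [transvection_coe, mul_add, add_mul, hg, this]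

theorem Ex_diag2n {i j : ι} (hij : i ≠ j) (a : K) (ha : a ≠ 0) :
    diag2n hij a ha = SpecialLinearGroup.transvection hij a *
      SpecialLinearGroup.transvection hij.symm (-a⁻¹) * SpecialLinearGroup.transvection hij a *
      SpecialLinearGroup.transvection hij (-1) * SpecialLinearGroup.transvection hij.symm 1 *
      SpecialLinearGroup.transvection hij (-1) :=
  Subtype.ext <| by
    have e : (diag2n hij a ha).1 = 1 + single i i (a - 1) + single j j (a⁻¹ - 1) := by
      ext p q
      simp only [diag2n_coe, diagonal_apply, Matrix.add_apply, Matrix.one_apply, single_apply]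
      split_ifs <;> grind
    rw [e]
    simp [transvection_coe, mul_add, add_mul, single_mul_single_of_ne _ _ _ _ hij,
      single_mul_single_of_ne _ _ _ _ hij.symm, mul_inv_cancel₀ ha, inv_mul_cancel₀ ha]
    ext p q
    simp only [Matrix.add_apply, Matrix.one_apply, single_apply]
    split_ifs <;> grind

theorem Ex_ind [Nontrivial ι] (P : SpecialLinearGroup ι K → Prop)
    (ht : ∀ (i j : ι) (h : i ≠ j) (c : K), P (SpecialLinearGroup.transvection h c))
    (hm : ∀ A B, P A → P B → P (A * B)) (A : SpecialLinearGroup ι K) : P A := by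
  refine diagonal_transvection_induction' P A (fun i j hij c hc => ?_) ht hm
  rw [Ex_diag2n]
  exact hm _ _ (hm _ _ (hm _ _ (hm _ _ (hm _ _ (ht ..) (ht ..)) (ht ..)) (ht ..)) (ht ..)) (ht ..)

theorem Ex_perfect [Nontrivial ι] [Infinite K] : commutator (SpecialLinearGroup ι K) = ⊤ := by
  classical
  obtain ⟨a, ha⟩ := Infinite.exists_notMem_finset ({0, 1, -1} : Finset K)
  simp only [Finset.mem_insert, Finset.mem_singleton, not_or] at ha
  have h1 : a * a - 1 ≠ 0 := fun h =>
    (mul_self_eq_one_iff.1 (sub_eq_zero.1 h)).elim ha.2.1 ha.2.2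
  refine le_antisymm le_top fun A _ => Ex_ind _ (fun i j hij c => ?_) (fun _ _ => mul_mem) A
  have h2 := Ex_diag (diag2n hij a ha.1) _ (diag2n_coe hij a ha.1) hij
    (x := c / (a * a - 1)) (y := c + c / (a * a - 1)) (by
      simp only [if_true, if_neg hij.symm]
      rw [eq_mul_inv_iff_mul_eq₀ ha.1, ← sub_eq_iff_eq_add, mul_right_comm, ← sub_one_mul,
        mul_div_cancel₀ _ h1])
  have h3 : SpecialLinearGroup.transvection hij c =
      ⁅diag2n hij a ha.1, SpecialLinearGroup.transvection hij (c / (a * a - 1))⁆ := by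
    rw [commutatorElement_def, h2, mul_inv_cancel_right, transvection_add, mul_inv_cancel_right]
  rw [h3]
  exact Subgroup.commutator_mem_commutator (Subgroup.mem_top _) (Subgroup.mem_top _)

/-- The Iwasawa structure given by the transvections with a fixed direction. -/
noncomputable def ExIw [Nontrivial ι] :
    MulAction.IwasawaStructure (SpecialLinearGroup ι K) (ℙ K (ι → K)) where
  T p := lineStab p.submodule
  is_comm p := by
    rw [← Projectivization.mk_rep p, Projectivization.submodule_mk]
    exact lineStab_isMulCommutative_of_span p.rep p.rep_nonzero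
  is_conj g p := by rw [PSL.smul_submodule, lineStab_smul]
  is_generator := by
    refine le_antisymm le_top fun A _ => Ex_ind _ (fun i j hij c => ?_) (fun _ _ => mul_mem) A
    refine Subgroup.mem_iSup_of_mem (Projectivization.mk K (Pi.single i 1)
      (Pi.single_ne_zero_iff.2 one_ne_zero)) ?_
    rw [Projectivization.submodule_mk]
    exact SL2Gen.transvection_mem_lineStab hij c

theorem Ex_normal [Nontrivial ι] [Infinite K] (N : Subgroup (SpecialLinearGroup ι K))
    [N.Normal] : Finite N ∨ N = ⊤ := by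
  by_cases h : MulAction.fixedPoints N (ℙ K (ι → K)) = Set.univ
  · have h1 : N ≤ Subgroup.center (SpecialLinearGroup ι K) := fun g hg => by
      rw [← Projectivization.SL_mulAction_ker]
      exact Equiv.ext fun x => Set.eq_univ_iff_forall.1 h x ⟨g, hg⟩
    have h2 : Finite (Subgroup.center (SpecialLinearGroup ι K)) :=
      Finite.of_equiv _ (center_equiv_rootsOfUnity' (Classical.arbitrary ι)).toEquiv.symm
    exact Or.inl (Finite.of_injective _ (Subgroup.inclusion_injective h1))
  · exact Or.inr (top_le_iff.1 (Ex_perfect.ge.trans (ExIw.commutator_le N h)))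

end ExGroup

section ExIdeal

open MvPolynomial Matrix.SpecialLinearGroup

variable {K : Type} [Field K] {n : ℕ}

theorem Ex_mem {g : GL (Fin n) K} : g ∈ slK n K ↔ g.1.det = 1 := by
  rw [MonoidHom.mem_ker, Units.ext_iff]
  rfl

theorem Ex_toGL (g : SpecialLinearGroup (Fin n) K) : toGL g ∈ slK n K := Ex_mem.2 g.2

theorem Ex_lift {g : GL (Fin n) K} (hg : g ∈ slK n K) :
    ∃ s : SpecialLinearGroup (Fin n) K, toGL s = g := ⟨⟨g.1, Ex_mem.1 hg⟩, Units.ext rfl⟩

/-- Every element lies with the identity in a polynomial family defined over the small field. -/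
theorem Ex_par (k : Type) [Field k] [Algebra k K] (g : SpecialLinearGroup (Fin (n + 2)) K) :
    ∃ E : Matrix (Fin (n + 2)) (Fin (n + 2)) (MvPolynomial K k), E.det = 1 ∧
      (aeval (id : K → K)).mapMatrix E = g.1 ∧ (aeval (0 : K → K)).mapMatrix E = 1 := by
  induction g using Ex_ind with
  | ht i j h c =>
    refine ⟨Matrix.transvection i j (X c), det_transvection_of_ne i j h _, ?_, ?_⟩
    · rw [Matrix.transvection, map_add, map_one, transvection_coe, AlgHom.mapMatrix_apply,
        map_single, aeval_X, id]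
    · rw [Matrix.transvection, map_add, map_one, AlgHom.mapMatrix_apply, map_single, aeval_X,
        Pi.zero_apply, single_zero, add_zero]
  | hm A B hA hB =>
    obtain ⟨E, h1, h2, h3⟩ := hA
    obtain ⟨F, h4, h5, h6⟩ := hB
    exact ⟨E * F, by rw [det_mul, h1, h4, mul_one], by rw [map_mul, h2, h5]; rfl,
      by rw [map_mul, h3, h6, mul_one]⟩

theorem Ex_pt (k : Type) [Field k] [Algebra k K] {σ : Type}
    {E : Matrix (Fin n) (Fin n) (MvPolynomial σ k)} (hE : E.det = 1) (x : σ → K) :
    (fun ij : Fin n × Fin n => aeval x (E ij.1 ij.2)) ∈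
      coords '' (slK n K : Set (GL (Fin n) K)) :=
  ⟨toGL ⟨(aeval x).mapMatrix E, by rw [← AlgHom.map_det, hE, map_one]⟩, Ex_toGL _, rfl⟩

theorem Ex_prime [Infinite K] :
    (vanishingIdeal K (coords '' (slK (n + 2) K : Set (GL (Fin (n + 2)) K)))).IsPrime := by
  refine ⟨fun h => ?_, fun {p q} h => ?_⟩
  · have := (Ideal.eq_top_iff_one _).1 h _ ⟨1, one_mem _, rfl⟩
    simp at this
  by_contra hn
  simp only [mem_vanishingIdeal_iff, Set.forall_mem_image, not_or, not_forall] at hn
  obtain ⟨⟨g, hg, hp⟩, g', hg', hq⟩ := hn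
  obtain ⟨E, h1, h2, h3⟩ := Ex_par K (⟨(g⁻¹ * g').1, Ex_mem.1 (mul_mem (inv_mem hg) hg')⟩ :
    SpecialLinearGroup (Fin (n + 2)) K)
  set F := (C : K →+* MvPolynomial K K).mapMatrix g.1 * E with hF
  have h4 : F.det = 1 := by
    rw [hF, det_mul, ← RingHom.map_det, Ex_mem.1 hg, h1, map_one, mul_one]
  have h5 : ∀ x : K → K, (aeval x).mapMatrix F = g.1 * (aeval x).mapMatrix E := fun x => by
    rw [hF, map_mul]
    congr 1
    ext i j
    simp
  have h6 : ∀ (x : K → K) (c : GL (Fin (n + 2)) K), g.1 * (aeval x).mapMatrix E = c.1 →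
      ∀ r : MvPolynomial (Fin (n + 2) × Fin (n + 2)) K,
        aeval x (bind₁ (fun ij => F ij.1 ij.2) r) = aeval (coords c) r := fun x c hc r => by
    rw [aeval_bind₁]
    congr 2
    funext ij
    exact congrFun (congrFun ((h5 x).trans hc) ij.1) ij.2
  have h7 : bind₁ (fun ij => F ij.1 ij.2) p * bind₁ (fun ij => F ij.1 ij.2) q = 0 := by
    refine MvPolynomial.funext fun x => ?_
    change aeval x _ = aeval x 0
    rw [← map_mul, aeval_bind₁, map_zero]
    exact h _ (Ex_pt K h4 x)
  rcases mul_eq_zero.1 h7 with h8 | h8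
  · exact hp (by rw [← h6 0 g (by rw [h3, mul_one]), h8, map_zero])
  · exact hq (by rw [← h6 id g' (by rw [h2, ← Units.val_mul, mul_inv_cancel_left]), h8, map_zero])

theorem Ex_split {k J σ : Type} [Field k] [Algebra k K] {b : J → K} (hb : LinearIndependent k b)
    {T : Finset J} {r : J → MvPolynomial σ k}
    (h : ∑ i ∈ T, C (b i) * MvPolynomial.map (algebraMap k K) (r i) = 0) {i : J} (hi : i ∈ T) :
    r i = 0 := by
  ext m
  rw [coeff_zero]
  refine linearIndependent_iff'.1 hb T (fun i => coeff m (r i)) ?_ i hi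
  have h1 := congrArg (coeff m) h
  rw [coeff_sum, coeff_zero] at h1
  rw [← h1]
  exact Finset.sum_congr rfl fun i _ => by rw [coeff_C_mul, coeff_map, Algebra.smul_def, mul_comm]

theorem Ex_defined (k : Type) [Field k] [Algebra k K] [Infinite K] :
    vanishingIdeal K (coords '' (slK (n + 2) K : Set (GL (Fin (n + 2)) K))) =
      (vanishingIdeal k (coords '' (slK (n + 2) K : Set (GL (Fin (n + 2)) K)))).map
        (MvPolynomial.map (algebraMap k K)) := by
  refine le_antisymm (fun q hq => ?_) (Ideal.map_le_iff_le_comap.2 fun p hp x hx => ?_)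
  swap
  · rw [aeval_map_algebraMap]
    exact hp x hx
  obtain ⟨T, p, hp⟩ := Alg.exists_split (k := k) q
  have h1 : q = ∑ i ∈ T, C (Module.Basis.ofVectorSpace k K i) *
      MvPolynomial.map (algebraMap k K) (p i) := by
    refine MvPolynomial.funext fun x => ?_
    change aeval x _ = aeval x _
    simp only [hp, map_sum, map_mul, aeval_C, aeval_map_algebraMap]
    rfl
  rw [h1]
  refine Ideal.sum_mem _ fun i hi => Ideal.mul_mem_left _ _ (Ideal.mem_map_of_mem _ ?_)
  rintro _ ⟨g, hg, rfl⟩
  obtain ⟨E, h2, h3, -⟩ := Ex_par k (⟨g.1, Ex_mem.1 hg⟩ : SpecialLinearGroup (Fin (n + 2)) K)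
  have h4 : ∑ i ∈ T, C (Module.Basis.ofVectorSpace k K i) *
      MvPolynomial.map (algebraMap k K) (bind₁ (fun ij => E ij.1 ij.2) (p i)) = 0 := by
    refine MvPolynomial.funext fun x => ?_
    change aeval x _ = aeval x 0
    simp only [map_sum, map_mul, aeval_C, aeval_map_algebraMap, aeval_bind₁, map_zero]
    exact (hp _).symm.trans (hq _ (Ex_pt k h2 x))
  have h5 := Ex_split (Module.Basis.ofVectorSpace k K).linearIndependent h4 hi
  have h7 := congrArg (aeval (id : K → K)) h5
  rw [aeval_bind₁, map_zero] at h7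
  rw [← h7]
  congr 2
  funext ij
  exact (congrFun (congrFun h3 ij.1) ij.2).symm

end ExIdeal

open MvPolynomial Matrix.SpecialLinearGroup in
theorem sl_almostSimple (k : Type) [Field k] (n : ℕ) :
    IsAlmostSimple k (slK (n + 2) (AlgebraicClosure k)) := by
  refine ⟨⟨Ideal.span {(Matrix.of fun i j => X (i, j)).det - 1}, fun g => ?_⟩, Ex_defined k,
    Ex_prime, ?_, fun N hN hn _ => ?_⟩
  · rw [Ex_mem, zeroLocus_span]
    simp only [Set.mem_ofPred_eq, Set.mem_singleton_iff, forall_eq, map_sub, map_one, sub_eq_zero]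
    rw [AlgHom.map_det]
    refine Eq.congr_left (congrArg Matrix.det (Matrix.ext fun i j => ?_))
    simp [coords]
  · have h01 : (0 : Fin (n + 2)) ≠ 1 := zero_ne_one
    refine ⟨_, Ex_toGL (SpecialLinearGroup.transvection h01 1), _,
      Ex_toGL (SpecialLinearGroup.transvection h01.symm 1), fun h => ?_⟩
    have := congrArg (fun g : GL (Fin (n + 2)) (AlgebraicClosure k) => g.1 0 0) h
    simp [transvection_coe, mul_add, add_mul] at this
  · have : (N.comap toGL).Normal := ⟨fun x hx g => by
      rw [Subgroup.mem_comap, map_mul, map_mul, map_inv]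
      exact hn _ (Ex_toGL g) _ hx⟩
    refine (Ex_normal (N.comap toGL)).imp (fun h => ?_) fun h => le_antisymm hN fun g hg => ?_
    · refine @Finite.of_surjective _ _ h (fun x => (⟨toGL x.1, x.2⟩ : N)) ?_
      rintro ⟨x, hx⟩
      obtain ⟨s, rfl⟩ := Ex_lift (hN hx)
      exact ⟨⟨s, hx⟩, rfl⟩
    · obtain ⟨s, rfl⟩ := Ex_lift hg
      exact h.ge (Subgroup.mem_top s)

theorem sl_points (k : Type) [Field k] (n : ℕ) :
    points k (slK n (AlgebraicClosure k)) = slK n k := by
  ext g
  rw [points, Subgroup.mem_comap, Ex_mem, Ex_mem]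
  change ((algebraMap k (AlgebraicClosure k)).mapMatrix g.1).det = 1 ↔ _
  rw [← RingHom.map_det, map_eq_one_iff _ (algebraMap k (AlgebraicClosure k)).injective]

theorem Ex_prod {k ι : Type} [Field k] (t : kˣ) (w : ι → ℤ) (s : Finset ι) :
    ∏ i ∈ s, (t : k) ^ w i = (t : k) ^ ∑ i ∈ s, w i := by
  classical
  induction s using Finset.induction_on with
  | empty => simp
  | insert a s ha ih => rw [Finset.prod_insert ha, Finset.sum_insert ha, ih, zpow_add₀ t.ne_zero]

theorem sl_rank (k : Type) [NontriviallyNormedField k] (n : ℕ) :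
    splitRank k (slK (n + 1) k) = n := by
  refine IsGreatest.csSup_eq ⟨⟨1, fun j => Fin.cons (-1) (Pi.single j 1), ?_, fun j t => ?_⟩, ?_⟩
  · exact LinearIndependent.of_comp (LinearMap.funLeft ℤ ℤ Fin.succ)
      (Pi.linearIndependent_single_one (Fin n) ℤ)
  · refine ⟨dg _ t, Ex_mem.2 ?_, by rw [Units.val_one, mul_one, one_mul, dg_val]⟩
    rw [dg_val, det_diagonal, Ex_prod, Fin.sum_univ_succ]
    simp
  · rintro r ⟨h, y, hy, ht⟩
    have h1 : ∀ j, ∑ i, y j i = 0 := fun j => by
      obtain ⟨g, hg, e⟩ := ht j (pw k)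
      have h2 := congrArg Matrix.det e
      rw [det_mul, det_mul, Ex_mem.1 hg, one_mul, det_diagonal, Ex_prod,
        left_eq_mul₀ h.det_ne_zero] at h2
      have h3 := congrArg norm h2
      rwa [norm_zpow, norm_one, zpow_eq_one_iff_right₀ pw_pos.le pw_lt.ne] at h3
    have h4 : LinearIndependent ℤ fun j (i : Fin n) => y j i.succ := by
      rw [Fintype.linearIndependent_iff] at hy ⊢
      refine fun c hc => hy c ?_
      have h5 : ∀ i : Fin n, (∑ j, c j • y j) i.succ = 0 := fun i => by
        simpa using congrFun hc i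
      have h6 : ∑ i, (∑ j, c j • y j) i = 0 := by
        simp only [Finset.sum_apply, Pi.smul_apply, smul_eq_mul]
        rw [Finset.sum_comm]
        simp only [← Finset.mul_sum, h1, mul_zero, Finset.sum_const_zero]
      rw [Fin.sum_univ_succ, Finset.sum_eq_zero fun i _ => h5 i, add_zero] at h6
      exact funext (Fin.cases h6 h5)
    simpa using h4.fintype_card_le_finrank

open Matrix.SpecialLinearGroup in
theorem sl_noncompact (k : Type) [NontriviallyNormedField k] (n : ℕ) :
    ¬ CompactSpace (slK (n + 2) k) := by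
  intro hc
  have h01 : (0 : Fin (n + 2)) ≠ 1 := zero_ne_one
  have hf : Continuous fun g : slK (n + 2) k => ‖g.1.1 0 1‖ := by fun_prop
  obtain ⟨g, -, hg⟩ := isCompact_univ.exists_isMaxOn Set.univ_nonempty hf.continuousOn
  obtain ⟨x, hx⟩ := NormedField.exists_lt_norm k ‖g.1.1 0 1‖
  have := hg (Set.mem_univ ⟨_, Ex_toGL (SpecialLinearGroup.transvection h01 x)⟩)
  simp [transvection_coe] at this
  exact hx.not_ge this

end Pool.Agent.Lib.MP_60cbcc_al.H3A
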