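import Pool.Agent.Lib.MP_60cbcc_al.H3AL

/-!
Finite index; anisotropic groups are compact.
-/

namespace Pool.Agent.Lib.MP_60cbcc_al.H3A

open Matrix Filter Topology

set_option linter.unusedSectionVars false

variable {k : Type} [NontriviallyNormedField k] [ProperSpace k] {ν : Type} [Fintype ν]
  [DecidableEq ν] {G : Subgroup (GL ν k)}

variable (k) in
/-- The logarithms of the norms. -/
def fiGam : AddSubgroup ℝ where
  carrier := {x | ∃ t : kˣ, x = Real.log ‖(t : k)‖}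
  zero_mem' := ⟨1, by simp⟩
  add_mem' := fun {a b} ⟨s, hs⟩ ⟨t, ht⟩ => ⟨s * t, by
    rw [Units.val_mul, norm_mul, Real.log_mul (norm_ne_zero_iff.2 s.ne_zero)
      (norm_ne_zero_iff.2 t.ne_zero), hs, ht]⟩
  neg_mem' := fun {a} ⟨s, hs⟩ => ⟨s⁻¹, by
    rw [Units.val_inv_eq_inv_val, norm_inv, Real.log_inv, hs]⟩

theorem fi_closed : IsClosed (fiGam k : Set ℝ) := by
  have h1 : IsClosed (Set.range fun x : k => ‖x‖) :=
    (isProperMap_iff_tendsto_cocompact.2 ⟨continuous_norm,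
      (tendsto_norm_cocompact_atTop (E := k)).mono_right atTop_le_cocompact⟩).isClosedMap.isClosed_range
  have h2 : (fiGam k : Set ℝ) = Real.exp ⁻¹' Set.range fun x : k => ‖x‖ := by
    ext x
    constructor
    · rintro ⟨t, rfl⟩
      exact ⟨t, (Real.exp_log (norm_pos_iff.2 t.ne_zero)).symm⟩
    · rintro ⟨t, ht⟩
      have ht' : ‖t‖ = Real.exp x := ht
      have h0 : t ≠ 0 := norm_pos_iff.1 (ht' ▸ Real.exp_pos x)
      exact ⟨Units.mk0 t h0, by rw [Units.val_mk0, ht', Real.log_exp]⟩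
  rw [h2]
  exact h1.preimage Real.continuous_exp

theorem fi_div {Γ : AddSubgroup ℝ} (hΓ : IsClosed (Γ : Set ℝ)) {D : ℤ} (hD : D ≠ 0) :
    ∃ T : Set ℝ, T.Finite ∧ ∀ x : ℝ, (D : ℝ) * x ∈ Γ → ∃ s ∈ T, x - s ∈ Γ := by
  rcases AddSubgroup.dense_or_cyclic Γ with h | ⟨a, rfl⟩
  · refine ⟨{0}, Set.finite_singleton _, fun x _ => ⟨0, rfl, ?_⟩⟩
    have : (Γ : Set ℝ) = Set.univ := by rw [← hΓ.closure_eq, h.closure_eq]
    change x - 0 ∈ (Γ : Set ℝ)
    rw [this]; trivial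
  · refine ⟨(fun r : ℤ => (r : ℝ) * a / D) '' Set.Ico 0 |D|, (Set.finite_Ico _ _).image _,
      fun x hx => ?_⟩
    obtain ⟨n, hn⟩ := AddSubgroup.mem_closure_singleton.1 hx
    refine ⟨_, ⟨n % D, ⟨Int.emod_nonneg _ hD, Int.emod_lt_abs _ hD⟩, rfl⟩,
      AddSubgroup.mem_closure_singleton.2 ⟨n / D, ?_⟩⟩
    have hD' : (D : ℝ) ≠ 0 := Int.cast_ne_zero.2 hD
    have e : (n : ℝ) = D * ((n / D : ℤ) : ℝ) + ((n % D : ℤ) : ℝ) := by
      exact_mod_cast (Int.mul_ediv_add_emod n D).symm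
    rw [zsmul_eq_mul] at hn ⊢
    have e2 : x = (n : ℝ) * a / D := by rw [hn]; field_simp
    rw [e2, e]
    field_simp
    ring

/-- Coordinates in a basis of integer vectors are rational combinations of the entries. -/
theorem fi_coord (Y : Set (ν → ℤ)) : ∃ (ι : Type) (_ : Fintype ι) (y : ι → ν → ℤ) (D : ℤ)
    (Z : ι → ν → ℤ), D ≠ 0 ∧ (∀ a, y a ∈ Y) ∧ ∀ v ∈ Submodule.span ℝ (cst '' Y),
      ∃ c : ι → ℝ, v = ∑ a, c a • cst (y a) ∧ ∀ a, (D : ℝ) * c a = ∑ j, (Z a j : ℝ) * v j := by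
  obtain ⟨b, hb, hs, hi⟩ := exists_linearIndependent ℝ (cst '' Y)
  have hfin : b.Finite := hi.setFinite
  let _ : Fintype b := hfin.fintype
  classical
  choose y hy hy' using fun a : b => hb a.2
  let A : Matrix ν b ℤ := Matrix.of fun j a => y a j
  let φ := Int.castRingHom ℝ
  let B : Matrix ν b ℝ := A.map φ
  have hB : ∀ c : b → ℝ, B *ᵥ c = ∑ a, c a • cst (y a) := fun c => by
    funext j
    simp [B, A, φ, Matrix.mulVec, dotProduct, cst, mul_comm]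
  have hmap : (Aᵀ * A).map φ = Bᵀ * B := by
    rw [Matrix.map_mul, Matrix.transpose_map]
  have hdet : (Aᵀ * A).det ≠ 0 := fun h0 => by
    have h1 : (Bᵀ * B).det = 0 := by
      rw [← hmap, ← RingHom.mapMatrix_apply, ← RingHom.map_det, h0, map_zero]
    obtain ⟨c, hc0, hc⟩ := Matrix.exists_mulVec_eq_zero_iff.2 h1
    have h2 : (B *ᵥ c) ⬝ᵥ (B *ᵥ c) = 0 := by
      have := congrArg (fun w => c ⬝ᵥ w) hc
      simp only [dotProduct_zero] at this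
      rw [← Matrix.mulVec_mulVec, Matrix.dotProduct_mulVec, Matrix.vecMul_transpose] at this
      exact this
    have h3 := dotProduct_self_eq_zero.1 h2
    rw [hB] at h3
    simp only [hy'] at h3
    exact hc0 (funext (Fintype.linearIndependent_iff.1 hi c h3))
  refine ⟨b, inferInstance, y, (Aᵀ * A).det, fun a j => ((Aᵀ * A).adjugate * Aᵀ) a j, hdet, hy,
    fun v hv => ?_⟩
  rw [← hs] at hv
  have hv' : v ∈ Submodule.span ℝ (Set.range fun a : b => cst (y a)) := by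
    simp only [hy']
    rwa [Subtype.range_coe]
  obtain ⟨c, hc⟩ := (Submodule.mem_span_range_iff_exists_fun ℝ).1 hv'
  refine ⟨c, hc.symm, fun a => ?_⟩
  have h4 : (((Aᵀ * A).adjugate * Aᵀ).map φ) * B =
      (((Aᵀ * A).det : ℤ) : ℝ) • (1 : Matrix b b ℝ) := by
    rw [← Matrix.map_mul, Matrix.mul_assoc, Matrix.adjugate_mul]
    ext i j
    rw [Matrix.map_apply, Matrix.smul_apply, Matrix.smul_apply, Matrix.one_apply, Matrix.one_apply]
    by_cases e : i = j <;> simp [φ, e]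
  have h5 := congrFun (congrArg (fun M => M *ᵥ c) h4) a
  simp only [← Matrix.mulVec_mulVec, hB, hc, Matrix.smul_mulVec, Matrix.one_mulVec, Pi.smul_apply,
    smul_eq_mul] at h5
  rw [← h5]
  simp [Matrix.mulVec, dotProduct, φ]

/-- The valuations of the elements of `LL G` that centralise the torus. -/
def fiS (G : Subgroup (GL ν k)) : AddSubgroup (ν → ℝ) where
  carrier := {v | ∃ s ∈ LL G, s ∈ Mgl G ∧ vv G s = v}
  zero_mem' := ⟨1, one_mem _, one_mem _, vv_one⟩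
  add_mem' := fun {a b} ⟨s, hs, hs', es⟩ ⟨t, ht, ht', et⟩ =>
    ⟨s * t, mul_mem hs ht, mul_mem hs' ht', by rw [vv_mul hs' ht', es, et]⟩
  neg_mem' := fun {a} ⟨s, hs, hs', es⟩ =>
    ⟨s⁻¹, inv_mem hs, inv_mem hs', by rw [vv_inv hs', es]⟩

theorem fi_classes (hG : Ctx G) : ∃ F : Set (ν → ℝ), F.Finite ∧
    ∀ m ∈ G, m ∈ Mgl G → ∃ φ ∈ F, vv G m - φ ∈ fiS G := by
  obtain ⟨ι, _, y, D, Z, hD, hy, h⟩ := fi_coord (YY (LL G) : Set (ν → ℤ))
  have hN : (((Fintype.card ν).factorial : ℕ) : ℤ) * D ≠ 0 :=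
    mul_ne_zero (Int.natCast_ne_zero.2 (Nat.factorial_ne_zero _)) hD
  obtain ⟨T, hT, hT'⟩ := fi_div (fi_closed (k := k)) hN
  refine ⟨(fun s : ι → ℝ => ∑ a, s a • cst (y a)) '' Set.pi Set.univ fun _ => T,
    (Set.Finite.pi fun _ => hT).image _, fun m hm hm' => ?_⟩
  have h1 : vv G m ∈ aa (LL G) := by
    rw [hG.aa_LL]; exact (hG.good.val hG.max hm hm').1
  obtain ⟨c, hc, hc'⟩ := h _ h1
  have h2 : ∀ a, ∃ s ∈ T, c a - s ∈ fiGam k := fun a => by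
    apply hT'
    have : ((((Fintype.card ν).factorial : ℕ) : ℤ) * D : ℤ) * c a =
        ∑ j, Z a j • (((Fintype.card ν).factorial : ℝ) * vv G m j) := by
      push_cast
      rw [mul_assoc, hc' a, Finset.mul_sum]
      exact Finset.sum_congr rfl fun j _ => by rw [zsmul_eq_mul]; ring
    rw [this]
    exact AddSubgroup.sum_mem _ fun j _ => AddSubgroup.zsmul_mem _ (vv_mem_log hm' j) _
  choose s hs hs' using h2
  refine ⟨_, ⟨s, fun a _ => hs a, rfl⟩, ?_⟩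
  rw [hc, ← Finset.sum_sub_distrib]
  refine AddSubgroup.sum_mem _ fun a _ => ?_
  obtain ⟨t, ht⟩ := (fiGam k).neg_mem (hs' a)
  refine ⟨dg (y a) t, hy a t, dg_mem_Mgl _ _, ?_⟩
  rw [vv_dg (YY_mono hG.good.LL_le (hy a)), ← ht, neg_neg, sub_smul]

theorem Ctx.exists_fin (hG : Ctx G) : ∃ F : Set (GL ν k), F.Finite ∧
    ∀ g ∈ G, ∃ f ∈ F, ∃ l ∈ LL G, ∃ m ∈ M1 G, g = f * (l * m) := by
  obtain ⟨F, hF, h⟩ := fi_classes hG
  have h1 : ∀ φ : ν → ℝ, ∃ f, (∃ m ∈ G, m ∈ Mgl G ∧ vv G m - φ ∈ fiS G) →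
      f ∈ G ∧ f ∈ Mgl G ∧ vv G f - φ ∈ fiS G := fun φ => by
    by_cases e : ∃ m ∈ G, m ∈ Mgl G ∧ vv G m - φ ∈ fiS G
    · obtain ⟨m, hm⟩ := e
      exact ⟨m, fun _ => hm⟩
    · exact ⟨1, fun e' => (e e').elim⟩
  choose f hf using h1
  refine ⟨f '' F, hF.image _, fun g hg => ?_⟩
  obtain ⟨l, hl, m, ⟨hm, hm'⟩, rfl⟩ := hG.good.LL_dec hg
  obtain ⟨φ, hφ, hv⟩ := h m hm hm'
  obtain ⟨hf1, hf2, hf3⟩ := hf φ ⟨m, hm, hm', hv⟩
  obtain ⟨s, hs, hs', es⟩ := (fiS G).sub_mem hv hf3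
  refine ⟨f φ, ⟨φ, hφ, rfl⟩, (f φ)⁻¹ * l * (f φ)⁻¹⁻¹ * s,
    mul_mem (hG.good.LL_normal _ (inv_mem hf1) l hl) hs, s⁻¹ * ((f φ)⁻¹ * m),
    ⟨mul_mem (inv_mem (hG.good.LL_le hs)) (mul_mem (inv_mem hf1) hm),
      mul_mem (inv_mem hs') (mul_mem (inv_mem hf2) hm'), ?_⟩, by group⟩
  rw [vv_mul (inv_mem hs') (mul_mem (inv_mem hf2) hm'), vv_mul (inv_mem hf2) hm', vv_inv hs',
    vv_inv hf2, es]
  abel

theorem Good.compact_of_aniso (hG : Good G) (hM : IsMax G) (h : aa G = ⊥) :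
    IsCompact (G : Set (GL ν k)) := by
  have h1 : ∀ g ∈ G, Gr g.1 1 := fun g hg => by
    have hm : g ∈ Mgl G := mem_Mgl.2 fun i j _ => by
      have := rt_mem G i j
      rwa [h, Submodule.mem_bot] at this
    obtain ⟨h2, h3⟩ := hG.val hM hg hm
    rw [h, Submodule.mem_bot] at h2
    rw [h2] at h3
    exact h3.gr one_pos fun j => by simp
  obtain ⟨d, ρ, hρ, hI, hn⟩ := hG.exists_irrep
  obtain ⟨N, hN⟩ := hρ.gr
  have h2 : ∀ a b, ∃ C : ℝ, ∀ x ∈ G, ‖ρ x a b‖ ≤ C := fun a b => by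
    obtain ⟨C, hC⟩ := burnside (H := G) (N := G) le_rfl
      (fun g hg x hx => mul_mem (mul_mem hg hx) (inv_mem hg)) hρ.one hρ.mul hI
      (fun g hg => ⟨1 ^ N, fun x hx => hN _ (mul_mem hx hg) 1 le_rfl (h1 _ (mul_mem hx hg))⟩)
      (Pi.single a 1) (fun v hv => by rw [(Submodule.mem_bot k).1 hv, dotProduct_zero])
      (v := Pi.single b 1) Submodule.mem_top
    exact ⟨C, fun x hx => by simpa using hC x hx⟩
  choose C hC using h2
  have hb : Bd (G : Set (GL ν k)) := hG.proper hρ hn subset_rfl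
    ⟨∑ ab : Fin d × Fin d, |C ab.1 ab.2|, fun g hg a b => (hC a b g hg).trans ((le_abs_self _).trans
      (Finset.single_le_sum (f := fun ab : Fin d × Fin d => |C ab.1 ab.2|)
        (fun _ _ => abs_nonneg _) (Finset.mem_univ (a, b))))⟩
  obtain ⟨K, hK, h3, h4⟩ := Bd.exists_compact hG.isClosed hG.det subset_rfl hb
  rwa [Set.Subset.antisymm h3 h4]

end Pool.Agent.Lib.MP_60cbcc_al.H3A
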