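import Pool.Agent.Lib.MP_60cbcc_al.H3ABase

/-!
Finite systems of vectors invariant under reflections.
-/

namespace Pool.Agent.Lib.MP_60cbcc_al.H3A

open Matrix Filter Topology

set_option linter.unusedSectionVars false

variable {ν : Type} [Fintype ν] [DecidableEq ν]

/-- The properties of the roots and of the Weyl group that are used. -/
structure Sys (A : Submodule ℝ (ν → ℝ)) (Φ : Set (ν → ℝ)) (W : Subgroup (Equiv.Perm ν)) :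
    Prop where
  fin : Φ.Finite
  mem : ∀ γ ∈ Φ, γ ∈ A ∧ γ ≠ 0
  neg : ∀ γ ∈ Φ, -γ ∈ Φ
  span : ∀ y ∈ A, (∀ γ ∈ Φ, γ ⬝ᵥ y = 0) → y = 0
  act : ∀ τ ∈ W, ∀ y ∈ A, y ∘ τ ∈ A
  inv : ∀ τ ∈ W, ∀ γ ∈ Φ, γ ∘ τ ∈ Φ
  rank : 2 ≤ Module.finrank ℝ A

variable {A : Submodule ℝ (ν → ℝ)} {Φ : Set (ν → ℝ)} {W : Subgroup (Equiv.Perm ν)}

theorem geo_dot (τ : Equiv.Perm ν) (a b : ν → ℝ) : (a ∘ τ) ⬝ᵥ (b ∘ τ) = a ⬝ᵥ b :=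
  Equiv.sum_comp τ fun i => a i * b i

theorem geo_comp (τ σ : Equiv.Perm ν) (a : ν → ℝ) :
    (a ∘ τ) ∘ σ = a ∘ (τ * σ : Equiv.Perm ν) := rfl

theorem geo_dot' (τ : Equiv.Perm ν) (a b : ν → ℝ) :
    a ⬝ᵥ (b ∘ τ) = (a ∘ (τ⁻¹ : Equiv.Perm ν)) ⬝ᵥ b := by
  rw [← geo_dot τ (a ∘ (τ⁻¹ : Equiv.Perm ν))]
  congr 1
  funext i
  simp

theorem geo_pos {γ : ν → ℝ} (h : γ ≠ 0) : 0 < γ ⬝ᵥ γ :=
  (Finset.sum_nonneg fun i _ => mul_self_nonneg (γ i)).lt_of_ne' fun e =>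
    h (dotProduct_self_eq_zero.1 e)

/-- A vector of the subspace that is not a multiple of a given vector. -/
theorem Sys.geo_ex (h : Sys A Φ W) (x : ν → ℝ) : ∃ z ∈ A, ∀ c : ℝ, z ≠ c • x := by
  by_contra hn
  push Not at hn
  have h1 : A ≤ Submodule.span ℝ {x} := fun z hz => by
    obtain ⟨c, rfl⟩ := hn z hz
    exact Submodule.smul_mem _ c (Submodule.mem_span_singleton_self x)
  have h2 := (Submodule.finrank_mono h1).trans (finrank_span_le_card ({x} : Set (ν → ℝ)))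
  have := h.rank
  simp at h2
  omega

/-- Small perturbations keep the signs. -/
theorem Sys.geo_ev (h : Sys A Φ W) (x z : ν → ℝ) :
    ∀ᶠ ε : ℝ in 𝓝 0, ∀ γ ∈ Φ, 0 < γ ⬝ᵥ x → 0 < γ ⬝ᵥ (x + ε • z) := by
  refine (eventually_all_finite h.fin).2 fun γ _ => ?_
  by_cases h0 : 0 < γ ⬝ᵥ x
  · have h1 : Continuous fun ε : ℝ => γ ⬝ᵥ (x + ε • z) := by fun_prop
    exact (h1.continuousAt.eventually (lt_mem_nhds (by simpa using h0))).mono fun _ h _ => h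
  · exact .of_forall fun _ h => (h0 h).elim

theorem Sys.geo_y0 (h : Sys A Φ W) {x : ν → ℝ} (hx : x ∈ A) (h0 : x ≠ 0) :
    ∃ y ∈ A, (∀ γ ∈ Φ, 0 < γ ⬝ᵥ x → 0 < γ ⬝ᵥ y) ∧
      ∀ (τ : Equiv.Perm ν) (c : ℝ), y ≠ c • (x ∘ τ) := by
  obtain ⟨z, hz, hz'⟩ := h.geo_ex x
  have h1 : {ε : ℝ | ∃ (τ : Equiv.Perm ν) (c : ℝ), x + ε • z = c • (x ∘ τ)}.Finite := by
    rw [Set.ofPred_exists]
    refine Set.finite_iUnion fun τ => Set.Subsingleton.finite ?_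
    rintro a ⟨c, hc⟩ b ⟨d, hd⟩
    by_contra hab
    have h2 : (a - b) • z = (c - d) • (x ∘ τ) := by
      rw [sub_smul, sub_smul, ← hc, ← hd]; abel
    have h3 : (a - b) • x = (a * d - b * c) • (x ∘ τ) := by
      rw [sub_smul, sub_smul, mul_smul, mul_smul, ← hc, ← hd]; module
    have h4 : a * d - b * c ≠ 0 := fun e => by
      rw [e, zero_smul] at h3
      exact h0 ((smul_eq_zero.1 h3).resolve_left (sub_ne_zero.2 hab))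
    refine hz' ((c - d) / (a * d - b * c)) (smul_right_injective _ (sub_ne_zero.2 hab) ?_)
    change (a - b) • z = (a - b) • _
    rw [smul_comm, h3, smul_smul, div_mul_cancel₀ _ h4, h2]
  obtain ⟨ε, h5, h6⟩ := (infinite_of_mem_nhds _ (h.geo_ev x z)).exists_notMem_finite h1
  exact ⟨_, A.add_mem hx (A.smul_mem ε hz), h5, fun τ c e => h6 ⟨τ, c, e⟩⟩

theorem geo_max (W : Subgroup (Equiv.Perm ν)) (f : Equiv.Perm ν → ℝ) :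
    ∃ τ ∈ W, ∀ σ ∈ W, f σ ≤ f τ :=
  Set.exists_max_image (W : Set (Equiv.Perm ν)) f (Set.toFinite _) ⟨1, W.one_mem⟩

/-- Galleries: the reflections in the roots vanishing somewhere on a closed chamber map it to the
opposite chamber. -/
theorem Sys.gallery (h : Sys A Φ W) {x : ν → ℝ} (hx : x ∈ A) (hr : ∀ γ ∈ Φ, γ ⬝ᵥ x ≠ 0)
    (hW : ∀ γ ∈ Φ, (∃ y ∈ A, y ≠ 0 ∧ γ ⬝ᵥ y = 0 ∧ ∀ β ∈ Φ, 0 < β ⬝ᵥ x → 0 ≤ β ⬝ᵥ y) →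
      ∃ τ ∈ W, ∀ y ∈ A, y ∘ τ = y - (2 * (γ ⬝ᵥ y) / (γ ⬝ᵥ γ)) • γ) :
    ∃ τ ∈ W, ∀ γ ∈ Φ, 0 < γ ⬝ᵥ x → γ ⬝ᵥ (x ∘ τ) < 0 := by
  by_cases h0 : x = 0
  · exact ⟨1, W.one_mem, fun γ hγ _ => (hr γ hγ (by simp [h0])).elim⟩
  obtain ⟨y, hy, h1, h2⟩ := h.geo_y0 hx h0
  have h3 : ∀ γ ∈ Φ, γ ⬝ᵥ x < 0 → γ ⬝ᵥ y < 0 := fun γ hγ e => by
    simpa using h1 _ (h.neg γ hγ) (by simpa using e)
  obtain ⟨τ, hτ, hm⟩ := geo_max W fun τ => x ⬝ᵥ (-y ∘ τ)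
  have hy1 : -y ∘ τ ∈ A := h.act τ hτ _ (A.neg_mem hy)
  have h4 : ∀ β ∈ Φ, 0 < β ⬝ᵥ x → 0 ≤ β ⬝ᵥ (-y ∘ τ) := by
    by_contra hn
    push Not at hn
    obtain ⟨γ, ⟨hγ, g1, g2⟩, hmin⟩ := Set.exists_min_image
      {β | β ∈ Φ ∧ 0 < β ⬝ᵥ x ∧ β ⬝ᵥ (-y ∘ τ) < 0} (fun β => β ⬝ᵥ x / -(β ⬝ᵥ (-y ∘ τ)))
      (h.fin.subset fun _ h => h.1) hn
    set s := γ ⬝ᵥ x / -(γ ⬝ᵥ (-y ∘ τ)) with hs
    have hs0 : 0 < s := div_pos g1 (neg_pos.2 g2)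
    obtain ⟨σ, hσ, e⟩ := hW γ hγ ⟨x + s • (-y ∘ τ), A.add_mem hx (A.smul_mem s hy1),
      fun e => h2 τ⁻¹ s⁻¹ (by
        have h5 : x = s • (y ∘ τ) := by
          rw [eq_neg_of_add_eq_zero_left e, ← smul_neg]
          congr 1
          funext i
          simp
        funext i
        rw [h5]
        simp [hs0.ne']),
      by
        rw [dotProduct_add, dotProduct_smul, smul_eq_mul, hs, div_neg, neg_mul,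
          div_mul_cancel₀ _ g2.ne, add_neg_cancel],
      fun β hβ b1 => by
        rw [dotProduct_add, dotProduct_smul, smul_eq_mul]
        rcases le_or_gt 0 (β ⬝ᵥ (-y ∘ τ)) with b2 | b2
        · positivity
        · have := (le_div_iff₀ (neg_pos.2 b2)).1 (hmin β ⟨hβ, b1, b2⟩)
          linarith⟩
    have h6 := hm _ (W.mul_mem hτ hσ)
    have h7 : (-y ∘ (τ * σ : Equiv.Perm ν) : ν → ℝ) = (-y ∘ τ) ∘ σ := rfl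
    simp only [h7, e _ hy1, dotProduct_sub, dotProduct_smul, smul_eq_mul] at h6
    have h8 := div_neg_of_neg_of_pos (mul_neg_of_pos_of_neg two_pos g2) (geo_pos (h.mem γ hγ).2)
    rw [dotProduct_comm x γ] at h6
    nlinarith
  refine ⟨τ⁻¹, W.inv_mem hτ, fun γ hγ g => ?_⟩
  rw [geo_dot', inv_inv]
  refine (hr _ (h.inv τ hτ γ hγ)).lt_or_gt.resolve_right fun g' => ?_
  have h9 := h4 _ (h.inv τ hτ γ hγ) g'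
  have h10 : (-y ∘ τ : ν → ℝ) = (-y) ∘ τ := rfl
  rw [h10, geo_dot, dotProduct_neg] at h9
  linarith [h1 γ hγ g]

theorem Sys.geo_top (h : Sys A Φ W) {y : ν → ℝ} (hy : y ∈ A) (h0 : y ≠ 0) :
    ∃ θ ∈ Φ, 0 < θ ⬝ᵥ y ∧ ∀ β ∈ Φ, β ⬝ᵥ y ≤ θ ⬝ᵥ y := by
  obtain ⟨γ, hγ, e⟩ : ∃ γ ∈ Φ, γ ⬝ᵥ y ≠ 0 := by
    by_contra hn
    push Not at hn
    exact h0 (h.span y hy hn)
  obtain ⟨θ, hθ, hm⟩ := Set.exists_max_image Φ (fun β => β ⬝ᵥ y) h.fin ⟨γ, hγ⟩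
  refine ⟨θ, hθ, ?_, hm⟩
  have h1 := hm γ hγ
  have h2 := hm _ (h.neg γ hγ)
  rw [neg_dotProduct] at h2
  rcases e.lt_or_gt with e | e <;> linarith

theorem Sys.geo_walk (h : Sys A Φ W)
    (hu : ∀ y ∈ A, y ≠ 0 → ∀ θ ∈ Φ, ∀ θ' ∈ Φ, (∀ β ∈ Φ, β ⬝ᵥ y ≤ θ ⬝ᵥ y) → θ' ⬝ᵥ y = θ ⬝ᵥ y → θ' = θ)
    {u z θ : ν → ℝ} (h1 : u ∈ A) (h2 : z ∈ A) (h3 : ∀ s : ℝ, u + s • z ≠ 0) (hθ : θ ∈ Φ)
    (ht : ∀ β ∈ Φ, β ⬝ᵥ u ≤ θ ⬝ᵥ u) : ∀ β ∈ Φ, β ⬝ᵥ z ≤ θ ⬝ᵥ z := by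
  by_contra hn
  push Not at hn
  obtain ⟨γ, ⟨hγ, g⟩, hmin⟩ := Set.exists_min_image {β | β ∈ Φ ∧ θ ⬝ᵥ z < β ⬝ᵥ z}
    (fun β => (θ ⬝ᵥ u - β ⬝ᵥ u) / (β ⬝ᵥ z - θ ⬝ᵥ z)) (h.fin.subset fun _ h => h.1) hn
  set s := (θ ⬝ᵥ u - γ ⬝ᵥ u) / (γ ⬝ᵥ z - θ ⬝ᵥ z) with hs
  have h4 : 0 ≤ s := div_nonneg (sub_nonneg.2 (ht γ hγ)) (sub_pos.2 g).le
  have h5 : s * (γ ⬝ᵥ z - θ ⬝ᵥ z) = θ ⬝ᵥ u - γ ⬝ᵥ u := div_mul_cancel₀ _ (sub_pos.2 g).ne'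
  refine g.ne' (congrArg (· ⬝ᵥ z) (hu _ (A.add_mem h1 (A.smul_mem s h2)) (h3 s) θ hθ γ hγ
    (fun β hβ => ?_) ?_))
  · simp only [dotProduct_add, dotProduct_smul, smul_eq_mul]
    rcases le_or_gt (β ⬝ᵥ z) (θ ⬝ᵥ z) with b | b
    · nlinarith [ht β hβ]
    · have := (le_div_iff₀ (sub_pos.2 b)).1 (hmin β ⟨hβ, b⟩)
      linarith
  · simp only [dotProduct_add, dotProduct_smul, smul_eq_mul]
    linarith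

theorem Sys.geo_two (h : Sys A Φ W) : ∃ y ∈ A, y ≠ 0 ∧ ∃ θ ∈ Φ, ∃ θ' ∈ Φ,
    (∀ β ∈ Φ, β ⬝ᵥ y ≤ θ ⬝ᵥ y) ∧ θ' ⬝ᵥ y = θ ⬝ᵥ y ∧ θ' ≠ θ := by
  by_contra hn
  push Not at hn
  obtain ⟨u, hu, h0⟩ := h.geo_ex 0
  have h1 : u ≠ 0 := by simpa using h0 0
  obtain ⟨z, hz, h2⟩ := h.geo_ex u
  obtain ⟨θ, hθ, h3, h4⟩ := h.geo_top hu h1
  have h5 := h.geo_walk hn hu hz (fun s e => by
    have h6 : s ≠ 0 := fun e' => h1 (by simpa [e'] using e)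
    refine h2 (-s⁻¹) ?_
    rw [eq_neg_of_add_eq_zero_left e]
    simp [smul_smul, h6]) hθ h4
  have h7 := h.geo_walk hn hz (A.neg_mem hu) (fun s e => h2 s (by
    rw [eq_neg_of_add_eq_zero_left e, smul_neg, neg_neg])) hθ h5 _ (h.neg θ hθ)
  simp only [neg_dotProduct, dotProduct_neg] at h7
  linarith

theorem Sys.geo_reg (h : Sys A Φ W) {y : ν → ℝ} (hy : y ∈ A) :
    ∃ x ∈ A, (∀ γ ∈ Φ, γ ⬝ᵥ x ≠ 0) ∧ ∀ γ ∈ Φ, 0 < γ ⬝ᵥ y → 0 < γ ⬝ᵥ x := by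
  have := h.fin.to_subtype
  obtain ⟨z, hz⟩ := Submodule.exists_forall_notMem_of_forall_ne_top
    (fun γ : Φ => LinearMap.ker ((dotProductBilin ℝ ℝ γ.1).comp A.subtype)) fun γ e => by
      have h1 : (⟨γ.1, (h.mem γ.1 γ.2).1⟩ : A) ∈
          LinearMap.ker ((dotProductBilin ℝ ℝ γ.1).comp A.subtype) := e ▸ Submodule.mem_top
      exact (geo_pos (h.mem γ.1 γ.2).2).ne' h1
  obtain ⟨ε, h1, h2⟩ := (((h.geo_ev y z).filter_mono nhdsWithin_le_nhds).and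
    (self_mem_nhdsWithin (s := {(0 : ℝ)}ᶜ))).exists
  refine ⟨_, A.add_mem hy (A.smul_mem ε z.2), fun γ hγ => ?_, h1⟩
  rcases lt_trichotomy (γ ⬝ᵥ y) 0 with e | e | e
  · have := h1 _ (h.neg γ hγ) (by simpa using e)
    rw [neg_dotProduct] at this
    linarith [this, ne_of_lt (neg_pos.1 this)]
  · rw [dotProduct_add, e, zero_add, dotProduct_smul]
    exact mul_ne_zero h2 (hz ⟨γ, hγ⟩)
  · exact (h1 γ hγ e).ne'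

theorem Sys.geo_dom (h : Sys A Φ W)
    (hW : ∀ γ ∈ Φ, ∃ τ ∈ W, ∀ y ∈ A, y ∘ τ = y - (2 * (γ ⬝ᵥ y) / (γ ⬝ᵥ γ)) • γ)
    (hs : ∀ τ ∈ W, ∀ y ∈ A, (∀ γ ∈ Φ, γ ⬝ᵥ y ≠ 0) → (∀ γ ∈ Φ, 0 < γ ⬝ᵥ y → 0 < γ ⬝ᵥ (y ∘ τ)) →
      ∀ z ∈ A, z ∘ τ = z) {x u v : ν → ℝ} (hx : x ∈ A) (hr : ∀ γ ∈ Φ, γ ⬝ᵥ x ≠ 0) (hv : v ∈ A)
    (h1 : ∀ γ ∈ Φ, 0 < γ ⬝ᵥ x → 0 ≤ γ ⬝ᵥ u) (h2 : ∀ γ ∈ Φ, 0 < γ ⬝ᵥ x → 0 ≤ γ ⬝ᵥ v)
    {τ : Equiv.Perm ν} (hτ : τ ∈ W) : u ⬝ᵥ (v ∘ τ) ≤ u ⬝ᵥ v := by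
  have key : ∀ u v : ν → ℝ, v ∈ A → (∀ γ ∈ Φ, 0 < γ ⬝ᵥ x → 0 < γ ⬝ᵥ u) →
      (∀ γ ∈ Φ, 0 < γ ⬝ᵥ x → 0 < γ ⬝ᵥ v) → u ⬝ᵥ (v ∘ τ) ≤ u ⬝ᵥ v := fun u v hv h1 h2 => by
    have h3 : ∀ γ ∈ Φ, γ ⬝ᵥ x < 0 → γ ⬝ᵥ v < 0 := fun γ hγ e => by
      simpa using h2 _ (h.neg γ hγ) (by simpa using e)
    have h4 : ∀ γ ∈ Φ, γ ⬝ᵥ v ≠ 0 := fun γ hγ =>
      (hr γ hγ).lt_or_gt.elim (fun e => (h3 γ hγ e).ne) fun e => (h2 γ hγ e).ne'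
    obtain ⟨σ, hσ, hm⟩ := geo_max W fun σ => u ⬝ᵥ (v ∘ σ)
    refine (hm τ hτ).trans_eq (congrArg _ (hs σ hσ v hv h4 (fun γ hγ e => ?_) v hv))
    have h5 : 0 < γ ⬝ᵥ x := (hr γ hγ).lt_or_gt.resolve_left fun e' => (h3 γ hγ e').not_gt e
    have h6 : γ ⬝ᵥ (v ∘ σ) ≠ 0 := by
      rw [geo_dot']
      exact h4 _ (h.inv _ (W.inv_mem hσ) γ hγ)
    refine h6.lt_or_gt.resolve_left fun g => ?_
    obtain ⟨ρ, hρ, e'⟩ := hW γ hγ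
    have h7 := hm _ (W.mul_mem hσ hρ)
    simp only [← geo_comp, e' _ (h.act σ hσ v hv), dotProduct_sub, dotProduct_smul,
      smul_eq_mul] at h7
    have h8 := div_neg_of_neg_of_pos (mul_neg_of_pos_of_neg two_pos g) (geo_pos (h.mem γ hγ).2)
    rw [dotProduct_comm u γ] at h7
    nlinarith [h1 γ hγ h5]
  have h9 : Continuous fun ε : ℝ => (u + ε • x) ⬝ᵥ ((v + ε • x) ∘ τ) := by
    unfold Function.comp dotProduct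
    fun_prop
  have h10 : Continuous fun ε : ℝ => (u + ε • x) ⬝ᵥ (v + ε • x) := by fun_prop
  have h11 := le_of_tendsto_of_tendsto ((h9.tendsto 0).mono_left nhdsWithin_le_nhds)
    ((h10.tendsto 0).mono_left (nhdsWithin_le_nhds (s := Set.Ioi 0)))
    (eventually_nhdsWithin_of_forall fun ε hε => key _ _ (A.add_mem hv (A.smul_mem ε hx))
      (fun γ hγ e => by
        rw [dotProduct_add, dotProduct_smul]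
        exact add_pos_of_nonneg_of_pos (h1 γ hγ e) (mul_pos hε e))
      fun γ hγ e => by
        rw [dotProduct_add, dotProduct_smul]
        exact add_pos_of_nonneg_of_pos (h2 γ hγ e) (mul_pos hε e))
  simpa using h11

/-- Some top face of the root polytope is moved by a root parallel to it. -/
theorem Sys.edge (h : Sys A Φ W)
    (hW : ∀ γ ∈ Φ, ∃ τ ∈ W, ∀ y ∈ A, y ∘ τ = y - (2 * (γ ⬝ᵥ y) / (γ ⬝ᵥ γ)) • γ)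
    (hs : ∀ τ ∈ W, ∀ y ∈ A, (∀ γ ∈ Φ, γ ⬝ᵥ y ≠ 0) → (∀ γ ∈ Φ, 0 < γ ⬝ᵥ y → 0 < γ ⬝ᵥ (y ∘ τ)) →
      ∀ z ∈ A, z ∘ τ = z)
    (hi : ∀ γ ∈ Φ, ∀ γ' ∈ Φ, ∃ β ∈ Φ, β ⬝ᵥ γ ≠ 0 ∧ β ⬝ᵥ γ' ≠ 0)
    (hc : ∀ y ∈ A, ∀ θ ∈ Φ, ∀ θ' ∈ Φ, 0 < θ ⬝ᵥ y → θ' ⬝ᵥ y = θ ⬝ᵥ y → (∀ β ∈ Φ, β ⬝ᵥ y ≤ θ ⬝ᵥ y) →
      θ ≠ θ' → (∀ c : ℕ, 0 < c → θ' - (c : ℝ) • θ ∉ Φ) → θ ⬝ᵥ θ' = 0) :
    ∃ y ∈ A, ∃ α ∈ Φ, ∃ θ ∈ Φ, α ⬝ᵥ y = 0 ∧ 0 < θ ⬝ᵥ y ∧ (∀ β ∈ Φ, β ⬝ᵥ y ≤ θ ⬝ᵥ y) ∧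
      θ ⬝ᵥ α ≠ 0 := by
  by_contra hn
  push Not at hn
  obtain ⟨y, hy, h0, θ₀, hθ₀, θ₁, hθ₁, t0, t1, t2⟩ := h.geo_two
  obtain ⟨θ₂, hθ₂, m0, -⟩ := h.geo_top hy h0
  have hm : 0 < θ₀ ⬝ᵥ y := m0.trans_le (t0 _ hθ₂)
  obtain ⟨⟨θ, θ'⟩, ⟨⟨hθ, e⟩, hθ', e'⟩, hmax⟩ := Set.exists_max_image
    ({β | β ∈ Φ ∧ β ⬝ᵥ y = θ₀ ⬝ᵥ y} ×ˢ {β | β ∈ Φ ∧ β ⬝ᵥ y = θ₀ ⬝ᵥ y})
    (fun p => (p.2 - p.1) ⬝ᵥ (p.2 - p.1))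
    ((h.fin.subset fun _ h => h.1).prod (h.fin.subset fun _ h => h.1))
    ⟨(θ₀, θ₁), ⟨hθ₀, rfl⟩, hθ₁, t1⟩
  simp only at hθ e hθ' e' hmax
  have hd : 0 < (θ' - θ) ⬝ᵥ (θ' - θ) :=
    (geo_pos (sub_ne_zero.2 t2)).trans_le (hmax (θ₀, θ₁) ⟨⟨hθ₀, rfl⟩, hθ₁, t1⟩)
  have hn' : ∀ α ∈ Φ, α ⬝ᵥ y = 0 → ∀ β ∈ Φ, β ⬝ᵥ y = θ₀ ⬝ᵥ y → β ⬝ᵥ α = 0 :=
    fun α hα a β hβ b => hn y hy α hα β hβ a (b ▸ hm) (b ▸ t0)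
  have h1 : θ ⬝ᵥ θ' = 0 := by
    refine hc y hy θ hθ θ' hθ' (e ▸ hm) (e'.trans e.symm) (e ▸ t0)
      (fun h => by simp [h] at hd) fun c c0 hr => ?_
    rcases Nat.lt_trichotomy c 2 with c2 | rfl | c2
    · obtain rfl : c = 1 := by omega
      rw [Nat.cast_one, one_smul] at hr
      have h2 : (θ' - θ) ⬝ᵥ y = 0 := by rw [sub_dotProduct, e, e', sub_self]
      rw [sub_dotProduct, hn' _ hr h2 θ hθ e, hn' _ hr h2 θ' hθ' e', sub_self] at hd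
      exact hd.false
    · have h3 := hmax (-(θ' - ((2 : ℕ) : ℝ) • θ), θ') ⟨⟨h.neg _ hr, by
        rw [neg_dotProduct, sub_dotProduct, smul_dotProduct, e, e', smul_eq_mul]
        push_cast
        ring⟩, hθ', e'⟩
      have h4 : θ' - -(θ' - ((2 : ℕ) : ℝ) • θ) = (2 : ℝ) • (θ' - θ) := by
        push_cast
        module
      simp only [h4, smul_dotProduct, dotProduct_smul, smul_eq_mul] at h3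
      linarith
    · have h5 := t0 _ (h.neg _ hr)
      have h6 : (2 : ℝ) < c := by exact_mod_cast c2
      rw [neg_dotProduct, sub_dotProduct, smul_dotProduct, e, e', smul_eq_mul] at h5
      nlinarith
  obtain ⟨x, hx, hr, hx'⟩ := h.geo_reg hy
  have h7 : ∀ β ∈ Φ, β ⬝ᵥ y = θ₀ ⬝ᵥ y → ∀ γ ∈ Φ, 0 < γ ⬝ᵥ x → 0 ≤ γ ⬝ᵥ β := fun β hβ b γ hγ g => by
    rcases lt_trichotomy (γ ⬝ᵥ y) 0 with a | a | a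
    · have := hx' _ (h.neg γ hγ) (by simpa using a)
      rw [neg_dotProduct] at this
      linarith
    · rw [dotProduct_comm, hn' γ hγ a β hβ b]
    · by_contra g'
      obtain ⟨ρ, hρ, r⟩ := hW γ hγ
      have h8 := t0 _ (h.inv ρ hρ β hβ)
      rw [r β (h.mem β hβ).1, sub_dotProduct, smul_dotProduct, b, smul_eq_mul] at h8
      have h9 := div_neg_of_neg_of_pos (mul_neg_of_pos_of_neg two_pos (not_le.1 g'))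
        (geo_pos (h.mem γ hγ).2)
      nlinarith
  have h10 : ∀ τ ∈ W, θ ⬝ᵥ (θ' ∘ τ) ≤ 0 := fun τ hτ =>
    h1 ▸ h.geo_dom hW hs hx hr (h.mem θ' hθ').1 (h7 θ hθ e) (h7 θ' hθ' e') hτ
  obtain ⟨β, hβ, b1, b2⟩ := hi θ hθ θ' hθ'
  obtain ⟨τ, hτ, r⟩ := hW β hβ
  obtain ⟨σ, hσ, r'⟩ := hW θ hθ
  have h11 := h10 _ (W.mul_mem hτ hσ)
  rw [← geo_comp, r' _ (h.act τ hτ _ (h.mem θ' hθ').1), dotProduct_sub, dotProduct_smul,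
    smul_eq_mul, div_mul_cancel₀ _ (geo_pos (h.mem θ hθ).2).ne'] at h11
  have h12 : θ ⬝ᵥ (θ' ∘ τ) = 0 := by linarith [h10 τ hτ]
  rw [r _ (h.mem θ' hθ').1, dotProduct_sub, h1, dotProduct_smul, smul_eq_mul, zero_sub,
    neg_eq_zero, dotProduct_comm θ β] at h12
  exact mul_ne_zero (div_ne_zero (mul_ne_zero two_ne_zero b2) (geo_pos (h.mem β hβ).2).ne') b1 h12

end Pool.Agent.Lib.MP_60cbcc_al.H3A
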