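import Pool.Agent.Lib.MP_60cbcc_al.H3AAbs

/-!
Decomposition of an invertible matrix according to the growth of its powers.
-/

namespace Pool.Agent.Lib.MP_60cbcc_al.H3A

open Matrix Filter Topology

set_option linter.unusedSectionVars false

variable {k : Type} [NontriviallyNormedField k] [ProperSpace k] {ν : Type} [Fintype ν]
  [DecidableEq ν] {G : Subgroup (GL ν k)}

/-- Summation of a two-sided sequence with exponentially bounded differences. -/
theorem grow_seq {E : Type} [SeminormedAddCommGroup E] (x : ℤ → E) {ρ C : ℝ} (hρ : 1 < ρ)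
    (h : ∀ l : ℤ, ‖x (l + 1) - x l‖ ≤ C * ρ ^ l.natAbs) :
    ∃ C' : ℝ, ∀ l : ℤ, ‖x l‖ ≤ C' * ρ ^ l.natAbs := by
  have hC : 0 ≤ C := by simpa using (norm_nonneg _).trans (h 0)
  have hρ1 : 0 < ρ - 1 := sub_pos.2 hρ
  have hρ0 : 0 < ρ := zero_lt_one.trans hρ
  obtain ⟨D, hD0, hD⟩ : ∃ D : ℝ, ‖x 0‖ ≤ D ∧ D + C * ρ ≤ D * ρ := by
    refine ⟨‖x 0‖ + C * ρ / (ρ - 1), le_add_of_nonneg_right (by positivity), ?_⟩
    have h1 : C * ρ / (ρ - 1) * (ρ - 1) = C * ρ := div_mul_cancel₀ _ hρ1.ne'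
    nlinarith [mul_nonneg (norm_nonneg (x 0)) hρ1.le]
  have hCρ : C ≤ C * ρ := le_mul_of_one_le_right hC hρ.le
  refine ⟨D, fun l => ?_⟩
  induction l using Int.induction_on with
  | zero => simpa using hD0
  | succ n ih =>
    have h1 := h n
    have h2 : ‖x (n + 1)‖ ≤ ‖x (n + 1) - x n‖ + ‖x n‖ := norm_le_norm_sub_add _ _
    have h3 : ((n : ℤ) + 1).natAbs = n + 1 := by omega
    rw [Int.natAbs_natCast] at h1 ih
    rw [h3, pow_succ']
    have h4 : 0 ≤ ρ ^ n := by positivity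
    nlinarith [mul_le_mul_of_nonneg_right hD h4, mul_le_mul_of_nonneg_right hCρ h4]
  | pred n ih =>
    have h1 := h (-n - 1)
    have h2 : ‖x (-n - 1)‖ ≤ ‖x (-n - 1) - x (-n)‖ + ‖x (-n)‖ := norm_le_norm_sub_add _ _
    have h3 : (-(n : ℤ) - 1).natAbs = n + 1 := by omega
    have h5 : (-(n : ℤ)).natAbs = n := by omega
    rw [sub_add_cancel, norm_sub_rev, h3, pow_succ'] at h1
    rw [h5] at ih
    rw [h3, pow_succ']
    have h4 : 0 ≤ ρ ^ n := by positivity
    nlinarith [mul_le_mul_of_nonneg_right hD h4]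

/-- Growth of a generalised eigenvector. -/
theorem grow_eig {K : Type} [NormedField K] (B : GL ν K) {α : K} (hα : α ≠ 0) (n : ℕ) {ρ : ℝ}
    (hρ : 1 < ρ) : ∀ x : ν → K, ((Matrix.toLin' B.1 - α • 1) ^ n) x = 0 →
      ∃ C : ℝ, ∀ l : ℤ, ‖α ^ (-l) • ((B ^ l).1 *ᵥ x)‖ ≤ C * ρ ^ l.natAbs := by
  induction n with
  | zero =>
    intro x hx
    have : x = 0 := by simpa using hx
    exact ⟨0, fun l => by simp [this]⟩
  | succ n ih =>
    intro x hx
    rw [pow_succ, Module.End.mul_apply] at hx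
    obtain ⟨C, hC⟩ := ih _ hx
    refine grow_seq (fun l => α ^ (-l) • ((B ^ l).1 *ᵥ x)) hρ (C := ‖α⁻¹‖ * C) fun l => ?_
    have h1 : α ^ (-(l + 1)) • ((B ^ (l + 1)).1 *ᵥ x) - α ^ (-l) • ((B ^ l).1 *ᵥ x) =
        α⁻¹ • α ^ (-l) • ((B ^ l).1 *ᵥ (Matrix.toLin' B.1 - α • 1 : Module.End K (ν → K)) x) := by
      rw [LinearMap.sub_apply, Matrix.toLin'_apply, LinearMap.smul_apply, Module.End.one_apply,
        mulVec_sub, mulVec_smul, mulVec_mulVec, smul_sub, smul_sub, smul_smul, smul_smul,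
        smul_smul, _root_.zpow_add_one, Units.val_mul, neg_add, zpow_add₀ hα,
        _root_.zpow_neg_one,
        mul_comm (α ^ (-l)) α⁻¹, mul_right_comm, inv_mul_cancel₀ hα, one_mul]
    rw [h1, norm_smul, mul_assoc]
    exact mul_le_mul_of_nonneg_left (hC l) (norm_nonneg _)

/-- Vectors with an exact growth rate. -/
def GrowV (b : GL ν k) (r : ℝ) (v : ν → k) : Prop :=
  ∀ ρ : ℝ, 1 < ρ → ∃ C : ℝ, ∀ (l : ℤ) i,
    ‖((b ^ l).1 *ᵥ v) i‖ ≤ C * Real.exp (-(l * r)) * ρ ^ l.natAbs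

theorem grow_span_aux {K : Type} [NormedField K] [NormedAlgebra k K] [IsAlgClosed K]
    (b : GL ν k) (v : ν → k) : v ∈ Submodule.span k {w | ∃ r, GrowV b r w} := by
  obtain ⟨lam, hlam⟩ := (Algebra.linearMap k K).exists_leftInverse_of_injective
    (LinearMap.ker_eq_bot.2 (algebraMap k K).injective)
  obtain ⟨B, hB⟩ : ∃ B : GL ν K, B = Matrix.GeneralLinearGroup.map (algebraMap k K) b := ⟨_, rfl⟩
  have hBl : ∀ (l : ℤ) i j, (B ^ l).1 i j = algebraMap k K ((b ^ l).1 i j) := fun l i j => by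
    rw [hB, ← map_zpow]
    rfl
  have hsum : ∀ (l : ℤ) (x : ν → K) i, ((B ^ l).1 *ᵥ x) i = ∑ j, (b ^ l).1 i j • x j :=
    fun l x i => Finset.sum_congr rfl fun j _ => by
      rw [Algebra.smul_def, ← hBl]
  have key : ∀ x : ν → K, lam.compLeft ν x ∈ Submodule.span k {w | ∃ r, GrowV b r w} := by
    intro x
    have hx : x ∈ ⨆ α : K, Module.End.maxGenEigenspace (Matrix.toLin' B.1) α := by
      rw [Module.End.iSup_maxGenEigenspace_eq_top]
      trivial
    induction hx using Submodule.iSup_induction' with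
    | zero =>
      rw [map_zero]
      exact zero_mem _
    | add x y _ _ hx hy =>
      rw [map_add]
      exact add_mem hx hy
    | mem α x hx =>
      obtain ⟨n, hn⟩ := (Module.End.mem_maxGenEigenspace _ _ _).1 hx
      by_cases hα : α = 0
      · rw [hα, zero_smul, sub_zero, ← Matrix.toLin'_pow, Matrix.toLin'_apply,
          ← Units.val_pow_eq_pow_val] at hn
        have h0 : x = 0 := by
          have := congrArg (fun y => ((B ^ n)⁻¹).1 *ᵥ y) hn
          simpa only [mulVec_mulVec, Units.inv_mul, one_mulVec, mulVec_zero] using this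
        rw [h0, map_zero]
        exact zero_mem _
      refine Submodule.subset_span ⟨-Real.log ‖α‖, fun ρ hρ => ?_⟩
      obtain ⟨C, hC⟩ := grow_eig B hα n hρ x hn
      have : FiniteDimensional k (Submodule.span k (Set.range x)) :=
        FiniteDimensional.span_of_finite k (Set.finite_range x)
      obtain ⟨D, hD0, hD⟩ := SemilinearMapClass.bound_of_continuous
        (lam.comp (Submodule.span k (Set.range x)).subtype)
        (LinearMap.continuous_of_finiteDimensional _)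
      refine ⟨D * C, fun l i => ?_⟩
      have hmem : ((B ^ l).1 *ᵥ x) i ∈ Submodule.span k (Set.range x) := by
        rw [hsum]
        exact Submodule.sum_mem _ fun j _ =>
          Submodule.smul_mem _ _ (Submodule.subset_span ⟨j, rfl⟩)
      have h1 : ((b ^ l).1 *ᵥ lam.compLeft ν x) i = lam (((B ^ l).1 *ᵥ x) i) := by
        rw [hsum, map_sum]
        exact Finset.sum_congr rfl fun j _ => by rw [map_smul]; rfl
      have h2 : ‖lam (((B ^ l).1 *ᵥ x) i)‖ ≤ D * ‖((B ^ l).1 *ᵥ x) i‖ := hD ⟨_, hmem⟩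
      have hα' : 0 < ‖α‖ := norm_pos_iff.2 hα
      have h3 : Real.exp (-(l * -Real.log ‖α‖)) = ‖α‖ ^ l := by
        rw [mul_neg, neg_neg, ← Real.log_zpow, Real.exp_log (zpow_pos hα' l)]
      have h4 : ‖((B ^ l).1 *ᵥ x) i‖ ≤ ‖α‖ ^ l * (C * ρ ^ l.natAbs) := by
        refine (norm_le_pi_norm _ i).trans ?_
        have h5 : (B ^ l).1 *ᵥ x = α ^ l • α ^ (-l) • ((B ^ l).1 *ᵥ x) := by
          rw [smul_smul, ← zpow_add₀ hα, add_neg_cancel, zpow_zero, one_smul]
        rw [h5, norm_smul, norm_zpow]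
        exact mul_le_mul_of_nonneg_left (hC l) (zpow_pos hα' l).le
      rw [h1, h3]
      refine h2.trans ((mul_le_mul_of_nonneg_left h4 hD0.le).trans_eq ?_)
      ring
  have h := key fun i => algebraMap k K (v i)
  have hv : (lam.compLeft ν fun i => algebraMap k K (v i)) = v :=
    funext fun i => LinearMap.congr_fun hlam (v i)
  rwa [hv] at h

theorem grow_span (b : GL ν k) (v : ν → k) : v ∈ Submodule.span k {w | ∃ r, GrowV b r w} := by
  obtain ⟨A, hA, -⟩ := exists_abs (k := k)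
  let _ : NormedField (AlgebraicClosure k) := A.toNormedField
  let _ : NormedAlgebra k (AlgebraicClosure k) :=
    { norm_smul_le := fun a x => by
        change A (a • x) ≤ ‖a‖ * A x
        rw [Algebra.smul_def, A.map_mul, hA] }
  exact grow_span_aux (K := AlgebraicClosure k) b v

theorem grow_multi {V : Type} [AddCommGroup V] [Module k V]
    (f : MultilinearMap k (fun _ : ν => V) k) (S : ν → Set V) (x : ν → V)
    (hx : ∀ j, x j ∈ Submodule.span k (S j)) (h : f x ≠ 0) :
    ∃ v : ν → V, (∀ j, v j ∈ S j) ∧ f v ≠ 0 := by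
  classical
  choose a t ht _ hs using fun j => Submodule.mem_span_iff_exists_finset_subset.1 (hx j)
  have h1 : x = fun j => ∑ y ∈ t j, a j y • y := funext fun j => (hs j).symm
  rw [h1, f.map_sum_finset] at h
  obtain ⟨v, hv, h2⟩ := Finset.exists_ne_zero_of_sum_ne_zero h
  rw [f.map_smul_univ] at h2
  exact ⟨v, fun j => ht j (Fintype.mem_piFinset.1 hv j), right_ne_zero_of_smul h2⟩

theorem grow_det {M : Matrix ν ν k} {a : ν → ℝ} (h : ∀ i j, ‖M i j‖ ≤ a j) :
    ‖M.det‖ ≤ Fintype.card (Equiv.Perm ν) * ∏ j, a j := by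
  rw [Matrix.det_apply, ← nsmul_eq_mul, ← Finset.card_univ, ← Finset.sum_const]
  refine norm_sum_le_of_le _ fun σ _ => ?_
  have h1 : ‖Equiv.Perm.sign σ • ∏ i, M (σ i) i‖ = ‖∏ i, M (σ i) i‖ := by
    rcases Int.units_eq_one_or (Equiv.Perm.sign σ) with e | e
    · rw [e, one_smul]
    · rw [e, Units.neg_smul, one_smul, norm_neg]
  rw [h1, norm_prod]
  exact Finset.prod_le_prod (fun _ _ => norm_nonneg _) fun j _ => h _ j

/-- Exact growth rates of the columns force a block structure. -/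
theorem grow_Zgl {g : GL ν k} {r : ν → ℝ} (h : IsVal g r) : g ∈ Zgl r := by
  refine mem_Zgl.2 fun i j hij => by_contra fun hne => hij ?_
  obtain ⟨n, hn⟩ : ∃ n : ℕ, n = Fintype.card ν := ⟨_, rfl⟩
  obtain ⟨N, hN⟩ : ∃ N : ℝ, N = Fintype.card (Equiv.Perm ν) := ⟨_, rfl⟩
  have hN0 : 0 ≤ N := by rw [hN]; positivity
  have hδ : 0 < |r i - r j| := abs_pos.2 (sub_ne_zero.2 hne)
  obtain ⟨ε, hε, hεδ⟩ : ∃ ε : ℝ, 0 < ε ∧ 2 * n * ε < |r i - r j| := by
    refine ⟨|r i - r j| / (2 * n + 1), by positivity, ?_⟩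
    rw [← mul_div_assoc, div_lt_iff₀ (by positivity)]
    nlinarith
  have hρ : 1 < Real.exp ε := Real.one_lt_exp_iff.2 hε
  obtain ⟨C, hC⟩ := h _ hρ
  have hC0 : 0 ≤ C := by simpa using (norm_nonneg _).trans (hC 0 i i)
  have key : ∀ l : ℤ, ‖g.1 i j‖ ≤ N * N * (C * Real.exp ε) ^ (2 * n) * Real.exp (-r j) *
      Real.exp (2 * n * ε * l.natAbs + l * (r i - r j)) := by
    intro l
    obtain ⟨K, hK⟩ : ∃ K : ℝ, K = C * Real.exp ε ^ (l.natAbs + 1) := ⟨_, rfl⟩
    have hb : ∀ (m : ℤ), m.natAbs ≤ l.natAbs + 1 → ∀ a c,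
        ‖(g ^ m).1 a c‖ ≤ K * Real.exp (-(m * r c)) := fun m hm a c => by
      refine (hC m a c).trans ?_
      rw [hK, mul_right_comm]
      gcongr
      exact hρ.le
    have h1 : (g ^ l).1.det * g.1 i j =
        ((g ^ l).1.updateCol i fun a => (g ^ (l + 1)).1 a j).det := by
      have h2 : (fun a => (g ^ (l + 1)).1 a j) = (g ^ l).1 *ᵥ fun a => g.1 a j := by
        rw [_root_.zpow_add_one, Units.val_mul]
        rfl
      rw [← Matrix.cramer_apply, h2, Matrix.cramer_eq_adjugate_mulVec, mulVec_mulVec,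
        adjugate_mul, smul_mulVec, one_mulVec]
      rfl
    have h3 : g.1 i j = (g ^ (-l)).1.det *
        ((g ^ l).1.updateCol i fun a => (g ^ (l + 1)).1 a j).det := by
      rw [← h1, ← mul_assoc, ← det_mul, ← Units.val_mul, ← _root_.zpow_add, neg_add_cancel,
        zpow_zero, Units.val_one, det_one, one_mul]
    have h4 := grow_det (hb (-l) (by omega))
    have h5 : ‖((g ^ l).1.updateCol i fun a => (g ^ (l + 1)).1 a j).det‖ ≤
        Fintype.card (Equiv.Perm ν) * ∏ c, K * Real.exp (-(l * r c)) *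
          if c = i then Real.exp (l * (r i - r j) - r j) else 1 := by
      refine grow_det fun a c => ?_
      rw [Matrix.updateCol_apply]
      split_ifs with e
      · refine (hb (l + 1) (by omega) a j).trans_eq ?_
        rw [mul_assoc, ← Real.exp_add, e]
        congr 2
        push_cast
        ring
      · rw [mul_one]
        exact hb l (by omega) a c
    rw [← hN] at h4 h5
    have h6 : (∏ c, K * Real.exp (-(((-l : ℤ) : ℝ) * r c))) * ∏ c, K * Real.exp (-(l * r c)) *
        (if c = i then Real.exp (l * (r i - r j) - r j) else 1) =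
          K ^ (2 * n) * Real.exp (l * (r i - r j) - r j) := by
      rw [Finset.prod_mul_distrib (g := fun c => if c = i then _ else 1), Finset.prod_ite_eq',
        if_pos (Finset.mem_univ i), ← mul_assoc, ← Finset.prod_mul_distrib, pow_mul, hn,
        ← Finset.card_univ, ← Finset.prod_const]
      congr 1
      refine Finset.prod_congr rfl fun c _ => ?_
      rw [mul_mul_mul_comm, ← Real.exp_add, Int.cast_neg, neg_mul, neg_neg, add_neg_cancel,
        Real.exp_zero, mul_one, sq]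
    rw [h3, norm_mul]
    refine (mul_le_mul h4 h5 (norm_nonneg _) ((norm_nonneg _).trans h4)).trans_eq ?_
    rw [mul_mul_mul_comm, h6, hK, pow_succ', ← mul_assoc C, mul_pow, ← Real.exp_nat_mul,
      ← Real.exp_nat_mul, sub_eq_add_neg (l * (r i - r j)), Real.exp_add, Real.exp_add]
    have h7 : ((2 * n : ℕ) : ℝ) * (l.natAbs * ε) = 2 * n * ε * l.natAbs := by
      push_cast
      ring
    rw [h7]
    ring
  obtain ⟨Q, hQ⟩ : ∃ Q : ℝ, Q = N * N * (C * Real.exp ε) ^ (2 * n) * Real.exp (-r j) := ⟨_, rfl⟩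
  rw [← hQ] at key
  have key' : ∀ m : ℕ, ‖g.1 i j‖ ≤ Q * Real.exp (2 * n * ε - |r i - r j|) ^ m := fun m => by
    rw [← Real.exp_nat_mul]
    rcases le_total 0 (r i - r j) with e | e
    · refine (key (-m)).trans_eq ?_
      rw [abs_of_nonneg e, Int.natAbs_neg, Int.natAbs_natCast]
      congr 2
      push_cast
      ring
    · refine (key m).trans_eq ?_
      rw [abs_of_nonpos e, Int.natAbs_natCast]
      congr 2
      push_cast
      ring
  have hlim := (tendsto_pow_atTop_nhds_zero_of_lt_one (Real.exp_pos _).le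
    (Real.exp_lt_one_iff.2 (sub_neg.2 hεδ))).const_mul Q
  rw [mul_zero] at hlim
  exact norm_le_zero_iff.1 (ge_of_tendsto' hlim key')

theorem grow_isVal {b h : GL ν k} {r : ν → ℝ} (hr : ∀ j, GrowV b (r j) fun i => h.1 i j) :
    IsVal (h⁻¹ * b * h) r := fun ρ hρ => by
  choose C hC using fun j => hr j ρ hρ
  refine ⟨(∑ i, ∑ a, ‖(h⁻¹).1 i a‖) * ∑ j, |C j|, fun l i j => ?_⟩
  have h1 : (h⁻¹ * b * h) ^ l = h⁻¹ * (b ^ l * h) := by
    have := conj_zpow (i := l) (a := h⁻¹) (b := b)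
    rwa [inv_inv, mul_assoc h⁻¹ (b ^ l)] at this
  have h2 : 0 ≤ Real.exp (-(l * r j)) * ρ ^ l.natAbs := by positivity
  have h3 : ∀ a, ‖(b ^ l * h).1 a j‖ ≤ (∑ j, |C j|) * (Real.exp (-(l * r j)) * ρ ^ l.natAbs) :=
    fun a => by
      refine (hC j l a).trans ?_
      rw [mul_assoc]
      exact mul_le_mul_of_nonneg_right ((le_abs_self _).trans (Finset.single_le_sum
        (f := fun j => |C j|) (fun _ _ => abs_nonneg _) (Finset.mem_univ j))) h2
  rw [h1, Units.val_mul, Matrix.mul_apply, mul_assoc, mul_assoc]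
  refine (norm_sum_le_of_le _ fun a _ => (norm_mul_le _ _).trans
    (mul_le_mul_of_nonneg_left (h3 a) (norm_nonneg _))).trans ?_
  rw [← Finset.sum_mul]
  exact mul_le_mul_of_nonneg_right (Finset.single_le_sum (f := fun i => ∑ a, ‖(h⁻¹).1 i a‖)
    (fun _ _ => Finset.sum_nonneg fun _ _ => norm_nonneg _) (Finset.mem_univ i))
    ((norm_nonneg _).trans (h3 i))

theorem grow_decomp (b : GL ν k) {κ : Type} (c : ν → κ) (hb : Sup (fun i j => c i = c j) b.1) :
    ∃ (h : GL ν k) (r : ν → ℝ), Sup (fun i j => c i = c j) h.1 ∧ h⁻¹ * b * h ∈ Zgl r ∧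
      IsVal (h⁻¹ * b * h) r := by
  classical
  have hbl : ∀ l : ℤ, Sup (fun i j => c i = c j) (b ^ l).1 := fun l =>
    (mem_Grp_refl (R := fun i j => c i = c j) (ht := fun _ _ _ x y => x.trans y)
      fun _ => rfl).1 (Subgroup.zpow_mem _
        ((mem_Grp_refl (R := fun i j => c i = c j) fun _ => rfl).2 hb) l)
  have hx : ∀ j, (1 : Matrix ν ν k) j ∈
      Submodule.span k {w | (∃ r, GrowV b r w) ∧ ∀ i, w i ≠ 0 → c i = c j} := fun j => by
    obtain ⟨P, hP⟩ : ∃ P : (ν → k) →ₗ[k] (ν → k), ∀ w i, P w i = if c i = c j then w i else 0 :=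
      ⟨Matrix.toLin' (diagonal fun i => if c i = c j then 1 else 0), fun w i => by
        rw [Matrix.toLin'_apply, mulVec_diagonal, ite_mul, one_mul, zero_mul]⟩
    have h1 : P ((1 : Matrix ν ν k) j) = (1 : Matrix ν ν k) j := funext fun i => by
      rw [hP]
      split_ifs with e
      · rfl
      · exact (Matrix.one_apply_ne fun e' : j = i => e (congrArg c e').symm).symm
    have h2 := Submodule.mem_map_of_mem (f := P) (grow_span b ((1 : Matrix ν ν k) j))
    rw [h1, Submodule.map_span] at h2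
    refine Submodule.span_mono ?_ h2
    rintro _ ⟨w, ⟨r, hr⟩, rfl⟩
    refine ⟨⟨r, fun ρ hρ => ?_⟩, fun i hi => by_contra fun e => hi (by rw [hP, if_neg e])⟩
    obtain ⟨C, hC⟩ := hr ρ hρ
    refine ⟨C, fun l i => le_trans ?_ (hC l i)⟩
    by_cases e : c i = c j
    · refine le_of_eq (congrArg norm (Finset.sum_congr rfl fun a _ => ?_))
      by_cases e' : (b ^ l).1 i a = 0
      · simp only [e', zero_mul]
      · rw [hP, if_pos ((hbl l i a e').symm.trans e)]
    · have h3 : ((b ^ l).1 *ᵥ P w) i = 0 := Finset.sum_eq_zero fun a _ => by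
        by_cases e' : (b ^ l).1 i a = 0
        · simp only [e', zero_mul]
        · rw [hP, if_neg fun e'' => e ((hbl l i a e').trans e''), mul_zero]
      rw [h3, norm_zero]
      exact norm_nonneg _
  obtain ⟨v, hv, hdet⟩ := grow_multi (Matrix.detRowAlternating (R := k) (n := ν)).toMultilinearMap
    _ (fun j => (1 : Matrix ν ν k) j) hx (by
      change (1 : Matrix ν ν k).det ≠ 0
      rw [det_one]
      exact one_ne_zero)
  have hdet' : (Matrix.of v)ᵀ.det ≠ 0 := by
    rw [det_transpose]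
    exact hdet
  choose r hr using fun j => (hv j).1
  have hval : IsVal ((Matrix.GeneralLinearGroup.mkOfDetNeZero _ hdet')⁻¹ * b *
      Matrix.GeneralLinearGroup.mkOfDetNeZero _ hdet') r := grow_isVal hr
  exact ⟨_, r, fun i j hij => (hv j).2 i hij, grow_Zgl hval, hval⟩

end Pool.Agent.Lib.MP_60cbcc_al.H3A
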