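import Pool.Agent.Lib.MP_60cbcc_al.H3AT

/-!
The groups of rank at least two.
-/

namespace Pool.Agent.Lib.MP_60cbcc_al.H3A

open Matrix Filter Topology

set_option linter.unusedSectionVars false

variable {k : Type} [NontriviallyNormedField k] [ProperSpace k] {ν : Type} [Fintype ν]
  [DecidableEq ν] {G : Subgroup (GL ν k)}

variable {H : Subgroup (GL ν k)}

theorem high_con {a u : H} : u ∈ H3Z.con a ↔ u.1 ∈ H3Z.con a.1 := by
  unfold H3Z.con
  simp only [Set.mem_ofPred_eq]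
  rw [tendsto_subtype_rng]
  simp only [Subgroup.coe_mul, Subgroup.coe_pow, Subgroup.coe_inv, Subgroup.coe_one]

theorem high_closed (hc : IsClosed (H : Set (GL ν k))) {J : Subgroup H}
    (hJ : IsClosed (J : Set H)) : IsClosed ((J.map H.subtype : Subgroup (GL ν k)) : Set (GL ν k)) := by
  rw [Subgroup.coe_map]
  exact hc.isClosedEmbedding_subtypeVal.isClosedMap _ hJ

theorem high_mem_map {J : Subgroup H} {u : GL ν k} (hu : u ∈ H) (h : (⟨u, hu⟩ : H) ∈ J) :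
    u ∈ (J.map H.subtype : Subgroup (GL ν k)) := ⟨⟨u, hu⟩, h, rfl⟩

theorem high_le_of_map {J : Subgroup H} {L : Subgroup (GL ν k)}
    (h : L ≤ (J.map H.subtype : Subgroup (GL ν k))) : L.subgroupOf H ≤ J := fun x hx => by
  obtain ⟨y, hy, e⟩ := h (Subgroup.mem_subgroupOf.1 hx)
  have : y = x := Subtype.ext e
  exact this ▸ hy

/-- The triangular group attached to an integral grading. -/
def highT (w : ν → ℤ) : Subgroup (GL ν k) :=
  Grp (fun i j => i = j ∨ w j < w i) fun i j l a b => by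
    rcases a with rfl | a
    · exact b
    · rcases b with rfl | b
      · exact Or.inr a
      · exact Or.inr (b.trans a)

theorem highT_solvable (w : ν → ℤ) : Group.IsSolvable (highT (k := k) w) :=
  solvable_Grp fun i j a b => by
    rcases a with a | a
    · exact a
    · rcases b with b | b
      · exact b.symm
      · exact (lt_asymm a b).elim

theorem Ugl_le_highT (w : ν → ℤ) : Ugl (k := k) (cst w) ≤ highT w := fun u hu i j h =>
  Or.inr (by have := hu i j h; simpa [cst] using this)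

theorem dg_mem_highT (w y : ν → ℤ) (t : kˣ) : dg y t ∈ highT (k := k) w := fun i j h => by
  by_cases e : i = j
  · exact Or.inl e
  · exact (h (by simp [dg_val, Matrix.sub_apply, Matrix.diagonal_apply_ne _ e,
      Matrix.one_apply_ne e])).elim

theorem high_root_ne {x : ν → ℝ} (hx : Regl G x) {γ : ν → ℝ} (hγ : γ ∈ Rts G) : γ ⬝ᵥ x ≠ 0 := by
  obtain ⟨h0, i, j, rfl, -⟩ := hγ
  exact hx.ne_zero h0

theorem high_cst_ne {y : ν → ℤ} (hy : y ≠ 0) : cst y ≠ 0 := fun h =>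
  hy (cst_injective (h.trans (by funext i; simp [cst])))

theorem high_cst_LL (hG : Ctx G) {y : ν → ℤ} (hy : y ∈ YY (LL G)) : cst y ∈ aa G :=
  hG.aa_LL ▸ cst_mem hy

theorem high_comm {y : ν → ℤ} {a z : H} (ha : a.1 = (dg y (pw k))⁻¹) (hz : z.1 ∈ Zgl (cst y)) :
    z ∈ Subgroup.centralizer ({a} : Set H) := by
  rw [Subgroup.mem_centralizer_iff]
  rintro b rfl
  apply Subtype.ext
  have h1 := mem_Zgl_iff_comm.1 hz
  simp only [Subgroup.coe_mul, ha]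
  rw [inv_mul_eq_iff_eq_mul, ← mul_assoc, ← h1, mul_inv_cancel_right]

theorem high_cell (hG : Ctx G) (hH : Mid G H) [MeasurableSpace H] [BorelSpace H] {w y : ν → ℤ}
    (hw : Regl G (cst w)) (hy : y ∈ YY (LL G)) (h0 : y ≠ 0)
    (hs : ∀ β ∈ Rts G, 0 < β ⬝ᵥ cst w → 0 ≤ β ⬝ᵥ cst y) {a : H} (ha : a.1 = (dg y (pw k))⁻¹) :
    H3Z.Cell a ((LL G).subgroupOf H) ((LL G ⊓ highT w).subgroupOf H) := by
  have hya : cst y ∈ aa G := high_cst_LL hG hy
  have hya' : -cst y ∈ aa G := (aa G).neg_mem hya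
  have hup : ∀ (u : GL ν k) (hu : u ∈ H), u ∈ Ugl (cst y) → (⟨u, hu⟩ : H) ∈ H3Z.con a⁻¹ :=
    fun u hu h => high_con.2 (by
      rw [Subgroup.coe_inv, ha, inv_inv]
      exact mem_Ugl_iff_con.1 h)
  have hdn : ∀ (u : GL ν k) (hu : u ∈ H), u ∈ Ugl (-cst y) → (⟨u, hu⟩ : H) ∈ H3Z.con a :=
    fun u hu h => high_con.2 (by
      rw [ha]
      exact mem_Ugl_neg_iff_con.1 h)
  refine ⟨?_, ?_, ?_⟩
  · rw [Subgroup.mem_subgroupOf, ha]
    exact Subgroup.inv_mem _ ⟨hy _, dg_mem_highT w y _⟩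
  · refine high_le_of_map (hG.gen (high_closed hH.closed (Subgroup.isClosed_topologicalClosure _))
      hya (high_cst_ne h0) (fun u hu => ?_) fun u hu => ?_)
    · exact high_mem_map (hH.le₁ (U_le_LL hya hu)) (Subgroup.le_topologicalClosure _
        (Subgroup.subset_closure (Or.inr (hup u _ hu.2))))
    · exact high_mem_map (hH.le₁ (U_le_LL hya' hu)) (Subgroup.le_topologicalClosure _
        (Subgroup.subset_closure (Or.inl (hdn u _ hu.2))))
  · intro m hm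
    have hnull := hG.good.null hH.le₂ hH.closed (hG.locD_LL.mono hH.le₁) m (Reg.DD (cst y))
      ⟨1, G.one_mem, by rw [Units.val_one, DD_one]; exact one_ne_zero⟩
    filter_upwards [hnull] with g hg
    obtain ⟨u, hu, z, hz, u', hu', -, e⟩ := hG.good.cell hya (hH.le₂ g.2) hg
    have huH : u ∈ H := hH.le₁ (U_le_LL hya' hu)
    have hu'L : u' ∈ LL G := U_le_LL hya hu'
    have hu'H : u' ∈ H := hH.le₁ hu'L
    have hzH : z ∈ H := by
      have : z = u⁻¹ * g.1 * u'⁻¹ := by rw [e]; group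
      rw [this]
      exact H.mul_mem (H.mul_mem (H.inv_mem huH) g.2) (H.inv_mem hu'H)
    have hu'w : u' ∈ Ugl (cst w) := by
      refine hG.good.U_le hya hw (fun γ hγ h => ?_) hu'
      rcases lt_trichotomy 0 (γ ⬝ᵥ cst w) with h1 | h1 | h1
      · exact h1
      · exact (high_root_ne hw hγ h1.symm).elim
      · have h2 := hs (-γ) (hG.neg_mem hγ) (by rw [neg_dotProduct]; linarith)
        rw [neg_dotProduct] at h2
        linarith
    have e' : g = (⟨u, huH⟩ : H) * ⟨z, hzH⟩ * ⟨u', hu'H⟩ := Subtype.ext e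
    have m1 : (⟨z, hzH⟩ : H) ∈ Subgroup.centralizer ({a} : Set H) := high_comm ha hz.2
    have m2 : (⟨u', hu'H⟩ : H) ∈ (LL G ⊓ highT w).subgroupOf H :=
      Subgroup.mem_subgroupOf.2 (Subgroup.mem_inf.2 ⟨hu'L, Ugl_le_highT w hu'w⟩)
    rw [e']
    exact Set.mul_mem_mul (Set.mul_mem_mul (hdn u huH hu.2) m1) m2

theorem high_gen (hG : Ctx G) (hr : 2 ≤ Module.finrank ℝ (aa G)) {w : ν → ℤ}
    (hw : Regl G (cst w)) {J : Subgroup (GL ν k)} (hJ : IsClosed (J : Set (GL ν k)))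
    (hB : G ⊓ Ugl (cst w) ≤ J)
    (hZ : ∀ y ∈ YY (LL G), y ≠ 0 → (∀ β ∈ Rts G, 0 < β ⬝ᵥ cst w → 0 ≤ β ⬝ᵥ cst y) →
      LL G ⊓ Zgl (cst y) ≤ J) : LL G ≤ J := by
  obtain ⟨W, hS, hW⟩ := hG.exists_weyl hr J
  have hx : cst w ∈ aa G := hw.1
  obtain ⟨τ, hτ, hneg⟩ := hS.gallery hx (fun γ hγ => high_root_ne hw hγ) (by
    rintro γ hγ ⟨y, hy, hy0, hγy, hβ⟩
    have hy' : y ∈ aa (LL G) := hG.aa_LL.symm ▸ hy
    obtain ⟨w', hw', hp, -⟩ := rat_diff (YY (LL G)) hy'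
    have hw'a : cst w' ∈ aa G := high_cst_LL hG hw'
    have hne : w' ≠ 0 := by
      rintro rfl
      refine hy0 (hG.good.eq_zero_of_roots hy fun β hβ' => ?_)
      obtain ⟨-, i, j, rfl, -⟩ := hβ'
      rw [rt_dot G i j hy, sub_eq_zero]
      exact (hp.eq_iff i j).2 (by simp [cst])
    have hpos : ∀ β ∈ Rts G, 0 < β ⬝ᵥ cst w → 0 ≤ β ⬝ᵥ cst w' := fun β hβ' h => by
      have h1 := hβ β hβ' h
      obtain ⟨-, i, j, rfl, -⟩ := hβ'
      rw [rt_dot G i j hy, sub_nonneg] at h1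
      rw [rt_dot G i j hw'a, sub_nonneg]
      exact not_lt.1 fun h2 => not_lt.2 h1 ((hp i j).2 h2)
    have hγ' : γ ⬝ᵥ cst w' = 0 := by
      obtain ⟨-, i, j, rfl, -⟩ := hγ
      rw [rt_dot G i j hy, sub_eq_zero] at hγy
      rw [rt_dot G i j hw'a, sub_eq_zero]
      exact (hp.eq_iff i j).1 hγy
    have hγa : γ ∈ aa G := Rts_mem hγ
    obtain ⟨n, hn, τ, h1, h2⟩ := hG.exists_refl hγ (J := J)
      (fun u hu => hZ w' hw' hne hpos ⟨R_le_LL hγa hγ.1 hu, Rgl_le_Zgl hw'a hγ' hu.2⟩)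
      (fun u hu => hZ w' hw' hne hpos ⟨R_le_LL ((aa G).neg_mem hγa) (neg_ne_zero.2 hγ.1) hu,
        Rgl_le_Zgl hw'a (by rw [neg_dotProduct, hγ', neg_zero]) hu.2⟩)
    exact ⟨τ, (hW τ).2 ⟨n, hn, h1⟩, h2⟩)
  obtain ⟨n, hn, hnW⟩ := (hW τ).1 hτ
  obtain ⟨γ₀, hγ₀⟩ := hG.exists_root
  have hx0 : cst w ≠ 0 := fun h => high_root_ne hw hγ₀ (by rw [h, dotProduct_zero])
  refine hG.gen hJ hx hx0 hB fun u hu => ?_
  have h1 : u ∈ Ugl (cst w ∘ τ) := by
    refine hG.good.U_le ((aa G).neg_mem hx) (hnW.Regl hw) (fun γ hγ h => ?_) hu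
    have h2 := hneg (-γ) (hG.neg_mem hγ) (by rw [neg_dotProduct, ← dotProduct_neg]; exact h)
    rw [neg_dotProduct] at h2
    linarith
  have h2 := hnW.inv.conj_Ugl (hnW.2 _ hx).1 h1
  have h3 : (cst w ∘ τ) ∘ ⇑(τ⁻¹) = cst w := by
    funext i
    simp
  rw [h3] at h2
  have h4 : n⁻¹ * u * n⁻¹⁻¹ ∈ J :=
    hB ⟨G.mul_mem (G.mul_mem (G.inv_mem hnW.1) hu.1) (G.inv_mem (G.inv_mem hnW.1)), h2⟩
  have h5 : u = n * (n⁻¹ * u * n⁻¹⁻¹) * n⁻¹ := by group
  rw [h5]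
  exact J.mul_mem (J.mul_mem hn h4) (J.inv_mem hn)

theorem Ctx.high (hG : Ctx G) (hr : 2 ≤ Module.finrank ℝ (aa G)) (hH : Mid G H)
    [MeasurableSpace H] [BorelSpace H] : H3Z.High ((LL G).subgroupOf H) := by
  obtain ⟨w, -, hw, -⟩ := exists_regl hG.aa_LL (aa G).zero_mem
  refine ⟨hG.std hH, (hG.hasT hr hH).kaz, hG.cocpt hH, (LL G ⊓ highT w).subgroupOf H,
    {a | ∃ y ∈ YY (LL G), y ≠ 0 ∧ (∀ β ∈ Rts G, 0 < β ⬝ᵥ cst w → 0 ≤ β ⬝ᵥ cst y) ∧
      a.1 = (dg y (pw k))⁻¹}, ?_, ?_, ?_, ?_⟩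
  · have := highT_solvable (k := k) w
    let f : ((LL G ⊓ highT w).subgroupOf H) →* highT (k := k) w :=
      { toFun := fun x => ⟨x.1.1, (Subgroup.mem_subgroupOf.1 x.2).2⟩
        map_one' := rfl
        map_mul' := fun _ _ => rfl }
    exact Group.isSolvable_of_isSolvable_injective (f := f) fun x y h =>
      Subtype.ext (Subtype.ext (congrArg (fun z : highT (k := k) w => z.1) h))
  · refine Set.Countable.mono ?_ ((Set.countable_range fun y : ν → ℤ =>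
      (dg y (pw k))⁻¹).preimage (f := fun a : H => a.1) Subtype.val_injective)
    rintro a ⟨y, -, -, -, e⟩
    exact ⟨y, e.symm⟩
  · rintro a ⟨y, hy, h0, hs, e⟩
    exact high_cell hG hH hw hy h0 hs e
  · intro J hJ hB hZ
    refine high_le_of_map (high_gen hG hr hw (high_closed hH.closed hJ) (fun u hu => ?_)
      fun y hy h0 hs u hu => ?_)
    · have huL : u ∈ LL G := U_le_LL hw.1 hu
      exact high_mem_map (hH.le₁ huL)
        (hB (Subgroup.mem_subgroupOf.2 ⟨huL, Ugl_le_highT w hu.2⟩))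
    · have ha : (dg y (pw k))⁻¹ ∈ H := hH.le₁ ((LL G).inv_mem (hy _))
      exact high_mem_map (hH.le₁ hu.1) (hZ ⟨_, ha⟩ ⟨y, hy, h0, hs, rfl⟩
        ⟨high_comm (a := ⟨_, ha⟩) rfl hu.2, Subgroup.mem_subgroupOf.2 hu.1⟩)

end Pool.Agent.Lib.MP_60cbcc_al.H3A
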