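import Pool.Agent.Lib.MP_60cbcc_al.H3AAlg
import Pool.Agent.Lib.MP_60cbcc_al.H3ABurn

/-!
Zariski density of open sets, null sets, an irreducible representation.
-/

namespace Pool.Agent.Lib.MP_60cbcc_al.H3A

open Matrix Filter Topology

set_option linter.unusedSectionVars false

variable {k : Type} [NontriviallyNormedField k] [ProperSpace k] {ν : Type} [Fintype ν]
  [DecidableEq ν] {G : Subgroup (GL ν k)}

open MeasureTheory

/-- Neighbourhoods of the identity of `L` are Zariski dense in `G`. -/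
def LocD (G L : Subgroup (GL ν k)) : Prop :=
  ∀ f, Reg G f → (∀ᶠ g in 𝓝[L] (1 : GL ν k), f g = 0) → ∀ g ∈ G, f g = 0

theorem LocD.mono {L H : Subgroup (GL ν k)} (h : LocD G L) (hH : L ≤ H) : LocD G H :=
  fun f hf h0 => h f hf (h0.filter_mono (nhdsWithin_mono _ hH))

/-- The ideal of the polynomials vanishing along a filter. -/
def zarI (l : Filter (GL ν k)) : Ideal (MvPolynomial (ν × ν) k) where
  carrier := {p | ∀ᶠ g in l, ev g.1 p = 0}
  zero_mem' := Eventually.of_forall fun g => by simp [ev]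
  add_mem' := fun {a b} ha hb => by
    filter_upwards [ha, hb] with g h1 h2
    simp only [ev] at h1 h2 ⊢
    rw [map_add, h1, h2, add_zero]
  smul_mem' := fun c a ha => by
    filter_upwards [ha] with g h1
    simp only [ev] at h1 ⊢
    rw [smul_eq_mul, map_mul, h1, mul_zero]

theorem mem_zarI {l : Filter (GL ν k)} {p : MvPolynomial (ν × ν) k} :
    p ∈ zarI l ↔ ∀ᶠ g in l, ev g.1 p = 0 := Iff.rfl

theorem zar_unif (l : Filter (GL ν k)) : ∀ᶠ g in l, ∀ p ∈ zarI l, ev g.1 p = 0 := by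
  obtain ⟨s, hs⟩ := IsNoetherian.noetherian (zarI l)
  have h1 : ∀ᶠ g in l, ∀ p ∈ s, ev g.1 p = 0 :=
    (eventually_all_finset s).2 fun p hp =>
      mem_zarI.1 (hs ▸ Submodule.subset_span (Finset.mem_coe.2 hp))
  filter_upwards [h1] with g hg p hp
  rw [← hs] at hp
  have h2 : Submodule.span (MvPolynomial (ν × ν) k) (s : Set (MvPolynomial (ν × ν) k)) ≤
      zarI (pure g) := Submodule.span_le.2 fun q hq => mem_zarI.2 (hg q hq)
  exact h2 hp

theorem zar_unif_reg {l : Filter (GL ν k)} (hl : ∀ᶠ g in l, g ∈ G) :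
    ∀ᶠ g in l, ∀ f, Reg G f → (∀ᶠ x in l, f x = 0) → f g = 0 := by
  filter_upwards [zar_unif l, hl] with g hg hG f ⟨p, hp⟩ h0
  rw [hp g hG]
  refine hg p (mem_zarI.2 ?_)
  filter_upwards [h0, hl] with x hx hxG
  rw [← hp x hxG, hx]

theorem zar_tendsto {L : Subgroup (GL ν k)} {F : GL ν k → GL ν k} (hF : Continuous F)
    (hL : ∀ x ∈ L, F x ∈ L) : Tendsto F (𝓝[L] 1) (𝓝[L] (F 1)) :=
  (hF.continuousWithinAt (s := L) (x := 1)).tendsto_nhdsWithin (t := L) fun x hx => hL x hx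

theorem Good.locD (hG : Good G) {L : Subgroup (GL ν k)} (hL : L ≤ G) (hz : ZD G L)
    (hn : ∃ᶠ x in 𝓝[L] (1 : GL ν k), ¬ Cen G x) : LocD G L := by
  have hLG : ∀ᶠ g in 𝓝[L] (1 : GL ν k), g ∈ G :=
    (eventually_mem_nhdsWithin (s := (L : Set (GL ν k))) (a := 1)).mono fun g hg => hL hg
  have hu := zar_unif_reg hLG
  have hu2 : ∀ᶠ w in 𝓝[L] (1 : GL ν k), ∀ᶠ g in 𝓝[L] w,
      ∀ f, Reg G f → (∀ᶠ x in 𝓝[L] (1 : GL ν k), f x = 0) → f g = 0 :=
    eventually_eventually_nhdsWithin.2 hu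
  let N : Subgroup (GL ν k) :=
    { carrier := {g | g ∈ G ∧ ∀ f, Reg G f → (∀ᶠ x in 𝓝[L] (1 : GL ν k), f x = 0) → f g = 0}
      one_mem' := ⟨G.one_mem, fun f _ h0 => h0.self_of_nhdsWithin L.one_mem⟩
      mul_mem' := fun {a b} ⟨haG, ha⟩ ⟨hbG, hb⟩ => ⟨G.mul_mem haG hbG, fun f hf h0 => by
        have h1 : Reg G fun x => f (1 * x * b) := hf.transl G.one_mem hbG
        have h2 := ha _ h1 (by
          filter_upwards [hu2, eventually_mem_nhdsWithin] with w hw hwL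
          have h3 : Reg G fun x => f (w * x * 1) := hf.transl (hL hwL) G.one_mem
          have h4 := hb _ h3 (by
            have h5 : Tendsto (fun x => w * x) (𝓝[L] 1) (𝓝[L] (w * 1)) :=
              zar_tendsto (continuous_const.mul continuous_id) fun x hx => L.mul_mem hwL hx
            rw [mul_one] at h5
            filter_upwards [h5.eventually hw] with x hx
            rw [mul_one]
            exact hx f hf h0)
          simpa using h4)
        simpa using h2⟩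
      inv_mem' := fun {a} ⟨haG, ha⟩ => ⟨G.inv_mem haG, fun f hf h0 => by
        refine ha _ (hf.inv hG.det) ?_
        have h5 : Tendsto (fun x : GL ν k => x⁻¹) (𝓝[L] 1) (𝓝[L] (1 : GL ν k)⁻¹) :=
          zar_tendsto continuous_inv fun x hx => L.inv_mem hx
        rw [inv_one] at h5
        exact h5.eventually h0⟩ }
  have hd := hG.dich (N := N) (fun g hg => hg.1) (D := L) hL hz fun l hl x hx =>
    ⟨G.mul_mem (G.mul_mem (hL hl) hx.1) (G.inv_mem (hL hl)), fun f hf h0 => by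
      refine hx.2 _ (hf.transl (hL hl) (G.inv_mem (hL hl))) ?_
      have h5 : Tendsto (fun x : GL ν k => l * x * l⁻¹) (𝓝[L] 1) (𝓝[L] (l * 1 * l⁻¹)) :=
        zar_tendsto ((continuous_const.mul continuous_id).mul continuous_const) fun x hx =>
          L.mul_mem (L.mul_mem hl hx) (L.inv_mem hl)
      rw [mul_one, mul_inv_cancel] at h5
      exact h5.eventually h0⟩
  rcases hd with hd | hd
  · exfalso
    refine hn ?_
    filter_upwards [hu, hLG] with g hg hgG hc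
    exact hc (hd g ⟨hgG, hg⟩)
  · exact fun f hf h0 => hd f hf fun s hs => hs.2 f hf h0

/-- Subsets of `H` cut out by polynomial functions. -/
def ZarCl (G H : Subgroup (GL ν k)) (Z : Set H) : Prop :=
  ∀ h : H, (∀ f, Reg G f → (∀ z ∈ Z, f z.1 = 0) → f h.1 = 0) → h ∈ Z

theorem ZarCl.inter {H : Subgroup (GL ν k)} {Z Z' : Set H} (h : ZarCl G H Z)
    (h' : ZarCl G H Z') : ZarCl G H (Z ∩ Z') := fun x hx =>
  ⟨h x fun f hf h0 => hx f hf fun z hz => h0 z hz.1,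
    h' x fun f hf h0 => hx f hf fun z hz => h0 z hz.2⟩

theorem ZarCl.pre {H : Subgroup (GL ν k)} (hH : H ≤ G) {Z : Set H} (h : ZarCl G H Z) (g : H) :
    ZarCl G H ((fun x => g * x) ⁻¹' Z) := fun x hx =>
  h (g * x) fun f hf h0 => by
    have h1 := hx _ (hf.transl (hH g.2) G.one_mem) fun z hz => by
      simpa using h0 (g * z) hz
    simpa using h1

theorem ZarCl.isClosed {H : Subgroup (GL ν k)} (hH : H ≤ G) {Z : Set H} (h : ZarCl G H Z) :
    IsClosed Z := by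
  refine isClosed_of_closure_subset fun x hx => h x fun f hf h0 => ?_
  have hc : Continuous fun z : H => f z.1 :=
    hf.continuousOn.comp_continuous continuous_subtype_val fun z => hH z.2
  exact closure_minimal (t := {z : H | f z.1 = 0}) h0 (isClosed_eq hc continuous_const) hx

theorem zar_min {H : Subgroup (GL ν k)} (hH : H ≤ G) (P : Set H → Prop) {Z₀ : Set H}
    (h0 : ZarCl G H Z₀) (hP : P Z₀) :
    ∃ Z, ZarCl G H Z ∧ P Z ∧ ∀ Z', ZarCl G H Z' → P Z' → Z' ⊆ Z → Z ⊆ Z' := by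
  obtain ⟨I, ⟨Z, ⟨hZ, hPZ⟩, rfl⟩, hmax⟩ := set_has_maximal_iff_noetherian.2
    (inferInstance : IsNoetherian (MvPolynomial (ν × ν) k) (MvPolynomial (ν × ν) k))
    ((fun Z : Set H => zarI (𝓟 (Subtype.val '' Z))) '' {Z | ZarCl G H Z ∧ P Z})
    ⟨_, Z₀, ⟨h0, hP⟩, rfl⟩
  refine ⟨Z, hZ, hPZ, fun Z' hZ' hPZ' hs x hx => hZ' x fun f ⟨p, hp⟩ hf => ?_⟩
  have hle : zarI (𝓟 (Subtype.val '' Z)) ≤ zarI (𝓟 (Subtype.val '' Z')) := fun q hq =>
    mem_zarI.2 ((mem_zarI.1 hq).filter_mono (principal_mono.2 (Set.image_mono hs)))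
  have heq := (eq_of_le_of_not_lt hle (hmax _ ⟨Z', ⟨hZ', hPZ'⟩, rfl⟩))
  have hp' : p ∈ zarI (𝓟 (Subtype.val '' Z')) := mem_zarI.2 (eventually_principal.2 (by
    rintro _ ⟨z, hz, rfl⟩
    rw [← hp _ (hH z.2)]
    exact hf z hz))
  rw [← heq] at hp'
  rw [hp _ (hH x.2)]
  exact eventually_principal.1 (mem_zarI.1 hp') _ ⟨x, hx, rfl⟩

open scoped Pointwise in
theorem zar_stein {Γ : Type} [Group Γ] [TopologicalSpace Γ] [IsTopologicalGroup Γ]
    [LocallyCompactSpace Γ] [SecondCountableTopology Γ] [MeasurableSpace Γ] [BorelSpace Γ]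
    (μ : Measure Γ) [μ.IsHaarMeasure] {Z : Set Γ} (hZ : IsClosed Z) (h0 : μ Z ≠ 0) :
    ∀ᶠ g in 𝓝 (1 : Γ), μ ((fun x => g * x) ⁻¹' Z ∩ Z) ≠ 0 := by
  obtain ⟨K, hKZ, hK, hK0⟩ := hZ.measurableSet.exists_lt_isCompact (μ := μ) (pos_iff_ne_zero.2 h0)
  have hK' : IsCompact (closure K) := hK.closure
  have hs : closure K ⊆ Z := closure_minimal hKZ hZ
  have hp : μ (closure K) ≠ 0 := (hK0.trans_le (measure_mono subset_closure)).ne'
  have h1 := eventually_nhds_one_measure_smul_sdiff_lt (μ := μ) hK' isClosed_closure hp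
  have h2 : Tendsto (fun g : Γ => g⁻¹) (𝓝 1) (𝓝 1) := by
    simpa using (continuous_inv (G := Γ)).tendsto 1
  filter_upwards [h2.eventually h1] with g hg h
  refine hg.not_ge ?_
  have h3 : g⁻¹ • closure K ⊆ (g⁻¹ • closure K \ closure K) ∪ ((fun x => g * x) ⁻¹' Z ∩ Z) := by
    intro x hx
    by_cases hx' : x ∈ closure K
    · refine Or.inr ⟨hs ?_, hs hx'⟩
      simpa [Set.mem_smul_set_iff_inv_smul_mem] using hx
    · exact Or.inl ⟨hx, hx'⟩
  have h4 := (measure_mono (μ := μ) h3).trans (measure_union_le _ _)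
  rwa [h, add_zero, measure_smul] at h4

theorem Good.null (hG : Good G) {H : Subgroup (GL ν k)} (hH : H ≤ G)
    (hc : IsClosed (H : Set (GL ν k))) (hl : LocD G H) [MeasurableSpace H] [BorelSpace H]
    (μ : Measure H) [μ.IsHaarMeasure] {f : GL ν k → k} (hf : Reg G f) (h0 : ∃ g ∈ G, f g ≠ 0) :
    ∀ᵐ h ∂μ, f h.1 ≠ 0 := by
  haveI : LocallyCompactSpace H := hc.locallyCompactSpace
  haveI : SecondCountableTopology H :=
    TopologicalSpace.Subtype.secondCountableTopology (H : Set (GL ν k))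
  by_contra hcon
  have h1 : μ {h : H | f h.1 = 0} ≠ 0 := fun h => hcon (by simpa [ae_iff] using h)
  have h2 : {h : H | f h.1 = 0} ≠ Set.univ := fun h => by
    obtain ⟨g, hg, hg0⟩ := h0
    refine hg0 (hl f hf ?_ g hg)
    filter_upwards [eventually_mem_nhdsWithin] with x hx
    exact (h.symm ▸ Set.mem_univ _ : (⟨x, hx⟩ : H) ∈ {h : H | f h.1 = 0})
  obtain ⟨Z, hZ, ⟨hZ0, hZu⟩, hmin⟩ := zar_min hH (fun Z => μ Z ≠ 0 ∧ Z ≠ Set.univ)
    (Z₀ := {h : H | f h.1 = 0}) (fun h hh => hh f hf fun z hz => hz) ⟨h1, h2⟩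
  have h3 : ∀ᶠ g in 𝓝 (1 : H), ∀ z ∈ Z, g * z ∈ Z := by
    filter_upwards [zar_stein μ (hZ.isClosed hH) hZ0] with g hg z hz
    exact (hmin _ ((hZ.pre hH g).inter hZ) ⟨hg, fun h => hZu (Set.eq_univ_of_univ_subset
      (h ▸ Set.inter_subset_right))⟩ Set.inter_subset_right hz).1
  obtain ⟨z, hz⟩ := nonempty_of_measure_ne_zero hZ0
  refine hZu (Set.eq_univ_of_forall fun x => hZ x fun f' hf' h0' => ?_)
  have h4 := hl _ (hf'.transl G.one_mem (hH z.2)) (by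
    have h5 : 𝓝[H] (1 : GL ν k) = map Subtype.val (𝓝 (1 : H)) :=
      nhdsWithin_eq_map_subtype_coe H.one_mem
    rw [h5, eventually_map]
    filter_upwards [h3] with g hg
    simpa using h0' _ (hg z hz)) (x * z⁻¹ : H) (hH (x * z⁻¹).2)
  simpa using h4

section Quot

variable {m : Type} [Fintype m] [DecidableEq m] {ρ : GL ν k → Matrix m m k}
  {V₂ V₁ : Submodule k (m → k)} {d : ℕ} {p : Matrix (Fin d) m k} {s : Matrix m (Fin d) k}

theorem zar_sub (h1 : p * s = 1) (h2 : ∀ w, s *ᵥ w ∈ V₁) (h3 : ∀ v ∈ V₁, p *ᵥ v = 0 ↔ v ∈ V₂)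
    {v : m → k} (hv : v ∈ V₁) : v - s *ᵥ (p *ᵥ v) ∈ V₂ :=
  (h3 _ (V₁.sub_mem hv (h2 _))).1 (by
    rw [mulVec_sub, mulVec_mulVec (p *ᵥ v), h1, one_mulVec, sub_self])

theorem zar_quot (hρ : Rep G ρ) (h12 : V₂ ≤ V₁) (i₂ : Inv (ρ '' G) V₂) (i₁ : Inv (ρ '' G) V₁)
    (h1 : p * s = 1) (h2 : ∀ w, s *ᵥ w ∈ V₁) (h3 : ∀ v ∈ V₁, p *ᵥ v = 0 ↔ v ∈ V₂) :
    Rep G fun g => p * ρ g * s := by
  refine ⟨by rw [hρ.one, Matrix.mul_one, h1], fun g hg h hh => ?_, fun a b => ?_⟩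
  · refine Matrix.ext_of_mulVec_single fun i => ?_
    generalize (Pi.single i 1 : Fin d → k) = w
    have hv : ρ h *ᵥ (s *ᵥ w) ∈ V₁ := i₁ _ ⟨h, hh, rfl⟩ _ (h2 w)
    have h4 := i₂ _ ⟨g, hg, rfl⟩ _ (zar_sub h1 h2 h3 hv)
    have h5 := (h3 _ (h12 h4)).2 h4
    rw [mulVec_sub, mulVec_sub, sub_eq_zero] at h5
    rw [hρ.mul g hg h hh]
    simp only [← mulVec_mulVec]
    exact h5
  · exact Reg.matmul (F := fun g => p * ρ g) (F' := fun _ => s)
      (Reg.matmul (F := fun _ => p) (fun _ _ => Reg.const _) hρ.reg) (fun _ _ => Reg.const _) a b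

theorem zar_triv {g : GL ν k} (hg : g ∈ G) (i₂ : Inv (ρ '' G) V₂) (i₁ : Inv (ρ '' G) V₁)
    (h1 : p * s = 1) (h2 : ∀ w, s *ᵥ w ∈ V₁) (h3 : ∀ v ∈ V₁, p *ᵥ v = 0 ↔ v ∈ V₂)
    (h : p * ρ g * s = 1) {v : m → k} (hv : v ∈ V₁) : ρ g *ᵥ v - v ∈ V₂ := by
  have h4 := i₂ _ ⟨g, hg, rfl⟩ _ (zar_sub h1 h2 h3 hv)
  have h5 : ρ g *ᵥ (s *ᵥ (p *ᵥ v)) - v ∈ V₂ :=
    (h3 _ (V₁.sub_mem (i₁ _ ⟨g, hg, rfl⟩ _ (h2 _)) hv)).1 (by
      rw [mulVec_sub, mulVec_mulVec, mulVec_mulVec, h, one_mulVec, sub_self])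
  have h6 := V₂.add_mem h4 h5
  rwa [mulVec_sub, sub_add_sub_cancel] at h6

end Quot

theorem Good.exists_irrep (hG : Good G) : ∃ (d : ℕ) (ρ : GL ν k → Matrix (Fin d) (Fin d) k),
    Rep G ρ ∧ Irr (ρ '' G) ⊥ ⊤ ∧ ∃ g ∈ G, ρ g ≠ 1 := by
  classical
  have hex : ∃ d : ℕ, ∃ ρ : GL ν k → Matrix (Fin d) (Fin d) k, Rep G ρ ∧ ∃ g ∈ G, ρ g ≠ 1 := by
    let e := Fintype.equivFin ν
    refine ⟨Fintype.card ν, fun g => Matrix.reindexAlgEquiv k k e g.1, ⟨by simp,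
      fun g _ h _ => by simp only [Units.val_mul, map_mul], fun a b => ?_⟩, ?_⟩
    · exact Reg.entry (e.symm a) (e.symm b)
    · obtain ⟨x, hx, hc⟩ := hG.noncomm
      refine ⟨x, hx, fun h => hc ?_⟩
      have h1 : x = 1 := Units.ext ((map_eq_one_iff _ (AlgEquiv.injective _)).1 h)
      intro g _
      rw [h1, mul_one, one_mul]
  obtain ⟨ρ, hρ, g₀, hg₀, hne⟩ := Nat.find_spec hex
  have hmin : ∀ d < Nat.find hex, ∀ σ : GL ν k → Matrix (Fin d) (Fin d) k, Rep G σ →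
      ∀ g ∈ G, σ g = 1 := fun d hd σ hσ g hg => by
    by_contra h
    exact Nat.find_min hex hd ⟨σ, hσ, g, hg, h⟩
  have ib : Inv (ρ '' G) ⊥ := fun h _ v hv => by
    rw [(Submodule.mem_bot k).1 hv, mulVec_zero]
    exact Submodule.zero_mem _
  have it : Inv (ρ '' G) ⊤ := fun _ _ _ _ => Submodule.mem_top
  refine ⟨_, ρ, hρ, ⟨?_, ib, it, fun V _ _ hV => ?_⟩, g₀, hg₀, hne⟩
  · refine bot_lt_iff_ne_bot.2 fun h => hne (Matrix.ext fun a b => ?_)
    have h1 : (Pi.single a 1 : Fin (Nat.find hex) → k) ∈ (⊥ : Submodule k _) :=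
      h ▸ Submodule.mem_top
    have h2 := congrFun ((Submodule.mem_bot k).1 h1) a
    simp at h2
  by_contra hcon
  push Not at hcon
  obtain ⟨d₁, p₁, s₁, a1, a2, a3⟩ := exists_quot (bot_le : ⊥ ≤ V)
  obtain ⟨d₂, p₂, s₂, b1, b2, b3⟩ := exists_quot (le_top : V ≤ ⊤)
  have hd₁ : d₁ < Nat.find hex := by
    have h1 : Function.Injective s₁.mulVecLin := fun x y h => by
      have h2 := congrArg (fun v => p₁ *ᵥ v) h
      simpa only [mulVecLin_apply, mulVec_mulVec, a1, one_mulVec] using h2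
    have h2 := LinearMap.finrank_range_of_inj h1
    have h3 : LinearMap.range s₁.mulVecLin ≤ V := by
      rintro _ ⟨w, rfl⟩
      exact a2 w
    have h4 := Submodule.finrank_mono h3
    have h5 := Submodule.finrank_lt hcon.2
    simp only [Module.finrank_fin_fun] at h2 h5
    omega
  have hd₂ : d₂ < Nat.find hex := by
    have h1 : LinearMap.range p₂.mulVecLin = ⊤ := LinearMap.range_eq_top.2 fun w =>
      ⟨s₂ *ᵥ w, by rw [mulVecLin_apply, mulVec_mulVec, b1, one_mulVec]⟩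
    have h2 := LinearMap.finrank_range_add_finrank_ker p₂.mulVecLin
    have h3 : LinearMap.ker p₂.mulVecLin = V := Submodule.ext fun v => b3 v Submodule.mem_top
    have h4 : Module.finrank k V ≠ 0 := fun h => hcon.1 (Submodule.finrank_eq_zero.1 h)
    rw [h1, h3, finrank_top] at h2
    simp only [Module.finrank_fin_fun] at h2
    omega
  have t1 := hmin _ hd₁ _ (zar_quot hρ bot_le ib hV a1 a2 a3)
  have t2 := hmin _ hd₂ _ (zar_quot hρ le_top hV it b1 b2 b3)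
  have key : ∀ g ∈ G, ∀ h ∈ G, ρ g * ρ h = ρ g + ρ h - 1 := fun g hg h hh => by
    refine Matrix.ext_of_mulVec_single fun i => ?_
    generalize (Pi.single i 1 : Fin (Nat.find hex) → k) = w
    have h1 := zar_triv hh hV it b1 b2 b3 (t2 h hh) (Submodule.mem_top (x := w))
    have h2 := (Submodule.mem_bot k).1 (zar_triv hg ib hV a1 a2 a3 (t1 g hg) h1)
    rw [mulVec_sub, sub_sub, sub_eq_zero] at h2
    rw [← mulVec_mulVec, h2, sub_mulVec, add_mulVec, one_mulVec, add_sub_assoc]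
  exact hne (hG.ab hρ (fun g hg h hh => by rw [key g hg h hh, key h hh g hg, add_comm]) g₀ hg₀)

theorem zar_inv {m : Type} [Fintype m] [DecidableEq m] {ρ : GL ν k → Matrix m m k}
    (hρ : Rep G ρ) {V : Submodule k (m → k)} {x : GL ν k} (hx : x ∈ G)
    (h : ∀ v ∈ V, ρ x *ᵥ v ∈ V) : ∀ v ∈ V, ρ x⁻¹ *ᵥ v ∈ V := by
  let A : Subalgebra k (Matrix m m k) :=
    { carrier := {M | ∀ v ∈ V, M *ᵥ v ∈ V}
      mul_mem' := fun {a b} ha hb v hv => by
        rw [← mulVec_mulVec]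
        exact ha _ (hb v hv)
      add_mem' := fun {a b} ha hb v hv => by
        rw [add_mulVec]
        exact V.add_mem (ha v hv) (hb v hv)
      algebraMap_mem' := fun c v hv => by
        rw [Algebra.algebraMap_eq_smul_one, smul_mulVec, one_mulVec]
        exact V.smul_mem c hv }
  exact inv_mem_subalgebra A (g := ⟨ρ x, ρ x⁻¹, (hρ.inv_mul hx).2, (hρ.inv_mul hx).1⟩) h

/-- Finitely many conjugates of a non-central element by small elements generate an irreducible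
group. -/
theorem Good.exists_span (hG : Good G) {L : Subgroup (GL ν k)} (hL : L ≤ G) (hl : LocD G L)
    {m : Type} [Fintype m] [DecidableEq m] {ρ : GL ν k → Matrix m m k} (hρ : Rep G ρ)
    (hI : Irr (ρ '' G) ⊥ ⊤) {g : GL ν k} (hg : g ∈ G) (hc : ¬ Cen G g) :
    ∃ d : ℕ, ∀ U ∈ 𝓝[L] (1 : GL ν k), ∃ s : Finset (GL ν k), s.card ≤ d ∧
      (s : Set (GL ν k)) ⊆ U ∩ L ∧
      Irr (ρ '' (Subgroup.closure {f | ∃ v ∈ s, f = v * g * v⁻¹} : Subgroup (GL ν k))) ⊥ ⊤ := by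
  classical
  refine ⟨Module.finrank k (Matrix m m k), fun U hU => ?_⟩
  obtain ⟨κ, a, -, hsp, hli⟩ := exists_linearIndependent' k
    fun v : (U ∩ L : Set (GL ν k)) => ρ (v.1 * g * v.1⁻¹)
  haveI : Finite κ := hli.finite
  letI : Fintype κ := Fintype.ofFinite κ
  refine ⟨Finset.univ.image fun i => (a i).1,
    Finset.card_image_le.trans hli.fintype_card_le_finrank, ?_, hI.lt, ?_,
    fun _ _ _ _ => Submodule.mem_top, fun V _ _ hV => ?_⟩
  · intro x hx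
    obtain ⟨i, -, rfl⟩ := Finset.mem_image.1 (Finset.mem_coe.1 hx)
    exact (a i).2
  · intro h _ v hv
    rw [(Submodule.mem_bot k).1 hv, mulVec_zero]
    exact Submodule.zero_mem _
  have h1 : Inv (Set.range ((fun v : (U ∩ L : Set (GL ν k)) => ρ (v.1 * g * v.1⁻¹)) ∘ a)) V := by
    rintro _ ⟨i, rfl⟩
    exact hV _ ⟨_, Subgroup.subset_closure
      ⟨(a i).1, Finset.mem_image.2 ⟨i, Finset.mem_univ _, rfl⟩, rfl⟩, rfl⟩
  have h2 : ∀ x ∈ U ∩ L, ∀ w ∈ V, ρ (x * g * x⁻¹) *ᵥ w ∈ V := fun x hx w hw =>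
    h1.span (hsp ▸ Submodule.subset_span ⟨⟨x, hx⟩, rfl⟩) hw
  obtain ⟨d, p, s, -, -, b3⟩ := exists_quot (le_top : V ≤ ⊤)
  have h3 : ∀ x ∈ G, ∀ w ∈ V, ρ (x * g * x⁻¹) *ᵥ w ∈ V := fun x hx w hw => by
    refine (b3 _ Submodule.mem_top).1 (funext fun i => ?_)
    have r1 : ∀ a b, Reg G fun x => (ρ x * ρ g * ρ x⁻¹) a b :=
      Reg.matmul (F := fun x => ρ x * ρ g) (F' := fun x => ρ x⁻¹)
        (Reg.matmul (F' := fun _ => ρ g) hρ.reg fun _ _ => Reg.const _)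
        fun a b => (hρ.reg a b).inv hG.det
    have r2 : Reg G fun x => (p *ᵥ ((ρ x * ρ g * ρ x⁻¹) *ᵥ w)) i :=
      Reg.sum Finset.univ fun b _ => (Reg.const (p i b)).mul
        (Reg.sum Finset.univ fun c _ => (r1 b c).mul (Reg.const (w c)))
    have r3 : Reg G fun x => (p *ᵥ (ρ (x * g * x⁻¹) *ᵥ w)) i := r2.congr fun y hy => by
      rw [hρ.mul _ (G.mul_mem hy hg) _ (G.inv_mem hy), hρ.mul _ hy _ hg]
    refine hl _ r3 ?_ x hx
    filter_upwards [hU, eventually_mem_nhdsWithin] with y hy hyL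
    rw [(b3 _ Submodule.mem_top).2 (h2 y ⟨hy, hyL⟩ w hw)]
    rfl
  let N : Subgroup (GL ν k) := Subgroup.closure {f | ∃ v ∈ G, f = v * g * v⁻¹}
  have hN : ∀ x ∈ N, x ∈ G ∧ (∀ w ∈ V, ρ x *ᵥ w ∈ V) ∧ ∀ y ∈ G, y * x * y⁻¹ ∈ N := fun x hx => by
    induction hx using Subgroup.closure_induction with
    | mem x hx =>
      obtain ⟨v, hv, rfl⟩ := hx
      exact ⟨G.mul_mem (G.mul_mem hv hg) (G.inv_mem hv), h3 v hv, fun y hy =>
        Subgroup.subset_closure ⟨y * v, G.mul_mem hy hv, by group⟩⟩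
    | one => exact ⟨G.one_mem, fun w hw => by rwa [hρ.one, one_mulVec], fun y _ => by
        rw [mul_one, mul_inv_cancel]; exact N.one_mem⟩
    | mul x x' _ _ hx hx' =>
      refine ⟨G.mul_mem hx.1 hx'.1, fun w hw => ?_, fun y hy => ?_⟩
      · rw [hρ.mul _ hx.1 _ hx'.1, ← mulVec_mulVec]
        exact hx.2.1 _ (hx'.2.1 w hw)
      · have := N.mul_mem (hx.2.2 y hy) (hx'.2.2 y hy)
        rwa [show y * x * y⁻¹ * (y * x' * y⁻¹) = y * (x * x') * y⁻¹ by group] at this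
    | inv x _ hx =>
      refine ⟨G.inv_mem hx.1, zar_inv hρ hx.1 hx.2.1, fun y hy => ?_⟩
      have := N.inv_mem (hx.2.2 y hy)
      rwa [show (y * x * y⁻¹)⁻¹ = y * x⁻¹ * y⁻¹ by group] at this
  rcases hG.dich (N := N) (fun x hx => (hN x hx).1) (D := G) subset_rfl
    (fun _ _ h => h) (fun y hy x hx => (hN x hx).2.2 y hy) with hd | hd
  · exact (hc (hd g (Subgroup.subset_closure ⟨1, G.one_mem, by group⟩))).elim
  · refine (hd.irr (fun x hx => (hN x hx).1) hρ hI).irr V bot_le le_top ?_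
    rintro _ ⟨x, hx, rfl⟩
    exact (hN x hx).2.1

end Pool.Agent.Lib.MP_60cbcc_al.H3A
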