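import Pool.Agent.Lib.MP_60cbcc_al.H3ACov
import Pool.Agent.Lib.MP_60cbcc_al.H3AZar

/-!
The subgroup generated by the unipotent radicals is almost simple.
-/

namespace Pool.Agent.Lib.MP_60cbcc_al.H3A

open Matrix Filter Topology

set_option linter.unusedSectionVars false

variable {k : Type} [NontriviallyNormedField k] [ProperSpace k] {ν : Type} [Fintype ν]
  [DecidableEq ν] {G : Subgroup (GL ν k)}

theorem l_isClosed_cj {N : Subgroup (GL ν k)} (hc : IsClosed (N : Set (GL ν k))) (g : GL ν k) :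
    IsClosed (cj g N : Set (GL ν k)) :=
  hc.preimage (f := fun x : GL ν k => g * x * g⁻¹) (by fun_prop)

theorem l_dot_pos {γ : ν → ℝ} (h0 : γ ≠ 0) : 0 < γ ⬝ᵥ γ :=
  lt_of_le_of_ne (dotProduct_self_star_nonneg γ) fun h =>
    h0 (dotProduct_self_eq_zero.1 h.symm)

theorem l_ZD_self : ZD G (G : Set (GL ν k)) := fun _ _ h => h

theorem l_exists_int {N : Subgroup (GL ν k)} {y : ν → ℝ} (hy : y ∈ aa N) :
    ∃ w ∈ YY N, Ugl (k := k) y = Ugl (cst w) := by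
  obtain ⟨w, hw, hp, -⟩ := rat_diff (YY N) hy
  exact ⟨w, hw, hp.Ugl⟩

theorem l_exists_dot {N : Subgroup (GL ν k)} {γ : ν → ℝ} (hγ : γ ∈ aa N) (h0 : γ ≠ 0) :
    ∃ y ∈ YY N, γ ⬝ᵥ cst y ≠ 0 := by
  by_contra h
  push Not at h
  have key : ∀ x ∈ aa N, γ ⬝ᵥ x = 0 := fun x hx => by
    refine Submodule.span_induction (p := fun x _ => γ ⬝ᵥ x = 0) ?_ ?_ ?_ ?_ hx
    · rintro _ ⟨y, hy, rfl⟩
      exact h y hy
    · simp
    · intro a b _ _ ha hb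
      rw [dotProduct_add, ha, hb, add_zero]
    · intro c a _ ha
      rw [dotProduct_smul, ha, smul_zero]
  exact (l_dot_pos h0).ne' (key γ hγ)

theorem U_le_LL {y : ν → ℝ} (hy : y ∈ aa G) : G ⊓ Ugl y ≤ LL G :=
  (le_iSup₂_of_le (f := fun y (_ : y ∈ aa G) => G ⊓ Ugl y) y hy le_rfl).trans
    (Subgroup.le_topologicalClosure _)

theorem R_le_LL {γ : ν → ℝ} (hγ : γ ∈ aa G) (h0 : γ ≠ 0) : G ⊓ Rgl G γ ≤ LL G :=
  (inf_le_inf_left G (Rgl_le_Ugl hγ (l_dot_pos h0))).trans (U_le_LL hγ)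

theorem isClosed_LL : IsClosed (LL G : Set (GL ν k)) := Subgroup.isClosed_topologicalClosure _

theorem l_LL_le {N : Subgroup (GL ν k)} (hc : IsClosed (N : Set (GL ν k)))
    (h : ∀ y ∈ aa G, G ⊓ Ugl y ≤ N) : LL G ≤ N :=
  Subgroup.topologicalClosure_minimal _ (iSup₂_le h) hc

theorem Good.LL_le (hG : Good G) : LL G ≤ G :=
  l_LL_le hG.isClosed fun _ _ => inf_le_left

theorem l_conj_U {y : ν → ℝ} {z u : GL ν k} (hz : z ∈ G) (hz' : z ∈ Pgl y) (hu : u ∈ G ⊓ Ugl y) :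
    z * u * z⁻¹ ∈ G ⊓ Ugl y :=
  ⟨G.mul_mem (G.mul_mem hz hu.1) (G.inv_mem hz), Pgl_conj_Ugl hz' hu.2⟩

theorem l_M_norm {m : GL ν k} (hm : m ∈ G ⊓ Mgl G) : LL G ≤ cj m (LL G) :=
  l_LL_le (l_isClosed_cj isClosed_LL m) fun _ hy _ hu =>
    U_le_LL hy (l_conj_U hm.1 (Zgl_le_Pgl (Mgl_le_Zgl hy hm.2)) hu)

theorem Good.LL_dec (hG : Good G) {g : GL ν k} (hg : g ∈ G) :
    ∃ l ∈ LL G, ∃ m ∈ G ⊓ Mgl G, g = l * m := by
  let J : Subgroup (GL ν k) :=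
    { carrier := {g | ∃ l ∈ LL G, ∃ m ∈ G ⊓ Mgl G, g = l * m}
      one_mem' := ⟨1, one_mem _, 1, one_mem _, (mul_one _).symm⟩
      mul_mem' := by
        rintro _ _ ⟨l, hl, m, hm, rfl⟩ ⟨l', hl', m', hm', rfl⟩
        exact ⟨l * (m * l' * m⁻¹), mul_mem hl (l_M_norm hm hl'), m * m', mul_mem hm hm', by group⟩
      inv_mem' := by
        rintro _ ⟨l, hl, m, hm, rfl⟩
        exact ⟨m⁻¹ * l⁻¹ * m⁻¹⁻¹, l_M_norm (inv_mem hm) (inv_mem hl), m⁻¹, inv_mem hm, by group⟩ }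
  obtain ⟨w, hw, hr, -⟩ := exists_regl (N := G) rfl (aa G).zero_mem
  have hU : ∀ y ∈ aa G, G ⊓ Ugl y ≤ J := fun y hy u hu =>
    ⟨u, U_le_LL hy hu, 1, one_mem _, (mul_one _).symm⟩
  exact hG.le_of_cell (J := J) hr.1 (hU _ (NegMemClass.neg_mem hr.1))
    (fun z hz => ⟨1, one_mem _, z, hr.Zgl ▸ hz, (one_mul _).symm⟩) (hU _ hr.1) hg

theorem Good.LL_normal (hG : Good G) : ∀ g ∈ G, ∀ x ∈ LL G, g * x * g⁻¹ ∈ LL G := by
  intro g hg x hx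
  obtain ⟨l, hl, m, hm, rfl⟩ := hG.LL_dec hg
  have h1 : m * x * m⁻¹ ∈ LL G := l_M_norm hm hx
  have : l * m * x * (l * m)⁻¹ = l * (m * x * m⁻¹) * l⁻¹ := by group
  rw [this]
  exact mul_mem (mul_mem hl h1) (inv_mem hl)

theorem Good.LL_le_comm (hG : Good G) :
    LL G ≤ (⁅G, G⁆ : Subgroup (GL ν k)).topologicalClosure := by
  refine l_LL_le (Subgroup.isClosed_topologicalClosure _) fun y hy u hu => ?_
  obtain ⟨w, hw, e⟩ := l_exists_int hy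
  have h1 : u ∈ H3Z.con (dg w (pw k)) := mem_Ugl_iff_con.1 (e ▸ hu.2)
  have h2 : Tendsto (fun n : ℕ => u * (dg w (pw k) ^ n * u * (dg w (pw k) ^ n)⁻¹)⁻¹) atTop
      (𝓝 (u * 1⁻¹)) := tendsto_const_nhds.mul (Tendsto.inv h1)
  rw [inv_one, mul_one] at h2
  refine (Subgroup.isClosed_topologicalClosure _).mem_of_tendsto h2
    (Eventually.of_forall fun n => Subgroup.le_topologicalClosure _ ?_)
  have h3 := Subgroup.commutator_mem_commutator hu.1 (pow_mem (hw (pw k)) n)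
  rw [commutatorElement_def] at h3
  have : u * (dg w (pw k) ^ n * u * (dg w (pw k) ^ n)⁻¹)⁻¹ =
      u * dg w (pw k) ^ n * u⁻¹ * (dg w (pw k) ^ n)⁻¹ := by group
  rwa [this]

theorem l_root_ne (hG : Good G) {y : ν → ℝ} (hy : y ∈ aa G) (h0 : y ≠ 0) :
    ∃ γ ∈ Rts G, γ ⬝ᵥ y ≠ 0 := by
  by_contra h
  push Not at h
  exact h0 (hG.eq_zero_of_roots hy h)

theorem Ctx.exists_root (hG : Ctx G) : ∃ γ, γ ∈ Rts G := by
  obtain ⟨y, hy, h0⟩ := (Submodule.ne_bot_iff _).1 hG.ne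
  obtain ⟨γ, hγ, -⟩ := l_root_ne hG.good hy h0
  exact ⟨γ, hγ⟩

theorem l_exists_U (hG : Good G) {γ : ν → ℝ} (hγ : γ ∈ Rts G) : ∃ u ∈ G ⊓ Ugl γ, u ≠ 1 := by
  obtain ⟨u, hu, hu', h1⟩ := hG.exists_Rgl hγ
  exact ⟨u, ⟨hu, Rgl_le_Ugl (Rts_mem hγ) (l_dot_pos hγ.1) hu'⟩, h1⟩

theorem l_ZD_of_U (hG : Good G) {γ : ν → ℝ} (hγ : γ ∈ Rts G) {N : Subgroup (GL ν k)}
    (hN : N ≤ G) (hn : ∀ g ∈ G, ∀ x ∈ N, g * x * g⁻¹ ∈ N) (h : G ⊓ Ugl γ ≤ N) : ZD G N := by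
  obtain ⟨u, hu, h1⟩ := l_exists_U hG hγ
  exact (hG.dich hN subset_rfl l_ZD_self hn).resolve_left fun hc =>
    hG.not_cen_of_Ugl (Rts_mem hγ) hu.2 h1 (hc u (h hu))

theorem Ctx.ZD_LL (hG : Ctx G) : ZD G (LL G) := by
  obtain ⟨γ, hγ⟩ := hG.exists_root
  exact l_ZD_of_U hG.good hγ hG.good.LL_le hG.good.LL_normal (U_le_LL (Rts_mem hγ))

theorem Ctx.locD_LL (hG : Ctx G) : LocD G (LL G) := by
  obtain ⟨γ, hγ⟩ := hG.exists_root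
  obtain ⟨u, hu, h1⟩ := l_exists_U hG.good hγ
  obtain ⟨w, hw, e⟩ := l_exists_int (Rts_mem hγ)
  have hm : ∀ n : ℕ, dg w (pw k) ^ n * u * (dg w (pw k) ^ n)⁻¹ ∈ G ⊓ Ugl γ := fun n =>
    l_conj_U (pow_mem (hw _) n) (pow_mem (Zgl_le_Pgl (dg_mem_Zgl γ w _)) n) hu
  have ht : Tendsto (fun n : ℕ => dg w (pw k) ^ n * u * (dg w (pw k) ^ n)⁻¹) atTop
      (𝓝[LL G] 1) :=
    tendsto_nhdsWithin_iff.2 ⟨mem_Ugl_iff_con.1 (e ▸ hu.2),
      Eventually.of_forall fun n => U_le_LL (Rts_mem hγ) (hm n)⟩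
  refine hG.good.locD hG.good.LL_le hG.ZD_LL (ht.frequently (Frequently.of_forall fun n => ?_))
  refine hG.good.not_cen_of_Ugl (Rts_mem hγ) (hm n).2 fun h => h1 ?_
  rwa [mul_inv_eq_one, mul_eq_left] at h

theorem Ctx.coroot (hG : Ctx G) {γ : ν → ℝ} (hγ : γ ∈ Rts G) {N : Subgroup (GL ν k)}
    (h1 : G ⊓ Rgl G γ ≤ N) (h2 : G ⊓ Rgl G (-γ) ≤ N) {y : ν → ℤ} (hy : y ∈ YY G)
    (h0 : γ ⬝ᵥ cst y ≠ 0) (hn : ∀ t, ∀ x ∈ N, dg y t * x * (dg y t)⁻¹ ∈ N) :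
    ∃ z ∈ YY N, ∃ c : ℝ, 0 < c ∧ cst z = c • γ := by
  obtain ⟨n, hnN, τ, hW, hR⟩ := hG.exists_refl hγ h1 h2
  have hz : y + -(y ∘ τ) ∈ YY N := fun t => by
    rw [dg_add, dg_neg, ← hW.conj_dg hy t]
    have : dg y t * (n * dg y t * n⁻¹)⁻¹ = dg y t * n * (dg y t)⁻¹ * n⁻¹ := by group
    rw [this]
    exact mul_mem (hn t n hnN) (inv_mem hnN)
  have e : cst (y + -(y ∘ τ)) = (2 * (γ ⬝ᵥ cst y) / (γ ⬝ᵥ γ)) • γ := by
    rw [cst_add, cst_neg]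
    have : cst (y ∘ τ) = cst y ∘ τ := rfl
    rw [this, hR _ (cst_mem hy)]
    abel
  have hp := l_dot_pos hγ.1
  rcases h0.lt_or_gt with h | h
  · refine ⟨_, NegMemClass.neg_mem hz, -(2 * (γ ⬝ᵥ cst y) / (γ ⬝ᵥ γ)), ?_,
      by rw [cst_neg, e, neg_smul]⟩
    exact neg_pos.2 (div_neg_of_neg_of_pos (by linarith) hp)
  · exact ⟨_, hz, _, by positivity, e⟩

theorem l_mem_aa {N : Subgroup (GL ν k)} {γ : ν → ℝ}
    (h : ∃ z ∈ YY N, ∃ c : ℝ, 0 < c ∧ cst z = c • γ) : γ ∈ aa N := by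
  obtain ⟨z, hz, c, hc, e⟩ := h
  exact ((aa N).smul_mem_iff hc.ne').1 (e ▸ cst_mem hz)

theorem l_aa_mono {N : Subgroup (GL ν k)} (hN : N ≤ G) : aa N ≤ aa G :=
  Submodule.span_mono (Set.image_mono (YY_mono hN))

theorem Ctx.aa_eq (hG : Ctx G) {N : Subgroup (GL ν k)} (hN : N ≤ G)
    (h : ∀ γ ∈ Rts G, ∃ z ∈ YY N, ∃ c : ℝ, 0 < c ∧ cst z = c • γ) : aa N = aa G := by
  refine le_antisymm (l_aa_mono hN) fun x hx => ?_
  obtain ⟨z, hz, e⟩ := exists_prA (aa N) x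
  have : x - z = 0 := hG.good.eq_zero_of_roots (sub_mem hx (l_aa_mono hN hz)) fun γ hγ => by
    rw [dotProduct_comm, sub_dotProduct, e γ (l_mem_aa (h γ hγ)), sub_self]
  rwa [sub_eq_zero.1 this]

theorem Ctx.coroot_LL (hG : Ctx G) {γ : ν → ℝ} (hγ : γ ∈ Rts G) :
    ∃ z ∈ YY (LL G), ∃ c : ℝ, 0 < c ∧ cst z = c • γ := by
  obtain ⟨y, hy, h0⟩ := l_exists_dot (Rts_mem hγ) hγ.1
  exact hG.coroot hγ (R_le_LL (Rts_mem hγ) hγ.1)
    (R_le_LL (NegMemClass.neg_mem (Rts_mem hγ)) (neg_ne_zero.2 hγ.1)) hy h0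
    fun t => hG.good.LL_normal _ (hy t)

theorem Ctx.aa_LL (hG : Ctx G) : aa (LL G) = aa G :=
  hG.aa_eq hG.good.LL_le fun _ => hG.coroot_LL

theorem l_Z_neg {y : ν → ℝ} {z : GL ν k} (hz : z ∈ Zgl y) : z ∈ Pgl (-y) :=
  Zgl_le_Pgl (Zgl_neg (k := k) (y := y) ▸ hz)

/-- The group generated by two opposite unipotent radicals is normal. -/
theorem l_sup_normal (hG : Good G) {y : ν → ℝ} (hy : y ∈ aa G) :
    ∀ g ∈ G, G ⊓ Ugl y ⊔ G ⊓ Ugl (-y) ≤ cj g (G ⊓ Ugl y ⊔ G ⊓ Ugl (-y)) := by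
  set J := G ⊓ Ugl y ⊔ G ⊓ Ugl (-y)
  have hz : ∀ z ∈ G ⊓ Zgl y, J ≤ cj z J := fun z hz =>
    sup_le (fun u hu => Subgroup.mem_sup_left (l_conj_U hz.1 (Zgl_le_Pgl hz.2) hu))
      fun u hu => Subgroup.mem_sup_right (l_conj_U hz.1 (l_Z_neg hz.2) hu)
  have h : G ≤ Subgroup.normalizer (J : Set (GL ν k)) := by
    refine hG.le_of_cell hy (le_sup_right.trans Subgroup.le_normalizer) (fun z hz' => ?_)
      (le_sup_left.trans Subgroup.le_normalizer)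
    refine Subgroup.mem_normalizer_iff.2 fun x => ⟨fun hx => hz z hz' hx, fun hx => ?_⟩
    have := mem_cj.1 (hz z⁻¹ (inv_mem hz') hx)
    simpa [mul_assoc] using this
  exact fun g hg x hx => (Subgroup.mem_normalizer_iff.1 (h hg) x).1 hx

theorem l_comm {y y' : ν → ℝ} (hz : G ⊓ Ugl y' ≤ Zgl y) {u u' : GL ν k} (hu : u ∈ G ⊓ Ugl y)
    (hu₁ : u ∈ Zgl y') (hu' : u' ∈ G ⊓ Ugl y') : u * u' = u' * u := by
  have h1 : u * u' * u⁻¹ * u'⁻¹ ∈ G ⊓ Ugl y' :=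
    mul_mem (l_conj_U hu.1 (Zgl_le_Pgl hu₁) hu') (inv_mem hu')
  have h2 : u * (u' * u⁻¹ * u'⁻¹) ∈ G ⊓ Ugl y :=
    mul_mem hu (l_conj_U hu'.1 (Zgl_le_Pgl (hz hu')) (inv_mem hu))
  have h3 := Ugl_inf_Pgl h2.2 (by simpa only [mul_assoc] using l_Z_neg (hz h1))
  calc u * u' = u * (u' * u⁻¹ * u'⁻¹) * (u' * u) := by group
    _ = u' * u := by rw [h3, one_mul]

theorem Ctx.irred (hG : Ctx G) {γ γ' : ν → ℝ} (hγ : γ ∈ Rts G) (hγ' : γ' ∈ Rts G) :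
    ∃ β ∈ Rts G, β ⬝ᵥ γ ≠ 0 ∧ β ⬝ᵥ γ' ≠ 0 := by
  by_contra h
  push Not at h
  have key : ∀ y ∈ aa G, ∀ y' ∈ aa G, (∀ β ∈ Rts G, β ⬝ᵥ y ≠ 0 → β ⬝ᵥ y' = 0) →
      G ⊓ Ugl y ≤ Zgl y' := fun y hy y' hy' hh u hu =>
    hG.good.mem_Zgl_of_roots hy hy' hu.1 hu.2 (Ψ := Set.univ) (fun _ _ _ => trivial)
      fun β hβ _ h0 => hh β hβ h0.ne'
  have m := Rts_mem hγ
  have m' := Rts_mem hγ'
  have h' : ∀ β ∈ Rts G, β ⬝ᵥ γ' ≠ 0 → β ⬝ᵥ γ = 0 := fun β hβ h0 => by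
    by_contra h1
    exact h0 (h β hβ h1)
  obtain ⟨u', hu', h1⟩ := l_exists_U hG.good hγ'
  have hz : ZD G (G ⊓ Ugl γ ⊔ G ⊓ Ugl (-γ) : Subgroup (GL ν k)) :=
    l_ZD_of_U hG.good hγ (sup_le inf_le_left inf_le_left) (l_sup_normal hG.good m) le_sup_left
  have hc : G ⊓ Ugl γ ⊔ G ⊓ Ugl (-γ) ≤ Subgroup.centralizer {u'} := by
    refine sup_le (fun u hu => ?_) fun u hu => ?_
    · exact Subgroup.mem_centralizer_singleton_iff.2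
        (l_comm (key _ m' _ m h') hu (key _ m _ m' h hu) hu')
    · refine Subgroup.mem_centralizer_singleton_iff.2
        (l_comm (key _ m' _ (NegMemClass.neg_mem m) fun β hβ h0 => ?_) hu
          (key _ (NegMemClass.neg_mem m) _ m' (fun β hβ h0 => h β hβ ?_) hu) hu')
      · rw [dotProduct_neg, h' β hβ h0, neg_zero]
      · rwa [dotProduct_neg, neg_ne_zero] at h0
  exact hG.good.not_cen_of_Ugl m' hu'.2 h1
    (hz.cen fun g hg => Subgroup.mem_centralizer_singleton_iff.1 (hc hg))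

theorem l_U_le {N : Subgroup (GL ν k)} (hc : IsClosed (N : Set (GL ν k)))
    (hn : ∀ g ∈ LL G, ∀ x ∈ N, g * x * g⁻¹ ∈ N) {y : ν → ℝ} (hy : y ∈ aa G) (hy' : y ∈ aa N) :
    G ⊓ Ugl y ≤ N := fun u hu => by
  obtain ⟨w, hw, e⟩ := l_exists_int hy'
  exact mem_of_con hc (hw _) (mem_Ugl_iff_con.1 (e ▸ hu.2)) (hn u (U_le_LL hy hu))

theorem l_R_le {N : Subgroup (GL ν k)} {y γ : ν → ℝ} (hy : y ∈ aa G) (h1 : G ⊓ Ugl y ≤ N)
    (h2 : G ⊓ Ugl (-y) ≤ N) (h0 : γ ⬝ᵥ y ≠ 0) : G ⊓ Rgl G γ ≤ N := by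
  rcases h0.lt_or_gt with h | h
  · refine (inf_le_inf_left G (Rgl_le_Ugl (NegMemClass.neg_mem hy) ?_)).trans h2
    rwa [dotProduct_neg, neg_pos]
  · exact (inf_le_inf_left G (Rgl_le_Ugl hy h)).trans h1

theorem Ctx.LL_le_of_U (hG : Ctx G) {N : Subgroup (GL ν k)} (hc : IsClosed (N : Set (GL ν k)))
    (hn : ∀ g ∈ LL G, ∀ x ∈ N, g * x * g⁻¹ ∈ N) {y : ν → ℝ} (hy : y ∈ aa G) (h0 : y ≠ 0)
    (h1 : G ⊓ Ugl y ≤ N) (h2 : G ⊓ Ugl (-y) ≤ N) : LL G ≤ N := by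
  have step : ∀ x ∈ aa G, G ⊓ Ugl x ≤ N → G ⊓ Ugl (-x) ≤ N → ∀ γ ∈ Rts G, γ ⬝ᵥ x ≠ 0 →
      ∃ z ∈ YY (N ⊓ G), ∃ c : ℝ, 0 < c ∧ cst z = c • γ := fun x hx k1 k2 γ hγ hd => by
    obtain ⟨w, hw, hw0⟩ := l_exists_dot (hG.aa_LL ▸ Rts_mem hγ : γ ∈ aa (LL G)) hγ.1
    have hw' := YY_mono hG.good.LL_le hw
    refine hG.coroot hγ (le_inf (l_R_le hx k1 k2 hd) inf_le_left)
      (le_inf (l_R_le hx k1 k2 ?_) inf_le_left) hw' hw0 fun t a ha =>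
      ⟨hn _ (hw t) a ha.1, G.mul_mem (G.mul_mem (hw' t) ha.2) (G.inv_mem (hw' t))⟩
    rwa [neg_dotProduct, neg_ne_zero]
  have up : ∀ x ∈ aa (N ⊓ G), G ⊓ Ugl x ≤ N := fun x hx =>
    l_U_le hc hn (l_aa_mono inf_le_right hx) (l_aa_mono inf_le_left hx)
  obtain ⟨γ₀, hγ₀, hd⟩ := l_root_ne hG.good hy h0
  have m₀ := l_mem_aa (step y hy h1 h2 γ₀ hγ₀ hd)
  have e : aa (N ⊓ G) = aa G := hG.aa_eq inf_le_right fun γ hγ => by
    obtain ⟨β, hβ, b1, b2⟩ := hG.irred hγ₀ hγ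
    have m := l_mem_aa (step γ₀ (Rts_mem hγ₀) (up _ m₀) (up _ (NegMemClass.neg_mem m₀)) β hβ b1)
    exact step β (Rts_mem hβ) (up _ m) (up _ (NegMemClass.neg_mem m)) γ hγ (by rwa [dotProduct_comm])
  exact l_LL_le hc fun x hx => up x (e ▸ hx)

theorem Ctx.gen (hG : Ctx G) {N : Subgroup (GL ν k)} (hc : IsClosed (N : Set (GL ν k)))
    {y : ν → ℝ} (hy : y ∈ aa G) (h0 : y ≠ 0) (h1 : G ⊓ Ugl y ≤ N) (h2 : G ⊓ Ugl (-y) ≤ N) :
    LL G ≤ N := by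
  set J := G ⊓ Ugl y ⊔ G ⊓ Ugl (-y)
  have hJ := J.isClosed_topologicalClosure
  refine (hG.LL_le_of_U hJ (fun g hg => ?_) hy h0 (le_sup_left.trans J.le_topologicalClosure)
    (le_sup_right.trans J.le_topologicalClosure)).trans
    (J.topologicalClosure_minimal (sup_le h1 h2) hc)
  exact J.topologicalClosure_minimal (t := cj g J.topologicalClosure)
    (fun x hx => J.le_topologicalClosure (l_sup_normal hG.good hy g (hG.good.LL_le hg) hx))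
    (l_isClosed_cj hJ g)

/-- The contraction groups of an element with an eigenvalue of norm different from one. -/
theorem Ctx.gen_con (hG : Ctx G) {b : GL ν k} (hb : b ∈ G) (hv : ¬ IsVal b 0)
    {N : Subgroup (GL ν k)} (hc : IsClosed (N : Set (GL ν k)))
    (h : ∀ u ∈ LL G, u ∈ H3Z.con b ∨ u ∈ H3Z.con b⁻¹ → u ∈ N) : LL G ≤ N := by
  obtain ⟨μ, hμ, h1, c1, c2⟩ := (hG.good.val_dich hb).resolve_left hv
  obtain ⟨y, hy, g, hg, e⟩ := hG.conj_coch hμ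
  have h0 : cst y ≠ 0 := fun h0 => h1 (by
    have : y = 0 := cst_injective (h0.trans (funext fun i => by simp [cst]))
    rw [e, this, dg_zero, mul_one, mul_inv_cancel])
  have hm := cst_mem hy
  have cc : ∀ a u : GL ν k, u ∈ H3Z.con a → g * u * g⁻¹ ∈ H3Z.con (g * a * g⁻¹) := fun a u hu =>
    con_conj.2 (by simpa [mul_assoc] using hu)
  have key : LL G ≤ cj g N := by
    refine hG.gen (l_isClosed_cj hc g) hm h0 (fun u hu => ?_) fun u hu => ?_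
    · refine h _ (hG.good.LL_normal g hg u (U_le_LL hm hu)) (Or.inl (c1 ?_))
      rw [e]
      exact cc _ _ (mem_Ugl_iff_con.1 hu.2)
    · refine h _ (hG.good.LL_normal g hg u (U_le_LL (NegMemClass.neg_mem hm) hu)) (Or.inr (c2 ?_))
      rw [e, conj_inv]
      exact cc _ _ (mem_Ugl_neg_iff_con.1 hu.2)
  intro x hx
  have := mem_cj.1 (key (hG.good.LL_normal g⁻¹ (inv_mem hg) x hx))
  simpa [mul_assoc] using this

theorem l_bd (hG : Good G) {N : Subgroup (GL ν k)} (hN : N ≤ G) (hz : ZD G N)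
    (hv : ∀ b ∈ N, IsVal b 0) : Bd (N : Set (GL ν k)) := by
  obtain ⟨d, ρ, hρ, hI, hn⟩ := hG.exists_irrep
  obtain ⟨M, hM⟩ := hρ.gr
  have key : ∀ a b, ∃ C : ℝ, ∀ x ∈ N, ‖ρ x a b‖ ≤ C := fun a b => by
    obtain ⟨C, hC⟩ := burnside (H := N) (N := N) le_rfl
      (fun h hh x hx => mul_mem (mul_mem hh hx) (inv_mem hh)) hρ.one
      (fun g hg h hh => hρ.mul g (hN hg) h (hN hh)) (hz.irr hN hρ hI)
      (fun h hh => ⟨1 ^ M, fun x hx => hM _ (hN (mul_mem hx hh)) 1 le_rfl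
        ((hv _ (mul_mem hx hh)).gr one_pos fun j => by simp)⟩)
      (Pi.single a 1) (fun v hv => by rw [(Submodule.mem_bot k).1 hv, dotProduct_zero])
      (v := Pi.single b 1) Submodule.mem_top
    exact ⟨C, fun x hx => by simpa using hC x hx⟩
  choose C hC using key
  refine hG.proper hρ hn hN ⟨∑ a, ∑ b, |C a b|, fun g hg a b => ?_⟩
  refine ((hC a b g hg).trans (le_abs_self _)).trans ?_
  refine (Finset.single_le_sum (f := fun b => |C a b|) (fun _ _ => abs_nonneg _)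
    (Finset.mem_univ b)).trans ?_
  exact Finset.single_le_sum (f := fun a => ∑ b, |C a b|)
    (fun _ _ => Finset.sum_nonneg fun _ _ => abs_nonneg _) (Finset.mem_univ a)

theorem Ctx.qs (hG : Ctx G) {N : Subgroup (GL ν k)} (hN : N ≤ G)
    (hc : IsClosed (N : Set (GL ν k))) (hn : ∀ g ∈ LL G, ∀ x ∈ N, g * x * g⁻¹ ∈ N) :
    (∀ x ∈ N, Cen G x) ∨ LL G ≤ N := by
  refine (hG.good.dich hN hG.good.LL_le hG.ZD_LL hn).imp_right fun hz => ?_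
  by_cases hv : ∀ b ∈ N, IsVal b 0
  · obtain ⟨C, hC⟩ := l_bd hG.good hN hz hv
    have hP : ∀ z ∈ YY (LL G), ∀ x ∈ N, x ∈ Pgl (cst z) := fun z hz x hx =>
      mem_Pgl_of_bd ⟨C, by
        rintro _ ⟨l, rfl⟩
        exact hC _ (hn _ (pow_mem (hz _) l) x hx)⟩
    obtain ⟨γ, hγ⟩ := hG.exists_root
    obtain ⟨z, hzL, c, hc0, e⟩ := hG.coroot_LL hγ
    have h0 : z = 0 := hG.good.eq_zero_of_cen (YY_mono hG.good.LL_le hzL)
      (hz.mem_Grp fun x hx => Pgl_inf_Pgl (hP z hzL x hx)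
        (cst_neg z ▸ hP _ (NegMemClass.neg_mem hzL) x hx))
    have : c • γ = 0 := by
      rw [← e, h0]
      exact funext fun i => by simp [cst]
    exact absurd this (smul_ne_zero hc0.ne' hγ.1)
  · push Not at hv
    obtain ⟨b, hb, hv⟩ := hv
    exact hG.gen_con (hN hb) hv hc fun u hu h => h.elim
      (fun h => mem_of_con hc hb h (hn u hu)) fun h => mem_of_con hc (inv_mem hb) h (hn u hu)

end Pool.Agent.Lib.MP_60cbcc_al.H3A
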