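import Pool.Agent.Lib.MP_60cbcc_al.H3ABase

/-!
Block triangular decompositions.
-/

namespace Pool.Agent.Lib.MP_60cbcc_al.H3A

open Matrix Filter Topology

set_option linter.unusedSectionVars false

variable {k : Type} [Field k] {ν : Type} [Fintype ν] [DecidableEq ν]
  {G : Subgroup (GL ν k)}

variable {y y' : ν → ℝ} {a : ℝ}

section aux

open Classical in
theorem lu_prj_mul (P : ν → Prop) (x : Matrix ν ν k) (i j : ν) :
    (prj P * x : Matrix ν ν k) i j = if P i then x i j else 0 := by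
  rw [prj, diagonal_mul]
  split_ifs <;> simp

open Classical in
theorem lu_mul_prj (P : ν → Prop) (x : Matrix ν ν k) (i j : ν) :
    (x * prj P : Matrix ν ν k) i j = if P j then x i j else 0 := by
  rw [prj, mul_diagonal]
  split_ifs <;> simp

theorem lu_prj_idem (P : ν → Prop) : (prj P * prj P : Matrix ν ν k) = prj P := by
  rw [prj, diagonal_mul_diagonal]
  congr 1
  funext i
  split_ifs <;> simp

open Classical in
theorem lu_blk_apply (P : ν → Prop) (x : Matrix ν ν k) (i j : ν) :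
    blk P x i j = if P i ∧ P j then x i j else (1 : Matrix ν ν k) i j := by
  rw [blk, Matrix.add_apply, lu_mul_prj, lu_prj_mul, Matrix.sub_apply, prj, diagonal_apply,
    Matrix.one_apply]
  by_cases e : i = j
  · subst e
    by_cases h : P i <;> simp [h]
  · by_cases h : P i <;> by_cases h' : P j <;> simp [h, h', e]

theorem lu_blk_pos {P : ν → Prop} (x : Matrix ν ν k) {i j : ν} (hi : P i) (hj : P j) :
    blk P x i j = x i j := by
  rw [lu_blk_apply, if_pos ⟨hi, hj⟩]

theorem lu_blk_neg {P : ν → Prop} (x : Matrix ν ν k) {i j : ν} (h : ¬(P i ∧ P j)) :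
    blk P x i j = (1 : Matrix ν ν k) i j := by
  rw [lu_blk_apply, if_neg h]

theorem lu_blk_one (P : ν → Prop) : blk P (1 : Matrix ν ν k) = 1 := by
  rw [blk, mul_one, lu_prj_idem, add_sub_cancel]

theorem lu_blk_mul_left {P : ν → Prop} {u : Matrix ν ν k} (h : ∀ i j, u i j ≠ 0 → P i → P j)
    (x : Matrix ν ν k) : blk P (u * x) = blk P u * blk P x := by
  have e : prj P * u = prj P * u * prj P := by
    ext i j
    rw [lu_mul_prj, lu_prj_mul]
    by_cases hi : P i
    · by_cases hj : P j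
      · simp [hi, hj]
      · have : u i j = 0 := by_contra fun c => hj (h i j c hi)
        simp [hi, hj, this]
    · simp [hi]
  have e2 := lu_prj_idem (k := k) P
  unfold blk
  generalize (prj P : Matrix ν ν k) = E at e e2
  have a1 : E * u * E * (E * x * E) = E * (u * x) * E := by
    calc E * u * E * (E * x * E) = E * u * (E * E) * x * E := by noncomm_ring
      _ = E * u * E * x * E := by rw [e2]
      _ = E * (u * x) * E := by rw [← e]; noncomm_ring
  have a2 : E * u * E * (1 - E) = 0 := by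
    rw [mul_assoc, mul_sub, e2, mul_one, sub_self, mul_zero]
  have a3 : (1 - E) * (E * x * E) = 0 := by
    rw [← mul_assoc, ← mul_assoc, sub_mul, e2, one_mul, sub_self, zero_mul, zero_mul]
  have a4 : (1 - E) * (1 - E) = 1 - E := by
    rw [mul_sub, mul_one, sub_mul, e2, one_mul, sub_self, sub_zero]
  rw [add_mul, mul_add, mul_add, a1, a2, a3, a4, add_zero, zero_add]

theorem lu_blk_transpose (P : ν → Prop) (x : Matrix ν ν k) : blk P xᵀ = (blk P x)ᵀ := by
  ext i j
  rw [transpose_apply]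
  by_cases h : P i ∧ P j
  · rw [lu_blk_pos _ h.1 h.2, lu_blk_pos _ h.2 h.1, transpose_apply]
  · rw [lu_blk_neg _ h, lu_blk_neg _ fun c => h ⟨c.2, c.1⟩, ← transpose_apply 1 j i,
      transpose_one]

theorem lu_blk_mul_right {P : ν → Prop} {u : Matrix ν ν k} (h : ∀ i j, u i j ≠ 0 → P j → P i)
    (x : Matrix ν ν k) : blk P (x * u) = blk P x * blk P u := by
  apply transpose_injective
  rw [← lu_blk_transpose, transpose_mul, transpose_mul, ← lu_blk_transpose, ← lu_blk_transpose]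
  exact lu_blk_mul_left (fun i j c => h j i c) _

theorem lu_det_unip {x : Matrix ν ν k} (h : Sup (fun i j => y j < y i) (x - 1)) : x.det = 1 := by
  have h0 : ∀ i j, ¬y j < y i → x i j = (1 : Matrix ν ν k) i j := fun i j c =>
    sub_eq_zero.1 (by_contra fun c' => c (h i j c'))
  have hb : x.BlockTriangular (-y) := fun i j c => by
    have c' : y i < y j := neg_lt_neg_iff.1 c
    rw [h0 i j (not_lt.2 c'.le), Matrix.one_apply_ne]
    rintro rfl
    exact lt_irrefl _ c'
  rw [hb.det]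
  refine Finset.prod_eq_one fun c _ => ?_
  have : x.toSquareBlock (-y) c = 1 := by
    ext i j
    have e : y i.1 = y j.1 := neg_injective (i.2.trans j.2.symm)
    rw [toSquareBlock_def, of_apply, h0 _ _ (by rw [e]; exact lt_irrefl _), Matrix.one_apply,
      Matrix.one_apply]
    simp only [Subtype.ext_iff]
  rw [this, det_one]

theorem lu_det_blk_unip (P : ν → Prop) {x : Matrix ν ν k}
    (h : Sup (fun i j => y j < y i) (x - 1)) : (blk P x).det = 1 := by
  refine lu_det_unip (y := y) fun i j c => h i j ?_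
  by_cases e : P i ∧ P j
  · rwa [Matrix.sub_apply, lu_blk_pos _ e.1 e.2] at c
  · rw [Matrix.sub_apply, lu_blk_neg _ e, sub_self] at c
    exact (c rfl).elim

theorem lu_det_blk (P : ν → Prop) [DecidablePred P] (x : Matrix ν ν k) :
    (blk P x).det = (Matrix.of fun i j : {i // P i} => x i.1 j.1).det := by
  rw [twoBlockTriangular_det _ P]
  · have e1 : toSquareBlockProp (blk P x) P = Matrix.of fun i j : {i // P i} => x i.1 j.1 := by
      ext i j
      rw [toSquareBlockProp_def, of_apply, of_apply, lu_blk_pos _ i.2 j.2]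
    have e2 : (toSquareBlockProp (blk P x) fun i => ¬P i) = 1 := by
      ext i j
      rw [toSquareBlockProp_def, of_apply, lu_blk_neg _ fun c => i.2 c.1, Matrix.one_apply,
        Matrix.one_apply]
      simp only [Subtype.ext_iff]
    rw [e1, e2, det_one, mul_one]
  · intro i hi j hj
    rw [lu_blk_neg _ fun c => hi c.1, Matrix.one_apply_ne]
    rintro rfl
    exact hi hj

theorem lu_prod_zpow {ι : Type} (s : Finset ι) (w : ι → ℤ) (t : kˣ) :
    ∏ i ∈ s, (t : k) ^ w i = (t : k) ^ ∑ i ∈ s, w i := by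
  classical
  induction s using Finset.induction_on with
  | empty => simp
  | insert i s hi ih => rw [Finset.prod_insert hi, Finset.sum_insert hi, ih, zpow_add₀ t.ne_zero]

theorem lu_Grp_mono {R R' : ν → ν → Prop} {ht : ∀ i j l, R i j → R j l → R i l}
    {ht' : ∀ i j l, R' i j → R' j l → R' i l} (h : ∀ i j, R i j → R' i j) :
    Grp (k := k) R ht ≤ Grp R' ht' := fun _ hg i j c => h i j (hg i j c)

theorem lu_Grp_congr {R R' : ν → ν → Prop} {ht : ∀ i j l, R i j → R j l → R i l}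
    {ht' : ∀ i j l, R' i j → R' j l → R' i l} (h : ∀ i j, R i j ↔ R' i j) :
    Grp (k := k) R ht = Grp R' ht' :=
  le_antisymm (lu_Grp_mono fun i j => (h i j).1) (lu_Grp_mono fun i j => (h i j).2)

theorem lu_eq_one {R R' : ν → ν → Prop} {ht : ∀ i j l, R i j → R j l → R i l}
    {ht' : ∀ i j l, R' i j → R' j l → R' i l} (h : ∀ i j, R i j → R' i j → False) {g : GL ν k}
    (h1 : g ∈ Grp R ht) (h2 : g ∈ Grp R' ht') : g = 1 := by
  refine Units.ext (sub_eq_zero.1 ?_)
  ext i j
  exact by_contra fun c => h i j (h1 i j c) (h2 i j c)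

open Classical in
/-- The part of a matrix that preserves the levels. -/
noncomputable def luD (y : ν → ℝ) (x : Matrix ν ν k) : Matrix ν ν k :=
  Matrix.of fun i j => if y i = y j then x i j else 0

theorem luD_pos (x : Matrix ν ν k) {i j : ν} (h : y i = y j) : luD y x i j = x i j := by
  rw [luD, of_apply, if_pos h]

theorem luD_neg (x : Matrix ν ν k) {i j : ν} (h : y i ≠ y j) : luD y x i j = 0 := by
  rw [luD, of_apply, if_neg h]

theorem luD_sup (x : Matrix ν ν k) : Sup (fun i j => y i = y j) (luD y x) := fun _ _ c =>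
  by_contra fun e => c (luD_neg x e)

theorem luD_of_sup {x : Matrix ν ν k} (h : Sup (fun i j => y i = y j) x) : luD y x = x := by
  ext i j
  by_cases e : y i = y j
  · exact luD_pos x e
  · rw [luD_neg x e]
    exact (by_contra fun c => e (h i j c) : x i j = 0).symm

theorem luD_one : luD y (1 : Matrix ν ν k) = 1 :=
  luD_of_sup (mem_Zgl.1 (Zgl (k := k) y).one_mem)

theorem luD_mul {p q : Matrix ν ν k} (hp : Sup (fun i j => y j ≤ y i) p)
    (hq : Sup (fun i j => y j ≤ y i) q) : luD y (p * q) = luD y p * luD y q := by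
  ext i l
  rw [mul_apply]
  by_cases e : y i = y l
  · rw [luD_pos _ e, mul_apply]
    refine Finset.sum_congr rfl fun j _ => ?_
    by_cases e' : y i = y j
    · rw [luD_pos _ e', luD_pos _ (e'.symm.trans e)]
    · rw [luD_neg _ e', zero_mul]
      by_contra c
      exact e' (le_antisymm (e ▸ hq j l (right_ne_zero_of_mul c)) (hp i j (left_ne_zero_of_mul c)))
  · rw [luD_neg _ e]
    refine (Finset.sum_eq_zero fun j _ => ?_).symm
    by_contra c
    exact e ((luD_sup p i j (left_ne_zero_of_mul c)).trans (luD_sup q j l (right_ne_zero_of_mul c)))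

theorem luD_unip {u : Matrix ν ν k} (h : Sup (fun i j => y j < y i) (u - 1)) : luD y u = 1 := by
  ext i j
  by_cases e : y i = y j
  · rw [luD_pos _ e]
    exact sub_eq_zero.1 (by_contra fun c => (h i j c).ne' e)
  · rw [luD_neg _ e, Matrix.one_apply_ne]
    rintro rfl
    exact e rfl

end aux

theorem Ugl_le_Pgl : Ugl (k := k) y ≤ Pgl y := lu_Grp_mono fun _ _ h => h.le

theorem Zgl_le_Pgl : Zgl (k := k) y ≤ Pgl y := lu_Grp_mono fun _ _ h => h.ge

theorem Zgl_neg : Zgl (k := k) (-y) = Zgl y := lu_Grp_congr fun _ _ => neg_inj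

theorem Pgl_conj_Ugl {p u : GL ν k} (hp : p ∈ Pgl y) (hu : u ∈ Ugl y) : p * u * p⁻¹ ∈ Ugl y := by
  have e : (p * u * p⁻¹).1 - 1 = p.1 * (u.1 - 1) * (p⁻¹).1 := by
    rw [mul_sub, sub_mul, mul_one, Units.mul_inv, Units.val_mul, Units.val_mul]
  rw [mem_Ugl, e]
  exact Sup.mul (R := fun i j => y j < y i) (fun _ _ _ a b => b.trans_lt a)
    (Sup.mul (fun _ _ _ a b => b.trans_le a) (mem_Pgl.1 hp) (mem_Ugl.1 hu))
    (mem_Pgl.1 ((Pgl y).inv_mem hp))

theorem det_of_Ugl {u : GL ν k} (hu : u ∈ Ugl y) : u.1.det = 1 := lu_det_unip (mem_Ugl.1 hu)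

theorem Dl_one : Dl y a (1 : Matrix ν ν k) = 1 := by rw [Dl, lu_blk_one, det_one]

theorem DD_one : DD y (1 : Matrix ν ν k) = 1 := Finset.prod_eq_one fun _ _ => Dl_one

theorem lu_Dl_pl {p : GL ν k} (hp : p ∈ Pgl (-y)) (x : Matrix ν ν k) :
    Dl y a (p.1 * x) = Dl y a p.1 * Dl y a x := by
  unfold Dl
  rw [lu_blk_mul_left, det_mul]
  exact fun i j c hi => hi.trans (neg_le_neg_iff.1 (mem_Pgl.1 hp i j c))

theorem lu_Dl_pr {p : GL ν k} (hp : p ∈ Pgl y) (x : Matrix ν ν k) :
    Dl y a (x * p.1) = Dl y a x * Dl y a p.1 := by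
  unfold Dl
  rw [lu_blk_mul_right, det_mul]
  exact fun i j c hj => hj.trans (mem_Pgl.1 hp i j c)

theorem lu_Dl_unip {u : GL ν k} (hu : u ∈ Ugl y') : Dl y a u.1 = 1 :=
  lu_det_blk_unip _ (mem_Ugl.1 hu)

theorem lu_Dl_p_ne {p : GL ν k} (hp : p ∈ Pgl y) : Dl y a p.1 ≠ 0 := by
  have h := lu_Dl_pr (a := a) hp (p⁻¹).1
  rw [Units.inv_mul, Dl_one] at h
  exact right_ne_zero_of_mul (h ▸ one_ne_zero)

theorem Dl_left {u : GL ν k} (hu : u ∈ Ugl (-y)) (x : Matrix ν ν k) :
    Dl y a (u.1 * x) = Dl y a x := by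
  rw [lu_Dl_pl (Ugl_le_Pgl hu), lu_Dl_unip hu, one_mul]

theorem Dl_right {u : GL ν k} (hu : u ∈ Ugl y) (x : Matrix ν ν k) :
    Dl y a (x * u.1) = Dl y a x := by
  rw [lu_Dl_pr (Ugl_le_Pgl hu), lu_Dl_unip hu, mul_one]

theorem Dl_zl {z : GL ν k} (hz : z ∈ Zgl y) (x : Matrix ν ν k) :
    Dl y a (z.1 * x) = Dl y a z.1 * Dl y a x :=
  lu_Dl_pl (Zgl_le_Pgl (Zgl_neg (k := k) (y := y) ▸ hz)) x

theorem Dl_zr {z : GL ν k} (hz : z ∈ Zgl y) (x : Matrix ν ν k) :
    Dl y a (x * z.1) = Dl y a x * Dl y a z.1 := lu_Dl_pr (Zgl_le_Pgl hz) x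

theorem Dl_z_ne {z : GL ν k} (hz : z ∈ Zgl y) : Dl y a z.1 ≠ 0 := lu_Dl_p_ne (Zgl_le_Pgl hz)

theorem DD_left {u : GL ν k} (hu : u ∈ Ugl (-y)) (x : Matrix ν ν k) :
    DD y (u.1 * x) = DD y x := Finset.prod_congr rfl fun _ _ => Dl_left hu x

theorem DD_right {u : GL ν k} (hu : u ∈ Ugl y) (x : Matrix ν ν k) :
    DD y (x * u.1) = DD y x := Finset.prod_congr rfl fun _ _ => Dl_right hu x

theorem DD_zl {z : GL ν k} (hz : z ∈ Zgl y) (x : Matrix ν ν k) :
    DD y (z.1 * x) = DD y z.1 * DD y x := by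
  unfold DD
  rw [← Finset.prod_mul_distrib]
  exact Finset.prod_congr rfl fun _ _ => Dl_zl hz x

theorem DD_zr {z : GL ν k} (hz : z ∈ Zgl y) (x : Matrix ν ν k) :
    DD y (x * z.1) = DD y x * DD y z.1 := by
  unfold DD
  rw [← Finset.prod_mul_distrib]
  exact Finset.prod_congr rfl fun _ _ => Dl_zr hz x

theorem DD_z_ne {z : GL ν k} (hz : z ∈ Zgl y) : DD y z.1 ≠ 0 :=
  Finset.prod_ne_zero_iff.2 fun _ _ => Dl_z_ne hz

theorem DD_of_Ugl {u : GL ν k} (hu : u ∈ Ugl y') : DD y u.1 = 1 :=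
  Finset.prod_eq_one fun _ _ => lu_Dl_unip hu

theorem DD_lu {u z u' : GL ν k} (hu : u ∈ Ugl (-y)) (hu' : u' ∈ Ugl y) :
    DD y (u * z * u').1 = DD y z.1 := by
  rw [Units.val_mul, Units.val_mul, DD_right hu', DD_left hu]

theorem Dl_dg (w : ν → ℤ) (t : kˣ) :
    Dl y a (dg w t).1 = (t : k) ^ ∑ i ∈ Finset.univ.filter (fun i => a ≤ y i), w i := by
  have e : blk (fun i => a ≤ y i) (dg w t).1 =
      diagonal fun i => if a ≤ y i then (t : k) ^ w i else 1 := by
    ext i j
    by_cases e : i = j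
    · subst e
      rw [diagonal_apply_eq]
      by_cases h : a ≤ y i
      · rw [lu_blk_pos (P := fun i => a ≤ y i) _ h h, if_pos h, dg_val, diagonal_apply_eq]
      · rw [lu_blk_neg (P := fun i => a ≤ y i) _ fun c => h c.1, if_neg h, Matrix.one_apply_eq]
    · rw [diagonal_apply_ne _ e, lu_blk_apply, dg_val, diagonal_apply_ne _ e,
        Matrix.one_apply_ne e, ite_self]
  rw [Dl, e, det_diagonal, ← lu_prod_zpow, Finset.prod_filter]

theorem DD_dg (w : ν → ℤ) (t : kˣ) : DD y (dg w t).1 =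
    (t : k) ^ ∑ l, ∑ i ∈ Finset.univ.filter (fun i => y l ≤ y i), w i := by
  rw [← lu_prod_zpow]
  exact Finset.prod_congr rfl fun _ _ => Dl_dg w t

theorem DD_transpose (x : Matrix ν ν k) : DD y xᵀ = DD y x :=
  Finset.prod_congr rfl fun _ _ => by rw [Dl, Dl, lu_blk_transpose, det_transpose]

open Classical in
theorem lu_blk_mulVec (P : ν → Prop) (x : Matrix ν ν k) (v : ν → k) (i : ν) :
    (blk P x *ᵥ v) i = if P i then (x *ᵥ fun j => if P j then v j else 0) i else v i := by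
  by_cases h : P i
  · rw [if_pos h]
    refine Finset.sum_congr rfl fun j _ => ?_
    by_cases h' : P j
    · simp only [lu_blk_pos x h h', if_pos h']
    · have e : i ≠ j := fun c => h' (c ▸ h)
      simp only [lu_blk_neg x fun c : P i ∧ P j => h' c.2, if_neg h', Matrix.one_apply_ne e,
        zero_mul, mul_zero]
  · rw [if_neg h]
    have e : (blk P x *ᵥ v) i = ((1 : Matrix ν ν k) *ᵥ v) i :=
      Finset.sum_congr rfl fun j _ => by
        simp only [lu_blk_neg x fun c : P i ∧ P j => h c.1]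
    rw [e, one_mulVec]

theorem Dl_ne_iff {x : Matrix ν ν k} : Dl y a x ≠ 0 ↔ ∀ v : ν → k, (∀ i, v i ≠ 0 → a ≤ y i) →
    (∀ i, (x *ᵥ v) i ≠ 0 → y i < a) → v = 0 := by
  classical
  have key : ∀ v : ν → k, (∀ i, v i ≠ 0 → a ≤ y i) → ∀ (d : ∀ j, Decidable (a ≤ y j)),
      (fun j => @ite _ (a ≤ y j) (d j) (v j) 0) = v := fun v hv d => by
    funext j
    by_cases h : a ≤ y j
    · rw [if_pos h]
    · rw [if_neg h]
      exact (by_contra fun c => h (hv j c) : v j = 0).symm
  rw [Dl, Ne, ← exists_mulVec_eq_zero_iff]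
  constructor
  · intro h v hv hx
    by_contra c
    refine h ⟨v, c, funext fun i => ?_⟩
    rw [lu_blk_mulVec, key v hv, Pi.zero_apply]
    by_cases hi : a ≤ y i
    · rw [if_pos hi]
      exact by_contra fun c' => not_lt.2 hi (hx i c')
    · rw [if_neg hi]
      exact by_contra fun c' => hi (hv i c')
  · rintro h ⟨v, hv0, hv⟩
    have h1 : ∀ i, v i ≠ 0 → a ≤ y i := fun i c => by_contra fun hi => by
      have := congrFun hv i
      rw [lu_blk_mulVec, if_neg hi] at this
      exact c this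
    refine hv0 (h v h1 fun i c => not_le.1 fun hi => ?_)
    have := congrFun hv i
    rw [lu_blk_mulVec, key v h1, if_pos hi] at this
    exact c this

theorem P_dec {p : GL ν k} (hp : p ∈ Pgl y) : ∃ z ∈ Zgl y, ∃ u ∈ Ugl y, p = z * u := by
  have h1 := mem_Pgl.1 hp
  have h2 := mem_Pgl.1 ((Pgl y).inv_mem hp)
  let z : GL ν k := ⟨luD y p.1, luD y (p⁻¹).1,
    by rw [← luD_mul h1 h2, Units.mul_inv, luD_one], by rw [← luD_mul h2 h1, Units.inv_mul, luD_one]⟩
  have hz : z ∈ Zgl y := mem_Zgl.2 (luD_sup _)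
  refine ⟨z, hz, z⁻¹ * p, ?_, (mul_inv_cancel_left _ _).symm⟩
  have e : (z⁻¹ * p).1 - 1 = (z⁻¹).1 * (p.1 - z.1) := by
    rw [mul_sub, Units.inv_mul, Units.val_mul]
  rw [mem_Ugl, e]
  refine Sup.mul (R' := fun i j => y j < y i) (fun _ _ _ a b => b.trans_eq a.symm)
    (mem_Zgl.1 ((Zgl y).inv_mem hz)) fun i j c => ?_
  by_cases e' : y i = y j
  · exact (c (sub_eq_zero.2 (luD_pos _ e').symm)).elim
  · have e2 : z.1 i j = 0 := luD_neg _ e'
    rw [Matrix.sub_apply, e2, sub_zero] at c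
    exact lt_of_le_of_ne (h1 i j c) (Ne.symm e')

theorem lu_inv_blk {P : ν → Prop} {x : Matrix ν ν k} (h : (blk P x).det ≠ 0) {l : ν} (hl : P l) :
    (∀ i, (blk P x)⁻¹ i l ≠ 0 → P i) ∧
      ∀ i, P i → (x * (blk P x)⁻¹) i l = (1 : Matrix ν ν k) i l := by
  have e := mul_nonsing_inv _ (isUnit_iff_ne_zero.2 h)
  have e1 : ∀ i, (blk P x *ᵥ fun j => (blk P x)⁻¹ j l) i = (1 : Matrix ν ν k) i l := fun i => by
    rw [← e]; rfl
  have h1 : ∀ i, (blk P x)⁻¹ i l ≠ 0 → P i := fun i c => by_contra fun hi => by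
    have := e1 i
    rw [lu_blk_mulVec, if_neg hi, Matrix.one_apply_ne fun c' : i = l => hi (c' ▸ hl)] at this
    exact c this
  refine ⟨h1, fun i hi => ?_⟩
  have := e1 i
  rw [lu_blk_mulVec, if_pos hi] at this
  rw [← this]
  refine Finset.sum_congr rfl fun j _ => ?_
  by_cases hj : P j
  · simp only [if_pos hj]
  · have : (blk P x)⁻¹ j l = 0 := by_contra fun c => hj (h1 j c)
    simp only [if_neg hj, this]

theorem lu {g : GL ν k} (h : DD y g.1 ≠ 0) :
    ∃ u ∈ Ugl (-y), ∃ z ∈ Zgl y, ∃ u' ∈ Ugl y, u.1 = lo y g.1 ∧ g = u * z * u' := by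
  have h0 := fun l => lu_inv_blk (P := fun i => y l ≤ y i) (x := g.1)
    (Finset.prod_ne_zero_iff.1 h l (Finset.mem_univ l)) (l := l) le_rfl
  have h1 : Sup (fun i j => (-y) j < (-y) i) (lo y g.1 - 1) := fun i l c =>
    neg_lt_neg_iff.2 (not_le.1 fun hi => c (sub_eq_zero.2 ((h0 l).2 i hi)))
  let u : GL ν k := Matrix.GeneralLinearGroup.mkOfDetNeZero (lo y g.1)
    (by rw [lu_det_unip h1]; exact one_ne_zero)
  have hu : u.1 = lo y g.1 := rfl
  have e : (g⁻¹ * u).1 = Matrix.of fun i l => (blk (fun i => y l ≤ y i) g.1)⁻¹ i l := by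
    have : lo y g.1 = g.1 * Matrix.of fun i l => (blk (fun i => y l ≤ y i) g.1)⁻¹ i l := rfl
    rw [Units.val_mul, hu, this, Units.inv_mul_cancel_left]
  have hp : g⁻¹ * u ∈ Pgl y := mem_Pgl.2 (e ▸ fun i l c => (h0 l).1 i c)
  obtain ⟨z, hz, u', hu', e'⟩ := P_dec ((Pgl y).inv_mem hp)
  refine ⟨u, h1, z, hz, u', hu', hu, ?_⟩
  rw [mul_assoc, ← e']
  group

theorem lu_unique {u z u' v w v' : GL ν k} (hu : u ∈ Ugl (-y)) (hz : z ∈ Zgl y) (hu' : u' ∈ Ugl y)
    (hv : v ∈ Ugl (-y)) (hw : w ∈ Zgl y) (hv' : v' ∈ Ugl y) (h : u * z * u' = v * w * v') :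
    u = v ∧ z = w ∧ u' = v' := by
  have e1 : v⁻¹ * u = w * v' * (z * u')⁻¹ := by
    rw [eq_mul_inv_iff_mul_eq, mul_assoc, ← mul_assoc u, h]
    group
  have m1 : v⁻¹ * u ∈ Ugl (-y) := (Ugl (-y)).mul_mem ((Ugl (-y)).inv_mem hv) hu
  have m2 : v⁻¹ * u ∈ Pgl y := e1 ▸ (Pgl y).mul_mem
    ((Pgl y).mul_mem (Zgl_le_Pgl hw) (Ugl_le_Pgl hv'))
    ((Pgl y).inv_mem ((Pgl y).mul_mem (Zgl_le_Pgl hz) (Ugl_le_Pgl hu')))
  have f1 : u = v := (inv_mul_eq_one.1 (lu_eq_one
    (fun i j a b => not_le.2 (neg_lt_neg_iff.1 a) b) m1 m2)).symm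
  subst f1
  rw [mul_assoc, mul_assoc, mul_right_inj] at h
  have e2 : w⁻¹ * z = v' * u'⁻¹ := by
    rw [eq_mul_inv_iff_mul_eq, mul_assoc, h]
    group
  have m3 : w⁻¹ * z ∈ Zgl y := (Zgl y).mul_mem ((Zgl y).inv_mem hw) hz
  have m4 : w⁻¹ * z ∈ Ugl y := e2 ▸ (Ugl y).mul_mem hv' ((Ugl y).inv_mem hu')
  have f2 : z = w := (inv_mul_eq_one.1 (lu_eq_one (fun i j a b => b.ne' a) m3 m4)).symm
  subst f2
  exact ⟨rfl, rfl, mul_left_cancel h⟩

theorem lo_eq {u p : GL ν k} (hu : u ∈ Ugl (-y)) (hp : p ∈ Pgl y) :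
    DD y (u * p).1 ≠ 0 ∧ lo y (u * p).1 = u.1 := by
  have h : DD y (u * p).1 ≠ 0 := by
    rw [Units.val_mul, DD_left hu]
    exact Finset.prod_ne_zero_iff.2 fun _ _ => lu_Dl_p_ne hp
  obtain ⟨v, hv, w, hw, v', hv', e, e'⟩ := lu h
  obtain ⟨z, hz, u', hu', rfl⟩ := P_dec hp
  rw [← mul_assoc] at e'
  exact ⟨h, by rw [← e, (lu_unique hu hz hu' hv hw hv' e').1]⟩

theorem lu_exists_above (y : ν → ℝ) (c : ℝ) : ∃ c', ∀ i, c' ≤ y i ↔ c < y i := by
  classical
  rcases (Finset.univ.filter fun i => c < y i).eq_empty_or_nonempty with h | h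
  · have h' : ∀ i, ¬c < y i := fun i hi =>
      Finset.notMem_empty i (h ▸ Finset.mem_filter.2 ⟨Finset.mem_univ i, hi⟩)
    exact ⟨c + 1, fun i => ⟨fun hi => by linarith, fun hi => (h' i hi).elim⟩⟩
  · obtain ⟨m, hm, hm'⟩ := Finset.exists_min_image _ y h
    exact ⟨y m, fun i => ⟨fun hi => (Finset.mem_filter.1 hm).2.trans_le hi, fun hi =>
      hm' i (Finset.mem_filter.2 ⟨Finset.mem_univ i, hi⟩)⟩⟩

theorem lo_mem (A : Subalgebra k (Matrix ν ν k)) (hA : ∀ a, (prj fun i => a ≤ y i) ∈ A)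
    {g : GL ν k} (hg : g.1 ∈ A) (h : DD y g.1 ≠ 0) : lo y g.1 ∈ A := by
  classical
  have h1 : ∀ c, (prj fun i => y i = c) ∈ A := fun c => by
    obtain ⟨c', hc⟩ := lu_exists_above y c
    have e : (prj fun i => y i = c : Matrix ν ν k) =
        (prj fun i => c ≤ y i) - prj fun i => c' ≤ y i := by
      unfold prj
      rw [diagonal_sub]
      congr 1
      funext i
      rcases lt_trichotomy c (y i) with h' | h' | h'
      · rw [if_neg h'.ne', if_pos h'.le, if_pos ((hc i).2 h'), sub_self]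
      · rw [if_pos h'.symm, if_pos h'.le, if_neg fun c => ((hc i).1 c).ne h', sub_zero]
      · rw [if_neg h'.ne, if_neg (not_le.2 h'), if_neg fun c => ((hc i).1 c).not_gt h', sub_self]
    rw [e]
    exact A.sub_mem (hA c) (hA c')
  have e : lo y g.1 = ∑ c ∈ Finset.univ.image y,
      g.1 * (blk (fun i => c ≤ y i) g.1)⁻¹ * prj fun i => y i = c := by
    ext i l
    rw [Matrix.sum_apply, Finset.sum_eq_single (y l)]
    · rw [lu_mul_prj, if_pos rfl]
      rfl
    · intro c _ hc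
      rw [lu_mul_prj, if_neg hc.symm]
    · intro hc
      exact (hc (Finset.mem_image_of_mem y (Finset.mem_univ l))).elim
  rw [e]
  refine A.sum_mem fun c hc => A.mul_mem (A.mul_mem hg ?_) (h1 c)
  obtain ⟨l, -, rfl⟩ := Finset.mem_image.1 hc
  have hd : (blk (fun i => y l ≤ y i) g.1).det ≠ 0 :=
    Finset.prod_ne_zero_iff.1 h l (Finset.mem_univ l)
  have hb : (Matrix.GeneralLinearGroup.mkOfDetNeZero _ hd).1 ∈ A :=
    A.add_mem (A.mul_mem (A.mul_mem (hA _) hg) (hA _)) (A.sub_mem A.one_mem (hA _))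
  have := inv_mem_subalgebra A hb
  rwa [Matrix.coe_units_inv] at this

theorem lu_Grp {R : ν → ν → Prop} {ht : ∀ i j l, R i j → R j l → R i l} {u z u' : GL ν k}
    (hu : u ∈ Ugl (-y)) (hz : z ∈ Zgl y) (hu' : u' ∈ Ugl y) (h : u * z * u' ∈ Grp R ht) :
    u ∈ Grp R ht ∧ z ∈ Grp R ht ∧ u' ∈ Grp R ht := by
  have hd : ∀ d : ν → k, Sup (fun i j => R i j ∨ i = j) (diagonal d) := fun d i j c =>
    Or.inr (by_contra fun e => c (diagonal_apply_ne d e))
  let A : Subalgebra k (Matrix ν ν k) :=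
    { carrier := {x | Sup (fun i j => R i j ∨ i = j) x}
      mul_mem' := fun hx hy => Sup.mul (fun i j l a b => by
        rcases a with a | rfl
        · rcases b with b | rfl
          · exact Or.inl (ht i j l a b)
          · exact Or.inl a
        · exact b) hx hy
      add_mem' := fun hx hy => (supS _).add_mem hx hy
      algebraMap_mem' := fun c => hd _ }
  have hp : z * u' ∈ Pgl y := (Pgl y).mul_mem (Zgl_le_Pgl hz) (Ugl_le_Pgl hu')
  obtain ⟨h1, h2⟩ := lo_eq hu hp
  rw [mul_assoc] at h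
  have hg : (u * (z * u')).1 ∈ A := by
    have := A.add_mem (fun i j c => Or.inl (h i j c) : (u * (z * u')).1 - 1 ∈ A) A.one_mem
    rwa [sub_add_cancel] at this
  have h3 := A.sub_mem (lo_mem A (fun _ => hd _) hg h1) A.one_mem
  rw [h2] at h3
  have m1 : u ∈ Grp R ht := fun i j c => (h3 i j c).resolve_right fun e => by
    subst e
    exact lt_irrefl _ (hu i i c)
  have m2 : z * u' ∈ Grp R ht := by
    have := (Grp R ht).mul_mem ((Grp R ht).inv_mem m1) h
    rwa [inv_mul_cancel_left] at this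
  have e : luD y (z * u').1 = z.1 := by
    rw [Units.val_mul, luD_mul (mem_Pgl.1 (Zgl_le_Pgl hz)) (mem_Pgl.1 (Ugl_le_Pgl hu')),
      luD_unip hu', luD_of_sup (mem_Zgl.1 hz), mul_one]
  have m3 : z ∈ Grp R ht := fun i j c => by
    refine m2 i j ?_
    have e' : y i = y j := hz i j c
    rwa [Matrix.sub_apply, ← e, luD_pos _ e'] at c
  refine ⟨m1, m3, ?_⟩
  have := (Grp R ht).mul_mem ((Grp R ht).inv_mem m3) m2
  rwa [inv_mul_cancel_left] at this

theorem lo_poly (y : ν → ℝ) (i l : ν) :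
    ∃ p, ∀ x : Matrix ν ν k, DD y x ≠ 0 → DD y x * lo y x i l = ev x p := by
  classical
  let X : Matrix ν ν (MvPolynomial (ν × ν) k) := Matrix.of fun i j => MvPolynomial.X (i, j)
  let B : ν → Matrix ν ν (MvPolynomial (ν × ν) k) := fun m => Matrix.of fun i j =>
    if y m ≤ y i ∧ y m ≤ y j then X i j else (1 : Matrix ν ν (MvPolynomial (ν × ν) k)) i j
  refine ⟨(∏ m ∈ Finset.univ.erase l, (B m).det) * (X * (B l).adjugate) i l, fun x hx => ?_⟩
  let φ : MvPolynomial (ν × ν) k →+* k := MvPolynomial.eval fun ij => x ij.1 ij.2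
  have hX : φ.mapMatrix X = x := by
    ext i j
    simp [φ, X]
  have hB : ∀ m, φ.mapMatrix (B m) = blk (fun i => y m ≤ y i) x := fun m => by
    ext i j
    by_cases h : y m ≤ y i ∧ y m ≤ y j
    · rw [lu_blk_pos (P := fun i => y m ≤ y i) _ h.1 h.2]
      simp [φ, X, B, h]
    · rw [lu_blk_neg (P := fun i => y m ≤ y i) _ h]
      simp only [RingHom.mapMatrix_apply, map_apply, B, of_apply, if_neg h, Matrix.one_apply]
      split_ifs <;> simp
  have hd : (blk (fun i => y l ≤ y i) x).det ≠ 0 :=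
    Finset.prod_ne_zero_iff.1 hx l (Finset.mem_univ l)
  have e1 : φ ((X * (B l).adjugate) i l) = (x * (blk (fun i => y l ≤ y i) x).adjugate) i l := by
    rw [← hB, ← φ.map_adjugate, ← congrArg (· * φ.mapMatrix (B l).adjugate) hX, ← map_mul]
    rfl
  have e2 : φ (∏ m ∈ Finset.univ.erase l, (B m).det) = ∏ m ∈ Finset.univ.erase l, Dl y (y m) x := by
    rw [map_prod]
    exact Finset.prod_congr rfl fun m _ => by rw [φ.map_det, hB, Dl]
  change _ = φ _
  rw [map_mul, e1, e2, DD, ← Finset.prod_erase_mul _ _ (Finset.mem_univ l), mul_assoc, lo,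
    of_apply, Matrix.inv_def, Matrix.mul_smul, Matrix.smul_apply, smul_eq_mul, Dl,
    Ring.inverse_eq_inv', mul_inv_cancel_left₀ hd]

theorem lu_sum_le (w : ν → ℤ) (l : ν) {f : {i // w l ≤ w i} → ν} (hf : Function.Injective f) :
    ∑ i, w (f i) ≤ ∑ i : {i // w l ≤ w i}, w i.1 := by
  have h1 : ∑ i, (w (f i) - w l) ≤ ∑ i, max (w (f i) - w l) 0 :=
    Finset.sum_le_sum fun i _ => le_max_left _ _
  have h2 : ∑ i, max (w (f i) - w l) 0 ≤ ∑ j, max (w j - w l) 0 := by
    rw [← Finset.sum_image (s := Finset.univ) (g := f) (f := fun j => max (w j - w l) 0)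
      hf.injOn]
    exact Finset.sum_le_sum_of_subset_of_nonneg (Finset.subset_univ _)
      fun _ _ _ => le_max_right _ _
  have h3 : ∑ j, max (w j - w l) 0 = ∑ i : {i // w l ≤ w i}, (w i.1 - w l) := by
    rw [← Finset.sum_subtype (Finset.univ.filter fun i => w l ≤ w i) (by simp)
      (fun j => w j - w l), Finset.sum_filter]
    refine Finset.sum_congr rfl fun j _ => ?_
    split_ifs <;> omega
  rw [h3] at h2
  have h4 := h1.trans h2
  rw [Finset.sum_sub_distrib, Finset.sum_sub_distrib] at h4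
  linarith

theorem Dl_laurent (w : ν → ℤ) (l : ν) (x x' : Matrix ν ν k) : ∃ (N : ℕ) (P : Polynomial k),
    (P.natDegree : ℤ) ≤ N + ∑ i ∈ Finset.univ.filter (fun i => w l ≤ w i), w i ∧
    ∀ t : kˣ, (t : k) ^ N * Dl (cst w) (cst w l) (x * (dg w t).1 * x') = P.eval (t : k) := by
  classical
  have eP : (fun i => cst w l ≤ cst w i) = fun i => w l ≤ w i :=
    funext fun i => propext Int.cast_le
  let S : ({i // w l ≤ w i} → ν) → ℤ := fun f => ∑ i, w (f i)
  let r : ν → {i // w l ≤ w i} → k := fun a j => x' a j.1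
  let c : ({i // w l ≤ w i} → ν) → k := fun f =>
    (∏ i, x i.1 (f i)) * detRowAlternating fun i => r (f i)
  let N : ℕ := ∑ f, (S f).natAbs
  have hN : ∀ f, 0 ≤ (N : ℤ) + S f := fun f => by
    have : (S f).natAbs ≤ N :=
      Finset.single_le_sum (f := fun f => (S f).natAbs) (fun _ _ => Nat.zero_le _)
        (Finset.mem_univ f)
    omega
  have hT : ∑ i ∈ Finset.univ.filter (fun i => w l ≤ w i), w i = S Subtype.val :=
    Finset.sum_subtype _ (by simp) w
  refine ⟨N, ∑ f, Polynomial.C (c f) * Polynomial.X ^ ((N : ℤ) + S f).toNat, ?_, fun t => ?_⟩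
  · rw [hT, ← Int.toNat_of_nonneg (hN Subtype.val), Nat.cast_le]
    refine Polynomial.natDegree_sum_le_of_forall_le _ _ fun f _ => ?_
    by_cases hf : Function.Injective f
    · refine (Polynomial.natDegree_C_mul_X_pow_le _ _).trans (Int.toNat_le_toNat ?_)
      exact add_le_add le_rfl (lu_sum_le w l hf)
    · have : c f = 0 := mul_eq_zero_of_right _
        (AlternatingMap.map_eq_zero_of_not_injective _ _ fun h =>
          hf (Function.Injective.of_comp (f := r) h))
      rw [this, Polynomial.C_0, zero_mul, Polynomial.natDegree_zero]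
      exact Nat.zero_le _
  · have e : (Matrix.of fun i j : {i // w l ≤ w i} => (x * (dg w t).1 * x') i.1 j.1).det =
        (detRowAlternating (R := k) (n := {i // w l ≤ w i})).toMultilinearMap
          fun i => ∑ a, (x i.1 a * (t : k) ^ w a) • r a := by
      refine congrArg (detRowAlternating (R := k) (n := {i // w l ≤ w i})) ?_
      funext i j
      rw [of_apply, mul_apply, Finset.sum_apply]
      refine Finset.sum_congr rfl fun a _ => ?_
      rw [dg_val, mul_diagonal]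
      rfl
    rw [Dl, eP, lu_det_blk, e, MultilinearMap.map_sum, Finset.mul_sum, Polynomial.eval_finsetSum]
    refine Finset.sum_congr rfl fun f _ => ?_
    rw [MultilinearMap.map_smul_univ, Finset.prod_mul_distrib, lu_prod_zpow, Polynomial.eval_mul,
      Polynomial.eval_C, Polynomial.eval_pow, Polynomial.eval_X, ← zpow_natCast (t : k) (_ : ℤ).toNat,
      Int.toNat_of_nonneg (hN f), zpow_add₀ t.ne_zero, zpow_natCast, smul_eq_mul]
    change _ * (_ * detRowAlternating fun i => r (f i)) = c f * _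
    simp only [c, S]
    ring

theorem act_of_DD {x : Matrix ν ν k} (h : DD y x ≠ 0) {w w' : ν → ℝ}
    (hw : ∀ i j, y i = y j → w i = w j) (hw' : ∀ i j, y i = y j → w' i = w' j)
    (hx : Sup (fun i j => w' i = w j) x) : w' = w := by
  have h1 : ∀ l, ∑ i, (if y l ≤ y i then w' i - w i else 0) = 0 := fun l => by
    have hd : (blk (fun i => y l ≤ y i) x).det ≠ 0 :=
      Finset.prod_ne_zero_iff.1 h l (Finset.mem_univ l)
    rw [det_apply] at hd
    obtain ⟨σ, -, hσ⟩ := Finset.exists_ne_zero_of_sum_ne_zero hd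
    have h2 := Finset.prod_ne_zero_iff.1 (right_ne_zero_of_smul hσ)
    have h3 : ∀ i, (if y l ≤ y (σ i) then w' (σ i) else 0) = if y l ≤ y i then w i else 0 :=
      fun i => by
        have c := h2 i (Finset.mem_univ i)
        by_cases e : y l ≤ y (σ i) ∧ y l ≤ y i
        · rw [lu_blk_pos (P := fun i => y l ≤ y i) _ e.1 e.2] at c
          rw [if_pos e.1, if_pos e.2]
          exact hx _ _ c
        · rw [lu_blk_neg (P := fun i => y l ≤ y i) _ e] at c
          have e' : σ i = i := by_contra fun c' => c (Matrix.one_apply_ne c')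
          rw [e'] at e ⊢
          rw [if_neg fun c => e ⟨c, c⟩, if_neg fun c => e ⟨c, c⟩]
    have h4 := Equiv.sum_comp σ fun i => if y l ≤ y i then w' i else 0
    rw [Finset.sum_congr rfl fun i _ => h3 i] at h4
    refine Eq.trans ?_ (sub_eq_zero.2 h4.symm)
    rw [← Finset.sum_sub_distrib]
    refine Finset.sum_congr rfl fun i _ => ?_
    split_ifs <;> simp
  by_contra c
  obtain ⟨i0, hi0⟩ := Function.ne_iff.1 c
  obtain ⟨l, hl, hl'⟩ := Finset.exists_max_image (Finset.univ.filter fun i => w' i ≠ w i) y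
    ⟨i0, Finset.mem_filter.2 ⟨Finset.mem_univ _, hi0⟩⟩
  have hne : w' l - w l ≠ 0 := sub_ne_zero.2 (Finset.mem_filter.1 hl).2
  have h5 : 0 < ∑ i, (if y l ≤ y i then w' i - w i else 0) * (w' l - w l) := by
    refine Finset.sum_pos' (fun i _ => ?_) ⟨l, Finset.mem_univ l, ?_⟩
    · split_ifs with e
      · by_cases e' : w' i = w i
        · rw [e', sub_self, zero_mul]
        · have e2 := le_antisymm (hl' i (Finset.mem_filter.2 ⟨Finset.mem_univ _, e'⟩)) e
          rw [hw i l e2, hw' i l e2]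
          exact mul_self_nonneg _
      · rw [zero_mul]
    · rw [if_pos le_rfl]
      exact mul_self_pos.2 hne
  rw [← Finset.sum_mul, h1, zero_mul] at h5
  exact lt_irrefl _ h5

theorem Pat.symm (h : Pat y y') : Pat y' y := fun i j => (h i j).symm

theorem Pat.neg (h : Pat y y') : Pat (-y) (-y') := fun i j =>
  neg_lt_neg_iff.trans ((h j i).trans neg_lt_neg_iff.symm)

theorem lu_Pat_le (h : Pat y y') (i j : ν) : y i ≤ y j ↔ y' i ≤ y' j := by
  rw [← not_lt, ← not_lt, h j i]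

theorem Pat.eq_iff (h : Pat y y') (i j : ν) : y i = y j ↔ y' i = y' j := by
  rw [le_antisymm_iff, le_antisymm_iff, lu_Pat_le h, lu_Pat_le h]

theorem Pat.Ugl (h : Pat y y') : Ugl (k := k) y = Ugl y' := lu_Grp_congr fun i j => h j i

theorem Pat.Pgl (h : Pat y y') : Pgl (k := k) y = Pgl y' := lu_Grp_congr fun i j => lu_Pat_le h j i

theorem Pat.Zgl (h : Pat y y') : Zgl (k := k) y = Zgl y' := lu_Grp_congr fun i j => h.eq_iff i j

theorem lu_Pat_fun (h : Pat y y') (l : ν) : (fun i => y l ≤ y i) = fun i => y' l ≤ y' i :=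
  funext fun i => propext (lu_Pat_le h l i)

theorem Pat.DD (h : Pat y y') : DD (k := k) y = DD y' :=
  funext fun x => Finset.prod_congr rfl fun l _ => by rw [Dl, Dl, lu_Pat_fun h]

theorem Pat.lo (h : Pat y y') : lo (k := k) y = lo y' :=
  funext fun x => Matrix.ext fun i l =>
    congrArg (fun P => (x * (blk P x)⁻¹) i l) (lu_Pat_fun h l)

open scoped commutatorElement in
/-- Groups of triangular matrices are solvable. -/
theorem solvable_Grp {R : ν → ν → Prop} {ht : ∀ i j l, R i j → R j l → R i l}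
    (ha : ∀ i j, R i j → R j i → i = j) : Group.IsSolvable (Grp (k := k) R ht) := by
  classical
  let r : ν → ℕ := fun i => (Finset.univ.filter fun a => R a i ∨ a = i).card
  have hr : ∀ i j, R i j → i ≠ j → r i < r j := fun i j hij e => by
    refine Finset.card_lt_card ⟨fun a h => ?_, fun h => ?_⟩
    · rcases (Finset.mem_filter.1 h).2 with h' | rfl
      · exact Finset.mem_filter.2 ⟨Finset.mem_univ _, Or.inl (ht a i j h' hij)⟩
      · exact Finset.mem_filter.2 ⟨Finset.mem_univ _, Or.inl hij⟩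
    · rcases (Finset.mem_filter.1 (h (Finset.mem_filter.2 ⟨Finset.mem_univ j, Or.inr rfl⟩))).2
        with h' | h'
      · exact e (ha i j hij h')
      · exact e h'.symm
  have hr' : ∀ i j, R i j → r i ≤ r j := fun i j hij => by
    by_cases e : i = j
    · rw [e]
    · exact (hr i j hij e).le
  have hb : ∀ i, r i ≤ Fintype.card ν := fun i => Finset.card_le_univ _
  have key : ∀ (n : ℕ) (X Y : Matrix ν ν k), Sup (fun i j => R i j ∧ r i + n ≤ r j) X →
      Sup (fun i j => R i j ∧ r i + n ≤ r j) Y →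
      Sup (fun i j => R i j ∧ r i + (n + 1) ≤ r j) (X * Y - Y * X) := fun n X Y hX hY i j c => by
    have hm : ∀ X Y : Matrix ν ν k, Sup (fun i j => R i j ∧ r i + n ≤ r j) X →
        Sup (fun i j => R i j ∧ r i + n ≤ r j) Y →
        Sup (fun i j => R i j ∧ r i + 2 * n ≤ r j) (X * Y) := fun X Y hX hY =>
      Sup.mul (fun i j l a b => ⟨ht i j l a.1 b.1, by have := a.2; have := b.2; omega⟩) hX hY
    have h1 := mem_supS.1 (sub_mem (mem_supS.2 (hm X Y hX hY)) (mem_supS.2 (hm Y X hY hX))) i j c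
    have hd : ∀ X Y : Matrix ν ν k, Sup (fun i j => R i j ∧ r i + n ≤ r j) X →
        Sup (fun i j => R i j ∧ r i + n ≤ r j) Y → (X * Y) i i = X i i * Y i i :=
      fun X Y hX hY => by
        rw [mul_apply]
        refine Finset.sum_eq_single i (fun m _ hm => by_contra fun c' => hm ?_)
          fun h => (h (Finset.mem_univ i)).elim
        exact ha m i (hY m i (right_ne_zero_of_mul c')).1 (hX i m (left_ne_zero_of_mul c')).1
    have e : i ≠ j := by
      rintro rfl
      rw [Matrix.sub_apply, hd X Y hX hY, hd Y X hY hX, mul_comm, sub_self] at c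
      exact c rfl
    have h2 := hr i j h1.1 e
    have h3 := h1.2
    exact ⟨h1.1, by omega⟩
  have h : ∀ n, ∀ g ∈ derivedSeries (Grp (k := k) R ht) n,
      Sup (fun i j => R i j ∧ r i + n ≤ r j) (g.1.1 - 1) := fun n => by
    induction n with
    | zero => exact fun g _ i j c => ⟨g.2 i j c, hr' i j (g.2 i j c)⟩
    | succ n ih =>
      have : derivedSeries (Grp (k := k) R ht) (n + 1) ≤
          (Grp (k := k) (fun i j => R i j ∧ r i + (n + 1) ≤ r j) fun i j l a b =>
            ⟨ht i j l a.1 b.1, by have := a.2; have := b.2; omega⟩).subgroupOf (Grp R ht) := by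
        rw [derivedSeries_succ, Subgroup.commutator_le]
        intro a ha' b hb'
        have k1 := key n _ _ (ih a ha') (ih b hb')
        have k2 : Sup R (((b.1 * a.1)⁻¹).1 - 1) :=
          (Grp R ht).inv_mem ((Grp R ht).mul_mem b.2 a.2)
        have e : (⁅a, b⁆ : Grp (k := k) R ht).1.1 - 1 =
            ((a.1.1 - 1) * (b.1.1 - 1) - (b.1.1 - 1) * (a.1.1 - 1)) +
            ((a.1.1 - 1) * (b.1.1 - 1) - (b.1.1 - 1) * (a.1.1 - 1)) * (((b.1 * a.1)⁻¹).1 - 1) := by
          have e1 : (⁅a, b⁆ : Grp (k := k) R ht).1 = a.1 * b.1 * (b.1 * a.1)⁻¹ := by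
            rw [commutatorElement_def, _root_.mul_inv_rev, ← mul_assoc]
            rfl
          have e2 : b.1.1 * a.1.1 * ((b.1 * a.1)⁻¹).1 = 1 := Units.mul_inv (b.1 * a.1)
          rw [e1, Units.val_mul, Units.val_mul]
          generalize ((b.1 * a.1)⁻¹).1 = W at e2 ⊢
          rw [← congrArg (fun z => a.1.1 * b.1.1 * W - z) e2]
          noncomm_ring
        change Sup _ ((⁅a, b⁆ : Grp (k := k) R ht).1.1 - 1)
        rw [e]
        exact (supS _).add_mem k1 (Sup.mul (fun i j l a b =>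
          ⟨ht i j l a.1 b, a.2.trans (hr' j l b)⟩) k1 k2)
      exact fun g hg => this hg
  refine ⟨Fintype.card ν + 1, le_bot_iff.1 fun g hg => ?_⟩
  rw [Subgroup.mem_bot]
  refine Subtype.ext (Units.ext (sub_eq_zero.1 ?_))
  ext i j
  by_contra c
  have h1 := (h _ g hg i j c).2
  have h2 := hb j
  omega

end Pool.Agent.Lib.MP_60cbcc_al.H3A
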