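import Pool.Agent.Lib.MP_60cbcc_al.H3AMau
import Pool.Agent.Lib.MP_60cbcc_al.H3AFi

/-!
The groups between `LL G` and `G` are admissible factors.
-/

namespace Pool.Agent.Lib.MP_60cbcc_al.H3A

open Matrix Filter Topology

set_option linter.unusedSectionVars false

variable {k : Type} [NontriviallyNormedField k] [ProperSpace k] {ν : Type} [Fintype ν]
  [DecidableEq ν] {G : Subgroup (GL ν k)}

open scoped Pointwise

variable {H : Subgroup (GL ν k)}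

theorem Ctx.low_rigid (hG : Ctx G) (hH : Mid G H) : H3Z.Rigid ((LL G).subgroupOf H) :=
  H3Z.Rigid.congr (Subgroup.subgroupOfContinuousMulEquivOfLe hH.le₁) hG.rigid

theorem Ctx.low_normal (hG : Ctx G) (hH : Mid G H) : ((LL G).subgroupOf H).Normal :=
  ⟨fun x hx g => hG.good.LL_normal g.1 (hH.le₂ g.2) x.1 hx⟩

/-- Finitely many cosets of `LL G` times a compact group cover `H`. -/
theorem Ctx.low_fin (hG : Ctx G) (hH : Mid G H) : ∃ (K : Subgroup H) (F : Set H),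
    IsCompact (K : Set H) ∧ F.Finite ∧
      ∀ h : H, ∃ f ∈ F, ∃ l ∈ (LL G).subgroupOf H, ∃ m ∈ K, h = f * (l * m) := by
  classical
  obtain ⟨K, hK⟩ := exists_M1 G
  obtain ⟨F, hF, hdec⟩ := hG.exists_fin
  have hmem : ∀ m, m ∈ K ↔ m ∈ M1 G := fun m => by rw [← hK]; rfl
  let P : GL ν k → H → Prop := fun f h => ∃ l ∈ LL G, ∃ m ∈ M1 G, h.1 = f * (l * m)
  let r : GL ν k → H := fun f => if hf : ∃ h, P f h then hf.choose else 1
  have hr : ∀ f h, P f h → P f (r f) := fun f h hh => by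
    have hf : ∃ h, P f h := ⟨h, hh⟩
    simp only [r, dif_pos hf]
    exact hf.choose_spec
  refine ⟨K.subgroupOf H, r '' F, ?_, hF.image r, fun h => ?_⟩
  · have h1 : IsCompact (K : Set (GL ν k)) := by rw [hK]; exact hG.compact_M1
    exact hH.closed.isClosedEmbedding_subtypeVal.isCompact_preimage h1
  · obtain ⟨f, hf, l, hl, m, hm, e⟩ := hdec h.1 (hH.le₂ h.2)
    obtain ⟨l', hl', m', hm', e'⟩ := hr f h ⟨l, hl, m, hm, e⟩
    have hm'G : m' ∈ G := hm'.1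
    have a1 : m'⁻¹ * (l'⁻¹ * l) * m'⁻¹⁻¹ ∈ LL G :=
      hG.good.LL_normal _ (G.inv_mem hm'G) _ ((LL G).mul_mem ((LL G).inv_mem hl') hl)
    have a2 : m'⁻¹ * m ∈ K := K.mul_mem (K.inv_mem ((hmem _).2 hm')) ((hmem _).2 hm)
    have a3 : m'⁻¹ * m = (m'⁻¹ * (l'⁻¹ * l) * m'⁻¹⁻¹)⁻¹ * ((r f).1⁻¹ * h.1) := by
      rw [e', e]
      group
    have a4 : m'⁻¹ * m ∈ H := by
      rw [a3]
      exact H.mul_mem (H.inv_mem (hH.le₁ a1)) (H.mul_mem (H.inv_mem (r f).2) h.2)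
    refine ⟨r f, ⟨f, hf, rfl⟩, ⟨_, hH.le₁ a1⟩, a1, ⟨_, a4⟩, a2, Subtype.ext ?_⟩
    change h.1 = (r f).1 * (m'⁻¹ * (l'⁻¹ * l) * m'⁻¹⁻¹ * (m'⁻¹ * m))
    rw [e', e]
    group

theorem Ctx.std (hG : Ctx G) (hH : Mid G H) : H3Z.Std ((LL G).subgroupOf H) := by
  refine ⟨hG.low_normal hH, isClosed_LL.preimage continuous_subtype_val, fun x hx => ?_,
    (hG.low_rigid hH).weak⟩
  have hc : Cen G x.1 := hG.ZD_LL.cen fun g hg =>
    congrArg Subtype.val (Subgroup.mem_centralizer_iff.1 hx ⟨g, hH.le₁ hg⟩ hg)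
  exact Subgroup.mem_center_iff.2 fun g => Subtype.ext (hc g.1 (hH.le₂ g.2))

theorem Ctx.low (hG : Ctx G) (hH : Mid G H) : ∃ K, H3Z.Low ((LL G).subgroupOf H) K := by
  obtain ⟨K, F, hK, hF, h⟩ := hG.low_fin hH
  refine ⟨K, hG.std hH, hK, ?_, hG.low_rigid hH⟩
  have : Finite F := hF
  have : Finite (H ⧸ ((LL G).subgroupOf H ⊔ K)) := by
    refine Finite.of_surjective (fun f : F => (QuotientGroup.mk f.1 : H ⧸ _)) fun q => ?_
    obtain ⟨x, rfl⟩ := QuotientGroup.mk_surjective q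
    obtain ⟨f, hf, l, hl, m, hm, rfl⟩ := h x
    refine ⟨⟨f, hf⟩, QuotientGroup.eq.2 ?_⟩
    rw [inv_mul_cancel_left]
    exact Subgroup.mul_mem_sup hl hm
  exact Subgroup.finiteIndex_of_finite_quotient

theorem Ctx.cocpt (hG : Ctx G) (hH : Mid G H) :
    ∃ C : Set H, IsCompact C ∧ C * ((LL G).subgroupOf H : Set H) = Set.univ := by
  obtain ⟨K, F, hK, hF, h⟩ := hG.low_fin hH
  refine ⟨F * (K : Set H), hF.isCompact.mul hK, Set.eq_univ_of_forall fun x => ?_⟩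
  obtain ⟨f, hf, l, hl, m, hm, rfl⟩ := h x
  refine ⟨f * m, Set.mul_mem_mul hf hm, m⁻¹ * l * m⁻¹⁻¹, (hG.low_normal hH).conj_mem l hl m⁻¹, ?_⟩
  change f * m * (m⁻¹ * l * m⁻¹⁻¹) = f * (l * m)
  group

end Pool.Agent.Lib.MP_60cbcc_al.H3A
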