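import Pool.Agent.Lib.MP_60cbcc_al.H3AHigh
import Pool.Agent.Lib.MP_60cbcc_al.H3ACongr
import Pool.Agent.Lib.MP_60cbcc_al.H3AAbsMain

/-!
The main theorem for groups of rational points.
-/

namespace Pool.Agent.Lib.MP_60cbcc_al.H3A

open MeasureTheory Topology

/-- Conjugation as an isomorphism of topological groups. -/
def cjE {k : Type} [NontriviallyNormedField k] {ν : Type} [Fintype ν] [DecidableEq ν]
    (h : GL ν k) (G : Subgroup (GL ν k)) : cj h G ≃ₜ* G where
  toFun g := ⟨h * g * h⁻¹, g.2⟩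
  invFun g := ⟨h⁻¹ * g * h, mem_cj.2 (by simp [mul_assoc])⟩
  left_inv g := Subtype.ext (by simp [mul_assoc])
  right_inv g := Subtype.ext (by simp [mul_assoc])
  map_mul' a b := Subtype.ext (by simp [mul_assoc])
  continuous_toFun := by fun_prop
  continuous_invFun := by fun_prop

theorem map_clos_comm {A B : Type} [Group A] [TopologicalSpace A] [IsTopologicalGroup A] [Group B]
    [TopologicalSpace B] [IsTopologicalGroup B] (f : A →* B) (hf : Continuous f) {a : A}
    (ha : a ∈ (commutator A).topologicalClosure) : f a ∈ (commutator B).topologicalClosure :=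
  map_mem_closure hf ha fun x hx => by
    have h1 : (commutator A).map f ≤ commutator B := by
      rw [commutator_def, Subgroup.map_commutator]
      exact Subgroup.commutator_mono le_top le_top
    exact h1 ⟨x, hx, rfl⟩

theorem factor {k : Type} [NontriviallyNormedField k] [ProperSpace k] {ν : Type} [Fintype ν]
    [DecidableEq ν] {G : Subgroup (GL ν k)} (hG : Good G) (hc : ¬ CompactSpace G)
    [MeasurableSpace G] [BorelSpace G] : ∃ L : Subgroup G, (∃ K, H3Z.Low L K) ∧
      (2 ≤ splitRank k G → H3Z.High L) ∧ L ≤ (commutator G).topologicalClosure := by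
  obtain ⟨h, hM, hr⟩ := exists_max G
  have hx : Ctx (cj h G) := ⟨hG.cj h, hM, fun h0 => hc (by
    have := isCompact_iff_compactSpace.1 ((hG.cj h).compact_of_aniso hM h0)
    exact (cjE h G).toHomeomorph.compactSpace)⟩
  have hm : Mid (cj h G) (cj h G) := ⟨hx.good.isClosed, hx.good.LL_le, le_rfl⟩
  obtain ⟨K, hK⟩ := hx.low hm
  refine ⟨_, ⟨_, low_congr (cjE h G) hK⟩, fun h2 => ?_, ?_⟩
  · borelize ↥(cj h G)
    exact high_congr (cjE h G) (hx.high (hr ▸ h2) hm)
  · rintro _ ⟨a, ha, rfl⟩
    refine map_clos_comm _ (cjE h G).continuous ?_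
    have h1 := hx.good.LL_le_comm ha
    rw [← Subgroup.map_subtype_commutator] at h1
    exact (IsInducing.subtypeVal.closure_eq_preimage_closure_image _).ge h1

theorem main {ι : Type} [Fintype ι] {k : ι → Type} [∀ i, NontriviallyNormedField (k i)]
    [∀ i, LocallyCompactSpace (k i)] {n : ι → ℕ}
    {A : ∀ i, Subgroup (GL (Fin (n i)) (AlgebraicClosure (k i)))}
    (hA : ∀ i, IsAlmostSimple (k i) (A i)) (hc : ∀ i, ¬ CompactSpace (points (k i) (A i)))
    (hr : 2 ≤ ∑ i, splitRank (k i) (points (k i) (A i)))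
    [∀ i, MeasurableSpace (points (k i) (A i))] [∀ i, BorelSpace (points (k i) (A i))]
    (Γ : Subgroup (∀ i, points (k i) (A i))) (hΓ : H3Z.IsLattice Γ)
    (hd : ∀ i, (Γ.map (MonoidHom.pi fun j : {j // j ≠ i} =>
      Pi.evalMonoidHom _ j.1)).topologicalClosure.relIndex (commutator _) ≠ 0)
    (hZ : Subgroup.center Γ = ⊥)
    {X : Type} [MeasurableSpace X] [StandardBorelSpace X] [MulAction Γ X]
    [MeasurableConstSMul Γ X] (μ : Measure X) [IsProbabilityMeasure μ] [ErgodicSMul Γ X μ] :
    (∃ F : Set X, F.Finite ∧ μ Fᶜ = 0) ∨ ∀ᵐ x ∂μ, MulAction.stabilizer Γ x = ⊥ := by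
  classical
  have : ∀ i, ProperSpace (k i) := fun i =>
    ProperSpace.of_nontriviallyNormedField_of_weaklyLocallyCompactSpace _
  have hG : ∀ i, Good (points (k i) (A i)) := fun i => ⟨_, hA i, rfl⟩
  have : ∀ i, LocallyCompactSpace (points (k i) (A i)) := fun i =>
    (hG i).isClosed.locallyCompactSpace
  have : ∀ i, SecondCountableTopology (points (k i) (A i)) := fun i =>
    TopologicalSpace.Subtype.secondCountableTopology _
  choose L h1 h2 h3 using fun i => factor (hG i) (hc i)
  have := hΓ.1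
  have := H8W.count_disc Γ
  refine H3Z.main2 L (fun i => .inl (h1 i)) ?_ Γ.subtype (H3Z.W2.lat hΓ) (fun i j a => ?_) hZ μ
  · rcases subsingleton_or_nontrivial ι with hι | hι
    · rcases isEmpty_or_nonempty ι with h | ⟨⟨i⟩⟩
      · simp at hr
      · rw [Fintype.sum_subsingleton _ i] at hr
        exact .inr ⟨i, h2 i hr⟩
    · exact .inl hι
  have e : (H3Z.w1q Γ.subtype i).range = Γ.map (MonoidHom.pi fun j : {j // j ≠ i} =>
      Pi.evalMonoidHom _ j.1) := by
    ext y
    exact ⟨fun ⟨γ, h⟩ => ⟨γ.1, γ.2, h⟩, fun ⟨γ, h, h'⟩ => ⟨⟨γ, h⟩, h'⟩⟩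
  rw [e]
  set C := (Γ.map (MonoidHom.pi fun j : {j // j ≠ i} =>
      Pi.evalMonoidHom (fun i => points (k i) (A i)) j.1)).topologicalClosure
  have : (C.subgroupOf (commutator _)).FiniteIndex := ⟨hd i⟩
  obtain ⟨K, hK⟩ := h1 j.1
  have h4 := H3Z.mem_clos2 hK.weak (q := (commutator _).subtype) (C.subgroupOf (commutator _))
    ((MonoidHom.mulSingle (fun t : {t // t ≠ i} => points (k t.1) (A t.1)) j).comp (L j.1).subtype)
    ((continuous_mulSingle j).comp continuous_subtype_val) (fun b => by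
      rw [Subgroup.range_subtype]
      exact map_clos_comm
        (MonoidHom.mulSingle (fun t : {t // t ≠ i} => points (k t.1) (A t.1)) j)
        (continuous_mulSingle (A := fun t : {t // t ≠ i} => points (k t.1) (A t.1)) j)
        (h3 j.1 b.2)) a
  refine Subgroup.topologicalClosure_minimal _ ?_ (Subgroup.isClosed_topologicalClosure _) h4
  rintro _ ⟨x, hx, rfl⟩
  exact hx

end Pool.Agent.Lib.MP_60cbcc_al.H3A
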