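import Pool.Agent.Lib.MP_60cbcc_al.H3AL

/-!
The Mautner phenomenon.
-/

namespace Pool.Agent.Lib.MP_60cbcc_al.H3A

open Matrix Filter Topology

set_option linter.unusedSectionVars false

variable {k : Type} [NontriviallyNormedField k] [ProperSpace k] {ν : Type} [Fintype ν]
  [DecidableEq ν] {G : Subgroup (GL ν k)}

section Semi

variable {L : Type} [Group L] {φ : L → ℝ}

theorem mau_nonneg (h1 : φ 1 = 0) (hi : ∀ g, φ g⁻¹ = φ g) (hm : ∀ g h, φ (g * h) ≤ φ g + φ h)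
    (g : L) : 0 ≤ φ g := by
  have := hm g g⁻¹
  rw [mul_inv_cancel, h1, hi] at this
  linarith

/-- The zero set of a seminorm. -/
def mauZ (φ : L → ℝ) (h1 : φ 1 = 0) (hi : ∀ g, φ g⁻¹ = φ g)
    (hm : ∀ g h, φ (g * h) ≤ φ g + φ h) : Subgroup L where
  carrier := {g | φ g = 0}
  one_mem' := h1
  mul_mem' := fun {a b} ha hb => by
    have ha' : φ a = 0 := ha
    have hb' : φ b = 0 := hb
    exact le_antisymm (by linarith [hm a b]) (mau_nonneg h1 hi hm _)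
  inv_mem' := fun {a} ha => (hi a).trans ha

end Semi

theorem mau_closed_map {N : Subgroup (LL G)} (hN : IsClosed (N : Set (LL G))) :
    IsClosed (N.map (LL G).subtype : Set (GL ν k)) :=
  (isClosed_LL (G := G)).isClosedEmbedding_subtypeVal.isClosedMap _ hN

theorem mau_top_of_le {N : Subgroup (LL G)} (h : LL G ≤ N.map (LL G).subtype) : N = ⊤ :=
  top_unique fun x _ => by
    obtain ⟨y, hy, e⟩ := h x.2
    rwa [← (Subtype.ext e : y = x)]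

theorem mau_con_sub {b u : LL G} (h : u.1 ∈ H3Z.con b.1) : u ∈ H3Z.con b :=
  tendsto_subtype_rng.2 h

/-- A closed subgroup containing both contraction groups is everything. -/
theorem mau_top (hG : Ctx G) {b : LL G} (hv : ¬ IsVal b.1 0) {N : Subgroup (LL G)}
    (hN : IsClosed (N : Set (LL G)))
    (h : ∀ c : LL G, c = b ∨ c = b⁻¹ → ∀ u ∈ H3Z.con c, u ∈ N) : N = ⊤ := by
  refine mau_top_of_le (hG.gen_con (hG.good.LL_le b.2) hv (mau_closed_map hN) ?_)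
  rintro u hu (hc | hc)
  · exact ⟨⟨u, hu⟩, h b (Or.inl rfl) _ (mau_con_sub hc), rfl⟩
  · exact ⟨⟨u, hu⟩, h b⁻¹ (Or.inr rfl) _ (mau_con_sub hc), rfl⟩

theorem Ctx.mau_one (hG : Ctx G) {b : LL G} (hv : ¬ IsVal b.1 0) : H3Z.Mau {b} := by
  intro φ hc h1 hi hm hF g
  have hb : b ∈ mauZ φ h1 hi hm := hF b rfl
  have hZ : IsClosed (mauZ φ h1 hi hm : Set (LL G)) := isClosed_eq hc continuous_const
  have := mau_top hG hv hZ fun c hcb u hu => by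
    have hc' : c ∈ mauZ φ h1 hi hm := by
      rcases hcb with rfl | rfl
      · exact hb
      · exact inv_mem hb
    have h2 := (hc.tendsto 1).comp hu
    rw [h1] at h2
    refine le_antisymm (ge_of_tendsto' h2 fun n => ?_) (mau_nonneg h1 hi hm _)
    have e1 : φ (c ^ n) = 0 := pow_mem hc' n
    have e2 : φ (c ^ n)⁻¹ = 0 := inv_mem (pow_mem hc' n)
    have e3 : u = (c ^ n)⁻¹ * (c ^ n * u * (c ^ n)⁻¹) * c ^ n := by group
    have e4 := hm ((c ^ n)⁻¹ * (c ^ n * u * (c ^ n)⁻¹)) (c ^ n)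
    have e5 := hm (c ^ n)⁻¹ (c ^ n * u * (c ^ n)⁻¹)
    rw [← e3] at e4
    change φ u ≤ φ (c ^ n * u * (c ^ n)⁻¹)
    linarith
  exact this.ge (Subgroup.mem_top g)

theorem mau_val_inv {g : GL ν k} (h : IsVal g 0) : IsVal g⁻¹ 0 := fun ρ hρ => by
  obtain ⟨C, hC⟩ := h ρ hρ
  refine ⟨C, fun l i j => ?_⟩
  have := hC (-l) i j
  rw [_root_.zpow_neg, ← _root_.inv_zpow, Int.natAbs_neg] at this
  simpa using this

theorem mau_not_gr {w : ν → ℤ} {i : ν} (hi : w i < 0) : ¬ IsVal (dg w (pw k)) 0 := fun h => by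
  have hg : Gr (dg w (pw k)).1 1 := h.gr one_pos fun j => by simp
  have p0 := pw_pos (k := k)
  have p1 := pw_lt (k := k)
  have q1 : 1 < ‖(pw k : k)‖⁻¹ := (one_lt_inv₀ p0).2 p1
  obtain ⟨ρ, r1, r2⟩ := exists_between q1
  obtain ⟨C, hC⟩ := hg ρ r1
  have r0 : 0 < ρ := one_pos.trans r1
  have key : ∀ l : ℕ, (‖(pw k : k)‖⁻¹ / ρ) ^ l ≤ C := fun l => by
    have := hC l i i
    rw [← Units.val_pow_eq_pow_val, dg_pw_pow, dg_val, diagonal_apply_eq, norm_zpow,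
      Units.val_pow_eq_pow_val, norm_pow] at this
    rw [div_pow, div_le_iff₀ (pow_pos r0 l)]
    refine le_trans ?_ this
    rw [inv_pow, ← _root_.zpow_neg_one]
    exact zpow_le_zpow_right_of_le_one₀ (pow_pos p0 l) (pow_le_one₀ p0.le p1.le) (by omega)
  have h3 := tendsto_pow_atTop_atTop_of_one_lt ((one_lt_div r0).2 r2)
  obtain ⟨l, hl⟩ := (h3.eventually_gt_atTop C).exists
  exact absurd (key l) (not_le.2 hl)

theorem mau_not_val {w : ν → ℤ} (hw : w ≠ 0) : ¬ IsVal (dg w (pw k)) 0 := fun h => by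
  obtain ⟨i, hi⟩ := Function.ne_iff.1 hw
  rcases lt_or_gt_of_ne hi with h1 | h1
  · exact mau_not_gr h1 h
  · refine mau_not_gr (k := k) (w := -w) (i := i) (by simpa using h1) ?_
    rw [dg_neg]
    exact mau_val_inv h

theorem mau_flip {Γ : Type} [Group Γ] {a n : Γ} (h : n * a * n⁻¹ = a⁻¹) (l : ℕ) :
    (a ^ l)⁻¹ * n * a ^ l = (a⁻¹ * a⁻¹) ^ l * n := by
  have h1 : n * a ^ l * n⁻¹ = a⁻¹ ^ l := by rw [← h, conj_pow]
  rw [(Commute.refl a⁻¹).mul_pow, ← inv_pow, mul_assoc, mul_assoc, ← h1]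
  group

theorem Ctx.mau_ray (hG : Ctx G) {β : ν → ℝ} (h0 : β ≠ 0) {r : GL ν k} (hr : r ∈ G)
    (hr' : r ∈ Rgl G β) (h1 : r ≠ 1) {z : ν → ℤ} (hz : z ∈ YY (LL G)) {c : ℝ} (hc : 0 < c)
    (hz' : cst z = c • β) :
    H3Z.Mau {x : LL G | ∃ l : ℕ, x.1 = (dg z (pw k) ^ l)⁻¹ * r * dg z (pw k) ^ l} := by
  have hβ : β ∈ aa G := (mem_aa_of_Rgl hr' h1).1
  have hβ' : -β ∈ aa G := (aa G).neg_mem hβ
  have h0' : -β ≠ 0 := neg_ne_zero.2 h0
  have hzG : z ∈ YY G := YY_mono hG.good.LL_le hz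
  obtain ⟨n, τ, hn, hτ, u, hu, u', hu', e⟩ :=
    hG.bruhat (γ := -β) h0' hr (by rwa [neg_neg]) h1
  have rL : r ∈ LL G := R_le_LL hβ h0 ⟨hr, hr'⟩
  have uL : u ∈ LL G := R_le_LL hβ' h0' hu
  have uL' : u' ∈ LL G := R_le_LL hβ' h0' hu'
  have nL : n ∈ LL G := by
    have : n = u⁻¹ * r * u'⁻¹ := by rw [e]; group
    rw [this]
    exact mul_mem (mul_mem (inv_mem uL) rL) (inv_mem uL')
  have z0 : z ≠ 0 := by
    rintro rfl
    have : c • β = 0 := by rw [← hz']; funext i; simp [cst]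
    exact h0 ((smul_eq_zero.1 this).resolve_left hc.ne')
  have hzτ : z ∘ τ = -z := by
    apply cst_injective
    have h2 := hτ.self hβ' h0'
    have h3 : cst (z ∘ τ) = cst z ∘ τ := rfl
    rw [h3, cst_neg, hz']
    funext i
    have := congrFun h2 i
    simp only [Function.comp_apply, Pi.neg_apply, neg_neg, Pi.smul_apply, smul_eq_mul] at this ⊢
    rw [neg_eq_iff_eq_neg.1 this]
    ring
  let a : LL G := ⟨dg z (pw k), hz _⟩
  have hna : (⟨n, nL⟩ : LL G) * a * (⟨n, nL⟩ : LL G)⁻¹ = a⁻¹ := Subtype.ext (by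
    change n * dg z (pw k) * n⁻¹ = (dg z (pw k))⁻¹
    rw [hn.conj_dg hzG, hzτ, dg_neg])
  have hcon : ∀ v : LL G, v.1 ∈ Rgl G (-β) → v ∈ H3Z.con a⁻¹ := fun v hv => by
    refine mau_con_sub (mem_Ugl_neg_iff_con.1 (Rgl_le_Ugl ((aa G).neg_mem (cst_mem hzG)) ?_ hv))
    rw [hz', neg_dotProduct_neg, dotProduct_smul, smul_eq_mul]
    exact mul_pos hc (lt_of_le_of_ne (Finset.sum_nonneg fun i _ => mul_self_nonneg _)
      (Ne.symm (mt dotProduct_self_eq_zero.1 h0)))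
  have hb : ¬ IsVal (a⁻¹ * a⁻¹).1 0 := by
    have : (a⁻¹ * a⁻¹).1 = dg (-z + -z) (pw k) := by rw [dg_add, dg_neg]; rfl
    rw [this]
    refine mau_not_val fun h => z0 ?_
    funext i
    have := congrFun h i
    simp only [Pi.add_apply, Pi.neg_apply, Pi.zero_apply] at this ⊢
    omega
  intro φ φc φ1 φi φm hF
  refine hG.mau_one hb φ φc φ1 φi φm ?_
  rintro _ rfl
  have t1 := (φc.tendsto 1).comp (hcon ⟨u, uL⟩ hu.2)
  have t2 := (φc.tendsto 1).comp (hcon ⟨u', uL'⟩ hu'.2)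
  rw [φ1] at t1 t2
  have t3 := t1.add t2
  have t4 := ((tendsto_add_atTop_iff_nat 1).2 t3).add t3
  simp only [add_zero] at t4
  have key : ∀ l : ℕ, φ ((a⁻¹ * a⁻¹) ^ l * ⟨n, nL⟩) ≤ φ (a⁻¹ ^ l * ⟨u, uL⟩ * (a⁻¹ ^ l)⁻¹) +
      φ (a⁻¹ ^ l * ⟨u', uL'⟩ * (a⁻¹ ^ l)⁻¹) := fun l => by
    have e1 : φ ((a ^ l)⁻¹ * ⟨r, rL⟩ * a ^ l) = 0 := hF _ ⟨l, rfl⟩
    have e2 : (⟨r, rL⟩ : LL G) = ⟨u, uL⟩ * ⟨n, nL⟩ * ⟨u', uL'⟩ := Subtype.ext e
    have e3 : (a⁻¹ * a⁻¹) ^ l * ⟨n, nL⟩ = (a⁻¹ ^ l * ⟨u, uL⟩ * (a⁻¹ ^ l)⁻¹)⁻¹ *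
        ((a ^ l)⁻¹ * ⟨r, rL⟩ * a ^ l) * (a⁻¹ ^ l * ⟨u', uL'⟩ * (a⁻¹ ^ l)⁻¹)⁻¹ := by
      rw [← mau_flip hna, e2]
      group
    rw [e3]
    refine (φm _ _).trans ?_
    rw [φi]
    refine add_le_add_left ((φm _ _).trans ?_) _
    rw [φi, e1, add_zero]
  refine le_antisymm (ge_of_tendsto' t4 fun l => ?_) (mau_nonneg φ1 φi φm _)
  have e4 : a⁻¹ * a⁻¹ = (a⁻¹ * a⁻¹) ^ (l + 1) * ⟨n, nL⟩ * ((a⁻¹ * a⁻¹) ^ l * ⟨n, nL⟩)⁻¹ := by
    generalize a⁻¹ * a⁻¹ = b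
    group
  have e5 := φm ((a⁻¹ * a⁻¹) ^ (l + 1) * ⟨n, nL⟩) ((a⁻¹ * a⁻¹) ^ l * ⟨n, nL⟩)⁻¹
  rw [← e4, φi] at e5
  exact e5.trans (add_le_add (key (l + 1)) (key l))

theorem mau_lim {m : Type} (s : Finset ℤ) (e : ℤ → Matrix m m k) (f : ℤ → ℤ) {d₀ : ℤ}
    (h0 : d₀ ∈ s) (hf0 : f d₀ = 0) (hf : ∀ d ∈ s, d ≠ d₀ → e d ≠ 0 → 0 < f d) :
    Tendsto (fun l : ℕ => ∑ d ∈ s, (((pw k : k) ^ l) ^ f d) • e d) atTop (𝓝 (e d₀)) := by
  have h1 : e d₀ = ∑ d ∈ s, if d = d₀ then e d₀ else 0 := by simp [h0]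
  rw [h1]
  refine tendsto_finsetSum _ fun d hd => ?_
  split_ifs with h
  · subst h
    simp [hf0]
  by_cases h2 : e d = 0
  · simp [h2]
  obtain ⟨n, hn⟩ := Int.eq_ofNat_of_zero_le (hf d hd h h2).le
  have hn0 : n ≠ 0 := by
    have := hf d hd h h2
    omega
  have h3 := ((tendsto_pow_atTop_nhds_zero_of_norm_lt_one (pw_lt (k := k))).pow n).smul_const (e d)
  rw [zero_pow hn0, zero_smul] at h3
  simpa [hn] using h3

theorem mau_det (hG : Good G) {m : Type} [Fintype m] [DecidableEq m]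
    {ρ : GL ν k → Matrix m m k} (hρ : Rep G ρ) {g : GL ν k} (hg : g ∈ G) : (ρ g).det = 1 := by
  have h1 : Rep G fun g => (Matrix.of fun _ _ : Unit => (ρ g).det) :=
    ⟨by ext; simp [hρ.one], fun g hg h hh => by ext; simp [hρ.mul g hg h hh, Matrix.mul_apply],
      fun _ _ => Reg.det hρ.reg⟩
  have h2 := hG.ab h1 (fun g _ h _ => by ext; simp [Matrix.mul_apply, mul_comm]) g hg
  simpa using congrFun (congrFun h2 ()) ()

/-- The extreme weight projections of a non-trivial cocharacter. -/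
theorem mau_ext (hG : Good G) {m : Type} [Fintype m] [DecidableEq m]
    {ρ : GL ν k → Matrix m m k} (hρ : Rep G ρ) (hn : ∃ g ∈ G, ρ g ≠ 1) {z : ν → ℤ}
    (hz : z ∈ YY G) (h0 : z ≠ 0) : ∃ (e e' : Matrix m m k) (c c' : ℕ → k), e ≠ 0 ∧ e' ≠ 0 ∧
      Tendsto (fun l => c l * c' l) atTop (𝓝 0) ∧
      Tendsto (fun l => c l • ρ (dg z (pw k) ^ l)) atTop (𝓝 e) ∧
      Tendsto (fun l => c' l • ρ (dg z (pw k) ^ l)⁻¹) atTop (𝓝 e') := by
  classical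
  obtain ⟨s, e, h1, -, h3, -, -⟩ := hρ.diag (coch_dg hz)
  have hm : Nonempty m := by
    by_contra hm
    obtain ⟨g, -, hg⟩ := hn
    exact hg (by ext a; exact (hm ⟨a⟩).elim)
  have hs : (s.filter fun d => e d ≠ 0).Nonempty := by
    by_contra hs
    rw [Finset.not_nonempty_iff_eq_empty, Finset.filter_eq_empty_iff] at hs
    rw [Finset.sum_eq_zero fun d hd => not_not.1 (hs hd)] at h3
    exact zero_ne_one h3
  obtain ⟨d₁, hd₁, m₁⟩ := Finset.exists_min_image _ id hs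
  obtain ⟨d₂, hd₂, m₂⟩ := Finset.exists_max_image _ id hs
  simp only [Finset.mem_filter, id, and_imp] at hd₁ hd₂ m₁ m₂
  have p0 : (pw k : k) ≠ 0 := (pw k).ne_zero
  have hlt : d₁ < d₂ := by
    by_contra hle
    have hz' : ∀ d ∈ s, d ≠ d₁ → e d = 0 := fun d hd hne => by
      by_contra he
      have := m₁ d hd he
      have := m₂ d hd he
      omega
    have e1 : e d₁ = 1 := by
      rw [← h3, Finset.sum_eq_single_of_mem d₁ hd₁.1 hz']
    have e2 : ∀ t : kˣ, ρ (dg z t) = ((t : k) ^ d₁) • (1 : Matrix m m k) := fun t => by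
      rw [h1, Finset.sum_eq_single_of_mem d₁ hd₁.1 fun d hd hne => by rw [hz' d hd hne, smul_zero],
        e1]
    have e3 := congrArg norm (mau_det hG hρ (hz (pw k)))
    rw [e2, det_smul, det_one, mul_one, norm_one, norm_pow, norm_zpow,
      pow_eq_one_iff_of_nonneg (zpow_nonneg (norm_nonneg _) _) Fintype.card_ne_zero,
      zpow_eq_one_iff_right₀ (norm_nonneg _) (pw_lt (k := k)).ne] at e3
    refine infinite_dg (k := k) h0 ((hG.ker_fin hρ hn).subset ?_)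
    rintro _ ⟨t, rfl⟩
    exact ⟨hz t, by rw [e2, e3, zpow_zero, one_smul]⟩
  refine ⟨e d₁, e d₂, fun l => ((pw k : k) ^ l) ^ (-d₁), fun l => ((pw k : k) ^ l) ^ d₂,
    hd₁.2, hd₂.2, ?_, ?_, ?_⟩
  · obtain ⟨n, hn⟩ := Int.eq_ofNat_of_zero_le (sub_nonneg.2 hlt.le)
    have h4 := (tendsto_pow_atTop_nhds_zero_of_norm_lt_one (pw_lt (k := k))).pow n
    rw [zero_pow (by omega)] at h4
    refine h4.congr fun l => ?_
    rw [← zpow_add₀ (pow_ne_zero l p0), neg_add_eq_sub, hn, zpow_natCast]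
  · refine (mau_lim s e (fun d => -d₁ + d) hd₁.1 (by simp) fun d hd hne he => ?_).congr fun l => ?_
    · have := m₁ d hd he
      omega
    · rw [dg_pw_pow, h1, Finset.smul_sum]
      refine Finset.sum_congr rfl fun d _ => ?_
      rw [smul_smul, Units.val_pow_eq_pow_val, zpow_add₀ (pow_ne_zero l p0)]
  · refine (mau_lim s e (fun d => d₂ - d) hd₂.1 (by simp) fun d hd hne he => ?_).congr fun l => ?_
    · have := m₂ d hd he
      omega
    · have e4 : (dg z (pw k ^ l))⁻¹ = dg z (pw k ^ l)⁻¹ := by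
        rw [inv_eq_iff_mul_eq_one, ← dg_mul, mul_inv_cancel, dg_one]
      rw [dg_pw_pow, e4, h1, Finset.smul_sum]
      refine Finset.sum_congr rfl fun d _ => ?_
      rw [smul_smul, Units.val_inv_eq_inv_val, Units.val_pow_eq_pow_val, _root_.inv_zpow,
        zpow_sub₀ (pow_ne_zero l p0), div_eq_mul_inv]

theorem Ctx.exists_unb (hG : Ctx G) {m : Type} [Fintype m] [DecidableEq m]
    {ρ : GL ν k → Matrix m m k} (hρ : Rep G ρ) (hn : ∃ g ∈ G, ρ g ≠ 1) {Λ : Subgroup (GL ν k)}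
    (hΛ : Λ ≤ G) (hI : Irr (ρ '' Λ) ⊥ ⊤) {z : ν → ℤ} (hz : z ∈ YY G) (h0 : z ≠ 0) :
    ∀ᶠ l : ℕ in atTop, ∃ b ∈ Subgroup.closure ((Λ : Set (GL ν k)) ∪
      {x | ∃ v ∈ Λ, x = dg z (pw k) ^ l * v * (dg z (pw k) ^ l)⁻¹}), ¬ IsVal b 0 := by
  obtain ⟨e, e', c, c', he, he', t0, t1, t2⟩ := mau_ext hG.good hρ hn hz h0
  obtain ⟨N, hN⟩ := hρ.gr
  let Γ : ℕ → Subgroup (GL ν k) := fun l => Subgroup.closure ((Λ : Set (GL ν k)) ∪
    {x | ∃ v ∈ Λ, x = dg z (pw k) ^ l * v * (dg z (pw k) ^ l)⁻¹})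
  have haG : ∀ l : ℕ, dg z (pw k) ^ l ∈ G := fun l => pow_mem (hz _) l
  have hΓ : ∀ l, Γ l ≤ G := fun l => (Subgroup.closure_le _).2 (by
    rintro x (hx | ⟨v, hv, rfl⟩)
    · exact hΛ hx
    · exact mul_mem (mul_mem (haG l) (hΛ hv)) (inv_mem (haG l)))
  have hΛΓ : ∀ l, Λ ≤ Γ l := fun l x hx => Subgroup.subset_closure (Or.inl hx)
  by_contra hcon
  obtain ⟨σ, hσ, hb⟩ := extraction_of_frequently_atTop (not_eventually.1 hcon)
  have hb' : ∀ i, ∀ b ∈ Γ (σ i), Gr (ρ b) (1 ^ N) := fun i b hbi =>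
    hN b (hΓ _ hbi) 1 le_rfl (IsVal.gr (w := 0) (not_not.1 fun h => hb i ⟨b, hbi, h⟩) one_pos
      fun j => by simp)
  let S : Set (Matrix m m k) := {φ | ∃ (x : ℕ → GL ν k) (a : ℕ → k), (∀ i, x i ∈ Γ (σ i)) ∧
    Tendsto a atTop (𝓝 0) ∧ Tendsto (fun i => a i • ρ (x i)) atTop (𝓝 φ)}
  have H1 : (1 : Matrix m m k) ∈ ρ '' Λ := ⟨1, Λ.one_mem, hρ.one⟩
  have Hm : ∀ a ∈ ρ '' Λ, ∀ b ∈ ρ '' Λ, a * b ∈ ρ '' Λ := by
    rintro _ ⟨a, ha, rfl⟩ _ ⟨b, hb, rfl⟩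
    exact ⟨a * b, Λ.mul_mem ha hb, hρ.mul a (hΛ ha) b (hΛ hb)⟩
  have Sr : ∀ φ ∈ S, ∀ h ∈ ρ '' Λ, φ * h ∈ S := by
    rintro φ ⟨x, a, hx, ha, hφ⟩ _ ⟨h, hh, rfl⟩
    refine ⟨fun i => x i * h, a, fun i => mul_mem (hx i) (hΛΓ _ hh), ha,
      (hφ.mul_const (ρ h)).congr fun i => ?_⟩
    rw [hρ.mul _ (hΓ _ (hx i)) h (hΛ hh), smul_mul_assoc]
  have Sm : ∀ φ ∈ S, ∀ ψ ∈ S, φ * ψ ∈ S := by
    rintro φ ⟨x, a, hx, ha, hφ⟩ ψ ⟨y, b, hy, hb, hψ⟩
    refine ⟨fun i => x i * y i, fun i => a i * b i, fun i => mul_mem (hx i) (hy i),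
      by simpa using ha.mul hb, (hφ.mul hψ).congr fun i => ?_⟩
    rw [hρ.mul _ (hΓ _ (hx i)) _ (hΓ _ (hy i)), smul_mul_smul_comm]
  have Sn : ∀ φ ∈ S, IsNilpotent φ := by
    rintro φ ⟨x, a, hx, ha, hφ⟩
    exact nil_of_lim (fun i => ρ (x i)) _ (fun i => hb' i _ (hx i)) a ha φ hφ
  have S0 := nil_zero H1 Hm hI (fun φ hφ ψ hψ h hh => Sm _ (Sr φ hφ h hh) ψ hψ)
    fun φ hφ h hh => Sn _ (Sr φ hφ h hh)
  have hv : ∀ f : Matrix m m k, f ≠ 0 → ∃ w, f *ᵥ w ≠ 0 := fun f hf => by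
    by_contra hw
    refine hf (Matrix.ext_of_mulVec_single fun i => ?_)
    rw [zero_mulVec]
    exact not_not.1 fun h => hw ⟨_, h⟩
  obtain ⟨w, hw⟩ := hv e he
  obtain ⟨w', hw'⟩ := hv e' he'
  obtain ⟨_, ⟨v, hvΛ, rfl⟩, hne⟩ := hI.exists_not_mem H1 Hm (e := e)
    (fun v hv => by rw [(Submodule.mem_bot k).1 hv, mulVec_zero]; exact Submodule.zero_mem _)
    ⟨w, Submodule.mem_top, fun h => hw ((Submodule.mem_bot k).1 h)⟩ (v := e' *ᵥ w')
    Submodule.mem_top fun h => hw' ((Submodule.mem_bot k).1 h)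
  have hS : e * ρ v * e' ∈ S := by
    refine ⟨fun i => dg z (pw k) ^ σ i * v * (dg z (pw k) ^ σ i)⁻¹, fun i => c (σ i) * c' (σ i),
      fun i => Subgroup.subset_closure (Or.inr ⟨v, hvΛ, rfl⟩), t0.comp hσ.tendsto_atTop,
      (((t1.mul_const (ρ v)).mul t2).comp hσ.tendsto_atTop).congr fun i => ?_⟩
    rw [hρ.mul _ (mul_mem (haG _) (hΛ hvΛ)) _ (inv_mem (haG _)), hρ.mul _ (haG _) _ (hΛ hvΛ),
      Function.comp_apply, smul_mul_assoc, smul_mul_smul_comm]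
  rw [mulVec_mulVec, mulVec_mulVec, S0 _ hS, zero_mulVec] at hne
  exact hne (Submodule.zero_mem _)

theorem mau_exists (hG : Ctx G) : ∃ z ∈ YY (LL G), z ≠ 0 := by
  obtain ⟨γ, hγ⟩ := hG.exists_root
  obtain ⟨z, hz, c, hc, e⟩ := hG.coroot_LL hγ
  refine ⟨z, hz, ?_⟩
  rintro rfl
  have : c • γ = 0 := by rw [← e]; funext i; simp [cst]
  exact hγ.1 ((smul_eq_zero.1 this).resolve_left hc.ne')

theorem mau_open (hG : Ctx G) {b : LL G} (hv : ¬ IsVal b.1 0) {O : Subgroup (LL G)}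
    (ho : IsOpen (O : Set (LL G))) (hb : ∀ x ∈ O, b * x * b⁻¹ ∈ O ∧ b⁻¹ * x * b ∈ O) :
    O = ⊤ := by
  refine mau_top hG hv (O.isClosed_of_isOpen ho) fun c hc u hu => ?_
  have h1 : ∀ x ∈ O, c⁻¹ * x * c ∈ O := fun x hx => by
    rcases hc with rfl | rfl
    · exact (hb x hx).2
    · rw [inv_inv]
      exact (hb x hx).1
  have h2 : ∀ n : ℕ, ∀ x ∈ O, (c ^ n)⁻¹ * x * c ^ n ∈ O := fun n => by
    induction n with
    | zero => simp
    | succ n ih =>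
      intro x hx
      rw [show (c ^ (n + 1))⁻¹ * x * c ^ (n + 1) = c⁻¹ * ((c ^ n)⁻¹ * x * c ^ n) * c by group]
      exact h1 _ (ih x hx)
  obtain ⟨n, hn⟩ := (Tendsto.eventually hu (ho.mem_nhds O.one_mem)).exists
  have h3 := h2 n _ hn
  rwa [show (c ^ n)⁻¹ * (c ^ n * u * (c ^ n)⁻¹) * c ^ n = u by group] at h3

theorem Ctx.weak (hG : Ctx G) : H3Z.Weak (LL G) := by
  obtain ⟨z, hz, z0⟩ := mau_exists hG
  let a : LL G := ⟨dg z (pw k), hz _⟩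
  have ha : ¬ IsVal a.1 0 := mau_not_val z0
  have hO : ∀ O : Subgroup (LL G), O.Normal → IsOpen (O : Set (LL G)) → O = ⊤ :=
    fun O hn ho => mau_open hG ha ho fun x hx => ⟨hn.conj_mem x hx a, hn.conj_mem' x hx a⟩
  refine ⟨fun N hn hc => ?_, ?_, fun N hc hf => ?_, fun hD => ?_⟩
  · refine (hG.qs ((Subgroup.map_subtype_le N).trans hG.good.LL_le) (mau_closed_map hc) ?_).imp
      (fun h1 x hx => ?_) mau_top_of_le
    · rintro g hg _ ⟨n, hn', rfl⟩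
      exact ⟨_, hn.conj_mem n hn' ⟨g, hg⟩, rfl⟩
    · exact Subgroup.mem_center_iff.2 fun y =>
        Subtype.ext (h1 x.1 ⟨x, hx, rfl⟩ y.1 (hG.good.LL_le y.2))
  · have hJ := (commutator (LL G)).isClosed_topologicalClosure
    have h1 := mau_top hG ha hJ fun b _ u hu => by
      rw [← inv_mem_iff]
      have h2 : Tendsto (fun n : ℕ => u⁻¹ * (b ^ n * u * (b ^ n)⁻¹)) atTop (𝓝 (u⁻¹ * 1)) :=
        Tendsto.const_mul _ hu
      rw [mul_one] at h2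
      refine hJ.mem_of_tendsto h2 (Eventually.of_forall fun n => ?_)
      have h3 := Subgroup.le_topologicalClosure _ (Subgroup.commutator_mem_commutator
        (Subgroup.mem_top u⁻¹) (Subgroup.mem_top (b ^ n)))
      rwa [commutatorElement_def, inv_inv, mul_assoc, mul_assoc, ← mul_assoc (b ^ n)] at h3
    intro x
    exact h1.ge (Subgroup.mem_top x)
  · exact top_unique ((hO N.normalCore inferInstance
      (N.normalCore.isOpen_of_isClosed_of_finiteIndex (N.normalCore_isClosed hc))).ge.trans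
        N.normalCore_le)
  · have h1 : a = 1 := (hO ⊥ inferInstance (isOpen_discrete _)).ge (Subgroup.mem_top a)
    refine ha fun ρ hρ => ⟨1, fun l i j => ?_⟩
    rw [h1, OneMemClass.coe_one, _root_.one_zpow, Units.val_one]
    have h2 : (1 : ℝ) ≤ ρ ^ l.natAbs := one_le_pow₀ hρ.le
    by_cases e : i = j
    · subst e
      simpa using h2
    · rw [Matrix.one_apply_ne e, norm_zero]
      positivity

theorem Ctx.cg (hG : Ctx G) : ∃ S : Set (LL G), IsCompact S ∧ Subgroup.closure S = ⊤ := by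
  obtain ⟨z, hz, z0⟩ := mau_exists hG
  let a : LL G := ⟨dg z (pw k), hz _⟩
  have ha : ¬ IsVal a.1 0 := mau_not_val z0
  have : LocallyCompactSpace (LL G) := (isClosed_LL (G := G)).locallyCompactSpace
  obtain ⟨K, hK, hK'⟩ := exists_compact_mem_nhds (1 : LL G)
  refine ⟨insert a K, hK.insert a, mau_open hG ha ?_ fun x hx => ?_⟩
  · exact Subgroup.isOpen_of_mem_nhds _ (mem_of_superset hK' fun x hx =>
      Subgroup.subset_closure (Set.mem_insert_of_mem _ hx))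
  · have h1 : a ∈ Subgroup.closure (insert a K) := Subgroup.subset_closure (Set.mem_insert _ _)
    exact ⟨mul_mem (mul_mem h1 hx) (inv_mem h1), mul_mem (mul_mem (inv_mem h1) hx) h1⟩

theorem Ctx.rigid (hG : Ctx G) : H3Z.Rigid (LL G) := by
  classical
  have hW := hG.weak
  have hL := hG.good.LL_le
  refine ⟨hG.cg, hW.qs, hW.perf, hW.nfi, hW.nd, fun g hg => ?_⟩
  obtain ⟨z, hz, z0⟩ := mau_exists hG
  obtain ⟨n, ρ, hρ, hI, hn⟩ := hG.good.exists_irrep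
  obtain ⟨d, hd⟩ := hG.good.exists_span hL hG.locD_LL hρ hI (hL g.2) fun h =>
    hg (Subgroup.mem_center_iff.2 fun y => Subtype.ext (h y.1 (hL y.2)))
  refine ⟨d, fun U hU => ?_⟩
  obtain ⟨s, h1, h2, h3⟩ := hd (Subtype.val '' U)
    (map_nhds_subtype_val (s := (LL G : Set (GL ν k))) ⟨1, (LL G).one_mem⟩ ▸ image_mem_map hU)
  have hΛ : Subgroup.closure {f | ∃ v ∈ s, f = v * g.1 * v⁻¹} ≤ LL G :=
    (Subgroup.closure_le _).2 (by
      rintro _ ⟨v, hv, rfl⟩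
      exact mul_mem (mul_mem (h2 hv).2 g.2) (inv_mem (h2 hv).2))
  obtain ⟨k₀, hk⟩ := eventually_atTop.1
    (hG.exists_unb hρ hn (hΛ.trans hL) h3 (YY_mono hL hz) z0)
  let a : LL G := ⟨dg z (pw k), hz _⟩
  let s' : Finset (LL G) := s.subtype (· ∈ LL G)
  refine ⟨s', ?_, fun v hv => ?_, fun N => ⟨fun i => a ^ (i.1 * k₀), ?_⟩⟩
  · rw [Finset.card_subtype]
    exact (Finset.card_filter_le _ _).trans h1
  · obtain ⟨y, hy, e⟩ := (h2 (Finset.mem_subtype.1 hv)).1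
    rwa [← (Subtype.ext e : y = v)]
  have key : ∀ i j : Fin N, i < j → H3Z.Mau {f | ∃ v ∈ s',
      f = a ^ (i.1 * k₀) * v * g * (a ^ (i.1 * k₀) * v)⁻¹ ∨
      f = a ^ (j.1 * k₀) * v * g * (a ^ (j.1 * k₀) * v)⁻¹} := fun i j hij => by
    obtain ⟨c, hc⟩ := Nat.exists_eq_add_of_lt (Fin.lt_def.1 hij)
    obtain ⟨b, hb, hv⟩ := hk ((c + 1) * k₀) (Nat.le_mul_of_pos_left _ c.succ_pos)
    generalize hl : (c + 1) * k₀ = l at hb
    have hM : H3Z.Mau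
        {f | ∃ v ∈ s', f = v * g * v⁻¹ ∨ f = a ^ l * (v * g * v⁻¹) * (a ^ l)⁻¹} := by
      let J := (Subgroup.closure {f | ∃ v ∈ s',
        f = v * g * v⁻¹ ∨ f = a ^ l * (v * g * v⁻¹) * (a ^ l)⁻¹}).map (LL G).subtype
      have : b ∈ J := by
        refine (Subgroup.closure_le _).2 ?_ hb
        rintro x (hx | ⟨x, hx, rfl⟩)
        · refine (Subgroup.closure_le _).2 ?_ hx
          rintro _ ⟨v, hv, rfl⟩
          exact ⟨_, Subgroup.subset_closure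
            ⟨⟨v, (h2 hv).2⟩, Finset.mem_subtype.2 hv, Or.inl rfl⟩, rfl⟩
        · refine (Subgroup.closure_le (cj (dg z (pw k) ^ l) J)).2 ?_ hx
          rintro _ ⟨v, hv, rfl⟩
          exact ⟨_, Subgroup.subset_closure
            ⟨⟨v, (h2 hv).2⟩, Finset.mem_subtype.2 hv, Or.inr rfl⟩, rfl⟩
      obtain ⟨b', hb', rfl⟩ := this
      exact H3Z.Mau.of_closure hb' (hG.mau_one hv)
    refine hM.of_conj (a ^ (i.1 * k₀)) ?_
    rintro _ ⟨v, hv, rfl | rfl⟩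
    · exact ⟨v, hv, .inl (by group)⟩
    · refine ⟨v, hv, .inr ?_⟩
      have : j.1 * k₀ = i.1 * k₀ + l := by rw [hc, ← hl]; ring
      rw [this, pow_add]; group
  intro i j hij
  rcases lt_or_gt_of_ne hij with h' | h'
  · exact key i j h'
  · refine (key j i h').of_conj 1 ?_
    rintro f ⟨v, hv, e⟩
    exact ⟨v, hv, by simpa using e.symm⟩

end Pool.Agent.Lib.MP_60cbcc_al.H3A
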