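import Pool.Agent.Lib.MP_60cbcc_al.H3ATor

/-!
The big cell and the unipotent radicals.
-/

namespace Pool.Agent.Lib.MP_60cbcc_al.H3A

open Matrix Filter Topology

set_option linter.unusedSectionVars false

variable {k : Type} [NontriviallyNormedField k] [ProperSpace k] {ν : Type} [Fintype ν]
  [DecidableEq ν] {G : Subgroup (GL ν k)}

variable {π : Matrix ν ν k →ₗ[k] Matrix ν ν k} {ψ : Matrix ν ν k → GL ν k} {y y' : ν → ℝ}

theorem phi_int (hy : y ∈ aa G) : ∃ w ∈ YY G, Pat y (cst w) := by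
  obtain ⟨w, hw, hp, -⟩ := rat_diff (YY G) hy
  exact ⟨w, hw, hp⟩

theorem phi_lt {w : ν → ℤ} (hp : Pat y (cst w)) (i j : ν) : y i < y j ↔ w i < w j :=
  (hp i j).trans (by simp [cst])

theorem phi_le {w : ν → ℤ} (hp : Pat y (cst w)) (i j : ν) : y i ≤ y j ↔ w i ≤ w j := by
  rw [← not_lt, phi_lt hp, not_lt]

theorem phi_tendsto_lie {α : Type} {l : Filter α} {F : α → lie G} :
    Tendsto F l (𝓝 0) ↔ ∀ i j, Tendsto (fun a => (F a).1 i j) l (𝓝 0) := by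
  rw [tendsto_subtype_rng]
  exact ⟨fun h i j => tendsto_pi_nhds.1 (tendsto_pi_nhds.1 h i) j,
    fun h => tendsto_pi_nhds.2 fun i => tendsto_pi_nhds.2 (h i)⟩

theorem phi_small {δ : ℝ} (hδ : 0 < δ) : ∀ᶠ X : lie G in 𝓝 0, ∀ i j, ‖X.1 i j‖ < δ := by
  refine eventually_all.2 fun i => eventually_all.2 fun j => ?_
  have h := (phi_tendsto_lie (G := G)).1 tendsto_id i j
  exact h.norm.eventually (gt_mem_nhds (by simpa using hδ))

open scoped Matrix.Norms.Elementwise in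
theorem phi_ball {P : lie G → Prop} (h : ∀ᶠ X : lie G in 𝓝 0, P X) :
    ∃ δ > 0, ∀ X : lie G, (∀ i j, ‖X.1 i j‖ < δ) → P X := by
  obtain ⟨δ, hδ, h⟩ := Metric.eventually_nhds_iff.1 h
  refine ⟨δ, hδ, fun X hX => h ?_⟩
  rw [dist_zero_right]
  exact (Matrix.norm_lt_iff hδ).2 hX

theorem Chart.tendsto (hψ : Chart G π ψ) :
    Tendsto (fun X : lie G => ψ X) (𝓝 0) (𝓝[G] (1 : GL ν k)) := by
  refine tendsto_nhdsWithin_iff.2 ⟨?_, hψ.mem.mono fun X h => h.1⟩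
  rw [gl_embedding.tendsto_nhds_iff]
  have h := hψ.der.continuousAt.tendsto
  simp only [ZeroMemClass.coe_zero, hψ.zero] at h
  exact h

theorem phi_tendsto_pi (hπ : IsPi G π) :
    Tendsto (fun g : GL ν k => (⟨π (g.1 - 1), hπ.mem _⟩ : lie G)) (𝓝[G] 1) (𝓝 0) := by
  rw [tendsto_subtype_rng]
  refine Tendsto.mono_left ?_ nhdsWithin_le_nhds
  have h : Continuous fun g : GL ν k => π (g.1 - 1) :=
    π.continuous_of_finiteDimensional.comp (gl_embedding.continuous.sub continuous_const)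
  have h1 := h.tendsto 1
  simpa using h1

theorem phi_conj_entry (w : ν → ℤ) (l : ℕ) (X : Matrix ν ν k) (i j : ν) :
    ((dg w (pw k) ^ l).1 * X * ((dg w (pw k) ^ l)⁻¹).1) i j =
      ((pw k : k) ^ l) ^ (w i - w j) * X i j := by
  rw [dg_pw_pow, dg_conj_apply, Units.val_pow_eq_pow_val]

theorem phi_conj_le {w : ν → ℤ} {X : Matrix ν ν k} (hX : Sup (fun i j => w j ≤ w i) X) (l : ℕ)
    (i j : ν) : ‖((dg w (pw k) ^ l).1 * X * ((dg w (pw k) ^ l)⁻¹).1) i j‖ ≤ ‖X i j‖ := by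
  rw [phi_conj_entry]
  by_cases h : X i j = 0
  · simp [h]
  · obtain ⟨n, hn⟩ := Int.eq_ofNat_of_zero_le (sub_nonneg.2 (hX i j h))
    rw [norm_mul, hn, zpow_natCast, norm_pow, norm_pow]
    exact mul_le_of_le_one_left (norm_nonneg _)
      (pow_le_one₀ (by positivity) (pow_le_one₀ (norm_nonneg _) pw_lt.le))

theorem phi_conj_tendsto {w : ν → ℤ} {X : Matrix ν ν k} (hX : Sup (fun i j => w j < w i) X)
    (i j : ν) : Tendsto (fun l : ℕ => ((dg w (pw k) ^ l).1 * X * ((dg w (pw k) ^ l)⁻¹).1) i j)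
      atTop (𝓝 0) := by
  simp only [phi_conj_entry]
  by_cases h : X i j = 0
  · simp [h]
  · obtain ⟨n, hn⟩ := Int.eq_ofNat_of_zero_le (sub_nonneg.2 (hX i j h).le)
    have h0 : n ≠ 0 := by
      have := hX i j h
      omega
    have h1 := ((tendsto_pow_atTop_nhds_zero_of_norm_lt_one (pw_lt (k := k))).pow n).mul_const (X i j)
    rw [zero_pow h0, zero_mul] at h1
    simpa only [hn, zpow_natCast] using h1

theorem phi_sub_one (a g : GL ν k) : (a * g * a⁻¹).1 - 1 = a.1 * (g.1 - 1) * (a⁻¹).1 := by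
  rw [mul_sub, sub_mul, mul_one, Units.mul_inv, Units.val_mul, Units.val_mul]

theorem phi_conj (hπ : IsPi G π) {w : ν → ℤ} (hw : w ∈ YY G) (t : kˣ) (g : GL ν k) :
    π ((dg w t * g * (dg w t)⁻¹).1 - 1) = (dg w t).1 * π (g.1 - 1) * ((dg w t)⁻¹).1 := by
  rw [phi_sub_one, hπ.dg_conj hw]

theorem phi_dg_inv (w : ν → ℤ) (t : kˣ) : dg w t⁻¹ = (dg w t)⁻¹ :=
  eq_inv_of_mul_eq_one_left (by rw [← dg_mul, inv_mul_cancel, dg_one])

/-- Equivariance of the chart under non-expanding elements of the torus. -/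
theorem Chart.equiv (hψ : Chart G π ψ) (hπ : IsPi G π) {w : ν → ℤ} (hw : w ∈ YY G) :
    ∀ᶠ X : lie G in 𝓝 0, Sup (fun i j => w j ≤ w i) X.1 → ∀ l : ℕ,
      dg w (pw k) ^ l * ψ X * (dg w (pw k) ^ l)⁻¹ =
        ψ ((dg w (pw k) ^ l).1 * X.1 * ((dg w (pw k) ^ l)⁻¹).1) := by
  have ha : dg w (pw k) ∈ G := hw _
  have h1 : Tendsto (fun X : lie G => dg w (pw k) * ψ X * (dg w (pw k))⁻¹) (𝓝 0)
      (𝓝[G] (1 : GL ν k)) := by
    refine tendsto_nhdsWithin_iff.2 ⟨?_, hψ.mem.mono fun X h =>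
      G.mul_mem (G.mul_mem ha h.1) (G.inv_mem ha)⟩
    have h2 := ((tendsto_nhdsWithin_iff.1 hψ.tendsto).1.const_mul (dg w (pw k))).mul_const
      (dg w (pw k))⁻¹
    simpa using h2
  obtain ⟨δ, hδ, h⟩ := phi_ball (hψ.mem.and (h1.eventually hψ.inv))
  filter_upwards [phi_small hδ] with X hX hs l
  induction l with
  | zero => simp
  | succ l ih =>
    obtain ⟨⟨-, h3⟩, h4⟩ := h ⟨_, lie_conj (G.pow_mem ha l) X.2⟩
      fun i j => (phi_conj_le hs l i j).trans_lt (hX i j)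
    simp only at h3 h4
    rw [phi_conj hπ hw, h3, ← ih] at h4
    rw [pow_succ', _root_.mul_inv_rev, Units.val_mul, Units.val_mul]
    simp only [mul_assoc] at h4 ⊢
    exact h4.symm

theorem Chart.mem_Pgl (hψ : Chart G π ψ) (hπ : IsPi G π) (hy : y ∈ aa G) :
    ∀ᶠ X : lie G in 𝓝 0, Sup (fun i j => y j ≤ y i) X.1 → ψ X ∈ Pgl y := by
  obtain ⟨w, hw, hp⟩ := phi_int hy
  have h1 : ∀ᶠ X : lie G in 𝓝 0, ∀ i j, ‖(ψ X).1 i j‖ < 2 := by
    refine eventually_all.2 fun i => eventually_all.2 fun j => ?_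
    have h := (gl_tendsto.1 (tendsto_nhdsWithin_iff.1 hψ.tendsto).1 i j).norm
    refine h.eventually (gt_mem_nhds ?_)
    rw [Units.val_one, Matrix.one_apply]
    split_ifs <;> simp
  obtain ⟨δ, hδ, h⟩ := phi_ball h1
  filter_upwards [phi_small hδ, hψ.equiv hπ hw] with X hX he hs
  have hs' : Sup (fun i j => w j ≤ w i) X.1 := fun i j hij => (phi_le hp j i).1 (hs i j hij)
  rw [hp.Pgl]
  refine mem_Pgl_of_bd ⟨2, ?_⟩
  rintro _ ⟨l, rfl⟩ i j
  simp only [he hs' l]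
  exact (h ⟨_, lie_conj (G.pow_mem (hw _) l) X.2⟩
    (fun i j => (phi_conj_le hs' l i j).trans_lt (hX i j)) i j).le

theorem phi_conj_lie {w : ν → ℤ} (hw : w ∈ YY G) {X : Matrix ν ν k} (hX : X ∈ lie G)
    (hs : Sup (fun i j => w j < w i) X) :
    Tendsto (fun l : ℕ => (⟨(dg w (pw k) ^ l).1 * X * ((dg w (pw k) ^ l)⁻¹).1,
      lie_conj (G.pow_mem (hw _) l) hX⟩ : lie G)) atTop (𝓝 0) :=
  phi_tendsto_lie.2 (phi_conj_tendsto hs)

theorem Chart.mem_Ugl (hψ : Chart G π ψ) (hπ : IsPi G π) (hy : y ∈ aa G) :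
    ∀ᶠ X : lie G in 𝓝 0, Sup (fun i j => y j < y i) X.1 → ψ X ∈ Ugl y := by
  obtain ⟨w, hw, hp⟩ := phi_int hy
  filter_upwards [hψ.equiv hπ hw] with X he hs
  have hs' : Sup (fun i j => w j < w i) X.1 := fun i j hij => (phi_lt hp j i).1 (hs i j hij)
  rw [hp.Ugl, mem_Ugl_iff_con]
  have h1 := (tendsto_nhdsWithin_iff.1 hψ.tendsto).1.comp (phi_conj_lie hw X.2 hs')
  exact h1.congr fun l => (he (fun i j hij => (hs' i j hij).le) l).symm

theorem Good.phi_inj (hG : Good G) (hπ : IsPi G π) (hy : y ∈ aa G) {u u' : GL ν k} (hu : u ∈ G)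
    (hu₁ : u ∈ Ugl y) (hu' : u' ∈ G) (hu₁' : u' ∈ Ugl y) (h : π (u.1 - 1) = π (u'.1 - 1)) :
    u = u' := by
  obtain ⟨ψ, hψ⟩ := hG.chart π hπ.mem hπ.id
  obtain ⟨w, hw, hp⟩ := phi_int hy
  have key : ∀ v ∈ G, v ∈ Ugl y → ∀ᶠ l : ℕ in atTop,
      ψ ((dg w (pw k ^ l)).1 * π (v.1 - 1) * ((dg w (pw k ^ l))⁻¹).1) =
        dg w (pw k ^ l) * v * (dg w (pw k ^ l))⁻¹ := by
    intro v hv hv₁
    rw [hp.Ugl, mem_Ugl_iff_con] at hv₁
    have h1 : Tendsto (fun l : ℕ => dg w (pw k) ^ l * v * (dg w (pw k) ^ l)⁻¹) atTop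
        (𝓝[G] (1 : GL ν k)) :=
      tendsto_nhdsWithin_iff.2 ⟨hv₁, Eventually.of_forall fun l =>
        G.mul_mem (G.mul_mem (G.pow_mem (hw _) l) hv) (G.inv_mem (G.pow_mem (hw _) l))⟩
    filter_upwards [h1.eventually hψ.inv] with l hl
    rwa [dg_pw_pow, phi_conj hπ hw] at hl
  obtain ⟨l, h1, h2⟩ := ((key u hu hu₁).and (key u' hu' hu₁')).exists
  rw [h, h2] at h1
  exact (mul_left_cancel (mul_right_cancel h1)).symm

theorem Good.phi_surj (hG : Good G) (hπ : IsPi G π) (hy : y ∈ aa G) {X : Matrix ν ν k}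
    (hX : X ∈ lie G) (hs : Sup (fun i j => y j < y i) X) :
    ∃ u ∈ G, u ∈ Ugl y ∧ π (u.1 - 1) = X := by
  obtain ⟨ψ, hψ⟩ := hG.chart π hπ.mem hπ.id
  obtain ⟨w, hw, hp⟩ := phi_int hy
  have hs' : Sup (fun i j => w j < w i) X := fun i j hij => (phi_lt hp j i).1 (hs i j hij)
  obtain ⟨l, ⟨h1, h2⟩, h3⟩ :=
    ((phi_conj_lie hw hX hs').eventually (hψ.mem.and (hψ.mem_Ugl hπ hy))).exists
  simp only at h1 h2 h3
  have h4 := h3 fun i j hij => hs i j fun h0 => hij (by rw [phi_conj_entry, h0, mul_zero])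
  rw [dg_pw_pow] at h1 h2 h4
  generalize ψ _ = v at h1 h2 h4
  refine ⟨dg w (pw k ^ l)⁻¹ * v * (dg w (pw k ^ l)⁻¹)⁻¹,
    G.mul_mem (G.mul_mem (hw _) h1) (G.inv_mem (hw _)), dg_conj_Grp h4 w _, ?_⟩
  rw [phi_conj hπ hw, h2, phi_dg_inv, inv_inv]
  simp only [mul_assoc, Units.inv_mul, mul_one]
  rw [← mul_assoc, Units.inv_mul, one_mul]

open scoped Matrix.Norms.Elementwise in
theorem phi_mul {E : Type} [NormedAddCommGroup E] [NormedSpace k E] {A B : E → Matrix ν ν k}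
    {A' B' : E →L[k] Matrix ν ν k} (hA : HasStrictFDerivAt A A' 0) (hB : HasStrictFDerivAt B B' 0)
    (h0 : A 0 = 1) (h1 : B 0 = 1) : HasStrictFDerivAt (fun x => A x * B x) (A' + B') 0 := by
  let M : Matrix ν ν k →L[k] Matrix ν ν k →L[k] Matrix ν ν k :=
    LinearMap.toContinuousLinearMap
      ((LinearMap.toContinuousLinearMap (𝕜 := k) (E := Matrix ν ν k) (F' := Matrix ν ν k)).toLinearMap
        ∘ₗ LinearMap.mul k (Matrix ν ν k))
  have h := M.hasStrictFDerivAt_of_bilinear hA hB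
  have e : M.precompR E (A 0) B' + M.precompL E A' (B 0) = A' + B' := by
    ext1 x
    change A 0 * B' x + A' x * B 0 = A' x + B' x
    rw [h0, h1, one_mul, mul_one, add_comm]
  rw [e] at h
  exact h

theorem phi_open {E : Type} [NormedAddCommGroup E] [NormedSpace k E] [FiniteDimensional k E]
    {F : E → E} {F' : E →L[k] E} (h : HasStrictFDerivAt F F' 0) (e : ∀ x, F' x = x)
    (h0 : F 0 = 0) : map F (𝓝 0) = 𝓝 0 := by
  have : CompleteSpace E := FiniteDimensional.complete k E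
  have e' : F' = (ContinuousLinearEquiv.refl k E : E →L[k] E) := ContinuousLinearMap.ext e
  have h1 := (h.congr_fderiv e').map_nhds_eq_of_equiv
  rwa [h0] at h1

open Classical in
/-- The part of negative degree. -/
noncomputable def phiN (hy : y ∈ aa G) : lie G →ₗ[k] lie G where
  toFun X := ⟨Matrix.of fun i j => if rt G i j ∈ {γ | γ ⬝ᵥ y < 0} then X.1 i j else 0,
    lie_comp X.2 _⟩
  map_add' X X' := by
    have _ := hy
    ext i j
    simp only [Submodule.coe_add, Matrix.add_apply, Matrix.of_apply]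
    split_ifs <;> simp
  map_smul' c X := by
    ext i j
    simp only [Submodule.coe_smul, Matrix.smul_apply, Matrix.of_apply, RingHom.id_apply]
    split_ifs <;> simp

theorem phiN_apply (hy : y ∈ aa G) (X : lie G) (i j : ν) :
    (phiN hy X).1 i j = if y i < y j then X.1 i j else 0 := by
  simp only [phiN, LinearMap.coe_mk, AddHom.coe_mk, Matrix.of_apply, Set.mem_ofPred_eq,
    rt_dot G i j hy, sub_neg]

open scoped Matrix.Norms.Elementwise in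
/-- The big cell contains a neighbourhood of the identity. -/
theorem Good.cell_nhds (hG : Good G) (hy : y ∈ aa G) :
    ∀ᶠ g in 𝓝[G] (1 : GL ν k), ∃ u ∈ G, u ∈ Ugl (-y) ∧ ∃ p ∈ Pgl y, g = u * p := by
  obtain ⟨π, hπ⟩ := exists_isPi G
  obtain ⟨ψ, hψ⟩ := hG.chart π hπ.mem hπ.id
  let N : lie G →L[k] lie G := LinearMap.toContinuousLinearMap (phiN hy)
  let P : lie G →L[k] lie G := ContinuousLinearMap.id k _ - N
  let π' : Matrix ν ν k →L[k] lie G := LinearMap.toContinuousLinearMap (π.codRestrict _ hπ.mem)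
  have hN : Tendsto N (𝓝 0) (𝓝 0) := by simpa using N.continuous.tendsto 0
  have hP : Tendsto P (𝓝 0) (𝓝 0) := by simpa using P.continuous.tendsto 0
  have hd : ∀ Q : lie G →L[k] lie G,
      HasStrictFDerivAt (fun X : lie G => (ψ (Q X)).1) ((lie G).subtypeL ∘L Q) 0 := by
    intro Q
    have h1 : HasStrictFDerivAt (fun X : lie G => (ψ X).1) (lie G).subtypeL (Q 0) := by
      rw [map_zero]
      exact hψ.der
    exact h1.comp 0 Q.hasStrictFDerivAt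
  have h2 := phi_mul (hd N) (hd P) (by simp [hψ.zero]) (by simp [hψ.zero])
  have h3 := π'.hasStrictFDerivAt.comp 0 (h2.sub_const 1)
  have h8 : map (fun X : lie G => π' ((ψ (N X)).1 * (ψ (P X)).1 - 1)) (𝓝 0) = 𝓝 0 := by
    refine phi_open (k := k) h3 (fun X => Subtype.ext ?_) (by simp [hψ.zero])
    have : π ((N X).1 + (X.1 - (N X).1)) = X.1 := by
      rw [add_sub_cancel]
      exact hπ.id _ X.2
    exact this
  have h5 : Tendsto (fun X : lie G => ψ (N X) * ψ (P X)) (𝓝 0) (𝓝[G] (1 : GL ν k)) := by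
    obtain ⟨a1, a2⟩ := tendsto_nhdsWithin_iff.1 (hψ.tendsto.comp hN)
    obtain ⟨b1, b2⟩ := tendsto_nhdsWithin_iff.1 (hψ.tendsto.comp hP)
    refine tendsto_nhdsWithin_iff.2 ⟨by simpa using a1.mul b1, ?_⟩
    filter_upwards [a2, b2] with X h h'
    exact G.mul_mem h h'
  have h6 : ∀ᶠ X : lie G in 𝓝 0, ψ (N X) ∈ G ∧ ψ (N X) ∈ Ugl (-y) ∧ ψ (P X) ∈ Pgl y ∧
      ψ (π ((ψ (N X) * ψ (P X)).1 - 1)) = ψ (N X) * ψ (P X) := by
    filter_upwards [hN.eventually hψ.mem, hN.eventually (hψ.mem_Ugl hπ ((aa G).neg_mem hy)),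
      hP.eventually (hψ.mem_Pgl hπ hy), h5.eventually hψ.inv] with X a b c d
    refine ⟨a.1, b fun i j hij => ?_, c fun i j hij => ?_, d⟩
    · have h7 : (N X).1 i j = if y i < y j then X.1 i j else 0 := phiN_apply hy X i j
      by_contra h8
      rw [h7, if_neg (by simpa using h8)] at hij
      exact hij rfl
    · have h7 : (P X).1 i j = X.1 i j - if y i < y j then X.1 i j else 0 := by
        rw [← phiN_apply hy X i j]
        rfl
      by_contra h8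
      rw [h7, if_pos (not_le.1 h8), sub_self] at hij
      exact hij rfl
  have h7 := image_mem_map (m := fun X : lie G => π' ((ψ (N X)).1 * (ψ (P X)).1 - 1)) h6
  rw [h8] at h7
  filter_upwards [(phi_tendsto_pi hπ).eventually h7, hψ.inv] with g hg hi
  obtain ⟨X, ⟨a, b, c, d⟩, hX⟩ := hg
  have h9 : π ((ψ (N X) * ψ (P X)).1 - 1) = π (g.1 - 1) := congrArg Subtype.val hX
  rw [h9, hi] at d
  exact ⟨_, a, b, _, c, d⟩

theorem phi_lo_reg (G : Subgroup (GL ν k)) (y : ν → ℝ) (p : MvPolynomial (ν × ν) k) :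
    ∃ (N : ℕ) (f : GL ν k → k), Reg G f ∧
      ∀ g : GL ν k, DD y g.1 ≠ 0 → f g = DD y g.1 ^ N * ev (lo y g.1) p := by
  induction p using MvPolynomial.induction_on with
  | C c => exact ⟨0, fun _ => c, Reg.const c, fun g _ => by simp [ev]⟩
  | add p q hp hq =>
    obtain ⟨N, f, hf, e⟩ := hp
    obtain ⟨N', f', hf', e'⟩ := hq
    refine ⟨N + N', _, (((Reg.DD y).pow N').mul hf).add (((Reg.DD y).pow N).mul hf'),
      fun g hg => ?_⟩
    simp only [e g hg, e' g hg, ev, map_add]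
    ring
  | mul_X p ij hp =>
    obtain ⟨N, f, hf, e⟩ := hp
    obtain ⟨q, hq⟩ := lo_poly (k := k) y ij.1 ij.2
    refine ⟨N + 1, _, hf.mul (f' := fun g => ev g.1 q) ⟨q, fun _ _ => rfl⟩, fun g hg => ?_⟩
    simp only [e g hg, ← hq _ hg]
    simp only [ev, map_mul, MvPolynomial.eval_X]
    ring

theorem Good.cell (hG : Good G) (hy : y ∈ aa G) {g : GL ν k} (hg : g ∈ G) (h : DD y g.1 ≠ 0) :
    ∃ u ∈ G ⊓ Ugl (-y), ∃ z ∈ G ⊓ Zgl y, ∃ u' ∈ G ⊓ Ugl y, u.1 = lo y g.1 ∧ g = u * z * u' := by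
  obtain ⟨u, hu, z, hz, u', hu', e1, e2⟩ := lu h
  have h1 : u ∈ G := by
    refine hG.closed fun p hp => ?_
    obtain ⟨N, f, hf, e⟩ := phi_lo_reg G y p
    have h2 : ∀ᶠ x in 𝓝[G] (1 : GL ν k), f x = 0 := by
      filter_upwards [hG.cell_nhds hy] with x hx
      obtain ⟨v, hv, hv', q, hq, rfl⟩ := hx
      obtain ⟨a, b⟩ := lo_eq hv' hq
      rw [e _ a, b, hp v hv, mul_zero]
    have h3 := hG.loc hf h2 g hg
    rw [e g h, ← e1] at h3
    exact (mul_eq_zero.1 h3).resolve_left (pow_ne_zero _ h)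
  have h2 : z * u' ∈ G := by
    have : z * u' = u⁻¹ * g := by rw [e2, mul_assoc, inv_mul_cancel_left]
    rw [this]
    exact G.mul_mem (G.inv_mem h1) hg
  obtain ⟨w, hw, hp⟩ := phi_int hy
  have h3 : z ∈ G := hG.isClosed.mem_of_tendsto
    (tendsto_levi ((hp.Zgl (k := k)) ▸ hz) ((hp.Ugl (k := k)) ▸ hu'))
    (Eventually.of_forall fun l =>
      G.mul_mem (G.mul_mem (G.pow_mem (hw _) l) h2) (G.inv_mem (G.pow_mem (hw _) l)))
  exact ⟨u, ⟨h1, hu⟩, z, ⟨h3, hz⟩, u', ⟨(G.mul_mem_cancel_left h3).1 h2, hu'⟩, e1, e2⟩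

theorem Good.le_of_cell (hG : Good G) (hy : y ∈ aa G) {J : Subgroup (GL ν k)}
    (h1 : G ⊓ Ugl (-y) ≤ J) (h2 : G ⊓ Zgl y ≤ J) (h3 : G ⊓ Ugl y ≤ J) : G ≤ J := by
  have key : ∀ x ∈ G, DD y x.1 ≠ 0 → x ∈ J := fun x hx h => by
    obtain ⟨u, hu, z, hz, u', hu', -, rfl⟩ := hG.cell hy hx h
    exact J.mul_mem (J.mul_mem (h1 hu) (h2 hz)) (h3 hu')
  intro g hg
  by_contra hn
  have h4 : ∀ x ∈ G, DD y x.1 * DD y (g * x * 1).1 = 0 := fun x hx => by
    by_contra h5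
    have a := key x hx (left_ne_zero_of_mul h5)
    have b := key _ (G.mul_mem (G.mul_mem hg hx) G.one_mem) (right_ne_zero_of_mul h5)
    rw [mul_one] at b
    exact hn ((J.mul_mem_cancel_right a).1 b)
  rcases hG.prime (Reg.DD y) ((Reg.DD y).transl hg G.one_mem) h4 with h5 | h5
  · have := h5 1 G.one_mem
    rw [Units.val_one, DD_one] at this
    exact one_ne_zero this
  · have := h5 g⁻¹ (G.inv_mem hg)
    simp only [mul_inv_cancel, mul_one, Units.val_one, DD_one] at this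
    exact one_ne_zero this

theorem Good.eq_zero_of_roots (hG : Good G) (hy : y ∈ aa G) (h : ∀ γ ∈ Rts G, γ ⬝ᵥ y = 0) :
    y = 0 := by
  obtain ⟨π, hπ⟩ := exists_isPi G
  obtain ⟨ψ, hψ⟩ := hG.chart π hπ.mem hπ.id
  obtain ⟨w, hw, hp⟩ := phi_int hy
  have h1 : ∀ X : lie G, ∀ i j, X.1 i j ≠ 0 → y i = y j := fun X i j hij => by
    have h2 := rt_dot G i j hy
    by_cases h0 : rt G i j = 0
    · rw [h0, zero_dotProduct] at h2
      linarith
    · rw [h _ ⟨h0, i, j, rfl, X.1, X.2, hij⟩] at h2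
      linarith
  have h2 : ∀ᶠ X : lie G in 𝓝 0, ψ X ∈ Zgl y := by
    filter_upwards [hψ.mem_Pgl hπ hy, hψ.mem_Pgl hπ ((aa G).neg_mem hy)] with X a b
    exact Pgl_inf_Pgl (a fun i j hij => (h1 X i j hij).ge)
      (b fun i j hij => by simp [h1 X i j hij])
  have h3 : ∀ᶠ g in 𝓝[G] (1 : GL ν k), g ∈ Zgl y := by
    filter_upwards [(phi_tendsto_pi hπ).eventually h2, hψ.inv] with g a b
    rwa [b] at a
  have h4 : ZD G (Zgl y : Subgroup (GL ν k)) := fun f hf h0 =>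
    hG.loc hf (h3.mono fun g hg => h0 g hg)
  have h5 : G ≤ Zgl y := h4.mem_Grp fun g hg => hg
  have h6 : w = 0 := hG.eq_zero_of_cen hw ((hp.Zgl (k := k)) ▸ h5)
  have h7 : ∀ i j, y i = y j := fun i j => (hp.eq_iff i j).2 (by simp [h6, cst])
  funext i
  have h8 := hG.sum_zero hy
  rw [Finset.sum_congr rfl fun j _ => h7 j i, Finset.sum_const, nsmul_eq_mul] at h8
  have h9 : ((Finset.univ : Finset ν).card : ℝ) ≠ 0 :=
    Nat.cast_ne_zero.2 (Finset.card_pos.2 ⟨i, Finset.mem_univ i⟩).ne'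
  exact (mul_eq_zero.1 h8).resolve_left h9

theorem Good.phi_Zgl (hG : Good G) (hπ : IsPi G π) (hy : y ∈ aa G) (hy' : y' ∈ aa G) {u : GL ν k}
    (hu : u ∈ G) (hu₁ : u ∈ Ugl y) (hs : Sup (fun i j => y' i = y' j) (π (u.1 - 1))) :
    u ∈ Zgl y' := by
  obtain ⟨w, hw, hp⟩ := phi_int hy'
  have h1 : dg w (pw k) * u * (dg w (pw k))⁻¹ = u := by
    refine hG.phi_inj hπ hy (G.mul_mem (G.mul_mem (hw _) hu) (G.inv_mem (hw _)))
      (dg_conj_Grp hu₁ w _) hu hu₁ ?_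
    rw [phi_conj hπ hw]
    ext i j
    rw [dg_conj_apply]
    by_cases h0 : π (u.1 - 1) i j = 0
    · rw [h0, mul_zero]
    · have h2 : w i = w j := by simpa [cst] using (hp.eq_iff i j).1 (hs i j h0)
      rw [h2, sub_self, zpow_zero, one_mul]
  rw [hp.Zgl, mem_Zgl_iff_comm]
  exact (mul_inv_eq_iff_eq_mul.1 h1).symm

theorem phi_root (hπ : IsPi G π) (hy : y ∈ aa G) {u : GL ν k} (hu₁ : u ∈ Ugl y)
    {Ψ : Set (ν → ℝ)} (hs : Sup (fun i j => rt G i j ∈ Ψ) (u.1 - 1)) {i j : ν}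
    (h : π (u.1 - 1) i j ≠ 0) : rt G i j ∈ Rts G ∧ rt G i j ∈ Ψ ∧ 0 < rt G i j ⬝ᵥ y := by
  have h1 : 0 < rt G i j ⬝ᵥ y := hπ.wt {γ | 0 < γ ⬝ᵥ y} _ (fun i j hij => by
    have : y j < y i := hu₁ i j hij
    change 0 < rt G i j ⬝ᵥ y
    rw [rt_dot G i j hy]
    linarith) i j h
  refine ⟨⟨fun h0 => ?_, i, j, rfl, _, hπ.mem _, h⟩, hπ.wt Ψ _ hs i j h, h1⟩
  rw [h0, zero_dotProduct] at h1
  exact lt_irrefl _ h1

theorem Good.mem_Zgl_of_roots (hG : Good G) (hy : y ∈ aa G) (hy' : y' ∈ aa G) {u : GL ν k}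
    (hu : u ∈ G) (hu₁ : u ∈ Ugl y) {Ψ : Set (ν → ℝ)} (hs : Sup (fun i j => rt G i j ∈ Ψ) (u.1 - 1))
    (h : ∀ γ ∈ Rts G, γ ∈ Ψ → 0 < γ ⬝ᵥ y → γ ⬝ᵥ y' = 0) : u ∈ Zgl y' := by
  obtain ⟨π, hπ⟩ := exists_isPi G
  refine hG.phi_Zgl hπ hy hy' hu hu₁ fun i j hij => ?_
  obtain ⟨a, b, c⟩ := phi_root hπ hy hu₁ hs hij
  have := h _ a b c
  rw [rt_dot G i j hy'] at this
  linarith

theorem Good.eq_one_of_roots (hG : Good G) (hy : y ∈ aa G) {u : GL ν k} (hu : u ∈ G)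
    (hu₁ : u ∈ Ugl y) {Ψ : Set (ν → ℝ)} (hs : Sup (fun i j => rt G i j ∈ Ψ) (u.1 - 1))
    (h : ∀ γ ∈ Rts G, γ ∈ Ψ → γ ⬝ᵥ y ≤ 0) : u = 1 := by
  obtain ⟨π, hπ⟩ := exists_isPi G
  refine hG.phi_inj hπ hy hu hu₁ G.one_mem (Ugl y).one_mem ?_
  rw [Units.val_one, sub_self, map_zero]
  ext i j
  by_contra hij
  obtain ⟨a, b, c⟩ := phi_root hπ hy hu₁ hs hij
  exact (h _ a b).not_gt c

theorem Good.exists_Rgl (hG : Good G) {γ : ν → ℝ} (hγ : γ ∈ Rts G) :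
    ∃ u ∈ G, u ∈ Rgl G γ ∧ u ≠ 1 := by
  obtain ⟨π, hπ⟩ := exists_isPi G
  obtain ⟨X, hX, h0, hs⟩ := exists_root_vec hγ
  have hy := Rts_mem hγ
  have hpos : 0 < γ ⬝ᵥ γ :=
    lt_of_le_of_ne (Finset.sum_nonneg fun i _ => mul_self_nonneg _)
      fun e => hγ.1 (dotProduct_self_eq_zero.1 e.symm)
  obtain ⟨u, hu, hu₁, e⟩ := hG.phi_surj hπ hy hX fun i j hij => by
    have := rt_dot G i j hy
    rw [hs i j hij] at this
    linarith
  refine ⟨u, hu, mem_Rgl_of hy hy hpos hu₁ fun z hz h1 =>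
    hG.phi_Zgl hπ hy hz hu hu₁ fun i j hij => ?_, fun h1 => h0 ?_⟩
  · have := rt_dot G i j hz
    rw [hs i j (e ▸ hij), h1] at this
    linarith
  · rw [← e, h1, Units.val_one, sub_self, map_zero]

theorem Good.U_le (hG : Good G) (hy : y ∈ aa G) (hy' : Regl G y')
    (h : ∀ γ ∈ Rts G, 0 < γ ⬝ᵥ y → 0 < γ ⬝ᵥ y') : G ⊓ Ugl y ≤ Ugl y' := by
  rintro u ⟨hu, hu₁⟩
  obtain ⟨v, hv, z, hz, v', hv', -, rfl⟩ :=
    hG.cell hy'.1 hu (by rw [DD_of_Ugl hu₁]; exact one_ne_zero)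
  obtain ⟨a, b, -⟩ := lu_Grp hv.2 hz.2 hv'.2 hu₁
  have h1 : v = 1 := hG.eq_one_of_roots ((aa G).neg_mem hy'.1) hv.1 hv.2 (Ψ := {γ | 0 < γ ⬝ᵥ y})
    (fun i j hij => by
      have : y j < y i := a i j hij
      change 0 < rt G i j ⬝ᵥ y
      rw [rt_dot G i j hy]
      linarith)
    fun γ h2 h3 => by
      rw [dotProduct_neg]
      exact neg_nonpos.2 (h γ h2 h3).le
  have h2 : z ∈ Zgl (-y) := by
    rw [Zgl_neg]
    exact Mgl_le_Zgl hy (hy'.Zgl ▸ hz.2)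
  rw [h1, Ugl_inf_Pgl b (Zgl_le_Pgl h2), one_mul, one_mul]
  exact hv'.2

theorem Good.not_cen_of_Ugl (hG : Good G) (hy : y ∈ aa G) {u : GL ν k} (hu₁ : u ∈ Ugl y)
    (h1 : u ≠ 1) : ¬ Cen G u := by
  have _ := hG
  intro hc
  obtain ⟨w, hw, hp⟩ := phi_int hy
  have h2 : u ∈ Zgl (-y) := by
    rw [Zgl_neg, hp.Zgl, mem_Zgl_iff_comm]
    exact (hc _ (hw _)).symm
  exact h1 (Ugl_inf_Pgl hu₁ (Zgl_le_Pgl h2))

end Pool.Agent.Lib.MP_60cbcc_al.H3A
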