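import Pool.Agent.Lib.MP_60cbcc_al.H3AVv
import Pool.Agent.Lib.MP_60cbcc_al.H3AGrow

/-!
Valuation cocharacters.
-/

namespace Pool.Agent.Lib.MP_60cbcc_al.H3A

open Matrix Filter Topology Asymptotics

set_option linter.unusedSectionVars false

variable {k : Type} [NontriviallyNormedField k] [ProperSpace k] {ν : Type} [Fintype ν]
  [DecidableEq ν] {G : Subgroup (GL ν k)}

/-- The translates of the sequence span a space of finite dimension. -/
def ValFin (a : ℤ → k) : Prop :=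
  ∃ F : Submodule k (ℤ → k), F.FG ∧ ∀ n, (fun l => a (l + n)) ∈ F

/-- Growth at plus infinity. -/
def ValUp (s : ℝ) (a : ℤ → k) : Prop :=
  ∀ c, -s < c → a =O[atTop] fun l : ℤ => Real.exp (c * l)

/-- Growth at minus infinity. -/
def ValDn (s : ℝ) (a : ℤ → k) : Prop :=
  ∀ c, c < -s → a =O[atBot] fun l : ℤ => Real.exp (c * l)

theorem ValFin.const (c : k) : ValFin fun _ => c :=
  ⟨Submodule.span k {fun _ => c}, Submodule.fg_span_singleton _,
    fun _ => Submodule.subset_span rfl⟩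

theorem ValFin.add {a a' : ℤ → k} (h : ValFin a) (h' : ValFin a') : ValFin (a + a') := by
  obtain ⟨F, h1, h2⟩ := h
  obtain ⟨F', h3, h4⟩ := h'
  exact ⟨F ⊔ F', h1.sup h3, fun n => Submodule.add_mem_sup (h2 n) (h4 n)⟩

theorem ValFin.mul {a a' : ℤ → k} (h : ValFin a) (h' : ValFin a') : ValFin (a * a') := by
  obtain ⟨F, h1, h2⟩ := h
  obtain ⟨F', h3, h4⟩ := h'
  exact ⟨F * F', h1.mul h3, fun n => Submodule.mul_mem_mul (h2 n) (h4 n)⟩

theorem valFin_entry (b : GL ν k) (i j : ν) : ValFin fun l : ℤ => (b ^ l).1 i j := by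
  refine ⟨Submodule.span k (Set.range fun m => fun l : ℤ => (b ^ l).1 i m),
    Submodule.fg_span (Set.finite_range _), fun n => ?_⟩
  have e : (fun l : ℤ => (b ^ (l + n)).1 i j) =
      ∑ m, (b ^ n).1 m j • fun l : ℤ => (b ^ l).1 i m := by
    funext l
    rw [_root_.zpow_add, Units.val_mul, Matrix.mul_apply, Finset.sum_apply]
    exact Finset.sum_congr rfl fun m _ => mul_comm _ _
  rw [e]
  exact Submodule.sum_mem _ fun m _ => Submodule.smul_mem _ _ (Submodule.subset_span ⟨m, rfl⟩)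

theorem val_exp_add (c c' : ℝ) :
    (fun l : ℤ => Real.exp (c * l) * Real.exp (c' * l)) = fun l : ℤ => Real.exp ((c + c') * l) := by
  funext l
  rw [← Real.exp_add, add_mul]

theorem ValUp.mul {s s' : ℝ} {a a' : ℤ → k} (h : ValUp s a) (h' : ValUp s' a') :
    ValUp (s + s') (a * a') := fun c hc => by
  have := (h ((c - s + s') / 2) (by linarith)).mul (h' ((c + s - s') / 2) (by linarith))
  rwa [val_exp_add, show (c - s + s') / 2 + (c + s - s') / 2 = c by ring] at this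

theorem ValDn.mul {s s' : ℝ} {a a' : ℤ → k} (h : ValDn s a) (h' : ValDn s' a') :
    ValDn (s + s') (a * a') := fun c hc => by
  have := (h ((c - s + s') / 2) (by linarith)).mul (h' ((c + s - s') / 2) (by linarith))
  rwa [val_exp_add, show (c - s + s') / 2 + (c + s - s') / 2 = c by ring] at this

theorem valUp_const (x : k) : ValUp 0 fun _ => x := fun c hc => by
  refine IsBigO.of_bound ‖x‖ ((eventually_ge_atTop 0).mono fun l hl => ?_)
  have h1 : (0 : ℝ) ≤ l := by exact_mod_cast hl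
  rw [Real.norm_eq_abs, abs_of_pos (Real.exp_pos _)]
  exact le_mul_of_one_le_right (norm_nonneg _) (Real.one_le_exp (mul_nonneg (by linarith) h1))

theorem valDn_const (x : k) : ValDn 0 fun _ => x := fun c hc => by
  refine IsBigO.of_bound ‖x‖ ((eventually_le_atBot 0).mono fun l hl => ?_)
  have h1 : (l : ℝ) ≤ 0 := by exact_mod_cast hl
  rw [Real.norm_eq_abs, abs_of_pos (Real.exp_pos _)]
  exact le_mul_of_one_le_right (norm_nonneg _)
    (Real.one_le_exp (mul_nonneg_of_nonpos_of_nonpos (by linarith) h1))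

theorem IsVal.up {b : GL ν k} {r : ν → ℝ} (h : IsVal b r) (i j : ν) :
    ValUp (r j) fun l : ℤ => (b ^ l).1 i j := fun c hc => by
  obtain ⟨C, hC⟩ := h (Real.exp (c + r j)) (Real.one_lt_exp_iff.2 (by linarith))
  refine IsBigO.of_bound C ((eventually_ge_atTop 0).mono fun l hl => (hC l i j).trans_eq ?_)
  obtain ⟨n, rfl⟩ := Int.eq_ofNat_of_zero_le hl
  rw [Real.norm_eq_abs, abs_of_pos (Real.exp_pos _), mul_assoc, ← Real.exp_nat_mul, ← Real.exp_add,
    Int.natAbs_natCast, Int.cast_natCast]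
  congr 2
  ring

theorem IsVal.dn {b : GL ν k} {r : ν → ℝ} (h : IsVal b r) (i j : ν) :
    ValDn (r j) fun l : ℤ => (b ^ l).1 i j := fun c hc => by
  obtain ⟨C, hC⟩ := h (Real.exp (-c - r j)) (Real.one_lt_exp_iff.2 (by linarith))
  refine IsBigO.of_bound C ((eventually_le_atBot 0).mono fun l hl => (hC l i j).trans_eq ?_)
  obtain ⟨n, rfl⟩ := Int.exists_eq_neg_ofNat hl
  rw [Real.norm_eq_abs, abs_of_pos (Real.exp_pos _), mul_assoc, ← Real.exp_nat_mul, ← Real.exp_add,
    Int.natAbs_neg, Int.natAbs_natCast, Int.cast_neg, Int.cast_natCast]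
  congr 2
  ring

theorem val_repr (F : Submodule k (ℤ → k)) [FiniteDimensional k F] :
    ∃ (J : Finset ℤ) (e : J → F), ∀ a : F, a = ∑ j : J, a.1 j • e j := by
  let f : ℕ →o (Submodule k F)ᵒᵈ :=
    ⟨fun n => OrderDual.toDual (⨅ j ∈ Finset.Icc (-(n : ℤ)) n,
      LinearMap.ker ((LinearMap.proj j).comp F.subtype)),
      fun n m h => OrderDual.toDual_le_toDual.2 (biInf_mono fun j hj => by
        rw [Finset.mem_Icc] at hj ⊢
        omega)⟩
  have hf : ∀ (n : ℕ) (a : F), a ∈ OrderDual.ofDual (f n) ↔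
      ∀ j ∈ Finset.Icc (-(n : ℤ)) n, a.1 j = 0 := fun n a => by
    simp [f, Submodule.mem_iInf]
  obtain ⟨n, hn⟩ := IsArtinian.monotone_stabilizes f
  let φ : F →ₗ[k] (Finset.Icc (-(n : ℤ)) n → k) :=
    LinearMap.pi fun j => (LinearMap.proj j.1).comp F.subtype
  have hφ : LinearMap.ker φ = ⊥ := LinearMap.ker_eq_bot'.2 fun a ha => by
    have h1 := (hf n a).2 fun j hj => congrFun ha ⟨j, hj⟩
    refine Subtype.ext (funext fun l => ?_)
    rw [hn (n + l.natAbs) (by omega)] at h1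
    exact (hf _ a).1 h1 l (by rw [Finset.mem_Icc]; omega)
  obtain ⟨ψ, hψ⟩ := φ.exists_leftInverse_of_injective hφ
  refine ⟨_, fun j => ψ (Pi.single j 1), fun a => ?_⟩
  have h2 : a = ψ (φ a) := (LinearMap.congr_fun hψ a).symm
  have h3 : φ a = ∑ j, a.1 j.1 • (Pi.single j 1 : Finset.Icc (-(n : ℤ)) n → k) := by
    conv_lhs => rw [pi_eq_sum_univ' (φ a)]
    rfl
  conv_lhs => rw [h2, h3, map_sum]
  simp only [map_smul]

theorem val_shift {L : Filter ℤ} {a : ℤ → k} {c : ℝ} (n : ℤ) {g : ℤ → ℤ}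
    (h : (a ∘ g) =O[L] ((fun l : ℤ => Real.exp (c * l)) ∘ g)) {c' : ℝ}
    (hg : ∀ l, c * (g l : ℝ) = c * n + c' * l) :
    (fun l => a (g l)) =O[L] fun l : ℤ => Real.exp (c' * l) := by
  refine h.trans (IsBigO.of_bound (Real.exp (c * n)) (Eventually.of_forall fun l => le_of_eq ?_))
  rw [Function.comp_apply, hg, Real.exp_add, norm_mul, Real.norm_eq_abs,
    abs_of_pos (Real.exp_pos _)]

theorem val_core {a : ℤ → k} (hf : ValFin a) {s s' : ℝ} (hu : ValUp s' a) (hd : ValDn s a)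
    (h : s < s') : a = 0 := by
  obtain ⟨F, h1, h2⟩ := hf
  obtain ⟨c, hc, hc2⟩ := exists_between (neg_lt_neg h)
  obtain ⟨c', hc', hc3⟩ := exists_between hc2
  let B : Submodule k (ℤ → k) :=
    { carrier := {x | x =O[atBot] fun l : ℤ => Real.exp (c' * l)}
      zero_mem' := isBigO_zero _ _
      add_mem' := fun hx hy => IsBigO.add hx hy
      smul_mem' := fun t _ hx => IsBigO.const_smul_left hx t }
  have : FiniteDimensional k F := Module.Finite.iff_fg.2 h1
  have : FiniteDimensional k (F ⊓ B : Submodule k (ℤ → k)) :=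
    Submodule.finiteDimensional_inf_left F B
  obtain ⟨J, e, he⟩ := val_repr (F ⊓ B)
  have h3 : ∀ n, (fun l => a (l + n)) ∈ F ⊓ B := fun n => ⟨h2 n,
    val_shift n ((hd c' hc3).comp_tendsto (tendsto_atBot_add_const_right _ n tendsto_id))
      fun l => by simp only [id]; push_cast; ring⟩
  funext l₀
  have h4 : ∀ n : ℤ, a l₀ = ∑ j : J, a (j + n) * (e j).1 (l₀ - n) := fun n => by
    have := congrFun (congrArg Subtype.val (he ⟨_, h3 n⟩)) (l₀ - n)
    simpa using this
  have h5 : (fun n : ℤ => ∑ j : J, a (j + n) * (e j).1 (l₀ - n)) =O[atTop]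
      fun l : ℤ => Real.exp ((c + -c') * l) := IsBigO.fun_sum fun j _ => by
    rw [← val_exp_add]
    refine IsBigO.mul (val_shift (g := fun n => j + n) j
      ((hu c hc).comp_tendsto (tendsto_atTop_add_const_left _ _ tendsto_id))
      fun l => by push_cast; ring) (val_shift (g := fun n => l₀ - n) l₀
      (IsBigO.comp_tendsto (e j).2.2 ?_) fun l => by push_cast; ring)
    simp only [sub_eq_add_neg]
    exact tendsto_atBot_add_const_left _ _ tendsto_neg_atTop_atBot
  have h6 : Tendsto (fun l : ℤ => Real.exp ((c + -c') * l)) atTop (𝓝 0) :=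
    Real.tendsto_exp_atBot.comp
      (Tendsto.const_mul_atTop_of_neg (by linarith) tendsto_intCast_atTop_atTop)
  have h7 := h5.trans_tendsto h6
  simp only [← h4] at h7
  exact tendsto_const_nhds_iff.1 h7

theorem val_sep (S : Finset ℝ) (a : ℝ → ℤ → k)
    (h : ∀ s ∈ S, ValFin (a s) ∧ ValUp s (a s) ∧ ValDn s (a s)) (h0 : ∑ s ∈ S, a s = 0) :
    ∀ s ∈ S, a s = 0 := by
  induction S using Finset.induction_on_min with
  | empty => simp
  | insert s₀ S hS ih =>
    have hn : s₀ ∉ S := fun e => lt_irrefl _ (hS s₀ e)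
    rw [Finset.sum_insert hn] at h0
    have h1 := h s₀ (Finset.mem_insert_self _ _)
    have h2 : ∀ s ∈ S, ValFin (a s) ∧ ValUp s (a s) ∧ ValDn s (a s) := fun s hs =>
      h s (Finset.mem_insert_of_mem hs)
    have h3 : a s₀ = 0 := by
      rcases S.eq_empty_or_nonempty with rfl | hne
      · simpa using h0
      refine val_core h1.1 (s' := S.min' hne) (fun c hc => ?_) h1.2.2 (hS _ (S.min'_mem hne))
      rw [eq_neg_of_add_eq_zero_left h0]
      have := IsBigO.sum (s := S) fun s hs =>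
        (h2 s hs).2.1 c (lt_of_le_of_lt (neg_le_neg (S.min'_le s hs)) hc)
      refine (IsBigO.neg_left this).congr_left fun l => ?_
      simp
    rw [h3, zero_add] at h0
    intro s hs
    rcases Finset.mem_insert.1 hs with rfl | hs
    exacts [h3, ih h2 h0 s hs]

/-- The three conditions together. -/
def ValAll (s : ℝ) (a : ℤ → k) : Prop := ValFin a ∧ ValUp s a ∧ ValDn s a

theorem valAll_const (x : k) : ValAll 0 fun _ => x := ⟨.const x, valUp_const x, valDn_const x⟩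

theorem ValAll.mul {s s' : ℝ} {a a' : ℤ → k} (h : ValAll s a) (h' : ValAll s' a') :
    ValAll (s + s') (a * a') := ⟨h.1.mul h'.1, h.2.1.mul h'.2.1, h.2.2.mul h'.2.2⟩

theorem ValAll.pow {s : ℝ} {a : ℤ → k} (h : ValAll s a) (n : ℕ) : ValAll (n * s) (a ^ n) := by
  induction n with
  | zero => rw [Nat.cast_zero, zero_mul, pow_zero]; exact valAll_const (1 : k)
  | succ n ih => rw [Nat.cast_succ, add_mul, one_mul, pow_succ]; exact ih.mul h

theorem ValAll.prod {ι : Type} (T : Finset ι) {s : ι → ℝ} {a : ι → ℤ → k}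
    (h : ∀ i, ValAll (s i) (a i)) : ValAll (∑ i ∈ T, s i) (∏ i ∈ T, a i) := by
  classical
  induction T using Finset.induction_on with
  | empty => exact valAll_const 1
  | insert i T hi ih => rw [Finset.sum_insert hi, Finset.prod_insert hi]; exact (h i).mul ih

theorem ValAll.sum {ι : Type} (T : Finset ι) {s : ℝ} {a : ι → ℤ → k}
    (h : ∀ i ∈ T, ValAll s (a i)) : ValAll s (∑ i ∈ T, a i) := by
  refine Finset.sum_induction a (ValAll s) (fun x y hx hy => ⟨hx.1.add hy.1,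
    fun c hc => (hx.2.1 c hc).add (hy.2.1 c hc), fun c hc => (hx.2.2 c hc).add (hy.2.2 c hc)⟩)
    ⟨.const 0, fun _ _ => isBigO_zero _ _, fun _ _ => isBigO_zero _ _⟩ h

theorem Good.vc (hG : Good G) {b : GL ν k} (hb : b ∈ G) {r : ν → ℝ} (hv : IsVal b r)
    (e : ℝ →ₗ[ℚ] ℚ) {w : ν → ℤ} (hw : ∀ i, (w i : ℚ) = e (r i)) : w ∈ YY G := by
  classical
  refine fun t => hG.closed fun p hp => ?_
  let wt : (ν × ν →₀ ℕ) → ℝ := fun d => ∑ ij, d ij * r ij.2
  let m : (ν × ν →₀ ℕ) → ℤ → k := fun d =>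
    (fun _ => p.coeff d) * ∏ ij, (fun l : ℤ => (b ^ l).1 ij.1 ij.2) ^ d ij
  have hm : ∀ d, ValAll (wt d) (m d) := fun d => by
    have := (valAll_const (p.coeff d)).mul (ValAll.prod Finset.univ fun ij : ν × ν =>
      ValAll.pow ⟨valFin_entry b ij.1 ij.2, hv.up ij.1 ij.2, hv.dn ij.1 ij.2⟩ (d ij))
    rwa [zero_add] at this
  have hmap : ∀ d ∈ p.support, wt d ∈ p.support.image wt := fun d hd =>
    Finset.mem_image_of_mem wt hd
  have h0 := val_sep (p.support.image wt) (fun s => ∑ d ∈ p.support with wt d = s, m d)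
    (fun s _ => ValAll.sum _ fun d hd => (Finset.mem_filter.1 hd).2 ▸ hm d) (by
      rw [Finset.sum_fiberwise_of_maps_to hmap]
      funext l
      have := hp _ (G.zpow_mem hb l)
      rw [ev, MvPolynomial.eval_eq'] at this
      simpa [m] using this)
  have h1 : ∀ d : ν × ν →₀ ℕ, p.coeff d * ∏ ij, (dg w t).1 ij.1 ij.2 ^ d ij =
      (t : k) ^ (e (wt d)).num * m d 0 := fun d => by
    have e1 : e (wt d) = ((∑ ij, (d ij : ℤ) * w ij.2 : ℤ) : ℚ) := by
      simp only [wt, map_sum]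
      push_cast
      refine Finset.sum_congr rfl fun ij _ => ?_
      rw [hw, ← nsmul_eq_mul, map_nsmul, nsmul_eq_mul]
    have e2 : ∀ ij : ν × ν, (dg w t).1 ij.1 ij.2 ^ d ij =
        (t : k) ^ ((d ij : ℤ) * w ij.2) * (1 : Matrix ν ν k) ij.1 ij.2 ^ d ij := fun ij => by
      rw [mul_comm (d ij : ℤ), _root_.zpow_mul, zpow_natCast, ← mul_pow, dg_val]
      congr 1
      by_cases h : ij.1 = ij.2
      · rw [h, diagonal_apply_eq, one_apply_eq, mul_one]
      · rw [diagonal_apply_ne _ h, one_apply_ne h, mul_zero]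
    have e3 : ∀ T : Finset (ν × ν), (t : k) ^ (∑ ij ∈ T, (d ij : ℤ) * w ij.2) =
        ∏ ij ∈ T, (t : k) ^ ((d ij : ℤ) * w ij.2) := fun T => by
      induction T using Finset.induction_on with
      | empty => simp
      | insert i T hi ih => rw [Finset.sum_insert hi, Finset.prod_insert hi, zpow_add₀ t.ne_zero, ih]
    rw [e1, Rat.num_intCast, e3]
    simp only [e2, Finset.prod_mul_distrib, m, Pi.mul_apply, Finset.prod_apply, Pi.pow_apply,
      zpow_zero, Units.val_one]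
    ring
  rw [ev, MvPolynomial.eval_eq', Finset.sum_congr rfl fun d _ => h1 d,
    ← Finset.sum_fiberwise_of_maps_to hmap]
  refine Finset.sum_eq_zero fun s hs => ?_
  have h2 := congrFun (h0 s hs) 0
  rw [Finset.sum_apply] at h2
  rw [Finset.sum_congr rfl fun d hd => by rw [(Finset.mem_filter.1 hd).2], ← Finset.mul_sum, h2,
    Pi.zero_apply, mul_zero]

theorem val_clear (r : ν → ℝ) (e : ℝ →ₗ[ℚ] ℚ) :
    ∃ (N : ℕ) (w : ν → ℤ), 0 < N ∧ ∀ i, (w i : ℚ) = ((N : ℚ) • e) (r i) := by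
  have h : ∀ i, ∃ z : ℤ, (z : ℚ) = (∏ j, (e (r j)).den : ℕ) * e (r i) := fun i => by
    obtain ⟨m, hm⟩ := Finset.dvd_prod_of_mem (fun j => (e (r j)).den) (Finset.mem_univ i)
    refine ⟨m * (e (r i)).num, ?_⟩
    rw [hm, Nat.cast_mul, mul_right_comm, Rat.den_mul_eq_num]
    push_cast
    ring
  choose w hw using h
  exact ⟨_, w, Finset.prod_pos fun j _ => (e (r j)).den_pos, hw⟩

theorem IsVal.inv {b : GL ν k} {r : ν → ℝ} (h : IsVal b r) : IsVal b⁻¹ (-r) := fun ρ hρ => by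
  obtain ⟨C, hC⟩ := h ρ hρ
  refine ⟨C, fun l i j => ?_⟩
  have := hC (-l) i j
  rw [_root_.zpow_neg, ← _root_.inv_zpow, Int.natAbs_neg, Int.cast_neg, neg_mul] at this
  rwa [Pi.neg_apply, mul_neg]

theorem IsVal.con {b : GL ν k} {r : ν → ℝ} (h : IsVal b r) (hz : b ∈ Zgl r) {u : GL ν k}
    (hu : u ∈ Ugl r) : u ∈ H3Z.con b := by
  refine gl_tendsto.2 fun i j => ?_
  have e : ∀ n : ℕ, (b ^ n * u * (b ^ n)⁻¹).1 i j = (1 : GL ν k).1 i j + ∑ j', ∑ i',
      (u.1 - 1) i' j' * ((b ^ (n : ℤ)).1 i i' * (b⁻¹ ^ (n : ℤ)).1 j' j) := fun n => by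
    have e1 : (b ^ n * u * (b ^ n)⁻¹).1 = 1 + (b ^ n).1 * (u.1 - 1) * (b⁻¹ ^ n).1 := by
      rw [mul_sub, sub_mul, mul_one, inv_pow, Units.mul_inv, add_sub_cancel]
      rfl
    rw [e1, Matrix.add_apply, Matrix.mul_apply, zpow_natCast, zpow_natCast]
    congr 1
    refine Finset.sum_congr rfl fun j' _ => ?_
    rw [Matrix.mul_apply, Finset.sum_mul]
    exact Finset.sum_congr rfl fun i' _ => by ring
  simp only [e]
  conv_rhs => rw [← add_zero ((1 : GL ν k).1 i j)]
  refine tendsto_const_nhds.add ?_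
  have key : ∀ j' i', Tendsto (fun n : ℕ =>
      (u.1 - 1) i' j' * ((b ^ (n : ℤ)).1 i i' * (b⁻¹ ^ (n : ℤ)).1 j' j)) atTop (𝓝 0) := by
    intro j' i'
    by_cases h1 : (u.1 - 1) i' j' = 0
    · simp [h1]
    by_cases h2 : r j' = r j
    · have h3 := mem_Ugl.1 hu i' j' h1
      have h4 := (h.up i i').mul (h.inv.up j' j) ((r j - r i') / 2) (by
        rw [Pi.neg_apply]; linarith)
      have h5 : Tendsto (fun l : ℤ => Real.exp ((r j - r i') / 2 * l)) atTop (𝓝 0) :=
        Real.tendsto_exp_atBot.comp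
          (Tendsto.const_mul_atTop_of_neg (by linarith) tendsto_intCast_atTop_atTop)
      have h6 := ((h4.trans_tendsto h5).comp tendsto_natCast_atTop_atTop).const_mul
        ((u.1 - 1) i' j')
      rwa [mul_zero] at h6
    · have h3 : ∀ n : ℕ, (b⁻¹ ^ (n : ℤ)).1 j' j = 0 := fun n => by
        by_contra h4
        exact h2 (mem_Zgl.1 ((Zgl r).zpow_mem ((Zgl r).inv_mem hz) n) j' j h4)
      simp only [h3, mul_zero, tendsto_const_nhds]
  have := tendsto_finsetSum Finset.univ fun j' _ =>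
    tendsto_finsetSum Finset.univ fun i' _ => key j' i'
  simpa using this

theorem Good.val_dich (hG : Good G) {b : GL ν k} (hb : b ∈ G) : IsVal b 0 ∨
    ∃ μ, Coch G μ ∧ μ (pw k) ≠ 1 ∧ H3Z.con (μ (pw k)) ⊆ H3Z.con b ∧
      H3Z.con (μ (pw k))⁻¹ ⊆ H3Z.con b⁻¹ := by
  classical
  obtain ⟨h, r, -, hz, hv⟩ := grow_decomp b (fun _ => ()) fun _ _ _ => rfl
  have eb : h * (h⁻¹ * b * h) * h⁻¹ = b := by group
  have hb' : h⁻¹ * b * h ∈ H3A.cj h G := by rwa [mem_cj, eb]
  obtain ⟨e, he⟩ := exists_ell (Finset.univ.image r ∪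
    Finset.univ.image fun ij : ν × ν => r ij.1 - r ij.2)
  obtain ⟨N, w, hN, hw⟩ := val_clear r e
  have hY := (hG.cj h).vc hb' hv _ hw
  have hN' : (0 : ℚ) < N := by exact_mod_cast hN
  have s1 : ∀ i, w i = 0 → r i = 0 := fun i hi => by
    have h1 := he (r i) (by simp)
    have h2 := hw i
    rw [hi, LinearMap.smul_apply, smul_eq_mul, Int.cast_zero, eq_comm, mul_eq_zero] at h2
    rw [h2.resolve_left hN'.ne', sign_zero, eq_comm, sign_eq_zero_iff] at h1
    exact h1
  by_cases h0 : w = 0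
  · obtain rfl : r = 0 := funext fun i => s1 i (congrFun h0 i)
    exact Or.inl (eb ▸ hv.conj (mem_Zgl.2 fun _ _ _ => rfl))
  have hP : Pat r (cst w) := fun i j => by
    have h1 := he (r i - r j) (Finset.mem_union_right _
      (Finset.mem_image_of_mem _ (Finset.mem_univ (i, j))))
    have h2 : ((w i - w j : ℤ) : ℚ) = N * e (r i - r j) := by
      rw [Int.cast_sub, hw, hw, map_sub, mul_sub]
      rfl
    rw [← sub_neg, ← sign_eq_neg_one_iff, ← h1, sign_eq_neg_one_iff, cst, cst, Int.cast_lt,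
      ← sub_neg (a := w i), ← Int.cast_lt (R := ℚ), h2, Int.cast_zero]
    exact ⟨fun h3 => mul_neg_of_pos_of_neg hN' h3, fun h3 => neg_of_mul_neg_right h3 hN'.le⟩
  refine Or.inr ⟨fun t => h * dg w t * h⁻¹, ⟨⟨h, w, fun _ => rfl⟩, fun t => hY t⟩,
    fun h1 => h0 (funext fun i => ?_), fun u hu => ?_, fun u hu => ?_⟩
  · have h2 : dg w (pw k) = 1 := by
      rwa [mul_inv_eq_one, mul_eq_left] at h1
    have h3 := congrArg (fun g : GL ν k => ‖g.1 i i‖) h2
    simp only [dg_val, diagonal_apply_eq, Units.val_one, one_apply_eq, norm_one, norm_zpow] at h3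
    exact (zpow_eq_one_iff_right₀ pw_pos.le pw_lt.ne).1 h3
  · rw [← eb]
    have h1 := mem_Ugl_iff_con.2 (con_conj.1 hu)
    rw [← hP.Ugl] at h1
    exact con_conj.2 (hv.con hz h1)
  · have e1 : (h * dg w (pw k) * h⁻¹)⁻¹ = h * (dg w (pw k))⁻¹ * h⁻¹ := by group
    have e2 : b⁻¹ = h * (h⁻¹ * b * h)⁻¹ * h⁻¹ := by group
    rw [e1] at hu
    rw [e2]
    have h1 := mem_Ugl_neg_iff_con.2 (con_conj.1 hu)
    rw [← hP.neg.Ugl] at h1
    exact con_conj.2 (hv.inv.con (by rw [Zgl_neg]; exact (Zgl r).inv_mem hz) h1)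

theorem Good.val (hG : Good G) (hM : IsMax G) {m : GL ν k} (hm : m ∈ G) (hm' : m ∈ Mgl G) :
    vv G m ∈ aa G ∧ IsVal m (vv G m) := by
  classical
  have hc : ∀ i j, rt G i = rt G j ↔ rt G i j = 0 := fun i j =>
    ⟨fun h => by rw [h, rt_self], fun h => funext fun l => by rw [← rt_add G i j l, h, zero_add]⟩
  obtain ⟨h, r, hh, -, hv⟩ := grow_decomp m (rt G) fun i j h => (hc i j).2 (mem_Mgl.1 hm' i j h)
  have hh' : h ∈ Mgl G := mem_Mgl.2 fun i j h => (hc i j).1 (hh i j h)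
  have eb : h * (h⁻¹ * m * h) * h⁻¹ = m := by group
  have hb' : h⁻¹ * m * h ∈ H3A.cj h G := by rwa [mem_cj, eb]
  have h1 : ∀ e : ℝ →ₗ[ℚ] ℚ, (fun i => (e (r i) : ℝ)) ∈ aa G := fun e => by
    obtain ⟨N, w, hN, hw⟩ := val_clear r e
    have h2 := cst_mem (hM h hh' w ((hG.cj h).vc hb' hv _ hw))
    have hN' : (N : ℝ) ≠ 0 := by exact_mod_cast hN.ne'
    have h3 : (fun i => (e (r i) : ℝ)) = (N : ℝ)⁻¹ • cst w := funext fun i => by
      have := congrArg (Rat.cast : ℚ → ℝ) (hw i)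
      rw [LinearMap.smul_apply, smul_eq_mul, Rat.cast_mul, Rat.cast_natCast,
        Rat.cast_intCast] at this
      rw [Pi.smul_apply, cst, this, smul_eq_mul, inv_mul_cancel_left₀ hN']
    exact h3 ▸ (aa G).smul_mem _ h2
  have hr : r ∈ aa G := by
    let B := Module.Basis.ofVectorSpace ℚ ℝ
    have h2 : r = ∑ x ∈ Finset.univ.biUnion fun i => (B.repr (r i)).support,
        B x • fun i => (B.coord x (r i) : ℝ) := funext fun i => by
      conv_lhs => rw [← B.linearCombination_repr (r i), Finsupp.linearCombination_apply,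
        Finsupp.sum_of_support_subset _ (Finset.subset_biUnion_of_mem
          (fun i => (B.repr (r i)).support) (Finset.mem_univ i)) (fun x a => a • B x)
          fun _ _ => zero_smul _ _]
      rw [Finset.sum_apply]
      exact Finset.sum_congr rfl fun x _ => by
        rw [Pi.smul_apply, smul_eq_mul, Rat.smul_def, mul_comm]; rfl
    rw [h2]
    exact Submodule.sum_mem _ fun x _ => (aa G).smul_mem _ (h1 _)
  have h2 : IsVal m r := eb ▸ hv.conj (Mgl_le_Zgl hr hh')
  rw [vv_eq_of_isVal hm' (fun i j h => (rt_eq_zero G i j).1 h r hr) h2]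
  exact ⟨hr, h2⟩

end Pool.Agent.Lib.MP_60cbcc_al.H3A
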