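import Pool.Agent.Lib.MP_60cbcc_al.H3APhi
import Pool.Agent.Lib.MP_60cbcc_al.H3AVal
import Pool.Agent.Lib.MP_60cbcc_al.H3ABurn

/-!
The stabiliser of the line acts with a single weight on irreducible subquotients.
-/

namespace Pool.Agent.Lib.MP_60cbcc_al.H3A

open Matrix Filter Topology

set_option linter.unusedSectionVars false

variable {k : Type} [NontriviallyNormedField k] [ProperSpace k] {ν : Type} [Fintype ν]
  [DecidableEq ν] {G : Subgroup (GL ν k)}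

variable {w : ν → ℤ}

theorem QQ_DD {y : ν → ℝ} {q : GL ν k} (hq : q ∈ QQ G y) :
    DD y q.1 ≠ 0 ∧ ∀ x ∈ G, DD y (x * q).1 = DD y q.1 * DD y x.1 := by
  obtain ⟨-, c, hc, e⟩ := hq
  have h1 := e 1 G.one_mem
  rw [one_mul, Units.val_one, DD_one, mul_one] at h1
  rw [h1]
  exact ⟨hc, e⟩

theorem P_le_QQ {y : ν → ℝ} : G ⊓ Pgl y ≤ QQ G y := by
  rintro p ⟨hp, hp'⟩
  obtain ⟨z, hz, u, hu, rfl⟩ := P_dec hp'
  refine ⟨hp, DD y z.1, DD_z_ne hz, fun x _ => ?_⟩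
  rw [← mul_assoc, Units.val_mul, DD_right hu, Units.val_mul, DD_zr hz, mul_comm]

theorem Good.QQ_dec (hG : Good G) {y : ν → ℝ} (hy : y ∈ aa G) {q : GL ν k} (hq : q ∈ QQ G y) :
    ∃ u ∈ QQ G y ⊓ Ugl (-y), ∃ z ∈ G ⊓ Zgl y, ∃ u' ∈ G ⊓ Ugl y, q = u * z * u' := by
  obtain ⟨u, hu, z, hz, u', hu', -, e⟩ := hG.cell hy hq.1 (QQ_DD hq).1
  refine ⟨u, ⟨?_, hu.2⟩, z, hz, u', hu', e⟩
  have h1 : z * u' ∈ QQ G y :=
    P_le_QQ ((G ⊓ Pgl y).mul_mem ⟨hz.1, Zgl_le_Pgl hz.2⟩ ⟨hu'.1, Ugl_le_Pgl hu'.2⟩)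
  have h2 : u = q * (z * u')⁻¹ := by rw [e]; group
  rw [h2]
  exact (QQ G y).mul_mem hq ((QQ G y).inv_mem h1)

theorem Q_infinite : Infinite k :=
  Infinite.of_injective (fun l : ℕ => (pw k : k) ^ l) fun a b h => by
    have h1 : ‖(pw k : k)‖ ^ a = ‖(pw k : k)‖ ^ b := by
      rw [← norm_pow, ← norm_pow]; exact congrArg norm h
    exact (pow_right_strictAnti₀ pw_pos pw_lt).injective h1

open Polynomial in
/-- Polynomials whose product is a monomial of the largest possible degree are monomials. -/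
theorem Q_monomial {P : ν → k[X]} {M : ν → ℕ} (hM : ∀ l, (P l).natDegree ≤ M l) {c : k}
    (hc : c ≠ 0) (h : ∏ l, P l = C c * X ^ ∑ l, M l) (l : ν) : ∃ d, P l = C d * X ^ M l := by
  have hne : ∀ l, P l ≠ 0 := fun l e => by
    have h0 : ∏ l, P l = 0 := Finset.prod_eq_zero (Finset.mem_univ l) e
    rw [h] at h0
    exact mul_ne_zero (C_ne_zero.2 hc) (pow_ne_zero _ X_ne_zero) h0
  have hdeg : ∑ l, (P l).natDegree = ∑ l, M l := by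
    rw [← natDegree_prod _ _ fun l _ => hne l, h, natDegree_C_mul_X_pow _ _ hc]
  have heq : (P l).natDegree = M l :=
    (Finset.sum_eq_sum_iff_of_le fun l _ => hM l).1 hdeg l (Finset.mem_univ l)
  have hd : P l ∣ X ^ ∑ l, M l := by
    have h1 : P l ∣ C c * X ^ ∑ l, M l := h ▸ Finset.dvd_prod_of_mem _ (Finset.mem_univ l)
    exact (IsUnit.dvd_mul_left (isUnit_C.2 hc.isUnit)).1 h1
  obtain ⟨i, -, u, hu⟩ := ((dvd_prime_pow prime_X _).1 hd).imp fun i h => And.intro h.1 h.2.symm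
  obtain ⟨d, hd0, hdu⟩ := Polynomial.isUnit_iff.1 u.isUnit
  have e : P l = C d * X ^ i := by rw [← hu, ← hdu, mul_comm]
  refine ⟨d, ?_⟩
  rw [← heq, e, natDegree_C_mul_X_pow _ _ hd0.ne_zero]

theorem Q_filter (l : ν) : (Finset.univ.filter fun i => cst w l ≤ cst w i) =
    Finset.univ.filter fun i => w l ≤ w i :=
  Finset.filter_congr fun _ _ => Int.cast_le

theorem Q_dg_mem (hw : w ∈ YY G) (y : ν → ℝ) (t : kˣ) : dg w t ∈ QQ G y :=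
  P_le_QQ ⟨hw t, Zgl_le_Pgl (dg_mem_Zgl y w t)⟩

theorem QQ_Dl (hw : w ∈ YY G) {q q' : GL ν k} (hq : q ∈ QQ G (cst w)) (hq' : q' ∈ QQ G (cst w))
    (l : ν) (t : kˣ) : Dl (cst w) (cst w l) (q * dg w t * q').1 =
      Dl (cst w) (cst w l) (q * q').1 * Dl (cst w) (cst w l) (dg w t).1 := by
  have : Infinite k := Q_infinite
  choose N P hdeg hP using fun l => Dl_laurent (k := k) w l q.1 q'.1
  set top : ν → ℤ := fun l => ∑ i ∈ Finset.univ.filter (fun i => w l ≤ w i), w i with htop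
  have hnn : ∀ l, 0 ≤ (N l : ℤ) + top l := fun l => le_trans (Int.natCast_nonneg _) (hdeg l)
  obtain ⟨M, hM⟩ : ∃ M : ν → ℕ, ∀ l, (M l : ℤ) = N l + top l :=
    ⟨fun l => ((N l : ℤ) + top l).toNat, fun l => Int.toNat_of_nonneg (hnn l)⟩
  have hdg : ∀ l (t : kˣ), Dl (cst w) (cst w l) (dg w t).1 = (t : k) ^ top l := fun l t => by
    rw [Dl_dg, Q_filter]
  have hpow : ∀ l (t : kˣ), (t : k) ^ M l = (t : k) ^ N l * (t : k) ^ top l := fun l t => by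
    rw [← zpow_natCast, hM, zpow_add₀ t.ne_zero, zpow_natCast]
  have hc : DD (cst w) q'.1 * DD (cst w) q.1 ≠ 0 := mul_ne_zero (QQ_DD hq').1 (QQ_DD hq).1
  have hprod : ∏ l, P l =
      Polynomial.C (DD (cst w) q'.1 * DD (cst w) q.1) * Polynomial.X ^ ∑ l, M l := by
    apply Polynomial.eq_of_infinite_eval_eq
    refine Set.Infinite.mono (s := {0}ᶜ) (fun x hx => ?_) (Set.finite_singleton 0).infinite_compl
    obtain ⟨t, rfl⟩ : ∃ t : kˣ, (t : k) = x := ⟨Units.mk0 x hx, rfl⟩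
    have h1 := (QQ_DD hq').2 (q * dg w t) (G.mul_mem hq.1 (hw t))
    rw [Units.val_mul q, DD_zr (dg_mem_Zgl _ w t)] at h1
    simp only [Set.mem_ofPred_eq, Polynomial.eval_prod, Polynomial.eval_mul, Polynomial.eval_C,
      Polynomial.eval_pow, Polynomial.eval_X, ← hP]
    rw [Finset.prod_mul_distrib, ← Finset.prod_pow_eq_pow_sum]
    simp only [hpow]
    rw [Finset.prod_mul_distrib]
    have h2 : DD (cst w) (dg w t).1 = ∏ l, (t : k) ^ top l := by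
      rw [DD]; exact Finset.prod_congr rfl fun l _ => hdg l t
    have h3 : ∏ l, Dl (cst w) (cst w l) (q.1 * (dg w t).1 * q'.1) =
        DD (cst w) (q * dg w t * q').1 := rfl
    rw [h3, h1, h2]
    ring
  obtain ⟨d, hd⟩ := Q_monomial (fun l => by have := hdeg l; have := hM l; simp only [htop] at *; omega)
    hc hprod l
  have key : ∀ t : kˣ, Dl (cst w) (cst w l) (q * dg w t * q').1 = d * (t : k) ^ top l := fun t => by
    have h1 := hP l t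
    rw [hd, Polynomial.eval_mul, Polynomial.eval_C, Polynomial.eval_pow, Polynomial.eval_X,
      hpow] at h1
    apply mul_left_cancel₀ (pow_ne_zero (N l) t.ne_zero)
    rw [Units.val_mul, Units.val_mul, h1]
    ring
  have h1 := key 1
  rw [dg_one, mul_one, Units.val_one, _root_.one_zpow, mul_one] at h1
  rw [key, h1, hdg]

/-- The projection on a level. -/
noncomputable def qE (w : ν → ℤ) (c : ℤ) : Matrix ν ν k :=
  prj fun i => w i = c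

theorem qE_eq (c : ℤ) : (qE w c : Matrix ν ν k) = diagonal fun i => if w i = c then 1 else 0 := by
  rw [qE, prj]
  congr 1; funext i
  by_cases h : w i = c <;> simp [h]

theorem qE_mulVec (c : ℤ) (v : ν → k) (i : ν) :
    (qE w c *ᵥ v) i = if w i = c then v i else 0 := by
  rw [qE_eq, mulVec_diagonal]; simp

theorem qE_idem (c : ℤ) (v : ν → k) : qE w c *ᵥ (qE w c *ᵥ v) = qE w c *ᵥ v := by
  funext i
  by_cases h : w i = c <;> simp [qE_mulVec, h]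

theorem qE_sum (v : ν → k) : ∑ c ∈ Finset.univ.image w, qE w c *ᵥ v = v := by
  funext i
  rw [Finset.sum_apply]
  simp [qE_mulVec]

theorem qE_dg (t : kˣ) (v : ν → k) :
    (dg w t).1 *ᵥ v = ∑ c ∈ Finset.univ.image w, (t : k) ^ c • (qE w c *ᵥ v) := by
  funext i
  rw [Finset.sum_apply, dg_val, mulVec_diagonal]
  simp [qE_mulVec]

theorem qE_dg' (t : kˣ) (c : ℤ) (v : ν → k) :
    (dg w t).1 *ᵥ (qE w c *ᵥ v) = (t : k) ^ c • (qE w c *ᵥ v) := by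
  funext i
  rw [dg_val, mulVec_diagonal, Pi.smul_apply, qE_mulVec]
  by_cases h : w i = c <;> simp [h]

theorem qE_kill {R : ν → ν → Prop} {x : Matrix ν ν k} (hx : Sup R x) {c a : ℤ}
    (h : ∀ i j, R i j → w i = c → w j = a → False) (v : ν → k) :
    qE w c *ᵥ (x *ᵥ (qE w a *ᵥ v)) = 0 := by
  funext i
  rw [qE_mulVec, Pi.zero_apply]
  split_ifs with hi
  · refine Finset.sum_eq_zero fun j _ => ?_
    change x i j * _ = 0
    rw [qE_mulVec]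
    split_ifs with hj
    · by_cases hx0 : x i j = 0
      · rw [hx0, zero_mul]
      · exact (h i j (hx i j hx0) hi hj).elim
    · exact mul_zero _
  · rfl

theorem qE_comm {m : GL ν k} (hm : m ∈ Zgl (cst w)) (c : ℤ) (v : ν → k) :
    qE w c *ᵥ (m.1 *ᵥ v) = m.1 *ᵥ (qE w c *ᵥ v) := by
  funext i
  rw [qE_mulVec]
  have key : ∀ j, m.1 i j ≠ 0 → w i = w j := fun j h => Int.cast_injective (mem_Zgl.1 hm i j h)
  split_ifs with hi
  · refine Finset.sum_congr rfl fun j _ => ?_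
    change m.1 i j * _ = m.1 i j * _
    rw [qE_mulVec]
    by_cases h0 : m.1 i j = 0
    · rw [h0, zero_mul, zero_mul]
    · rw [if_pos ((key j h0).symm.trans hi)]
  · refine (Finset.sum_eq_zero fun j _ => ?_).symm
    change m.1 i j * _ = 0
    rw [qE_mulVec]
    by_cases h0 : m.1 i j = 0
    · rw [h0, zero_mul]
    · rw [if_neg fun e => hi ((key j h0).trans e), mul_zero]

theorem qE_inv (hw : w ∈ YY G) {V : Submodule k (ν → k)}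
    (hV : Inv (Units.val '' (QQ G (cst w) : Set (GL ν k))) V) (c : ℤ) {v : ν → k} (hv : v ∈ V) :
    qE w c *ᵥ v ∈ V := by
  have : Infinite k := Q_infinite
  refine hV.span (Submodule.span_mono ?_ (prj_mem_span w fun d => d = c)) hv
  rintro _ ⟨t, rfl⟩
  exact ⟨_, Q_dg_mem hw _ t, rfl⟩

theorem Q_mem_of_dot {V : Submodule k (ν → k)} {x : ν → k}
    (h : ∀ ξ : ν → k, (∀ v ∈ V, ξ ⬝ᵥ v = 0) → ξ ⬝ᵥ x = 0) : x ∈ V := by
  rw [← Subspace.forall_mem_dualAnnihilator_apply_eq_zero_iff]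
  intro φ hφ
  have key : ∀ v, (fun i => φ (Pi.single i 1)) ⬝ᵥ v = φ v := fun v => by
    conv_rhs => rw [pi_eq_sum_univ' v]
    simp [dotProduct, mul_comm]
  rw [← key]
  exact h _ fun v hv => by rw [key]; exact (Submodule.mem_dualAnnihilator φ).1 hφ v hv

/-- The top level of an element of the stabiliser is given by its middle part. -/
theorem Q_mid (hw : w ∈ YY G) {V₂ V₁ : Submodule k (ν → k)}
    (hI : Irr (Units.val '' (QQ G (cst w) : Set (GL ν k))) V₂ V₁) {a : ℤ}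
    (ha : ∀ c, a < c → ∀ v ∈ V₁, qE w c *ᵥ v ∈ V₂) {u z u' : GL ν k}
    (hu : u ∈ QQ G (cst w) ⊓ Ugl (-cst w)) (hz : z ∈ G ⊓ Zgl (cst w)) (hu' : u' ∈ G ⊓ Ugl (cst w))
    {v : ν → k} (hv : v ∈ V₁) (hv' : qE w a *ᵥ v - v ∈ V₂) :
    qE w a *ᵥ ((u * z * u').1 *ᵥ v) - z.1 *ᵥ v ∈ V₂ := by
  have hzQ : z ∈ QQ G (cst w) := P_le_QQ ⟨hz.1, Zgl_le_Pgl hz.2⟩
  have hu'Q : u' ∈ QQ G (cst w) := P_le_QQ ⟨hu'.1, Ugl_le_Pgl hu'.2⟩
  have i2 : ∀ q ∈ QQ G (cst w), ∀ x ∈ V₂, q.1 *ᵥ x ∈ V₂ := fun q hq => hI.inv₂ _ ⟨q, hq, rfl⟩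
  have i1 : ∀ q ∈ QQ G (cst w), ∀ x ∈ V₁, q.1 *ᵥ x ∈ V₁ := fun q hq => hI.inv₁ _ ⟨q, hq, rfl⟩
  set x := qE w a *ᵥ v with hx
  have hx1 : x ∈ V₁ := qE_inv hw hI.inv₁ a hv
  have h1 : (u'.1 - 1) *ᵥ x ∈ V₂ := by
    rw [← qE_sum (w := w) ((u'.1 - 1) *ᵥ x)]
    refine V₂.sum_mem fun c _ => ?_
    rcases lt_or_ge a c with hc | hc
    · refine ha c hc _ ?_
      rw [sub_mulVec, one_mulVec]
      exact V₁.sub_mem (i1 _ hu'Q _ hx1) hx1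
    · rw [hx, qE_kill (mem_Ugl.1 hu'.2) fun i j hij hi hj => by
        have : w j < w i := Int.cast_lt.1 hij
        omega]
      exact V₂.zero_mem
  have h2 : u'.1 *ᵥ v - x ∈ V₂ := by
    have : u'.1 *ᵥ v - x = (u'.1 - 1) *ᵥ x - u'.1 *ᵥ (x - v) := by
      rw [sub_mulVec, one_mulVec, mulVec_sub]; abel
    rw [this]
    exact V₂.sub_mem h1 (i2 _ hu'Q _ hv')
  have h3 : qE w a *ᵥ (u.1 *ᵥ (z.1 *ᵥ x)) = z.1 *ᵥ x := by
    have h4 := qE_kill (w := w) (c := a) (a := a) (mem_Ugl.1 hu.2) (fun i j hij hi hj => by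
      have : w i < w j := Int.cast_lt.1 (neg_lt_neg_iff.1 hij)
      omega) (z.1 *ᵥ v)
    rw [sub_mulVec, one_mulVec, mulVec_sub, sub_eq_zero, qE_idem, qE_comm hz.2] at h4
    exact h4
  have h5 : qE w a *ᵥ ((u * z * u').1 *ᵥ v) - z.1 *ᵥ v =
      qE w a *ᵥ (u.1 *ᵥ (z.1 *ᵥ (u'.1 *ᵥ v - x))) + z.1 *ᵥ (x - v) := by
    simp only [Units.val_mul, ← mulVec_mulVec, mulVec_sub, h3]
    abel
  rw [h5]
  exact V₂.add_mem (qE_inv hw hI.inv₂ a (i2 _ hu.1 _ (i2 _ hzQ _ h2))) (i2 _ hzQ _ hv')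

/-- The vectors that live on the level `a` modulo `V₂`. -/
noncomputable def qW (w : ν → ℤ) (a : ℤ) (V₂ V₁ : Submodule k (ν → k)) : Submodule k (ν → k) :=
  V₁ ⊓ V₂.comap (qE w a - 1 : Matrix ν ν k).mulVecLin

theorem mem_qW {a : ℤ} {V₂ V₁ : Submodule k (ν → k)} {v : ν → k} :
    v ∈ qW w a V₂ V₁ ↔ v ∈ V₁ ∧ qE w a *ᵥ v - v ∈ V₂ := by
  rw [qW, Submodule.mem_inf, Submodule.mem_comap, mulVecLin_apply, sub_mulVec, one_mulVec]

theorem Q_irr (hG : Good G) (hw : w ∈ YY G) {V₂ V₁ : Submodule k (ν → k)}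
    (hI : Irr (Units.val '' (QQ G (cst w) : Set (GL ν k))) V₂ V₁) {a : ℤ}
    (ha : ∀ c, a < c → ∀ v ∈ V₁, qE w c *ᵥ v ∈ V₂) {v₀ : ν → k} (h0 : v₀ ∈ V₁)
    (h0' : qE w a *ᵥ v₀ ∉ V₂) :
    Irr (Units.val '' ((G ⊓ Zgl (cst w) : Subgroup (GL ν k)) : Set (GL ν k))) V₂
      (qW w a V₂ V₁) := by
  have hZ : ∀ z ∈ G ⊓ Zgl (cst w), z ∈ QQ G (cst w) := fun z hz => P_le_QQ ⟨hz.1, Zgl_le_Pgl hz.2⟩
  have i2 : ∀ q ∈ QQ G (cst w), ∀ x ∈ V₂, q.1 *ᵥ x ∈ V₂ := fun q hq => hI.inv₂ _ ⟨q, hq, rfl⟩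
  have i1 : ∀ q ∈ QQ G (cst w), ∀ x ∈ V₁, q.1 *ᵥ x ∈ V₁ := fun q hq => hI.inv₁ _ ⟨q, hq, rfl⟩
  refine ⟨lt_of_le_not_ge (fun v hv => mem_qW.2
    ⟨hI.lt.le hv, V₂.sub_mem (qE_inv hw hI.inv₂ a hv) hv⟩) fun h => h0' (h (mem_qW.2
      ⟨qE_inv hw hI.inv₁ a h0, by rw [qE_idem, sub_self]; exact V₂.zero_mem⟩)), ?_, ?_, ?_⟩
  · rintro _ ⟨z, hz, rfl⟩ v hv
    exact i2 _ (hZ z hz) _ hv
  · rintro _ ⟨z, hz, rfl⟩ v hv
    obtain ⟨hv1, hv2⟩ := mem_qW.1 hv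
    refine mem_qW.2 ⟨i1 _ (hZ z hz) _ hv1, ?_⟩
    rw [qE_comm hz.2, ← mulVec_sub]
    exact i2 _ (hZ z hz) _ hv2
  · intro V h2 h1 hV
    by_cases hle : V ≤ V₂
    · exact Or.inl (le_antisymm hle h2)
    refine Or.inr (le_antisymm h1 fun x hx => ?_)
    obtain ⟨v, hv, hv'⟩ := SetLike.not_le_iff_exists.1 hle
    let V' : Submodule k (ν → k) :=
      V₁ ⊓ ⨅ q ∈ QQ G (cst w), V.comap (qE w a * q.1).mulVecLin
    have mem : ∀ x, x ∈ V' ↔ x ∈ V₁ ∧ ∀ q ∈ QQ G (cst w), qE w a *ᵥ (q.1 *ᵥ x) ∈ V := fun x => by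
      simp only [V', Submodule.mem_inf, Submodule.mem_iInf, Submodule.mem_comap, mulVecLin_apply,
        mulVec_mulVec]
    have hv1 := mem_qW.1 (h1 hv)
    have hvV : v ∈ V' := (mem v).2 ⟨hv1.1, fun q hq => by
      obtain ⟨u, hu, z, hz, u', hu', rfl⟩ := hG.QQ_dec (cst_mem hw) hq
      have h3 := V.add_mem (h2 (Q_mid hw hI ha hu hz hu' hv1.1 hv1.2)) (hV _ ⟨z, hz, rfl⟩ _ hv)
      rwa [sub_add_cancel] at h3⟩
    have hV' := hI.irr V' (fun x hx => (mem x).2 ⟨hI.lt.le hx, fun q hq =>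
      h2 (qE_inv hw hI.inv₂ a (i2 q hq x hx))⟩) inf_le_left (by
        rintro _ ⟨q, hq, rfl⟩ x hx
        obtain ⟨hx1, hx2⟩ := (mem x).1 hx
        refine (mem _).2 ⟨i1 q hq x hx1, fun q' hq' => ?_⟩
        have := hx2 _ ((QQ G (cst w)).mul_mem hq' hq)
        rwa [Units.val_mul, ← mulVec_mulVec] at this)
    rcases hV' with e | e
    · exact (hv' (e ▸ hvV)).elim
    · obtain ⟨hx1, hx2⟩ := mem_qW.1 hx
      have h3 := ((mem x).1 (e ▸ hx1)).2 1 (QQ G (cst w)).one_mem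
      rw [Units.val_one, one_mulVec] at h3
      have h4 := V.sub_mem h3 (h2 hx2)
      rwa [sub_sub_cancel] at h4

theorem Q_bound (hG : Good G) (hM : IsMax G) {V₂ W : Submodule k (ν → k)}
    (hI : Irr (Units.val '' ((G ⊓ Mgl G : Subgroup (GL ν k)) : Set (GL ν k))) V₂ W)
    (ξ : ν → k) (hξ : ∀ v ∈ V₂, ξ ⬝ᵥ v = 0) {v : ν → k} (hv : v ∈ W) :
    ∃ C : ℝ, ∀ x ∈ M1 G, ‖ξ ⬝ᵥ x.1 *ᵥ v‖ ≤ C := by
  obtain ⟨K, hK⟩ := exists_M1 G
  have mem : ∀ x, x ∈ K ↔ x ∈ G ∧ x ∈ Mgl G ∧ vv G x = 0 := fun x => by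
    rw [← SetLike.mem_coe, hK]; rfl
  obtain ⟨C, hC⟩ := burnside (H := G ⊓ Mgl G) (N := K) (ρ := Units.val)
    (fun x hx => ⟨((mem x).1 hx).1, ((mem x).1 hx).2.1⟩)
    (fun h hh x hx => by
      obtain ⟨h1, h2, h3⟩ := (mem x).1 hx
      refine (mem _).2 ⟨G.mul_mem (G.mul_mem hh.1 h1) (G.inv_mem hh.1),
        (Mgl G).mul_mem ((Mgl G).mul_mem hh.2 h2) ((Mgl G).inv_mem hh.2), ?_⟩
      rw [vv_mul ((Mgl G).mul_mem hh.2 h2) ((Mgl G).inv_mem hh.2), vv_mul hh.2 h2, vv_inv hh.2,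
        h3, add_zero, add_neg_cancel])
    rfl (fun _ _ _ _ => rfl) hI
    (fun h hh => ⟨1 + ∑ j, Real.exp (-vv G h j), fun x hx => by
      obtain ⟨h1, h2, h3⟩ := (mem x).1 hx
      have h4 := (hG.val hM (G.mul_mem h1 hh.1) ((Mgl G).mul_mem h2 hh.2)).2
      rw [vv_mul h2 hh.2, h3, zero_add] at h4
      refine h4.gr (by positivity) fun j => ?_
      have := Finset.single_le_sum (f := fun j => Real.exp (-vv G h j))
        (fun j _ => (Real.exp_pos _).le) (Finset.mem_univ j)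
      linarith⟩) ξ hξ hv
  exact ⟨C, fun x hx => hC x (by rw [← SetLike.mem_coe, hK]; exact hx)⟩

theorem Q_low (hG : Good G) (hM : IsMax G) (hw : w ∈ YY G) (hr : Regl G (cst w))
    {V₂ V₁ : Submodule k (ν → k)} (hI : Irr (Units.val '' (QQ G (cst w) : Set (GL ν k))) V₂ V₁)
    {a : ℤ} (ha : ∀ c, a < c → ∀ v ∈ V₁, qE w c *ᵥ v ∈ V₂) {v₀ : ν → k} (h0 : v₀ ∈ V₁)
    (h0' : qE w a *ᵥ v₀ ∉ V₂) {q q' : GL ν k} (hq : q ∈ QQ G (cst w)) (hq' : q' ∈ QQ G (cst w))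
    {c : ℤ} (hc : c ∈ Finset.univ.image w) (hca : c < a) :
    qE w a *ᵥ (q.1 *ᵥ (qE w c *ᵥ (q'.1 *ᵥ (qE w a *ᵥ v₀)))) ∈ V₂ := by
  refine Q_mem_of_dot fun ξ hξ => ?_
  have hJ := Q_irr hG hw hI ha h0 h0'
  set v := qE w a *ᵥ v₀ with hv
  have hv1 : v ∈ V₁ := qE_inv hw hI.inv₁ a h0
  have hv2 : qE w a *ᵥ v - v ∈ V₂ := by rw [hv, qE_idem, sub_self]; exact V₂.zero_mem
  obtain ⟨u₁, hu₁, z₁, hz₁, u₁', hu₁', e₁⟩ := hG.QQ_dec (cst_mem hw) ((QQ G (cst w)).mul_mem hq hq')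
  have hzv : z₁.1 *ᵥ v ∈ qW w a V₂ V₁ := hJ.inv₁ _ ⟨z₁, hz₁, rfl⟩ _ (mem_qW.2 ⟨hv1, hv2⟩)
  rw [hr.Zgl] at hJ
  obtain ⟨C, hC⟩ := Q_bound hG hM hJ ξ hξ hzv
  refine laurent_low (Finset.univ.image w)
    (fun d => ξ ⬝ᵥ qE w a *ᵥ (q.1 *ᵥ (qE w d *ᵥ (q'.1 *ᵥ v)))) a C (fun l => ?_) c hc hca
  set t : kˣ := pw k ^ l with ht
  obtain ⟨u, hu, z, hz, u', hu', e⟩ := hG.QQ_dec (cst_mem hw)
    ((QQ G (cst w)).mul_mem ((QQ G (cst w)).mul_mem hq (Q_dg_mem hw _ t)) hq')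
  have hzM : z ∈ Mgl G := hr.Zgl ▸ hz.2
  have hz₁M : z₁ ∈ Mgl G := hr.Zgl ▸ hz₁.2
  have hm : z₁ * dg w t ∈ Mgl G := (Mgl G).mul_mem hz₁M (dg_mem_Mgl w t)
  have hvv : vv G z = vv G (z₁ * dg w t) := vv_eq_of_Dl hr hzM hm fun l => by
    have h1 := QQ_Dl hw hq hq' l t
    rw [e, e₁, Units.val_mul, Dl_right hu'.2, Units.val_mul, Dl_left hu.2, Units.val_mul,
      Dl_right hu₁'.2, Units.val_mul, Dl_left hu₁.2] at h1
    rw [h1, Units.val_mul, Dl_zr (dg_mem_Zgl _ w t)]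
  have hx : z * (z₁ * dg w t)⁻¹ ∈ M1 G :=
    ⟨G.mul_mem hz.1 (G.inv_mem (G.mul_mem hz₁.1 (hw t))),
      (Mgl G).mul_mem hzM ((Mgl G).inv_mem hm), by
        rw [vv_mul hzM ((Mgl G).inv_mem hm), vv_inv hm, hvv, add_neg_cancel]⟩
  have h2 := hξ _ (Q_mid hw hI ha hu hz hu' hv1 hv2)
  rw [dotProduct_sub, sub_eq_zero, ← e] at h2
  have h3 : z.1 *ᵥ v = (t : k) ^ a • ((z * (z₁ * dg w t)⁻¹).1 *ᵥ (z₁.1 *ᵥ v)) := by
    have h5 : (dg w t).1 *ᵥ v = (t : k) ^ a • v := qE_dg' t a v₀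
    have h6 : z * (z₁ * dg w t)⁻¹ * z₁ * dg w t = z := by group
    rw [← mulVec_smul, ← mulVec_smul, ← h5, mulVec_mulVec ((dg w t).1 *ᵥ v), mulVec_mulVec v,
      ← Units.val_mul, ← Units.val_mul, h6]
  have h4 : ∑ d ∈ Finset.univ.image w,
      (ξ ⬝ᵥ qE w a *ᵥ (q.1 *ᵥ (qE w d *ᵥ (q'.1 *ᵥ v)))) * ((pw k : k) ^ l) ^ d =
      ξ ⬝ᵥ qE w a *ᵥ ((q * dg w t * q').1 *ᵥ v) := by
    rw [Units.val_mul, Units.val_mul, ← mulVec_mulVec, ← mulVec_mulVec, qE_dg, mulVec_sum,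
      mulVec_sum, dotProduct_sum]
    refine Finset.sum_congr rfl fun d _ => ?_
    rw [mulVec_smul, mulVec_smul, dotProduct_smul, smul_eq_mul, mul_comm, ht, Units.val_pow_eq_pow_val]
  rw [h4, h2, h3, dotProduct_smul, smul_eq_mul, norm_mul, norm_zpow, ht, Units.val_pow_eq_pow_val,
    norm_pow, mul_comm]
  exact mul_le_mul_of_nonneg_right (hC _ hx) (zpow_nonneg (pow_nonneg (norm_nonneg _) _) _)

theorem Good.pure (hG : Good G) (hM : IsMax G) (hw : w ∈ YY G) (hr : Regl G (cst w))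
    {V₂ V₁ : Submodule k (ν → k)} (hI : Irr (Units.val '' (QQ G (cst w) : Set (GL ν k))) V₂ V₁) :
    ∃ i₀, ∀ v ∈ V₁, (prj fun i => w i = w i₀) *ᵥ v - v ∈ V₂ := by
  classical
  have hne : (Finset.univ.filter fun i => ∃ v ∈ V₁, qE w (w i) *ᵥ v ∉ V₂).Nonempty := by
    by_contra hn
    refine hI.lt.not_ge fun v hv => ?_
    rw [← qE_sum (w := w) v]
    refine V₂.sum_mem fun c hc => ?_
    obtain ⟨i, -, rfl⟩ := Finset.mem_image.1 hc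
    by_contra h
    exact hn ⟨i, Finset.mem_filter.2 ⟨Finset.mem_univ i, v, hv, h⟩⟩
  obtain ⟨i₀, hi₀, hmax⟩ := Finset.exists_max_image _ w hne
  obtain ⟨v₀, h0, h0'⟩ := (Finset.mem_filter.1 hi₀).2
  have ha : ∀ c, w i₀ < c → ∀ v ∈ V₁, qE w c *ᵥ v ∈ V₂ := fun c hc v hv => by
    by_cases hi : ∃ i, w i = c
    · obtain ⟨i, rfl⟩ := hi
      by_contra h
      exact (hmax i (Finset.mem_filter.2 ⟨Finset.mem_univ i, v, hv, h⟩)).not_gt hc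
    · have : qE w c *ᵥ v = 0 := funext fun i => by
        rw [qE_mulVec, if_neg fun e => hi ⟨i, e⟩, Pi.zero_apply]
      rw [this]; exact V₂.zero_mem
  have h1 : (1 : Matrix ν ν k) ∈ Units.val '' (QQ G (cst w) : Set (GL ν k)) :=
    ⟨1, (QQ G (cst w)).one_mem, rfl⟩
  have hm : ∀ a ∈ Units.val '' (QQ G (cst w) : Set (GL ν k)),
      ∀ b ∈ Units.val '' (QQ G (cst w) : Set (GL ν k)),
      a * b ∈ Units.val '' (QQ G (cst w) : Set (GL ν k)) := by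
    rintro _ ⟨a, ha, rfl⟩ _ ⟨b, hb, rfl⟩
    exact ⟨a * b, (QQ G (cst w)).mul_mem ha hb, rfl⟩
  have hb : ∀ c ∈ Finset.univ.image w, c < w i₀ → ∀ v ∈ V₁, qE w c *ᵥ v ∈ V₂ := fun c hc hca => by
    by_contra hn
    have hn' : ∃ v ∈ V₁, qE w c *ᵥ v ∉ V₂ := by simpa using hn
    have hv1 := qE_inv hw hI.inv₁ (w i₀) h0
    obtain ⟨_, ⟨q', hq', rfl⟩, h2⟩ :=
      hI.exists_not_mem h1 hm (fun v hv => qE_inv hw hI.inv₂ c hv) hn' hv1 h0'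
    obtain ⟨_, ⟨q, hq, rfl⟩, h3⟩ :=
      hI.exists_not_mem h1 hm (fun v hv => qE_inv hw hI.inv₂ (w i₀) hv) ⟨v₀, h0, h0'⟩
        (qE_inv hw hI.inv₁ c (hI.inv₁ _ ⟨q', hq', rfl⟩ _ hv1)) h2
    exact h3 (Q_low hG hM hw hr hI ha h0 h0' hq hq' hc hca)
  refine ⟨i₀, fun v hv => ?_⟩
  change qE w (w i₀) *ᵥ v - v ∈ V₂
  have h2 := qE_sum (w := w) v
  rw [← Finset.add_sum_erase _ _ (Finset.mem_image_of_mem w (Finset.mem_univ i₀))] at h2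
  rw [← neg_mem_iff, neg_sub, ← eq_sub_of_add_eq' h2]
  refine V₂.sum_mem fun c hc => ?_
  obtain ⟨hc1, hc2⟩ := Finset.mem_erase.1 hc
  rcases lt_or_gt_of_ne hc1 with h | h
  · exact hb c hc2 h v hv
  · exact ha c h v hv

end Pool.Agent.Lib.MP_60cbcc_al.H3A
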