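import Pool.Agent.Lib.MP_60cbcc_al.H3ZFac

/-!
Property (T): real form, compact generation and finite products.
-/

namespace Pool.Agent.Lib.MP_60cbcc_al.H3Z

section Cx

/-- The complexification of a real Hilbert space. -/
def KazCx (H : Type) : Type := WithLp 2 (H × H)

variable {H : Type} [NormedAddCommGroup H] [InnerProductSpace ℝ H]

noncomputable instance : NormedAddCommGroup (KazCx H) :=
  inferInstanceAs (NormedAddCommGroup (WithLp 2 (H × H)))

instance [CompleteSpace H] : CompleteSpace (KazCx H) :=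
  inferInstanceAs (CompleteSpace (WithLp 2 (H × H)))

/-- The element with given real and imaginary parts. -/
def KazCx.mk (a b : H) : KazCx H := WithLp.toLp 2 (a, b)

/-- The real part. -/
def KazCx.re (x : KazCx H) : H := (WithLp.ofLp x).1

/-- The imaginary part. -/
def KazCx.im (x : KazCx H) : H := (WithLp.ofLp x).2

omit [NormedAddCommGroup H] [InnerProductSpace ℝ H] in
theorem KazCx.ext' {x y : KazCx H} (h1 : x.re = y.re) (h2 : x.im = y.im) : x = y :=
  (WithLp.ext_iff 2).2 (Prod.ext h1 h2)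

omit [NormedAddCommGroup H] [InnerProductSpace ℝ H] in
@[simp] theorem KazCx.mk_re (a b : H) : (KazCx.mk a b).re = a := rfl

omit [NormedAddCommGroup H] [InnerProductSpace ℝ H] in
@[simp] theorem KazCx.mk_im (a b : H) : (KazCx.mk a b).im = b := rfl

omit [InnerProductSpace ℝ H] in
@[simp] theorem KazCx.add_re (x y : KazCx H) : (x + y).re = x.re + y.re := rfl

omit [InnerProductSpace ℝ H] in
@[simp] theorem KazCx.add_im (x y : KazCx H) : (x + y).im = x.im + y.im := rfl

omit [InnerProductSpace ℝ H] in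
@[simp] theorem KazCx.sub_re (x y : KazCx H) : (x - y).re = x.re - y.re := rfl

omit [InnerProductSpace ℝ H] in
@[simp] theorem KazCx.sub_im (x y : KazCx H) : (x - y).im = x.im - y.im := rfl

omit [InnerProductSpace ℝ H] in
@[simp] theorem KazCx.zero_re : (0 : KazCx H).re = 0 := rfl

omit [InnerProductSpace ℝ H] in
@[simp] theorem KazCx.zero_im : (0 : KazCx H).im = 0 := rfl

omit [InnerProductSpace ℝ H] in
theorem KazCx.norm_sq (x : KazCx H) : ‖x‖ ^ 2 = ‖x.re‖ ^ 2 + ‖x.im‖ ^ 2 :=
  WithLp.prod_norm_sq_eq_of_L2 (α := H) (β := H) x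

noncomputable instance : SMul ℂ (KazCx H) :=
  ⟨fun c x => KazCx.mk (c.re • x.re - c.im • x.im) (c.re • x.im + c.im • x.re)⟩

@[simp] theorem KazCx.smul_re (c : ℂ) (x : KazCx H) :
    (c • x).re = c.re • x.re - c.im • x.im := rfl

@[simp] theorem KazCx.smul_im (c : ℂ) (x : KazCx H) :
    (c • x).im = c.re • x.im + c.im • x.re := rfl

noncomputable instance : Module ℂ (KazCx H) where
  one_smul x := KazCx.ext' (by simp) (by simp)
  mul_smul c d x := KazCx.ext' (by simp; module) (by simp; module)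
  smul_zero c := KazCx.ext' (by simp) (by simp)
  smul_add c x y := KazCx.ext' (by simp; module) (by simp; module)
  add_smul c d x := KazCx.ext' (by simp; module) (by simp; module)
  zero_smul x := KazCx.ext' (by simp) (by simp)

noncomputable instance : NormedSpace ℂ (KazCx H) where
  norm_smul_le c x := by
    refine le_of_eq ((sq_eq_sq₀ (norm_nonneg _) (by positivity)).1 ?_)
    rw [mul_pow, KazCx.norm_sq, KazCx.norm_sq, KazCx.smul_re, KazCx.smul_im, norm_sub_sq_real,
      norm_add_sq_real, ← Complex.normSq_eq_norm_sq, Complex.normSq_apply]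
    simp only [norm_smul, mul_pow, Real.norm_eq_abs, sq_abs, real_inner_smul_left,
      real_inner_smul_right, real_inner_comm x.re x.im]
    ring

noncomputable instance : InnerProductSpace ℂ (KazCx H) :=
  InnerProductSpace.ofNorm ℂ fun x y => by
    have h := parallelogram_law_with_norm ℝ x.re y.re
    have h' := parallelogram_law_with_norm ℝ x.im y.im
    simp only [← sq, KazCx.norm_sq, KazCx.add_re, KazCx.add_im, KazCx.sub_re, KazCx.sub_im] at *
    linarith

/-- The complexification of an isometry. -/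
noncomputable def KazCx.map (U : H ≃ₗᵢ[ℝ] H) : KazCx H ≃ₗᵢ[ℂ] KazCx H where
  toFun x := KazCx.mk (U x.re) (U x.im)
  invFun x := KazCx.mk (U.symm x.re) (U.symm x.im)
  map_add' x y := KazCx.ext' (by simp) (by simp)
  map_smul' c x := KazCx.ext' (by simp) (by simp)
  left_inv x := KazCx.ext' (by simp) (by simp)
  right_inv x := KazCx.ext' (by simp) (by simp)
  norm_map' x := by
    refine (sq_eq_sq₀ (norm_nonneg _) (norm_nonneg _)).1 ?_
    rw [KazCx.norm_sq, KazCx.norm_sq]
    change ‖U x.re‖ ^ 2 + ‖U x.im‖ ^ 2 = _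
    rw [U.norm_map, U.norm_map]

theorem KazCx.map_apply (U : H ≃ₗᵢ[ℝ] H) (x : KazCx H) :
    KazCx.map U x = KazCx.mk (U x.re) (U x.im) := rfl

/-- The complexification of a representation. -/
noncomputable def KazCx.rep {G : Type} [Group G] (π : G →* (H ≃ₗᵢ[ℝ] H)) :
    G →* (KazCx H ≃ₗᵢ[ℂ] KazCx H) where
  toFun g := KazCx.map (π g)
  map_one' := LinearIsometryEquiv.ext fun x => KazCx.ext' (by simp [KazCx.map_apply])
    (by simp [KazCx.map_apply])
  map_mul' g h := LinearIsometryEquiv.ext fun x => KazCx.ext' (by simp [KazCx.map_apply])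
    (by simp [KazCx.map_apply])

omit [InnerProductSpace ℝ H] in
theorem KazCx.continuous_mk {X : Type} [TopologicalSpace X] {f g : X → H} (hf : Continuous f)
    (hg : Continuous g) : Continuous fun x => KazCx.mk (f x) (g x) :=
  (WithLp.prod_continuous_toLp 2 H H).comp (hf.prodMk hg)

end Cx

section Inv

variable {G H : Type} [Group G] [NormedAddCommGroup H] [InnerProductSpace ℝ H]

/-- The invariant vectors. -/
def kazInv (π : G →* (H ≃ₗᵢ[ℝ] H)) : Submodule ℝ H where
  carrier := {v | ∀ g, π g v = v}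
  add_mem' := fun ha hb g => by rw [map_add, ha g, hb g]
  zero_mem' := fun g => map_zero _
  smul_mem' := fun c v hv g => by rw [map_smul, hv g]

theorem isClosed_kazInv (π : G →* (H ≃ₗᵢ[ℝ] H)) : IsClosed (kazInv π : Set H) := by
  have : (kazInv π : Set H) = ⋂ g, {v | π g v = v} := Set.ofPred_forall _
  rw [this]
  exact isClosed_iInter fun g => isClosed_eq (π g).continuous continuous_id

instance [CompleteSpace H] (π : G →* (H ≃ₗᵢ[ℝ] H)) : CompleteSpace (kazInv π) :=
  (isClosed_kazInv π).completeSpace_coe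

theorem kaz_map_orth {K : Submodule ℝ H} (U : H ≃ₗᵢ[ℝ] H) (hU : ∀ v ∈ K, U.symm v ∈ K) {v : H}
    (hv : v ∈ Kᗮ) : U v ∈ Kᗮ := by
  rw [Submodule.mem_orthogonal] at hv ⊢
  intro u hu
  rw [← U.apply_symm_apply u, U.inner_map_map]
  exact hv _ (hU u hu)

theorem kaz_symm (π : G →* (H ≃ₗᵢ[ℝ] H)) (g : G) (v : H) : (π g).symm v = π g⁻¹ v := by
  rw [map_inv]; rfl

theorem kaz_mul (π : G →* (H ≃ₗᵢ[ℝ] H)) (g h : G) (v : H) : π (g * h) v = π g (π h v) := by
  rw [map_mul]; rfl

theorem kaz_orth_mem (π : G →* (H ≃ₗᵢ[ℝ] H)) (g : G) {v : H} (hv : v ∈ (kazInv π)ᗮ) :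
    π g v ∈ (kazInv π)ᗮ :=
  kaz_map_orth (π g) (fun u hu => by rw [kaz_symm, hu]; exact hu) hv

/-- The restriction to the orthogonal complement of the invariant vectors. -/
noncomputable def kazRes (π : G →* (H ≃ₗᵢ[ℝ] H)) :
    G →* (((kazInv π)ᗮ : Submodule ℝ H) ≃ₗᵢ[ℝ] ((kazInv π)ᗮ : Submodule ℝ H)) where
  toFun g :=
    { toFun := fun v => ⟨π g v, kaz_orth_mem π g v.2⟩
      invFun := fun v => ⟨π g⁻¹ v, kaz_orth_mem π g⁻¹ v.2⟩
      map_add' := fun v w => Subtype.ext (map_add (π g) v.1 w.1)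
      map_smul' := fun c v => Subtype.ext (map_smul (π g) c v.1)
      left_inv := fun v => Subtype.ext (by simp)
      right_inv := fun v => Subtype.ext (by simp)
      norm_map' := fun v => (π g).norm_map v.1 }
  map_one' := LinearIsometryEquiv.ext fun v => Subtype.ext (by
    change π 1 v.1 = v.1
    rw [map_one]; rfl)
  map_mul' g h := LinearIsometryEquiv.ext fun v => Subtype.ext (kaz_mul π g h v.1)

theorem kaz_proj_comm {K : Submodule ℝ H} [K.HasOrthogonalProjection] (U : H ≃ₗᵢ[ℝ] H)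
    (h1 : ∀ v ∈ K, U v ∈ K) (h2 : ∀ v ∈ K, U.symm v ∈ K) (v : H) :
    K.starProjection (U v) = U (K.starProjection v) := by
  refine Submodule.eq_starProjection_of_mem_orthogonal (h1 _ (K.starProjection_apply_mem v)) ?_
  rw [← map_sub]
  exact kaz_map_orth U h2 (K.sub_starProjection_mem_orthogonal v)

theorem kaz_proj_le {K : Submodule ℝ H} [K.HasOrthogonalProjection] (v : H) {w : H} (hw : w ∈ K) :
    ‖v - K.starProjection v‖ ≤ ‖v - w‖ := by
  rw [Submodule.starProjection_minimal]
  exact ciInf_le ⟨0, by rintro _ ⟨x, rfl⟩; exact norm_nonneg _⟩ (⟨w, hw⟩ : K)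

theorem kaz_cont_closed [TopologicalSpace G] (π : G →* (H ≃ₗᵢ[ℝ] H)) :
    IsClosed {v | Continuous fun g => π g v} := by
  refine isClosed_of_closure_subset fun v hv => ?_
  refine continuous_of_uniform_approx_of_continuous fun u hu => ?_
  obtain ⟨ε, hε, h⟩ := Metric.mem_uniformity_dist.1 hu
  obtain ⟨w, hw, hd⟩ := Metric.mem_closure_iff.1 hv ε hε
  exact ⟨_, hw, fun g => h (by rwa [LinearIsometryEquiv.dist_map])⟩

end Inv

theorem HasT.kaz {G : Type} [Group G] [TopologicalSpace G] (h : HasT G) : Kaz G := by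
  obtain ⟨Q, ε, hQ, hε, h⟩ := h
  refine ⟨Q, ε⁻¹, hQ, by positivity, fun H _ _ _ π hπ v t ht hv => ?_⟩
  refine ⟨(kazInv π).starProjection v, (kazInv π).starProjection_apply_mem v, ?_⟩
  let u : ((kazInv π)ᗮ : Submodule ℝ H) :=
    ⟨v - (kazInv π).starProjection v, (kazInv π).sub_starProjection_mem_orthogonal v⟩
  change ‖u‖ ≤ ε⁻¹ * t
  by_contra hlt
  rw [not_le, inv_mul_lt_iff₀ hε] at hlt
  have hu : 0 < ‖u‖ := by
    by_contra h0
    nlinarith [norm_nonneg u]
  have hq : ∀ q ∈ Q, ‖kazRes π q u - u‖ ≤ t := by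
    intro q hq
    change ‖π q (v - (kazInv π).starProjection v) - (v - (kazInv π).starProjection v)‖ ≤ t
    rw [map_sub, (kazInv π).starProjection_apply_mem v q, sub_sub_sub_cancel_right]
    exact hv q hq
  have hn : ∀ a : ((kazInv π)ᗮ : Submodule ℝ H), ‖KazCx.mk a 0‖ = ‖a‖ := fun a => by
    refine (sq_eq_sq₀ (norm_nonneg _) (norm_nonneg _)).1 ?_
    rw [KazCx.norm_sq]
    simp
  obtain ⟨w, hw0, hw⟩ := h (KazCx ((kazInv π)ᗮ : Submodule ℝ H)) (KazCx.rep (kazRes π))
    (fun x => KazCx.continuous_mk ((hπ x.re.1).subtype_mk _) ((hπ x.im.1).subtype_mk _))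
    ⟨KazCx.mk (‖u‖⁻¹ • u) 0, by rw [hn, norm_smul, norm_inv, norm_norm, inv_mul_cancel₀ hu.ne'],
      fun q hq' => by
        have e : KazCx.rep (kazRes π) q (KazCx.mk (‖u‖⁻¹ • u) 0) - KazCx.mk (‖u‖⁻¹ • u) 0 =
            KazCx.mk (‖u‖⁻¹ • (kazRes π q u - u)) 0 :=
          KazCx.ext' (by
            change kazRes π q (‖u‖⁻¹ • u) - ‖u‖⁻¹ • u = ‖u‖⁻¹ • (kazRes π q u - u)
            rw [map_smul, smul_sub]) (by
            change kazRes π q 0 - 0 = 0
            rw [map_zero, sub_zero])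
        rw [e, hn, norm_smul, norm_inv, norm_norm, inv_mul_lt_iff₀ hu, mul_comm]
        exact (hq q hq').trans_lt hlt⟩
  have hz : ∀ a : ((kazInv π)ᗮ : Submodule ℝ H), (∀ g, kazRes π g a = a) → a = 0 := by
    intro a ha
    have h1 : a.1 ∈ kazInv π := fun g => congrArg Subtype.val (ha g)
    exact Subtype.ext (inner_self_eq_zero.1 (a.2 a.1 h1))
  exact hw0 (KazCx.ext' (hz _ fun g => congrArg KazCx.re (hw g))
    (hz _ fun g => congrArg KazCx.im (hw g)))

section Perm

variable {G Y : Type} [Group G] [MulAction G Y]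

theorem kaz_memlp (g : G) (f : lp (fun _ : Y => ℝ) 2) : Memℓp (fun y => f (g⁻¹ • y)) 2 := by
  have h := lp.memℓp f
  rw [memℓp_gen_iff (by norm_num)] at h ⊢
  exact (MulAction.toPerm g⁻¹).summable_iff.2 h

/-- The permutation representation on square summable functions. -/
noncomputable def kazPerm (G Y : Type) [Group G] [MulAction G Y] :
    G →* (lp (fun _ : Y => ℝ) 2 ≃ₗᵢ[ℝ] lp (fun _ : Y => ℝ) 2) where
  toFun g :=
    { toFun := fun f => ⟨fun y => f (g⁻¹ • y), kaz_memlp g f⟩
      invFun := fun f => ⟨fun y => f (g⁻¹⁻¹ • y), kaz_memlp g⁻¹ f⟩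
      map_add' := fun _ _ => rfl
      map_smul' := fun _ _ => rfl
      left_inv := fun f => lp.ext (funext fun y => by
        change f (g⁻¹ • g⁻¹⁻¹ • y) = f y
        rw [smul_inv_smul])
      right_inv := fun f => lp.ext (funext fun y => by
        change f (g⁻¹⁻¹ • g⁻¹ • y) = f y
        rw [inv_smul_smul])
      norm_map' := fun f => by
        rw [lp.norm_eq_tsum_rpow (by norm_num), lp.norm_eq_tsum_rpow (by norm_num) f]
        exact congrArg (· ^ (1 / (2 : ENNReal).toReal))
          ((MulAction.toPerm g⁻¹).tsum_eq fun y => ‖f y‖ ^ (2 : ENNReal).toReal) }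
  map_one' := LinearIsometryEquiv.ext fun f => lp.ext (funext fun y => by
    change f ((1 : G)⁻¹ • y) = f y
    rw [inv_one, one_smul])
  map_mul' g h := LinearIsometryEquiv.ext fun f => lp.ext (funext fun y => by
    change f ((g * h)⁻¹ • y) = f (h⁻¹ • g⁻¹ • y)
    rw [mul_inv_rev, mul_smul])

theorem kazPerm_single [DecidableEq Y] (g : G) (y : Y) (a : ℝ) :
    kazPerm G Y g (lp.single 2 y a) = lp.single 2 (g • y) a := by
  refine lp.ext (funext fun z => ?_)
  change (lp.single 2 y a : lp (fun _ : Y => ℝ) 2) (g⁻¹ • z) =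
    (lp.single 2 (g • y) a : lp (fun _ : Y => ℝ) 2) z
  simp only [lp.single_apply, Pi.single_apply, inv_smul_eq_iff]

end Perm

theorem Kaz.cg {G : Type} [Group G] [TopologicalSpace G] [IsTopologicalGroup G]
    [LocallyCompactSpace G] (h : Kaz G) : ∃ S : Set G, IsCompact S ∧ Subgroup.closure S = ⊤ := by
  classical
  obtain ⟨Q, C, hQ, -, h⟩ := h
  obtain ⟨U, hU, hU1⟩ := exists_compact_mem_nhds (1 : G)
  refine ⟨Q ∪ U, hQ.union hU, ?_⟩
  set K := Subgroup.closure (Q ∪ U)
  have hK : IsOpen (K : Set G) := Subgroup.isOpen_of_mem_nhds K (g := 1)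
    (Filter.mem_of_superset hU1 fun x hx => Subgroup.subset_closure (Or.inr hx))
  have := QuotientGroup.discreteTopology hK
  have hc : ∀ f, Continuous fun g => kazPerm G (G ⧸ K) g f := by
    intro f
    refine (kaz_cont_closed (kazPerm G (G ⧸ K))).mem_of_tendsto
      (lp.hasSum_single (by norm_num) f) (Filter.Eventually.of_forall fun s => ?_)
    change Continuous fun g => kazPerm G (G ⧸ K) g (∑ i ∈ s, lp.single 2 i (f i))
    simp only [map_sum, kazPerm_single]
    refine continuous_finsetSum _ fun y _ => ?_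
    exact (continuous_of_discreteTopology
      (f := fun z : G ⧸ K => (lp.single 2 z (f y) : lp (fun _ : G ⧸ K => ℝ) 2))).comp
        (continuous_id.smul continuous_const)
  have hs : ∀ g : G, g • ((1 : G) : G ⧸ K) = ((1 : G) : G ⧸ K) ↔ g ∈ K := fun g => by
    rw [MulAction.Quotient.smul_coe, smul_eq_mul, mul_one, eq_comm, QuotientGroup.eq, inv_one,
      one_mul]
  obtain ⟨w, hw, hd⟩ := h _ (kazPerm G (G ⧸ K)) hc (lp.single 2 ((1 : G) : G ⧸ K) 1) 0 le_rfl
    fun q hq => by
      rw [kazPerm_single, (hs q).2 (Subgroup.subset_closure (Or.inl hq)), sub_self, norm_zero]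
  rw [mul_zero, norm_le_zero_iff, sub_eq_zero] at hd
  rw [eq_top_iff]
  intro g _
  have h1 := hw g
  rw [← hd, kazPerm_single] at h1
  have h2 := congrArg (fun f : lp (fun _ : G ⧸ K => ℝ) 2 => f ((1 : G) : G ⧸ K)) h1
  simp only [lp.single_apply, Pi.single_apply, if_true] at h2
  by_contra hg
  rw [if_neg fun e => hg ((hs g).1 e.symm)] at h2
  exact zero_ne_one h2

theorem Kaz.pi {ι : Type} [Finite ι] {G : ι → Type} [∀ i, Group (G i)]
    [∀ i, TopologicalSpace (G i)] [∀ i, IsTopologicalGroup (G i)] (h : ∀ i, Kaz (G i)) :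
    Kaz (∀ i, G i) := by
  classical
  have := Fintype.ofFinite ι
  choose Q C hQ hC h using h
  refine ⟨⋃ i, Pi.mulSingle i '' Q i, ∑ i, C i,
    isCompact_iUnion fun i => (hQ i).image (continuous_mulSingle i),
    Finset.sum_nonneg fun i _ => hC i, fun H _ _ _ π hπ v t ht hv => ?_⟩
  let ρ : ∀ i, G i →* (H ≃ₗᵢ[ℝ] H) := fun i => π.comp (MonoidHom.mulSingle G i)
  have hP : ∀ i, ‖v - (kazInv (ρ i)).starProjection v‖ ≤ C i * t := by
    intro i
    obtain ⟨w, hw, hd⟩ := h i H (ρ i) (fun u => (hπ u).comp (continuous_mulSingle i)) v t ht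
      fun q hq => hv _ (Set.mem_iUnion.2 ⟨i, q, hq, rfl⟩)
    exact (kaz_proj_le v (K := kazInv (ρ i)) hw).trans hd
  have hmap : ∀ i j, i ≠ j → ∀ (g : G j), ∀ u ∈ kazInv (ρ i), ρ j g u ∈ kazInv (ρ i) := by
    intro i j hij g u hu a
    change π (Pi.mulSingle i a) (π (Pi.mulSingle j g) u) = π (Pi.mulSingle j g) u
    rw [← kaz_mul, (Pi.mulSingle_commute hij a g).eq, kaz_mul]
    exact congrArg _ (hu a)
  have key : ∀ s : Finset ι, ∃ w, (∀ i ∈ s, w ∈ kazInv (ρ i)) ∧ ‖v - w‖ ≤ (∑ i ∈ s, C i) * t := by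
    intro s
    induction s using Finset.induction_on with
    | empty => exact ⟨v, by simp, by simp⟩
    | insert i s hi ih =>
      obtain ⟨w, hw, hd⟩ := ih
      refine ⟨(kazInv (ρ i)).starProjection w, fun j hj => ?_, ?_⟩
      · by_cases hij : i = j
        · subst hij
          exact (kazInv (ρ i)).starProjection_apply_mem w
        · intro g
          have hj' : j ∈ s := (Finset.mem_insert.1 hj).resolve_left (Ne.symm hij)
          rw [← kaz_proj_comm (ρ j g) (hmap i j hij g) fun u hu => by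
            rw [kaz_symm]; exact hmap i j hij g⁻¹ u hu, hw j hj' g]
      · have e : v - (kazInv (ρ i)).starProjection w = (v - (kazInv (ρ i)).starProjection v) +
            (kazInv (ρ i)).starProjection (v - w) := by
          rw [map_sub]; abel
        rw [e, Finset.sum_insert hi, add_mul]
        exact (norm_add_le _ _).trans (add_le_add (hP i)
          (((kazInv (ρ i)).norm_starProjection_apply_le _).trans hd))
  obtain ⟨w, hw, hd⟩ := key Finset.univ
  refine ⟨w, fun g => ?_, hd⟩
  let S : Subgroup (∀ i, G i) :=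
    { carrier := {g | π g w = w}
      one_mem' := by
        change π 1 w = w
        rw [map_one]; rfl
      mul_mem' := fun {a b} ha hb => by
        change π (a * b) w = w
        rw [kaz_mul, hb, ha]
      inv_mem' := fun {a} ha => by
        change π a⁻¹ w = w
        rw [← kaz_symm, LinearIsometryEquiv.symm_apply_eq]
        exact ha.symm }
  exact Subgroup.pi_mem_of_mulSingle_mem (H := S) g fun i => hw i (Finset.mem_univ i) (g i)

end Pool.Agent.Lib.MP_60cbcc_al.H3Z
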