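import Pool.Agent.Lib.MP_60cbcc_al.H3ASpec
import Pool.Agent.Lib.MP_60cbcc_al.H3ZKazA

/-!
Relative property (T).
-/

namespace Pool.Agent.Lib.MP_60cbcc_al.H3A

open Matrix Filter Topology

set_option linter.unusedSectionVars false

open scoped InnerProductSpace

section size

variable {E : Type} [NormedAddCommGroup E]

theorem relT_zero (χ : Chr E) : χ.val 0 = 1 := by
  have h0 : χ.val 0 ≠ 0 := norm_pos_iff.1 (by rw [χ.norm]; exact one_pos)
  have := χ.add 0 0
  rw [add_zero] at this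
  exact mul_left_cancel₀ h0 (by rw [← this, mul_one])

theorem relT_nsmul (χ : Chr E) (X : E) (j : ℕ) : χ.val (j • X) = χ.val X ^ j := by
  induction j with
  | zero => rw [zero_smul, relT_zero, pow_zero]
  | succ j ih => rw [succ_nsmul, χ.add, ih, pow_succ]

theorem relT_sub_add (χ : Chr E) (X Y : E) :
    ‖χ.val (X + Y) - 1‖ ≤ ‖χ.val X - 1‖ + ‖χ.val Y - 1‖ := by
  have e : χ.val (X + Y) - 1 = (χ.val X - 1) * χ.val Y + (χ.val Y - 1) := by rw [χ.add]; ring
  rw [e]
  refine (norm_add_le _ _).trans_eq ?_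
  rw [norm_mul, χ.norm, mul_one]

theorem relT_lip (χ : Chr E) : ∃ t : ℝ, 0 ≤ t ∧ ∀ X, ‖χ.val X - 1‖ ≤ t * ‖X‖ := by
  obtain ⟨δ, hδ, h⟩ := Metric.continuousAt_iff.1 (χ.cont.continuousAt (x := 0)) (1 / 2)
    (by norm_num)
  refine ⟨8 / δ, by positivity, fun X => ?_⟩
  rcases eq_or_ne X 0 with rfl | hX
  · simp [relT_zero]
  have hn : 0 < ‖X‖ := norm_pos_iff.2 hX
  set n := ⌊δ / 2 / ‖X‖⌋₊ + 1 with hn'
  have h1 : ∀ j ∈ Finset.range n, (1 / 2 : ℝ) ≤ (χ.val X ^ j).re := fun j hj => by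
    have a1 : (j : ℝ) ≤ δ / 2 / ‖X‖ :=
      (Nat.cast_le.2 (Nat.lt_succ_iff.1 (Finset.mem_range.1 hj))).trans
        (Nat.floor_le (by positivity))
    have a2 : dist (j • X) 0 < δ := by
      rw [dist_zero_right]
      refine (norm_nsmul_le (n := j) (a := X)).trans_lt ?_
      rw [le_div_iff₀ hn] at a1
      linarith
    have a3 := h a2
    rw [relT_zero, relT_nsmul, dist_eq_norm] at a3
    have a4 := (abs_le.1 ((Complex.abs_re_le_norm _).trans a3.le)).1
    rw [Complex.sub_re, Complex.one_re] at a4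
    linarith
  have h2 : (n : ℝ) / 2 ≤ ‖∑ j ∈ Finset.range n, χ.val X ^ j‖ := by
    refine le_trans ?_ (Complex.re_le_norm _)
    rw [Complex.re_sum]
    have := Finset.sum_le_sum h1
    simp only [Finset.sum_const, Finset.card_range, nsmul_eq_mul] at this
    linarith
  have h3 : ‖∑ j ∈ Finset.range n, χ.val X ^ j‖ * ‖χ.val X - 1‖ ≤ 2 := by
    rw [← norm_mul, geom_sum_mul]
    refine (norm_sub_le _ _).trans ?_
    rw [norm_pow, χ.norm, one_pow, norm_one]
    norm_num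
  have h4 : δ / 2 / ‖X‖ < n := by
    rw [hn']
    push_cast
    exact Nat.lt_floor_add_one _
  rw [div_lt_iff₀ hn] at h4
  rw [div_mul_eq_mul_div, le_div_iff₀ hδ]
  have h5 : (n : ℝ) * ‖χ.val X - 1‖ ≤ 4 := by nlinarith [norm_nonneg (χ.val X - 1)]
  nlinarith [norm_nonneg (χ.val X - 1)]

/-- The Lipschitz constant of a character at the origin. -/
noncomputable def rtN (χ : Chr E) : ℝ := sInf {t | 0 ≤ t ∧ ∀ X, ‖χ.val X - 1‖ ≤ t * ‖X‖}

theorem rtN_nonneg (χ : Chr E) : 0 ≤ rtN χ := Real.sInf_nonneg fun _ h => h.1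

theorem rtN_le {χ : Chr E} {t : ℝ} (h0 : 0 ≤ t) (h : ∀ X, ‖χ.val X - 1‖ ≤ t * ‖X‖) : rtN χ ≤ t :=
  csInf_le ⟨0, fun _ h => h.1⟩ ⟨h0, h⟩

theorem le_rtN (χ : Chr E) (X : E) : ‖χ.val X - 1‖ ≤ rtN χ * ‖X‖ := by
  rcases eq_or_ne X 0 with rfl | hX
  · simp [relT_zero]
  have hn : 0 < ‖X‖ := norm_pos_iff.2 hX
  rw [← div_le_iff₀ hn]
  exact le_csInf (relT_lip χ) fun t ht => (div_le_iff₀ hn).2 (ht.2 X)

theorem relT_meas (X : E) : Measurable fun χ : Chr E => χ.val X :=
  (measurable_pi_apply X).comp (comap_measurable Chr.val)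

theorem rtN_meas [ProperSpace E] : Measurable (rtN : Chr E → ℝ) := by
  refine measurable_of_Iic fun t => ?_
  rcases lt_or_ge t 0 with h | h
  · convert MeasurableSet.empty
    exact Set.eq_empty_of_forall_notMem fun χ hχ => absurd ((rtN_nonneg χ).trans hχ) h.not_ge
  obtain ⟨D, hD, hd⟩ := TopologicalSpace.exists_countable_dense E
  have e : rtN ⁻¹' Set.Iic t = ⋂ X ∈ D, {χ : Chr E | ‖χ.val X - 1‖ ≤ t * ‖X‖} := by
    ext χ
    simp only [Set.mem_preimage, Set.mem_Iic, Set.mem_iInter, Set.mem_ofPred_eq]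
    refine ⟨fun h1 X _ => (le_rtN χ X).trans (by gcongr), fun h1 => rtN_le h fun X => ?_⟩
    exact hd.induction (P := fun X => ‖χ.val X - 1‖ ≤ t * ‖X‖) h1
      (isClosed_le (χ.cont.sub continuous_const).norm (by fun_prop)) X
  rw [e]
  exact MeasurableSet.biInter hD fun X _ =>
    measurableSet_le ((relT_meas X).sub measurable_const).norm measurable_const

end size

section lin

variable {k : Type} [NontriviallyNormedField k] [ProperSpace k] {E : Type}
  [NormedAddCommGroup E] [NormedSpace k E] [FiniteDimensional k E]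

/-- Composition of a character with a linear map. -/
def rtC (A : Module.End k E) (χ : Chr E) : Chr E where
  val X := χ.val (A X)
  add X Y := by rw [map_add, χ.add]
  norm X := χ.norm _
  cont := χ.cont.comp A.continuous_of_finiteDimensional

theorem rtC_mul (A B : Module.End k E) (χ : Chr E) : rtC B (rtC A χ) = rtC (A * B) χ := rfl

theorem rtC_meas (A : Module.End k E) : Measurable (rtC A) :=
  measurable_comap_iff.2 (measurable_pi_lambda _ fun X => relT_meas (A X))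

/-- The size of a character along a linear map. -/
noncomputable def rtn (χ : Chr E) (A : Module.End k E) : ℝ := rtN (rtC A χ)

theorem rtn_nonneg (χ : Chr E) (A : Module.End k E) : 0 ≤ rtn χ A := rtN_nonneg _

theorem rtn_meas (A : Module.End k E) : Measurable fun χ : Chr E => rtn χ A := by
  have := FiniteDimensional.proper k E
  exact rtN_meas.comp (rtC_meas A)

theorem rtn_rtC (χ : Chr E) (A B : Module.End k E) : rtn (rtC A χ) B = rtn χ (A * B) := rfl

theorem rtn_zero (χ : Chr E) : rtn χ (0 : Module.End k E) = 0 :=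
  le_antisymm (rtN_le le_rfl fun X => by simp [rtC, relT_zero]) (rtn_nonneg _ _)

theorem rtn_add (χ : Chr E) (A B : Module.End k E) : rtn χ (A + B) ≤ rtn χ A + rtn χ B :=
  rtN_le (add_nonneg (rtn_nonneg _ _) (rtn_nonneg _ _)) fun X => by
    rw [add_mul]
    exact (relT_sub_add χ (A X) (B X)).trans
      (add_le_add (le_rtN (rtC A χ) X) (le_rtN (rtC B χ) X))

theorem rtn_sum (χ : Chr E) {α : Type} (s : Finset α) (A : α → Module.End k E) :
    rtn χ (∑ i ∈ s, A i) ≤ ∑ i ∈ s, rtn χ (A i) :=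
  Finset.le_sum_of_subadditive (rtn χ) (rtn_zero χ).le (rtn_add χ) s A

/-- The operator norm. -/
noncomputable def rtB (A : Module.End k E) : ℝ := ‖LinearMap.toContinuousLinearMap A‖

theorem rtB_nonneg (A : Module.End k E) : 0 ≤ rtB A := norm_nonneg _

theorem rtn_mul_of {B : Module.End k E} {C : ℝ} (h0 : 0 ≤ C) (h : ∀ X, ‖B X‖ ≤ C * ‖X‖)
    (χ : Chr E) (A : Module.End k E) : rtn χ (A * B) ≤ C * rtn χ A :=
  rtN_le (mul_nonneg h0 (rtn_nonneg _ _)) fun X => (le_rtN (rtC A χ) (B X)).trans (by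
    rw [mul_comm C, mul_assoc]
    exact mul_le_mul_of_nonneg_left (h X) (rtn_nonneg _ _))

theorem rtn_mul (χ : Chr E) (A B : Module.End k E) : rtn χ (A * B) ≤ rtB B * rtn χ A :=
  rtn_mul_of (rtB_nonneg B) (LinearMap.toContinuousLinearMap B).le_opNorm χ A

theorem rtn_smul_le (χ : Chr E) (c : k) (A : Module.End k E) : rtn χ (c • A) ≤ ‖c‖ * rtn χ A := by
  have := rtn_mul_of (B := c • (1 : Module.End k E)) (norm_nonneg c)
    (fun X => by simp [norm_smul]) χ A
  rwa [mul_smul_comm, mul_one] at this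

theorem rtn_smul (χ : Chr E) {c : k} (hc : c ≠ 0) (A : Module.End k E) :
    rtn χ (c • A) = ‖c‖ * rtn χ A := by
  refine le_antisymm (rtn_smul_le χ c A) ?_
  have := rtn_smul_le χ c⁻¹ (c • A)
  rwa [inv_smul_smul₀ hc, norm_inv, le_inv_mul_iff₀ (norm_pos_iff.2 hc)] at this

theorem rtn_one (χ : Chr E) : rtn χ (1 : Module.End k E) = rtN χ := rfl

/-- The characters that are dominated by one weight. -/
def rtD (p : ℤ → Module.End k E) (K : ℝ) (j : ℤ) : Set (Chr E) :=
  {χ | 0 < rtn χ (p j) ∧ ∀ i, i ≠ j → K * rtn χ (p i) ≤ rtn χ (p j)}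

theorem rtD_meas (p : ℤ → Module.End k E) (K : ℝ) (j : ℤ) : MeasurableSet (rtD p K j) := by
  refine (measurableSet_lt measurable_const (rtn_meas (p j))).inter ?_
  change MeasurableSet {χ : Chr E | ∀ i, i ≠ j → K * rtn χ (p i) ≤ rtn χ (p j)}
  simp only [Set.ofPred_forall]
  exact MeasurableSet.iInter fun i => MeasurableSet.iInter fun _ =>
    measurableSet_le ((rtn_meas (p i)).const_mul K) (rtn_meas (p j))

variable {J : Finset ℤ} {p : ℤ → Module.End k E}

theorem relT_mem_J (hp₃ : ∀ j, j ∉ J → p j = 0) {χ : Chr E} {j : ℤ} (h : 0 < rtn χ (p j)) :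
    j ∈ J := by
  by_contra hj
  rw [hp₃ j hj, rtn_zero] at h
  exact h.false

theorem relT_keep (hp₁ : ∑ j ∈ J, p j = 1) (hp₃ : ∀ j, j ∉ J → p j = 0) {A : Module.End k E}
    (hA : ∀ j, p j * A * p j = p j) :
    ∀ᶠ K : ℝ in atTop, ∀ χ i j, χ ∈ rtD p K j → rtC A χ ∈ rtD p K i → i = j := by
  set C := ∑ i ∈ J, rtB (A * p i) with hC
  have h0 : 0 ≤ C := Finset.sum_nonneg fun i _ => rtB_nonneg _
  have hb : ∀ i ∈ J, ∀ X, ‖(A * p i) X‖ ≤ C * ‖X‖ := fun i hi X =>
    ((LinearMap.toContinuousLinearMap (A * p i)).le_opNorm X).trans (mul_le_mul_of_nonneg_right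
      (Finset.single_le_sum (f := fun i => rtB (A * p i)) (fun i _ => rtB_nonneg _) hi)
      (norm_nonneg _))
  filter_upwards [eventually_ge_atTop 1, eventually_gt_atTop (2 * (J.card * C))] with K h1 h2
  rintro χ i j ⟨a1, a2⟩ ⟨b1, b2⟩
  by_contra hij
  have hj := relT_mem_J hp₃ a1
  have hi := relT_mem_J hp₃ b1
  have c1 : ∀ l, rtn χ (p l) ≤ rtn χ (p j) := fun l => by
    rcases eq_or_ne l j with rfl | hl
    · exact le_rfl
    · nlinarith [a2 l hl, rtn_nonneg χ (p l)]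
  have c2 : rtn χ (A * p i) ≤ J.card * (C * rtn χ (p j)) := by
    have e : A * p i = ∑ l ∈ J, p l * (A * p i) := by rw [← Finset.sum_mul, hp₁, one_mul]
    rw [e, ← nsmul_eq_mul]
    exact (rtn_sum _ _ _).trans (Finset.sum_le_card_nsmul _ _ _ fun l _ =>
      (rtn_mul_of h0 (hb i hi) _ _).trans (mul_le_mul_of_nonneg_left (c1 l) h0))
  have c3 : K * rtn χ (p j) ≤ K * rtn χ (A * p j) + J.card * (C * rtn χ (p j)) := by
    have e : p j = A * p j + ∑ l ∈ J.erase j, p l * -(A * p j) := by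
      have e1 : A * p j = ∑ l ∈ J, p l * (A * p j) := by rw [← Finset.sum_mul, hp₁, one_mul]
      rw [← Finset.add_sum_erase _ _ hj, ← mul_assoc, hA] at e1
      simp only [mul_neg, Finset.sum_neg_distrib]
      rw [← sub_eq_add_neg, eq_sub_iff_add_eq, ← e1]
    have d1 : rtn χ (p j) ≤ rtn χ (A * p j) + ∑ l ∈ J.erase j, C * rtn χ (p l) := by
      conv_lhs => rw [e]
      refine (rtn_add _ _ _).trans (add_le_add le_rfl ((rtn_sum _ _ _).trans
        (Finset.sum_le_sum fun l _ => rtn_mul_of h0 (fun X => ?_) _ _)))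
      rw [LinearMap.neg_apply, norm_neg]
      exact hb j hj X
    have d2 : K * ∑ l ∈ J.erase j, C * rtn χ (p l) ≤ J.card * (C * rtn χ (p j)) := by
      rw [Finset.mul_sum]
      refine (Finset.sum_le_card_nsmul _ _ (C * rtn χ (p j)) fun l hl => ?_).trans ?_
      · rw [mul_left_comm]
        exact mul_le_mul_of_nonneg_left (a2 l (Finset.ne_of_mem_erase hl)) h0
      · rw [nsmul_eq_mul]
        exact mul_le_mul_of_nonneg_right (Nat.cast_le.2 Finset.card_erase_le)
          (mul_nonneg h0 a1.le)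
    nlinarith
  have c4 : K * rtn χ (A * p j) ≤ rtn χ (A * p i) := b2 j (Ne.symm hij)
  nlinarith

theorem relT_flip {A A' : Module.End k E} (hA : ∀ j, A * p j = p (-j) * A) (h : A * A' = 1) :
    ∀ᶠ K : ℝ in atTop, ∀ χ j, χ ∈ rtD p K j → rtC A χ ∈ rtD p K j → j = 0 := by
  filter_upwards [eventually_ge_atTop 1, eventually_gt_atTop (rtB A * rtB A')] with K h1 h2
  rintro χ j ⟨a1, a2⟩ ⟨-, b2⟩
  by_contra hj
  have hn : -j ≠ j := by omega
  have c1 := a2 _ hn
  have c2 : K * rtn χ (A * p (-j)) ≤ rtn χ (A * p j) := b2 _ hn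
  rw [hA, hA, neg_neg] at c2
  have c3 := rtn_mul χ (p (-j)) A
  have c4 := rtn_mul χ (p j * A) A'
  rw [mul_assoc, h, mul_one] at c4
  have := rtB_nonneg A
  have := rtB_nonneg A'
  have c5 : K * rtn χ (p j) ≤ rtB A * rtB A' * rtn χ (p (-j)) := by nlinarith
  have c6 : K * (K * rtn χ (p j)) ≤ rtB A * rtB A' * rtn χ (p j) := by
    have := mul_le_mul_of_nonneg_left c1 (mul_nonneg (rtB_nonneg A) (rtB_nonneg A'))
    nlinarith
  nlinarith [mul_pos a1 (sub_pos.2 h2), mul_nonneg (mul_nonneg a1.le (sub_nonneg.2 h1))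
    (zero_le_one.trans h1)]

theorem relT_span {Γ : Type} (T : Γ → Module.End k E)
    (hs : Submodule.span k {Y | ∃ g j X, j ≠ 0 ∧ Y = T g (p j X)} = ⊤) :
    ∃ (F : Finset Γ) (C : ℝ), 0 ≤ C ∧ ∀ (χ : Chr E) (t : ℝ), 0 ≤ t →
      (∀ g ∈ F, ∀ j, j ≠ 0 → rtn χ (T g * p j) ≤ t) → rtn χ (1 : Module.End k E) ≤ C * t := by
  classical
  let P : Module.End k E → Prop := fun A => ∃ (F : Finset Γ) (C : ℝ), 0 ≤ C ∧
    ∀ (χ : Chr E) (t : ℝ), 0 ≤ t → (∀ g ∈ F, ∀ j, j ≠ 0 → rtn χ (T g * p j) ≤ t) → rtn χ A ≤ C * t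
  have P0 : P 0 := ⟨∅, 0, le_rfl, fun χ t _ _ => by rw [rtn_zero, zero_mul]⟩
  have Pa : ∀ A B, P A → P B → P (A + B) := by
    rintro A B ⟨F, C, h1, h2⟩ ⟨F', C', h3, h4⟩
    refine ⟨F ∪ F', C + C', add_nonneg h1 h3, fun χ t ht h => (rtn_add _ _ _).trans ?_⟩
    rw [add_mul]
    exact add_le_add (h2 χ t ht fun g hg => h g (Finset.mem_union_left _ hg))
      (h4 χ t ht fun g hg => h g (Finset.mem_union_right _ hg))
  have P1 : ∀ Y : E, ∀ φ : E →ₗ[k] k, P (φ.smulRight Y) := fun Y => by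
    have hY : Y ∈ Submodule.span k {Y | ∃ g j X, j ≠ 0 ∧ Y = T g (p j X)} := hs ▸ trivial
    induction hY using Submodule.span_induction with
    | mem Y hY =>
      obtain ⟨g, j, X, hj, rfl⟩ := hY
      intro φ
      have e : φ.smulRight (T g (p j X)) = T g * p j * φ.smulRight X := by ext; simp
      refine ⟨{g}, rtB (φ.smulRight X), rtB_nonneg _, fun χ t _ h => ?_⟩
      rw [e]
      exact (rtn_mul _ _ _).trans (mul_le_mul_of_nonneg_left
        (h g (Finset.mem_singleton_self g) j hj) (rtB_nonneg _))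
    | zero => exact fun φ => by simpa using P0
    | add Y Y' _ _ h1 h2 =>
      intro φ
      have e : φ.smulRight (Y + Y') = φ.smulRight Y + φ.smulRight Y' := by ext; simp
      rw [e]
      exact Pa _ _ (h1 φ) (h2 φ)
    | smul c Y _ h1 =>
      intro φ
      have e : φ.smulRight (c • Y) = (c • φ).smulRight Y := by ext; simp [smul_smul, mul_comm]
      rw [e]
      exact h1 _
  have e : (1 : Module.End k E) =
      ∑ i, ((Module.finBasis k E).coord i).smulRight (Module.finBasis k E i) := by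
    ext X
    simp
  change P 1
  rw [e]
  exact Finset.sum_induction _ P Pa P0 fun i _ => P1 _ _

theorem relT_idx {Γ : Type} (T : Γ → Module.End k E)
    (hs : Submodule.span k {Y | ∃ g j X, j ≠ 0 ∧ Y = T g (p j X)} = ⊤) :
    ∃ F : Finset Γ, ∀ᶠ K : ℝ in atTop, ∀ χ : Chr E, 0 < rtN χ →
      ¬ ∀ g ∈ F, rtC (T g) χ ∈ rtD p K 0 := by
  obtain ⟨F, C, hC, h⟩ := relT_span T hs
  set C₀ := ∑ g ∈ F, rtB (T g * p 0)
  have h0 : 0 ≤ C₀ := Finset.sum_nonneg fun i _ => rtB_nonneg _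
  refine ⟨F, ?_⟩
  filter_upwards [eventually_gt_atTop 0, eventually_gt_atTop (C * C₀)] with K h1 h2 χ h3 h4
  have h5 := h χ (C₀ * rtN χ / K) (by positivity) fun g hg j hj => by
    rw [le_div_iff₀' h1]
    have a1 := (h4 g hg).2 j hj
    have a2 := rtn_mul χ 1 (T g * p 0)
    rw [rtn_rtC, rtn_rtC] at a1
    rw [one_mul, rtn_one] at a2
    refine a1.trans (a2.trans ?_)
    exact mul_le_mul_of_nonneg_right
      (Finset.single_le_sum (f := fun g => rtB (T g * p 0)) (fun i _ => rtB_nonneg _) hg) h3.le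
  rw [rtn_one, ← mul_div_assoc, le_div_iff₀ h1] at h5
  nlinarith

theorem relT_pow_aux {q K r : ℝ} (h0 : 0 < q) (h1 : q ≤ 1) (h2 : q * K ≤ 1) (hr : 0 ≤ r)
    (hK : 0 ≤ K) {d d' : ℤ} (h : d' < d) (a : 1 < K * (q ^ d * r)) (b : q ^ d' * r ≤ 1) :
    False := by
  have c : q ^ d ≤ q ^ d' * q := by
    rw [← zpow_add_one₀ h0.ne']
    exact zpow_le_zpow_right_of_le_one₀ h0 h1 h
  have c2 : K * (q ^ d * r) ≤ K * (q ^ d' * q * r) := by gcongr
  have c3 : 0 ≤ q * K := by positivity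
  nlinarith

open Classical in
theorem relT_few (hp₁ : ∑ j ∈ J, p j = 1) (hp₃ : ∀ j, j ∉ J → p j = 0) {q K : ℝ} (h0 : 0 < q)
    (h1 : q ≤ 1) (h2 : q * K ≤ 1) (hK : 0 ≤ K) {A : ℕ → Module.End k E} {χ : Chr E}
    (hA : ∀ (l : ℕ) j, rtn χ (A l * p j) = q ^ (j * l) * rtn χ (p j)) (h : 0 < rtN χ) (n : ℕ) :
    ((Finset.range n).filter fun l => rtC (A l) χ ∉ ⋃ j, rtD p K j).card ≤ J.card * J.card := by
  rw [← Finset.card_product]
  obtain ⟨j₀, hj₀, hp⟩ : ∃ j ∈ J, 0 < rtn χ (p j) := by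
    by_contra hn
    push Not at hn
    have := rtn_sum χ J p
    rw [hp₁, rtn_one] at this
    exact (this.trans (Finset.sum_nonpos hn)).not_gt h
  refine Finset.card_le_card_of_forall_subsingleton (fun (l : ℕ) (x : ℤ × ℤ) => x.1 ≠ x.2 ∧
    1 < K * (q ^ ((x.1 - x.2) * l) * (rtn χ (p x.1) / rtn χ (p x.2))) ∧
    q ^ ((x.1 - x.2) * l) * (rtn χ (p x.1) / rtn χ (p x.2)) ≤ 1) (fun l hl => ?_) ?_
  · obtain ⟨j, hj, hm⟩ := J.exists_max_image (fun j => q ^ (j * l) * rtn χ (p j)) ⟨j₀, hj₀⟩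
    have a1 : 0 < q ^ (j * l) * rtn χ (p j) := lt_of_lt_of_le (by positivity) (hm j₀ hj₀)
    have a2 : 0 < rtn χ (p j) := (mul_pos_iff_of_pos_left (by positivity)).1 a1
    obtain ⟨i, hi, a3⟩ : ∃ i, i ≠ j ∧
        q ^ (j * l) * rtn χ (p j) < K * (q ^ (i * l) * rtn χ (p i)) := by
      by_contra hn
      push Not at hn
      refine (Finset.mem_filter.1 hl).2 (Set.mem_iUnion.2 ⟨j, ?_, fun i hi => ?_⟩)
      · rwa [rtn_rtC, hA]
      · rw [rtn_rtC, rtn_rtC, hA, hA]
        exact hn i hi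
    have a4 : 0 < rtn χ (p i) := by
      refine (rtn_nonneg _ _).lt_of_ne fun e => ?_
      rw [← e, mul_zero, mul_zero] at a3
      exact a3.not_gt a1
    have e : q ^ ((i - j) * l) * (rtn χ (p i) / rtn χ (p j)) =
        q ^ (i * l) * rtn χ (p i) / (q ^ (j * l) * rtn χ (p j)) := by
      rw [sub_mul, zpow_sub₀ h0.ne', div_mul_div_comm]
    refine ⟨(i, j), Finset.mem_product.2 ⟨relT_mem_J hp₃ a4, hj⟩, hi, ?_, ?_⟩
    · rw [e, ← mul_div_assoc, one_lt_div a1]
      exact a3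
    · rw [e, div_le_one a1]
      exact hm i (relT_mem_J hp₃ a4)
  · rintro ⟨i, j⟩ - l ⟨-, a1, a2, a3⟩ l' ⟨-, -, b2, b3⟩
    have hr := div_nonneg (rtn_nonneg χ (p i)) (rtn_nonneg χ (p j))
    rcases lt_trichotomy ((i - j) * (l : ℤ)) ((i - j) * l') with c | c | c
    · exact (relT_pow_aux h0 h1 h2 hr hK c b2 a3).elim
    · exact_mod_cast mul_left_cancel₀ (sub_ne_zero.2 a1) c
    · exact (relT_pow_aux h0 h1 h2 hr hK c a2 b3).elim

end lin

section spec

open MeasureTheory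

variable {E H : Type} [NormedAddCommGroup E] [ProperSpace E] [NormedAddCommGroup H]
  [InnerProductSpace ℂ H]

/-- A family of spectral measures. -/
structure RtSpec (ρ : E → H ≃ₗᵢ[ℂ] H) (μ : H → Measure (Chr E)) : Prop where
  add : ∀ v w x, ρ (v + w) x = ρ v (ρ w x)
  fin : ∀ ξ, IsFiniteMeasure (μ ξ)
  cf : ∀ ξ t, ∫ χ, χ.val t ∂μ ξ = ⟪ξ, ρ t ξ⟫_ℂ

variable {ρ : E → H ≃ₗᵢ[ℂ] H} {μ : H → Measure (Chr E)}

theorem relT_int (ν : Measure (Chr E)) [IsFiniteMeasure ν] (t : E) :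
    Integrable (fun χ : Chr E => χ.val t) ν :=
  Integrable.of_bound (relT_meas t).aestronglyMeasurable 1
    (Eventually.of_forall fun χ => (χ.norm t).le)

theorem RtSpec.mass (h : RtSpec ρ μ) (ξ : H) : (μ ξ).real Set.univ = ‖ξ‖ ^ 2 := by
  have r0 : ρ 0 ξ = ξ := (ρ 0).injective (by rw [← h.add, add_zero])
  have h1 := congrArg Complex.re (h.cf ξ 0)
  simp only [relT_zero, integral_const, Complex.real_smul, mul_one, Complex.ofReal_re] at h1
  rwa [r0, ← RCLike.re_to_complex, inner_self_eq_norm_sq] at h1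

theorem RtSpec.par (h : RtSpec ρ μ) (ξ η : H) (A : Set (Chr E)) :
    (μ (ξ + η)).real A ≤ 2 * (μ ξ).real A + 2 * (μ η).real A := by
  have := h.fin
  have e : μ (ξ + η) + μ (ξ - η) = (μ ξ + μ ξ) + (μ η + μ η) := by
    refine Chr.ext_measure _ _ fun t => ?_
    simp only [integral_add_measure (relT_int _ t) (relT_int _ t), h.cf, map_add, map_sub,
      inner_add_left, inner_add_right, inner_sub_left, inner_sub_right]
    ring
  have e1 := congrArg (fun m : Measure (Chr E) => m.real A) e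
  simp only [measureReal_add_apply (measure_ne_top _ _) (measure_ne_top _ _)] at e1
  have := measureReal_nonneg (μ := μ (ξ - η)) (s := A)
  linarith

theorem RtSpec.near (h : RtSpec ρ μ) (ξ η : H) (A : Set (Chr E)) :
    (μ ξ).real A ≤ 2 * (μ η).real A + 2 * ‖ξ - η‖ ^ 2 := by
  have := h.fin
  have h1 := h.par η (ξ - η) A
  have h2 : (μ (ξ - η)).real A ≤ ‖ξ - η‖ ^ 2 :=
    (measureReal_mono (Set.subset_univ A)).trans_eq (h.mass _)
  rw [add_sub_cancel] at h1
  linarith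

theorem RtSpec.map (h : RtSpec ρ μ) (U : H ≃ₗᵢ[ℂ] H) {M : Chr E → Chr E} {L : E → E}
    (hM : Measurable M) (hL : ∀ χ t, (M χ).val t = χ.val (L t))
    (hU : ∀ t x, U (ρ t x) = ρ (L t) (U x)) (ξ : H) {A : Set (Chr E)} (hA : MeasurableSet A) :
    (μ ξ).real A = (μ (U ξ)).real (M ⁻¹' A) := by
  have := h.fin
  have e : μ ξ = (μ (U ξ)).map M := by
    refine Chr.ext_measure _ _ fun t => ?_
    rw [integral_map hM.aemeasurable (relT_meas t).aestronglyMeasurable]
    simp only [hL]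
    rw [h.cf, h.cf, ← hU, U.inner_map_map]
  rw [e, map_measureReal_apply hM hA]

theorem RtSpec.zero (h : RtSpec ρ μ) (v : E) (η : H) :
    (μ (ρ v η - η)).real {χ | rtN χ = 0} = 0 := by
  have := h.fin
  have hc : Measurable fun χ : Chr E => ‖χ.val v - 1‖ ^ 2 :=
    ((relT_meas v).sub measurable_const).norm.pow_const 2
  have hi : Integrable (fun χ : Chr E => ‖χ.val v - 1‖ ^ 2) (μ η) :=
    Integrable.of_bound hc.aestronglyMeasurable (2 ^ 2) (Eventually.of_forall fun χ => by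
      rw [norm_pow, norm_norm]
      refine pow_le_pow_left₀ (norm_nonneg _) ((norm_sub_le _ _).trans ?_) 2
      rw [χ.norm, norm_one]
      norm_num)
  have := isFiniteMeasure_withDensity_ofReal hi.2
  have e : μ (ρ v η - η) = (μ η).withDensity fun χ => ENNReal.ofReal (‖χ.val v - 1‖ ^ 2) := by
    refine Chr.ext_measure _ _ fun t => ?_
    have e1 : ∀ χ : Chr E, (‖χ.val v - 1‖ ^ 2 : ℝ) • χ.val t =
        2 * χ.val t - χ.val (t + v) - χ.val (t - v) := fun χ => by
      have a1 : χ.val t = χ.val (t - v) * χ.val v := by rw [← χ.add, sub_add_cancel]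
      have a2 : (starRingEnd ℂ) (χ.val v) * χ.val v = 1 := by
        rw [Complex.conj_mul', χ.norm]; simp
      rw [Complex.real_smul, Complex.ofReal_pow, ← Complex.conj_mul', map_sub, map_one, χ.add, a1]
      linear_combination (χ.val (t - v) * (χ.val v - 1)) * a2
    have i1 : Integrable (fun χ : Chr E => 2 * χ.val t - χ.val (t + v)) (μ η) :=
      ((relT_int _ t).const_mul 2).sub (relT_int _ _)
    have e2 : ρ t (ρ v η) = ρ v (ρ t η) := by rw [← h.add, ← h.add, add_comm]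
    have e3 : ⟪ρ v η, ρ t η⟫_ℂ = ⟪η, ρ (t - v) η⟫_ℂ := by
      rw [← (ρ v).inner_map_map η, ← h.add, add_sub_cancel]
    rw [integral_withDensity_eq_integral_toReal_smul hc.ennreal_ofReal
      (Eventually.of_forall fun _ => ENNReal.ofReal_lt_top)]
    simp only [ENNReal.toReal_ofReal (sq_nonneg _), e1]
    rw [integral_sub i1 (relT_int _ _), integral_sub ((relT_int _ t).const_mul 2) (relT_int _ _),
      integral_const_mul]
    simp only [h.cf, map_sub, inner_sub_left, inner_sub_right, h.add]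
    rw [e3, e2, (ρ v).inner_map_map]
    ring
  have hm : MeasurableSet {χ : Chr E | rtN χ = 0} := measurableSet_eq_fun rtN_meas measurable_const
  rw [measureReal_def, e, withDensity_apply _ hm, setLIntegral_eq_zero hm fun χ hχ => ?_]
  · rfl
  · have := le_rtN χ v
    rw [hχ, zero_mul, norm_le_zero_iff] at this
    simp [this]

theorem RtSpec.atom [CompleteSpace H] (h : RtSpec ρ μ) (hn : ∀ w, (∀ t, ρ t w = w) → w = 0)
    (ξ : H) : μ ξ {χ | rtN χ = 0} = 0 := by
  have := h.fin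
  let S : Submodule ℂ H :=
    { carrier := {x | ∀ c : ℂ, (μ (c • x)).real {χ | rtN χ = 0} = 0}
      add_mem' := fun {a b} ha hb c => by
        refine le_antisymm ?_ measureReal_nonneg
        have := h.par (c • a) (c • b) {χ | rtN χ = 0}
        rw [ha c, hb c, ← smul_add] at this
        linarith
      zero_mem' := fun c => by
        refine le_antisymm ((measureReal_mono (Set.subset_univ _)).trans_eq ?_) measureReal_nonneg
        rw [h.mass, smul_zero, norm_zero, zero_pow two_ne_zero]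
      smul_mem' := fun c x hx d => by
        rw [smul_smul]
        exact hx _ }
  have hS : Sᗮ = ⊥ := by
    refine (Submodule.eq_bot_iff _).2 fun w hw => hn w fun t => ?_
    have h1 : ∀ η, ⟪ρ (-t) η - η, w⟫_ℂ = 0 := fun η => hw _ fun c => by
      rw [smul_sub, ← map_smul]
      exact h.zero _ _
    refine ext_inner_left ℂ fun η => ?_
    have h2 := h1 η
    rw [inner_sub_left, sub_eq_zero, ← (ρ t).inner_map_map, ← h.add, add_neg_cancel] at h2
    have r0 : ρ 0 η = η := (ρ 0).injective (by rw [← h.add, add_zero])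
    rwa [r0] at h2
  rw [← measureReal_eq_zero_iff]
  refine le_antisymm (le_of_forall_pos_le_add fun δ hδ => ?_) measureReal_nonneg
  obtain ⟨η, hη, hd⟩ := (Submodule.dense_iff_topologicalClosure_eq_top.2
    (Submodule.topologicalClosure_eq_top_iff.2 hS)).exists_dist_lt ξ
    (lt_min hδ (by norm_num : (0 : ℝ) < 1 / 2))
  have h1 := h.near ξ η {χ | rtN χ = 0}
  have h2 := hη 1
  rw [one_smul] at h2
  rw [dist_eq_norm, lt_min_iff] at hd
  nlinarith [norm_nonneg (ξ - η), hd.1, hd.2]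

open Classical in
theorem relT_count {X : Type} [MeasurableSpace X] (ν : Measure X) [IsFiniteMeasure ν]
    {S : ℕ → Set X} (hS : ∀ l, MeasurableSet (S l)) (n N : ℕ)
    (h : ∀ᵐ x ∂ν, ((Finset.range n).filter fun l => x ∈ S l).card ≤ N) :
    ∑ l ∈ Finset.range n, ν.real (S l) ≤ N * ν.real Set.univ := by
  have hi : ∀ l ∈ Finset.range n, Integrable ((S l).indicator (1 : X → ℝ)) ν := fun l _ =>
    (integrable_const 1).indicator (hS l)
  simp only [← integral_indicator_one (hS _)]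
  rw [← integral_finsetSum _ hi, mul_comm, ← smul_eq_mul, ← integral_const]
  refine integral_mono_ae (integrable_finsetSum _ hi) (integrable_const _) ?_
  filter_upwards [h] with x hx
  simp only [Set.indicator_apply, Pi.one_apply, Finset.sum_boole]
  exact_mod_cast hx

end spec

theorem relT_num {M N n ε x : ℝ} (m0 : 0 ≤ M) (n0 : 0 ≤ N) (hε : ε = 1 / (12 * M + 1))
    (e2 : n = 8 * M * N + 1) (s2 : n * x ≤ 2 * N + n * (2 * ε ^ 2))
    (s3 : 1 ≤ M * (2 * x + 2 * ε ^ 2)) : False := by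
  have e0 : 0 < ε := by rw [hε]; positivity
  have e1 : ε * (12 * M + 1) = 1 := by rw [hε]; field_simp
  have e3 : 12 * M * ε ^ 2 < 1 := by nlinarith [mul_nonneg m0 e0.le]
  have e4 : 0 < n := by rw [e2]; positivity
  have s4 := mul_le_mul_of_nonneg_left s2 m0
  have s5 := mul_le_mul_of_nonneg_left s3 e4.le
  nlinarith [mul_lt_mul_of_pos_left e3 e4]

theorem rel_T {k : Type} [NontriviallyNormedField k] [ProperSpace k] {E : Type}
    [NormedAddCommGroup E] [NormedSpace k E] [FiniteDimensional k E] {Γ : Type} [Group Γ]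
    (T : Γ →* Module.End k E) (J : Finset ℤ) (p : ℤ → Module.End k E)
    (hp₁ : ∑ j ∈ J, p j = 1) (hp₂ : ∀ i j, i ≠ j → p i * p j = 0) (hp₃ : ∀ j, j ∉ J → p j = 0)
    {c : k} (hc₀ : c ≠ 0) (hc₁ : ‖c‖ < 1) {b u r u' : Γ} (hb : ∀ j, T b * p j = (c ^ j) • p j)
    (hu : ∀ j, p j * T u * p j = p j) (hr : ∀ j, p j * T r * p j = p j)
    (hu' : ∀ j, p j * T u' * p j = p j) (hn : ∀ j, T (u * r * u') * p j = p (-j) * T (u * r * u'))
    (hs : Submodule.span k {Y | ∃ g j X, j ≠ 0 ∧ Y = T g (p j X)} = ⊤) :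
    ∃ (F : Finset Γ) (ε : ℝ), 0 < ε ∧ ∀ (H : Type) [NormedAddCommGroup H] [InnerProductSpace ℂ H]
      [CompleteSpace H] (U : Γ →* (H ≃ₗᵢ[ℂ] H)) (ρ : E → H ≃ₗᵢ[ℂ] H),
      (∀ X Y v, ρ (X + Y) v = ρ X (ρ Y v)) → (∀ v, Continuous fun X => ρ X v) →
      (∀ g X v, U g (ρ X v) = ρ (T g X) (U g v)) →
      (∃ ξ, ‖ξ‖ = 1 ∧ ∀ g ∈ F, ‖U g ξ - ξ‖ < ε) → ∃ w, w ≠ 0 ∧ ∀ X, ρ X w = w := by
  classical
  have := FiniteDimensional.proper k E
  obtain ⟨F₀, h₀⟩ := relT_idx (p := p) T hs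
  obtain ⟨K, hK, k0, k1, k2, k3, k4⟩ := ((eventually_gt_atTop (0 : ℝ)).and (h₀.and
    ((relT_keep hp₁ hp₃ hu).and ((relT_keep hp₁ hp₃ hr).and ((relT_keep hp₁ hp₃ hu').and
    (relT_flip hn (A' := T (u * r * u')⁻¹) (by rw [← map_mul, mul_inv_cancel, map_one]))))))).exists
  have c0 : 0 < ‖c‖ := norm_pos_iff.2 hc₀
  obtain ⟨m, hm⟩ := exists_pow_lt_of_lt_one (inv_pos.2 hK) hc₁
  have hb' : ∀ (N : ℕ) j, T (b ^ N) * p j = (c ^ j) ^ N • p j := fun N j => by
    induction N with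
    | zero => simp
    | succ N ih => rw [pow_succ, map_mul, mul_assoc, hb, mul_smul_comm, ih, smul_smul, pow_succ']
  set F₁ := Finset.image₂ (· * ·) (insert 1 F₀) {1, u, u * r, u * r * u'} with hF₁
  set B : Set (Chr E) := (⋃ j, rtD p K j)ᶜ with hB
  have mB : MeasurableSet B := (MeasurableSet.iUnion (rtD_meas p K)).compl
  have key : ∀ χ : Chr E, ∃ g ∈ F₁, rtC (T g) χ ∈ B := fun χ => by
    by_contra hn
    push Not at hn
    have a0 : ∀ g ∈ insert 1 F₀, ∀ w ∈ ({1, u, u * r, u * r * u'} : Finset Γ),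
        ∃ j, rtC (T (g * w)) χ ∈ rtD p K j := fun g hg w hw =>
      Set.mem_iUnion.1 (not_not.1 (hn _ (Finset.mem_image₂_of_mem hg hw)))
    have a1 : ∀ g ∈ insert 1 F₀, rtC (T g) χ ∈ rtD p K 0 := fun g hg => by
      obtain ⟨j₀, b0⟩ := a0 g hg 1 (by simp)
      obtain ⟨j₁, b1⟩ := a0 g hg u (by simp)
      obtain ⟨j₂, b2⟩ := a0 g hg (u * r) (by simp)
      obtain ⟨j₃, b3⟩ := a0 g hg (u * r * u') (by simp)
      rw [mul_one] at b0
      obtain rfl := k1 _ j₁ j₀ b0 (by rwa [rtC_mul, ← map_mul])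
      obtain rfl := k2 _ j₂ j₁ b1 (by rwa [rtC_mul, ← map_mul, mul_assoc])
      obtain rfl := k3 _ j₃ j₂ b2 (by rwa [rtC_mul, ← map_mul, mul_assoc])
      obtain rfl := k4 _ j₃ b0 (by rwa [rtC_mul, ← map_mul])
      exact b0
    refine k0 χ ((rtN_nonneg χ).lt_of_ne fun e => ?_) fun g hg => a1 g (Finset.mem_insert_of_mem hg)
    have a2 := (a1 1 (Finset.mem_insert_self _ _)).1
    have a3 := rtn_mul χ 1 (p 0)
    rw [rtn_rtC, map_one] at a2
    rw [rtn_one, ← e, mul_zero] at a3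
    exact a2.not_ge a3
  set M := F₁.card
  set N := J.card * J.card
  set n := 8 * M * N + 1 with hn'
  refine ⟨F₁ ∪ (Finset.range n).image fun l => b ^ (m * l), 1 / (12 * M + 1), by positivity, ?_⟩
  rintro H _ _ _ U ρ hadd hc hU ⟨ξ, h1, hξ⟩
  by_contra hw
  choose μ hf hμ using exists_spec ρ hadd hc
  have h : RtSpec ρ μ := ⟨hadd, hf, hμ⟩
  set ε : ℝ := 1 / (12 * M + 1) with hε
  have hmap : ∀ g, (μ ξ).real B = (μ (U g ξ)).real (rtC (T g) ⁻¹' B) := fun g =>
    h.map (U g) (rtC_meas (T g)) (fun _ _ => rfl) (hU g) ξ mB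
  have s1 : ∑ l ∈ Finset.range n, (μ ξ).real (rtC (T (b ^ (m * l))) ⁻¹' B) ≤ N := by
    have := relT_count (μ ξ) (S := fun l => rtC (T (b ^ (m * l))) ⁻¹' B)
      (fun l => rtC_meas _ mB) n N ?_
    · rwa [h.mass, h1, one_pow, mul_one] at this
    have a := h.atom (fun w hw' => by_contra fun h0 => hw ⟨w, h0, hw'⟩) ξ
    filter_upwards [MeasureTheory.measure_eq_zero_iff_ae_notMem.1 a] with χ hχ
    have := relT_few hp₁ hp₃ (pow_pos c0 m) (pow_le_one₀ c0.le hc₁.le)
      (by rw [← le_div_iff₀ hK, one_div]; exact hm.le) hK.le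
      (A := fun l => T (b ^ (m * l))) (χ := χ) (fun l j => by
        rw [hb', rtn_smul _ (pow_ne_zero _ (zpow_ne_zero _ hc₀)), norm_pow, norm_zpow,
          ← zpow_natCast, ← zpow_natCast, ← _root_.zpow_mul, ← _root_.zpow_mul]
        congr 2
        push_cast
        ring) ((rtN_nonneg χ).lt_of_ne' hχ) n
    convert this
  have s2 : n * (μ ξ).real B ≤ 2 * N + n * (2 * ε ^ 2) := by
    have : ∀ l ∈ Finset.range n, (μ ξ).real B ≤
        2 * (μ ξ).real (rtC (T (b ^ (m * l))) ⁻¹' B) + 2 * ε ^ 2 := fun l hl => by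
      rw [hmap (b ^ (m * l))]
      refine (h.near _ ξ _).trans ?_
      have := hξ _ (Finset.mem_union_right _ (Finset.mem_image_of_mem _ hl))
      gcongr
    have := Finset.sum_le_sum this
    simp only [Finset.sum_const, Finset.card_range, nsmul_eq_mul, Finset.sum_add_distrib,
      ← Finset.mul_sum] at this
    linarith
  have s3 : 1 ≤ M * (2 * (μ ξ).real B + 2 * ε ^ 2) := by
    have a1 : (Set.univ : Set (Chr E)) ⊆ ⋃ g ∈ F₁, rtC (T g) ⁻¹' B := fun χ _ => by
      obtain ⟨g, hg, a⟩ := key χ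
      exact Set.mem_biUnion hg a
    have a2 := (MeasureTheory.measureReal_mono (μ := μ ξ) a1
      (MeasureTheory.measure_ne_top _ _)).trans
      (MeasureTheory.measureReal_biUnion_finset_le _ _)
    rw [h.mass, h1, one_pow] at a2
    rw [← nsmul_eq_mul]
    refine a2.trans (Finset.sum_le_card_nsmul _ _ _ fun g hg => ?_)
    rw [hmap g]
    refine (h.near _ (U g ξ) _).trans ?_
    have := hξ _ (Finset.mem_union_left _ hg)
    rw [norm_sub_rev]
    gcongr
  exact relT_num (Nat.cast_nonneg M) (Nat.cast_nonneg N) hε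
    (by rw [hn', Nat.cast_add, Nat.cast_mul, Nat.cast_mul, Nat.cast_one, Nat.cast_ofNat]) s2 s3

theorem relT_fix {G H : Type} [Group G] [NormedAddCommGroup H] [InnerProductSpace ℂ H]
    [CompleteSpace H] (π : G →* (H ≃ₗᵢ[ℂ] H)) {v : H} {δ : ℝ} (h : ∀ g, ‖π g v - v‖ ≤ δ)
    (hv : δ < ‖v‖) : ∃ w, w ≠ 0 ∧ ∀ g, π g w = w := by
  let : InnerProductSpace ℝ H := InnerProductSpace.complexToReal
  set C : Set H := ⋂ g, Metric.closedBall (π g v) δ with hC
  have hCm : ∀ ζ, ζ ∈ C ↔ ∀ g, ‖ζ - π g v‖ ≤ δ := fun ζ => by simp [hC, dist_eq_norm]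
  have hne : C.Nonempty := ⟨v, (hCm _).2 fun g => by rw [norm_sub_rev]; exact h g⟩
  have hcl : IsClosed C := isClosed_iInter fun w => Metric.isClosed_closedBall
  have hcv : Convex ℝ C := convex_iInter fun w => convex_closedBall _ _
  obtain ⟨ζ, hζ, hmin⟩ := exists_norm_eq_iInf_of_complete_convex hne hcl.isComplete hcv 0
  have hle : ∀ y ∈ C, ‖ζ‖ ≤ ‖y‖ := fun y hy => by
    have : (⨅ w : C, ‖(0 : H) - w‖) ≤ ‖(0 : H) - (⟨y, hy⟩ : C)‖ :=
      ciInf_le ⟨0, Set.forall_mem_range.2 fun _ => norm_nonneg _⟩ _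
    rw [← hmin] at this
    simpa using this
  refine ⟨ζ, fun e => ?_, fun g => ?_⟩
  · have := (hCm _).1 hζ 1
    rw [e, zero_sub, norm_neg, (π 1).norm_map] at this
    exact this.not_gt hv
  have h1 : π g ζ ∈ C := (hCm _).2 fun g' => by
    have : π g' v = π g (π (g⁻¹ * g') v) := by
      conv_lhs => rw [← mul_inv_cancel_left g g', map_mul]
      rfl
    rw [this, ← map_sub, (π g).norm_map]
    exact (hCm _).1 hζ _
  have h2 := hle _ (hcv h1 hζ (a := 1 / 2) (b := 1 / 2) (by norm_num) (by norm_num) (by norm_num))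
  rw [← smul_add, norm_smul] at h2
  have h3 := parallelogram_law_with_norm ℂ (π g ζ) ζ
  rw [(π g).norm_map] at h3
  have h4 : 2 * ‖ζ‖ ≤ ‖π g ζ + ζ‖ := by
    rw [Real.norm_of_nonneg (by norm_num)] at h2
    linarith
  have h5 := pow_le_pow_left₀ (by positivity) h4 2
  have h6 : ‖π g ζ - ζ‖ = 0 := by
    apply pow_eq_zero_iff (two_ne_zero) |>.1
    nlinarith [sq_nonneg ‖π g ζ - ζ‖]
  exact sub_eq_zero.1 (norm_eq_zero.1 h6)

theorem hasT_of_normal {G : Type} [Group G] [TopologicalSpace G] [IsTopologicalGroup G]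
    (L : Subgroup G) [L.Normal] {C : Set G} (hC : IsCompact C)
    (hCL : ∀ g : G, ∃ c ∈ C, ∃ l ∈ L, g = c * l) (F : Finset G) {ε : ℝ} (hε : 0 < ε)
    (h : ∀ (H : Type) [NormedAddCommGroup H] [InnerProductSpace ℂ H] [CompleteSpace H]
      (π : G →* (H ≃ₗᵢ[ℂ] H)), (∀ v, Continuous fun g => π g v) →
      (∃ ξ, ‖ξ‖ = 1 ∧ ∀ g ∈ F, ‖π g ξ - ξ‖ < ε) → ∃ w, w ≠ 0 ∧ ∀ l ∈ L, π l w = w) :
    H3Z.HasT G := by
  refine ⟨C ∪ F, min (ε / 2) (1 / 4), hC.union F.finite_toSet.isCompact, by positivity, ?_⟩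
  rintro H _ _ _ π hπ ⟨v, h1, hv⟩
  have hm : ∀ a b x, π (a * b) x = π a (π b x) := fun a b x => by rw [map_mul]; rfl
  have h0 : ∀ x, π 1 x = x := fun x => by rw [map_one]; rfl
  let K : Submodule ℂ H :=
    { carrier := {x | ∀ l ∈ L, π l x = x}
      add_mem' := fun ha hb l hl => by rw [map_add, ha l hl, hb l hl]
      zero_mem' := fun l _ => map_zero _
      smul_mem' := fun c x hx l hl => by rw [map_smul, hx l hl] }
  have cK : IsClosed (K : Set H) := by
    change IsClosed {x | ∀ l ∈ L, π l x = x}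
    simp only [Set.ofPred_forall]
    exact isClosed_iInter fun l => isClosed_iInter fun _ =>
      isClosed_eq (π l).continuous continuous_id
  have := cK.completeSpace_coe
  have i1 : ∀ g, ∀ x ∈ K, π g x ∈ K := fun g x hx l hl => by
    have := hx _ (Subgroup.Normal.conj_mem' inferInstance l hl g)
    rw [← hm, show l * g = g * (g⁻¹ * l * g) by group, hm, this]
  have i2 : ∀ g, ∀ x ∈ Kᗮ, π g x ∈ Kᗮ := fun g x hx y hy => by
    rw [← h0 y, ← mul_inv_cancel g, hm, (π g).inner_map_map]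
    exact hx _ (i1 _ _ hy)
  have i3 : ∀ g x, K.starProjection (π g x) = π g (K.starProjection x) := fun g x => by
    refine Submodule.eq_starProjection_of_mem_orthogonal
      (i1 _ _ (K.starProjection_apply_mem x)) ?_
    rw [← map_sub]
    exact i2 _ _ (K.sub_starProjection_mem_orthogonal x)
  let π' : G →* (Kᗮ ≃ₗᵢ[ℂ] Kᗮ) :=
    { toFun := fun g =>
        { toFun := fun x => ⟨π g x, i2 g _ x.2⟩
          invFun := fun x => ⟨π g⁻¹ x, i2 _ _ x.2⟩
          map_add' := fun x y => Subtype.ext (map_add (π g) x.1 y.1)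
          map_smul' := fun c x => Subtype.ext (map_smul (π g) c x.1)
          left_inv := fun x => Subtype.ext (by simp)
          right_inv := fun x => Subtype.ext (by simp)
          norm_map' := fun x => (π g).norm_map x.1 }
      map_one' := LinearIsometryEquiv.ext fun x => Subtype.ext (h0 x.1)
      map_mul' := fun g g' => LinearIsometryEquiv.ext fun x => Subtype.ext (hm g g' x.1) }
  let y : Kᗮ := ⟨v - K.starProjection v, K.sub_starProjection_mem_orthogonal v⟩
  have a1 : ‖y‖ ≤ 1 / 2 := by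
    by_contra hy
    rw [not_le] at hy
    have y0 : 0 < ‖y‖ := by linarith
    obtain ⟨w, w0, hw⟩ := h Kᗮ π' (fun x => (hπ x.1).subtype_mk _)
      ⟨(‖y‖⁻¹ : ℂ) • y, by
        rw [norm_smul, norm_inv, Complex.norm_real, norm_norm, inv_mul_cancel₀ y0.ne'],
      fun g hg => by
        rw [map_smul, ← smul_sub, norm_smul, norm_inv, Complex.norm_real, norm_norm,
          inv_mul_lt_iff₀ y0]
        have e : ‖π' g y - y‖ = ‖Kᗮ.starProjection (π g v - v)‖ := by
          rw [Submodule.starProjection_orthogonal_val, map_sub, i3]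
          change ‖π g (v - K.starProjection v) - (v - K.starProjection v)‖ = _
          rw [map_sub]
          congr 1
          abel
        have := (lt_min_iff.1 (hv g (Or.inr hg))).1
        rw [e]
        nlinarith [Kᗮ.norm_starProjection_apply_le (π g v - v)]⟩
    have : w.1 ∈ K := fun l hl => congrArg Subtype.val (hw l hl)
    exact w0 (Subtype.ext (inner_self_eq_zero.1 (w.2 w.1 this)))
  have a2 : 1 / 2 ≤ ‖K.starProjection v‖ := by
    have := norm_sub_norm_le v (K.starProjection v)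
    change ‖v - K.starProjection v‖ ≤ 1 / 2 at a1
    linarith
  refine relT_fix π (v := K.starProjection v) (δ := 1 / 4) (fun g => ?_) (by linarith)
  obtain ⟨c, hc, l, hl, rfl⟩ := hCL g
  rw [hm, K.starProjection_apply_mem v l hl, ← i3, ← map_sub]
  exact (K.norm_starProjection_apply_le _).trans (lt_min_iff.1 (hv c (Or.inl hc))).2.le

end Pool.Agent.Lib.MP_60cbcc_al.H3A
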