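import Pool.Agent.Lib.MP_60cbcc_al.H3ABase

/-!
Polynomial functions on a matrix group.
-/

namespace Pool.Agent.Lib.MP_60cbcc_al.H3A

open Matrix Filter Topology

set_option linter.unusedSectionVars false

variable {k : Type} [Field k] {ν : Type} [Fintype ν] [DecidableEq ν]
  {G : Subgroup (GL ν k)}

theorem Reg.const (c : k) : Reg G fun _ => c := ⟨MvPolynomial.C c, fun _ _ => by simp [ev]⟩

theorem Reg.entry (i j : ν) : Reg G fun g => g.1 i j :=
  ⟨MvPolynomial.X (i, j), fun _ _ => by simp [ev]⟩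

theorem Reg.congr {f f' : GL ν k → k} (hf : Reg G f) (h : ∀ g ∈ G, f g = f' g) : Reg G f' :=
  hf.imp fun _ hp g hg => (h g hg).symm.trans (hp g hg)

theorem Reg.mono {f : GL ν k → k} (hf : Reg G f) {H : Subgroup (GL ν k)} (h : H ≤ G) :
    Reg H f := hf.imp fun _ hp g hg => hp g (h hg)

theorem Reg.add {f f' : GL ν k → k} (hf : Reg G f) (hf' : Reg G f') :
    Reg G fun g => f g + f' g := by
  obtain ⟨p, hp⟩ := hf
  obtain ⟨q, hq⟩ := hf'
  exact ⟨p + q, fun g hg => by simp [hp g hg, hq g hg, ev]⟩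

theorem Reg.mul {f f' : GL ν k → k} (hf : Reg G f) (hf' : Reg G f') :
    Reg G fun g => f g * f' g := by
  obtain ⟨p, hp⟩ := hf
  obtain ⟨q, hq⟩ := hf'
  exact ⟨p * q, fun g hg => by simp [hp g hg, hq g hg, ev]⟩

theorem Reg.neg {f : GL ν k → k} (hf : Reg G f) : Reg G fun g => -f g :=
  ((Reg.const (-1)).mul hf).congr fun _ _ => neg_one_mul _

theorem Reg.sub {f f' : GL ν k → k} (hf : Reg G f) (hf' : Reg G f') :
    Reg G fun g => f g - f' g := (hf.add hf'.neg).congr fun _ _ => (sub_eq_add_neg _ _).symm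

theorem Reg.pow {f : GL ν k → k} (hf : Reg G f) (n : ℕ) : Reg G fun g => f g ^ n := by
  induction n with
  | zero => exact (Reg.const 1).congr fun _ _ => (pow_zero _).symm
  | succ n ih => exact (ih.mul hf).congr fun _ _ => (pow_succ _ _).symm

theorem Reg.sum {ι : Type} (s : Finset ι) {f : ι → GL ν k → k} (h : ∀ i ∈ s, Reg G (f i)) :
    Reg G fun g => ∑ i ∈ s, f i g := by
  classical
  induction s using Finset.induction_on with
  | empty => exact (Reg.const 0).congr fun _ _ => by simp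
  | insert a s ha ih =>
    exact ((h a (Finset.mem_insert_self a s)).add (ih fun i hi =>
      h i (Finset.mem_insert_of_mem hi))).congr fun _ _ => by rw [Finset.sum_insert ha]

theorem Reg.prod {ι : Type} (s : Finset ι) {f : ι → GL ν k → k} (h : ∀ i ∈ s, Reg G (f i)) :
    Reg G fun g => ∏ i ∈ s, f i g := by
  classical
  induction s using Finset.induction_on with
  | empty => exact (Reg.const 1).congr fun _ _ => by simp
  | insert a s ha ih =>
    exact ((h a (Finset.mem_insert_self a s)).mul (ih fun i hi =>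
      h i (Finset.mem_insert_of_mem hi))).congr fun _ _ => by rw [Finset.prod_insert ha]

theorem Reg.matmul {m m' m'' : Type} [Fintype m'] {F : GL ν k → Matrix m m' k}
    {F' : GL ν k → Matrix m' m'' k} (h : ∀ a b, Reg G fun g => F g a b)
    (h' : ∀ a b, Reg G fun g => F' g a b) (a : m) (b : m'') :
    Reg G fun g => (F g * F' g) a b :=
  (Reg.sum Finset.univ fun c _ => (h a c).mul (h' c b)).congr fun _ _ => Matrix.mul_apply.symm

theorem Reg.det {m : Type} [Fintype m] [DecidableEq m] {F : GL ν k → Matrix m m k}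
    (h : ∀ a b, Reg G fun g => F g a b) : Reg G fun g => (F g).det :=
  (Reg.sum Finset.univ fun σ _ => (Reg.const ((Equiv.Perm.sign σ : ℤ) : k)).mul
    (Reg.prod Finset.univ fun i _ => h (σ i) i)).congr fun _ _ => (Matrix.det_apply' _).symm

theorem Reg.ev {m : Type} {F : GL ν k → Matrix m m k} (h : ∀ a b, Reg G fun g => F g a b)
    (p : MvPolynomial (m × m) k) : Reg G fun g => ev (F g) p := by
  induction p using MvPolynomial.induction_on with
  | C a => exact (Reg.const a).congr fun _ _ => by simp [H3A.ev]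
  | add p q hp hq => exact (hp.add hq).congr fun _ _ => by simp [H3A.ev]
  | mul_X p i hp => exact (hp.mul (h i.1 i.2)).congr fun _ _ => by simp [H3A.ev]

theorem Reg.comp {m : Type} [Fintype m] [DecidableEq m] {G' : Subgroup (GL m k)}
    {f : GL m k → k} (hf : Reg G' f) {F : GL ν k → GL m k} (hF : ∀ g ∈ G, F g ∈ G')
    (h : ∀ a b, Reg G fun g => (F g).1 a b) : Reg G fun g => f (F g) := by
  obtain ⟨p, hp⟩ := hf
  exact (Reg.ev h p).congr fun g hg => (hp _ (hF g hg)).symm

theorem Reg.inv_entry (hd : ∀ g ∈ G, g.1.det = 1) (i j : ν) :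
    Reg G fun g => (g⁻¹).1 i j := by
  refine (Reg.det (F := fun g => g.1.updateRow j (Pi.single i 1)) fun a b => ?_).congr
    fun g hg => ?_
  · by_cases h : a = j
    · exact (Reg.const ((Pi.single i 1 : ν → k) b)).congr fun _ _ => by
        rw [Matrix.updateRow_apply, if_pos h]
    · exact (Reg.entry a b).congr fun _ _ => by rw [Matrix.updateRow_apply, if_neg h]
  · rw [Matrix.coe_units_inv, Matrix.inv_def, hd g hg, Ring.inverse_one, one_smul,
      Matrix.adjugate_apply]

theorem Reg.transl {f : GL ν k → k} (hf : Reg G f) {a b : GL ν k} (ha : a ∈ G) (hb : b ∈ G) :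
    Reg G fun g => f (a * g * b) :=
  hf.comp (fun _ hg => G.mul_mem (G.mul_mem ha hg) hb) fun i j =>
    Reg.matmul (F := fun g => a.1 * g.1) (F' := fun _ => b.1)
      (Reg.matmul (F := fun _ => a.1) (fun _ _ => Reg.const _) Reg.entry)
      (fun _ _ => Reg.const _) i j

theorem Reg.inv (hd : ∀ g ∈ G, g.1.det = 1) {f : GL ν k → k} (hf : Reg G f) :
    Reg G fun g => f g⁻¹ := hf.comp (fun _ hg => G.inv_mem hg) (Reg.inv_entry hd)

theorem Reg.Dl (y : ν → ℝ) (a : ℝ) : Reg G fun g => Dl y a g.1 :=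
  Reg.det fun i j => ((Reg.matmul (F := fun g => prj _ * g.1) (F' := fun _ => prj _)
    (Reg.matmul (F := fun _ => prj _) (fun _ _ => Reg.const _) Reg.entry)
      (fun _ _ => Reg.const _) i j).add (Reg.const _)).congr fun _ _ => rfl

theorem Reg.DD (y : ν → ℝ) : Reg G fun g => DD y g.1 :=
  Reg.prod Finset.univ fun l _ => Reg.Dl y (y l)

/-- The standard representation. -/
theorem rep_std : Rep G fun g => g.1 := ⟨rfl, fun _ _ _ _ => rfl, Reg.entry⟩

theorem Rep.inv_mul {m : Type} [Fintype m] [DecidableEq m] {ρ : GL ν k → Matrix m m k}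
    (hρ : Rep G ρ) {g : GL ν k} (hg : g ∈ G) : ρ g⁻¹ * ρ g = 1 ∧ ρ g * ρ g⁻¹ = 1 :=
  ⟨by rw [← hρ.mul _ (G.inv_mem hg) _ hg, inv_mul_cancel, hρ.one],
    by rw [← hρ.mul _ hg _ (G.inv_mem hg), mul_inv_cancel, hρ.one]⟩

theorem Rep.pow {m : Type} [Fintype m] [DecidableEq m] {ρ : GL ν k → Matrix m m k}
    (hρ : Rep G ρ) {g : GL ν k} (hg : g ∈ G) (n : ℕ) : ρ (g ^ n) = ρ g ^ n := by
  induction n with
  | zero => rw [pow_zero, pow_zero, hρ.one]
  | succ n ih => rw [pow_succ, pow_succ, hρ.mul _ (G.pow_mem hg n) _ hg, ih]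

theorem Coch.one {μ : kˣ → GL ν k} (h : Coch G μ) : μ 1 = 1 := by
  obtain ⟨⟨a, y, e⟩, -⟩ := h
  rw [e, dg_one, mul_one, mul_inv_cancel]

theorem Coch.mul {μ : kˣ → GL ν k} (h : Coch G μ) (t t' : kˣ) : μ (t * t') = μ t * μ t' := by
  obtain ⟨⟨a, y, e⟩, -⟩ := h
  rw [e, e, e, dg_mul]
  group

theorem Coch.conj {μ : kˣ → GL ν k} (h : Coch G μ) {g : GL ν k} (hg : g ∈ G) :
    Coch G fun t => g * μ t * g⁻¹ := by
  obtain ⟨⟨a, y, e⟩, h2⟩ := h
  exact ⟨⟨g * a, y, fun t => by simp only [e]; group⟩,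
    fun t => G.mul_mem (G.mul_mem hg (h2 t)) (G.inv_mem hg)⟩

theorem coch_dg {y : ν → ℤ} (hy : y ∈ YY G) : Coch G (dg y) :=
  ⟨⟨1, y, fun _ => by simp⟩, hy⟩

/-- The derivative at the identity in the direction `X`. -/
noncomputable def regD (X : Matrix ν ν k) (p : MvPolynomial (ν × ν) k) : k :=
  ∑ ij : ν × ν, X ij.1 ij.2 * ev 1 (MvPolynomial.pderiv ij p)

theorem regD_C (X : Matrix ν ν k) (c : k) : regD X (MvPolynomial.C c) = 0 := by
  simp [regD, ev]

theorem regD_add (X : Matrix ν ν k) (p q : MvPolynomial (ν × ν) k) :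
    regD X (p + q) = regD X p + regD X q := by
  simp [regD, ev, mul_add, Finset.sum_add_distrib]

theorem regD_mul (X : Matrix ν ν k) (p q : MvPolynomial (ν × ν) k) :
    regD X (p * q) = ev 1 p * regD X q + ev 1 q * regD X p := by
  simp only [regD, ev, Derivation.leibniz, smul_eq_mul, map_add, map_mul, Finset.mul_sum,
    ← Finset.sum_add_distrib]
  exact Finset.sum_congr rfl fun _ _ => by ring

theorem regD_X (X : Matrix ν ν k) (i : ν × ν) : regD X (MvPolynomial.X i) = X i.1 i.2 := by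
  rw [regD, Finset.sum_eq_single i (fun j _ h => by
    simp [ev, MvPolynomial.pderiv_X_of_ne h.symm]) (by simp)]
  simp [ev]

theorem regD_sum {ι : Type} (X : Matrix ν ν k) (s : Finset ι) (p : ι → MvPolynomial (ν × ν) k) :
    regD X (∑ i ∈ s, p i) = ∑ i ∈ s, regD X (p i) := by
  classical
  induction s using Finset.induction_on with
  | empty => simpa using regD_C X 0
  | insert a s ha ih => rw [Finset.sum_insert ha, Finset.sum_insert ha, regD_add, ih]

theorem lie_conj {g : GL ν k} (hg : g ∈ G) {X : Matrix ν ν k} (hX : X ∈ lie G) :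
    g.1 * X * (g⁻¹).1 ∈ lie G := fun p hp => by
  let φ : ν × ν → MvPolynomial (ν × ν) k := fun ij =>
    ∑ d, (∑ c, MvPolynomial.C (g.1 ij.1 c) * MvPolynomial.X (c, d)) *
      MvPolynomial.C ((g⁻¹).1 d ij.2)
  have h1 : ∀ (x : Matrix ν ν k) ij, ev x (φ ij) = (g.1 * x * (g⁻¹).1) ij.1 ij.2 := fun x ij => by
    simp only [φ, ev, map_sum, map_mul, MvPolynomial.eval_C, MvPolynomial.eval_X,
      Matrix.mul_apply]
  have h2 : ∀ (x : Matrix ν ν k) q, ev x (MvPolynomial.bind₁ φ q) =
      ev (g.1 * x * (g⁻¹).1) q := fun x q => by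
    induction q using MvPolynomial.induction_on with
    | C a => simp [ev]
    | add p q hp hq => simp only [ev, map_add] at hp hq ⊢; rw [hp, hq]
    | mul_X p i hp =>
      have := h1 x i
      simp only [ev, map_mul, MvPolynomial.bind₁_X_right, MvPolynomial.eval_X] at hp this ⊢
      rw [hp, this]
  have h3 : ∀ ij, regD X (φ ij) = (g.1 * X * (g⁻¹).1) ij.1 ij.2 := fun ij => by
    simp only [φ, regD_sum, regD_mul, regD_C, regD_X, Matrix.mul_apply, mul_zero, add_zero,
      zero_add]
    exact Finset.sum_congr rfl fun _ _ => by simp [ev, mul_comm]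
  have h4 : ∀ q, regD X (MvPolynomial.bind₁ φ q) = regD (g.1 * X * (g⁻¹).1) q := fun q => by
    induction q using MvPolynomial.induction_on with
    | C a => rw [MvPolynomial.bind₁_C_right, regD_C, regD_C]
    | add p q hp hq => rw [map_add, regD_add, regD_add, hp, hq]
    | mul_X p i hp =>
      rw [map_mul, regD_mul, regD_mul, hp, MvPolynomial.bind₁_X_right, h3, h1, h2, regD_X,
        mul_one, Units.mul_inv]
      simp [ev]
  change regD (g.1 * X * (g⁻¹).1) p = 0
  rw [← h4]
  refine hX (MvPolynomial.bind₁ φ p) fun x hx => ?_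
  rw [h2]
  exact hp (g * x * g⁻¹) (G.mul_mem (G.mul_mem hg hx) (G.inv_mem hg))

/-- Laurent polynomial functions. -/
def regL (f : kˣ → k) : Prop :=
  ∃ (s : Finset ℤ) (c : ℤ → k), ∀ t : kˣ, f t = ∑ d ∈ s, c d * (t : k) ^ d

theorem regL_iff {f : kˣ → k} : regL f ↔
    f ∈ Submodule.span k (Set.range fun (d : ℤ) (t : kˣ) => (t : k) ^ d) := by
  rw [Finsupp.mem_span_range_iff_exists_finsupp]
  refine ⟨fun ⟨s, c, h⟩ => ⟨∑ d ∈ s, Finsupp.single d (c d), funext fun t => ?_⟩,
    fun ⟨c, h⟩ => ⟨c.support, c, fun t => by simp [← h, Finsupp.sum]⟩⟩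
  rw [← Finsupp.sum_finsetSum_index (by simp) (by simp [add_smul]), h]
  simp

theorem regL.mono (c : k) (d : ℤ) : regL fun t : kˣ => c * (t : k) ^ d :=
  ⟨{d}, fun _ => c, fun _ => by simp⟩

theorem regL.sum {ι : Type} (s : Finset ι) {f : ι → kˣ → k} (h : ∀ i ∈ s, regL (f i)) :
    regL fun t => ∑ i ∈ s, f i t := by
  have := Submodule.sum_mem _ fun i hi => regL_iff.1 (h i hi)
  rw [regL_iff]
  convert this
  simp

theorem regL.mul {f f' : kˣ → k} (h : regL f) (h' : regL f') : regL fun t => f t * f' t := by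
  obtain ⟨s, c, e⟩ := h
  obtain ⟨s', c', e'⟩ := h'
  have := regL.sum s fun d _ => regL.sum s' fun d' _ => regL.mono (k := k) (c d * c' d') (d + d')
  convert this using 2 with t
  rw [e, e', Finset.sum_mul_sum]
  exact Finset.sum_congr rfl fun d _ => Finset.sum_congr rfl fun d' _ => by
    rw [zpow_add₀ t.ne_zero]; ring

theorem Reg.laurent {f : GL ν k → k} (hf : Reg G f) {μ : kˣ → GL ν k} (hμ : Coch G μ)
    {a b : GL ν k} (ha : a ∈ G) (hb : b ∈ G) :
    ∃ (s : Finset ℤ) (c : ℤ → k), ∀ t : kˣ, f (a * μ t * b) = ∑ d ∈ s, c d * (t : k) ^ d := by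
  obtain ⟨p, hp⟩ := hf
  obtain ⟨⟨h, y, e⟩, h2⟩ := hμ
  have h1 : ∀ q, regL fun t => H3A.ev (a * μ t * b).1 q := fun q => by
    induction q using MvPolynomial.induction_on with
    | C c => simpa [H3A.ev] using regL.mono (k := k) c 0
    | add p q hp hq =>
      have := Submodule.add_mem _ (regL_iff.1 hp) (regL_iff.1 hq)
      rw [regL_iff]
      convert this
      simp [H3A.ev]
    | mul_X p i hp =>
      have h3 := hp.mul (regL.sum Finset.univ fun l _ =>
        regL.mono ((a * h).1 i.1 l * (h⁻¹ * b).1 l i.2) (y l))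
      convert h3 using 2 with t
      have h4 : a * μ t * b = a * h * dg y t * (h⁻¹ * b) := by rw [e]; group
      simp only [H3A.ev, map_mul, MvPolynomial.eval_X]
      congr 1
      rw [h4, Units.val_mul, Units.val_mul (a * h), dg_val, Matrix.mul_apply]
      exact Finset.sum_congr rfl fun l _ => by rw [Matrix.mul_diagonal]; ring
  obtain ⟨s, c, h3⟩ := h1 p
  exact ⟨s, c, fun t => (hp _ (G.mul_mem (G.mul_mem ha (h2 t)) hb)).trans (h3 t)⟩

theorem laurent_eq_zero [Infinite k] (s : Finset ℤ) (c : ℤ → k)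
    (h : ∀ t : kˣ, ∑ d ∈ s, c d * (t : k) ^ d = 0) : ∀ d ∈ s, c d = 0 := by
  classical
  obtain ⟨N, hN⟩ := s.bddBelow
  let P : Polynomial k := ∑ d ∈ s, Polynomial.monomial (d - N).toNat (c d)
  have h1 : P = 0 := by
    refine Polynomial.eq_zero_of_infinite_isRoot _ ((Set.finite_singleton (0 : k)).infinite_compl.mono
      fun t ht => ?_)
    have h2 := h (Units.mk0 t ht)
    have h3 : P.eval t * t ^ N = 0 := by
      rw [← h2, Polynomial.eval_finsetSum, Finset.sum_mul]
      refine Finset.sum_congr rfl fun d hd => ?_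
      rw [Polynomial.eval_monomial, mul_assoc, ← zpow_natCast, ← zpow_add₀ ht,
        Int.toNat_of_nonneg (sub_nonneg.2 (hN hd)), sub_add_cancel]
      rfl
    exact (mul_eq_zero.1 h3).resolve_right (zpow_ne_zero _ ht)
  intro d hd
  have h4 := congrArg (fun Q => Polynomial.coeff Q (d - N).toNat) h1
  simp only [P, Polynomial.finsetSum_coeff, Polynomial.coeff_monomial, Polynomial.coeff_zero] at h4
  rwa [Finset.sum_eq_single d (fun d' hd' hne => if_neg fun e => hne (by
    have := hN hd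
    have := hN hd'
    omega)) (fun h => (h hd).elim), if_pos rfl] at h4

theorem reg_vec [Infinite k] {V : Type} [AddCommGroup V] [Module k V] (W : Submodule k V)
    (s : Finset ℤ) (e : ℤ → V) (h : ∀ t : kˣ, ∑ d ∈ s, ((t : k) ^ d) • e d ∈ W) :
    ∀ d ∈ s, e d ∈ W := fun d hd => by
  rw [← Submodule.Quotient.mk_eq_zero, ← Module.forall_dual_apply_eq_zero_iff k]
  refine fun φ => laurent_eq_zero s (fun d => φ (W.mkQ (e d))) (fun t => ?_) d hd
  have h1 := congrArg φ ((Submodule.Quotient.mk_eq_zero W).2 (h t))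
  rw [← Submodule.mkQ_apply] at h1
  simpa only [map_sum, map_smul, smul_eq_mul, map_zero, mul_comm] using h1

/-- A cocharacter acts diagonalisably in a polynomial representation. -/
theorem Rep.diag [Infinite k] {m : Type} [Fintype m] [DecidableEq m]
    {ρ : GL ν k → Matrix m m k} (hρ : Rep G ρ) {μ : kˣ → GL ν k} (hμ : Coch G μ) :
    ∃ (s : Finset ℤ) (e : ℤ → Matrix m m k), (∀ t : kˣ, ρ (μ t) = ∑ d ∈ s, ((t : k) ^ d) • e d) ∧
      (∀ d d', e d * e d' = if d = d' then e d else 0) ∧ ∑ d ∈ s, e d = 1 ∧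
      (∀ d, d ∉ s → e d = 0) ∧
      ∀ d, e d ∈ Submodule.span k (Set.range fun t => ρ (μ t)) := by
  have h0 : ∀ ab : m × m, ∃ c : ℤ →₀ k, (c.sum fun d a => a • fun t : kˣ => (t : k) ^ d) =
      fun t => ρ (μ t) ab.1 ab.2 := fun ab =>
    Finsupp.mem_span_range_iff_exists_finsupp.1 (regL_iff.1 (by
      simpa only [regL, one_mul, mul_one] using (hρ.reg ab.1 ab.2).laurent hμ G.one_mem G.one_mem))
  choose c hc using h0
  let s : Finset ℤ := Finset.univ.biUnion fun ab => (c ab).support
  let e : ℤ → Matrix m m k := fun d => Matrix.of fun a b => c (a, b) d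
  have h1 : ∀ t : kˣ, ρ (μ t) = ∑ d ∈ s, ((t : k) ^ d) • e d := fun t => Matrix.ext fun a b => by
    have h2 := congrFun (hc (a, b)) t
    rw [Finsupp.sum_of_support_subset _ (Finset.subset_biUnion_of_mem (fun ab => (c ab).support)
      (Finset.mem_univ (a, b))) (fun d a => a • fun t : kˣ => (t : k) ^ d)
      fun _ _ => zero_smul _ _] at h2
    rw [← h2, Matrix.sum_apply, Finset.sum_apply]
    exact Finset.sum_congr rfl fun d _ => mul_comm _ _
  have h3 : ∀ d, d ∉ s → e d = 0 := fun d hd => Matrix.ext fun a b => by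
    by_contra h
    exact hd (Finset.mem_biUnion.2 ⟨(a, b), Finset.mem_univ _, Finsupp.mem_support_iff.2 h⟩)
  refine ⟨s, e, h1, fun d d' => ?_, ?_, h3, fun d => ?_⟩
  · by_cases hd : d ∈ s
    · by_cases hd' : d' ∈ s
      · refine sub_eq_zero.1 (reg_vec (k := k) ⊥ s
          (fun d' => e d * e d' - if d = d' then e d else 0) (fun t' => ?_) d' hd')
        have h4 := reg_vec (k := k) ⊥ s (fun d => e d * ρ (μ t') - ((t' : k) ^ d) • e d)
          (fun t => by
            simp only [smul_sub, Finset.sum_sub_distrib, ← smul_mul_assoc, ← Finset.sum_mul, ← h1,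
              smul_smul, ← mul_zpow, ← Units.val_mul]
            rw [hμ.mul, hρ.mul _ (hμ.2 t) _ (hμ.2 t'), sub_self]
            exact zero_mem _) d hd
        simp only [smul_sub, Finset.sum_sub_distrib, ← mul_smul_comm, ← Finset.mul_sum, ← h1,
          smul_ite, smul_zero, Finset.sum_ite_eq, if_pos hd]
        exact h4
      · rw [h3 d' hd', mul_zero, if_neg fun h : d = d' => hd' (h ▸ hd)]
    · simp [h3 d hd]
  · have := h1 1
    rw [hμ.one, hρ.one] at this
    simpa using this.symm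
  · by_cases hd : d ∈ s
    · exact reg_vec _ s e (fun t => h1 t ▸ Submodule.subset_span ⟨t, rfl⟩) d hd
    · exact h3 d hd ▸ zero_mem _

/-- The projections attached to an integral grading are combinations of the values of the
one-parameter group. -/
theorem prj_mem_span [Infinite k] (y : ν → ℤ) (P : ℤ → Prop) :
    (prj fun i => P (y i)) ∈ Submodule.span k (Set.range fun t : kˣ => (dg y t).1) := by
  classical
  have h1 := reg_vec (Submodule.span k (Set.range fun t : kˣ => (dg y t).1))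
    (Finset.univ.image y) (fun d => Matrix.diagonal fun i => if y i = d then (1 : k) else 0)
    fun t => Submodule.subset_span ⟨t, Matrix.ext fun i j => by
      by_cases h : i = j
      · subst h
        simp [dg_val, Matrix.sum_apply]
      · simp [dg_val, Matrix.sum_apply, Matrix.diagonal_apply_ne _ h]⟩
  have h2 := Submodule.sum_mem _ (t := (Finset.univ.image y).filter P) fun d hd =>
    h1 d (Finset.mem_filter.1 hd).1
  convert h2
  ext i j
  by_cases h : i = j
  · subst h
    simp [prj, Matrix.sum_apply]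
  · simp [prj, Matrix.sum_apply, Matrix.diagonal_apply_ne _ h]

end Pool.Agent.Lib.MP_60cbcc_al.H3A
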