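import Pool.Agent.Lib.MP_60cbcc_al.H3ZSetup

/-!
The image of a lattice under a proper homomorphism with cocompact image.
-/

namespace Pool.Agent.Lib.MP_60cbcc_al.H3Z

open MeasureTheory

set_option linter.unusedSectionVars false

section SlatSel

open Set Filter Topology

variable {Γ G : Type} [Group Γ] [Countable Γ] [Group G] [TopologicalSpace G]
  [IsTopologicalGroup G] [LocallyCompactSpace G] [SecondCountableTopology G] [T2Space G]
  [MeasurableSpace G] [BorelSpace G]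

/-- A neighbourhood of the identity that meets the image of the lattice only at the identity. -/
theorem slat_small (j : Γ →* G) (hinj : Function.Injective j)
    (hfn : ∀ K : Set G, IsCompact K → {γ | j γ ∈ K}.Finite) :
    ∃ U : Set G, IsOpen U ∧ (1 : G) ∈ U ∧ ∀ γ, ∀ u ∈ U, ∀ u' ∈ U, j γ * u = u' → γ = 1 := by
  obtain ⟨K, hK, hK1⟩ := exists_compact_mem_nhds (1 : G)
  have hfin : (j '' ({γ | j γ ∈ K} \ {1})).Finite := ((hfn K hK).subset sdiff_subset).image _
  have hW : K ∩ (j '' ({γ | j γ ∈ K} \ {1}))ᶜ ∈ 𝓝 (1 : G) := by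
    refine inter_mem hK1 (hfin.isClosed.isOpen_compl.mem_nhds ?_)
    rintro ⟨γ, ⟨-, h1⟩, h2⟩
    exact h1 (hinj (h2.trans (map_one j).symm))
  obtain ⟨V, hV, hVW⟩ := exists_nhds_split_inv hW
  refine ⟨interior V, isOpen_interior, mem_interior_iff_mem_nhds.2 hV, ?_⟩
  intro γ u hu u' hu' h
  have h1 := hVW u' (interior_subset hu') u (interior_subset hu)
  have h2 : u' / u = j γ := by rw [← h]; simp
  rw [h2] at h1
  by_contra hγ
  exact h1.2 ⟨γ, ⟨h1.1, hγ⟩, rfl⟩

/-- A measurable equivariant selector. -/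
theorem slat_selector (j : Γ →* G) (hinj : Function.Injective j)
    (hfn : ∀ K : Set G, IsCompact K → {γ | j γ ∈ K}.Finite) :
    ∃ π : G → Γ, (∀ γ, MeasurableSet {g | π g = γ}) ∧ ∀ γ g, π (j γ * g) = γ * π g := by
  classical
  obtain ⟨U, hU, hU1, hUj⟩ := slat_small j hinj hfn
  obtain ⟨d, hd⟩ := TopologicalSpace.exists_dense_seq G
  let Q : ℕ → Γ → G → Prop := fun n γ g => (j γ)⁻¹ * g * (d n)⁻¹ ∈ U
  have hQo : ∀ n γ, IsOpen {g | Q n γ g} := fun n γ =>
    hU.preimage (f := fun g => (j γ)⁻¹ * g * (d n)⁻¹) (by fun_prop)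
  have hQu : ∀ n γ γ' g, Q n γ g → Q n γ' g → γ = γ' := by
    intro n γ γ' g h h'
    have := hUj (γ'⁻¹ * γ) _ h _ h' (by simp [mul_assoc])
    exact (inv_mul_eq_one.1 this).symm
  have hQe : ∀ n γ δ g, Q n (δ * γ) (j δ * g) ↔ Q n γ g := by
    intro n γ δ g
    simp only [Q, map_mul, mul_inv_rev, mul_assoc, inv_mul_cancel_left]
  have hex : ∀ g, ∃ n, ∃ γ, Q n γ g := by
    intro g
    have ho : IsOpen {x : G | g * x⁻¹ ∈ U} :=
      hU.preimage (f := fun x : G => g * x⁻¹) (by fun_prop)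
    obtain ⟨n, hn⟩ := hd.exists_mem_open ho ⟨g, by simpa using hU1⟩
    exact ⟨n, 1, by simpa [Q] using hn⟩
  have hP : ∀ n δ g, (∃ γ, Q n γ (j δ * g)) ↔ ∃ γ, Q n γ g := by
    intro n δ g
    constructor
    · rintro ⟨γ, h⟩
      refine ⟨δ⁻¹ * γ, (hQe n _ δ g).1 ?_⟩
      rwa [mul_inv_cancel_left]
    · rintro ⟨γ, h⟩
      exact ⟨δ * γ, (hQe n γ δ g).2 h⟩
  let π : G → Γ := fun g => (Nat.find_spec (hex g)).choose
  have hπ : ∀ g, Q (Nat.find (hex g)) (π g) g := fun g => (Nat.find_spec (hex g)).choose_spec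
  refine ⟨π, fun γ => ?_, fun δ g => ?_⟩
  · have : {g | π g = γ} = ⋃ n, ({g | Q n γ g} ∩ ⋂ k, ⋂ (_ : k < n), (⋃ γ', {g | Q k γ' g})ᶜ) := by
      ext g
      simp only [mem_ofPred_eq, mem_iUnion, mem_inter_iff, mem_iInter, mem_compl_iff]
      constructor
      · rintro rfl
        exact ⟨_, hπ g, fun k hk => Nat.find_min (hex g) hk⟩
      · rintro ⟨n, h1, h2⟩
        have hn : Nat.find (hex g) = n := (Nat.find_eq_iff _).2 ⟨⟨γ, h1⟩, h2⟩
        have h3 := hπ g
        rw [hn] at h3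
        exact hQu n _ _ g h3 h1
    rw [this]
    refine MeasurableSet.iUnion fun n => (hQo n γ).measurableSet.inter ?_
    refine MeasurableSet.iInter fun k => MeasurableSet.iInter fun _ => ?_
    exact (isOpen_iUnion fun γ' => hQo k γ').measurableSet.compl
  · have hn : Nat.find (hex (j δ * g)) = Nat.find (hex g) := by
      refine (Nat.find_eq_iff _).2 ⟨(hP _ δ g).2 (Nat.find_spec (hex g)), fun k hk h => ?_⟩
      exact Nat.find_min (hex g) hk ((hP k δ g).1 h)
    have h1 := hπ (j δ * g)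
    rw [hn] at h1
    exact hQu _ _ _ _ h1 ((hQe _ _ δ g).2 (hπ g))

end SlatSel

theorem Lat.push {Γ G G' : Type} [Group Γ] [Countable Γ] [Group G] [TopologicalSpace G]
    [IsTopologicalGroup G] [LocallyCompactSpace G] [SecondCountableTopology G] [T2Space G]
    [MeasurableSpace G] [BorelSpace G] [Group G'] [TopologicalSpace G'] [IsTopologicalGroup G']
    [LocallyCompactSpace G'] [SecondCountableTopology G'] [T2Space G'] [MeasurableSpace G']
    [BorelSpace G'] {j : Γ →* G} (hj : Lat j) (Φ : G →* G') (hΦ : Continuous Φ)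
    (hp : ∀ K, IsCompact K → IsCompact (Φ ⁻¹' K)) (hi : Function.Injective (Φ.comp j))
    {C : Set G'} (hC : IsCompact C) (hs : ∀ g', ∃ g, ∃ c ∈ C, g' = Φ g * c) :
    Lat (Φ.comp j) := by
  have hfn : ∀ K : Set G', IsCompact K → {γ | (Φ.comp j) γ ∈ K}.Finite := fun K hK =>
    hj.fin _ (hp K hK)
  refine ⟨hi, hfn, ?_⟩
  obtain ⟨π, mπ, eqv⟩ := slat_selector (Φ.comp j) hi hfn
  obtain ⟨m, Ω₀, hm, hΩ₀, hcov⟩ := hj.cov
  let m' : Measure G' := Measure.haar
  refine ⟨m', {g | π g = 1}, inferInstance, ?_, Filter.Eventually.of_forall fun g => ?_⟩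
  swap
  · refine ⟨(π g)⁻¹, ?_⟩
    change π _ = 1
    rw [eqv, inv_mul_cancel]
  obtain ⟨V, hV, hV1⟩ := exists_compact_mem_nhds (1 : G)
  have hVpos : m V ≠ 0 := (Measure.measure_pos_of_mem_nhds m hV1).ne'
  let Ω : Set G := toMeasurable m Ω₀
  have hΩm : MeasurableSet Ω := measurableSet_toMeasurable m Ω₀
  have hΩ : m Ω ≠ ⊤ := by rwa [measure_toMeasurable]
  let C' : Set G' := (fun p : G × G' => (Φ p.1)⁻¹ * p.2) '' (V ×ˢ C)
  have hC' : IsCompact C' := (hV.prod hC).image (by fun_prop)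
  let S : Set (G' × G) := {p | p.2 ∈ Ω ∧ (Φ p.2)⁻¹ * p.1 ∈ C'}
  have hS : MeasurableSet S := by
    refine (measurable_snd hΩm).inter ?_
    have hc : Continuous fun p : G' × G => (Φ p.2)⁻¹ * p.1 := by fun_prop
    exact hc.measurable hC'.measurableSet
  let f : G' → ENNReal := fun g' => m (Prod.mk g' ⁻¹' S)
  have hf : Measurable f := measurable_measure_prodMk_left hS
  have hint : ∫⁻ g', f g' ∂m' ≠ ⊤ := by
    have h1 : ∫⁻ g', f g' ∂m' = (m'.prod m) S := (Measure.prod_apply hS).symm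
    rw [h1, Measure.prod_apply_symm hS]
    have h2 : ∀ h : G, m' ((fun x : G' => (x, h)) ⁻¹' S) ≤ Ω.indicator (fun _ => m' C') h := by
      intro h
      by_cases hh : h ∈ Ω
      · rw [Set.indicator_of_mem hh, ← measure_preimage_mul m' (Φ h)⁻¹ C']
        exact measure_mono fun x hx => hx.2
      · have : (fun x : G' => (x, h)) ⁻¹' S = ∅ :=
          Set.eq_empty_of_forall_notMem fun x hx => hh hx.1
        rw [this, measure_empty]
        exact bot_le
    refine ne_top_of_le_ne_top ?_ (lintegral_mono h2)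
    rw [lintegral_indicator_const hΩm]
    exact ENNReal.mul_ne_top hC'.measure_lt_top.ne hΩ
  have hlow : ∀ g', m V ≤ ∑' γ, f ((Φ.comp j) γ * g') := by
    intro g'
    obtain ⟨h₀, c, hc, hg⟩ := hs g'
    have h1 : ∀ γ, f ((Φ.comp j) γ * g') = m {h | j γ * h ∈ Ω ∧ (Φ h)⁻¹ * g' ∈ C'} := by
      intro γ
      change m _ = _
      rw [← measure_preimage_mul m (j γ)]
      congr 1
      ext h
      simp [S, mul_assoc]
    simp only [h1]
    refine le_trans ?_ (measure_iUnion_le _)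
    rw [← measure_preimage_mul m h₀⁻¹ V]
    refine measure_mono_ae ?_
    filter_upwards [hcov] with h hh hhV
    obtain ⟨γ, hγ⟩ := hh
    refine Set.mem_iUnion.2 ⟨γ, subset_toMeasurable m Ω₀ hγ, (h₀⁻¹ * h, c), ⟨hhV, hc⟩, ?_⟩
    simp [hg, mul_assoc]
  have hT : ∀ γ, MeasurePreserving (fun g => (Φ.comp j) γ * g) m' m' := fun γ =>
    measurePreserving_mul_left m' _
  rw [unf hT mπ eqv hf] at hint
  intro htop
  apply hint
  refine top_le_iff.1 (le_trans ?_ (lintegral_mono hlow))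
  rw [setLIntegral_const, htop, ENNReal.mul_top hVpos]

end Pool.Agent.Lib.MP_60cbcc_al.H3Z
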