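import Pool.Agent.Lib.MP_60cbcc_al.H3AAbsMain
import Pool.Agent.Lib.MP_60cbcc_al.H3ASLat

/-!
The main theorem for groups that map properly to a product of abstract factors.
-/

namespace Pool.Agent.Lib.MP_60cbcc_al.H3Z

open MeasureTheory MulAction
open scoped Pointwise

set_option linter.unusedSectionVars false

theorem Std.qs2 {G : Type} [Group G] [TopologicalSpace G] [IsTopologicalGroup G] [T2Space G]
    {L P : Subgroup G} (h : Std L) (hn : P.Normal) (hc : IsClosed (P : Set G)) :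
    P ≤ Subgroup.center G ∨ L ≤ P := by
  refine (h.weak.qs (P.subgroupOf L) inferInstance (hc.preimage continuous_subtype_val)).imp
    (fun h1 p hp => h.cen (main_central h.weak.perf fun a => h.cen fun b hb => ?_))
    fun h1 => Subgroup.subgroupOf_eq_top.1 h1
  have h2 : (a : G) * p * (a : G)⁻¹ * p⁻¹ ∈ L := by
    have := mul_mem a.2 (h.norm.conj_mem _ (inv_mem a.2) p)
    simpa only [mul_assoc] using this
  have h3 : (⟨_, h2⟩ : L) ∈ P.subgroupOf L := mul_mem (hn.conj_mem p hp a) (inv_mem hp)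
  exact congrArg Subtype.val (Subgroup.mem_center_iff.1 (h1 h3) ⟨b, hb⟩)

theorem Low.cocpt {G : Type} [Group G] [TopologicalSpace G] [IsTopologicalGroup G]
    {L K : Subgroup G} (h : Low L K) :
    ∃ C : Set G, IsCompact C ∧ ∀ g, ∃ a ∈ L, ∃ c ∈ C, g = a * c := by
  have := h.fi
  have := h.norm
  refine ⟨(Set.range fun q : G ⧸ (L ⊔ K) => q.out) * K, (Set.finite_range _).isCompact.mul h.cpt,
    fun g => ?_⟩
  obtain ⟨q, δ, rfl⟩ := W2.exists_out (L ⊔ K) g
  obtain ⟨a, ha, c, hc, e⟩ := (Subgroup.normal_mul L K).le δ.2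
  exact ⟨_, h.norm.conj_mem a ha q.out, _, Set.mul_mem_mul ⟨q, rfl⟩ hc, by rw [← e]; group⟩

theorem main3 {S : Type} [Finite S] {H : S → Type} [∀ s, Group (H s)]
    [∀ s, TopologicalSpace (H s)] [∀ s, IsTopologicalGroup (H s)] [∀ s, LocallyCompactSpace (H s)]
    [∀ s, SecondCountableTopology (H s)] [∀ s, T2Space (H s)] [∀ s, MeasurableSpace (H s)]
    [∀ s, BorelSpace (H s)] {G : Type} [Group G] [TopologicalSpace G] [IsTopologicalGroup G]
    [LocallyCompactSpace G] [SecondCountableTopology G] [T2Space G] [MeasurableSpace G]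
    [BorelSpace G] (L : ∀ s, Subgroup (H s)) (hf : ∀ s, ∃ K, Low (L s) K)
    (hr : Nontrivial S ∨ ∃ s, High (L s)) (Φ : G →* ∀ s, H s) (hΦ : Continuous Φ)
    (hp : ∀ K, IsCompact K → IsCompact (Φ ⁻¹' K)) (hk : ∀ g, Φ g = 1 → g ∈ Subgroup.center G)
    (N : S → Subgroup G) (hN : ∀ s t, s ≠ t → ∀ x ∈ N s, Φ x t = 1)
    (hn : ∀ s (u : H s), ∀ x ∈ N s, ∃ x' ∈ N s, Φ x' s = u * Φ x s * u⁻¹)
    (hc : ∀ s, ∃ x ∈ N s, ∃ y ∈ N s, Φ (x * y * x⁻¹ * y⁻¹) s ∉ Subgroup.center (H s))
    (Γ : Subgroup G) (hΓ : IsLattice Γ)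
    (hd : ∀ s, (Γ ⊔ N s).topologicalClosure.relIndex (commutator G) ≠ 0)
    (hZ : Subgroup.center Γ = ⊥)
    {X : Type} [MeasurableSpace X] [StandardBorelSpace X] [MulAction Γ X]
    [MeasurableConstSMul Γ X] (μ : Measure X) [IsProbabilityMeasure μ] [ErgodicSMul Γ X μ] :
    (∃ F : Set X, F.Finite ∧ μ Fᶜ = 0) ∨ ∀ᵐ x ∂μ, stabilizer Γ x = ⊥ := by
  classical
  have := hΓ.1
  have := H8W.count_disc Γ
  choose K hK using hf
  have hcl : IsClosedMap Φ := (isProperMap_iff_isCompact_preimage.2 ⟨hΦ, fun {K} => hp K⟩).isClosedMap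
  have hL : ∀ s (a : L s), ∃ x ∈ (commutator G).topologicalClosure,
      Φ x = Pi.mulSingle s (a : H s) := fun s a => by
    let M : Subgroup (H s) := (N s).map ((Pi.evalMonoidHom H s).comp Φ)
    have hM : M.Normal := ⟨by
      rintro _ ⟨x, hx, rfl⟩ u
      exact hn s u x hx⟩
    have h1 : L s ≤ (⁅M, M⁆ : Subgroup (H s)).topologicalClosure := by
      refine ((hK s).toStd.qs2 (Subgroup.is_normal_topologicalClosure _)
        (Subgroup.isClosed_topologicalClosure _)).resolve_left fun h => ?_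
      obtain ⟨x, hx, y, hy, e⟩ := hc s
      refine e (h (Subgroup.le_topologicalClosure _ ?_))
      have h2 := Subgroup.commutator_mem_commutator (H₁ := M) (H₂ := M) ⟨x, hx, rfl⟩ ⟨y, hy, rfl⟩
      simpa [commutatorElement_def] using h2
    have h3 : (⁅M, M⁆ : Subgroup (H s)) ≤ (((commutator G).topologicalClosure).map Φ).comap
        (MonoidHom.mulSingle H s) := by
      rw [Subgroup.commutator_le]
      rintro _ ⟨x, hx, rfl⟩ _ ⟨y, hy, rfl⟩
      refine ⟨x * y * x⁻¹ * y⁻¹, Subgroup.le_topologicalClosure _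
        (Subgroup.commutator_mem_commutator (Subgroup.mem_top x) (Subgroup.mem_top y)),
        funext fun t => ?_⟩
      by_cases h : t = s
      · subst h
        simp [commutatorElement_def]
      · simp [commutatorElement_def, Pi.mulSingle_eq_of_ne h, hN s t (Ne.symm h) x hx,
          hN s t (Ne.symm h) y hy]
    exact Subgroup.topologicalClosure_minimal _ h3 ((hcl _
      (Subgroup.isClosed_topologicalClosure _)).preimage (continuous_mulSingle s)) (h1 a.2)
  choose C hC hC' using fun s => (hK s).cocpt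
  have hi : Function.Injective (Φ.comp Γ.subtype) := (injective_iff_map_eq_one _).2 fun γ h =>
    Subgroup.mem_bot.1 (hZ ▸ Subgroup.mem_center_iff.2 fun g =>
      Subtype.ext (Subgroup.mem_center_iff.1 (hk γ h) g))
  have hj := (W2.lat hΓ).push Φ hΦ hp hi (isCompact_univ_pi hC) fun g' => by
    choose a ha c hc e using fun s => hC' s (g' s)
    obtain ⟨g, hg⟩ : a ∈ Φ.range := Subgroup.pi_mem_of_mulSingle_mem _ fun s => by
      obtain ⟨x, -, hx⟩ := hL s ⟨a s, ha s⟩
      exact ⟨x, hx⟩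
    exact ⟨g, c, fun s _ => hc s, by rw [hg]; exact funext e⟩
  refine main2 L (fun s => .inl ⟨_, hK s⟩) hr _ hj (fun s t a => ?_) hZ μ
  have hq : Continuous (w1q Φ s) := continuous_pi fun u => (continuous_apply u.1).comp hΦ
  set D := (Γ ⊔ N s).topologicalClosure
  have : (D.subgroupOf (commutator G)).FiniteIndex := ⟨hd s⟩
  have h4 := mem_clos2 (hK t.1).weak (q := (w1q Φ s).comp (commutator G).subtype)
    (D.subgroupOf (commutator G))
    ((MonoidHom.mulSingle (fun u : {u // u ≠ s} => H u.1) t).comp (L t.1).subtype)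
    ((continuous_mulSingle (A := fun u : {u // u ≠ s} => H u.1) t).comp continuous_subtype_val)
    (fun b => by
      obtain ⟨x, hx, e⟩ := hL t.1 b
      have h5 : (MonoidHom.mulSingle (fun u : {u // u ≠ s} => H u.1) t).comp (L t.1).subtype b =
          w1q Φ s x := funext fun u => by
        change _ = Φ x u.1
        rw [e]
        by_cases h : u = t
        · subst h
          simp
        · simp [Pi.mulSingle_eq_of_ne h, Pi.mulSingle_eq_of_ne fun h' => h (Subtype.ext h')]
      rw [h5]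
      exact map_mem_closure hq hx fun y hy => ⟨⟨y, hy⟩, rfl⟩) a
  refine Subgroup.topologicalClosure_minimal _ ?_ (Subgroup.isClosed_topologicalClosure _) h4
  rintro _ ⟨x, hx, rfl⟩
  refine map_mem_closure hq (s := ((Γ ⊔ N s : Subgroup G) : Set G)) hx fun y hy => ?_
  have h6 : Γ ⊔ N s ≤ (w1q (Φ.comp Γ.subtype) s).range.comap (w1q Φ s) :=
    sup_le (fun γ hγ => ⟨⟨γ, hγ⟩, rfl⟩) fun z hz => ⟨1, by
      rw [map_one]
      exact funext fun u => (hN s u.1 (Ne.symm u.2) z hz).symm⟩
  exact h6 hy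

end Pool.Agent.Lib.MP_60cbcc_al.H3Z
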