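import Pool.Agent.Lib.MP_60cbcc_al.H3ASImg

/-!
The action by conjugation on the span of an almost simple group.
-/

namespace Pool.Agent.Lib.MP_60cbcc_al.H3A

open Matrix Filter Topology

set_option linter.unusedSectionVars false

/-- A linear form on matrices given by its coefficients. -/
def adL {K ν : Type} [Field K] [Fintype ν] (c : ν × ν → K) : Matrix ν ν K →ₗ[K] K where
  toFun X := ∑ ij : ν × ν, X ij.1 ij.2 * c ij
  map_add' X Y := by simp [add_mul, Finset.sum_add_distrib]
  map_smul' a X := by simp [Finset.mul_sum, mul_assoc]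

theorem adL_apply {K ν : Type} [Field K] [Fintype ν] (c : ν × ν → K) (X : Matrix ν ν K) :
    adL c X = ∑ ij : ν × ν, X ij.1 ij.2 * c ij := rfl

theorem ad_basis {k ν : Type} [Field k] [Fintype ν] [DecidableEq ν]
    (V : Submodule k (Matrix ν ν k)) : ∃ (d : ℕ) (b : Fin d → Matrix ν ν k)
      (c : Fin d → ν × ν → k), (∀ a, b a ∈ V) ∧
      (∀ a a', adL (c a) (b a') = (1 : Matrix (Fin d) (Fin d) k) a a') ∧
      ∀ X ∈ V, X = ∑ a, adL (c a) X • b a := by
  obtain ⟨π, hπ⟩ := LinearMap.exists_leftInverse_of_injective V.subtype V.ker_subtype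
  let b := Module.finBasis k V
  have h1 : ∀ a X, adL (fun ij => b.coord a (π (Matrix.single ij.1 ij.2 1))) X =
      b.coord a (π X) := fun a X => by
    conv_rhs => rw [Matrix.matrix_eq_sum_single X]
    simp only [adL_apply, map_sum, Fintype.sum_prod_type]
    refine Finset.sum_congr rfl fun i _ => Finset.sum_congr rfl fun j _ => ?_
    rw [← smul_eq_mul, ← map_smul, ← map_smul, Matrix.smul_single, smul_eq_mul, mul_one]
  have h2 : ∀ v : V, π v = v := fun v => LinearMap.congr_fun hπ v
  refine ⟨_, fun a => b a, fun a ij => b.coord a (π (Matrix.single ij.1 ij.2 1)),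
    fun a => (b a).2, fun a a' => ?_, fun X hX => ?_⟩
  · rw [h1, h2, Matrix.one_apply]
    simp [Finsupp.single_apply, eq_comm]
  · simp only [h1]
    have h3 := congrArg Subtype.val (b.sum_repr ⟨X, hX⟩)
    rw [show π X = ⟨X, hX⟩ from h2 ⟨X, hX⟩]
    rw [Submodule.coe_sum] at h3
    exact h3.symm

variable {k : Type} [NontriviallyNormedField k] [ProperSpace k] {ν : Type} [Fintype ν]
  [DecidableEq ν] {A : Subgroup (GL ν (AlgebraicClosure k))}

theorem exists_ad (hA : IsAlmostSimple k A) {B : Subgroup (GL ν (AlgebraicClosure k))}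
    (hd : ∀ g ∈ B, g.1.det = 1) (hn : ∀ g ∈ B, ∀ x ∈ A, g * x * g⁻¹ ∈ A) :
    ∃ (d : ℕ) (R : Fin d × Fin d → MvPolynomial (ν × ν) k)
      (ρ : B →* GL (Fin d) (AlgebraicClosure k)), (∀ g : B, (ρ g).1 = rh R g.1) ∧
      (∀ g : B, ρ g = 1 ↔ ∀ x ∈ A, g.1 * x = x * g.1) ∧
      ∀ (g : B) (h : GL (Fin d) k), Alg.io _ h = ρ g → ∀ x ∈ points k A,
        ∃ x' ∈ points k A, Alg.io _ x' = g.1 * Alg.io _ x * g.1⁻¹ := by
  obtain ⟨d, b, c, h1, h2, h3⟩ := 
    ad_basis (Submodule.span k (Units.val '' (points k A : Set (GL ν k))))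
  let f := algebraMap k (AlgebraicClosure k)
  let l : Fin d → Matrix ν ν (AlgebraicClosure k) →ₗ[AlgebraicClosure k] AlgebraicClosure k :=
    fun a => adL fun ij => f (c a ij)
  have h4 : ∀ a (X : Matrix ν ν k), l a (X.map f) = f (adL (c a) X) := fun a X => by
    simp [l, adL_apply]
  have h5 : ∀ x ∈ A, x.1 = ∑ a, l a x.1 • (b a).map f := fun x hx => Matrix.ext fun i j => by
    have h0 : Reg A fun x => (∑ a, l a x.1 • (b a).map f) i j :=
      (Reg.sum Finset.univ fun a _ => (Reg.sum Finset.univ fun (ij : ν × ν) _ =>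
        (Reg.entry ij.1 ij.2).mul (Reg.const (f (c a ij)))).mul
          (Reg.const (f (b a i j)))).congr fun g _ => by rw [Matrix.sum_apply]; rfl
    refine sub_eq_zero.1 (Alg.split (K := AlgebraicClosure k) (S := (points k A : Set (GL ν k)))
      (fun _ h => h) (Alg.mem_cl hA Alg.zd_self x hx) hx ((Reg.entry i j).sub h0) fun s hs => ?_)
    have h6 := congrArg (fun X => f (X i j)) (h3 _ (Submodule.subset_span ⟨s, hs, rfl⟩))
    change f (s.1 i j) - (∑ a, l a (s.1.map f) • (b a).map f) i j = 0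
    simp only [h4]
    rw [h6]
    simp [Matrix.sum_apply]
  have h7 : ∀ (P : Submodule (AlgebraicClosure k) (Matrix ν ν (AlgebraicClosure k))),
      (∀ x ∈ A, x.1 ∈ P) → ∀ a, (b a).map f ∈ P := fun P hP a => by
    refine Submodule.span_induction (p := fun X _ => X.map f ∈ P) ?_ ?_ (fun X Y _ _ e e' => ?_)
      (fun t X _ e => ?_) (h1 a)
    · rintro _ ⟨s, hs, rfl⟩
      exact hP _ hs
    · simp
    · rw [Matrix.map_add _ (map_add f)]
      exact P.add_mem e e'
    · have : (t • X).map f = f t • X.map f := Matrix.ext fun i j => by simp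
      exact this ▸ P.smul_mem _ e
  let cn : GL ν (AlgebraicClosure k) → Matrix ν ν (AlgebraicClosure k) →ₗ[AlgebraicClosure k]
      Matrix ν ν (AlgebraicClosure k) := fun g => LinearMap.mulLeftRight _ (g.1, (g⁻¹).1)
  have h8 : ∀ g X, cn g X = g.1 * X * (g⁻¹).1 := fun _ _ => LinearMap.mulLeftRight_apply _ _ _
  have h9 : ∀ g ∈ B, ∀ a', cn g ((b a').map f) = ∑ a, l a (cn g ((b a').map f)) • (b a).map f :=
    fun g hg a' => by
      have := h7 (LinearMap.eqLocus (cn g) ((∑ a, (l a).smulRight ((b a).map f)).comp (cn g)))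
        (fun x hx => by simpa [h8] using h5 _ (hn g hg x hx)) a'
      simpa using this
  have h10 : ∀ a a', l a ((b a').map f) = (1 : Matrix (Fin d) (Fin d) _) a a' := fun a a' => by
    rw [h4, h2, Matrix.one_apply, Matrix.one_apply]
    split_ifs <;> simp
  let M : B →* Matrix (Fin d) (Fin d) (AlgebraicClosure k) :=
    { toFun := fun g => Matrix.of fun a a' => l a (cn g ((b a').map f))
      map_one' := Matrix.ext fun a a' => by simp [h8, h10]
      map_mul' := fun g h => Matrix.ext fun a a' => by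
        have e : cn (g * h : B) ((b a').map f) = cn g (cn h ((b a').map f)) := by
          simp [h8, mul_assoc]
        rw [Matrix.of_apply, e, h9 h h.2, Matrix.mul_apply]
        simp [mul_comm] }
  have h11 : ∀ (g : B) a', cn g ((b a').map f) = ∑ a, M g a a' • (b a).map f :=
    fun g => h9 g g.2
  let xx : Matrix ν ν (MvPolynomial (ν × ν) k) := Matrix.of fun i j => MvPolynomial.X (i, j)
  let yy : Fin d → Matrix ν ν (MvPolynomial (ν × ν) k) := fun a =>
    xx * (b a).map MvPolynomial.C * xx.adjugate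
  refine ⟨d, fun ab => ∑ ij : ν × ν, yy ab.2 ij.1 ij.2 *
    MvPolynomial.C (c ab.1 ij), M.toHomUnits, fun g => Matrix.ext fun a a' => ?_,
    fun g => ⟨fun e x hx => ?_, fun e => Units.ext (Matrix.ext fun a a' => ?_)⟩,
    fun g h e x hx => ?_⟩
  · let φ := MvPolynomial.aeval (R := k) (coords g.1)
    have e1 : φ.mapMatrix xx = g.1.1 := Matrix.ext fun i j => by simp [φ, xx, coords]
    have e2 : φ.mapMatrix (yy a') = cn g ((b a').map f) := by
      rw [map_mul, map_mul, AlgHom.map_adjugate, e1, h8, Matrix.coe_units_inv, Matrix.inv_def,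
        hd _ g.2, Ring.inverse_one, one_smul]
      congr 2
      ext i j
      simp [φ, f]
    change l a (cn g ((b a').map f)) = φ _
    rw [← e2, map_sum]
    exact Finset.sum_congr rfl fun ij _ => by simp [φ, f]
  · have e1 : M g = 1 := congrArg Units.val e
    have e2 : cn g x.1 = x.1 := by
      conv_lhs => rw [h5 x hx]
      conv_rhs => rw [h5 x hx]
      simp [h11, e1, Matrix.one_apply]
    exact mul_inv_eq_iff_eq_mul.1 (Units.ext ((h8 _ _).symm.trans e2))
  · have e1 := h7 (LinearMap.eqLocus (cn g) LinearMap.id) (fun x hx =>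
      (h8 _ _).trans (congrArg Units.val (mul_inv_eq_iff_eq_mul.2 (e x hx)))) a'
    exact (congrArg (l a) e1).trans (h10 a a')
  · have e1 : ∀ a a', M g a a' = f (h.1 a a') := fun a a' =>
      (congrArg (fun u : GL (Fin d) (AlgebraicClosure k) => u.1 a a') e).symm
    have e2 : (∑ a', adL (c a') x.1 • ∑ a, h.1 a a' • b a).map f =
        (g.1 * Alg.io _ x * g.1⁻¹).1 := by
      refine Eq.trans ?_ ((congrArg (cn g) (h5 _ hx).symm).trans (h8 _ _))
      simp only [map_sum, map_smul, h11, e1]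
      ext i j
      simp only [Matrix.map_apply, Matrix.sum_apply, Matrix.smul_apply, smul_eq_mul, map_sum,
        map_mul, ← h4]
      rfl
    have e3 : (∑ a', adL (c a') x.1 • ∑ a, h.1 a a' • b a).det ≠ 0 := fun e4 => by
      have e5 := (RingHom.map_det f _).symm.trans (congrArg f e4)
      rw [RingHom.mapMatrix_apply, e2, map_zero] at e5
      exact (Matrix.isUnits_det_units _).ne_zero e5
    have e6 : Alg.io _ (Matrix.GeneralLinearGroup.mkOfDetNeZero _ e3) =
        g.1 * Alg.io _ x * g.1⁻¹ := Units.ext e2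
    exact ⟨_, Subgroup.mem_comap.2 (e6 ▸ hn _ g.2 _ hx), e6⟩

end Pool.Agent.Lib.MP_60cbcc_al.H3A
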