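import Pool.Agent.Lib.MP_60cbcc_al.H3ADefs

/-!
Semisimple linear algebraic groups and their almost simple factors.
-/

namespace Pool.Agent.Lib.MP_60cbcc_al.H3A

variable (k : Type) [Field k] {ν : Type} [Fintype ν] [DecidableEq ν]

/-- `G` is a semisimple `k`-group with almost `k`-simple factors `N j`: a `k`-closed group
generated by the almost `k`-simple groups `N j`, which commute with each other. -/
structure IsSemisimple (G : Subgroup (GL ν (AlgebraicClosure k))) {J : Type}
    (N : J → Subgroup (GL ν (AlgebraicClosure k))) : Prop where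
  closed : IsKClosed k G
  simple : ∀ j, IsAlmostSimple k (N j)
  comm : ∀ i j, i ≠ j → ∀ x ∈ N i, ∀ y ∈ N j, x * y = y * x
  gen : ⨆ j, N j = G

/-- The topological group `H` is the group of `k`-points of a semisimple `k`-group of rank `r`,
and the `M j` are the groups of `k`-points of its almost simple factors. -/
def PointsOver [TopologicalSpace k] (H : Type) [Group H] [TopologicalSpace H] {J : Type}
    (M : J → Subgroup H) (r : ℕ) : Prop :=
  ∃ (n : ℕ) (G : Subgroup (GL (Fin n) (AlgebraicClosure k)))
    (N : J → Subgroup (GL (Fin n) (AlgebraicClosure k))) (e : H →* GL (Fin n) k),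
    IsSemisimple k G N ∧ splitRank k (points k G) = r ∧ Topology.IsEmbedding e ∧
      e.range = points k G ∧ ∀ j, (M j).map e = points k (N j)

/-- The same over some local field. -/
def IsPoints (H : Type) [Group H] [TopologicalSpace H] {J : Type} (M : J → Subgroup H) (r : ℕ) :
    Prop :=
  ∃ (k : Type) (_ : NontriviallyNormedField k), LocallyCompactSpace k ∧ PointsOver k H M r

/-- Lattices: discrete subgroups with a fundamental domain of finite Haar measure. -/
def IsLattice {H : Type} [Group H] [TopologicalSpace H] [MeasurableSpace H] (Γ : Subgroup H) :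
    Prop :=
  DiscreteTopology Γ ∧ ∃ (m : MeasureTheory.Measure H) (Ω : Set H),
    m.IsHaarMeasure ∧ MeasureTheory.IsFundamentalDomain Γ Ω m ∧ m Ω ≠ ⊤

end Pool.Agent.Lib.MP_60cbcc_al.H3A
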