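import Pool.Agent.Lib.MP_60cbcc_al.H3AAlg

/-!
The image of an almost simple group under a polynomial homomorphism.
-/

namespace Pool.Agent.Lib.MP_60cbcc_al.H3A

open Matrix Filter Topology

set_option linter.unusedSectionVars false

/-- Values of a matrix of polynomials. -/
noncomputable def rh {k K : Type} [Field k] [Field K] [Algebra k K] {ν m : Type} [Fintype ν]
    [DecidableEq ν] (R : m × m → MvPolynomial (ν × ν) k) (g : GL ν K) : Matrix m m K :=
  Matrix.of fun a b => MvPolynomial.aeval (coords g) (R (a, b))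

theorem rh_io {k K : Type} [Field k] [Field K] [Algebra k K] {ν m : Type} [Fintype ν]
    [DecidableEq ν] (R : m × m → MvPolynomial (ν × ν) k) (g : GL ν k) :
    rh R (Alg.io K g) = (rh R g).map (algebraMap k K) :=
  Matrix.ext fun a b => Alg.aeval_io g (R (a, b))

section Chev

open MvPolynomial

/-- The image of an irreducible variety contains a non-empty open part of its closure. -/
theorem SImg_chev {K σ τ : Type} [Field K] [IsAlgClosed K] [Finite σ] [Finite τ]
    (P : Ideal (MvPolynomial σ K)) (hP : P.IsPrime) (q : τ → MvPolynomial σ K) :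
    ∃ F : MvPolynomial τ K, bind₁ q F ∉ P ∧ ∀ y : τ → K, (∀ p, bind₁ q p ∈ P → aeval y p = 0) →
      aeval y F ≠ 0 → ∃ x : σ → K, (∀ p ∈ P, aeval x p = 0) ∧ ∀ t, aeval x (q t) = y t := by
  let φ : MvPolynomial τ K →ₐ[K] MvPolynomial σ K ⧸ P := (Ideal.Quotient.mkₐ K P).comp (bind₁ q)
  have h0 : ∀ p, φ p = 0 ↔ bind₁ q p ∈ P := fun p => Ideal.Quotient.eq_zero_iff_mem
  have hf : φ.toRingHom.FiniteType := by
    refine RingHom.FiniteType.of_comp_finiteType (f := algebraMap K (MvPolynomial τ K)) ?_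
    rw [show φ.toRingHom.comp (algebraMap K _) = algebraMap K _ from φ.comp_algebraMap]
    exact RingHom.finiteType_algebraMap.2 inferInstance
  obtain ⟨S, hS⟩ := PrimeSpectrum.exists_constructibleSetData_iff.2
    (PrimeSpectrum.isConstructible_range_comap (RingHom.FinitePresentation.of_finiteType.1 hf))
  have h1 : PrimeSpectrum.comap φ.toRingHom ⟨⊥, Ideal.isPrime_bot⟩ ∈ S.toSet := hS ▸ ⟨_, rfl⟩
  obtain ⟨C₀, hC, h2, h3⟩ := Set.mem_iUnion₂.1 h1
  refine ⟨C₀.f, fun h => h3 (Set.singleton_subset_iff.2 ((h0 _).2 h)), fun y hy hF => ?_⟩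
  have h4 : (⟨RingHom.ker (aeval y : MvPolynomial τ K →ₐ[K] K), RingHom.ker_isPrime _⟩ :
      PrimeSpectrum (MvPolynomial τ K)) ∈ S.toSet :=
    Set.mem_iUnion₂.2 ⟨C₀, hC, fun p hp => hy p ((h0 p).1 (h2 hp)),
      fun h => hF (h (Set.mem_singleton _))⟩
  rw [hS] at h4
  obtain ⟨Q, hQ⟩ := h4
  obtain ⟨M, hM, hQM⟩ := Ideal.exists_le_maximal (Q.asIdeal.comap (Ideal.Quotient.mk P))
    (Ideal.comap_ne_top _ Q.isPrime.ne_top)
  obtain ⟨x, rfl⟩ := isMaximal_iff_eq_vanishingIdeal_singleton.1 hM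
  refine ⟨x, fun p hp => hQM (show Ideal.Quotient.mk P p ∈ Q.asIdeal by
    rw [Ideal.Quotient.eq_zero_iff_mem.2 hp]; exact zero_mem _) x rfl, fun t => ?_⟩
  have h5 : (X t - C (y t) : MvPolynomial τ K) ∈
      (PrimeSpectrum.comap φ.toRingHom Q).asIdeal := by
    rw [hQ]
    change aeval y _ = 0
    simp
  have h6 := hQM (show bind₁ q (X t - C (y t)) ∈ Q.asIdeal.comap (Ideal.Quotient.mk P) from h5) x
    rfl
  rw [aeval_bind₁, map_sub, aeval_X, aeval_C] at h6
  exact sub_eq_zero.1 h6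

theorem SImg_stab {B : Type} [CommRing B] [IsNoetherianRing B] (L : B →+* B)
    (hL : Function.Surjective L) {I : Ideal B} (h : I ≤ I.comap L) : I.comap L = I := by
  have e : ∀ n : ℕ, I.comap (L ^ (n + 1)) = (I.comap L).comap (L ^ n) := fun n => by
    rw [Ideal.comap_comap, pow_succ']
    rfl
  obtain ⟨n, hn⟩ := monotone_stabilizes_iff_noetherian.2 (inferInstance : IsNoetherian B B)
    ⟨fun n => I.comap (L ^ n), monotone_nat_of_le_succ fun n => e n ▸ Ideal.comap_mono h⟩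
  have h1 : I.comap (L ^ n) = I.comap (L ^ (n + 1)) := hn (n + 1) n.le_succ
  rw [e] at h1
  refine (Ideal.comap_injective_of_surjective (L ^ n) ?_ h1).symm
  rw [RingHom.coe_pow]
  exact hL.iterate n

variable {K m : Type} [Field K] [Fintype m] [DecidableEq m]

/-- Substitution of a product of matrices. -/
noncomputable def SImg_sub (a b : GL m K) :
    MvPolynomial (m × m) K →ₐ[K] MvPolynomial (m × m) K :=
  bind₁ fun ij => ∑ d, (∑ c, C (a.1 ij.1 c) * X (c, d)) * C (b.1 d ij.2)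

theorem SImg_sub_apply (a b : GL m K) (x : Matrix m m K) (p : MvPolynomial (m × m) K) :
    aeval (fun ij : m × m => x ij.1 ij.2) (SImg_sub a b p) =
      aeval (fun ij : m × m => (a.1 * x * b.1) ij.1 ij.2) p := by
  rw [SImg_sub, aeval_bind₁]
  simp only [map_sum, map_mul, aeval_C, aeval_X, Matrix.mul_apply]
  rfl

theorem SImg_sub_coords (a b g : GL m K) (p : MvPolynomial (m × m) K) :
    aeval (coords g) (SImg_sub a b p) = aeval (coords (a * g * b)) p :=
  SImg_sub_apply a b g.1 p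

/-- A subgroup that contains a non-empty open part of its closure is closed. -/
theorem SImg_closed [Infinite K] {H : Subgroup (GL m K)} {F : MvPolynomial (m × m) K}
    (hF : F ∉ vanishingIdeal K (coords '' (H : Set (GL m K))))
    (h : ∀ g : GL m K, coords g ∈ zeroLocus K (vanishingIdeal K (coords '' (H : Set (GL m K)))) →
      aeval (coords g) F ≠ 0 → g ∈ H) {g : GL m K}
    (hg : coords g ∈ zeroLocus K (vanishingIdeal K (coords '' (H : Set (GL m K))))) : g ∈ H := by
  have h1 : ∀ x ∈ H, coords (g * x) ∈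
      zeroLocus K (vanishingIdeal K (coords '' (H : Set (GL m K)))) := fun x hx p hp => by
    have := hg (SImg_sub 1 x p) (by
      rintro _ ⟨y, hy, rfl⟩
      rw [SImg_sub_coords, one_mul]
      exact hp _ ⟨_, H.mul_mem hy hx, rfl⟩)
    rwa [SImg_sub_coords, one_mul] at this
  have h2 := SImg_stab (SImg_sub g 1).toRingHom (fun p => ⟨SImg_sub g⁻¹ 1 p,
    MvPolynomial.funext fun z => by
      change aeval z (SImg_sub g 1 _) = aeval z p
      have e := SImg_sub_apply g 1 (Matrix.of fun i j => z (i, j)) (SImg_sub g⁻¹ 1 p)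
      rw [SImg_sub_apply g⁻¹] at e
      simpa only [Units.val_one, mul_one, Units.inv_mul_cancel_left, Matrix.of_apply,
        Prod.mk.eta] using e⟩) (I := vanishingIdeal K (coords '' (H : Set (GL m K)))) fun p hp => by
    rintro _ ⟨x, hx, rfl⟩
    exact (SImg_sub_coords g 1 x p).trans (by rw [mul_one]; exact h1 x hx p hp)
  by_contra hn
  refine hF (h2 ▸ ?_)
  rintro _ ⟨x, hx, rfl⟩
  refine (SImg_sub_coords g 1 x F).trans ?_
  rw [mul_one]
  exact not_not.1 fun h3 => hn ((H.mul_mem_cancel_right hx).1 (h _ (h1 x hx) h3))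

end Chev

section Pre

open MvPolynomial

variable {k K : Type} [Field k] [Field K] [Algebra k K] {ν m : Type} [Fintype ν] [DecidableEq ν]
  [Fintype m] [DecidableEq m] {A : Subgroup (GL ν K)} {R : m × m → MvPolynomial (ν × ν) k}
  {ρ : A →* GL m K}

theorem SImg_aeval (hρ : ∀ g : A, (ρ g).1 = rh R g.1) (g : A) (p : MvPolynomial (m × m) k) :
    aeval (coords g.1) (bind₁ R p) = aeval (coords (ρ g)) p := by
  rw [aeval_bind₁]
  exact congrArg (fun z => aeval z p) (funext fun ab => by rw [coords, hρ]; rfl)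

theorem SImg_aevalK (hρ : ∀ g : A, (ρ g).1 = rh R g.1) (g : A) (p : MvPolynomial (m × m) K) :
    aeval (coords g.1) (bind₁ (fun ab => MvPolynomial.map (algebraMap k K) (R ab)) p) =
      aeval (coords (ρ g)) p := by
  rw [aeval_bind₁]
  exact congrArg (fun z => aeval z p) (funext fun ab => by
    rw [aeval_map_algebraMap, coords, hρ]; rfl)

theorem SImg_mem {N : Subgroup (GL m K)} {g : GL ν K} :
    g ∈ (N.comap ρ).map A.subtype ↔ ∃ hg : g ∈ A, ρ ⟨g, hg⟩ ∈ N :=
  ⟨by rintro ⟨x, hx, rfl⟩; exact ⟨x.2, hx⟩, fun ⟨hg, h⟩ => ⟨⟨g, hg⟩, h, rfl⟩⟩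

theorem SImg_pre (hA : IsKClosed k A) (hρ : ∀ g : A, (ρ g).1 = rh R g.1) {N : Subgroup (GL m K)}
    (hN : IsKClosed k N) : IsKClosed k ((N.comap ρ).map A.subtype) := by
  obtain ⟨I, hI⟩ := hA
  obtain ⟨J, hJ⟩ := hN
  refine ⟨Ideal.span (I ∪ bind₁ R '' (J : Set (MvPolynomial (m × m) k))), fun g => ?_⟩
  rw [SImg_mem, zeroLocus_span]
  refine ⟨fun ⟨hg, h⟩ p hp => hp.elim ((hI g).1 hg p) ?_, fun h => ?_⟩
  · rintro ⟨p', hp', rfl⟩
    exact (SImg_aeval hρ ⟨g, hg⟩ p').trans ((hJ _).1 h p' hp')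
  · have hg := (hI g).2 fun p hp => h p (Or.inl hp)
    exact ⟨hg, (hJ _).2 fun p hp =>
      (SImg_aeval hρ ⟨g, hg⟩ p).symm.trans (h _ (Or.inr ⟨p, hp, rfl⟩))⟩

theorem SImg_bot : IsKClosed k (⊥ : Subgroup (GL m K)) := by
  have e : ∀ a b, algebraMap k K ((1 : Matrix m m k) a b) = (1 : Matrix m m K) a b := fun a b =>
    congrFun (congrFun (map_one (algebraMap k K).mapMatrix) a) b
  refine ⟨Ideal.span (Set.range fun ab : m × m => X ab - C ((1 : Matrix m m k) ab.1 ab.2)),
    fun g => ?_⟩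
  rw [zeroLocus_span, Subgroup.mem_bot]
  simp only [Set.mem_ofPred_eq, Set.forall_mem_range, map_sub, aeval_X, aeval_C, e, sub_eq_zero]
  exact ⟨fun h ab => by rw [h]; rfl, fun h => Units.ext (Matrix.ext fun a b => h (a, b))⟩

theorem SImg_norm {N : Subgroup (GL m K)} (hn : ∀ g ∈ ρ.range, ∀ x ∈ N, g * x * g⁻¹ ∈ N) :
    ∀ g ∈ A, ∀ x ∈ (N.comap ρ).map A.subtype, g * x * g⁻¹ ∈ (N.comap ρ).map A.subtype := by
  rintro g hg _ ⟨x, hx, rfl⟩
  refine ⟨⟨g, hg⟩ * x * ⟨g, hg⟩⁻¹, ?_, rfl⟩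
  change ρ _ ∈ N
  rw [map_mul, map_mul, map_inv]
  exact hn _ ⟨_, rfl⟩ _ hx

end Pre

variable {k : Type} [NontriviallyNormedField k] [ProperSpace k] {ν : Type} [Fintype ν]
  [DecidableEq ν] {A : Subgroup (GL ν (AlgebraicClosure k))}

open MvPolynomial Alg in
theorem IsAlmostSimple.range (hA : IsAlmostSimple k A) {m : Type} [Fintype m] [DecidableEq m]
    {R : m × m → MvPolynomial (ν × ν) k} (ρ : A →* GL m (AlgebraicClosure k))
    (hρ : ∀ g : A, (ρ g).1 = rh R g.1) (hn : ∃ g, ρ g ≠ 1) : IsAlmostSimple k ρ.range := by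
  have e : vanishingIdeal (AlgebraicClosure k)
      (coords '' (ρ.range : Set (GL m (AlgebraicClosure k)))) =
      (vanishingIdeal (AlgebraicClosure k) (coords '' (A : Set (GL ν (AlgebraicClosure k))))).comap
        (bind₁ fun ab => MvPolynomial.map (algebraMap k (AlgebraicClosure k)) (R ab)) := by
    refine Ideal.ext fun p => ⟨fun h => ?_, fun h => ?_⟩
    · rintro _ ⟨g, hg, rfl⟩
      exact (SImg_aevalK hρ ⟨g, hg⟩ p).trans (h _ ⟨_, ⟨_, rfl⟩, rfl⟩)
    · rintro _ ⟨_, ⟨g, rfl⟩, rfl⟩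
      exact (SImg_aevalK hρ g p).symm.trans (h _ ⟨_, g.2, rfl⟩)
  have hd : vanishingIdeal (AlgebraicClosure k)
      (coords '' (ρ.range : Set (GL m (AlgebraicClosure k)))) =
      (vanishingIdeal k (coords '' (ρ.range : Set (GL m (AlgebraicClosure k))))).map
        (MvPolynomial.map (algebraMap k (AlgebraicClosure k))) := by
    refine le_antisymm (fun q hq => ?_) (Ideal.map_le_iff_le_comap.2 fun p hp x hx => ?_)
    · obtain ⟨T, p, hp⟩ := exists_split (k := k) q
      have h1 : q = ∑ i ∈ T, C (Module.Basis.ofVectorSpace k (AlgebraicClosure k) i) *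
          MvPolynomial.map (algebraMap k (AlgebraicClosure k)) (p i) :=
        MvPolynomial.funext fun z => by
          change aeval z q = aeval z _
          simp only [hp, map_sum, map_mul, aeval_C, aeval_map_algebraMap]
          rfl
      rw [h1]
      refine Ideal.sum_mem _ fun i hi => Ideal.mul_mem_left _ _ (Ideal.mem_map_of_mem _ ?_)
      rintro _ ⟨_, ⟨g, rfl⟩, rfl⟩
      rw [← SImg_aeval hρ]
      refine mem_cl hA zd_self g.1 g.2 _ fun s hs => ?_
      have h2 := hq _ ⟨_, ⟨⟨io _ s, hs⟩, rfl⟩, rfl⟩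
      rw [hp] at h2
      refine linearIndependent_iff'.1
        (Module.Basis.ofVectorSpace k (AlgebraicClosure k)).linearIndependent T
        (fun i => ev s.1 (bind₁ R (p i))) ?_ i hi
      rw [← h2]
      exact Finset.sum_congr rfl fun i _ => by
        rw [← SImg_aeval hρ, aeval_io, Algebra.smul_def, mul_comm]
    · rw [aeval_map_algebraMap]
      exact hp x hx
  have hs : ∀ N, (∀ g ∈ ρ.range, ∀ x ∈ N, g * x * g⁻¹ ∈ N) → IsKClosed k N →
      Finite ((N.comap ρ).map A.subtype) ∨ ρ.range ≤ N := fun N h1 h2 =>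
    (hA.simple _ (Subgroup.map_subtype_le _) (SImg_norm h1) (SImg_pre hA.closed hρ h2)).imp_right
      fun h => by
        rintro _ ⟨g, rfl⟩
        exact (SImg_mem.1 (h.symm ▸ g.2 : g.1 ∈ (N.comap ρ).map A.subtype)).2
  refine ⟨⟨vanishingIdeal k (coords '' (ρ.range : Set (GL m (AlgebraicClosure k)))),
    fun g => ⟨fun hg p hp => hp _ ⟨g, hg, rfl⟩, fun hg => ?_⟩⟩, hd,
    e ▸ hA.connected.comap _, ?_, fun N hN h1 h2 => (hs N h1 h2).imp (fun h => ?_)
      (le_antisymm hN)⟩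
  · obtain ⟨F, hF, H⟩ := SImg_chev _ hA.connected
      fun ab => MvPolynomial.map (algebraMap k (AlgebraicClosure k)) (R ab)
    refine SImg_closed (F := F) (e ▸ hF) (fun y hy h0 => ?_) fun q hq => ?_
    · obtain ⟨x, hx, hxy⟩ := H (coords y) (fun p hp => hy p (e ▸ hp)) h0
      have h2 := hx ((Matrix.of fun i j => X (i, j)).det - 1) (by
        rintro _ ⟨z, hz, rfl⟩
        rw [map_sub, map_one, AlgHom.map_det, sub_eq_zero, ← det_one hA z hz]
        exact congrArg Matrix.det (Matrix.ext fun i j => by simp [coords]))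
      rw [map_sub, map_one, AlgHom.map_det, sub_eq_zero] at h2
      let z := Matrix.GeneralLinearGroup.mkOfDetNeZero _ (h2.trans_ne one_ne_zero)
      have hz : coords z = x := funext fun ij => by simp [coords, z]
      obtain ⟨I, hI⟩ := hA.closed
      have hzA : z ∈ A := (hI z).2 fun p hp => by
        rw [hz, ← aeval_map_algebraMap (AlgebraicClosure k)]
        refine hx _ ?_
        rintro _ ⟨w, hw, rfl⟩
        rw [aeval_map_algebraMap]
        exact (hI w).1 hw p hp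
      refine ⟨⟨z, hzA⟩, Units.ext ((hρ _).trans (Matrix.ext fun a b => ?_))⟩
      have h3 := hxy (a, b)
      rw [aeval_map_algebraMap, ← hz] at h3
      exact h3
    · rw [hd] at hq
      refine (Ideal.map_le_iff_le_comap (K := RingHom.ker (aeval (coords g))).2 ?_) hq
      intro p hp
      exact (aeval_map_algebraMap _ _ _).trans (hg p hp)
  · by_contra hc
    have hc' : ∀ x y, ρ x * ρ y = ρ y * ρ x := fun x y =>
      not_not.1 fun h => hc ⟨_, ⟨x, rfl⟩, _, ⟨y, rfl⟩, h⟩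
    obtain ⟨g₀, hg₀⟩ := hn
    have hf := (hs ⊥ (fun g _ x hx => by
      rw [Subgroup.mem_bot.1 hx, mul_one, mul_inv_cancel]; exact one_mem _) SImg_bot).resolve_right
      fun h => hg₀ (h ⟨g₀, rfl⟩)
    have hk : ∀ x y : A, x.1 * y.1 * x.1⁻¹ * y.1⁻¹ ∈
        ((⊥ : Subgroup (GL m (AlgebraicClosure k))).comap ρ).map A.subtype := fun x y => by
      refine ⟨x * y * x⁻¹ * y⁻¹, Subgroup.mem_comap.2 (Subgroup.mem_bot.2 ?_), rfl⟩
      rw [map_mul, map_mul, map_mul, map_inv, map_inv, hc' x y, mul_inv_cancel_right,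
        mul_inv_cancel]
    obtain ⟨x, hx, y, hy, hxy⟩ := hA.noncomm
    obtain ⟨c, -, h1⟩ := (pr_of_prime hA.connected).cover (Set.toFinite
      ((((⊥ : Subgroup (GL m (AlgebraicClosure k))).comap ρ).map A.subtype :
        Subgroup (GL ν (AlgebraicClosure k))) : Set (GL ν (AlgebraicClosure k))))
      (f := fun c (ij : ν × ν) g => (g.1 * y.1) ij.1 ij.2 - ((c * y).1 * g.1) ij.1 ij.2)
      (fun c ij => (reg_right _ _ _).sub (reg_left _ _ _)) (D := A) (fun _ _ h => h)
      (fun g hg => ⟨g * y * g⁻¹ * y⁻¹, hk ⟨g, hg⟩ ⟨y, hy⟩,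
        fun ij => by
          rw [← Units.val_mul, ← Units.val_mul, inv_mul_cancel_right, inv_mul_cancel_right,
            sub_self]⟩)
    have h2 : ∀ g ∈ A, g * y = c * y * g := fun g hg =>
      Units.ext (Matrix.ext fun i j => sub_eq_zero.1 (h1 (i, j) g hg))
    have h3 := h2 1 A.one_mem
    rw [one_mul, mul_one] at h3
    exact hxy (by rw [h2 x hx, ← h3])
  · refine @Finite.of_surjective _ _ h (fun x : (N.comap ρ).map A.subtype =>
      (⟨ρ ⟨x.1, (SImg_mem.1 x.2).1⟩, (SImg_mem.1 x.2).2⟩ : N)) fun y => ?_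
    obtain ⟨g, hg⟩ := hN y.2
    exact ⟨⟨g.1, g, (hg.symm ▸ y.2 : ρ g ∈ N), rfl⟩, Subtype.ext hg⟩

end Pool.Agent.Lib.MP_60cbcc_al.H3A
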