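import Pool.Agent.Lib.MP_60cbcc_al.H3ASImg
import Pool.Agent.Lib.MP_60cbcc_al.H3AProp

/-!
Properness over the algebraic closure.
-/

namespace Pool.Agent.Lib.MP_60cbcc_al.H3A

open Matrix Filter Topology

set_option linter.unusedSectionVars false

theorem SPropRoot {K : Type} [Field K] (ab : AbsoluteValue K ℝ) {P : Polynomial K} (hP : P.Monic)
    {z : K} (hz : P.IsRoot z) {C : ℝ} (h0 : 0 ≤ C) (hC : ∀ i < P.natDegree, ab (P.coeff i) ≤ C) :
    ab z ≤ C + 1 :=
  @PropRoot K ab.toNormedField P hP z hz C h0 hC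

open MvPolynomial in
theorem SPropEval {k L σ τ : Type} [Field k] [CommRing L] [Algebra k L] (q : τ → MvPolynomial σ k)
    (P : Polynomial (MvPolynomial τ k)) (F : MvPolynomial τ k) (n : ℕ) (s : σ) (x : σ → L) :
    aeval x (P.eval₂ (aeval q : MvPolynomial τ k →ₐ[k] MvPolynomial σ k).toRingHom
      (aeval q F ^ n * X s)) =
      (P.map (aeval fun t => aeval x (q t) : MvPolynomial τ k →ₐ[k] L).toRingHom).eval
        (aeval (fun t => aeval x (q t)) F ^ n * x s) := by
  have h1 := Polynomial.hom_eval₂ P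
    (aeval q : MvPolynomial τ k →ₐ[k] MvPolynomial σ k).toRingHom
    (aeval x : MvPolynomial σ k →ₐ[k] L).toRingHom (aeval q F ^ n * X s)
  have h2 : (aeval x : MvPolynomial σ k →ₐ[k] L).toRingHom.comp
      (aeval q : MvPolynomial τ k →ₐ[k] MvPolynomial σ k).toRingHom =
      (aeval fun t => aeval x (q t) : MvPolynomial τ k →ₐ[k] L).toRingHom :=
    RingHom.ext fun p => comp_aeval_apply q (aeval x) p
  have h3 : (aeval x : MvPolynomial σ k →ₐ[k] L).toRingHom (aeval q F ^ n * X s) =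
      aeval (fun t => aeval x (q t)) F ^ n * x s := by
    change aeval x (aeval q F ^ n * X s) = _
    rw [map_mul, map_pow, aeval_X, comp_aeval_apply]
  rw [h2, h3] at h1
  rw [Polynomial.eval_map]
  exact h1

theorem SPropEv {k K m : Type} [Field k] [Field K] [Algebra k K] (M : Matrix m m k)
    (F : MvPolynomial (m × m) k) :
    ev (M.map (algebraMap k K)) (MvPolynomial.map (algebraMap k K) F) =
      algebraMap k K (ev M F) := by
  rw [ev, MvPolynomial.eval_map]
  exact MvPolynomial.aeval_algebraMap_apply K (fun ij : m × m => M ij.1 ij.2) F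

variable {k : Type} [NontriviallyNormedField k] [ProperSpace k] {ν : Type} [Fintype ν]
  [DecidableEq ν] {A : Subgroup (GL ν (AlgebraicClosure k))}

theorem SPropIo {m : Type} [Fintype m] [DecidableEq m]
    {R : m × m → MvPolynomial (ν × ν) k} (ρ : A →* GL m (AlgebraicClosure k))
    (hρ : ∀ g : A, (ρ g).1 = rh R g.1) {g : GL ν k} (hg : g ∈ points k A) :
    (ρ ⟨Alg.io _ g, hg⟩).1 = (rh R g).map (algebraMap k (AlgebraicClosure k)) :=
  (hρ _).trans (rh_io R g)

theorem SPropRep {m : Type} [Fintype m] [DecidableEq m]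
    {R : m × m → MvPolynomial (ν × ν) k} (ρ : A →* GL m (AlgebraicClosure k))
    (hρ : ∀ g : A, (ρ g).1 = rh R g.1) : Rep (points k A) fun g => rh R g := by
  have hi := Matrix.map_injective (m := m) (n := m)
    (algebraMap k (AlgebraicClosure k)).injective
  refine ⟨hi ?_, fun g hg h hh => hi ?_, fun a b => ⟨R (a, b), fun _ _ => rfl⟩⟩
  · have e : (⟨Alg.io _ (1 : GL ν k), (points k A).one_mem⟩ : A) = 1 :=
      Subtype.ext (map_one _)
    change (rh R (1 : GL ν k)).map _ = (1 : Matrix m m k).map _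
    rw [← SPropIo ρ hρ (points k A).one_mem, e, map_one, Matrix.map_one _ (map_zero _) (map_one _)]
    rfl
  · have e : (⟨Alg.io _ (g * h), (points k A).mul_mem hg hh⟩ : A) =
        ⟨Alg.io _ g, hg⟩ * ⟨Alg.io _ h, hh⟩ := Subtype.ext (map_mul _ _ _)
    change (rh R (g * h)).map _ = (rh R g * rh R h).map _
    rw [← SPropIo ρ hρ ((points k A).mul_mem hg hh), e, map_mul, Units.val_mul, SPropIo ρ hρ hg,
      SPropIo ρ hρ hh, Matrix.map_mul]

theorem SPropReg {m : Type} (R : m × m → MvPolynomial (ν × ν) k) (a b : m) :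
    Reg ⊤ fun x : GL ν (AlgebraicClosure k) => rh R x a b :=
  Alg.reg_aeval (R (a, b))

theorem SPropNe (hA : IsAlmostSimple k A) {m : Type} [Fintype m] [DecidableEq m]
    {R : m × m → MvPolynomial (ν × ν) k} (ρ : A →* GL m (AlgebraicClosure k))
    (hρ : ∀ g : A, (ρ g).1 = rh R g.1) (hn : ∃ g, ρ g ≠ 1) :
    ∃ g ∈ points k A, rh R g ≠ 1 := by
  by_contra hc
  obtain ⟨x, hx⟩ := hn
  refine hx (Units.ext ((hρ x).trans (Matrix.ext fun a b => sub_eq_zero.1 ?_)))
  refine PropExt hA (f := fun x => rh R x a b - (1 : Matrix m m (AlgebraicClosure k)) a b)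
    ((SPropReg R a b).sub (Reg.const _)) (fun g hg => ?_) x.1 x.2
  have h1 : rh R g = 1 := not_not.1 fun e => hc ⟨g, hg, e⟩
  change rh R (Alg.io _ g) a b - _ = 0
  rw [rh_io, h1, Matrix.map_one _ (map_zero _) (map_one _), sub_self]

/-- The entries times a power of a fixed function of the image are controlled by the image. -/
theorem SPropTame (hA : IsAlmostSimple k A) {m : Type} [Fintype m] [DecidableEq m]
    {R : m × m → MvPolynomial (ν × ν) k} (ρ : A →* GL m (AlgebraicClosure k))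
    (hρ : ∀ g : A, (ρ g).1 = rh R g.1) (hn : ∃ g, ρ g ≠ 1)
    (ab : AbsoluteValue (AlgebraicClosure k) ℝ) (hab : ∀ x : k, ab (algebraMap k _ x) = ‖x‖) :
    ∃ F : MvPolynomial (m × m) k, (∃ g ∈ points k A, ev (rh R g) F ≠ 0) ∧
      ∀ ij : ν × ν, ∃ n : ℕ, ∀ C : ℝ, ∃ D : ℝ, ∀ (g : A) (h : Matrix m m k),
        (ρ g).1 = h.map (algebraMap k _) → (∀ a b, ‖h a b‖ ≤ C) →
          ‖ev h F‖ ^ n * ab (g.1.1 ij.1 ij.2) ≤ D := by
  have hG : Good (points k A) := ⟨A, hA, rfl⟩
  have hρ' := SPropRep ρ hρ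
  let I := MvPolynomial.vanishingIdeal k (coords '' (points k A : Set (GL ν k)))
  have hI : ∀ p, p ∈ I ↔ ∀ g ∈ points k A, ev g.1 p = 0 := fun p =>
    ⟨fun h g hg => h _ ⟨g, hg, rfl⟩, fun h => by rintro _ ⟨g, hg, rfl⟩; exact h g hg⟩
  have hp : I.IsPrime := ⟨fun h => by
      have := (hI 1).1 (h ▸ Submodule.mem_top) 1 (points k A).one_mem
      rw [ev, map_one] at this
      exact one_ne_zero this,
    fun {a b} hab => by
      rw [hI, hI]
      refine hG.prime (f := fun g => ev g.1 a) (f' := fun g => ev g.1 b) ⟨a, fun _ _ => rfl⟩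
        ⟨b, fun _ _ => rfl⟩ fun g hg => ?_
      have := (hI _).1 hab g hg
      rwa [ev, map_mul] at this⟩
  obtain ⟨F, hF, H⟩ := PropAlg I hp R (coords (1 : GL ν k))
    (fun p hp => (hI p).1 hp 1 (points k A).one_mem) (by
      refine (PropKer hG hρ' (SPropNe hA ρ hρ hn) R fun _ _ _ => rfl).subset
        fun x hx => ⟨hx.1, fun t => ?_⟩
      have e : MvPolynomial.eval (coords (1 : GL ν k)) (R t) = (1 : Matrix m m k) t.1 t.2 :=
        congrFun (congrFun hρ'.one t.1) t.2
      rw [hx.2 t, e]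
      exact congrFun (congrFun (map_one (algebraMap k (AlgebraicClosure k)).mapMatrix) t.1) t.2)
  refine ⟨F, ?_, fun ij => ?_⟩
  · by_contra h
    refine hF ((hI _).2 fun g hg => ?_)
    have h1 : ev (rh R g) F = 0 := not_not.1 fun e => h ⟨g, hg, e⟩
    exact (MvPolynomial.comp_aeval_apply R (MvPolynomial.aeval (coords g)) F).trans h1
  · obtain ⟨n, P, hP, h⟩ := H ij
    refine ⟨n, fun C => ?_⟩
    choose c hc using fun i => (PropCpt (k := k) m C).exists_bound_of_continuousOn
      (continuous_ev (P.coeff i)).continuousOn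
    refine ⟨∑ i ∈ Finset.range P.natDegree, |c i| + 1, fun g M hM hC => ?_⟩
    have h1 := Alg.mem_cl hA Alg.zd_self g.1 g.2 _ fun s hs =>
      (SPropEval R P F n ij (coords s)).trans (h (coords s) fun p hp => (hI p).1 hp s hs)
    rw [SPropEval] at h1
    have e : (fun t => MvPolynomial.aeval (coords g.1) (R t)) =
        algebraMap k (AlgebraicClosure k) ∘ fun t : m × m => M t.1 t.2 :=
      funext fun t => congrFun (congrFun ((hρ g).symm.trans hM) t.1) t.2
    have e' : ∀ p : MvPolynomial (m × m) k, MvPolynomial.aeval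
        (algebraMap k (AlgebraicClosure k) ∘ fun t : m × m => M t.1 t.2) p =
        algebraMap k (AlgebraicClosure k) (ev M p) := fun p =>
      MvPolynomial.aeval_algebraMap_apply _ _ p
    rw [e, e'] at h1
    have h2 := SPropRoot ab (hP.map _) h1
      (Finset.sum_nonneg (s := Finset.range P.natDegree) fun i _ => abs_nonneg (c i))
      fun i hi => by
        rw [hP.natDegree_map] at hi
        rw [Polynomial.coeff_map]
        refine ((congrArg ab (e' _)).trans (hab _)).trans_le ?_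
        exact (hc i _ hC).trans ((le_abs_self _).trans (Finset.single_le_sum
          (fun i _ => abs_nonneg (c i)) (Finset.mem_range.2 hi)))
    rw [map_mul, map_pow, hab] at h2
    exact h2

theorem SPropDet (hA : IsAlmostSimple k A) {m : Type} [Fintype m] [DecidableEq m]
    {R : m × m → MvPolynomial (ν × ν) k} (ρ : A →* GL m (AlgebraicClosure k))
    (hρ : ∀ g : A, (ρ g).1 = rh R g.1) (x : A) : (ρ x).1.det = 1 := by
  have hG : Good (points k A) := ⟨A, hA, rfl⟩
  have hρ' := SPropRep ρ hρ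
  have hdet : ∀ g ∈ points k A, (rh R g).det = 1 := fun g hg => by
    have := hG.ab (ρ := fun g => Matrix.of fun _ _ : Unit => (rh R g).det)
      ⟨by ext; simp [hρ'.one], fun g hg h hh => by
        ext; simp [hρ'.mul g hg h hh, Matrix.mul_apply], fun _ _ => Reg.det hρ'.reg⟩
      (fun g _ h _ => by ext; simp [Matrix.mul_apply, mul_comm]) g hg
    simpa using congrFun (congrFun this ()) ()
  rw [hρ]
  refine sub_eq_zero.1 (PropExt hA (f := fun x => (rh R x).det - 1)
    ((Reg.det (SPropReg R)).sub (Reg.const _)) (fun g hg => ?_) x.1 x.2)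
  change (rh R (Alg.io _ g)).det - 1 = 0
  rw [rh_io, ← RingHom.mapMatrix_apply, ← RingHom.map_det, hdet g hg, map_one, sub_self]

theorem properK (hA : IsAlmostSimple k A) {m : Type} [Fintype m] [DecidableEq m]
    {R : m × m → MvPolynomial (ν × ν) k} (ρ : A →* GL m (AlgebraicClosure k))
    (hρ : ∀ g : A, (ρ g).1 = rh R g.1) (hn : ∃ g, ρ g ≠ 1)
    (ab : AbsoluteValue (AlgebraicClosure k) ℝ) (hab : ∀ x : k, ab (algebraMap k _ x) = ‖x‖)
    (C : ℝ) : ∃ C' : ℝ, ∀ (g : A) (h : Matrix m m k), (ρ g).1 = h.map (algebraMap k _) →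
      (∀ a b, ‖h a b‖ ≤ C) → ∀ i j, ab (g.1.1 i j) ≤ C' := by
  obtain ⟨F, ⟨g0, hg0, hF⟩, H⟩ := SPropTame hA ρ hρ hn ab hab
  choose n hn' using H
  let T : Set (Matrix m m k) := {M | ∃ g : A, (ρ g).1 = M.map (algebraMap k _)}
  have hdet : ∀ M ∈ T, M.det = 1 := fun M ⟨g, hg⟩ => by
    have := SPropDet hA ρ hρ g
    rw [hg, ← RingHom.mapMatrix_apply, ← RingHom.map_det] at this
    exact (algebraMap k (AlgebraicClosure k)).injective (this.trans (map_one _).symm)
  have hK : IsCompact (closure T ∩ {M : Matrix m m k | ∀ a b, ‖M a b‖ ≤ C}) :=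
    (PropCpt m C).inter_left isClosed_closure
  have key := hK.induction_on (p := fun S => ∃ D : ℝ, ∀ (g : A) (M : Matrix m m k),
      (ρ g).1 = M.map (algebraMap k _) → M ∈ S → ∀ i j, ab (g.1.1 i j) ≤ D)
    ⟨0, fun _ _ _ hM => hM.elim⟩
    (fun s t hst ⟨D, hD⟩ => ⟨D, fun g M e hM => hD g M e (hst hM)⟩)
    (fun s t ⟨D, hD⟩ ⟨D', hD'⟩ => ⟨max D D', fun g M e hM i j => hM.elim
      (fun h => (hD g M e h i j).trans (le_max_left _ _))
      fun h => (hD' g M e h i j).trans (le_max_right _ _)⟩) ?_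
  · obtain ⟨D, hD⟩ := key
    exact ⟨D, fun g M e hM => hD g M e ⟨subset_closure ⟨g, e⟩, hM⟩⟩
  rintro h ⟨hh, -⟩
  have h1 : h.det = 1 := closure_minimal (t := {M : Matrix m m k | M.det = 1}) hdet
    (isClosed_eq continuous_id.matrix_det continuous_const) hh
  obtain ⟨γ, hγ, hne⟩ : ∃ γ ∈ points k A, ev (rh R γ * h) F ≠ 0 := by
    by_contra hc
    have h0 := PropExt hA (f := fun x => ev (rh R x * h.map (algebraMap k _))
        (MvPolynomial.map (algebraMap k _) F))
      (Reg.ev (Reg.matmul (F' := fun _ => h.map (algebraMap k _)) (SPropReg R)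
        fun _ _ => Reg.const _) _) fun g hg => by
      change ev (rh R (Alg.io _ g) * _) _ = 0
      rw [rh_io, ← Matrix.map_mul, SPropEv, not_not.1 fun e => hc ⟨g, hg, e⟩, map_zero]
    have h2 : ev (rh R g0 * h.adjugate * h) F = 0 :=
      closure_minimal (t := {M : Matrix m m k | ev (rh R g0 * M.adjugate * h) F = 0}) (by
        rintro M ⟨g, hg⟩
        have e : (M.adjugate).map (algebraMap k (AlgebraicClosure k)) = (ρ g⁻¹).1 := by
          have := Matrix.adjugate_mul (ρ g).1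
          rw [SPropDet hA ρ hρ g, one_smul] at this
          rw [← RingHom.mapMatrix_apply, RingHom.map_adjugate, RingHom.mapMatrix_apply, ← hg,
            ← mul_one (ρ g).1.adjugate, ← (ρ g).mul_inv, ← mul_assoc, this, one_mul, map_inv]
        have h3 := h0 _ ((⟨Alg.io _ g0, hg0⟩ : A) * g⁻¹).2
        change ev (rh R _ * _) _ = 0 at h3
        rw [← hρ, map_mul, Units.val_mul, SPropIo ρ hρ hg0, ← e, ← Matrix.map_mul,
          ← Matrix.map_mul, SPropEv] at h3
        exact (algebraMap k (AlgebraicClosure k)).injective (h3.trans (map_zero _).symm))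
      (isClosed_eq ((continuous_ev F).comp ((continuous_const.matrix_mul
        continuous_id.matrix_adjugate).matrix_mul continuous_const)) continuous_const) hh
    rw [mul_assoc, Matrix.adjugate_mul, h1, one_smul, mul_one] at h2
    exact hF h2
  have hc : Continuous fun M : Matrix m m k => rh R γ * M :=
    continuous_const.matrix_mul continuous_id
  let δ := ‖ev (rh R γ * h) F‖ / 2
  have hδ : 0 < δ := half_pos (norm_pos_iff.2 hne)
  let C1 := ∑ ab : m × m, ‖(rh R γ * h) ab.1 ab.2‖ + 1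
  have e1 : ∀ᶠ M in 𝓝 h, δ < ‖ev (rh R γ * M) F‖ :=
    ((continuous_ev F).comp hc).norm.continuousAt.eventually
      (lt_mem_nhds (half_lt_self (norm_pos_iff.2 hne)))
  have e2 : ∀ᶠ M in 𝓝 h, ∀ a b, ‖(rh R γ * M) a b‖ < C1 := by
    refine eventually_all.2 fun a => eventually_all.2 fun b => ?_
    refine (hc.matrix_elem a b).norm.continuousAt.eventually (gt_mem_nhds ?_)
    exact (Finset.single_le_sum (f := fun ab : m × m => ‖(rh R γ * h) ab.1 ab.2‖)
      (fun _ _ => norm_nonneg _) (Finset.mem_univ (a, b))).trans_lt (lt_add_one _)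
  refine ⟨_, mem_nhdsWithin_of_mem_nhds (e1.and e2), ?_⟩
  choose D hD using fun ij => hn' ij C1
  refine ⟨∑ ij : ν × ν, |∑ l, ‖(γ⁻¹).1 ij.1 l‖ * (D (l, ij.2) / δ ^ n (l, ij.2))|, ?_⟩
  rintro g M hM ⟨h2, h3⟩ i j
  let g' : A := ⟨Alg.io _ γ, hγ⟩ * g
  have hg' : (ρ g').1 = (rh R γ * M).map (algebraMap k _) := by
    rw [map_mul, Units.val_mul, SPropIo ρ hρ hγ, hM, Matrix.map_mul]
  have h4 : ∀ l, ab (g'.1.1 l j) ≤ D (l, j) / δ ^ n (l, j) := fun l => by
    rw [le_div_iff₀ (pow_pos hδ _), mul_comm]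
    exact (mul_le_mul_of_nonneg_right (pow_le_pow_left₀ hδ.le h2.le _) (ab.nonneg _)).trans
      (hD (l, j) g' _ hg' fun a b => (h3 a b).le)
  have h5 : g.1.1 i j = ∑ l, (Alg.io (AlgebraicClosure k) γ⁻¹).1 i l * g'.1.1 l j := by
    rw [← Matrix.mul_apply, ← Units.val_mul, map_inv]
    exact congrArg (fun x : GL ν (AlgebraicClosure k) => x.1 i j)
      (inv_mul_cancel_left (Alg.io (AlgebraicClosure k) γ) g.1).symm
  refine le_trans ?_ ((le_abs_self _).trans (Finset.single_le_sum
    (f := fun ij : ν × ν => |∑ l, ‖(γ⁻¹).1 ij.1 l‖ * (D (l, ij.2) / δ ^ n (l, ij.2))|)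
    (fun _ _ => abs_nonneg _) (Finset.mem_univ (i, j))))
  rw [h5]
  refine (ab.sum_le _ _).trans (Finset.sum_le_sum fun l _ => ?_)
  rw [map_mul]
  exact mul_le_mul ((hab ((γ⁻¹).1 i l)).le) (h4 l) (ab.nonneg _) (norm_nonneg _)

end Pool.Agent.Lib.MP_60cbcc_al.H3A
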