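import Pool.Agent.Lib.MP_60cbcc_al.H3ASDefs
import Pool.Agent.Lib.MP_60cbcc_al.H3ASAd
import Pool.Agent.Lib.MP_60cbcc_al.H3ASProp
import Pool.Agent.Lib.MP_60cbcc_al.H3AAbs

/-!
The map from a semisimple group to a product of almost simple groups.
-/

namespace Pool.Agent.Lib.MP_60cbcc_al.H3A

open Matrix Filter Topology

set_option linter.unusedSectionVars false

variable {k : Type} [NontriviallyNormedField k] [ProperSpace k]

theorem IsKClosed.isClosed {ν : Type} [Fintype ν] [DecidableEq ν]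
    {G : Subgroup (GL ν (AlgebraicClosure k))} (h : IsKClosed k G) :
    IsClosed (points k G : Set (GL ν k)) := by
  obtain ⟨I, hI⟩ := h
  have : (points k G : Set (GL ν k)) = ⋂ p ∈ I, {g | ev g.1 p = 0} := Set.ext fun g =>
    ⟨fun hg => Set.mem_iInter₂.2 fun p hp => Alg.aeval_io_eq_zero.1 ((hI _).1 hg p hp),
      fun hg => (hI _).2 fun p hp => Alg.aeval_io_eq_zero.2 (Set.mem_iInter₂.1 hg p hp)⟩
  rw [this]
  exact isClosed_biInter fun p _ =>
    isClosed_eq ((continuous_ev p).comp Units.continuous_val) continuous_const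

theorem splitRank_bot {ν : Type} [Fintype ν] [DecidableEq ν] :
    splitRank k (points k (⊥ : Subgroup (GL ν (AlgebraicClosure k)))) = 0 := by
  refine Nat.le_zero.1 (csSup_le' ?_)
  rintro r ⟨h, y, hy, hg⟩
  by_contra hr
  have j : Fin r := ⟨0, by omega⟩
  obtain ⟨g, hg1, e⟩ := hg j (pw k)
  have h1 : g = 1 := Alg.io_injective (K := AlgebraicClosure k)
    ((Subgroup.mem_bot.1 hg1).trans (map_one _).symm)
  rw [h1, Units.val_one, one_mul] at e
  have h2 := (Units.mul_right_inj h).1 ((mul_one h.1).trans e)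
  refine hy.ne_zero j (funext fun i => top_pw_inj (k := k) ?_)
  have h3 := congrFun (congrFun h2 i) i
  rw [Matrix.one_apply_eq, diagonal_apply_eq] at h3
  rw [← h3, Pi.zero_apply, zpow_zero]

section Aux

variable {ν : Type} [Fintype ν] [DecidableEq ν]

/-- An element all of whose commutators are central is central. -/
theorem sphi_z2 {G : Subgroup (GL ν k)} (hG : Good G) {c : GL ν k} (hc : c ∈ G)
    (h : ∀ z ∈ G, Cen G (z * c * z⁻¹ * c⁻¹)) : Cen G c := fun g hg => by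
  have h2 := Units.ext (hG.fin_const (F := fun g => (g * c * g⁻¹).1) (Alg.reg_conj hG.det c)
    subset_rfl Alg.zd_self ((hG.cen_fin.image fun a => (a * c).1).subset ?_) g hg)
  · rwa [one_mul, inv_one, mul_one, mul_inv_eq_iff_eq_mul] at h2
  · rintro _ ⟨d, hd, rfl⟩
    exact ⟨d * c * d⁻¹ * c⁻¹, ⟨G.mul_mem (G.mul_mem (G.mul_mem hd hc) (G.inv_mem hd))
      (G.inv_mem hc), h d hd⟩, congrArg Units.val (inv_mul_cancel_right _ _)⟩

theorem sphi_z1 {G : Subgroup (GL ν k)} (hG : Good G) :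
    ∃ x ∈ G, ∃ y ∈ G, ¬ Cen G (x * y * x⁻¹ * y⁻¹) := by
  obtain ⟨y, hy, h⟩ := hG.noncomm
  by_contra hn
  exact h (sphi_z2 hG hy fun x hx => not_not.1 fun h1 => hn ⟨x, hx, y, hy, h1⟩)

theorem sphi_bd {K J : Type} [Field K] (ab : AbsoluteValue K ℝ) (C : ℝ) (s : Finset J) :
    ∃ C' : ℝ, ∀ (x : J → GL ν K) (hc : (s : Set J).Pairwise (Function.onFun Commute x)),
      (∀ j a b, ab ((x j).1 a b) ≤ C) → ∀ a b, ab ((s.noncommProd x hc).1 a b) ≤ C' := by
  classical
  induction s using Finset.induction_on with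
  | empty =>
    refine ⟨1, fun x hc _ a b => ?_⟩
    rw [Finset.noncommProd_empty, Units.val_one, Matrix.one_apply]
    split_ifs <;> simp
  | insert i s hi ih =>
    obtain ⟨C', h⟩ := ih
    refine ⟨∑ _l : ν, C * C', fun x hc hx a b => ?_⟩
    rw [Finset.noncommProd_insert_of_notMem _ _ _ _ hi, Units.val_mul, Matrix.mul_apply]
    refine (ab.sum_le _ _).trans (Finset.sum_le_sum fun l _ => ?_)
    rw [map_mul]
    exact mul_le_mul (hx i a l) (h x _ hx l b) (ab.nonneg _) ((ab.nonneg _).trans (hx i a l))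

variable {G : Subgroup (GL ν (AlgebraicClosure k))} {J : Type}
  {N : J → Subgroup (GL ν (AlgebraicClosure k))}

theorem sphi_le (h : IsSemisimple k G N) (j : J) : N j ≤ G := (le_iSup N j).trans h.gen.le

theorem sphi_det (h : IsSemisimple k G N) : ∀ g ∈ G, g.1.det = 1 := fun g hg => by
  rw [← h.gen] at hg
  refine Subgroup.iSup_induction N (C := fun g => g.1.det = 1) hg
    (fun j => Alg.det_one (h.simple j)) Matrix.det_one fun x y hx hy => ?_
  rw [Units.val_mul, Matrix.det_mul, hx, hy, one_mul]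

theorem sphi_dec [Finite J] (h : IsSemisimple k G N) (ab : AbsoluteValue (AlgebraicClosure k) ℝ)
    (C : ℝ) : ∃ C' : ℝ, ∀ g ∈ G, ∃ x : ∀ j, N j,
      (∀ j, ∀ y ∈ N j, (x j).1⁻¹ * g * y = y * ((x j).1⁻¹ * g)) ∧
      ((∀ j a b, ab ((x j).1.1 a b) ≤ C) → ∀ a b, ab (g.1 a b) ≤ C') := by
  classical
  have := Fintype.ofFinite J
  obtain ⟨C', hC⟩ := sphi_bd (ν := ν) ab C (Finset.univ : Finset J)
  have hc : Pairwise fun i j : J => ∀ x y, x ∈ N i → y ∈ N j → Commute x y :=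
    fun i j e x y hx hy => h.comm i j e x hx y hy
  refine ⟨C', fun g hg => ?_⟩
  rw [← h.gen, ← Subgroup.noncommPiCoprod_range (hcomm := hc)] at hg
  obtain ⟨x, rfl⟩ := hg
  rw [Subgroup.noncommPiCoprod_apply]
  refine ⟨x, fun j y hy => ?_, hC _ _⟩
  rw [← Finset.mul_noncommProd_erase _ (Finset.mem_univ j), inv_mul_cancel_left]
  exact (Finset.noncommProd_commute _ _ _ y fun i hi =>
    hc (Finset.ne_of_mem_erase hi).symm _ _ hy (x i).2).eq.symm

theorem sphi_norm [Finite J] (h : IsSemisimple k G N) (j : J) :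
    ∀ g ∈ G, ∀ y ∈ N j, g * y * g⁻¹ ∈ N j := fun g hg y hy => by
  obtain ⟨ab, -⟩ := exists_abs (k := k)
  obtain ⟨_, hd⟩ := sphi_dec h ab 0
  obtain ⟨x, hx, -⟩ := hd g hg
  have e : g * y * g⁻¹ = (x j).1 * ((x j).1⁻¹ * g * y) * g⁻¹ := by group
  have e' : (x j).1 * (y * ((x j).1⁻¹ * g)) * g⁻¹ = (x j).1 * y * (x j).1⁻¹ := by group
  rw [e, hx j y hy, e']
  exact (N j).mul_mem ((N j).mul_mem (x j).2 hy) ((N j).inv_mem (x j).2)

/-- A polynomial homomorphism induces a continuous homomorphism of the groups of points. -/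
theorem sphi_pts {m : Type} [Fintype m] [DecidableEq m] {R : m × m → MvPolynomial (ν × ν) k}
    (ρ : G →* GL m (AlgebraicClosure k)) (hρ : ∀ g : G, (ρ g).1 = rh R g.1)
    {A : Subgroup (GL m (AlgebraicClosure k))} (hA : ∀ g, ρ g ∈ A) :
    ∃ φ : points k G →* points k A, Continuous φ ∧
      ∀ g, Alg.io _ (φ g).1 = ρ ⟨Alg.io _ g.1, g.2⟩ := by
  have h1 : ∀ g : points k G, ∃ u : points k A,
      u.1.1 = rh R g.1 ∧ Alg.io _ u.1 = ρ ⟨Alg.io _ g.1, g.2⟩ := fun g => by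
    have e : (ρ ⟨Alg.io _ g.1, g.2⟩).1 = (rh R g.1).map (algebraMap k (AlgebraicClosure k)) :=
      (hρ _).trans (rh_io R g.1)
    have hd : (rh R g.1).det ≠ 0 := fun h0 => by
      have h2 := (ρ ⟨Alg.io _ g.1, g.2⟩).det_ne_zero
      rw [e, ← RingHom.mapMatrix_apply, ← RingHom.map_det, h0, map_zero] at h2
      exact h2 rfl
    have e' : Alg.io _ (Matrix.GeneralLinearGroup.mkOfDetNeZero _ hd) =
        ρ ⟨Alg.io _ g.1, g.2⟩ := Units.ext e.symm
    exact ⟨⟨Matrix.GeneralLinearGroup.mkOfDetNeZero _ hd, (Subgroup.mem_comap).2 (e' ▸ hA _)⟩,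
      rfl, e'⟩
  choose f hf hf' using h1
  refine ⟨MonoidHom.mk' f fun a b => Subtype.ext (Alg.io_injective (K := AlgebraicClosure k) ?_),
    ?_, hf'⟩
  · rw [Subgroup.coe_mul, map_mul, hf', hf', hf', ← map_mul]
    exact congrArg ρ (Subtype.ext (map_mul _ _ _))
  · refine continuous_induced_rng.2 (gl_embedding.continuous_iff.2 ?_)
    refine (continuous_congr (g := fun g : points k G => rh R g.1) hf).2 ?_
    exact continuous_matrix fun a b =>
      (continuous_ev (R (a, b))).comp (Units.continuous_val.comp continuous_subtype_val)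

end Aux

theorem IsSemisimple.exists_phi {n : ℕ} {G : Subgroup (GL (Fin n) (AlgebraicClosure k))}
    {J : Type} [Finite J] {N : J → Subgroup (GL (Fin n) (AlgebraicClosure k))}
    (h : IsSemisimple k G N) :
    ∃ (d : J → ℕ) (A : ∀ j, Subgroup (GL (Fin (d j)) (AlgebraicClosure k)))
      (φ : ∀ j, points k G →* points k (A j)),
      (∀ j, IsAlmostSimple k (A j)) ∧ (∀ j, Continuous (φ j)) ∧
      (∀ j j', j ≠ j' → ∀ g : points k G, g.1 ∈ points k (N j') → φ j g = 1) ∧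
      (∀ j (u : points k (A j)) (x : points k G), x.1 ∈ points k (N j) →
        ∃ x' : points k G, x'.1 ∈ points k (N j) ∧ φ j x' = u * φ j x * u⁻¹) ∧
      (∀ j, ∃ x y : points k G, x.1 ∈ points k (N j) ∧ y.1 ∈ points k (N j) ∧
        φ j (x * y * x⁻¹ * y⁻¹) ∉ Subgroup.center (points k (A j))) ∧
      (∀ g, (∀ j, φ j g = 1) → g ∈ Subgroup.center (points k G)) ∧
      (∀ C : ∀ j, Set (points k (A j)), (∀ j, IsCompact (C j)) →
        IsCompact {g | ∀ j, φ j g ∈ C j}) ∧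
      (Subsingleton J → ∀ j, splitRank k (points k (A j)) = splitRank k (points k G)) := by
  have hle := sphi_le h
  have hgood : ∀ j, Good (points k (N j)) := fun j => ⟨_, h.simple j, rfl⟩
  by_cases hs : Subsingleton J ∧ Nonempty J
  · obtain ⟨hs, ⟨j₀⟩⟩ := hs
    have e : ∀ j, N j = G := fun j => le_antisymm (hle j)
      (h.gen.ge.trans (iSup_le fun i => Subsingleton.elim i j ▸ le_rfl))
    refine ⟨fun _ => n, fun _ => G, fun _ => MonoidHom.id _, fun j => e j ▸ h.simple j,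
      fun _ => continuous_id, fun j j' hj => (hj (Subsingleton.elim _ _)).elim,
      fun j u x _ => ⟨u * x * u⁻¹, (e j).symm ▸ (u * x * u⁻¹).2, rfl⟩, fun j => ?_,
      fun g hg => (show g = 1 from hg j₀) ▸ Subgroup.one_mem _, fun C hC => ?_, fun _ _ => rfl⟩
    · obtain ⟨x, hx, y, hy, h1⟩ := sphi_z1 (hgood j)
      refine ⟨⟨x, hle j hx⟩, ⟨y, hle j hy⟩, hx, hy, fun h2 => h1 fun g hg => ?_⟩
      exact congrArg Subtype.val (Subgroup.mem_center_iff.1 h2 ⟨g, hle j hg⟩)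
    · have : {g : points k G | ∀ j, MonoidHom.id _ g ∈ C j} = C j₀ := Set.ext fun g =>
        ⟨fun hg => hg j₀, fun hg j => Subsingleton.elim j₀ j ▸ hg⟩
      exact this ▸ hC j₀
  obtain ⟨ab, hab, -⟩ := exists_abs (k := k)
  choose d R ρ hρ hker hcj using fun j => exists_ad (h.simple j) (sphi_det h) (sphi_norm h j)
  let ρ' : ∀ j, N j →* GL (Fin (d j)) (AlgebraicClosure k) := fun j =>
    (ρ j).comp (Subgroup.inclusion (hle j))
  have hρ' : ∀ j (g : N j), (ρ' j g).1 = rh (R j) g.1 := fun j g => hρ j _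
  have hn : ∀ j, ∃ g, ρ' j g ≠ 1 := fun j => by
    obtain ⟨x, hx, y, hy, hxy⟩ := (h.simple j).noncomm
    exact ⟨⟨x, hx⟩, fun h1 => hxy ((hker j _).1 h1 y hy)⟩
  have hx : ∀ j (g : G) (x : N j), (∀ y ∈ N j, x.1⁻¹ * g * y = y * (x.1⁻¹ * g)) →
      ρ' j x = ρ j g := fun j g x hx => by
    have h1 := (hker j ((Subgroup.inclusion (hle j) x)⁻¹ * g)).2 hx
    rwa [map_mul, map_inv, inv_mul_eq_one] at h1
  have hA : ∀ j g, ρ j g ∈ (ρ' j).range := fun j g => by
    obtain ⟨_, hd⟩ := sphi_dec h ab 0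
    obtain ⟨x, h1, -⟩ := hd g g.2
    exact ⟨x j, hx j g _ (h1 j)⟩
  choose φ hc hφ using fun j => sphi_pts (ρ j) (hρ j) (hA j)
  have hk : ∀ j g, φ j g = 1 ↔ ∀ x ∈ N j, Alg.io _ g.1 * x = x * Alg.io _ g.1 := fun j g => by
    refine Iff.trans ?_ (hker j ⟨Alg.io _ g.1, g.2⟩)
    rw [← hφ]
    exact ⟨fun e => by rw [e, OneMemClass.coe_one, map_one],
      fun e => Subtype.ext (Alg.io_injective (e.trans (map_one _).symm))⟩
  refine ⟨d, fun j => (ρ' j).range, φ, fun j => (h.simple j).range _ (hρ' j) (hn j), hc,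
    fun j j' e g hg => (hk j g).2 (h.comm j' j e.symm _ hg), fun j u x hxj => ?_, fun j => ?_,
    fun g hg => Subgroup.mem_center_iff.2 fun y => ?_, fun C hC => ?_,
    fun hs' j => (hs ⟨hs', ⟨j⟩⟩).elim⟩
  · obtain ⟨a, ha⟩ : ∃ a, ρ' j a = Alg.io _ u.1 := u.2
    obtain ⟨x', hx', e⟩ := hcj j _ u.1 ha.symm x.1 hxj
    have hx'' : x' ∈ points k G := hle j hx'
    have e' : (⟨Alg.io _ x', hx''⟩ : G) = Subgroup.inclusion (hle j) a *
        ⟨Alg.io _ x.1, x.2⟩ * (Subgroup.inclusion (hle j) a)⁻¹ := Subtype.ext e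
    refine ⟨⟨x', hx''⟩, hx', Subtype.ext (Alg.io_injective (K := AlgebraicClosure k) ?_)⟩
    rw [Subgroup.coe_mul, Subgroup.coe_mul, Subgroup.coe_inv, map_mul, map_mul, map_inv, ← ha,
      hφ, hφ, e', map_mul, map_mul, map_inv]
    rfl
  · obtain ⟨x, hx, y, hy, h1⟩ := sphi_z1 (hgood j)
    have hm := (points k (N j)).mul_mem ((points k (N j)).mul_mem ((points k (N j)).mul_mem hx hy)
      ((points k (N j)).inv_mem hx)) ((points k (N j)).inv_mem hy)
    refine ⟨⟨x, hle j hx⟩, ⟨y, hle j hy⟩, hx, hy, fun h2 => h1 (sphi_z2 (hgood j) hm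
      fun z hz g hg => Alg.io_injective (K := AlgebraicClosure k) ?_)⟩
    have h3 := (hk j (⟨z, hle j hz⟩ * ⟨_, hle j hm⟩ * ⟨z, hle j hz⟩⁻¹ * ⟨_, hle j hm⟩⁻¹)).1 (by
      rw [map_mul, map_mul, map_mul, map_inv, map_inv, mul_inv_eq_one, mul_inv_eq_iff_eq_mul]
      exact Subgroup.mem_center_iff.1 h2 _) _ hg
    rw [map_mul _ g, map_mul _ _ g]
    exact h3.symm
  · refine Subtype.ext (Alg.io_injective (K := AlgebraicClosure k) ?_)
    have h1 : G ≤ Subgroup.centralizer {Alg.io _ g.1} := h.gen.ge.trans (iSup_le fun j x hx =>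
      Subgroup.mem_centralizer_singleton_iff.2 ((hk j g).1 (hg j) x hx).symm)
    rw [Subgroup.coe_mul, Subgroup.coe_mul, map_mul, map_mul]
    exact Subgroup.mem_centralizer_singleton_iff.1 (h1 y.2)
  · choose c hcb using fun j => bd_of_isCompact ((hC j).image continuous_subtype_val)
    choose c' hc' using fun j => properK (h.simple j) (ρ' j) (hρ' j) (hn j) ab hab (c j)
    obtain ⟨c₀, h0⟩ := (Set.finite_range c').bddAbove
    obtain ⟨c₁, h1⟩ := sphi_dec h ab c₀
    have hcl := h.closed.isClosed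
    obtain ⟨K, hK, h2, -⟩ := Bd.exists_compact hcl (fun g hg =>
      (algebraMap k (AlgebraicClosure k)).injective (by
        rw [map_one, RingHom.map_det]; exact sphi_det h _ hg))
      (S := Subtype.val '' {g | ∀ j, φ j g ∈ C j}) (Subtype.coe_image_subset _ _) ⟨c₁, by
        rintro _ ⟨g, hg, rfl⟩ a b
        obtain ⟨x, h3, h4⟩ := h1 _ g.2
        rw [← hab]
        refine h4 (fun j a' b' => (hc' j (x j) (φ j g).1.1 ?_
          (hcb j _ ⟨_, hg j, rfl⟩) a' b').trans (h0 ⟨j, rfl⟩)) a b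
        rw [hx j ⟨_, g.2⟩ _ (h3 j), ← hφ]
        rfl⟩
    refine (hcl.isClosedEmbedding_subtypeVal.isCompact_preimage hK).of_isClosed_subset ?_
      fun g hg => h2 ⟨g, hg, rfl⟩
    rw [Set.ofPred_forall]
    exact isClosed_iInter fun j => (hC j).isClosed.preimage (hc j)

end Pool.Agent.Lib.MP_60cbcc_al.H3A
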