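import Pool.Agent.Lib.MP_60cbcc_al.H3AMain
import Pool.Agent.Lib.MP_60cbcc_al.H3ASAbs
import Pool.Agent.Lib.MP_60cbcc_al.H3ASPhi

/-!
The main theorem for groups of rational points of semisimple groups.
-/

namespace Pool.Agent.Lib.MP_60cbcc_al.H3A

open MeasureTheory Topology

theorem IsPoints.ex {H : Type} [Group H] [TopologicalSpace H] {J : Type} {M : J → Subgroup H}
    {r : ℕ} (h : IsPoints H M r) :
    ∃ (k : Type) (_ : NontriviallyNormedField k) (_ : LocallyCompactSpace k) (n : ℕ)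
      (G : Subgroup (GL (Fin n) (AlgebraicClosure k)))
      (N : J → Subgroup (GL (Fin n) (AlgebraicClosure k))) (e : H ≃ₜ* points k G),
      IsSemisimple k G N ∧ splitRank k (points k G) = r ∧
        ∀ j x, x ∈ M j ↔ (e x).1 ∈ points k (N j) := by
  obtain ⟨k, i, h0, n, G, N, e, h1, h2, h3, h4, h5⟩ := h
  let e' := (MonoidHom.ofInjective h3.injective).trans (MulEquiv.subgroupCongr h4)
  refine ⟨k, i, h0, n, G, N, ⟨e', h3.continuous.subtype_mk _, h3.continuous_iff.2 ?_⟩, h1, h2,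
    fun j x => ?_⟩
  · exact continuous_subtype_val.congr fun y =>
      (congrArg Subtype.val (e'.apply_symm_apply y)).symm
  · rw [← h5]
    exact (Subgroup.mem_map_iff_mem h3.injective).symm

theorem mainS {ι : Type} [Fintype ι] [DecidableEq ι] {H : ι → Type} [∀ i, Group (H i)]
    [∀ i, TopologicalSpace (H i)] [∀ i, IsTopologicalGroup (H i)] [∀ i, MeasurableSpace (H i)]
    [∀ i, BorelSpace (H i)] {J : ι → Type} [∀ i, Finite (J i)] {M : ∀ i, J i → Subgroup (H i)}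
    {r : ι → ℕ} (hH : ∀ i, IsPoints (H i) (M i) (r i))
    (hc : ∀ i j, ¬ IsCompact (M i j : Set (H i)))
    (hr : 2 ≤ ∑ i, r i) (Γ : Subgroup (∀ i, H i)) (hΓ : IsLattice Γ)
    (hd : ∀ i j, (Γ ⊔ (M i j).map (MonoidHom.mulSingle H i)).topologicalClosure.relIndex
      (commutator _) ≠ 0)
    (hZ : Subgroup.center Γ = ⊥)
    {X : Type} [MeasurableSpace X] [StandardBorelSpace X] [MulAction Γ X]
    [MeasurableConstSMul Γ X] (μ : Measure X) [IsProbabilityMeasure μ] [ErgodicSMul Γ X μ] :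
    (∃ F : Set X, F.Finite ∧ μ Fᶜ = 0) ∨ ∀ᵐ x ∂μ, MulAction.stabilizer Γ x = ⊥ := by
  classical
  choose k _ _ n G N e hG hk hM using fun i => (hH i).ex
  have : ∀ i, ProperSpace (k i) := fun i =>
    ProperSpace.of_nontriviallyNormedField_of_weaklyLocallyCompactSpace _
  choose d A φ h1 h2 h3 h4 h5 h6 h7 h8 using fun i => (hG i).exists_phi
  have hA : ∀ i j, Good (points (k i) (A i j)) := fun i j => ⟨_, h1 i j, rfl⟩
  have he : ∀ i, IsClosedEmbedding fun x : H i => (e i x).1 := fun i =>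
    (hG i).closed.isClosed.isClosedEmbedding_subtypeVal.comp (e i).toHomeomorph.isClosedEmbedding
  have : ∀ i, LocallyCompactSpace (H i) := fun i => (he i).locallyCompactSpace
  have : ∀ i, SecondCountableTopology (H i) := fun i => (he i).isEmbedding.secondCountableTopology
  have : ∀ i, T2Space (H i) := fun i => (he i).isEmbedding.t2Space
  have : ∀ s : Σ i, J i, LocallyCompactSpace (points (k s.1) (A s.1 s.2)) := fun s =>
    (hA s.1 s.2).isClosed.locallyCompactSpace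
  have : ∀ s : Σ i, J i, SecondCountableTopology (points (k s.1) (A s.1 s.2)) := fun s =>
    TopologicalSpace.Subtype.secondCountableTopology _
  let _ : ∀ s : Σ i, J i, MeasurableSpace (points (k s.1) (A s.1 s.2)) := fun s => borel _
  have : ∀ s : Σ i, J i, BorelSpace (points (k s.1) (A s.1 s.2)) := fun s => ⟨rfl⟩
  have h7' : ∀ i (C : ∀ j, Set (points (k i) (A i j))), (∀ j, IsCompact (C j)) →
      IsCompact {g | ∀ j, φ i j (e i g) ∈ C j} := fun i C hC =>
    (e i).toHomeomorph.isCompact_preimage.2 (h7 i C hC)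
  have hc' : ∀ s : Σ i, J i, ¬ CompactSpace (points (k s.1) (A s.1 s.2)) := fun ⟨i, j⟩ h => by
    refine hc i j ((h7' i (fun t => {u | t ≠ j → u = 1})
      fun t => ?_).of_isClosed_subset ?_ fun g hg t ht => h3 i t j ht _ ((hM i j g).1 hg))
    · by_cases e : t = j
      · subst e
        simpa using isCompact_univ
      · simp [e]
    · exact Set.ext (hM i j) ▸ ((hG i).simple j).closed.isClosed.preimage (he i).continuous
  choose L f1 f2 f3 using fun s : Σ i, J i => factor (hA s.1 s.2) (hc' s)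
  let Φ : (∀ i, H i) →* ∀ s : Σ i, J i, points (k s.1) (A s.1 s.2) :=
    MonoidHom.pi fun s => ((φ s.1 s.2).comp (e s.1).toMulEquiv.toMonoidHom).comp
      (Pi.evalMonoidHom _ s.1)
  have hΦ' : ∀ g s, Φ g s = φ s.1 s.2 (e s.1 (g s.1)) := fun _ _ => rfl
  have hΦ : Continuous Φ := continuous_pi fun s =>
    (h2 s.1 s.2).comp ((e s.1).continuous.comp (continuous_apply s.1))
  refine H3Z.main3 L f1 ?_ Φ hΦ (fun K hK => ?_) (fun g hg => ?_) (fun s => _) ?_ ?_ ?_ Γ hΓ
    (fun s => hd s.1 s.2) hZ μ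
  · refine (subsingleton_or_nontrivial (Σ i, J i)).elim (fun hs => .inr ?_) .inl
    have h9 : ∀ i, IsEmpty (J i) → r i = 0 := fun i h => by
      rw [← hk, ← (hG i).gen, iSup_of_empty, splitRank_bot]
    obtain ⟨i, -, hi⟩ := Finset.exists_ne_zero_of_sum_ne_zero (ne_of_gt (two_pos.trans_le hr))
    obtain ⟨j⟩ : Nonempty (J i) := not_isEmpty_iff.1 fun h => hi (h9 i h)
    rw [Fintype.sum_eq_single i fun t ht => h9 t ⟨fun u =>
      ht (congrArg Sigma.fst (hs.elim ⟨t, u⟩ ⟨i, j⟩))⟩] at hr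
    refine ⟨⟨i, j⟩, f2 _ ?_⟩
    rwa [h8 i ⟨fun a b => eq_of_heq (Sigma.mk.inj (hs.elim ⟨i, a⟩ ⟨i, b⟩)).2⟩ j, hk]
  · exact (isCompact_univ_pi fun i => h7' i (fun j => (fun u => u ⟨i, j⟩) '' K) fun j =>
      hK.image (continuous_apply _)).of_isClosed_subset (hK.isClosed.preimage hΦ)
        fun g hg i _ j => ⟨_, hg, rfl⟩
  · refine Subgroup.mem_center_iff.2 fun x => funext fun i => (e i).injective ?_
    rw [Pi.mul_apply, Pi.mul_apply, map_mul, map_mul]
    exact Subgroup.mem_center_iff.1 (h6 i _ fun j => congrFun hg ⟨i, j⟩) _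
  · rintro ⟨i, j⟩ ⟨i', j'⟩ h _ ⟨x, hx, rfl⟩
    change φ i' j' (e i' (Pi.mulSingle (M := H) i x i')) = 1
    by_cases e : i' = i
    · subst e
      rw [Pi.mulSingle_eq_same]
      exact h3 i' j' j (fun e => h (e ▸ rfl)) _ ((hM _ j x).1 hx)
    · rw [Pi.mulSingle_eq_of_ne e, map_one, map_one]
  · rintro ⟨i, j⟩ u _ ⟨x, hx, rfl⟩
    obtain ⟨x', hx', h⟩ := h4 i j u _ ((hM i j x).1 hx)
    obtain ⟨x', rfl⟩ := (e i).surjective x'
    exact ⟨_, ⟨x', (hM i j x').2 hx', rfl⟩, by simpa [hΦ'] using h⟩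
  · rintro ⟨i, j⟩
    obtain ⟨x, y, hx, hy, h⟩ := h5 i j
    obtain ⟨x, rfl⟩ := (e i).surjective x
    obtain ⟨y, rfl⟩ := (e i).surjective y
    exact ⟨_, ⟨x, (hM i j x).2 hx, rfl⟩, _, ⟨y, (hM i j y).2 hy, rfl⟩, by simpa [hΦ'] using h⟩

end Pool.Agent.Lib.MP_60cbcc_al.H3A
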