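import Pool.Agent.Lib.MP_60cbcc_al.H3ABase

/-!
Spectral measures of unitary representations of a vector group.
-/

namespace Pool.Agent.Lib.MP_60cbcc_al.H3A

open Matrix Filter Topology

set_option linter.unusedSectionVars false

open MeasureTheory
open scoped InnerProductSpace

/-- Continuous unitary characters. -/
structure Chr (E : Type) [NormedAddCommGroup E] where
  /-- The underlying function. -/
  val : E → ℂ
  add : ∀ X Y, val (X + Y) = val X * val Y
  norm : ∀ X, ‖val X‖ = 1
  cont : Continuous val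

noncomputable instance (E : Type) [NormedAddCommGroup E] : MeasurableSpace (Chr E) :=
  MeasurableSpace.comap Chr.val inferInstance

variable {E H : Type} [NormedAddCommGroup E] [ProperSpace E] [NormedAddCommGroup H]
  [InnerProductSpace ℂ H] [CompleteSpace H]

theorem Chr.spec_meas : Measurable (Chr.val : Chr E → E → ℂ) := comap_measurable _

theorem Chr.spec_meas_at (X : E) : Measurable fun χ : Chr E => χ.val X :=
  (measurable_pi_apply X).comp Chr.spec_meas

theorem Chr.spec_zero (χ : Chr E) : χ.val 0 = 1 := by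
  have h := χ.add 0 0
  have h0 : χ.val 0 ≠ 0 := fun h0 => by simpa [h0] using χ.norm 0
  rw [add_zero] at h
  exact (mul_eq_left₀ h0).1 h.symm

theorem Chr.spec_neg (χ : Chr E) (X : E) : χ.val (-X) = star (χ.val X) := by
  have h := χ.add X (-X)
  rw [add_neg_cancel, χ.spec_zero] at h
  have h2 : χ.val X * star (χ.val X) = 1 := by
    rw [Complex.star_def, Complex.mul_conj, Complex.normSq_eq_norm_sq, χ.norm]; simp
  have h0 : χ.val X ≠ 0 := fun h0 => by simpa [h0] using χ.norm X
  exact mul_left_cancel₀ h0 (h.symm.trans h2.symm)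

/-- Finitely many values of a character, as a point of a torus. -/
def Chr.specAt (I : Finset E) (χ : Chr E) : I → Metric.sphere (0 : ℂ) 1 :=
  fun i => ⟨χ.val i, by simp [χ.norm]⟩

theorem Chr.specAt_meas (I : Finset E) : Measurable (Chr.specAt I) :=
  measurable_pi_iff.2 fun i => (Chr.spec_meas_at (i : E)).subtype_mk

open BoundedContinuousFunction in
theorem Chr.specAt_map (μ μ' : Measure (Chr E)) [IsFiniteMeasure μ] [IsFiniteMeasure μ']
    (h : ∀ X, ∫ χ, χ.val X ∂μ = ∫ χ, χ.val X ∂μ') (I : Finset E) :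
    μ.map (Chr.specAt I) = μ'.map (Chr.specAt I) := by
  let M : Submonoid ((I → Metric.sphere (0 : ℂ) 1) →ᵇ ℂ) :=
    { carrier := {f | ∃ X : E, ∀ χ : Chr E, f (Chr.specAt I χ) = χ.val X}
      one_mem' := ⟨0, fun χ => by simp [χ.spec_zero]⟩
      mul_mem' := by
        rintro f g ⟨X, hX⟩ ⟨Y, hY⟩
        exact ⟨X + Y, fun χ => by simp [hX, hY, χ.add]⟩ }
  have hstar : ∀ f ∈ M, star f ∈ M := by
    rintro f ⟨X, hX⟩
    exact ⟨-X, fun χ => by rw [χ.spec_neg, ← hX]; rfl⟩
  refine ext_of_forall_mem_subalgebra_integral_eq_of_polish (𝕜 := ℂ)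
    (A := StarAlgebra.adjoin ℂ (M : Set _)) ?_ ?_
  · intro x y hxy
    obtain ⟨i, hi⟩ := Function.ne_iff.1 hxy
    let c : (I → Metric.sphere (0 : ℂ) 1) →ᵇ ℂ :=
      mkOfCompact ⟨fun z => (z i : ℂ), by fun_prop⟩
    refine ⟨_, ⟨toContinuousMapStarₐ ℂ c, ⟨c, StarAlgebra.subset_adjoin ℂ _ ⟨i, fun χ => rfl⟩,
      rfl⟩, rfl⟩, fun hc => hi (Subtype.ext hc)⟩
  · intro g hg
    have h1 : g ∈ Submodule.span ℂ (M : Set ((I → Metric.sphere (0 : ℂ) 1) →ᵇ ℂ)) := by
      have h2 : g ∈ Algebra.adjoin ℂ ((M : Set ((I → Metric.sphere (0 : ℂ) 1) →ᵇ ℂ)) ∪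
          star (M : Set ((I → Metric.sphere (0 : ℂ) 1) →ᵇ ℂ))) := hg
      rw [← Subalgebra.mem_toSubmodule, Algebra.adjoin_eq_span] at h2
      refine Submodule.span_mono ?_ h2
      refine SetLike.coe_subset_coe.2 (Submonoid.closure_le.2 ?_)
      rintro f (hf | hf)
      · exact hf
      · simpa using hstar _ hf
    clear hg
    induction h1 using Submodule.span_induction with
    | mem f hf =>
      obtain ⟨X, hX⟩ := hf
      rw [integral_map (Chr.specAt_meas I).aemeasurable f.continuous.aestronglyMeasurable,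
        integral_map (Chr.specAt_meas I).aemeasurable f.continuous.aestronglyMeasurable]
      simp only [hX, h]
    | zero => simp
    | add f g _ _ hf hg =>
      simp only [BoundedContinuousFunction.coe_add, Pi.add_apply]
      rw [integral_add (f.integrable _) (g.integrable _),
        integral_add (f.integrable _) (g.integrable _), hf, hg]
    | smul c f _ hf =>
      simp only [BoundedContinuousFunction.coe_smul, smul_eq_mul]
      rw [integral_const_mul, integral_const_mul, hf]

theorem Chr.ext_measure (μ μ' : Measure (Chr E)) [IsFiniteMeasure μ] [IsFiniteMeasure μ']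
    (h : ∀ X, ∫ χ, χ.val X ∂μ = ∫ χ, χ.val X ∂μ') : μ = μ' := by
  have key : μ.map Chr.val = μ'.map Chr.val := by
    refine IsProjectiveLimit.unique (P := fun I : Finset E => (μ.map Chr.val).map I.restrict)
      (fun _ => rfl) fun I => ?_
    have hm : Measurable fun (z : I → Metric.sphere (0 : ℂ) 1) (i : I) => (z i : ℂ) := by
      fun_prop
    have e : (I.restrict ∘ Chr.val : Chr E → I → ℂ) =
        (fun (z : I → Metric.sphere (0 : ℂ) 1) (i : I) => (z i : ℂ)) ∘ Chr.specAt I := rfl
    beta_reduce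
    rw [Measure.map_map (Finset.measurable_restrict I) Chr.spec_meas,
      Measure.map_map (Finset.measurable_restrict I) Chr.spec_meas, e,
      ← Measure.map_map hm (Chr.specAt_meas I), ← Measure.map_map hm (Chr.specAt_meas I),
      Chr.specAt_map μ μ' h I]
  ext s hs
  obtain ⟨t, ht, rfl⟩ := hs
  rw [← Measure.map_apply Chr.spec_meas ht, ← Measure.map_apply Chr.spec_meas ht, key]

section State

open WeakDual
open scoped CompactlySupported

theorem spec_state {A : Type} [CommCStarAlgebra A] [MeasurableSpace (characterSpace ℂ A)]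
    [BorelSpace (characterSpace ℂ A)] (ω : A →ₗ[ℂ] ℂ) (hpos : ∀ a, 0 ≤ (ω (star a * a)).re)
    (hre : ∀ a, ω (star a) = star (ω a)) :
    ∃ μ : Measure (characterSpace ℂ A), IsFiniteMeasure μ ∧ ∀ a, ∫ σ, σ a ∂μ = ω a := by
  let Γ := gelfandStarTransform A
  let j : C_c(characterSpace ℂ A, ℝ) → C(characterSpace ℂ A, ℂ) := fun g =>
    ⟨fun σ => (g σ : ℂ), by fun_prop⟩
  have jadd : ∀ g g', j (g + g') = j g + j g' := fun g g' => by ext σ; simp [j]
  have jsmul : ∀ (c : ℝ) g, j (c • g) = (c : ℂ) • j g := fun c g => by ext σ; simp [j]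
  have jstar : ∀ g, star (j g) = j g := fun g => by ext σ; simp [j]
  let Λ₀ : C_c(characterSpace ℂ A, ℝ) →ₗ[ℝ] ℝ :=
    { toFun := fun g => (ω (Γ.symm (j g))).re
      map_add' := fun g g' => by simp [jadd]
      map_smul' := fun c g => by simp [jsmul] }
  let Λ : C_c(characterSpace ℂ A, ℝ) →ₚ[ℝ] ℝ := PositiveLinearMap.mk₀ Λ₀ fun g hg => by
    let s : C_c(characterSpace ℂ A, ℝ) :=
      ⟨⟨fun σ => √(g σ), by fun_prop⟩, HasCompactSupport.of_compactSpace _⟩
    have e : j g = star (j s) * j s := by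
      ext σ
      have : 0 ≤ g σ := hg σ
      simp [j, s, ← Complex.ofReal_mul, this]
    change 0 ≤ (ω (Γ.symm (j g))).re
    rw [e, map_mul, map_star]
    exact hpos _
  have hΛ : ∀ g, ((Λ g : ℝ) : ℂ) = ω (Γ.symm (j g)) := fun g => by
    have := hre (Γ.symm (j g))
    rw [← map_star, jstar] at this
    exact Complex.conj_eq_iff_re.1 this.symm
  refine ⟨RealRMK.rieszMeasure Λ, inferInstance, fun a => ?_⟩
  have ca : Continuous fun σ : characterSpace ℂ A => σ a := (Γ a).continuous
  let g₁ : C_c(characterSpace ℂ A, ℝ) :=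
    ⟨⟨fun σ => (σ a).re, Complex.continuous_re.comp ca⟩, HasCompactSupport.of_compactSpace _⟩
  let g₂ : C_c(characterSpace ℂ A, ℝ) :=
    ⟨⟨fun σ => (σ a).im, Complex.continuous_im.comp ca⟩, HasCompactSupport.of_compactSpace _⟩
  have e : Γ a = j g₁ + Complex.I • j g₂ := by
    ext σ
    change σ a = ((σ a).re : ℂ) + Complex.I * ((σ a).im : ℂ)
    rw [mul_comm, Complex.re_add_im]
  have ea : a = Γ.symm (j g₁) + Complex.I • Γ.symm (j g₂) := by
    rw [← map_smul, ← map_add, ← e, Γ.symm_apply_apply]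
  have hi : Integrable (fun σ : characterSpace ℂ A => σ a) (RealRMK.rieszMeasure Λ) :=
    ca.integrable_of_hasCompactSupport (HasCompactSupport.of_compactSpace _)
  rw [← integral_re_add_im hi]
  conv_rhs => rw [ea, map_add, map_smul, ← hΛ, ← hΛ, ← RealRMK.integral_rieszMeasure,
    ← RealRMK.integral_rieszMeasure]
  rw [smul_eq_mul, mul_comm Complex.I]
  rfl

end State

section Op

variable [MeasurableSpace E] [BorelSpace E] (ρ : E → H ≃ₗᵢ[ℂ] H)

/-- A bump function. -/
noncomputable def specF (r : ℝ) (X : E) : ℝ := max (r - ‖X‖) 0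

theorem specF_cont (r : ℝ) : Continuous (specF r : E → ℝ) := by unfold specF; fun_prop

theorem specF_nonneg (r : ℝ) (X : E) : 0 ≤ specF r X := le_max_right _ _

theorem specF_zero {r : ℝ} {X : E} (h : r ≤ ‖X‖) : specF r X = 0 := max_eq_right (by linarith)

theorem specF_supp (r : ℝ) : HasCompactSupport (specF r : E → ℝ) :=
  HasCompactSupport.intro (isCompact_closedBall 0 r) fun X hX =>
    specF_zero (le_of_lt (by simpa using hX))

theorem specF_int (r : ℝ) : Integrable (specF r : E → ℝ) Measure.addHaar :=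
  (specF_cont r).integrable_of_hasCompactSupport (specF_supp r)

theorem specF_pos {r : ℝ} (hr : 0 < r) : 0 < ∫ X : E, specF r X ∂Measure.addHaar :=
  (specF_cont r).integral_pos_of_hasCompactSupport_nonneg_nonzero (specF_supp r)
    (specF_nonneg r) (x := 0) (by simp [specF, hr])

variable {ρ}

theorem specF_int' (hc : ∀ v, Continuous fun X => ρ X v) (r : ℝ) (Y : E) (v : H) :
    Integrable (fun X => (specF r (X - Y) : ℂ) • ρ X v) Measure.addHaar := by
  have := specF_cont (E := E) r
  refine Continuous.integrable_of_hasCompactSupport (by have := hc v; fun_prop) ?_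
  refine HasCompactSupport.intro (isCompact_closedBall Y r) fun X hX => ?_
  rw [specF_zero (le_of_lt (by simpa [dist_eq_norm] using hX))]
  simp

theorem specF_int'' (hc : ∀ v, Continuous fun X => ρ X v) (r : ℝ) (v : H) :
    Integrable (fun X => (specF r X : ℂ) • ρ X v) Measure.addHaar := by
  simpa using specF_int' hc r 0 v

/-- The average of the representation against the bump function. -/
noncomputable def specQ (hc : ∀ v, Continuous fun X => ρ X v) (r : ℝ) : H →L[ℂ] H :=
  LinearMap.mkContinuous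
    { toFun := fun v => ∫ X, (specF r X : ℂ) • ρ X v ∂Measure.addHaar
      map_add' := fun v w => by
        rw [← integral_add (specF_int'' hc r v) (specF_int'' hc r w)]; simp
      map_smul' := fun c v => by
        rw [← integral_smul]
        simp only [map_smul, RingHom.id_apply, smul_comm c] }
    (∫ X : E, specF r X ∂Measure.addHaar) fun v => by
      rw [← integral_mul_const]
      refine norm_integral_le_of_norm_le ((specF_int r).mul_const _) (ae_of_all _ fun X => ?_)
      simp [norm_smul, abs_of_nonneg (specF_nonneg r X)]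

theorem specQ_apply (hc : ∀ v, Continuous fun X => ρ X v) (r : ℝ) (v : H) :
    specQ hc r v = ∫ X, (specF r X : ℂ) • ρ X v ∂Measure.addHaar := rfl

theorem specQ_comm (hc : ∀ v, Continuous fun X => ρ X v) (r : ℝ) (T : H →L[ℂ] H)
    (hT : ∀ X v, T (ρ X v) = ρ X (T v)) : T * specQ hc r = specQ hc r * T := by
  ext v
  simp only [mul_apply_eq_comp, specQ_apply]
  rw [← T.integral_comp_comm (specF_int'' hc r v)]
  simp [hT]

theorem specQ_lip (hadd : ∀ X Y v, ρ (X + Y) v = ρ X (ρ Y v))
    (hc : ∀ v, Continuous fun X => ρ X v) (r : ℝ) {Y : E} (hY : ‖Y‖ ≤ 1) (v : H) :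
    ‖ρ Y (specQ hc r v) - specQ hc r v‖ ≤
      ‖Y‖ * (Measure.addHaar : Measure E).real (Metric.closedBall 0 (r + 1)) * ‖v‖ := by
  have e : ρ Y (specQ hc r v) = ∫ X, (specF r (X - Y) : ℂ) • ρ X v ∂Measure.addHaar := by
    rw [← integral_add_left_eq_self _ Y, specQ_apply]
    have := (ρ Y).toLinearIsometry.toContinuousLinearMap.integral_comp_comm (specF_int'' hc r v)
    simp only [LinearIsometry.coe_toContinuousLinearMap, LinearIsometryEquiv.coe_toLinearIsometry,
      map_smul] at this
    rw [← this]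
    simp [hadd]
  rw [e, specQ_apply, ← integral_sub (specF_int' hc r Y v) (specF_int'' hc r v)]
  have hb : MeasurableSet (Metric.closedBall (0 : E) (r + 1)) := measurableSet_closedBall
  refine (norm_integral_le_of_norm_le (g := (Metric.closedBall (0 : E) (r + 1)).indicator
    fun _ => ‖Y‖ * ‖v‖) ((integrableOn_const measure_closedBall_lt_top.ne).integrable_indicator hb)
    (ae_of_all _ fun X => ?_)).trans (le_of_eq ?_)
  · rw [← sub_smul, norm_smul, LinearIsometryEquiv.norm_map, ← Complex.ofReal_sub,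
      Complex.norm_real, Real.norm_eq_abs]
    have h1 := abs_norm_sub_norm_le X (X - Y)
    rw [sub_sub_cancel] at h1
    by_cases hX : X ∈ Metric.closedBall (0 : E) (r + 1)
    · rw [Set.indicator_of_mem hX]
      refine mul_le_mul_of_nonneg_right ((abs_max_sub_max_le_abs _ _ _).trans ?_) (norm_nonneg _)
      rwa [show r - ‖X - Y‖ - (r - ‖X‖) = ‖X‖ - ‖X - Y‖ by ring]
    · rw [Set.indicator_of_notMem hX]
      have h2 : r + 1 < ‖X‖ := by simpa using hX
      have h3 := (abs_le.1 h1).2
      rw [specF_zero (by linarith), specF_zero (by linarith)]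
      simp
  · rw [integral_indicator_const _ hb, smul_eq_mul]
    ring

theorem specQ_approx (hc : ∀ v, Continuous fun X => ρ X v) (r : ℝ) {ξ : H} {ε : ℝ}
    (h : ∀ X, ‖X‖ < r → ‖ρ X ξ - ξ‖ ≤ ε) :
    ‖specQ hc r ξ - ((∫ X : E, specF r X ∂Measure.addHaar : ℝ) : ℂ) • ξ‖ ≤
      (∫ X : E, specF r X ∂Measure.addHaar) * ε := by
  have hi : Integrable (fun X : E => (specF r X : ℂ) • ξ) Measure.addHaar :=
    (specF_int r).ofReal.smul_const ξ
  rw [specQ_apply, ← integral_complex_ofReal, ← integral_smul_const, ← integral_mul_const,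
    ← integral_sub (specF_int'' hc r ξ) hi]
  refine norm_integral_le_of_norm_le ((specF_int r).mul_const _) (ae_of_all _ fun X => ?_)
  rw [← smul_sub, norm_smul, Complex.norm_real, Real.norm_of_nonneg (specF_nonneg r X)]
  rcases lt_or_ge ‖X‖ r with hX | hX
  · exact mul_le_mul_of_nonneg_left (h X hX) (specF_nonneg r X)
  · simp [specF_zero hX]

end Op

open WeakDual in
theorem spec_alg {A : Type} [CommCStarAlgebra A] (ω : A →ₗ[ℂ] ℂ)
    (hpos : ∀ a, 0 ≤ (ω (star a * a)).re) (hre : ∀ a, ω (star a) = star (ω a)) (U : E → A)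
    (hadd : ∀ X Y, U (X + Y) = U X * U Y) (hU : ∀ X, star (U X) * U X = 1) (P : ℕ → A)
    (hP : ∀ n, Tendsto (fun Y => U Y * P n) (𝓝 0) (𝓝 (P n)))
    (hω : ∀ ε > 0, ∃ n, (ω (star (P n - 1) * (P n - 1))).re ≤ ε) :
    ∃ μ : Measure (Chr E), IsFiniteMeasure μ ∧ ∀ X, ∫ χ, χ.val X ∂μ = ω (U X) := by
  classical
  borelize ↥(characterSpace ℂ A)
  obtain ⟨μ, hμ, h⟩ := spec_state ω hpos hre
  have ca : ∀ a, Continuous fun σ : characterSpace ℂ A => σ a := fun a =>
    (gelfandStarTransform A a).continuous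
  let N : Set (characterSpace ℂ A) := ⋂ n, {σ | σ (P n) = 0}
  have hN : MeasurableSet N :=
    (isClosed_iInter fun n => isClosed_eq (ca _) continuous_const).measurableSet
  have hsq : ∀ (σ : characterSpace ℂ A) a, σ (star a * a) = ((‖σ a‖ ^ 2 : ℝ) : ℂ) := fun σ a => by
    rw [map_mul, map_star, Complex.star_def, Complex.conj_mul']
    simp
  have hn : ∀ (σ : characterSpace ℂ A) X, ‖σ (U X)‖ = 1 := fun σ X => by
    have h1 := hsq σ (U X)
    rw [hU, map_one] at h1
    exact (pow_eq_one_iff_of_nonneg (norm_nonneg _) two_ne_zero).1 (by exact_mod_cast h1.symm)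
  have hcont : ∀ σ : characterSpace ℂ A, σ ∉ N → Continuous fun X => σ (U X) := fun σ hσ => by
    obtain ⟨n, hn0⟩ : ∃ n, σ (P n) ≠ 0 := by simpa [N] using hσ
    have h0 : Tendsto (fun Y => σ (U Y)) (𝓝 0) (𝓝 1) := by
      have h1 := (((map_continuous σ).tendsto _).comp (hP n)).div_const (σ (P n))
      rw [div_self hn0] at h1
      exact h1.congr fun Y => by simp [hn0]
    refine continuous_iff_continuousAt.2 fun X => ?_
    have h2 : Tendsto (fun Y => Y - X) (𝓝 X) (𝓝 0) := by
      simpa using (tendsto_id (x := 𝓝 X)).sub_const X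
    have h3 := (h0.comp h2).const_mul (σ (U X))
    rw [mul_one] at h3
    exact h3.congr fun Y => by simp [← map_mul, ← hadd]
  have hnull : μ N = 0 := by
    rw [← measureReal_eq_zero_iff]
    refine le_antisymm (le_of_forall_pos_le_add fun ε hε => ?_) measureReal_nonneg
    obtain ⟨n, hn⟩ := hω ε hε
    rw [← h, zero_add] at *
    simp only [hsq] at hn
    rw [integral_complex_ofReal, Complex.ofReal_re] at hn
    refine le_trans ?_ hn
    rw [← integral_indicator_one hN]
    refine integral_mono ((integrable_const 1).indicator hN)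
      ((((ca _).norm.pow 2)).integrable_of_hasCompactSupport
        (HasCompactSupport.of_compactSpace _)) fun σ => ?_
    by_cases hσ : σ ∈ N
    · have : σ (P n) = 0 := Set.mem_iInter.1 hσ n
      simp [hσ, this]
    · simp [hσ]
  let F : characterSpace ℂ A → Chr E := fun σ =>
    { val := fun X => if σ ∈ N then 1 else σ (U X)
      add := fun X Y => by split_ifs <;> simp [hadd]
      norm := fun X => by split_ifs <;> simp [hn]
      cont := by
        by_cases hσ : σ ∈ N
        · simpa [hσ] using continuous_const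
        · simpa [hσ] using hcont σ hσ }
  have hF : Measurable F := measurable_comap_iff.2 <| measurable_pi_iff.2 fun X =>
    Measurable.ite hN measurable_const (ca _).measurable
  refine ⟨μ.map F, inferInstance, fun X => ?_⟩
  rw [integral_map hF.aemeasurable (Chr.spec_meas_at X).aestronglyMeasurable, ← h]
  refine integral_congr_ae ?_
  filter_upwards [measure_eq_zero_iff_ae_notMem.1 hnull] with σ hσ
  simp [F, hσ]

theorem exists_spec (ρ : E → H ≃ₗᵢ[ℂ] H) (hadd : ∀ X Y v, ρ (X + Y) v = ρ X (ρ Y v))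
    (hc : ∀ v, Continuous fun X => ρ X v) (ξ : H) :
    ∃ μ : Measure (Chr E), IsFiniteMeasure μ ∧ ∀ X, ∫ χ, χ.val X ∂μ = ⟪ξ, ρ X ξ⟫_ℂ := by
  borelize E
  let U : E → H →L[ℂ] H := fun X => (ρ X).toLinearIsometry.toContinuousLinearMap
  have hU : ∀ X v, U X v = ρ X v := fun _ _ => rfl
  have h0 : ∀ v, ρ 0 v = v := fun v => (ρ 0).injective (by rw [← hadd, add_zero])
  have hs : ∀ X, star (U X) = U (-X) := fun X => by
    rw [ContinuousLinearMap.star_eq_adjoint, eq_comm, ContinuousLinearMap.eq_adjoint_iff]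
    intro v w
    rw [hU, hU, ← (ρ X).inner_map_map, ← hadd, add_neg_cancel, h0]
  have hm : ∀ X Y, U (X + Y) = U X * U Y := fun X Y => by ext v; exact hadd X Y v
  have hcomm : ∀ x ∈ Set.range U, ∀ y ∈ Set.range U, x * y = y * x := by
    rintro _ ⟨X, rfl⟩ _ ⟨Y, rfl⟩
    rw [← hm, ← hm, add_comm]
  have hst : Set.range U ∪ star (Set.range U) = Set.range U := by
    refine Set.union_eq_left.2 fun T ⟨X, hX⟩ => ⟨-X, ?_⟩
    rw [← hs, hX, star_star]
  let A : StarSubalgebra ℂ (H →L[ℂ] H) :=
    StarSubalgebra.centralizer ℂ (StarSubalgebra.centralizer ℂ (Set.range U) : Set (H →L[ℂ] H))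
  have hA : (A : Set (H →L[ℂ] H)) = (Set.range U).centralizer.centralizer := by
    rw [← hst]; exact StarSubalgebra.coe_centralizer_centralizer ℂ _
  have hmem : ∀ T, T ∈ A ↔ T ∈ (Set.range U).centralizer.centralizer := fun T => by
    rw [← hA]; rfl
  have : IsClosed (A : Set (H →L[ℂ] H)) := hA ▸ Set.isClosed_centralizer _
  let : CommCStarAlgebra A :=
    { (inferInstance : CStarAlgebra A) with
      mul_comm := fun a b => Subtype.ext <| Set.centralizer_centralizer_comm_of_comm hcomm _
        ((hmem _).1 a.2) _ ((hmem _).1 b.2) }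
  let ω : A →ₗ[ℂ] ℂ :=
    { toFun := fun a => ⟪ξ, a.1 ξ⟫_ℂ
      map_add' := fun a b => by simp
      map_smul' := fun c a => by simp }
  have hsq : ∀ a : A, (ω (star a * a)).re = ‖a.1 ξ‖ ^ 2 := fun a => by
    change (⟪ξ, star a.1 (a.1 ξ)⟫_ℂ).re = _
    rw [ContinuousLinearMap.star_eq_adjoint, ContinuousLinearMap.adjoint_inner_right]
    exact inner_self_eq_norm_sq (𝕜 := ℂ) _
  have hUA : ∀ X, U X ∈ A := fun X => (hmem _).2 (Set.subset_centralizer_centralizer ⟨X, rfl⟩)
  have hQA : ∀ r, specQ hc r ∈ A := fun r => (hmem _).2 fun T hT =>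
    specQ_comm hc r T fun X v => (congrArg (fun S : H →L[ℂ] H => S v) (hT _ ⟨X, rfl⟩)).symm
  let c : ℕ → ℝ := fun n => ∫ X : E, specF (1 / (n + 1 : ℝ)) X ∂Measure.addHaar
  have hcp : ∀ n, 0 < c n := fun n => specF_pos Nat.one_div_pos_of_nat
  refine spec_alg ω (fun a => hsq a ▸ sq_nonneg _) (fun a => ?_) (fun X => ⟨U X, hUA X⟩)
    (fun X Y => Subtype.ext (hm X Y)) (fun X => Subtype.ext ?_)
    (fun n => ((c n : ℂ)⁻¹) • ⟨specQ hc (1 / (n + 1 : ℝ)), hQA _⟩) (fun n => ?_) fun ε hε => ?_
  · change ⟪ξ, star a.1 ξ⟫_ℂ = star ⟪ξ, a.1 ξ⟫_ℂ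
    rw [ContinuousLinearMap.star_eq_adjoint, ContinuousLinearMap.adjoint_inner_right,
      Complex.star_def, inner_conj_symm]
  · change star (U X) * U X = 1
    rw [hs, ← hm, neg_add_cancel]
    ext v
    exact h0 v
  · simp only [mul_smul_comm]
    refine Tendsto.const_smul ?_ _
    rw [tendsto_iff_norm_sub_tendsto_zero]
    have h1 := (tendsto_norm_zero (E := E)).mul_const
      ((Measure.addHaar : Measure E).real (Metric.closedBall 0 (1 / (n + 1 : ℝ) + 1)))
    rw [zero_mul] at h1
    refine squeeze_zero' (Eventually.of_forall fun _ => norm_nonneg _) ?_ h1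
    filter_upwards [Metric.closedBall_mem_nhds (0 : E) one_pos] with Y hY
    exact ContinuousLinearMap.opNorm_le_bound _ (by positivity) fun v =>
      specQ_lip hadd hc _ (by simpa using hY) v
  · obtain ⟨δ, hδ, h1⟩ := Metric.continuous_iff.1 (hc ξ) 0 (√ε) (by positivity)
    obtain ⟨n, hn⟩ := exists_nat_one_div_lt hδ
    refine ⟨n, ?_⟩
    have h2 := specQ_approx hc (1 / (n + 1 : ℝ)) (ξ := ξ) (ε := √ε) fun X hX => by
      have := h1 X (by simpa using hX.trans hn)
      rw [h0, dist_eq_norm] at this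
      exact this.le
    rw [hsq, ← Real.sq_sqrt hε.le]
    refine pow_le_pow_left₀ (norm_nonneg _) ?_ 2
    have h3 : (c n : ℂ) ≠ 0 := by exact_mod_cast (hcp n).ne'
    change ‖(c n : ℂ)⁻¹ • specQ hc (1 / (n + 1 : ℝ)) ξ - ξ‖ ≤ _
    rw [show (c n : ℂ)⁻¹ • specQ hc (1 / (n + 1 : ℝ)) ξ - ξ =
      (c n : ℂ)⁻¹ • (specQ hc (1 / (n + 1 : ℝ)) ξ - (c n : ℂ) • ξ) by
        rw [smul_sub, inv_smul_smul₀ h3], norm_smul, norm_inv, Complex.norm_real,
      Real.norm_of_nonneg (hcp n).le, inv_mul_le_iff₀ (hcp n)]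
    exact h2

end Pool.Agent.Lib.MP_60cbcc_al.H3A
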