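import Pool.Agent.Lib.MP_60cbcc_al.H3APhi

/-!
The top graded piece is a vector group.
-/

namespace Pool.Agent.Lib.MP_60cbcc_al.H3A

open Matrix Filter Topology

set_option linter.unusedSectionVars false

variable {k : Type} [NontriviallyNormedField k] [ProperSpace k] {ν : Type} [Fintype ν]
  [DecidableEq ν] {G : Subgroup (GL ν k)}

variable {y : ν → ℝ} {a : ℝ}

/-- The part of the Lie algebra of degree `a`. -/
def topE (G : Subgroup (GL ν k)) (y : ν → ℝ) (a : ℝ) : Submodule k (Matrix ν ν k) :=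
  lie G ⊓ supS fun i j => y i - y j = a

theorem vec_conj_sup {P : ℝ → Prop} {z : GL ν k} (hz : z ∈ Zgl y) {X : Matrix ν ν k}
    (hX : Sup (fun i j => P (y i - y j)) X) :
    Sup (fun i j => P (y i - y j)) (z.1 * X * (z⁻¹).1) := by
  have h1 : Sup (fun i j => P (y i - y j)) (z.1 * X) :=
    Sup.mul (R := fun i j => y i = y j) (R' := fun i j => P (y i - y j))
      (fun i j l e h => by rw [e]; exact h) (mem_Zgl.1 hz) hX
  exact Sup.mul (R := fun i j => P (y i - y j)) (R' := fun i j => y i = y j)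
    (fun i j l h e => by rw [← e]; exact h) h1 (mem_Zgl.1 (inv_mem hz))

theorem conj_mem_topE {z : GL ν k} (hz : z ∈ G) (hz' : z ∈ Zgl y) {X : Matrix ν ν k}
    (hX : X ∈ topE G y a) : z.1 * X * (z⁻¹).1 ∈ topE G y a :=
  ⟨lie_conj hz hX.1, vec_conj_sup (P := fun r => r = a) hz' hX.2⟩

theorem vec_sup_lt (ha : 0 < a) {X : Matrix ν ν k} (hX : X ∈ topE G y a) :
    Sup (fun i j => y j < y i) X := fun i j h => by
  have : y i - y j = a := hX.2 i j h
  linarith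

theorem vec_conj_sub (z u : GL ν k) :
    (z * u * z⁻¹).1 - 1 = z.1 * (u.1 - 1) * (z⁻¹).1 := by
  rw [mul_sub, sub_mul, mul_one, Units.mul_inv, Units.val_mul, Units.val_mul]

/-- The leading term of a function with a Taylor expansion. -/
theorem vec_lead {f : k → k} {P : Polynomial k} {N : ℕ}
    (h : (fun τ => f τ - P.eval τ) =O[𝓝 0] fun τ : k => τ ^ N)
    (hn : ¬ f =O[𝓝 0] fun τ : k => τ ^ N) :
    ∃ (m : ℕ) (b : k), b ≠ 0 ∧ Tendsto (fun τ => f τ / τ ^ m) (𝓝[≠] 0) (𝓝 b) := by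
  by_cases hP : P = 0
  · exact (hn (by simpa [hP] using h)).elim
  obtain ⟨Q, hQ, hd⟩ := Polynomial.exists_eq_pow_rootMultiplicity_mul_and_not_dvd P hP 0
  generalize Polynomial.rootMultiplicity 0 P = m at hQ
  have hev : ∀ τ, P.eval τ = τ ^ m * Q.eval τ := fun τ => by rw [hQ]; simp
  have hQc : Tendsto (fun τ => Q.eval τ) (𝓝 (0 : k)) (𝓝 (Q.eval 0)) := Q.continuous.tendsto 0
  by_cases hm : N ≤ m
  · refine (hn ?_).elim
    have h1 : (fun τ : k => P.eval τ) =O[𝓝 0] fun τ : k => τ ^ N := by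
      obtain ⟨n, rfl⟩ := Nat.exists_eq_add_of_le hm
      have h2 : Tendsto (fun τ : k => τ ^ n * Q.eval τ) (𝓝 0) (𝓝 (0 ^ n * Q.eval 0)) :=
        ((continuous_pow n).tendsto 0).mul hQc
      have h3 := (Asymptotics.isBigO_refl (fun τ : k => τ ^ N) (𝓝 0)).mul (h2.isBigO_one k)
      refine h3.congr (fun τ => ?_) fun τ => mul_one _
      rw [hev, pow_add, mul_assoc]
    simpa using h.add h1
  refine ⟨m, Q.eval 0, fun e => hd (Polynomial.dvd_iff_isRoot.2 e), ?_⟩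
  have h1 : (fun τ => f τ - P.eval τ) =o[𝓝 0] fun τ : k => τ ^ m :=
    h.trans_isLittleO (Asymptotics.isLittleO_pow_pow (not_le.1 hm))
  have h2 := (h1.tendsto_div_nhds_zero.add hQc).mono_left (nhdsWithin_le_nhds (s := {0}ᶜ))
  rw [zero_add] at h2
  refine h2.congr' ?_
  filter_upwards [self_mem_nhdsWithin] with τ hτ
  have : τ ^ m ≠ 0 := pow_ne_zero _ hτ
  rw [hev]
  field_simp
  ring

theorem vec_poly (X : Matrix ν ν k) (q : MvPolynomial (ν × ν) k) :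
    ∃ P : Polynomial k, ∀ τ : k, P.eval τ = ev (τ • X) q := by
  induction q using MvPolynomial.induction_on with
  | C c => exact ⟨Polynomial.C c, fun τ => by simp [ev]⟩
  | add p q hp hq =>
    obtain ⟨P, hP⟩ := hp
    obtain ⟨Q, hQ⟩ := hq
    exact ⟨P + Q, fun τ => by rw [Polynomial.eval_add, hP, hQ]; simp [ev]⟩
  | mul_X p n hp =>
    obtain ⟨P, hP⟩ := hp
    exact ⟨P * (Polynomial.X * Polynomial.C (X n.1 n.2)), fun τ => by
      rw [Polynomial.eval_mul, hP]; simp [ev, mul_comm τ (X n.1 n.2)]⟩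

theorem vec_pw_tendsto {e : ℤ} (he : 0 < e) :
    Tendsto (fun l : ℕ => ((pw k ^ l : kˣ) : k) ^ e) atTop (𝓝 0) := by
  obtain ⟨n, rfl⟩ := Int.eq_ofNat_of_zero_le he.le
  have hn : n ≠ 0 := by rintro rfl; simp at he
  have h1 := (tendsto_pow_atTop_nhds_zero_of_norm_lt_one (pw_lt (k := k))).pow n
  rw [zero_pow hn] at h1
  simpa using h1

theorem vec_pw_tendsto' {e : ℤ} (he : 0 < e) :
    Tendsto (fun l : ℕ => ((pw k ^ l : kˣ) : k) ^ e) atTop (𝓝[≠] 0) :=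
  tendsto_nhdsWithin_iff.2 ⟨vec_pw_tendsto he,
    Eventually.of_forall fun l => zpow_ne_zero e (pw k ^ l).ne_zero⟩

theorem vec_pw_zpow {e : ℤ} (h : (pw k : k) ^ e = 1) : e = 0 := by
  have h1 : ‖(pw k : k)‖ ^ e = 1 := by rw [← norm_zpow, h, norm_one]
  exact (zpow_eq_one_iff_right₀ (pw_pos (k := k)).le (pw_lt (k := k)).ne).1 h1

/-- The data used in the construction of the vector group. -/
structure VecD (G : Subgroup (GL ν k)) (y : ν → ℝ) (a : ℝ)
    (π : Matrix ν ν k →ₗ[k] Matrix ν ν k) (χ ψ : Matrix ν ν k → GL ν k) : Prop where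
  pi : IsPi G π
  ch : Chart G π χ
  hy : y ∈ aa G
  ha : 0 < a
  mem : ∀ X ∈ topE G y a, ψ X ∈ G ∧ ψ X ∈ Ugl y ∧ π ((ψ X).1 - 1) = X
  uniq : ∀ X ∈ topE G y a, ∀ u ∈ G, u ∈ Ugl y → π (u.1 - 1) = X → u = ψ X

namespace VecD

variable {π : Matrix ν ν k →ₗ[k] Matrix ν ν k} {χ ψ : Matrix ν ν k → GL ν k}
  {X : Matrix ν ν k}

theorem near (D : VecD G y a π χ ψ) :
    ∀ᶠ X : lie G in 𝓝 0, X.1 ∈ topE G y a → ψ X = χ X := by
  filter_upwards [D.ch.mem, D.ch.mem_Ugl D.pi D.hy] with X h1 h2 hX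
  exact (D.uniq X hX _ h1.1 (h2 (vec_sup_lt D.ha hX)) h1.2).symm

theorem equiv (D : VecD G y a π χ ψ) (hX : X ∈ topE G y a) {w : ν → ℤ} (hw : w ∈ YY G) {e : ℤ}
    (he : ∀ i j, X i j ≠ 0 → w i - w j = e) (t : kˣ) (τ : k) (i j : ν) :
    ((ψ (((t : k) ^ e * τ) • X)).1 - 1) i j =
      (t : k) ^ (w i - w j) * ((ψ (τ • X)).1 - 1) i j := by
  obtain ⟨h1, h2, h3⟩ := D.mem _ ((topE G y a).smul_mem τ hX)
  have h4 := D.uniq _ ((topE G y a).smul_mem ((t : k) ^ e * τ) hX)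
    (dg w t * ψ (τ • X) * (dg w t)⁻¹) (G.mul_mem (G.mul_mem (hw t) h1) (G.inv_mem (hw t)))
    (dg_conj_Grp h2 w t) (by
      rw [vec_conj_sub, D.pi.dg_conj hw, h3]
      ext i j
      rw [dg_conj_apply, Matrix.smul_apply, Matrix.smul_apply, smul_eq_mul, smul_eq_mul]
      by_cases h : X i j = 0
      · simp [h]
      · rw [he i j h, mul_assoc])
  rw [← h4, vec_conj_sub, dg_conj_apply]

theorem line (hX : X ∈ lie G) :
    Tendsto (fun τ : k => τ • (⟨X, hX⟩ : lie G)) (𝓝 0) (𝓝 0) :=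
  (continuous_id.smul continuous_const).tendsto' 0 0 (by simp)

theorem near_line (D : VecD G y a π χ ψ) (hX : X ∈ topE G y a) :
    ∀ᶠ τ : k in 𝓝 0, ψ (τ • X) = χ (τ • X) := by
  filter_upwards [(line hX.1).eventually D.near] with τ h
  exact h ((topE G y a).smul_mem τ hX)

open scoped Matrix.Norms.Elementwise in
theorem slope (D : VecD G y a π χ ψ) (hX : X ∈ topE G y a) (i j : ν) :
    Tendsto (fun τ : k => ((ψ (τ • X)).1 - 1) i j / τ) (𝓝[≠] 0) (𝓝 (X i j)) := by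
  have h0 := (hasDerivAt_id' (0 : k)).smul_const (⟨X, hX.1⟩ : lie G)
  rw [one_smul] at h0
  have h1 : HasFDerivAt (fun X : lie G => (χ X).1) (lie G).subtypeL
      ((0 : k) • (⟨X, hX.1⟩ : lie G)) := by
    rw [zero_smul]
    exact D.ch.der.hasFDerivAt
  have h2 := h1.comp_hasDerivAt (0 : k) h0
  have h3 := hasDerivAt_pi.1 (hasDerivAt_pi.1 h2 i) j
  have h4 := hasDerivAt_iff_tendsto_slope_zero.1 h3
  refine h4.congr' ?_
  filter_upwards [nhdsWithin_le_nhds (D.near_line hX)] with τ h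
  rw [h]
  simp [D.ch.zero, div_eq_inv_mul]

open scoped Matrix.Norms.Elementwise in
theorem taylor (D : VecD G y a π χ ψ) (hX : X ∈ topE G y a) (i j : ν) (N : ℕ) :
    ∃ P : Polynomial k, (fun τ : k => ((ψ (τ • X)).1 - 1) i j - P.eval τ) =O[𝓝 0]
      fun τ : k => τ ^ N := by
  obtain ⟨q, hq⟩ := D.ch.tay i j N
  obtain ⟨P, hP⟩ := vec_poly X q
  refine ⟨P - Polynomial.C ((1 : Matrix ν ν k) i j), ?_⟩
  have h1 := hq.comp_tendsto (line hX.1)
  have h2 : (fun τ : k => ‖τ • (⟨X, hX.1⟩ : lie G)‖ ^ N) =O[𝓝 0] fun τ : k => τ ^ N := by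
    refine Asymptotics.IsBigO.of_bound (‖(⟨X, hX.1⟩ : lie G)‖ ^ N) (Eventually.of_forall fun τ => ?_)
    rw [norm_smul, norm_pow, norm_pow, norm_mul, norm_norm, norm_norm, mul_pow, mul_comm]
  refine (h1.trans h2).congr' ?_ EventuallyEq.rfl
  filter_upwards [D.near_line hX] with τ h
  rw [h]
  simp [hP]

theorem exists_w (D : VecD G y a π χ ψ) (hX : X ∈ topE G y a) {i₀ j₀ : ν} (h0 : X i₀ j₀ ≠ 0) :
    ∃ w ∈ YY G, 0 < w i₀ - w j₀ ∧ (∀ i j, X i j ≠ 0 → w i - w j = w i₀ - w j₀) ∧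
      (∀ i j, y j < y i → 0 < w i - w j) ∧ ∀ i j, a < y i - y j ↔ w i₀ - w j₀ < w i - w j := by
  obtain ⟨w, hw, -, h⟩ := rat_diff (YY G) D.hy
  have e0 : y i₀ - y j₀ = a := hX.2 _ _ h0
  have hpos : ∀ i j, y j < y i → 0 < w i - w j := fun i j hij => by
    have := (h i i i j).1 (by linarith)
    rwa [sub_self] at this
  refine ⟨w, hw, hpos _ _ (by linarith [D.ha]), fun i j hij => ?_, hpos,
    fun i j => e0 ▸ h i₀ j₀ i j⟩
  have e1 : y i - y j = a := hX.2 _ _ hij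
  have h1 := (h i j i₀ j₀).not.1 (by linarith)
  have h2 := (h i₀ j₀ i j).not.1 (by linarith)
  omega

theorem zero (D : VecD G y a π χ ψ) : ψ 0 = 1 :=
  (D.uniq 0 (zero_mem _) 1 G.one_mem (one_mem _) (by simp)).symm

theorem high (D : VecD G y a π χ ψ) (hX : X ∈ topE G y a) :
    Sup (fun i j => a < y i - y j) ((ψ X).1 - 1 - X) := by
  intro i j hij
  by_cases hX0 : X = 0
  · subst hX0
    simp [D.zero] at hij
  obtain ⟨i₀, j₀, h0⟩ : ∃ i₀ j₀, X i₀ j₀ ≠ 0 := by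
    by_contra h
    push Not at h
    exact hX0 (Matrix.ext h)
  obtain ⟨w, hw, he, hs, -, hlt⟩ := D.exists_w hX h0
  rw [hlt]
  by_contra hle
  refine hij ?_
  have h1 := (D.slope hX i j).comp (vec_pw_tendsto' (k := k) he)
  have h2 : ∀ l : ℕ, ((ψ X).1 - 1) i j = ((pw k ^ l : kˣ) : k) ^ (w i₀ - w j₀ - (w i - w j)) *
      (((ψ ((((pw k ^ l : kˣ) : k) ^ (w i₀ - w j₀)) • X)).1 - 1) i j /
        ((pw k ^ l : kˣ) : k) ^ (w i₀ - w j₀)) := fun l => by
    have := D.equiv hX hw hs (pw k ^ l) 1 i j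
    rw [mul_one, one_smul] at this
    have hne := (pw k ^ l).ne_zero
    rw [this, zpow_sub₀ hne (w i₀ - w j₀)]
    have := zpow_ne_zero (w i₀ - w j₀) hne
    have := zpow_ne_zero (w i - w j) hne
    field_simp
  rw [Matrix.sub_apply, sub_eq_zero]
  rcases (not_lt.1 hle).eq_or_lt with e | e
  · refine tendsto_nhds_unique tendsto_const_nhds (h1.congr fun l => ?_)
    rw [h2 l, e, sub_self, zpow_zero, one_mul]
    rfl
  · have h3 := (vec_pw_tendsto (k := k) (sub_pos.2 e)).mul h1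
    have h4 : X i j = 0 := by
      by_contra h
      exact e.ne (hs i j h)
    rw [h4] at h3 ⊢
    rw [mul_zero] at h3
    exact tendsto_nhds_unique tendsto_const_nhds (h3.congr fun l => (h2 l).symm)

theorem kill (D : VecD G y a π χ ψ) (htop : ∀ γ ∈ Rts G, γ ⬝ᵥ y ≤ a) {Y : Matrix ν ν k}
    (hY : Sup (fun i j => a < y i - y j) Y) : π Y = 0 := by
  have h1 := D.pi.wt {γ | a < γ ⬝ᵥ y} Y fun i j h => by
    have : a < y i - y j := hY i j h
    rwa [← rt_dot G i j D.hy] at this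
  ext i j
  by_contra h
  have h2 : a < rt G i j ⬝ᵥ y := h1 i j h
  refine (htop _ ⟨fun e => ?_, i, j, rfl, π Y, D.pi.mem Y, h⟩).not_gt h2
  rw [e, zero_dotProduct] at h2
  exact (h2.trans D.ha).false

theorem eq_of_high (D : VecD G y a π χ ψ) (htop : ∀ γ ∈ Rts G, γ ⬝ᵥ y ≤ a) (hX : X ∈ topE G y a)
    {u : GL ν k} (hu : u ∈ G) (hu' : u ∈ Ugl y)
    (h : Sup (fun i j => a < y i - y j) (u.1 - 1 - X)) : u = ψ X := by
  refine D.uniq X hX u hu hu' ?_
  have := D.kill htop h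
  rwa [map_sub, D.pi.id X hX.1, sub_eq_zero] at this

theorem add (D : VecD G y a π χ ψ) (htop : ∀ γ ∈ Rts G, γ ⬝ᵥ y ≤ a) (hX : X ∈ topE G y a)
    {X' : Matrix ν ν k} (hX' : X' ∈ topE G y a) : ψ (X + X') = ψ X * ψ X' := by
  obtain ⟨h1, h2, -⟩ := D.mem X hX
  obtain ⟨h3, h4, -⟩ := D.mem X' hX'
  refine (D.eq_of_high htop (add_mem hX hX') (G.mul_mem h1 h3) (mul_mem h2 h4) ?_).symm
  have e : (ψ X * ψ X').1 - 1 - (X + X') = ((ψ X).1 - 1 - X) + ((ψ X').1 - 1 - X') +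
      (((ψ X).1 - 1 - X) * ((ψ X').1 - 1) + X * ((ψ X').1 - 1)) := by
    rw [Units.val_mul]
    noncomm_ring
  rw [e]
  refine mem_supS.1 (add_mem (add_mem (mem_supS.2 (D.high hX)) (mem_supS.2 (D.high hX')))
    (add_mem (mem_supS.2 ?_) (mem_supS.2 ?_)))
  · exact Sup.mul (R := fun i j => a < y i - y j) (R' := fun i j => y j < y i)
      (fun i j l p q => by linarith) (D.high hX) (mem_Ugl.1 h4)
  · exact Sup.mul (R := fun i j => y i - y j = a) (R' := fun i j => y j < y i)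
      (fun i j l p q => by linarith) hX.2 (mem_Ugl.1 h4)

theorem conj (D : VecD G y a π χ ψ) (htop : ∀ γ ∈ Rts G, γ ⬝ᵥ y ≤ a) {z : GL ν k} (hz : z ∈ G)
    (hz' : z ∈ Zgl y) (hX : X ∈ topE G y a) : z * ψ X * z⁻¹ = ψ (z.1 * X * (z⁻¹).1) := by
  obtain ⟨h1, h2, -⟩ := D.mem X hX
  refine D.eq_of_high htop (conj_mem_topE hz hz' hX) (G.mul_mem (G.mul_mem hz h1) (G.inv_mem hz))
    ?_ ?_
  · rw [mem_Ugl, vec_conj_sub]
    have := vec_conj_sup (P := fun r => 0 < r) hz' (X := (ψ X).1 - 1)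
      fun i j h => sub_pos.2 (mem_Ugl.1 h2 i j h)
    exact fun i j h => sub_pos.1 (this i j h)
  · rw [vec_conj_sub, ← sub_mul, ← mul_sub]
    exact vec_conj_sup (P := fun r => a < r) hz' (D.high hX)

open scoped Matrix.Norms.Elementwise in
theorem cont (D : VecD G y a π χ ψ) (htop : ∀ γ ∈ Rts G, γ ⬝ᵥ y ≤ a) :
    ContinuousOn ψ (topE G y a) := by
  rw [continuousOn_iff_continuous_domRestrict, continuous_iff_continuousAt]
  intro X₀
  have h1 : Tendsto (fun X : lie G => χ X) (𝓝 0) (𝓝 1) := by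
    rw [gl_embedding.tendsto_nhds_iff]
    have := D.ch.der.continuousAt.tendsto
    simpa [D.ch.zero, Function.comp_def] using this
  have h2 : Tendsto (fun X : (topE G y a : Set (Matrix ν ν k)) =>
      (⟨X.1 - X₀.1, sub_mem X.2.1 X₀.2.1⟩ : lie G)) (𝓝 X₀) (𝓝 0) :=
    (Continuous.subtype_mk (continuous_subtype_val.sub continuous_const) _).tendsto' X₀ 0
      (Subtype.ext (sub_self _))
  have h3 := (h1.comp h2).const_mul (ψ X₀)
  rw [mul_one] at h3
  refine h3.congr' ?_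
  filter_upwards [h2.eventually D.near] with X h
  have h4 := D.add htop X₀.2 (sub_mem X.2 X₀.2)
  rw [add_sub_cancel] at h4
  rw [Set.domRestrict_apply, h4, h (sub_mem X.2 X₀.2)]
  rfl

theorem ray (D : VecD G y a π χ ψ) {θ : ν → ℝ} (hX : X ∈ topE G y a)
    (hθ : Sup (fun i j => rt G i j = θ) X) :
    Sup (fun i j => ∃ c : ℕ, 0 < c ∧ rt G i j = (c : ℝ) • θ) ((ψ X).1 - 1) := by
  intro i j hij
  by_cases hX0 : X = 0
  · subst hX0
    simp [D.zero] at hij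
  obtain ⟨i₀, j₀, h0⟩ : ∃ i₀ j₀, X i₀ j₀ ≠ 0 := by
    by_contra h
    push Not at h
    exact hX0 (Matrix.ext h)
  obtain ⟨w, hw, he, hs, hpos, -⟩ := D.exists_w hX h0
  have hd := hpos i j (mem_Ugl.1 (D.mem X hX).2.1 i j hij)
  obtain ⟨N, hN⟩ : ∃ N : ℕ, w i - w j < (w i₀ - w j₀) * N :=
    ⟨(w i - w j).toNat + 1, by
      have : ((w i - w j).toNat : ℤ) = w i - w j := Int.toNat_of_nonneg hd.le
      push_cast
      nlinarith⟩
  obtain ⟨P, hP⟩ := D.taylor hX i j N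
  obtain ⟨m, b, hb, hlim⟩ := vec_lead hP fun hO => by
    have h1 := hO.comp_tendsto (vec_pw_tendsto (k := k) he)
    have h2 := h1.mul (Asymptotics.isBigO_refl
      (fun l : ℕ => ((pw k ^ l : kˣ) : k) ^ (-(w i - w j))) atTop)
    have h3 : Tendsto (fun l : ℕ => (((pw k ^ l : kˣ) : k) ^ (w i₀ - w j₀)) ^ N *
        ((pw k ^ l : kˣ) : k) ^ (-(w i - w j))) atTop (𝓝 0) := by
      refine (vec_pw_tendsto (k := k) (sub_pos.2 hN)).congr fun l => ?_
      rw [← zpow_natCast _ N, ← _root_.zpow_mul, ← zpow_add₀ (pw k ^ l).ne_zero, sub_eq_add_neg]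
    refine hij (tendsto_nhds_unique tendsto_const_nhds ((h2.trans_tendsto h3).congr fun l => ?_))
    have := D.equiv hX hw hs (pw k ^ l) 1 i j
    rw [mul_one, one_smul] at this
    simp only [Function.comp_apply]
    rw [this, mul_right_comm, ← zpow_add₀ (pw k ^ l).ne_zero, add_neg_cancel, zpow_zero, one_mul]
  have key : ∀ v ∈ YY G, v i - v j = m * (v i₀ - v j₀) := fun v hv => by
    have hs' : ∀ i' j', X i' j' ≠ 0 → v i' - v j' = v i₀ - v j₀ := fun i' j' h => by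
      have h1 := rt_dot G i' j' (cst_mem hv)
      rw [hθ i' j' h, ← hθ i₀ j₀ h0, rt_dot G i₀ j₀ (cst_mem hv)] at h1
      simp only [cst] at h1
      exact_mod_cast h1.symm
    have hne := (pw k).ne_zero
    have hc : ((pw k : kˣ) : k) ^ (v i₀ - v j₀) ≠ 0 := zpow_ne_zero _ hne
    have h1 : Tendsto (fun τ : k => ((pw k : kˣ) : k) ^ (v i₀ - v j₀) * τ) (𝓝[≠] 0) (𝓝[≠] 0) :=
      tendsto_nhdsWithin_iff.2 ⟨by
        have := (tendsto_id (x := 𝓝 (0 : k))).const_mul (((pw k : kˣ) : k) ^ (v i₀ - v j₀))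
        rw [mul_zero] at this
        exact this.mono_left nhdsWithin_le_nhds,
        eventually_mem_nhdsWithin.mono fun τ hτ => mul_ne_zero hc hτ⟩
    have h2 := hlim.const_mul (((pw k : kˣ) : k) ^ (v i - v j - m * (v i₀ - v j₀)))
    have h3 := tendsto_nhds_unique (hlim.comp h1) (h2.congr fun τ => by
      simp only [Function.comp_apply]
      rw [D.equiv hX hv hs' (pw k) τ i j, mul_pow, ← zpow_natCast (_ ^ (v i₀ - v j₀)),
        ← _root_.zpow_mul, zpow_sub₀ hne (v i - v j), mul_comm (m : ℤ), div_mul_div_comm])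
    have h4 := vec_pw_zpow (k := k) (mul_right_cancel₀ hb (h3.symm.trans (one_mul b).symm))
    omega
  refine ⟨m, Nat.pos_of_ne_zero fun e => ?_, ?_⟩
  · have := key w hw
    rw [e] at this
    omega
  · rw [← hθ i₀ j₀ h0]
    refine eq_of_dot (rt_mem G i j) ((aa G).smul_mem _ (rt_mem G i₀ j₀)) fun x hx => ?_
    rw [smul_dotProduct, rt_dot G i j hx, rt_dot G i₀ j₀ hx, smul_eq_mul]
    induction hx using Submodule.span_induction with
    | mem x hx =>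
      obtain ⟨v, hv, rfl⟩ := hx
      simp only [cst]
      exact_mod_cast key v hv
    | zero => simp
    | add x x' _ _ h h' => simp only [Pi.add_apply]; linarith
    | smul c x _ h => simp only [Pi.smul_apply, smul_eq_mul]; linear_combination c * h

end VecD

theorem Good.exists_vec (hG : Good G) (hy : y ∈ aa G) (ha : 0 < a)
    (htop : ∀ γ ∈ Rts G, γ ⬝ᵥ y ≤ a) : ∃ ψ : Matrix ν ν k → GL ν k,
    (∀ X ∈ topE G y a, ψ X ∈ G ∧ ψ X ∈ Ugl y) ∧
    (∀ X ∈ topE G y a, ∀ X' ∈ topE G y a, ψ (X + X') = ψ X * ψ X') ∧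
    (∀ X ∈ topE G y a, ψ X = 1 → X = 0) ∧
    ContinuousOn ψ (topE G y a) ∧
    (∀ z ∈ G, z ∈ Zgl y → ∀ X ∈ topE G y a, z * ψ X * z⁻¹ = ψ (z.1 * X * (z⁻¹).1)) ∧
    ∀ θ : ν → ℝ, ∀ X ∈ topE G y a, Sup (fun i j => rt G i j = θ) X →
      Sup (fun i j => ∃ c : ℕ, 0 < c ∧ rt G i j = (c : ℝ) • θ) ((ψ X).1 - 1) := by
  obtain ⟨π, hπ⟩ := exists_isPi G
  obtain ⟨χ, hχ⟩ := hG.chart π hπ.mem hπ.id
  have h : ∀ X, X ∈ topE G y a → ∃ u, u ∈ G ∧ u ∈ Ugl y ∧ π (u.1 - 1) = X := fun X hX =>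
    hG.phi_surj hπ hy hX.1 (vec_sup_lt ha hX)
  choose! ψ hψ using h
  have D : VecD G y a π χ ψ := ⟨hπ, hχ, hy, ha, hψ, fun X hX u hu hu' e =>
    hG.phi_inj hπ hy hu hu' (hψ X hX).1 (hψ X hX).2.1 (e.trans (hψ X hX).2.2.symm)⟩
  refine ⟨ψ, fun X hX => ⟨(hψ X hX).1, (hψ X hX).2.1⟩, fun X hX X' hX' => D.add htop hX hX',
    fun X hX e => ?_, D.cont htop, fun z hz hz' X hX => D.conj htop hz hz' hX,
    fun θ X hX hθ => D.ray hX hθ⟩
  rw [← (hψ X hX).2.2, e]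
  simp

end Pool.Agent.Lib.MP_60cbcc_al.H3A
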