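import Pool.Agent.Lib.MP_60cbcc_al.H3ALow
import Pool.Agent.Lib.MP_60cbcc_al.H3AVec
import Pool.Agent.Lib.MP_60cbcc_al.H3AGeo
import Pool.Agent.Lib.MP_60cbcc_al.H3ART

/-!
Property (T) in rank at least two.
-/

namespace Pool.Agent.Lib.MP_60cbcc_al.H3A

open Matrix Filter Topology

set_option linter.unusedSectionVars false

variable {k : Type} [NontriviallyNormedField k] [ProperSpace k] {ν : Type} [Fintype ν]
  [DecidableEq ν] {G : Subgroup (GL ν k)}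

variable {H : Subgroup (GL ν k)}

theorem T_sup_conj {R : ν → ν → Prop} {ht : ∀ i j l, R i j → R j l → R i l} {g : GL ν k}
    (hg : g ∈ Grp R ht) {P Q : ν → ν → Prop} (h1 : ∀ i j l, R i j → P j l → Q i l)
    (h2 : ∀ i j l, P i j → R j l → Q i l) (h3 : ∀ i j l, Q i j → R j l → Q i l)
    {X : Matrix ν ν k} (hX : Sup P X) : Sup Q (g.1 * X * (g⁻¹).1 - X) := by
  have e : g.1 * X * (g⁻¹).1 - X =
      (g.1 - 1) * X + X * ((g⁻¹).1 - 1) + (g.1 - 1) * X * ((g⁻¹).1 - 1) := by noncomm_ring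
  have a := mem_Grp.1 hg
  have b := mem_Grp.1 (inv_mem hg)
  rw [e]
  exact (supS Q).add_mem ((supS Q).add_mem (Sup.mul h1 a hX) (Sup.mul h2 hX b))
    (Sup.mul h3 (Sup.mul h1 a hX) b)

theorem T_fix {Ψ : Set (ν → ℝ)} (hΨ : ∀ a ∈ Ψ, ∀ b ∈ Ψ, a + b ∈ Ψ) {g : GL ν k} (hg : g ∈ G)
    (hs : Sup (fun i j => rt G i j ∈ Ψ) (g.1 - 1)) {θ : ν → ℝ} {X : Matrix ν ν k}
    (hX : X ∈ lie G) (hθ : Sup (fun i j => rt G i j = θ) X)
    (h : ∀ β ∈ Ψ, θ + β ≠ 0 ∧ θ + β ∉ Rts G) : g.1 * X * (g⁻¹).1 = X := by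
  have ht : ∀ i j l, rt G i j ∈ Ψ → rt G j l ∈ Ψ → rt G i l ∈ Ψ := fun i j l a b => by
    rw [← rt_add G i j l]; exact hΨ _ a _ b
  have h1 : Sup (fun i j => ∃ β ∈ Ψ, rt G i j = θ + β) (g.1 * X * (g⁻¹).1 - X) :=
    T_sup_conj (R := fun i j => rt G i j ∈ Ψ) (ht := ht) (mem_Grp.2 hs)
      (fun i j l a b => ⟨_, a, by rw [← rt_add G i j l, b, add_comm]⟩)
      (fun i j l a b => ⟨_, b, by rw [← rt_add G i j l, a]⟩)
      (fun i j l ⟨β, hβ, a⟩ b => ⟨_, hΨ _ hβ _ b, by rw [← rt_add G i j l, a, add_assoc]⟩) hθ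
  have h2 : g.1 * X * (g⁻¹).1 - X ∈ lie G := (lie G).sub_mem (lie_conj hg hX) hX
  rw [← sub_eq_zero]
  ext i j
  by_contra hne
  obtain ⟨β, hβ, e⟩ := h1 i j hne
  exact (h β hβ).2 ⟨(h β hβ).1, i, j, e.symm, _, h2, hne⟩

theorem T_exists_entry {X : Matrix ν ν k} (h : X ≠ 0) : ∃ i j, X i j ≠ 0 := by
  by_contra hc
  refine h ?_
  ext i j
  by_contra hne
  exact hc ⟨i, j, hne⟩

theorem T_mem_topE {y θ : ν → ℝ} (hy : y ∈ aa G) {X : Matrix ν ν k} (hX : X ∈ lie G)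
    (hθ : Sup (fun i j => rt G i j = θ) X) : X ∈ topE G y (θ ⬝ᵥ y) :=
  ⟨hX, fun i j h => by rw [← hθ i j h, rt_dot G i j hy]⟩

theorem T_mem_Rgl {θ : ν → ℝ} {g : GL ν k}
    (h : Sup (fun i j => ∃ c : ℕ, 0 < c ∧ rt G i j = (c : ℝ) • θ) (g.1 - 1)) : g ∈ Rgl G θ :=
  mem_Rgl.2 fun i j hij => by
    obtain ⟨c, hc, e⟩ := h i j hij
    exact ⟨c, Nat.cast_pos.2 hc, e⟩

/-- Conjugation of matrices. -/
def T_ad : GL ν k →* Module.End k (Matrix ν ν k) where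
  toFun g := LinearMap.mulRight k (g⁻¹).1 ∘ₗ LinearMap.mulLeft k g.1
  map_one' := LinearMap.ext fun X => by simp
  map_mul' g h := LinearMap.ext fun X => by simp [mul_assoc]

theorem T_ad_apply (g : GL ν k) (X : Matrix ν ν k) : T_ad g X = g.1 * X * (g⁻¹).1 := rfl

/-- The component of a given degree. -/
def T_pr (z : ν → ℤ) (j : ℤ) : Module.End k (Matrix ν ν k) where
  toFun X := Matrix.of fun i l => if z i - z l = j then X i l else 0
  map_add' X Y := by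
    ext i l
    simp only [Matrix.of_apply, Matrix.add_apply]
    split_ifs <;> simp
  map_smul' c X := by
    ext i l
    simp only [Matrix.of_apply, Matrix.smul_apply, RingHom.id_apply]
    split_ifs <;> simp

theorem T_pr_apply (z : ν → ℤ) (j : ℤ) (X : Matrix ν ν k) (i l : ν) :
    T_pr z j X i l = if z i - z l = j then X i l else 0 := rfl

theorem T_pr_sup (z : ν → ℤ) (j : ℤ) (X : Matrix ν ν k) :
    Sup (fun i l => z i - z l = j) (T_pr z j X) := fun i l h => by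
  by_contra hne
  exact h (by rw [T_pr_apply, if_neg hne])

theorem T_pr_sub (z : ν → ℤ) (j : ℤ) (X : Matrix ν ν k) :
    Sup (fun i l => z i - z l ≠ j) (X - T_pr z j X) := fun i l h e =>
  h (by rw [Matrix.sub_apply, T_pr_apply, if_pos e, sub_self])

theorem T_pr_eq {z : ν → ℤ} {j : ℤ} {X : Matrix ν ν k} (h : Sup (fun i l => z i - z l = j) X) :
    T_pr z j X = X := by
  ext i l
  rw [T_pr_apply]
  split_ifs with e
  · rfl
  · by_contra hne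
    exact e (h i l (Ne.symm hne))

theorem T_pr_zero {z : ν → ℤ} {j : ℤ} {X : Matrix ν ν k} (h : Sup (fun i l => z i - z l ≠ j) X) :
    T_pr z j X = 0 := by
  ext i l
  rw [T_pr_apply]
  split_ifs with e
  · by_contra hne
    exact h i l hne e
  · rfl

/-- The degrees of the matrix entries. -/
def T_deg (z : ν → ℤ) : Finset ℤ := Finset.univ.image fun il : ν × ν => z il.1 - z il.2

theorem T_mem_deg (z : ν → ℤ) (i l : ν) : z i - z l ∈ T_deg z :=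
  Finset.mem_image.2 ⟨(i, l), Finset.mem_univ _, rfl⟩

theorem T_pr_sum (z : ν → ℤ) (f : ℤ → k) (X : Matrix ν ν k) (i l : ν) :
    (∑ j ∈ T_deg z, f j • T_pr z j X) i l = f (z i - z l) * X i l := by
  rw [Matrix.sum_apply, Finset.sum_eq_single (z i - z l)]
  · rw [Matrix.smul_apply, T_pr_apply, if_pos rfl, smul_eq_mul]
  · intro j _ hj
    rw [Matrix.smul_apply, T_pr_apply, if_neg (Ne.symm hj), smul_zero]
  · intro h
    exact (h (T_mem_deg z i l)).elim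

theorem T_hp₁ (z : ν → ℤ) : ∑ j ∈ T_deg z, T_pr (k := k) z j = 1 := by
  refine LinearMap.ext fun X => ?_
  ext i l
  have := T_pr_sum z (fun _ => (1 : k)) X i l
  simp only [one_smul, one_mul] at this
  rw [LinearMap.sum_apply, this, Module.End.one_apply]

theorem T_hp₂ (z : ν → ℤ) (i j : ℤ) (h : i ≠ j) : T_pr (k := k) z i * T_pr z j = 0 :=
  LinearMap.ext fun X => T_pr_zero fun a b hab e => h (e.symm.trans (T_pr_sup z j X a b hab))

theorem T_hp₃ (z : ν → ℤ) (j : ℤ) (h : j ∉ T_deg z) : T_pr (k := k) z j = 0 :=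
  LinearMap.ext fun _ => T_pr_zero fun a b _ e => h (e ▸ T_mem_deg z a b)

theorem T_hb (z : ν → ℤ) (t : kˣ) (j : ℤ) :
    T_ad (dg z t) * T_pr z j = ((t : k) ^ j) • T_pr z j := by
  refine LinearMap.ext fun X => ?_
  ext i l
  rw [Module.End.mul_apply, T_ad_apply, dg_conj_apply, LinearMap.smul_apply, Matrix.smul_apply,
    T_pr_apply, smul_eq_mul]
  split_ifs with e
  · rw [e]
  · rw [mul_zero, mul_zero]

theorem T_hu {z : ν → ℤ} {u : GL ν k} (hu : u ∈ Ugl (cst z) ∨ u ∈ Ugl (-cst z)) (j : ℤ) :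
    T_pr z j * T_ad u * T_pr z j = T_pr z j := by
  refine LinearMap.ext fun X => ?_
  have h0 := T_pr_sup z j X
  have h1 : Sup (fun i l => z i - z l ≠ j) (u.1 * T_pr z j X * (u⁻¹).1 - T_pr z j X) := by
    rcases hu with hu | hu
    · have hc : ∀ a b, cst z b < cst z a → z b < z a := fun a b h => Int.cast_lt.1 h
      have := T_sup_conj (Q := fun i l => j < z i - z l) hu
        (fun a b c h h' => by have := hc a b h; omega)
        (fun a b c h h' => by have := hc b c h'; omega)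
        (fun a b c h h' => by have := hc b c h'; omega) h0
      exact fun a b h => (this a b h).ne'
    · have hc : ∀ a b, (-cst z) b < (-cst z) a → z a < z b := fun a b h =>
        Int.cast_lt.1 (neg_lt_neg_iff.1 h)
      have := T_sup_conj (Q := fun i l => z i - z l < j) hu
        (fun a b c h h' => by have := hc a b h; omega)
        (fun a b c h h' => by have := hc b c h'; omega)
        (fun a b c h h' => by have := hc b c h'; omega) h0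
      exact fun a b h => (this a b h).ne
  have h2 := T_pr_zero h1
  rw [map_sub, sub_eq_zero, T_pr_eq h0] at h2
  exact h2

theorem T_hn {z : ν → ℤ} {n : GL ν k} (h : Sup (fun i l => z l = -z i) n.1)
    (h' : Sup (fun i l => z l = -z i) (n⁻¹).1) (j : ℤ) :
    T_ad n * T_pr z j = T_pr z (-j) * T_ad n := by
  refine LinearMap.ext fun X => ?_
  have h1 : Sup (fun i l => z i - z l = -j) (n.1 * T_pr z j X * (n⁻¹).1) :=
    Sup.mul (R := fun a b => -z a - z b = j) (fun a b c e e' => by omega)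
      (Sup.mul (fun a b c e e' => by omega) h (T_pr_sup z j X)) h'
  have h2 : Sup (fun i l => z i - z l ≠ -j) (n.1 * (X - T_pr z j X) * (n⁻¹).1) :=
    Sup.mul (R := fun a b => -z a - z b ≠ j) (fun a b c e e' => by omega)
      (Sup.mul (fun a b c e e' => by omega) h (T_pr_sub z j X)) h'
  have h3 := T_pr_zero h2
  rw [mul_sub, sub_mul, map_sub, T_pr_eq h1, sub_eq_zero] at h3
  exact h3.symm

theorem T_comp_mem {V : Type} [AddCommGroup V] [Module k V] (E : Submodule k V) (s : Finset ℤ)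
    (e : ℤ → V) (h : ∀ t : kˣ, ∑ d ∈ s, ((t : k) ^ d) • e d ∈ E) : ∀ d ∈ s, e d ∈ E := by
  intro d hd
  by_contra hne
  obtain ⟨f, hf, hE⟩ := E.exists_le_ker_of_notMem hne
  refine hf (laurent_eq_zero s (fun d => f (e d)) (fun t => ?_) d hd)
  have := LinearMap.mem_ker.1 (hE (h t))
  rw [map_sum] at this
  rw [← this]
  exact Finset.sum_congr rfl fun d _ => by rw [map_smul, smul_eq_mul, mul_comm]

theorem T_pr_mem {z : ν → ℤ} {E : Submodule k (Matrix ν ν k)}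
    (h : ∀ t, ∀ X ∈ E, T_ad (dg z t) X ∈ E) (j : ℤ) : ∀ X ∈ E, T_pr z j X ∈ E := by
  intro X hX
  by_cases hj : j ∈ T_deg z
  · refine T_comp_mem E (T_deg z) (fun j => T_pr z j X) (fun t => ?_) j hj
    have e : ∑ d ∈ T_deg z, ((t : k) ^ d) • T_pr z d X = T_ad (dg z t) X := by
      ext i l
      rw [T_pr_sum z (fun d => (t : k) ^ d), T_ad_apply, dg_conj_apply]
    rw [e]
    exact h t X hX
  · rw [T_hp₃ z j hj]
    exact E.zero_mem

theorem T_rel {V : Type} [NormedAddCommGroup V] [NormedSpace k V] [FiniteDimensional k V]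
    {Γ : Type} [Group Γ] (T : Γ →* Module.End k V) (J : Finset ℤ) (p : ℤ → Module.End k V)
    (hp₁ : ∑ j ∈ J, p j = 1) (hp₂ : ∀ i j, i ≠ j → p i * p j = 0) (hp₃ : ∀ j, j ∉ J → p j = 0)
    {c : k} (hc₀ : c ≠ 0) (hc₁ : ‖c‖ < 1) {b u r u' : Γ} (hb : ∀ j, T b * p j = (c ^ j) • p j)
    (hu : ∀ j, p j * T u * p j = p j) (hr : ∀ j, p j * T r * p j = p j)
    (hu' : ∀ j, p j * T u' * p j = p j) (hn : ∀ j, T (u * r * u') * p j = p (-j) * T (u * r * u'))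
    (E : Submodule k V) (hT : ∀ g, ∀ X ∈ E, T g X ∈ E) (hp : ∀ j, ∀ X ∈ E, p j X ∈ E)
    (hs : E ≤ Submodule.span k {Y | ∃ g j, ∃ X ∈ E, j ≠ 0 ∧ Y = T g (p j X)}) :
    ∃ (F : Finset Γ) (ε : ℝ), 0 < ε ∧ ∀ (H : Type) [NormedAddCommGroup H] [InnerProductSpace ℂ H]
      [CompleteSpace H] (U : Γ →* (H ≃ₗᵢ[ℂ] H)) (ρ : E → H ≃ₗᵢ[ℂ] H),
      (∀ X Y v, ρ (X + Y) v = ρ X (ρ Y v)) → (∀ v, Continuous fun X => ρ X v) →
      (∀ g X v, U g (ρ X v) = ρ ⟨T g X, hT g X X.2⟩ (U g v)) →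
      (∃ ξ, ‖ξ‖ = 1 ∧ ∀ g ∈ F, ‖U g ξ - ξ‖ < ε) → ∃ w, w ≠ 0 ∧ ∀ X, ρ X w = w := by
  let T' : Γ →* Module.End k E :=
    { toFun := fun g => (T g).restrict (hT g)
      map_one' := LinearMap.ext fun X => Subtype.ext (by
        change T 1 X = X
        rw [map_one, Module.End.one_apply])
      map_mul' := fun g h => LinearMap.ext fun X => Subtype.ext (by
        change T (g * h) X = T g (T h X)
        rw [map_mul, Module.End.mul_apply]) }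
  let p' : ℤ → Module.End k E := fun j => (p j).restrict (hp j)
  refine rel_T T' J p' ?_ ?_ ?_ hc₀ hc₁ (b := b) (u := u) (r := r) (u' := u') ?_ ?_ ?_ ?_ ?_ ?_
  · refine LinearMap.ext fun X => Subtype.ext ?_
    rw [LinearMap.sum_apply, Submodule.coe_sum]
    have := LinearMap.congr_fun hp₁ X.1
    rw [LinearMap.sum_apply] at this
    exact this
  · exact fun i j h => LinearMap.ext fun X => Subtype.ext (LinearMap.congr_fun (hp₂ i j h) X.1)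
  · exact fun j h => LinearMap.ext fun X => Subtype.ext (LinearMap.congr_fun (hp₃ j h) X.1)
  · exact fun j => LinearMap.ext fun X => Subtype.ext (LinearMap.congr_fun (hb j) X.1)
  · exact fun j => LinearMap.ext fun X => Subtype.ext (LinearMap.congr_fun (hu j) X.1)
  · exact fun j => LinearMap.ext fun X => Subtype.ext (LinearMap.congr_fun (hr j) X.1)
  · exact fun j => LinearMap.ext fun X => Subtype.ext (LinearMap.congr_fun (hu' j) X.1)
  · exact fun j => LinearMap.ext fun X => Subtype.ext (LinearMap.congr_fun (hn j) X.1)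
  · refine eq_top_iff.2 fun X _ => ?_
    refine (Submodule.apply_mem_span_image_iff_mem_span E.injective_subtype).1 ?_
    refine Submodule.span_mono ?_ (hs X.2)
    rintro _ ⟨g, j, Y, hY, hj, rfl⟩
    exact ⟨T' g (p' j ⟨Y, hY⟩), ⟨g, j, ⟨Y, hY⟩, hj, rfl⟩, rfl⟩

theorem Ctx.exists_weyl (hG : Ctx G) (hr : 2 ≤ Module.finrank ℝ (aa G)) (J : Subgroup (GL ν k)) :
    ∃ W : Subgroup (Equiv.Perm ν), Sys (aa G) (Rts G) W ∧ ∀ τ, τ ∈ W ↔ ∃ n ∈ J, IsW G n τ := by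
  let W : Subgroup (Equiv.Perm ν) :=
    { carrier := {τ | ∃ n ∈ J, IsW G n τ}
      one_mem' := ⟨1, J.one_mem, isW_of_Mgl G.one_mem (Mgl G).one_mem⟩
      mul_mem' := fun ⟨n, hn, h⟩ ⟨n', hn', h'⟩ => ⟨n' * n, J.mul_mem hn' hn, h'.mul h⟩
      inv_mem' := fun ⟨n, hn, h⟩ => ⟨n⁻¹, J.inv_mem hn, h.inv⟩ }
  exact ⟨W, ⟨finite_Rts G, fun γ h => ⟨Rts_mem h, h.1⟩, fun γ h => hG.neg_mem h,
    fun y hy h => hG.good.eq_zero_of_roots hy h, fun τ ⟨n, _, h⟩ y hy => (h.2 y hy).1,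
    fun τ ⟨n, _, h⟩ γ hγ => h.Rts hγ, hr⟩, fun τ => Iff.rfl⟩

theorem Ctx.orth (hG : Ctx G) {y θ θ' : ν → ℝ} (hy : y ∈ aa G) (hθ : θ ∈ Rts G) (hθ' : θ' ∈ Rts G)
    (h0 : 0 < θ ⬝ᵥ y) (h1 : θ' ⬝ᵥ y = θ ⬝ᵥ y) (h2 : ∀ β ∈ Rts G, β ⬝ᵥ y ≤ θ ⬝ᵥ y) (h3 : θ ≠ θ')
    (h4 : ∀ c : ℕ, 0 < c → θ' - (c : ℝ) • θ ∉ Rts G) : θ ⬝ᵥ θ' = 0 := by
  have hy' : -y ∈ aa G := (aa G).neg_mem hy
  have e0 : (-θ) ⬝ᵥ (-y) = θ ⬝ᵥ y := by rw [neg_dotProduct, dotProduct_neg, neg_neg]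
  obtain ⟨ψ, p1, -, p3, -, -, p6⟩ := hG.good.exists_vec hy' h0 fun γ hγ => by
    have := h2 _ (hG.neg_mem hγ)
    rwa [neg_dotProduct, ← dotProduct_neg] at this
  obtain ⟨X, hX, hX0, hXs⟩ := exists_root_vec (hG.neg_mem hθ)
  have hXE : X ∈ topE G (-y) (θ ⬝ᵥ y) := e0 ▸ T_mem_topE hy' hX hXs
  have hv := p6 (-θ) X hXE hXs
  obtain ⟨n, τ, hn, hτ, u, hu, u', hu', e⟩ :=
    hG.bruhat hθ.1 (p1 X hXE).1 (T_mem_Rgl hv) fun h => hX0 (p3 X hXE h)
  obtain ⟨X', hX', hX0', hXs'⟩ := exists_root_vec hθ'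
  have f1 : ∀ g ∈ G ⊓ Rgl G θ, T_ad g X' = X' := fun g hg =>
    T_fix (Ψ := {β | ∃ c : ℝ, 0 < c ∧ β = c • θ})
      (by
        rintro _ ⟨a, ha, rfl⟩ _ ⟨b, hb, rfl⟩
        exact ⟨a + b, add_pos ha hb, (add_smul a b θ).symm⟩) hg.1 (mem_Rgl.1 hg.2) hX' hXs'
      (by
        rintro _ ⟨c, hc, rfl⟩
        have e1 : (θ' + c • θ) ⬝ᵥ y = θ ⬝ᵥ y + c * (θ ⬝ᵥ y) := by
          rw [add_dotProduct, smul_dotProduct, h1, smul_eq_mul]
        have e2 := mul_pos hc h0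
        refine ⟨fun h => ?_, fun h => ?_⟩
        · rw [h, zero_dotProduct] at e1
          linarith
        · have := h2 _ h
          linarith)
  have f2 : T_ad (ψ X) X' = X' :=
    T_fix (Ψ := {β | ∃ c : ℕ, 0 < c ∧ β = (c : ℝ) • (-θ)})
      (by
        rintro _ ⟨a, ha, rfl⟩ _ ⟨b, hb, rfl⟩
        exact ⟨a + b, add_pos ha hb, by rw [Nat.cast_add, add_smul]⟩) (p1 X hXE).1 hv hX' hXs'
      (by
        rintro _ ⟨c, hc, rfl⟩
        rw [smul_neg, ← sub_eq_add_neg]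
        refine ⟨fun h => ?_, h4 c hc⟩
        have e1 := sub_eq_zero.1 h
        have e2 := h1
        rw [e1, smul_dotProduct, smul_eq_mul] at e2
        have e3 : (c : ℝ) = 1 := mul_right_cancel₀ h0.ne' (e2.trans (one_mul _).symm)
        rw [e3, one_smul] at e1
        exact h3 e1.symm)
  have f3 : T_ad n X' = X' := by
    have en : n = u⁻¹ * ψ X * u'⁻¹ := by rw [e]; group
    rw [en, map_mul, map_mul, Module.End.mul_apply, Module.End.mul_apply, f1 _ (inv_mem hu'), f2,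
      f1 _ (inv_mem hu)]
  obtain ⟨i, j, hij⟩ := T_exists_entry hX0'
  have f4 := hn.sup (Ψ := {θ'}) hXs'
  rw [← T_ad_apply, f3] at f4
  obtain ⟨β, hβ, e1⟩ := f4 i j hij
  rw [Set.mem_singleton_iff.1 hβ, hXs' i j hij] at e1
  have e2 : θ' ∘ τ = θ' := e1
  rw [hτ θ' (Rts_mem hθ'), sub_eq_self, smul_eq_zero] at e2
  rcases e2 with e2 | e2
  · rcases div_eq_zero_iff.1 e2 with e3 | e3
    · linarith
    · exact (hθ.1 (dotProduct_self_eq_zero.1 e3)).elim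
  · exact (hθ.1 e2).elim

theorem Ctx.edge (hG : Ctx G) (hr : 2 ≤ Module.finrank ℝ (aa G)) :
    ∃ y ∈ aa G, ∃ α ∈ Rts G, ∃ θ ∈ Rts G, α ⬝ᵥ y = 0 ∧ 0 < θ ⬝ᵥ y ∧
      (∀ β ∈ Rts G, β ⬝ᵥ y ≤ θ ⬝ᵥ y) ∧ θ ⬝ᵥ α ≠ 0 := by
  obtain ⟨W, hS, hW⟩ := hG.exists_weyl hr G
  refine hS.edge (fun γ hγ => ?_) (fun τ hτ y hy h1 h2 => ?_) (fun γ h γ' h' => hG.irred h h')
    fun y hy θ hθ θ' hθ' h0 h1 h2 h3 h4 => hG.orth hy hθ hθ' h0 h1 h2 h3 h4
  · obtain ⟨n, hn, τ, h1, h2⟩ := hG.exists_refl hγ (J := G) inf_le_left inf_le_left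
    exact ⟨τ, (hW τ).2 ⟨n, hn, h1⟩, h2⟩
  · obtain ⟨n, -, hn⟩ := (hW τ).1 hτ
    exact hG.simply hn hy h1 h2

theorem T_flip {n : GL ν k} {τ : Equiv.Perm ν} (hn : IsW G n τ) {α : ν → ℝ} (hα : α ∈ aa G)
    (h0 : α ≠ 0) (hτ : Refl G α τ) {z : ν → ℤ} {c : ℝ} (hz : cst z = c • α) :
    Sup (fun i l => z l = -z i) n.1 := fun i l h => by
  have h1 : cst z (τ i) = cst z l := (hn.2 (cst z) (hz ▸ (aa G).smul_mem c hα)).2 i l h
  have h2 : α (τ i) = -α i := congrFun (hτ.self hα h0) i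
  have h3 : cst z (τ i) = -cst z i := by
    rw [hz, Pi.smul_apply, Pi.smul_apply, h2, smul_neg]
  have h4 : ((z l : ℤ) : ℝ) = ((-z i : ℤ) : ℝ) := by
    rw [Int.cast_neg]
    exact h1.symm.trans h3
  exact Int.cast_injective h4

theorem T_pr_topE {y : ν → ℝ} {a : ℝ} {z : ν → ℤ} (hz : z ∈ YY G) (j : ℤ) :
    ∀ X ∈ topE G y a, T_pr z j X ∈ topE G y a :=
  T_pr_mem (fun t _ hX => conj_mem_topE (hz t) (dg_mem_Zgl y z t) hX) j

open scoped Matrix.Norms.Elementwise in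
theorem T_core (hG : Ctx G) (hr : 2 ≤ Module.finrank ℝ (aa G)) :
    ∃ (F : Finset (LL G)) (ε : ℝ), 0 < ε ∧ ∀ (V : Type) [NormedAddCommGroup V]
      [InnerProductSpace ℂ V] [CompleteSpace V] (π : LL G →* (V ≃ₗᵢ[ℂ] V)),
      (∀ v, Continuous fun g => π g v) → (∃ ξ, ‖ξ‖ = 1 ∧ ∀ g ∈ F, ‖π g ξ - ξ‖ < ε) →
      ∃ w, w ≠ 0 ∧ ∀ l, π l w = w := by
  classical
  obtain ⟨y, hy, α, hα, θ, hθ, hαy, hθy, htop, hθα⟩ := hG.edge hr
  obtain ⟨ψ, p1, p2, p3, p4, p5, p6⟩ := hG.good.exists_vec hy hθy htop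
  obtain ⟨z, hz, c, hc, hzc⟩ := hG.coroot_LL hα
  have hLG := hG.good.LL_le
  have hαA := Rts_mem hα
  have hzG : z ∈ YY G := YY_mono hLG hz
  have hαz : 0 < α ⬝ᵥ cst z := by
    rw [hzc, dotProduct_smul, smul_eq_mul]
    exact mul_pos hc (lt_of_le_of_ne (dotProduct_self_star_nonneg α)
      fun h => hα.1 (dotProduct_self_eq_zero.1 h.symm))
  have hU₁ : Rgl G α ≤ Ugl (cst z) := Rgl_le_Ugl (cst_mem hzG) hαz
  have hU₂ : Rgl G (-α) ≤ Ugl (-cst z) := Rgl_le_Ugl ((aa G).neg_mem (cst_mem hzG))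
    (by rwa [neg_dotProduct, dotProduct_neg, neg_neg])
  obtain ⟨r, hrG, hrR, hr1⟩ := hG.good.exists_Rgl (hG.neg_mem hα)
  obtain ⟨n, τ, hn, hτ, u, hu, u', hu', e⟩ := hG.bruhat hα.1 hrG hrR hr1
  let Γ : Subgroup (GL ν k) := LL G ⊓ Zgl y
  have hΓ₁ : G ⊓ Rgl G α ≤ Γ :=
    le_inf (R_le_LL hαA hα.1) (inf_le_right.trans (Rgl_le_Zgl hy hαy))
  have hΓ₂ : G ⊓ Rgl G (-α) ≤ Γ :=
    le_inf (R_le_LL ((aa G).neg_mem hαA) (neg_ne_zero.2 hα.1))
      (inf_le_right.trans (Rgl_le_Zgl hy (by rw [neg_dotProduct, hαy, neg_zero])))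
  have hdg : ∀ w ∈ YY (LL G), ∀ t, dg w t ∈ Γ := fun w hw t => ⟨hw t, dg_mem_Zgl y w t⟩
  let T : Γ →* Module.End k (Matrix ν ν k) := T_ad.comp Γ.subtype
  let E₀ := topE G y (θ ⬝ᵥ y)
  let E : Submodule k (Matrix ν ν k) :=
    Submodule.span k {Y | ∃ g j, ∃ X ∈ E₀, j ≠ 0 ∧ Y = T g (T_pr z j X)}
  have hT₀ : ∀ g, ∀ X ∈ E₀, T g X ∈ E₀ := fun g X hX => conj_mem_topE (hLG g.2.1) g.2.2 hX
  have hE : E ≤ E₀ := Submodule.span_le.2 (by
    rintro _ ⟨g, j, X, hX, -, rfl⟩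
    exact hT₀ g _ (T_pr_topE hzG j X hX))
  have hT : ∀ g, ∀ X ∈ E, T g X ∈ E := fun g X hX => by
    have : E ≤ E.comap (T g) := Submodule.span_le.2 (by
      rintro _ ⟨g', j, Y, hY, hj, rfl⟩
      exact Submodule.subset_span ⟨g * g', j, Y, hY, hj, by rw [map_mul]; rfl⟩)
    exact this hX
  have hp : ∀ j, ∀ X ∈ E, T_pr z j X ∈ E :=
    T_pr_mem fun t X hX => hT ⟨dg z t, hdg z hz t⟩ X hX
  have hgen : ∀ j, j ≠ 0 → ∀ X ∈ E₀, T_pr z j X ∈ E := fun j hj X hX =>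
    Submodule.subset_span ⟨1, j, X, hX, hj, by rw [map_one]; rfl⟩
  have hs : E ≤ Submodule.span k {Y | ∃ g j, ∃ X ∈ E, j ≠ 0 ∧ Y = T g (T_pr z j X)} :=
    Submodule.span_mono (by
      rintro _ ⟨g, j, X, hX, hj, rfl⟩
      exact ⟨g, j, _, hgen j hj X hX, hj, by rw [T_pr_eq (T_pr_sup z j X)]⟩)
  have en : u⁻¹ * r * u'⁻¹ = n := by rw [e]; group
  obtain ⟨F, ε, hε, hF⟩ := T_rel T (T_deg z) (T_pr z) (T_hp₁ z) (T_hp₂ z) (T_hp₃ z)
    (pw k).ne_zero pw_lt (b := ⟨dg z (pw k), hdg z hz _⟩) (u := ⟨u⁻¹, hΓ₁ (inv_mem hu)⟩)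
    (r := ⟨r, hΓ₂ ⟨hrG, hrR⟩⟩) (u' := ⟨u'⁻¹, hΓ₁ (inv_mem hu')⟩) (T_hb z (pw k))
    (T_hu (.inl (hU₁ (inv_mem hu.2)))) (T_hu (.inr (hU₂ hrR))) (T_hu (.inl (hU₁ (inv_mem hu'.2))))
    (fun j => by
      change T_ad (u⁻¹ * r * u'⁻¹) * _ = _ * T_ad (u⁻¹ * r * u'⁻¹)
      rw [en]
      exact T_hn (T_flip hn hαA hα.1 hτ hzc) (T_flip hn.inv hαA hα.1 (hτ.inv hαA) hzc) j)
    E hT hp hs
  let ι : Γ →* LL G := Subgroup.inclusion inf_le_left
  refine ⟨F.image ι, ε, hε, fun V _ _ _ π hπ ⟨ξ, hξ, hξF⟩ => ?_⟩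
  let σ : E → LL G := fun X => ⟨ψ X, U_le_LL hy (p1 X (hE X.2))⟩
  have hσ : Continuous σ :=
    (p4.comp_continuous continuous_subtype_val fun X : E => hE X.2).subtype_mk _
  have hconj : ∀ (g : Γ) (X : E), ι g * σ X = σ ⟨T g X, hT g X X.2⟩ * ι g := fun g X =>
    Subtype.ext (by
      change g.1 * ψ X = ψ (g.1.1 * X.1 * (g.1⁻¹).1) * g.1
      rw [← p5 g (hLG g.2.1) g.2.2 X (hE X.2), inv_mul_cancel_right])
  obtain ⟨w, hw0, hw⟩ := hF V (π.comp ι) (fun X => π (σ X))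
    (fun X Y v => by
      have : σ (X + Y) = σ X * σ Y := Subtype.ext (p2 X (hE X.2) Y (hE Y.2))
      rw [this, map_mul]
      rfl)
    (fun v => (hπ v).comp hσ)
    (fun g X v => by
      have := congrArg (fun x => π x v) (hconj g X)
      simp only [map_mul] at this
      exact this)
    ⟨ξ, hξ, fun g hg => hξF _ (Finset.mem_image_of_mem _ hg)⟩
  obtain ⟨X, hX, hX0, hXs⟩ := exists_root_vec hθ
  have hXE₀ : X ∈ E₀ := T_mem_topE hy hX hXs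
  obtain ⟨i, l, hil⟩ := T_exists_entry hX0
  have hdeg : ∀ a b, X a b ≠ 0 → ((z a - z b : ℤ) : ℝ) = c * (θ ⬝ᵥ α) := fun a b h => by
    have := rt_dot G a b (cst_mem hzG)
    rw [hXs a b h, hzc, dotProduct_smul, smul_eq_mul, ← hzc] at this
    rw [this, Int.cast_sub]
    rfl
  have hXE : X ∈ E := by
    have h1 : Sup (fun a b => z a - z b = z i - z l) X := fun a b h =>
      Int.cast_injective ((hdeg a b h).trans (hdeg i l hil).symm)
    rw [← T_pr_eq h1]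
    refine hgen _ (fun h => ?_) X hXE₀
    have := hdeg i l hil
    rw [h, Int.cast_zero] at this
    exact mul_ne_zero hc.ne' hθα this.symm
  obtain ⟨z', hz', c', hc', hzc'⟩ := hG.coroot_LL hθ
  have hM := hG.mau_ray hθ.1 (p1 X hXE₀).1 (T_mem_Rgl (p6 θ X hXE₀ hXs))
    (fun h => hX0 (p3 X hXE₀ h)) hz' hc' hzc'
  have key := hM (fun g => ‖π g w - w‖) ((hπ w).sub continuous_const).norm
    (by simp)
    (fun g => by
      have h1 : π g (π g⁻¹ w) = w := by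
        change (π g * π g⁻¹) w = w
        rw [← map_mul, mul_inv_cancel, map_one]
        rfl
      rw [← (π g).norm_map, map_sub, h1, norm_sub_rev])
    (fun g h => by
      have h1 : π (g * h) w - w = (π g w - w) + π g (π h w - w) := by
        rw [map_mul, map_sub]
        change π g (π h w) - w = _
        abel
      rw [h1, ← (π g).norm_map (π h w - w)]
      exact norm_add_le _ _)
    (by
      rintro x ⟨m, hm⟩
      let s : Γ := (⟨dg z' (pw k), hdg z' hz' _⟩ ^ m)⁻¹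
      have h1 : x = σ ⟨T s X, hT s X hXE⟩ := by
        rw [eq_mul_inv_of_mul_eq (hconj s ⟨X, hXE⟩).symm]
        refine Subtype.ext (hm.trans ?_)
        change _ = s.1 * ψ X * s.1⁻¹
        simp [s]
      rw [h1]
      exact norm_eq_zero.2 (sub_eq_zero.2 (hw _)))
  exact ⟨w, hw0, fun g => sub_eq_zero.1 (norm_eq_zero.1 (key g))⟩

theorem Ctx.hasT (hG : Ctx G) (hr : 2 ≤ Module.finrank ℝ (aa G)) (hH : Mid G H) :
    H3Z.HasT H := by
  classical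
  obtain ⟨F, ε, hε, hF⟩ := T_core hG hr
  obtain ⟨C, hC, hCL⟩ := hG.cocpt hH
  have : ((LL G).subgroupOf H).Normal :=
    ⟨fun x hx g => hG.good.LL_normal g (hH.le₂ g.2) x hx⟩
  let ι : LL G →* H := Subgroup.inclusion hH.le₁
  have hι : Continuous ι := continuous_subtype_val.subtype_mk _
  refine hasT_of_normal ((LL G).subgroupOf H) hC (fun g => ?_) (F.image ι) hε
    fun V _ _ _ π hπ ⟨ξ, hξ, hξF⟩ => ?_
  · obtain ⟨c, hc, l, hl, e⟩ := Set.mem_mul.1 (hCL.symm ▸ Set.mem_univ g)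
    exact ⟨c, hc, l, hl, e.symm⟩
  · obtain ⟨w, hw0, hw⟩ := hF V (π.comp ι) (fun v => (hπ v).comp hι)
      ⟨ξ, hξ, fun g hg => hξF _ (Finset.mem_image_of_mem _ hg)⟩
    exact ⟨w, hw0, fun l hl => hw ⟨l.1, hl⟩⟩

end Pool.Agent.Lib.MP_60cbcc_al.H3A
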