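import Pool.Agent.Lib.MP_60cbcc_al.H3AAlg
import Pool.Agent.Lib.MP_60cbcc_al.H3ALU

/-!
The diagonal torus.
-/

namespace Pool.Agent.Lib.MP_60cbcc_al.H3A

open Matrix Filter Topology

set_option linter.unusedSectionVars false

variable {k : Type} [NontriviallyNormedField k] [ProperSpace k] {ν : Type} [Fintype ν]
  [DecidableEq ν] {G : Subgroup (GL ν k)}

theorem exists_ell (s : Finset ℝ) :
    ∃ e : ℝ →ₗ[ℚ] ℚ, ∀ x ∈ s, SignType.sign (e x) = SignType.sign x := by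
  classical
  let b := Module.Basis.ofVectorSpace ℚ ℝ
  let F : ℝ → (Module.Basis.ofVectorSpaceIndex ℚ ℝ → ℝ) → ℝ :=
    fun x c => ∑ i ∈ (b.repr x).support, (b.repr x i : ℝ) * c i
  have hF : ∀ x, Continuous (F x) := fun x => by
    simp only [F]; fun_prop
  have hU : IsOpen (⋂ x ∈ s, {c | x = 0 ∨ 0 < x * F x c}) :=
    isOpen_biInter_finset fun x _ => by
      by_cases h : x = 0
      · simp [h]
      · simp only [h, false_or]
        exact isOpen_lt continuous_const (continuous_const.mul (hF x))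
  have hb : ∀ x, F x b = x := fun x => by
    have := b.linearCombination_repr x
    rw [Finsupp.linearCombination_apply, Finsupp.sum] at this
    simpa only [F, Rat.smul_def] using this
  have hne : (⋂ x ∈ s, {c | x = 0 ∨ 0 < x * F x c}).Nonempty :=
    ⟨b, Set.mem_iInter₂.2 fun x _ => by
      by_cases h : x = 0
      · exact Or.inl h
      · exact Or.inr (by rw [hb]; exact mul_self_pos.2 h)⟩
  obtain ⟨q, hq⟩ := (DenseRange.piMap (f := fun _ : Module.Basis.ofVectorSpaceIndex ℚ ℝ =>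
    ((↑) : ℚ → ℝ)) fun _ => Rat.denseRange_cast).exists_mem_open hU hne
  refine ⟨b.constr ℚ q, fun x hx => ?_⟩
  have he : ((b.constr ℚ q x : ℚ) : ℝ) = F x (Pi.map (fun _ => ((↑) : ℚ → ℝ)) q) := by
    rw [b.constr_apply, Finsupp.sum]
    simp [F]
  rcases Set.mem_iInter₂.1 hq x hx with h | h
  · simp [h]
  · rw [← he] at h
    rcases pos_and_pos_or_neg_and_neg_of_mul_pos h with ⟨h1, h2⟩ | ⟨h1, h2⟩
    · rw [sign_pos h1, sign_pos (by exact_mod_cast h2)]
    · rw [sign_neg h1, sign_neg (by exact_mod_cast h2)]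

theorem tor_rat (Y : AddSubgroup (ν → ℤ)) {y : ν → ℝ}
    (hy : y ∈ Submodule.span ℝ (cst '' (Y : Set (ν → ℤ)))) (e : ℝ →ₗ[ℚ] ℚ) :
    ∃ N : ℤ, 0 < N ∧ ∃ w ∈ Y, ∀ i, (w i : ℚ) = N * e (y i) := by
  induction hy using Submodule.span_induction generalizing e with
  | mem x hx =>
    obtain ⟨w, hw, rfl⟩ := hx
    refine ⟨(e 1).den, by exact_mod_cast (e 1).den_pos, (e 1).num • w, Y.zsmul_mem hw _,
      fun i => ?_⟩
    have h1 : e (cst w i) = w i * e 1 := by
      have : cst w i = (w i : ℚ) • (1 : ℝ) := by simp [cst]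
      rw [this, map_smul, smul_eq_mul]
    have h2 := Rat.mul_den_eq_num (e 1)
    rw [h1]
    simp only [Pi.smul_apply, smul_eq_mul, Int.cast_mul, Int.cast_natCast]
    rw [← h2]; ring
  | zero => exact ⟨1, one_pos, 0, Y.zero_mem, fun i => by simp⟩
  | add x x' _ _ h h' =>
    obtain ⟨N, hN, w, hw, e1⟩ := h e
    obtain ⟨N', hN', w', hw', e2⟩ := h' e
    refine ⟨N * N', mul_pos hN hN', N' • w + N • w',
      Y.add_mem (Y.zsmul_mem hw _) (Y.zsmul_mem hw' _), fun i => ?_⟩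
    simp only [Pi.add_apply, Pi.smul_apply, smul_eq_mul, Int.cast_add, Int.cast_mul, map_add,
      e1, e2]
    ring
  | smul c x _ h =>
    obtain ⟨N, hN, w, hw, e1⟩ := h (e ∘ₗ LinearMap.mulLeft ℚ c)
    exact ⟨N, hN, w, hw, fun i => by simpa using e1 i⟩

theorem rat_diff (Y : AddSubgroup (ν → ℤ)) {y : ν → ℝ}
    (hy : y ∈ Submodule.span ℝ (cst '' (Y : Set (ν → ℤ)))) : ∃ w ∈ Y, Pat y (cst w) ∧
      ∀ i j i' j', y i - y j < y i' - y j' ↔ w i - w j < w i' - w j' := by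
  classical
  obtain ⟨e, he⟩ := exists_ell (Finset.univ.image fun q : ν × ν × ν × ν =>
    (y q.2.2.1 - y q.2.2.2) - (y q.1 - y q.2.1))
  obtain ⟨N, hN, w, hw, e1⟩ := tor_rat Y hy e
  have key : ∀ i j i' j', y i - y j < y i' - y j' ↔ w i - w j < w i' - w j' := by
    intro i j i' j'
    have h1 := he _ (Finset.mem_image_of_mem _ (Finset.mem_univ (i, j, i', j')))
    have h2 : (((w i' - w j') - (w i - w j) : ℤ) : ℚ) =
        N * e ((y i' - y j') - (y i - y j)) := by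
      simp only [Int.cast_sub, e1, map_sub]; ring
    have hN' : (0 : ℚ) < N := by exact_mod_cast hN
    rw [← sub_pos, ← sub_pos (a := w i' - w j'), ← sign_eq_one_iff, ← h1, sign_eq_one_iff,
      ← Int.cast_pos (R := ℚ), h2, mul_pos_iff_of_pos_left hN']
  refine ⟨w, hw, fun i j => ?_, key⟩
  have := key i i j i
  simp only [sub_self, sub_pos] at this
  rw [this, cst, cst, Int.cast_lt]

theorem cst_mem {w : ν → ℤ} (hw : w ∈ YY G) : cst w ∈ aa G :=
  Submodule.subset_span ⟨w, hw, rfl⟩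

theorem cst_add (w w' : ν → ℤ) : cst (w + w') = cst w + cst w' := by
  funext i; simp [cst]

theorem cst_neg (w : ν → ℤ) : cst (-w) = -cst w := by
  funext i; simp [cst]

theorem cst_injective : Function.Injective (cst : (ν → ℤ) → ν → ℝ) := fun w w' h => by
  funext i
  have := congrFun h i
  simpa [cst] using this

theorem YY_mono {H : Subgroup (GL ν k)} (h : H ≤ G) : YY H ≤ YY G :=
  fun _ hy t => h (hy t)

theorem tor_dg_smul (M : ℤ) (w : ν → ℤ) (t : kˣ) : dg (M • w) t = dg w (t ^ M) := by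
  apply Units.ext
  rw [dg_val, dg_val]
  congr 1; funext i
  rw [Pi.smul_apply, smul_eq_mul, _root_.zpow_mul, Units.val_zpow_eq_zpow_val]

theorem Good.sat (hG : Good G) {w : ν → ℤ} (hw : cst w ∈ aa G) : w ∈ YY G := by
  classical
  obtain ⟨e, he⟩ := exists_ell {1}
  have h1 : 0 < e 1 := by
    have := he 1 (Finset.mem_singleton_self _)
    rwa [sign_one, sign_eq_one_iff] at this
  obtain ⟨N, hN, w', hw', e1⟩ := tor_rat (YY G) hw e
  have hM : 0 < N * (e 1).num := mul_pos hN (Rat.num_pos.2 h1)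
  have hMw : (N * (e 1).num) • w ∈ YY G := by
    have : (N * (e 1).num) • w = ((e 1).den : ℤ) • w' := by
      funext i
      have h2 : e (cst w i) = w i * e 1 := by
        have : cst w i = (w i : ℚ) • (1 : ℝ) := by simp [cst]
        rw [this, map_smul, smul_eq_mul]
      have h3 := Rat.mul_den_eq_num (e 1)
      have h4 := e1 i
      rw [h2] at h4
      apply Int.cast_injective (α := ℚ)
      simp only [Pi.smul_apply, smul_eq_mul, Int.cast_mul, Int.cast_natCast]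
      rw [h4, ← h3]; ring
    rw [this]
    exact (YY G).zsmul_mem hw' _
  generalize N * (e 1).num = M at hM hMw
  intro t
  refine hG.closed fun p hp => ?_
  obtain ⟨s, c, hc⟩ := Reg.laurent (G := ⊤) (f := fun g => ev g.1 p) ⟨p, fun _ _ => rfl⟩
    (coch_dg (y := w) fun _ => Subgroup.mem_top _) (Subgroup.mem_top 1) (Subgroup.mem_top 1)
  simp only [one_mul, mul_one] at hc
  have h0 := laurent_eq_zero (s.image fun d => M * d) (fun d => c (d / M)) fun u => by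
    rw [Finset.sum_image fun a _ b _ h => mul_left_cancel₀ hM.ne' h]
    have := hp _ (hMw u)
    rw [tor_dg_smul, hc] at this
    rw [← this]
    refine Finset.sum_congr rfl fun d _ => ?_
    rw [Int.mul_ediv_cancel_left _ hM.ne', _root_.zpow_mul, Units.val_zpow_eq_zpow_val]
  rw [hc]
  refine Finset.sum_eq_zero fun d hd => ?_
  have := h0 _ (Finset.mem_image_of_mem _ hd)
  rw [Int.mul_ediv_cancel_left _ hM.ne'] at this
  rw [this, zero_mul]

theorem exists_avoid (W : Submodule ℝ (ν → ℝ)) (s : Finset (ν → ℝ))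
    (hs : ∀ x ∈ s, ∃ y ∈ W, x ⬝ᵥ y ≠ 0) : ∃ y ∈ W, ∀ x ∈ s, x ⬝ᵥ y ≠ 0 := by
  obtain ⟨y, hy, h⟩ := Module.Dual.exists_forall_mem_ne_zero_of_forall_exists W
    (fun x : s => (LinearMap.mk ⟨fun b => x.1 ⬝ᵥ b, fun _ _ => by simp [dotProduct_add]⟩
      fun _ _ => by simp : Module.Dual ℝ (ν → ℝ))) fun x => hs x.1 x.2
  exact ⟨y, hy, fun x hx => h ⟨x, hx⟩⟩

theorem Regl.pat {y y' : ν → ℝ} (h : Regl G y) (hp : Pat y y') (hy' : y' ∈ aa G) :
    Regl G y' :=
  ⟨hy', fun i j e => h.2 i j ((hp.eq_iff i j).2 e)⟩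

theorem Regl.neg {y : ν → ℝ} (h : Regl G y) : Regl G (-y) :=
  ⟨(aa G).neg_mem h.1, fun i j e => h.2 i j (neg_injective e)⟩

theorem Regl.Zgl {y : ν → ℝ} (h : Regl G y) : Zgl y = Mgl G := by
  ext g
  rw [mem_Zgl, mem_Mgl]
  exact ⟨fun hg i j e => h.2 i j (hg i j e),
    fun hg i j e => (rt_eq_zero G i j).1 (hg i j e) y h.1⟩

theorem Regl.ne_zero {y : ν → ℝ} (h : Regl G y) {i j : ν} (hij : rt G i j ≠ 0) :
    rt G i j ⬝ᵥ y ≠ 0 := fun e => by
  rw [rt_dot G i j h.1, sub_eq_zero] at e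
  exact hij (h.2 i j e)

theorem tor_avoid (G : Subgroup (GL ν k)) {ι : Type} [Fintype ι] (x : ι → ν → ℝ)
    (hx : ∀ a, x a ∈ aa G) : ∃ z ∈ aa G, ∀ a, x a ⬝ᵥ z = 0 → x a = 0 := by
  classical
  obtain ⟨z, hz, h⟩ := exists_avoid (aa G) ((Finset.univ.image x).filter (· ≠ 0)) fun v hv => by
    obtain ⟨h1, h2⟩ := Finset.mem_filter.1 hv
    obtain ⟨a, -, rfl⟩ := Finset.mem_image.1 h1
    exact ⟨x a, hx a, fun e => h2 (dotProduct_self_eq_zero.1 e)⟩
  refine ⟨z, hz, fun a e => ?_⟩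
  by_contra h0
  exact h _ (Finset.mem_filter.2 ⟨Finset.mem_image_of_mem _ (Finset.mem_univ a), h0⟩) e

/-- Regular integral points exist near every direction. -/
theorem exists_regl {N : Subgroup (GL ν k)} (hN : aa N = aa G) {y : ν → ℝ} (hy : y ∈ aa G) :
    ∃ w ∈ YY N, Regl G (cst w) ∧ ∀ i j, y i < y j → w i < w j := by
  obtain ⟨z, hz, h⟩ := tor_avoid G (fun q : ν × ν => rt G q.1 q.2) fun q => rt_mem G q.1 q.2
  have hev : ∀ᶠ ε in 𝓝 (0 : ℝ), ∀ q : ν × ν, y q.1 < y q.2 →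
      y q.1 + ε * z q.1 < y q.2 + ε * z q.2 := by
    refine eventually_all.2 fun q => ?_
    by_cases hq : y q.1 < y q.2
    · simp only [hq, true_imp_iff]
      refine ContinuousAt.eventually_lt (by fun_prop) (by fun_prop) (by simpa using hq)
    · simp [hq]
  obtain ⟨ε, hε, hε0⟩ := ((hev.filter_mono nhdsWithin_le_nhds).and
    (self_mem_nhdsWithin (a := (0 : ℝ)) (s := {0}ᶜ))).exists
  have hy' : y + ε • z ∈ aa G := (aa G).add_mem hy ((aa G).smul_mem _ hz)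
  have hr : Regl G (y + ε • z) := ⟨hy', fun i j e => by
    simp only [Pi.add_apply, Pi.smul_apply, smul_eq_mul] at e
    rcases lt_trichotomy (y i) (y j) with h1 | h1 | h1
    · exact ((hε (i, j) h1).ne e).elim
    · rw [h1, add_right_inj] at e
      refine h (i, j) ?_
      rw [rt_dot G i j hz, mul_left_cancel₀ hε0 e, sub_self]
    · exact ((hε (j, i) h1).ne e.symm).elim⟩
  obtain ⟨w, hw, hp, -⟩ := rat_diff (YY N) (y := y + ε • z) (by rw [← hN] at hy'; exact hy')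
  refine ⟨w, hw, hr.pat hp (hN ▸ cst_mem hw), fun i j hij => ?_⟩
  have := (hp i j).1 (hε (i, j) hij)
  rwa [cst, cst, Int.cast_lt] at this

/-- An integral point separating the weights of the matrix entries. -/
theorem exists_sep (G : Subgroup (GL ν k)) :
    ∃ w ∈ YY G, ∀ i j i' j', w i - w j = w i' - w j' → rt G i j = rt G i' j' := by
  obtain ⟨z, hz, h⟩ := tor_avoid G
    (fun q : ν × ν × ν × ν => rt G q.1 q.2.1 - rt G q.2.2.1 q.2.2.2)
    fun q => (aa G).sub_mem (rt_mem G _ _) (rt_mem G _ _)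
  obtain ⟨w, hw, -, hp⟩ := rat_diff (YY G) hz
  refine ⟨w, hw, fun i j i' j' e => sub_eq_zero.1 (h (i, j, i', j') ?_)⟩
  rw [sub_dotProduct, rt_dot G _ _ hz, rt_dot G _ _ hz, sub_eq_zero]
  exact le_antisymm (not_lt.1 fun h1 => ((hp _ _ _ _).1 h1).ne e.symm)
    (not_lt.1 fun h1 => ((hp _ _ _ _).1 h1).ne e)

theorem Mgl_le_Zgl {y : ν → ℝ} (hy : y ∈ aa G) : Mgl G ≤ Zgl y := fun _ hg =>
  mem_Zgl.2 fun i j e => (rt_eq_zero G i j).1 (mem_Mgl.1 hg i j e) y hy

theorem tor_dg_sup {R : ν → ν → Prop} (hr : ∀ i, R i i) (w : ν → ℤ) (t : kˣ) :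
    Sup R (dg w t).1 := fun i j h => by
  by_cases e : i = j
  · exact e ▸ hr i
  · exact (h (by rw [dg_val, diagonal_apply_ne _ e])).elim

theorem dg_mem_Mgl (w : ν → ℤ) (t : kˣ) : dg w t ∈ Mgl G :=
  mem_Mgl.2 (tor_dg_sup (rt_self G) w t)

theorem dg_mem_Zgl (y : ν → ℝ) (w : ν → ℤ) (t : kˣ) : dg w t ∈ Zgl y :=
  mem_Zgl.2 (tor_dg_sup (R := fun i j => y i = y j) (fun _ => rfl) w t)

theorem Mgl_comm {m : GL ν k} (hm : m ∈ Mgl G) {w : ν → ℤ} (hw : w ∈ YY G) (t : kˣ) :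
    m * dg w t = dg w t * m :=
  Zgl_comm (Mgl_le_Zgl (cst_mem hw) hm) t

theorem tor_conj_sub (m u : GL ν k) :
    (m * u * m⁻¹).1 - 1 = m.1 * (u.1 - 1) * (m⁻¹).1 := by
  rw [mul_sub, sub_mul, mul_one, Units.mul_inv, Units.val_mul, Units.val_mul]

theorem dg_conj_Grp {R : ν → ν → Prop} {ht : ∀ i j l, R i j → R j l → R i l} {g : GL ν k}
    (hg : g ∈ Grp R ht) (w : ν → ℤ) (t : kˣ) : dg w t * g * (dg w t)⁻¹ ∈ Grp R ht := by
  rw [mem_Grp, tor_conj_sub]
  intro i j h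
  rw [dg_conj_apply] at h
  exact hg i j (right_ne_zero_of_mul h)

theorem Rgl_le_Ugl {γ y : ν → ℝ} (hy : y ∈ aa G) (h : 0 < γ ⬝ᵥ y) : Rgl G γ ≤ Ugl y :=
  fun _ hg i j e => by
    obtain ⟨c, hc, h1⟩ := hg i j e
    have h2 := rt_dot G i j hy
    rw [h1, smul_dotProduct, smul_eq_mul] at h2
    have := mul_pos hc h
    linarith

theorem Rgl_le_Zgl {γ y : ν → ℝ} (hy : y ∈ aa G) (h : γ ⬝ᵥ y = 0) : Rgl G γ ≤ Zgl y :=
  fun _ hg i j e => by
    obtain ⟨c, -, h1⟩ := hg i j e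
    have h2 := rt_dot G i j hy
    rw [h1, smul_dotProduct, smul_eq_mul, h, mul_zero] at h2
    exact sub_eq_zero.1 h2.symm

theorem Rgl_smul {γ : ν → ℝ} {c : ℝ} (hc : 0 < c) : Rgl G (c • γ) = Rgl G γ := by
  ext g
  rw [mem_Rgl, mem_Rgl]
  refine ⟨fun h i j e => ?_, fun h i j e => ?_⟩
  · obtain ⟨a, ha, h1⟩ := h i j e
    exact ⟨a * c, mul_pos ha hc, by rw [h1, smul_smul]⟩
  · obtain ⟨a, ha, h1⟩ := h i j e
    exact ⟨a / c, div_pos ha hc, by rw [h1, smul_smul, div_mul_cancel₀ _ hc.ne']⟩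

theorem Mgl_conj_Rgl {γ : ν → ℝ} {m u : GL ν k} (hm : m ∈ Mgl G) (hu : u ∈ Rgl G γ) :
    m * u * m⁻¹ ∈ Rgl G γ := by
  rw [mem_Rgl, tor_conj_sub]
  refine Sup.mul (R := fun i j => ∃ c : ℝ, 0 < c ∧ rt G i j = c • γ) ?_
    (Sup.mul ?_ (mem_Mgl.1 hm) (mem_Rgl.1 hu)) (mem_Mgl.1 ((Mgl G).inv_mem hm))
  · rintro i j l ⟨c, hc, h1⟩ h2
    exact ⟨c, hc, by rw [← rt_add G i j l, h1, h2, add_zero]⟩
  · rintro i j l h2 ⟨c, hc, h1⟩
    exact ⟨c, hc, by rw [← rt_add G i j l, h1, h2, zero_add]⟩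

theorem mem_aa_of_Rgl {γ : ν → ℝ} {u : GL ν k} (hu : u ∈ Rgl G γ) (h1 : u ≠ 1) :
    γ ∈ aa G ∧ ∃ i j, ∃ c : ℝ, 0 < c ∧ rt G i j = c • γ := by
  have h2 : u.1 - 1 ≠ 0 := fun e => h1 (Units.ext (sub_eq_zero.1 e))
  obtain ⟨i, j, hij⟩ : ∃ i j, (u.1 - 1) i j ≠ 0 := by
    by_contra! h
    exact h2 (Matrix.ext h)
  obtain ⟨c, hc, h3⟩ := hu i j hij
  refine ⟨?_, i, j, c, hc, h3⟩
  have := (aa G).smul_mem c⁻¹ (rt_mem G i j)
  rwa [h3, smul_smul, inv_mul_cancel₀ hc.ne', one_smul] at this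

theorem tor_pos {c a u v : ℝ} (h : c * a = u - v) (h1 : v < u) (h2 : 0 < a) :
    0 < c :=
  (mul_pos_iff_of_pos_right h2).1 (h ▸ sub_pos.2 h1)

/-- An element of `Ugl y` that commutes with the hyperplane orthogonal to `γ` lies on the ray. -/
theorem mem_Rgl_of {γ y : ν → ℝ} (hγ : γ ∈ aa G) (hy : y ∈ aa G) (h : 0 < γ ⬝ᵥ y) {u : GL ν k}
    (hu : u ∈ Ugl y) (hz : ∀ z ∈ aa G, γ ⬝ᵥ z = 0 → u ∈ Zgl z) : u ∈ Rgl G γ := by
  intro i j e
  have hγ0 : γ ⬝ᵥ γ ≠ 0 := fun h0 => by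
    rw [dotProduct_self_eq_zero.1 h0, zero_dotProduct] at h
    exact lt_irrefl _ h
  obtain ⟨c, hc⟩ : ∃ c : ℝ, c * (γ ⬝ᵥ γ) = γ ⬝ᵥ rt G i j := ⟨_, div_mul_cancel₀ _ hγ0⟩
  have hm : rt G i j - c • γ ∈ aa G := (aa G).sub_mem (rt_mem G i j) ((aa G).smul_mem _ hγ)
  have h1 : γ ⬝ᵥ (rt G i j - c • γ) = 0 := by
    rw [dotProduct_sub, dotProduct_smul, smul_eq_mul, hc, sub_self]
  have h2 : rt G i j ⬝ᵥ (rt G i j - c • γ) = 0 := by
    rw [rt_dot G i j hm, sub_eq_zero]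
    exact hz _ hm h1 i j e
  have h3 : rt G i j = c • γ := by
    rw [← sub_eq_zero, ← dotProduct_self_eq_zero]
    rw [sub_dotProduct, smul_dotProduct, h1, h2, smul_zero, sub_self]
  refine ⟨c, ?_, h3⟩
  have h4 := rt_dot G i j hy
  rw [h3, smul_dotProduct, smul_eq_mul] at h4
  have h5 : y j < y i := hu i j e
  exact tor_pos h4 h5 h

theorem finite_Rts (G : Subgroup (GL ν k)) : (Rts G).Finite :=
  (Set.finite_range fun q : ν × ν => rt G q.1 q.2).subset
    fun _ ⟨_, i, j, h, _⟩ => ⟨(i, j), h.symm⟩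

theorem Rts_mem {γ : ν → ℝ} (h : γ ∈ Rts G) : γ ∈ aa G := by
  obtain ⟨-, i, j, rfl, -⟩ := h
  exact rt_mem G i j

/-- The Lie algebra is graded by the weights. -/
theorem lie_comp {X : Matrix ν ν k} (hX : X ∈ lie G) (Ψ : Set (ν → ℝ)) [DecidablePred (· ∈ Ψ)] :
    (Matrix.of fun i j => if rt G i j ∈ Ψ then X i j else 0) ∈ lie G := by
  classical
  obtain ⟨w, hw, hs⟩ := exists_sep G
  intro p hp
  let δ : ν × ν → ℤ := fun q => w q.1 - w q.2
  let a : ν × ν → k := fun q => X q.1 q.2 * ev 1 (MvPolynomial.pderiv q p)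
  have hmap : ∀ q ∈ (Finset.univ : Finset (ν × ν)), δ q ∈ Finset.univ.image δ :=
    fun q hq => Finset.mem_image_of_mem _ hq
  have h0 := laurent_eq_zero (Finset.univ.image δ)
    (fun d => ∑ q ∈ Finset.univ.filter (fun q => δ q = d), a q) fun t => by
      have h1 := lie_conj (hw t) hX p hp
      rw [← h1, ← Finset.sum_fiberwise_of_maps_to hmap]
      refine Finset.sum_congr rfl fun d _ => ?_
      rw [Finset.sum_mul]
      refine Finset.sum_congr rfl fun q hq => ?_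
      rw [dg_conj_apply, ← (Finset.mem_filter.1 hq).2]
      simp only [a, δ]
      ring
  rw [← Finset.sum_fiberwise_of_maps_to hmap]
  refine Finset.sum_eq_zero fun d hd => ?_
  obtain ⟨q0, -, rfl⟩ := Finset.mem_image.1 hd
  by_cases hq : rt G q0.1 q0.2 ∈ Ψ
  · rw [← h0 _ hd]
    refine Finset.sum_congr rfl fun q hq' => ?_
    rw [Matrix.of_apply, if_pos (by rw [hs _ _ _ _ (Finset.mem_filter.1 hq').2]; exact hq)]
  · refine Finset.sum_eq_zero fun q hq' => ?_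
    rw [Matrix.of_apply, if_neg (by rw [hs _ _ _ _ (Finset.mem_filter.1 hq').2]; exact hq),
      zero_mul]

theorem exists_root_vec {γ : ν → ℝ} (h : γ ∈ Rts G) :
    ∃ X ∈ lie G, X ≠ 0 ∧ Sup (fun i j => rt G i j = γ) X := by
  classical
  obtain ⟨-, i, j, rfl, X, hX, hij⟩ := h
  refine ⟨_, lie_comp hX {rt G i j}, fun e => hij ?_, fun a b e => ?_⟩
  · simpa using congrFun (congrFun e i) j
  · by_contra h1
    exact e (by simp [h1])

open Classical in
/-- The component of a given weight. -/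
noncomputable def torPr (G : Subgroup (GL ν k)) (γ : ν → ℝ) :
    Matrix ν ν k →ₗ[k] Matrix ν ν k where
  toFun X := Matrix.of fun i j => if rt G i j = γ then X i j else 0
  map_add' X Y := by
    ext i j
    by_cases h : rt G i j = γ <;> simp [h]
  map_smul' c X := by
    ext i j
    by_cases h : rt G i j = γ <;> simp [h]

open Classical in
theorem torPr_apply (γ : ν → ℝ) (X : Matrix ν ν k) (i j : ν) :
    torPr G γ X i j = if rt G i j = γ then X i j else 0 := rfl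

theorem torPr_mem (γ : ν → ℝ) {X : Matrix ν ν k} (hX : X ∈ lie G) : torPr G γ X ∈ lie G := by
  classical
  convert lie_comp hX {γ} using 1
  ext i j
  simp [torPr_apply]

theorem exists_isPi (G : Subgroup (GL ν k)) : ∃ π, IsPi G π := by
  classical
  obtain ⟨π, hπ⟩ := (lie G).subtype.exists_leftInverse_of_injective (lie G).ker_subtype
  let s := Finset.univ.image fun q : ν × ν => rt G q.1 q.2
  have hs : ∀ i j, rt G i j ∈ s := fun i j => Finset.mem_image_of_mem _ (Finset.mem_univ (i, j))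
  refine ⟨∑ γ ∈ s, torPr G γ ∘ₗ (lie G).subtype ∘ₗ π ∘ₗ torPr G γ, fun X => ?_, fun X hX => ?_,
    fun Ψ X hX i j h => ?_⟩
  · rw [LinearMap.sum_apply]
    exact Submodule.sum_mem _ fun γ _ => torPr_mem γ (π _).2
  · have h1 : ∀ γ, π (torPr G γ X) = ⟨_, torPr_mem γ hX⟩ := fun γ =>
      LinearMap.congr_fun hπ ⟨_, torPr_mem γ hX⟩
    ext i j
    simp only [LinearMap.sum_apply, LinearMap.comp_apply, h1, Submodule.subtype_apply,
      Matrix.sum_apply, torPr_apply]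
    rw [Finset.sum_eq_single_of_mem _ (hs i j) fun γ _ h => if_neg h.symm, if_pos rfl, if_pos rfl]
  · simp only [LinearMap.sum_apply, LinearMap.comp_apply, Matrix.sum_apply] at h
    obtain ⟨γ, -, h1⟩ := Finset.exists_ne_zero_of_sum_ne_zero h
    rw [torPr_apply] at h1
    have h2 : rt G i j = γ := by
      by_contra h2
      exact h1 (if_neg h2)
    by_contra h3
    have h4 : torPr G γ X = 0 := by
      ext a b
      rw [torPr_apply]
      split_ifs with h5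
      · by_contra h6
        exact h3 (by rw [h2, ← h5]; exact hX a b h6)
      · rfl
    exact h1 (by simp [h4])

theorem tor_dg_wt {w : ν → ℤ} (hw : w ∈ YY G) (t : kˣ) {i j : ν} {Y : Matrix ν ν k}
    (hY : Sup (fun a b => rt G a b ∈ ({rt G i j} : Set (ν → ℝ))) Y) :
    (dg w t).1 * Y * ((dg w t)⁻¹).1 = ((t : k) ^ (w i - w j)) • Y := by
  ext a b
  rw [dg_conj_apply, Matrix.smul_apply, smul_eq_mul]
  by_cases h : Y a b = 0
  · rw [h, mul_zero, mul_zero]
  · have h1 : rt G a b = rt G i j := hY a b h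
    have h2 := rt_dot G a b (cst_mem hw)
    rw [h1, rt_dot G i j (cst_mem hw)] at h2
    have h3 : w a - w b = w i - w j := by
      simp only [cst] at h2
      exact_mod_cast h2.symm
    rw [h3]

theorem IsPi.dg_conj {π : Matrix ν ν k →ₗ[k] Matrix ν ν k} (h : IsPi G π) {w : ν → ℤ}
    (hw : w ∈ YY G) (t : kˣ) (X : Matrix ν ν k) :
    π ((dg w t).1 * X * ((dg w t)⁻¹).1) = (dg w t).1 * π X * ((dg w t)⁻¹).1 := by
  rw [Matrix.matrix_eq_sum_single X]
  simp only [map_sum, Finset.mul_sum, Finset.sum_mul]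
  refine Finset.sum_congr rfl fun i _ => Finset.sum_congr rfl fun j _ => ?_
  have h1 : Sup (fun a b => rt G a b ∈ ({rt G i j} : Set (ν → ℝ))) (single i j (X i j)) :=
    fun a b e => by
      by_cases h2 : i = a ∧ j = b
      · obtain ⟨rfl, rfl⟩ := h2
        rfl
      · exact (e (Matrix.single_apply_of_ne _ _ _ _ _ h2)).elim
  rw [tor_dg_wt hw t h1, tor_dg_wt hw t (h.wt _ _ h1), map_smul]

theorem tor_li {r : ℕ} (y : Fin r → ν → ℤ) :
    LinearIndependent ℝ (fun j => cst (y j)) ↔ LinearIndependent ℤ y :=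
  linearIndependent_algebraMap_comp_iff (R := ℤ) (S := ℝ)

theorem tor_split_iff (h : GL ν k) (y : ν → ℤ) : (∀ t : kˣ, ∃ g ∈ G,
    g.1 * h.1 = h.1 * Matrix.diagonal fun i => (t : k) ^ y i) ↔ y ∈ YY (cj h G) := by
  refine forall_congr' fun t => ⟨fun ⟨g, hg, e⟩ => ?_, fun hg => ⟨_, mem_cj.1 hg, ?_⟩⟩
  · have : g * h = h * dg y t := Units.ext e
    rw [mem_cj, ← this, mul_inv_cancel_right]
    exact hg
  · rw [← Units.val_mul, inv_mul_cancel_right]
    rfl

theorem tor_bdd (G : Subgroup (GL ν k)) : BddAbove {r | HasSplitTorus k G r} :=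
  ⟨Fintype.card ν, fun r ⟨_, y, hy, _⟩ => by
    simpa using hy.fintype_card_le_finrank⟩

theorem tor_finrank_le (G : Subgroup (GL ν k)) (h : GL ν k) :
    Module.finrank ℝ (aa (cj h G)) ≤ splitRank k G := by
  obtain ⟨f, hf, -, hli⟩ := Submodule.exists_fun_fin_finrank_span_eq ℝ
    (cst '' (YY (cj h G) : Set (ν → ℤ)))
  choose y hy e using hf
  refine le_csSup (tor_bdd G) ⟨h, y, (tor_li y).1 ?_, fun j => (tor_split_iff h (y j)).2 (hy j)⟩
  simpa only [e] using hli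

theorem exists_max (G : Subgroup (GL ν k)) :
    ∃ h, IsMax (cj h G) ∧ Module.finrank ℝ (aa (cj h G)) = splitRank k G := by
  have h0 : HasSplitTorus k G 0 := ⟨1, fun _ => 0, linearIndependent_empty_type, fun j => j.elim0⟩
  obtain ⟨h, y, hy, hm⟩ : HasSplitTorus k G (splitRank k G) := Nat.sSup_mem ⟨0, h0⟩ (tor_bdd G)
  have h1 : splitRank k G ≤ Module.finrank ℝ (aa (cj h G)) := by
    have h2 : LinearIndependent ℝ fun j =>
        (⟨cst (y j), cst_mem ((tor_split_iff h (y j)).1 (hm j))⟩ : aa (cj h G)) :=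
      LinearIndependent.of_comp (aa (cj h G)).subtype ((tor_li y).2 hy)
    simpa using h2.fintype_card_le_finrank
  refine ⟨h, fun h' hh' z hz => ?_, le_antisymm (tor_finrank_le G h) h1⟩
  have h3 : ∀ g, g ∈ cj (h * h') G ↔ h' * g * h'⁻¹ ∈ cj h G := fun g => by
    simp only [mem_cj, _root_.mul_inv_rev, mul_assoc]
  have h4 : aa (cj h G) ≤ aa (cj (h * h') G) :=
    Submodule.span_mono (Set.image_mono fun w hw t => by
      rw [h3, Mgl_comm hh' hw, mul_inv_cancel_right]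
      exact hw t)
  have h5 := Submodule.eq_of_le_of_finrank_le h4 ((tor_finrank_le G _).trans h1)
  have h6 : cst z ∈ aa (cj h G) := h5 ▸ cst_mem fun t => (h3 _).2 (hz t)
  intro t
  have := hz t
  rwa [Zgl_comm (Mgl_le_Zgl h6 hh'), mul_inv_cancel_right] at this

theorem YY_tr : YY (tr G) = YY G := by
  ext y
  simp only [mem_YY, mem_tr, trU_dg]

theorem aa_tr : aa (tr G) = aa G := by
  rw [aa, aa, YY_tr]

theorem rt_tr : rt (tr G) = rt G := by
  funext i j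
  exact eq_of_dot (aa_tr (G := G) ▸ rt_mem (tr G) i j) (rt_mem G i j) fun y hy => by
    rw [rt_dot G i j hy, rt_dot (tr G) i j (aa_tr (G := G) ▸ hy)]

theorem Ctx.tr (h : Ctx G) : Ctx (tr G) := by
  refine ⟨h.good.tr, fun m hm y hy => ?_, aa_tr (G := G) ▸ h.ne⟩
  rw [YY_tr]
  have h1 : trU m ∈ Mgl G := mem_Mgl.2 fun i j e => by
    have := mem_Mgl.1 hm j i e
    rw [rt_tr] at this
    exact (rt_neg G j i).symm.trans (neg_eq_zero.2 this)
  refine h.max _ ((Mgl G).inv_mem h1) y fun t => ?_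
  have := mem_tr.1 (hy t)
  rwa [trU_mul, trU_mul, trU_dg, trU_inv, ← mul_assoc, ← inv_inv (trU m), inv_inv (trU m)⁻¹]
    at this

end Pool.Agent.Lib.MP_60cbcc_al.H3A
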