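import Pool.Agent.Lib.MP_60cbcc_al.H3AWeyl

/-!
The valuation on the centraliser of the torus.
-/

namespace Pool.Agent.Lib.MP_60cbcc_al.H3A

open Matrix Filter Topology

set_option linter.unusedSectionVars false

variable {k : Type} [NontriviallyNormedField k] [ProperSpace k] {ν : Type} [Fintype ν]
  [DecidableEq ν] {G : Subgroup (GL ν k)}

/-- Unions of classes. -/
def VvSat (G : Subgroup (GL ν k)) (P : ν → Prop) : Prop :=
  ∀ i j, rt G i j = 0 → P i → P j

theorem vv_rt_symm {i j : ν} (h : rt G i j = 0) : rt G j i = 0 := by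
  rw [← rt_neg, h, neg_zero]

theorem vv_rt_trans {i j l : ν} (h : rt G i j = 0) (h' : rt G j l = 0) : rt G i l = 0 := by
  rw [← rt_add G i j l, h, h', add_zero]

theorem vvSat_cl (j : ν) : VvSat G fun i => rt G i j = 0 :=
  fun _ _ h h' => vv_rt_trans (vv_rt_symm h) h'

theorem vv_prj_idem (P : ν → Prop) : (prj P : Matrix ν ν k) * prj P = prj P := by
  unfold prj
  rw [diagonal_mul_diagonal]
  congr 1
  funext i
  split_ifs <;> simp

theorem vv_prj_intertwine {P Q : ν → Prop} {x : Matrix ν ν k}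
    (h : ∀ i j, x i j ≠ 0 → (P i ↔ Q j)) : prj P * x = x * prj Q := by
  ext i j
  unfold prj
  rw [diagonal_mul, mul_diagonal]
  by_cases hx : x i j = 0
  · simp [hx]
  · by_cases hp : P i
    · simp [hp, (h i j hx).1 hp]
    · have hq : ¬ Q j := fun hq => hp ((h i j hx).2 hq)
      simp [hp, hq]

theorem VvSat.comm {P : ν → Prop} (hP : VvSat G P) {m : GL ν k} (hm : m ∈ Mgl G) :
    prj P * m.1 = m.1 * prj P :=
  vv_prj_intertwine fun i j hij =>
    ⟨hP i j (mem_Mgl.1 hm i j hij), hP j i (vv_rt_symm (mem_Mgl.1 hm i j hij))⟩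

theorem vv_blk_mul {P : ν → Prop} {x : Matrix ν ν k} (hx : prj P * x = x * prj P)
    (y : Matrix ν ν k) : blk P (x * y) = blk P x * blk P y := by
  have he := vv_prj_idem (k := k) P
  unfold blk
  generalize (prj P : Matrix ν ν k) = e at hx he ⊢
  have h1 : e * x * e = e * x := by rw [mul_assoc, ← hx, ← mul_assoc, he]
  have h2 : (1 - e) * (e * y * e) = 0 := by
    rw [← mul_assoc, ← mul_assoc, sub_mul, one_mul, he, sub_self, zero_mul, zero_mul]
  have h3 : e * x * e * (1 - e) = 0 := by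
    rw [mul_assoc, mul_sub, mul_one, he, sub_self, mul_zero]
  have h4 : (1 - e) * (1 - e) = 1 - e := by
    rw [mul_sub, mul_one, sub_mul, one_mul, he, sub_self, sub_zero]
  have h5 : e * x * e * (e * y * e) = e * (x * y) * e := by
    calc e * x * e * (e * y * e) = e * x * (e * e) * y * e := by simp only [mul_assoc]
      _ = e * (x * y) * e := by rw [he, h1, mul_assoc e x y]
  rw [add_mul, mul_add, mul_add, h2, h3, h4, h5, add_zero, zero_add]

theorem vv_blk_one (P : ν → Prop) : blk P (1 : Matrix ν ν k) = 1 := by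
  unfold blk
  rw [mul_one, vv_prj_idem, add_sub_cancel]

theorem vv_det_mul {P : ν → Prop} (hP : VvSat G P) {m : GL ν k} (hm : m ∈ Mgl G) (m' : GL ν k) :
    (blk P (m * m').1).det = (blk P m.1).det * (blk P m'.1).det := by
  rw [Units.val_mul, vv_blk_mul (hP.comm hm), det_mul]

theorem vv_det_ne {P : ν → Prop} (hP : VvSat G P) {m : GL ν k} (hm : m ∈ Mgl G) :
    (blk P m.1).det ≠ 0 := by
  have h := vv_det_mul hP hm m⁻¹
  rw [mul_inv_cancel, Units.val_one, vv_blk_one, det_one] at h
  exact left_ne_zero_of_mul_eq_one h.symm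

open Classical in
theorem vv_blk_apply (P : ν → Prop) (x : Matrix ν ν k) (i j : ν) :
    blk P x i j = if P j then (if P i then x i j else 0) else (1 : Matrix ν ν k) i j := by
  unfold blk prj
  rw [Matrix.add_apply, mul_diagonal, diagonal_mul, Matrix.sub_apply]
  by_cases e : i = j
  · subst e
    by_cases hp : P i <;> simp [hp]
  · by_cases hi : P i <;> by_cases hj : P j <;> simp [hi, hj, e]

theorem vv_blk_union {P Q R : ν → Prop} (hR : ∀ i, R i ↔ P i ∨ Q i) (hd : ∀ i, P i → ¬ Q i)
    {x : Matrix ν ν k} (hP : prj P * x = x * prj P) (hQ : prj Q * x = x * prj Q) :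
    blk R x = blk P x * blk Q x := by
  have h0 : (prj R : Matrix ν ν k) = prj P + prj Q := by
    unfold prj
    rw [diagonal_add]
    congr 1
    funext i
    by_cases hp : P i
    · simp [hp, hd i hp, hR i]
    · by_cases hq : Q i <;> simp [hp, hq, hR i]
  have h1 : (prj P : Matrix ν ν k) * prj Q = 0 := by
    unfold prj
    rw [diagonal_mul_diagonal, ← diagonal_zero]
    congr 1
    funext i
    by_cases hp : P i
    · simp [hd i hp]
    · simp [hp]
  have h2 : (prj Q : Matrix ν ν k) * prj P = 0 := by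
    unfold prj
    rw [diagonal_mul_diagonal, ← diagonal_zero]
    congr 1
    funext i
    by_cases hp : P i
    · simp [hd i hp]
    · simp [hp]
  have he := vv_prj_idem (k := k) P
  have hf := vv_prj_idem (k := k) Q
  unfold blk
  rw [h0]
  generalize (prj P : Matrix ν ν k) = e at *
  generalize (prj Q : Matrix ν ν k) = f at *
  have a1 : e * x * e = x * e := by rw [hP, mul_assoc, he]
  have a2 : f * x * f = x * f := by rw [hQ, mul_assoc, hf]
  have a3 : e * x * f = 0 := by rw [hP, mul_assoc, h1, mul_zero]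
  have a4 : f * x * e = 0 := by rw [hQ, mul_assoc, h2, mul_zero]
  have a5 : e * (x * f) = 0 := by rw [← mul_assoc, a3]
  have b1 : (e + f) * x * (e + f) = x * e + x * f := by
    rw [add_mul, add_mul, mul_add, mul_add, a1, a2, a3, a4, add_zero, zero_add]
  have b2 : x * e * (x * f) = 0 := by rw [mul_assoc, a5, mul_zero]
  have b3 : x * e * (1 - f) = x * e := by rw [mul_sub, mul_one, mul_assoc, h1, mul_zero, sub_zero]
  have b4 : (1 - e) * (x * f) = x * f := by rw [sub_mul, one_mul, a5, sub_zero]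
  have b5 : (1 - e) * (1 - f) = 1 - (e + f) := by
    rw [mul_sub, mul_one, sub_mul, one_mul, h1, sub_zero, sub_sub]
  rw [b1, a1, a2, add_mul, mul_add, mul_add, b2, b3, b4, b5, zero_add, add_assoc]

open Classical in
/-- The size of a class. -/
noncomputable def vvN (G : Subgroup (GL ν k)) (j : ν) : ℕ :=
  (Finset.univ.filter fun i => rt G i j = 0).card

theorem vvN_pos (j : ν) : 0 < vvN G j := by
  classical
  exact Finset.card_pos.2 ⟨j, Finset.mem_filter.2 ⟨Finset.mem_univ _, rt_self G j⟩⟩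

theorem vvN_le (j : ν) : vvN G j ≤ Fintype.card ν := Finset.card_le_univ _

theorem vv_apply (m : GL ν k) (j : ν) :
    vv G m j = -Real.log ‖(blk (fun i => rt G i j = 0) m.1).det‖ / vvN G j := rfl

theorem vv_log (m : GL ν k) (j : ν) :
    Real.log ‖(blk (fun i => rt G i j = 0) m.1).det‖ = -(vvN G j * vv G m j) := by
  have h : (vvN G j : ℝ) ≠ 0 := Nat.cast_ne_zero.2 (vvN_pos j).ne'
  rw [vv_apply]
  field_simp

theorem vv_mul {m m' : GL ν k} (hm : m ∈ Mgl G) (hm' : m' ∈ Mgl G) :
    vv G (m * m') = vv G m + vv G m' := by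
  funext j
  rw [Pi.add_apply, vv_apply, vv_apply, vv_apply, vv_det_mul (vvSat_cl j) hm, norm_mul,
    Real.log_mul (norm_ne_zero_iff.2 (vv_det_ne (vvSat_cl j) hm))
      (norm_ne_zero_iff.2 (vv_det_ne (vvSat_cl j) hm'))]
  ring

theorem vv_one : vv G 1 = 0 := by
  funext j
  rw [vv_apply, Units.val_one, vv_blk_one, det_one, norm_one, Real.log_one]
  simp

theorem vv_inv {m : GL ν k} (hm : m ∈ Mgl G) : vv G m⁻¹ = -vv G m := by
  have h := vv_mul hm ((Mgl G).inv_mem hm)
  rw [mul_inv_cancel, vv_one] at h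
  exact eq_neg_of_add_eq_zero_right h.symm

theorem vv_zpow {m : GL ν k} (hm : m ∈ Mgl G) (l : ℤ) : vv G (m ^ l) = (l : ℝ) • vv G m := by
  induction l using Int.induction_on with
  | zero => simp [vv_one]
  | succ n ih =>
    rw [_root_.zpow_add_one, vv_mul ((Mgl G).zpow_mem hm _) hm, ih]
    push_cast
    rw [add_smul, one_smul]
  | pred n ih =>
    rw [_root_.zpow_sub_one, vv_mul ((Mgl G).zpow_mem hm _) ((Mgl G).inv_mem hm), ih, vv_inv hm]
    push_cast
    rw [sub_smul, one_smul, sub_eq_add_neg]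

theorem vv_dg {w : ν → ℤ} (hw : w ∈ YY G) (t : kˣ) :
    vv G (dg w t) = (-Real.log ‖(t : k)‖) • cst w := by
  classical
  funext j
  have hc : cst w ∈ aa G := Submodule.subset_span ⟨w, hw, rfl⟩
  have h1 : blk (fun i => rt G i j = 0) (dg w t).1 =
      diagonal fun i => if rt G i j = 0 then (t : k) ^ w j else 1 := by
    ext a b
    rw [vv_blk_apply, dg_val]
    by_cases e : a = b
    · subst e
      by_cases hp : rt G a j = 0
      · have : w a = w j := by
          have := (rt_eq_zero G a j).1 hp _ hc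
          unfold cst at this
          exact_mod_cast this
        simp [hp, this]
      · simp [hp]
    · simp [e]
  have h : (vvN G j : ℝ) ≠ 0 := Nat.cast_ne_zero.2 (vvN_pos j).ne'
  have h2 : (blk (fun i => rt G i j = 0) (dg w t).1).det = ((t : k) ^ w j) ^ vvN G j := by
    rw [h1, det_diagonal, Finset.prod_ite, Finset.prod_const_one, mul_one, Finset.prod_const]
    unfold vvN
    congr
  rw [vv_apply, h2, norm_pow, norm_zpow, Real.log_pow, Real.log_zpow, Pi.smul_apply, smul_eq_mul]
  unfold cst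
  field_simp

theorem vv_norm_det_le (j : ν) {x : Matrix ν ν k} {B : ℝ} (hB : 0 ≤ B)
    (h : ∀ a b, rt G b j = 0 → ‖x a b‖ ≤ B) :
    ‖(blk (fun i => rt G i j = 0) x).det‖ ≤ (Fintype.card ν).factorial * B ^ vvN G j := by
  classical
  have h1 : ∀ σ : Equiv.Perm ν,
      ‖Equiv.Perm.sign σ • ∏ i, blk (fun i => rt G i j = 0) x (σ i) i‖ ≤ B ^ vvN G j := by
    intro σ
    have h2 : ‖Equiv.Perm.sign σ • ∏ i, blk (fun i => rt G i j = 0) x (σ i) i‖ =
        ‖∏ i, blk (fun i => rt G i j = 0) x (σ i) i‖ := by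
      rcases Int.units_eq_one_or (Equiv.Perm.sign σ) with e | e <;> simp [e]
    have h3 : B ^ vvN G j = ∏ i, if rt G i j = 0 then B else 1 := by
      rw [Finset.prod_ite, Finset.prod_const_one, mul_one, Finset.prod_const]
      unfold vvN
      congr
    rw [h2, norm_prod, h3]
    refine Finset.prod_le_prod (fun i _ => norm_nonneg _) fun i _ => ?_
    rw [vv_blk_apply]
    by_cases hi : rt G i j = 0
    · by_cases hs : rt G (σ i) j = 0
      · simpa [hi, hs] using h _ _ hi
      · simpa [hi, hs] using hB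
    · rw [if_neg hi, if_neg hi]
      by_cases e : σ i = i
      · rw [e, Matrix.one_apply_eq, norm_one]
      · rw [Matrix.one_apply_ne e, norm_zero]
        exact zero_le_one
  rw [det_apply]
  refine (norm_sum_le _ _).trans ((Finset.sum_le_card_nsmul _ _ _ fun σ _ => h1 σ).trans ?_)
  rw [Finset.card_univ, Fintype.card_perm, nsmul_eq_mul]

theorem vv_eq_zero_of_bound {x d : ℝ}
    (h : ∀ ε : ℝ, 0 < ε → ∃ K : ℝ, ∀ l : ℤ, l * x ≤ K + d * (l.natAbs * ε)) : x = 0 := by
  by_contra hx
  have hp : 0 < |x| := abs_pos.2 hx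
  have hd : 0 < |d| + 1 := by positivity
  obtain ⟨K, hK⟩ := h (|x| / (2 * (|d| + 1))) (by positivity)
  obtain ⟨n, hn⟩ := exists_nat_gt (2 * K / |x|)
  have h1 : (n : ℝ) * |x| ≤ K + d * (n * (|x| / (2 * (|d| + 1)))) := by
    rcases abs_choice x with e | e
    · have := hK n
      rw [Int.natAbs_natCast] at this
      push_cast at this
      calc (n : ℝ) * |x| = n * x := by rw [e]
        _ ≤ _ := this
    · have := hK (-n)
      rw [Int.natAbs_neg, Int.natAbs_natCast] at this
      push_cast at this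
      calc (n : ℝ) * |x| = -n * x := by rw [e]; ring
        _ ≤ _ := this
  have h2 : d * (n * (|x| / (2 * (|d| + 1)))) ≤ n * |x| / 2 := by
    have h3 : d ≤ |d| + 1 := by linarith [le_abs_self d]
    have h4 : 0 ≤ (n : ℝ) * (|x| / (2 * (|d| + 1))) := by positivity
    calc d * (n * (|x| / (2 * (|d| + 1)))) ≤ (|d| + 1) * (n * (|x| / (2 * (|d| + 1)))) :=
          mul_le_mul_of_nonneg_right h3 h4
      _ = n * |x| / 2 := by field_simp
  rw [div_lt_iff₀ hp] at hn
  linarith

theorem vv_eq_of_isVal {m : GL ν k} (hm : m ∈ Mgl G) {r : ν → ℝ}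
    (hr : ∀ i j, rt G i j = 0 → r i = r j) (hv : IsVal m r) : vv G m = r := by
  funext j
  have hd : (0 : ℝ) < vvN G j := Nat.cast_pos.2 (vvN_pos j)
  have key : (vvN G j : ℝ) * (r j - vv G m j) = 0 := by
    refine vv_eq_zero_of_bound (d := vvN G j) fun ε hε => ?_
    obtain ⟨C, hC⟩ := hv (Real.exp ε) (Real.one_lt_exp_iff.2 hε)
    have hC0 : 0 < C := by
      have := hC 0 j j
      simp at this
      linarith
    refine ⟨Real.log (Fintype.card ν).factorial + vvN G j * Real.log C, fun l => ?_⟩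
    have hB : 0 < C * Real.exp (-(l * r j)) * Real.exp ε ^ l.natAbs := by positivity
    have h1 := vv_norm_det_le (G := G) j (x := (m ^ l).1) hB.le fun a b hb => by
      rw [← hr b j hb]; exact hC l a b
    have h2 := Real.log_le_log
      (norm_pos_iff.2 (vv_det_ne (vvSat_cl j) ((Mgl G).zpow_mem hm l))) h1
    have hf : ((Fintype.card ν).factorial : ℝ) ≠ 0 := Nat.cast_ne_zero.2 (Nat.factorial_ne_zero _)
    rw [vv_log, vv_zpow hm, Real.log_mul hf (pow_pos hB _).ne', Real.log_pow,
      Real.log_mul (by positivity) (by positivity), Real.log_mul hC0.ne' (by positivity),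
      Real.log_exp, Real.log_pow, Real.log_exp, Pi.smul_apply, smul_eq_mul] at h2
    nlinarith [h2]
  have := (mul_eq_zero.1 key).resolve_left hd.ne'
  linarith

theorem vv_cl_eq {i j : ν} (h : rt G i j = 0) :
    (fun l => rt G l i = 0) = fun l => rt G l j = 0 :=
  funext fun _ => propext ⟨fun h' => vv_rt_trans h' h, fun h' => vv_rt_trans h' (vv_rt_symm h)⟩

theorem vvN_class {i j : ν} (h : rt G i j = 0) : vvN G i = vvN G j := by
  classical
  unfold vvN
  congr 1
  ext l
  simp only [Finset.mem_filter, Finset.mem_univ, true_and]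
  exact ⟨fun h' => vv_rt_trans h' h, fun h' => vv_rt_trans h' (vv_rt_symm h)⟩

theorem vv_class (m : GL ν k) {i j : ν} (h : rt G i j = 0) : vv G m i = vv G m j := by
  rw [vv_apply, vv_apply, vv_cl_eq h, vvN_class h]

theorem vv_mem_log {m : GL ν k} (hm : m ∈ Mgl G) (j : ν) :
    ∃ t : kˣ, ((Fintype.card ν).factorial : ℝ) * vv G m j = Real.log ‖(t : k)‖ := by
  obtain ⟨q, hq⟩ := Nat.dvd_factorial (vvN_pos (G := G) j) (vvN_le j)
  refine ⟨(Units.mk0 _ (vv_det_ne (vvSat_cl j) hm))⁻¹ ^ q, ?_⟩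
  rw [Units.val_pow_eq_pow_val, Units.val_inv_eq_inv_val, Units.val_mk0, norm_pow, norm_inv,
    Real.log_pow, Real.log_inv, vv_log, hq]
  push_cast
  ring

theorem vv_log_sat {m : GL ν k} (hm : m ∈ Mgl G) (S : Finset ν) (hS : VvSat G fun i => i ∈ S) :
    Real.log ‖(blk (fun i => i ∈ S) m.1).det‖ = -∑ i ∈ S, vv G m i := by
  classical
  induction S using Finset.strongInduction with
  | H S ih =>
    rcases S.eq_empty_or_nonempty with rfl | ⟨j, hj⟩
    · have : blk (fun i => i ∈ (∅ : Finset ν)) m.1 = 1 := by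
        ext a b
        rw [vv_blk_apply]
        simp
      rw [this]
      simp
    · have hS' : VvSat G fun i => i ∈ S.filter fun i => ¬ rt G i j = 0 := fun a b hab ha =>
        Finset.mem_filter.2 ⟨hS a b hab (Finset.mem_filter.1 ha).1,
          fun hb => (Finset.mem_filter.1 ha).2 (vv_rt_trans hab hb)⟩
      have hlt : (S.filter fun i => ¬ rt G i j = 0) ⊂ S :=
        Finset.filter_ssubset.2 ⟨j, hj, fun h => h (rt_self G j)⟩
      have h1 := ih _ hlt hS'
      have h2 : blk (fun i => i ∈ S) m.1 = blk (fun i => rt G i j = 0) m.1 *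
          blk (fun i => i ∈ S.filter fun i => ¬ rt G i j = 0) m.1 := by
        refine vv_blk_union (fun i => ?_) (fun i hi h => ?_)
          ((vvSat_cl j).comm hm) (hS'.comm hm)
        swap
        · rw [Finset.mem_filter] at h
          exact h.2 hi
        rw [Finset.mem_filter]
        refine ⟨fun h => ?_, fun h => h.elim (fun h => hS j i (vv_rt_symm h) hj) fun h => h.1⟩
        by_cases e : rt G i j = 0
        · exact Or.inl e
        · exact Or.inr ⟨h, e⟩
      have h3 : ∑ i ∈ S.filter (fun i => rt G i j = 0), vv G m i = vvN G j * vv G m j := by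
        rw [Finset.sum_congr rfl fun i hi => vv_class m (Finset.mem_filter.1 hi).2,
          Finset.sum_const, nsmul_eq_mul]
        congr 2
        unfold vvN
        congr 1
        ext i
        simp only [Finset.mem_filter, Finset.mem_univ, true_and]
        exact ⟨fun h => h.2, fun h => ⟨hS j i (vv_rt_symm h) hj, h⟩⟩
      rw [h2, det_mul, norm_mul, Real.log_mul (norm_ne_zero_iff.2 (vv_det_ne (vvSat_cl j) hm))
        (norm_ne_zero_iff.2 (vv_det_ne hS' hm)), h1, vv_log,
        ← Finset.sum_filter_add_sum_filter_not S (fun i => rt G i j = 0), h3]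
      ring

theorem vvSat_le {y : ν → ℝ} (hy : y ∈ aa G) (a : ℝ) : VvSat G fun i => a ≤ y i :=
  fun i j h hi => le_of_le_of_eq hi ((rt_eq_zero G i j).1 h y hy)

theorem log_Dl {y : ν → ℝ} (hy : y ∈ aa G) (a : ℝ) {m : GL ν k} (hm : m ∈ Mgl G) :
    Real.log ‖Dl y a m.1‖ = -∑ i ∈ Finset.univ.filter (fun i => a ≤ y i), vv G m i := by
  have e : (fun i => i ∈ Finset.univ.filter (fun i => a ≤ y i)) = fun i => a ≤ y i := by
    funext i
    simp
  have h := vv_log_sat hm (Finset.univ.filter (fun i => a ≤ y i)) (by rw [e]; exact vvSat_le hy a)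
  rw [e] at h
  exact h

theorem vv_eq_of_Dl {y : ν → ℝ} (hy : Regl G y) {m m' : GL ν k} (hm : m ∈ Mgl G)
    (hm' : m' ∈ Mgl G) (h : ∀ l, ‖Dl y (y l) m.1‖ = ‖Dl y (y l) m'.1‖) : vv G m = vv G m' := by
  classical
  by_contra hne
  have hS : (Finset.univ.filter fun i => vv G m i ≠ vv G m' i).Nonempty := by
    obtain ⟨i, hi⟩ := Function.ne_iff.1 hne
    exact ⟨i, Finset.mem_filter.2 ⟨Finset.mem_univ _, hi⟩⟩
  obtain ⟨l, hl, hmax⟩ := Finset.exists_max_image _ y hS
  have hl' := (Finset.mem_filter.1 hl).2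
  have h1 : ∑ i ∈ Finset.univ.filter (fun i => y l ≤ y i), (vv G m i - vv G m' i) = 0 := by
    have a1 := log_Dl hy.1 (y l) hm
    have a2 := log_Dl hy.1 (y l) hm'
    rw [h l, a2] at a1
    rw [Finset.sum_sub_distrib]
    linarith
  have h2 : ∀ i ∈ Finset.univ.filter (fun i => y l ≤ y i),
      0 ≤ (vv G m l - vv G m' l) * (vv G m i - vv G m' i) := by
    intro i hi
    by_cases e : vv G m i = vv G m' i
    · rw [e, sub_self, mul_zero]
    · have h3 : y i = y l := le_antisymm (hmax i (Finset.mem_filter.2 ⟨Finset.mem_univ _, e⟩))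
        (Finset.mem_filter.1 hi).2
      rw [vv_class m (hy.2 i l h3), vv_class m' (hy.2 i l h3)]
      exact mul_self_nonneg _
  have h4 := (Finset.sum_eq_zero_iff_of_nonneg h2).1 (by rw [← Finset.mul_sum, h1, mul_zero]) l
    (Finset.mem_filter.2 ⟨Finset.mem_univ _, le_rfl⟩)
  exact hl' (sub_eq_zero.1 (mul_self_eq_zero.1 h4))

theorem norm_DD_of_vv {y : ν → ℝ} (hy : y ∈ aa G) {m : GL ν k} (hm : m ∈ Mgl G)
    (h : vv G m = 0) : ‖DD y m.1‖ = 1 := by
  unfold DD
  rw [norm_prod]
  refine Finset.prod_eq_one fun l _ => ?_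
  refine Real.eq_one_of_pos_of_log_eq_zero (norm_pos_iff.2 (vv_det_ne (vvSat_le hy _) hm)) ?_
  rw [log_Dl hy _ hm, h]
  simp

theorem IsW.vv {n m : GL ν k} {τ : Equiv.Perm ν} (h : IsW G n τ) (hm : m ∈ Mgl G) :
    vv G (n * m * n⁻¹) = vv G m ∘ τ := by
  classical
  funext j
  have h0 : ∀ i, H3A.rt G i j = 0 ↔ H3A.rt G (τ i) (τ j) = 0 := fun i => by
    rw [← h.rt i j]
    refine ⟨fun e => funext fun a => ?_, fun e => by rw [e]; rfl⟩
    have := congrFun e (τ.symm a)
    simpa using this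
  have h1 : prj (fun i => H3A.rt G i j = 0) * n.1 = n.1 * prj fun i => H3A.rt G i (τ j) = 0 := by
    refine vv_prj_intertwine fun i a hia => ?_
    have e : H3A.rt G (τ i) a = 0 := (rt_eq_zero G _ _).2 fun y hy => (h.2 y hy).2 i a hia
    rw [h0 i]
    exact ⟨fun e' => vv_rt_trans (vv_rt_symm e) e', fun e' => vv_rt_trans e e'⟩
  have h2 : blk (fun i => H3A.rt G i j = 0) (n * m * n⁻¹).1 =
      n.1 * blk (fun i => H3A.rt G i (τ j) = 0) m.1 * (n⁻¹).1 := by
    unfold blk
    generalize (prj (fun i => H3A.rt G i j = 0) : Matrix ν ν k) = e at h1 ⊢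
    generalize (prj (fun i => H3A.rt G i (τ j) = 0) : Matrix ν ν k) = f at h1 ⊢
    have a0 : e = n.1 * f * (n⁻¹).1 := by rw [← h1, mul_assoc, Units.mul_inv, mul_one]
    have a1 : (n⁻¹).1 * e = f * (n⁻¹).1 := by
      rw [a0, ← mul_assoc, ← mul_assoc, Units.inv_mul, one_mul]
    have a2 : e * (n * m * n⁻¹).1 * e = n.1 * (f * m.1 * f) * (n⁻¹).1 := by
      calc e * (n * m * n⁻¹).1 * e = (e * n.1) * m.1 * ((n⁻¹).1 * e) := by
            simp only [Units.val_mul, mul_assoc]
        _ = _ := by rw [h1, a1]; simp only [mul_assoc]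
    rw [a2, mul_add, add_mul, mul_sub, sub_mul, mul_one, Units.mul_inv, ← a0]
  have h3 : vvN G j = vvN G (τ j) := by
    unfold vvN
    refine Finset.card_bij (fun i _ => τ i) (fun i hi => ?_) (fun a _ b _ e => τ.injective e)
      fun b hb => ⟨τ.symm b, ?_, by simp⟩
    · simp only [Finset.mem_filter, Finset.mem_univ, true_and] at hi ⊢
      exact (h0 i).1 hi
    · simp only [Finset.mem_filter, Finset.mem_univ, true_and] at hb ⊢
      rw [h0, Equiv.apply_symm_apply]
      exact hb
  rw [Function.comp_apply, vv_apply, vv_apply, h2, h3, det_mul, det_mul, mul_right_comm, ← det_mul,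
    Units.mul_inv, det_one, one_mul]

theorem exists_M1 (G : Subgroup (GL ν k)) : ∃ K : Subgroup (GL ν k), (K : Set (GL ν k)) = M1 G :=
  ⟨{ carrier := M1 G
     one_mem' := ⟨G.one_mem, (Mgl G).one_mem, vv_one⟩
     mul_mem' := fun {a b} ha hb => ⟨G.mul_mem ha.1 hb.1, (Mgl G).mul_mem ha.2.1 hb.2.1, by
       rw [vv_mul ha.2.1 hb.2.1, ha.2.2, hb.2.2, add_zero]⟩
     inv_mem' := fun {a} ha => ⟨G.inv_mem ha.1, (Mgl G).inv_mem ha.2.1, by
       rw [vv_inv ha.2.1, ha.2.2, neg_zero]⟩ }, rfl⟩

theorem isClosed_M1 (hc : IsClosed (G : Set (GL ν k))) : IsClosed (M1 G) := by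
  have h1 : M1 G = (G : Set (GL ν k)) ∩ ((Mgl G : Set (GL ν k)) ∩
      ⋂ j, {m : GL ν k | ‖(blk (fun i => rt G i j = 0) m.1).det‖ = 1}) := by
    ext m
    simp only [M1, Set.mem_ofPred_eq, Set.mem_inter_iff, SetLike.mem_coe, Set.mem_iInter]
    refine and_congr_right fun _ => and_congr_right fun hm => ⟨fun h j => ?_, fun h => ?_⟩
    · refine Real.eq_one_of_pos_of_log_eq_zero (norm_pos_iff.2 (vv_det_ne (vvSat_cl j) hm)) ?_
      rw [vv_log, h]
      simp
    · funext j
      rw [vv_apply, h j]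
      simp
  rw [h1]
  refine hc.inter (IsClosed.inter isClosed_Grp (isClosed_iInter fun j => ?_))
  refine isClosed_eq (Continuous.norm (Continuous.matrix_det ?_)) continuous_const
  unfold blk
  exact ((continuous_const.mul Units.continuous_val).mul continuous_const).add continuous_const

end Pool.Agent.Lib.MP_60cbcc_al.H3A
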