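import Pool.Agent.Lib.MP_60cbcc_al.H3ATor

/-!
The normaliser of the torus.
-/

namespace Pool.Agent.Lib.MP_60cbcc_al.H3A

open Matrix Filter Topology

set_option linter.unusedSectionVars false

variable {k : Type} [NontriviallyNormedField k] [ProperSpace k] {ν : Type} [Fintype ν]
  [DecidableEq ν] {G : Subgroup (GL ν k)}

variable {n n' : GL ν k} {τ τ' : Equiv.Perm ν}

theorem weyl_sup_inv {α : Type} {y y' : ν → α} (h : Sup (fun i j => y' i = y j) n.1) :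
    Sup (fun i j => y i = y' j) (n⁻¹).1 := by
  classical
  intro i j hij
  have e1 : (diagonal fun a => if y' a = y' j then (1 : k) else 0) * n.1 =
      n.1 * diagonal fun a => if y a = y' j then (1 : k) else 0 := by
    ext a b
    rw [diagonal_mul, mul_diagonal]
    by_cases hab : n.1 a b = 0
    · rw [hab, mul_zero, zero_mul]
    · rw [h a b hab, mul_comm]
  have e2 : (n⁻¹).1 * (diagonal fun a => if y' a = y' j then (1 : k) else 0) =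
      (diagonal fun a => if y a = y' j then (1 : k) else 0) * (n⁻¹).1 := by
    calc (n⁻¹).1 * (diagonal fun a => if y' a = y' j then (1 : k) else 0)
        = (n⁻¹).1 * ((diagonal fun a => if y' a = y' j then (1 : k) else 0) * n.1) * (n⁻¹).1 := by
          rw [mul_assoc, mul_assoc, Units.mul_inv, mul_one]
      _ = (diagonal fun a => if y a = y' j then (1 : k) else 0) * (n⁻¹).1 := by
          rw [e1, ← mul_assoc, Units.inv_mul, one_mul]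
  have e3 := congrFun (congrFun e2 i) j
  rw [diagonal_mul, mul_diagonal, if_pos rfl, mul_one] at e3
  by_contra hc
  rw [if_neg hc, zero_mul] at e3
  exact hij e3

theorem weyl_onto {W : Submodule ℝ (ν → ℝ)} (h : ∀ y ∈ W, y ∘ τ ∈ W) {y : ν → ℝ} (hy : y ∈ W) :
    y ∘ (τ⁻¹ : Equiv.Perm ν) ∈ W := by
  have h1 : ∀ m : ℕ, y ∘ (τ ^ m : Equiv.Perm ν) ∈ W := fun m => by
    induction m with
    | zero => exact hy
    | succ m ih => rw [pow_succ]; exact h _ ih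
  obtain ⟨m, hm⟩ : τ⁻¹ ∈ Submonoid.powers τ :=
    mem_powers_iff_mem_zpowers.2 (inv_mem (Subgroup.mem_zpowers τ))
  rw [← hm]
  exact h1 m

theorem weyl_comp_inv (y : ν → ℝ) (τ : Equiv.Perm ν) :
    (y ∘ (τ⁻¹ : Equiv.Perm ν)) ∘ τ = y := by
  funext i
  simp

theorem weyl_row (n : GL ν k) (i : ν) : ∃ j, n.1 i j ≠ 0 := by
  by_contra hc
  push Not at hc
  have e := congrFun (congrFun n.mul_inv i) i
  rw [Matrix.mul_apply, Matrix.one_apply_eq] at e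
  simp [hc] at e

theorem weyl_triple {a x b : Matrix ν ν k} {i l : ν} (h : (a * x * b) i l ≠ 0) :
    ∃ p q, a i p ≠ 0 ∧ x p q ≠ 0 ∧ b q l ≠ 0 := by
  rw [Matrix.mul_apply] at h
  obtain ⟨q, -, hq⟩ := Finset.exists_ne_zero_of_sum_ne_zero h
  have h1 := left_ne_zero_of_mul hq
  rw [Matrix.mul_apply] at h1
  obtain ⟨p, -, hp⟩ := Finset.exists_ne_zero_of_sum_ne_zero h1
  exact ⟨p, q, left_ne_zero_of_mul hp, right_ne_zero_of_mul hp, right_ne_zero_of_mul hq⟩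

theorem weyl_conj_sub (n u : GL ν k) : (n * u * n⁻¹).1 - 1 = n.1 * (u.1 - 1) * (n⁻¹).1 := by
  rw [mul_sub, sub_mul, mul_one, Units.mul_inv, Units.val_mul, Units.val_mul]

theorem dot_comp (x y : ν → ℝ) (τ : Equiv.Perm ν) : (x ∘ τ) ⬝ᵥ (y ∘ τ) = x ⬝ᵥ y := 
  Equiv.sum_comp τ fun i => x i * y i

theorem weyl_dot {x y : ν → ℝ} (τ : Equiv.Perm ν) :
    (x ∘ τ) ⬝ᵥ y = x ⬝ᵥ (y ∘ (τ⁻¹ : Equiv.Perm ν)) := by
  rw [← dot_comp x (y ∘ (τ⁻¹ : Equiv.Perm ν)) τ, weyl_comp_inv]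

theorem IsW.weyl_inv_mem (h : IsW G n τ) {y : ν → ℝ} (hy : y ∈ aa G) :
    y ∘ (τ⁻¹ : Equiv.Perm ν) ∈ aa G :=
  weyl_onto (fun z hz => (h.2 z hz).1) hy

theorem IsW.weyl_rt_conj (h : IsW G n τ) {i a b l : ν} (h1 : n.1 i a ≠ 0)
    (h2 : (n⁻¹).1 b l ≠ 0) : rt G i l = rt G a b ∘ τ := by
  refine eq_of_dot (rt_mem G i l) (h.2 _ (rt_mem G a b)).1 fun y hy => ?_
  have hz := h.weyl_inv_mem hy
  have e1 := (h.2 _ hz).2 i a h1
  have e2 := weyl_sup_inv (y' := fun i => (y ∘ (τ⁻¹ : Equiv.Perm ν)) (τ i)) (h.2 _ hz).2 b l h2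
  rw [weyl_dot, rt_dot G i l hy, rt_dot G a b hz, ← e1, e2]
  simp

theorem IsW.mul (h : IsW G n τ) (h' : IsW G n' τ') : IsW G (n * n') (τ' * τ) := 
  ⟨G.mul_mem h.1 h'.1, fun y hy =>
    ⟨(h.2 _ (h'.2 y hy).1).1, by
      rw [Units.val_mul]
      exact Sup.mul (fun i j l a b => a.trans b) (h.2 _ (h'.2 y hy).1).2 (h'.2 y hy).2⟩⟩

theorem IsW.inv (h : IsW G n τ) : IsW G n⁻¹ τ⁻¹ := by
  refine ⟨G.inv_mem h.1, fun y hy => ⟨h.weyl_inv_mem hy, fun i j hij => ?_⟩⟩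
  have e := weyl_sup_inv (y' := fun i => (y ∘ (τ⁻¹ : Equiv.Perm ν)) (τ i))
    (h.2 _ (h.weyl_inv_mem hy)).2 i j hij
  simpa using e

theorem isW_of_Mgl {m : GL ν k} (hm : m ∈ G) (hm' : m ∈ Mgl G) : IsW G m 1 := 
  ⟨hm, fun y hy => ⟨hy, fun i j hij => (rt_eq_zero G i j).1 (mem_Mgl.1 hm' i j hij) y hy⟩⟩

theorem IsW.mem_Mgl (h : IsW G n τ) (ht : ∀ y ∈ aa G, y ∘ τ = y) : n ∈ Mgl G := 
  H3A.mem_Mgl.2 fun i j hij => (rt_eq_zero G i j).2 fun y hy =>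
    (congrFun (ht y hy) i).symm.trans ((h.2 y hy).2 i j hij)

theorem IsW.unique (h : IsW G n τ) (h' : IsW G n τ') {y : ν → ℝ} (hy : y ∈ aa G) :
    y ∘ τ = y ∘ τ' := by
  funext i
  obtain ⟨j, hj⟩ := weyl_row n i
  exact ((h.2 y hy).2 i j hj).trans ((h'.2 y hy).2 i j hj).symm

theorem IsW.rt (h : IsW G n τ) (i j : ν) : rt G (τ i) (τ j) ∘ τ = rt G i j := by
  refine eq_of_dot (h.2 _ (rt_mem G _ _)).1 (rt_mem G i j) fun y hy => ?_
  rw [weyl_dot, rt_dot G i j hy, rt_dot G _ _ (h.weyl_inv_mem hy)]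
  simp

theorem IsW.sup (h : IsW G n τ) {Ψ : Set (ν → ℝ)} {x : Matrix ν ν k}
    (hx : Sup (fun i j => H3A.rt G i j ∈ Ψ) x) :
    Sup (fun i j => H3A.rt G i j ∈ (fun γ => γ ∘ τ) '' Ψ) (n.1 * x * (n⁻¹).1) := by
  intro i l hil
  obtain ⟨a, b, h1, h2, h3⟩ := weyl_triple hil
  exact ⟨_, hx a b h2, (h.weyl_rt_conj h1 h3).symm⟩

theorem IsW.Rts (h : IsW G n τ) {γ : ν → ℝ} (hγ : γ ∈ Rts G) : γ ∘ τ ∈ Rts G := by
  obtain ⟨X, hX, h0, hs⟩ := exists_root_vec hγ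
  have h1 : n.1 * X * (n⁻¹).1 ≠ 0 := fun e => h0 (by
    have e2 : (n⁻¹).1 * (n.1 * X * (n⁻¹).1) * n.1 = X := by
      rw [← mul_assoc, ← mul_assoc, Units.inv_mul, one_mul, mul_assoc, Units.inv_mul, mul_one]
    rw [← e2, e, mul_zero, zero_mul])
  obtain ⟨i, l, hil⟩ : ∃ i l, (n.1 * X * (n⁻¹).1) i l ≠ 0 := by
    by_contra hc
    push Not at hc
    exact h1 (Matrix.ext hc)
  obtain ⟨a, b, h2, h3, h4⟩ := weyl_triple hil
  refine ⟨fun e => hγ.1 ?_, i, l, ?_, _, lie_conj h.1 hX, hil⟩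
  · funext i
    have := congrFun e (τ⁻¹ i)
    simpa using this
  · rw [h.weyl_rt_conj h2 h4, hs a b h3]

theorem IsW.Regl (h : IsW G n τ) {y : ν → ℝ} (hy : Regl G y) : Regl G (y ∘ τ) := 
  ⟨(h.2 y hy.1).1, fun i j hij => by
    rw [← h.rt i j, hy.2 (τ i) (τ j) hij]
    rfl⟩

theorem IsW.conj_dg (h : IsW G n τ) {w : ν → ℤ} (hw : w ∈ YY G) (t : kˣ) :
    n * dg w t * n⁻¹ = dg (w ∘ τ) t := by
  rw [mul_inv_eq_iff_eq_mul]
  apply Units.ext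
  rw [Units.val_mul, Units.val_mul, dg_val, dg_val]
  ext i j
  rw [diagonal_mul, mul_diagonal]
  by_cases hij : n.1 i j = 0
  · rw [hij, mul_zero, zero_mul]
  · have e : ((w (τ i) : ℤ) : ℝ) = (w j : ℤ) := (h.2 _ (cst_mem hw)).2 i j hij
    rw [Function.comp_apply, Int.cast_injective e, mul_comm]

theorem IsW.conj_Ugl (h : IsW G n τ) {y : ν → ℝ} (hy : y ∈ aa G) {u : GL ν k} (hu : u ∈ Ugl y) :
    n * u * n⁻¹ ∈ Ugl (y ∘ τ) := by
  rw [mem_Ugl, weyl_conj_sub]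
  intro i l hil
  obtain ⟨a, b, h1, h2, h3⟩ := weyl_triple hil
  have e1 := (h.2 y hy).2 i a h1
  have e2 := weyl_sup_inv (y' := fun i => y (τ i)) (h.2 y hy).2 b l h3
  have e3 := mem_Ugl.1 hu a b h2
  show y (τ l) < y (τ i)
  rw [e1, ← e2]
  exact e3

theorem IsW.conj_Rgl (h : IsW G n τ) {γ : ν → ℝ} {u : GL ν k} (hu : u ∈ Rgl G γ) :
    n * u * n⁻¹ ∈ Rgl G (γ ∘ τ) := by
  rw [mem_Rgl, weyl_conj_sub]
  intro i l hil
  obtain ⟨a, b, h1, h2, h3⟩ := weyl_triple hil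
  obtain ⟨c, hc, e⟩ := mem_Rgl.1 hu a b h2
  exact ⟨c, hc, by rw [h.weyl_rt_conj h1 h3, e]; rfl⟩

theorem IsW.conj_Mgl (h : IsW G n τ) {m : GL ν k} (hm : m ∈ Mgl G) : n * m * n⁻¹ ∈ Mgl G := by
  rw [H3A.mem_Mgl, Units.val_mul, Units.val_mul]
  intro i l hil
  obtain ⟨a, b, h1, h2, h3⟩ := weyl_triple hil
  rw [h.weyl_rt_conj h1 h3, H3A.mem_Mgl.1 hm a b h2]
  rfl

theorem IsW.of_tr (h : IsW (tr G) n τ) : IsW G (trU n) τ⁻¹ := by
  refine ⟨h.1, fun y hy => ?_⟩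
  have hz : y ∘ (τ⁻¹ : Equiv.Perm ν) ∈ aa (tr G) := h.weyl_inv_mem (aa_tr (G := G) ▸ hy)
  refine ⟨aa_tr (G := G) ▸ hz, fun i j hij => ?_⟩
  have e := (h.2 _ hz).2 j i hij
  simpa using e.symm

theorem IsW.refl (h : IsW G n τ) {γ : ν → ℝ} (hγ : γ ∈ aa G)
    (hf : ∀ y ∈ aa G, γ ⬝ᵥ y = 0 → y ∘ τ = y) (hn : n ∉ Mgl G) : Refl G γ τ := by
  have h0 : γ ⬝ᵥ γ ≠ 0 := fun e => hn (h.mem_Mgl fun y hy => hf y hy (by
    rw [dotProduct_self_eq_zero.1 e, zero_dotProduct]))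
  have hperp : ∀ y ∈ aa G, y - ((γ ⬝ᵥ y) / (γ ⬝ᵥ γ)) • γ ∈ aa G ∧
      γ ⬝ᵥ (y - ((γ ⬝ᵥ y) / (γ ⬝ᵥ γ)) • γ) = 0 := fun y hy =>
    ⟨(aa G).sub_mem hy ((aa G).smul_mem _ hγ), by
      rw [dotProduct_sub, dotProduct_smul, smul_eq_mul, div_mul_cancel₀ _ h0, sub_self]⟩
  obtain ⟨c, hc⟩ : ∃ c : ℝ, γ ∘ τ = c • γ := by
    refine ⟨(γ ⬝ᵥ (γ ∘ τ)) / (γ ⬝ᵥ γ), ?_⟩
    obtain ⟨h1, h2⟩ := hperp _ (h.2 γ hγ).1
    have h3 := hf _ h1 h2
    have h4 := dot_comp γ (γ ∘ τ - ((γ ⬝ᵥ (γ ∘ τ)) / (γ ⬝ᵥ γ)) • γ) τ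
    rw [h3, h2] at h4
    rw [← sub_eq_zero, ← dotProduct_self_eq_zero, sub_dotProduct, h4, smul_dotProduct, h2,
      smul_zero, sub_self]
  have hy' : ∀ y ∈ aa G, y ∘ τ = y + ((c - 1) * ((γ ⬝ᵥ y) / (γ ⬝ᵥ γ))) • γ := fun y hy => by
    obtain ⟨h1, h2⟩ := hperp y hy
    have h3 := hf _ h1 h2
    funext i
    have h4 := congrFun h3 i
    have h5 := congrFun hc i
    simp only [Function.comp_apply, Pi.sub_apply, Pi.smul_apply, smul_eq_mul, Pi.add_apply]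
      at h4 h5 ⊢
    rw [h5] at h4
    linarith
  have hcc : c * c = 1 := by
    have h4 := dot_comp γ γ τ
    rw [hc, smul_dotProduct, dotProduct_smul, smul_eq_mul, smul_eq_mul, ← mul_assoc] at h4
    exact mul_right_cancel₀ h0 (h4.trans (one_mul _).symm)
  have hc1 : c ≠ 1 := fun e => hn (h.mem_Mgl fun y hy => by
    rw [hy' y hy, e, sub_self, zero_mul, zero_smul, add_zero])
  have hc2 : c = -1 := by
    have : (c - 1) * (c + 1) = 0 := by linarith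
    rcases mul_eq_zero.1 this with e | e
    · exact (hc1 (by linarith)).elim
    · linarith
  intro y hy
  rw [hy' y hy, hc2, sub_eq_add_neg y, ← neg_smul]
  congr 2
  ring

theorem Refl.self {γ : ν → ℝ} (h : Refl G γ τ) (hγ : γ ∈ aa G) (h0 : γ ≠ 0) : γ ∘ τ = -γ := by
  have h1 : γ ⬝ᵥ γ ≠ 0 := fun e => h0 (dotProduct_self_eq_zero.1 e)
  rw [h γ hγ, mul_div_assoc, div_self h1, mul_one, two_smul]
  abel

theorem Refl.smul {γ : ν → ℝ} (h : Refl G γ τ) {c : ℝ} (hc : c ≠ 0) : Refl G (c • γ) τ := by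
  intro y hy
  rw [h y hy, smul_smul, smul_dotProduct, smul_dotProduct, dotProduct_smul]
  congr 2
  simp only [smul_eq_mul]
  by_cases h0 : γ ⬝ᵥ γ = 0
  · simp [h0]
  · field_simp

theorem Refl.inv {γ : ν → ℝ} (h : Refl G γ τ) (hγ : γ ∈ aa G) : Refl G γ τ⁻¹ := by
  intro y hy
  have h1 := h _ ((aa G).sub_mem hy ((aa G).smul_mem (2 * (γ ⬝ᵥ y) / (γ ⬝ᵥ γ)) hγ))
  have h2 : (y - (2 * (γ ⬝ᵥ y) / (γ ⬝ᵥ γ)) • γ) ∘ τ = y := by
    rw [h1, dotProduct_sub, dotProduct_smul, smul_eq_mul, sub_sub, ← add_smul]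
    have : 2 * (γ ⬝ᵥ y) / (γ ⬝ᵥ γ) +
        2 * (γ ⬝ᵥ y - 2 * (γ ⬝ᵥ y) / (γ ⬝ᵥ γ) * (γ ⬝ᵥ γ)) / (γ ⬝ᵥ γ) = 0 := by
      by_cases h0 : γ ⬝ᵥ γ = 0
      · simp [h0]
      · field_simp
        ring
    rw [this, zero_smul, sub_zero]
  funext i
  have h3 := congrFun h2 (τ⁻¹ i)
  simpa using h3.symm

theorem Refl.conj {γ : ν → ℝ} (h : Refl G γ τ) (h' : IsW G n' τ') :
    Refl G (γ ∘ τ') (τ'⁻¹ * τ * τ') := by
  intro y hy
  have h1 := h _ (h'.weyl_inv_mem hy)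
  rw [dot_comp, weyl_dot]
  funext i
  have h2 := congrFun h1 (τ' i)
  simpa using h2

/-- An element conjugating a cocharacter of the torus to a regular one normalises the torus. -/
theorem IsMax.isW (hG : IsMax G) (hn : n ∈ G) {w w₀ : ν → ℤ} (h₀ : Regl G (cst w₀))
    (h : ∀ t, n * dg w t * n⁻¹ = dg w₀ t) : ∃ τ, IsW G n τ := by
  have hw : ∀ i j, n.1 i j ≠ 0 → w₀ i = w j := fun i j hij => by
    have e := h (pw k)
    rw [mul_inv_eq_iff_eq_mul] at e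
    have e1 : (n * dg w (pw k)).1 i j = (dg w₀ (pw k) * n).1 i j := by rw [e]
    rw [Units.val_mul, Units.val_mul, dg_val, dg_val, diagonal_mul, mul_diagonal, mul_comm] at e1
    have e2 := congrArg norm (mul_right_cancel₀ hij e1)
    rw [norm_zpow, norm_zpow] at e2
    exact (zpow_right_injective₀ pw_pos pw_lt.ne e2).symm
  have hd : n.1ᵀ.det ≠ 0 := by
    rw [det_transpose]
    exact (Matrix.isUnits_det_units n).ne_zero
  rw [det_apply] at hd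
  obtain ⟨σ, -, hσ⟩ := Finset.exists_ne_zero_of_sum_ne_zero hd
  have hσ' : ∀ i, n.1 i (σ i) ≠ 0 := fun i hi => hσ (by
    rw [Finset.prod_eq_zero (Finset.mem_univ i) (by exact hi), smul_zero])
  have hr : ∀ i j, n.1 i (σ j) ≠ 0 → rt G i j = 0 := fun i j hij =>
    h₀.2 i j (by
      show ((w₀ i : ℤ) : ℝ) = (w₀ j : ℤ)
      rw [hw i _ hij, hw j _ (hσ' j)])
  let m : GL ν k := ⟨n.1.submatrix (Equiv.refl ν) σ, (n⁻¹).1.submatrix σ (Equiv.refl ν),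
    by rw [submatrix_mul_equiv, Units.mul_inv, submatrix_one_equiv],
    by rw [submatrix_mul_equiv, Units.inv_mul, submatrix_one_equiv]⟩
  have hm : m ∈ Mgl G := mem_Mgl.2 fun i j hij => hr i j hij
  have hY : ∀ y ∈ YY G, y ∘ σ ∈ YY G := fun y hy => hG m hm _ fun t => by
    have e : m * dg (y ∘ σ) t * m⁻¹ = n * dg y t * n⁻¹ := by
      apply Units.ext
      have e1 : (dg (y ∘ σ) t).1 = (dg y t).1.submatrix σ σ := by
        rw [dg_val, dg_val, submatrix_diagonal_equiv]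
        rfl
      show n.1.submatrix (Equiv.refl ν) σ * (dg (y ∘ σ) t).1 *
        (n⁻¹).1.submatrix σ (Equiv.refl ν) = _
      rw [e1, submatrix_mul_equiv, submatrix_mul_equiv]
      rfl
    rw [e]
    exact G.mul_mem (G.mul_mem hn (hy t)) (G.inv_mem hn)
  have hA : ∀ y ∈ aa G, y ∘ σ ∈ aa G := fun y hy => by
    induction hy using Submodule.span_induction with
    | mem x hx =>
      obtain ⟨z, hz, rfl⟩ := hx
      exact cst_mem (hY z hz)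
    | zero => exact (aa G).zero_mem
    | add x x' _ _ h1 h2 => exact (aa G).add_mem h1 h2
    | smul c x _ h1 => exact (aa G).smul_mem c h1
  refine ⟨σ, hn, fun y hy => ⟨hA y hy, fun i j hij => ?_⟩⟩
  have e := (rt_eq_zero G i (σ⁻¹ j)).1 (hr i _ (by simpa using hij)) _ (hA y hy)
  simpa using e

end Pool.Agent.Lib.MP_60cbcc_al.H3A
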