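import Mathlib

/-!
Groups generated by unipotent elements: the definitions used in the statement.
-/

namespace Pool.Agent.Lib.MP_60cbcc_al.H3Z

/-- Topological groups isomorphic to the group generated by the exponentials of the nilpotent
matrices in a simple Lie algebra of matrices over `k` that has a non-zero nilpotent element. -/
def LieOver (k : Type) [NontriviallyNormedField k] [CharZero k] (L : Type) [Group L]
    [TopologicalSpace L] : Prop :=
  ∃ (n : ℕ) (g : Submodule k (Matrix (Fin n) (Fin n) k)),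
    (∀ X ∈ g, ∀ Y ∈ g, X * Y - Y * X ∈ g) ∧ (∃ X ∈ g, ∃ Y ∈ g, X * Y ≠ Y * X) ∧
    (∀ I ≤ g, (∀ X ∈ g, ∀ Y ∈ I, X * Y - Y * X ∈ I) → I = ⊥ ∨ I = g) ∧
    (∃ X ∈ g, X ≠ 0 ∧ IsNilpotent X) ∧
    Nonempty (L ≃ₜ* Subgroup.closure {u : GL (Fin n) k |
      ∃ X ∈ g, IsNilpotent X ∧ (u : Matrix (Fin n) (Fin n) k) = IsNilpotent.exp X})

/-- The same over some local field of characteristic zero. -/
def LieType (L : Type) [Group L] [TopologicalSpace L] : Prop :=
  LieOver ℝ L ∨ LieOver ℂ L ∨ ∃ (k : Type) (_ : NontriviallyNormedField k)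
    (_ : IsUltrametricDist k) (_ : ProperSpace k) (_ : CharZero k), LieOver k L

end Pool.Agent.Lib.MP_60cbcc_al.H3Z
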