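import Pool.Agent.Lib.MP_60cbcc_al.H3ZLieF
import Pool.Agent.Lib.MP_60cbcc_al.H3ZLieDefs

/-!
Groups generated by unipotent matrices are rigid.
-/

namespace Pool.Agent.Lib.MP_60cbcc_al.H3Z

open Filter Topology

set_option linter.unusedSectionVars false

variable {k R : Type} [NontriviallyNormedField k] [CompleteSpace k] [CharZero k] [NormedRing R]
  [NormedAlgebra k R] [FiniteDimensional k R] {g : Submodule k R}

/-- The bracket. -/
noncomputable def lbr (h : ∀ X ∈ g, ∀ Y ∈ g, X * Y - Y * X ∈ g) : g →L[k] g →L[k] g :=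
  LinearMap.toContinuousBilinearMap (LinearMap.mk₂ k (fun x y => (⟨_, h x x.2 y y.2⟩ : g))
    (fun _ _ _ => Subtype.ext (by simp [add_mul, mul_add]; abel))
    (fun _ _ _ => Subtype.ext (by simp [smul_sub]))
    (fun _ _ _ => Subtype.ext (by simp [add_mul, mul_add]; abel))
    (fun _ _ _ => Subtype.ext (by simp [smul_sub])))

variable {h : ∀ X ∈ g, ∀ Y ∈ g, X * Y - Y * X ∈ g}

theorem coe_lbr (x y : g) : (lbr h x y : R) = x * y - y * x := rfl

attribute [local instance 100] LieRing.ofAssociativeRing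

theorem lbr_slie (h1 : ∃ X ∈ g, ∃ Y ∈ g, X * Y ≠ Y * X)
    (h2 : ∀ I ≤ g, (∀ X ∈ g, ∀ Y ∈ I, X * Y - Y * X ∈ I) → I = ⊥ ∨ I = g) : SLie (lbr h) := by
  have hs : ∀ I : Submodule k g, (∀ x, ∀ y ∈ I, lbr h x y ∈ I) → I = ⊥ ∨ I = ⊤ := fun I hI => by
    refine (h2 (I.map g.subtype) (Submodule.map_subtype_le _ _) ?_).imp (fun c => ?_) fun c => ?_
    · rintro X hX _ ⟨y, hy, rfl⟩
      exact ⟨_, hI ⟨X, hX⟩ y hy, rfl⟩
    · exact Submodule.map_injective_of_injective g.injective_subtype (by simpa using c)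
    · exact Submodule.map_injective_of_injective g.injective_subtype (by simpa using c)
  let G : LieSubalgebra k R := { g with lie_mem' := fun {x y} hx hy => h x hx y hy }
  have : LieAlgebra.IsSimple k G := ⟨fun I => (hs I.toSubmodule fun x y hy => I.lie_mem hy).imp
    (fun c => LieSubmodule.toSubmodule_injective c) fun c => LieSubmodule.toSubmodule_injective c,
    fun c => by
      obtain ⟨X, hX, Y, hY, e⟩ := h1
      exact e (sub_eq_zero.1 (congrArg Subtype.val (c.trivial (⟨X, hX⟩ : G) ⟨Y, hY⟩)))⟩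
  have : Module.Finite k G := inferInstanceAs (Module.Finite k g)
  refine ⟨fun x y => Subtype.ext (by simp [coe_lbr]), fun x y => ?_, hs, fun x hx => ?_,
    fun D hD => ?_⟩
  · ext z
    simp only [coe_lbr, sub_apply, mul_apply_eq_comp, Submodule.coe_sub]
    noncomm_ring
  · exact (LieAlgebra.IsKilling.killingForm_nondegenerate k G).1 x hx
  · obtain ⟨z, hz⟩ := LieDerivation.IsKilling.exists_eq_ad (R := k) (L := G)
      ⟨D.toLinearMap, fun a b => (hD a b).trans (by
        refine Subtype.ext ?_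
        change (D a * b - b * D a : R) + (a * D b - D b * a) = a * D b - D b * a - (b * D a - D a * b)
        abel)⟩
    refine ⟨z, ContinuousLinearMap.ext fun y => ?_⟩
    have := DFunLike.congr_fun hz y
    refine Subtype.ext ((congrArg Subtype.val this).symm.trans ?_)
    change -((y : R) * z - z * y) = z * y - y * z
    exact neg_sub _ _

theorem pow_finrank {V : Type} [AddCommGroup V] [Module k V] [FiniteDimensional k V]
    {f : Module.End k V} (hf : IsNilpotent f) : f ^ Module.finrank k V = 0 := by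
  simpa [hf.charpoly_eq_X_pow_finrank] using f.aeval_self_charpoly

theorem coe_lbr_pow (x y : g) (j : ℕ) : ((lbr h x ^ j) y : R) =
    ((LinearMap.mulLeft k (x : R) + LinearMap.mulRight k (-x : R)) ^ j) y := by
  induction j with
  | zero => rfl
  | succ j ih =>
    rw [pow_succ', mul_apply_eq_comp, coe_lbr, ih, pow_succ', Module.End.mul_apply]
    simp [sub_eq_add_neg]

theorem nil_lr {x : R} (hx : IsNilpotent x) :
    IsNilpotent (LinearMap.mulLeft k x) ∧ IsNilpotent (LinearMap.mulRight k (-x)) :=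
  ⟨(LinearMap.isNilpotent_mulLeft_iff _ _).2 hx, (LinearMap.isNilpotent_mulRight_iff _ _).2 hx.neg⟩

theorem ad_pow {x : R} (hx : IsNilpotent x) :
    (LinearMap.mulLeft k x + LinearMap.mulRight k (-x)) ^ (Module.finrank k R + 3) = 0 :=
  pow_eq_zero_of_le (Nat.le_add_right _ _) (pow_finrank
    ((LinearMap.commute_mulLeft_right x (-x)).isNilpotent_add (nil_lr hx).1 (nil_lr hx).2))

theorem nil_lbr (L : SLie (lbr h)) (x : g) : IsNilpotent (lbr h x) ↔ IsNilpotent (x : R) := by
  refine ⟨fun hx => ?_, fun hx => ⟨Module.finrank k R + 3, ContinuousLinearMap.ext fun y =>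
    Subtype.ext (by rw [coe_lbr_pow, ad_pow hx]; rfl)⟩⟩
  obtain ⟨z, -, e, -⟩ := L.jm hx
  have e1 : (z * x - x * z : R) = (2 : k) • x := congrArg Subtype.val e
  obtain ⟨j, hj⟩ := nil_of_comm (H := ContinuousLinearMap.mul k R z)
    (F := ContinuousLinearMap.mul k R x) two_ne_zero (by
      ext y
      simp [← mul_assoc, ← sub_mul, e1])
  have : ∀ j, (ContinuousLinearMap.mul k R x ^ j) 1 = (x : R) ^ j := fun j => by
    induction j with
    | zero => simp
    | succ j ih => simp [pow_succ', ih]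
  exact ⟨j, by rw [← this, hj]; rfl⟩

variable [Module ℚ R]

theorem exp_sum {x : R} (hx : IsNilpotent x) : IsNilpotent.exp x =
    ∑ j ∈ Finset.range (Module.finrank k R + 3), (j.factorial : k)⁻¹ • x ^ j := by
  have : x ^ (Module.finrank k R + 3) = 0 := pow_eq_zero_of_le (Nat.le_add_right _ _) (by
    simpa using LinearMap.congr_fun (pow_finrank (nil_lr (k := k) hx).1) 1)
  rw [IsNilpotent.exp_eq_sum this]
  simp [← Rat.cast_smul_eq_qsmul k]

theorem exp_conj (x y : g) (hx : IsNilpotent (x : R)) :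
    IsNilpotent.exp (x : R) * y * IsNilpotent.exp (-x : R) =
      xp (Module.finrank k R + 3) (lbr h x) y := by
  obtain ⟨j, hj⟩ := hx.neg
  have e1 : LinearMap.mulRight k (IsNilpotent.exp (-x : R)) =
      IsNilpotent.exp (LinearMap.mulRight k (-x : R)) := by
    rw [IsNilpotent.exp_eq_sum hj, IsNilpotent.exp_eq_sum (k := j) (by
      rw [LinearMap.pow_mulRight, hj, LinearMap.mulRight_zero_eq_zero])]
    ext
    simp [Finset.mul_sum, ← Rat.cast_smul_eq_qsmul k]
  have e2 : LinearMap.mulLeft k (IsNilpotent.exp (x : R)) =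
      IsNilpotent.exp (LinearMap.mulLeft k (x : R)) := hx.map_exp (Algebra.lmul k R)
  have := LinearMap.congr_fun (IsNilpotent.exp_add_of_commute
    (LinearMap.commute_mulLeft_right (R := k) (x : R) (-x)) (nil_lr hx).1 (nil_lr hx).2) y
  rw [← e1, ← e2, IsNilpotent.exp_eq_sum (ad_pow hx)] at this
  rw [mul_assoc]
  refine Eq.trans this.symm ?_
  simp only [xp, sum_apply, smul_apply, Submodule.coe_sum,
    Submodule.coe_smul, coe_lbr_pow, LinearMap.sum_apply, LinearMap.smul_apply]
  simp [← Rat.cast_smul_eq_qsmul k]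

/-- The group generated by the exponentials. -/
def lgp (g : Submodule k R) : Subgroup Rˣ :=
  Subgroup.closure {u : Rˣ | ∃ X ∈ g, IsNilpotent X ∧ (u : R) = IsNilpotent.exp X}

/-- The exponential of a nilpotent element. -/
noncomputable def lun {x : R} (hx : IsNilpotent x) : Rˣ :=
  ⟨_, _, hx.exp_mul_exp_neg_self, hx.exp_neg_mul_exp_self⟩

include h in
theorem lgp_norm {u : Rˣ} (hu : u ∈ lgp g) : ∀ y ∈ g, u * y * (u⁻¹ : Rˣ) ∈ g := by
  induction hu using Subgroup.closure_induction'' with
  | mem u hu =>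
    obtain ⟨X, hX, n, e⟩ := hu
    obtain rfl : u = lun n := Units.ext e
    exact fun y hy => (exp_conj (h := h) ⟨X, hX⟩ ⟨y, hy⟩ n).symm ▸ Subtype.prop _
  | inv_mem u hu =>
    obtain ⟨X, hX, n, e⟩ := hu
    obtain rfl : u = lun n := Units.ext e
    intro y hy
    have := exp_conj (h := h) (-⟨X, hX⟩) ⟨y, hy⟩ n.neg
    rw [Submodule.coe_neg, neg_neg] at this
    exact this.symm ▸ Subtype.prop _
  | one => simp
  | mul u v _ _ h1 h2 => exact fun y hy => by simpa [mul_assoc] using h1 _ (h2 y hy)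

/-- The adjoint action. -/
noncomputable def lad (h : ∀ X ∈ g, ∀ Y ∈ g, X * Y - Y * X ∈ g) : lgp g →* (g →L[k] g) where
  toFun u := LinearMap.toContinuousLinearMap
    ((LinearMap.mulRight k ((u.1⁻¹ : Rˣ) : R) ∘ₗ LinearMap.mulLeft k (u.1 : R)).restrict
      (lgp_norm (h := h) u.2))
  map_one' := by ext; simp
  map_mul' u v := by ext; simp [mul_assoc]

theorem coe_lad (u : lgp g) (y : g) : (lad h u y : R) = u.1 * y * (u.1⁻¹ : Rˣ) := rfl

open scoped Classical in
/-- The exponential. -/
noncomputable def lex (X : g) : lgp g :=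
  if hX : IsNilpotent (X : R) then ⟨lun hX, Subgroup.subset_closure ⟨X, X.2, hX, rfl⟩⟩ else 1

theorem lex_eq {X : g} (n : IsNilpotent (X : R)) : (lex X).1 = lun n := by
  rw [lex, dif_pos n]

theorem coe_lex {X : g} (n : IsNilpotent (X : R)) : ((lex X).1 : R) = IsNilpotent.exp (X : R) := by
  rw [lex_eq n]; rfl

theorem coe_lex_inv {X : g} (n : IsNilpotent (X : R)) :
    (((lex X).1⁻¹ : Rˣ) : R) = IsNilpotent.exp (-X : R) := by
  rw [lex_eq n]; rfl

/-- The data of the group generated by the exponentials. -/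
noncomputable def ldat (L : SLie (lbr h)) (h3 : ∃ X ∈ g, X ≠ 0 ∧ IsNilpotent X) :
    Dat (lbr h) (lgp g) where
  Ad := lad h
  ex := lex
  m := Module.finrank k R + 3
  hm := Nat.le_add_left _ _
  aut u x y := Subtype.ext (by simp [coe_lbr, coe_lad, mul_assoc, mul_sub, sub_mul])
  ex_add X hX s t := by
    have n := fun t => (nil_lbr L _).1 (nil_smul hX t)
    refine Subtype.ext (Units.ext ?_)
    rw [Subgroup.coe_mul, Units.val_mul, coe_lex (n _), coe_lex (n _), coe_lex (n _),
      ← IsNilpotent.exp_add_of_commute _ (n s) (n t), add_smul, Submodule.coe_add]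
    exact ((Commute.refl (X : R)).smul_left s).smul_right t
  ex_conj X hX u := by
    have n := (nil_lbr L _).1 hX
    have n' : IsNilpotent (lad h u X : R) := by
      obtain ⟨j, hj⟩ := n
      exact ⟨j, by rw [coe_lad, Units.conj_pow, hj, mul_zero, zero_mul]⟩
    refine Subtype.ext (Units.ext ?_)
    rw [coe_lex n', Subgroup.coe_mul, Subgroup.coe_mul, Units.val_mul, Units.val_mul, coe_lex n,
      exp_sum (k := k) n, exp_sum (k := k) n', Subgroup.coe_inv]
    simp only [coe_lad, Finset.mul_sum, Finset.sum_mul, Units.conj_pow, mul_smul_comm,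
      smul_mul_assoc]
  Ad_ex X hX := ContinuousLinearMap.ext fun y => Subtype.ext (by
    have n := (nil_lbr L _).1 hX
    rw [coe_lad, coe_lex n, coe_lex_inv n]
    exact exp_conj X y n)
  gen := by
    refine eq_top_iff.2 ((Subgroup.closure_closure_coe_preimage (k := _)).ge.trans
      (Subgroup.closure_mono ?_))
    rintro u ⟨X, hX, n, e⟩
    exact ⟨⟨X, hX⟩, (nil_lbr L _).2 n, Subtype.ext (Units.ext ((coe_lex n).trans e.symm))⟩
  ker u hu := Subgroup.mem_center_iff.2 fun v => Subtype.ext (by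
    refine (Subgroup.closure_le (Subgroup.centralizer {u.1})).2 ?_ v.2 u.1 rfl |>.symm
    rintro w ⟨X, hX, n, e⟩ _ rfl
    have h1 : (u.1 * X * (u.1⁻¹ : Rˣ) : R) = X :=
      congrArg Subtype.val (DFunLike.congr_fun hu (⟨X, hX⟩ : g))
    have h2 : Commute (u.1 : R) X := (Units.mul_inv_eq_iff_eq_mul _).1 h1
    refine Units.ext ?_
    rw [Units.val_mul, Units.val_mul, e, exp_sum (k := k) n]
    exact Commute.sum_right _ _ _ fun j _ => (h2.pow_right j).smul_right _)
  cont := by
    refine continuousOn_iff_continuous_domRestrict.2 (continuous_induced_rng.2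
      (Units.continuous_iff.2 ⟨?_, ?_⟩))
    · refine Continuous.congr (f := fun X => ∑ j ∈ Finset.range (Module.finrank k R + 3),
        (j.factorial : k)⁻¹ • (X.1.1 : R) ^ j) (by fun_prop) fun X => ?_
      have n := (nil_lbr L _).1 X.2
      exact ((coe_lex n).trans (exp_sum (k := k) n)).symm
    · refine Continuous.congr (f := fun X => ∑ j ∈ Finset.range (Module.finrank k R + 3),
        (j.factorial : k)⁻¹ • (-X.1.1 : R) ^ j) (by fun_prop) fun X => ?_
      have n := (nil_lbr L _).1 X.2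
      exact ((coe_lex_inv n).trans (exp_sum (k := k) n.neg)).symm
  ne := by
    obtain ⟨X, hX, X0, n⟩ := h3
    exact ⟨⟨X, hX⟩, fun c => X0 (congrArg Subtype.val c), (nil_lbr L _).2 n⟩

omit [Module ℚ R] in
theorem LieOver.rigid [ProperSpace k] (x : Ext k) {L : Type} [Group L] [TopologicalSpace L]
    (hL : LieOver k L) : Rigid L := by
  obtain ⟨n, g, h, h1, h2, h3, ⟨e⟩⟩ := hL
  have := Fact.mk x
  let _ : NormedRing (Matrix (Fin n) (Fin n) k) := Matrix.linftyOpNormedRing
  let _ : NormedAlgebra k (Matrix (Fin n) (Fin n) k) := Matrix.linftyOpNormedAlgebra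
  exact Rigid.congr e ((ldat (lbr_slie (h := h) h1 h2) h3).rigid (lbr_slie h1 h2))

theorem LieType.rigid {L : Type} [Group L] [TopologicalSpace L] (hL : LieType L) : Rigid L := by
  rcases hL with h | h | ⟨k, _, _, _, _, h⟩
  · exact h.rigid ⟨ℂ, inferInstance, inferInstance, inferInstance, inferInstance⟩
  · exact h.rigid ⟨ℂ, inferInstance, inferInstance, inferInstance, inferInstance⟩
  · exact h.rigid ext_ultra

end Pool.Agent.Lib.MP_60cbcc_al.H3Z
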