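import Pool.Agent.Lib.MP_60cbcc_al.H3ZAlgDefs
import Pool.Agent.Lib.MP_60cbcc_al.H3ZLieG

/-!
Zariski closed matrix groups and their tangent spaces.
-/

namespace Pool.Agent.Lib.MP_60cbcc_al.H3Z

open MvPolynomial

set_option linter.unusedSectionVars false

variable {k : Type} [NontriviallyNormedField k] {n : ℕ}

/-- Evaluation at a matrix. -/
noncomputable def zv (x : Matrix (Fin n) (Fin n) k) : MvPolynomial (Fin n × Fin n) k →ₐ[k] k :=
  aeval fun p => x p.1 p.2

/-- The derivative at `x` in the direction `Y`. -/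
noncomputable def zd (x Y : Matrix (Fin n) (Fin n) k) (P : MvPolynomial (Fin n × Fin n) k) : k :=
  ∑ p, Y p.1 p.2 * zv x (pderiv p P)

theorem zv_X (x : Matrix (Fin n) (Fin n) k) (p) : zv x (X p) = x p.1 p.2 := aeval_X _ _

theorem zv_C (x : Matrix (Fin n) (Fin n) k) (c) : zv x (C c) = c := aeval_C _ _

theorem mem_idealOf {Q : Subgroup (GL (Fin n) k)} {P} :
    P ∈ idealOf Q ↔ ∀ u ∈ Q, zv (u : Matrix (Fin n) (Fin n) k) P = 0 :=
  ⟨fun h u hu => h _ ⟨u, hu, rfl⟩, by rintro h _ ⟨u, hu, rfl⟩; exact h u hu⟩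

theorem zv_deriv {c : k → Matrix (Fin n) (Fin n) k} {Y : Matrix (Fin n) (Fin n) k} {t : k}
    (h : ∀ i j, HasDerivAt (fun s => c s i j) (Y i j) t) (P) :
    HasDerivAt (fun s => zv (c s) P) (zd (c t) Y P) t := by
  induction P using MvPolynomial.induction_on with
  | C a => simpa [zd, zv_C] using hasDerivAt_const t a
  | add P R h1 h2 => simpa [zd, mul_add, Finset.sum_add_distrib] using h1.fun_add h2
  | mul_X P p h1 =>
    simp only [map_mul, zv_X]
    refine (h1.fun_mul (h p.1 p.2)).congr_deriv ?_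
    simp only [zd, pderiv_mul, map_add, map_mul, zv_X, mul_add, Finset.sum_add_distrib,
      Finset.sum_mul, mul_assoc]
    congr 1
    rw [Finset.sum_eq_single p (fun q _ hq => by simp [pderiv_X_of_ne hq.symm]) (by simp)]
    simp [mul_comm]

theorem zv_line (x Y : Matrix (Fin n) (Fin n) k) (P) :
    HasDerivAt (fun s : k => zv (x + s • Y) P) (zd x Y P) 0 := by
  simpa using zv_deriv (c := fun s : k => x + s • Y) (Y := Y) (t := 0) (fun i j => by
    simpa using ((hasDerivAt_id (0 : k)).mul_const (Y i j)).const_add (x i j)) P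

theorem zv_mul (a b : Matrix (Fin n) (Fin n) k) (i j) :
    ∃ P, ∀ x : Matrix (Fin n) (Fin n) k, zv x P = (a * x * b) i j :=
  ⟨∑ l, (∑ m, C (a i m) * X (m, l)) * C (b l j), fun x => by
    simp [Matrix.mul_apply, zv_X]⟩

theorem zv_sub (a b : Matrix (Fin n) (Fin n) k) (P) : ∃ R, ∀ x, zv x R = zv (a * x * b) P := by
  choose f hf using zv_mul a b
  refine ⟨aeval (fun p => f p.1 p.2) P, fun x => ?_⟩
  rw [← AlgHom.comp_apply, comp_aeval]
  simp only [hf]
  rfl

theorem zv_comm (a b : Matrix (Fin n) (Fin n) k) (i j) :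
    ∃ P, ∀ x : Matrix (Fin n) (Fin n) k, zv x P = (x * a - b * x) i j := by
  obtain ⟨P, hP⟩ := zv_mul 1 a i j
  obtain ⟨R, hR⟩ := zv_mul b 1 i j
  exact ⟨P - R, fun x => by simp [hP, hR]⟩

theorem hadamard (P : MvPolynomial (Fin n × Fin n) k) : ∃ A : Fin n × Fin n → _,
    (∀ x, zv x P = zv 1 P + ∑ q, zv x (A q) * (x - 1) q.1 q.2) ∧
      ∀ q, zv 1 (A q) = zv 1 (pderiv q P) := by
  classical
  induction P using MvPolynomial.induction_on with
  | C a => exact ⟨0, by simp, by simp⟩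
  | add P R h1 h2 =>
    obtain ⟨⟨A, a1, a2⟩, B, b1, b2⟩ := And.intro h1 h2
    refine ⟨A + B, fun x => ?_, by simp [a2, b2]⟩
    simp only [map_add, Pi.add_apply, add_mul, Finset.sum_add_distrib]
    linear_combination a1 x + b1 x
  | mul_X P p h1 =>
    obtain ⟨A, a1, a2⟩ := h1
    refine ⟨fun q => A q * X p + C (zv 1 P) * pderiv q (X p), fun x => ?_, fun q => by
      simp only [pderiv_mul, map_add, map_mul, a2, zv_C]⟩
    simp only [map_add, map_mul, add_mul, Finset.sum_add_distrib, zv_C, zv_X]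
    rw [Finset.sum_eq_single p (f := fun q => zv 1 P * _ * _)
      (fun q _ hq => by simp [pderiv_X_of_ne hq.symm]) (by simp), a1 x]
    simp only [mul_right_comm _ (x p.1 p.2), ← Finset.sum_mul, pderiv_X_self, map_one,
      Matrix.sub_apply]
    ring

theorem finite_of_tan {Z : Subgroup (GL (Fin n) k)}
    (h : ∀ Y, (∀ P ∈ idealOf Z, zd 1 Y P = 0) → Y = 0) : (Z : Set (GL (Fin n) k)).Finite := by
  classical
  have h1 : ((idealOf Z).restrictScalars k).map (LinearMap.pi fun q =>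
      (zv 1).toLinearMap ∘ₗ (pderiv q).toLinearMap) = ⊤ := by
    by_contra c
    obtain ⟨f, f0, hf⟩ := Submodule.exists_le_ker_of_lt_top _ (lt_top_iff_ne_top.2 c)
    have := h (fun i j => f fun q => if (i, j) = q then 1 else 0) fun P hP => by
      have := hf ⟨P, hP, rfl⟩
      rw [LinearMap.mem_ker, f.pi_apply_eq_sum_univ] at this
      simpa [zd, mul_comm] using this
    refine f0 (LinearMap.ext fun v => ?_)
    rw [f.pi_apply_eq_sum_univ]
    exact Finset.sum_eq_zero fun q _ => by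
      rw [show f _ = 0 from congrFun₂ this q.1 q.2, smul_zero]
  choose P P1 P2 using fun q => h1.ge
    (Submodule.mem_top (x := (1 : Matrix (Fin n × Fin n) (Fin n × Fin n) k) q))
  choose A A1 A2 using fun q => hadamard (P q)
  have f1 : zv 1 (Matrix.of A).det = 1 := by
    rw [AlgHom.map_det, show (zv 1).mapMatrix (Matrix.of A) = 1 from
      Matrix.ext fun q r => (A2 q r).trans (congrFun (P2 q) r), Matrix.det_one]
  have f2 : ∀ z ∈ Z, z ≠ 1 → zv (z : Matrix (Fin n) (Fin n) k) (Matrix.of A).det = 0 := by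
    intro z hz z1
    rw [AlgHom.map_det]
    refine Matrix.exists_mulVec_eq_zero_iff.1 ⟨fun q => (z.1 - 1) q.1 q.2, fun c => z1 (Units.ext
      (sub_eq_zero.1 (Matrix.ext fun i j => congrFun c (i, j)))), funext fun q => ?_⟩
    have := A1 q z
    rw [mem_idealOf.1 (P1 q) z hz, show zv 1 (P q) = 0 from mem_idealOf.1 (P1 q) 1 Z.one_mem,
      zero_add] at this
    exact this.symm
  by_contra c
  let z := Set.Infinite.natEmbedding _ c
  obtain ⟨m, hm⟩ := monotone_stabilizes_iff_noetherian.2 inferInstance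
    ⟨fun m => vanishingIdeal k {x | ∃ l ≥ m, x = fun p : Fin n × Fin n => (z l).1 p.1 p.2},
      fun _ _ h => vanishingIdeal_anti_mono fun _ ⟨l, a, b⟩ => ⟨l, h.trans a, b⟩⟩
  obtain ⟨R, hR⟩ := zv_sub ((z m).1⁻¹ : GL (Fin n) k) 1 (Matrix.of A).det
  have := (hm (m + 1) m.le_succ).ge (show R ∈ vanishingIdeal k _ by
    rintro _ ⟨l, hl, rfl⟩
    refine (hR _).trans ?_
    rw [mul_one, ← Units.val_mul]
    exact f2 _ (mul_mem (inv_mem (z m).2) (z l).2) fun e =>
      hl.not_gt (z.injective (Subtype.ext (inv_mul_eq_one.1 e)) ▸ m.lt_succ_self)) _ ⟨m, le_rfl, rfl⟩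
  exact one_ne_zero (f1.symm.trans (by simpa using (hR _).symm.trans this))

variable {Q : Subgroup (GL (Fin n) k)} {g : Submodule k (Matrix (Fin n) (Fin n) k)}
  (hg : ∀ X, X ∈ g ↔ ∀ P ∈ idealOf Q, zd 1 X P = 0)
include hg

theorem zd_at {a b : GL (Fin n) k} (ha : a ∈ Q) (hb : b ∈ Q) {X : Matrix (Fin n) (Fin n) k}
    (hX : X ∈ g) {P} (hP : P ∈ idealOf Q) : zd (a.1 * b.1) (a.1 * X * b.1) P = 0 := by
  obtain ⟨R, hR⟩ := zv_sub a.1 b.1 P
  have h1 := zv_line 1 X R
  have h2 : R ∈ idealOf Q := mem_idealOf.2 fun u hu => by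
    rw [hR, ← Units.val_mul, ← Units.val_mul]
    exact mem_idealOf.1 hP _ (mul_mem (mul_mem ha hu) hb)
  rw [(hg X).1 hX R h2] at h1
  refine (zv_line _ _ P).unique ?_
  simpa only [hR, mul_add, add_mul, mul_one, mul_smul_comm, smul_mul_assoc] using h1

theorem alg_norm {u : GL (Fin n) k} (hu : u ∈ Q) : ∀ X ∈ g, u.1 * X * u⁻¹.1 ∈ g :=
  fun _ hX => (hg _).2 fun _ hP => by simpa using zd_at hg hu (inv_mem hu) hX hP

theorem alg_fin (h1 : ∃ X ∈ g, ∃ Y ∈ g, X * Y ≠ Y * X)
    (h2 : ∀ I ≤ g, (∀ X ∈ g, ∀ Y ∈ I, X * Y - Y * X ∈ I) → I = ⊥ ∨ I = g) :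
    {u ∈ Q | ∀ X ∈ g, u.1 * X = X * u.1}.Finite := by
  let Z : Subgroup (GL (Fin n) k) :=
    { carrier := {u ∈ Q | ∀ X ∈ g, u.1 * X = X * u.1}
      one_mem' := ⟨one_mem Q, by simp⟩
      mul_mem' := fun a b => ⟨mul_mem a.1 b.1, fun X hX =>
        Commute.mul_left (a.2 X hX) (b.2 X hX)⟩
      inv_mem' := fun a => ⟨inv_mem a.1, fun X hX => Commute.units_inv_left (a.2 X hX)⟩ }
  refine finite_of_tan (Z := Z) fun Y hY => ?_
  have a : Y ∈ g := (hg Y).2 fun P hP => hY P (mem_idealOf.2 fun u hu => mem_idealOf.1 hP u hu.1)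
  have b : ∀ X ∈ g, Y * X = X * Y := fun X hX => sub_eq_zero.1 (Matrix.ext fun i j => by
    obtain ⟨P, hP⟩ := zv_comm X X i j
    have := zv_line 1 Y P
    rw [hY P (mem_idealOf.2 fun u hu => by simp [hP, hu.2 X hX])] at this
    refine HasDerivAt.unique ?_ this
    simpa [hP, mul_add, add_mul, mul_sub] using
      (hasDerivAt_id (0 : k)).mul_const ((Y * X - X * Y) i j))
  rcases h2 (k ∙ Y) ((Submodule.span_singleton_le_iff_mem _ _).2 a) (fun X hX W hW => by
    obtain ⟨c, rfl⟩ := Submodule.mem_span_singleton.1 hW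
    simp [b X hX]) with c | c
  · exact Submodule.span_singleton_eq_bot.1 c
  · obtain ⟨X, hX, W, hW, e⟩ := h1
    obtain ⟨s, rfl⟩ := Submodule.mem_span_singleton.1 (c.ge hX)
    simp [b W hW] at e

theorem alg_cent (hp : (idealOf Q).IsPrime) (hf : {u ∈ Q | ∀ X ∈ g, u.1 * X = X * u.1}.Finite)
    {z : GL (Fin n) k} (hz : z ∈ Q) (hz' : ∀ X ∈ g, z.1 * X = X * z.1) : ∀ u ∈ Q, u * z = z * u := by
  by_contra! c
  have : ∀ w : GL (Fin n) k, ∃ P ∉ idealOf Q, ∀ v : GL (Fin n) k, v * z = w * v →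
      zv (v : Matrix (Fin n) (Fin n) k) P = 0 := fun w => by
    obtain ⟨v, hv, e⟩ : ∃ v ∈ Q, v * z ≠ w * v := by
      rcases eq_or_ne z w with rfl | e
      exacts [c, ⟨1, one_mem Q, by simpa using e⟩]
    obtain ⟨i, j, e⟩ : ∃ i j, (v.1 * z.1 - w.1 * v.1) i j ≠ 0 := by
      by_contra! d
      exact e (Units.ext (sub_eq_zero.1 (Matrix.ext d)))
    obtain ⟨P, hP⟩ := zv_comm z.1 w.1 i j
    refine ⟨P, fun a => e ((hP _).symm.trans (mem_idealOf.1 a v hv)), fun v a => ?_⟩
    rw [hP, show v.1 * z.1 = w.1 * v.1 from congrArg Units.val a, sub_self]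
    rfl
  choose P P1 P2 using this
  obtain ⟨w, -, hw⟩ := (Ideal.IsPrime.prod_mem_iff (s := hf.toFinset) (x := P)).1
    (mem_idealOf.2 fun v hv => by
      rw [map_prod]
      refine Finset.prod_eq_zero (hf.mem_toFinset.2 ⟨mul_mem (mul_mem hv hz) (inv_mem hv),
        fun X hX => ?_⟩) (P2 _ v (by simp))
      have := hz' _ (alg_norm hg (inv_mem hv) X hX)
      rw [Units.val_mul, Units.val_mul, mul_assoc, mul_assoc, ← Units.eq_inv_mul_iff_mul_eq,
        ← mul_assoc, ← mul_assoc, ← mul_assoc, ← mul_assoc, Units.eq_mul_inv_iff_mul_eq]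
      simpa only [inv_inv, mul_assoc] using this)
  exact P1 w hw

variable [CompleteSpace k] [CharZero k]

theorem alg_exp
    (hQ : ∀ u : GL (Fin n) k, (fun p : Fin n × Fin n => u p.1 p.2) ∈ zeroLocus k (idealOf Q) → u ∈ Q) :
    ∀ u : GL (Fin n) k, ∀ X ∈ g, IsNilpotent X → u.1 = IsNilpotent.exp X → u ∈ Q := by
  let _ : NormedRing (Matrix (Fin n) (Fin n) k) := Matrix.linftyOpNormedRing
  let _ : NormedAlgebra k (Matrix (Fin n) (Fin n) k) := Matrix.linftyOpNormedAlgebra
  intro u X hX hn e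
  have e1 := fun t : k => exp_sum (k := k) (hn.smul t)
  generalize Module.finrank k (Matrix (Fin n) (Fin n) k) = m at e1
  have d0 : HasDerivAt (fun t : k => IsNilpotent.exp (t • X)) X 0 := by
    have := (xp_deriv (m := m + 3) (by omega) (ContinuousLinearMap.mul k _ X)).hasDerivAt.clm_apply
      (hasDerivAt_const 0 1)
    have a : ∀ j, (ContinuousLinearMap.mul k _ X ^ j) 1 = X ^ j := fun j => by
      induction j with
      | zero => simp
      | succ j ih => simp [pow_succ', ih]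
    simp only [map_zero, add_zero] at this
    simpa [e1, xp, smul_pow, a] using! this
  have d1 : ∀ t, HasDerivAt (fun t : k => IsNilpotent.exp (t • X))
      (IsNilpotent.exp (t • X) * X) t := fun t => by
    refine ((HasDerivAt.comp_sub_const (f := fun t : k => IsNilpotent.exp (t • X)) t t
      (by rwa [sub_self])).const_mul (IsNilpotent.exp (t • X))).congr_of_eventuallyEq
        (.of_forall fun s => ?_)
    beta_reduce
    rw [← IsNilpotent.exp_add_of_commute (((Commute.refl X).smul_left _).smul_right _) (hn.smul _)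
      (hn.smul _), ← add_smul, add_sub_cancel]
  have p1 : ∀ P, (fun t : k => zv (IsNilpotent.exp (t • X)) P) ∈ PS k := fun P => by
    induction P using MvPolynomial.induction_on with
    | C a => exact ⟨Polynomial.C a, by simp⟩
    | add P R h1 h2 =>
      simp only [map_add]
      exact add_mem h1 h2
    | mul_X P p h1 =>
      simp only [map_mul, zv_X]
      refine mul_mem h1 ⟨∑ j ∈ Finset.range (m + 3),
        Polynomial.C ((j.factorial : k)⁻¹ * (X ^ j) p.1 p.2) * Polynomial.X ^ j, fun t => ?_⟩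
      simp only [e1, smul_pow, Matrix.sum_apply, Matrix.smul_apply, smul_eq_mul,
        Polynomial.eval_finsetSum, Polynomial.eval_mul, Polynomial.eval_C, Polynomial.eval_pow,
        Polynomial.eval_X]
      exact Finset.sum_congr rfl fun _ _ => by ring
  have p2 : ∀ (d : ℕ) (p : Polynomial k), p.natDegree = d → ∀ P ∈ idealOf Q,
      (∀ t : k, zv (IsNilpotent.exp (t • X)) P = p.eval t) → p = 0 := fun d => by
    induction d using Nat.strong_induction_on with
    | _ d ih =>
    intro p hd P hP h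
    have a : p.derivative = 0 := by
      rcases eq_or_ne p.natDegree 0 with c | c
      · exact Polynomial.derivative_of_natDegree_zero c
      choose f hf using zv_mul 1 X
      have b : ∀ x, zv x (∑ q, f q.1 q.2 * pderiv q P) = zd x (x * X) P := by simp [zd, hf]
      refine ih _ (hd ▸ Polynomial.natDegree_derivative_lt c) _ rfl (∑ q, f q.1 q.2 * pderiv q P)
        (mem_idealOf.2 fun v hv => (b _).trans ?_) fun t => (b _).trans ?_
      · simpa using zd_at hg hv (one_mem Q) hX hP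
      · refine (zv_deriv (c := fun t : k => IsNilpotent.exp (t • X)) (fun i j => (LinearMap.toContinuousLinearMap
          (Matrix.entryLinearMap k k i j)).hasFDerivAt.comp_hasDerivAt t (d1 t)) P).unique ?_
        simpa only [h] using p.hasDerivAt t
    have b := (h 0).symm.trans (by simpa using mem_idealOf.1 hP 1 (one_mem Q))
    rw [Polynomial.eq_C_of_derivative_eq_zero a, Polynomial.coeff_zero_eq_eval_zero, b, map_zero]
  refine hQ u fun P hP => ?_
  obtain ⟨p, hp⟩ := p1 P
  have := hp 1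
  beta_reduce at this
  rwa [p2 _ p rfl P hP hp, one_smul, ← e, Polynomial.eval_zero] at this

end Pool.Agent.Lib.MP_60cbcc_al.H3Z
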