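import Pool.Agent.Lib.MP_60cbcc_al.H3ZLieE

/-!
The group generated by the exponentials has finite index in the group of automorphisms.
-/

namespace Pool.Agent.Lib.MP_60cbcc_al.H3Z

open Filter Topology

set_option linter.unusedSectionVars false

variable {k W : Type} [NontriviallyNormedField k] [NormedAddCommGroup W] [NormedSpace k W]
  [CharZero k]

section
variable {E F H : W →L[k] W} (e1 : E * F = F * E + H) (e2 : E * H = H * E - (2 : k) • E)
include e1 e2

theorem sl_pow (i : ℕ) : E ^ (i + 1) * F = F * E ^ (i + 1) +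
    ((i + 1 : k) • (H * E ^ i) - ((i + 1) * i : k) • E ^ i) := by
  induction i with
  | zero => simp [e1]
  | succ i ih =>
    rw [pow_succ' _ (i + 1), mul_assoc, ih, mul_add, mul_sub, mul_smul_comm, mul_smul_comm,
      ← mul_assoc, ← mul_assoc, e1, e2]
    simp only [add_mul, sub_mul, smul_mul_assoc, mul_assoc, ← pow_succ']
    push_cast
    module

theorem sl_A (hE : IsNilpotent E) {v : W} (h1 : E v = 0) (c : ℕ)
    (h2 : H v = (-(c + 1) : k) • v) : v = 0 := by
  have : ∀ i : ℕ, ∃ u, (E ^ i) u = v := fun i => by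
    induction i with
    | zero => exact ⟨v, rfl⟩
    | succ i ih =>
      obtain ⟨u, hu⟩ := ih
      have h3 : (E ^ (i + 1)) (F u) = (-((i + 1) * (i + c + 1)) : k) • v := by
        have := congrArg (fun a : W →L[k] W => a u) (sl_pow e1 e2 i)
        simp only [pow_succ' E i, mul_apply_eq_comp, add_apply, sub_apply, smul_apply, hu,
          h1, h2, map_zero] at this
        rw [pow_succ', mul_apply_eq_comp, this]
        module
      have h4 : (-((i + 1) * (i + c + 1)) : k) ≠ 0 := neg_ne_zero.2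
        (mul_ne_zero (Nat.cast_add_one_ne_zero i) (by exact_mod_cast (i + c).succ_ne_zero))
      exact ⟨(-((i + 1) * (i + c + 1)) : k)⁻¹ • F u, by rw [map_smul, h3, inv_smul_smul₀ h4]⟩
  obtain ⟨m, hm⟩ := hE
  obtain ⟨u, hu⟩ := this m
  simpa [hm] using hu.symm

theorem sl_B (e3 : F * H = H * F + (2 : k) • F) (hE : IsNilpotent E) {u : W}
    (h : E (F u) = 0) : F u = 0 := by
  have a2 := fun v => congrArg (fun a : W →L[k] W => a v) e2
  have a3 := fun v => congrArg (fun a : W →L[k] W => a v) e3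
  simp only [mul_apply_eq_comp, add_apply, sub_apply, smul_apply] at a2 a3
  have a4 : ∀ (m : ℕ) v, (E ^ m) (H v) = H ((E ^ m) v) - (2 * m : k) • (E ^ m) v := fun m v => by
    induction m with
    | zero => simp
    | succ m ih =>
      simp only [pow_succ', mul_apply_eq_comp, ih, map_sub, map_smul, a2]
      push_cast
      module
  have : ∀ (m : ℕ) u, (E ^ m) u = 0 → E (F u) = 0 → F u = 0 := fun m => by
    induction m with
    | zero => exact fun u h _ => by rw [show u = 0 from h, map_zero]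
    | succ m ih =>
      intro u h1 h2
      have b := congrArg (fun a : W →L[k] W => a u) (sl_pow e1 e2 m)
      simp only [mul_apply_eq_comp, add_apply, sub_apply, smul_apply, h1, map_zero, zero_add] at b
      rw [pow_succ, mul_apply_eq_comp, h2, map_zero, mul_smul, ← smul_sub, eq_comm,
        smul_eq_zero_iff_right (Nat.cast_add_one_ne_zero m), sub_eq_zero] at b
      have c := ih (H u + (m : k) • u) (by rw [map_add, a4, map_smul, b]; module)
        (by simp [a3, a2, h2])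
      refine sl_A e1 e2 hE h2 (m + 1) ?_
      rw [map_add, a3, map_smul, add_assoc, add_eq_zero_iff_eq_neg] at c
      rw [c]
      push_cast
      module
  obtain ⟨m, hm⟩ := hE
  exact this m u (by simp [hm]) h

end

variable [CompleteSpace k] [FiniteDimensional k W] {br : W →L[k] W →L[k] W} {Q : Type} [Group Q]
  [TopologicalSpace Q]

theorem IsAut.mul {x y : W →L[k] W} (hx : IsAut br x) (hy : IsAut br y) : IsAut br (x * y) :=
  fun u v => by simp only [mul_apply_eq_comp, hx _ _, hy _ _]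

theorem IsAut.inv {x x' : W →L[k] W} (hx : IsAut br x) (h1 : x * x' = 1) (h2 : x' * x = 1) :
    IsAut br x' := fun u v => by
  have a : ∀ u, x (x' u) = u := fun u => congrArg (fun a : W →L[k] W => a u) h1
  have b : ∀ u, x' (x u) = u := fun u => congrArg (fun a : W →L[k] W => a u) h2
  rw [← b (br (x' u) (x' v)), hx, a, a]

theorem IsAut.tr_pow {x x' : W →L[k] W} (hx : IsAut br x) (h1 : x * x' = 1) (h2 : x' * x = 1)
    (Y : W) (j : ℕ) : tr (br (x Y) ^ j) = tr (br Y ^ j) := by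
  rw [hx.ad h1, show x * br Y * x' = (⟨_, _, h1, h2⟩ : (W →L[k] W)ˣ) * br Y *
    (⟨_, _, h1, h2⟩ : (W →L[k] W)ˣ)⁻¹ from rfl, Units.conj_pow, tr_mul_comm, ← mul_assoc,
    Units.inv_mul, one_mul]

variable (br) in
/-- Maps whose image is commutative and consists of nilpotent elements. -/
def NilT (T : W →L[k] W) : Prop :=
  (∀ x y, br (T x) (T y) = 0) ∧ ∀ x j, tr (br (T x) ^ (j + 1)) = 0

theorem NilT.lim {α : Type} {l : Filter α} [l.NeBot] {T : α → W →L[k] W} {S : W →L[k] W}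
    (h : Tendsto T l (𝓝 S)) (h1 : ∀ x y, Tendsto (fun n => br (T n x) (T n y)) l (𝓝 0))
    (h2 : ∀ x j, Tendsto (fun n => tr (br (T n x) ^ (j + 1))) l (𝓝 0)) : NilT br S :=
  ⟨fun x y => tendsto_nhds_unique ((Continuous.tendsto
      (f := fun T : W →L[k] W => br (T x) (T y)) (by fun_prop) S).comp h) (h1 x y),
    fun x j => tendsto_nhds_unique (((tr_cont.comp (show Continuous
      fun T : W →L[k] W => br (T x) ^ (j + 1) by fun_prop)).tendsto S).comp h) (h2 x j)⟩

namespace Dat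

variable (D : Dat br Q) (L : SLie br)
include D L

theorem degen {X : W} (hX : IsNilpotent (br X)) : ∃ (ψ : W →L[k] W) (l : k → Q), ψ X = 0 ∧
    ∀ T : W →L[k] W, (∀ x, br X (T x) = 0) →
      Tendsto (fun s => D.Ad (l s) * T) (𝓝[≠] 0) (𝓝 (ψ * T)) := by
  obtain ⟨h, f, h1, h2, h3⟩ := L.jm hX
  have hf := L.nil_of_eig (by norm_num) h2
  have e1 : br f X = -h := by rw [L.anti, h3]
  have e2 : br f h = (2 : k) • f := by rw [L.anti, h2]; simp
  have e3 : br X h = (-2 : k) • X := by rw [L.anti, h1]; simp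
  have a : ∀ t : k, t ≠ 0 → D.Ad (D.ex ((-t⁻¹) • X) * D.ex (t • f)) X = (-(t ^ 2)) • f := by
    intro t ht
    rw [map_mul, mul_apply_eq_comp, D.Ad_smul hX, D.Ad_smul hf,
      xp_apply D.hm (v := X) (by simp [e1, e2, L.self]),
      xp_apply D.hm (by simp [e1, e2, e3, h3, L.self])]
    simp only [smul_apply, map_smul, map_add, map_neg, e1, e2, e3, h3, L.self, map_zero]
    match_scalars <;> field_simp <;> ring
  have b : ∀ u, br f (br X u) = 0 → br X u = 0 := fun u => sl_B (H := -br h)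
    (by rw [← map_neg, ← e1, L.jac, add_sub_cancel])
    (by rw [← map_smul, ← e2, L.jac]; noncomm_ring)
    (by rw [← map_smul, ← h1, L.jac]; noncomm_ring) hf
  obtain ⟨g, hg⟩ := ((LinearMap.range (br X).toLinearMap).mkQ ∘ₗ
      (LinearMap.ker (br f).toLinearMap).subtype).exists_leftInverse_of_injective
    (LinearMap.ker_eq_bot'.2 fun v hv => by
      obtain ⟨u, hu⟩ := (Submodule.Quotient.mk_eq_zero _).1 hv
      exact Subtype.ext (hu.symm.trans (b u ((congrArg (br f) hu).trans v.2))))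
  obtain ⟨ψ, p1, p2⟩ : ∃ ψ : W →L[k] W, (∀ v, br f v = 0 → ψ v = v) ∧ ψ * br X = 0 :=
    ⟨((LinearMap.ker (br f).toLinearMap).subtype ∘ₗ g ∘ₗ
      (LinearMap.range (br X).toLinearMap).mkQ).toContinuousLinearMap,
      fun v hv => congrArg Subtype.val (LinearMap.congr_fun hg ⟨v, hv⟩), by
        ext u
        have : (LinearMap.range (br X).toLinearMap).mkQ (br X u) = 0 :=
          (Submodule.Quotient.mk_eq_zero _).2 ⟨u, rfl⟩
        simp [this]⟩
  have p3 : ∀ t : k, ψ * xp D.m (t • br X) = ψ := fun t => by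
    obtain ⟨m, hm⟩ := Nat.exists_eq_add_of_le' D.hm
    simp [hm, xp, Finset.sum_range_succ' _ (m + 2), mul_add, Finset.mul_sum, pow_succ' (br X),
      smul_pow, ← mul_assoc, p2]
  refine ⟨ψ, fun t => D.ex ((-t⁻¹) • X) * D.ex (t • f), ?_, fun T hT => ?_⟩
  · have := congrArg (fun a : W →L[k] W => a h) p2
    simpa [e3] using this
  · have c : Tendsto (fun t : k => ψ * xp D.m (t • br f) * T) (𝓝 0) (𝓝 (ψ * T)) :=
      Continuous.tendsto' ((continuous_const.mul ((xp_cont _).comp (by fun_prop))).mul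
        continuous_const) _ _ (by simp [xp_zero D.hm])
    refine (c.mono_left nhdsWithin_le_nhds).congr' (eventually_mem_nhdsWithin.mono fun t ht => ?_)
    ext x
    have d := D.aut (D.ex ((-t⁻¹) • X) * D.ex (t • f)) X (T x)
    rw [hT, map_zero, a t ht, map_smul, smul_apply, eq_comm,
      smul_eq_zero_iff_right (neg_ne_zero.2 (pow_ne_zero 2 ht))] at d
    rw [mul_apply_eq_comp (D.Ad _), ← p1 _ d, map_mul, D.Ad_smul hX, D.Ad_smul hf,
      ← mul_apply_eq_comp ψ, ← mul_assoc, p3]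
    rfl

theorem unstable (T : W →L[k] W) (hT : NilT br T) {ε : ℝ} (hε : 0 < ε) :
    ∃ l, ‖D.Ad l * T‖ < ε := by
  induction hK : LinearMap.ker T.toLinearMap using WellFoundedGT.induction generalizing T with
  | ind K ih =>
  by_cases h0 : T = 0
  · exact ⟨1, by simpa [h0] using hε⟩
  obtain ⟨x, hx⟩ : ∃ x, T x ≠ 0 := not_forall.1 fun h => h0 (ContinuousLinearMap.ext h)
  obtain ⟨ψ, l, h1, h2⟩ := D.degen L (nil_of_tr (hT.2 x))
  have h3 := h2 T (hT.1 x)
  obtain ⟨q, hq⟩ := ih _ (hK ▸ lt_of_le_of_ne (fun y (hy : T y = 0) => show ψ (T y) = 0 by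
      rw [hy, map_zero]) fun c => hx (c.ge (show x ∈ LinearMap.ker (ψ * T).toLinearMap from h1)))
    (ψ * T) (NilT.lim h3 (fun x y => by simp [← D.aut _ _ _, hT.1])
      fun x j => by simp [(D.aut _).tr_pow (D.Ad_inv _) (D.inv_Ad _), hT.2]) rfl
  obtain ⟨s, hs⟩ := ((h3.const_mul (D.Ad q)).norm.eventually (gt_mem_nhds hq)).exists
  exact ⟨q * l s, by rwa [map_mul, mul_assoc]⟩

variable [ProperSpace k]

theorem bdd : ∃ C : ℝ, ∀ x x' : W →L[k] W, IsAut br x → x * x' = 1 → x' * x = 1 →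
    ∃ l, ‖D.Ad l * x‖ ≤ C := by
  by_contra! hc
  have : ∀ n : ℕ, ∃ y y' : W →L[k] W, IsAut br y ∧ y * y' = 1 ∧ y' * y = 1 ∧ n + 1 < ‖y‖ ∧
      ∀ l, ‖y‖ < 2 * ‖D.Ad l * y‖ := fun n => by
    obtain ⟨x, x', h1, h2, h3, h4⟩ := hc (n + 1)
    have h5 : (n + 1 : ℝ) ≤ ⨅ l, ‖D.Ad l * x‖ := le_ciInf fun l => (h4 l).le
    obtain ⟨l, hl⟩ := exists_lt_of_ciInf_lt (f := fun l => ‖D.Ad l * x‖)
      (a := 2 * ⨅ l, ‖D.Ad l * x‖) (by linarith [n.cast_nonneg (α := ℝ)])
    refine ⟨D.Ad l * x, x' * D.Ad l⁻¹, (D.aut l).mul h1, ?_, ?_, h4 l, fun q => hl.trans_le ?_⟩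
    · rw [mul_assoc, ← mul_assoc x, h2, one_mul, D.Ad_inv]
    · rw [mul_assoc, ← mul_assoc (D.Ad l⁻¹), D.inv_Ad, one_mul, h3]
    · rw [← mul_assoc, ← map_mul]
      exact mul_le_mul_of_nonneg_left (ciInf_le (f := fun l => ‖D.Ad l * x‖)
        ⟨0, Set.forall_mem_range.2 fun _ => norm_nonneg _⟩ _) two_pos.le
  choose y y' h1 h2 h3 h4 h5 using this
  obtain ⟨c, hc⟩ := NormedField.exists_one_lt_norm k
  have y0 := fun n : ℕ => (Nat.cast_add_one_pos n).trans (h4 n)
  choose d d0 d1 d2 d3 using fun n => rescale_to_shell hc one_pos (norm_pos_iff.1 (y0 n))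
  have := FiniteDimensional.proper k (W →L[k] W)
  obtain ⟨T, -, φ, hφ, hT⟩ := (isCompact_closedBall (0 : W →L[k] W) 1).tendsto_subseq
    (x := fun n => d n • y n) fun n => mem_closedBall_zero_iff.2 (d1 n).le
  have hd : Tendsto (fun n => d (φ n)) atTop (𝓝 0) := by
    refine (squeeze_zero_norm (fun n => ?_) tendsto_one_div_add_atTop_nhds_zero_nat).comp
      hφ.tendsto_atTop
    rw [le_div_iff₀ (Nat.cast_add_one_pos n)]
    exact (mul_le_mul_of_nonneg_left (h4 n).le (norm_nonneg _)).trans (norm_smul (d n) (y n) ▸ (d1 n).le)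
  have hN : NilT br T := by
    refine NilT.lim hT (fun u v => ?_) fun u j => ?_
    · have := hd.smul ((ContinuousLinearMap.apply k W (br u v)).continuous.tendsto T |>.comp hT)
      simpa [Function.comp_def, ← h1 _ u v] using this
    · have := (hd.pow (j + 1)).mul_const (tr (br u ^ (j + 1)))
      simpa [smul_pow, (h1 _).tr_pow (h2 _) (h3 _)] using this
  obtain ⟨l, hl⟩ := D.unstable L T hN (ε := 1 / ‖c‖ / 2) (by positivity)
  obtain ⟨n, hn⟩ := ((hT.const_mul (D.Ad l)).norm.eventually (gt_mem_nhds hl)).exists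
  have := mul_lt_mul_of_pos_left (h5 (φ n) l) (norm_pos_iff.2 (d0 (φ n)))
  have := d2 (φ n)
  simp only [Function.comp, mul_smul_comm, norm_smul] at hn this
  linarith

variable [Fact (Ext k)]

omit [ProperSpace k] in
theorem near_aut : ∀ᶠ g in 𝓝 1, IsAut br g → ∃ l, D.Ad l = g :=
  (L.open_of_tan (D.AdS_aut ⊤) (eq_top_iff.2 ((D.span_nil L).ge.trans
    (Submodule.span_le.2 fun _ hX => D.tan_ex hX fun _ => trivial)))).mono fun _ h a =>
      (h a).imp fun _ h => h.2

theorem fin_aut : ∃ F : Finset (W →L[k] W), ∀ x x' : W →L[k] W, IsAut br x → x * x' = 1 →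
    x' * x = 1 → ∃ l, ∃ y ∈ F, x = D.Ad l * y := by
  obtain ⟨C, hC⟩ := D.bdd L
  have := FiniteDimensional.proper k (W →L[k] W)
  have := FiniteDimensional.complete k W
  have hB : IsCompact (Metric.closedBall (0 : W →L[k] W) C ∩ {x | ∀ u v,
      x (br u v) = br (x u) (x v) ∧ tr (br (x u) * br (x v)) = tr (br u * br v)}) := by
    refine (isCompact_closedBall _ _).inter_right ?_
    simp only [Set.ofPred_forall]
    exact isClosed_iInter fun u => isClosed_iInter fun v => (isClosed_eq (by fun_prop)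
      (by fun_prop)).inter (isClosed_eq (tr_cont.comp (by fun_prop)) continuous_const)
  obtain ⟨F, -, hF⟩ := hB.elim_nhds_subcover (fun y => {x | ∀ x', IsAut br x → x * x' = 1 →
      ∃ l, x = D.Ad l * y}) fun y hy => by
    obtain ⟨y', e⟩ : IsUnit y := (ContinuousLinearMap.isUnit_iff_isUnit_toLinearMap.2
      ((LinearMap.isUnit_iff_ker_eq_bot _).2 (LinearMap.ker_eq_bot'.2 fun u hu => L.kill u fun v => by
        rw [← (hy.2 u v).2, show y u = 0 from hu]; simp)))
    subst e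
    have := (Continuous.tendsto' (f := fun x : W →L[k] W => x * (y'⁻¹ : (W →L[k] W)ˣ))
      (by fun_prop) y' 1 y'.mul_inv).eventually (D.near_aut L)
    refine this.mono fun x hx x' a _ => ?_
    obtain ⟨l, hl⟩ := hx (a.mul (IsAut.inv (fun u v => (hy.2 u v).1) y'.mul_inv y'.inv_mul))
    exact ⟨l, by rw [hl, Units.inv_mul_cancel_right]⟩
  refine ⟨F, fun x x' h1 h2 h3 => ?_⟩
  obtain ⟨l, hl⟩ := hC x x' h1 h2 h3
  have a := (D.aut l).mul h1
  have b : D.Ad l * x * (x' * D.Ad l⁻¹) = 1 := by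
    rw [mul_assoc, ← mul_assoc x, h2, one_mul, D.Ad_inv]
  obtain ⟨y, hy, h⟩ := Set.mem_iUnion₂.1 (hF ⟨mem_closedBall_zero_iff.2 hl, fun u v => ⟨a u v, by
    have c : x' * D.Ad l⁻¹ * (D.Ad l * x) = 1 := by
      rw [mul_assoc, ← mul_assoc (D.Ad l⁻¹), D.inv_Ad, one_mul, h3]
    rw [a.ad b, a.ad b]
    generalize D.Ad l * x = p, x' * D.Ad l⁻¹ = q at c
    rw [mul_assoc, mul_assoc, tr_mul_comm]
    simp only [mul_assoc, c, mul_one]
    rw [← mul_assoc q, c, one_mul]⟩⟩)
  obtain ⟨q, hq⟩ := h _ a b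
  exact ⟨l⁻¹ * q, y, hy, by rw [map_mul, mul_assoc, ← hq, ← mul_assoc, D.inv_Ad, one_mul]⟩

end Dat

end Pool.Agent.Lib.MP_60cbcc_al.H3Z
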