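import Pool.Agent.Lib.MP_60cbcc_al.H3ZAlgA
import Pool.Agent.Lib.MP_60cbcc_al.H3ZLieH

/-!
The subgroup generated by the unipotent elements of an almost simple algebraic group.
-/

namespace Pool.Agent.Lib.MP_60cbcc_al.H3Z

open Filter Topology Pointwise

set_option linter.unusedSectionVars false

variable {G : Type} [Group G] [TopologicalSpace G] [IsTopologicalGroup G] [LocallyCompactSpace G]
  [T2Space G]

theorem open_of_cg (L : Subgroup G) [L.FiniteIndex]
    (h : ∃ S : Set L, IsCompact S ∧ Subgroup.closure S = ⊤) : IsOpen (L : Set G) := by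
  obtain ⟨S, h1, h2⟩ := h
  have h3 : ∀ n : ℕ, IsCompact ((S ∪ S⁻¹) ^ n) := fun n => by
    induction n with
    | zero => exact isCompact_singleton
    | succ n ih => exact ih.mul (h1.union h1.inv)
  have h4 : ∀ x ∈ Subgroup.closure S, ∃ n, x ∈ (S ∪ S⁻¹) ^ n := fun x hx => by
    induction hx using Subgroup.closure_induction'' with
    | one => exact ⟨0, rfl⟩
    | mem x hx => exact ⟨1, by simp [hx]⟩
    | inv_mem x hx => exact ⟨1, by simp [hx]⟩
    | mul x y _ _ a b =>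
      obtain ⟨⟨a, ha⟩, b, hb⟩ := And.intro a b
      exact ⟨a + b, pow_add (S ∪ S⁻¹) a b ▸ Set.mul_mem_mul ha hb⟩
  obtain ⟨⟨q, n⟩, x, hx⟩ := nonempty_interior_of_iUnion_of_closed (ι := (G ⧸ L) × ℕ)
    (f := fun p => (fun y : L => p.1.out * y) '' (S ∪ S⁻¹) ^ p.2)
    (fun p => ((h3 _).image (by fun_prop)).isClosed) (Set.eq_univ_of_forall fun x => by
      obtain ⟨y, hy⟩ := QuotientGroup.mk_out_eq_mul L x
      obtain ⟨n, hn⟩ := h4 y⁻¹ (h2 ▸ Subgroup.mem_top _)
      exact Set.mem_iUnion.2 ⟨(x, n), _, hn, by simp [hy]⟩)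
  refine L.isOpen_of_mem_nhds (g := q.out⁻¹ * x) (mem_of_superset
    ((continuous_const_mul q.out).tendsto' _ x (by simp) (mem_interior_iff_mem_nhds.1 hx)) ?_)
  rintro z ⟨y, -, e⟩
  exact mul_left_cancel e ▸ y.2

theorem xp_comm {k W : Type} [NontriviallyNormedField k] [NormedAddCommGroup W] [NormedSpace k W]
    {m : ℕ} (h : 3 ≤ m) {A B : W →L[k] W} (b : ∀ t : k, xp m (t • A) * B = B * xp m (t • A)) :
    A * B = B * A := by
  have d := (xp_deriv h A).hasDerivAt
  have e := d.const_mul B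
  exact (d.mul_const B).unique (by simpa only [b] using e)

variable {k R : Type} [NontriviallyNormedField k] [CompleteSpace k] [CharZero k] [NormedRing R]
  [NormedAlgebra k R] [FiniteDimensional k R] {g : Submodule k R} [Module ℚ R]

theorem lgp_conj {u : Rˣ} (hu : ∀ X ∈ g, u.1 * X * u⁻¹.1 ∈ g) {v : Rˣ} (hv : v ∈ lgp g) :
    u * v * u⁻¹ ∈ lgp g := by
  refine (Subgroup.closure_le ((lgp g).comap (MulAut.conj u).toMonoidHom)).2 ?_ hv
  rintro w ⟨X, hX, n, e⟩
  have n' : IsNilpotent (u.1 * X * u⁻¹.1) := by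
    obtain ⟨j, hj⟩ := n
    exact ⟨j, by rw [Units.conj_pow, hj, mul_zero, zero_mul]⟩
  refine Subgroup.subset_closure ⟨_, hu X hX, n', ?_⟩
  change u.1 * w.1 * u⁻¹.1 = _
  rw [e, exp_sum (k := k) n, exp_sum (k := k) n']
  simp only [Finset.mul_sum, Finset.sum_mul, Units.conj_pow, mul_smul_comm, smul_mul_assoc]

theorem alg_core [ProperSpace k] [Fact (Ext k)] (h : ∀ X ∈ g, ∀ Y ∈ g, X * Y - Y * X ∈ g)
    (L : SLie (lbr h)) (h3 : ∃ X ∈ g, X ≠ 0 ∧ IsNilpotent X) (r : G →* Rˣ) (hr : IsEmbedding r)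
    (hn : ∀ x, ∀ X ∈ g, (r x).1 * X * (r x)⁻¹.1 ∈ g) (he : lgp g ≤ r.range)
    (hf : {x | ∀ X ∈ g, (r x).1 * X = X * (r x).1}.Finite)
    (hz : ∀ z, (∀ X ∈ g, (r z).1 * X = X * (r z).1) → z ∈ Subgroup.center G) :
    ∃ N : Subgroup G, N.Normal ∧ N.FiniteIndex ∧ IsOpen (N : Set G) ∧
      Subgroup.centralizer (N : Set G) ≤ Subgroup.center G ∧ Rigid N := by
  let D := ldat L h3
  let ad : G →* (g →L[k] g) :=
    { toFun u := LinearMap.toContinuousLinearMap
        ((LinearMap.mulRight k (r u)⁻¹.1 ∘ₗ LinearMap.mulLeft k (r u).1).restrict (hn u))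
      map_one' := by ext; simp
      map_mul' u v := by ext; simp [mul_assoc] }
  have a1 : ∀ u y, (ad u y : R) = (r u).1 * y * (r u)⁻¹.1 := fun _ _ => rfl
  have a2 : ∀ u, IsAut (lbr h) (ad u) := fun u x y =>
    Subtype.ext (by simp [coe_lbr, a1, mul_assoc, mul_sub, sub_mul])
  have a3 : ∀ u, ad u = 1 → ∀ X ∈ g, (r u).1 * X = X * (r u).1 := fun u e X hX =>
    (Units.mul_inv_eq_iff_eq_mul _).1 (congrArg Subtype.val (DFunLike.congr_fun e (⟨X, hX⟩ : g)))
  choose s hs using fun l : lgp g => he l.2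
  have a4 : ∀ l, ad (s l) = D.Ad l := fun l => ContinuousLinearMap.ext fun y =>
    Subtype.ext (by rw [a1, hs]; rfl)
  have hN : ((lgp g).comap r).FiniteIndex := by
    obtain ⟨F, hF⟩ := D.fin_aut L
    refine Subgroup.finiteIndex_of_leftCoset_cover_const (s := F ×ˢ hf.toFinset)
      (g := fun p => (p.2 * Function.invFun ad p.1)⁻¹) (Set.eq_univ_of_forall fun x => ?_)
    obtain ⟨l, y, hy, e⟩ := hF (ad x⁻¹) (ad x) (a2 _) (by simp [← map_mul]) (by simp [← map_mul])
    have e1 : ad ((s l)⁻¹ * x⁻¹) = y := by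
      rw [map_mul, e, ← a4, ← mul_assoc, ← map_mul, inv_mul_cancel, map_one, one_mul]
    refine Set.mem_iUnion₂.2 ⟨(y, (s l)⁻¹ * x⁻¹ * (Function.invFun ad y)⁻¹),
      Finset.mem_product.2 ⟨hy, hf.mem_toFinset.2 (a3 _ ?_)⟩, ?_⟩
    · rw [map_mul, e1.trans (Function.invFun_eq ⟨_, e1⟩).symm, ← map_mul, mul_inv_cancel, map_one]
    · simp [mem_leftCoset_iff, hs]
  have hb : Function.Bijective (r.subgroupComap (lgp g)) :=
    ⟨fun x y e => Subtype.ext (hr.injective (congrArg Subtype.val e)),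
      fun l => ⟨⟨s l, show r (s l) ∈ lgp g from hs l ▸ l.2⟩, Subtype.ext (hs l)⟩⟩
  have hi : IsInducing (r.subgroupComap (lgp g)) :=
    IsInducing.subtypeVal.of_comp_iff.1 (hr.isInducing.comp .subtypeVal)
  have hR : Rigid ((lgp g).comap r) := Rigid.congr
    { MulEquiv.ofBijective _ hb with
      continuous_toFun := hi.continuous
      continuous_invFun := hi.continuous_iff.2 (continuous_id.congr fun l =>
        ((MulEquiv.ofBijective _ hb).apply_symm_apply l).symm) } (D.rigid L)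
  refine ⟨_, ⟨fun x hx u => ?_⟩, hN, open_of_cg _ hR.cg, fun z c => hz z (a3 z ?_), hR⟩
  · simpa using lgp_conj (hn u) hx
  · refine ContinuousLinearMap.coe_injective (LinearMap.ext_on (D.span_nil L) fun X hX => ?_)
    have b : ∀ t : k, xp D.m (t • lbr h X) * ad z = ad z * xp D.m (t • lbr h X) := fun t => by
      rw [← D.Ad_smul hX, ← a4, ← map_mul, ← map_mul,
        c _ (show r (s _) ∈ lgp g from hs _ ▸ Subtype.prop _)]
    have e := xp_comm D.hm b
    refine sub_eq_zero.1 (L.kill _ fun y => ?_)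
    change tr (lbr h (ad z X - X) * _) = 0
    rw [map_sub, (a2 z).ad (g' := ad z⁻¹) (by simp [← map_mul]), ← e, mul_assoc, ← map_mul,
      mul_inv_cancel, map_one, mul_one, sub_self, zero_mul, map_zero]

omit [Module ℚ R] in
theorem AlgOver.ex [ProperSpace k] (x : Ext k) (hG : AlgOver k G) :
    ∃ N : Subgroup G, N.Normal ∧ N.FiniteIndex ∧ IsOpen (N : Set G) ∧
      Subgroup.centralizer (N : Set G) ≤ Subgroup.center G ∧ Rigid N := by
  obtain ⟨n, Q, g, hQ, hp, hg, h, h1, h2, h3, ⟨e⟩⟩ := hG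
  have := Fact.mk x
  let _ : NormedRing (Matrix (Fin n) (Fin n) k) := Matrix.linftyOpNormedRing
  let _ : NormedAlgebra k (Matrix (Fin n) (Fin n) k) := Matrix.linftyOpNormedAlgebra
  have hf := alg_fin hg h1 h2
  refine alg_core h (lbr_slie h1 h2) h3 (Q.subtype.comp e.toMulEquiv.toMonoidHom)
    (IsEmbedding.subtypeVal.comp e.toHomeomorph.isEmbedding) (fun x => alg_norm hg (e x).2)
    ((Subgroup.closure_le _).2 fun u ⟨X, hX, n, c⟩ =>
      ⟨e.symm ⟨u, alg_exp hg hQ u X hX n c⟩, congrArg Subtype.val (e.apply_symm_apply _)⟩)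
    ((hf.preimage (f := fun x => (e x).1) (Subtype.val_injective.comp e.injective).injOn).subset
      fun x hx => ⟨(e x).2, hx⟩)
    fun z hz => Subgroup.mem_center_iff.2 fun u => e.injective (Subtype.ext ?_)
  rw [map_mul, map_mul]
  exact alg_cent hg hp hf (e z).2 hz _ (e u).2

theorem IsAlgebraic.ex (hG : IsAlgebraic G) :
    ∃ N : Subgroup G, N.Normal ∧ N.FiniteIndex ∧ IsOpen (N : Set G) ∧
      Subgroup.centralizer (N : Set G) ≤ Subgroup.center G ∧ Rigid N := by
  rcases hG with h | h | ⟨k, _, _, _, _, h⟩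
  · exact h.ex ⟨ℂ, inferInstance, inferInstance, inferInstance, inferInstance⟩
  · exact h.ex ⟨ℂ, inferInstance, inferInstance, inferInstance, inferInstance⟩
  · exact h.ex ext_ultra

end Pool.Agent.Lib.MP_60cbcc_al.H3Z
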