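import Mathlib

/-!
Points of almost simple algebraic groups: the definitions used in the statement.
-/

namespace Pool.Agent.Lib.MP_60cbcc_al.H3Z

open MvPolynomial

/-- The ideal of the polynomials in the matrix entries that vanish on `Q`. -/
def idealOf {k : Type} [Field k] {n : ℕ} (Q : Subgroup (GL (Fin n) k)) :
    Ideal (MvPolynomial (Fin n × Fin n) k) :=
  vanishingIdeal k {x | ∃ u ∈ Q, x = fun p : Fin n × Fin n => u p.1 p.2}

/-- Topological groups isomorphic to a Zariski closed and irreducible subgroup `Q` of `GL(n, k)`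
whose Zariski tangent space at the identity is a simple Lie algebra with a non-zero nilpotent
element. -/
def AlgOver (k : Type) [NontriviallyNormedField k] (G : Type) [Group G] [TopologicalSpace G] :
    Prop :=
  ∃ (n : ℕ) (Q : Subgroup (GL (Fin n) k)) (g : Submodule k (Matrix (Fin n) (Fin n) k)),
    (∀ u : GL (Fin n) k, (fun p : Fin n × Fin n => u p.1 p.2) ∈ zeroLocus k (idealOf Q) → u ∈ Q) ∧
    (idealOf Q).IsPrime ∧
    (∀ X, X ∈ g ↔ ∀ P ∈ idealOf Q, ∑ p, X p.1 p.2 *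
      aeval (fun q : Fin n × Fin n => (1 : Matrix (Fin n) (Fin n) k) q.1 q.2) (pderiv p P) = 0) ∧
    (∀ X ∈ g, ∀ Y ∈ g, X * Y - Y * X ∈ g) ∧ (∃ X ∈ g, ∃ Y ∈ g, X * Y ≠ Y * X) ∧
    (∀ I ≤ g, (∀ X ∈ g, ∀ Y ∈ I, X * Y - Y * X ∈ I) → I = ⊥ ∨ I = g) ∧
    (∃ X ∈ g, X ≠ 0 ∧ IsNilpotent X) ∧ Nonempty (G ≃ₜ* Q)

/-- The same over some local field of characteristic zero. -/
def IsAlgebraic (G : Type) [Group G] [TopologicalSpace G] : Prop :=
  AlgOver ℝ G ∨ AlgOver ℂ G ∨ ∃ (k : Type) (_ : NontriviallyNormedField k),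
    IsUltrametricDist k ∧ ProperSpace k ∧ CharZero k ∧ AlgOver k G

end Pool.Agent.Lib.MP_60cbcc_al.H3Z
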