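import Pool.Agent.Lib.MP_60cbcc_al.H3ZAlgA

/-!
The group `SL(2, k)` is in the class `AlgOver k`.
-/

namespace Pool.Agent.Lib.MP_60cbcc_al.H3Z

open MvPolynomial Matrix

theorem sl2_alg (k : Type) [NontriviallyNormedField k] [CharZero k] :
    AlgOver k (GeneralLinearGroup.det (n := Fin 2) (R := k)).ker := by
  set Q := (GeneralLinearGroup.det (n := Fin 2) (R := k)).ker
  have hQ : ∀ u : GL (Fin 2) k, u ∈ Q ↔ u.1.det = 1 := fun u =>
    ⟨fun h => congrArg Units.val h, fun h => Units.ext h⟩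
  have hI : ∀ P, P ∈ idealOf Q ↔ ∀ x : Matrix (Fin 2) (Fin 2) k, x.det = 1 → zv x P = 0 := fun P =>
    mem_idealOf.trans ⟨fun h x e => h (GeneralLinearGroup.mkOfDetNeZero x (e ▸ one_ne_zero))
      ((hQ _).2 e), fun h u hu => h _ ((hQ u).1 hu)⟩
  have hD : X (0, 0) * X (1, 1) - X (0, 1) * X (1, 0) - 1 ∈ idealOf Q := (hI _).2 fun x e => by
    simp [zv_X, ← det_fin_two, e]
  have hN : ∀ N : Matrix (Fin 2) (Fin 2) k, N.trace = 0 → N.det = 0 → ∀ P ∈ idealOf Q,
      zd 1 N P = 0 := fun N h1 h2 P hP => by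
    refine (zv_line 1 N P).unique ((hasDerivAt_const _ _).congr_of_eventuallyEq
      (.of_forall fun s => (hI P).1 hP _ ?_))
    rw [det_fin_two] at h2 ⊢
    rw [trace_fin_two] at h1
    simp only [Matrix.add_apply, Matrix.smul_apply, one_apply_eq, smul_eq_mul, ne_eq, zero_ne_one,
      not_false_eq_true, one_apply_ne, one_ne_zero]
    linear_combination s * h1 + s ^ 2 * h2
  refine ⟨2, Q, LinearMap.ker (traceLinearMap (Fin 2) k k), fun u hu => (hQ u).2 ?_, ?_,
    fun Y => ⟨fun hY P hP => ?_, fun hY => ?_⟩, fun x _ y _ => by simp [trace_mul_comm x y],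
    ⟨!![0, 1; 0, 0], by simp, !![0, 0; 1, 0], by simp, fun c => by
      simpa using congrFun₂ c 0 0⟩, fun I h1 h2 => ?_,
    ⟨!![0, 1; 0, 0], by simp, fun c => by simpa using congrFun₂ c 0 1, 2, by
      ext i j; fin_cases i <;> fin_cases j <;> simp [pow_two]⟩, ⟨.refl _⟩⟩
  · have := hu _ hD
    rw [det_fin_two]
    simpa [sub_eq_zero] using this
  · let M : Matrix (Fin 2) (Fin 2) (MvPolynomial (Fin 4) k) :=
      !![1, X 0; 0, 1] * !![1, 0; X 1, 1] * !![1, X 2; 0, 1] * !![1, 0; X 3, 1]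
    have e : ∀ (x : Fin 4 → k) P, aeval x (aeval (fun p : Fin 2 × Fin 2 => M p.1 p.2) P) =
        zv (!![1, x 0; 0, 1] * !![1, 0; x 1, 1] * !![1, x 2; 0, 1] * !![1, 0; x 3, 1]) P := by
      intro x P
      rw [← AlgHom.comp_apply, comp_aeval, zv]
      congr 2
      ext ⟨i, j⟩
      fin_cases i <;> fin_cases j <;> simp [M]
    convert RingHom.ker_isPrime (aeval fun p : Fin 2 × Fin 2 => M p.1 p.2)
    ext P
    rw [hI, RingHom.mem_ker]
    refine ⟨fun h => MvPolynomial.funext fun x => ?_, fun h u hu => ?_⟩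
    · rw [map_zero, ← coe_aeval_eq_eval, RingHom.coe_coe, e]
      exact h _ (by simp [-cons_mul])
    · rw [det_fin_two] at hu
      obtain ⟨d, hd⟩ : ∃ d, u 1 0 - d * u 1 1 ≠ 0 := by
        by_contra! c
        have a := c 0
        have b := c 1
        simp only [zero_mul, sub_zero, one_mul] at a b
        simp [a, show u 1 1 = 0 by simpa [a] using b] at hu
      have := e ![(u 0 0 - d * u 0 1 - 1) / (u 1 0 - d * u 1 1), u 1 0 - d * u 1 1,
        (u 1 1 - 1) / (u 1 0 - d * u 1 1), d] P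
      rw [h, map_zero] at this
      refine Eq.trans (congrArg (fun x => zv x P) ?_) this.symm
      ext i j
      fin_cases i <;> fin_cases j <;> simp <;> field_simp
      · linear_combination (-d) * hu
      · linear_combination (-1) * hu
      · ring
      · rw [mul_comm d] at hd
        field_simp
        ring
  · have t : Y 1 1 = -Y 0 0 := eq_neg_of_add_eq_zero_right (by simpa [trace_fin_two] using hY)
    have a := hN !![0, Y 0 1 + Y 0 0; 0, 0] (by simp) (by simp) P hP
    have b := hN !![0, 0; Y 1 0 - Y 0 0, 0] (by simp) (by simp) P hP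
    have c := hN !![Y 0 0, -Y 0 0; Y 0 0, -Y 0 0] (by simp) (by simp) P hP
    simp only [zd, zv, Fintype.sum_prod_type, Fin.sum_univ_two, t, of_apply, cons_val',
      cons_val_zero, cons_val_one, cons_val_fin_one] at a b c ⊢
    linear_combination a + b + c
  · simpa [Fintype.sum_prod_type, pderiv_X, trace_fin_two] using hY _ hD
  · refine (em _).imp_right fun h0 => h1.antisymm fun Y hY => ?_
    obtain ⟨Z, hZ, Z0⟩ := (Submodule.ne_bot_iff I).1 h0
    have he := h2 !![0, 1; 0, 0] (by simp)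
    have hf := h2 !![0, 0; 1, 0] (by simp)
    have t : ∀ Y ∈ LinearMap.ker (traceLinearMap (Fin 2) k k), Y 1 1 = -Y 0 0 := fun Y hY =>
      eq_neg_of_add_eq_zero_right (by simpa [trace_fin_two] using hY)
    have a : ∀ W ∈ I, W 1 0 ≠ 0 → !![0, 1; 0, 0] ∈ I := fun W hW c => by
      convert I.smul_mem (-2 * W 1 0)⁻¹ (he _ (he _ hW))
      ext i j
      fin_cases i <;> fin_cases j <;> simp [-cons_mul, Matrix.mul_apply] <;> field_simp <;> ring
    have b : !![0, 1; 0, 0] ∈ I := by
      by_contra c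
      have d := fun W hW => not_not.1 (mt (a W hW) c)
      have d1 := d _ hZ
      have d2 := d _ (hf _ hZ)
      have d3 := d _ (hf _ (hf _ hZ))
      simp [-cons_mul, Matrix.mul_apply, t Z (h1 hZ), ← two_mul, sub_eq_add_neg] at d2 d3
      refine Z0 ?_
      ext i j
      fin_cases i <;> fin_cases j <;> simp [t Z (h1 hZ), d1, d2, d3]
    convert add_mem (add_mem (I.smul_mem (Y 0 1) b) (I.smul_mem (-Y 0 0) (hf _ b)))
      (I.smul_mem (-Y 1 0 / 2) (hf _ (hf _ b)))
    ext i j
    fin_cases i <;> fin_cases j <;> simp [t Y hY] <;> ring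

end Pool.Agent.Lib.MP_60cbcc_al.H3Z
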