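import Mathlib

/-!
Inequalities for commuting symmetric contractions.
-/

namespace Pool.Agent.Lib.MP_60cbcc_al.H3Z

open scoped RealInnerProductSpace

variable {E : Type} [SeminormedAddCommGroup E] [InnerProductSpace ℝ E]

/-- Two commuting symmetric contractions with a non-negative mixed energy. -/
structure Ops (R₁ R₂ : Module.End ℝ E) : Prop where
  s₁ : ∀ u v, ⟪R₁ u, v⟫ = ⟪u, R₁ v⟫
  s₂ : ∀ u v, ⟪R₂ u, v⟫ = ⟪u, R₂ v⟫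
  c₁ : ∀ u, ‖R₁ u‖ ≤ ‖u‖
  c₂ : ∀ u, ‖R₂ u‖ ≤ ‖u‖
  comm : Commute R₁ R₂
  pos : ∀ u, 0 ≤ ⟪(1 - R₁) u, (1 - R₂) u⟫

/-- The lazy walk. -/
noncomputable def lazy (R₁ R₂ : Module.End ℝ E) : Module.End ℝ E :=
  (1 / 2 : ℝ) • 1 + (1 / 4 : ℝ) • R₁ + (1 / 4 : ℝ) • R₂

theorem norm_pow_le {R : Module.End ℝ E} (h : ∀ u, ‖R u‖ ≤ ‖u‖) (n : ℕ) (u : E) :
    ‖(R ^ n) u‖ ≤ ‖u‖ := by
  induction n with
  | zero => simp
  | succ n ih =>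
    rw [pow_succ', Module.End.mul_apply]
    exact (h _).trans ih

theorem norm_one_sub_pow {R : Module.End ℝ E} (h : ∀ u, ‖R u‖ ≤ ‖u‖) (n : ℕ) (u : E) :
    ‖(1 - R ^ n) u‖ ≤ n * ‖(1 - R) u‖ := by
  induction n with
  | zero => simp
  | succ n ih =>
    have e : (1 - R ^ (n + 1)) u = (1 - R ^ n) u + (R ^ n) ((1 - R) u) := by
      simp only [LinearMap.sub_apply, Module.End.one_apply, map_sub, pow_succ,
        Module.End.mul_apply]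
      abel
    rw [e]
    have h1 := norm_add_le ((1 - R ^ n) u) ((R ^ n) ((1 - R) u))
    have h2 := norm_pow_le h n ((1 - R) u)
    push_cast
    linarith

theorem symm_pow {R : Module.End ℝ E} (h : ∀ u v, ⟪R u, v⟫ = ⟪u, R v⟫) (n : ℕ) (u v : E) :
    ⟪(R ^ n) u, v⟫ = ⟪u, (R ^ n) v⟫ := by
  induction n generalizing v with
  | zero => simp
  | succ n ih =>
    rw [pow_succ', Module.End.mul_apply, h, ih, ← Module.End.mul_apply, ← pow_succ, pow_succ']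

theorem lower_step {U : Module.End ℝ E} (hs : ∀ u v, ⟪U u, v⟫ = ⟪u, U v⟫)
    (hc : ∀ u, ‖U u‖ ≤ ‖u‖) (ξ : E) :
    (3 * ⟪(U ^ 2) ξ, ξ⟫ - 2 * ⟪(U ^ 3) ξ, ξ⟫) - (3 * ⟪(U ^ 4) ξ, ξ⟫ - 2 * ⟪(U ^ 6) ξ, ξ⟫) ≤
      9 * ‖(U - U ^ 2) ξ‖ ^ 2 := by
  have e2 : ⟪(U ^ 2) ξ, ξ⟫ = ⟪U ξ, U ξ⟫ := by
    rw [show (U ^ 2) ξ = U (U ξ) by simp [pow_succ], hs]
  have e3 : ⟪(U ^ 3) ξ, ξ⟫ = ⟪U (U ξ), U ξ⟫ := by
    rw [show (U ^ 3) ξ = U (U (U ξ)) by simp [pow_succ], hs]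
  have e4 : ⟪(U ^ 4) ξ, ξ⟫ = ⟪U (U ξ), U (U ξ)⟫ := by
    rw [show (U ^ 4) ξ = U (U (U (U ξ))) by simp [pow_succ], hs, hs]
  have e6 : ⟪(U ^ 6) ξ, ξ⟫ = ⟪U (U (U ξ)), U (U (U ξ))⟫ := by
    rw [show (U ^ 6) ξ = U (U (U (U (U (U ξ))))) by simp [pow_succ], hs, hs, hs]
  have e5 : ⟪U (U (U ξ)), U ξ⟫ = ⟪U (U ξ), U (U ξ)⟫ := hs _ _
  have ez : (U - U ^ 2) ξ = U ξ - U (U ξ) := by simp [pow_succ]
  rw [e2, e3, e4, e6, ez]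
  have hU : U (U ξ - U (U ξ)) = U (U ξ) - U (U (U ξ)) := map_sub _ _ _
  have h1 := hc (U ξ - U (U ξ))
  have h2 := real_inner_le_norm (U (U ξ - U (U ξ))) (U ξ - U (U ξ))
  have h3 := real_inner_self_eq_norm_sq (U (U ξ - U (U ξ)))
  have h4 := real_inner_self_eq_norm_sq (U ξ - U (U ξ))
  have h5 := norm_nonneg (U (U ξ - U (U ξ)))
  have h6 := norm_nonneg (U ξ - U (U ξ))
  have h7 : ‖U (U ξ - U (U ξ))‖ * ‖U ξ - U (U ξ)‖ ≤ ‖U ξ - U (U ξ)‖ ^ 2 := by nlinarith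
  have h8 : ‖U (U ξ - U (U ξ))‖ ^ 2 ≤ ‖U ξ - U (U ξ)‖ ^ 2 := by nlinarith
  have h9 := h2.trans h7
  rw [← h3] at h8
  rw [hU] at h8 h9
  generalize U (U (U ξ)) = c at *
  generalize U (U ξ) = b at *
  generalize U ξ = a at *
  simp only [inner_sub_left, inner_sub_right] at h4 h8 h9
  have s1 := real_inner_comm a b
  have s2 := real_inner_comm b c
  linarith

/-- The lower bound, for a symmetric contraction. -/
theorem lower {P : Module.End ℝ E} (hs : ∀ u v, ⟪P u, v⟫ = ⟪u, P v⟫) (hc : ∀ u, ‖P u‖ ≤ ‖u‖)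
    (ξ : E) {k₀ K : ℕ} (h : k₀ ≤ K) :
    (3 * ⟪(P ^ 2 ^ (k₀ + 2)) ξ, ξ⟫ - 2 * ⟪(P ^ (3 * 2 ^ (k₀ + 1))) ξ, ξ⟫) -
      (3 * ⟪(P ^ 2 ^ (K + 2)) ξ, ξ⟫ - 2 * ⟪(P ^ (3 * 2 ^ (K + 1))) ξ, ξ⟫) ≤
      9 * ∑ k ∈ Finset.Ico k₀ K, ‖(P ^ 2 ^ (k + 1) - P ^ 2 ^ (k + 2)) ξ‖ ^ 2 := by
  induction K, h using Nat.le_induction with
  | base => simp
  | succ K hK ih =>
    rw [Finset.sum_Ico_succ_top hK]
    have := lower_step (U := P ^ 2 ^ (K + 1)) (symm_pow hs _) (norm_pow_le hc _) ξ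
    simp only [← pow_mul] at this
    rw [show 2 ^ (K + 1) * 2 = 2 ^ (K + 2) by ring, show 2 ^ (K + 1) * 3 = 3 * 2 ^ (K + 1) by ring,
      show 2 ^ (K + 1) * 4 = 2 ^ (K + 1 + 2) by ring,
      show 2 ^ (K + 1) * 6 = 3 * 2 ^ (K + 1 + 1) by ring] at this
    linarith

variable {R₁ R₂ : Module.End ℝ E}

namespace Ops

theorem swap (h : Ops R₁ R₂) : Ops R₂ R₁ :=
  ⟨h.s₂, h.s₁, h.c₂, h.c₁, h.comm.symm, fun u => by rw [real_inner_comm]; exact h.pos u⟩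

theorem lazy_swap : lazy R₂ R₁ = lazy R₁ R₂ := by unfold lazy; abel

theorem one_sub_lazy : 1 - lazy R₁ R₂ = (1 / 4 : ℝ) • ((1 - R₁) + (1 - R₂)) := by
  unfold lazy; module

theorem lazy_apply (u : E) :
    lazy R₁ R₂ u = (1 / 2 : ℝ) • u + (1 / 4 : ℝ) • R₁ u + (1 / 4 : ℝ) • R₂ u := rfl

theorem lazy_symm (h : Ops R₁ R₂) (u v : E) : ⟪lazy R₁ R₂ u, v⟫ = ⟪u, lazy R₁ R₂ v⟫ := by
  simp only [lazy_apply, inner_add_left, inner_add_right, real_inner_smul_left,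
    real_inner_smul_right, h.s₁, h.s₂]

theorem lazy_le (h : Ops R₁ R₂) (u : E) : ‖lazy R₁ R₂ u‖ ≤ ‖u‖ := by
  rw [lazy_apply]
  have h1 := norm_add₃_le (a := (1 / 2 : ℝ) • u) (b := (1 / 4 : ℝ) • R₁ u)
    (c := (1 / 4 : ℝ) • R₂ u)
  simp only [norm_smul, Real.norm_eq_abs] at h1
  rw [abs_of_pos (by norm_num : (0 : ℝ) < 1 / 2), abs_of_pos (by norm_num : (0 : ℝ) < 1 / 4)] at h1
  have := h.c₁ u
  have := h.c₂ u
  linarith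

theorem comm_lazy (h : Ops R₁ R₂) : Commute R₁ (lazy R₁ R₂) := by
  unfold lazy
  exact (((Commute.one_right _).smul_right _).add_right
    ((Commute.refl _).smul_right _)).add_right (h.comm.smul_right _)

theorem d₁ (h : Ops R₁ R₂) (u : E) : ‖(1 - R₁) u‖ ≤ 4 * ‖(1 - lazy R₁ R₂) u‖ := by
  rw [one_sub_lazy, LinearMap.smul_apply, LinearMap.add_apply, norm_smul, Real.norm_eq_abs,
    abs_of_pos (by norm_num : (0 : ℝ) < 1 / 4)]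
  have h1 := norm_add_sq_real ((1 - R₁) u) ((1 - R₂) u)
  have h2 := h.pos u
  have h3 : ‖(1 - R₁) u‖ ≤ ‖(1 - R₁) u + (1 - R₂) u‖ := by
    apply le_of_sq_le_sq _ (norm_nonneg _) |>.trans le_rfl
    nlinarith [sq_nonneg ‖(1 - R₂) u‖]
  linarith

theorem d₂ (h : Ops R₁ R₂) (u : E) : ‖(1 - R₂) u‖ ≤ 4 * ‖(1 - lazy R₁ R₂) u‖ :=
  lazy_swap (R₁ := R₁) (R₂ := R₂) ▸ h.swap.d₁ u

theorem one_step (h : Ops R₁ R₂) (z : E) :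
    ‖(1 - lazy R₁ R₂) z‖ ^ 2 ≤ ‖z‖ ^ 2 - ‖lazy R₁ R₂ z‖ ^ 2 := by
  set t : E := (1 / 2 : ℝ) • R₁ z + (1 / 2 : ℝ) • R₂ z with ht
  have h1 : ‖t‖ ≤ ‖z‖ := by
    have h1 := norm_add_le ((1 / 2 : ℝ) • R₁ z) ((1 / 2 : ℝ) • R₂ z)
    simp only [norm_smul, Real.norm_eq_abs] at h1
    rw [abs_of_pos (by norm_num : (0 : ℝ) < 1 / 2)] at h1
    have := h.c₁ z
    have := h.c₂ z
    linarith
  have e1 : lazy R₁ R₂ z = (1 / 2 : ℝ) • (z + t) := by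
    rw [lazy_apply, ht]; module
  have e2 : (1 - lazy R₁ R₂) z = (1 / 2 : ℝ) • (z - t) := by
    rw [LinearMap.sub_apply, Module.End.one_apply, e1]; module
  rw [e2, e1, norm_smul, norm_smul, Real.norm_eq_abs, abs_of_pos (by norm_num : (0 : ℝ) < 1 / 2),
    mul_pow, mul_pow, norm_add_sq_real, norm_sub_sq_real]
  have := norm_nonneg t
  nlinarith

theorem decay (h : Ops R₁ R₂) (u : E) (j : ℕ) :
    ‖(1 - lazy R₁ R₂) ((lazy R₁ R₂ ^ j) u)‖ ^ 2 ≤ ‖u‖ ^ 2 / (j + 1) := by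
  have key : ((j : ℝ) + 1) * ‖(1 - lazy R₁ R₂) ((lazy R₁ R₂ ^ j) u)‖ ^ 2 ≤
      ‖u‖ ^ 2 - ‖(lazy R₁ R₂ ^ (j + 1)) u‖ ^ 2 := by
    induction j with
    | zero => simpa using h.one_step u
    | succ j ih =>
      have h1 := h.one_step ((lazy R₁ R₂ ^ (j + 1)) u)
      have e1 : (1 - lazy R₁ R₂) ((lazy R₁ R₂ ^ (j + 1)) u) =
          lazy R₁ R₂ ((1 - lazy R₁ R₂) ((lazy R₁ R₂ ^ j) u)) := by
        simp only [LinearMap.sub_apply, Module.End.one_apply, map_sub, pow_succ',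
          Module.End.mul_apply]
      have h2 := h.lazy_le ((1 - lazy R₁ R₂) ((lazy R₁ R₂ ^ j) u))
      rw [← e1] at h2
      have h3 := pow_le_pow_left₀ (norm_nonneg _) h2 2
      have e2 : (lazy R₁ R₂ ^ (j + 1 + 1)) u = lazy R₁ R₂ ((lazy R₁ R₂ ^ (j + 1)) u) := by
        rw [pow_succ' _ (j + 1), Module.End.mul_apply]
      rw [e2]
      have h4 : (0 : ℝ) ≤ (j : ℝ) + 1 := by positivity
      have h5 := mul_le_mul_of_nonneg_left h3 h4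
      push_cast
      linarith
  rw [le_div_iff₀ (by positivity)]
  nlinarith [sq_nonneg ‖(lazy R₁ R₂ ^ (j + 1)) u‖]

end Ops

end Pool.Agent.Lib.MP_60cbcc_al.H3Z
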