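import Pool.Agent.Lib.MP_60cbcc_al.H3ZSec
import Pool.Agent.Lib.MP_60cbcc_al.H3ZOps

/-!
The contribution of a small invariant set.
-/

set_option linter.unusedSectionVars false

namespace Pool.Agent.Lib.MP_60cbcc_al.H3Z

open MeasureTheory Set Filter Topology
open scoped ENNReal NNReal RealInnerProductSpace

section prob

variable {A : Type} [MeasurableSpace A] {κ : Measure A} [IsProbabilityMeasure κ]
  {H : Type} [NormedAddCommGroup H] [InnerProductSpace ℝ H] [CompleteSpace H]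

theorem bad_var_int {x : A → H} (h₁ : Integrable x κ) (h₂ : Integrable (fun a => ⟪x a, x a⟫) κ)
    (c : H) : Integrable (fun a => ⟪x a - c, x a - c⟫) κ := by
  simp only [real_inner_sub_sub_self]
  exact (h₂.sub ((h₁.inner_const c).const_mul 2)).add (integrable_const _)

theorem bad_var {x : A → H} (h₁ : Integrable x κ) (h₂ : Integrable (fun a => ⟪x a, x a⟫) κ) :
    ∫ a, ⟪x a - ∫ a, x a ∂κ, x a - ∫ a, x a ∂κ⟫ ∂κ =
      ∫ a, ⟪x a, x a⟫ ∂κ - ⟪∫ a, x a ∂κ, ∫ a, x a ∂κ⟫ := by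
  set c := ∫ a, x a ∂κ with hc
  have h3 : ∫ a, ⟪x a, c⟫ ∂κ = ⟪c, c⟫ := by
    simp only [real_inner_comm c]
    exact integral_inner h₁ c
  simp only [real_inner_sub_sub_self]
  rw [integral_add (h₂.sub' ((h₁.inner_const c).const_mul 2)) (integrable_const _),
    integral_sub h₂ ((h₁.inner_const c).const_mul 2), integral_const_mul, h3]
  simp only [integral_const, probReal_univ, one_smul]
  ring

theorem bad_jensen {x : A → H} (h₁ : Integrable x κ) (h₂ : Integrable (fun a => ⟪x a, x a⟫) κ) :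
    ⟪∫ a, x a ∂κ, ∫ a, x a ∂κ⟫ ≤ ∫ a, ⟪x a, x a⟫ ∂κ := by
  rw [← sub_nonneg, ← bad_var h₁ h₂]
  exact integral_nonneg fun _ => real_inner_self_nonneg

theorem bad_pt {t : ℝ} (ht : 0 < t) (s : ℝ) (z : H) {c : H} (hc : ‖c‖ ≤ 1) :
    0 ≤ t * ⟪s, s⟫ + t⁻¹ * ⟪z, z⟫ + 2 * (s * ⟪z, c⟫) := by
  have h1 : |⟪z, c⟫| ≤ ‖z‖ :=
    (abs_real_inner_le_norm z c).trans (mul_le_of_le_one_right (norm_nonneg _) hc)
  have h2 : ⟪z, c⟫ ^ 2 ≤ ‖z‖ ^ 2 := sq_le_sq' (abs_le.1 h1).1 (abs_le.1 h1).2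
  have h3 : t * s ^ 2 + t⁻¹ * ⟪z, c⟫ ^ 2 + 2 * (s * ⟪z, c⟫) = t⁻¹ * (t * s + ⟪z, c⟫) ^ 2 := by
    field_simp
    ring
  have h4 : 0 ≤ t⁻¹ * (t * s + ⟪z, c⟫) ^ 2 := by positivity
  have h5 := mul_le_mul_of_nonneg_left h2 (inv_pos.2 ht).le
  rw [real_inner_self_eq_norm_sq, real_inner_self_eq_norm_sq, Real.norm_eq_abs, sq_abs]
  linarith

theorem bad_cov {t : ℝ} (ht : 0 < t) {β : A → ℝ} {x : A → H} (h₁ : Integrable x κ)
    (h₂ : Integrable (fun a => ⟪x a, x a⟫) κ) (g₁ : Integrable β κ)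
    (g₂ : Integrable (fun a => ⟪β a, β a⟫) κ) (h₃ : Integrable (fun a => β a • x a) κ)
    (hc : ‖∫ a, x a ∂κ‖ ≤ 1) :
    0 ≤ t * (∫ a, ⟪β a, β a⟫ ∂κ - ⟪∫ a, β a ∂κ, ∫ a, β a ∂κ⟫) +
      t⁻¹ * (∫ a, ⟪x a, x a⟫ ∂κ - ⟪∫ a, x a ∂κ, ∫ a, x a ∂κ⟫) +
      2 * (⟪∫ a, β a • x a ∂κ, ∫ a, x a ∂κ⟫ - (∫ a, β a ∂κ) * ⟪∫ a, x a ∂κ, ∫ a, x a ∂κ⟫) := by
  rw [← bad_var h₁ h₂, ← bad_var g₁ g₂]
  set c := ∫ a, x a ∂κ with hc'
  set s := ∫ a, β a ∂κ with hs
  have e : ∀ a, (β a - s) * ⟪x a - c, c⟫ =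
      ⟪c, β a • x a⟫ - β a * ⟪c, c⟫ - s * ⟪c, x a⟫ + s * ⟪c, c⟫ := fun a => by
    rw [inner_sub_left, real_inner_smul_right, real_inner_comm (x a) c]
    ring
  have i1 := h₃.const_inner (𝕜 := ℝ) c
  have i2 := g₁.mul_const ⟪c, c⟫
  have i3 := (h₁.const_inner (𝕜 := ℝ) c).const_mul s
  have i4 : Integrable (fun a => (β a - s) * ⟪x a - c, c⟫) κ := by
    simp only [e]
    exact ((i1.sub i2).sub i3).add (integrable_const _)
  have e2 : ∫ a, (β a - s) * ⟪x a - c, c⟫ ∂κ = ⟪∫ a, β a • x a ∂κ, c⟫ - s * ⟪c, c⟫ := by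
    simp only [e]
    rw [integral_add ((i1.sub' i2).sub' i3) (integrable_const _), integral_sub (i1.sub' i2) i3,
      integral_sub i1 i2, integral_const_mul, integral_mul_const, integral_inner h₃,
      integral_inner h₁, ← hc', ← hs, real_inner_comm c (∫ a, β a • x a ∂κ)]
    simp only [integral_const, probReal_univ, one_smul]
    ring
  have j1 := (bad_var_int g₁ g₂ s).const_mul t
  have j2 := (bad_var_int h₁ h₂ c).const_mul t⁻¹
  rw [← e2, ← integral_const_mul, ← integral_const_mul, ← integral_const_mul,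
    ← integral_add j1 j2, ← integral_add (j1.fun_add j2) (i4.const_mul 2)]
  exact integral_nonneg fun a => bad_pt ht _ _ hc

end prob

variable {Γ G X : Type} [Group Γ] [Countable Γ] [Group G] [TopologicalSpace G]
  [IsTopologicalGroup G] [LocallyCompactSpace G] [SecondCountableTopology G] [T2Space G]
  [MeasurableSpace G] [BorelSpace G] [MeasurableSpace X] [MulAction Γ X] [MeasurableConstSMul Γ X]
  {H : Type} [NormedAddCommGroup H] [InnerProductSpace ℝ H] [CompleteSpace H]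
  {S : Setup Γ G X} {V : Γ → X → H →ₗᵢ[ℝ] H}

/-- The trivial cocycle. -/
def badV : Γ → X → ℝ →ₗᵢ[ℝ] ℝ := fun _ _ => LinearIsometry.id

/-- The pointwise inner product. -/
noncomputable def badIp (u v : Sec S V) : Sec S badV :=
  Sec.mk' (fun y => ⟪u y, v y⟫) (u.meas.inner v.meas)
    (by
      obtain ⟨C, hC⟩ := u.bdd
      obtain ⟨D, hD⟩ := v.bdd
      exact ⟨C * D, fun y => (norm_inner_le_norm _ _).trans
        (mul_le_mul (hC y) (hD y) (norm_nonneg _) ((norm_nonneg _).trans (hC y)))⟩)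
    fun γ x g => Sec.inv_inner u v γ x g

/-- The pointwise product. -/
noncomputable def badSm (b : Sec S badV) (u : Sec S V) : Sec S V :=
  Sec.mk' (fun y => b y • u y) (b.meas.smul u.meas)
    (by
      obtain ⟨C, hC⟩ := b.bdd
      obtain ⟨D, hD⟩ := u.bdd
      exact ⟨C * D, fun y => (norm_smul_le _ _).trans
        (mul_le_mul (hC y) (hD y) (norm_nonneg _) ((norm_nonneg _).trans (hC y)))⟩)
    fun γ x g => by
      rw [b.eqv, u.eqv, LinearIsometry.map_smul]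
      rfl

/-- The constant function. -/
noncomputable def badOne (S : Setup Γ G X) : Sec S badV :=
  Sec.mk' (fun _ => 1) stronglyMeasurable_const ⟨1, fun _ => by simp⟩ fun _ _ _ => rfl

/-- The indicator function. -/
noncomputable def badInd {B : Set (X × G)} (hB : MeasurableSet B) (hI : S.Inv (· ∈ B)) :
    Sec S badV :=
  Sec.mk' (B.indicator fun _ => 1) (stronglyMeasurable_const.indicator hB)
    ⟨1, fun y => by by_cases h : y ∈ B <;> simp [h]⟩
    fun γ x g => by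
      have : ((γ • x, S.j γ * g) ∈ B) = ((x, g) ∈ B) := hI γ x g
      by_cases h : (x, g) ∈ B
      · rw [indicator_of_mem h, indicator_of_mem (this ▸ h)]
        rfl
      · rw [indicator_of_notMem h, indicator_of_notMem (this ▸ h)]
        exact (map_zero _).symm

theorem badIp_apply (u v : Sec S V) (y) : badIp u v y = ⟪u y, v y⟫ := rfl

theorem badSm_apply (b : Sec S badV) (u : Sec S V) (y) : badSm b u y = b y • u y := rfl

theorem bad_inner (f g : Sec S badV) : ⟪f, g⟫ = ∫ y, f y * g y ∂S.m := by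
  rw [Sec.inner_def]
  simp [mul_comm]

theorem bad_int (f g : Sec S badV) : Integrable (fun y => f y * g y) S.m := by
  simpa [mul_comm] using Sec.int_inner f g

theorem bad_mono {f g g' : Sec S badV} (hf : ∀ y, 0 ≤ f y) (h : ∀ y, g y ≤ g' y) :
    ⟪f, g⟫ ≤ ⟪f, g'⟫ := by
  rw [bad_inner, bad_inner]
  exact integral_mono (bad_int _ _) (bad_int _ _) fun y => mul_le_mul_of_nonneg_left (h y) (hf y)

theorem bad_sm (b : Sec S badV) (u v : Sec S V) : ⟪b, badIp u v⟫ = ⟪badSm b u, v⟫ := by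
  rw [bad_inner, Sec.inner_def]
  simp only [badIp_apply, badSm_apply, real_inner_smul_left]

theorem bad_one (u v : Sec S V) : ⟪badOne S, badIp u v⟫ = ⟪u, v⟫ := by
  rw [bad_sm, show badSm (badOne S) u = u from Sec.ext fun y => one_smul _ _]

theorem bad_set {B : Set (X × G)} (hB : MeasurableSet B) (hI : S.Inv (· ∈ B)) (f : Sec S badV) :
    ⟪badInd hB hI, f⟫ = ∫ y in B, f y ∂S.m := by
  rw [bad_inner, ← integral_indicator hB]
  refine integral_congr_ae (ae_of_all _ fun y => ?_)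
  change B.indicator (fun _ => (1 : ℝ)) y * f y = _
  by_cases h : y ∈ B <;> simp [h]

variable (κ : Measure G) [IsProbabilityMeasure κ] [κ.IsInvInvariant]

theorem bad_Av_one : Av S badV κ (badOne S) = badOne S := Sec.ext fun y => by
  rw [Av_apply]
  change ∫ _, (1 : ℝ) ∂κ = 1
  simp

theorem bad_one_Av (f : Sec S badV) : ⟪badOne S, Av S badV κ f⟫ = ⟪badOne S, f⟫ := by
  rw [← Av_symm, bad_Av_one]

theorem bad_Av_nonneg {f : Sec S badV} (hf : ∀ y, 0 ≤ f y) (y) : 0 ≤ Av S badV κ f y := by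
  rw [Av_apply]
  exact integral_nonneg fun _ => hf _

theorem bad_Av_sq (u : Sec S V) (y) :
    badIp (Av S V κ u) (Av S V κ u) y ≤ Av S badV κ (badIp u u) y := by
  rw [badIp_apply, Av_apply, Av_apply]
  exact bad_jensen (int_sl S V u κ _ _) (int_sl S badV (badIp u u) κ _ _)

theorem bad_glob {t : ℝ} (ht : 0 < t) (b : Sec S badV) (q : Sec S V) (hq : ∀ y, ‖q y‖ ≤ 1) :
    0 ≤ t * (⟪b, b⟫ - ⟪Av S badV κ b, Av S badV κ b⟫) +
      t⁻¹ * (⟪q, q⟫ - ⟪Av S V κ q, Av S V κ q⟫) + 2 * (⟪Av S V κ (badSm b q), Av S V κ q⟫ -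
        ⟪Av S badV κ b, badIp (Av S V κ q) (Av S V κ q)⟫) := by
  have := bad_mono (f := badOne S) (g := 0)
    (g' := t • (Av S badV κ (badIp b b) - badIp (Av S badV κ b) (Av S badV κ b)) +
      t⁻¹ • (Av S badV κ (badIp q q) - badIp (Av S V κ q) (Av S V κ q)) +
      (2 : ℝ) • (badIp (Av S V κ (badSm b q)) (Av S V κ q) -
        badIp (badIp (Av S V κ q) (Av S V κ q)) (Av S badV κ b))) (fun _ => zero_le_one)
    (fun y => by
      have h := bad_cov (κ := κ) ht (int_sl S V q κ y.1 y.2) (int_sl S badV (badIp q q) κ _ _)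
        (int_sl S badV b κ y.1 y.2) (int_sl S badV (badIp b b) κ _ _)
        (int_sl S V (badSm b q) κ _ _) (Av_apply κ q y ▸ norm_Av_apply_le κ q hq y)
      simp only [Sec.add_apply, Sec.smul_apply, Sec.sub_apply, Sec.zero_apply, badIp_apply,
        Av_apply, smul_eq_mul, badSm_apply]
      exact h)
  simp only [inner_zero_right, inner_add_right, inner_sub_right, real_inner_smul_right,
    bad_one_Av, bad_one] at this
  rwa [real_inner_comm (Av S badV κ b) (badIp _ _)] at this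

theorem bad_step {t : ℝ} (ht : 0 < t) (b₀ : Sec S badV) (hb : ∀ y, 0 ≤ b₀ y) (q : Sec S V)
    (hq : ∀ y, ‖q y‖ ≤ 1) {b b' : Sec S badV} {q' w : Sec S V} (e₁ : b = Av S badV κ b₀)
    (e₂ : b' = Av S badV κ b) (e₃ : q' = Av S V κ q) (e₄ : w = Av S V κ (q - Av S V κ q')) :
    ⟪b₀, badIp w w⟫ ≤ (⟪b, badIp q q⟫ + t * ⟪b, b⟫ + t⁻¹ * ⟪q, q⟫) -
      (⟪b', badIp q' q'⟫ + t * ⟪b', b'⟫ + t⁻¹ * ⟪q', q'⟫) := by
  have h1 : ⟪b₀, badIp w w⟫ ≤ ⟪b, badIp (q - Av S V κ q') (q - Av S V κ q')⟫ := by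
    rw [e₁, Av_symm, e₄]
    exact bad_mono hb (bad_Av_sq κ _)
  have h2 : ⟪b, badIp (q - Av S V κ q') (q - Av S V κ q')⟫ ≤
      ⟪b, badIp q q - (2 : ℝ) • badIp q (Av S V κ q') + Av S badV κ (badIp q' q')⟫ :=
    bad_mono (e₁ ▸ bad_Av_nonneg κ hb) fun y => by
      have := bad_Av_sq κ q' y
      simp only [Sec.add_apply, Sec.smul_apply, Sec.sub_apply, badIp_apply, smul_eq_mul,
        real_inner_sub_sub_self] at this ⊢
      linarith
  rw [inner_add_right, inner_sub_right, real_inner_smul_right, ← Av_symm, ← e₂,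
    bad_sm b q (Av S V κ q'), ← Av_symm] at h2
  have h3 := bad_glob κ ht b q hq
  rw [← e₂, ← e₃] at h3
  linarith

theorem bad (ν : Measure G) [IsProbabilityMeasure ν] [ν.IsInvInvariant] (ξ : Sec S V)
    (hξ : ∀ y, ‖ξ y‖ ≤ 1) {B : Set (X × G)} (hB : MeasurableSet B) (hI : S.Inv (· ∈ B))
    {t : ℝ} (ht : 0 < t) (k₀ K : ℕ) :
    ∑ k ∈ Finset.Ico k₀ K,
      ∫ y in B, ‖(Av S V ν ^ 2 ^ (k + 1) - Av S V ν ^ 2 ^ (k + 2)) ξ y‖ ^ 2 ∂S.m ≤
      (1 + t) * S.m.real B + 1 / t := by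
  have h0 : ∀ y, 0 ≤ badInd hB hI y := fun y => indicator_nonneg (fun _ _ => zero_le_one) y
  set b : ℕ → Sec S badV := fun k => Av S badV (cpow ν (2 ^ k)) (badInd hB hI) with hb
  set q : ℕ → Sec S V := fun k => Av S V (cpow ν (2 ^ k)) ξ with hq
  have hb0 : ∀ k y, 0 ≤ b k y := fun k => bad_Av_nonneg _ h0
  have hq1 : ∀ k y, ‖q k y‖ ≤ 1 := fun k => norm_Av_apply_le _ ξ hξ
  set Φ : ℕ → ℝ := fun k => ⟪b k, badIp (q k) (q k)⟫ + t * ⟪b k, b k⟫ + t⁻¹ * ⟪q k, q k⟫ with hΦ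
  have step : ∀ k, ∫ y in B, ‖(Av S V ν ^ 2 ^ (k + 1) - Av S V ν ^ 2 ^ (k + 2)) ξ y‖ ^ 2 ∂S.m ≤
      Φ k - Φ (k + 1) := fun k => by
    have := bad_step (cpow ν (2 ^ k)) ht (badInd hB hI) h0 (q k) (hq1 k) (b := b k)
      (b' := b (k + 1)) (q' := q (k + 1))
      (w := (Av S V ν ^ 2 ^ (k + 1) - Av S V ν ^ 2 ^ (k + 2)) ξ) rfl
      (by simp only [hb, Av_cpow, ← Module.End.mul_apply, ← pow_add, pow_succ, mul_two])
      (by simp only [hq, Av_cpow, ← Module.End.mul_apply, ← pow_add, pow_succ, mul_two])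
      (by
        simp only [hq, Av_cpow, map_sub, LinearMap.sub_apply, ← Module.End.mul_apply, ← pow_add]
        congr 3 <;> ring)
    rw [bad_set] at this
    simpa only [badIp_apply, real_inner_self_eq_norm_sq, hΦ] using this
  have pos : ∀ k, 0 ≤ Φ k := fun k => by
    have h1 := bad_mono (g := 0) (g' := badIp (q k) (q k)) (hb0 k)
      fun _ => real_inner_self_nonneg
    rw [inner_zero_right] at h1
    exact add_nonneg (add_nonneg h1 (mul_nonneg ht.le real_inner_self_nonneg))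
      (mul_nonneg (inv_pos.2 ht).le real_inner_self_nonneg)
  have top : Φ k₀ ≤ (1 + t) * S.m.real B + 1 / t := by
    have h1 : ⟪b k₀, badIp (q k₀) (q k₀)⟫ ≤ S.m.real B := by
      refine (bad_mono (g' := badOne S) (hb0 k₀) fun y => ?_).trans_eq ?_
      · rw [badIp_apply, real_inner_self_eq_norm_sq]
        exact pow_le_one₀ (norm_nonneg _) (hq1 k₀ y)
      · rw [hb, Av_symm, bad_Av_one, bad_set]
        change ∫ _ in B, (1 : ℝ) ∂S.m = _
        simp
    have h2 : ⟪b k₀, b k₀⟫ ≤ S.m.real B := by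
      have h3 : ⟪badInd hB hI, badInd hB hI⟫ = S.m.real B := by
        rw [bad_set, setIntegral_congr_fun hB (f := badInd hB hI) (g := fun _ => 1) fun y hy =>
          indicator_of_mem hy fun _ => (1 : ℝ)]
        simp
      rw [← h3, real_inner_self_eq_norm_sq, real_inner_self_eq_norm_sq]
      exact pow_le_pow_left₀ (norm_nonneg _) (norm_Av_le _ _) 2
    have h4 : ⟪q k₀, q k₀⟫ ≤ 1 := by
      rw [real_inner_self_eq_norm_sq]
      exact pow_le_one₀ (norm_nonneg _) (Sec.norm_le _ zero_le_one (hq1 k₀))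
    have h5 := mul_le_mul_of_nonneg_left h2 ht.le
    have h6 := mul_le_mul_of_nonneg_left h4 (inv_pos.2 ht).le
    simp only [hΦ, one_div]
    linarith
  have tele : ∀ n, ∑ k ∈ Finset.Ico k₀ (k₀ + n),
      ∫ y in B, ‖(Av S V ν ^ 2 ^ (k + 1) - Av S V ν ^ 2 ^ (k + 2)) ξ y‖ ^ 2 ∂S.m ≤
      Φ k₀ - Φ (k₀ + n) := fun n => by
    induction n with
    | zero => simp
    | succ n ih =>
      rw [← add_assoc, Finset.sum_Ico_succ_top (Nat.le_add_right _ _)]
      linarith [step (k₀ + n)]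
  rcases le_total k₀ K with h | h
  · obtain ⟨n, rfl⟩ := Nat.exists_eq_add_of_le h
    linarith [tele n, pos (k₀ + n)]
  · rw [Finset.Ico_eq_empty_of_le h, Finset.sum_empty]
    exact (pos k₀).trans top

end Pool.Agent.Lib.MP_60cbcc_al.H3Z
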