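import Pool.Agent.Lib.MP_60cbcc_al.H3ZWalk

/-!
Differences of averages through local energies; the truncation map.
-/

set_option linter.unusedSectionVars false

namespace Pool.Agent.Lib.MP_60cbcc_al.H3Z

open MeasureTheory Set Filter Topology
open scoped ENNReal NNReal RealInnerProductSpace Pointwise

variable {H : Type} [NormedAddCommGroup H] [InnerProductSpace ℝ H] [CompleteSpace H]

theorem boxA_jensen {α : Type} [MeasurableSpace α] (μ : Measure α) [IsProbabilityMeasure μ]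
    {f : α → H} (hf : StronglyMeasurable f) : ‖∫ a, f a ∂μ‖ₑ ^ 2 ≤ ∫⁻ a, ‖f a‖ₑ ^ 2 ∂μ := by
  have h1 := ENNReal.lintegral_mul_le_Lp_mul_Lq μ Real.HolderConjugate.two_two
    hf.enorm.aemeasurable (g := fun _ => 1) aemeasurable_const
  simp only [Pi.mul_apply, mul_one, ENNReal.one_rpow, lintegral_const, measure_univ,
    ENNReal.rpow_two, one_pow] at h1
  refine (pow_le_pow_left' ((enorm_integral_le_lintegral_enorm f).trans h1) 2).trans_eq ?_
  rw [← ENNReal.rpow_two, ← ENNReal.rpow_mul]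
  simp

theorem boxA_ofReal {α β : Type} [MeasurableSpace α] [MeasurableSpace β] (μ : Measure α)
    (ν : Measure β) [IsFiniteMeasure μ] [IsFiniteMeasure ν] {F : α → β → ℝ}
    (hF : Measurable (Function.uncurry F)) (h0 : ∀ a b, 0 ≤ F a b) {B : ℝ}
    (hB : ∀ a b, F a b ≤ B) :
    ∫⁻ a, ∫⁻ b, ENNReal.ofReal (F a b) ∂ν ∂μ = ENNReal.ofReal (∫ a, ∫ b, F a b ∂ν ∂μ) := by
  have h1 : Integrable (Function.uncurry F) (μ.prod ν) :=
    Integrable.of_bound hF.aestronglyMeasurable B (ae_of_all _ fun z =>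
      (Real.norm_of_nonneg (h0 _ _)).trans_le (hB _ _))
  rw [integral_integral h1]
  exact ((ofReal_integral_eq_lintegral_ofReal h1 (ae_of_all _ fun z => h0 _ _)).trans
    (lintegral_prod _ hF.ennreal_ofReal.aemeasurable)).symm

section
variable {L : Type} [Group L] [TopologicalSpace L] [IsTopologicalGroup L] [LocallyCompactSpace L]
  [SecondCountableTopology L] [T2Space L] [MeasurableSpace L] [BorelSpace L]

theorem Walk.boxA_shift (W : Walk L) (g : L) {D : Set L} (hD : MeasurableSet D)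
    {F F' : L → ℝ≥0∞} (h : ∀ s ∈ W.S, g * s ∈ D ∧ F s ≤ F' (g * s)) :
    ∫⁻ s, F s ∂W.r ≤ W.M * ∫⁻ k in D, F' k ∂W.lam := by
  refine (lintegral_mono' W.le le_rfl).trans ?_
  rw [lintegral_smul_measure, ← lintegral_indicator hD, ← lintegral_indicator W.cpt.measurableSet,
    ← lintegral_mul_left_eq_self (D.indicator F') g]
  refine mul_le_mul_right (lintegral_mono fun s => ?_) _
  by_cases hs : s ∈ W.S
  · rw [indicator_of_mem hs, indicator_of_mem (h s hs).1]
    exact (h s hs).2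
  · rw [indicator_of_notMem hs]
    exact zero_le

/-- The difference of two averages is bounded by a local energy. -/
theorem Walk.boxA_one (W : Walk L) {K : Set L} (hK : IsCompact K) :
    ∃ (K' : Set L) (N : ℕ) (C : ℝ≥0), IsCompact K' ∧ ∀ f : L → H, StronglyMeasurable f →
      (∃ B, ∀ s, ‖f s‖ ≤ B) → ∀ Φ : L → L → ℝ≥0∞,
      (∀ k t, k ∈ K' → k * t ∈ K' → ‖f (k * t) - f k‖ₑ ^ 2 ≤ Φ k t) → ∀ a ∈ K, ∀ a' ∈ K,
      ‖∫ s, f (a' * s) ∂W.r - ∫ s, f (a * s) ∂W.r‖ₑ ^ 2 ≤
        C * ∫⁻ k in K', ∫⁻ t, Φ k t ∂cpow W.r N ∂W.lam := by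
  have h1 : IsCompact (K * W.S) := hK.mul W.cpt
  have h2 : IsCompact ((K * W.S)⁻¹ * (K * W.S)) := h1.inv.mul h1
  obtain ⟨N, c, hc⟩ := W.dom _ h2
  refine ⟨K * W.S, N, W.M * (W.M * c), h1, fun f hf ⟨B, hB⟩ Φ hΦ a ha a' ha' => ?_⟩
  have m : ∀ g : L, StronglyMeasurable fun s => f (g * s) := fun g =>
    hf.comp_measurable (measurable_const_mul g)
  have i : ∀ g : L, Integrable (fun s => f (g * s)) W.r := fun g =>
    Integrable.of_bound (m g).aestronglyMeasurable B (ae_of_all _ fun _ => hB _)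
  have h3 : ∀ k ∈ K * W.S, ‖∫ s, f (a' * s) ∂W.r - f k‖ₑ ^ 2 ≤
      (W.M * c : ℝ≥0) * ∫⁻ t, Φ k t ∂cpow W.r N := fun k hk => by
    have e : ∫ s, f (a' * s) ∂W.r - f k = ∫ s, (f (a' * s) - f k) ∂W.r := by
      rw [integral_sub (i a') (integrable_const _)]
      simp
    rw [e]
    refine (boxA_jensen _ ((m a').sub stronglyMeasurable_const)).trans ?_
    refine (W.boxA_shift (k⁻¹ * a') h2.measurableSet (F' := Φ k) fun s hs => ⟨?_, ?_⟩).trans ?_
    · rw [mul_assoc]
      exact mul_mem_mul (inv_mem_inv.2 hk) (mul_mem_mul ha' hs)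
    · have e' : k * (k⁻¹ * a' * s) = a' * s := by group
      have := hΦ k (k⁻¹ * a' * s) hk (e' ▸ mul_mem_mul ha' hs)
      rwa [e'] at this
    · rw [ENNReal.coe_mul, mul_assoc]
      refine mul_le_mul_right ((lintegral_mono' hc le_rfl).trans_eq ?_) _
      rw [lintegral_smul_measure]
      rfl
  have e : ∫ s, f (a' * s) ∂W.r - ∫ s, f (a * s) ∂W.r =
      ∫ s, (∫ s, f (a' * s) ∂W.r - f (a * s)) ∂W.r := by
    rw [integral_sub (integrable_const _) (i a)]
    simp
  rw [e]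
  refine (boxA_jensen _ (stronglyMeasurable_const.sub (m a))).trans ?_
  refine (W.boxA_shift a h1.measurableSet
    (F' := fun k => (W.M * c : ℝ≥0) * ∫⁻ t, Φ k t ∂cpow W.r N) fun s hs =>
    ⟨mul_mem_mul ha hs, h3 _ (mul_mem_mul ha hs)⟩).trans_eq ?_
  rw [lintegral_const_mul' _ _ ENNReal.coe_ne_top, ENNReal.coe_mul W.M (W.M * c), mul_assoc]

end

/-- Continuous monotone maps of linear growth commuting with linear isometries. -/
structure Mon (φ : H → H) : Prop where
  cont : Continuous φ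
  le : ∀ z, ‖φ z‖ ≤ ‖z‖
  iso : ∀ (T : H →ₗᵢ[ℝ] H) z, φ (T z) = T (φ z)
  mono : ∀ z z', 0 ≤ ⟪z - z', φ z - φ z'⟫

theorem mon_id : Mon (id : H → H) :=
  ⟨continuous_id, fun _ => le_rfl, fun _ _ => rfl, fun _ _ => real_inner_self_nonneg⟩

/-- The radial truncation. -/
noncomputable def trunc (τ : ℝ) (z : H) : H := (τ / max τ ‖z‖) • z

theorem trunc_mul {τ : ℝ} (hτ : 0 < τ) (p : ℝ) : τ / max τ p * p = min τ p := by
  rcases le_total τ p with h | h
  · rw [max_eq_right h, min_eq_left h, div_mul_cancel₀ _ (hτ.trans_le h).ne']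
  · rw [max_eq_left h, min_eq_right h, div_self hτ.ne', one_mul]

theorem norm_trunc {τ : ℝ} (hτ : 0 < τ) (z : H) : ‖trunc τ z‖ = min τ ‖z‖ := by
  rw [trunc, norm_smul, Real.norm_of_nonneg (by positivity), trunc_mul hτ]

theorem trunc_eq {τ : ℝ} (hτ : 0 < τ) {z : H} (h : ‖z‖ ≤ τ) : trunc τ z = z := by
  rw [trunc, max_eq_left h, div_self hτ.ne', one_smul]

theorem mon_trunc {τ : ℝ} (hτ : 0 < τ) : Mon (trunc τ : H → H) where
  cont := (continuous_const.div (continuous_const.max continuous_norm)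
    fun _ => (lt_max_of_lt_left hτ).ne').smul continuous_id
  le z := (norm_trunc hτ z).trans_le (min_le_right _ _)
  iso T z := by simp only [trunc, T.norm_map, map_smul]
  mono z z' := by
    have h1 := trunc_mul hτ ‖z‖
    have h2 := trunc_mul hτ ‖z'‖
    have h3 : 0 ≤ (‖z‖ - ‖z'‖) * (min τ ‖z‖ - min τ ‖z'‖) := by
      rcases le_total ‖z‖ ‖z'‖ with h | h
      · exact mul_nonneg_of_nonpos_of_nonpos (sub_nonpos.2 h)
          (sub_nonpos.2 (min_le_min_left _ h))
      · exact mul_nonneg (sub_nonneg.2 h) (sub_nonneg.2 (min_le_min_left _ h))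
    have h4 : 0 ≤ τ / max τ ‖z‖ + τ / max τ ‖z'‖ := by positivity
    have h5 := mul_le_mul_of_nonneg_left (real_inner_le_norm z z') h4
    rw [← h1, ← h2] at h3
    simp only [trunc, inner_sub_left, inner_sub_right, real_inner_smul_right,
      real_inner_self_eq_norm_sq, real_inner_comm z z']
    nlinarith

end Pool.Agent.Lib.MP_60cbcc_al.H3Z
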