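import Pool.Agent.Lib.MP_60cbcc_al.H3ZLoc
import Pool.Agent.Lib.MP_60cbcc_al.H3ZBoxA

/-!
Local uniform bounds for mixed second differences; the truncation estimate.
-/

set_option linter.unusedSectionVars false

namespace Pool.Agent.Lib.MP_60cbcc_al.H3Z

open MeasureTheory Set Filter Topology
open scoped ENNReal NNReal RealInnerProductSpace

variable {Γ G X G₁ G₂ : Type} [Group Γ] [Countable Γ] [Group G] [TopologicalSpace G]
  [IsTopologicalGroup G] [LocallyCompactSpace G] [SecondCountableTopology G] [T2Space G]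
  [MeasurableSpace G] [BorelSpace G] [MeasurableSpace X] [MulAction Γ X] [MeasurableConstSMul Γ X]
  [Group G₁] [TopologicalSpace G₁] [IsTopologicalGroup G₁] [LocallyCompactSpace G₁]
  [SecondCountableTopology G₁] [T2Space G₁] [MeasurableSpace G₁] [BorelSpace G₁]
  [Group G₂] [TopologicalSpace G₂] [IsTopologicalGroup G₂] [LocallyCompactSpace G₂]
  [SecondCountableTopology G₂] [T2Space G₂] [MeasurableSpace G₂] [BorelSpace G₂]
  {H : Type} [NormedAddCommGroup H] [InnerProductSpace ℝ H] [CompleteSpace H]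

/-- Composition of a section with a map commuting with isometries. -/
def Mon.sec {S : Setup Γ G X} {V : Γ → X → H →ₗᵢ[ℝ] H} {φ : H → H} (hφ : Mon φ) (w : Sec S V) :
    Sec S V :=
  Sec.mk' (fun y => φ (w y)) (hφ.cont.comp_stronglyMeasurable w.meas)
    (w.bdd.imp fun _ hC y => (hφ.le _).trans (hC y)) fun γ x g => by rw [w.eqv, hφ.iso]

namespace Spl

variable (P : Spl G G₁ G₂) (S : Setup Γ G X) (V : Γ → X → H →ₗᵢ[ℝ] H)
  {K₁ : Set G₁} {K₂ : Set G₂}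

theorem box_meas (v : Sec S V) (x : X) (b : G₂) :
    StronglyMeasurable fun a => v (x, P.e (a, b)) :=
  v.meas.comp_measurable (measurable_const.prodMk
    (P.e.continuous_toFun.comp (Continuous.prodMk_left b)).measurable)

theorem box_sub (v v' : Sec S V) (x : X) (a : G₁) (b b' : G₂) :
    ∫ s, (v (x, P.e (a * s, b)) - v' (x, P.e (a * s, b'))) ∂P.W₁.r =
      P.R₁ S V v (x, P.e (a, b)) - P.R₁ S V v' (x, P.e (a, b')) := by
  have i : ∀ (v : Sec S V) (b : G₂), Integrable (fun s => v (x, P.e (a * s, b))) P.W₁.r :=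
    fun v b => v.bdd.elim fun B hB => Integrable.of_bound ((P.box_meas S V v x b).comp_measurable
      (measurable_const_mul a)).aestronglyMeasurable B (ae_of_all _ fun _ => hB _)
  rw [integral_sub (i v b) (i v' b'), R₁_apply, R₁_apply]

theorem box_two (h₁ : IsCompact K₁) (h₂ : IsCompact K₂) :
    ∃ (K₁' : Set G₁) (K₂' : Set G₂) (N₁ N₂ : ℕ) (C : ℝ≥0), IsCompact K₁' ∧ IsCompact K₂' ∧
      ∀ (u : Sec S V) (x : X) (Φ : G₁ → G₁ → G₂ → G₂ → ℝ≥0∞),
      (∀ k s l t, k ∈ K₁' → k * s ∈ K₁' → l ∈ K₂' → l * t ∈ K₂' →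
        ‖u (x, P.e (k * s, l * t)) - u (x, P.e (k, l * t)) -
          (u (x, P.e (k * s, l)) - u (x, P.e (k, l)))‖ₑ ^ 2 ≤ Φ k s l t) →
      ∀ a ∈ K₁, ∀ a' ∈ K₁, ∀ b ∈ K₂, ∀ b' ∈ K₂,
      ‖P.R₁ S V (P.R₂ S V u) (x, P.e (a, b)) - P.R₁ S V (P.R₂ S V u) (x, P.e (a', b)) -
        P.R₁ S V (P.R₂ S V u) (x, P.e (a, b')) + P.R₁ S V (P.R₂ S V u) (x, P.e (a', b'))‖ₑ ^ 2 ≤
      C * ∫⁻ k in K₁', ∫⁻ s, ∫⁻ l in K₂', ∫⁻ t, Φ k s l t ∂cpow P.W₂.r N₂ ∂P.W₂.lam
        ∂cpow P.W₁.r N₁ ∂P.W₁.lam := by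
  obtain ⟨K₁', N₁, C₁, k₁, H₁⟩ := P.W₁.boxA_one (H := H) h₁
  obtain ⟨K₂', N₂, C₂, k₂, H₂⟩ := P.W₂.boxA_one (H := H) h₂
  refine ⟨K₁', K₂', N₁, N₂, C₁ * C₂, k₁, k₂, fun u x Φ hΦ a ha a' ha' b hb b' hb' => ?_⟩
  obtain ⟨B, hB⟩ := u.bdd
  obtain ⟨B', hB'⟩ := (P.R₂ S V u).bdd
  have h3 := H₁ (fun k => P.R₂ S V u (x, P.e (k, b')) - P.R₂ S V u (x, P.e (k, b)))
    ((P.box_meas S V _ x b').sub (P.box_meas S V _ x b))
    ⟨B' + B', fun _ => norm_sub_le_of_le (hB' _) (hB' _)⟩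
    (fun k s => C₂ * ∫⁻ l in K₂', ∫⁻ t, Φ k s l t ∂cpow P.W₂.r N₂ ∂P.W₂.lam)
    (fun k s hk hs => by
      have h4 := H₂ (fun l => u (x, P.e (k * s, l)) - u (x, P.e (k, l)))
        ((P.swap.box_meas S V u x (k * s)).sub (P.swap.box_meas S V u x k))
        ⟨B + B, fun _ => norm_sub_le_of_le (hB _) (hB _)⟩ (Φ k s)
        (fun l t hl ht => hΦ k s l t hk hs hl ht) b hb b' hb'
      have e : ∀ b : G₂, ∫ t, (u (x, P.e (k * s, b * t)) - u (x, P.e (k, b * t))) ∂P.W₂.r =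
          P.R₂ S V u (x, P.e (k * s, b)) - P.R₂ S V u (x, P.e (k, b)) := fun b =>
        P.swap.box_sub S V u u x b (k * s) k
      rw [e, e, sub_sub_sub_comm] at h4
      exact h4) a ha a' ha'
  rw [box_sub, box_sub] at h3
  simp only [lintegral_const_mul' _ _ (ENNReal.coe_ne_top (r := C₂))] at h3
  rw [ENNReal.coe_mul, mul_assoc]
  convert h3 using 3
  abel

theorem box_energy (N : ℕ) (p q : Sec S V) :
    ∫ y, ∫ t, ⟪p (y.1, y.2 * P.i₂ t) - p y, q (y.1, y.2 * P.i₂ t) - q y⟫ ∂cpow P.W₂.r N ∂S.m =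
      2 * ⟪(1 - P.R₂ S V ^ N) p, q⟫ := by
  have h1 := energy (cpow P.ν₂ N) p q
  rw [Av_cpow] at h1
  refine Eq.trans (integral_congr_ae (ae_of_all _ fun y => ?_)) h1
  have m : ∀ v : Sec S V, StronglyMeasurable fun h => v (y.1, y.2 * h) - v y := fun v =>
    (v.meas.comp_measurable (by fun_prop)).sub stronglyMeasurable_const
  simp only
  rw [ν₂, ← cpow_map _ _ P.cont_i₂.measurable, integral_map P.cont_i₂.measurable.aemeasurable
    ((m p).inner (m q)).aestronglyMeasurable]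

theorem box_mixed (N : ℕ) (p q : Sec S V) :
    Integrable (fun s => ⟪Tr S V (P.i₁ s) p - p, Tr S V (P.i₁ s) q - q⟫) (cpow P.W₁.r N) ∧
    ∫ s, ⟪Tr S V (P.i₁ s) p - p, Tr S V (P.i₁ s) q - q⟫ ∂cpow P.W₁.r N =
      2 * ⟪p, (1 - P.R₁ S V ^ N) q⟫ := by
  have i : ∀ p q : Sec S V, Integrable (fun s => ⟪Tr S V (P.i₁ s) p, q⟫) (cpow P.W₁.r N) :=
    fun p q => Integrable.of_bound
      ((meas_inner_Tr p q).comp P.cont_i₁.measurable).aestronglyMeasurable (‖p‖ * ‖q‖)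
      (ae_of_all _ fun s => (abs_real_inner_le_norm _ _).trans_eq (by rw [norm_Tr]))
  have j : ∀ p q : Sec S V, ∫ s, ⟪Tr S V (P.i₁ s) p, q⟫ ∂cpow P.W₁.r N =
      ⟪(P.R₁ S V ^ N) p, q⟫ := fun p q => by
    rw [R₁, ← Av_cpow, inner_Av, ν₁, ← cpow_map _ _ P.cont_i₁.measurable,
      integral_map P.cont_i₁.measurable.aemeasurable (meas_inner_Tr p q).aestronglyMeasurable]
  have e : (fun s => ⟪Tr S V (P.i₁ s) p - p, Tr S V (P.i₁ s) q - q⟫) = fun s =>
      2 * ⟪p, q⟫ - (⟪Tr S V (P.i₁ s) p, q⟫ + ⟪Tr S V (P.i₁ s) q, p⟫) := funext fun s => by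
    rw [inner_sub_left, inner_sub_right, inner_sub_right, inner_Tr,
      real_inner_comm (Tr S V (P.i₁ s) q) p]
    ring
  rw [e]
  have i' : Integrable (fun s => ⟪Tr S V (P.i₁ s) p, q⟫ + ⟪Tr S V (P.i₁ s) q, p⟫)
      (cpow P.W₁.r N) := (i p q).add (i q p)
  refine ⟨(integrable_const _).sub i', ?_⟩
  rw [integral_sub (integrable_const _) i', integral_add (i p q) (i q p), j, j,
    symm_pow (P.ops S V).s₁, real_inner_comm p, LinearMap.sub_apply, inner_sub_right]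
  simp only [integral_const, probReal_univ, one_smul, Module.End.one_apply]
  ring

theorem box_comm (N : ℕ) (s : G₁) (u : Sec S V) :
    (1 - P.R₂ S V ^ N) (Tr S V (P.i₁ s) u - u) =
      Tr S V (P.i₁ s) ((1 - P.R₂ S V ^ N) u) - (1 - P.R₂ S V ^ N) u := by
  rw [map_sub]
  congr 1
  exact (LinearMap.congr_fun
    ((Commute.one_right _).sub_right ((P.Tr_comm (S := S) (V := V) s).pow_right N)).eq u).symm

theorem box_phi (h₁ : IsCompact K₁) (h₂ : IsCompact K₂) :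
    ∃ (K₁' : Set G₁) (K₂' : Set G₂) (N₁ N₂ : ℕ) (C : ℝ), IsCompact K₁' ∧ IsCompact K₂' ∧ 0 ≤ C ∧
      ∀ (u : Sec S V) (φ : H → H) (hφ : Mon φ) (c : ℝ), 0 ≤ c →
      ((∀ s, 0 ≤ ⟪Tr S V (P.i₁ s) ((1 - P.R₂ S V ^ N₂) u) - (1 - P.R₂ S V ^ N₂) u,
          hφ.sec (Tr S V (P.i₁ s) u - u)⟫) →
        ∫⁻ s, ENNReal.ofReal (2 * ⟪Tr S V (P.i₁ s) ((1 - P.R₂ S V ^ N₂) u) -
          (1 - P.R₂ S V ^ N₂) u, hφ.sec (Tr S V (P.i₁ s) u - u)⟫) ∂cpow P.W₁.r N₁ ≤
        ENNReal.ofReal c) →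
      ∃ s, Maj S.μ s (C * c) ∧ ∀ x, (∀ a ∈ K₁', ∀ a' ∈ K₁', ∀ b ∈ K₂',
        φ (u (x, P.e (a, b)) - u (x, P.e (a', b))) = u (x, P.e (a, b)) - u (x, P.e (a', b))) →
        BoxLe (fun y => P.R₁ S V (P.R₂ S V u) (x, P.e y)) K₁ K₂ √(s x) := by
  obtain ⟨K₁', K₂', N₁, N₂, C, k₁, k₂, H₁⟩ := P.box_two S V h₁ h₂
  obtain ⟨C', H₂⟩ := P.loc S k₁ k₂
  refine ⟨K₁', K₂', N₁, N₂, C * C', k₁, k₂, by positivity, fun u φ hφ c hc hle => ?_⟩
  obtain ⟨B, hB⟩ := u.bdd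
  set w : G₁ → Sec S V := fun s => Tr S V (P.i₁ s) u - u with hw
  set Ψ : X × G → G₁ → G₂ → ℝ := fun y s t =>
    ⟪w s (y.1, y.2 * P.i₂ t) - w s y, φ (w s (y.1, y.2 * P.i₂ t)) - φ (w s y)⟫ with hΨ
  have m1 := P.cont_i₁.measurable
  have m2 := P.cont_i₂.measurable
  have mw : StronglyMeasurable fun z : (X × G) × G₁ => w z.2 z.1 :=
    (u.meas.comp_measurable (g := fun z : (X × G) × G₁ => (z.1.1, z.1.2 * P.i₁ z.2))
      (by fun_prop)).sub (u.meas.comp_measurable measurable_fst)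
  have mΨ : Measurable fun z : ((X × G) × G₁) × G₂ => Ψ z.1.1 z.1.2 z.2 := by
    have a := mw.comp_measurable
      (g := fun z : ((X × G) × G₁) × G₂ => ((z.1.1.1, z.1.1.2 * P.i₂ z.2), z.1.2)) (by fun_prop)
    have b := mw.comp_measurable (g := fun z : ((X × G) × G₁) × G₂ => z.1) (by fun_prop)
    exact ((a.sub b).inner ((hφ.cont.comp_stronglyMeasurable a).sub
      (hφ.cont.comp_stronglyMeasurable b))).measurable
  have p0 : ∀ y s t, 0 ≤ Ψ y s t := fun y s t => hφ.mono _ _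
  have bw : ∀ s y, ‖w s y‖ ≤ B + B := fun s y => norm_sub_le_of_le (hB _) (hB _)
  have p1 : ∀ y s t, Ψ y s t ≤ (B + B + (B + B)) * (B + B + (B + B)) := fun y s t =>
    (real_inner_le_norm _ _).trans (mul_le_mul (norm_sub_le_of_le (bw _ _) (bw _ _))
      (norm_sub_le_of_le ((hφ.le _).trans (bw _ _)) ((hφ.le _).trans (bw _ _))) (norm_nonneg _)
      ((norm_nonneg _).trans (norm_sub_le_of_le (bw s y) (bw s y))))
  have mI : Measurable fun z : (X × G) × G₁ =>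
      ∫⁻ t, ENNReal.ofReal (Ψ z.1 z.2 t) ∂cpow P.W₂.r N₂ :=
    mΨ.ennreal_ofReal.lintegral_prod_right'
  set N : X × G → ℝ≥0∞ := fun y =>
    ∫⁻ s, ∫⁻ t, ENNReal.ofReal (Ψ y s t) ∂cpow P.W₂.r N₂ ∂cpow P.W₁.r N₁ with hN
  have mN : Measurable N := mI.lintegral_prod_right'
  have iN : S.Inv N := fun γ x g => by
    simp only [hN, hΨ, mul_assoc, Sec.eqv, hφ.iso, ← map_sub, LinearIsometry.inner_map_map]
  have bN : ∀ y, N y ≤ ENNReal.ofReal ((B + B + (B + B)) * (B + B + (B + B))) := fun y =>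
    lintegral_le_const (ae_of_all _ fun s => lintegral_le_const (ae_of_all _ fun t =>
      ENNReal.ofReal_le_ofReal (p1 y s t)))
  have en : ∀ s, ∫ y, ∫ t, Ψ y s t ∂cpow P.W₂.r N₂ ∂S.m = 2 * ⟪Tr S V (P.i₁ s)
      ((1 - P.R₂ S V ^ N₂) u) - (1 - P.R₂ S V ^ N₂) u, hφ.sec (w s)⟫ := fun s => by
    rw [← box_comm]
    exact P.box_energy S V N₂ (w s) (hφ.sec (w s))
  have lN : ∫⁻ y, N y ∂S.m ≤ ENNReal.ofReal c := by
    refine le_trans (le_of_eq ?_) (hle fun s => ?_)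
    · rw [hN, lintegral_lintegral_swap mI.aemeasurable]
      refine lintegral_congr fun s => ?_
      rw [← en]
      exact boxA_ofReal _ _ (mΨ.comp (f := fun z : (X × G) × G₂ => ((z.1, s), z.2))
        (by fun_prop)) (fun y t => p0 y s t) fun y t => p1 y s t
    · have : 0 ≤ ∫ y, ∫ t, Ψ y s t ∂cpow P.W₂.r N₂ ∂S.m :=
        integral_nonneg fun y => integral_nonneg fun t => p0 y s t
      rw [en] at this
      linarith
  have me : Measurable P.e := P.e.continuous_toFun.measurable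
  set s : X → ℝ≥0∞ := fun x => C * ∫⁻ a in K₁', ∫⁻ b in K₂', N (x, P.e (a, b)) ∂P.W₂.lam
    ∂P.W₁.lam with hs
  have ms : Measurable s := by
    refine Measurable.const_mul (Measurable.lintegral_prod_right'
      (f := fun z : X × G₁ => ∫⁻ b in K₂', N (z.1, P.e (z.2, b)) ∂P.W₂.lam) ?_) _
    exact Measurable.lintegral_prod_right'
      (f := fun z : (X × G₁) × G₂ => N (z.1.1, P.e (z.1.2, z.2))) (mN.comp (by fun_prop))
  have fs : ∀ x, s x ≠ ⊤ := fun x => by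
    refine ENNReal.mul_ne_top ENNReal.coe_ne_top (ne_top_of_le_ne_top ?_
      (lintegral_mono fun a => lintegral_mono fun b => bN _))
    simp only [lintegral_const, Measure.restrict_apply_univ]
    exact ENNReal.mul_ne_top (ENNReal.mul_ne_top ENNReal.ofReal_ne_top k₂.measure_ne_top)
      k₁.measure_ne_top
  have ls : ∫⁻ x, s x ∂S.μ ≤ ENNReal.ofReal (C * C' * c) := by
    rw [hs, lintegral_const_mul' _ _ ENNReal.coe_ne_top, mul_assoc,
      ENNReal.ofReal_mul C.coe_nonneg, ENNReal.ofReal_mul C'.coe_nonneg, ENNReal.ofReal_coe_nnreal,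
      ENNReal.ofReal_coe_nnreal]
    exact mul_le_mul_right ((H₂ N mN iN).trans (mul_le_mul_right lN _)) _
  refine ⟨fun x => (s x).toReal, ⟨ms.ennreal_toReal, integrable_toReal_of_lintegral_ne_top
    ms.aemeasurable (ne_top_of_le_ne_top ENNReal.ofReal_ne_top ls), fun _ => ENNReal.toReal_nonneg,
    ?_⟩, fun x hx a ha a' ha' b hb b' hb' => ?_⟩
  · rw [integral_toReal ms.aemeasurable (ae_of_all _ fun x => (fs x).lt_top)]
    exact ENNReal.toReal_le_of_le_ofReal (by positivity) ls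
  · have h3 := H₁ u x (fun k s l t => ENNReal.ofReal (Ψ (x, P.e (k, l)) s t))
      (fun k s l t hk hks hl hlt => by
        simp only [hΨ, hw, Sec.sub_apply, Tr_apply, mul_i₁, mul_i₂, hx _ hks _ hk _ hl,
          hx _ hks _ hk _ hlt, real_inner_self_eq_norm_sq]
        rw [← ofReal_norm, ENNReal.ofReal_pow (norm_nonneg _)]) a ha a' ha' b hb b' hb'
    have h4 := h3.trans_eq (c := s x) (by
      refine congrArg _ (lintegral_congr fun k => lintegral_lintegral_swap ?_)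
      exact (mI.comp (f := fun z : G₁ × G₂ => ((x, P.e (k, z.2)), z.1))
        (by fun_prop)).aemeasurable)
    refine Real.le_sqrt_of_sq_le ?_
    rw [← ofReal_norm, ← ENNReal.ofReal_pow (norm_nonneg _)] at h4
    exact (ENNReal.ofReal_le_iff_le_toReal (fs x)).1 h4

theorem loc1 (h₁ : IsCompact K₁) (h₂ : IsCompact K₂) : ∃ C : ℝ, 0 ≤ C ∧ ∀ u : Sec S V,
    ∃ s, Maj S.μ s (C * (‖(1 - P.R₁ S V) u‖ * ‖(1 - P.R₂ S V) u‖)) ∧ ∀ x,
      BoxLe (fun y => P.R₁ S V (P.R₂ S V u) (x, P.e y)) K₁ K₂ √(s x) := by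
  obtain ⟨K₁', K₂', N₁, N₂, C, -, -, hC, H₁⟩ := P.box_phi S V h₁ h₂
  refine ⟨C * (4 * N₁ * N₂), by positivity, fun u => ?_⟩
  obtain ⟨s, h3, h4⟩ := H₁ u id mon_id
    (4 * N₁ * N₂ * (‖(1 - P.R₁ S V) u‖ * ‖(1 - P.R₂ S V) u‖)) (by positivity) fun h0 => by
      obtain ⟨i, e⟩ := P.box_mixed S V N₁ ((1 - P.R₂ S V ^ N₂) u) u
      refine (ofReal_integral_eq_lintegral_ofReal (i.const_mul 2)
        (ae_of_all _ fun s => mul_nonneg zero_le_two (h0 s))).symm.trans_le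
        (ENNReal.ofReal_le_ofReal ?_)
      rw [integral_const_mul, e]
      have := (real_inner_le_norm _ _).trans (mul_le_mul (norm_one_sub_pow (P.ops S V).c₂ N₂ u)
        (norm_one_sub_pow (P.ops S V).c₁ N₁ u) (norm_nonneg _) (by positivity))
      linarith
  exact ⟨s, by rwa [mul_assoc], fun x => h4 x fun _ _ _ _ _ _ => rfl⟩

theorem loc2 (h₁ : IsCompact K₁) (h₂ : IsCompact K₂) : ∃ (K₁' : Set G₁) (K₂' : Set G₂) (C : ℝ),
    IsCompact K₁' ∧ IsCompact K₂' ∧ 0 ≤ C ∧ ∀ (u : Sec S V) (τ : ℝ), 0 < τ →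
    ∃ s, Maj S.μ s (C * τ * √(‖(1 - P.R₁ S V) ((1 - P.R₂ S V) u)‖ * ‖(1 - P.R₂ S V) u‖)) ∧ ∀ x,
      (∀ a ∈ K₁', ∀ a' ∈ K₁', ∀ b ∈ K₂', ‖u (x, P.e (a, b)) - u (x, P.e (a', b))‖ ≤ τ) →
      BoxLe (fun y => P.R₁ S V (P.R₂ S V u) (x, P.e y)) K₁ K₂ √(s x) := by
  obtain ⟨K₁', K₂', N₁, N₂, C, k₁, k₂, hC, H₁⟩ := P.box_phi S V h₁ h₂
  refine ⟨K₁', K₂', C * (2 * √(2 * N₁ * N₂ * N₂)), k₁, k₂, by positivity, fun u τ hτ => ?_⟩
  obtain ⟨s, h3, h4⟩ := H₁ u _ (mon_trunc hτ) (2 * √(2 * N₁ * N₂ * N₂) * τ *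
    √(‖(1 - P.R₁ S V) ((1 - P.R₂ S V) u)‖ * ‖(1 - P.R₂ S V) u‖)) (by positivity) fun _ => by
      have o := P.ops S V
      have b1 : ‖(1 - P.R₁ S V ^ N₁) ((1 - P.R₂ S V ^ N₂) u)‖ ≤
          N₁ * (N₂ * ‖(1 - P.R₁ S V) ((1 - P.R₂ S V) u)‖) := by
        have c : ∀ N : ℕ, (1 - P.R₁ S V) ((1 - P.R₂ S V ^ N) u) =
            (1 - P.R₂ S V ^ N) ((1 - P.R₁ S V) u) := fun N => LinearMap.congr_fun
          ((Commute.one_left _).sub_left ((Commute.one_right _).sub_right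
            (o.comm.pow_right N))).eq u
        have c1 := c 1
        rw [pow_one] at c1
        refine (norm_one_sub_pow o.c₁ N₁ _).trans (mul_le_mul_of_nonneg_left ?_ N₁.cast_nonneg)
        rw [c, c1]
        exact norm_one_sub_pow o.c₂ N₂ _
      have b2 := norm_one_sub_pow o.c₂ N₂ u
      generalize (1 - P.R₂ S V ^ N₂) u = z at b1 b2 ⊢
      obtain ⟨i, e⟩ := P.box_mixed S V N₁ z z
      simp only [real_inner_self_eq_norm_sq] at i e
      have m : StronglyMeasurable fun s => ‖Tr S V (P.i₁ s) z - z‖ := by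
        have : (fun s => ‖Tr S V (P.i₁ s) z - z‖) =
            fun s => √(2 * ‖z‖ ^ 2 - 2 * ⟪Tr S V (P.i₁ s) z, z⟫) := funext fun s => by
          rw [eq_comm, Real.sqrt_eq_iff_eq_sq _ (norm_nonneg _), norm_sub_sq_real, norm_Tr]
          · ring
          · have := real_inner_le_norm (Tr S V (P.i₁ s) z) z
            rw [norm_Tr] at this
            nlinarith
        rw [this]
        exact (measurable_const.sub (((meas_inner_Tr z z).comp
          P.cont_i₁.measurable).const_mul 2)).sqrt.stronglyMeasurable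
      have i1 : Integrable (fun s => ‖Tr S V (P.i₁ s) z - z‖) (cpow P.W₁.r N₁) :=
        Integrable.of_bound m.aestronglyMeasurable (‖z‖ + ‖z‖) (ae_of_all _ fun s =>
          (norm_norm _).trans_le (norm_sub_le_of_le (norm_Tr _ _).le le_rfl))
      have j := boxA_jensen (cpow P.W₁.r N₁) m
      simp only [← ofReal_norm, ← ENNReal.ofReal_pow (norm_nonneg _), norm_norm] at j
      rw [← ofReal_integral_eq_lintegral_ofReal i (ae_of_all _ fun s => sq_nonneg _), e,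
        ENNReal.ofReal_le_ofReal_iff (e ▸ integral_nonneg fun s => sq_nonneg _),
        Real.norm_eq_abs, sq_abs] at j
      have b3 := (real_inner_le_norm _ _).trans (mul_le_mul b2 b1 (norm_nonneg _) (by positivity))
      have b4 : ∫ s, ‖Tr S V (P.i₁ s) z - z‖ ∂cpow P.W₁.r N₁ ≤ √(2 * N₁ * N₂ * N₂) *
          √(‖(1 - P.R₁ S V) ((1 - P.R₂ S V) u)‖ * ‖(1 - P.R₂ S V) u‖) := by
        rw [← Real.sqrt_mul (by positivity)]
        exact Real.le_sqrt_of_sq_le (by linarith)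
      refine (lintegral_mono (g := fun s => ENNReal.ofReal (2 * τ * ‖Tr S V (P.i₁ s) z - z‖))
        fun s => ENNReal.ofReal_le_ofReal ?_).trans ?_
      · have := (real_inner_le_norm (Tr S V (P.i₁ s) z - z) _).trans (mul_le_mul_of_nonneg_left
          (((mon_trunc hτ).sec (Tr S V (P.i₁ s) u - u)).norm_le hτ.le fun y =>
            (norm_trunc hτ _).trans_le (min_le_left _ _)) (norm_nonneg _))
        linarith
      · rw [← ofReal_integral_eq_lintegral_ofReal (i1.const_mul _)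
          (ae_of_all _ fun s => by positivity), integral_const_mul]
        refine ENNReal.ofReal_le_ofReal ?_
        have := mul_le_mul_of_nonneg_left b4 (by positivity : 0 ≤ 2 * τ)
        linarith
  refine ⟨s, ?_, fun x hx => h4 x fun a ha a' ha' b hb => trunc_eq hτ (hx a ha a' ha' b hb)⟩
  convert h3 using 1
  ring

end Spl

end Pool.Agent.Lib.MP_60cbcc_al.H3Z
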