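import Pool.Agent.Lib.MP_60cbcc_al.H3ZSec

/-!
Continuity of translation, almost everywhere stabilisers and weak limits.
-/

set_option linter.unusedSectionVars false

namespace Pool.Agent.Lib.MP_60cbcc_al.H3Z

open MeasureTheory Set Filter Topology
open scoped ENNReal NNReal

section

variable {G : Type} [Group G] [TopologicalSpace G] [IsTopologicalGroup G] [LocallyCompactSpace G]
  [SecondCountableTopology G] [T2Space G] [MeasurableSpace G] [BorelSpace G]
  (lam : Measure G) [lam.IsHaarMeasure] [lam.IsMulRightInvariant]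

/-- The elements whose right translation fixes `f` almost everywhere. -/
def RInv (f : G → ℝ) : Subgroup G where
  carrier := {h | ∀ᵐ g ∂lam, f (g * h) = f g}
  one_mem' := ae_of_all _ fun g => by rw [mul_one]
  mul_mem' {a b} ha hb := by
    filter_upwards [ha, (measurePreserving_mul_right lam a).quasiMeasurePreserving.ae hb]
      with g h1 h2
    rw [← mul_assoc, h2, h1]
  inv_mem' {a} ha := by
    filter_upwards [(measurePreserving_mul_right lam a⁻¹).quasiMeasurePreserving.ae ha] with g h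
    rw [← h, inv_mul_cancel_right]

/-- The elements whose left translation fixes `f` almost everywhere. -/
def LInv (f : G → ℝ) : Subgroup G where
  carrier := {h | ∀ᵐ g ∂lam, f (h * g) = f g}
  one_mem' := ae_of_all _ fun g => by rw [one_mul]
  mul_mem' {a b} ha hb := by
    filter_upwards [hb, (measurePreserving_mul_left lam b).quasiMeasurePreserving.ae ha]
      with g h1 h2
    rw [mul_assoc, h2, h1]
  inv_mem' {a} ha := by
    filter_upwards [(measurePreserving_mul_left lam a⁻¹).quasiMeasurePreserving.ae ha] with g h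
    rw [← h, mul_inv_cancel_left]

theorem mem_RInv {f : G → ℝ} {h : G} : h ∈ RInv lam f ↔ ∀ᵐ g ∂lam, f (g * h) = f g := Iff.rfl

theorem mem_LInv {f : G → ℝ} {h : G} : h ∈ LInv lam f ↔ ∀ᵐ g ∂lam, f (h * g) = f g := Iff.rfl

/-- A finite absolutely continuous measure is dominated on a set of almost full mass. -/
theorem cnA_small (ν : Measure G) [IsFiniteMeasure ν] (hν : ν ≪ lam) {ε : ℝ} (hε : 0 < ε) :
    ∃ (K A : Set G) (D : ℝ≥0), IsCompact K ∧ MeasurableSet A ∧
      ν.restrict A ≤ D • lam.restrict K ∧ ν.real Aᶜ ≤ ε := by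
  let A : ℕ → Set G := fun n => compactCovering G n ∩ {g | ν.rnDeriv lam g ≤ n}
  have hA : ∀ n, MeasurableSet (A n) := fun n =>
    (isCompact_compactCovering G n).measurableSet.inter
      (measurableSet_le (Measure.measurable_rnDeriv ν lam) measurable_const)
  have h1 := tendsto_measure_iInter_atTop (μ := ν) (s := fun n => (A n)ᶜ)
    (fun n => (hA n).compl.nullMeasurableSet)
    (fun a b hab => compl_subset_compl.2 (inter_subset_inter (compactCovering_subset G hab)
      fun g hg => le_trans (show ν.rnDeriv lam g ≤ a from hg) (by exact_mod_cast hab)))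
    ⟨0, measure_ne_top _ _⟩
  have h0 : ν (⋂ n, (A n)ᶜ) = 0 := by
    refine hν (measure_mono_null ?_ (ae_iff.1 (Measure.rnDeriv_lt_top ν lam)))
    intro g hg hlt
    obtain ⟨n, hn⟩ := exists_mem_compactCovering g
    obtain ⟨k, hk⟩ := ENNReal.exists_nat_gt (ne_of_lt hlt)
    refine mem_iInter.1 hg (max n k) ⟨compactCovering_subset G (le_max_left _ _) hn, ?_⟩
    exact le_trans hk.le (by exact_mod_cast le_max_right n k)
  rw [h0] at h1
  obtain ⟨n, hn⟩ := (h1.eventually (gt_mem_nhds (ENNReal.ofReal_pos.2 hε))).exists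
  refine ⟨compactCovering G n, A n, n, isCompact_compactCovering G n, hA n, ?_,
    ENNReal.toReal_le_of_le_ofReal hε.le hn.le⟩
  refine Measure.le_iff.2 fun s hs => ?_
  rw [Measure.restrict_apply hs, ← Measure.setLIntegral_rnDeriv hν, Measure.smul_apply,
    Measure.restrict_apply hs]
  calc ∫⁻ g in s ∩ A n, ν.rnDeriv lam g ∂lam ≤ ∫⁻ _g in s ∩ A n, (n : ℝ≥0∞) ∂lam :=
        setLIntegral_mono' (hs.inter (hA n)) fun g hg => hg.2.2
    _ = n * lam (s ∩ A n) := setLIntegral_const _ _
    _ ≤ n * lam (s ∩ compactCovering G n) := by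
        gcongr
        exact inter_subset_left
    _ = _ := by simp [ENNReal.smul_def]

/-- Two-sided translation is continuous in mean for integrable functions. -/
theorem cnA_int {E : Type} [NormedAddCommGroup E] {f : G → E} (hf : Integrable f lam) (a b : G) :
    Tendsto (fun p : G × G => ∫ g, ‖f (p.1 * g * p.2) - f (a * g * b)‖ ∂lam) (𝓝 (a, b))
      (𝓝 0) := by
  let T : C(G × G, C(G, G)) :=
    ContinuousMap.curry ⟨fun z : (G × G) × G => z.1.1 * z.2 * z.1.2, by fun_prop⟩
  have hT : ∀ p : G × G, MeasurePreserving (T p) lam lam := fun p =>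
    (measurePreserving_mul_right lam p.2).comp (measurePreserving_mul_left lam p.1)
  have h1 : Continuous fun p : G × G =>
      Lp.compMeasurePreserving (T p) (hT p) (hf.toL1 f) :=
    continuous_const.compMeasurePreservingLp T.continuous hT ENNReal.one_ne_top
  have h2 := tendsto_iff_norm_sub_tendsto_zero.1 (h1.tendsto (a, b))
  refine h2.congr fun p => ?_
  rw [L1.norm_eq_integral_norm]
  refine integral_congr_ae ?_
  filter_upwards [Lp.coeFn_sub (Lp.compMeasurePreserving (T p) (hT p) (hf.toL1 f))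
      (Lp.compMeasurePreserving (T (a, b)) (hT (a, b)) (hf.toL1 f)),
    Lp.coeFn_compMeasurePreserving (hf.toL1 f) (hT p),
    Lp.coeFn_compMeasurePreserving (hf.toL1 f) (hT (a, b)),
    (hT p).quasiMeasurePreserving.ae hf.coeFn_toL1,
    (hT (a, b)).quasiMeasurePreserving.ae hf.coeFn_toL1] with g e1 e2 e3 e4 e5
  rw [e1, Pi.sub_apply, e2, e3, Function.comp_apply, Function.comp_apply, e4, e5]
  rfl

/-- Two-sided translation is continuous in mean against every finite absolutely continuous
measure. -/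
theorem cont_mean {E : Type} [NormedAddCommGroup E] [NormedSpace ℝ E] {f : G → E}
    (hf : StronglyMeasurable f) {C : ℝ} (hC : ∀ g, ‖f g‖ ≤ C) (ν : Measure G) [IsFiniteMeasure ν]
    (hν : ν ≪ lam) (a b : G) :
    Tendsto (fun p : G × G => ∫ g, ‖f (p.1 * g * p.2) - f (a * g * b)‖ ∂ν) (𝓝 (a, b)) (𝓝 0) := by
  have hC0 : 0 ≤ C := (norm_nonneg _).trans (hC 1)
  rw [Metric.tendsto_nhds]
  intro ε hε
  obtain ⟨K, A, D, hK, hA, hle, hsm⟩ :=
    cnA_small lam ν hν (ε := ε / (4 * (C + 1))) (by positivity)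
  obtain ⟨Ua, hUa, ha⟩ := exists_compact_mem_nhds a
  obtain ⟨Ub, hUb, hb⟩ := exists_compact_mem_nhds b
  have hK' : IsCompact ((fun z : (G × G) × G => z.1.1 * z.2 * z.1.2) '' ((Ua ×ˢ Ub) ×ˢ K)) :=
    ((hUa.prod hUb).prod hK).image (by fun_prop)
  set K' := (fun z : (G × G) × G => z.1.1 * z.2 * z.1.2) '' ((Ua ×ˢ Ub) ×ˢ K) with hK'def
  have hf' : Integrable (K'.indicator f) lam := by
    rw [integrable_indicator_iff hK'.measurableSet]
    exact Measure.integrableOn_of_bounded hK'.measure_lt_top.ne hf.aestronglyMeasurable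
      (ae_of_all _ hC)
  have hT : ∀ p : G × G, MeasurePreserving (fun g => p.1 * g * p.2) lam lam := fun p =>
    (measurePreserving_mul_right lam p.2).comp (measurePreserving_mul_left lam p.1)
  have h1 := (cnA_int lam hf' a b).const_mul (D : ℝ)
  rw [mul_zero] at h1
  filter_upwards [h1.eventually (gt_mem_nhds (half_pos hε)), prod_mem_nhds ha hb] with p hp hpU
  have hm : StronglyMeasurable fun g => ‖f (p.1 * g * p.2) - f (a * g * b)‖ :=
    ((hf.comp_measurable (by fun_prop)).sub (hf.comp_measurable (by fun_prop))).norm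
  have hbd : ∀ g, ‖‖f (p.1 * g * p.2) - f (a * g * b)‖‖ ≤ C + C := fun g => by
    rw [norm_norm]
    exact norm_sub_le_of_le (hC _) (hC _)
  have hi : Integrable (fun g => ‖f (p.1 * g * p.2) - f (a * g * b)‖) ν :=
    Integrable.of_bound hm.aestronglyMeasurable _ (ae_of_all _ hbd)
  have hi' : Integrable
      (fun g => ‖K'.indicator f (p.1 * g * p.2) - K'.indicator f (a * g * b)‖) lam :=
    (((hT p).integrable_comp_of_integrable hf').sub
      ((hT (a, b)).integrable_comp_of_integrable hf')).norm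
  have hiK : IntegrableOn (fun g => ‖f (p.1 * g * p.2) - f (a * g * b)‖) K lam :=
    Measure.integrableOn_of_bounded hK.measure_lt_top.ne hm.aestronglyMeasurable (ae_of_all _ hbd)
  have e1 : ∫ g in A, ‖f (p.1 * g * p.2) - f (a * g * b)‖ ∂ν ≤
      D * ∫ g, ‖K'.indicator f (p.1 * g * p.2) - K'.indicator f (a * g * b)‖ ∂lam := by
    refine (integral_mono_measure hle (ae_of_all _ fun g => norm_nonneg _)
      (hiK.smul_measure_nnreal)).trans ?_
    rw [integral_smul_nnreal_measure, NNReal.smul_def, smul_eq_mul]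
    refine mul_le_mul_of_nonneg_left ?_ D.2
    refine le_trans (le_of_eq ?_) (setIntegral_le_integral (s := K) hi'
      (ae_of_all _ fun g => norm_nonneg _))
    refine setIntegral_congr_fun hK.measurableSet fun g hg => ?_
    have m1 : p.1 * g * p.2 ∈ K' := ⟨(p, g), ⟨hpU, hg⟩, rfl⟩
    have m2 : a * g * b ∈ K' := ⟨((a, b), g), ⟨⟨mem_of_mem_nhds ha, mem_of_mem_nhds hb⟩, hg⟩, rfl⟩
    simp only [indicator_of_mem m1, indicator_of_mem m2]
  have e2 : ∫ g in Aᶜ, ‖f (p.1 * g * p.2) - f (a * g * b)‖ ∂ν ≤ ε / 2 := by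
    have h2 := norm_setIntegral_le_of_norm_le_const (μ := ν) (s := Aᶜ) (measure_lt_top _ _)
      fun g _ => hbd g
    refine ((le_abs_self _).trans h2).trans ?_
    calc (C + C) * ν.real Aᶜ ≤ (2 * (C + 1)) * (ε / (4 * (C + 1))) :=
          mul_le_mul (by linarith) hsm measureReal_nonneg (by positivity)
      _ = ε / 2 := by field_simp; ring
  rw [Real.dist_eq, sub_zero, abs_of_nonneg (integral_nonneg fun g => norm_nonneg _),
    ← integral_add_compl hA hi]
  linarith

/-- A probability measure equivalent to Haar measure whose translates are locally comparable. -/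
theorem exists_fin : ∃ ν : Measure G, IsProbabilityMeasure ν ∧ ν ≪ lam ∧ lam ≪ ν ∧
    ∀ K : Set G, IsCompact K → ∃ C : ℝ≥0, lam.restrict K ≤ C • ν := by
  let K := CompactExhaustion.choice G
  obtain ⟨δ, hδ, hs⟩ := ENNReal.exists_pos_tsum_mul_lt_of_countable one_ne_zero
    (fun n => lam (K n)) fun n => (K.isCompact n).measure_lt_top.ne
  let ν0 : Measure G := Measure.sum fun n => δ n • lam.restrict (K n)
  have hfin : ν0 univ < 1 := by
    refine lt_of_eq_of_lt ?_ hs
    rw [Measure.sum_apply _ MeasurableSet.univ]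
    refine tsum_congr fun n => ?_
    rw [Measure.smul_apply, Measure.restrict_apply_univ, ENNReal.smul_def, smul_eq_mul, mul_comm]
  have : IsFiniteMeasure ν0 := ⟨hfin.trans ENNReal.one_lt_top⟩
  have hac : ν0 ≪ lam := by
    refine Measure.absolutelyContinuous_sum_left fun n => ?_
    exact (Measure.absolutelyContinuous_restrict).smul_left _
  have hle : ∀ n, lam.restrict (K n) ≤ (δ n)⁻¹ • ν0 := by
    intro n
    have h1 : δ n • lam.restrict (K n) ≤ ν0 :=
      Measure.le_sum (fun n => δ n • lam.restrict (K n)) n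
    calc lam.restrict (K n) = (δ n)⁻¹ • (δ n • lam.restrict (K n)) := by
          rw [smul_smul, inv_mul_cancel₀ (hδ n).ne', one_smul]
      _ ≤ (δ n)⁻¹ • ν0 := fun s => by
          simp only [Measure.smul_apply, ENNReal.smul_def, smul_eq_mul]
          gcongr
          exact h1 s
  have hac' : lam ≪ ν0 := by
    refine Measure.AbsolutelyContinuous.mk fun s hs h0 => ?_
    rw [← inter_univ s, ← K.iUnion_eq, inter_iUnion]
    refine measure_iUnion_null fun n => ?_
    have h1 := hle n s
    rw [Measure.restrict_apply hs, Measure.smul_apply, h0, smul_zero] at h1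
    exact le_antisymm h1 bot_le
  have hne : ν0 univ ≠ 0 := fun h0 => isOpen_univ.measure_ne_zero lam univ_nonempty (hac' h0)
  refine ⟨(ν0 univ)⁻¹ • ν0, ⟨?_⟩, hac.smul_left _, ?_, fun L hL => ?_⟩
  · rw [Measure.smul_apply, smul_eq_mul, ENNReal.inv_mul_cancel hne (measure_ne_top _ _)]
  · exact hac'.trans (Measure.absolutelyContinuous_smul (ENNReal.inv_ne_zero.2 (measure_ne_top _ _)))
  · obtain ⟨n, hn⟩ := K.exists_superset_of_isCompact hL
    refine ⟨(δ n)⁻¹, ((Measure.restrict_mono hn le_rfl).trans (hle n)).trans fun s => ?_⟩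
    simp only [Measure.smul_apply, ENNReal.smul_def, smul_eq_mul]
    gcongr
    exact le_mul_of_one_le_left bot_le (ENNReal.one_le_inv.2 hfin.le)

/-- Two-sided almost everywhere stabilisers are closed. -/
theorem cnA_closed {f : G → ℝ} (hf : Measurable f) (hb : ∀ g, |f g| ≤ 1) :
    IsClosed {p : G × G | ∀ᵐ g ∂lam, f (p.1 * g * p.2) = f g} := by
  obtain ⟨ν, hν, h1, h2, -⟩ := exists_fin lam
  refine isClosed_of_closure_subset fun p hp => ?_
  have := mem_closure_iff_nhdsWithin_neBot.1 hp
  have h3 := (cont_mean lam hf.stronglyMeasurable (C := 1) hb ν h1 p.1 p.2).mono_left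
    (nhdsWithin_le_nhds (s := {p : G × G | ∀ᵐ g ∂lam, f (p.1 * g * p.2) = f g}))
  have h4 : Tendsto (fun _ : G × G => ∫ g, ‖f g - f (p.1 * g * p.2)‖ ∂ν)
      (𝓝[{p : G × G | ∀ᵐ g ∂lam, f (p.1 * g * p.2) = f g}] p) (𝓝 0) := by
    refine h3.congr' ?_
    filter_upwards [self_mem_nhdsWithin] with q hq
    refine integral_congr_ae ?_
    filter_upwards [h1.ae_le hq] with g hg
    rw [hg]
  have h5 := tendsto_nhds_unique tendsto_const_nhds h4
  have hi : Integrable (fun g => ‖f g - f (p.1 * g * p.2)‖) ν := by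
    refine Integrable.of_bound
      (hf.sub (hf.comp (by fun_prop))).norm.aestronglyMeasurable (1 + 1) (ae_of_all _ fun g => ?_)
    rw [norm_norm]
    exact norm_sub_le_of_le (hb _) (hb _)
  rw [integral_eq_zero_iff_of_nonneg (fun g => norm_nonneg _) hi] at h5
  filter_upwards [h2.ae_le h5] with g hg
  exact (sub_eq_zero.1 (norm_eq_zero.1 hg)).symm

theorem isClosed_RInv {f : G → ℝ} (hf : Measurable f) (hb : ∀ g, |f g| ≤ 1) :
    IsClosed (RInv lam f : Set G) := by
  have h := (cnA_closed lam hf hb).preimage (f := fun h : G => ((1 : G), h)) (by fun_prop)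
  have e : (RInv lam f : Set G) = (fun h : G => ((1 : G), h)) ⁻¹'
      {p : G × G | ∀ᵐ g ∂lam, f (p.1 * g * p.2) = f g} := by
    ext h
    simp [mem_RInv]
  rw [e]
  exact h

theorem isClosed_LInv {f : G → ℝ} (hf : Measurable f) (hb : ∀ g, |f g| ≤ 1) :
    IsClosed (LInv lam f : Set G) := by
  have h := (cnA_closed lam hf hb).preimage (f := fun h : G => (h, (1 : G))) (by fun_prop)
  have e : (LInv lam f : Set G) = (fun h : G => (h, (1 : G))) ⁻¹'
      {p : G × G | ∀ᵐ g ∂lam, f (p.1 * g * p.2) = f g} := by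
    ext h
    simp [mem_LInv]
  rw [e]
  exact h

/-- Weak limits along an ultrafilter in a Hilbert space. -/
theorem cnA_hilb {E : Type} [NormedAddCommGroup E] [InnerProductSpace ℝ E] [CompleteSpace E]
    (U : Ultrafilter ℕ) (x : ℕ → E) (hx : ∀ n, ‖x n‖ ≤ 1) :
    ∃ y : E, ∀ v, Tendsto (fun n => inner ℝ (x n) v) U (𝓝 (inner ℝ y v)) := by
  obtain ⟨φ, -, hφ⟩ := (WeakDual.isCompact_closedBall (𝕜 := ℝ) (E := E) 0 1).ultrafilter_le_nhds
    (U.map fun n => StrongDual.toWeakDual (innerSL ℝ (x n))) (by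
      rw [le_principal_iff, Ultrafilter.coe_map, mem_map]
      refine univ_mem' fun n => ?_
      simpa using hx n)
  refine ⟨(InnerProductSpace.toDual ℝ E).symm (WeakDual.toStrongDual φ), fun v => ?_⟩
  rw [InnerProductSpace.toDual_symm_apply]
  exact ((WeakDual.eval_continuous v).tendsto φ).comp hφ

/-- Weak limits along an ultrafilter. -/
theorem weak_lim (U : Ultrafilter ℕ) {F : ℕ → G → ℝ} (hF : ∀ n, Measurable (F n))
    (hb : ∀ n g, |F n g| ≤ 1) : ∃ f : G → ℝ, Measurable f ∧ (∀ g, |f g| ≤ 1) ∧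
    ∀ ν : Measure G, IsFiniteMeasure ν → ν ≪ lam →
      Tendsto (fun n => ∫ g, F n g ∂ν) U (𝓝 (∫ g, f g ∂ν)) := by
  obtain ⟨ν0, hν0, -, hac, -⟩ := exists_fin lam
  have hm : ∀ n, MemLp (F n) 2 ν0 := fun n =>
    MemLp.of_bound (hF n).aestronglyMeasurable 1 (ae_of_all _ (hb n))
  obtain ⟨y, hy⟩ := cnA_hilb U (fun n => (hm n).toLp (F n)) fun n => by
    have := Lp.norm_le_of_ae_bound (f := (hm n).toLp (F n)) (C := 1) zero_le_one (by
      filter_upwards [(hm n).coeFn_toLp] with g hg
      rw [hg]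
      exact hb n g)
    simpa [measureUnivNNReal] using this
  have hy2 : ∀ v : G → ℝ, MemLp v 2 ν0 →
      Tendsto (fun n => ∫ g, v g * F n g ∂ν0) U (𝓝 (∫ g, v g * y g ∂ν0)) := by
    intro v hv
    have h1 := hy (hv.toLp v)
    have e1 : ∀ n, inner ℝ ((hm n).toLp (F n)) (hv.toLp v) = ∫ g, v g * F n g ∂ν0 := by
      intro n
      rw [L2.inner_def]
      refine integral_congr_ae ?_
      filter_upwards [(hm n).coeFn_toLp, hv.coeFn_toLp] with g h2 h3
      rw [h2, h3]
      simp
    have e2 : inner ℝ y (hv.toLp v) = ∫ g, v g * y g ∂ν0 := by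
      rw [L2.inner_def]
      refine integral_congr_ae ?_
      filter_upwards [hv.coeFn_toLp] with g h3
      rw [h3]
      simp
    rw [e2] at h1
    exact h1.congr e1
  have hyi : Integrable y ν0 := (Lp.memLp y).integrable one_le_two
  have hFi : ∀ n, Integrable (F n) ν0 := fun n => (hm n).integrable one_le_two
  have hy3 : ∀ s, MeasurableSet s →
      Tendsto (fun n => ∫ g in s, F n g ∂ν0) U (𝓝 (∫ g in s, y g ∂ν0)) := by
    intro s hs
    have h1 := hy2 (s.indicator 1) ((memLp_const 1).indicator hs)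
    have e : ∀ w : G → ℝ, ∫ g, s.indicator (1 : G → ℝ) g * w g ∂ν0 = ∫ g in s, w g ∂ν0 := by
      intro w
      rw [← integral_indicator hs]
      refine integral_congr_ae (ae_of_all _ fun g => ?_)
      by_cases hg : g ∈ s <;> simp [hg]
    simpa only [e] using h1
  have hup : y ≤ᵐ[ν0] fun _ => (1 : ℝ) :=
    ae_le_of_forall_setIntegral_le hyi (integrable_const _) fun s hs _ =>
      le_of_tendsto' (hy3 s hs) fun n =>
        integral_mono (hFi n).integrableOn (integrable_const _) fun g => (abs_le.1 (hb n g)).2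
  have hlo : (fun _ => (-1 : ℝ)) ≤ᵐ[ν0] y :=
    ae_le_of_forall_setIntegral_le (integrable_const _) hyi fun s hs _ =>
      ge_of_tendsto' (hy3 s hs) fun n =>
        integral_mono (integrable_const _) (hFi n).integrableOn fun g => (abs_le.1 (hb n g)).1
  let f : G → ℝ := fun g => max (-1) (min 1 (y g))
  have hfm : Measurable f :=
    measurable_const.max (measurable_const.min (Lp.stronglyMeasurable y).measurable)
  have hfb : ∀ g, |f g| ≤ 1 := fun g =>
    abs_le.2 ⟨le_max_left _ _, max_le (by norm_num) (min_le_left _ _)⟩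
  have hfy : ∀ᵐ g ∂ν0, y g = f g := by
    filter_upwards [hup, hlo] with g h1 h2
    simp only [f, min_eq_right h1, max_eq_right h2]
  refine ⟨f, hfm, hfb, fun ν hν hν' => ?_⟩
  have hνν : ν ≪ ν0 := hν'.trans hac
  have hρ : Integrable (fun g => (ν.rnDeriv ν0 g).toReal) ν0 := Measure.integrable_toReal_rnDeriv
  have hr : ∀ w : G → ℝ, ∫ g, w g ∂ν = ∫ g, (ν.rnDeriv ν0 g).toReal * w g ∂ν0 := fun w =>
    (integral_rnDeriv_smul (f := w) hνν).symm
  simp only [hr]
  rw [Metric.tendsto_nhds]
  intro ε hε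
  obtain ⟨v, hv, hvi⟩ := hρ.exists_boundedContinuous_integral_sub_le (ε := ε / 3) (by positivity)
  have hv2 : MemLp v 2 ν0 :=
    MemLp.of_bound v.continuous.aestronglyMeasurable ‖v‖ (ae_of_all _ v.norm_coe_le_norm)
  have key : ∀ w : G → ℝ, Measurable w → (∀ g, |w g| ≤ 1) →
      |∫ g, (ν.rnDeriv ν0 g).toReal * w g ∂ν0 - ∫ g, v g * w g ∂ν0| ≤ ε / 3 := by
    intro w hw hwb
    rw [← integral_sub (hρ.mul_bdd hw.aestronglyMeasurable (ae_of_all _ hwb))
      (hvi.mul_bdd hw.aestronglyMeasurable (ae_of_all _ hwb))]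
    refine le_trans ?_ hv
    rw [← Real.norm_eq_abs]
    refine norm_integral_le_of_norm_le (hρ.sub hvi).norm (ae_of_all _ fun g => ?_)
    rw [← sub_mul, norm_mul]
    exact mul_le_of_le_one_right (norm_nonneg _) (hwb g)
  have h1 := hy2 v hv2
  have e : ∫ g, v g * y g ∂ν0 = ∫ g, v g * f g ∂ν0 := by
    refine integral_congr_ae ?_
    filter_upwards [hfy] with g hg
    rw [hg]
  rw [e, Metric.tendsto_nhds] at h1
  filter_upwards [h1 (ε / 3) (by positivity)] with n hn
  rw [Real.dist_eq] at hn ⊢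
  have a1 := abs_le.1 (key (F n) (hF n) (hb n))
  have a2 := abs_le.1 (key f hfm hfb)
  have a3 := abs_lt.1 hn
  rw [abs_lt]
  constructor <;> linarith [a1.1, a1.2, a2.1, a2.2, a3.1, a3.2]

end

variable {Γ G X : Type} [Group Γ] [Countable Γ] [Group G] [TopologicalSpace G]
  [IsTopologicalGroup G] [LocallyCompactSpace G] [SecondCountableTopology G] [T2Space G]
  [MeasurableSpace G] [BorelSpace G] [MeasurableSpace X] [MulAction Γ X] [MeasurableConstSMul Γ X]
  {H : Type} [NormedAddCommGroup H] [InnerProductSpace ℝ H] [CompleteSpace H]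
  {S : Setup Γ G X} {V : Γ → X → H →ₗᵢ[ℝ] H}

theorem continuous_Tr (u : Sec S V) : Continuous fun h : G => Tr S V h u := by
  obtain ⟨C, hC⟩ := u.bdd
  refine continuous_iff_continuousAt.2 fun h0 => ?_
  rw [ContinuousAt, tendsto_iff_norm_sub_tendsto_zero]
  have hm : ∀ h : G, StronglyMeasurable fun y : X × G =>
      ‖u (y.1, y.2 * h) - u (y.1, y.2 * h0)‖ := fun h =>
    ((u.meas.comp_measurable (by fun_prop)).sub (u.meas.comp_measurable (by fun_prop))).norm
  have hbd : ∀ (h : G) (y : X × G), ‖‖u (y.1, y.2 * h) - u (y.1, y.2 * h0)‖‖ ≤ C + C :=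
    fun h y => by
      rw [norm_norm]
      exact norm_sub_le_of_le (hC _) (hC _)
  have hi : ∀ h : G, Integrable (fun y : X × G => ‖u (y.1, y.2 * h) - u (y.1, y.2 * h0)‖) S.m :=
    fun h => Integrable.of_bound (hm h).aestronglyMeasurable _ (ae_of_all _ (hbd h))
  have h1 : Tendsto (fun h : G => ∫ x, ∫ g, ‖u (x, g * h) - u (x, g * h0)‖
      ∂(S.lam.restrict S.Ω) ∂S.μ) (𝓝 h0) (𝓝 (∫ _x, (0 : ℝ) ∂S.μ)) := by
    refine tendsto_integral_filter_of_dominated_convergence (fun _ => C + C)
      (Eventually.of_forall fun h => (hm h).integral_prod_right'.aestronglyMeasurable)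
      (Eventually.of_forall fun h => ae_of_all _ fun x => ?_) (integrable_const _)
      (ae_of_all _ fun x => ?_)
    · simpa using norm_integral_le_of_norm_le_const (μ := S.lam.restrict S.Ω)
        (ae_of_all _ fun g => hbd h (x, g))
    · have h2 := (cont_mean S.lam (f := fun g => u (x, g))
        (u.meas.comp_measurable (by fun_prop)) (fun g => hC _) (S.lam.restrict S.Ω)
        Measure.absolutelyContinuous_restrict 1 h0).comp
        ((show Continuous fun h : G => ((1 : G), h) by fun_prop).tendsto h0)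
      simpa [Function.comp_def] using h2
  have h2 := (h1.const_mul (C + C)).sqrt
  simp only [integral_zero, mul_zero, Real.sqrt_zero] at h2
  refine squeeze_zero (fun _ => norm_nonneg _) (fun h => ?_) h2
  refine Real.le_sqrt_of_sq_le ?_
  rw [Sec.norm_sq, ← integral_prod _ (hi h), ← integral_const_mul]
  refine integral_mono (Sec.int_sq _) ((hi h).const_mul _) fun y => ?_
  have h3 := hbd h y
  rw [norm_norm] at h3
  simp only [Sec.sub_apply, Tr_apply]
  nlinarith [norm_nonneg (u (y.1, y.2 * h) - u (y.1, y.2 * h0))]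

end Pool.Agent.Lib.MP_60cbcc_al.H3Z
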