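import Pool.Agent.Lib.MP_60cbcc_al.H3ZLiou

/-!
Asymptotically invariant probability vectors on the orbits.
-/

set_option linter.unusedSectionVars false

namespace Pool.Agent.Lib.MP_60cbcc_al.H3Z

open MeasureTheory Set Filter Topology
open scoped ENNReal NNReal Pointwise

/-- The laws of the label `π(g h)⁻¹ x`, `h` distributed as `κ n`, are asymptotically independent
of `g`. -/
def Reiter {Γ G X : Type} [Group Γ] [Group G] [TopologicalSpace G] [MeasurableSpace G]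
    [MeasurableSpace X] [MulAction Γ X] (S : Setup Γ G X) (κ : ℕ → Measure G) : Prop :=
  ∀ᵐ x ∂S.μ, ∀ (g g' : G) (A : ℕ → Set X), Tendsto (fun n =>
    (κ n).real {h | (S.π (g * h))⁻¹ • x ∈ A n} - (κ n).real {h | (S.π (g' * h))⁻¹ • x ∈ A n})
    atTop (𝓝 0)

variable {Γ X G₁ G₂ : Type} [Group Γ] [Countable Γ]
  [MeasurableSpace X] [MulAction Γ X] [MeasurableConstSMul Γ X]
  [Group G₁] [TopologicalSpace G₁] [IsTopologicalGroup G₁] [LocallyCompactSpace G₁]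
  [SecondCountableTopology G₁] [T2Space G₁] [MeasurableSpace G₁] [BorelSpace G₁]
  [Group G₂] [TopologicalSpace G₂] [IsTopologicalGroup G₂] [LocallyCompactSpace G₂]
  [SecondCountableTopology G₂] [T2Space G₂] [MeasurableSpace G₂] [BorelSpace G₂]

namespace Rei

theorem abs_int {L : Type} [MeasurableSpace L] (ν : Measure L) [IsProbabilityMeasure ν]
    {f : L → ℝ} {C : ℝ} (h : ∀ᵐ s ∂ν, |f s| ≤ C) : |∫ s, f s ∂ν| ≤ C := by
  simpa using norm_integral_le_of_norm_le_const (μ := ν) (f := f) h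

theorem int_bd {L : Type} [MeasurableSpace L] (ν : Measure L) [IsFiniteMeasure ν]
    {f : L → ℝ} (hf : Measurable f) (h : ∀ s, |f s| ≤ 1) : Integrable f ν :=
  Integrable.of_bound hf.aestronglyMeasurable 1 (ae_of_all _ h)

theorem osc {L : Type} [Group L] [TopologicalSpace L] [IsTopologicalGroup L] [LocallyCompactSpace L]
    [SecondCountableTopology L] [T2Space L] [MeasurableSpace L] [BorelSpace L] (W : Walk L)
    {ε : ℝ} (hε : 0 < ε) : ∀ᶠ u in 𝓝 (1 : L), ∀ f : L → ℝ, Measurable f → (∀ s, |f s| ≤ 1) →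
    |∫ s, f (u * s) ∂W.r - ∫ s, f s ∂W.r| ≤ ε := by
  filter_upwards [W.osc ℝ hε] with u hu f hf h
  simpa using hu f hf.stronglyMeasurable ⟨1, h⟩ 0 1 (fun s _ => by simpa using h s)
    fun s _ => by simpa using h _

theorem int2 (W : Walk G₂) {f : G₁ × G₂ → ℝ} (hf : Measurable f) (h : ∀ y, |f y| ≤ 1) (a : G₁)
    (b : G₂) : Integrable (fun t => f (a, b * t)) W.r :=
  int_bd _ (by fun_prop) fun _ => h _

theorem meas_mul {f : G₁ × G₂ → ℝ} (hf : Measurable f) (g : G₁ × G₂) :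
    Measurable fun h => f (g * h) := hf.comp (measurable_const_mul g)

/-- Almost harmonic equicontinuous sequences are asymptotically constant. -/
theorem lim (W : Walk G₂) (Λ : Set (G₁ × G₂)) (K₁ : Subgroup G₁) (K₂ : Subgroup G₂)
    (hL : ∀ f : G₁ × G₂ → ℝ, Continuous f → (∀ y, |f y| ≤ 1) → (∀ l ∈ Λ, ∀ y, f (l * y) = f y) →
      (∀ ε > 0, ∀ᶠ u in 𝓝 (1 : G₁), ∀ a b, |f (a * u, b) - f (a, b)| ≤ ε) →
      (∀ a b, ∫ t, f (a, b * t) ∂W.r = f (a, b)) →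
      (∀ k ∈ K₁, ∀ a b, f (a * k, b) = f (a, b)) → (∀ k ∈ K₂, ∀ a b, f (a, b * k) = f (a, b)) →
      ∀ y y', f y = f y')
    (f : ℕ → G₁ × G₂ → ℝ) (hm : ∀ n, Measurable (f n)) (h1 : ∀ n y, |f n y| ≤ 1)
    (hi : ∀ n, ∀ l ∈ Λ, ∀ y, f n (l * y) = f n y)
    (e1 : ∀ ε > 0, ∀ᶠ u in 𝓝 (1 : G₁), ∀ n a b, |f n (a * u, b) - f n (a, b)| ≤ ε)
    (e2 : ∀ ε > 0, ∀ᶠ u in 𝓝 (1 : G₂), ∀ n a b, |f n (a, b * u) - f n (a, b)| ≤ ε)
    (hh : ∀ a b, Tendsto (fun n => ∫ t, f n (a, b * t) ∂W.r - f n (a, b)) atTop (𝓝 0))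
    (k1 : ∀ n, ∀ k ∈ K₁, ∀ a b, f n (a * k, b) = f n (a, b))
    (k2 : ∀ n, ∀ k ∈ K₂, ∀ a b, f n (a, b * k) = f n (a, b))
    (g g' : G₁ × G₂) : Tendsto (fun n => f n g - f n g') atTop (𝓝 0) := by
  refine (tendsto_iff_ultrafilter _ _ _).2 fun U hU => ?_
  have hF : ∀ y, ∃ c, Tendsto (fun n => f n y) U (𝓝 c) := fun y => by
    obtain ⟨c, -, hc⟩ := (isCompact_Icc (a := (-1 : ℝ)) (b := 1)).ultrafilter_le_nhds
      (U.map fun n => f n y) (le_principal_iff.2 (mem_map.2 (univ_mem' fun n => abs_le.1 (h1 n y))))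
    exact ⟨c, hc⟩
  choose F hF using hF
  have F1 : ∀ y, |F y| ≤ 1 := fun y => le_of_tendsto' (hF y).abs fun n => h1 n y
  have E1 : ∀ ε > 0, ∀ᶠ u in 𝓝 (1 : G₁), ∀ a b, |F (a * u, b) - F (a, b)| ≤ ε := fun ε hε =>
    (e1 ε hε).mono fun u hu a b => le_of_tendsto' ((hF _).sub (hF _)).abs fun n => hu n a b
  have E2 : ∀ ε > 0, ∀ᶠ u in 𝓝 (1 : G₂), ∀ a b, |F (a, b * u) - F (a, b)| ≤ ε := fun ε hε =>
    (e2 ε hε).mono fun u hu a b => le_of_tendsto' ((hF _).sub (hF _)).abs fun n => hu n a b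
  have hc : Continuous F := continuous_iff_continuousAt.2 fun y => Metric.tendsto_nhds.2
    fun ε hε => by
    have t1 : Tendsto (fun z : G₁ × G₂ => y.1⁻¹ * z.1) (𝓝 y) (𝓝 1) :=
      Continuous.tendsto' (by fun_prop) _ _ (inv_mul_cancel _)
    have t2 : Tendsto (fun z : G₁ × G₂ => y.2⁻¹ * z.2) (𝓝 y) (𝓝 1) :=
      Continuous.tendsto' (by fun_prop) _ _ (inv_mul_cancel _)
    filter_upwards [t1.eventually (E1 (ε / 3) (by linarith)),
      t2.eventually (E2 (ε / 3) (by linarith))] with z h2 h3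
    have h4 := h2 y.1 z.2
    have h5 := h3 y.1 y.2
    rw [mul_inv_cancel_left] at h4 h5
    rw [Real.dist_eq]
    linarith [abs_sub_le (F z) (F (y.1, z.2)) (F y)]
  have H : ∀ a b, ∫ t, F (a, b * t) ∂W.r = F (a, b) := fun a b => by
    have t1 : Tendsto (fun n => ∫ t, f n (a, b * t) ∂W.r) U (𝓝 (∫ t, F (a, b * t) ∂W.r)) := by
      refine Metric.tendsto_nhds.2 fun ε hε => ?_
      have h2 : ∀ᶠ z in (U : Filter ℕ) ×ˢ 𝓝ˢ W.S,
          |f z.1 (a, b * z.2) - F (a, b * z.2)| ≤ 3 * (ε / 4) := by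
        refine W.cpt.mem_prod_nhdsSet_of_forall fun t _ => ?_
        have t2 : Tendsto (fun z : G₂ => t⁻¹ * z) (𝓝 t) (𝓝 1) :=
          Continuous.tendsto' (by fun_prop) _ _ (inv_mul_cancel _)
        filter_upwards [prod_mem_prod (Metric.tendsto_nhds.1 (hF (a, b * t)) (ε / 4) (by linarith))
          (t2.eventually ((e2 (ε / 4) (by linarith)).and (E2 (ε / 4) (by linarith))))] with z hz
        have h3 := abs_le.1 (hz.2.1 z.1 a (b * t))
        have h4 := abs_le.1 (hz.2.2 a (b * t))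
        have h5 := abs_lt.1 (show |f z.1 (a, b * t) - F (a, b * t)| < ε / 4 from hz.1)
        rw [mul_assoc, mul_inv_cancel_left] at h3 h4
        exact abs_le.2 ⟨by linarith, by linarith⟩
      filter_upwards [h2.curry] with n hn
      rw [Real.dist_eq, ← integral_sub (int2 W (hm n) (h1 n) a b) (int2 W hc.measurable F1 a b)]
      exact (abs_int _ (W.ae_mem.mono hn.self_of_nhdsSet)).trans_lt (by linarith)
    exact sub_eq_zero.1 (tendsto_nhds_unique (t1.sub (hF (a, b))) ((hh a b).mono_left hU))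
  have h2 := (hF g).sub (hF g')
  rwa [hL F hc F1 (fun l hl y => tendsto_nhds_unique (hF _) (by simpa only [hi _ l hl] using hF y))
    E1 H (fun k hk a b => tendsto_nhds_unique (hF _) (by simpa only [k1 _ k hk] using hF _))
    (fun k hk a b => tendsto_nhds_unique (hF _) (by simpa only [k2 _ k hk] using hF _)) g g',
    sub_self] at h2

variable (W₁ : Walk G₁) (W₂ : Walk G₂)

/-- One step in the first factor and `j` steps in the second. -/
noncomputable def mu : ℕ → Measure (G₁ × G₂)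
  | 0 => W₁.r.map fun s => (s, 1)
  | j + 1 => (W₂.r.prod (mu j)).map fun p => (1, p.1) * p.2

instance mu_prob (j : ℕ) : IsProbabilityMeasure (mu W₁ W₂ j) := by
  induction j with
  | zero => exact Measure.isProbabilityMeasure_map (Measurable.aemeasurable (by fun_prop))
  | succ j ih => exact Measure.isProbabilityMeasure_map (Measurable.aemeasurable (by fun_prop))

/-- The averages. -/
noncomputable def av (φ : G₁ × G₂ → ℝ) (j : ℕ) (g : G₁ × G₂) : ℝ := ∫ h, φ (g * h) ∂mu W₁ W₂ j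

variable {φ : G₁ × G₂ → ℝ}

theorem av_meas (hφ : Measurable φ) (j : ℕ) : Measurable (av W₁ W₂ φ j) :=
  (StronglyMeasurable.integral_prod_right' (f := fun z : (G₁ × G₂) × G₁ × G₂ => φ (z.1 * z.2))
    (hφ.comp (by fun_prop)).stronglyMeasurable).measurable

theorem av_bd (h1 : ∀ y, |φ y| ≤ 1) (j : ℕ) (g : G₁ × G₂) : |av W₁ W₂ φ j g| ≤ 1 :=
  abs_int _ (ae_of_all _ fun _ => h1 _)

theorem av_zero (hφ : Measurable φ) (a : G₁) (b : G₂) :
    av W₁ W₂ φ 0 (a, b) = ∫ s, φ (a * s, b) ∂W₁.r := by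
  rw [av, mu, integral_map_of_stronglyMeasurable (by fun_prop)
    (meas_mul hφ _).stronglyMeasurable]
  simp

theorem av_succ (hφ : Measurable φ) (h1 : ∀ y, |φ y| ≤ 1) (j : ℕ) (a : G₁) (b : G₂) :
    av W₁ W₂ φ (j + 1) (a, b) = ∫ t, av W₁ W₂ φ j (a, b * t) ∂W₂.r := by
  rw [av, mu, integral_map_of_stronglyMeasurable (by fun_prop)
    (meas_mul hφ _).stronglyMeasurable,
    integral_prod _ (int_bd _ (by fun_prop) fun _ => h1 _)]
  simp [av, ← mul_assoc]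

theorem av_e1 {ε : ℝ} (hε : 0 < ε) : ∀ᶠ u in 𝓝 (1 : G₁), ∀ φ : G₁ × G₂ → ℝ, Measurable φ →
    (∀ y, |φ y| ≤ 1) → ∀ j a b, |av W₁ W₂ φ j (a * u, b) - av W₁ W₂ φ j (a, b)| ≤ ε := by
  filter_upwards [osc W₁ hε] with u hu φ hφ h1 j
  induction j with
  | zero =>
    intro a b
    simpa only [av_zero W₁ W₂ hφ, mul_assoc] using
      hu (fun s => φ (a * s, b)) (hφ.comp (by fun_prop)) fun _ => h1 _
  | succ j ih =>
    intro a b
    have hm := av_meas W₁ W₂ hφ j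
    rw [av_succ W₁ W₂ hφ h1, av_succ W₁ W₂ hφ h1, ← integral_sub
      (int2 W₂ hm (av_bd W₁ W₂ h1 j) _ _) (int2 W₂ hm (av_bd W₁ W₂ h1 j) _ _)]
    exact abs_int _ (ae_of_all _ fun _ => ih _ _)

theorem av_e2 {ε : ℝ} (hε : 0 < ε) : ∀ᶠ u in 𝓝 (1 : G₂), ∀ φ : G₁ × G₂ → ℝ, Measurable φ →
    (∀ y, |φ y| ≤ 1) → ∀ j a b,
      |av W₁ W₂ φ (j + 1) (a, b * u) - av W₁ W₂ φ (j + 1) (a, b)| ≤ ε := by
  filter_upwards [osc W₂ hε] with u hu φ hφ h1 j a b
  simpa only [av_succ W₁ W₂ hφ h1, mul_assoc] using hu (fun t => av W₁ W₂ φ j (a, b * t))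
    ((av_meas W₁ W₂ hφ j).comp (by fun_prop)) fun _ => av_bd W₁ W₂ h1 _ _

theorem av_k1 (hφ : Measurable φ) (h1 : ∀ y, |φ y| ≤ 1) {k : G₁} (hk : k ∈ W₁.K) (j : ℕ) :
    ∀ a b, av W₁ W₂ φ j (a * k, b) = av W₁ W₂ φ j (a, b) := by
  induction j with
  | zero =>
    intro a b
    simpa only [av_zero W₁ W₂ hφ, mul_assoc] using W₁.int_K (f := fun s => φ (a * s, b))
      (hφ.comp (by fun_prop)).stronglyMeasurable hk
  | succ j ih =>
    intro a b
    simp only [av_succ W₁ W₂ hφ h1, ih]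

theorem av_k2 (hφ : Measurable φ) (h1 : ∀ y, |φ y| ≤ 1) {k : G₂} (hk : k ∈ W₂.K) (j : ℕ) (a : G₁)
    (b : G₂) : av W₁ W₂ φ (j + 1) (a, b * k) = av W₁ W₂ φ (j + 1) (a, b) := by
  simpa only [av_succ W₁ W₂ hφ h1, mul_assoc] using
    W₂.int_K (f := fun t => av W₁ W₂ φ j (a, b * t))
      ((av_meas W₁ W₂ hφ j).comp (by fun_prop)).stronglyMeasurable hk

/-- The Cesaro means. -/
noncomputable def ka (n : ℕ) : Measure (G₁ × G₂) :=
  ((n + 1 : ℕ) : ℝ≥0∞)⁻¹ • ∑ j ∈ Finset.range (n + 1), mu W₁ W₂ (j + 1)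

theorem ka_prob (n : ℕ) : IsProbabilityMeasure (ka W₁ W₂ n) := ⟨by
  rw [ka, Measure.smul_apply, Measure.finsetSum_apply]
  simp only [measure_univ, Finset.sum_const, Finset.card_range, nsmul_eq_mul, mul_one, smul_eq_mul]
  exact ENNReal.inv_mul_cancel (by simp) (by simp)⟩

theorem ka_int (hφ : Measurable φ) (h1 : ∀ y, |φ y| ≤ 1) (n : ℕ) (g : G₁ × G₂) :
    ∫ h, φ (g * h) ∂ka W₁ W₂ n =
      (∑ j ∈ Finset.range (n + 1), av W₁ W₂ φ (j + 1) g) / (n + 1 : ℕ) := by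
  rw [ka, integral_smul_measure, integral_finsetSum_measure fun j _ =>
    int_bd _ (meas_mul hφ g) fun _ => h1 _, ENNReal.toReal_inv,
    ENNReal.toReal_natCast, smul_eq_mul, div_eq_inv_mul]
  rfl

theorem mean_le {c : ℕ → ℝ} {ε : ℝ} (h : ∀ j, |c j| ≤ ε) (n : ℕ) :
    |(∑ j ∈ Finset.range (n + 1), c j) / (n + 1 : ℕ)| ≤ ε := by
  rw [abs_div, Nat.abs_cast, div_le_iff₀' (by positivity)]
  simpa using (Finset.abs_sum_le_sum_abs _ _).trans
    (Finset.sum_le_card_nsmul (Finset.range (n + 1)) _ ε fun j _ => h j)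

end Rei

open Rei in
theorem reiter (S : Setup Γ (G₁ × G₂) X) (W₁ : Walk G₁) (W₂ : Walk G₂)
    (hd₁ : ∀ᵐ x ∂S.μ, Dense ((fun γ => (S.j γ).1) '' {γ : Γ | γ • x = x} * (W₁.K : Set G₁)))
    (hd₂ : ∀ᵐ x ∂S.μ, Dense ((fun γ => (S.j γ).2) '' {γ : Γ | γ • x = x} * (W₂.K : Set G₂))) :
    ∃ κ : ℕ → Measure (G₁ × G₂), (∀ n, IsProbabilityMeasure (κ n)) ∧ Reiter S κ := by
  refine ⟨ka W₁ W₂, ka_prob W₁ W₂, ?_⟩
  filter_upwards [liouville S W₂ W₁.kc W₂.K hd₁ hd₂] with x hx g g' A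
  let T : ℕ → Set (G₁ × G₂) := fun n => {h | (S.π h)⁻¹ • x ∈ A n}
  have hT : ∀ n, MeasurableSet (T n) := fun n =>
    @measurable_to_countable' Γ _ ⊤ _ _ S.π S.mπ {γ : Γ | γ⁻¹ • x ∈ A n} trivial
  have hφ : ∀ n, Measurable ((T n).indicator (1 : G₁ × G₂ → ℝ)) := fun n =>
    measurable_one.indicator (hT n)
  have h1 : ∀ n y, |(T n).indicator (1 : G₁ × G₂ → ℝ) y| ≤ 1 := fun n y => by
    by_cases h : y ∈ T n <;> simp [h]
  have e : ∀ n g, (ka W₁ W₂ n).real {h | (S.π (g * h))⁻¹ • x ∈ A n} =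
      (∑ j ∈ Finset.range (n + 1), av W₁ W₂ ((T n).indicator 1) (j + 1) g) / (n + 1 : ℕ) :=
    fun n g => by
      rw [← ka_int W₁ W₂ (hφ n) (h1 n)]
      exact (integral_indicator_one (measurable_const_mul g (hT n))).symm
  simp only [e]
  refine lim W₂ (S.j '' {γ | γ • x = x}) W₁.K W₂.K
    (fun f a1 a2 a3 => hx f a1 a2 fun γ hγ => a3 _ ⟨γ, hγ, rfl⟩)
    (fun n g => (∑ j ∈ Finset.range (n + 1), av W₁ W₂ ((T n).indicator 1) (j + 1) g) / (n + 1 : ℕ))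
    (fun n => (Finset.measurable_sum _ fun j _ => av_meas W₁ W₂ (hφ n) _).div_const _)
    (fun n y => mean_le (fun j => av_bd W₁ W₂ (h1 n) _ _) n) ?_ (fun ε hε => ?_) (fun ε hε => ?_)
    (fun a b => ?_) (fun n k hk a b => by simp only [av_k1 W₁ W₂ (hφ n) (h1 n) hk])
    (fun n k hk a b => by simp only [av_k2 W₁ W₂ (hφ n) (h1 n) hk]) g g'
  · rintro n _ ⟨γ, hγ, rfl⟩ y
    have h2 : γ⁻¹ • x = x := inv_smul_eq_iff.2 (Eq.symm hγ)
    simp only [← e, mul_assoc, S.eqv, mul_inv_rev, mul_smul, h2]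
  · filter_upwards [av_e1 W₁ W₂ hε] with u hu n a b
    rw [← sub_div, ← Finset.sum_sub_distrib]
    exact mean_le (fun j => hu _ (hφ n) (h1 n) _ a b) n
  · filter_upwards [av_e2 W₁ W₂ hε] with u hu n a b
    rw [← sub_div, ← Finset.sum_sub_distrib]
    exact mean_le (fun j => hu _ (hφ n) (h1 n) _ a b) n
  · refine squeeze_zero_norm (fun n => ?_)
      ((tendsto_const_div_atTop_nhds_zero_nat (2 : ℝ)).comp (tendsto_add_atTop_nat 1))
    rw [integral_div, integral_finsetSum _ fun j _ =>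
      int2 W₂ (av_meas W₁ W₂ (hφ n) _) (av_bd W₁ W₂ (h1 n) _) a b,
      ← sub_div, ← Finset.sum_sub_distrib]
    simp only [← av_succ W₁ W₂ (hφ n) (h1 n)]
    rw [Finset.sum_range_sub fun j => av W₁ W₂ ((T n).indicator 1) (j + 1) (a, b), Real.norm_eq_abs,
      abs_div, Nat.abs_cast]
    refine div_le_div_of_nonneg_right ((abs_sub _ _).trans ?_) (by positivity)
    linarith [av_bd W₁ W₂ (h1 n) (n + 1 + 1) (a, b), av_bd W₁ W₂ (h1 n) (0 + 1) (a, b)]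

end Pool.Agent.Lib.MP_60cbcc_al.H3Z
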