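import Pool.Agent.Lib.MP_60cbcc_al.H3ZFrame
import Pool.Agent.Lib.MP_60cbcc_al.H3ZReiter

/-!
Asymptotically invariant unit sections.
-/

set_option linter.unusedSectionVars false

namespace Pool.Agent.Lib.MP_60cbcc_al.H3Z

open MeasureTheory Set Filter Topology
open scoped ENNReal NNReal RealInnerProductSpace

section Hilbert

variable {ι H : Type} [NormedAddCommGroup H] [InnerProductSpace ℝ H] [CompleteSpace H]
  {e : ι → H}

theorem xi_summable (he : Orthonormal ℝ e) {a : ι → ℝ} (ha : Summable fun i => a i ^ 2) :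
    Summable fun i => a i • e i := by
  have := (he.orthogonalFamily.summable_iff_norm_sq_summable a).2 (by simpa using ha)
  simpa using this

theorem xi_norm (he : Orthonormal ℝ e) {a : ι → ℝ} {v : H} (hv : HasSum (fun i => a i • e i) v) :
    HasSum (fun i => a i ^ 2) (‖v‖ ^ 2) := by
  have h1 : Tendsto (fun s : Finset ι => ‖∑ i ∈ s, a i • e i‖ ^ 2) atTop (𝓝 (‖v‖ ^ 2)) :=
    (Tendsto.norm hv).pow 2
  refine h1.congr fun s => ?_
  simpa using he.orthogonalFamily.norm_sum a s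

theorem xi_sqrt {a b : ℝ} (ha : 0 ≤ a) (hb : 0 ≤ b) : (√a - √b) ^ 2 ≤ |a - b| := by
  have h1 := Real.sq_sqrt ha
  have h2 := Real.sq_sqrt hb
  have h3 := Real.sqrt_nonneg a
  have h4 := Real.sqrt_nonneg b
  rcases le_total (√a) (√b) with h | h
  · exact le_trans (by nlinarith) (neg_le_abs _)
  · exact le_trans (by nlinarith) (le_abs_self _)

end Hilbert

variable {Γ G X : Type} [Group Γ] [Countable Γ] [Group G] [TopologicalSpace G]
  [IsTopologicalGroup G] [LocallyCompactSpace G] [SecondCountableTopology G] [T2Space G]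
  [MeasurableSpace G] [BorelSpace G] [MeasurableSpace X] [MulAction Γ X] [MeasurableConstSMul Γ X]
  {H : Type} [NormedAddCommGroup H] [InnerProductSpace ℝ H] [CompleteSpace H]
  {S : Setup Γ G X} {V : Γ → X → H →ₗᵢ[ℝ] H} {ε : X → X → H}

theorem xi_on (hfr : Frame V ε) (x : X) :
    Orthonormal ℝ fun p : MulAction.orbit Γ x => ε x p := by
  classical
  rw [orthonormal_iff_ite]
  rintro ⟨_, γ, rfl⟩ ⟨_, δ, rfl⟩
  simp only [hfr.inner]
  by_cases h : γ • x = δ • x
  · rw [if_pos h, if_pos (Subtype.ext h)]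
  · rw [if_neg h, if_neg fun h' => h (congrArg Subtype.val h')]

theorem xi_mset (S : Setup Γ G X) (y : X × G) (A : Set X) :
    MeasurableSet {h | (S.π (y.2 * h))⁻¹ • y.1 ∈ A} := by
  have : {h | (S.π (y.2 * h))⁻¹ • y.1 ∈ A} =
      ⋃ γ ∈ {γ : Γ | γ⁻¹ • y.1 ∈ A}, (fun h => y.2 * h) ⁻¹' {g | S.π g = γ} := by
    ext h
    simp
  rw [this]
  exact MeasurableSet.biUnion (to_countable _) fun γ _ => measurable_const_mul _ (S.mπ γ)

/-- The law of the label. -/
noncomputable def xiEta (S : Setup Γ G X) (κ : Measure G) (y : X × G) (p : X) : ℝ :=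
  κ.real {h | (S.π (y.2 * h))⁻¹ • y.1 = p}

theorem xiEta_nonneg (κ : Measure G) (y : X × G) (p : X) : 0 ≤ xiEta S κ y p := measureReal_nonneg

theorem xi_hasSum (κ : Measure G) [IsProbabilityMeasure κ] (y : X × G) (A : Set X) :
    HasSum (fun p : MulAction.orbit Γ y.1 => A.indicator (xiEta S κ y) p)
      (κ.real {h | (S.π (y.2 * h))⁻¹ • y.1 ∈ A}) := by
  have hc : Countable (MulAction.orbit Γ y.1) := (countable_range _).to_subtype
  have e : {h | (S.π (y.2 * h))⁻¹ • y.1 ∈ A} =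
      ⋃ p : MulAction.orbit Γ y.1, {h | (S.π (y.2 * h))⁻¹ • y.1 ∈ A ∩ {p.1}} := by
    ext h
    simp only [mem_ofPred_eq, mem_iUnion, mem_inter_iff, mem_singleton_iff]
    exact ⟨fun hh => ⟨⟨_, MulAction.mem_orbit _ _⟩, hh, rfl⟩, fun ⟨_, hh, _⟩ => hh⟩
  have h1 : κ {h | (S.π (y.2 * h))⁻¹ • y.1 ∈ A} =
      ∑' p : MulAction.orbit Γ y.1, κ {h | (S.π (y.2 * h))⁻¹ • y.1 ∈ A ∩ {p.1}} := by
    rw [e]
    refine measure_iUnion (fun p q hpq => disjoint_left.2 fun h h1 h2 => hpq ?_)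
      fun p => xi_mset S y _
    exact Subtype.ext (h1.2.symm.trans h2.2)
  have h2 := ENNReal.hasSum_toReal (h1 ▸ measure_ne_top κ _)
  rw [← ENNReal.tsum_toReal_eq fun _ => measure_ne_top κ _, ← h1] at h2
  refine HasSum.congr_fun h2 fun p => ?_
  by_cases hp : p.1 ∈ A
  · rw [indicator_of_mem hp, inter_eq_right.2 (singleton_subset_iff.2 hp)]
    rfl
  · rw [indicator_of_notMem hp, inter_singleton_eq_empty.2 hp]
    simp

theorem xi_hasSum_one (κ : Measure G) [IsProbabilityMeasure κ] (y : X × G) :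
    HasSum (fun p : MulAction.orbit Γ y.1 => xiEta S κ y p) 1 := by
  simpa using xi_hasSum (S := S) κ y univ

/-- The unit vector of the law of the label. -/
noncomputable def xiF (S : Setup Γ G X) (ε : X → X → H) (κ : Measure G) (y : X × G) : H :=
  ∑' p : MulAction.orbit Γ y.1, √(xiEta S κ y p) • ε y.1 p

theorem xiF_hasSum (hfr : Frame V ε) (κ : Measure G) [IsProbabilityMeasure κ] (y : X × G) :
    HasSum (fun p : MulAction.orbit Γ y.1 => √(xiEta S κ y p) • ε y.1 p) (xiF S ε κ y) :=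
  (xi_summable (xi_on hfr y.1) (by
    simpa only [Real.sq_sqrt (xiEta_nonneg κ y _)] using (xi_hasSum_one κ y).summable)).hasSum

theorem xiF_norm (hfr : Frame V ε) (κ : Measure G) [IsProbabilityMeasure κ] (y : X × G) :
    ‖xiF S ε κ y‖ = 1 := by
  have h := xi_norm (xi_on hfr y.1) (xiF_hasSum (S := S) hfr κ y)
  simp only [Real.sq_sqrt (xiEta_nonneg κ y _)] at h
  exact (pow_eq_one_iff_of_nonneg (norm_nonneg _) two_ne_zero).1 (h.unique (xi_hasSum_one κ y))

theorem xiF_mem (hfr : Frame V ε) (κ : Measure G) [IsProbabilityMeasure κ] (y : X × G) :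
    xiF S ε κ y ∈ closure (Submodule.span ℝ (range fun γ : Γ => ε y.1 (γ • y.1)) : Set H) := by
  refine mem_closure_of_tendsto (xiF_hasSum (S := S) hfr κ y) (Eventually.of_forall fun s => ?_)
  refine Submodule.sum_mem _ ?_
  rintro ⟨_, γ, rfl⟩ -
  exact Submodule.smul_mem _ _ (Submodule.subset_span ⟨γ, rfl⟩)

theorem xiF_eqv (hfr : Frame V ε) (κ : Measure G) [IsProbabilityMeasure κ] (γ : Γ) (x : X)
    (g : G) : xiF S ε κ (γ • x, S.j γ * g) = V γ x (xiF S ε κ (x, g)) := by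
  have h1 := (xiF_hasSum (S := S) hfr κ (x, g)).mapL (V γ x).toContinuousLinearMap
  have h2 : xiEta S κ (γ • x, S.j γ * g) = xiEta S κ (x, g) := by
    funext p
    simp only [xiEta, mul_assoc, S.eqv, mul_inv_rev, mul_smul, inv_smul_smul]
  have h3 : ∀ O : Set X, O = MulAction.orbit Γ x →
      ∑' p : O, √(xiEta S κ (x, g) p) • ε (γ • x) p = V γ x (xiF S ε κ (x, g)) := by
    rintro _ rfl
    refine HasSum.tsum_eq ?_
    refine HasSum.congr_fun h1 fun p => ?_
    obtain ⟨_, δ, rfl⟩ := p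
    simp [hfr.eqv]
  unfold xiF at h3 ⊢
  rw [h2]
  exact h3 _ (MulAction.orbit_smul γ x)

theorem xiF_dist (hfr : Frame V ε) (κ : Measure G) [IsProbabilityMeasure κ] (x : X) (g g' : G) :
    ‖xiF S ε κ (x, g) - xiF S ε κ (x, g')‖ ^ 2 ≤ 2 *
      (κ.real {h | (S.π (g * h))⁻¹ • x ∈ {p | xiEta S κ (x, g') p < xiEta S κ (x, g) p}} -
        κ.real {h | (S.π (g' * h))⁻¹ • x ∈ {p | xiEta S κ (x, g') p < xiEta S κ (x, g) p}}) := by
  have h1 := (xiF_hasSum (S := S) hfr κ (x, g)).sub (xiF_hasSum (S := S) hfr κ (x, g'))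
  simp only [← sub_smul] at h1
  have h2 := xi_norm (xi_on hfr x) h1
  set A := {p | xiEta S κ (x, g') p < xiEta S κ (x, g) p} with hA
  have h3 := (((xi_hasSum (S := S) κ (x, g) A).sub (xi_hasSum (S := S) κ (x, g') A)).mul_left
    2).sub ((xi_hasSum_one (S := S) κ (x, g)).sub (xi_hasSum_one (S := S) κ (x, g')))
  rw [sub_self, sub_zero] at h3
  refine hasSum_le (fun p => ?_) h2 h3
  refine (xi_sqrt (xiEta_nonneg _ _ _) (xiEta_nonneg _ _ _)).trans ?_
  by_cases hp : p.1 ∈ A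
  · rw [indicator_of_mem hp, indicator_of_mem hp, abs_of_pos (sub_pos.2 hp)]
    linarith
  · rw [indicator_of_notMem hp, indicator_of_notMem hp, abs_of_nonpos (sub_nonpos.2 (not_lt.1 hp))]
    linarith

theorem xi_meq (S : Setup Γ G X) (γ δ : Γ) : MeasurableSet {x : X | δ • x = γ • x} := by
  convert S.fix (γ⁻¹ * δ) using 3 with x
  rw [mul_smul, inv_smul_eq_iff]

theorem xiEta_meas (κ : Measure G) [IsProbabilityMeasure κ] (γ : Γ) :
    Measurable fun y : X × G => xiEta S κ y (γ • y.1) := by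
  have h : MeasurableSet {z : (X × G) × G | (S.π (z.1.2 * z.2))⁻¹ • z.1.1 = γ • z.1.1} := by
    have : {z : (X × G) × G | (S.π (z.1.2 * z.2))⁻¹ • z.1.1 = γ • z.1.1} =
        ⋃ δ : Γ, (fun z => z.1.2 * z.2) ⁻¹' {g | S.π g = δ} ∩
          (fun z => z.1.1) ⁻¹' {x | δ⁻¹ • x = γ • x} := by
      ext z
      simp
    rw [this]
    exact MeasurableSet.iUnion fun δ => (Measurable.mul (by fun_prop) (by fun_prop) (S.mπ δ)).inter
      (measurable_fst.fst (xi_meq S γ δ⁻¹))
  exact (measurable_measure_prodMk_left h).ennreal_toReal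

theorem xiF_meas (hfr : Frame V ε) (κ : Measure G) [IsProbabilityMeasure κ] :
    StronglyMeasurable (xiF S ε κ) := by
  classical
  obtain ⟨c, hc⟩ := Countable.exists_injective_nat Γ
  let T : Γ → Set (X × G) := fun γ => {y | ∀ δ : Γ, δ • y.1 = γ • y.1 → c γ ≤ c δ}
  have hT : ∀ γ, MeasurableSet (T γ) := fun γ => by
    have : T γ = ⋂ δ ∈ {δ | c δ < c γ}, Prod.fst ⁻¹' {x | δ • x = γ • x}ᶜ := by
      ext y
      simp only [T, mem_ofPred_eq, mem_iInter, mem_preimage, mem_compl_iff]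
      exact forall_congr' fun δ => ⟨fun h h1 h2 => (h h2).not_gt h1, fun h h1 => not_lt.1 fun h2 =>
        h h2 h1⟩
    rw [this]
    exact MeasurableSet.biInter (to_countable _) fun δ _ => measurable_fst (xi_meq S γ δ).compl
  let f : Γ → X × G → H := fun γ => (T γ).indicator fun y =>
    √(xiEta S κ y (γ • y.1)) • ε y.1 (γ • y.1)
  have hf : ∀ γ, StronglyMeasurable (f γ) := fun γ =>
    ((xiEta_meas κ γ).sqrt.stronglyMeasurable.smul
      ((hfr.meas γ).comp_measurable measurable_fst)).indicator (hT γ)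
  refine stronglyMeasurable_of_tendsto (atTop : Filter (Finset Γ))
    (f := fun s y => ∑ γ ∈ s, f γ y) (fun s => Finset.stronglyMeasurable_fun_sum s fun γ _ => hf γ)
    (tendsto_pi_nhds.2 fun y => ?_)
  have hex : ∀ p : MulAction.orbit Γ y.1, ∃ γ : Γ, γ • y.1 = p ∧ y ∈ T γ := by
    rintro ⟨_, γ, rfl⟩
    obtain ⟨δ, h1, h2⟩ := (InvImage.wf c wellFounded_lt).has_min {δ : Γ | δ • y.1 = γ • y.1}
      ⟨γ, rfl⟩
    exact ⟨δ, h1, fun δ' h3 => not_lt.1 (h2 δ' (h3.trans h1))⟩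
  choose s hs1 hs2 using hex
  have hi : Function.Injective s := fun p q h => Subtype.ext (by rw [← hs1, ← hs1, h])
  have : HasSum (fun γ => f γ y) (xiF S ε κ y) := by
    refine (hi.hasSum_iff fun γ hγ => indicator_of_notMem (fun h => hγ ?_) _).1 ?_
    · have h1 := hs1 ⟨_, MulAction.mem_orbit y.1 γ⟩
      exact ⟨_, hc (le_antisymm (hs2 _ γ h1.symm) (h _ h1))⟩
    · convert xiF_hasSum (S := S) hfr κ y using 2 with p
      simp only [Function.comp, f, indicator_of_mem (hs2 p), hs1]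
  exact this

theorem exists_xi (hfr : Frame V ε) (κ : ℕ → Measure G) [∀ n, IsProbabilityMeasure (κ n)]
    (hR : Reiter S κ) : ∃ ξ : ℕ → Sec S V, (∀ n y, ‖ξ n y‖ = 1) ∧
      (∀ n y, ξ n y ∈ closure (Submodule.span ℝ (range fun γ : Γ => ε y.1 (γ • y.1)) : Set H)) ∧
      ∀ ν : Measure G, IsProbabilityMeasure ν →
        Tendsto (fun n => ‖(1 - Av S V ν) (ξ n)‖) atTop (𝓝 0) := by
  let ξ : ℕ → Sec S V := fun n => Sec.mk' (xiF S ε (κ n)) (xiF_meas hfr _)
    ⟨1, fun y => (xiF_norm hfr _ y).le⟩ (xiF_eqv hfr _)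
  have h1 : ∀ n y, ‖ξ n y‖ = 1 := fun n => xiF_norm hfr _
  refine ⟨ξ, h1, fun n => xiF_mem hfr _, fun ν hν => ?_⟩
  have h2 : ∀ᵐ x ∂S.μ, ∀ g g' : G,
      Tendsto (fun n => ξ n (x, g) - ξ n (x, g')) atTop (𝓝 0) := by
    filter_upwards [hR] with x hx g g'
    have h3 := (hx g g' fun n =>
      {p | xiEta S (κ n) (x, g') p < xiEta S (κ n) (x, g) p}).const_mul 2
    rw [mul_zero] at h3
    have h4 := (squeeze_zero (fun n => sq_nonneg _) (fun n => xiF_dist hfr (κ n) x g g') h3).sqrt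
    simp only [Real.sqrt_sq (norm_nonneg _), Real.sqrt_zero] at h4
    exact tendsto_zero_iff_norm_tendsto_zero.2 h4
  have h3 : ∀ n y, (1 - Av S V ν) (ξ n) y = ∫ h, ξ n y - ξ n (y.1, y.2 * h) ∂ν := fun n y => by
    rw [integral_sub (integrable_const _) (int_sl S V (ξ n) ν y.1 y.2), ← Av_apply]
    simp
  have hb : ∀ n y y', ‖ξ n y - ξ n y'‖ ≤ 2 := fun n y y' =>
    (norm_sub_le _ _).trans (by rw [h1, h1]; norm_num)
  have h4 : ∀ᵐ y ∂S.m, Tendsto (fun n => ‖(1 - Av S V ν) (ξ n) y‖ ^ 2) atTop (𝓝 0) := by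
    filter_upwards [Measure.quasiMeasurePreserving_fst.ae h2] with y hy
    have := tendsto_integral_of_dominated_convergence (μ := ν)
      (F := fun n h => ξ n y - ξ n (y.1, y.2 * h)) (f := fun _ => 0) (fun _ => 2)
      (fun n => ((integrable_const _).sub (int_sl S V (ξ n) ν y.1 y.2)).aestronglyMeasurable)
      (integrable_const _) (fun n => ae_of_all _ fun h => hb n _ _)
      (ae_of_all _ fun h => hy y.2 (y.2 * h))
    simp only [h3]
    simpa using this.norm.pow 2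
  have h5 := tendsto_integral_of_dominated_convergence (μ := S.m)
    (F := fun n y => ‖(1 - Av S V ν) (ξ n) y‖ ^ 2) (f := fun _ => 0) (fun _ => 2 ^ 2)
    (fun n => (((1 - Av S V ν) (ξ n)).meas.norm.pow 2).aestronglyMeasurable)
    (integrable_const _) (fun n => ae_of_all _ fun y => by
      rw [Real.norm_of_nonneg (sq_nonneg _), h3]
      refine pow_le_pow_left₀ (norm_nonneg _) ?_ 2
      simpa using norm_integral_le_of_norm_le_const (μ := ν)
        (ae_of_all _ fun h => hb n y (y.1, y.2 * h))) h4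
  have h6 := h5.sqrt
  simp only [← Sec.norm_sq, Real.sqrt_sq (norm_nonneg _), integral_zero, Real.sqrt_zero] at h6
  exact h6

end Pool.Agent.Lib.MP_60cbcc_al.H3Z
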