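import Pool.Agent.Lib.MP_60cbcc_al.H3ZGap
import Pool.Agent.Lib.MP_60cbcc_al.H3ZXi

namespace Pool.Agent.Lib.MP_60cbcc_al.H3Z

open MeasureTheory MulAction Filter Topology
open scoped RealInnerProductSpace Pointwise

theorem coreK {Γ G₁ G₂ X : Type} [Group Γ] [Countable Γ]
    [Group G₁] [TopologicalSpace G₁] [IsTopologicalGroup G₁] [LocallyCompactSpace G₁]
    [SecondCountableTopology G₁] [T2Space G₁] [MeasurableSpace G₁] [BorelSpace G₁]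
    [Group G₂] [TopologicalSpace G₂] [IsTopologicalGroup G₂] [LocallyCompactSpace G₂]
    [SecondCountableTopology G₂] [T2Space G₂] [MeasurableSpace G₂] [BorelSpace G₂]
    (h₁ : ∃ S : Set G₁, IsCompact S ∧ Subgroup.closure S = ⊤)
    (h₂ : ∃ S : Set G₂, IsCompact S ∧ Subgroup.closure S = ⊤)
    (K₁ : Subgroup G₁) (K₂ : Subgroup G₂) (hK₁ : IsCompact (K₁ : Set G₁))
    (hK₂ : IsCompact (K₂ : Set G₂)) (j : Γ →* G₁ × G₂) (hj : Lat j)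
    [MeasurableSpace X] [MulAction Γ X] [MeasurableConstSMul Γ X] (μ : Measure X)
    [IsProbabilityMeasure μ] [SMulInvariantMeasure Γ X μ]
    (hF : ∀ γ : Γ, MeasurableSet {x : X | γ • x = x})
    (hd : ∀ᵐ x ∂μ,
      Dense ((fun γ => (j γ).1) '' (⁅stabilizer Γ x, stabilizer Γ x⁆ : Subgroup Γ) *
        (K₁ : Set G₁)) ∧
      Dense ((fun γ => (j γ).2) '' (⁅stabilizer Γ x, stabilizer Γ x⁆ : Subgroup Γ) *
        (K₂ : Set G₂)))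
    (hinf : ∀ᵐ x ∂μ, (orbit Γ x).Infinite) : False := by
  obtain ⟨S, rfl, rfl⟩ := exists_setup j hj μ hF
  obtain ⟨⟨W₁, rfl⟩, ⟨W₂, rfl⟩⟩ := exists_spl S h₁ h₂ K₁ K₂ hK₁ hK₂
  let P : Spl (G₁ × G₂) G₁ G₂ := ⟨ContinuousMulEquiv.refl _, W₁, W₂⟩
  obtain ⟨V, ε, hfr⟩ := exists_frame hF
  have hle : ∀ x : X, ((⁅stabilizer Γ x, stabilizer Γ x⁆ : Subgroup Γ) : Set Γ) ⊆
      {γ : Γ | γ • x = x} := fun x => Subgroup.commutator_le_self _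
  obtain ⟨κ, hκ, hR⟩ := reiter S W₁ W₂
    (hd.mono fun x h => h.1.mono (Set.mul_subset_mul_right (Set.image_mono (hle x))))
    (hd.mono fun x h => h.2.mono (Set.mul_subset_mul_right (Set.image_mono (hle x))))
  obtain ⟨ξ, hξ₁, hξ₂, hξ₃⟩ := exists_xi hfr κ hR
  obtain ⟨k₀, hk₀⟩ := P.gap S V hfr.fix (hd.mono fun x h => h.1) (hd.mono fun x h => h.2)
  have O := P.ops S V
  have hL := P.Av_ν S V
  have hpow := fun n => Av_cpow (S := S) (V := V) P.ν n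
  have cQ : ∀ z, ‖Av S V P.ν z‖ ≤ ‖z‖ := norm_Av_le _
  have sQ : ∀ u v, ⟪Av S V P.ν u, v⟫ = ⟪u, Av S V P.ν v⟫ := Av_symm _
  have h3 := hξ₃ P.ν inferInstance
  set Q := Av S V P.ν with hQ
  have hn : ∀ n, ‖ξ n‖ = 1 := fun n => by
    have : ‖ξ n‖ ^ 2 = 1 := by simp [Sec.norm_sq, hξ₁]
    exact (pow_eq_one_iff_of_nonneg (norm_nonneg _) two_ne_zero).1 this
  have near : ∀ m : ℕ, Tendsto (fun n => ⟪(Q ^ m) (ξ n), ξ n⟫) atTop (𝓝 1) := fun m => by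
    refine tendsto_sub_nhds_zero_iff.1 (squeeze_zero_norm (fun n => ?_)
      (by simpa using h3.const_mul (m : ℝ)))
    have e : ⟪(Q ^ m) (ξ n), ξ n⟫ - 1 = -⟪(1 - Q ^ m) (ξ n), ξ n⟫ := by
      simp [inner_sub_left, hn]
    rw [e, norm_neg]
    refine (norm_inner_le_norm _ _).trans ?_
    rw [hn, mul_one]
    exact norm_one_sub_pow cQ m _
  have hF1 : Tendsto (fun n => 3 * ⟪(Q ^ 2 ^ (k₀ + 2)) (ξ n), ξ n⟫ -
      2 * ⟪(Q ^ (3 * 2 ^ (k₀ + 1))) (ξ n), ξ n⟫) atTop (𝓝 (3 * 1 - 2 * 1)) :=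
    ((near _).const_mul 3).sub ((near _).const_mul 2)
  obtain ⟨n, hn'⟩ := (hF1.eventually (lt_mem_nhds (show (19 / 20 : ℝ) < _ by norm_num))).exists
  have hb : ∀ m y, ‖(Q ^ m) (ξ n) y‖ ≤ 1 := fun m y => by
    rw [← hpow]; exact norm_Av_apply_le _ _ (fun y => (hξ₁ n y).le) y
  have d₀ : Tendsto (fun m => ‖(1 - Q) ((Q ^ m) (ξ n))‖) atTop (𝓝 0) := by
    have h := tendsto_one_div_add_atTop_nhds_zero_nat (𝕜 := ℝ)
    have h' : Tendsto (fun m => ‖(1 - Q) ((Q ^ m) (ξ n))‖ ^ 2) atTop (𝓝 0) :=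
      squeeze_zero (fun _ => sq_nonneg _) (fun m => by simpa [← hL, hn] using O.decay (ξ n) m) h
    simpa using h'.sqrt
  have d₁ : Tendsto (fun m => ‖(1 - P.R₁ S V) ((Q ^ m) (ξ n))‖) atTop (𝓝 0) :=
    squeeze_zero (fun _ => norm_nonneg _) (fun m => hL ▸ O.d₁ _) (by simpa using d₀.const_mul 4)
  have d₂ : Tendsto (fun m => ‖(1 - P.R₂ S V) ((Q ^ m) (ξ n))‖) atTop (𝓝 0) :=
    squeeze_zero (fun _ => norm_nonneg _) (fun m => hL ▸ O.d₂ _) (by simpa using d₀.const_mul 4)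
  have d₃ := decay hfr hinf (ξ n) (hξ₂ n) (fun m => P.R₁ S V (P.R₂ S V ((Q ^ m) (ξ n))))
    (fun m => norm_Av_apply_le _ _ (norm_Av_apply_le _ _ (hb m)))
    fun γ => P.left_inv S V _ hb d₁ d₂ _
  have far : Tendsto (fun m => ⟪(Q ^ m) (ξ n), ξ n⟫) atTop (𝓝 0) := by
    have h : Tendsto (fun m => ⟪(Q ^ m) (ξ n), ξ n⟫ -
        ⟪P.R₁ S V (P.R₂ S V ((Q ^ m) (ξ n))), ξ n⟫) atTop (𝓝 0) := by
      refine squeeze_zero_norm (fun m => ?_) (by simpa using d₁.add d₂)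
      rw [← inner_sub_left]
      refine (norm_inner_le_norm _ _).trans ?_
      rw [hn, mul_one]
      refine le_of_eq_of_le ?_ (norm_add_le_of_le (le_refl ‖(1 - P.R₁ S V) ((Q ^ m) (ξ n))‖)
        (O.c₁ ((1 - P.R₂ S V) ((Q ^ m) (ξ n)))))
      simp
    simpa using h.add d₃
  have t₁ : Tendsto (fun K : ℕ => 2 ^ (K + 2)) atTop atTop :=
    (tendsto_pow_atTop_atTop_of_one_lt one_lt_two).comp (tendsto_add_atTop_nat 2)
  have t₂ : Tendsto (fun K : ℕ => 3 * 2 ^ (K + 1)) atTop atTop :=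
    ((tendsto_pow_atTop_atTop_of_one_lt one_lt_two).comp
      (tendsto_add_atTop_nat 1)).const_mul_atTop' (by norm_num)
  have hF2 : Tendsto (fun K => 3 * ⟪(Q ^ 2 ^ (K + 2)) (ξ n), ξ n⟫ -
      2 * ⟪(Q ^ (3 * 2 ^ (K + 1))) (ξ n), ξ n⟫) atTop (𝓝 (3 * 0 - 2 * 0)) :=
    ((far.comp t₁).const_mul 3).sub ((far.comp t₂).const_mul 2)
  obtain ⟨K, hK, hK'⟩ := ((hF2.eventually (gt_mem_nhds (show _ < (1 / 20 : ℝ) by norm_num))).and
    (eventually_ge_atTop k₀)).exists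
  have := lower sQ cQ (ξ n) hK'
  have := hk₀ (ξ n) (fun y => (hξ₁ n y).le) K
  linarith

end Pool.Agent.Lib.MP_60cbcc_al.H3Z
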