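import Mathlib

/-!
Functions invariant under a subgroup whose commutator subgroup has dense projection.
-/

set_option linter.unusedSectionVars false

namespace Pool.Agent.Lib.MP_60cbcc_al.H3Z

open MeasureTheory Set Filter Topology MulAction
open scoped Pointwise

variable {G₁ G₂ H : Type} [NormedAddCommGroup H]

/-- Mixed second differences are bounded by `η` on `A₁ × A₂`. -/
def BoxLe (f : G₁ × G₂ → H) (A₁ : Set G₁) (A₂ : Set G₂) (η : ℝ) : Prop :=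
  ∀ a ∈ A₁, ∀ a' ∈ A₁, ∀ b ∈ A₂, ∀ b' ∈ A₂, ‖f (a, b) - f (a', b) - f (a, b') + f (a', b')‖ ≤ η

variable {Γ X : Type} [Group Γ] [Countable Γ] [MeasurableSpace X] [MulAction Γ X]
  [Group G₁] [TopologicalSpace G₁] [IsTopologicalGroup G₁] [LocallyCompactSpace G₁]
  [SecondCountableTopology G₁] [T2Space G₁]
  [Group G₂] [TopologicalSpace G₂] [IsTopologicalGroup G₂] [LocallyCompactSpace G₂]
  [SecondCountableTopology G₂] [T2Space G₂]

theorem BoxLe.mono {f : G₁ × G₂ → H} {A₁ B₁ : Set G₁} {A₂ B₂ : Set G₂} {η : ℝ}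
    (h : BoxLe f A₁ A₂ η) (h₁ : B₁ ⊆ A₁) (h₂ : B₂ ⊆ A₂) : BoxLe f B₁ B₂ η :=
  fun a ha a' ha' b hb b' hb' => h a (h₁ ha) a' (h₁ ha') b (h₂ hb) b' (h₂ hb')

/-- Left translation by `v` in the first variable is controlled by mixed second differences. -/
def Ctrl (H : Type) [NormedAddCommGroup H] (J : Γ →* G₁ × G₂) (Λ : Subgroup Γ) (v : G₁) : Prop :=
  ∃ (F : Finset Γ) (E₁ : Set G₁) (E₂ : Set G₂) (n : ℝ), (∀ γ ∈ F, γ ∈ Λ) ∧ IsCompact E₁ ∧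
    IsCompact E₂ ∧ 0 ≤ n ∧ ∀ f : G₁ × G₂ → H, (∀ γ ∈ F, ∀ y, f (J γ * y) = f y) →
      ∀ (g : G₁) (η : ℝ), 0 ≤ η → BoxLe (fun y => f (y.1 * g, y.2)) E₁ E₂ η →
        ‖f (v * g, 1) - f (g, 1)‖ ≤ n * η

theorem ctrl_one (J : Γ →* G₁ × G₂) (Λ : Subgroup Γ) : Ctrl H J Λ 1 :=
  ⟨∅, ∅, ∅, 0, by simp, isCompact_empty, isCompact_empty, le_rfl, fun f _ g η _ _ => by simp⟩

theorem ctrl_mul {J : Γ →* G₁ × G₂} {Λ : Subgroup Γ} {v v' : G₁} (h : Ctrl H J Λ v)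
    (h' : Ctrl H J Λ v') : Ctrl H J Λ (v * v') := by
  classical
  obtain ⟨F, E₁, E₂, n, hF, c₁, c₂, hn, hc⟩ := h
  obtain ⟨F', E₁', E₂', n', hF', c₁', c₂', hn', hc'⟩ := h'
  refine ⟨F ∪ F', (fun a => a * v') '' E₁ ∪ E₁', E₂ ∪ E₂', n + n', ?_,
    (c₁.image (continuous_mul_const v')).union c₁', c₂.union c₂', by linarith, ?_⟩
  · intro γ hγ
    rcases Finset.mem_union.1 hγ with hγ | hγ
    exacts [hF γ hγ, hF' γ hγ]
  · intro f hf g η hη hb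
    have h1 := hc f (fun γ hγ => hf γ (Finset.mem_union_left _ hγ)) (v' * g) η hη (by
      intro a ha a' ha' b hb1 b' hb'
      have := hb (a * v') (Or.inl ⟨a, ha, rfl⟩) (a' * v') (Or.inl ⟨a', ha', rfl⟩) b (Or.inl hb1)
        b' (Or.inl hb')
      simpa only [mul_assoc] using this)
    have h2 := hc' f (fun γ hγ => hf γ (Finset.mem_union_right _ hγ)) g η hη
      (hb.mono subset_union_right subset_union_right)
    have h3 := norm_sub_le_norm_sub_add_norm_sub (f (v * (v' * g), 1)) (f (v' * g, 1)) (f (g, 1))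
    rw [mul_assoc]
    linarith

theorem ctrl_inv {J : Γ →* G₁ × G₂} {Λ : Subgroup Γ} {v : G₁} (h : Ctrl H J Λ v) :
    Ctrl H J Λ v⁻¹ := by
  obtain ⟨F, E₁, E₂, n, hF, c₁, c₂, hn, hc⟩ := h
  refine ⟨F, (fun a => a * v⁻¹) '' E₁, E₂, n, hF, c₁.image (continuous_mul_const _), c₂, hn, ?_⟩
  intro f hf g η hη hb
  have h1 := hc f hf (v⁻¹ * g) η hη (by
    intro a ha a' ha' b hb1 b' hb'
    have := hb (a * v⁻¹) ⟨a, ha, rfl⟩ (a' * v⁻¹) ⟨a', ha', rfl⟩ b hb1 b' hb'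
    simpa only [mul_assoc] using this)
  rw [mul_inv_cancel_left, norm_sub_rev] at h1
  exact h1

theorem ctrl_comm {J : Γ →* G₁ × G₂} {Λ : Subgroup Γ} {l l' : Γ} (hl : l ∈ Λ) (hl' : l' ∈ Λ) :
    Ctrl H J Λ (J (l * l' * l⁻¹ * l'⁻¹)).1 := by
  classical
  set v := (J l).1 with hv
  set v' := (J l').1 with hv'
  set c := (J l).2 with hc
  set c' := (J l').2 with hc'
  have e : (J (l * l' * l⁻¹ * l'⁻¹)).1 = v * v' * v⁻¹ * v'⁻¹ := by
    simp [hv, hv']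
  refine ⟨{l, l'}, {v * v' * v⁻¹ * v'⁻¹, v'⁻¹, 1, v' * v⁻¹ * v'⁻¹}, {1, c, c'}, 2, ?_,
    (Set.toFinite _).isCompact, (Set.toFinite _).isCompact, by norm_num, ?_⟩
  · intro γ hγ
    rcases Finset.mem_insert.1 hγ with rfl | hγ
    · exact hl
    · rw [Finset.mem_singleton.1 hγ]; exact hl'
  · intro f hf g η hη hb
    have i1 : ∀ a, f (v * a, c) = f (a, 1) := fun a => by
      have := hf l (by simp) (a, 1)
      rwa [show J l * (a, 1) = (v * a, c) from Prod.ext rfl (mul_one _)] at this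
    have i2 : ∀ a, f (v' * a, c') = f (a, 1) := fun a => by
      have := hf l' (by simp) (a, 1)
      rwa [show J l' * (a, 1) = (v' * a, c') from Prod.ext rfl (mul_one _)] at this
    have b1 := hb (v * v' * v⁻¹ * v'⁻¹) (by simp) v'⁻¹ (by simp) 1 (by simp) c (by simp)
    have b2 := hb 1 (by simp) (v' * v⁻¹ * v'⁻¹) (by simp) 1 (by simp) c' (by simp)
    simp only at b1 b2
    have j1 := i1 (v' * v⁻¹ * v'⁻¹ * g)
    have j2 := i1 (v⁻¹ * v'⁻¹ * g)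
    have j3 := i2 (v'⁻¹ * g)
    have j4 := i2 (v⁻¹ * v'⁻¹ * g)
    rw [show v * (v' * v⁻¹ * v'⁻¹ * g) = v * v' * v⁻¹ * v'⁻¹ * g by group] at j1
    rw [show v * (v⁻¹ * v'⁻¹ * g) = v'⁻¹ * g by group] at j2
    rw [show v' * (v'⁻¹ * g) = g by group] at j3
    rw [show v' * (v⁻¹ * v'⁻¹ * g) = v' * v⁻¹ * v'⁻¹ * g by group] at j4
    rw [one_mul] at b2
    rw [j1, j2] at b1
    rw [j3, j4] at b2
    rw [e]
    have h3 := norm_sub_le
      (f (v * v' * v⁻¹ * v'⁻¹ * g, 1) - f (v'⁻¹ * g, 1) - f (v' * v⁻¹ * v'⁻¹ * g, 1) +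
        f (v⁻¹ * v'⁻¹ * g, 1))
      (f (g, 1) - f (v' * v⁻¹ * v'⁻¹ * g, 1) - f (v'⁻¹ * g, 1) + f (v⁻¹ * v'⁻¹ * g, 1))
    rw [show f (v * v' * v⁻¹ * v'⁻¹ * g, 1) - f (v'⁻¹ * g, 1) - f (v' * v⁻¹ * v'⁻¹ * g, 1) +
        f (v⁻¹ * v'⁻¹ * g, 1) -
      (f (g, 1) - f (v' * v⁻¹ * v'⁻¹ * g, 1) - f (v'⁻¹ * g, 1) + f (v⁻¹ * v'⁻¹ * g, 1)) =
      f (v * v' * v⁻¹ * v'⁻¹ * g, 1) - f (g, 1) by abel] at h3
    linarith

theorem ctrl_of_mem {J : Γ →* G₁ × G₂} {Λ : Subgroup Γ} {l : Γ} (hl : l ∈ (⁅Λ, Λ⁆ : Subgroup Γ)) :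
    Ctrl H J Λ (J l).1 := by
  let C : Subgroup Γ :=
    { carrier := {l | Ctrl H J Λ (J l).1}
      one_mem' := by simpa using ctrl_one J Λ
      mul_mem' := fun ha hb => by simpa using ctrl_mul ha hb
      inv_mem' := fun ha => by simpa using ctrl_inv ha }
  have : ⁅Λ, Λ⁆ ≤ C := Subgroup.commutator_le.2 fun a ha b hb =>
    ctrl_comm (H := H) (J := J) ha hb
  exact this hl

/-- The conclusion of `good` for functions invariant under a finite set. -/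
def Near (H : Type) [NormedAddCommGroup H] (J : Γ →* G₁ × G₂) (U : Set G₁) (F : Finset Γ)
    (A₁ : Set G₁) (A₂ : Set G₂) (n : ℝ) (K : Set G₁) : Prop :=
  ∀ f : G₁ × G₂ → H, (∀ γ ∈ F, ∀ y, f (J γ * y) = f y) → ∀ η, 0 ≤ η → BoxLe f A₁ A₂ η →
    ∀ g ∈ K, ∃ u ∈ U, ‖f (g, 1) - f (u, 1)‖ ≤ n * η

theorem Near.mono {J : Γ →* G₁ × G₂} {U K K' : Set G₁} {F F' : Finset Γ} {A₁ A₁' : Set G₁}
    {A₂ A₂' : Set G₂} {n n' : ℝ} (h : Near H J U F A₁ A₂ n K) (hF : F ⊆ F') (h₁ : A₁ ⊆ A₁')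
    (h₂ : A₂ ⊆ A₂') (hn : n ≤ n') (hK : K' ⊆ K) : Near H J U F' A₁' A₂' n' K' := by
  intro f hf η hη hb g hg
  obtain ⟨u, hu, h1⟩ := h f (fun γ hγ => hf γ (hF hγ)) η hη (hb.mono h₁ h₂) g (hK hg)
  exact ⟨u, hu, h1.trans (mul_le_mul_of_nonneg_right hn hη)⟩

theorem exists_near {J : Γ →* G₁ × G₂} {Λ : Subgroup Γ} {C : Set G₁} (hC : IsCompact C)
    (hd : Dense ((fun γ => (J γ).1) '' (⁅Λ, Λ⁆ : Subgroup Γ) * C)) {K U : Set G₁}
    (hK : IsCompact K) (hU : U ∈ 𝓝 (1 : G₁)) :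
    ∃ (F : Finset Γ) (A₁ : Set G₁) (A₂ : Set G₂) (n : ℝ),
      (∀ γ ∈ F, γ ∈ Λ) ∧ IsCompact A₁ ∧ IsCompact A₂ ∧ Near H J (C * U) F A₁ A₂ n K := by
  classical
  obtain ⟨U₀, hU₀, hsub, hc₀⟩ := local_compact_nhds hU
  refine hK.induction_on (p := fun S => ∃ (F : Finset Γ) (A₁ : Set G₁) (A₂ : Set G₂) (n : ℝ),
      (∀ γ ∈ F, γ ∈ Λ) ∧ IsCompact A₁ ∧ IsCompact A₂ ∧ Near H J (C * U) F A₁ A₂ n S) ?_ ?_ ?_ ?_
  · exact ⟨∅, ∅, ∅, 0, by simp, isCompact_empty, isCompact_empty,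
      fun f _ η _ _ g hg => absurd hg (notMem_empty g)⟩
  · rintro s t hst ⟨F, A₁, A₂, n, h1, h2, h3, h4⟩
    exact ⟨F, A₁, A₂, n, h1, h2, h3, h4.mono subset_rfl subset_rfl subset_rfl le_rfl hst⟩
  · rintro s t ⟨F, A₁, A₂, n, h1, h2, h3, h4⟩ ⟨F', A₁', A₂', n', h1', h2', h3', h4'⟩
    refine ⟨F ∪ F', A₁ ∪ A₁', A₂ ∪ A₂', max n n', ?_, h2.union h2', h3.union h3', ?_⟩
    · intro γ hγ
      rcases Finset.mem_union.1 hγ with hγ | hγ
      exacts [h1 γ hγ, h1' γ hγ]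
    · intro f hf η hη hb g hg
      rcases hg with hg | hg
      · exact h4.mono Finset.subset_union_left subset_union_left subset_union_left
          (le_max_left _ _) subset_rfl f hf η hη hb g hg
      · exact h4'.mono Finset.subset_union_right subset_union_right subset_union_right
          (le_max_right _ _) subset_rfl f hf η hη hb g hg
  · intro g _
    have ho : IsOpen {v : G₁ | v⁻¹ * g ∈ interior U₀} :=
      isOpen_interior.preimage (by fun_prop)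
    obtain ⟨_, hv, _, ⟨l, hl, rfl⟩, k, hk, rfl⟩ := hd.inter_open_nonempty _ ho
      ⟨g, by simpa using mem_interior_iff_mem_nhds.2 hU₀⟩
    obtain ⟨F, E₁, E₂, n, hF, c₁, c₂, hn, hc⟩ := ctrl_of_mem (H := H) (J := J) hl
    have ho' : IsOpen {a : G₁ | ((J l).1 * k)⁻¹ * a ∈ interior U₀} :=
      isOpen_interior.preimage (by fun_prop)
    refine ⟨_, mem_nhdsWithin_of_mem_nhds (ho'.mem_nhds hv), F, E₁ * (C * U₀), E₂, n, hF,
      c₁.mul (hC.mul hc₀), c₂, ?_⟩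
    intro f hf η hη hb a ha
    have hu : ((J l).1)⁻¹ * a ∈ C * U₀ := ⟨k, hk, _, interior_subset ha, by simp [mul_assoc]⟩
    refine ⟨_, mul_subset_mul_left hsub hu, ?_⟩
    have := hc f hf (((J l).1)⁻¹ * a) η hη (fun b hb1 b' hb' d hd d' hd' =>
      hb _ (mul_mem_mul hb1 hu) _ (mul_mem_mul hb' hu) d hd d' hd')
    rwa [mul_inv_cancel_left] at this

theorem good (H : Type) [NormedAddCommGroup H] (J : Γ →* G₁ × G₂) (μ : Measure X)
    [IsProbabilityMeasure μ] (hF : ∀ γ : Γ, MeasurableSet {x : X | γ • x = x})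
    {C : Set G₁} (hC : IsCompact C) (hd : ∀ᵐ x ∂μ,
      Dense ((fun γ => (J γ).1) '' (⁅stabilizer Γ x, stabilizer Γ x⁆ : Subgroup Γ) * C))
    {K U : Set G₁} (hK : IsCompact K) (hU : U ∈ 𝓝 (1 : G₁)) {β : ℝ} (hβ : 0 < β) :
    ∃ (A₁ : Set G₁) (A₂ : Set G₂) (n : ℝ) (Z : Set X), IsCompact A₁ ∧ IsCompact A₂ ∧ 0 ≤ n ∧
      MeasurableSet Z ∧ μ.real Z ≤ β ∧ ∀ x ∉ Z, ∀ f : G₁ × G₂ → H,
        (∀ γ : Γ, γ • x = x → ∀ y, f (J γ * y) = f y) → ∀ η, 0 ≤ η → BoxLe f A₁ A₂ η →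
        ∀ g ∈ K, ∃ u ∈ C * U, ‖f (g, 1) - f (u, 1)‖ ≤ n * η := by
  let K₁ := CompactExhaustion.choice G₁
  let K₂ := CompactExhaustion.choice G₂
  let Y : ℕ → Set X := fun j =>
    ⋃ F : Finset Γ, {x | Near H J (C * U) F (K₁ j) (K₂ j) j K ∧ ∀ γ ∈ F, γ • x = x}
  have hm : ∀ j, MeasurableSet (Y j) := fun j => MeasurableSet.iUnion fun F => by
    have : {x : X | Near H J (C * U) F (K₁ j) (K₂ j) j K ∧ ∀ γ ∈ F, γ • x = x} =
        {_x : X | Near H J (C * U) F (K₁ j) (K₂ j) j K} ∩ ⋂ γ ∈ F, {x : X | γ • x = x} := by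
      ext x; simp
    rw [this]
    exact (MeasurableSet.const _).inter (F.measurableSet_biInter fun γ _ => hF γ)
  have hmono : Monotone Y := by
    intro i j hij x hx
    obtain ⟨F, h1, h2⟩ := mem_iUnion.1 hx
    exact mem_iUnion.2 ⟨F, h1.mono subset_rfl (K₁.subset hij) (K₂.subset hij)
      (by exact_mod_cast hij) subset_rfl, h2⟩
  have hanti : Antitone fun j => (Y j)ᶜ := fun i j hij => compl_subset_compl.2 (hmono hij)
  have hlim := tendsto_measure_iInter_atTop (μ := μ) (fun j => (hm j).compl.nullMeasurableSet)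
    hanti ⟨0, measure_ne_top _ _⟩
  have h0 : μ (⋂ j, (Y j)ᶜ) = 0 := by
    refine measure_mono_null ?_ hd
    intro x hx hdx
    obtain ⟨F, A₁, A₂, n, h1, h2, h3, h4⟩ := exists_near (H := H) hC hdx hK hU
    obtain ⟨j₁, hj₁⟩ := K₁.exists_superset_of_isCompact h2
    obtain ⟨j₂, hj₂⟩ := K₂.exists_superset_of_isCompact h3
    obtain ⟨j₃, hj₃⟩ := exists_nat_ge n
    refine mem_iInter.1 hx (max j₁ (max j₂ j₃)) (mem_iUnion.2 ⟨F, h4.mono subset_rfl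
      (hj₁.trans (K₁.subset (le_max_left _ _)))
      (hj₂.trans (K₂.subset ((le_max_left _ _).trans (le_max_right _ _))))
      (hj₃.trans (by exact_mod_cast (le_max_right _ _).trans (le_max_right _ _))) subset_rfl,
      fun γ hγ => h1 γ hγ⟩)
  rw [h0] at hlim
  obtain ⟨j, hj⟩ := (hlim.eventually (gt_mem_nhds (ENNReal.ofReal_pos.2 hβ))).exists
  refine ⟨K₁ j, K₂ j, j, (Y j)ᶜ, K₁.isCompact j, K₂.isCompact j, Nat.cast_nonneg j, (hm j).compl,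
    ENNReal.toReal_le_of_le_ofReal hβ.le hj.le, ?_⟩
  intro x hx f hf η hη hb g hg
  obtain ⟨F, h1, h2⟩ := mem_iUnion.1 (not_not.1 hx)
  exact h1 f (fun γ hγ => hf γ (h2 γ hγ)) η hη hb g hg

end Pool.Agent.Lib.MP_60cbcc_al.H3Z
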