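import Pool.Agent.Lib.MP_60cbcc_al.H3ZWalk
import Pool.Agent.Lib.MP_60cbcc_al.H3ZOps
import Pool.Agent.Lib.MP_60cbcc_al.H3ZOsc
import Pool.Agent.Lib.MP_60cbcc_al.H3ZBoxA

/-!
Local uniform bounds for smoothed sections through global energies.
-/

set_option linter.unusedSectionVars false

namespace Pool.Agent.Lib.MP_60cbcc_al.H3Z

open MeasureTheory Set Filter Topology
open scoped ENNReal NNReal RealInnerProductSpace Pointwise

/-- Non-negative measurable functions with integral at most `c`. -/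
structure Maj {X : Type} [MeasurableSpace X] (μ : Measure X) (s : X → ℝ) (c : ℝ) : Prop where
  meas : Measurable s
  int : Integrable s μ
  nn : ∀ x, 0 ≤ s x
  le : ∫ x, s x ∂μ ≤ c

variable {Γ G X G₁ G₂ : Type} [Group Γ] [Countable Γ] [Group G] [TopologicalSpace G]
  [IsTopologicalGroup G] [LocallyCompactSpace G] [SecondCountableTopology G] [T2Space G]
  [MeasurableSpace G] [BorelSpace G] [MeasurableSpace X] [MulAction Γ X] [MeasurableConstSMul Γ X]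
  [Group G₁] [TopologicalSpace G₁] [IsTopologicalGroup G₁] [LocallyCompactSpace G₁]
  [SecondCountableTopology G₁] [T2Space G₁] [MeasurableSpace G₁] [BorelSpace G₁]
  [Group G₂] [TopologicalSpace G₂] [IsTopologicalGroup G₂] [LocallyCompactSpace G₂]
  [SecondCountableTopology G₂] [T2Space G₂] [MeasurableSpace G₂] [BorelSpace G₂]
  {H : Type} [NormedAddCommGroup H] [InnerProductSpace ℝ H] [CompleteSpace H]

namespace Spl

variable (P : Spl G G₁ G₂) (S : Setup Γ G X) (V : Γ → X → H →ₗᵢ[ℝ] H)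
  {K₁ : Set G₁} {K₂ : Set G₂}

theorem loc_mixed (p q : Sec S V) :
    ∫ s, ⟪Tr S V (P.i₁ s) p - p, Tr S V (P.i₁ s) q - q⟫ ∂P.W₁.r =
      2 * ⟪(1 - P.R₁ S V) q, p⟫ := by
  have i : ∀ p q : Sec S V, Integrable (fun s => ⟪Tr S V (P.i₁ s) p, q⟫) P.W₁.r :=
    fun p q => Integrable.of_bound
      ((meas_inner_Tr p q).comp P.cont_i₁.measurable).aestronglyMeasurable (‖p‖ * ‖q‖)
      (ae_of_all _ fun s => (abs_real_inner_le_norm _ _).trans_eq (by rw [norm_Tr]))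
  have j : ∀ p q : Sec S V, ∫ s, ⟪Tr S V (P.i₁ s) p, q⟫ ∂P.W₁.r = ⟪P.R₁ S V p, q⟫ :=
    fun p q => by
    rw [R₁, inner_Av, ν₁,
      integral_map P.cont_i₁.measurable.aemeasurable (meas_inner_Tr p q).aestronglyMeasurable]
  have e : (fun s => ⟪Tr S V (P.i₁ s) p - p, Tr S V (P.i₁ s) q - q⟫) = fun s =>
      2 * ⟪p, q⟫ - (⟪Tr S V (P.i₁ s) p, q⟫ + ⟪Tr S V (P.i₁ s) q, p⟫) := funext fun s => by
    rw [inner_sub_left, inner_sub_right, inner_sub_right, inner_Tr,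
      real_inner_comm (Tr S V (P.i₁ s) q) p]
    ring
  have i' : Integrable (fun s => ⟪Tr S V (P.i₁ s) p, q⟫ + ⟪Tr S V (P.i₁ s) q, p⟫) P.W₁.r :=
    (i p q).add (i q p)
  have sy : ⟪P.R₁ S V p, q⟫ = ⟪P.R₁ S V q, p⟫ := by
    rw [R₁, Av_symm, real_inner_comm]
  rw [e, integral_sub (integrable_const _) i', integral_add (i p q) (i q p), j, j, sy,
    LinearMap.sub_apply, inner_sub_left, real_inner_comm q p]
  simp only [integral_const, probReal_univ, one_smul, Module.End.one_apply]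
  rw [real_inner_comm p q]
  ring

theorem ops : Ops (P.R₁ S V) (P.R₂ S V) := by
  refine ⟨fun u v => Av_symm _ u v, fun u v => Av_symm _ u v, fun u => norm_Av_le _ u,
    fun u => norm_Av_le _ u, P.comm, fun u => ?_⟩
  have h := P.loc_mixed S V ((1 - P.R₂ S V) u) u
  have h0 : 0 ≤ ∫ s, ⟪Tr S V (P.i₁ s) ((1 - P.R₂ S V) u) - (1 - P.R₂ S V) u,
      Tr S V (P.i₁ s) u - u⟫ ∂P.W₁.r := integral_nonneg fun s => by
    have e : Tr S V (P.i₁ s) ((1 - P.R₂ S V) u) - (1 - P.R₂ S V) u =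
        (1 - P.R₂ S V) (Tr S V (P.i₁ s) u - u) := by
      rw [map_sub (1 - P.R₂ S V)]
      congr 1
      exact LinearMap.congr_fun
        ((Commute.one_right _).sub_right (P.Tr_comm (S := S) (V := V) s)).eq u
    simp only [Pi.zero_apply]
    rw [e]
    set w := Tr S V (P.i₁ s) u - u
    have h1 : ‖P.R₂ S V w‖ ≤ ‖w‖ := norm_Av_le _ w
    have h2 := (real_inner_le_norm (P.R₂ S V w) w).trans
      (mul_le_mul_of_nonneg_right h1 (norm_nonneg w))
    rw [LinearMap.sub_apply, inner_sub_left, Module.End.one_apply, real_inner_self_eq_norm_sq]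
    nlinarith
  linarith

theorem loc_meas (v : Sec S V) (x : X) (b : G₂) (a : G₁) :
    StronglyMeasurable fun s => v (x, P.e (a * s, b)) :=
  v.meas.comp_measurable (measurable_const.prodMk
    ((P.e.continuous_toFun.comp (Continuous.prodMk_left b)).measurable.comp
      (measurable_const_mul a)))

theorem loc_int (v : Sec S V) (x : X) (b : G₂) (a : G₁) :
    Integrable (fun s => v (x, P.e (a * s, b))) P.W₁.r :=
  v.bdd.elim fun B hB => Integrable.of_bound (P.loc_meas S V v x b a).aestronglyMeasurable B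
    (ae_of_all _ fun _ => hB _)

/-- Majorants from bounded invariant densities. -/
theorem loc_maj (h₁ : IsCompact K₁) (h₂ : IsCompact K₂) (C : ℝ≥0) : ∃ C' : ℝ, 0 ≤ C' ∧
    ∀ (N : X × G → ℝ≥0∞) (B c : ℝ), Measurable N → S.Inv N → (∀ y, N y ≤ ENNReal.ofReal B) →
      0 ≤ c → ∫⁻ y, N y ∂S.m ≤ ENNReal.ofReal c → ∃ s, Maj S.μ s (C' * c) ∧ ∀ x (z : H),
        ‖z‖ₑ ^ 2 ≤ C * ∫⁻ a in K₁, ∫⁻ b in K₂, N (x, P.e (a, b)) ∂P.W₂.lam ∂P.W₁.lam →
        ‖z‖ ^ 2 ≤ s x := by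
  obtain ⟨C', H₂⟩ := P.loc S h₁ h₂
  refine ⟨C * C', by positivity, fun N B c mN iN bN hc lN => ?_⟩
  have me : Measurable P.e := P.e.continuous_toFun.measurable
  set s : X → ℝ≥0∞ := fun x => C * ∫⁻ a in K₁, ∫⁻ b in K₂, N (x, P.e (a, b)) ∂P.W₂.lam
    ∂P.W₁.lam with hs
  have ms : Measurable s := by
    refine Measurable.const_mul (Measurable.lintegral_prod_right'
      (f := fun z : X × G₁ => ∫⁻ b in K₂, N (z.1, P.e (z.2, b)) ∂P.W₂.lam) ?_) _
    exact Measurable.lintegral_prod_right'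
      (f := fun z : (X × G₁) × G₂ => N (z.1.1, P.e (z.1.2, z.2))) (mN.comp (by fun_prop))
  have fs : ∀ x, s x ≠ ⊤ := fun x => by
    refine ENNReal.mul_ne_top ENNReal.coe_ne_top (ne_top_of_le_ne_top ?_
      (lintegral_mono fun a => lintegral_mono fun b => bN _))
    simp only [lintegral_const, Measure.restrict_apply_univ]
    exact ENNReal.mul_ne_top (ENNReal.mul_ne_top ENNReal.ofReal_ne_top h₂.measure_ne_top)
      h₁.measure_ne_top
  have ls : ∫⁻ x, s x ∂S.μ ≤ ENNReal.ofReal (C * C' * c) := by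
    rw [hs, lintegral_const_mul' _ _ ENNReal.coe_ne_top, mul_assoc,
      ENNReal.ofReal_mul C.coe_nonneg, ENNReal.ofReal_mul C'.coe_nonneg, ENNReal.ofReal_coe_nnreal,
      ENNReal.ofReal_coe_nnreal]
    exact mul_le_mul_right ((H₂ N mN iN).trans (mul_le_mul_right lN _)) _
  refine ⟨fun x => (s x).toReal, ⟨ms.ennreal_toReal, integrable_toReal_of_lintegral_ne_top
    ms.aemeasurable (ne_top_of_le_ne_top ENNReal.ofReal_ne_top ls), fun _ => ENNReal.toReal_nonneg,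
    ?_⟩, fun x z hz => ?_⟩
  · rw [integral_toReal ms.aemeasurable (ae_of_all _ fun x => (fs x).lt_top)]
    exact ENNReal.toReal_le_of_le_ofReal (by positivity) ls
  · rw [← ofReal_norm, ← ENNReal.ofReal_pow (norm_nonneg _)] at hz
    exact (ENNReal.ofReal_le_iff_le_toReal (fs x)).1 hz

theorem loc_sq {z : H} {B : ℝ} (h : ‖z‖ ≤ B) : ‖z‖ₑ ^ 2 ≤ ENNReal.ofReal (B ^ 2) := by
  rw [← ofReal_norm, ← ENNReal.ofReal_pow (norm_nonneg _)]
  exact ENNReal.ofReal_le_ofReal (pow_le_pow_left₀ (norm_nonneg _) h 2)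

theorem loc0 (h₁ : IsCompact K₁) (h₂ : IsCompact K₂) : ∃ C : ℝ, 0 ≤ C ∧ ∀ u : Sec S V,
    ∃ s, Maj S.μ s (C * ‖u‖ ^ 2) ∧ ∀ x, ∀ a ∈ K₁, ∀ b ∈ K₂,
      ‖P.R₁ S V (P.R₂ S V u) (x, P.e (a, b))‖ ^ 2 ≤ s x := by
  have k₁ : IsCompact (K₁ * P.W₁.S) := h₁.mul P.W₁.cpt
  have k₂ : IsCompact (K₂ * P.W₂.S) := h₂.mul P.W₂.cpt
  obtain ⟨C, hC, H₁⟩ := P.loc_maj (H := H) S k₁ k₂ (P.W₁.M * P.W₂.M)
  refine ⟨C, hC, fun u => ?_⟩
  obtain ⟨B, hB⟩ := u.bdd
  obtain ⟨s, h3, h4⟩ := H₁ (fun y => ‖u y‖ₑ ^ 2) (B ^ 2) (‖u‖ ^ 2) (u.meas.enorm.pow_const 2)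
    (fun γ x g => by simp only [u.eqv, LinearIsometry.enorm_map]) (fun y => loc_sq (hB y))
    (by positivity) u.lint_sq.le
  refine ⟨s, h3, fun x a ha b hb => h4 x _ ?_⟩
  rw [R₁_apply]
  refine (boxA_jensen _ (P.loc_meas S V _ x b a)).trans ?_
  refine (P.W₁.boxA_shift a k₁.measurableSet (F' := fun k => P.W₂.M *
    ∫⁻ l in K₂ * P.W₂.S, ‖u (x, P.e (k, l))‖ₑ ^ 2 ∂P.W₂.lam) fun s hs =>
    ⟨mul_mem_mul ha hs, ?_⟩).trans_eq ?_
  · rw [R₂_apply]
    refine (boxA_jensen _ (P.swap.loc_meas S V u x (a * s) b)).trans ?_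
    exact P.W₂.boxA_shift b k₂.measurableSet fun t ht => ⟨mul_mem_mul hb ht, le_rfl⟩
  · rw [lintegral_const_mul' _ _ ENNReal.coe_ne_top, ENNReal.coe_mul, mul_assoc]

theorem loc_energy (N : ℕ) (u : Sec S V) :
    ∫ y, ∫ t, ‖u (y.1, y.2 * P.i₁ t) - u y‖ ^ 2 ∂cpow P.W₁.r N ∂S.m =
      2 * ⟪(1 - P.R₁ S V ^ N) u, u⟫ := by
  have h1 := energy (cpow P.ν₁ N) u u
  rw [Av_cpow] at h1
  refine Eq.trans (integral_congr_ae (ae_of_all _ fun y => ?_)) h1
  have m : StronglyMeasurable fun h => u (y.1, y.2 * h) - u y :=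
    (u.meas.comp_measurable (by fun_prop)).sub stronglyMeasurable_const
  simp only
  rw [ν₁, ← cpow_map _ _ P.cont_i₁.measurable, integral_map P.cont_i₁.measurable.aemeasurable
    (m.inner m).aestronglyMeasurable]
  simp only [real_inner_self_eq_norm_sq]

theorem loc3 (h₁ : IsCompact K₁) (h₂ : IsCompact K₂) : ∃ C : ℝ, 0 ≤ C ∧ ∀ u : Sec S V,
    ∃ s, Maj S.μ s (C * (‖(1 - P.R₁ S V) u‖ * ‖u‖)) ∧ ∀ x, ∀ a ∈ K₁, ∀ a' ∈ K₁, ∀ b ∈ K₂,
      ‖P.R₁ S V (P.R₂ S V u) (x, P.e (a, b)) - P.R₁ S V (P.R₂ S V u) (x, P.e (a', b))‖ ^ 2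
        ≤ s x := by
  obtain ⟨K₁', N, C₁, k₁, H₀⟩ := P.W₁.boxA_one (H := H) h₁
  have k₂ : IsCompact (K₂ * P.W₂.S) := h₂.mul P.W₂.cpt
  obtain ⟨C, hC, H₁⟩ := P.loc_maj (H := H) S k₁ k₂ (C₁ * P.W₂.M)
  refine ⟨C * (2 * N), by positivity, fun u => ?_⟩
  obtain ⟨B, hB⟩ := u.bdd
  obtain ⟨B', hB'⟩ := (P.R₂ S V u).bdd
  have m1 := P.cont_i₁.measurable
  have me : Measurable P.e := P.e.continuous_toFun.measurable
  have mw : StronglyMeasurable fun z : (X × G) × G₁ =>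
      u (z.1.1, z.1.2 * P.i₁ z.2) - u z.1 :=
    (u.meas.comp_measurable (g := fun z : (X × G) × G₁ => (z.1.1, z.1.2 * P.i₁ z.2))
      (by fun_prop)).sub (u.meas.comp_measurable measurable_fst)
  have mE : Measurable fun z : (X × G) × G₁ => ‖u (z.1.1, z.1.2 * P.i₁ z.2) - u z.1‖ₑ ^ 2 :=
    mw.enorm.pow_const 2
  obtain ⟨s, h3, h4⟩ := H₁
    (fun y => ∫⁻ t, ‖u (y.1, y.2 * P.i₁ t) - u y‖ₑ ^ 2 ∂cpow P.W₁.r N) ((B + B) ^ 2)
    (2 * N * (‖(1 - P.R₁ S V) u‖ * ‖u‖)) mE.lintegral_prod_right'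
    (fun γ x g => by simp only [mul_assoc, u.eqv, ← map_sub, LinearIsometry.enorm_map])
    (fun y => lintegral_le_const (ae_of_all _ fun t => loc_sq (norm_sub_le_of_le (hB _) (hB _))))
    (by positivity) (by
      have h5 := boxA_ofReal S.m (cpow P.W₁.r N)
        (F := fun y t => ‖u (y.1, y.2 * P.i₁ t) - u y‖ ^ 2) (mw.norm.measurable.pow_const 2)
        (fun _ _ => by positivity) (B := (B + B) ^ 2) fun y t =>
          pow_le_pow_left₀ (norm_nonneg _) (norm_sub_le_of_le (hB _) (hB _)) 2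
      rw [loc_energy] at h5
      simp only [ENNReal.ofReal_pow (norm_nonneg _), ofReal_norm] at h5
      refine h5.trans_le (ENNReal.ofReal_le_ofReal ?_)
      have := (real_inner_le_norm _ _).trans (mul_le_mul_of_nonneg_right
        (norm_one_sub_pow (P.ops S V).c₁ N u) (norm_nonneg u))
      linarith)
  refine ⟨s, by rwa [mul_assoc], fun x a ha a' ha' b hb => h4 x _ ?_⟩
  have h5 := H₀ (fun k => P.R₂ S V u (x, P.e (k, b)))
    (by simpa only [one_mul] using P.loc_meas S V (P.R₂ S V u) x b 1) ⟨B', fun _ => hB' _⟩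
    (fun k t => P.W₂.M * ∫⁻ l in K₂ * P.W₂.S,
      ‖u (x, P.e (k * t, l)) - u (x, P.e (k, l))‖ₑ ^ 2 ∂P.W₂.lam)
    (fun k t _ _ => by
      have i : ∀ k : G₁, Integrable (fun l => u (x, P.e (k, b * l))) P.W₂.r := fun k =>
        P.swap.loc_int S V u x k b
      rw [R₂_apply, R₂_apply, ← integral_sub (i _) (i _)]
      refine (boxA_jensen _ ((P.swap.loc_meas S V u x (k * t) b).sub
        (P.swap.loc_meas S V u x k b))).trans ?_
      exact P.W₂.boxA_shift b k₂.measurableSet fun t ht => ⟨mul_mem_mul hb ht, le_rfl⟩)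
    a' ha' a ha
  rw [R₁_apply, R₁_apply]
  refine h5.trans_eq ?_
  simp only [lintegral_const_mul' _ _ (ENNReal.coe_ne_top (r := P.W₂.M))]
  rw [ENNReal.coe_mul, mul_assoc]
  congr 2
  refine lintegral_congr fun k => ?_
  simp only [← mul_i₁]
  exact lintegral_lintegral_swap (mE.comp (f := fun z : G₁ × G₂ => ((x, P.e (k, z.2)), z.1))
    (by fun_prop)).aemeasurable

/-- Almost invariant bounded sections are almost invariant under left translations. -/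
theorem left_inv (u : ℕ → Sec S V) (hu : ∀ n y, ‖u n y‖ ≤ 1)
    (h₁ : Tendsto (fun n => ‖(1 - P.R₁ S V) (u n)‖) atTop (𝓝 0))
    (h₂ : Tendsto (fun n => ‖(1 - P.R₂ S V) (u n)‖) atTop (𝓝 0)) (g : G) :
    Tendsto (fun n => ∫ y, ‖P.R₁ S V (P.R₂ S V (u n)) (y.1, g * y.2) -
      P.R₁ S V (P.R₂ S V (u n)) y‖ ^ 2 ∂S.m) atTop (𝓝 0) := by
  refine tendsto_order.2 ⟨fun c hc => Eventually.of_forall fun n =>
    hc.trans_le (integral_nonneg fun y => by positivity), fun ε hε => ?_⟩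
  obtain ⟨K, hK, hε'⟩ := S.tight (ε := ε / 8) (by positivity)
  have hK' : IsCompact (K ∪ (fun h => g * h) '' K) := hK.union (hK.image (by fun_prop))
  have cs : Continuous P.e.symm := P.e.symm.continuous_toFun
  have k₁ : IsCompact ((fun h => (P.e.symm h).1) '' (K ∪ (fun h => g * h) '' K)) :=
    hK'.image (by fun_prop)
  have k₂ : IsCompact ((fun h => (P.e.symm h).2) '' (K ∪ (fun h => g * h) '' K)) :=
    hK'.image (by fun_prop)
  obtain ⟨C, hC, H₁⟩ := P.loc3 S V k₁ k₂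
  obtain ⟨C', hC', H₂⟩ := P.swap.loc3 S V k₂ k₁
  have t := (h₁.const_mul (2 * C)).add (h₂.const_mul (2 * C'))
  simp only [mul_zero, add_zero] at t
  filter_upwards [(tendsto_order.1 t).2 (ε / 2) (by positivity)] with n hn
  obtain ⟨s, h3, h4⟩ := H₁ (u n)
  obtain ⟨s', h5, h6⟩ := H₂ (u n)
  have e : P.swap.R₁ S V (P.swap.R₂ S V (u n)) = P.R₁ S V (P.R₂ S V (u n)) :=
    LinearMap.congr_fun (P.comm (S := S) (V := V)).symm.eq (u n)
  rw [e] at h6
  rw [swap_R₁] at h5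
  have hn1 : ‖u n‖ ≤ 1 := (u n).norm_le zero_le_one (hu n)
  have hw : ∀ y, ‖P.R₁ S V (P.R₂ S V (u n)) y‖ ≤ 1 :=
    norm_Av_apply_le _ _ (norm_Av_apply_le _ _ (hu n))
  set w := P.R₁ S V (P.R₂ S V (u n)) with hwd
  have i1 : Integrable (fun y : X × G => s y.1) S.m := h3.int.comp_fst _
  have i2 : Integrable (fun y : X × G => s' y.1) S.m := h5.int.comp_fst _
  have i3 : Integrable (fun y : X × G => Kᶜ.indicator (1 : G → ℝ) y.2) S.m :=
    ((integrable_const (1 : ℝ)).indicator hK.measurableSet.compl).comp_snd _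
  have e1 : ∫ y : X × G, s y.1 ∂S.m = ∫ x, s x ∂S.μ := by
    rw [Setup.m, integral_fun_fst]; simp
  have e2 : ∫ y : X × G, s' y.1 ∂S.m = ∫ x, s' x ∂S.μ := by
    rw [Setup.m, integral_fun_fst]; simp
  have e3 : ∫ y : X × G, Kᶜ.indicator (1 : G → ℝ) y.2 ∂S.m = (S.lam.restrict S.Ω).real Kᶜ := by
    rw [Setup.m, integral_fun_snd, integral_indicator_one hK.measurableSet.compl]; simp
  have i12 : Integrable (fun y : X × G => 2 * s y.1 + 2 * s' y.1) S.m :=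
    (i1.const_mul 2).add (i2.const_mul 2)
  have key : ∫ y, ‖w (y.1, g * y.2) - w y‖ ^ 2 ∂S.m ≤
      ∫ y : X × G, (2 * s y.1 + 2 * s' y.1 + 4 * Kᶜ.indicator (1 : G → ℝ) y.2) ∂S.m := by
    refine integral_mono_of_nonneg (ae_of_all _ fun y => by positivity)
      (i12.add (i3.const_mul 4)) (ae_of_all _ fun ⟨x, h⟩ => ?_)
    have p1 := h3.nn x
    have p2 := h5.nn x
    by_cases hh : h ∈ K
    · have q1 := h4 x _ ⟨g * h, Or.inr ⟨h, hh, rfl⟩, rfl⟩ _ ⟨h, Or.inl hh, rfl⟩ _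
        ⟨g * h, Or.inr ⟨h, hh, rfl⟩, rfl⟩
      have q2 := h6 x _ ⟨g * h, Or.inr ⟨h, hh, rfl⟩, rfl⟩ _ ⟨h, Or.inl hh, rfl⟩ _
        ⟨h, Or.inl hh, rfl⟩
      simp only [swap_e, Prod.mk.eta, ContinuousMulEquiv.apply_symm_apply] at q1 q2
      have q3 := norm_sub_le_norm_sub_add_norm_sub (w (x, g * h))
        (w (x, P.e ((P.e.symm h).1, (P.e.symm (g * h)).2))) (w (x, h))
      have q4 := pow_le_pow_left₀ (norm_nonneg _) q3 2
      simp only [indicator_of_notMem (notMem_compl_iff.2 hh)]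
      nlinarith [sq_nonneg (‖w (x, g * h) - w (x, P.e ((P.e.symm h).1, (P.e.symm (g * h)).2))‖ -
        ‖w (x, P.e ((P.e.symm h).1, (P.e.symm (g * h)).2)) - w (x, h)‖)]
    · have q4 := pow_le_pow_left₀ (norm_nonneg _)
        (norm_sub_le_of_le (hw (x, g * h)) (hw (x, h))) 2
      simp only [indicator_of_mem (mem_compl hh), Pi.one_apply]
      linarith
  rw [integral_add i12 (i3.const_mul 4), integral_add (i1.const_mul 2) (i2.const_mul 2),
    integral_const_mul, integral_const_mul, integral_const_mul, e1, e2, e3] at key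
  have b1 := h3.le.trans (mul_le_mul_of_nonneg_left
    (mul_le_of_le_one_right (norm_nonneg _) hn1) hC)
  have b2 := h5.le.trans (mul_le_mul_of_nonneg_left
    (mul_le_of_le_one_right (norm_nonneg _) hn1) hC')
  linarith

end Spl

end Pool.Agent.Lib.MP_60cbcc_al.H3Z
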