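import Pool.Agent.Lib.MP_60cbcc_al.H3ZCont
import Pool.Agent.Lib.MP_60cbcc_al.H3ZFac
import Pool.Agent.Lib.MP_60cbcc_al.H3ZLoc

/-!
The spectral gap given by property (T) of the first factor.
-/

set_option linter.unusedSectionVars false

namespace Pool.Agent.Lib.MP_60cbcc_al.H3Z

open MeasureTheory Set Filter Topology
open scoped ENNReal NNReal RealInnerProductSpace

open UniformSpace in
/-- Property (T) for representations on seminormed spaces. -/
theorem Kaz.kaz_semi {L : Type} [Group L] [TopologicalSpace L] (h : Kaz L) :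
    ∃ (Q : Set L) (C : ℝ), IsCompact Q ∧ 0 ≤ C ∧
      ∀ (E : Type) [SeminormedAddCommGroup E] [InnerProductSpace ℝ E] (T : L → E →ₗ[ℝ] E),
        (∀ u, T 1 u = u) → (∀ s k u, T (s * k) u = T s (T k u)) → (∀ s u, ‖T s u‖ = ‖u‖) →
        (∀ u, Continuous fun s => T s u) → ∀ u v : E,
        (∀ (z : E) (ε : ℝ), (∀ s, |⟪u - T s u, z⟫| ≤ ε) → |⟪v, z⟫| ≤ ε) →
        ∀ t, 0 ≤ t → (∀ q ∈ Q, ‖T q v - v‖ ≤ t) → ‖v‖ ≤ C * t := by
  obtain ⟨Q, C, hQ, hC, h⟩ := h
  refine ⟨Q, C, hQ, hC, fun E _ _ T h1 hm hn hc u v hv t ht hq => ?_⟩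
  obtain ⟨f, e⟩ : ∃ f : L → Completion E →L[ℝ] Completion E,
      ∀ s (x : E), f s x = (T s x : E) :=
    ⟨fun s => ((T s).mkContinuous 1 fun x => by rw [hn, one_mul]).completion,
      fun s x => ContinuousLinearMap.completion_apply_coe _ x⟩
  have f1 : ∀ x, f 1 x = x := fun x => by
    induction x using Completion.induction_on with
    | hp => exact isClosed_eq (by fun_prop) (by fun_prop)
    | ih x => rw [e, h1]
  have fm : ∀ s k x, f (s * k) x = f s (f k x) := fun s k x => by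
    induction x using Completion.induction_on with
    | hp => exact isClosed_eq (by fun_prop) (by fun_prop)
    | ih x => rw [e, e, e, hm]
  have fn : ∀ s x, ‖f s x‖ = ‖x‖ := fun s x => by
    induction x using Completion.induction_on with
    | hp => exact isClosed_eq (by fun_prop) (by fun_prop)
    | ih x => rw [e, Completion.norm_coe, Completion.norm_coe, hn]
  obtain ⟨π, hπ⟩ : ∃ π : L →* (Completion E ≃ₗᵢ[ℝ] Completion E), ∀ s x, π s x = f s x :=
    ⟨MonoidHom.mk' (fun s => LinearIsometryEquiv.ofSurjective ⟨(f s).toLinearMap, fn s⟩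
      fun y => ⟨f s⁻¹ y, (fm s s⁻¹ y).symm.trans (by rw [mul_inv_cancel, f1])⟩)
      fun a b => LinearIsometryEquiv.ext (fm a b), fun _ _ => rfl⟩
  have c := continuous_prod_of_dense_continuous_lipschitzWith
    (fun p : Completion E × L => π p.2 p.1) 1 Completion.denseRange_coe
    (by
      rintro _ ⟨x, rfl⟩
      simp only [hπ, e]
      exact (Completion.continuous_coe E).comp (hc x))
    fun s => (π s).lipschitz
  obtain ⟨w, hw, hd⟩ := h _ π (fun x => c.comp (Continuous.prodMk_right x)) v t ht fun q a => by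
    rw [hπ, e, ← Completion.coe_sub, Completion.norm_coe]
    exact hq q a
  have k : ∀ z : Completion E, |⟪(v : Completion E), z⟫| ≤ (‖u‖ + ‖u‖) * ‖z - w‖ := fun z => by
    induction z using Completion.induction_on with
    | hp => exact isClosed_le (by fun_prop) (by fun_prop)
    | ih z =>
      rw [Completion.inner_coe]
      refine hv z _ fun s => ?_
      have a : ⟪((u - T s u : E) : Completion E), w⟫ = 0 := by
        rw [Completion.coe_sub, inner_sub_left, ← e, ← hπ, ← (π s).inner_map_map u w, hw, sub_self]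
      rw [← Completion.inner_coe, ← sub_zero ⟪_, _⟫, ← a, ← inner_sub_right]
      refine (abs_real_inner_le_norm _ _).trans (mul_le_mul_of_nonneg_right ?_ (norm_nonneg _))
      rw [Completion.norm_coe]
      exact norm_sub_le_of_le le_rfl (hn s u).le
  have k1 := k w
  rw [sub_self, norm_zero, mul_zero, abs_nonpos_iff] at k1
  have k2 := real_inner_le_norm (v : Completion E) (v - w)
  rw [inner_sub_right, k1, real_inner_self_eq_norm_sq, Completion.norm_coe] at k2
  have k3 := mul_le_mul_of_nonneg_left hd (norm_nonneg v)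
  by_contra! k4
  nlinarith [mul_nonneg hC ht]

/-- A spectral gap on the range bounds the displacement of the lazy walk. -/
theorem kaz_gap {E : Type} [SeminormedAddCommGroup E] [InnerProductSpace ℝ E]
    {R : Module.End ℝ E} (hc : ∀ u, ‖R u‖ ≤ ‖u‖) {D : ℝ} (hD : 1 ≤ D)
    (h : ∀ u, ‖(1 - R) u‖ ^ 2 ≤ D * ⟪(1 - R) ((1 - R) u), (1 - R) u⟫) (m : ℕ) (u : E) :
    ‖(lazy R R ^ m) u - u‖ ≤ 2 * D * ‖(1 - R) u‖ := by
  induction m generalizing u with
  | zero => simpa using by positivity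
  | succ m ih =>
    have e : ∀ z, lazy R R z = (1 / 2 : ℝ) • (z + R z) := fun z => by
      rw [Ops.lazy_apply]; module
    have e1 : lazy R R u - u = (-1 / 2 : ℝ) • (1 - R) u := by
      rw [e, LinearMap.sub_apply, Module.End.one_apply]; module
    have e2 : (1 - R) (lazy R R u) = (1 / 2 : ℝ) • ((1 - R) u + R ((1 - R) u)) := by
      simp only [e, LinearMap.sub_apply, Module.End.one_apply, map_smul, map_add, map_sub]
    have h1 := norm_sub_le_norm_sub_add_norm_sub ((lazy R R ^ m) (lazy R R u)) (lazy R R u) u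
    have h2 := ih (lazy R R u)
    have h3 := h u
    rw [e1, norm_smul] at h1
    rw [e2, norm_smul] at h2
    rw [pow_succ, Module.End.mul_apply]
    generalize (1 - R) u = v at *
    rw [LinearMap.sub_apply, Module.End.one_apply, inner_sub_left, real_inner_self_eq_norm_sq,
      real_inner_comm] at h3
    have h4 := norm_add_sq_real v (R v)
    have h5 := pow_le_pow_left₀ (norm_nonneg _) (hc v) 2
    have h6 : D * ‖v + R v‖ ≤ (2 * D - 1 / 2) * ‖v‖ := by
      refine abs_le_of_sq_le_sq' ?_ (mul_nonneg (by linarith) (norm_nonneg _)) |>.2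
      have h7 := mul_le_mul_of_nonneg_left h3 (zero_le_one.trans hD)
      have h8 := mul_le_mul_of_nonneg_left h5 (sq_nonneg D)
      rw [mul_pow, h4]
      nlinarith [sq_nonneg ‖v‖]
    norm_num at h1 h2
    linarith

/-- Subadditive functions are controlled on compact sets by their mean. -/
theorem Walk.kaz_sub {L : Type} [Group L] [TopologicalSpace L] [IsTopologicalGroup L]
    [LocallyCompactSpace L] [SecondCountableTopology L] [T2Space L] [MeasurableSpace L]
    [BorelSpace L] (W : Walk L) {Q : Set L} (hQ : IsCompact Q) : ∃ D : ℝ≥0, ∀ φ : L → ℝ,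
      Measurable φ → (∀ k, 0 ≤ φ k) → (∃ B, ∀ k, φ k ≤ B) → φ 1 = 0 →
      (∀ k s, φ (k * s) ≤ φ k + φ s) → ∀ q ∈ Q, ∫ s, φ (q * s) ∂W.r ≤ D * ∫ s, φ s ∂W.r := by
  have k := hQ.mul W.cpt
  obtain ⟨N, c, hc⟩ := W.dom _ k
  refine ⟨W.M * (c * N), fun φ hm h0 ⟨B, hB⟩ h1 hs q hq => ?_⟩
  have i : ∀ q, Integrable (fun s => φ (q * s)) W.r := fun q =>
    .of_bound (hm.comp (measurable_const_mul q)).aestronglyMeasurable B
      (ae_of_all _ fun s => (Real.norm_of_nonneg (h0 _)).trans_le (hB _))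
  have p : ∀ n : ℕ, ∫⁻ s, ENNReal.ofReal (φ s) ∂cpow W.r n ≤
      n * ∫⁻ s, ENNReal.ofReal (φ s) ∂W.r := fun n => by
    induction n with
    | zero => simp [cpow, h1]
    | succ n ih =>
      rw [cpow, Measure.lintegral_mconv hm.ennreal_ofReal]
      refine (lintegral_mono fun a => lintegral_mono fun b =>
        (ENNReal.ofReal_le_ofReal (hs a b)).trans ENNReal.ofReal_add_le).trans ?_
      simp only [lintegral_add_left measurable_const, lintegral_const, measure_univ, mul_one,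
        lintegral_add_right _ measurable_const, Nat.cast_succ, add_mul, one_mul]
      exact add_le_add_left ih _
  have a := (W.boxA_shift q k.measurableSet (F' := fun s => ENNReal.ofReal (φ s))
    fun s hs => ⟨mul_mem_mul hq hs, le_rfl⟩).trans (mul_le_mul_right
      ((lintegral_mono' hc le_rfl).trans ((lintegral_smul_measure _ _).trans_le
        (mul_le_mul_right (p N) _))) _)
  rw [← ofReal_integral_eq_lintegral_ofReal (i q) (ae_of_all _ fun _ => h0 _),
    ← ofReal_integral_eq_lintegral_ofReal (by simpa using i 1) (ae_of_all _ h0)] at a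
  refine (ENNReal.ofReal_le_ofReal_iff (mul_nonneg (by positivity) (integral_nonneg h0))).1 ?_
  rw [ENNReal.ofReal_mul (by positivity), ENNReal.ofReal_coe_nnreal]
  simpa only [ENNReal.coe_mul, ENNReal.coe_natCast, mul_assoc] using a

variable {Γ G X G₁ G₂ : Type} [Group Γ] [Countable Γ] [Group G] [TopologicalSpace G]
  [IsTopologicalGroup G] [LocallyCompactSpace G] [SecondCountableTopology G] [T2Space G]
  [MeasurableSpace G] [BorelSpace G] [MeasurableSpace X] [MulAction Γ X] [MeasurableConstSMul Γ X]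
  [Group G₁] [TopologicalSpace G₁] [IsTopologicalGroup G₁] [LocallyCompactSpace G₁]
  [SecondCountableTopology G₁] [T2Space G₁] [MeasurableSpace G₁] [BorelSpace G₁]
  [Group G₂] [TopologicalSpace G₂] [IsTopologicalGroup G₂] [LocallyCompactSpace G₂]
  [SecondCountableTopology G₂] [T2Space G₂] [MeasurableSpace G₂] [BorelSpace G₂]
  {H : Type} [NormedAddCommGroup H] [InnerProductSpace ℝ H] [CompleteSpace H]

theorem Spl.kaz (P : Spl G G₁ G₂) (S : Setup Γ G X) (V : Γ → X → H →ₗᵢ[ℝ] H) (h : Kaz G₁) :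
    ∃ C : ℝ, ∀ (u : Sec S V) (m : ℕ),
      ‖(lazy (P.R₁ S V) (P.R₁ S V) ^ m) u - u‖ ≤ C * ‖(1 - P.R₁ S V) u‖ := by
  obtain ⟨Q, C, hQ, hC, h⟩ := h.kaz_semi
  obtain ⟨D, hD⟩ := P.W₁.kaz_sub hQ
  obtain ⟨T, hT⟩ : ∃ T : G₁ → Sec S V →ₗ[ℝ] Sec S V, T = fun s => Tr S V (P.i₁ s) := ⟨_, rfl⟩
  have h1 : ∀ u, T 1 u = u := fun u => Sec.ext fun y => by simp [hT]
  have hm : ∀ s k u, T (s * k) u = T s (T k u) := fun s k u => Sec.ext fun y => by
    simp [hT, mul_assoc]
  have hn : ∀ s u, ‖T s u‖ = ‖u‖ := fun s u => hT ▸ norm_Tr _ u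
  have hi : ∀ s u v, ⟪T s u, T s v⟫ = ⟪u, v⟫ := fun s u v => hT ▸ inner_Tr _ u v
  have hc : ∀ u, Continuous fun s => T s u := fun u => hT ▸ (continuous_Tr u).comp P.cont_i₁
  have j : ∀ q u z, ⟪T q (P.R₁ S V u) - u, z⟫ = ∫ s, ⟪T (q * s) u - u, z⟫ ∂P.W₁.r := by
    intro q u z
    have a : ∀ x, ⟪T q x, z⟫ = ⟪x, T q⁻¹ z⟫ := fun x => by
      rw [← hi q x, ← hm, mul_inv_cancel, h1]
    have i : Integrable (fun s => ⟪T s u, T q⁻¹ z⟫) P.W₁.r :=
      .of_bound ((hc u).inner continuous_const).aestronglyMeasurable (‖u‖ * ‖z‖)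
        (ae_of_all _ fun s => (abs_real_inner_le_norm _ _).trans_eq (by rw [hn, hn]))
    simp only [inner_sub_left, hm, a]
    rw [integral_sub i (integrable_const _), R₁, inner_Av, ν₁,
      integral_map P.cont_i₁.measurable.aemeasurable (meas_inner_Tr _ _).aestronglyMeasurable]
    simp [hT]
  have b : ∀ s v, ‖T s v - v‖ ≤ ‖v‖ + ‖v‖ := fun s v => norm_sub_le_of_le (hn s v).le le_rfl
  have m : ∀ v, Measurable fun s => ‖T s v - v‖ := fun v =>
    ((hc v).sub continuous_const).norm.measurable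
  have i : ∀ q v, Integrable (fun s => ‖T (q * s) v - v‖) P.W₁.r := fun q v =>
    .of_bound ((m v).comp (measurable_const_mul q)).aestronglyMeasurable _
      (ae_of_all _ fun s => (norm_norm _).trans_le (b _ v))
  have l : ∀ q v, ‖T q (P.R₁ S V v) - v‖ ≤ ∫ s, ‖T (q * s) v - v‖ ∂P.W₁.r := fun q v => by
    have a := (Real.le_norm_self _).trans (norm_integral_le_of_norm_le
      (f := fun s => ⟪T (q * s) v - v, T q (P.R₁ S V v) - v⟫)
      ((i q v).mul_const ‖T q (P.R₁ S V v) - v‖) (ae_of_all _ fun s => abs_real_inner_le_norm _ _))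
    rw [← j, real_inner_self_eq_norm_sq, integral_mul_const] at a
    have : 0 ≤ ∫ s, ‖T (q * s) v - v‖ ∂P.W₁.r := integral_nonneg fun _ => norm_nonneg _
    by_contra! k
    nlinarith
  refine ⟨_, fun u n => kaz_gap (P.ops S V).c₁ (D := 2 * (C * (D + 1) + 1) ^ 2 + 1)
    (le_add_of_nonneg_left (by positivity)) (fun u => ?_) n u⟩
  have e : P.R₁ S V ((1 - P.R₁ S V) u) = P.R₁ S V u - P.R₁ S V (P.R₁ S V u) := map_sub _ _ _
  have k := h _ T h1 hm hn hc (P.R₁ S V u) (P.R₁ S V ((1 - P.R₁ S V) u)) fun z ε hz => by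
    have a := j 1 (P.R₁ S V u) z
    rw [h1] at a
    rw [e, ← neg_sub, inner_neg_left, abs_neg, a]
    simpa using norm_integral_le_of_norm_le_const (μ := P.W₁.r) (C := ε)
      (f := fun s => ⟪T (1 * s) (P.R₁ S V u) - P.R₁ S V u, z⟫) (ae_of_all _ fun s => by
        rw [← neg_sub, inner_neg_left, norm_neg]; exact hz _)
  have l2 := P.loc_mixed S V ((1 - P.R₁ S V) u) ((1 - P.R₁ S V) u)
  generalize (1 - P.R₁ S V) u = v at k l2 ⊢
  have l1 := l 1 v
  have i1 := i 1 v
  simp only [h1, one_mul] at l1 i1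
  have a0 : 0 ≤ ∫ s, ‖T s v - v‖ ∂P.W₁.r := integral_nonneg fun _ => norm_nonneg _
  have k1 := k ((D + 1) * ∫ s, ‖T s v - v‖ ∂P.W₁.r) (by positivity) fun q hq => by
    have a1 := (l q v).trans (hD _ (m v) (fun _ => norm_nonneg _) ⟨_, fun s => b s v⟩
      (by simp [h1]) (fun k s => by
        rw [hm, ← hn k (T s v - v), map_sub, add_comm]
        exact norm_sub_le_norm_sub_add_norm_sub _ _ _) q hq)
    have a2 := norm_sub_le_norm_sub_add_norm_sub (T q (P.R₁ S V v)) v (P.R₁ S V v)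
    rw [norm_sub_rev v] at a2
    linarith
  have k2 : (∫ s, ‖T s v - v‖ ∂P.W₁.r) ^ 2 ≤ 2 * ⟪(1 - P.R₁ S V) v, v⟫ := by
    have := ProbabilityTheory.variance_nonneg (fun s => ‖T s v - v‖) P.W₁.r
    rw [ProbabilityTheory.variance_eq_sub (.of_bound (m v).aestronglyMeasurable _
      (ae_of_all _ fun s => (norm_norm _).trans_le (b s v)))] at this
    rw [← l2]
    simpa only [hT, real_inner_self_eq_norm_sq, sub_nonneg, Pi.pow_apply] using this
  have k3 : ‖v‖ ≤ (C * (D + 1) + 1) * ∫ s, ‖T s v - v‖ ∂P.W₁.r := by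
    have := norm_le_norm_add_norm_sub (P.R₁ S V v) v
    linarith
  have k4 := pow_le_pow_left₀ (norm_nonneg _) k3 2
  have k5 := mul_le_mul_of_nonneg_left k2 (sq_nonneg (C * (D + 1) + 1))
  nlinarith [sq_nonneg (∫ s, ‖T s v - v‖ ∂P.W₁.r)]

end Pool.Agent.Lib.MP_60cbcc_al.H3Z
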