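import Mathlib

/-!
Asymptotically invariant measures on solvable groups, and lifts of Haar measure.
-/

namespace Pool.Agent.Lib.MP_60cbcc_al.H3Z

open MeasureTheory Set Filter Topology
open scoped Pointwise

section Folner

variable {G : Type} [Group G] [MeasurableSpace G] [MeasurableMul G]

/-- Every finite subset of `S` almost fixes a probability measure. -/
def SolvFol (S : Set G) : Prop :=
  ∀ F : Finset G, (∀ b ∈ F, b ∈ S) → ∀ ε : ℝ, 0 < ε → ∃ ν : Measure G, IsProbabilityMeasure ν ∧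
    ∀ b ∈ F, ∀ f : G → ℝ, Measurable f → (∀ g, |f g| ≤ 1) →
      |∫ s, f (b * s) ∂ν - ∫ s, f s ∂ν| ≤ ε

omit [MeasurableMul G] in
theorem SolvFol.mono {S T : Set G} (h : SolvFol T) (hST : S ⊆ T) : SolvFol S :=
  fun F hF => h F fun b hb => hST (hF b hb)

omit [MeasurableMul G] in
theorem solvFol_one : SolvFol ({1} : Set G) := by
  intro F hF ε hε
  refine ⟨Measure.dirac 1, inferInstance, fun b hb f _ _ => ?_⟩
  have : b = 1 := hF b hb
  simp only [this, one_mul, sub_self, abs_zero]
  exact hε.le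

theorem solv_avg (ν : Measure G) [IsProbabilityMeasure ν] (b : G) {n : ℕ} (hn : 0 < n) :
    ∃ ν' : Measure G, IsProbabilityMeasure ν' ∧ ∀ f : G → ℝ, Measurable f → (∀ g, |f g| ≤ 1) →
      ∫ s, f s ∂ν' = (n : ℝ)⁻¹ * ∑ k ∈ Finset.range n, ∫ s, f (b ^ k * s) ∂ν := by
  have hp : ∀ k : ℕ, IsProbabilityMeasure (ν.map fun s => b ^ k * s) := fun k =>
    Measure.isProbabilityMeasure_map (measurable_const_mul _).aemeasurable
  refine ⟨(n : ENNReal)⁻¹ • ∑ k ∈ Finset.range n, ν.map fun s => b ^ k * s, ⟨?_⟩,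
    fun f hf h1 => ?_⟩
  · rw [Measure.smul_apply, Measure.finsetSum_apply]
    simp only [measure_univ, Finset.sum_const, Finset.card_range, nsmul_eq_mul, mul_one,
      smul_eq_mul]
    exact ENNReal.inv_mul_cancel (by exact_mod_cast hn.ne') (ENNReal.natCast_ne_top n)
  · rw [integral_smul_measure, integral_finsetSum_measure fun k _ =>
      (integrable_const (1 : ℝ)).mono' hf.aestronglyMeasurable (ae_of_all _ h1)]
    simp only [ENNReal.toReal_inv, ENNReal.toReal_natCast, smul_eq_mul]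
    refine congrArg _ (Finset.sum_congr rfl fun k _ => ?_)
    exact integral_map (measurable_const_mul _).aemeasurable hf.aestronglyMeasurable

theorem SolvFol.step {S : Set G} (h : SolvFol S) (b : G) :
    SolvFol {g | ∃ j ≤ 1, ∀ k : ℕ, (b ^ (k + j))⁻¹ * g * b ^ k ∈ S} := by
  classical
  intro F hF ε hε
  obtain ⟨n, hn⟩ := exists_nat_gt (4 / ε)
  have hn' : (0 : ℝ) < n := lt_trans (by positivity) hn
  have hn0 : 0 < n := by exact_mod_cast hn'
  choose! j hj hS using hF
  obtain ⟨ν, hν, H⟩ := h ((F ×ˢ Finset.range n).image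
    fun p => (b ^ (p.2 + j p.1))⁻¹ * p.1 * b ^ p.2) (by
      intro c hc
      obtain ⟨p, hp, rfl⟩ := Finset.mem_image.1 hc
      exact hS _ (Finset.mem_product.1 hp).1 _) (ε / 2) (by positivity)
  obtain ⟨ν', hν', E⟩ := solv_avg ν b hn0
  refine ⟨ν', hν', fun g hg f hf h1 => ?_⟩
  rw [E (fun s => f (g * s)) (hf.comp (measurable_const_mul g)) (fun s => h1 _), E f hf h1,
    ← mul_sub]
  set φ : ℕ → ℝ := fun k => ∫ s, f (b ^ k * s) ∂ν with hφ
  have hb : ∀ k, |φ k| ≤ 1 := fun k => by
    have := norm_integral_le_of_norm_le_const (μ := ν) (f := fun s => f (b ^ k * s)) (C := 1)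
      (ae_of_all _ fun s => h1 _)
    simpa using this
  have h2 : ∀ k ∈ Finset.range n, |∫ s, f (g * (b ^ k * s)) ∂ν - φ (k + j g)| ≤ ε / 2 := by
    intro k hk
    have := H _ (Finset.mem_image.2 ⟨(g, k), Finset.mem_product.2 ⟨hg, hk⟩, rfl⟩)
      (fun s => f (b ^ (k + j g) * s)) (hf.comp (measurable_const_mul _)) (fun s => h1 _)
    simpa only [mul_assoc, mul_inv_cancel_left] using this
  have h3 : |∑ k ∈ Finset.range n, (φ (k + j g) - φ k)| ≤ 2 := by
    rcases Nat.le_one_iff_eq_zero_or_eq_one.1 (hj g hg) with h0 | h0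
    · simp [h0]
    · rw [h0, Finset.sum_range_sub]
      have := abs_sub (φ n) (φ 0)
      linarith [hb n, hb 0]
  have h4 : |∑ k ∈ Finset.range n, (∫ s, f (g * (b ^ k * s)) ∂ν - φ (k + j g))| ≤ n * (ε / 2) := by
    refine (Finset.abs_sum_le_sum_abs _ _).trans ((Finset.sum_le_sum h2).trans ?_)
    simp
  have h5 : ∑ k ∈ Finset.range n, ∫ s, f (g * (b ^ k * s)) ∂ν - ∑ k ∈ Finset.range n, φ k =
      ∑ k ∈ Finset.range n, (∫ s, f (g * (b ^ k * s)) ∂ν - φ (k + j g)) +
        ∑ k ∈ Finset.range n, (φ (k + j g) - φ k) := by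
    rw [Finset.sum_sub_distrib, Finset.sum_sub_distrib]
    ring
  rw [h5, abs_mul, abs_of_pos (inv_pos.2 hn'), inv_mul_le_iff₀ hn']
  rw [div_lt_iff₀ hε] at hn
  refine (abs_add_le _ _).trans ?_
  linarith

open scoped commutatorElement in
theorem SolvFol.of_commutator {H : Subgroup G} (h : SolvFol ((⁅H, H⁆ : Subgroup G) : Set G)) :
    SolvFol (H : Set G) := by
  classical
  have conj : ∀ a ∈ H, ∀ u ∈ H, ∀ g, a⁻¹ * g ∈ ⁅H, H⁆ → a⁻¹ * (u⁻¹ * g * u) ∈ ⁅H, H⁆ := by
    intro a ha u hu g hg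
    have hgH : a⁻¹ * g ∈ H := Subgroup.commutator_le_self H hg
    have e : a⁻¹ * (u⁻¹ * g * u) = ⁅a⁻¹, u⁻¹⁆ * ((a⁻¹ * g) * ⁅(a⁻¹ * g)⁻¹, u⁻¹⁆) := by
      simp only [commutatorElement_def]
      group
    rw [e]
    exact mul_mem (Subgroup.commutator_mem_commutator (H.inv_mem ha) (H.inv_mem hu))
      (mul_mem hg (Subgroup.commutator_mem_commutator (H.inv_mem hgH) (H.inv_mem hu)))
  have key : ∀ F : Finset G, (∀ b ∈ F, b ∈ H) →
      SolvFol {g | ∃ a ∈ insert (1 : G) F, a⁻¹ * g ∈ ⁅H, H⁆} := by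
    intro F
    induction F using Finset.induction_on with
    | empty =>
      intro _
      refine h.mono ?_
      rintro g ⟨a, ha, hg⟩
      have : a = 1 := by simpa using ha
      simpa [this] using hg
    | insert b F _ ih =>
      intro hF
      have hb : b ∈ H := hF b (Finset.mem_insert_self _ _)
      have hF' : ∀ c ∈ F, c ∈ H := fun c hc => hF c (Finset.mem_insert_of_mem hc)
      refine ((ih hF').step b).mono ?_
      rintro g ⟨a, ha, hg⟩
      rw [Finset.insert_comm, Finset.mem_insert] at ha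
      rcases ha with rfl | ha
      · refine ⟨1, le_rfl, fun k => ⟨1, Finset.mem_insert_self _ _, ?_⟩⟩
        have e : (a ^ (k + 1))⁻¹ * g * a ^ k = (a ^ k)⁻¹ * (a⁻¹ * g) * a ^ k := by group
        rw [e]
        exact conj 1 H.one_mem _ (H.pow_mem hb k) _ (by simpa using hg)
      · refine ⟨0, zero_le_one, fun k => ⟨a, ha, ?_⟩⟩
        have haH : a ∈ H := by
          rcases Finset.mem_insert.1 ha with rfl | ha
          · exact H.one_mem
          · exact hF' a ha
        exact conj a haH _ (H.pow_mem hb k) _ hg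
  intro F hF
  exact key F hF F fun b hb => ⟨b, Finset.mem_insert_of_mem hb, by simp⟩

theorem solvFol_of_solvable (B : Subgroup G) [Group.IsSolvable B] : SolvFol (B : Set G) := by
  obtain ⟨n, hn⟩ := Group.IsSolvable.solvable (G := B)
  have key : ∀ k : ℕ, SolvFol (((derivedSeries B k).map B.subtype : Subgroup G) : Set G) →
      SolvFol (B : Set G) := by
    intro k
    induction k with
    | zero =>
      intro h
      exact h.mono fun g hg => ⟨⟨g, hg⟩, trivial, rfl⟩
    | succ k ih =>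
      intro h
      rw [derivedSeries_succ, Subgroup.map_commutator] at h
      exact ih h.of_commutator
  refine key n ?_
  rw [hn, Subgroup.map_bot]
  exact solvFol_one

end Folner

theorem solv_lift {G Q : Type} [Group G] [MeasurableSpace G] [MeasurableMul G] [Group Q]
    [MeasurableSpace Q] [MeasurableMul₂ Q] [MeasurableInv Q] (lam : Measure G) [SFinite lam]
    [lam.IsMulLeftInvariant] [NeZero lam] (η : Measure Q) [IsProbabilityMeasure η]
    [η.IsMulLeftInvariant] (π : G →* Q) (hπ : Measurable π) (hs : Function.Surjective π) :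
    ∃ ρ : Measure G, IsProbabilityMeasure ρ ∧ ρ.map π = η := by
  have hτ : IsProbabilityMeasure (lam.toFinite.map π) :=
    Measure.isProbabilityMeasure_map hπ.aemeasurable
  have hac : η ≪ lam.toFinite.map π := by
    refine Measure.AbsolutelyContinuous.mk fun A hA h0 => ?_
    have hm : MeasurableSet {p : Q × Q | p.1 * p.2 ∈ A} := measurable_mul hA
    have h1 : (η.prod (lam.toFinite.map π)) {p : Q × Q | p.1 * p.2 ∈ A} = 0 := by
      rw [Measure.measure_prod_null hm]
      refine ae_of_all _ fun c => ?_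
      obtain ⟨g, rfl⟩ := hs c
      rw [Measure.map_apply hπ hA, toFinite_apply_eq_zero_iff] at h0
      have e : π ⁻¹' (Prod.mk (π g) ⁻¹' {p : Q × Q | p.1 * p.2 ∈ A}) =
          (fun s => g * s) ⁻¹' (π ⁻¹' A) := by
        ext s
        simp
      simp only [Pi.zero_apply]
      rw [Measure.map_apply hπ (measurable_prodMk_left hm), toFinite_apply_eq_zero_iff, e,
        measure_preimage_mul, h0]
    rw [Measure.prod_apply_symm hm, lintegral_eq_zero_iff (measurable_measure_prodMk_right hm)]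
      at h1
    obtain ⟨t, ht⟩ := h1.exists
    exact (measure_mul_right_null η t).1 ht
  have hmap : (lam.toFinite.withDensity fun g => η.rnDeriv (lam.toFinite.map π) (π g)).map π =
      η := by
    ext A hA
    rw [Measure.map_apply hπ hA, withDensity_apply _ (hπ hA),
      ← setLIntegral_map hA (Measure.measurable_rnDeriv _ _) hπ,
      Measure.setLIntegral_rnDeriv' hac hA]
  refine ⟨_, ⟨?_⟩, hmap⟩
  have := congrArg (fun m : Measure Q => m univ) hmap
  simpa only [Measure.map_apply hπ MeasurableSet.univ, preimage_univ, measure_univ] using this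

variable {G : Type} [Group G] [TopologicalSpace G] [IsTopologicalGroup G] [LocallyCompactSpace G]
  [SecondCountableTopology G] [T2Space G] [MeasurableSpace G] [BorelSpace G]

theorem exists_folner (B : Subgroup G) [Group.IsSolvable B] [Countable B] :
    ∃ ν : ℕ → Measure G, (∀ n, IsProbabilityMeasure (ν n)) ∧ ∀ b ∈ B, ∀ ε : ℝ, 0 < ε →
      ∀ᶠ n in atTop, ∀ f : G → ℝ, Measurable f → (∀ g, |f g| ≤ 1) →
        |∫ s, f (b * s) ∂ν n - ∫ s, f s ∂ν n| ≤ ε := by
  classical
  obtain ⟨e, he⟩ := exists_surjective_nat B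
  have H := fun n : ℕ => solvFol_of_solvable B ((Finset.range n).image fun i => (e i : G))
    (by
      intro b hb
      obtain ⟨i, -, rfl⟩ := Finset.mem_image.1 hb
      exact (e i).2) (1 / ((n : ℝ) + 1)) (by positivity)
  choose ν hν H using H
  refine ⟨ν, hν, fun b hb ε hε => ?_⟩
  obtain ⟨i, hi⟩ := he ⟨b, hb⟩
  filter_upwards [eventually_gt_atTop i,
    tendsto_one_div_add_atTop_nhds_zero_nat.eventually (ge_mem_nhds hε)] with n h1 h2 f hf hf1
  exact (H n b (Finset.mem_image.2 ⟨i, Finset.mem_range.2 h1, congrArg Subtype.val hi⟩)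
    f hf hf1).trans h2

theorem exists_lift (L : Subgroup G) [L.Normal] (hL : IsClosed (L : Set G))
    (hC : ∃ C : Set G, IsCompact C ∧ C * (L : Set G) = univ) :
    ∃ ρ : Measure G, IsProbabilityMeasure ρ ∧ ∀ f : G → ℝ, Continuous f →
      (∀ g, ∀ n ∈ L, f (g * n) = f g) → ∀ g, ∫ s, f (g * s) ∂ρ = ∫ s, f s ∂ρ := by
  obtain ⟨C, hC, hCL⟩ := hC
  have hπ : Continuous (QuotientGroup.mk' L) := QuotientGroup.continuous_mk
  have : CompactSpace (G ⧸ L) := ⟨by
    refine (hC.image hπ).of_isClosed_subset isClosed_univ fun q _ => ?_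
    obtain ⟨g, rfl⟩ := QuotientGroup.mk'_surjective L q
    obtain ⟨c, hc, n, hn, rfl⟩ : g ∈ C * (L : Set G) := hCL ▸ mem_univ g
    exact ⟨c, hc, (QuotientGroup.mk_mul_of_mem c hn).symm⟩⟩
  let _ : MeasurableSpace (G ⧸ L) := borel _
  have : BorelSpace (G ⧸ L) := ⟨rfl⟩
  have : IsProbabilityMeasure
      (Measure.haarMeasure (⊤ : TopologicalSpace.PositiveCompacts (G ⧸ L))) :=
    ⟨Measure.haarMeasure_self⟩
  obtain ⟨ρ, hρ, hmap⟩ := solv_lift (Measure.haar : Measure G)
    (Measure.haarMeasure (⊤ : TopologicalSpace.PositiveCompacts (G ⧸ L))) (QuotientGroup.mk' L)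
    hπ.measurable (QuotientGroup.mk'_surjective L)
  refine ⟨ρ, hρ, fun f hf hfL g => ?_⟩
  have hF : ∀ s : G, f (QuotientGroup.mk' L s).out = f s := fun s => by
    obtain ⟨n, hn⟩ := QuotientGroup.mk_out_eq_mul L s
    exact (congrArg f hn).trans (hfL s n n.2)
  have hFc : Continuous fun q : G ⧸ L => f q.out := by
    rw [(QuotientGroup.isQuotientMap_mk L).continuous_iff]
    exact hf.congr fun s => (hF s).symm
  have h1 : ∀ c : G, ∫ s, f (c * s) ∂ρ =
      ∫ q, f (QuotientGroup.mk' L c * q).out ∂(ρ.map (QuotientGroup.mk' L)) := fun c => by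
    have hc : Continuous fun q : G ⧸ L => f (QuotientGroup.mk' L c * q).out :=
      hFc.comp (continuous_const_mul _)
    rw [integral_map hπ.measurable.aemeasurable hc.aestronglyMeasurable]
    simp only [← map_mul, hF]
  have h2 := h1 1
  simp only [one_mul, map_one] at h2
  rw [h1, h2, hmap]
  exact integral_mul_left_eq_self (fun q : G ⧸ L => f q.out) _

end Pool.Agent.Lib.MP_60cbcc_al.H3Z
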