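import Pool.Agent.Lib.MP_60cbcc_al.H3ZReiter
import Pool.Agent.Lib.MP_60cbcc_al.H3ZCont
import Pool.Agent.Lib.MP_60cbcc_al.H3ZSolv

/-!
Asymptotically invariant probability vectors on the orbits, from a solvable subgroup.
-/

set_option linter.unusedSectionVars false

namespace Pool.Agent.Lib.MP_60cbcc_al.H3Z

open MeasureTheory Set Filter Topology
open scoped ENNReal NNReal Pointwise

namespace Rei2

section One

variable {G : Type} [Group G] [TopologicalSpace G] [IsTopologicalGroup G] [LocallyCompactSpace G]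
  [SecondCountableTopology G] [T2Space G] [MeasurableSpace G] [BorelSpace G]
  (lam : Measure G) [lam.IsHaarMeasure] [lam.IsMulRightInvariant]

theorem exists_count (B : Subgroup G) : ∃ B₀ : Subgroup G, B₀ ≤ B ∧ Countable B₀ ∧
    ∀ R : Subgroup G, IsClosed (R : Set G) → B₀ ≤ R → B ≤ R := by
  have : SecondCountableTopology B := TopologicalSpace.Subtype.secondCountableTopology (B : Set G)
  obtain ⟨d, hd⟩ := TopologicalSpace.exists_dense_seq B
  refine ⟨(FreeGroup.lift fun n => (d n : G)).range, ?_,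
    (MonoidHom.rangeRestrict_surjective _).countable, fun R hR h b hb => ?_⟩
  · refine FreeGroup.range_lift_le ?_
    rintro _ ⟨n, rfl⟩
    exact (d n).2
  · refine hd.induction_on (p := fun b : B => (b : G) ∈ R) ⟨b, hb⟩
      (hR.preimage continuous_subtype_val) fun n => h ⟨FreeGroup.of n, ?_⟩
    exact FreeGroup.lift_apply_of

theorem comp_lim {U : Filter ℕ} {F : ℕ → G → ℝ} {f : G → ℝ} (hF : ∀ n, Measurable (F n))
    (hf : Measurable f) (h : ∀ ν : Measure G, IsFiniteMeasure ν → ν ≪ lam →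
      Tendsto (fun n => ∫ g, F n g ∂ν) U (𝓝 (∫ g, f g ∂ν)))
    {T : G → G} (hT : MeasurePreserving T lam lam) (ν : Measure G) [IsFiniteMeasure ν]
    (hν : ν ≪ lam) : Tendsto (fun n => ∫ g, F n (T g) ∂ν) U (𝓝 (∫ g, f (T g) ∂ν)) := by
  have h1 := h (ν.map T) inferInstance (by simpa only [hT.map_eq] using hν.map hT.measurable)
  rw [integral_map_of_stronglyMeasurable hT.measurable hf.stronglyMeasurable] at h1
  exact h1.congr fun n =>
    integral_map_of_stronglyMeasurable hT.measurable (hF n).stronglyMeasurable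

theorem inv_lim {U : Filter ℕ} [U.NeBot] {F : ℕ → G → ℝ} {f : G → ℝ} (hF : ∀ n, Measurable (F n))
    (hb : ∀ n g, |F n g| ≤ 1) (hf : Measurable f) (hfb : ∀ g, |f g| ≤ 1)
    (h : ∀ ν : Measure G, IsFiniteMeasure ν → ν ≪ lam →
      Tendsto (fun n => ∫ g, F n g ∂ν) U (𝓝 (∫ g, f g ∂ν)))
    {T : G → G} (hT : MeasurePreserving T lam lam)
    (he : ∀ ε : ℝ, 0 < ε → ∀ᶠ n in U, ∀ g, |F n (T g) - F n g| ≤ ε) :
    ∀ᵐ g ∂lam, f (T g) = f g := by
  refine ae_eq_of_forall_setIntegral_eq_of_sigmaFinite (f := fun g => f (T g)) (g := f)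
    (fun A _ hA => ?_) (fun A _ hA => ?_) fun A _ hA => ?_
  · have : IsFiniteMeasure (lam.restrict A) := isFiniteMeasure_restrict.2 hA.ne
    exact Rei.int_bd _ (hf.comp hT.measurable) fun _ => hfb _
  · have : IsFiniteMeasure (lam.restrict A) := isFiniteMeasure_restrict.2 hA.ne
    exact Rei.int_bd _ hf hfb
  · have : IsFiniteMeasure (lam.restrict A) := isFiniteMeasure_restrict.2 hA.ne
    have hν : lam.restrict A ≪ lam := Measure.absolutelyContinuous_restrict
    have t1 := (comp_lim lam hF hf h hT _ hν).sub (h _ this hν)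
    refine sub_eq_zero.1 (tendsto_nhds_unique t1 (Metric.tendsto_nhds.2 fun ε hε => ?_))
    have hc : 0 ≤ (lam.restrict A).real univ := measureReal_nonneg
    filter_upwards [he (ε / ((lam.restrict A).real univ + 1)) (by positivity)] with n hn
    rw [dist_zero_right, ← integral_sub (f := fun g => F n (T g))
      (Rei.int_bd _ ((hF n).comp hT.measurable) fun _ => hb _ _) (Rei.int_bd _ (hF n) (hb n))]
    refine (norm_integral_le_of_norm_le_const (ae_of_all _ hn)).trans_lt ?_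
    rw [div_mul_eq_mul_div, div_lt_iff₀ (by positivity)]
    nlinarith

variable {f : G → ℝ}

theorem avg_cont (hf : Measurable f) (hb : ∀ g, |f g| ≤ 1) (σ : Measure G) [IsFiniteMeasure σ]
    (hσ : σ ≪ lam) : Continuous fun g => ∫ y, f (g * y) ∂σ := by
  refine continuous_iff_continuousAt.2 fun a => ?_
  have h1 := (cont_mean lam hf.stronglyMeasurable (C := 1) hb σ hσ a 1).comp
    ((Continuous.prodMk_left (1 : G)).tendsto a)
  refine tendsto_iff_norm_sub_tendsto_zero.2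
    (squeeze_zero (fun _ => norm_nonneg _) (fun p => ?_) h1)
  beta_reduce
  rw [← integral_sub (f := fun y => f (p * y)) (g := fun y => f (a * y))
    (Rei.int_bd _ (hf.comp (measurable_const_mul p)) fun _ => hb _)
    (Rei.int_bd _ (hf.comp (measurable_const_mul a)) fun _ => hb _)]
  simpa only [Function.comp, mul_one] using
    norm_integral_le_integral_norm (μ := σ) fun y => f (p * y) - f (a * y)

theorem avg_left (σ : Measure G) (hσ : σ ≪ lam) {c : G} (hc : c ∈ LInv lam f) (g : G) :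
    ∫ y, f (c * g * y) ∂σ = ∫ y, f (g * y) ∂σ := by
  refine integral_congr_ae (hσ.ae_le ?_)
  filter_upwards [(measurePreserving_mul_left lam g).quasiMeasurePreserving.ae hc] with y hy
  rw [mul_assoc, hy]

theorem avg_right (hf : Measurable f) (hb : ∀ g, |f g| ≤ 1) (σ : Measure G) [IsFiniteMeasure σ]
    (hσ : σ ≪ lam) {c : G} (hc : ∀ y, y⁻¹ * c * y ∈ RInv lam f) (g : G) :
    ∫ y, f (g * c * y) ∂σ = ∫ y, f (g * y) ∂σ := by
  have h1 : ∀ᵐ y ∂σ, ∀ᵐ g ∂lam, f (g * c * y) = f (g * y) := ae_of_all _ fun y => by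
    filter_upwards [(measurePreserving_mul_right lam y).quasiMeasurePreserving.ae (hc y)]
      with g hg
    rw [← hg]
    congr 1
    group
  have h2 : ∀ᵐ g ∂lam, ∀ᵐ y ∂σ, f (g * c * y) = f (g * y) :=
    (Measure.ae_ae_comm (p := fun g y => f (g * c * y) = f (g * y))
      (measurableSet_eq_fun (hf.comp (by fun_prop)) (hf.comp (by fun_prop)))).2 h1
  have hc := avg_cont lam hf hb σ hσ
  have h3 := (Continuous.ae_eq_iff_eq lam (hc.comp (continuous_mul_const c)) hc).1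
    (h2.mono fun g hg => integral_congr_ae hg)
  exact congrFun h3 g

end One

variable {G₁ G₂ : Type}
  [Group G₁] [TopologicalSpace G₁] [IsTopologicalGroup G₁] [LocallyCompactSpace G₁]
  [SecondCountableTopology G₁] [T2Space G₁] [MeasurableSpace G₁] [BorelSpace G₁]
  [Group G₂] [TopologicalSpace G₂] [IsTopologicalGroup G₂] [LocallyCompactSpace G₂]
  [SecondCountableTopology G₂] [T2Space G₂] [MeasurableSpace G₂] [BorelSpace G₂]
  (lam : Measure (G₁ × G₂)) [lam.IsHaarMeasure] [lam.IsMulRightInvariant]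
  (W₁ : Walk G₁) (W₂ : Walk G₂)

theorem walk_ac {L : Type} [Group L] [TopologicalSpace L] [MeasurableSpace L] (W : Walk L) :
    W.r ≪ W.lam :=
  (Measure.absolutelyContinuous_of_le W.le).trans
    (Measure.smul_absolutelyContinuous.trans Measure.absolutelyContinuous_restrict)

theorem prod_ac : W₁.r.prod W₂.r ≪ lam :=
  ((walk_ac W₁).prod (walk_ac W₂)).trans (Measure.absolutelyContinuous_isHaarMeasure _ _)

theorem avg_K {f : G₁ × G₂ → ℝ} (hf : Measurable f) (hb : ∀ g, |f g| ≤ 1) {k : G₂}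
    (hk : k ∈ W₂.K) (a : G₁) (b : G₂) :
    ∫ y, f ((a, b * k) * y) ∂W₁.r.prod W₂.r = ∫ y, f ((a, b) * y) ∂W₁.r.prod W₂.r := by
  rw [integral_prod _ (Rei.int_bd _ (Rei.meas_mul hf _) fun _ => hb _),
    integral_prod _ (Rei.int_bd _ (Rei.meas_mul hf _) fun _ => hb _)]
  refine integral_congr_ae (ae_of_all _ fun s => ?_)
  have h := W₂.int_K (f := fun t => f (a * s, b * t))
    (hf.comp (by fun_prop)).stronglyMeasurable hk
  simpa only [Prod.mk_mul_mk, mul_assoc] using h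

/-- The average of an invariant function is constant. -/
theorem avg_const (L : Subgroup G₁) [L.Normal] (ρ : Measure G₁) [IsProbabilityMeasure ρ]
    (hρ : ∀ f : G₁ → ℝ, Continuous f → (∀ g, ∀ n ∈ L, f (g * n) = f g) →
      ∀ g, ∫ s, f (g * s) ∂ρ = ∫ s, f s ∂ρ)
    {f : G₁ × G₂ → ℝ} (hf : Measurable f) (hb : ∀ g, |f g| ≤ 1)
    (hL : ∀ n ∈ L, (n, 1) ∈ RInv lam f) {D : Set G₂} (hD : ∀ d ∈ D, ∃ a, (a, d) ∈ LInv lam f)
    (hd : Dense (D * (W₂.K : Set G₂))) (g : G₁ × G₂) :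
    ∫ y, f (g * y) ∂(ρ.map fun s => (s, 1)) ∗ₘ W₁.r.prod W₂.r =
      ∫ y, f (1 * y) ∂(ρ.map fun s => (s, 1)) ∗ₘ W₁.r.prod W₂.r := by
  have hm : Measurable fun s : G₁ => (s, (1 : G₂)) := by fun_prop
  have : IsProbabilityMeasure (ρ.map fun s => (s, (1 : G₂))) :=
    Measure.isProbabilityMeasure_map hm.aemeasurable
  have hσ := prod_ac lam W₁ W₂
  have hτ : (ρ.map fun s => (s, (1 : G₂))) ∗ₘ W₁.r.prod W₂.r ≪ lam :=
    Measure.mconv_absolutelyContinuous hσ
  have c1 := avg_cont lam hf hb _ hσ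
  have c2 := avg_cont lam hf hb _ hτ
  have e : ∀ (a : G₁) (b : G₂), ∫ y, f ((a, b) * y) ∂(ρ.map fun s => (s, 1)) ∗ₘ W₁.r.prod W₂.r =
      ∫ s, ∫ y, f ((s, b) * y) ∂W₁.r.prod W₂.r ∂ρ := by
    intro a b
    rw [integral_mconv (Rei.int_bd _ (Rei.meas_mul hf _) fun _ => hb _)]
    simp only [← mul_assoc]
    rw [integral_map_of_stronglyMeasurable
      (f := fun x => ∫ y, f ((a, b) * x * y) ∂W₁.r.prod W₂.r) hm
      (c1.comp (continuous_const_mul (a, b))).stronglyMeasurable]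
    have h := hρ (fun s => ∫ y, f ((s, b) * y) ∂W₁.r.prod W₂.r)
      (c1.comp (Continuous.prodMk_left b)) (fun s n hn => by
        have h := avg_right lam hf hb _ hσ (c := (n, 1)) (fun y => by
          have h := hL _ (Subgroup.Normal.conj_mem' inferInstance n hn y.1)
          have e : y⁻¹ * (n, 1) * y = (y.1⁻¹ * n * y.1, 1) := Prod.ext rfl (by simp)
          rwa [e]) (s, b)
        simpa only [Prod.mk_mul_mk, mul_one] using h) a
    simpa only [Function.comp, Prod.mk_mul_mk, mul_one] using h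
  have h1 : (fun b : G₂ => ∫ y, f ((1, b) * y) ∂(ρ.map fun s => (s, 1)) ∗ₘ W₁.r.prod W₂.r) =
      fun _ => ∫ y, f ((1, 1) * y) ∂(ρ.map fun s => (s, 1)) ∗ₘ W₁.r.prod W₂.r := by
    refine Continuous.ext_on hd (c2.comp (Continuous.prodMk_right 1)) continuous_const ?_
    rintro _ ⟨d, hd, k, hk, rfl⟩
    obtain ⟨a, ha⟩ := hD d hd
    have h2 := avg_left lam _ hτ ha (1, 1)
    rw [Prod.mk_mul_mk, mul_one, mul_one] at h2
    change ∫ y, f ((1, d * k) * y) ∂_ = ∫ y, f ((1, 1) * y) ∂_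
    rw [← h2, e, e]
    simp only [avg_K W₁ W₂ hf hb hk]
  have h2 := congrFun h1 g.2
  rw [e] at h2
  exact ((e g.1 g.2).trans h2 :)

end Rei2

variable {Γ X G₁ G₂ : Type} [Group Γ] [Countable Γ]
  [MeasurableSpace X] [MulAction Γ X] [MeasurableConstSMul Γ X]
  [Group G₁] [TopologicalSpace G₁] [IsTopologicalGroup G₁] [LocallyCompactSpace G₁]
  [SecondCountableTopology G₁] [T2Space G₁] [MeasurableSpace G₁] [BorelSpace G₁]
  [Group G₂] [TopologicalSpace G₂] [IsTopologicalGroup G₂] [LocallyCompactSpace G₂]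
  [SecondCountableTopology G₂] [T2Space G₂] [MeasurableSpace G₂] [BorelSpace G₂]

theorem reiter2 (S : Setup Γ (G₁ × G₂) X) (W₁ : Walk G₁) (W₂ : Walk G₂) (L : Subgroup G₁)
    [L.Normal] (hL : IsClosed (L : Set G₁))
    (hC : ∃ C : Set G₁, IsCompact C ∧ C * (L : Set G₁) = univ)
    (B : Subgroup (G₁ × G₂)) [Group.IsSolvable B]
    (hi : ∀ᵐ x ∂S.μ, ∀ f : G₁ × G₂ → ℝ, Measurable f → (∀ g, |f g| ≤ 1) →
      (∀ γ : Γ, γ • x = x → S.j γ ∈ LInv S.lam f) → B ≤ RInv S.lam f →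
      ∀ n ∈ L, (n, 1) ∈ RInv S.lam f)
    (hd : ∀ᵐ x ∂S.μ, Dense ((fun γ => (S.j γ).2) '' {γ : Γ | γ • x = x} * (W₂.K : Set G₂))) :
    ∃ κ : ℕ → Measure (G₁ × G₂), (∀ n, IsProbabilityMeasure (κ n)) ∧ Reiter S κ := by
  obtain ⟨B₀, hB₀, hc, hcl⟩ := Rei2.exists_count B
  have : Group.IsSolvable B₀ :=
    Group.isSolvable_of_isSolvable_injective (Subgroup.inclusion_injective hB₀)
  obtain ⟨ν, hν, hfol⟩ := exists_folner B₀
  obtain ⟨ρ, hρ, hlift⟩ := exists_lift L hL hC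
  have hm : Measurable fun s : G₁ => (s, (1 : G₂)) := by fun_prop
  have : IsProbabilityMeasure (ρ.map fun s => (s, (1 : G₂))) :=
    Measure.isProbabilityMeasure_map hm.aemeasurable
  have hτ : (ρ.map fun s => (s, (1 : G₂))) ∗ₘ W₁.r.prod W₂.r ≪ S.lam :=
    Measure.mconv_absolutelyContinuous (Rei2.prod_ac S.lam W₁ W₂)
  refine ⟨fun n => ((ρ.map fun s => (s, (1 : G₂))) ∗ₘ W₁.r.prod W₂.r) ∗ₘ ν n,
    fun n => inferInstance, ?_⟩
  filter_upwards [hi, hd] with x hx hdx g g' A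
  let T : ℕ → Set (G₁ × G₂) := fun n => {h | (S.π h)⁻¹ • x ∈ A n}
  have hT : ∀ n, MeasurableSet (T n) := fun n =>
    @measurable_to_countable' Γ _ ⊤ _ _ S.π S.mπ {γ : Γ | γ⁻¹ • x ∈ A n} trivial
  have hφ : ∀ n, Measurable ((T n).indicator (1 : G₁ × G₂ → ℝ)) := fun n =>
    measurable_one.indicator (hT n)
  have h1 : ∀ n y, |(T n).indicator (1 : G₁ × G₂ → ℝ) y| ≤ 1 := fun n y => by
    by_cases h : y ∈ T n <;> simp [h]
  have hl : ∀ n, ∀ γ : Γ, γ • x = x → ∀ y, (T n).indicator (1 : G₁ × G₂ → ℝ) (S.j γ * y) =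
      (T n).indicator 1 y := fun n γ hγ y => by
    have h2 : γ⁻¹ • x = x := inv_smul_eq_iff.2 hγ.symm
    have h3 : S.j γ * y ∈ T n ↔ y ∈ T n := by
      simp only [T, mem_ofPred_eq, S.eqv, mul_inv_rev, mul_smul, h2]
    by_cases h : y ∈ T n
    · rw [indicator_of_mem h, indicator_of_mem (h3.2 h)]
      rfl
    · rw [indicator_of_notMem h, indicator_of_notMem fun h' => h (h3.1 h')]
  obtain ⟨F, hF⟩ : ∃ F : ℕ → G₁ × G₂ → ℝ,
      ∀ n h, F n h = ∫ b, (T n).indicator (1 : G₁ × G₂ → ℝ) (h * b) ∂ν n := ⟨_, fun _ _ => rfl⟩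
  have hFm : ∀ n, Measurable (F n) := fun n => by
    rw [funext (hF n)]
    exact (StronglyMeasurable.integral_prod_right'
      (f := fun z : (G₁ × G₂) × G₁ × G₂ => (T n).indicator (1 : G₁ × G₂ → ℝ) (z.1 * z.2))
      ((hφ n).comp (by fun_prop)).stronglyMeasurable).measurable
  have hFb : ∀ n h, |F n h| ≤ 1 := fun n h => by
    rw [hF]
    exact Rei.abs_int _ (ae_of_all _ fun _ => h1 _ _)
  have e : ∀ n g, (((ρ.map fun s => (s, (1 : G₂))) ∗ₘ W₁.r.prod W₂.r) ∗ₘ ν n).real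
      {h | (S.π (g * h))⁻¹ • x ∈ A n} =
      ∫ y, F n (g * y) ∂(ρ.map fun s => (s, (1 : G₂))) ∗ₘ W₁.r.prod W₂.r := fun n g => by
    simp only [hF, mul_assoc]
    rw [← integral_mconv (f := fun h => (T n).indicator (1 : G₁ × G₂ → ℝ) (g * h))
      (Rei.int_bd _ (Rei.meas_mul (hφ n) g) fun _ => h1 _ _)]
    exact (integral_indicator_one (measurable_const_mul g (hT n))).symm
  simp only [e]
  refine (tendsto_iff_ultrafilter _ _ _).2 fun U hU => ?_
  obtain ⟨f, hf, hfb, hlim⟩ := weak_lim S.lam U hFm hFb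
  have hLI : ∀ γ : Γ, γ • x = x → S.j γ ∈ LInv S.lam f := fun γ hγ =>
    Rei2.inv_lim S.lam hFm hFb hf hfb hlim (measurePreserving_mul_left S.lam (S.j γ))
      fun ε hε => Eventually.of_forall fun n y => by
        simp only [hF, mul_assoc, hl n γ hγ, sub_self, abs_zero, hε.le]
  have hRI : B ≤ RInv S.lam f := hcl _ (isClosed_RInv S.lam hf hfb) fun b hb =>
    Rei2.inv_lim S.lam hFm hFb hf hfb hlim (measurePreserving_mul_right S.lam b)
      fun ε hε => ((hfol b hb ε hε).filter_mono hU).mono fun n hn y => by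
        simpa only [hF, mul_assoc] using hn _ (Rei.meas_mul (hφ n) y) fun _ => h1 _ _
  have hconst := Rei2.avg_const S.lam W₁ W₂ L ρ hlift hf hfb (hx f hf hfb hLI hRI)
    (by
      rintro _ ⟨γ, hγ, rfl⟩
      exact ⟨(S.j γ).1, hLI γ hγ⟩) hdx
  have t := (Rei2.comp_lim S.lam hFm hf hlim (measurePreserving_mul_left S.lam g) _ hτ).sub
    (Rei2.comp_lim S.lam hFm hf hlim (measurePreserving_mul_left S.lam g') _ hτ)
  rwa [hconst g, hconst g', sub_self] at t

end Pool.Agent.Lib.MP_60cbcc_al.H3Z
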