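import Pool.Agent.Lib.MP_60cbcc_al.H3ZLoc

/-!
Asymptotic invariance under the first factor gives asymptotic invariance under the second.
-/

set_option linter.unusedSectionVars false

namespace Pool.Agent.Lib.MP_60cbcc_al.H3Z

open MeasureTheory Set Filter Topology
open scoped ENNReal NNReal RealInnerProductSpace Pointwise

variable {Γ G X G₁ G₂ : Type} [Group Γ] [Countable Γ] [Group G] [TopologicalSpace G]
  [IsTopologicalGroup G] [LocallyCompactSpace G] [SecondCountableTopology G] [T2Space G]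
  [MeasurableSpace G] [BorelSpace G] [MeasurableSpace X] [MulAction Γ X] [MeasurableConstSMul Γ X]
  [Group G₁] [TopologicalSpace G₁] [IsTopologicalGroup G₁] [LocallyCompactSpace G₁]
  [SecondCountableTopology G₁] [T2Space G₁] [MeasurableSpace G₁] [BorelSpace G₁]
  [Group G₂] [TopologicalSpace G₂] [IsTopologicalGroup G₂] [LocallyCompactSpace G₂]
  [SecondCountableTopology G₂] [T2Space G₂] [MeasurableSpace G₂] [BorelSpace G₂]
  {H : Type} [NormedAddCommGroup H] [InnerProductSpace ℝ H] [CompleteSpace H]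

/-- Off a small set, finitely many stabiliser elements cover a compact set. -/
theorem second_cover (μ : Measure X) [IsProbabilityMeasure μ]
    (hF : ∀ γ : Γ, MeasurableSet {x : X | γ • x = x}) (p : Γ → G₂) {K : Set G₂}
    (hd : ∀ᵐ x ∂μ, Dense (p '' {γ : Γ | γ • x = x} * K)) {C U : Set G₂} (hC : IsCompact C)
    (hU : U ∈ 𝓝 (1 : G₂)) {β : ℝ} (hβ : 0 < β) :
    ∃ (F : Set Γ) (Z : Set X), F.Finite ∧ MeasurableSet Z ∧ μ.real Z ≤ β ∧ ∀ x ∉ Z, ∀ c ∈ C,
      ∃ γ ∈ F, γ • x = x ∧ ∃ k ∈ K, ∃ v ∈ U, c = p γ * (k * v) := by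
  obtain ⟨ι, hι⟩ := Countable.exists_injective_nat Γ
  let Q : ℕ → Finset Γ → Prop := fun j F => (∀ γ ∈ F, ι γ < j) ∧
    ∀ c ∈ C, ∃ γ ∈ F, ∃ k ∈ K, ∃ v ∈ U, c = p γ * (k * v)
  let Y : ℕ → Set X := fun j => ⋃ F : Finset Γ, {x | Q j F ∧ ∀ γ ∈ F, γ • x = x}
  have hm : ∀ j, MeasurableSet (Y j) := fun j => MeasurableSet.iUnion fun F => by
    have : {x : X | Q j F ∧ ∀ γ ∈ F, γ • x = x} =
        {_x : X | Q j F} ∩ ⋂ γ ∈ F, {x : X | γ • x = x} := by
      ext x; simp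
    rw [this]
    exact (MeasurableSet.const _).inter (F.measurableSet_biInter fun γ _ => hF γ)
  have hmono : Monotone Y := by
    intro i j hij x hx
    obtain ⟨F, h1, h2⟩ := mem_iUnion.1 hx
    exact mem_iUnion.2 ⟨F, ⟨fun γ hγ => (h1.1 γ hγ).trans_le hij, h1.2⟩, h2⟩
  have hanti : Antitone fun j => (Y j)ᶜ := fun i j hij => compl_subset_compl.2 (hmono hij)
  have hlim := tendsto_measure_iInter_atTop (μ := μ) (fun j => (hm j).compl.nullMeasurableSet)
    hanti ⟨0, measure_ne_top _ _⟩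
  have h0 : μ (⋂ j, (Y j)ᶜ) = 0 := by
    refine measure_mono_null ?_ hd
    intro x hx hdx
    obtain ⟨b, hb1, hb2, hb3⟩ := hC.elim_finite_subcover_image (b := {γ : Γ | γ • x = x})
      (c := fun γ => ⋃ k ∈ K, {c : G₂ | (p γ * k)⁻¹ * c ∈ interior U})
      (fun γ _ => isOpen_biUnion fun k _ => isOpen_interior.preimage (by fun_prop))
      (fun c _ => by
        have ho : IsOpen {v : G₂ | v⁻¹ * c ∈ interior U} :=
          isOpen_interior.preimage (by fun_prop)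
        obtain ⟨_, hv, _, ⟨γ, hγ, rfl⟩, k, hk, rfl⟩ := Dense.inter_open_nonempty hdx _ ho
          ⟨c, by simpa using mem_interior_iff_mem_nhds.2 hU⟩
        exact mem_biUnion hγ (mem_biUnion hk hv))
    obtain ⟨j, hj⟩ := (hb2.image ι).bddAbove
    refine mem_iInter.1 hx (j + 1) (mem_iUnion.2 ⟨hb2.toFinset, ⟨fun γ hγ =>
      Nat.lt_succ_of_le (hj ⟨γ, hb2.mem_toFinset.1 hγ, rfl⟩), fun c hc => ?_⟩,
      fun γ hγ => hb1 (hb2.mem_toFinset.1 hγ)⟩)
    obtain ⟨γ, hγ, h⟩ := mem_iUnion₂.1 (hb3 hc)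
    obtain ⟨k, hk, h⟩ := mem_iUnion₂.1 h
    exact ⟨γ, hb2.mem_toFinset.2 hγ, k, hk, _, interior_subset h, by group⟩
  rw [h0] at hlim
  obtain ⟨j, hj⟩ := (hlim.eventually (gt_mem_nhds (ENNReal.ofReal_pos.2 hβ))).exists
  refine ⟨ι ⁻¹' Iio j, (Y j)ᶜ, (finite_Iio j).preimage hι.injOn, (hm j).compl,
    ENNReal.toReal_le_of_le_ofReal hβ.le hj.le, fun x hx c hc => ?_⟩
  obtain ⟨F, h1, h2⟩ := mem_iUnion.1 (not_not.1 hx)
  obtain ⟨γ, hγ, h⟩ := h1.2 c hc
  exact ⟨γ, h1.1 γ hγ, h2 γ hγ, h⟩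

theorem Spl.second (P : Spl G G₁ G₂) (S : Setup Γ G X) (V : Γ → X → H →ₗᵢ[ℝ] H)
    (hV : ∀ γ x, γ • x = x → ∀ z, V γ x z = z)
    (hd : ∀ᵐ x ∂S.μ, Dense ((fun γ => (P.e.symm (S.j γ)).2) '' {γ : Γ | γ • x = x} *
      (P.W₂.K : Set G₂)))
    (u : ℕ → Sec S V) (hu : ∀ n y, ‖u n y‖ ≤ 1)
    (h₁ : Tendsto (fun n => ‖(1 - P.R₁ S V) (u n)‖) atTop (𝓝 0)) :
    Tendsto (fun n => ‖(1 - P.R₂ S V) (P.R₁ S V (P.R₂ S V (u n)))‖) atTop (𝓝 0) := by
  refine tendsto_order.2 ⟨fun c hc => Eventually.of_forall fun n =>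
    hc.trans_le (norm_nonneg _), fun η hη => ?_⟩
  obtain ⟨K, hK, hKε⟩ := S.tight (ε := η ^ 2 / 32) (by positivity)
  have cs : Continuous P.e.symm := P.e.symm.continuous_toFun
  have k₁ : IsCompact ((fun h => (P.e.symm h).1) '' K) := hK.image (by fun_prop)
  have k₂ : IsCompact ((fun h => (P.e.symm h).2) '' K * P.W₂.S) :=
    (hK.image (by fun_prop)).mul P.W₂.cpt
  obtain ⟨F, Z, hF, mZ, hZ, hc⟩ := second_cover S.μ S.fix _ hd k₂
    (P.W₂.osc' H (ε := η / 8) (by positivity)) (β := η ^ 2 / 32) (by positivity)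
  have k₃ : IsCompact (insert 1 ((fun γ => (P.e.symm (S.j γ)).1⁻¹) '' F *
      (fun h => (P.e.symm h).1) '' K)) := ((hF.image _).isCompact.mul k₁).insert 1
  obtain ⟨C, hC, H₁⟩ := P.loc3 S V k₃ (isCompact_singleton (x := (1 : G₂)))
  have t := h₁.const_mul (8 * C)
  rw [mul_zero] at t
  filter_upwards [(tendsto_order.1 t).2 (η ^ 2 / 2) (by positivity)] with n hn
  obtain ⟨s, h3, h4⟩ := H₁ (u n)
  have e : P.R₁ S V (P.R₂ S V (u n)) = P.R₂ S V (P.R₁ S V (u n)) :=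
    LinearMap.congr_fun (P.comm (S := S) (V := V)).eq (u n)
  have hn1 : ‖u n‖ ≤ 1 := (u n).norm_le zero_le_one (hu n)
  have hv : ∀ y, ‖P.R₁ S V (u n) y‖ ≤ 1 := norm_Av_apply_le _ _ (hu n)
  have hw : ∀ y, ‖P.R₁ S V (P.R₂ S V (u n)) y‖ ≤ 1 :=
    norm_Av_apply_le _ _ (norm_Av_apply_le _ _ (hu n))
  set w := P.R₁ S V (P.R₂ S V (u n)) with hwd
  have hw' : ∀ y, ‖P.R₂ S V w y‖ ≤ 1 := norm_Av_apply_le _ _ hw
  have near : ∀ x ∉ Z, ∀ a ∈ (fun h => (P.e.symm h).1) '' K,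
      ∀ c ∈ (fun h => (P.e.symm h).2) '' K * P.W₂.S,
      ‖w (x, P.e (a, c)) - w (x, P.e (1, 1))‖ ≤ η / 8 + √(s x) := by
    intro x hx a ha c hc'
    obtain ⟨γ, hγ, hγx, k, hk, v, hv', rfl⟩ := hc x hx c hc'
    have q1 := hv' k hk (fun t => P.R₁ S V (u n) (x, P.e (a, (P.e.symm (S.j γ)).2 * t)))
      (P.swap.loc_meas S V _ x a _) ⟨1, fun _ => hv _⟩ 0 1 (fun _ _ => by simpa using hv _)
      (fun _ _ => by simpa using hv _)
    simp only [← mul_assoc] at q1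
    rw [← P.R₂_apply, ← P.R₂_apply, ← e, mul_one] at q1
    have q2 : w (x, P.e (a, (P.e.symm (S.j γ)).2)) = w (x, P.e ((P.e.symm (S.j γ)).1⁻¹ * a, 1)) := by
      have := w.eqv γ x (P.e ((P.e.symm (S.j γ)).1⁻¹ * a, 1))
      rw [hγx, hV γ x hγx] at this
      rw [← this]
      congr 2
      conv_rhs => rw [← P.e.apply_symm_apply (S.j γ), ← map_mul]
      congr 1
      ext <;> simp
    have q3 := Real.le_sqrt_of_sq_le (h4 x _ (Or.inr (mul_mem_mul ⟨γ, hγ, rfl⟩ ha)) 1 (Or.inl rfl)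
      1 rfl)
    rw [← q2] at q3
    rw [← mul_assoc]
    exact (norm_sub_le_norm_sub_add_norm_sub _ _ _).trans (add_le_add q1 q3)
  have i1 : Integrable (fun y : X × G => s y.1) S.m := h3.int.comp_fst _
  have i2 : Integrable (fun y : X × G => Z.indicator (1 : X → ℝ) y.1) S.m :=
    ((integrable_const (1 : ℝ)).indicator mZ).comp_fst _
  have i3 : Integrable (fun y : X × G => Kᶜ.indicator (1 : G → ℝ) y.2) S.m :=
    ((integrable_const (1 : ℝ)).indicator hK.measurableSet.compl).comp_snd _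
  have e1 : ∫ y : X × G, s y.1 ∂S.m = ∫ x, s x ∂S.μ := by
    rw [Setup.m, integral_fun_fst]; simp
  have e2 : ∫ y : X × G, Z.indicator (1 : X → ℝ) y.1 ∂S.m = S.μ.real Z := by
    rw [Setup.m, integral_fun_fst, integral_indicator_one mZ]; simp
  have e3 : ∫ y : X × G, Kᶜ.indicator (1 : G → ℝ) y.2 ∂S.m = (S.lam.restrict S.Ω).real Kᶜ := by
    rw [Setup.m, integral_fun_snd, integral_indicator_one hK.measurableSet.compl]; simp
  have i01 : Integrable (fun y : X × G => η ^ 2 / 8 + 8 * s y.1) S.m :=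
    (integrable_const _).add (i1.const_mul 8)
  have i012 : Integrable
      (fun y : X × G => η ^ 2 / 8 + 8 * s y.1 + 4 * Z.indicator (1 : X → ℝ) y.1) S.m :=
    i01.add (i2.const_mul 4)
  have key : ∫ y, ‖(1 - P.R₂ S V) w y‖ ^ 2 ∂S.m ≤ ∫ y : X × G, (η ^ 2 / 8 + 8 * s y.1 +
      4 * Z.indicator (1 : X → ℝ) y.1 + 4 * Kᶜ.indicator (1 : G → ℝ) y.2) ∂S.m := by
    refine integral_mono_of_nonneg (ae_of_all _ fun y => by positivity)
      (i012.add (i3.const_mul 4)) (ae_of_all _ fun ⟨x, h⟩ => ?_)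
    have p1 := h3.nn x
    have p2 : 0 ≤ Z.indicator (1 : X → ℝ) x := indicator_nonneg (fun _ _ => zero_le_one) _
    have p3 : 0 ≤ Kᶜ.indicator (1 : G → ℝ) h := indicator_nonneg (fun _ _ => zero_le_one) _
    have p4 := pow_le_pow_left₀ (norm_nonneg _) (norm_sub_le_of_le (hw (x, h)) (hw' (x, h))) 2
    have p5 := sq_nonneg η
    change ‖w (x, h) - P.R₂ S V w (x, h)‖ ^ 2 ≤ _
    simp only
    by_cases hx : x ∈ Z
    · rw [indicator_of_mem hx, Pi.one_apply]
      linarith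
    by_cases hh : h ∈ K
    · obtain ⟨⟨a, b⟩, rfl⟩ := P.e.surjective h
      have ha : a ∈ (fun h => (P.e.symm h).1) '' K := ⟨_, hh, by simp⟩
      have hb : b ∈ (fun h => (P.e.symm h).2) '' K := ⟨_, hh, by simp⟩
      have q1 : ‖w (x, P.e (a, b)) - P.R₂ S V w (x, P.e (a, b))‖ ≤ 2 * (η / 8 + √(s x)) := by
        have q2 : w (x, P.e (a, b)) - P.R₂ S V w (x, P.e (a, b)) =
            ∫ t, (w (x, P.e (a, b)) - w (x, P.e (a, b * t))) ∂P.W₂.r := by
          have i : Integrable (fun t => w (x, P.e (a, b * t))) P.W₂.r := P.swap.loc_int S V w x a b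
          rw [integral_sub (integrable_const _) i, P.R₂_apply]
          simp
        rw [q2]
        refine (norm_integral_le_of_norm_le_const (C := 2 * (η / 8 + √(s x))) ?_).trans_eq (by simp)
        filter_upwards [P.W₂.ae_mem] with t ht
        have r1 := near x hx a ha b ⟨b, hb, 1, P.W₂.one, mul_one b⟩
        have r2 := near x hx a ha (b * t) (mul_mem_mul hb ht)
        rw [norm_sub_rev] at r2
        linarith [norm_sub_le_norm_sub_add_norm_sub (w (x, P.e (a, b))) (w (x, P.e (1, 1)))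
          (w (x, P.e (a, b * t)))]
      have q4 := pow_le_pow_left₀ (norm_nonneg _) q1 2
      nlinarith [Real.sq_sqrt p1, sq_nonneg (η / 8 - √(s x))]
    · rw [indicator_of_mem (mem_compl hh), Pi.one_apply]
      linarith
  rw [integral_add i012 (i3.const_mul 4), integral_add i01 (i2.const_mul 4),
    integral_add (integrable_const _) (i1.const_mul 8), integral_const_mul, integral_const_mul,
    integral_const_mul, e1, e2, e3, ← Sec.norm_sq] at key
  simp only [integral_const, probReal_univ, one_smul] at key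
  have b1 := h3.le.trans (mul_le_mul_of_nonneg_left
    (mul_le_of_le_one_right (norm_nonneg _) hn1) hC)
  exact lt_of_pow_lt_pow_left₀ 2 hη.le (by nlinarith [sq_pos_of_pos hη])

end Pool.Agent.Lib.MP_60cbcc_al.H3Z
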