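import Pool.Agent.Lib.MP_60cbcc_al.H3ZCont
import Pool.Agent.Lib.MP_60cbcc_al.H3ZFac

/-!
The limit of the translates of a function along the powers of an element.
-/

set_option linter.unusedSectionVars false

namespace Pool.Agent.Lib.MP_60cbcc_al.H3Z

open MeasureTheory Set Filter Topology
open scoped ENNReal NNReal

variable {G : Type} [Group G] [TopologicalSpace G] [IsTopologicalGroup G] [LocallyCompactSpace G]
  [SecondCountableTopology G] [T2Space G] [MeasurableSpace G] [BorelSpace G]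

/-- `Ψ` is the limit in mean of `f (h a^k g)`. -/
structure Lim (ν : Measure G) (f : G → ℝ) (a : G) (Ψ : G × G → ℝ) : Prop where
  meas : Measurable Ψ
  bdd : ∀ y, |Ψ y| ≤ 1
  tend : Tendsto (fun k : ℕ => ∫ h, ∫ g, |f (h * a ^ k * g) - Ψ (h, g)| ∂ν ∂ν) atTop (𝓝 0)

variable (lam : Measure G) [lam.IsHaarMeasure] [lam.IsMulRightInvariant] {ν : Measure G}
  [IsProbabilityMeasure ν] {f : G → ℝ} {a : G} {N B : Subgroup G}

theorem stepa_int {α : Type} [MeasurableSpace α] (μ : Measure α) [IsFiniteMeasure μ]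
    {F F' : α → ℝ} (hF : Measurable F) (hF' : Measurable F') (hb : ∀ x, |F x| ≤ 1)
    (hb' : ∀ x, |F' x| ≤ 1) : Integrable (fun x => |F x - F' x|) μ := by
  refine Integrable.of_bound (hF.sub hF').abs.aestronglyMeasurable 2 (ae_of_all _ fun x => ?_)
  rw [Real.norm_eq_abs, abs_abs]
  exact (abs_sub _ _).trans (by linarith [hb x, hb' x])

theorem stepa_tri {α : Type} [MeasurableSpace α] (μ : Measure α) [IsFiniteMeasure μ]
    {F F' W : α → ℝ} (hF : Measurable F) (hF' : Measurable F') (hW : Measurable W)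
    (hb : ∀ x, |F x| ≤ 1) (hb' : ∀ x, |F' x| ≤ 1) (hbW : ∀ x, |W x| ≤ 1) :
    ∫ x, |F x - F' x| ∂μ ≤ ∫ x, |W x - F x| ∂μ + ∫ x, |W x - F' x| ∂μ := by
  rw [← integral_add (stepa_int μ hW hF hbW hb) (stepa_int μ hW hF' hbW hb')]
  refine integral_mono (stepa_int μ hF hF' hb hb')
    ((stepa_int μ hW hF hbW hb).add (stepa_int μ hW hF' hbW hb')) fun x => ?_
  have := abs_sub_le (F x) (W x) (F' x)
  rw [abs_sub_comm (F x) (W x)] at this
  exact this

theorem stepa_sub {α : Type} [MeasurableSpace α] {μ : Measure α} {d : ℕ → α → ℝ}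
    (hm : ∀ k, Integrable (d k) μ) (h0 : ∀ k x, 0 ≤ d k x)
    (ht : Tendsto (fun k => ∫ x, d k x ∂μ) atTop (𝓝 0)) :
    ∃ φ : ℕ → ℕ, StrictMono φ ∧ ∀ᵐ x ∂μ, Tendsto (fun j => d (φ j) x) atTop (𝓝 0) := by
  have h : TendstoInMeasure μ d atTop (fun _ => (0 : ℝ)) := by
    refine tendstoInMeasure_of_tendsto_eLpNorm (p := 1) one_ne_zero
      (fun k => (hm k).aestronglyMeasurable) aestronglyMeasurable_const ?_
    have h1 := ENNReal.tendsto_ofReal ht
    rw [ENNReal.ofReal_zero] at h1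
    refine h1.congr fun k => ?_
    have e : d k - (fun _ => (0 : ℝ)) = d k := by funext x; simp
    rw [e, eLpNorm_one_eq_lintegral_enorm, ← ofReal_integral_norm_eq_lintegral_enorm (hm k)]
    congr 1
    exact integral_congr_ae (ae_of_all _ fun x => (Real.norm_of_nonneg (h0 k x)).symm)
  exact h.exists_seq_tendsto_ae

theorem stepa_pt (h₁ : ν ≪ lam) (hC : Cell a N B) (hf : Measurable f) (hb : ∀ g, |f g| ≤ 1)
    (hB : B ≤ RInv lam f) {u z b : G} (hu : u ∈ con a) (hz : z ∈ Subgroup.centralizer {a})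
    (hbB : b ∈ B) :
    Tendsto (fun k : ℕ => ∫ h, |f (h * a ^ k * (u * z * b)) - f (h * z)| ∂ν) atTop (𝓝 0) := by
  have hza : Commute a z := Subgroup.mem_centralizer_iff.1 hz a rfl
  have h1 : Tendsto (fun k : ℕ => ((1 : G), a ^ k * u * (a ^ k)⁻¹ * z)) atTop (𝓝 (1, z)) := by
    refine tendsto_const_nhds.prodMk_nhds ?_
    have := Tendsto.mul_const z hu
    rwa [one_mul] at this
  have h2 := (cont_mean lam hf.stronglyMeasurable (C := 1) hb ν h₁ 1 z).comp h1
  refine h2.congr fun k => integral_congr_ae ?_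
  have h3 : a ^ k * b ∈ RInv lam f := hB (B.mul_mem (B.pow_mem hC.mem k) hbB)
  filter_upwards [h₁.ae_le ((measurePreserving_mul_right lam
    (a ^ k * u * (a ^ k)⁻¹ * z)).quasiMeasurePreserving.ae h3)] with h hh
  have e : h * a ^ k * (u * z * b) = h * (a ^ k * u * (a ^ k)⁻¹ * z) * (a ^ k * b) := by
    have := (hza.pow_left k).eq
    calc h * a ^ k * (u * z * b) = h * a ^ k * u * (a ^ k)⁻¹ * (a ^ k * z) * b := by group
      _ = h * a ^ k * u * (a ^ k)⁻¹ * (z * a ^ k) * b := by rw [this]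
      _ = _ := by group
  simp only [one_mul, Real.norm_eq_abs]
  rw [e, hh]

theorem exists_lim (h₁ : ν ≪ lam) (hC : Cell a N B) (hf : Measurable f) (hb : ∀ g, |f g| ≤ 1)
    (hB : B ≤ RInv lam f) : ∃ Ψ, Lim ν f a Ψ := by
  let F : ℕ → G × G → ℝ := fun k y => f (y.1 * a ^ k * y.2)
  have hF : ∀ k, Measurable (F k) := fun k =>
    hf.comp ((measurable_fst.mul_const _).mul measurable_snd)
  have hFb : ∀ k y, |F k y| ≤ 1 := fun k y => hb _
  have hFi : ∀ k, Integrable (F k) (ν.prod ν) := fun k =>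
    Integrable.of_bound (hF k).aestronglyMeasurable 1 (ae_of_all _ (hFb k))
  have hc : CauchySeq fun k => (hFi k).toL1 (F k) := by
    rw [cauchySeq_iff_tendsto_dist_atTop_0]
    have e : ∀ n : ℕ × ℕ, dist ((hFi n.1).toL1 (F n.1)) ((hFi n.2).toL1 (F n.2)) =
        ∫ g, ∫ h, |F n.1 (h, g) - F n.2 (h, g)| ∂ν ∂ν := by
      intro n
      rw [L1.dist_eq_integral_dist,
        ← integral_prod_symm _ (stepa_int (ν.prod ν) (hF n.1) (hF n.2) (hFb _) (hFb _))]
      refine integral_congr_ae ?_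
      filter_upwards [(hFi n.1).coeFn_toL1, (hFi n.2).coeFn_toL1] with y h1 h2
      rw [h1, h2, Real.dist_eq]
    simp only [e]
    have := tendsto_integral_filter_of_dominated_convergence (μ := ν) (l := (atTop : Filter (ℕ × ℕ)))
      (F := fun n g => ∫ h, |F n.1 (h, g) - F n.2 (h, g)| ∂ν) (f := fun _ => (0 : ℝ))
      (fun _ => (2 : ℝ)) (Eventually.of_forall fun n =>
        (stepa_int (ν.prod ν) (hF n.1) (hF n.2) (hFb _) (hFb _)).integral_prod_right.1)
      (Eventually.of_forall fun n => ae_of_all _ fun g => by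
        have := norm_integral_le_of_norm_le_const (μ := ν)
          (f := fun h => |F n.1 (h, g) - F n.2 (h, g)|) (C := 2) (ae_of_all _ fun h => by
            rw [Real.norm_eq_abs, abs_abs]
            exact (abs_sub _ _).trans (by linarith [hFb n.1 (h, g), hFb n.2 (h, g)]))
        simpa using this)
      (integrable_const _) (by
        filter_upwards [h₁.ae_le (hC.cell lam inferInstance)] with g hg
        obtain ⟨_, ⟨u, hu, z, hz, rfl⟩, b, hbB, rfl⟩ := hg
        have h1 := stepa_pt lam h₁ hC hf hb hB hu hz hbB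
        have hz' : Measurable fun h : G => f (h * z) := hf.comp (measurable_id.mul_const _)
        have t1 : Tendsto (Prod.fst : ℕ × ℕ → ℕ) atTop atTop := by
          rw [← prod_atTop_atTop_eq]; exact tendsto_fst
        have t2 : Tendsto (Prod.snd : ℕ × ℕ → ℕ) atTop atTop := by
          rw [← prod_atTop_atTop_eq]; exact tendsto_snd
        have h2 := (h1.comp t1).add (h1.comp t2)
        rw [add_zero] at h2
        refine squeeze_zero (fun n => integral_nonneg fun _ => abs_nonneg _) (fun n => ?_) h2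
        have h3 := stepa_tri ν ((hF n.1).comp (measurable_prodMk_right (y := u * z * b)))
          ((hF n.2).comp (measurable_prodMk_right (y := u * z * b))) hz' (fun _ => hFb _ _)
          (fun _ => hFb _ _) (fun _ => hb _)
        simp only [abs_sub_comm (f (_ * z))] at h3
        exact h3)
    simpa using this
  obtain ⟨L, hL⟩ := cauchySeq_tendsto_of_complete hc
  have hLm : Measurable (L : G × G → ℝ) := (Lp.stronglyMeasurable L).measurable
  have hm : Measurable fun y => max (-1) (min 1 (L y)) :=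
    measurable_const.max (measurable_const.min hLm)
  have hbd : ∀ y, |max (-1) (min 1 (L y))| ≤ 1 := fun y =>
    abs_le.2 ⟨le_max_left _ _, max_le (by norm_num) (min_le_left _ _)⟩
  refine ⟨fun y => max (-1) (min 1 (L y)), hm, hbd, ?_⟩
  refine squeeze_zero (fun k => integral_nonneg fun _ => integral_nonneg fun _ => abs_nonneg _)
    (fun k => ?_) (tendsto_iff_dist_tendsto_zero.1 hL)
  rw [L1.dist_eq_integral_dist]
  refine le_trans (integral_prod _ (stepa_int (ν.prod ν) (hF k) hm (hFb k) hbd)).symm.le ?_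
  refine integral_mono_ae (stepa_int (ν.prod ν) (hF k) hm (hFb k) hbd)
    ((L1.integrable_coeFn _).sub (L1.integrable_coeFn L)).abs ?_
  filter_upwards [(hFi k).coeFn_toL1] with y h1
  rw [h1, Real.dist_eq]
  obtain ⟨h2, h3⟩ := abs_le.1 (hFb k y)
  rcases le_total 1 (L y) with h4 | h4
  · rw [min_eq_left h4, max_eq_right (by norm_num), abs_of_nonpos (by linarith),
      abs_of_nonpos (by linarith)]
    linarith
  · rw [min_eq_right h4]
    rcases le_total (-1) (L y) with h5 | h5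
    · rw [max_eq_right h5]
    · rw [max_eq_left h5, abs_of_nonneg (by linarith), abs_of_nonneg (by linarith)]
      linarith

theorem Lim.stepa_val (h₁ : ν ≪ lam) (h₂ : lam ≪ ν) (hC : Cell a N B) (hf : Measurable f)
    (hb : ∀ g, |f g| ≤ 1) (hB : B ≤ RInv lam f) {Ψ : G × G → ℝ} (hΨ : Lim ν f a Ψ) :
    ∀ᵐ g ∂lam, ∀ u ∈ con a, ∀ z ∈ Subgroup.centralizer {a}, ∀ b ∈ B, g = u * z * b →
      ∀ᵐ h ∂lam, Ψ (h, g) = f (h * z) := by
  have hF : ∀ k : ℕ, Measurable fun y : G × G => f (y.1 * a ^ k * y.2) := fun k =>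
    hf.comp ((measurable_fst.mul_const _).mul measurable_snd)
  have hI := fun k => stepa_int (ν.prod ν) (hF k) hΨ.meas (fun _ => hb _) hΨ.bdd
  obtain ⟨φ, hφ, hae⟩ := stepa_sub (μ := ν)
    (d := fun k g => ∫ h, |f (h * a ^ k * g) - Ψ (h, g)| ∂ν)
    (fun k => (hI k).integral_prod_right) (fun k g => integral_nonneg fun _ => abs_nonneg _)
    (hΨ.tend.congr fun k => (integral_prod _ (hI k)).symm.trans (integral_prod_symm _ (hI k)))
  filter_upwards [h₂.ae_le hae] with g hg u hu z hz b hbB e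
  have h1 := (stepa_pt lam h₁ hC hf hb hB hu hz hbB).comp hφ.tendsto_atTop
  rw [← e] at h1
  have h2 := hg.add h1
  rw [add_zero] at h2
  have hz' : Measurable fun h : G => f (h * z) := hf.comp (measurable_id.mul_const _)
  have hΨ' : Measurable fun h : G => Ψ (h, g) := hΨ.meas.comp measurable_prodMk_right
  have h3 : ∫ h, |Ψ (h, g) - f (h * z)| ∂ν ≤ 0 := ge_of_tendsto' h2 fun j =>
    stepa_tri ν hΨ' hz' ((hF (φ j)).comp (measurable_prodMk_right (y := g))) (fun _ => hΨ.bdd _)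
      (fun _ => hb _) (fun _ => hb _)
  have h4 := (integral_eq_zero_iff_of_nonneg (fun _ => abs_nonneg _)
    (stepa_int ν hΨ' hz' (fun _ => hΨ.bdd _) (fun _ => hb _))).1
    (le_antisymm h3 (integral_nonneg fun _ => abs_nonneg _))
  filter_upwards [h₂.ae_le h4] with h hh
  exact sub_eq_zero.1 (abs_eq_zero.1 hh)

theorem Lim.concl [N.Normal] (h₁ : ν ≪ lam) (h₂ : lam ≪ ν) (hC : Cell a N B) (hf : Measurable f)
    (hb : ∀ g, |f g| ≤ 1) (hB : B ≤ RInv lam f) {Ψ : G × G → ℝ} (hΨ : Lim ν f a Ψ)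
    (hN : ∀ᵐ h ∂lam, N ≤ LInv lam fun g => Ψ (h, g)) :
    Subgroup.centralizer {a} ⊓ N ≤ RInv lam f := by
  have hA := hΨ.stepa_val lam h₁ h₂ hC hf hb hB
  have : SecondCountableTopology (Subgroup.centralizer {a} ⊓ N : Subgroup G) :=
    TopologicalSpace.Subtype.secondCountableTopology _
  obtain ⟨D, hDc, hDd⟩ :=
    TopologicalSpace.exists_countable_dense (Subgroup.centralizer {a} ⊓ N : Subgroup G)
  have h1 : ∀ z0 ∈ D, ∀ᵐ g ∂lam, ∀ u ∈ con a, ∀ z ∈ Subgroup.centralizer {a}, ∀ b ∈ B,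
      g = u * z * b → z⁻¹ * (z0 : G) * z ∈ RInv lam f := by
    intro z0 _
    have hza : Commute a (z0 : G) := Subgroup.mem_centralizer_iff.1 z0.2.1 a rfl
    have h2 : ∀ᵐ g ∂lam, ∀ᵐ h ∂lam, Ψ (h, (z0 : G) * g) = Ψ (h, g) := by
      refine (Measure.ae_ae_comm (p := fun h g => Ψ (h, (z0 : G) * g) = Ψ (h, g)) ?_).1 ?_
      · exact measurableSet_eq_fun
          (hΨ.meas.comp (measurable_fst.prodMk (measurable_snd.const_mul _))) hΨ.meas
      · filter_upwards [hN] with h hh
        exact hh z0.2.2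
    filter_upwards [hA, h2, (measurePreserving_mul_left lam (z0 : G)).quasiMeasurePreserving.ae hA]
      with g g1 g2 g3 u hu z hz b hbB e
    have hu' : (z0 : G) * u * (z0 : G)⁻¹ ∈ con a := by
      have := (Tendsto.const_mul (z0 : G) hu).mul_const (z0 : G)⁻¹
      rw [mul_one, mul_inv_cancel] at this
      refine this.congr fun n => ?_
      have h3 := (hza.pow_left n).eq
      calc (z0 : G) * (a ^ n * u * (a ^ n)⁻¹) * (z0 : G)⁻¹
          = ((z0 : G) * a ^ n) * u * ((z0 : G) * a ^ n)⁻¹ := by group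
        _ = (a ^ n * (z0 : G)) * u * (a ^ n * (z0 : G))⁻¹ := by rw [h3]
        _ = _ := by group
    have g4 := g3 _ hu' _ (Subgroup.mul_mem _ z0.2.1 hz) b hbB (by rw [e]; group)
    have g5 : ∀ᵐ h ∂lam, f (h * ((z0 : G) * z)) = f (h * z) := by
      filter_upwards [g1 u hu z hz b hbB e, g2, g4] with h k1 k2 k3
      rw [← k3, k2, k1]
    filter_upwards [(measurePreserving_mul_right lam z⁻¹).quasiMeasurePreserving.ae g5] with h hh
    rw [inv_mul_cancel_right] at hh
    rw [← hh]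
    congr 1
    group
  obtain ⟨g, hg, ⟨_, ⟨u, hu, z, hz, rfl⟩, b, hbB, e⟩⟩ :=
    (((ae_ball_iff hDc).2 h1).and (hC.cell lam inferInstance)).exists
  have h2 : ∀ z0 : (Subgroup.centralizer {a} ⊓ N : Subgroup G),
      z⁻¹ * (z0 : G) * z ∈ RInv lam f := fun z0 =>
    hDd.induction (P := fun z0 => z⁻¹ * (z0 : G) * z ∈ RInv lam f)
      (fun z0 h0 => hg z0 h0 u hu z hz b hbB e.symm)
      ((isClosed_RInv lam hf hb).preimage (by fun_prop)) z0
  intro w hw
  have h3 := h2 ⟨z * w * z⁻¹, Subgroup.mul_mem _ (Subgroup.mul_mem _ hz hw.1)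
    (Subgroup.inv_mem _ hz), Subgroup.Normal.conj_mem inferInstance w hw.2 z⟩
  have e2 : z⁻¹ * (z * w * z⁻¹) * z = w := by group
  rwa [e2] at h3

end Pool.Agent.Lib.MP_60cbcc_al.H3Z
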