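import Pool.Agent.Lib.MP_60cbcc_al.H3ZRec
import Pool.Agent.Lib.MP_60cbcc_al.H3ZStepA

/-!
Extra invariance of functions invariant under a random subgroup.
-/

set_option linter.unusedSectionVars false

namespace Pool.Agent.Lib.MP_60cbcc_al.H3Z

open MeasureTheory Set Filter Topology
open scoped ENNReal NNReal Pointwise

theorem step_freq {Y : Type} [MeasurableSpace Y] {ν : Measure Y} [IsFiniteMeasure ν]
    {c : ℕ → Y → ℝ} (hi : ∀ j, Integrable (c j) ν) (h0 : ∀ j y, 0 ≤ c j y)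
    (ht : Tendsto (fun j => ∫ y, c j y ∂ν) atTop (𝓝 0)) :
    ∀ᵐ y ∂ν, ∀ η : ℝ, 0 < η → ∃ᶠ j in atTop, c j y < η := by
  have h1 : ∀ m J : ℕ, ∀ᵐ y ∂ν, ¬ ∀ j, J ≤ j → 1 / ((m : ℝ) + 1) ≤ c j y := fun m J => by
    have hη : (0 : ℝ) < 1 / ((m : ℝ) + 1) := Nat.one_div_pos_of_nat
    have h2 : 1 / ((m : ℝ) + 1) * ν.real {y | ∀ j, J ≤ j → 1 / ((m : ℝ) + 1) ≤ c j y} ≤ 0 := by
      refine ge_of_tendsto ht ((eventually_ge_atTop J).mono fun j hj => ?_)
      refine le_trans (mul_le_mul_of_nonneg_left (measureReal_mono fun y hy => hy j hj) hη.le) ?_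
      exact mul_meas_ge_le_integral_of_nonneg (ae_of_all _ (h0 j)) (hi j) _
    have h3 := le_antisymm (nonpos_of_mul_nonpos_right h2 hη) measureReal_nonneg
    rw [measureReal_eq_zero_iff] at h3
    exact measure_eq_zero_iff_ae_notMem.1 h3
  filter_upwards [ae_all_iff.2 fun m => ae_all_iff.2 (h1 m)] with y hy η hη
  obtain ⟨m, hm⟩ := exists_nat_one_div_lt hη
  refine frequently_atTop.2 fun J => ?_
  have h2 := hy m J
  push Not at h2
  obtain ⟨j, hj, h3⟩ := h2
  exact ⟨j, hj, h3.trans hm⟩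

theorem step_ces {Y : Type} [MeasurableSpace Y] {ν : Measure Y} [IsFiniteMeasure ν]
    {e : ℕ → Y → ℝ} (hi : ∀ j, Integrable (e j) ν) (h0 : ∀ j y, 0 ≤ e j y)
    (ht : Tendsto (fun j => ∫ y, e j y ∂ν) atTop (𝓝 0)) {φ : ℕ → ℕ} (hφ : Tendsto φ atTop atTop) :
    ∀ᵐ y ∂ν, ∀ η : ℝ, 0 < η →
      ∃ᶠ j in atTop, (φ j : ℝ)⁻¹ * ∑ k ∈ Finset.range (φ j), e k y < η := by
  refine step_freq (fun j => (integrable_finsetSum _ fun k _ => hi k).const_mul _)
    (fun j y => mul_nonneg (by positivity) (Finset.sum_nonneg fun k _ => h0 k y)) ?_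
  refine (ht.cesaro.comp hφ).congr fun j => ?_
  rw [integral_const_mul, integral_finsetSum _ fun k _ => hi k]
  rfl

theorem step_pick {Y : Type} {E : Set Y} {y : ℕ → Y} {e : ℕ → ℝ} (h0 : ∀ k, 0 ≤ e k) {φ : ℕ → ℕ}
    (hφ : Tendsto φ atTop atTop) {p : ℝ} (hp : 0 < p)
    (h1 : ∀ᶠ j in atTop, p * φ j ≤ ∑ k ∈ Finset.range (φ j), E.indicator (1 : Y → ℝ) (y k))
    (h2 : ∀ η : ℝ, 0 < η → ∃ᶠ j in atTop, (φ j : ℝ)⁻¹ * ∑ k ∈ Finset.range (φ j), e k < η)
    {δ : ℝ} (hδ : 0 < δ) : ∃ k, y k ∈ E ∧ e k < δ := by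
  by_contra hc
  push Not at hc
  obtain ⟨j, h3, h4, h5⟩ := ((h2 (δ * p) (mul_pos hδ hp)).and_eventually
    (h1.and (hφ.eventually (eventually_gt_atTop 0)))).exists
  have h6 : (0 : ℝ) < φ j := Nat.cast_pos.2 h5
  rw [inv_mul_lt_iff₀ h6] at h3
  have h7 : δ * ∑ k ∈ Finset.range (φ j), E.indicator (1 : Y → ℝ) (y k) ≤
      ∑ k ∈ Finset.range (φ j), e k := by
    rw [Finset.mul_sum]
    refine Finset.sum_le_sum fun k _ => ?_
    by_cases hk : y k ∈ E
    · rw [indicator_of_mem hk, Pi.one_apply, mul_one]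
      exact hc k hk
    · rw [indicator_of_notMem hk, mul_zero]
      exact h0 k
  nlinarith [mul_le_mul_of_nonneg_left h4 hδ.le]

theorem step_int {Y : Type} [MeasurableSpace Y] (ν : Measure Y) [IsFiniteMeasure ν] {u v : Y → ℝ}
    (hu : Measurable u) (hv : Measurable v) (bu : ∀ y, |u y| ≤ 1) (bv : ∀ y, |v y| ≤ 1) :
    Integrable (fun y => |u y - v y|) ν :=
  ((Integrable.of_bound hu.aestronglyMeasurable 1 (ae_of_all _ bu)).sub
    (Integrable.of_bound hv.aestronglyMeasurable 1 (ae_of_all _ bv))).abs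

section

variable {G : Type} [Group G] [TopologicalSpace G] [IsTopologicalGroup G] [LocallyCompactSpace G]
  [SecondCountableTopology G] [T2Space G] [MeasurableSpace G] [BorelSpace G]
  (lam : Measure G) [lam.IsHaarMeasure] [lam.IsMulRightInvariant]

theorem step_shift {ν : Measure G} {K K' : Set G} (hK' : IsCompact K') {C : ℝ≥0}
    (hC : lam.restrict K' ≤ C • ν) {w : G} (hw : ∀ g ∈ K, w * g ∈ K') {u : G → ℝ}
    (h0 : ∀ g, 0 ≤ u g) (hi : Integrable u ν) :
    ∫ g in K, u (w * g) ∂lam ≤ C * ∫ g, u g ∂ν := by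
  have h1 : Measure.map (fun g => w * g) (lam.restrict K) ≤ C • ν := by
    refine le_trans (Measure.map_mono (Measure.restrict_mono
      (s' := (fun g => w * g) ⁻¹' K') hw le_rfl) (measurable_const_mul w)) ?_
    rw [((measurePreserving_mul_left lam w).restrict_preimage hK'.measurableSet).map_eq]
    exact hC
  rw [← (measurableEmbedding_mulLeft w).integral_map]
  refine (integral_mono_measure h1 (ae_of_all _ h0) (hi.smul_measure_nnreal)).trans (le_of_eq ?_)
  rw [integral_smul_nnreal_measure]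
  rfl

theorem step_mem {ν : Measure G} [IsFiniteMeasure ν]
    (hν : ∀ K : Set G, IsCompact K → ∃ C : ℝ≥0, lam.restrict K ≤ C • ν) {F : G → ℝ}
    (hF : Measurable F) (hb : ∀ g, |F g| ≤ 1) {s : G}
    (h : ∀ U ∈ 𝓝 s, ∀ δ : ℝ, 0 < δ → ∃ w ∈ U, ∃ f : G → ℝ, Measurable f ∧ (∀ g, |f g| ≤ 1) ∧
      ∫ g, |f g - F g| ∂ν < δ ∧ ∀ᵐ g ∂lam, f (w * g) = f g) : s ∈ LInv lam F := by
  have key : ∀ K : Set G, IsCompact K → ∀ᵐ g ∂lam.restrict K, F (s * g) = F g := by
    intro K hK
    have : IsFiniteMeasure (lam.restrict K) := isFiniteMeasure_restrict.2 hK.measure_lt_top.ne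
    obtain ⟨V, hV, hVs⟩ := exists_compact_mem_nhds s
    have hK' : IsCompact (V * K ∪ K) := (hV.mul hK).union hK
    obtain ⟨C, hC⟩ := hν _ hK'
    have hm : ∀ {u : G → ℝ}, Measurable u → ∀ w, Measurable fun g => u (w * g) :=
      fun hu w => hu.comp (measurable_const_mul w)
    have hi := step_int (lam.restrict K) (hm hF s) hF (fun g => hb _) hb
    have h1 : ∫ g in K, |F (s * g) - F g| ∂lam ≤ 0 := by
      refine le_of_forall_pos_le_add fun ε hε => ?_
      have hδ : 0 < ε / (1 + 2 * C) := by positivity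
      have h2 := ((cont_mean lam hF.stronglyMeasurable hb (lam.restrict K)
        Measure.restrict_le_self.absolutelyContinuous s 1).comp
        (Continuous.prodMk_left (1 : G)).continuousAt).eventually (gt_mem_nhds hδ)
      obtain ⟨w, ⟨hw1, hw2⟩, f, hf, bf, h3, h4⟩ := h _ (inter_mem h2 hVs) _ hδ
      simp only [mem_ofPred_eq, Function.comp_apply, mul_one, Real.norm_eq_abs] at hw1
      have i0 := step_int ν hf hF bf hb
      have i1 := step_int (lam.restrict K) (hm hF w) (hm hF s) (fun g => hb _) fun g => hb _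
      have i2 := step_int (lam.restrict K) (hm hf w) (hm hF w) (fun g => bf _) fun g => hb _
      have i3 := step_int (lam.restrict K) hf hF bf hb
      have h5 := step_shift lam (K := K) hK' hC (w := w)
        (fun g hg => Or.inl (mul_mem_mul hw2 hg)) (fun g => abs_nonneg _) i0
      have h6 := step_shift lam (K := K) hK' hC (w := 1)
        (fun g hg => Or.inr (by rwa [one_mul])) (fun g => abs_nonneg _) i0
      simp only [one_mul] at h6
      have h7 := integral_mono_ae hi ((i1.add i2).add i3) (by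
        filter_upwards [ae_restrict_of_ae h4] with g hg
        simp only [Pi.add_apply]
        rw [hg]
        have a1 := abs_sub_le (F (s * g)) (F (w * g)) (F g)
        have a2 := abs_sub_le (F (w * g)) (f g) (F g)
        rw [abs_sub_comm (F (s * g)) (F (w * g))] at a1
        rw [abs_sub_comm (F (w * g)) (f g)] at a2
        linarith)
      rw [integral_add' (i1.add i2) i3, integral_add' i1 i2] at h7
      have h8 := mul_le_mul_of_nonneg_left h3.le C.2
      have h9 : ε / (1 + 2 * C) * (1 + 2 * C) = ε := div_mul_cancel₀ _ (by positivity)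
      change (C : ℝ) * _ ≤ (C : ℝ) * _ at h8
      linarith
    have h2 := (integral_eq_zero_iff_of_nonneg (fun g => abs_nonneg _) hi).1
      (le_antisymm h1 (integral_nonneg fun g => abs_nonneg _))
    filter_upwards [h2] with g hg
    exact sub_eq_zero.1 (abs_eq_zero.1 hg)
  rw [mem_LInv, ← Measure.restrict_univ (μ := lam), ← iUnion_compactCovering G,
    ae_restrict_iUnion_iff]
  exact fun n => key _ (isCompact_compactCovering G n)

end

variable {Γ G X : Type} [Group Γ] [Countable Γ] [Group G] [TopologicalSpace G]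
  [IsTopologicalGroup G] [LocallyCompactSpace G] [SecondCountableTopology G] [T2Space G]
  [MeasurableSpace G] [BorelSpace G] [MeasurableSpace X] [MulAction Γ X] [MeasurableConstSMul Γ X]

/-- The pairs whose conjugated stabiliser meets `O`. -/
def stepE (S : Setup Γ G X) (O : Set G) : Set (X × G) :=
  {y | ∃ γ : Γ, γ • y.1 = y.1 ∧ y.2⁻¹ * S.j γ * y.2 ∈ O}

theorem stepE_meas (S : Setup Γ G X) {O : Set G} (hO : IsOpen O) : MeasurableSet (stepE S O) := by
  unfold stepE
  rw [ofPred_exists]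
  refine MeasurableSet.iUnion fun γ => MeasurableSet.inter (measurable_fst (S.fix γ))
    (measurable_snd (hO.preimage (f := fun g : G => g⁻¹ * S.j γ * g) (by fun_prop)).measurableSet)

theorem stepE_inv (S : Setup Γ G X) (O : Set G) (γ : Γ) (x : X) (g : G) :
    (γ • x, S.j γ * g) ∈ stepE S O ↔ (x, g) ∈ stepE S O := by
  constructor
  · rintro ⟨δ, h1, h2⟩
    refine ⟨γ⁻¹ * δ * γ, ?_, ?_⟩
    · dsimp only at h1 ⊢
      rw [mul_smul, mul_smul, h1, inv_smul_smul]
    · simpa [mul_assoc] using h2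
  · rintro ⟨δ, h1, h2⟩
    refine ⟨γ * δ * γ⁻¹, ?_, ?_⟩
    · dsimp only at h1 ⊢
      rw [mul_smul, mul_smul, inv_smul_smul, h1]
    · simpa [mul_assoc] using h2

theorem step (S : Setup Γ G X) {a : G} {N B : Subgroup G} [N.Normal] (hC : Cell a N B)
    (hG : ∀ᵐ x ∂S.μ, ∃ γ : Γ, γ • x = x ∧ Gen (S.j γ) N) :
    ∀ᵐ x ∂S.μ, ∀ f : G → ℝ, Measurable f → (∀ g, |f g| ≤ 1) →
      (∀ γ : Γ, γ • x = x → S.j γ ∈ LInv S.lam f) → B ≤ RInv S.lam f →
      Subgroup.centralizer {a} ⊓ N ≤ RInv S.lam f := by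
  have : SecondCountableTopology N := TopologicalSpace.Subtype.secondCountableTopology (N : Set G)
  obtain ⟨d, hd⟩ := TopologicalSpace.exists_dense_seq N
  have := (TopologicalSpace.countable_countableBasis G).to_subtype
  choose φ hφ hrec using fun i : TopologicalSpace.countableBasis G × ℕ =>
    recur S (hC.mau (d i.2).2) (stepE_meas S (TopologicalSpace.isOpen_of_mem_countableBasis i.1.2))
      (stepE_inv S i.1)
  obtain ⟨ν, hν, h₁, h₂, hK⟩ := exists_fin S.lam
  filter_upwards [hG, ae_all_iff.2 hrec] with x ⟨γ₀, hγ₀, hgen⟩ hx f hf hb hL hB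
  obtain ⟨Ψ, hΨ⟩ := exists_lim S.lam h₁ hC hf hb hB
  refine hΨ.concl S.lam h₁ h₂ hC hf hb hB ?_
  have hm : ∀ k : ℕ, Measurable fun y : G × G => f (y.1 * a ^ k * y.2) := fun k =>
    hf.comp (by fun_prop)
  have hi : ∀ k : ℕ, Integrable (fun h => ∫ g, |f (h * a ^ k * g) - Ψ (h, g)| ∂ν) ν := fun k =>
    (step_int (ν.prod ν) (hm k) hΨ.meas (fun _ => hb _) hΨ.bdd).integral_prod_left
  have hces := ae_all_iff.2 fun i => h₂.ae_le (step_ces hi
    (fun k h => integral_nonneg fun g => abs_nonneg _) hΨ.tend (hφ i))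
  filter_upwards [ae_all_iff.2 hx, hces] with h h3 h4
  have hF : Measurable fun g => Ψ (h, g) := hΨ.meas.comp measurable_prodMk_left
  have hcl := isClosed_LInv S.lam hF fun g => hΨ.bdd _
  refine hgen h _ hcl fun n hn => ?_
  refine hd.induction_on (p := fun n : N => (n : G) * (h⁻¹ * S.j γ₀ * h) * (n : G)⁻¹ ∈
    LInv S.lam fun g => Ψ (h, g)) ⟨n, hn⟩ (hcl.preimage (by fun_prop)) fun i => ?_
  refine step_mem S.lam hK hF (fun g => hΨ.bdd _) fun U hU δ hδ => ?_
  have hc : Continuous fun t : G => (d i : G) * t * (d i : G)⁻¹ := by fun_prop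
  obtain ⟨O, hO, h5, h6⟩ := (TopologicalSpace.isBasis_countableBasis G).mem_nhds_iff.1
    (hc.continuousAt.preimage_mem_nhds hU)
  obtain ⟨p, hp, h7⟩ := h3 (⟨O, hO⟩, i) ⟨γ₀, hγ₀, h5⟩
  obtain ⟨k, ⟨γ, h8, h9⟩, h10⟩ := step_pick (fun k => integral_nonneg fun g => abs_nonneg _)
    (hφ _) hp h7 (h4 (⟨O, hO⟩, i)) hδ
  refine ⟨_, h6 h9, fun g => f (h * a ^ k * g), hf.comp (measurable_const_mul _),
    fun g => hb _, h10, ?_⟩
  filter_upwards [(measurePreserving_mul_left S.lam (h * a ^ k)).quasiMeasurePreserving.ae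
    (hL γ h8)] with g hg
  rw [← hg]
  congr 1
  group

end Pool.Agent.Lib.MP_60cbcc_al.H3Z
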