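import Pool.Agent.Lib.MP_60cbcc_al.H3ZXi
import Pool.Agent.Lib.MP_60cbcc_al.H3ZReiter2
import Pool.Agent.Lib.MP_60cbcc_al.H3ZStep
import Pool.Agent.Lib.MP_60cbcc_al.H3ZKazA
import Pool.Agent.Lib.MP_60cbcc_al.H3ZKaz
import Pool.Agent.Lib.MP_60cbcc_al.H3ZSecond

namespace Pool.Agent.Lib.MP_60cbcc_al.H3Z

open MeasureTheory MulAction Filter Topology
open scoped RealInnerProductSpace Pointwise

theorem core2 {Γ G₁ G₂ X κ : Type} [Group Γ] [Countable Γ] [Countable κ]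
    [Group G₁] [TopologicalSpace G₁] [IsTopologicalGroup G₁] [LocallyCompactSpace G₁]
    [SecondCountableTopology G₁] [T2Space G₁] [MeasurableSpace G₁] [BorelSpace G₁]
    [Group G₂] [TopologicalSpace G₂] [IsTopologicalGroup G₂] [LocallyCompactSpace G₂]
    [SecondCountableTopology G₂] [T2Space G₂] [MeasurableSpace G₂] [BorelSpace G₂]
    (hT : Kaz G₁) (h₂ : ∃ S : Set G₂, IsCompact S ∧ Subgroup.closure S = ⊤)
    (L : Subgroup G₁) [L.Normal] (hL : IsClosed (L : Set G₁))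
    (hC : ∃ C : Set G₁, IsCompact C ∧ C * (L : Set G₁) = Set.univ)
    (K₂ : Subgroup G₂) (hK₂ : IsCompact (K₂ : Set G₂))
    (B : Subgroup (G₁ × G₂)) [Group.IsSolvable B] (a : κ → G₁ × G₂)
    (N : κ → Subgroup (G₁ × G₂)) (hN : ∀ i, (N i).Normal) (hc : ∀ i, Cell (a i) (N i) B)
    (hg : ∀ J : Subgroup (G₁ × G₂), IsClosed (J : Set (G₁ × G₂)) → B ≤ J →
      (∀ i, Subgroup.centralizer {a i} ⊓ N i ≤ J) → ∀ n ∈ L, (n, 1) ∈ J)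
    (j : Γ →* G₁ × G₂) (hj : Lat j)
    [MeasurableSpace X] [MulAction Γ X] [MeasurableConstSMul Γ X] (μ : Measure X)
    [IsProbabilityMeasure μ] [SMulInvariantMeasure Γ X μ]
    (hF : ∀ γ : Γ, MeasurableSet {x : X | γ • x = x})
    (hG : ∀ᵐ x ∂μ, ∀ i, ∃ γ : Γ, γ • x = x ∧ Gen (j γ) (N i))
    (hd : ∀ᵐ x ∂μ, Dense ((fun γ => (j γ).2) '' {γ : Γ | γ • x = x} * (K₂ : Set G₂)))
    (hinf : ∀ᵐ x ∂μ, (orbit Γ x).Infinite) : False := by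
  obtain ⟨S, rfl, rfl⟩ := exists_setup j hj μ hF
  obtain ⟨⟨W₁, -⟩, ⟨W₂, rfl⟩⟩ := exists_spl S hT.cg h₂ ⊥ K₂ isCompact_singleton hK₂
  let P : Spl (G₁ × G₂) G₁ G₂ := ⟨ContinuousMulEquiv.refl _, W₁, W₂⟩
  obtain ⟨V, ε, hfr⟩ := exists_frame hF
  have hs := ae_all_iff.2 fun i => step S (hc i) (hG.mono fun x hx => hx i)
  obtain ⟨κ', hκ, hR⟩ := reiter2 S W₁ W₂ L hL hC B (hs.mono fun x hx f h1 h2 h3 h4 =>
    hg _ (isClosed_RInv S.lam h1 h2) h4 fun i => hx i f h1 h2 h3 h4) hd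
  obtain ⟨ξ, hξ₁, hξ₂, hξ₃⟩ := exists_xi hfr κ' hR
  obtain ⟨C, hk⟩ := P.kaz S V hT
  have O := P.ops S V
  have d₁ := hξ₃ P.ν₁ inferInstance
  have d₂ := hξ₃ P.ν₂ inferInstance
  change Tendsto (fun n => ‖(1 - P.R₁ S V) (ξ n)‖) _ _ at d₁
  change Tendsto (fun n => ‖(1 - P.R₂ S V) (ξ n)‖) _ _ at d₂
  have hb₁ : ∀ z : Sec S V, (∀ y, ‖z y‖ ≤ 1) → ∀ y, ‖P.R₁ S V z y‖ ≤ 1 := fun z hz =>
    norm_Av_apply_le _ _ hz
  have hb₂ : ∀ z : Sec S V, (∀ y, ‖z y‖ ≤ 1) → ∀ y, ‖P.R₂ S V z y‖ ≤ 1 := fun z hz =>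
    norm_Av_apply_le _ _ hz
  have li := P.left_inv S V
  have se := P.second S V hfr.fix hd
  set R₁ := P.R₁ S V
  set R₂ := P.R₂ S V
  have O' : Ops R₁ R₁ := ⟨O.s₁, O.s₁, O.c₁, O.c₁, Commute.refl _, fun u => real_inner_self_nonneg⟩
  have t : Tendsto (fun n => C * ‖(1 - R₁) (ξ n)‖ + 2 * (‖(1 - R₁) (ξ n)‖ + ‖(1 - R₂) (ξ n)‖))
      atTop (𝓝 (C * 0 + 2 * (0 + 0))) := (d₁.const_mul C).add ((d₁.add d₂).const_mul 2)
  obtain ⟨n, hn'⟩ := (t.eventually (gt_mem_nhds (show _ < (1 / 2 : ℝ) by norm_num))).exists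
  have hn : ‖ξ n‖ = 1 := by
    have : ‖ξ n‖ ^ 2 = 1 := by simp [Sec.norm_sq, hξ₁]
    exact (pow_eq_one_iff_of_nonneg (norm_nonneg _) two_ne_zero).1 this
  set T := lazy R₁ R₁ with hT'
  have hb : ∀ m y, ‖(T ^ m) (ξ n) y‖ ≤ 1 := fun m => by
    induction m with
    | zero => exact fun y => (hξ₁ n y).le
    | succ m ih =>
      intro y
      rw [pow_succ', Module.End.mul_apply, hT', Ops.lazy_apply]
      have h1 := hb₁ _ ih y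
      have h2 := ih y
      simp only [Sec.add_apply, Sec.smul_apply]
      refine norm_add₃_le.trans ?_
      simp only [norm_smul, Real.norm_eq_abs]
      rw [abs_of_pos (by norm_num : (0 : ℝ) < 1 / 2), abs_of_pos (by norm_num : (0 : ℝ) < 1 / 4)]
      linarith
  have e₀ : Tendsto (fun m => ‖(1 - T) ((T ^ m) (ξ n))‖) atTop (𝓝 0) := by
    have h := tendsto_one_div_add_atTop_nhds_zero_nat (𝕜 := ℝ)
    have h' : Tendsto (fun m => ‖(1 - T) ((T ^ m) (ξ n))‖ ^ 2) atTop (𝓝 0) :=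
      squeeze_zero (fun _ => sq_nonneg _) (fun m => by simpa [hn] using O'.decay (ξ n) m) h
    simpa using h'.sqrt
  have e₁ : Tendsto (fun m => ‖(1 - R₁) ((T ^ m) (ξ n))‖) atTop (𝓝 0) :=
    squeeze_zero (fun _ => norm_nonneg _) (fun m => O'.d₁ _) (by simpa using e₀.const_mul 4)
  have c12 : ∀ z, R₁ (R₂ z) = R₂ (R₁ z) := fun z => LinearMap.congr_fun O.comm.eq z
  have cR : ∀ z, ‖R₁ (R₂ z)‖ ≤ ‖z‖ := fun z => (O.c₁ _).trans (O.c₂ _)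
  have e₂ : Tendsto (fun m => ‖(1 - R₁) (R₁ (R₂ ((T ^ m) (ξ n))))‖) atTop (𝓝 0) :=
    squeeze_zero (fun _ => norm_nonneg _)
      (fun m => le_of_eq_of_le (by simp [c12]) (cR ((1 - R₁) ((T ^ m) (ξ n))))) e₁
  have d₃ := decay hfr hinf (ξ n) (hξ₂ n) (fun m => R₁ (R₂ (R₁ (R₂ ((T ^ m) (ξ n))))))
    (fun m => hb₁ _ (hb₂ _ (hb₁ _ (hb₂ _ (hb m)))))
    fun γ => li _ (fun m => hb₁ _ (hb₂ _ (hb m))) e₂ (se _ hb e₁) _
  obtain ⟨m, hm⟩ := (d₃.eventually (gt_mem_nhds (show _ < (1 / 2 : ℝ) by norm_num))).exists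
  have k₁ : ∀ z, ‖R₁ (R₂ z) - z‖ ≤ ‖(1 - R₁) z‖ + ‖(1 - R₂) z‖ := fun z => by
    rw [norm_sub_rev]
    refine le_of_eq_of_le ?_ (norm_add_le_of_le (le_refl ‖(1 - R₁) z‖) (O.c₁ ((1 - R₂) z)))
    simp
  have k₂ : ‖R₁ (R₂ (R₁ (R₂ ((T ^ m) (ξ n))))) - ξ n‖ ≤
      C * ‖(1 - R₁) (ξ n)‖ + 2 * (‖(1 - R₁) (ξ n)‖ + ‖(1 - R₂) (ξ n)‖) := by
    have h1 := ((cR _).trans (cR _)).trans (hk (ξ n) m)
    have h2 := (cR _).trans (k₁ (ξ n))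
    have h3 := norm_add_le_of_le (norm_add_le_of_le h1 h2) (k₁ (ξ n))
    simp only [map_sub, sub_add_sub_cancel] at h3
    linarith
  have k₃ := abs_real_inner_le_norm (R₁ (R₂ (R₁ (R₂ ((T ^ m) (ξ n))))) - ξ n) (ξ n)
  rw [inner_sub_left, real_inner_self_eq_norm_sq, hn] at k₃
  linarith [neg_abs_le (⟪R₁ (R₂ (R₁ (R₂ ((T ^ m) (ξ n))))), ξ n⟫ - 1 ^ 2)]

end Pool.Agent.Lib.MP_60cbcc_al.H3Z
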