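import Pool.Agent.Lib.MP_60cbcc_al.H8WDefs

/-!
Lattices in products of simple groups: the definitions used in the statements.
-/

namespace Pool.Agent.Lib.MP_60cbcc_al.H3Z

open MeasureTheory

/-- Topological groups isomorphic to a non-compact simple real linear Lie group. -/
def RealType (L : Type) [Group L] [TopologicalSpace L] : Prop :=
  ∃ (n : ℕ) (Q : Subgroup (GL (Fin n) ℝ)), H8W.IsNoncompactSimple Q ∧ Nonempty (L ≃ₜ* Q)

/-- Lattices: discrete subgroups with a fundamental domain of finite Haar measure. -/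
def IsLattice {G : Type} [Group G] [TopologicalSpace G] [MeasurableSpace G] (Γ : Subgroup G) :
    Prop :=
  DiscreteTopology Γ ∧ ∃ (m : Measure G) (Ω : Set G),
    m.IsHaarMeasure ∧ IsFundamentalDomain Γ Ω m ∧ m Ω ≠ ⊤

end Pool.Agent.Lib.MP_60cbcc_al.H3Z
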