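import Pool.Agent.Lib.MP_60cbcc_al.H3ZDefs

/-!
The three classes of factors used in the main statement.
-/

namespace Pool.Agent.Lib.MP_60cbcc_al.H3Z

open MeasureTheory Filter Topology
open scoped Pointwise

/-- Groups with an open normal subgroup of finite index and central centraliser that is a
non-compact simple real linear Lie group. -/
def IsReal (G : Type) [Group G] [TopologicalSpace G] : Prop :=
  ∃ L : Subgroup G, L.Normal ∧ L.FiniteIndex ∧ IsOpen (L : Set G) ∧
    Subgroup.centralizer (L : Set G) ≤ Subgroup.center G ∧ RealType L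

/-- Groups acting by automorphisms, with central kernel, on a locally finite tree all of whose
degrees are at least three, with compact open vertex stabilisers that are transitive on the spheres
about the vertex. -/
def IsTreeGroup (G : Type) [Group G] [TopologicalSpace G] : Prop :=
  ∃ (V : Type) (T : SimpleGraph V) (_ : MulAction G V), T.IsTree ∧
    (∀ v, (T.neighborSet v).Finite ∧ 3 ≤ (T.neighborSet v).ncard) ∧
    (∀ (g : G) (v w : V), T.Adj v w → T.Adj (g • v) (g • w)) ∧
    (∀ v : V, IsCompact {g : G | g • v = v} ∧ IsOpen {g : G | g • v = v}) ∧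
    (∀ v w w' : V, T.dist v w = T.dist v w' → ∃ g : G, g • v = v ∧ g • w = w') ∧
    ∀ g : G, (∀ v : V, g • v = v) → g ∈ Subgroup.center G

/-- Kazhdan's property (T): there is a Kazhdan pair with a compact set. -/
def HasT (G : Type) [Group G] [TopologicalSpace G] : Prop :=
  ∃ (Q : Set G) (ε : ℝ), IsCompact Q ∧ 0 < ε ∧
    ∀ (H : Type) [NormedAddCommGroup H] [InnerProductSpace ℂ H] [CompleteSpace H]
      (π : G →* (H ≃ₗᵢ[ℂ] H)), (∀ v, Continuous fun g => π g v) →
      (∃ v, ‖v‖ = 1 ∧ ∀ q ∈ Q, ‖π q v - v‖ < ε) → ∃ w, w ≠ 0 ∧ ∀ g, π g w = w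

/-- The contraction group of an element. -/
def con {G : Type} [Group G] [TopologicalSpace G] (a : G) : Set G :=
  {u | Tendsto (fun n : ℕ => a ^ n * u * (a ^ n)⁻¹) atTop (𝓝 1)}

/-- Groups with property (T) and the structure that the points of an almost simple algebraic group
of rank at least two over a local field have: `L` is the group generated by the unipotent radicals,
`B` the split part of a minimal parabolic subgroup, and `A` has one singular element of the split
torus for each simple root. -/
def IsHigh (G : Type) [Group G] [TopologicalSpace G] [IsTopologicalGroup G] [MeasurableSpace G] :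
    Prop :=
  HasT G ∧ ∃ (L B : Subgroup G) (A : Finset G), L.Normal ∧ L ≠ ⊥ ∧ CompactSpace (G ⧸ L) ∧
    (∀ N : Subgroup G, IsClosed (N : Set G) → (∀ g ∈ L, ∀ n ∈ N, g * n * g⁻¹ ∈ N) →
      N ≤ Subgroup.center G ∨ L ≤ N) ∧
    Group.IsSolvable B ∧ B ≤ L ∧ A.Nonempty ∧
    L ≤ (B ⊔ ⨆ a ∈ A, Subgroup.centralizer {a} ⊓ L).topologicalClosure ∧
    ∀ a ∈ A, a ∈ B ∧ (Subgroup.closure (con a ∪ con a⁻¹)).topologicalClosure = L ∧
      ∀ m : Measure G, m.IsHaarMeasure →
        ∀ᵐ g ∂m, g ∈ con a * (Subgroup.centralizer {a} : Set G) * (B : Set G)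

/-- The admissible factors. -/
def IsFactor (G : Type) [Group G] [TopologicalSpace G] [IsTopologicalGroup G]
    [MeasurableSpace G] : Prop :=
  IsReal G ∨ IsTreeGroup G ∨ IsHigh G

end Pool.Agent.Lib.MP_60cbcc_al.H3Z
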