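import Pool.Agent.Lib.MP_60cbcc_al.H3ZClass

namespace Pool.Agent.Lib.MP_60cbcc_al.H3Z

open MeasureTheory

section Aux

open Topology Filter

variable {Γ M X : Type} [Group Γ] [Group M] [TopologicalSpace M] [IsTopologicalGroup M]
  [MulAction Γ X] (q : Γ →* M)

/-- The closure of the image of the stabiliser. -/
def dnH (x : X) : Subgroup M := ((MulAction.stabilizer Γ x).map q).topologicalClosure

/-- Points whose closed image of the stabiliser contains `F`. -/
def dnD (X : Type) [MulAction Γ X] (F : Set M) : Set X := {x | ∀ f ∈ F, f ∈ dnH q x}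

/-- Points whose stabiliser has an image in `f W` for every `f` in `F`. -/
def dnE (X : Type) [MulAction Γ X] (F W : Set M) : Set X :=
  {x | ∀ f ∈ F, ∃ γ : Γ, γ • x = x ∧ f⁻¹ * q γ ∈ W}

/-- The conjugate of a set. -/
def dnC (h : M) (F : Set M) : Set M := (fun f => h * f * h⁻¹) '' F

variable {q}

omit [TopologicalSpace M] [IsTopologicalGroup M] in
theorem dnC_mul (g h : M) (F : Set M) : dnC (g * h) F = dnC g (dnC h F) := by
  simp only [dnC, Set.image_image]
  congr 1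
  funext f
  group

omit [TopologicalSpace M] [IsTopologicalGroup M] in
theorem dnC_one (F : Set M) : dnC 1 F = F := by simp [dnC]

omit [TopologicalSpace M] [IsTopologicalGroup M] in
theorem dnC_union (g : M) (F F' : Set M) : dnC g (F ∪ F') = dnC g F ∪ dnC g F' :=
  Set.image_union _ _ _

omit [TopologicalSpace M] [IsTopologicalGroup M] in
theorem dnC_fin (g : M) {F : Set M} (h : F.Finite) : (dnC g F).Finite := h.image _

theorem dnD_union (F F' : Set M) : dnD q X (F ∪ F') = dnD q X F ∩ dnD q X F' := by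
  ext x
  simp only [dnD, Set.mem_union, or_imp, forall_and, Set.mem_inter_iff, Set.mem_ofPred_eq]

theorem mem_dnD_dnC {h : M} {F : Set M} {x : X} :
    x ∈ dnD q X (dnC h F) ↔ ∀ f ∈ F, h * f * h⁻¹ ∈ dnH q x := Set.forall_mem_image

theorem dnH_smul (δ : Γ) {g : M} {x : X} (hx : g ∈ dnH q x) :
    q δ * g * (q δ)⁻¹ ∈ dnH q (δ • x) := by
  refine map_mem_closure (f := fun y => q δ * y * (q δ)⁻¹) (by fun_prop) hx ?_
  rintro _ ⟨γ, hγ, rfl⟩
  exact ⟨δ * γ * δ⁻¹, by simp [mul_smul, show γ • x = x from hγ], by simp⟩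

theorem dn_near {W : Set M} (hW : IsOpen W) {f g : M} {x : X} (hg : g ∈ dnH q x)
    (h : f⁻¹ * g ∈ W) : ∃ γ : Γ, γ • x = x ∧ f⁻¹ * q γ ∈ W := by
  obtain ⟨_, h, γ, hγ, rfl⟩ := mem_closure_iff.1 hg ((fun y => f⁻¹ * y) ⁻¹' W)
    (hW.preimage (by fun_prop)) h
  exact ⟨γ, hγ, h⟩

/-- Upper semicontinuity. -/
theorem dn_usc {W : Set M} (hW : IsOpen W) (h1 : (1 : M) ∈ W) {F : Set M} (hF : F.Finite)
    (g : M) : ∀ᶠ h in 𝓝 g, dnD q X (dnC h F) ⊆ dnE q X (dnC g F) W := by
  have : ∀ᶠ h in 𝓝 g, ∀ f ∈ F, (g * f * g⁻¹)⁻¹ * (h * f * h⁻¹) ∈ W := by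
    refine (Filter.eventually_all_finite hF).2 fun f _ => ?_
    have hc : Continuous fun h : M => (g * f * g⁻¹)⁻¹ * (h * f * h⁻¹) := by fun_prop
    exact (hW.preimage hc).mem_nhds (by simpa only [Set.mem_preimage, inv_mul_cancel] using h1)
  filter_upwards [this] with h hh x hx
  rintro _ ⟨f, hf, rfl⟩
  exact dn_near hW (mem_dnD_dnC.1 hx f hf) (hh f hf)

theorem dn_basis [FirstCountableTopology M] : ∃ W : ℕ → Set M,
    (∀ n, IsOpen (W n) ∧ (1 : M) ∈ W n) ∧ ∀ F : Set M, Antitone (fun n => dnE q X F (W n)) ∧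
      dnD q X F = ⋂ n, dnE q X F (W n) := by
  obtain ⟨W, hW, hb⟩ := (nhds_basis_opens (1 : M)).exists_antitone_subbasis
  refine ⟨W, fun n => (hW n).symm, fun F => ⟨fun m n h x hx f hf => ?_, ?_⟩⟩
  · obtain ⟨γ, h1, h2⟩ := hx f hf
    exact ⟨γ, h1, hb.antitone h h2⟩
  have sub : dnD q X F ⊆ ⋂ n, dnE q X F (W n) := Set.subset_iInter fun n x hx f hf =>
    dn_near (hW n).2 (hx f hf) (by simpa using (hW n).1)
  refine sub.antisymm fun x hx f hf => ?_
  have : (1 : M) ∈ closure ((fun y => f⁻¹ * y) '' ((MulAction.stabilizer Γ x).map q : Set M)) := by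
    refine (mem_closure_iff_nhds_basis hb.1).2 fun n _ => ?_
    obtain ⟨γ, h1, h2⟩ := Set.mem_iInter.1 hx n f hf
    exact ⟨_, ⟨_, ⟨γ, h1, rfl⟩, rfl⟩, h2⟩
  have h2 := map_mem_closure (f := fun y => f * y) (by fun_prop) this
    (t := ((MulAction.stabilizer Γ x).map q : Set M)) (by
      rintro _ ⟨y, hy, rfl⟩
      simpa using hy)
  rw [mul_one] at h2
  exact h2

variable [FirstCountableTopology M] [Countable Γ] [MeasurableSpace X]

omit [TopologicalSpace M] [IsTopologicalGroup M] [FirstCountableTopology M] in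
theorem dnE_meas (hX : ∀ γ : Γ, MeasurableSet {x : X | γ • x = x}) {F : Set M} (hF : F.Countable)
    (W : Set M) : MeasurableSet (dnE q X F W) := by
  have : dnE q X F W = ⋂ f ∈ F, ⋃ γ : Γ, {x : X | γ • x = x} ∩ {_x | f⁻¹ * q γ ∈ W} := by
    ext x
    simp [dnE]
  rw [this]
  exact MeasurableSet.biInter hF fun f _ => .iUnion fun γ => (hX γ).inter (.const _)

theorem dnD_meas (hX : ∀ γ : Γ, MeasurableSet {x : X | γ • x = x}) {F : Set M}
    (hF : F.Countable) : MeasurableSet (dnD q X F) := by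
  obtain ⟨W, -, h⟩ := dn_basis (q := q) (X := X)
  rw [(h F).2]
  exact .iInter fun n => dnE_meas hX hF _

variable {μ : Measure X} [IsFiniteMeasure μ] [SMulInvariantMeasure Γ X μ]

theorem dn_conj_le (hX : ∀ γ : Γ, MeasurableSet {x : X | γ • x = x}) (hq : DenseRange q)
    (g : M) {F : Set M} (hF : F.Finite) : μ (dnD q X F) ≤ μ (dnD q X (dnC g F)) := by
  obtain ⟨W, hW, h⟩ := dn_basis (q := q) (X := X)
  rw [(h (dnC g F)).2, Antitone.measure_iInter (h _).1
    (fun n => (dnE_meas hX (dnC_fin g hF).countable _).nullMeasurableSet)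
    ⟨0, measure_ne_top _ _⟩]
  refine le_iInf fun n => ?_
  obtain ⟨δ, hδ⟩ := hq.mem_nhds (dn_usc (q := q) (X := X) (hW n).1 (hW n).2 hF g)
  rw [← measure_preimage_smul μ δ (dnE q X (dnC g F) (W n))]
  exact measure_mono fun x hx => hδ (mem_dnD_dnC.2 fun f hf => dnH_smul δ (hx f hf))

theorem dn_conj (hX : ∀ γ : Γ, MeasurableSet {x : X | γ • x = x}) (hq : DenseRange q)
    (g : M) {F : Set M} (hF : F.Finite) : μ (dnD q X (dnC g F)) = μ (dnD q X F) := by
  refine le_antisymm ?_ (dn_conj_le hX hq g hF)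
  have := dn_conj_le (μ := μ) hX hq g⁻¹ (dnC_fin g hF)
  rwa [← dnC_mul, inv_mul_cancel, dnC_one] at this

variable (q μ) in
/-- The displacement function of the set attached to `F`. -/
noncomputable def dnP (F : Set M) (h : M) : ℝ := μ.real (dnD q X F \ dnD q X (dnC h F))

theorem dn_sdiff (hX : ∀ γ : Γ, MeasurableSet {x : X | γ • x = x}) (hq : DenseRange q)
    {F : Set M} (hF : F.Finite) (g h : M) :
    μ.real (dnD q X (dnC g F) \ dnD q X (dnC h F)) =
      μ.real (dnD q X F) - μ.real (dnD q X (F ∪ dnC (g⁻¹ * h) F)) := by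
  have h1 := measureReal_inter_add_sdiff (μ := μ) (s := dnD q X (dnC g F))
    (dnD_meas (q := q) hX (dnC_fin h hF).countable)
  have h2 := dn_conj (μ := μ) hX hq g (hF.union (dnC_fin (g⁻¹ * h) hF))
  rw [dnC_union, ← dnC_mul, mul_inv_cancel_left, dnD_union] at h2
  have h3 := dn_conj (μ := μ) hX hq g hF
  simp only [Measure.real] at h1 ⊢
  rw [h2, h3] at h1
  linarith

theorem dnP_eq (hX : ∀ γ : Γ, MeasurableSet {x : X | γ • x = x}) (hq : DenseRange q)
    {F : Set M} (hF : F.Finite) (g h : M) :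
    μ.real (dnD q X (dnC g F) \ dnD q X (dnC h F)) = dnP q μ F (g⁻¹ * h) := by
  have := dn_sdiff (μ := μ) hX hq hF 1 (g⁻¹ * h)
  rw [dnC_one, inv_one, one_mul] at this
  rw [dn_sdiff hX hq hF, dnP, this]

omit [FirstCountableTopology M] [Countable Γ] [IsFiniteMeasure μ] [SMulInvariantMeasure Γ X μ] in
theorem dnP_one (F : Set M) : dnP q μ F 1 = 0 := by simp [dnP, dnC_one]

theorem dnP_inv (hX : ∀ γ : Γ, MeasurableSet {x : X | γ • x = x}) (hq : DenseRange q)
    {F : Set M} (hF : F.Finite) (g : M) : dnP q μ F g⁻¹ = dnP q μ F g := by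
  have h1 := dnP_eq (μ := μ) hX hq hF g 1
  rw [dnC_one, mul_one] at h1
  have h2 := measureReal_inter_add_sdiff (μ := μ) (s := dnD q X (dnC g F))
    (dnD_meas (q := q) hX hF.countable)
  have h3 := measureReal_inter_add_sdiff (μ := μ) (s := dnD q X F)
    (dnD_meas (q := q) hX (dnC_fin g hF).countable)
  have h4 : μ.real (dnD q X (dnC g F)) = μ.real (dnD q X F) :=
    congrArg ENNReal.toReal (dn_conj hX hq g hF)
  rw [Set.inter_comm] at h2
  rw [← h1, dnP]
  linarith

theorem dnP_mul (hX : ∀ γ : Γ, MeasurableSet {x : X | γ • x = x}) (hq : DenseRange q)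
    {F : Set M} (hF : F.Finite) (g h : M) :
    dnP q μ F (g * h) ≤ dnP q μ F g + dnP q μ F h := by
  have h1 := dnP_eq (μ := μ) hX hq hF g (g * h)
  rw [inv_mul_cancel_left] at h1
  rw [← h1, dnP, dnP]
  refine le_trans (measureReal_mono ?_) (measureReal_union_le _ _)
  intro x hx
  by_cases e : x ∈ dnD q X (dnC g F)
  · exact Or.inr ⟨e, hx.2⟩
  · exact Or.inl ⟨hx.1, e⟩

theorem dnP_small (hX : ∀ γ : Γ, MeasurableSet {x : X | γ • x = x}) (hq : DenseRange q)
    {F : Set M} (hF : F.Finite) {ε : ℝ} (hε : 0 < ε) : ∀ᶠ h in 𝓝 (1 : M), dnP q μ F h < ε := by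
  obtain ⟨W, hW, h⟩ := dn_basis (q := q) (X := X)
  have h2 := (ENNReal.tendsto_toReal (measure_ne_top _ _)).comp (tendsto_measure_iInter_atTop
    (μ := μ) (fun n => (dnE_meas (q := q) hX hF.countable (W n)).nullMeasurableSet) (h F).1
    ⟨0, measure_ne_top _ _⟩)
  rw [← (h F).2] at h2
  obtain ⟨n, hn⟩ := (h2.eventually (gt_mem_nhds (lt_add_of_pos_right _ hε))).exists
  have h3 := dn_usc (q := q) (X := X) (hW n).1 (hW n).2 hF 1
  rw [dnC_one] at h3
  filter_upwards [h3] with g hg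
  have h4 : dnD q X F ⊆ dnE q X F (W n) := (h F).2.le.trans (Set.iInter_subset _ n)
  have h5 := measureReal_sdiff_add_inter (μ := μ) (s := dnE q X F (W n))
    (dnD_meas (q := q) hX (dnC_fin g hF).countable)
  rw [Set.inter_eq_right.2 hg] at h5
  have h6 : μ.real (dnD q X (dnC g F)) = μ.real (dnD q X F) :=
    congrArg ENNReal.toReal (dn_conj hX hq g hF)
  have h7 : dnP q μ F g ≤ μ.real (dnE q X F (W n) \ dnD q X (dnC g F)) :=
    measureReal_mono (Set.sdiff_subset_sdiff_left h4)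
  change μ.real _ < μ.real _ + ε at hn
  linarith

theorem dnP_cont (hX : ∀ γ : Γ, MeasurableSet {x : X | γ • x = x}) (hq : DenseRange q)
    {F : Set M} (hF : F.Finite) : Continuous (dnP q μ F) := by
  refine continuous_iff_continuousAt.2 fun g => Metric.tendsto_nhds.2 fun ε hε => ?_
  have hc : Tendsto (fun h : M => g⁻¹ * h) (𝓝 g) (𝓝 1) := by
    have : Continuous fun h : M => g⁻¹ * h := by fun_prop
    simpa using this.tendsto g
  filter_upwards [hc.eventually (dnP_small (μ := μ) hX hq hF hε)] with h hh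
  have h1 := dnP_mul (μ := μ) hX hq hF g (g⁻¹ * h)
  have h2 := dnP_mul (μ := μ) hX hq hF h (g⁻¹ * h)⁻¹
  rw [mul_inv_cancel_left] at h1
  rw [dnP_inv hX hq hF, mul_inv_rev, inv_inv, mul_inv_cancel_left] at h2
  rw [Real.dist_eq, abs_lt]
  constructor <;> linarith

omit [FirstCountableTopology M] [Countable Γ] [IsFiniteMeasure μ] [SMulInvariantMeasure Γ X μ] in
theorem dnP_mem {F : Set M} {f : M} (hf : f ∈ F) : dnP q μ F f = 0 := by
  have : dnD q X F \ dnD q X (dnC f F) = ∅ := Set.sdiff_eq_empty.2 fun x hx =>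
    mem_dnD_dnC.2 fun g hg => (dnH q x).mul_mem ((dnH q x).mul_mem (hx f hf) (hx g hg))
      ((dnH q x).inv_mem (hx f hf))
  rw [dnP, this, measureReal_empty]

/-- Many sets of the same positive measure cannot be almost disjoint. -/
theorem dn_pigeon {Y : Type} [MeasurableSpace Y] (ν : Measure Y) [IsFiniteMeasure ν]
    {c : ENNReal} (hc : c ≠ 0) : ∃ N : ℕ, ∀ A : Fin N → Set Y, (∀ a, MeasurableSet (A a)) →
      (∀ a, ν (A a) = c) → ∃ a b, a ≠ b ∧ ν (A a ∩ A b) ≠ 0 := by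
  obtain ⟨N, hN⟩ := ENNReal.exists_nat_mul_gt hc (measure_ne_top ν Set.univ)
  refine ⟨N, fun A hA hc => ?_⟩
  by_contra hn
  have h1 := measure_iUnion₀ (μ := ν) (f := A)
    (fun a b hab => not_not.1 fun e => hn ⟨a, b, hab, e⟩) fun a => (hA a).nullMeasurableSet
  simp only [hc, tsum_fintype, Finset.sum_const, Finset.card_univ, Fintype.card_fin,
    nsmul_eq_mul] at h1
  exact hN.not_ge (h1 ▸ measure_mono (Set.subset_univ _))

end Aux

section Factor

open Topology Filter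

variable {L : Type} [Group L] [TopologicalSpace L] [IsTopologicalGroup L] [T2Space L]

theorem dn_center_closed : IsClosed (Subgroup.center L : Set L) := by
  have := Set.isClosed_centralizer (Set.univ : Set L)
  rwa [Set.centralizer_univ] at this

omit [TopologicalSpace L] [IsTopologicalGroup L] [T2Space L] in
theorem dn_center_conj {a n : L} (h : a * n * a⁻¹ ∈ Subgroup.center L) :
    n ∈ Subgroup.center L := by
  have := (inferInstance : (Subgroup.center L).Normal).conj_mem _ h a⁻¹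
  simpa [mul_assoc] using this

/-- The elements commuting with `c` modulo the centre. -/
def dnZ (c : L) : Subgroup L where
  carrier := {a | a * c * a⁻¹ * c⁻¹ ∈ Subgroup.center L}
  one_mem' := by simp
  mul_mem' := fun {a b} ha hb => by
    have e : a * b * c * (a * b)⁻¹ * c⁻¹ =
        a * (b * c * b⁻¹ * c⁻¹) * a⁻¹ * (a * c * a⁻¹ * c⁻¹) := by group
    rw [Set.mem_ofPred_eq, e]
    exact Subgroup.mul_mem _ ((inferInstance : (Subgroup.center L).Normal).conj_mem _ hb a) ha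
  inv_mem' := fun {a} ha => by
    have e : a⁻¹ * c * a⁻¹⁻¹ * c⁻¹ = a⁻¹ * (a * c * a⁻¹ * c⁻¹)⁻¹ * a⁻¹⁻¹ := by group
    rw [Set.mem_ofPred_eq, e]
    exact (inferInstance : (Subgroup.center L).Normal).conj_mem _ (Subgroup.inv_mem _ ha) a⁻¹

theorem dnZ_ne_top (hL : Rigid L) {c : L} (hc : c ∉ Subgroup.center L) : dnZ c ≠ ⊤ := by
  intro h
  have hm : ∀ a : L, a * c * a⁻¹ * c⁻¹ ∈ Subgroup.center L := fun a =>
    (h.ge (Subgroup.mem_top a) : a ∈ dnZ c)
  let f : L →* L := MonoidHom.mk' (fun a => a * c * a⁻¹ * c⁻¹) fun a b => by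
    have e := Subgroup.mem_center_iff.1 (hm b)
    calc a * b * c * (a * b)⁻¹ * c⁻¹ = a * (b * c * b⁻¹ * c⁻¹) * (c * a⁻¹ * c⁻¹) := by group
      _ = a * ((b * c * b⁻¹ * c⁻¹) * (c * a⁻¹ * c⁻¹)) := by rw [mul_assoc]
      _ = a * ((c * a⁻¹ * c⁻¹) * (b * c * b⁻¹ * c⁻¹)) := by rw [e]
      _ = _ := by group
  have h0 : commutator L ≤ f.ker := Subgroup.commutator_le.2 fun a _ b _ => by
    rw [MonoidHom.mem_ker, map_commutatorElement, commutatorElement_eq_one_iff_mul_comm]
    exact Subgroup.mem_center_iff.1 (hm b) _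
  have h1 : (commutator L : Set L) ⊆ {a | a * c = c * a} := fun a ha => by
    have := MonoidHom.mem_ker.1 (h0 ha)
    change a * c * a⁻¹ * c⁻¹ = 1 at this
    rw [Set.mem_ofPred_eq]
    calc a * c = (a * c * a⁻¹ * c⁻¹) * (c * a) := by group
      _ = c * a := by rw [this, one_mul]
  have h2 : IsClosed {a : L | a * c = c * a} := isClosed_eq (by fun_prop) (by fun_prop)
  exact hc (Subgroup.mem_center_iff.2 fun a => closure_minimal h1 h2 (hL.perf a))

theorem dn_seq (hL : Rigid L) {c : L} (hc : c ∉ Subgroup.center L) (N : ℕ) :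
    ∃ a : Fin N → L, ∀ k l, k ≠ l → (a l)⁻¹ * a k ∉ dnZ c := by
  have h1 : IsClosed (dnZ c : Set L) :=
    dn_center_closed.preimage (f := fun a : L => a * c * a⁻¹ * c⁻¹) (by fun_prop)
  have h2 : Infinite (L ⧸ dnZ c) := by
    by_contra hn
    rw [not_infinite_iff_finite] at hn
    exact dnZ_ne_top hL hc (hL.nfi _ h1 (Subgroup.finiteIndex_of_finite_quotient))
  let e := Infinite.natEmbedding (L ⧸ dnZ c)
  refine ⟨fun k => (e k).out, fun k l hkl hm => hkl (Fin.ext (e.injective ?_)).symm⟩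
  rw [← QuotientGroup.out_eq' (e l), ← QuotientGroup.out_eq' (e k)]
  exact QuotientGroup.eq.2 hm

omit [T2Space L] in
theorem dn_top (hL : Rigid L) {K : Subgroup L} (hK : IsClosed (K : Set L)) {n : L}
    (hn : n ∉ Subgroup.center L) {T : Set L} (hT : Dense T) (h : ∀ g ∈ T, g * n * g⁻¹ ∈ K) :
    K = ⊤ := by
  have h1 : n ∈ K.normalCore := fun g =>
    closure_minimal (s := T) (t := (fun g => g * n * g⁻¹) ⁻¹' K) h (hK.preimage (by fun_prop))
      (hT g)
  rcases hL.qs K.normalCore inferInstance (K.normalCore_isClosed hK) with a | a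
  · exact absurd (a h1) hn
  · exact top_unique (a ▸ K.normalCore_le)

variable {Γ M X : Type} [Group Γ] [Countable Γ] [Group M] [TopologicalSpace M]
  [IsTopologicalGroup M] [FirstCountableTopology M] [MulAction Γ X] [MeasurableSpace X]
  {q : Γ →* M} {μ : Measure X} [IsFiniteMeasure μ] [SMulInvariantMeasure Γ X μ]

theorem dn_step1 (hL : Rigid L) (hX : ∀ γ : Γ, MeasurableSet {x : X | γ • x = x})
    (hq : DenseRange q) (i : L →* M) (p : M →* L)
    (hc : ∀ (a : L) (g : M), i a * g * (i a)⁻¹ * g⁻¹ = i (a * p g * a⁻¹ * (p g)⁻¹))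
    {g : M} (hg : p g ∉ Subgroup.center L) (h0 : μ (dnD q X {g}) ≠ 0) :
    ∃ n : L, n ∉ Subgroup.center L ∧ μ (dnD q X {i n}) ≠ 0 := by
  obtain ⟨N, hN⟩ := dn_pigeon μ h0
  obtain ⟨a, ha⟩ := dn_seq hL hg N
  obtain ⟨k, l, hkl, h⟩ := hN (fun k => dnD q X (dnC (i (a k)) {g}))
    (fun k => dnD_meas hX (dnC_fin _ (Set.finite_singleton g)).countable)
    fun k => dn_conj hX hq _ (Set.finite_singleton g)
  refine ⟨a l * ((a l)⁻¹ * a k * p g * ((a l)⁻¹ * a k)⁻¹ * (p g)⁻¹) * (a l)⁻¹,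
    fun e => ha k l hkl (dn_center_conj e), fun e => h (measure_mono_null ?_ e)⟩
  rintro x ⟨h1, h2⟩ _ rfl
  have e1 := mem_dnD_dnC.1 h1 g rfl
  have e2 := mem_dnD_dnC.1 h2 g rfl
  have e3 := (dnH q x).mul_mem e1 ((dnH q x).inv_mem e2)
  rw [map_mul, map_mul, ← hc, map_mul, map_inv]
  convert e3 using 1
  group

omit [T2Space L] in
theorem dn_step2 [SecondCountableTopology L] (hL : Rigid L)
    (hX : ∀ γ : Γ, MeasurableSet {x : X | γ • x = x}) (hq : DenseRange q) (i : L →* M)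
    (hi : Continuous i) {n : L} (hn : n ∉ Subgroup.center L) (h0 : μ (dnD q X {i n}) ≠ 0) :
    μ {x | ∀ a : L, i a ∈ dnH q x} ≠ 0 := by
  obtain ⟨d, hd⟩ := hL.mau n hn
  have f0 := Set.finite_singleton (i n)
  have c0 : 0 < μ.real (dnD q X {i n}) := ENNReal.toReal_pos h0 (measure_ne_top _ _)
  have hU : ∀ᶠ v in 𝓝 (1 : L), dnP q μ {i n} (i v) < μ.real (dnD q X {i n}) / (d + 1) := by
    have ht : Tendsto i (𝓝 1) (𝓝 1) := by simpa using hi.tendsto 1
    exact ht.eventually (dnP_small hX hq f0 (by positivity))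
  obtain ⟨s, s1, s2, s3⟩ := hd _ hU
  set F : Set M := insert (i n) ((fun v => i v * i n * (i v)⁻¹) '' (s : Set L)) with hF
  have fF : F.Finite := (s.finite_toSet.image _).insert _
  have p1 : μ (dnD q X F) ≠ 0 := by
    intro e
    have e1 : dnD q X {i n} ⊆
        dnD q X F ∪ ⋃ v ∈ s, (dnD q X {i n} \ dnD q X (dnC (i v) {i n})) := by
      intro x hx
      by_contra hn
      rw [Set.mem_union, not_or] at hn
      refine hn.1 ?_
      rintro f (rfl | ⟨v, hv, rfl⟩)
      · exact hx _ rfl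
      · by_contra hv'
        exact hn.2 (Set.mem_biUnion hv ⟨hx, fun a => hv' (mem_dnD_dnC.1 a _ rfl)⟩)
    have e2 := (measureReal_mono (μ := μ) e1).trans (measureReal_union_le _ _)
    have e3 := measureReal_biUnion_finset_le (μ := μ) s
      fun v => dnD q X {i n} \ dnD q X (dnC (i v) {i n})
    have e4 : ∑ v ∈ s, μ.real (dnD q X {i n} \ dnD q X (dnC (i v) {i n})) ≤
        s.card • (μ.real (dnD q X {i n}) / (d + 1)) :=
      Finset.sum_le_card_nsmul _ _ _ fun v hv => le_of_lt (s2 hv)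
    have e5 : μ.real (dnD q X F) = 0 := by rw [Measure.real, e, ENNReal.toReal_zero]
    have e6 : (s.card : ℝ) ≤ d := by exact_mod_cast s1
    have e7 : (d + 1 : ℝ) * (μ.real (dnD q X {i n}) / (d + 1)) = μ.real (dnD q X {i n}) := by
      field_simp
    have e8 : 0 < μ.real (dnD q X {i n}) / (d + 1) := by positivity
    rw [nsmul_eq_mul] at e4
    nlinarith
  obtain ⟨N, hN⟩ := dn_pigeon μ p1
  obtain ⟨h, hh⟩ := s3 N
  obtain ⟨a, b, hab, p2⟩ := hN (fun a => dnD q X (dnC (i (h a)) F))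
    (fun a => dnD_meas hX (dnC_fin _ fF).countable) fun a => dn_conj hX hq _ fF
  rw [← dnD_union] at p2
  set F' := dnC (i (h a)) F ∪ dnC (i (h b)) F with hF'
  have fF' : F'.Finite := (dnC_fin _ fF).union (dnC_fin _ fF)
  have z : ∀ g : L, dnP q μ F' (i g) = 0 := by
    refine hh a b hab (fun g => dnP q μ F' (i g)) ((dnP_cont hX hq fF').comp hi)
      (by simp only [map_one, dnP_one]) (fun g => by simp only [map_inv, dnP_inv hX hq fF'])
      (fun g g' => by simp only [map_mul, dnP_mul hX hq fF']) ?_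
    rintro f ⟨v, hv, hf⟩
    refine dnP_mem ?_
    have m : i v * i n * (i v)⁻¹ ∈ F := Or.inr ⟨v, hv, rfl⟩
    rcases hf with rfl | rfl
    · refine Or.inl ⟨_, m, ?_⟩
      simp only [map_mul, map_inv]
      group
    · refine Or.inr ⟨_, m, ?_⟩
      simp only [map_mul, map_inv]
      group
  obtain ⟨T, T1, T2⟩ := TopologicalSpace.exists_countable_dense L
  have ae : ∀ᵐ x ∂μ, ∀ g ∈ T, x ∉ dnD q X F' \ dnD q X (dnC (i g) F') := by
    refine (ae_ball_iff T1).2 fun g _ => measure_eq_zero_iff_ae_notMem.1 ?_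
    exact (measureReal_eq_zero_iff (measure_ne_top _ _)).1 (z g)
  intro e
  refine p2 (measure_eq_zero_iff_ae_notMem.2 ?_)
  filter_upwards [ae, measure_eq_zero_iff_ae_notMem.1 e] with x h1 h2 hx
  refine h2 fun g => ?_
  have cl : IsClosed ((dnH q x).comap i : Set L) :=
    (Subgroup.isClosed_topologicalClosure _).preimage hi
  have tp := dn_top hL cl (n := h a * n * (h a)⁻¹) (fun e => hn (dn_center_conj e)) T2
    fun g hg => by
      have m : x ∈ dnD q X (dnC (i g) F') := not_not.1 fun e => h1 g hg ⟨hx, e⟩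
      have := mem_dnD_dnC.1 m _ (Or.inl ⟨i n, Or.inl rfl, rfl⟩)
      simpa only [Subgroup.mem_comap, map_mul, map_inv] using this
  exact (tp.ge (Subgroup.mem_top g) : g ∈ (dnH q x).comap i)

theorem dn_claim [SecondCountableTopology L] (hL : Rigid L)
    (hX : ∀ γ : Γ, MeasurableSet {x : X | γ • x = x}) (hq : DenseRange q) (i : L →* M)
    (hi : Continuous i) (p : M →* L)
    (hc : ∀ (a : L) (g : M), i a * g * (i a)⁻¹ * g⁻¹ = i (a * p g * a⁻¹ * (p g)⁻¹))
    (h0 : μ {x | ∀ a : L, i a ∈ dnH q x} = 0) :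
    μ {x | ∃ γ : Γ, γ • x = x ∧ p (q γ) ∉ Subgroup.center L} = 0 := by
  rw [Set.ofPred_exists]
  refine measure_iUnion_null fun γ => ?_
  by_cases hγ : p (q γ) ∈ Subgroup.center L
  · simp [hγ]
  by_contra hn
  have h1 : μ (dnD q X {q γ}) ≠ 0 := fun e => hn (measure_mono_null (by
    rintro x hx _ rfl
    exact subset_closure ⟨γ, hx.1, rfl⟩) e)
  obtain ⟨n, n1, n2⟩ := dn_step1 hL hX hq i p hc hγ h1
  exact dn_step2 hL hX hq i hi n1 n2 h0

end Factor

/-- For almost every point, the stabiliser projects centrally to the factor `L` of `M`, or the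
closure of its image in `M` contains `L`. -/
theorem dense_ae {Γ M L X : Type} [Group Γ] [Countable Γ]
    [Group M] [TopologicalSpace M] [IsTopologicalGroup M] [SecondCountableTopology M] [T2Space M]
    [Group L] [TopologicalSpace L] [IsTopologicalGroup L] [SecondCountableTopology L] [T2Space L]
    (hL : Rigid L) (q : Γ →* M) (hq : DenseRange q) (i : L →* M) (hi : Continuous i)
    (p : M →* L) (hc : ∀ (a : L) (g : M), i a * g * (i a)⁻¹ * g⁻¹ = i (a * p g * a⁻¹ * (p g)⁻¹))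
    [MeasurableSpace X] [MulAction Γ X] [MeasurableConstSMul Γ X] (μ : Measure X)
    [IsFiniteMeasure μ] [SMulInvariantMeasure Γ X μ]
    (hF : ∀ γ : Γ, MeasurableSet {x : X | γ • x = x}) :
    ∀ᵐ x ∂μ, (∀ γ : Γ, γ • x = x → p (q γ) ∈ Subgroup.center L) ∨
      ∀ a : L, i a ∈ closure (q '' {γ | γ • x = x}) := by
  set B : Set X := {x | ∀ a : L, i a ∈ dnH q x} with hB
  have mB : MeasurableSet B := by
    obtain ⟨T, T1, T2⟩ := TopologicalSpace.exists_countable_dense L
    have : B = dnD q X (i '' T) := by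
      ext x
      refine ⟨fun hx => Set.forall_mem_image.2 fun a _ => hx a, fun hx a => ?_⟩
      exact closure_minimal (s := T) (t := i ⁻¹' (dnH q x : Set M))
        (fun b hb => hx _ ⟨b, hb, rfl⟩) ((Subgroup.isClosed_topologicalClosure _).preimage hi)
        (T2 a)
    rw [this]
    exact dnD_meas hF (T1.image _)
  have iB : ∀ (δ : Γ) (x : X), x ∈ B → δ • x ∈ B := by
    intro δ x hx a
    have h1 := dnH_smul δ (hx ((p (q δ))⁻¹ * a * p (q δ)))
    have h2 := hc ((p (q δ))⁻¹ * a⁻¹ * p (q δ)) (q δ)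
    have h3 : q δ * i ((p (q δ))⁻¹ * a * p (q δ)) * (q δ)⁻¹ = i a := by
      have e1 : (p (q δ))⁻¹ * a * p (q δ) = ((p (q δ))⁻¹ * a⁻¹ * p (q δ))⁻¹ := by group
      have e2 : (p (q δ))⁻¹ * a⁻¹ * p (q δ) * p (q δ) * ((p (q δ))⁻¹ * a⁻¹ * p (q δ))⁻¹ *
          (p (q δ))⁻¹ = (p (q δ))⁻¹ * a⁻¹ * p (q δ) * a := by group
      rw [e2, map_mul i _ a, mul_assoc, mul_assoc, mul_right_inj] at h2
      rw [e1, map_inv, mul_assoc, h2]
    rwa [h3] at h1
  have iB' : ∀ δ : Γ, (fun x : X => δ • x) ⁻¹' Bᶜ = Bᶜ := fun δ => by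
    ext x
    refine not_congr ⟨fun h => ?_, iB δ x⟩
    simpa using iB δ⁻¹ _ h
  have : SMulInvariantMeasure Γ X (μ.restrict Bᶜ) := ⟨fun δ s hs => by
    rw [Measure.restrict_apply' mB.compl, Measure.restrict_apply' mB.compl]
    conv_lhs => rw [← iB' δ, ← Set.preimage_inter]
    exact measure_preimage_smul μ δ _⟩
  have h0 := dn_claim (μ := μ.restrict Bᶜ) hL hF hq i hi p hc (by
    rw [Measure.restrict_apply' mB.compl, ← hB, Set.inter_compl_self, measure_empty])
  rw [Measure.restrict_apply' mB.compl] at h0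
  filter_upwards [measure_eq_zero_iff_ae_notMem.1 h0] with x hx
  by_cases e : x ∈ B
  · exact Or.inr e
  · exact Or.inl fun γ hγ => not_not.1 fun a => hx ⟨⟨γ, hγ, a⟩, e⟩

end Pool.Agent.Lib.MP_60cbcc_al.H3Z
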