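import Pool.Agent.Lib.MP_60cbcc_al.H3ZDense

namespace Pool.Agent.Lib.MP_60cbcc_al.H3Z

open MeasureTheory

section Factor

open Topology Filter

variable {L : Type} [Group L] [TopologicalSpace L] [IsTopologicalGroup L] [T2Space L]

/-- The elements moved by `θ` only up to the centre. -/
def dense2Z (θ : L →* L) : Subgroup L where
  carrier := {a | a * (θ a)⁻¹ ∈ Subgroup.center L}
  one_mem' := by simp
  mul_mem' := fun {a b} ha hb => by
    have e : a * b * (θ (a * b))⁻¹ = a * (b * (θ b)⁻¹) * a⁻¹ * (a * (θ a)⁻¹) := by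
      rw [map_mul]
      group
    rw [Set.mem_ofPred_eq, e]
    exact Subgroup.mul_mem _ ((inferInstance : (Subgroup.center L).Normal).conj_mem _ hb a) ha
  inv_mem' := fun {a} ha => by
    have e : a⁻¹ * (θ a⁻¹)⁻¹ = a⁻¹ * (a * (θ a)⁻¹)⁻¹ * a⁻¹⁻¹ := by
      rw [map_inv]
      group
    rw [Set.mem_ofPred_eq, e]
    exact (inferInstance : (Subgroup.center L).Normal).conj_mem _ (Subgroup.inv_mem _ ha) a⁻¹

omit [IsTopologicalGroup L] in
theorem dense2Z_ne_top (hL : Rigid L) {θ : L →* L} (hθ : Continuous θ) (hc : ∃ a, θ a ≠ a) :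
    dense2Z θ ≠ ⊤ := by
  intro h
  have hm : ∀ a : L, a * (θ a)⁻¹ ∈ Subgroup.center L := fun a =>
    (h.ge (Subgroup.mem_top a) : a ∈ dense2Z θ)
  let f : L →* L := MonoidHom.mk' (fun a => a * (θ a)⁻¹) fun a b => by
    have e := Subgroup.mem_center_iff.1 (hm b)
    calc a * b * (θ (a * b))⁻¹ = a * ((b * (θ b)⁻¹) * (θ a)⁻¹) := by
          rw [map_mul]
          group
      _ = a * ((θ a)⁻¹ * (b * (θ b)⁻¹)) := by rw [e]
      _ = _ := by group
  have h0 : commutator L ≤ f.ker := Subgroup.commutator_le.2 fun a _ b _ => by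
    rw [MonoidHom.mem_ker, map_commutatorElement, commutatorElement_eq_one_iff_mul_comm]
    exact Subgroup.mem_center_iff.1 (hm b) _
  have h1 : (commutator L : Set L) ⊆ {a | θ a = a} := fun a ha => by
    have := MonoidHom.mem_ker.1 (h0 ha)
    change a * (θ a)⁻¹ = 1 at this
    exact (mul_inv_eq_one.1 this).symm
  have h2 : IsClosed {a : L | θ a = a} := isClosed_eq hθ continuous_id
  obtain ⟨a, ha⟩ := hc
  exact ha (closure_minimal h1 h2 (hL.perf a))

theorem dense2_seq (hL : Rigid L) {θ : L →* L} (hθ : Continuous θ) (hc : ∃ a, θ a ≠ a) (N : ℕ) :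
    ∃ a : Fin N → L, ∀ k l, k ≠ l → (a l)⁻¹ * a k ∉ dense2Z θ := by
  have h1 : IsClosed (dense2Z θ : Set L) :=
    dn_center_closed.preimage (f := fun a : L => a * (θ a)⁻¹) (by fun_prop)
  have h2 : Infinite (L ⧸ dense2Z θ) := by
    by_contra hn
    rw [not_infinite_iff_finite] at hn
    exact dense2Z_ne_top hL hθ hc (hL.nfi _ h1 (Subgroup.finiteIndex_of_finite_quotient))
  let e := Infinite.natEmbedding (L ⧸ dense2Z θ)
  refine ⟨fun k => (e k).out, fun k l hkl hm => hkl (Fin.ext (e.injective ?_)).symm⟩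
  rw [← QuotientGroup.out_eq' (e l), ← QuotientGroup.out_eq' (e k)]
  exact QuotientGroup.eq.2 hm

variable {Γ M X : Type} [Group Γ] [Countable Γ] [Group M] [TopologicalSpace M]
  [IsTopologicalGroup M] [FirstCountableTopology M] [MulAction Γ X] [MeasurableSpace X]
  {q : Γ →* M} {μ : Measure X} [IsFiniteMeasure μ] [SMulInvariantMeasure Γ X μ]

omit [IsTopologicalGroup L] [T2Space L] [FirstCountableTopology M] in
theorem dense2_theta (i : L →* M) (hi : IsEmbedding i)
    (hn : ∀ (g : M) (a : L), ∃ b : L, i b = g * i a * g⁻¹) (g : M) :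
    ∃ θ : L →* L, Continuous θ ∧ ∀ a, i (θ a) = g * i a * g⁻¹ := by
  choose t ht using hn g
  refine ⟨MonoidHom.mk' t fun a b => hi.injective ?_, hi.isInducing.continuous_iff.2 ?_, ht⟩
  · rw [map_mul, ht, ht, ht, map_mul]
    group
  · have e : (i ∘ t) = fun a => g * i a * g⁻¹ := funext ht
    have hc := hi.continuous
    change Continuous (i ∘ t)
    rw [e]
    fun_prop

theorem dense2_step1 (hL : Rigid L) (hX : ∀ γ : Γ, MeasurableSet {x : X | γ • x = x})
    (hq : DenseRange q) (i : L →* M) (hi : IsEmbedding i)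
    (hn : ∀ (g : M) (a : L), ∃ b : L, i b = g * i a * g⁻¹)
    {g : M} (hg : ¬ ∀ a : L, i a * g = g * i a) (h0 : μ (dnD q X {g}) ≠ 0) :
    ∃ n : L, n ∉ Subgroup.center L ∧ μ (dnD q X {i n}) ≠ 0 := by
  obtain ⟨θ, hθ, ht⟩ := dense2_theta i hi hn g
  have hc : ∃ a, θ a ≠ a := by
    by_contra hc
    refine hg fun a => ?_
    have e : θ a = a := not_not.1 fun e => hc ⟨a, e⟩
    have e2 := ht a
    rw [e] at e2
    calc i a * g = g * i a * g⁻¹ * g := by rw [← e2]
      _ = g * i a := by group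
  obtain ⟨N, hN⟩ := dn_pigeon μ h0
  obtain ⟨a, ha⟩ := dense2_seq hL hθ hc N
  obtain ⟨k, l, hkl, h⟩ := hN (fun k => dnD q X (dnC (i (a k)) {g}))
    (fun k => dnD_meas hX (dnC_fin _ (Set.finite_singleton g)).countable)
    fun k => dn_conj hX hq _ (Set.finite_singleton g)
  refine ⟨a l * ((a l)⁻¹ * a k * (θ ((a l)⁻¹ * a k))⁻¹) * (a l)⁻¹,
    fun e => ha k l hkl (dn_center_conj e), fun e => h (measure_mono_null ?_ e)⟩
  rintro x ⟨h1, h2⟩ _ rfl
  have e1 := mem_dnD_dnC.1 h1 g rfl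
  have e2 := mem_dnD_dnC.1 h2 g rfl
  have e3 := (dnH q x).mul_mem e1 ((dnH q x).inv_mem e2)
  have e4 : i (a l * ((a l)⁻¹ * a k * (θ ((a l)⁻¹ * a k))⁻¹) * (a l)⁻¹) =
      i (a k) * g * (i (a k))⁻¹ * (i (a l) * g * (i (a l))⁻¹)⁻¹ := by
    rw [map_mul i, map_mul i, map_mul i, map_inv i (θ _), ht]
    simp only [map_mul, map_inv]
    group
  rw [e4]
  exact e3

theorem dense2_claim [SecondCountableTopology L] (hL : Rigid L)
    (hX : ∀ γ : Γ, MeasurableSet {x : X | γ • x = x}) (hq : DenseRange q) (i : L →* M)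
    (hi : IsEmbedding i) (hn : ∀ (g : M) (a : L), ∃ b : L, i b = g * i a * g⁻¹)
    (h0 : μ {x | ∀ a : L, i a ∈ dnH q x} = 0) :
    μ {x | ∃ γ : Γ, γ • x = x ∧ ¬ ∀ a : L, i a * q γ = q γ * i a} = 0 := by
  rw [Set.ofPred_exists]
  refine measure_iUnion_null fun γ => ?_
  by_cases hγ : ∀ a : L, i a * q γ = q γ * i a
  · simp [hγ]
  by_contra hc
  have h1 : μ (dnD q X {q γ}) ≠ 0 := fun e => hc (measure_mono_null (by
    rintro x hx _ rfl
    exact subset_closure ⟨γ, hx.1, rfl⟩) e)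
  obtain ⟨n, n1, n2⟩ := dense2_step1 hL hX hq i hi hn hγ h1
  exact dn_step2 hL hX hq i hi.continuous n1 n2 h0

theorem dense2_dense [SecondCountableTopology L] [MeasurableConstSMul Γ X] (hL : Rigid L)
    (hF : ∀ γ : Γ, MeasurableSet {x : X | γ • x = x}) (hq : DenseRange q) (i : L →* M)
    (hi : IsEmbedding i) (hn : ∀ (g : M) (a : L), ∃ b : L, i b = g * i a * g⁻¹) :
    ∀ᵐ x ∂μ, (∀ γ : Γ, γ • x = x → ∀ a : L, i a * q γ = q γ * i a) ∨
      ∀ a : L, i a ∈ closure (q '' {γ | γ • x = x}) := by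
  set B : Set X := {x | ∀ a : L, i a ∈ dnH q x} with hB
  have mB : MeasurableSet B := by
    obtain ⟨T, T1, T2⟩ := TopologicalSpace.exists_countable_dense L
    have : B = dnD q X (i '' T) := by
      ext x
      refine ⟨fun hx => Set.forall_mem_image.2 fun a _ => hx a, fun hx a => ?_⟩
      exact closure_minimal (s := T) (t := i ⁻¹' (dnH q x : Set M))
        (fun b hb => hx _ ⟨b, hb, rfl⟩)
        ((Subgroup.isClosed_topologicalClosure _).preimage hi.continuous) (T2 a)
    rw [this]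
    exact dnD_meas hF (T1.image _)
  have iB : ∀ (δ : Γ) (x : X), x ∈ B → δ • x ∈ B := by
    intro δ x hx a
    obtain ⟨b, hb⟩ := hn (q δ)⁻¹ a
    have h1 := dnH_smul δ (hx b)
    have h3 : q δ * i b * (q δ)⁻¹ = i a := by
      rw [hb]
      group
    rwa [h3] at h1
  have iB' : ∀ δ : Γ, (fun x : X => δ • x) ⁻¹' Bᶜ = Bᶜ := fun δ => by
    ext x
    refine not_congr ⟨fun h => ?_, iB δ x⟩
    simpa using iB δ⁻¹ _ h
  have : SMulInvariantMeasure Γ X (μ.restrict Bᶜ) := ⟨fun δ s hs => by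
    rw [Measure.restrict_apply' mB.compl, Measure.restrict_apply' mB.compl]
    conv_lhs => rw [← iB' δ, ← Set.preimage_inter]
    exact measure_preimage_smul μ δ _⟩
  have h0 := dense2_claim (μ := μ.restrict Bᶜ) hL hF hq i hi hn (by
    rw [Measure.restrict_apply' mB.compl, ← hB, Set.inter_compl_self, measure_empty])
  rw [Measure.restrict_apply' mB.compl] at h0
  filter_upwards [measure_eq_zero_iff_ae_notMem.1 h0] with x hx
  by_cases e : x ∈ B
  · exact Or.inr e
  · exact Or.inl fun γ hγ => not_not.1 fun a => hx ⟨⟨γ, hγ, a⟩, e⟩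

end Factor

/-- For almost every point, the stabiliser centralises the normal subgroup `L` of `M`, or the
closure of its image in `M` contains `L`. -/
theorem dense_ae2 {Γ M L X : Type} [Group Γ] [Countable Γ]
    [Group M] [TopologicalSpace M] [IsTopologicalGroup M] [SecondCountableTopology M] [T2Space M]
    [Group L] [TopologicalSpace L] [IsTopologicalGroup L] [SecondCountableTopology L] [T2Space L]
    (hL : Rigid L) (q : Γ →* M) (i : L →* M) (hi : Topology.IsEmbedding i) (hn : i.range.Normal)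
    (hq : ∀ a : L, i a ∈ closure (Set.range q))
    [MeasurableSpace X] [MulAction Γ X] [MeasurableConstSMul Γ X] (μ : Measure X)
    [IsFiniteMeasure μ] [SMulInvariantMeasure Γ X μ]
    (hF : ∀ γ : Γ, MeasurableSet {x : X | γ • x = x}) :
    ∀ᵐ x ∂μ, (∀ γ : Γ, γ • x = x → ∀ a : L, i a * q γ = q γ * i a) ∨
      ∀ a : L, i a ∈ closure (q '' {γ | γ • x = x}) := by
  let M' : Subgroup M := q.range.topologicalClosure
  let q' : Γ →* M' := q.codRestrict M' fun γ => subset_closure ⟨γ, rfl⟩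
  let i' : L →* M' := i.codRestrict M' hq
  have hq' : DenseRange q' := by
    refine Subtype.dense_iff.2 ?_
    rw [← Set.range_comp]
    exact fun _ h => h
  have hi' : Topology.IsEmbedding i' := hi.codRestrict M' hq
  have hn' : ∀ (g : M') (a : L), ∃ b : L, i' b = g * i' a * g⁻¹ := fun g a => by
    obtain ⟨b, hb⟩ := hn.conj_mem _ ⟨a, rfl⟩ (g : M)
    exact ⟨b, Subtype.ext hb⟩
  have : SecondCountableTopology M' := TopologicalSpace.Subtype.secondCountableTopology (M' : Set M)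
  filter_upwards [dense2_dense (μ := μ) hL hF hq' i' hi' hn'] with x hx
  rcases hx with hx | hx
  · exact Or.inl fun γ hγ a => congrArg Subtype.val (hx γ hγ a)
  · refine Or.inr fun a => ?_
    refine map_mem_closure (f := Subtype.val) continuous_subtype_val (hx a) ?_
    rintro _ ⟨γ, hγ, rfl⟩
    exact ⟨γ, hγ, rfl⟩

end Pool.Agent.Lib.MP_60cbcc_al.H3Z
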