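import Pool.Agent.Lib.MP_60cbcc_al.H3ZExTRB

/-!
Algebraic facts about `SL(n, k)`: normal subgroups, upper triangular matrices, the big cell.
-/

namespace Pool.Agent.Lib.MP_60cbcc_al.H3Z

open Matrix Matrix.SpecialLinearGroup
open scoped LinearAlgebra.Projectivization commutatorElement

section alg

variable {k ι : Type} [Field k] [Fintype ι] [DecidableEq ι]

lemma exh_eq_comm {i j l : ι} (hij : i ≠ j) (hjl : j ≠ l) (hil : i ≠ l) (x : k) :
    transvection hil x = ⁅(transvection hjl (1 : k))⁻¹, transvection hij x⁆ := by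
  have e := extr_row hij hjl hil x (1 : k)
  rw [mul_one, ← transvection_inv] at e
  rw [commutatorElement_def, inv_inv, mul_assoc, mul_assoc, ← mul_assoc (transvection hij x), e,
    inv_mul_cancel_left]

lemma exh_comm (S : Subgroup (SpecialLinearGroup ι k)) {i j l : ι} (hij : i ≠ j) (hjl : j ≠ l)
    (hil : i ≠ l) (h1 : ∀ x : k, transvection hij x ∈ S) (h2 : ∀ x : k, transvection hjl x ∈ S)
    (x : k) :
    transvection hil x ∈ S := by
  rw [exh_eq_comm hij hjl hil, commutatorElement_def, inv_inv]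
  exact S.mul_mem (S.mul_mem (S.mul_mem (S.inv_mem (h2 _)) (h1 _)) (h2 _)) (S.inv_mem (h1 _))

/-- A normal subgroup is central or everything. -/
lemma exh_dich [Nontrivial ι] (h3 : ∀ i j : ι, ∃ l, l ≠ i ∧ l ≠ j)
    (N : Subgroup (SpecialLinearGroup ι k)) (hN : N.Normal) :
    N ≤ Subgroup.center (SpecialLinearGroup ι k) ∨ ⊤ ≤ N := by
  let W : MulAction.IwasawaStructure (SpecialLinearGroup ι k) (ℙ k (ι → k)) :=
    { T := fun p => lineStab p.submodule
      is_comm := fun p => by
        rw [← Projectivization.mk_rep p, Projectivization.submodule_mk]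
        exact lineStab_isMulCommutative_of_span p.rep p.rep_nonzero
      is_conj := fun g p => by rw [PSL.smul_submodule, lineStab_smul]
      is_generator := extr_gen _ fun i j hij x => by
        refine Subgroup.mem_iSup_of_mem (Projectivization.mk k (Pi.single i (1 : k))
          (Pi.single_ne_zero_iff.2 one_ne_zero)) ?_
        rw [Projectivization.submodule_mk]
        exact SL2Gen.transvection_mem_lineStab hij x }
  by_cases hf : MulAction.fixedPoints N (ℙ k (ι → k)) = Set.univ
  · left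
    intro g hg
    rw [← Projectivization.SL_mulAction_ker, MonoidHom.mem_ker]
    ext p
    exact Set.eq_univ_iff_forall.1 hf p ⟨g, hg⟩
  · right
    refine le_trans (extr_gen _ fun i l hil x => ?_).ge (W.commutator_le N hf)
    obtain ⟨j, h1, h2⟩ := h3 i l
    rw [exh_eq_comm h1.symm h2 hil]
    exact Subgroup.commutator_mem_commutator (Subgroup.mem_top _) (Subgroup.mem_top _)

/-- The element `1 + x yᵀ` for orthogonal vectors. -/
def exhEl (x y : ι → k) (h : y ⬝ᵥ x = 0) : SpecialLinearGroup ι k :=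
  ⟨1 + vecMulVec x y, by
    rw [vecMulVec_eq Unit, det_one_add_replicateCol_mul_replicateRow, h, add_zero]⟩

/-- The big cell: an element with a non-zero diagonal entry at `p` is the product of a column
element, a block diagonal element and a row element. -/
lemma exh_cell (p : ι) (g : SpecialLinearGroup ι k) (hg : g p p ≠ 0) :
    ∃ u z r : SpecialLinearGroup ι k, g = u * z * r ∧
      (∀ i, u i i = 1) ∧ (∀ i j, i ≠ j → j ≠ p → u i j = 0) ∧
      (∀ i, i ≠ p → z i p = 0 ∧ z p i = 0) ∧
      (∀ i, r i i = 1) ∧ (∀ i j, i ≠ j → i ≠ p → r i j = 0) := by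
  let x : ι → k := fun i => if i = p then 0 else g i p / g p p
  let y : ι → k := fun j => if j = p then 0 else g p j / g p p
  let e : ι → k := Pi.single p 1
  have hx : e ⬝ᵥ x = 0 := by simp [e, x]
  have hx' : e ⬝ᵥ (-x) = 0 := by simp [hx]
  have hy : y ⬝ᵥ e = 0 := by simp [e, y]
  have hy' : (-y) ⬝ᵥ e = 0 := by simp [hy]
  have hu : exhEl x e hx * exhEl (-x) e hx' = 1 := Subtype.ext <| by
    simp [exhEl, mul_add, add_mul, vecMulVec_mul_vecMulVec, hx]
  have hr : exhEl e (-y) hy' * exhEl e y hy = 1 := Subtype.ext <| by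
    simp [exhEl, mul_add, add_mul, vecMulVec_mul_vecMulVec, hy]
  have hz : ∀ i j, (exhEl (-x) e hx' * g * exhEl e (-y) hy') i j =
      g i j - x i * g p j - (g i p - x i * g p p) * y j := fun i j => by
    change ((1 + vecMulVec (-x) e) * g.1 * (1 + vecMulVec e (-y))) i j = _
    simp only [mul_add, add_mul, one_mul, mul_one, vecMulVec_mul, mul_vecMulVec, Matrix.add_apply,
      vecMulVec_apply, e, single_one_vecMul, mulVec_single_one, Pi.neg_apply, row_apply, col_apply]
    ring
  refine ⟨exhEl x e hx, exhEl (-x) e hx' * g * exhEl e (-y) hy', exhEl e y hy, ?_, fun i => ?_,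
    fun i j hij hj => ?_, fun i hi => ⟨?_, ?_⟩, fun i => ?_, fun i j hij hi => ?_⟩
  · rw [← mul_assoc, ← mul_assoc, hu, one_mul, mul_assoc, hr, mul_one]
  · change (1 + vecMulVec x e) i i = 1
    by_cases hi : i = p <;> simp [vecMulVec_apply, e, x, hi]
  · change (1 + vecMulVec x e) i j = 0
    simp [vecMulVec_apply, e, hij, hj]
  · rw [hz]
    simp [x, y, hi, hg]
  · rw [hz]
    simp [x, y, hi, mul_div_cancel₀ _ hg]
  · change (1 + vecMulVec e y) i i = 1
    by_cases hi : i = p <;> simp [vecMulVec_apply, e, y, hi]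
  · change (1 + vecMulVec e y) i j = 0
    simp [vecMulVec_apply, e, hij, hi]

lemma exh_inv_diag {a : SpecialLinearGroup ι k} {d : ι → k} (ha : a.1 = diagonal d)
    (hd : ∀ i, d i ≠ 0) : (a⁻¹).1 = diagonal fun i => (d i)⁻¹ := by
  have h1 : diagonal d * (diagonal fun i => (d i)⁻¹) = 1 := by
    rw [diagonal_mul_diagonal, ← diagonal_one]
    congr 1
    ext i
    exact mul_inv_cancel₀ (hd i)
  rw [← mul_one (a⁻¹).1, ← h1, ← ha, ← mul_assoc, ← coe_mul, inv_mul_cancel, coe_one, one_mul]

/-- An element commutes with a diagonal element if its entries vanish between different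
eigenvalues. -/
lemma exh_cent {a z : SpecialLinearGroup ι k} {d : ι → k} (ha : a.1 = diagonal d)
    (hz : ∀ i j, d i = d j ∨ z i j = 0) :
    z ∈ Subgroup.centralizer ({a} : Set (SpecialLinearGroup ι k)) := by
  rw [Subgroup.mem_centralizer_singleton_iff]
  refine Subtype.ext ?_
  rw [coe_mul, coe_mul, ha]
  ext i j
  rw [mul_diagonal, diagonal_mul]
  rcases hz i j with h | h
  · rw [h, mul_comm]
  · change z i j * _ = _ * z i j
    rw [h, zero_mul, mul_zero]

end alg

section upper

variable {k : Type} [Field k] {m : ℕ}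

/-- The entries below the `d`-th superdiagonal vanish. -/
def exhV (d : ℕ) (M : Matrix (Fin m) (Fin m) k) : Prop :=
  ∀ i j : Fin m, (j : ℕ) < i + d → M i j = 0

lemma exhV.mul {d e : ℕ} {M N : Matrix (Fin m) (Fin m) k} (hM : exhV d M) (hN : exhV e N) :
    exhV (d + e) (M * N) := fun i j hij => by
  rw [mul_apply]
  refine Finset.sum_eq_zero fun l _ => ?_
  by_cases hl : (l : ℕ) < i + d
  · rw [hM i l hl, zero_mul]
  · rw [hN l j (by omega), mul_zero]

lemma exhV.add {d : ℕ} {M N : Matrix (Fin m) (Fin m) k} (hM : exhV d M) (hN : exhV d N) :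
    exhV d (M + N) := fun i j hij => by
  rw [Matrix.add_apply, hM i j hij, hN i j hij, add_zero]

lemma exhV.sub {d : ℕ} {M N : Matrix (Fin m) (Fin m) k} (hM : exhV d M) (hN : exhV d N) :
    exhV d (M - N) := fun i j hij => by
  rw [Matrix.sub_apply, hM i j hij, hN i j hij, sub_zero]

lemma exhV.mono {d e : ℕ} {M : Matrix (Fin m) (Fin m) k} (hM : exhV d M) (h : e ≤ d) :
    exhV e M := fun i j hij => hM i j (by omega)

lemma exhV.one : exhV 0 (1 : Matrix (Fin m) (Fin m) k) := fun i j hij =>
  one_apply_ne (by rintro rfl; omega)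

lemma exhV.inv {g : SpecialLinearGroup (Fin m) k} (h : exhV 0 g.1) : exhV 0 (g⁻¹).1 := by
  have hu : IsUnit g.1.det := by rw [g.2]; exact isUnit_one
  let _ := invertibleOfIsUnitDet _ hu
  have h1 : BlockTriangular g.1 id := fun i j hij => h i j (by simpa using hij)
  have h2 := blockTriangular_inv_of_blockTriangular h1
  have h3 : (g⁻¹).1 = g.1⁻¹ := by
    rw [coe_inv, Matrix.inv_def, g.2, Ring.inverse_one, one_smul]
  rw [h3]
  exact fun i j hij => h2 (by simpa using hij)

/-- The filtration of the group of upper triangular matrices. -/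
def exhF (k : Type) [Field k] (m d : ℕ) : Subgroup (SpecialLinearGroup (Fin m) k) where
  carrier := {g | exhV 0 g.1 ∧ exhV d (g.1 - 1)}
  one_mem' := ⟨exhV.one, fun i j _ => by simp⟩
  mul_mem' := fun {x y} hx hy => ⟨hx.1.mul hy.1, by
    have e : (x * y).1 - 1 = (x.1 - 1) * y.1 + (y.1 - 1) := by
      rw [coe_mul, sub_mul, one_mul, sub_add_sub_cancel]
    rw [e]
    exact (hx.2.mul hy.1).add hy.2⟩
  inv_mem' := fun {x} hx => ⟨hx.1.inv, by
    have e : (x⁻¹).1 - 1 = 0 - (x.1 - 1) * (x⁻¹).1 := by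
      rw [sub_mul, one_mul, ← coe_mul, mul_inv_cancel, coe_one, zero_sub, neg_sub]
    rw [e]
    exact exhV.sub (fun _ _ _ => rfl) (hx.2.mul hx.1.inv)⟩

lemma exh_mem_zero {g : SpecialLinearGroup (Fin m) k} (h : ∀ i j, j < i → g i j = 0) :
    g ∈ exhF k m 0 :=
  have h1 : exhV 0 g.1 := fun i j hij => h i j (by simpa using hij)
  ⟨h1, h1.sub exhV.one⟩

lemma exh_comm_mem {d : ℕ} {x y : SpecialLinearGroup (Fin m) k} (hx : x ∈ exhF k m d)
    (hy : y ∈ exhF k m d) : ⁅x, y⁆ ∈ exhF k m (d + 1) := by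
  have h1 : exhV (d + 1) (x.1 * y.1 - y.1 * x.1) := by
    rcases Nat.eq_zero_or_pos d with rfl | hd
    · intro i j hij
      rcases Nat.lt_or_ge (j : ℕ) i with h | h
      · exact ((hx.1.mul hy.1).sub (hy.1.mul hx.1)) i j (by omega)
      · obtain rfl : i = j := Fin.ext (by omega)
        rw [Matrix.sub_apply, mul_apply, mul_apply, ← Finset.sum_sub_distrib]
        refine Finset.sum_eq_zero fun l _ => ?_
        rcases lt_trichotomy (l : ℕ) i with h' | h' | h'
        · rw [hx.1 i l (by omega), hy.1 i l (by omega), zero_mul, zero_mul, sub_zero]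
        · obtain rfl : l = i := Fin.ext h'
          rw [mul_comm, sub_self]
        · rw [hx.1 l i (by omega), hy.1 l i (by omega), mul_zero, mul_zero, sub_zero]
    · have e : x.1 * y.1 - y.1 * x.1 = (x.1 - 1) * (y.1 - 1) - (y.1 - 1) * (x.1 - 1) := by
        noncomm_ring
      rw [e]
      exact ((hx.2.mul hy.2).sub (hy.2.mul hx.2)).mono (by omega)
  refine ⟨((hx.1.mul hy.1).mul hx.1.inv).mul hy.1.inv, ?_⟩
  have e : (⁅x, y⁆ : SpecialLinearGroup (Fin m) k).1 - 1 =
      (x.1 * y.1 - y.1 * x.1) * (x⁻¹).1 * (y⁻¹).1 := by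
    have h2 : y * x * x⁻¹ * y⁻¹ = 1 := by group
    rw [sub_mul, sub_mul, ← coe_mul y, ← coe_mul (y * x), ← coe_mul (y * x * x⁻¹), h2, coe_one,
      commutatorElement_def, coe_mul, coe_mul, coe_mul]
  rw [e]
  exact (h1.mul hx.1.inv).mul hy.1.inv

/-- The group of upper triangular matrices is solvable. -/
lemma exh_solvable : Group.IsSolvable (exhF k m 0) := by
  have h : ∀ d, derivedSeries (exhF k m 0) d ≤ (exhF k m d).subgroupOf (exhF k m 0) := fun d => by
    induction d with
    | zero => exact fun g _ => g.2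
    | succ d ih =>
      rw [derivedSeries_succ, Subgroup.commutator_le]
      exact fun x hx y hy => exh_comm_mem (ih hx) (ih hy)
  refine ⟨m, le_bot_iff.1 fun g hg => ?_⟩
  have h1 := (h m hg).2
  rw [Subgroup.mem_bot]
  refine Subtype.ext (Subtype.ext (sub_eq_zero.1 ?_))
  ext i j
  exact h1 i j (by omega)

end upper

end Pool.Agent.Lib.MP_60cbcc_al.H3Z
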