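import Pool.Agent.Lib.MP_60cbcc_al.H3ZDefs2
import Pool.Agent.Lib.MP_60cbcc_al.H3ZExHighB

/-!
The structure of `SL(n, k)`, `n ≥ 3`.
-/

namespace Pool.Agent.Lib.MP_60cbcc_al.H3Z

section aux

open Matrix Matrix.SpecialLinearGroup MeasureTheory Filter Topology
open scoped Pointwise

variable {k ι : Type} [NontriviallyNormedField k] [Fintype ι] [DecidableEq ι]

/-- Elements of the contraction group of a diagonal element. -/
lemma exh_con {a u : SpecialLinearGroup ι k} {d : ι → k} (ha : a.1 = diagonal d)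
    (hd : ∀ i, d i ≠ 0) (h1 : ∀ i, u i i = 1)
    (h2 : ∀ i j, i ≠ j → u i j = 0 ∨ ‖d i‖ < ‖d j‖) : u ∈ con a := by
  have hi := exh_inv_diag ha hd
  have e : ∀ (n : ℕ) (i j : ι), (a ^ n * u * (a ^ n)⁻¹).1 i j = (d i / d j) ^ n * u i j :=
    fun n i j => by
      rw [← inv_pow, coe_mul, coe_mul, coe_pow, coe_pow, ha, hi, diagonal_pow, diagonal_pow,
        mul_diagonal, diagonal_mul, div_eq_mul_inv, mul_pow, Pi.pow_apply, Pi.pow_apply,
        mul_right_comm]
  refine tendsto_subtype_rng.2 (tendsto_pi_nhds.2 fun i => tendsto_pi_nhds.2 fun j => ?_)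
  simp only [e, coe_one]
  by_cases hij : i = j
  · subst hij
    simp [div_self (hd i), h1]
  · rw [one_apply_ne hij]
    rcases h2 i j hij with h | h
    · simp [h]
    · rw [← zero_mul (u i j)]
      refine (tendsto_pow_atTop_nhds_zero_of_norm_lt_one ?_).mul_const _
      rw [norm_div]
      exact (div_lt_one (norm_pos_iff.2 (hd j))).2 h

lemma exh_entry (i j : ι) : Continuous fun g : SpecialLinearGroup ι k => g i j :=
  continuous_subtype_val.matrix_elem i j

/-- The elements with a vanishing diagonal entry form a null set. -/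
lemma exh_null [CompleteSpace k] [MeasurableSpace (SpecialLinearGroup ι k)]
    [BorelSpace (SpecialLinearGroup ι k)] (μ : Measure (SpecialLinearGroup ι k)) [SFinite μ]
    [μ.IsMulLeftInvariant] (p : ι) : μ {g | g p p = 0} = 0 := by
  have hsub : {g : SpecialLinearGroup ι k | g p p = 0} ⊆
      ⋃ j : {j // p ≠ j}, {g | g p p = 0 * g j p ∧ g j p ≠ 0} := fun g hg => by
    by_contra hc
    simp only [Set.mem_iUnion, Set.mem_ofPred_eq, not_exists, not_and, not_not, zero_mul] at hc
    refine one_ne_zero (g.2.symm.trans (det_eq_zero_of_column_eq_zero p fun i => ?_))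
    by_cases hi : p = i
    · exact hi ▸ hg
    · exact hc ⟨i, hi⟩ hg
  refine measure_mono_null hsub (measure_iUnion_null fun j => ?_)
  let W : k → Set (SpecialLinearGroup ι k) := fun s => {g | g p p = s * g j p ∧ g j p ≠ 0}
  have hm : ∀ s, MeasurableSet (W s) := fun s =>
    (isClosed_eq (exh_entry p p) (continuous_const.mul (exh_entry j.1 p))).measurableSet.inter
      (isOpen_ne_fun (exh_entry j.1 p) continuous_const).measurableSet
  have hd : Pairwise (Function.onFun Disjoint W) := fun s s' hs =>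
    Set.disjoint_left.2 fun g h h' => hs (mul_right_cancel₀ h.2 (h.1.symm.trans h'.1))
  have he : ∀ s, μ (W s) = μ (W 0) := fun s => by
    rw [← measure_preimage_mul μ (transvection j.2 (-s)) (W 0)]
    congr 1
    ext g
    have e1 : (transvection j.2 (-s) * g) p p = g p p - s * g j p := by
      change ((1 + single p j.1 (-s)) * g.1) p p = _
      rw [add_mul, one_mul, Matrix.add_apply, single_mul_apply_same]
      ring
    have e2 : (transvection j.2 (-s) * g) j p = g j p := by
      change ((1 + single p j.1 (-s)) * g.1) j p = _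
      rw [add_mul, one_mul, Matrix.add_apply, single_mul_apply_of_ne _ _ _ _ _ j.2.symm, add_zero]
    simp only [W, Set.mem_preimage, Set.mem_ofPred_eq, e1, e2, zero_mul, sub_eq_zero]
  by_contra h0
  have hc := Measure.countable_meas_pos_of_disjoint_iUnion (μ := μ) hm hd
  have hu : {s : k | 0 < μ (W s)} = Set.univ :=
    Set.eq_univ_of_forall fun s => (pos_iff_ne_zero.2 h0).trans_eq (he s).symm
  have : Uncountable k := Cardinal.aleph0_lt_mk_iff.1
    (Cardinal.aleph0_lt_continuum.trans_le (continuum_le_cardinal_of_nontriviallyNormedField k))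
  exact Set.not_countable_univ (hu ▸ hc)

lemma exh_tr_apply {i j : ι} (hij : i ≠ j) (x : k) (a b : ι) :
    (transvection hij x : SpecialLinearGroup ι k) a b =
      (if a = b then 1 else 0) + if i = a ∧ j = b then x else 0 := rfl

/-- The diagonal element with one special entry. -/
lemma exh_elt (p : ι) : ∃ (a : SpecialLinearGroup ι k) (s t : k),
    s ≠ 0 ∧ ‖s‖ < ‖t‖ ∧ a.1 = diagonal fun i => if i = p then t else s := by
  obtain ⟨s, h0, h1⟩ := NormedField.exists_norm_lt_one k
  have hs : s ≠ 0 := norm_pos_iff.1 h0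
  refine ⟨⟨diagonal fun i => if i = p then (s ^ (Fintype.card ι - 1))⁻¹ else s, ?_⟩, s,
    (s ^ (Fintype.card ι - 1))⁻¹, hs, h1.trans_le ?_, rfl⟩
  · rw [det_diagonal, ← Finset.mul_prod_erase _ _ (Finset.mem_univ p), if_pos rfl,
      Finset.prod_congr rfl fun i hi => if_neg (Finset.ne_of_mem_erase hi), Finset.prod_const,
      Finset.card_erase_of_mem (Finset.mem_univ p), Finset.card_univ]
    exact inv_mul_cancel₀ (pow_ne_zero _ hs)
  · rw [norm_inv, norm_pow]
    exact (one_le_inv₀ (pow_pos h0 _)).2 (pow_le_one₀ h0.le h1.le)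

/-- The properties of the diagonal element with one special entry. -/
lemma exh_prop [Nontrivial ι] (p : ι) {a : SpecialLinearGroup ι k} {s t : k} (hs : s ≠ 0)
    (hst : ‖s‖ < ‖t‖) (ha : a.1 = diagonal fun i => if i = p then t else s) :
    (∀ u : SpecialLinearGroup ι k, (∀ i, u i i = 1) → (∀ i j, i ≠ j → j ≠ p → u i j = 0) →
      u ∈ con a) ∧
    (∀ u : SpecialLinearGroup ι k, (∀ i, u i i = 1) → (∀ i j, i ≠ j → i ≠ p → u i j = 0) →
      u ∈ con a⁻¹) ∧
    (∀ z : SpecialLinearGroup ι k, (∀ i, i ≠ p → z i p = 0 ∧ z p i = 0) →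
      z ∈ Subgroup.centralizer ({a} : Set (SpecialLinearGroup ι k))) ∧
    Subgroup.closure (con a ∪ con a⁻¹) = ⊤ := by
  have h0 : 0 < ‖s‖ := norm_pos_iff.2 hs
  have ht : t ≠ 0 := norm_pos_iff.1 (h0.trans hst)
  have hd : ∀ i, (if i = p then t else s) ≠ 0 := fun i => by split_ifs; exacts [ht, hs]
  have c1 : ∀ u : SpecialLinearGroup ι k, (∀ i, u i i = 1) →
      (∀ i j, i ≠ j → j ≠ p → u i j = 0) → u ∈ con a := fun u h1 h2 =>
    exh_con ha hd h1 fun i j hij => by
      by_cases hj : j = p
      · subst hj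
        right
        rwa [if_neg hij, if_pos rfl]
      · exact Or.inl (h2 i j hij hj)
  have c2 : ∀ u : SpecialLinearGroup ι k, (∀ i, u i i = 1) →
      (∀ i j, i ≠ j → i ≠ p → u i j = 0) → u ∈ con a⁻¹ := fun u h1 h2 =>
    exh_con (exh_inv_diag ha hd) (fun i => inv_ne_zero (hd i)) h1 fun i j hij => by
      by_cases hi : i = p
      · subst hi
        right
        rw [if_neg hij.symm, if_pos rfl, norm_inv, norm_inv]
        exact inv_strictAnti₀ h0 hst
      · exact Or.inl (h2 i j hij hi)
  refine ⟨c1, c2, fun z hz => exh_cent ha fun i j => ?_, ?_⟩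
  · by_cases hi : i = p <;> by_cases hj : j = p
    · exact Or.inl (by rw [if_pos hi, if_pos hj])
    · exact Or.inr (hi ▸ (hz j hj).2)
    · exact Or.inr (hj ▸ (hz i hi).1)
    · exact Or.inl (by rw [if_neg hi, if_neg hj])
  · have t1 : ∀ i (hi : i ≠ p) (x : k), transvection hi x ∈ Subgroup.closure (con a ∪ con a⁻¹) :=
      fun i hi x => Subgroup.subset_closure (Or.inl (c1 _
        (fun b => by rw [exh_tr_apply]; grind) fun b c h h' => by rw [exh_tr_apply]; grind))
    have t2 : ∀ j (hj : p ≠ j) (x : k), transvection hj x ∈ Subgroup.closure (con a ∪ con a⁻¹) :=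
      fun j hj x => Subgroup.subset_closure (Or.inr (c2 _
        (fun b => by rw [exh_tr_apply]; grind) fun b c h h' => by rw [exh_tr_apply]; grind))
    refine extr_gen _ fun i j hij x => ?_
    by_cases hi : i = p
    · subst hi
      exact t2 j hij x
    · by_cases hj : p = j
      · subst hj
        exact t1 i hij x
      · exact exh_comm _ hi hj hij (t1 i hi) (t2 j hj) x

lemma exh_con_inv {G : Type} [Group G] [TopologicalSpace G] [IsTopologicalGroup G] {a u : G}
    (h : u ∈ con a) : u⁻¹ ∈ con a := by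
  have h1 := Tendsto.inv h
  rw [inv_one] at h1
  refine h1.congr fun n => ?_
  group

end aux

open scoped MatrixGroups

theorem sl_isHigh_of (k : Type) [NontriviallyNormedField k] [LocallyCompactSpace k] (n : ℕ)
    [MeasurableSpace SL(n + 3, k)] [BorelSpace SL(n + 3, k)] (h : HasT SL(n + 3, k)) :
    IsHigh SL(n + 3, k) := by
  classical
  have : ProperSpace k := .of_nontriviallyNormedField_of_weaklyLocallyCompactSpace k
  have : SecondCountableTopology (Matrix (Fin (n + 3)) (Fin (n + 3)) k) :=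
    inferInstanceAs (SecondCountableTopology (Fin (n + 3) → Fin (n + 3) → k))
  have : LocallyCompactSpace (Matrix (Fin (n + 3)) (Fin (n + 3)) k) :=
    inferInstanceAs (LocallyCompactSpace (Fin (n + 3) → Fin (n + 3) → k))
  have : SecondCountableTopology SL(n + 3, k) :=
    TopologicalSpace.Subtype.secondCountableTopology _
  have : LocallyCompactSpace SL(n + 3, k) :=
    (isClosed_eq continuous_id.matrix_det continuous_const).locallyCompactSpace
  have h3 : ∀ i j : Fin (n + 3), ∃ l, l ≠ i ∧ l ≠ j := fun i j => by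
    obtain ⟨l, hl⟩ := Finset.exists_mem_notMem_of_card_lt_card
      (s := ({i, j} : Finset (Fin (n + 3)))) (t := Finset.univ)
      (Finset.card_le_two.trans_lt (by simp))
    exact ⟨l, by simpa using hl.2⟩
  let q : Fin (n + 3) := Fin.last (n + 2)
  have h0q : (0 : Fin (n + 3)) ≠ q := Fin.last_pos.ne
  obtain ⟨a, s, t, hs, hst, ha⟩ := exh_elt (k := k) (0 : Fin (n + 3))
  obtain ⟨b, s', t', hs', hst', hb⟩ := exh_elt (k := k) q
  obtain ⟨a1, -, a3, a4⟩ := exh_prop 0 hs hst ha
  obtain ⟨-, b2, b3, b4⟩ := exh_prop q hs' hst' hb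
  have hdiag : ∀ (c : SL(n + 3, k)) (d : Fin (n + 3) → k), c.1 = Matrix.diagonal d →
      c ∈ exhF k (n + 3) 0 := fun c d hc => exh_mem_zero fun i j hij => by
    rw [hc, Matrix.diagonal_apply_ne _ hij.ne']
  have hcb : Subgroup.centralizer ({b} : Set SL(n + 3, k)) ≤ Subgroup.centralizer {b⁻¹} :=
    fun z hz => by
      rw [Subgroup.mem_centralizer_singleton_iff] at hz ⊢
      exact (Commute.inv_right hz).eq
  refine ⟨h, ⊤, exhF k (n + 3) 0, {a, b⁻¹}, inferInstance, fun hbot => ?_, ?_,
    fun N _ hN => exh_dich h3 N ⟨fun x hx g => hN g (Subgroup.mem_top g) x hx⟩, exh_solvable,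
    le_top, Finset.insert_nonempty _ _, le_trans ?_ (Subgroup.le_topologicalClosure _), ?_⟩
  · have h1 : Matrix.SpecialLinearGroup.transvection h0q (1 : k) = 1 :=
      Subgroup.mem_bot.1 (hbot.le (Subgroup.mem_top _))
    exact one_ne_zero ((Matrix.SpecialLinearGroup.transvection_mem_center_iff h0q (1 : k)).1
      (h1 ▸ Subgroup.one_mem _))
  · have := QuotientGroup.subsingleton_quotient_top (G := SL(n + 3, k))
    infer_instance
  · refine le_trans (extr_gen _ ?_).ge le_sup_right
    have t1 : ∀ i j (hij : i ≠ j), i ≠ 0 → j ≠ 0 → ∀ x : k,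
        Matrix.SpecialLinearGroup.transvection hij x ∈ ⨆ c ∈ ({a, b⁻¹} : Finset SL(n + 3, k)),
          Subgroup.centralizer {c} ⊓ (⊤ : Subgroup SL(n + 3, k)) := fun i j hij hi hj x =>
      Subgroup.mem_iSup_of_mem a (Subgroup.mem_iSup_of_mem (Finset.mem_insert_self _ _)
        ⟨a3 _ fun l hl => by rw [exh_tr_apply, exh_tr_apply]; grind, Subgroup.mem_top _⟩)
    have t2 : ∀ i j (hij : i ≠ j), i ≠ q → j ≠ q → ∀ x : k,
        Matrix.SpecialLinearGroup.transvection hij x ∈ ⨆ c ∈ ({a, b⁻¹} : Finset SL(n + 3, k)),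
          Subgroup.centralizer {c} ⊓ (⊤ : Subgroup SL(n + 3, k)) := fun i j hij hi hj x =>
      Subgroup.mem_iSup_of_mem b⁻¹ (Subgroup.mem_iSup_of_mem
        (Finset.mem_insert_of_mem (Finset.mem_singleton_self _))
        ⟨hcb (b3 _ fun l hl => by rw [exh_tr_apply, exh_tr_apply]; grind), Subgroup.mem_top _⟩)
    obtain ⟨l, l0, lq⟩ := h3 0 q
    intro i j hij x
    by_cases hi : i = 0
    · subst hi
      by_cases hj : j = q
      · subst hj
        exact exh_comm _ l0.symm lq hij (t2 _ _ _ h0q lq) (t1 _ _ _ l0 h0q.symm) x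
      · exact t2 _ _ _ h0q hj x
    · by_cases hj : j = 0
      · subst hj
        by_cases hq : i = q
        · subst hq
          exact exh_comm _ lq.symm l0 hij (t1 _ _ _ hi l0) (t2 _ _ _ lq h0q) x
        · exact t2 _ _ _ hq h0q x
      · exact t1 _ _ _ hi hj x
  · intro c hc
    rcases Finset.mem_insert.1 hc with rfl | hc
    · refine ⟨hdiag _ _ ha, top_le_iff.1 (a4.ge.trans (Subgroup.le_topologicalClosure _)),
        fun m hm => ?_⟩
      refine MeasureTheory.measure_mono_null (fun g hg => ?_) (exh_null m 0)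
      by_contra hg0
      obtain ⟨u, z, r, rfl, u1, u2, hz, -, r2⟩ := exh_cell 0 g hg0
      exact hg (Set.mul_mem_mul (Set.mul_mem_mul (a1 u u1 u2) (a3 z hz))
        (exh_mem_zero fun i j hij =>
          r2 i j hij.ne' (Fin.pos_iff_ne_zero.1 (j.zero_le.trans_lt hij))))
    · obtain rfl := Finset.mem_singleton.1 hc
      refine ⟨(exhF k (n + 3) 0).inv_mem (hdiag _ _ hb), ?_, fun m hm => ?_⟩
      · rw [inv_inv, Set.union_comm]
        exact top_le_iff.1 (b4.ge.trans (Subgroup.le_topologicalClosure _))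
      · refine MeasureTheory.measure_mono_null (fun g hg => ?_)
          ((MeasureTheory.measure_inv_null m).2 (exh_null m q))
        by_contra hg0
        obtain ⟨u, z, r, e, -, u2, hz, r1, r2⟩ := exh_cell q g⁻¹ hg0
        have e' : g = r⁻¹ * z⁻¹ * u⁻¹ := by
          rw [← inv_inv g, e]
          group
        refine hg (e' ▸ Set.mul_mem_mul (Set.mul_mem_mul (exh_con_inv (b2 r r1 r2))
          (Subgroup.inv_mem _ (hcb (b3 z hz)))) (Subgroup.inv_mem _ ?_))
        exact exh_mem_zero fun i j hij => u2 i j hij.ne' (hij.trans_le (Fin.le_last i)).ne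

end Pool.Agent.Lib.MP_60cbcc_al.H3Z
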