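import Pool.Agent.Lib.MP_60cbcc_al.H3ZDefs2

/-!
The groups `SL(n, ℝ)` are real factors.
-/

namespace Pool.Agent.Lib.MP_60cbcc_al.H3Z

open scoped MatrixGroups
open Matrix NormedSpace

section Det

variable {ι : Type} [Fintype ι] [DecidableEq ι]

open scoped Matrix.Norms.Operator in
theorem exReal_deriv_zero (X : Matrix ι ι ℝ) :
    HasDerivAt (fun t : ℝ => (exp (t • X)).det) X.trace 0 := by
  have hd : Differentiable ℝ fun A : ι → ι → ℝ => (Matrix.of A).det := by
    simp only [Matrix.det_apply', Matrix.of_apply]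
    fun_prop
  have h1 := (hasDerivAt_exp_smul_const X (0 : ℝ)).congr_deriv (g' := X) (by simp)
  have h2 : HasDerivAt (fun t : ℝ => fun i j => (exp (t • X)) i j) (fun i j => X i j) 0 := by
    refine hasDerivAt_pi.2 fun i => hasDerivAt_pi.2 fun j => ?_
    exact (LinearMap.toContinuousLinearMap
      (Matrix.entryLinearMap ℝ ℝ i j)).hasFDerivAt.comp_hasDerivAt 0 h1
  have h3 : HasDerivAt (fun t : ℝ => fun i j => ((1 : Matrix ι ι ℝ) + t • X) i j)
      (fun i j => X i j) 0 := by
    refine hasDerivAt_pi.2 fun i => hasDerivAt_pi.2 fun j => ?_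
    simpa using ((hasDerivAt_id (0 : ℝ)).mul_const (X i j)).const_add ((1 : Matrix ι ι ℝ) i j)
  have h4 := (hd (fun i j => (1 : Matrix ι ι ℝ) i j)).hasFDerivAt
  have h5 := h4.comp_hasDerivAt_of_eq (0 : ℝ) h2 (by simp)
  have h6 := h4.comp_hasDerivAt_of_eq (0 : ℝ) h3 (by simp)
  have h7 : HasDerivAt (fun t : ℝ => ((1 : Matrix ι ι ℝ) + t • X).det) X.trace 0 := by
    rw [funext fun t : ℝ => Matrix.det_one_add_smul t X]
    have h8 := (((hasDerivAt_id (0 : ℝ)).const_mul X.trace).const_add 1).add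
      ((Polynomial.hasDerivAt (det (1 + (Polynomial.X : Polynomial ℝ) •
        X.map Polynomial.C)).divX.divX (0 : ℝ)).mul (hasDerivAt_pow 2 (0 : ℝ)))
    refine h8.congr_deriv ?_
    simp
  exact h5.congr_deriv (h6.unique h7)

theorem exReal_det_one {X : Matrix ι ι ℝ} (h : X.trace = 0) (t : ℝ) : (exp (t • X)).det = 1 := by
  have hd : ∀ s : ℝ, HasDerivAt (fun t : ℝ => (exp (t • X)).det) 0 s := by
    intro s
    have h1 := exReal_deriv_zero X
    rw [h] at h1
    have h2 := (h1.comp_of_eq s ((hasDerivAt_id s).sub_const s) (by simp)).const_mul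
      (exp (s • X)).det
    refine (h2.congr_deriv (by simp)).congr_of_eventuallyEq (.of_forall fun u => ?_)
    simp only [Function.comp, id]
    rw [← det_mul, ← Matrix.exp_add_of_commute _ _ (((Commute.refl X).smul_left _).smul_right _),
      ← add_smul, add_sub_cancel]
  have := is_const_of_deriv_eq_zero (fun s => (hd s).differentiableAt) (fun s => (hd s).deriv) t 0
  rw [this]
  simp

end Det

section Simple

variable {ι : Type} [Fintype ι] [DecidableEq ι] {I : Submodule ℝ (Matrix ι ι ℝ)}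

theorem exReal_A (hI : ∀ X : Matrix ι ι ℝ, X.trace = 0 → ∀ Y ∈ I, X * Y - Y * X ∈ I)
    {Y : Matrix ι ι ℝ} (hY : Y ∈ I) {i j : ι} (hij : i ≠ j) (h : Y j i ≠ 0) :
    single i j (1 : ℝ) ∈ I := by
  have ht : (single i j (1 : ℝ)).trace = 0 := trace_single_eq_of_ne i j 1 hij
  have h1 := hI _ ht _ (hI _ ht _ hY)
  have h0 : single i j (1 : ℝ) * single i j (1 : ℝ) = 0 := single_mul_single_of_ne _ _ _ _ hij.symm _
  have h2 : single i j (1 : ℝ) * Y * single i j (1 : ℝ) = Y j i • single i j (1 : ℝ) := by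
    rw [single_mul_mul_single]
    simp
  have e : single i j (1 : ℝ) * (single i j (1 : ℝ) * Y - Y * single i j (1 : ℝ)) -
      (single i j (1 : ℝ) * Y - Y * single i j (1 : ℝ)) * single i j (1 : ℝ)
      = (-2 * Y j i) • single i j (1 : ℝ) := by
    rw [mul_sub, sub_mul, ← mul_assoc, ← mul_assoc, h0, mul_assoc Y, h0, h2]
    simp only [zero_mul, mul_zero]
    module
  rw [e] at h1
  exact (I.smul_mem_iff (mul_ne_zero (by norm_num) h)).1 h1

theorem exReal_B (hI : ∀ X : Matrix ι ι ℝ, X.trace = 0 → ∀ Y ∈ I, X * Y - Y * X ∈ I)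
    {Y : Matrix ι ι ℝ} (hY : Y ∈ I) {k l : ι} (hkl : k ≠ l) (h : Y k k ≠ Y l l) :
    single l k (1 : ℝ) ∈ I := by
  refine exReal_A hI (hI _ (trace_single_eq_of_ne k l 1 hkl) _ hY) hkl.symm ?_
  simp only [Matrix.sub_apply, single_mul_apply_same, mul_single_apply_same, one_mul, mul_one]
  exact sub_ne_zero.2 h.symm

theorem exReal_C (hI : ∀ X : Matrix ι ι ℝ, X.trace = 0 → ∀ Y ∈ I, X * Y - Y * X ∈ I)
    {i j : ι} (hij : i ≠ j) (h : single i j (1 : ℝ) ∈ I) :
    single j j (1 : ℝ) - single i i (1 : ℝ) ∈ I := by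
  simpa [single_mul_single_same] using hI _ (trace_single_eq_of_ne j i 1 hij.symm) _ h

theorem exReal_D (hI : ∀ X : Matrix ι ι ℝ, X.trace = 0 → ∀ Y ∈ I, X * Y - Y * X ∈ I)
    {i j : ι} (hij : i ≠ j) (h : single i j (1 : ℝ) ∈ I) {k : ι} (hk : i ≠ k) :
    single i k (1 : ℝ) ∈ I ∧ single k i (1 : ℝ) ∈ I := by
  have h1 := exReal_C hI hij h
  have h2 : (single j j (1 : ℝ) - single i i (1 : ℝ)) i i ≠
      (single j j (1 : ℝ) - single i i (1 : ℝ)) k k := by
    by_cases hjk : j = k
    · subst hjk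
      simp [hij, hij.symm]
      norm_num
    · simp [hij.symm, hjk, hk]
  exact ⟨exReal_B hI h1 hk.symm h2.symm, exReal_B hI h1 hk h2⟩

theorem exReal_simple (hI : ∀ X : Matrix ι ι ℝ, X.trace = 0 → ∀ Y ∈ I, X * Y - Y * X ∈ I)
    {Y : Matrix ι ι ℝ} (hY : Y ∈ I) (h0 : Y ≠ 0) (ht : Y.trace = 0) {X : Matrix ι ι ℝ}
    (hX : X.trace = 0) : X ∈ I := by
  have hex : ∃ i j, i ≠ j ∧ single i j (1 : ℝ) ∈ I := by
    by_contra hc
    have hc' : ∀ i j, i ≠ j → single i j (1 : ℝ) ∉ I := fun i j h1 h2 => hc ⟨i, j, h1, h2⟩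
    apply h0
    have h1 : ∀ i j, i ≠ j → Y j i = 0 := fun i j hij => by
      by_contra h
      exact hc' i j hij (exReal_A hI hY hij h)
    have h2 : ∀ k l, Y k k = Y l l := fun k l => by
      by_contra h
      have hkl : k ≠ l := fun e => h (by rw [e])
      exact hc' l k hkl.symm (exReal_B hI hY hkl h)
    ext i j
    by_cases hij : i = j
    · subst hij
      have h3 : Y.trace = (Fintype.card ι : ℝ) * Y i i := by
        simp only [trace, diag_apply]
        rw [Finset.sum_congr rfl fun k _ => h2 k i]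
        simp
      have h4 : (Fintype.card ι : ℝ) ≠ 0 :=
        Nat.cast_ne_zero.2 (Fintype.card_pos_iff.2 ⟨i⟩).ne'
      rw [ht] at h3
      exact (mul_eq_zero.1 h3.symm).resolve_left h4
    · exact h1 j i (Ne.symm hij)
  obtain ⟨i, j, hij, h⟩ := hex
  have hall : ∀ k l, k ≠ l → single k l (1 : ℝ) ∈ I := by
    intro k l hkl
    by_cases hk : i = k
    · subst hk
      exact (exReal_D hI hij h hkl).1
    · exact (exReal_D hI (Ne.symm hk) (exReal_D hI hij h hk).2 hkl).1
  have e : X = ∑ k, ∑ l, X k l • (single k l (1 : ℝ) - if k = l then single i i (1 : ℝ) else 0) := by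
    simp only [smul_sub, Finset.sum_sub_distrib, smul_ite, smul_zero, Finset.sum_ite_eq,
      Finset.mem_univ, if_true, ← Finset.sum_smul]
    have : ∑ k, X k k = 0 := hX
    rw [this, zero_smul, sub_zero]
    conv_lhs => rw [matrix_eq_sum_single X]
    simp [smul_single]
  rw [e]
  refine I.sum_mem fun k _ => I.sum_mem fun l _ => I.smul_mem _ ?_
  by_cases hkl : k = l
  · subst hkl
    rw [if_pos rfl]
    by_cases hk : i = k
    · subst hk
      simp
    · exact exReal_C hI hk (hall i k hk)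
  · rw [if_neg hkl, sub_zero]
    exact hall k l hkl

end Simple

section Conn

variable {ι : Type} [Fintype ι] [DecidableEq ι]

open Matrix.SpecialLinearGroup

theorem exReal_diag {i j : ι} (hij : i ≠ j) {a : ℝ} (ha : a ≠ 0) :
    diag2n hij a ha = SpecialLinearGroup.transvection hij a *
      SpecialLinearGroup.transvection hij.symm (-a⁻¹) * SpecialLinearGroup.transvection hij a *
      SpecialLinearGroup.transvection hij (-1) * SpecialLinearGroup.transvection hij.symm 1 *
      SpecialLinearGroup.transvection hij (-1) := by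
  refine Subtype.ext ?_
  have e : diagonal (fun k => if k = i then a else if k = j then a⁻¹ else 1) =
      (1 : Matrix ι ι ℝ) + (a - 1) • single i i (1 : ℝ) + (a⁻¹ - 1) • single j j (1 : ℝ) := by
    ext k l
    simp only [Matrix.add_apply, diagonal_apply, Matrix.one_apply, single_apply,
      Matrix.smul_apply,
      smul_eq_mul]
    grind
  have s : ∀ (k l : ι) (c : ℝ), single k l c = c • single k l (1 : ℝ) := fun k l c => by simp
  change diagonal _ = ((1 : Matrix ι ι ℝ) + single i j a) * (1 + single j i (-a⁻¹)) *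
    (1 + single i j a) * (1 + single i j (-1)) * (1 + single j i 1) * (1 + single i j (-1))
  rw [e, s i j a, s j i (-a⁻¹), s i j (-1)]
  simp only [mul_add, add_mul, mul_one, one_mul, smul_mul_assoc, mul_smul_comm,
    single_mul_single_same, single_mul_single_of_ne _ _ _ _ hij,
    single_mul_single_of_ne _ _ _ _ hij.symm, add_zero, smul_zero, smul_add]
  match_scalars <;> field_simp <;> ring

theorem exReal_conn [Nontrivial ι] : ConnectedSpace (SpecialLinearGroup ι ℝ) := by
  have ht : ∀ (i j : ι) (hij : i ≠ j) (a : ℝ), SpecialLinearGroup.transvection hij a ∈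
      Subgroup.connectedComponentOfOne (SpecialLinearGroup ι ℝ) := by
    intro i j hij a
    have hc : Continuous fun s : ℝ => SpecialLinearGroup.transvection hij s := by
      refine continuous_induced_rng.2 ?_
      change Continuous fun s : ℝ => (1 : Matrix ι ι ℝ) + single i j s
      refine continuous_const.add (continuous_matrix fun k l => ?_)
      simp only [single_apply]
      split_ifs <;> fun_prop
    exact (isPreconnected_range hc).subset_connectedComponent
      ⟨0, transvection_coeff_zero hij⟩ ⟨a, rfl⟩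
  have hall : ∀ g : SpecialLinearGroup ι ℝ,
      g ∈ Subgroup.connectedComponentOfOne (SpecialLinearGroup ι ℝ) := fun g => by
    refine diagonal_transvection_induction' _ g (fun i j hij c hc => ?_) ht
      fun _ _ => Subgroup.mul_mem _
    rw [exReal_diag]
    exact mul_mem (mul_mem (mul_mem (mul_mem (mul_mem (ht ..) (ht ..)) (ht ..)) (ht ..)) (ht ..))
      (ht ..)
  rw [connectedSpace_iff_connectedComponent]
  exact ⟨1, Set.eq_univ_of_forall hall⟩

end Conn

open Matrix.SpecialLinearGroup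

theorem exReal_mem {m : ℕ} {g : GL (Fin m) ℝ} :
    g ∈ (toGL : SL(m, ℝ) →* GL (Fin m) ℝ).range ↔ (g : Matrix (Fin m) (Fin m) ℝ).det = 1 :=
  ⟨fun ⟨y, hy⟩ => by simp [← hy], fun hx => ⟨⟨g, hx⟩, Units.ext rfl⟩⟩

theorem exReal_lie {m : ℕ} {X : Matrix (Fin m) (Fin m) ℝ} :
    X ∈ H8W.lieAlg (toGL : SL(m, ℝ) →* GL (Fin m) ℝ).range ↔ X.trace = 0 := by
  constructor
  · intro h
    have h1 : (fun t : ℝ => (exp (t • X)).det) = fun _ => 1 := funext fun t => by
      obtain ⟨g, hg, e⟩ := h t
      rw [← e]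
      exact exReal_mem.1 hg
    have h2 := exReal_deriv_zero X
    rw [h1] at h2
    exact h2.unique (hasDerivAt_const _ _)
  · intro h t
    exact ⟨toGL ⟨_, exReal_det_one h t⟩, ⟨_, rfl⟩, rfl⟩

theorem exReal_ncs (n : ℕ) :
    H8W.IsNoncompactSimple (toGL : SL(n + 2, ℝ) →* GL (Fin (n + 2)) ℝ).range := by
  have h01 : (0 : Fin (n + 2)) ≠ 1 := zero_ne_one
  refine ⟨isClosedEmbedding_toGL.isClosed_range, ?_, ?_, ?_, ?_, ?_⟩
  · have := exReal_conn (ι := Fin (n + 2))
    exact isConnected_range continuous_toGL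
  · intro hc
    have hf : Continuous fun g : GL (Fin (n + 2)) ℝ =>
        (g : Matrix (Fin (n + 2)) (Fin (n + 2)) ℝ) 0 1 := by fun_prop
    refine noncompact_univ ℝ ?_
    refine (hc.image hf).of_isClosed_subset isClosed_univ fun a _ => ?_
    refine ⟨toGL (SpecialLinearGroup.transvection h01 a), ⟨_, rfl⟩, ?_⟩
    simp [transvection_coe]
  · intro g hg
    exact ⟨toGL ⟨(g : Matrix (Fin (n + 2)) (Fin (n + 2)) ℝ)ᵀ, by
      rw [det_transpose]; exact exReal_mem.1 hg⟩, ⟨_, rfl⟩, rfl⟩
  · refine ⟨single 0 1 1, exReal_lie.2 (trace_single_eq_of_ne _ _ _ h01), single 1 0 1,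
      exReal_lie.2 (trace_single_eq_of_ne _ _ _ h01.symm), fun h => ?_⟩
    have := congrFun (congrFun h 0) 0
    simp at this
  · intro I hI1 hI2
    by_cases h : I = ⊥
    · exact .inl h
    · obtain ⟨Y, hY, h0⟩ := (Submodule.ne_bot_iff I).1 h
      refine .inr (hI1.antisymm fun X hX => ?_)
      exact exReal_simple (fun X hX => hI2 X (exReal_lie.2 hX)) hY h0 (exReal_lie.1 (hI1 hY))
        (exReal_lie.1 hX)

theorem sl_isReal (n : ℕ) : IsReal SL(n + 2, ℝ) := by
  refine ⟨⊤, inferInstance, inferInstance, isOpen_univ, ?_, n + 2, _, exReal_ncs n, ⟨?_⟩⟩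
  · rw [Subgroup.coe_top, Subgroup.centralizer_univ]
  · let e := (Subgroup.topEquiv (G := SL(n + 2, ℝ))).trans
      (MonoidHom.ofInjective (f := (toGL : SL(n + 2, ℝ) →* GL (Fin (n + 2)) ℝ)) toGL_injective)
    refine ⟨e, ?_, ?_⟩
    · exact (continuous_toGL.comp continuous_subtype_val).subtype_mk _
    · refine (isInducing_toGL.comp Topology.IsInducing.subtypeVal).continuous_iff.2 ?_
      refine continuous_subtype_val.congr fun q => ?_
      exact (congrArg Subtype.val (e.apply_symm_apply q)).symm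

end Pool.Agent.Lib.MP_60cbcc_al.H3Z
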