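import Pool.Agent.Lib.MP_60cbcc_al.H3ZDefs2

/-!
Property (T) of `SL(n, k)`, `n ≥ 3`, over a non-archimedean local field.
-/

namespace Pool.Agent.Lib.MP_60cbcc_al.H3Z

open scoped MatrixGroups

open Filter Topology

section ExtHilbert

variable {V : Type} {H : Type} [NormedAddCommGroup H] [InnerProductSpace ℂ H]

/-- The vectors fixed by all the unitaries with parameter in `W`. -/
def extFix (ρ : V → H ≃ₗᵢ[ℂ] H) (W : Set V) : Submodule ℂ H where
  carrier := {ξ | ∀ w ∈ W, ρ w ξ = ξ}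
  add_mem' := fun {a b} ha hb w hw => by rw [map_add, ha w hw, hb w hw]
  zero_mem' := fun w _ => map_zero _
  smul_mem' := fun c a ha w hw => by rw [map_smul, ha w hw]

theorem extFix_mem {ρ : V → H ≃ₗᵢ[ℂ] H} {W : Set V} {ξ : H} :
    ξ ∈ extFix ρ W ↔ ∀ w ∈ W, ρ w ξ = ξ := Iff.rfl

theorem extFix_closed (ρ : V → H ≃ₗᵢ[ℂ] H) (W : Set V) : IsClosed (extFix ρ W : Set H) := by
  have : (extFix ρ W : Set H) = ⋂ w ∈ W, {ξ | ρ w ξ = ξ} := by
    ext ξ
    simp [extFix]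
  rw [this]
  exact isClosed_biInter fun w _ => isClosed_eq (ρ w).continuous continuous_id

theorem extFix_anti (ρ : V → H ≃ₗᵢ[ℂ] H) {W W' : Set V} (h : W ⊆ W') :
    extFix ρ W' ≤ extFix ρ W := fun _ hξ w hw => hξ w (h hw)

variable [CompleteSpace H]

instance extFix_proj (ρ : V → H ≃ₗᵢ[ℂ] H) (W : Set V) : (extFix ρ W).HasOrthogonalProjection :=
  haveI : CompleteSpace (extFix ρ W) := (extFix_closed ρ W).completeSpace_coe
  inferInstance

/-- The orthogonal projection on the fixed vectors. -/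
noncomputable def extP (ρ : V → H ≃ₗᵢ[ℂ] H) (W : Set V) : H →L[ℂ] H := (extFix ρ W).starProjection

theorem extP_mem (ρ : V → H ≃ₗᵢ[ℂ] H) (W : Set V) (ξ : H) : extP ρ W ξ ∈ extFix ρ W :=
  Submodule.starProjection_apply_mem _ _

theorem extP_orth (ρ : V → H ≃ₗᵢ[ℂ] H) (W : Set V) (ξ : H) {η : H} (h : η ∈ extFix ρ W) :
    inner ℂ (ξ - extP ρ W ξ) η = 0 :=
  Submodule.starProjection_inner_eq_zero _ _ h

theorem extP_conj (ρ : V → H ≃ₗᵢ[ℂ] H) (U : H ≃ₗᵢ[ℂ] H) (φ : V → V)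
    (hU : ∀ v ξ, U (ρ v ξ) = ρ (φ v) (U ξ)) {W W' : Set V} (h1 : ∀ v ∈ W, φ v ∈ W')
    (h2 : ∀ w ∈ W', ∃ v ∈ W, φ v = w) (ξ : H) : extP ρ W' (U ξ) = U (extP ρ W ξ) := by
  refine Submodule.eq_starProjection_of_mem_of_inner_eq_zero (fun w hw => ?_) fun η hη => ?_
  · obtain ⟨v, hv, rfl⟩ := h2 w hw
    rw [← hU, extP_mem ρ W ξ v hv]
  · have : U.symm η ∈ extFix ρ W := fun v hv => by
      apply U.injective
      rw [hU, U.apply_symm_apply, hη _ (h1 v hv)]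
    have h := extP_orth ρ W ξ this
    rw [← U.inner_map_map, U.apply_symm_apply, map_sub] at h
    exact h

/-- The squared norm of the projection. -/
noncomputable def extF (ρ : V → H ≃ₗᵢ[ℂ] H) (W : Set V) (ξ : H) : ℝ := ‖extP ρ W ξ‖ ^ 2

theorem extF_nonneg (ρ : V → H ≃ₗᵢ[ℂ] H) (W : Set V) (ξ : H) : 0 ≤ extF ρ W ξ := sq_nonneg _

theorem extF_le (ρ : V → H ≃ₗᵢ[ℂ] H) (W : Set V) (ξ : H) : extF ρ W ξ ≤ ‖ξ‖ ^ 2 :=
  pow_le_pow_left₀ (norm_nonneg _) (Submodule.norm_starProjection_apply_le _ _) 2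

theorem extF_conj (ρ : V → H ≃ₗᵢ[ℂ] H) (U : H ≃ₗᵢ[ℂ] H) (φ : V → V)
    (hU : ∀ v ξ, U (ρ v ξ) = ρ (φ v) (U ξ)) (ξ : H) {W W' : Set V} (h1 : ∀ v ∈ W, φ v ∈ W')
    (h2 : ∀ w ∈ W', ∃ v ∈ W, φ v = w) : extF ρ W' (U ξ) = extF ρ W ξ := by
  rw [extF, extP_conj ρ U φ hU h1 h2, U.norm_map, extF]

theorem extGram (ρ : V → H ≃ₗᵢ[ℂ] H) (hc : ∀ v w ξ, ρ v (ρ w ξ) = ρ w (ρ v ξ))
    {W₁ W₂ W₃ : Set V}
    (hJ : ∀ ξ, ξ ∈ extFix ρ W₃ ↔ ξ ∈ extFix ρ W₁ ∧ ξ ∈ extFix ρ W₂) (ζ : H) :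
    inner ℂ (extP ρ W₁ ζ) (extP ρ W₂ ζ) = (extF ρ W₃ ζ : ℂ) := by
  have h1 : extP ρ W₂ (extP ρ W₁ ζ) ∈ extFix ρ W₃ := by
    refine (hJ _).2 ⟨fun w hw => ?_, extP_mem _ _ _⟩
    rw [← extP_conj ρ (ρ w) id (fun v ξ => hc w v ξ) (W := W₂) (W' := W₂) (fun _ h => h)
      (fun v h => ⟨v, h, rfl⟩), extP_mem ρ W₁ ζ w hw]
  have h2 : extP ρ W₃ ζ = extP ρ W₂ (extP ρ W₁ ζ) := by
    refine Submodule.eq_starProjection_of_mem_of_inner_eq_zero h1 fun η hη => ?_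
    have a := extP_orth ρ W₁ ζ ((hJ η).1 hη).1
    have b := extP_orth ρ W₂ (extP ρ W₁ ζ) ((hJ η).1 hη).2
    rw [inner_sub_left] at a b ⊢
    linear_combination a + b
  have h3 : inner ℂ (extP ρ W₁ ζ) (extP ρ W₂ ζ) = inner ℂ (extP ρ W₃ ζ) ζ := by
    rw [h2]
    exact (Submodule.inner_starProjection_left_eq_right (extFix ρ W₂) _ _).symm
  have h4 := extP_orth ρ W₃ ζ (extP_mem ρ W₃ ζ)
  rw [inner_eq_zero_symm, inner_sub_right, inner_self_eq_norm_sq_to_K] at h4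
  rw [h3, extF]
  push_cast
  linear_combination h4

theorem extGram_sub (ρ : V → H ≃ₗᵢ[ℂ] H) (hc : ∀ v w ξ, ρ v (ρ w ξ) = ρ w (ρ v ξ))
    {W W' : Set V} (h : W ⊆ W') (ζ : H) :
    inner ℂ (extP ρ W ζ) (extP ρ W' ζ) = (extF ρ W' ζ : ℂ) ∧
      inner ℂ (extP ρ W' ζ) (extP ρ W ζ) = (extF ρ W' ζ : ℂ) :=
  ⟨extGram ρ hc (fun _ => ⟨fun a => ⟨extFix_anti ρ h a, a⟩, fun a => a.2⟩) ζ,
    extGram ρ hc (fun _ => ⟨fun a => ⟨a, extFix_anti ρ h a⟩, fun a => a.1⟩) ζ⟩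

theorem extF_sub (ρ : V → H ≃ₗᵢ[ℂ] H) (hc : ∀ v w ξ, ρ v (ρ w ξ) = ρ w (ρ v ξ))
    {W W' : Set V} (h : W ⊆ W') (ζ : H) :
    extF ρ W ζ - extF ρ W' ζ = ‖extP ρ W ζ - extP ρ W' ζ‖ ^ 2 := by
  have a := extGram_sub ρ hc h ζ
  have b := (extGram_sub ρ hc (subset_refl W) ζ).1
  have c := (extGram_sub ρ hc (subset_refl W') ζ).1
  have e : ((‖extP ρ W ζ - extP ρ W' ζ‖ ^ 2 : ℝ) : ℂ) = (extF ρ W ζ - extF ρ W' ζ : ℝ) := by
    have := inner_self_eq_norm_sq_to_K (𝕜 := ℂ) (extP ρ W ζ - extP ρ W' ζ)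
    simp only [inner_sub_left, inner_sub_right, a.1, a.2, b, c] at this
    push_cast
    linear_combination -this
  exact (Complex.ofReal_injective e).symm

theorem extF_pert (ρ : V → H ≃ₗᵢ[ℂ] H) (hc : ∀ v w ξ, ρ v (ρ w ξ) = ρ w (ρ v ξ))
    {W W' : Set V} (h : W ⊆ W') (ξ η : H) :
    extF ρ W ξ - extF ρ W' ξ ≤ 11 / 10 * (extF ρ W η - extF ρ W' η) +
      11 * (extF ρ W (ξ - η) - extF ρ W' (ξ - η)) := by
  rw [extF_sub ρ hc h, extF_sub ρ hc h, extF_sub ρ hc h]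
  have e : extP ρ W ξ - extP ρ W' ξ =
      (extP ρ W η - extP ρ W' η) + (extP ρ W (ξ - η) - extP ρ W' (ξ - η)) := by
    simp only [map_sub]
    abel
  rw [e]
  have t := norm_add_le (extP ρ W η - extP ρ W' η) (extP ρ W (ξ - η) - extP ρ W' (ξ - η))
  have t2 := pow_le_pow_left₀ (norm_nonneg _) t 2
  nlinarith [sq_nonneg (‖extP ρ W η - extP ρ W' η‖ - 10 * ‖extP ρ W (ξ - η) - extP ρ W' (ξ - η)‖)]

theorem extBessel (ρ : V → H ≃ₗᵢ[ℂ] H) (hc : ∀ v w ξ, ρ v (ρ w ξ) = ρ w (ρ v ξ)) (ζ : H)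
    {W X Y Z W' : Set V} (hX : W ⊆ X) (hY : W ⊆ Y) (hZ : W ⊆ Z) (hX' : X ⊆ W') (hY' : Y ⊆ W')
    (hZ' : Z ⊆ W') (hXY : ∀ ξ, ξ ∈ extFix ρ X → ξ ∈ extFix ρ Y → ξ ∈ extFix ρ W')
    (hXZ : ∀ ξ, ξ ∈ extFix ρ X → ξ ∈ extFix ρ Z → ξ ∈ extFix ρ W')
    (hYZ : ∀ ξ, ξ ∈ extFix ρ Y → ξ ∈ extFix ρ Z → ξ ∈ extFix ρ W') :
    (extF ρ X ζ - extF ρ W' ζ) + (extF ρ Y ζ - extF ρ W' ζ) + (extF ρ Z ζ - extF ρ W' ζ) ≤
      extF ρ W ζ - extF ρ W' ζ := by
  have j : ∀ {A B : Set V}, A ⊆ W' → B ⊆ W' →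
      (∀ ξ, ξ ∈ extFix ρ A → ξ ∈ extFix ρ B → ξ ∈ extFix ρ W') →
      inner ℂ (extP ρ A ζ) (extP ρ B ζ) = (extF ρ W' ζ : ℂ) ∧
        inner ℂ (extP ρ B ζ) (extP ρ A ζ) = (extF ρ W' ζ : ℂ) := fun hA hB h =>
    ⟨extGram ρ hc (fun ξ => ⟨fun a => ⟨extFix_anti ρ hA a, extFix_anti ρ hB a⟩,
      fun a => h ξ a.1 a.2⟩) ζ,
    extGram ρ hc (fun ξ => ⟨fun a => ⟨extFix_anti ρ hB a, extFix_anti ρ hA a⟩,
      fun a => h ξ a.2 a.1⟩) ζ⟩
  have xy := j hX' hY' hXY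
  have xz := j hX' hZ' hXZ
  have yz := j hY' hZ' hYZ
  have wx := extGram_sub ρ hc hX ζ
  have wy := extGram_sub ρ hc hY ζ
  have wz := extGram_sub ρ hc hZ ζ
  have xw := extGram_sub ρ hc hX' ζ
  have yw := extGram_sub ρ hc hY' ζ
  have zw := extGram_sub ρ hc hZ' ζ
  have ww := extGram_sub ρ hc (hX.trans hX') ζ
  have s0 := (extGram_sub ρ hc (subset_refl W) ζ).1
  have s1 := (extGram_sub ρ hc (subset_refl X) ζ).1
  have s2 := (extGram_sub ρ hc (subset_refl Y) ζ).1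
  have s3 := (extGram_sub ρ hc (subset_refl Z) ζ).1
  have s4 := (extGram_sub ρ hc (subset_refl W') ζ).1
  have e : ((‖extP ρ W ζ - extP ρ X ζ - extP ρ Y ζ - extP ρ Z ζ + extP ρ W' ζ + extP ρ W' ζ‖ ^ 2
      : ℝ) : ℂ) = (extF ρ W ζ - extF ρ X ζ - extF ρ Y ζ - extF ρ Z ζ + 2 * extF ρ W' ζ : ℝ) := by
    have := inner_self_eq_norm_sq_to_K (𝕜 := ℂ)
      (extP ρ W ζ - extP ρ X ζ - extP ρ Y ζ - extP ρ Z ζ + extP ρ W' ζ + extP ρ W' ζ)
    simp only [inner_sub_left, inner_sub_right, inner_add_left, inner_add_right, xy.1, xy.2, xz.1,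
      xz.2, yz.1, yz.2, wx.1, wx.2, wy.1, wy.2, wz.1, wz.2, xw.1, xw.2, yw.1, yw.2, zw.1, zw.2,
      ww.1, ww.2, s0, s1, s2, s3, s4] at this
    push_cast
    linear_combination -this
  have e2 := Complex.ofReal_injective e
  nlinarith [sq_nonneg
    ‖extP ρ W ζ - extP ρ X ζ - extP ρ Y ζ - extP ρ Z ζ + extP ρ W' ζ + extP ρ W' ζ‖]

theorem extF_tendsto (ρ : V → H ≃ₗᵢ[ℂ] H) (W : ℕ → Set V) (hW : Monotone W)
    (h0 : ∀ ξ, (∀ n, ξ ∈ extFix ρ (W n)) → ξ = 0) (ξ : H) :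
    Tendsto (fun n => extF ρ (W n) ξ) atTop (𝓝 0) := by
  have hm : Monotone fun n => (extFix ρ (W n))ᗮ := fun a b hab =>
    Submodule.orthogonal_le (extFix_anti ρ (hW hab))
  have ht : ⊤ ≤ (⨆ n, (extFix ρ (W n))ᗮ).topologicalClosure := by
    rw [top_le_iff, Submodule.topologicalClosure_eq_top_iff, ← Submodule.iInf_orthogonal,
      eq_bot_iff]
    intro η hη
    simp only [Submodule.orthogonal_orthogonal, Submodule.mem_iInf] at hη
    exact h0 η hη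
  have h := Submodule.starProjection_tendsto_self _ hm ξ ht
  simp only [Submodule.starProjection_orthogonal_val] at h
  have h2 : Tendsto (fun n => extP ρ (W n) ξ) atTop (𝓝 0) := by
    have := (tendsto_const_nhds (x := ξ)).sub h
    simpa [extP] using this
  simpa [extF] using h2.norm.pow 2

theorem extP_near [AddCommGroup V] (ρ : V → H ≃ₗᵢ[ℂ] H)
    (hρ : ∀ v w ξ, ρ (v + w) ξ = ρ v (ρ w ξ)) (W : AddSubgroup V) (ξ : H) {δ : ℝ}
    (h : ∀ w ∈ W, ‖ρ w ξ - ξ‖ ≤ δ) : ‖ξ - extP ρ W ξ‖ ≤ δ := by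
  have h0 : ∀ η, ρ 0 η = η := fun η => (ρ 0).injective (by rw [← hρ, add_zero])
  let : InnerProductSpace ℝ H := InnerProductSpace.complexToReal
  set C : Set H := ⋂ w ∈ W, Metric.closedBall (ρ w ξ) δ with hC
  have hCm : ∀ ζ, ζ ∈ C ↔ ∀ w ∈ W, ‖ζ - ρ w ξ‖ ≤ δ := fun ζ => by
    simp [hC, dist_eq_norm]
  have hne : C.Nonempty := ⟨ξ, (hCm _).2 fun w hw => by rw [norm_sub_rev]; exact h w hw⟩
  have hcl : IsClosed C := isClosed_biInter fun w _ => Metric.isClosed_closedBall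
  have hcv : Convex ℝ C := convex_iInter₂ fun w _ => convex_closedBall _ _
  obtain ⟨ζ, hζ, hmin⟩ := exists_norm_eq_iInf_of_complete_convex hne hcl.isComplete hcv 0
  have hle : ∀ y ∈ C, ‖ζ‖ ≤ ‖y‖ := fun y hy => by
    have : (⨅ w : C, ‖(0 : H) - w‖) ≤ ‖(0 : H) - (⟨y, hy⟩ : C)‖ :=
      ciInf_le ⟨0, Set.forall_mem_range.2 fun _ => norm_nonneg _⟩ _
    rw [← hmin] at this
    simpa using this
  have hfix : ζ ∈ extFix ρ W := fun w hw => by
    have h1 : ρ w ζ ∈ C := (hCm _).2 fun v hv => by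
      have : ρ v ξ = ρ w (ρ (v - w) ξ) := by rw [← hρ, add_sub_cancel]
      rw [this, ← map_sub, (ρ w).norm_map]
      exact (hCm _).1 hζ _ (W.sub_mem hv hw)
    have h2 := hle _ (hcv h1 hζ (a := 1 / 2) (b := 1 / 2) (by norm_num) (by norm_num) (by norm_num))
    rw [← smul_add, norm_smul] at h2
    have h3 := parallelogram_law_with_norm ℂ (ρ w ζ) ζ
    rw [(ρ w).norm_map] at h3
    have h4 : 2 * ‖ζ‖ ≤ ‖ρ w ζ + ζ‖ := by
      rw [Real.norm_of_nonneg (by norm_num)] at h2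
      linarith
    have h5 := pow_le_pow_left₀ (by positivity) h4 2
    have h6 : ‖ρ w ζ - ζ‖ = 0 := by
      apply pow_eq_zero_iff (two_ne_zero) |>.1
      nlinarith [sq_nonneg ‖ρ w ζ - ζ‖]
    exact sub_eq_zero.1 (norm_eq_zero.1 h6)
  have h7 : ‖ξ - extP ρ W ξ‖ ≤ ‖ξ - (⟨ζ, hfix⟩ : extFix ρ W)‖ := by
    rw [extP, Submodule.starProjection_minimal]
    exact ciInf_le ⟨0, Set.forall_mem_range.2 fun _ => norm_nonneg _⟩ _
  refine h7.trans ?_
  have := (hCm _).1 hζ 0 W.zero_mem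
  rwa [h0, norm_sub_rev] at this

end ExtHilbert

section ExtPlane

variable {k : Type} [NontriviallyNormedField k] [IsUltrametricDist k]

/-- A box in the plane. -/
def extBox (k : Type) [NontriviallyNormedField k] (a b : ℝ) : Set (k × k) :=
  {v | ‖v.1‖ ≤ a ∧ ‖v.2‖ ≤ b}

/-- A neighbourhood of the diagonal in a box. -/
def extDia (k : Type) [NontriviallyNormedField k] (a b : ℝ) : Set (k × k) :=
  {v | ‖v.1 - v.2‖ ≤ a ∧ ‖v.1‖ ≤ b ∧ ‖v.2‖ ≤ b}

theorem ext_add_le {x y : k} {a : ℝ} (hx : ‖x‖ ≤ a) (hy : ‖y‖ ≤ a) : ‖x + y‖ ≤ a :=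
  (IsUltrametricDist.norm_add_le_max x y).trans (max_le hx hy)

theorem ext_sub_le {x y : k} {a : ℝ} (hx : ‖x‖ ≤ a) (hy : ‖y‖ ≤ a) : ‖x - y‖ ≤ a := by
  rw [sub_eq_add_neg]
  exact ext_add_le hx (by rwa [norm_neg])

omit [IsUltrametricDist k] in
theorem extBox_mono {a b a' b' : ℝ} (ha : a ≤ a') (hb : b ≤ b') : extBox k a b ⊆ extBox k a' b' :=
  fun _ h => ⟨h.1.trans ha, h.2.trans hb⟩

/-- A square box as a subgroup. -/
def extSq (k : Type) [NontriviallyNormedField k] [IsUltrametricDist k] {a : ℝ} (ha : 0 ≤ a) :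
    AddSubgroup (k × k) where
  carrier := extBox k a a
  add_mem' := fun h h' => ⟨ext_add_le h.1 h'.1, ext_add_le h.2 h'.2⟩
  zero_mem' := ⟨by simpa using ha, by simpa using ha⟩
  neg_mem' := fun h => ⟨by simpa using h.1, by simpa using h.2⟩

variable {H : Type} [NormedAddCommGroup H] [InnerProductSpace ℂ H] [CompleteSpace H]

theorem extLevel (ρ : k × k → H ≃ₗᵢ[ℂ] H) (hρ : ∀ v w ξ, ρ (v + w) ξ = ρ v (ρ w ξ)) {a b : ℝ}
    (ha : 0 ≤ a) (hab : a ≤ b) (ζ : H) :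
    (extF ρ (extBox k a b) ζ - extF ρ (extBox k b b) ζ) +
      (extF ρ (extBox k b a) ζ - extF ρ (extBox k b b) ζ) +
      (extF ρ (extDia k a b) ζ - extF ρ (extBox k b b) ζ) ≤
      extF ρ (extBox k a a) ζ - extF ρ (extBox k b b) ζ := by
  have hc : ∀ v w ξ, ρ v (ρ w ξ) = ρ w (ρ v ξ) := fun v w ξ => by rw [← hρ, ← hρ, add_comm]
  have z : ‖(0 : k)‖ ≤ a := by simpa using ha
  refine extBessel ρ hc ζ (extBox_mono le_rfl hab) (extBox_mono hab le_rfl)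
    (fun v h => ⟨ext_sub_le h.1 h.2, h.1.trans hab, h.2.trans hab⟩) (extBox_mono hab le_rfl)
    (extBox_mono le_rfl hab) (fun v h => h.2) ?_ ?_ ?_
  · intro ξ h1 h2 w hw
    have e : w = (0, w.2) + (w.1, 0) := by simp
    rw [e, hρ, h2 (w.1, 0) ⟨hw.1, z⟩, h1 (0, w.2) ⟨z, hw.2⟩]
  · intro ξ h1 h2 w hw
    have e : w = (0, w.2 - w.1) + (w.1, w.1) := by simp
    rw [e, hρ, h2 (w.1, w.1) ⟨by simpa using ha, hw.1, hw.1⟩,
      h1 (0, w.2 - w.1) ⟨z, ext_sub_le hw.2 hw.1⟩]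
  · intro ξ h1 h2 w hw
    have e : w = (w.1 - w.2, 0) + (w.2, w.2) := by simp
    rw [e, hρ, h2 (w.2, w.2) ⟨by simpa using ha, hw.2, hw.2⟩,
      h1 (w.1 - w.2, 0) ⟨ext_sub_le hw.1 hw.2, z⟩]

theorem extStep (ρ : k × k → H ≃ₗᵢ[ℂ] H) (U U' D : H ≃ₗᵢ[ℂ] H) {τ : k} (hτ : 1 ≤ ‖τ‖)
    (hU : ∀ v ξ, U (ρ v ξ) = ρ (v.1 + v.2, v.2) (U ξ))
    (hU' : ∀ v ξ, U' (ρ v ξ) = ρ (v.1, v.1 + v.2) (U' ξ))
    (hD : ∀ v ξ, D (ρ v ξ) = ρ (v.1, τ * v.2) (D ξ)) {a b : ℝ} (ha : 0 ≤ a) (hb : b = a * ‖τ‖)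
    (ξ : H) :
    extF ρ (extDia k a b) (U ξ) = extF ρ (extBox k a b) ξ ∧
    extF ρ (extBox k b b) (U ξ) = extF ρ (extBox k b b) ξ ∧
    extF ρ (extDia k a b) (U' ξ) = extF ρ (extBox k b a) ξ ∧
    extF ρ (extBox k b b) (U' ξ) = extF ρ (extBox k b b) ξ ∧
    extF ρ (extBox k a b) (D ξ) = extF ρ (extBox k a a) ξ ∧
    extF ρ (extBox k b b) (D ξ) = extF ρ (extBox k b a) ξ := by
  have hab : a ≤ b := hb ▸ le_mul_of_one_le_right ha hτ
  have hτ0 : 0 < ‖τ‖ := one_pos.trans_le hτ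
  have hτ1 : τ ≠ 0 := norm_pos_iff.1 hτ0
  have d : ∀ c, extF ρ (extBox k c b) (D ξ) = extF ρ (extBox k c a) ξ := fun c =>
    extF_conj ρ D _ hD ξ
      (fun v h => ⟨h.1, by
        rw [norm_mul, hb, mul_comm]
        exact mul_le_mul_of_nonneg_right h.2 hτ0.le⟩)
      (fun w h => ⟨(w.1, w.2 / τ), ⟨h.1, by
        rw [norm_div, div_le_iff₀ hτ0, ← hb]
        exact h.2⟩, by simp [mul_div_cancel₀ _ hτ1]⟩)
  refine ⟨extF_conj ρ U _ hU ξ
      (fun v h => ⟨by simpa using h.1, ext_add_le (h.1.trans hab) h.2, h.2⟩)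
      (fun w h => ⟨(w.1 - w.2, w.2), ⟨h.1, h.2.2⟩, by simp⟩),
    extF_conj ρ U _ hU ξ (fun v h => ⟨ext_add_le h.1 h.2, h.2⟩)
      (fun w h => ⟨(w.1 - w.2, w.2), ⟨ext_sub_le h.1 h.2, h.2⟩, by simp⟩),
    extF_conj ρ U' _ hU' ξ
      (fun v h => ⟨by simpa using h.2, h.1, ext_add_le h.1 (h.2.trans hab)⟩)
      (fun w h => ⟨(w.1, w.2 - w.1), ⟨h.2.1, by rw [norm_sub_rev]; exact h.1⟩, by simp⟩),
    extF_conj ρ U' _ hU' ξ (fun v h => ⟨h.1, ext_add_le h.1 h.2⟩)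
      (fun w h => ⟨(w.1, w.2 - w.1), ⟨h.1, ext_sub_le h.2 h.1⟩, by simp⟩), d a, d b⟩

theorem extRel (ρ : k × k → H ≃ₗᵢ[ℂ] H) (hρ : ∀ v w ξ, ρ (v + w) ξ = ρ v (ρ w ξ))
    (U U' D : H ≃ₗᵢ[ℂ] H) {τ : k} (hτ : 1 < ‖τ‖)
    (hU : ∀ v ξ, U (ρ v ξ) = ρ (v.1 + v.2, v.2) (U ξ))
    (hU' : ∀ v ξ, U' (ρ v ξ) = ρ (v.1, v.1 + v.2) (U' ξ))
    (hD : ∀ v ξ, D (ρ v ξ) = ρ (v.1, τ * v.2) (D ξ)) (ξ : H) (hξ : ‖ξ‖ = 1)
    (hcont : Continuous fun v => ρ v ξ) (e1 : ‖U ξ - ξ‖ < 1 / 20) (e2 : ‖U' ξ - ξ‖ < 1 / 20)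
    (e3 : ‖D ξ - ξ‖ < 1 / 20) : ∃ η, η ≠ 0 ∧ ∀ v, ρ v η = η := by
  by_contra hno
  push Not at hno
  have hc : ∀ v w ξ, ρ v (ρ w ξ) = ρ w (ρ v ξ) := fun v w ξ => by rw [← hρ, ← hρ, add_comm]
  have h0 : ∀ η, ρ 0 η = η := fun η => (ρ 0).injective (by rw [← hρ, add_zero])
  obtain ⟨c, hc0, hcs⟩ : ∃ c : ℝ, 0 < c ∧ ∀ w ∈ extBox k c c, ‖ρ w ξ - ξ‖ ≤ 1 / 50 := by
    obtain ⟨c, hc0, h⟩ := Metric.continuousAt_iff.1 (hcont.continuousAt (x := 0)) (1 / 50)
      (by norm_num)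
    refine ⟨c / 2, by positivity, fun w hw => ?_⟩
    have := h (x := w) (by
      rw [dist_zero_right, Prod.norm_def]
      exact (max_le hw.1 hw.2).trans_lt (by linarith))
    rw [h0, dist_eq_norm] at this
    exact this.le
  set r : ℕ → ℝ := fun n => c * ‖τ‖ ^ n with hr
  have r0 : ∀ n, 0 ≤ r n := fun n => by positivity
  have rs : ∀ n, r (n + 1) = r n * ‖τ‖ := fun n => by simp only [hr]; ring
  have rle : ∀ n, r n ≤ r (n + 1) := fun n => rs n ▸ le_mul_of_one_le_right (r0 n) hτ.le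
  have hlow : 24 / 25 ≤ extF ρ (extBox k (r 0) (r 0)) ξ := by
    have h1 : ‖ξ - extP ρ (extBox k c c) ξ‖ ≤ 1 / 50 := extP_near ρ hρ (extSq k hc0.le) ξ hcs
    have h2 := norm_sub_norm_le ξ (extP ρ (extBox k c c) ξ)
    have h3 : 49 / 50 ≤ ‖extP ρ (extBox k c c) ξ‖ := by linarith
    have h4 := pow_le_pow_left₀ (by norm_num) h3 2
    simp only [hr, pow_zero, mul_one, extF]
    linarith
  obtain ⟨N, hN⟩ : ∃ N, extF ρ (extBox k (r N) (r N)) ξ < 1 / 25 := by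
    have := extF_tendsto ρ (fun n => extBox k (r n) (r n))
      (monotone_nat_of_le_succ fun n => extBox_mono (rle n) (rle n)) (fun η hη => by
        by_contra hne
        obtain ⟨v, hv⟩ := hno η hne
        have ht : Tendsto r atTop atTop :=
          (tendsto_pow_atTop_atTop_of_one_lt hτ).const_mul_atTop hc0
        obtain ⟨n, hn⟩ := (ht.eventually_ge_atTop ‖v‖).exists
        exact hv (hη n v ⟨(norm_fst_le v).trans hn, (norm_snd_le v).trans hn⟩)) ξ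
    exact (this.eventually (gt_mem_nhds (by norm_num))).exists
  set qa : H → ℝ := fun ζ => ∑ n ∈ Finset.range N,
    (extF ρ (extBox k (r n) (r (n + 1))) ζ - extF ρ (extBox k (r (n + 1)) (r (n + 1))) ζ) with hqa
  set qb : H → ℝ := fun ζ => ∑ n ∈ Finset.range N,
    (extF ρ (extBox k (r (n + 1)) (r n)) ζ - extF ρ (extBox k (r (n + 1)) (r (n + 1))) ζ) with hqb
  set qz : H → ℝ := fun ζ => ∑ n ∈ Finset.range N,
    (extF ρ (extDia k (r n) (r (n + 1))) ζ - extF ρ (extBox k (r (n + 1)) (r (n + 1))) ζ) with hqz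
  have hsum : ∀ ζ, qa ζ + qb ζ + qz ζ ≤
      extF ρ (extBox k (r 0) (r 0)) ζ - extF ρ (extBox k (r N) (r N)) ζ := fun ζ => by
    rw [← Finset.sum_range_sub' (fun n => extF ρ (extBox k (r n) (r n)) ζ)]
    simp only [hqa, hqb, hqz, ← Finset.sum_add_distrib]
    exact Finset.sum_le_sum fun n _ => extLevel ρ hρ (r0 n) (rle n) ζ
  have sa : ∀ n, extBox k (r n) (r (n + 1)) ⊆ extBox k (r (n + 1)) (r (n + 1)) := fun n =>
    extBox_mono (rle n) le_rfl
  have sb : ∀ n, extBox k (r (n + 1)) (r n) ⊆ extBox k (r (n + 1)) (r (n + 1)) := fun n =>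
    extBox_mono le_rfl (rle n)
  have sz : ∀ n, extDia k (r n) (r (n + 1)) ⊆ extBox k (r (n + 1)) (r (n + 1)) := fun n _ h => h.2
  have pa : ∀ ζ, 0 ≤ qa ζ := fun ζ => Finset.sum_nonneg fun n _ => by
    rw [extF_sub ρ hc (sa n)]; positivity
  have pb : ∀ ζ, 0 ≤ qb ζ := fun ζ => Finset.sum_nonneg fun n _ => by
    rw [extF_sub ρ hc (sb n)]; positivity
  have pz : ∀ ζ, 0 ≤ qz ζ := fun ζ => Finset.sum_nonneg fun n _ => by
    rw [extF_sub ρ hc (sz n)]; positivity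
  have hb : ∀ ζ, ‖ζ‖ < 1 / 20 → qa ζ ≤ 1 / 400 ∧ qz ζ ≤ 1 / 400 := fun ζ h => by
    have h1 := hsum ζ
    have h2 := extF_le ρ (extBox k (r 0) (r 0)) ζ
    have h3 := extF_nonneg ρ (extBox k (r N) (r N)) ζ
    have h4 := pow_le_pow_left₀ (norm_nonneg _) h.le 2
    have := pa ζ
    have := pb ζ
    have := pz ζ
    constructor <;> linarith
  have ta : ∀ ζ, qa ζ ≤ 11 / 10 * qa ξ + 11 * qa (ζ - ξ) := fun ζ => by
    simp only [hqa, Finset.mul_sum, ← Finset.sum_add_distrib]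
    exact Finset.sum_le_sum fun n _ => extF_pert ρ hc (sa n) ζ ξ
  have tz : ∀ ζ, qz ζ ≤ 11 / 10 * qz ξ + 11 * qz (ζ - ξ) := fun ζ => by
    simp only [hqz, Finset.mul_sum, ← Finset.sum_add_distrib]
    exact Finset.sum_le_sum fun n _ => extF_pert ρ hc (sz n) ζ ξ
  have st := fun n => extStep ρ U U' D hτ.le hU hU' hD (r0 n) (rs n) ξ
  have c1 : qz (U ξ) = qa ξ := Finset.sum_congr rfl fun n _ => by rw [(st n).1, (st n).2.1]
  have c2 : qz (U' ξ) = qb ξ := Finset.sum_congr rfl fun n _ => by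
    rw [(st n).2.2.1, (st n).2.2.2.1]
  have c3 : qa (D ξ) + qb ξ =
      extF ρ (extBox k (r 0) (r 0)) ξ - extF ρ (extBox k (r N) (r N)) ξ := by
    rw [← Finset.sum_range_sub' (fun n => extF ρ (extBox k (r n) (r n)) ξ)]
    simp only [hqa, hqb, ← Finset.sum_add_distrib]
    refine Finset.sum_congr rfl fun n _ => ?_
    rw [(st n).2.2.2.2.1, (st n).2.2.2.2.2]
    ring
  have f1 := tz (U ξ)
  have f2 := tz (U' ξ)
  have f3 := ta (D ξ)
  have g1 := (hb _ e1).2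
  have g2 := (hb _ e2).2
  have g3 := (hb _ e3).1
  have s1 := hsum ξ
  linarith

end ExtPlane

section ExtMatrix

open Matrix Matrix.SpecialLinearGroup

variable {ι : Type} [Fintype ι] [DecidableEq ι] {k : Type}

theorem extT_comm [Field k] {i j l : ι} (hij : i ≠ j) (hjl : j ≠ l) (hil : i ≠ l) (x s : k) :
    transvection hij x * transvection hjl s =
      transvection hil (x * s) * transvection hjl s * transvection hij x :=
  Subtype.ext <| by
    simp [transvection_coe, mul_add, add_mul, single_mul_single_of_ne _ _ _ _ hil.symm,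
      single_mul_single_of_ne _ _ _ _ hjl.symm]
    abel

theorem extT_swap [Field k] {i j p q : ι} (hij : i ≠ j) (hpq : p ≠ q) (h1 : j ≠ p) (h2 : q ≠ i)
    (x y : k) :
    transvection hij x * transvection hpq y = transvection hpq y * transvection hij x :=
  Subtype.ext <| by
    simp [transvection_coe, mul_add, add_mul, single_mul_single_of_ne _ _ _ _ h1,
      single_mul_single_of_ne _ _ _ _ h2]
    abel

theorem extT_diag [Field k] (g : SpecialLinearGroup ι k) (d : ι → k) (hg : g.1 = diagonal d)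
    {p q : ι} (hpq : p ≠ q) {x y : k} (h : d p * x = y * d q) :
    g * transvection hpq x = transvection hpq y * g :=
  Subtype.ext <| by
    have : diagonal d * single p q x = single p q y * diagonal d := by
      ext a b
      simp only [diagonal_mul, mul_diagonal, single_apply]
      split_ifs with hh
      · obtain ⟨rfl, rfl⟩ := hh
        exact h
      · simp
    simp [transvection_coe, mul_add, add_mul, hg, this]

theorem extT_diag2n [Field k] {i j : ι} (hij : i ≠ j) (a : k) (ha : a ≠ 0) :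
    diag2n hij a ha = transvection hij a * transvection hij.symm (-a⁻¹) * transvection hij a *
      transvection hij (-1) * transvection hij.symm 1 * transvection hij (-1) :=
  Subtype.ext <| by
    have e : (diag2n hij a ha).1 = 1 + single i i (a - 1) + single j j (a⁻¹ - 1) := by
      ext p q
      simp only [diag2n_coe, diagonal_apply, Matrix.add_apply, Matrix.one_apply, single_apply]
      split_ifs <;> grind
    rw [e]
    simp [transvection_coe, mul_add, add_mul, single_mul_single_of_ne _ _ _ _ hij,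
      single_mul_single_of_ne _ _ _ _ hij.symm, mul_inv_cancel₀ ha, inv_mul_cancel₀ ha]
    ext p q
    simp only [Matrix.add_apply, Matrix.one_apply, single_apply]
    split_ifs <;> grind

theorem extT_cont [NormedField k] {i j : ι} (hij : i ≠ j) :
    Continuous fun x : k => (transvection hij x : SpecialLinearGroup ι k) := by
  refine Continuous.subtype_mk (continuous_const.add (continuous_matrix fun p q => ?_)) _
  simp only [single_apply]
  split_ifs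
  · exact continuous_id
  · exact continuous_const

variable {H : Type} [NormedAddCommGroup H] [InnerProductSpace ℂ H]

theorem extMove [NontriviallyNormedField k] {G : Type} [Group G] (π : G →* (H ≃ₗᵢ[ℂ] H)) (v : H)
    (g : G) (h : k → G) (hc : Continuous fun s => π (h s) v) (h0 : h 0 = 1)
    (hs : ∀ s, s ≠ 0 → ∃ p q, π p v = v ∧ π q v = v ∧ π p (π (h s) v) = π g (π q (π (h s) v))) :
    π g v = v := by
  have h1 : Tendsto (fun s => 2 * ‖π (h s) v - v‖) (𝓝[≠] 0) (𝓝 0) := by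
    have : Continuous fun s => 2 * ‖π (h s) v - v‖ :=
      continuous_const.mul (hc.sub continuous_const).norm
    have h2 := (this.tendsto 0).mono_left (nhdsWithin_le_nhds (s := {0}ᶜ))
    simpa [h0] using h2
  have h2 : ‖π g v - v‖ ≤ 0 := by
    refine ge_of_tendsto h1 (eventually_nhdsWithin_of_forall fun s hs0 => ?_)
    obtain ⟨p, q, hp, hq, e⟩ := hs s hs0
    have e2 : π g v - v = π p (π (h s) v - v) - π g (π q (π (h s) v - v)) := by
      simp only [map_sub, e, hp, hq]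
      abel
    rw [e2]
    refine (norm_sub_le _ _).trans ?_
    simp only [LinearIsometryEquiv.norm_map]
    linarith
  exact sub_eq_zero.1 (norm_le_zero_iff.1 h2)

theorem extAll [NontriviallyNormedField k] (π : SpecialLinearGroup ι k →* (H ≃ₗᵢ[ℂ] H))
    (hπ : ∀ v, Continuous fun g => π g v) (v : H) (h3 : ∀ a b : ι, ∃ c, c ≠ a ∧ c ≠ b) {a b : ι}
    (hab : a ≠ b) (h : ∀ x, π (transvection hab x) v = v) (g : SpecialLinearGroup ι k) :
    π g v = v := by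
  have ap : ∀ (g g' : SpecialLinearGroup ι k) (w : H), π (g * g') w = π g (π g' w) :=
    fun g g' w => by rw [map_mul]; rfl
  have row : ∀ {a b j : ι} (hab : a ≠ b) (haj : a ≠ j), (∀ x, π (transvection hab x) v = v) →
      ∀ x, π (transvection haj x) v = v := by
    intro a b j hab haj h z
    by_cases hbj : b = j
    · subst hbj
      exact h z
    refine extMove π v _ (fun s : k => transvection hbj s) ((hπ v).comp (extT_cont hbj)) (by simp)
      fun s hs => ⟨transvection hab (z / s), 1, h _, by simp, ?_⟩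
    rw [← ap, extT_comm hab hbj haj, ap, ap, h, div_mul_cancel₀ _ hs]
    simp
  have col : ∀ {a b i : ι} (hab : a ≠ b) (hib : i ≠ b), (∀ x, π (transvection hab x) v = v) →
      ∀ x, π (transvection hib x) v = v := by
    intro a b i hab hib h z
    by_cases hia : i = a
    · subst hia
      exact h z
    refine extMove π v _ (fun s : k => transvection hia s) ((hπ v).comp (extT_cont hia)) (by simp)
      fun s hs => ⟨1, transvection hab (z / s), by simp, h _, ?_⟩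
    have e := congrArg (fun g => π g v) (extT_comm hia hab hib s (z / s))
    simp only [ap, h, mul_div_cancel₀ _ hs] at e
    simpa using e
  have all : ∀ (i j : ι) (hij : i ≠ j) (x : k), π (transvection hij x) v = v := by
    intro i j hij
    by_cases hib : i = b
    · subst hib
      obtain ⟨c, hca, hci⟩ := h3 a i
      exact row hci.symm hij (col hca.symm hci.symm (row hab hca.symm h))
    · exact row hib hij (col hab hib h)
  have : Nontrivial ι := ⟨a, b, hab⟩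
  refine diagonal_transvection_induction' (fun g => π g v = v) g (fun i j hij c hc => ?_) all
    fun A B hA hB => by rw [ap, hB, hA]
  simp only [extT_diag2n, ap, all]

omit [Fintype ι] in
theorem extThree {i j l : ι} (hij : i ≠ j) (hil : i ≠ l) (hjl : j ≠ l) (a b : ι) :
    ∃ c, c ≠ a ∧ c ≠ b := by
  by_cases h1 : i ≠ a ∧ i ≠ b
  · exact ⟨i, h1⟩
  by_cases h2 : j ≠ a ∧ j ≠ b
  · exact ⟨j, h2⟩
  exact ⟨l, by grind⟩

theorem extMain [NontriviallyNormedField k] [IsUltrametricDist k] {i j l : ι} (hij : i ≠ j)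
    (hil : i ≠ l) (hjl : j ≠ l) : HasT (SpecialLinearGroup ι k) := by
  obtain ⟨s, hs1⟩ := NormedField.exists_one_lt_norm k
  have hs : s ≠ 0 := norm_pos_iff.1 (one_pos.trans hs1)
  set d : SpecialLinearGroup ι k := diag2n hij.symm s hs * diag2n hjl s hs with hd
  refine ⟨{transvection hij 1, transvection hij.symm 1, d}, 1 / 20,
    (Set.toFinite _).isCompact, by norm_num, ?_⟩
  rintro H _ _ _ π hπ ⟨ξ, hξ, hQ⟩
  have ap : ∀ (g g' : SpecialLinearGroup ι k) (w : H), π (g * g') w = π g (π g' w) :=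
    fun g g' w => by rw [map_mul]; rfl
  have sw := extT_swap (k := k) hil hjl hjl.symm hil.symm
  have hdd : d.1 = diagonal fun m => (if m = j then s else if m = i then s⁻¹ else 1) *
      (if m = j then s else if m = l then s⁻¹ else 1) := by
    rw [hd, coe_mul, diag2n_coe, diag2n_coe, diagonal_mul_diagonal]
  obtain ⟨η, hη, hfix⟩ := extRel (fun v : k × k => π (transvection hil v.1 * transvection hjl v.2))
    (fun v w ζ => by
      rw [← ap, Prod.fst_add, Prod.snd_add, transvection_add, transvection_add, mul_assoc,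
        mul_assoc, ← mul_assoc (transvection hil w.1), sw, mul_assoc])
    (π (transvection hij 1)) (π (transvection hij.symm 1)) (π d) (τ := s ^ 3)
    (by rw [norm_pow]; exact one_lt_pow₀ hs1 (by norm_num))
    (fun v ζ => by
      rw [← ap, ← ap, ← mul_assoc, extT_swap hij hil hij.symm hil.symm, mul_assoc,
        extT_comm hij hjl hil, transvection_add, one_mul]
      simp only [mul_assoc])
    (fun v ζ => by
      rw [← ap, ← ap, ← mul_assoc, extT_comm hij.symm hil hjl, mul_assoc,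
        extT_swap hij.symm hjl hij hjl.symm, transvection_add, one_mul, ← sw]
      simp only [mul_assoc])
    (fun v ζ => by
      rw [← ap, ← ap, ← mul_assoc, extT_diag d _ hdd hil (y := v.1), mul_assoc,
        extT_diag d _ hdd hjl (y := s ^ 3 * v.2), mul_assoc]
      · simp [hjl.symm, hil.symm]
        field_simp
      · simp [hij, hil, hjl.symm, hil.symm, mul_comm])
    ξ hξ ((hπ ξ).comp (((extT_cont hil).comp continuous_fst).mul
      ((extT_cont hjl).comp continuous_snd)))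
    (hQ _ (by simp)) (hQ _ (by simp)) (hQ _ (by simp))
  exact ⟨η, hη, extAll π hπ η (extThree hij hil hjl) hil fun x => by simpa using hfix (x, 0)⟩

end ExtMatrix

theorem sl_hasT (k : Type) [NontriviallyNormedField k] [IsUltrametricDist k]
    [LocallyCompactSpace k] (n : ℕ) : HasT SL(n + 3, k) := by
  exact extMain (i := ⟨0, by omega⟩) (j := ⟨1, by omega⟩) (l := ⟨2, by omega⟩) (by simp) (by simp)
    (by simp)

end Pool.Agent.Lib.MP_60cbcc_al.H3Z
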