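import Mathlib

/-!
A vector fixed by one root group of `SL(n, k)`, `n ≥ 3`, is fixed by the whole group.
-/

namespace Pool.Agent.Lib.MP_60cbcc_al.H3Z

open Matrix Matrix.SpecialLinearGroup

section alg

variable {k ι : Type} [Field k] [Fintype ι] [DecidableEq ι]

lemma extr_row {i j l : ι} (hij : i ≠ j) (hjl : j ≠ l) (hil : i ≠ l) (x y : k) :
    transvection hij x * transvection hjl y * transvection hij (-x) =
      transvection hjl y * transvection hil (x * y) := Subtype.ext <| by
  simp [transvection_coe, mul_add, add_mul, single_mul_single_of_ne, hij.symm, hil.symm,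
    ← single_neg]
  abel

lemma extr_col {i j l : ι} (hij : i ≠ j) (hli : l ≠ i) (hlj : l ≠ j) (x y : k) :
    transvection hij (-x) * transvection hli y * transvection hij x =
      transvection hli y * transvection hlj (y * x) := Subtype.ext <| by
  simp [transvection_coe, mul_add, add_mul, single_mul_single_of_ne, hij.symm, hli.symm,
    hlj.symm, ← single_neg]
  abel

lemma extr_diag {i j : ι} (hij : i ≠ j) {t : k} (ht : t ≠ 0) :
    diag2n hij t ht = transvection hij.symm (-t⁻¹) * transvection hij (t - 1) *
      transvection hij.symm 1 * transvection hij (t⁻¹ - 1) := Subtype.ext <| by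
  have h : ((diag2n hij t ht : SpecialLinearGroup ι k) : Matrix ι ι k) =
      1 + single i i (t - 1) + single j j (t⁻¹ - 1) := by
    ext a b
    simp only [diag2n_coe, diagonal_apply, Matrix.add_apply, one_apply, single_apply]
    grind
  rw [h]
  simp only [coe_mul, transvection_coe, mul_add, add_mul, one_mul, mul_one,
    single_mul_single_same, single_mul_single_of_ne _ _ _ _ hij,
    single_mul_single_of_ne _ _ _ _ hij.symm, add_zero]
  ext a b
  simp only [Matrix.add_apply, single_apply]
  split_ifs <;> (field_simp; ring)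

/-- The transvections generate the special linear group. -/
lemma extr_gen [Nontrivial ι] (S : Subgroup (SpecialLinearGroup ι k))
    (h : ∀ (i j : ι) (hij : i ≠ j) (x : k), transvection hij x ∈ S) : S = ⊤ := by
  refine (Subgroup.eq_top_iff' S).2 fun g => diagonal_transvection_induction' (· ∈ S) g
    (fun i j hij c hc => ?_) h fun _ _ => S.mul_mem
  rw [extr_diag]
  exact S.mul_mem (S.mul_mem (S.mul_mem (h _ _ _ _) (h _ _ _ _)) (h _ _ _ _)) (h _ _ _ _)

end alg

variable {k ι H : Type} [NontriviallyNormedField k] [Fintype ι] [DecidableEq ι]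
  [NormedAddCommGroup H] [InnerProductSpace ℂ H]

lemma extr_cont {i j : ι} (hij : i ≠ j) :
    Continuous fun x : k => (transvection hij x : SpecialLinearGroup ι k) := by
  refine Continuous.subtype_mk (continuous_const.add (continuous_matrix fun a b => ?_)) _
  simp only [single_apply]
  split_ifs
  exacts [continuous_id, continuous_const]

lemma extr_mautner {G : Type} [Group G] [TopologicalSpace G] [IsTopologicalGroup G]
    (π : G →* (H ≃ₗᵢ[ℂ] H)) (hπ : ∀ v, Continuous fun g => π g v) {w : H} {g : k → G}
    (hg : Continuous g) (h0 : g 0 = 1) {t : G}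
    (h : ∀ y, y ≠ 0 → ∃ s s', π s w = w ∧ π s' w = w ∧ s * g y * s' = g y * t) : π t w = w := by
  have h1 : (fun y => ‖π (g y * t) w - w‖) = fun y => ‖π (g y) w - w‖ := by
    refine Continuous.ext_on (dense_compl_singleton (0 : k))
      ((((hπ w).comp (hg.mul continuous_const)).sub continuous_const).norm)
      ((((hπ w).comp hg).sub continuous_const).norm) fun y hy => ?_
    obtain ⟨s, s', hs, hs', e⟩ := h y hy
    rw [← e, map_mul, map_mul, LinearIsometryEquiv.coe_mul, LinearIsometryEquiv.coe_mul,
      Function.comp_apply, Function.comp_apply, hs', ← (π s).norm_map (π (g y) w - w), map_sub, hs]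
  have h2 := congrFun h1 0
  simpa [h0, sub_eq_zero] using h2

/-- A vector fixed by one root group is fixed by the whole group. -/
theorem extr_fix (h3 : ∀ i j : ι, ∃ l, l ≠ i ∧ l ≠ j)
    (π : SpecialLinearGroup ι k →* (H ≃ₗᵢ[ℂ] H)) (hπ : ∀ v, Continuous fun g => π g v) {w : H}
    {i j : ι} (hij : i ≠ j) (hw : ∀ x, π (transvection hij x) w = w) (g : SpecialLinearGroup ι k) :
    π g w = w := by
  let P : ι → ι → Prop := fun a b => ∀ (hab : a ≠ b) (x : k), π (transvection hab x) w = w
  have R : ∀ a b c, a ≠ b → P a b → P a c := fun a b c hab h hac x => by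
    by_cases hbc : b = c
    · subst hbc
      exact h hac x
    refine extr_mautner π hπ (extr_cont (k := k) hbc) (transvection_coeff_zero _) fun y hy =>
      ⟨_, _, h hab (x / y), h hab (-(x / y)), ?_⟩
    rw [extr_row hab hbc hac, div_mul_cancel₀ _ hy]
  have C : ∀ a b c, a ≠ b → P a b → P c b := fun a b c hab h hcb x => by
    by_cases hca : c = a
    · subst hca
      exact h hcb x
    refine extr_mautner π hπ (extr_cont (k := k) hca) (transvection_coeff_zero _) fun y hy =>
      ⟨_, _, h hab (-(x / y)), h hab (x / y), ?_⟩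
    rw [extr_col hab hca hcb, mul_div_cancel₀ _ hy]
  have h0 : P i j := fun _ => hw
  have hall : ∀ a b, P a b := fun a b => by
    by_cases ha : a = j
    · obtain ⟨l, h1, h2⟩ := h3 i j
      rw [ha]
      exact R j l b h2.symm (C i l j h1.symm (R i j l hij h0))
    · exact R a j b ha (C i j a hij h0)
  have : Nontrivial ι := ⟨i, j, hij⟩
  let S : Subgroup (SpecialLinearGroup ι k) :=
    { carrier := {g | π g w = w}
      mul_mem' := fun {a b} ha hb => by
        simp only [Set.mem_ofPred_eq, map_mul, LinearIsometryEquiv.coe_mul,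
          Function.comp_apply] at ha hb ⊢
        rw [hb, ha]
      one_mem' := by simp
      inv_mem' := fun {a} ha => by
        simp only [Set.mem_ofPred_eq, map_inv] at ha ⊢
        exact (LinearIsometryEquiv.symm_apply_eq _).2 ha.symm }
  have hS := extr_gen S fun a b hab x => hall a b hab x
  exact (hS.ge (Subgroup.mem_top g) : g ∈ S)

end Pool.Agent.Lib.MP_60cbcc_al.H3Z
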