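import Mathlib

/-!
Matrix coefficients of unitary representations of a Euclidean space are characteristic functions
of finite measures.
-/

namespace Pool.Agent.Lib.MP_60cbcc_al.H3Z

open MeasureTheory Filter Complex Topology
open scoped InnerProductSpace RealInnerProductSpace FourierTransform Real ComplexConjugate

variable {V H : Type} [NormedAddCommGroup V] [InnerProductSpace ℝ V] [FiniteDimensional ℝ V]
  [MeasurableSpace V] [BorelSpace V] [NormedAddCommGroup H] [InnerProductSpace ℂ H]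

lemma extr_gau {s : ℝ} (hs : 0 < s) : Integrable fun v : V => Real.exp (-s * ‖v‖ ^ 2) := by
  have h := (GaussianFourier.integrable_cexp_neg_mul_sq_norm_add (V := V) (b := s)
    (by simpa using hs) 0 0).norm
  refine h.congr (Eventually.of_forall fun v => ?_)
  simp only [zero_mul, add_zero, norm_exp]
  norm_cast

omit [FiniteDimensional ℝ V] [MeasurableSpace V] [BorelSpace V] [InnerProductSpace ℝ V] in
lemma extr_norm {K : V → H} {φ : V → ℂ} (h : ∀ v w, ⟪K w, K v⟫_ℂ = φ (v - w)) (h1 : φ 0 = 1)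
    (v : V) : ‖K v‖ = 1 := by
  have h2 := h v v
  rw [sub_self, h1] at h2
  have h3 : ‖K v‖ ^ 2 = 1 := by
    rw [← inner_self_eq_norm_sq (𝕜 := ℂ), h2]
    simp
  exact (pow_eq_one_iff_of_nonneg (norm_nonneg _) two_ne_zero).1 h3

omit [FiniteDimensional ℝ V] [MeasurableSpace V] [BorelSpace V] [InnerProductSpace ℝ V] in
lemma extr_phi_le {K : V → H} {φ : V → ℂ} (h : ∀ v w, ⟪K w, K v⟫_ℂ = φ (v - w)) (h1 : φ 0 = 1)
    (v : V) : ‖φ v‖ ≤ 1 := by
  have h2 := norm_inner_le_norm (𝕜 := ℂ) (K 0) (K v)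
  rwa [h, sub_zero, extr_norm h h1, extr_norm h h1, one_mul] at h2

omit [FiniteDimensional ℝ V] [MeasurableSpace V] [BorelSpace V] [InnerProductSpace ℝ V] in
lemma extr_phi_cont {K : V → H} (hK : Continuous K) {φ : V → ℂ}
    (h : ∀ v w, ⟪K w, K v⟫_ℂ = φ (v - w)) : Continuous φ := by
  have : φ = fun v => ⟪K 0, K v⟫_ℂ := funext fun v => by rw [h, sub_zero]
  rw [this]
  exact continuous_const.inner hK

variable [CompleteSpace H]

/-- Gaussian averages of a matrix coefficient are non-negative. -/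
lemma extr_pos {K : V → H} (hK : Continuous K) {φ : V → ℂ}
    (h : ∀ v w, ⟪K w, K v⟫_ℂ = φ (v - w)) (h1 : φ 0 = 1) {s : ℝ} (hs : 0 < s) :
    ∃ r : ℝ, 0 ≤ r ∧ ∫ u, (Real.exp (-s * ‖u‖ ^ 2) : ℂ) * φ u = r := by
  set γ : V → ℝ := fun v => Real.exp (-(2 * s) * ‖v‖ ^ 2) with hγ
  have iγ : Integrable γ := extr_gau (by positivity)
  have iF : Integrable fun v => (γ v : ℂ) • K v :=
    iγ.ofReal.smul_bdd 1 hK.aestronglyMeasurable (Eventually.of_forall fun v =>
      (extr_norm h h1 v).le)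
  set Z := ∫ v, (γ v : ℂ) • K v with hZ
  have a1 : ∀ w, ⟪K w, Z⟫_ℂ = ∫ u, (γ (w + u) : ℂ) * φ u := fun w => by
    rw [hZ, ← integral_inner iF, ← integral_add_left_eq_self _ w]
    simp only [inner_smul_right, h, add_sub_cancel_left]
  have a2 : ⟪Z, Z⟫_ℂ = ∫ w, ∫ u, ((γ w * γ (w + u) : ℝ) : ℂ) * φ u := by
    rw [← inner_conj_symm]
    nth_rewrite 2 [hZ]
    rw [← integral_inner iF, ← integral_conj]
    refine integral_congr_ae (Eventually.of_forall fun w => ?_)
    simp only [inner_conj_symm, inner_smul_left, conj_ofReal, a1, ← integral_const_mul]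
    simp only [ofReal_mul, mul_assoc]
  have i2 : Integrable (Function.uncurry fun w u : V => ((γ w * γ (w + u) : ℝ) : ℂ) * φ u)
      (volume.prod volume) := by
    have i1 := (measurePreserving_prod_add (volume : Measure V) volume).integrable_comp_of_integrable
      (iγ.mul_prod iγ)
    exact i1.ofReal.mul_bdd ((extr_phi_cont hK h).comp continuous_snd).aestronglyMeasurable
      (Eventually.of_forall fun p => extr_phi_le h h1 p.2)
  set C : ℝ := ∫ w : V, Real.exp (-(4 * s) * ‖w‖ ^ 2) with hC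
  have hC0 : 0 < C := integral_exp_pos (extr_gau (by positivity))
  have a3 : ∀ u, ∫ w, γ w * γ (w + u) = C * Real.exp (-s * ‖u‖ ^ 2) := fun u => by
    rw [hC, ← integral_add_right_eq_self (fun w : V => Real.exp (-(4 * s) * ‖w‖ ^ 2))
      ((1 / 2 : ℝ) • u), ← integral_mul_const]
    refine integral_congr_ae (Eventually.of_forall fun w => ?_)
    simp only [hγ, ← Real.exp_add, norm_add_sq_real, norm_smul, real_inner_smul_right,
      Real.norm_eq_abs]
    congr 1
    rw [abs_of_pos (by norm_num : (0 : ℝ) < 1 / 2)]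
    ring
  rw [integral_integral_swap i2] at a2
  simp only [integral_mul_const, integral_complex_ofReal, a3] at a2
  simp only [ofReal_mul, mul_assoc, integral_const_mul] at a2
  refine ⟨C⁻¹ * ‖Z‖ ^ 2, by positivity, ?_⟩
  have hC1 : (C : ℂ) ≠ 0 := ofReal_ne_zero.2 hC0.ne'
  rw [inner_self_eq_norm_sq_to_K] at a2
  push_cast at a2 ⊢
  rw [eq_inv_mul_iff_mul_eq₀ hC1]
  exact a2.symm

lemma extr_ft {K : V → H} (hK : Continuous K) {φ : V → ℂ}
    (h : ∀ v w, ⟪K w, K v⟫_ℂ = φ (v - w)) (h1 : φ 0 = 1) {s : ℝ} (hs : 0 < s) (y : V) :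
    ∃ r : ℝ, 0 ≤ r ∧ 𝓕 (fun u => (Real.exp (-s * ‖u‖ ^ 2) : ℂ) * φ u) y = r := by
  obtain ⟨r, hr, e⟩ := extr_pos (K := fun v => cexp (↑(-2 * π * ⟪v, y⟫) * I) • K v)
    (φ := fun v => cexp (↑(-2 * π * ⟪v, y⟫) * I) * φ v) (by fun_prop) (fun v w => by
      rw [inner_smul_left, inner_smul_right, h, ← exp_conj, ← mul_assoc, ← exp_add, inner_sub_left]
      congr 2
      simp only [map_mul, conj_ofReal, conj_I]
      push_cast
      ring) (by simp [h1]) hs
  refine ⟨r, hr, ?_⟩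
  rw [Real.fourier_eq', ← e]
  refine integral_congr_ae (Eventually.of_forall fun v => ?_)
  simp only [smul_eq_mul]
  ring

/-- A non-negative Fourier transform of a continuous integrable function is integrable. -/
lemma extr_int {ψ : V → ℂ} (hc : Continuous ψ) (hi : Integrable ψ)
    (hp : ∀ y, ∃ r : ℝ, 0 ≤ r ∧ 𝓕 ψ y = r) : Integrable (𝓕 ψ) := by
  have cF : Continuous (𝓕 ψ) := VectorFourier.fourierIntegral_continuous (L := innerₗ V)
    Real.continuous_fourierChar continuous_inner hi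
  have B : Tendsto (fun c : ℝ => ∫ w : V, cexp (-c⁻¹ * ‖w‖ ^ 2 + 2 * π * I * ⟪(0 : V), w⟫) •
      𝓕 ψ w) atTop (𝓝 (ψ 0)) := by
    refine (Real.tendsto_integral_gaussian_smul' hi hc.continuousAt).congr' ?_
    filter_upwards [Ioi_mem_atTop 0] with c (hc : 0 < c)
    have J : Integrable fun w : V => cexp (-c⁻¹ * ‖w‖ ^ 2 + 2 * π * I * ⟪(0 : V), w⟫) :=
      GaussianFourier.integrable_cexp_neg_mul_sq_norm_add (by simpa) _ _
    have e : ∫ w : V, 𝓕 (fun w : V => cexp (-c⁻¹ * ‖w‖ ^ 2 + 2 * π * I * ⟪(0 : V), w⟫)) w • ψ w =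
        ∫ w : V, cexp (-c⁻¹ * ‖w‖ ^ 2 + 2 * π * I * ⟪(0 : V), w⟫) • 𝓕 ψ w := by
      simpa using! VectorFourier.integral_fourierIntegral_smul_eq_flip (L := innerₗ V)
        Real.continuous_fourierChar continuous_inner J hi
    rw [← e]
    congr with w
    rw [fourier_gaussian_innerProductSpace' (by simpa)]
    congr 3
    · simp
    · simp
      ring
  simp only [inner_zero_left, ofReal_zero, mul_zero, add_zero] at B
  have h1 : eLpNorm (𝓕 ψ) 1 volume ≤ ENNReal.ofReal (‖ψ 0‖ + 1) := by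
    refine Lp.eLpNorm_le_of_ae_tendsto (u := atTop)
      (f := fun (c : ℝ) w => cexp (-c⁻¹ * ‖w‖ ^ 2) • 𝓕 ψ w) ?_
      (fun c => Continuous.aestronglyMeasurable (by fun_prop)) (Eventually.of_forall fun w => ?_)
    · filter_upwards [B.norm.eventually_lt_const (lt_add_one ‖ψ 0‖), Ioi_mem_atTop 0]
        with c h2 (hc : 0 < c)
      have J : Integrable fun w : V => cexp (-c⁻¹ * ‖w‖ ^ 2) • 𝓕 ψ w := by
        have J1 := GaussianFourier.integrable_cexp_neg_mul_sq_norm_add (V := V)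
          (b := ((c⁻¹ : ℝ) : ℂ)) (by simpa) 0 0
        simp only [zero_mul, add_zero] at J1
        exact J1.smul_bdd _ cF.aestronglyMeasurable (Eventually.of_forall fun w =>
          VectorFourier.norm_fourierIntegral_le_integral_norm _ _ _ _ w)
      rw [eLpNorm_one_eq_lintegral_enorm, ← ofReal_integral_norm_eq_lintegral_enorm J]
      refine ENNReal.ofReal_le_ofReal (le_trans ?_ h2.le)
      have e : ∫ w : V, cexp (-c⁻¹ * ‖w‖ ^ 2) • 𝓕 ψ w =
          ((∫ w : V, ‖cexp (-c⁻¹ * ‖w‖ ^ 2) • 𝓕 ψ w‖ : ℝ) : ℂ) := by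
        rw [← integral_complex_ofReal]
        refine integral_congr_ae (Eventually.of_forall fun w => ?_)
        obtain ⟨r, hr, e⟩ := hp w
        have e2 : cexp (-c⁻¹ * ‖w‖ ^ 2) • 𝓕 ψ w = ((Real.exp (-c⁻¹ * ‖w‖ ^ 2) * r : ℝ) : ℂ) := by
          rw [e, smul_eq_mul]
          push_cast
          rfl
        simp only [e2, norm_real, Real.norm_eq_abs]
        rw [abs_of_nonneg (by positivity)]
      rw [e, norm_real]
      exact le_abs_self _
    · nth_rewrite 2 [show 𝓕 ψ w = cexp (-(0 : ℝ) * ‖w‖ ^ 2) • 𝓕 ψ w by simp]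
      exact (tendsto_inv_atTop_zero.ofReal.neg.mul_const _).cexp.smul_const _
  exact memLp_one_iff_integrable.1 ⟨cF.aestronglyMeasurable, h1.trans_lt ENNReal.ofReal_lt_top⟩

omit [FiniteDimensional ℝ V] [BorelSpace V] in
lemma extr_dens (μ : Measure V) {f : V → ℝ} (hf : Measurable f) (h0 : ∀ x, 0 ≤ f x) (t : V) :
    charFun (μ.withDensity fun x => ENNReal.ofReal (f x)) t =
      ∫ x, (f x : ℂ) * cexp (⟪x, t⟫ * I) ∂μ := by
  rw [charFun_apply, integral_withDensity_eq_integral_toReal_smul hf.ennreal_ofReal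
    (Eventually.of_forall fun _ => ENNReal.ofReal_lt_top)]
  simp only [ENNReal.toReal_ofReal (h0 _), real_smul]

lemma extr_meas {ψ : V → ℂ} (hc : Continuous ψ) (hi : Integrable ψ) (h1 : ψ 0 = 1)
    (hp : ∀ y, ∃ r : ℝ, 0 ≤ r ∧ 𝓕 ψ y = r) :
    ∃ μ : Measure V, IsProbabilityMeasure μ ∧ ∀ t, charFun μ t = ψ ((2 * π)⁻¹ • t) := by
  have iF := extr_int hc hi hp
  have cF : Continuous (𝓕 ψ) := VectorFourier.fourierIntegral_continuous (L := innerₗ V)
    Real.continuous_fourierChar continuous_inner hi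
  have e : ∀ y, (((𝓕 ψ y).re : ℝ) : ℂ) = 𝓕 ψ y := fun y => by
    obtain ⟨r, -, e⟩ := hp y
    rw [e, ofReal_re]
  have h0 : ∀ y, 0 ≤ (𝓕 ψ y).re := fun y => by
    obtain ⟨r, hr, e⟩ := hp y
    rwa [e, ofReal_re]
  have h2 : ∀ t, charFun (volume.withDensity fun y => ENNReal.ofReal (𝓕 ψ y).re) t =
      ψ ((2 * π)⁻¹ • t) := fun t => by
    rw [extr_dens _ (f := fun y => (𝓕 ψ y).re) (continuous_re.comp cF).measurable h0,
      ← congrFun (hc.fourierInv_fourier_eq hi iF) _, Real.fourierInv_eq']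
    refine integral_congr_ae (Eventually.of_forall fun x => ?_)
    simp only [e, real_inner_smul_right, smul_eq_mul]
    rw [mul_inv_cancel_left₀ (by positivity), mul_comm]
  refine ⟨_, isProbabilityMeasure_iff_real.2 ?_, h2⟩
  have h3 := h2 0
  rw [charFun_zero, smul_zero, h1] at h3
  exact_mod_cast h3

/-- A pointwise limit of characteristic functions that is continuous at zero is a characteristic
function. -/
lemma extr_lim {μ : ℕ → Measure V} [∀ i, IsProbabilityMeasure (μ i)] {f : V → ℂ}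
    (hf : ContinuousAt f 0) (h : ∀ t, Tendsto (fun n => charFun (μ n) t) atTop (𝓝 (f t))) :
    ∃ ν : Measure V, IsProbabilityMeasure ν ∧ ∀ t, charFun ν t = f t := by
  let P : ℕ → ProbabilityMeasure V := fun n => ⟨μ n, inferInstance⟩
  have ht : IsTightMeasureSet {((m : ProbabilityMeasure V) : Measure V) | m ∈ Set.range P} := by
    refine (isTightMeasureSet_of_tendsto_charFun hf h).subset ?_
    rintro _ ⟨_, ⟨n, rfl⟩, rfl⟩
    exact ⟨n, rfl⟩
  obtain ⟨ν, -, hν : Tendsto _ _ _⟩ :=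
    (isCompact_closure_of_isTightMeasureSet ht).ultrafilter_le_nhds
      ((Ultrafilter.of atTop).map P) (.trans (by simp) (monotone_principal subset_closure))
  refine ⟨ν, inferInstance, fun t => ?_⟩
  rw [ProbabilityMeasure.tendsto_iff_forall_integral_rclike_tendsto ℂ] at hν
  have h1 := hν (BoundedContinuousFunction.innerProbChar t)
  simp only [← charFun_eq_integral_innerProbChar] at h1
  exact tendsto_nhds_unique h1 ((h t).mono_left (Ultrafilter.of_le _))

theorem extr_boch1 {K : V → H} (hK : Continuous K) {φ : V → ℂ}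
    (h : ∀ v w, ⟪K w, K v⟫_ℂ = φ (v - w)) (h1 : φ 0 = 1) :
    ∃ ν : Measure V, IsProbabilityMeasure ν ∧ ∀ t, charFun ν t = φ ((2 * π)⁻¹ • t) := by
  have hc := extr_phi_cont hK h
  have hs : ∀ n : ℕ, (0 : ℝ) < 1 / ((n : ℝ) + 1) := fun n => by positivity
  choose μ hμ e using fun n : ℕ => extr_meas
    (ψ := fun u => (Real.exp (-(1 / ((n : ℝ) + 1)) * ‖u‖ ^ 2) : ℂ) * φ u) (by fun_prop)
    ((extr_gau (hs n)).ofReal.mul_bdd hc.aestronglyMeasurable
      (Eventually.of_forall (extr_phi_le h h1))) (by simp [h1]) (extr_ft hK h h1 (hs n))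
  refine extr_lim (μ := μ) (Continuous.continuousAt (by fun_prop)) fun t => ?_
  simp only [e]
  have h2 := ((tendsto_one_div_add_atTop_nhds_zero_nat (𝕜 := ℝ)).neg.mul_const
    (‖(2 * π)⁻¹ • t‖ ^ 2)).rexp.ofReal.mul_const (φ ((2 * π)⁻¹ • t))
  simpa using h2

/-- The spectral measure of a vector. -/
theorem extr_boch (ρ : V → H ≃ₗᵢ[ℂ] H) (hadd : ∀ v w x, ρ (v + w) x = ρ v (ρ w x))
    (hc : ∀ x, Continuous fun v => ρ v x) (ξ : H) :
    ∃ ν : Measure V, IsFiniteMeasure ν ∧ ∀ t, charFun ν t = ⟪ξ, ρ t ξ⟫_ℂ := by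
  by_cases h0 : ξ = 0
  · exact ⟨0, inferInstance, fun t => by simp [h0]⟩
  have hn : (‖ξ‖ : ℂ) ≠ 0 := ofReal_ne_zero.2 (norm_ne_zero_iff.2 h0)
  have r0 : ρ 0 ξ = ξ := (ρ 0).injective (by rw [← hadd, add_zero])
  obtain ⟨ν, hν, e⟩ := extr_boch1 (K := fun v => (‖ξ‖ : ℂ)⁻¹ • ρ ((2 * π) • v) ξ)
    (φ := fun v => ((‖ξ‖ : ℂ) ^ 2)⁻¹ * ⟪ξ, ρ ((2 * π) • v) ξ⟫_ℂ)
    (((hc ξ).comp (continuous_const_smul _)).const_smul _) (fun v w => by
      rw [inner_smul_left, inner_smul_right, ← (ρ ((2 * π) • w)).inner_map_map ξ, ← hadd,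
        ← smul_add, add_sub_cancel, map_inv₀, conj_ofReal]
      field_simp) (by
      rw [smul_zero, r0, inner_self_eq_norm_sq_to_K]
      exact inv_mul_cancel₀ (pow_ne_zero 2 hn))
  refine ⟨(‖ξ‖₊ ^ 2) • ν, inferInstance, fun t => ?_⟩
  have e1 := e t
  rw [smul_inv_smul₀ (by positivity), eq_inv_mul_iff_mul_eq₀ (pow_ne_zero 2 hn)] at e1
  rw [← e1, charFun_apply, charFun_apply, integral_smul_nnreal_measure, NNReal.smul_def, real_smul]
  push_cast
  rfl

end Pool.Agent.Lib.MP_60cbcc_al.H3Z
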