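import Pool.Agent.Lib.MP_60cbcc_al.H3ZDefs2
import Pool.Agent.Lib.MP_60cbcc_al.H3ZExTRB
import Pool.Agent.Lib.MP_60cbcc_al.H3ZExTRC

/-!
Property (T) of `SL(n, ℝ)`, `n ≥ 3`.
-/

namespace Pool.Agent.Lib.MP_60cbcc_al.H3Z

open scoped MatrixGroups

section spec

open MeasureTheory Filter Complex
open scoped InnerProductSpace RealInnerProductSpace

variable {V H : Type} [NormedAddCommGroup V] [InnerProductSpace ℝ V] [FiniteDimensional ℝ V]
  [MeasurableSpace V] [BorelSpace V] [NormedAddCommGroup H] [InnerProductSpace ℂ H]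

/-- A family of spectral measures. -/
structure ExtrSpec (ρ : V → H ≃ₗᵢ[ℂ] H) (μ : H → Measure V) : Prop where
  add : ∀ v w x, ρ (v + w) x = ρ v (ρ w x)
  fin : ∀ ξ, IsFiniteMeasure (μ ξ)
  cf : ∀ ξ t, charFun (μ ξ) t = ⟪ξ, ρ t ξ⟫_ℂ

variable {ρ : V → H ≃ₗᵢ[ℂ] H} {μ : H → Measure V}

omit [FiniteDimensional ℝ V] in
lemma extr_iexp (ν : Measure V) [IsFiniteMeasure ν] (t : V) :
    Integrable (fun x : V => cexp (⟪x, t⟫ * I)) ν :=
  Integrable.of_bound (Continuous.aestronglyMeasurable (by fun_prop)) 1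
    (Eventually.of_forall fun x => (norm_exp_ofReal_mul_I _).le)

omit [FiniteDimensional ℝ V] in
lemma extr_cf_add (ν ν' : Measure V) [IsFiniteMeasure ν] [IsFiniteMeasure ν'] (t : V) :
    charFun (ν + ν') t = charFun ν t + charFun ν' t :=
  integral_add_measure (extr_iexp ν t) (extr_iexp ν' t)

omit [FiniteDimensional ℝ V] [BorelSpace V] in
lemma ExtrSpec.mass (h : ExtrSpec ρ μ) (ξ : H) : (μ ξ).real Set.univ = ‖ξ‖ ^ 2 := by
  have r0 : ρ 0 ξ = ξ := (ρ 0).injective (by rw [← h.add, add_zero])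
  have h1 := congrArg re (h.cf ξ 0)
  rwa [charFun_zero, ofReal_re, r0, ← RCLike.re_to_complex, inner_self_eq_norm_sq] at h1

lemma ExtrSpec.par (h : ExtrSpec ρ μ) (ξ η : H) (A : Set V) :
    (μ (ξ + η)).real A ≤ 2 * (μ ξ).real A + 2 * (μ η).real A := by
  have := h.fin
  have e : μ (ξ + η) + μ (ξ - η) = (μ ξ + μ ξ) + (μ η + μ η) := by
    refine Measure.ext_of_charFun (funext fun t => ?_)
    simp only [extr_cf_add, h.cf, map_add, map_sub, inner_add_left, inner_add_right,
      inner_sub_left, inner_sub_right]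
    ring
  have e1 := congrArg (fun m : Measure V => m.real A) e
  simp only [measureReal_add_apply (measure_ne_top _ _) (measure_ne_top _ _)] at e1
  have := measureReal_nonneg (μ := μ (ξ - η)) (s := A)
  linarith

lemma ExtrSpec.near (h : ExtrSpec ρ μ) (ξ η : H) (A : Set V) :
    (μ ξ).real A ≤ 2 * (μ η).real A + 2 * ‖ξ - η‖ ^ 2 := by
  have := h.fin
  have h1 := h.par η (ξ - η) A
  have h2 : (μ (ξ - η)).real A ≤ ‖ξ - η‖ ^ 2 :=
    (measureReal_mono (Set.subset_univ A)).trans_eq (h.mass _)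
  rw [add_sub_cancel] at h1
  linarith

lemma ExtrSpec.map (h : ExtrSpec ρ μ) (U : H ≃ₗᵢ[ℂ] H) {M L : V → V} (hM : Continuous M)
    (hL : ∀ x t, ⟪M x, t⟫ = ⟪x, L t⟫) (hU : ∀ t x, ρ t (U x) = U (ρ (L t) x)) (ξ : H) :
    μ (U ξ) = (μ ξ).map M := by
  have := h.fin
  refine Measure.ext_of_charFun (funext fun t => ?_)
  rw [h.cf, hU, U.inner_map_map, ← h.cf, charFun_apply, charFun_apply,
    integral_map hM.aemeasurable (Continuous.aestronglyMeasurable (by fun_prop))]
  simp only [hL]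

lemma ExtrSpec.zero (h : ExtrSpec ρ μ) (v : V) (η : H) : (μ (ρ v η - η)).real {0} = 0 := by
  have := h.fin
  have h0 : ∀ x : V, 0 ≤ 2 - 2 * Real.cos ⟪x, v⟫ := fun x => by
    linarith [Real.cos_le_one ⟪x, v⟫]
  have hc : Continuous fun x : V => 2 - 2 * Real.cos ⟪x, v⟫ := by fun_prop
  have hi : Integrable (fun x : V => 2 - 2 * Real.cos ⟪x, v⟫) (μ η) :=
    Integrable.of_bound hc.aestronglyMeasurable 4 (Eventually.of_forall fun x => by
      rw [Real.norm_eq_abs, abs_of_nonneg (h0 x)]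
      linarith [Real.neg_one_le_cos ⟪x, v⟫])
  have := isFiniteMeasure_withDensity_ofReal hi.2
  have e : μ (ρ v η - η) =
      (μ η).withDensity fun x => ENNReal.ofReal (2 - 2 * Real.cos ⟪x, v⟫) := by
    refine Measure.ext_of_charFun (funext fun t => ?_)
    have e1 : ∀ x : V, ((2 - 2 * Real.cos ⟪x, v⟫ : ℝ) : ℂ) * cexp (⟪x, t⟫ * I) =
        2 * cexp (⟪x, t⟫ * I) - cexp (⟪x, t + v⟫ * I) - cexp (⟪x, t - v⟫ * I) := fun x => by
      rw [inner_add_right, inner_sub_right]
      push_cast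
      rw [two_cos, add_mul, sub_eq_add_neg (⟪x, t⟫ : ℂ), add_mul, exp_add, exp_add]
      ring
    have i1 : Integrable (fun x : V => 2 * cexp (⟪x, t⟫ * I) - cexp (⟪x, t + v⟫ * I)) (μ η) :=
      ((extr_iexp _ t).const_mul 2).sub (extr_iexp _ _)
    have e2 : ρ t (ρ v η) = ρ v (ρ t η) := by rw [← h.add, ← h.add, add_comm]
    have e3 : ⟪ρ v η, ρ t η⟫_ℂ = ⟪η, ρ (t - v) η⟫_ℂ := by
      rw [← (ρ v).inner_map_map η, ← h.add, add_sub_cancel]
    rw [extr_dens _ hc.measurable h0]
    simp only [e1]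
    rw [integral_sub i1 (extr_iexp _ _), integral_sub ((extr_iexp _ t).const_mul 2) (extr_iexp _ _),
      integral_const_mul, ← charFun_apply, ← charFun_apply, ← charFun_apply]
    simp only [h.cf, map_sub, inner_sub_left, inner_sub_right, h.add]
    rw [e3, e2, (ρ v).inner_map_map]
    ring
  rw [measureReal_def, e, withDensity_apply _ (measurableSet_singleton _), lintegral_singleton]
  simp

/-- Without invariant vectors the spectral measures have little mass at the origin. -/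
lemma ExtrSpec.atom [CompleteSpace H] (h : ExtrSpec ρ μ)
    (hn : ∀ w, (∀ t, ρ t w = w) → w = 0) (ξ : H) : (μ ξ).real {0} ≤ 1 / 50 := by
  have := h.fin
  let S : Submodule ℂ H :=
    { carrier := {x | ∀ c : ℂ, (μ (c • x)).real {0} = 0}
      add_mem' := fun {a b} ha hb c => by
        refine le_antisymm ?_ measureReal_nonneg
        have := h.par (c • a) (c • b) {0}
        rw [ha c, hb c, ← smul_add] at this
        linarith
      zero_mem' := fun c => by
        refine le_antisymm ((measureReal_mono (Set.subset_univ _)).trans_eq ?_) measureReal_nonneg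
        rw [h.mass, smul_zero, norm_zero, zero_pow two_ne_zero]
      smul_mem' := fun c x hx d => by
        rw [smul_smul]
        exact hx _ }
  have hS : Sᗮ = ⊥ := by
    refine (Submodule.eq_bot_iff _).2 fun w hw => hn w fun t => ?_
    have h1 : ∀ η, ⟪ρ (-t) η - η, w⟫_ℂ = 0 := fun η => hw _ fun c => by
      rw [smul_sub, ← map_smul]
      exact h.zero _ _
    refine ext_inner_left ℂ fun η => ?_
    have h2 := h1 η
    rw [inner_sub_left, sub_eq_zero, ← (ρ t).inner_map_map, ← h.add, add_neg_cancel] at h2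
    have r0 : ρ 0 η = η := (ρ 0).injective (by rw [← h.add, add_zero])
    rwa [r0] at h2
  obtain ⟨η, hη, hd⟩ := (Submodule.dense_iff_topologicalClosure_eq_top.2
    (Submodule.topologicalClosure_eq_top_iff.2 hS)).exists_dist_lt ξ (by norm_num : (0 : ℝ) < 1 / 10)
  have h1 := h.near ξ η {0}
  have h2 := hη 1
  rw [one_smul] at h2
  rw [dist_eq_norm] at hd
  nlinarith [norm_nonneg (ξ - η)]

end spec

section plane

open MeasureTheory
open scoped InnerProductSpace RealInnerProductSpace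

variable {H : Type} [NormedAddCommGroup H] [InnerProductSpace ℂ H]
  {ρ : EuclideanSpace ℝ (Fin 2) → H ≃ₗᵢ[ℂ] H} {μ : H → Measure (EuclideanSpace ℝ (Fin 2))}

/-- A cone with five disjoint translates has small mass. -/
lemma ExtrSpec.cone (h : ExtrSpec ρ μ) {i j : Fin 2} (hij : i ≠ j) (U : Fin 5 → H ≃ₗᵢ[ℂ] H)
    (hU : ∀ k t x, ρ t (U k x) =
      U k (ρ (t + (3 * (k : ℕ) * t i) • EuclideanSpace.single j (1 : ℝ)) x))
    {ξ : H} (h1 : ‖ξ‖ = 1) (hξ : ∀ k, ‖U k ξ - ξ‖ < 1 / 10) :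
    (μ ξ).real {x | x j ≠ 0 ∧ |x i| ≤ |x j|} ≤ 21 / 50 := by
  have := h.fin
  let A : Fin 5 → Set (EuclideanSpace ℝ (Fin 2)) := fun k =>
    {x | x j ≠ 0 ∧ |x i - 3 * (k : ℕ) * x j| ≤ |x j|}
  have mA : ∀ k, MeasurableSet (A k) := fun k =>
    ((isOpen_ne_fun (f := fun x : EuclideanSpace ℝ (Fin 2) => x j) (by fun_prop)
      continuous_const).measurableSet).inter
      (isClosed_le (f := fun x : EuclideanSpace ℝ (Fin 2) => |x i - 3 * (k : ℕ) * x j|)
        (g := fun x => |x j|) (by fun_prop) (by fun_prop)).measurableSet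
  have dA : Pairwise (Function.onFun Disjoint A) := fun k l hkl => by
    refine Set.disjoint_left.2 fun x hk hl => ?_
    have a0 := abs_pos.2 hk.1
    have a1 : |(3 * (k : ℕ) - 3 * (l : ℕ) : ℝ) * x j| ≤ 2 * |x j| := by
      have := abs_sub (x i - 3 * (l : ℕ) * x j) (x i - 3 * (k : ℕ) * x j)
      rw [show x i - 3 * (l : ℕ) * x j - (x i - 3 * (k : ℕ) * x j) =
        (3 * (k : ℕ) - 3 * (l : ℕ) : ℝ) * x j by ring] at this
      linarith [hk.2, hl.2]
    rw [abs_mul] at a1
    have a2 := abs_le.1 (le_of_mul_le_mul_right a1 a0)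
    rcases lt_or_gt_of_ne (Fin.val_ne_of_ne hkl) with a | a
    · have : ((k : ℕ) : ℝ) + 1 ≤ (l : ℕ) := by exact_mod_cast a
      linarith [a2.1]
    · have : ((l : ℕ) : ℝ) + 1 ≤ (k : ℕ) := by exact_mod_cast a
      linarith [a2.2]
  have h2 : ∑ k, (μ ξ).real (A k) ≤ 1 := by
    rw [← measureReal_iUnion_fintype dA mA]
    refine (measureReal_mono (Set.subset_univ _)).trans_eq ?_
    rw [h.mass, h1, one_pow]
  have h3 : ∀ k, (μ ξ).real {x | x j ≠ 0 ∧ |x i| ≤ |x j|} ≤ 2 * (μ ξ).real (A k) + 1 / 50 := by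
    intro k
    have hM : Continuous fun x : EuclideanSpace ℝ (Fin 2) =>
        x + (3 * (k : ℕ) * x j) • EuclideanSpace.single i (1 : ℝ) := by fun_prop
    have e := h.map (U k) hM (fun x t => by
      simp only [inner_add_left, inner_add_right, real_inner_smul_left, real_inner_smul_right,
        EuclideanSpace.inner_single_left, EuclideanSpace.inner_single_right]
      simp
      ring) (hU k) ξ
    have a1 := h.near (U k ξ) ξ (A k)
    rw [e, map_measureReal_apply hM.measurable (mA k)] at a1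
    have a2 : (fun x : EuclideanSpace ℝ (Fin 2) =>
        x + (3 * (k : ℕ) * x j) • EuclideanSpace.single i (1 : ℝ)) ⁻¹' A k =
        {x | x j ≠ 0 ∧ |x i| ≤ |x j|} := by
      ext x
      simp [A, hij.symm]
    rw [a2] at a1
    nlinarith [hξ k, norm_nonneg (U k ξ - ξ)]
  rw [Fin.sum_univ_five] at h2
  linarith [h3 0, h3 1, h3 2, h3 3, h3 4]

/-- Relative property (T) of the plane. -/
lemma extr_rel [CompleteSpace H] (hadd : ∀ v w x, ρ (v + w) x = ρ v (ρ w x))
    (hc : ∀ x, Continuous fun v => ρ v x) (U U' : Fin 5 → H ≃ₗᵢ[ℂ] H)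
    (hU : ∀ k t x, ρ t (U k x) =
      U k (ρ (t + (3 * (k : ℕ) * t 0) • EuclideanSpace.single 1 (1 : ℝ)) x))
    (hU' : ∀ k t x, ρ t (U' k x) =
      U' k (ρ (t + (3 * (k : ℕ) * t 1) • EuclideanSpace.single 0 (1 : ℝ)) x))
    {ξ : H} (h1 : ‖ξ‖ = 1) (hξ : ∀ k, ‖U k ξ - ξ‖ < 1 / 10) (hξ' : ∀ k, ‖U' k ξ - ξ‖ < 1 / 10) :
    ∃ w, w ≠ 0 ∧ ∀ t, ρ t w = w := by
  by_contra hn
  choose μ hf hμ using extr_boch ρ hadd hc
  have h : ExtrSpec ρ μ := ⟨hadd, hf, hμ⟩
  have a0 := h.atom (fun w hw => by_contra fun h0 => hn ⟨w, h0, hw⟩) ξ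
  have a1 := h.cone zero_ne_one U hU h1 hξ
  have a2 := h.cone one_ne_zero U' hU' h1 hξ'
  have a3 : (Set.univ : Set (EuclideanSpace ℝ (Fin 2))) ⊆ ({x | x 1 ≠ 0 ∧ |x 0| ≤ |x 1|} ∪
      {x | x 0 ≠ 0 ∧ |x 1| ≤ |x 0|}) ∪ {0} := fun x _ => by
    by_cases h0 : x 0 = 0
    · by_cases h1 : x 1 = 0
      · refine Or.inr ?_
        ext i
        fin_cases i
        exacts [h0, h1]
      · exact Or.inl (Or.inl ⟨h1, by rw [h0, abs_zero]; exact abs_nonneg _⟩)
    · rcases le_total |x 0| |x 1| with a | a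
      · exact Or.inl (Or.inl ⟨abs_pos.1 ((abs_pos.2 h0).trans_le a), a⟩)
      · exact Or.inl (Or.inr ⟨h0, a⟩)
  have a4 := (measureReal_mono (μ := μ ξ) a3).trans ((measureReal_union_le _ _).trans
    (add_le_add_left (measureReal_union_le _ _) _))
  rw [h.mass, h1] at a4
  linarith

end plane

section mat

open Matrix Matrix.SpecialLinearGroup

variable {ι : Type} [Fintype ι] [DecidableEq ι] {p q r : ι}

lemma extr_n_add (hpr : p ≠ r) (hqr : q ≠ r) (a b c d : ℝ) :
    transvection hpr (a + b) * transvection hqr (c + d) =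
      transvection hpr a * transvection hqr c * (transvection hpr b * transvection hqr d) :=
  Subtype.ext <| by
    simp [transvection_coe, mul_add, add_mul, single_mul_single_of_ne, hpr.symm, hqr.symm,
      single_add]
    abel

lemma extr_n_conj (hqp : q ≠ p) (hpr : p ≠ r) (hqr : q ≠ r) (a b c : ℝ) :
    transvection hpr a * transvection hqr b * transvection hqp (-c) =
      transvection hqp (-c) * (transvection hpr a * transvection hqr (b + c * a)) :=
  Subtype.ext <| by
    simp [transvection_coe, mul_add, add_mul, single_mul_single_of_ne, hqp.symm, hqr.symm,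
      single_add, ← single_neg]
    abel

lemma extr_n_conj' (hpq : p ≠ q) (hpr : p ≠ r) (hqr : q ≠ r) (a b c : ℝ) :
    transvection hpr a * transvection hqr b * transvection hpq (-c) =
      transvection hpq (-c) * (transvection hpr (a + c * b) * transvection hqr b) :=
  Subtype.ext <| by
    simp [transvection_coe, mul_add, add_mul, single_mul_single_of_ne, hpq.symm, hpr.symm,
      hqr.symm, single_add, ← single_neg]
    abel

end mat

open Matrix.SpecialLinearGroup in
theorem sl_hasT_real (n : ℕ) : HasT SL(n + 3, ℝ) := by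
  let p : Fin (n + 3) := ⟨0, by omega⟩
  let q : Fin (n + 3) := ⟨1, by omega⟩
  let r : Fin (n + 3) := ⟨2, by omega⟩
  have hpq : p ≠ q := by simp [p, q]
  have hpr : p ≠ r := by simp [p, r]
  have hqr : q ≠ r := by simp [q, r]
  refine ⟨Set.range (fun k : Fin 5 => transvection hpq.symm (-(3 * (k : ℕ) : ℝ))) ∪
    Set.range fun k : Fin 5 => transvection hpq (-(3 * (k : ℕ) : ℝ)), 1 / 10,
    ((Set.finite_range _).union (Set.finite_range _)).isCompact, by norm_num, ?_⟩
  rintro H _ _ _ π hπ ⟨ξ, h1, hξ⟩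
  have hm : ∀ a b x, π a (π b x) = π (a * b) x := fun a b x => by
    rw [map_mul]
    rfl
  obtain ⟨w, hw, hf⟩ := extr_rel
    (ρ := fun t => π (transvection hpr (t 0) * transvection hqr (t 1)))
    (fun v w x => by
      rw [hm, ← extr_n_add]
      rfl)
    (fun x => (hπ x).comp (((extr_cont hpr).comp (by fun_prop)).mul
      ((extr_cont hqr).comp (by fun_prop))))
    (fun k => π (transvection hpq.symm (-(3 * (k : ℕ) : ℝ))))
    (fun k => π (transvection hpq (-(3 * (k : ℕ) : ℝ))))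
    (fun k t x => by
      rw [hm, hm, extr_n_conj]
      simp)
    (fun k t x => by
      rw [hm, hm, extr_n_conj']
      simp)
    h1 (fun k => hξ _ (Or.inl ⟨k, rfl⟩)) fun k => hξ _ (Or.inr ⟨k, rfl⟩)
  refine ⟨w, hw, extr_fix (fun i j => ?_) π hπ hpr fun x => ?_⟩
  · by_contra hn
    push Not at hn
    have a := hn p
    have b := hn q
    have c := hn r
    grind
  · simpa [transvection_coeff_zero] using hf (EuclideanSpace.single 0 x)

end Pool.Agent.Lib.MP_60cbcc_al.H3Z
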