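import Pool.Agent.Lib.MP_60cbcc_al.H3ZDefs2

/-!
The group `SL(2, k)` over a non-archimedean local field acts on its tree.
-/

namespace Pool.Agent.Lib.MP_60cbcc_al.H3Z

open scoped MatrixGroups

namespace ExTree

/-- A graph with a height such that no vertex has two neighbours that are at least as high is
acyclic. -/
theorem acyclic_of_level {V : Type} (T : SimpleGraph V) (L : V → ℝ)
    (h : ∀ v w w', T.Adj v w → T.Adj v w' → L v ≤ L w → L v ≤ L w' → w = w') : T.IsAcyclic := by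
  classical
  intro u c hc
  obtain ⟨v, hv, hmin⟩ := c.support.toFinset.exists_min_image L ⟨u, by simp⟩
  have hv' : v ∈ c.support := by simpa using hv
  have hc' : (c.rotate v hv').IsCycle := hc.rotate hv'
  have hm : ∀ w ∈ (c.rotate v hv').support, L v ≤ L w := fun w hw =>
    hmin w (by simpa using (c.mem_support_rotate_iff v hv').1 hw)
  refine hc'.snd_ne_penultimate (h v _ _ (SimpleGraph.Walk.adj_snd hc'.not_nil)
    (SimpleGraph.Walk.adj_penultimate hc'.not_nil).symm (hm _ ?_) (hm _ ?_))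
  · exact SimpleGraph.Walk.getVert_mem_support _ _
  · exact SimpleGraph.Walk.getVert_mem_support _ _

/-- Compact open stabilisers that are transitive on spheres give finite neighbour sets. -/
theorem finite_nbr {G V : Type} [Group G] [TopologicalSpace G] [IsTopologicalGroup G]
    [MulAction G V] (T : SimpleGraph V)
    (hst : ∀ v : V, IsCompact {g : G | g • v = v} ∧ IsOpen {g : G | g • v = v})
    (htr : ∀ v w w' : V, T.dist v w = T.dist v w' → ∃ g : G, g • v = v ∧ g • w = w') (v : V) :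
    (T.neighborSet v).Finite := by
  rcases (T.neighborSet v).eq_empty_or_nonempty with h | ⟨w0, hw0⟩
  · rw [h]; exact Set.finite_empty
  have hop : ∀ w : V, IsOpen {g : G | g • w0 = w} := by
    intro w
    rcases Set.eq_empty_or_nonempty {g : G | g • w0 = w} with h | ⟨s, hs⟩
    · rw [h]; exact isOpen_empty
    have : {g : G | g • w0 = w} = (fun g => s⁻¹ * g) ⁻¹' {g : G | g • w0 = w0} := by
      ext g
      have hs' : s • w0 = w := hs
      simp only [Set.mem_ofPred_eq, Set.mem_preimage, mul_smul, inv_smul_eq_iff, hs']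
    rw [this]
    exact (hst w0).2.preimage (by fun_prop)
  obtain ⟨t, ht⟩ := (hst v).1.elim_finite_subcover (fun w : V => {g : G | g • w0 = w}) hop
    (fun g _ => Set.mem_iUnion.2 ⟨g • w0, rfl⟩)
  refine t.finite_toSet.subset fun w hw => ?_
  obtain ⟨g, hg, hgw⟩ := htr v w0 w (by
    rw [SimpleGraph.dist_eq_one_iff_adj.2 hw0, SimpleGraph.dist_eq_one_iff_adj.2 hw])
  obtain ⟨w', hw', hg'⟩ := Set.mem_iUnion₂.1 (ht hg)
  have : g • w0 = w' := hg'
  rw [← hgw, this]
  exact hw'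

variable {k : Type} [NontriviallyNormedField k]

/-- The largest norm of an entry. -/
noncomputable def nm (x : Matrix (Fin 2) (Fin 2) k) : ℝ :=
  max (max ‖x 0 0‖ ‖x 0 1‖) (max ‖x 1 0‖ ‖x 1 1‖)

theorem le_nm (x : Matrix (Fin 2) (Fin 2) k) (i j : Fin 2) : ‖x i j‖ ≤ nm x := by
  fin_cases i <;> fin_cases j <;> simp [nm]

theorem nm_le {x : Matrix (Fin 2) (Fin 2) k} {t : ℝ} : nm x ≤ t ↔ ∀ i j, ‖x i j‖ ≤ t :=
  ⟨fun h i j => (le_nm x i j).trans h, fun h => by simp [nm, h]⟩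

theorem nm_nonneg (x : Matrix (Fin 2) (Fin 2) k) : 0 ≤ nm x := (norm_nonneg _).trans (le_nm x 0 0)

theorem nm_eq (x : Matrix (Fin 2) (Fin 2) k) : ∃ i j, nm x = ‖x i j‖ := by
  unfold nm
  rcases max_choice (max ‖x 0 0‖ ‖x 0 1‖) (max ‖x 1 0‖ ‖x 1 1‖) with h | h <;> rw [h]
  · rcases max_choice ‖x 0 0‖ ‖x 0 1‖ with h | h <;> exact ⟨_, _, h⟩
  · rcases max_choice ‖x 1 0‖ ‖x 1 1‖ with h | h <;> exact ⟨_, _, h⟩

theorem mul_le' {a b : k} {s t : ℝ} (ha : ‖a‖ ≤ s) (hb : ‖b‖ ≤ t) : ‖a * b‖ ≤ s * t := by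
  rw [norm_mul]
  exact mul_le_mul ha hb (norm_nonneg _) ((norm_nonneg _).trans ha)

theorem zero_of_bdd {p : k} (hp0 : p ≠ 0) (hp1 : ‖p‖ < 1) {z : k}
    (h : ∀ x, x ≠ 0 → ‖z * x‖ ≤ 1) : z = 0 := by
  by_contra hz
  have := h (z⁻¹ * p⁻¹) (by simp [hz, hp0])
  rw [← mul_assoc, mul_inv_cancel₀ hz, one_mul, norm_inv] at this
  exact absurd this (not_le.2 ((one_lt_inv₀ (norm_pos_iff.2 hp0)).2 hp1))

theorem det_pos (x : GL (Fin 2) k) : 0 < ‖x.val.det‖ := norm_pos_iff.2 x.det_ne_zero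

theorem inv_val (x : GL (Fin 2) k) :
    (x⁻¹).val = (x.val.det)⁻¹ • !![x.val 1 1, -x.val 0 1; -x.val 1 0, x.val 0 0] := by
  rw [Matrix.GeneralLinearGroup.coe_inv, Matrix.inv_def, Matrix.adjugate_fin_two,
    Ring.inverse_eq_inv']

theorem det_inv (x : GL (Fin 2) k) : (x⁻¹).val.det = (x.val.det)⁻¹ := by
  rw [Matrix.GeneralLinearGroup.coe_inv, Matrix.det_nonsing_inv, Ring.inverse_eq_inv']

theorem nm_inv_le (x : GL (Fin 2) k) : nm (x⁻¹).val ≤ nm x.val / ‖x.val.det‖ := by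
  rw [nm_le, inv_val]
  intro i j
  rw [Matrix.smul_apply, smul_eq_mul, norm_mul, norm_inv, inv_mul_eq_div]
  refine div_le_div_of_nonneg_right ?_ (norm_nonneg _)
  fin_cases i <;> fin_cases j <;> simp [le_nm]

/-- The distortion of an invertible matrix. -/
noncomputable def dl (x : GL (Fin 2) k) : ℝ := nm x.val ^ 2 / ‖x.val.det‖

theorem dl_inv_le (x : GL (Fin 2) k) : dl x⁻¹ ≤ dl x := by
  have h := det_pos x
  unfold dl
  rw [det_inv, norm_inv, div_inv_eq_mul]
  calc nm (x⁻¹).val ^ 2 * ‖x.val.det‖ ≤ (nm x.val / ‖x.val.det‖) ^ 2 * ‖x.val.det‖ := by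
        gcongr
        · exact nm_nonneg _
        · exact nm_inv_le x
    _ = _ := by field_simp

theorem dl_inv (x : GL (Fin 2) k) : dl x⁻¹ = dl x :=
  le_antisymm (dl_inv_le x) (by simpa using dl_inv_le x⁻¹)

theorem dl_le {x : GL (Fin 2) k} {t : ℝ} (h : ∀ i j, ‖x.val i j‖ ≤ t) :
    dl x ≤ t ^ 2 / ‖x.val.det‖ := by
  unfold dl
  gcongr
  · exact nm_nonneg _
  · exact nm_le.2 h

theorem le_dl (x : GL (Fin 2) k) (i j : Fin 2) : ‖x.val i j‖ ^ 2 / ‖x.val.det‖ ≤ dl x := by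
  unfold dl
  gcongr
  exact le_nm _ i j

/-- An invertible matrix given by its entries. -/
noncomputable def mt (a b c d : k) (h : a * d - b * c ≠ 0) : GL (Fin 2) k :=
  Matrix.GeneralLinearGroup.mkOfDetNeZero !![a, b; c, d] (by rwa [Matrix.det_fin_two_of])

@[simp] theorem mt_val (a b c d : k) (h : a * d - b * c ≠ 0) :
    (mt a b c d h).val = !![a, b; c, d] := rfl

/-- The matrix `diag (t, 1)`. -/
noncomputable def dg (t : k) (h : t ≠ 0) : GL (Fin 2) k := mt t 0 0 1 (by simpa using h)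

@[simp] theorem dg_val (t : k) (h : t ≠ 0) : (dg t h).val = !![t, 0; 0, 1] := rfl

theorem dg_mul (s t : k) (hs : s ≠ 0) (ht : t ≠ 0) :
    dg s hs * dg t ht = dg (s * t) (mul_ne_zero hs ht) := by
  apply Units.ext
  simp

theorem dg_one : dg (1 : k) one_ne_zero = 1 := by
  apply Units.ext
  simp [Matrix.one_fin_two]

theorem dg_inv (t : k) (ht : t ≠ 0) : (dg t ht)⁻¹ = dg t⁻¹ (inv_ne_zero ht) := by
  rw [inv_eq_iff_mul_eq_one, dg_mul, ← dg_one]
  congr 1
  exact mul_inv_cancel₀ ht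

theorem exists_sl (x : GL (Fin 2) k) (h : x.val.det = 1) :
    ∃ s : SL(2, k), Matrix.SpecialLinearGroup.toGL s = x :=
  ⟨⟨x.val, h⟩, Units.ext rfl⟩

variable [IsUltrametricDist k]

theorem add_le' {a b : k} {t : ℝ} (ha : ‖a‖ ≤ t) (hb : ‖b‖ ≤ t) : ‖a + b‖ ≤ t :=
  (IsUltrametricDist.norm_add_le_max a b).trans (max_le ha hb)

theorem sub_le' {a b : k} {t : ℝ} (ha : ‖a‖ ≤ t) (hb : ‖b‖ ≤ t) : ‖a - b‖ ≤ t := by
  rw [sub_eq_add_neg]
  exact add_le' ha (by rwa [norm_neg])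

theorem nm_mul (x y : Matrix (Fin 2) (Fin 2) k) : nm (x * y) ≤ nm x * nm y := by
  refine nm_le.2 fun i j => ?_
  rw [Matrix.mul_apply, Fin.sum_univ_two]
  exact add_le' (mul_le' (le_nm _ _ _) (le_nm _ _ _)) (mul_le' (le_nm _ _ _) (le_nm _ _ _))

theorem det_le (x : Matrix (Fin 2) (Fin 2) k) : ‖x.det‖ ≤ nm x ^ 2 := by
  rw [Matrix.det_fin_two, sq]
  exact sub_le' (mul_le' (le_nm _ _ _) (le_nm _ _ _)) (mul_le' (le_nm _ _ _) (le_nm _ _ _))

theorem nm_pos (x : GL (Fin 2) k) : 0 < nm x.val := by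
  rcases (nm_nonneg x.val).eq_or_lt with h | h
  · have h1 := det_le x.val
    rw [← h] at h1
    have := det_pos x
    nlinarith
  · exact h

theorem one_le_dl (x : GL (Fin 2) k) : 1 ≤ dl x :=
  (one_le_div (det_pos x)).2 (det_le _)

theorem dl_mul (x y : GL (Fin 2) k) : dl (x * y) ≤ dl x * dl y := by
  unfold dl
  rw [Units.val_mul, Matrix.det_mul, norm_mul, div_mul_div_comm, ← mul_pow]
  gcongr
  · exact nm_nonneg _
  · exact nm_mul _ _

theorem dl_one : dl (1 : GL (Fin 2) k) = 1 := by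
  refine le_antisymm ((dl_le (t := 1) fun i j => ?_).trans (by simp)) (one_le_dl _)
  fin_cases i <;> fin_cases j <;> simp

variable (k) in
/-- The matrices without distortion. -/
def K : Subgroup (GL (Fin 2) k) where
  carrier := {x | dl x ≤ 1}
  one_mem' := dl_one.le
  mul_mem' := fun {x y} hx hy => (dl_mul x y).trans
    (mul_le_one₀ hx (zero_le_one.trans (one_le_dl y)) hy)
  inv_mem' := fun {x} hx => (dl_inv_le x).trans hx

theorem mem_K {x : GL (Fin 2) k} : x ∈ K k ↔ dl x ≤ 1 := Iff.rfl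

theorem dl_mul_K (x : GL (Fin 2) k) {y : GL (Fin 2) k} (hy : y ∈ K k) : dl (x * y) = dl x := by
  have key : ∀ (x y : GL (Fin 2) k), y ∈ K k → dl (x * y) ≤ dl x := fun x y hy =>
    (dl_mul x y).trans (mul_le_of_le_one_right (zero_le_one.trans (one_le_dl x)) hy)
  exact le_antisymm (key x y hy) (by simpa using key (x * y) y⁻¹ ((K k).inv_mem hy))

theorem dl_K_mul (x : GL (Fin 2) k) {y : GL (Fin 2) k} (hy : y ∈ K k) : dl (y * x) = dl x := by
  rw [← dl_inv, mul_inv_rev, dl_mul_K _ ((K k).inv_mem hy), dl_inv]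

theorem mem_K_of_det {x : GL (Fin 2) k} (h : x.val.det = 1) :
    x ∈ K k ↔ ∀ i j, ‖x.val i j‖ ≤ 1 := by
  rw [mem_K, dl, h, norm_one, div_one, ← nm_le, sq_le_one_iff₀ (nm_nonneg _)]

/-- Cartan decomposition. -/
theorem cartan (x : GL (Fin 2) k) (t : k) (ht : t ≠ 0) (h : dl x = ‖t‖⁻¹) :
    ∃ u : GL (Fin 2) k, u.val.det = 1 ∧ u ∈ K k ∧ (dg t ht)⁻¹ * (u * x) ∈ K k := by
  have hN := nm_pos x
  have hD := det_pos x
  have hT : 0 < ‖t‖ := norm_pos_iff.2 ht
  have main : ∀ u : GL (Fin 2) k, u.val.det = 1 → (∀ i j, ‖u.val i j‖ ≤ 1) →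
      (∀ j, ‖(u * x).val 0 j‖ * nm x.val ≤ ‖x.val.det‖) →
      u.val.det = 1 ∧ u ∈ K k ∧ (dg t ht)⁻¹ * (u * x) ∈ K k := by
    intro u hu1 hu2 hu3
    refine ⟨hu1, (mem_K_of_det hu1).2 hu2, ?_⟩
    have hd : ‖x.val.det‖ = ‖t‖ * nm x.val ^ 2 := by
      unfold dl at h
      field_simp at h
      linarith
    have hux : nm (u * x).val ≤ nm x.val :=
      (nm_mul _ _).trans (mul_le_of_le_one_left hN.le (nm_le.2 hu2))
    rw [mem_K, dg_inv]
    refine (dl_le (t := nm x.val) fun i j => ?_).trans (le_of_eq ?_)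
    · rw [Units.val_mul, Matrix.mul_apply, Fin.sum_univ_two]
      fin_cases i
      · have := hu3 j
        rw [hd, sq, ← mul_assoc] at this
        have := le_of_mul_le_mul_right this hN
        simp only [dg_val, Fin.zero_eta, Matrix.of_apply, Matrix.cons_val', Matrix.cons_val_zero,
          Matrix.cons_val_one, Matrix.cons_val_fin_one, zero_mul, add_zero, norm_mul, norm_inv]
        rwa [inv_mul_le_iff₀ hT]
      · simpa using (le_nm (u * x).val 1 j).trans hux
    · rw [Units.val_mul, Units.val_mul, Matrix.det_mul, Matrix.det_mul, hu1, dg_val,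
        Matrix.det_fin_two_of]
      simp only [mul_one, mul_zero, sub_zero, one_mul, norm_mul, norm_inv, hd]
      field_simp
  obtain ⟨i, j, hij⟩ := nm_eq x.val
  have hne : x.val i j ≠ 0 := norm_pos_iff.1 (hij ▸ hN)
  have hq : ∀ i', ‖x.val i' j / x.val i j‖ ≤ 1 := fun i' => by
    rw [norm_div, ← hij]
    exact (div_le_one hN).2 (le_nm _ _ _)
  fin_cases i
  · refine ⟨mt (x.val 1 j / x.val 0 j) (-1) 1 0 (by simp), main _ (by simp) ?_ ?_⟩
    · intro a b
      fin_cases a <;> fin_cases b <;> simp [-norm_div]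
      exact hq 1
    · intro j'
      rw [hij, ← norm_mul, Units.val_mul, Matrix.mul_apply, Fin.sum_univ_two, Matrix.det_fin_two]
      simp only [Fin.zero_eta] at hne
      fin_cases j <;> fin_cases j' <;> simp at hne <;> simp [-norm_mul, add_mul, hne]
      all_goals first
        | (apply le_of_eq; congr 1; field_simp; ring1)
        | (rw [← norm_neg]; apply le_of_eq; congr 1; field_simp; ring1)
  · refine ⟨mt 1 (-(x.val 0 j / x.val 1 j)) 0 1 (by simp), main _ (by simp) ?_ ?_⟩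
    · intro a b
      fin_cases a <;> fin_cases b <;> simp [-norm_div]
      exact hq 0
    · intro j'
      rw [hij, ← norm_mul, Units.val_mul, Matrix.mul_apply, Fin.sum_univ_two, Matrix.det_fin_two]
      fin_cases j <;> fin_cases j' <;> simp at hne <;> simp [-norm_mul, add_mul, hne]
      all_goals first
        | (apply le_of_eq; congr 1; field_simp; ring1)
        | (rw [← norm_neg]; apply le_of_eq; congr 1; field_simp; ring1)

variable (k) in
/-- The vertices of the tree. -/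
abbrev V : Type := GL (Fin 2) k ⧸ K k

/-- The multiplicative distance of two vertices. -/
noncomputable def Dl (v w : V k) : ℝ := dl (v.out⁻¹ * w.out)

theorem Dl_mk (g h : GL (Fin 2) k) : Dl (g : V k) (h : V k) = dl (g⁻¹ * h) := by
  obtain ⟨a, ha⟩ := QuotientGroup.mk_out_eq_mul (K k) g
  obtain ⟨b, hb⟩ := QuotientGroup.mk_out_eq_mul (K k) h
  rw [Dl, ha, hb, mul_inv_rev, mul_assoc, dl_K_mul _ ((K k).inv_mem a.2), ← mul_assoc,
    dl_mul_K _ b.2]

theorem Dl_mul (g h : GL (Fin 2) k) : Dl (g : V k) ((g * h : GL (Fin 2) k) : V k) = dl h := by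
  rw [Dl_mk, inv_mul_cancel_left]

theorem Dl_symm (v w : V k) : Dl v w = Dl w v := by
  rw [Dl, Dl, ← dl_inv, mul_inv_rev, inv_inv]

theorem Dl_self (v : V k) : Dl v v = 1 := by
  rw [Dl, inv_mul_cancel, dl_one]

theorem Dl_tri (u v w : V k) : Dl u w ≤ Dl u v * Dl v w := by
  refine le_trans (le_of_eq ?_) (dl_mul _ _)
  rw [Dl, mul_assoc, mul_inv_cancel_left]

theorem Dl_smul (s : GL (Fin 2) k) (v w : V k) : Dl (s • v) (s • w) = Dl v w := by
  induction v using QuotientGroup.induction_on with | H g => ?_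
  induction w using QuotientGroup.induction_on with | H h => ?_
  rw [MulAction.Quotient.smul_mk, MulAction.Quotient.smul_mk, Dl_mk, Dl_mk, smul_eq_mul,
    smul_eq_mul, mul_inv_rev, mul_assoc, inv_mul_cancel_left]

/-- The tree. -/
def tree {p : k} (hp0 : p ≠ 0) (hp1 : ‖p‖ < 1) : SimpleGraph (V k) where
  Adj v w := Dl v w = ‖p‖⁻¹
  symm := ⟨fun v w h => (Dl_symm w v).trans h⟩
  loopless := ⟨fun v h => by
    rw [Dl_self] at h
    exact ((one_lt_inv₀ (norm_pos_iff.2 hp0)).2 hp1).ne h⟩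

omit [IsUltrametricDist k] in
theorem dl_dg {t : k} (ht : t ≠ 0) (h : ‖t‖ ≤ 1) : dl (dg t ht) = ‖t‖⁻¹ := by
  simp [dl, nm, h]

section Unif

variable {p : k} (hp0 : p ≠ 0) (hp1 : ‖p‖ < 1) (hp : ∀ x : k, ‖x‖ < 1 → ‖x‖ ≤ ‖p‖)

theorem Dl_le_walk {v w : V k} (c : (tree hp0 hp1).Walk v w) : Dl v w ≤ ‖p‖⁻¹ ^ c.length := by
  induction c with
  | nil => simp [Dl_self]
  | @cons u v w h c ih =>
    have h' : Dl u v = ‖p‖⁻¹ := h
    rw [SimpleGraph.Walk.length_cons, pow_succ']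
    refine (Dl_tri u v w).trans ?_
    rw [h']
    gcongr

theorem exists_walk (g : GL (Fin 2) k) (r : ℕ) :
    ∃ c : (tree hp0 hp1).Walk (g : V k) ((g * dg (p ^ r) (pow_ne_zero r hp0) : GL (Fin 2) k) : V k),
      c.length = r := by
  induction r with
  | zero =>
    refine ⟨SimpleGraph.Walk.nil.copy rfl ?_, SimpleGraph.Walk.length_copy _ _ _⟩
    simp [dg_one]
  | succ r ih =>
    obtain ⟨c, hc⟩ := ih
    have hadj : (tree hp0 hp1).Adj ((g * dg (p ^ r) (pow_ne_zero r hp0) : GL (Fin 2) k) : V k)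
        ((g * dg (p ^ (r + 1)) (pow_ne_zero _ hp0) : GL (Fin 2) k) : V k) := by
      have : g * dg (p ^ (r + 1)) (pow_ne_zero _ hp0) =
          g * dg (p ^ r) (pow_ne_zero r hp0) * dg p hp0 := by
        rw [mul_assoc, dg_mul]
        congr 2
        exact pow_succ p r
      change Dl _ _ = _
      rw [this, Dl_mul, dl_dg hp0 hp1.le]
    exact ⟨c.concat hadj, by simp [hc]⟩

include hp0 hp1 hp in
theorem dl_eq_pow (x : GL (Fin 2) k) : ∃ r : ℕ, dl x = ‖p‖⁻¹ ^ r := by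
  have hP : 0 < ‖p‖ := norm_pos_iff.2 hp0
  obtain ⟨r, h1, h2⟩ := exists_nat_pow_near (one_le_dl x) ((one_lt_inv₀ hP).2 hp1)
  refine ⟨r, le_antisymm ?_ h1⟩
  obtain ⟨i, j, hij⟩ := nm_eq x.val
  have hx : dl x = ‖x.val i j ^ 2 / x.val.det‖ := by rw [dl, hij, norm_div, norm_pow]
  have := hp (x.val i j ^ 2 / x.val.det * p ^ (r + 1)) (by
    rw [norm_mul, ← hx, norm_pow]
    rwa [inv_pow, ← one_div, lt_div_iff₀ (by positivity)] at h2)
  rw [norm_mul, ← hx, norm_pow, pow_succ, ← mul_assoc] at this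
  have h3 : dl x * ‖p‖ ^ r ≤ 1 := by
    refine le_of_mul_le_mul_right ?_ hP
    rwa [one_mul]
  rwa [inv_pow, ← one_div, le_div_iff₀ (by positivity)]

include hp0 in
theorem sphere {g h : GL (Fin 2) k} {r : ℕ} (hr : Dl (g : V k) (h : V k) = ‖p‖⁻¹ ^ r) :
    ∃ u : GL (Fin 2) k, u.val.det = 1 ∧ u ∈ K k ∧
      ((g * u * dg (p ^ r) (pow_ne_zero r hp0) : GL (Fin 2) k) : V k) = (h : V k) := by
  obtain ⟨u, hu1, hu2, hu3⟩ := cartan (g⁻¹ * h) (p ^ r) (pow_ne_zero r hp0)
    (by rw [← Dl_mk, hr, norm_pow, inv_pow])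
  refine ⟨u⁻¹, by rw [det_inv, hu1, inv_one], (K k).inv_mem hu2, QuotientGroup.eq.2 ?_⟩
  convert hu3 using 1
  group

theorem walk_of_Dl {v w : V k} {r : ℕ} (hr : Dl v w = ‖p‖⁻¹ ^ r) :
    ∃ c : (tree hp0 hp1).Walk v w, c.length = r := by
  induction v using QuotientGroup.induction_on with | H g => ?_
  induction w using QuotientGroup.induction_on with | H h => ?_
  obtain ⟨u, -, hu2, hu3⟩ := sphere hp0 hr
  obtain ⟨c, hc⟩ := exists_walk hp0 hp1 (g * u) r
  exact ⟨c.copy (QuotientGroup.mk_mul_of_mem g hu2) hu3, by simp [hc]⟩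

include hp in
theorem connected : (tree hp0 hp1).Connected := by
  refine ⟨fun v w => ?_⟩
  obtain ⟨r, hr⟩ := dl_eq_pow hp0 hp1 hp (v.out⁻¹ * w.out)
  obtain ⟨c, -⟩ := walk_of_Dl hp0 hp1 (v := v) (w := w) hr
  exact ⟨c⟩

include hp in
theorem Dl_eq (v w : V k) : Dl v w = ‖p‖⁻¹ ^ (tree hp0 hp1).dist v w := by
  obtain ⟨r, hr⟩ := dl_eq_pow hp0 hp1 hp (v.out⁻¹ * w.out)
  have h1 : 1 < ‖p‖⁻¹ := (one_lt_inv₀ (norm_pos_iff.2 hp0)).2 hp1
  obtain ⟨c, hc⟩ := walk_of_Dl hp0 hp1 (v := v) (w := w) hr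
  obtain ⟨c', hc'⟩ := (connected hp0 hp1 hp).exists_walk_length_eq_dist v w
  refine le_antisymm (hc' ▸ Dl_le_walk hp0 hp1 c') ?_
  rw [Dl, hr]
  exact pow_le_pow_right₀ h1.le (hc ▸ SimpleGraph.dist_le c)

include hp in
theorem trans (v w w' : V k) (h : (tree hp0 hp1).dist v w = (tree hp0 hp1).dist v w') :
    ∃ s : SL(2, k), Matrix.SpecialLinearGroup.toGL s • v = v ∧
      Matrix.SpecialLinearGroup.toGL s • w = w' := by
  have h1 := Dl_eq hp0 hp1 hp v w
  have h2 := Dl_eq hp0 hp1 hp v w'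
  rw [← h] at h2
  generalize (tree hp0 hp1).dist v w = r at h1 h2
  induction v using QuotientGroup.induction_on with | H g => ?_
  induction w using QuotientGroup.induction_on with | H a => ?_
  induction w' using QuotientGroup.induction_on with | H b => ?_
  obtain ⟨u, hu1, hu2, hu3⟩ := sphere hp0 h1
  obtain ⟨u', hu1', hu2', hu3'⟩ := sphere hp0 h2
  obtain ⟨s, hs⟩ := exists_sl (g * (u' * u⁻¹) * g⁻¹) (by
    simp only [Units.val_mul, Matrix.det_mul, det_inv, hu1, hu1']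
    field_simp [g.det_ne_zero])
  refine ⟨s, ?_, ?_⟩
  · rw [hs, MulAction.Quotient.smul_mk, smul_eq_mul, inv_mul_cancel_right]
    exact QuotientGroup.mk_mul_of_mem g ((K k).mul_mem hu2' ((K k).inv_mem hu2))
  · rw [hs, ← hu3, ← hu3', MulAction.Quotient.smul_mk, smul_eq_mul]
    congr 1
    group

end Unif

/-- The norm of the bottom row. -/
noncomputable def rw1 (x : GL (Fin 2) k) : ℝ := max ‖x.val 1 0‖ ‖x.val 1 1‖

omit [IsUltrametricDist k] in
theorem le_rw1 (x : GL (Fin 2) k) (j : Fin 2) : ‖x.val 1 j‖ ≤ rw1 x := by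
  fin_cases j <;> simp [rw1]

omit [IsUltrametricDist k] in
theorem rw1_eq (x : GL (Fin 2) k) : ∃ j, rw1 x = ‖x.val 1 j‖ := by
  rcases max_choice ‖x.val 1 0‖ ‖x.val 1 1‖ with h | h <;> exact ⟨_, h⟩

omit [IsUltrametricDist k] in
theorem rw1_pos (x : GL (Fin 2) k) : 0 < rw1 x := by
  by_contra h
  have h0 : x.val 1 0 = 0 := norm_le_zero_iff.1 ((le_rw1 x 0).trans (not_lt.1 h))
  have h1 : x.val 1 1 = 0 := norm_le_zero_iff.1 ((le_rw1 x 1).trans (not_lt.1 h))
  exact x.det_ne_zero (by simp [Matrix.det_fin_two, h0, h1])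

theorem rw1_mul (x y : GL (Fin 2) k) : rw1 (x * y) ≤ rw1 x * nm y.val := by
  obtain ⟨j, hj⟩ := rw1_eq (x * y)
  rw [hj, Units.val_mul, Matrix.mul_apply, Fin.sum_univ_two]
  exact add_le' (mul_le' (le_rw1 _ _) (le_nm _ _ _)) (mul_le' (le_rw1 _ _) (le_nm _ _ _))

/-- The height of a matrix. -/
noncomputable def lv (x : GL (Fin 2) k) : ℝ := ‖x.val.det‖ / rw1 x ^ 2

theorem lv_mul_K (x : GL (Fin 2) k) {y : GL (Fin 2) k} (hy : y ∈ K k) : lv (x * y) = lv x := by
  have key : ∀ (x y : GL (Fin 2) k), y ∈ K k → lv x ≤ lv (x * y) := fun x y hy => by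
    have h1 := rw1_pos x
    have h2 := rw1_pos (x * y)
    have h3 := det_pos x
    have h4 : nm y.val ^ 2 ≤ ‖y.val.det‖ := (div_le_one (det_pos y)).1 hy
    have h5 : rw1 (x * y) ^ 2 ≤ rw1 x ^ 2 * ‖y.val.det‖ := by
      refine le_trans ?_ (mul_le_mul_of_nonneg_left h4 (by positivity))
      rw [← mul_pow]
      gcongr
      exact rw1_mul x y
    unfold lv
    rw [div_le_div_iff₀ (by positivity) (by positivity), Units.val_mul, Matrix.det_mul, norm_mul,
      mul_assoc, mul_comm ‖y.val.det‖]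
    gcongr
  exact le_antisymm (by simpa using key (x * y) y⁻¹ ((K k).inv_mem hy)) (key x y hy)

/-- The height of a vertex. -/
noncomputable def Lv (v : V k) : ℝ := lv v.out

theorem Lv_mk (g : GL (Fin 2) k) : Lv (g : V k) = lv g := by
  obtain ⟨a, ha⟩ := QuotientGroup.mk_out_eq_mul (K k) g
  rw [Lv, ha, lv_mul_K _ a.2]

section Unif2

variable {p : k} (hp0 : p ≠ 0) (hp1 : ‖p‖ < 1) (hp : ∀ x : k, ‖x‖ < 1 → ‖x‖ ≤ ‖p‖)

include hp0 hp1 hp in
theorem row_small {g h : GL (Fin 2) k} (hh : dl h = ‖p‖⁻¹) (hl : lv g ≤ lv (g * h)) (j : Fin 2) :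
    ‖g.val 1 0 * h.val 0 j + g.val 1 1 * h.val 1 j‖ ≤ ‖p‖ * (rw1 g * nm h.val) := by
  have hP : 0 < ‖p‖ := norm_pos_iff.2 hp0
  have h1 := rw1_pos g
  have h2 := rw1_pos (g * h)
  have h3 := det_pos g
  have h4 := det_pos h
  have h5 := nm_pos h
  have hd : ‖h.val.det‖ = ‖p‖ * nm h.val ^ 2 := by
    unfold dl at hh
    field_simp at hh
    linarith
  have h6 : rw1 (g * h) ^ 2 ≤ ‖p‖ * (rw1 g * nm h.val) ^ 2 := by
    unfold lv at hl
    rw [div_le_div_iff₀ (by positivity) (by positivity), Units.val_mul, Matrix.det_mul, norm_mul,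
      mul_assoc, hd] at hl
    refine (le_of_mul_le_mul_left hl h3).trans (le_of_eq ?_)
    ring
  have h7 : rw1 (g * h) < rw1 g * nm h.val := by
    refine lt_of_pow_lt_pow_left₀ 2 (by positivity) (h6.trans_lt ?_)
    exact mul_lt_of_lt_one_left (by positivity) hp1
  have h8 := (le_rw1 (g * h) j).trans_lt h7
  rw [Units.val_mul, Matrix.mul_apply, Fin.sum_univ_two] at h8
  obtain ⟨a, ha⟩ := rw1_eq g
  obtain ⟨b, c, hb⟩ := nm_eq h.val
  have h9 : rw1 g * nm h.val = ‖g.val 1 a * h.val b c‖ := by rw [ha, hb, norm_mul]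
  have h10 : 0 < rw1 g * nm h.val := by positivity
  have := hp ((g.val 1 0 * h.val 0 j + g.val 1 1 * h.val 1 j) / (g.val 1 a * h.val b c)) (by
    rw [norm_div, ← h9]
    exact (div_lt_one h10).2 h8)
  rwa [norm_div, ← h9, div_le_iff₀ h10] at this

include hp in
theorem acyclic : (tree hp0 hp1).IsAcyclic := by
  refine acyclic_of_level _ Lv fun v w w' hw hw' hl hl' => ?_
  induction v using QuotientGroup.induction_on with | H g => ?_
  induction w using QuotientGroup.induction_on with | H a => ?_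
  induction w' using QuotientGroup.induction_on with | H b => ?_
  obtain ⟨x, rfl⟩ : ∃ x, a = g * x := ⟨g⁻¹ * a, by group⟩
  obtain ⟨y, rfl⟩ : ∃ y, b = g * y := ⟨g⁻¹ * b, by group⟩
  have hx : dl x = ‖p‖⁻¹ := (Dl_mul g x).symm.trans hw
  have hy : dl y = ‖p‖⁻¹ := (Dl_mul g y).symm.trans hw'
  rw [Lv_mk, Lv_mk] at hl hl'
  have rx := row_small hp0 hp1 hp hx hl
  have ry := row_small hp0 hp1 hp hy hl'
  have hP : 0 < ‖p‖ := norm_pos_iff.2 hp0
  have h1 := rw1_pos g
  have h2 := nm_pos x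
  have h3 := nm_pos y
  have hdx : ‖x.val.det‖ = ‖p‖ * nm x.val ^ 2 := by
    have := det_pos x
    unfold dl at hx
    field_simp at hx
    linarith
  have hdy : ‖y.val.det‖ = ‖p‖ * nm y.val ^ 2 := by
    have := det_pos y
    unfold dl at hy
    field_simp at hy
    linarith
  have key : ∀ i j, ‖x.val 0 i * y.val 1 j - x.val 1 i * y.val 0 j‖ ≤
      ‖p‖ * nm x.val * nm y.val := by
    intro i j
    refine le_of_mul_le_mul_left ?_ h1
    have e1 : ∀ a, ‖(g.val 1 0 * x.val 0 i + g.val 1 1 * x.val 1 i) * y.val a j‖ ≤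
        rw1 g * (‖p‖ * nm x.val * nm y.val) := fun a =>
      (mul_le' (rx i) (le_nm y.val a j)).trans (le_of_eq (by ring))
    have e2 : ∀ a, ‖x.val a i * (g.val 1 0 * y.val 0 j + g.val 1 1 * y.val 1 j)‖ ≤
        rw1 g * (‖p‖ * nm x.val * nm y.val) := fun a =>
      (mul_le' (le_nm x.val a i) (ry j)).trans (le_of_eq (by ring))
    obtain ⟨a, ha⟩ := rw1_eq g
    nth_rewrite 1 [ha]
    rw [← norm_mul]
    fin_cases a
    · refine le_of_eq_of_le (congrArg norm ?_) (sub_le' (e1 1) (e2 1))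
      simp only [Fin.zero_eta]
      ring
    · refine le_of_eq_of_le (congrArg norm ?_) (sub_le' (e2 0) (e1 0))
      simp only [Fin.mk_one]
      ring
  refine QuotientGroup.eq.2 ?_
  rw [mul_inv_rev, mul_assoc, inv_mul_cancel_left, mem_K]
  refine (dl_le (t := nm y.val / nm x.val) fun i j => ?_).trans (le_of_eq ?_)
  · have e : ∀ z : k, ‖z‖ ≤ ‖p‖ * nm x.val * nm y.val →
        ‖(x.val.det)⁻¹ * z‖ ≤ nm y.val / nm x.val := fun z hz => by
      rw [norm_mul, norm_inv, inv_mul_le_iff₀ (det_pos x), hdx]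
      refine hz.trans (le_of_eq ?_)
      field_simp
    rw [Units.val_mul, inv_val, Matrix.smul_mul, Matrix.smul_apply, smul_eq_mul, Matrix.mul_apply,
      Fin.sum_univ_two]
    refine e _ ?_
    fin_cases i
    · rw [← norm_neg]
      refine le_of_eq_of_le (congrArg norm ?_) (key 1 j)
      simp
      ring
    · refine le_of_eq_of_le (congrArg norm ?_) (key 0 j)
      simp
      ring
  · rw [Units.val_mul, Matrix.det_mul, det_inv, norm_mul, norm_inv, hdx, hdy]
    field_simp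

theorem three (v : V k) (hfin : ((tree hp0 hp1).neighborSet v).Finite) :
    3 ≤ ((tree hp0 hp1).neighborSet v).ncard := by
  induction v using QuotientGroup.induction_on with | H g => ?_
  have hP : 0 < ‖p‖ := norm_pos_iff.2 hp0
  have hq : 1 < ‖p‖⁻¹ := (one_lt_inv₀ hP).2 hp1
  have ne : ∀ a c : GL (Fin 2) k, c.val.det = 1 → (∃ i j, c.val i j = p⁻¹) →
      ((g * a : GL (Fin 2) k) : V k) ≠ ((g * (a * c) : GL (Fin 2) k) : V k) := by
    rintro a c hc ⟨i, j, hij⟩ h
    have h1 := QuotientGroup.eq.1 h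
    rw [← mul_assoc g, inv_mul_cancel_left, mem_K_of_det hc] at h1
    have h2 := h1 i j
    rw [hij, norm_inv] at h2
    exact absurd h2 (not_le.2 hq)
  have adj : ∀ a : GL (Fin 2) k, dl a = ‖p‖⁻¹ →
      ((g * a : GL (Fin 2) k) : V k) ∈ (tree hp0 hp1).neighborSet (g : V k) := fun a ha =>
    (Dl_mul g a).trans ha
  refine (Set.two_lt_ncard_iff hfin).2 ⟨_, _, _, adj (mt p 0 0 1 (by simpa)) ?_,
    adj (mt 1 0 0 p (by simpa)) ?_, adj (mt p 1 0 1 (by simpa)) ?_, ?_, ?_, ?_⟩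
  · simp [dl, nm, hp1.le]
  · simp [dl, nm, hp1.le]
  · simp [dl, nm, hp1.le]
  · convert ne _ (mt p⁻¹ 0 0 p (by simp [hp0])) (by simp [hp0]) ⟨0, 0, rfl⟩ using 3
    apply Units.ext
    simp [hp0]
  · convert ne _ (mt 1 p⁻¹ 0 1 (by simp)) (by simp) ⟨0, 1, rfl⟩ using 3
    apply Units.ext
    simp [hp0]
  · convert ne _ (mt p 1 0 p⁻¹ (by simp [hp0])) (by simp [hp0]) ⟨1, 1, rfl⟩ using 3
    apply Units.ext
    simp [hp0]

end Unif2

theorem stab_iff (s : SL(2, k)) (g : GL (Fin 2) k) :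
    Matrix.SpecialLinearGroup.toGL s • (g : V k) = (g : V k) ↔
      ∀ i j, ‖((g⁻¹).val * s.val * g.val) i j‖ ≤ 1 := by
  rw [MulAction.Quotient.smul_mk, smul_eq_mul, eq_comm, QuotientGroup.eq, mem_K_of_det]
  · simp only [Units.val_mul, Matrix.SpecialLinearGroup.coe_GL_coe_matrix, mul_assoc]
  · simp only [Units.val_mul, Matrix.det_mul, det_inv, Matrix.SpecialLinearGroup.coe_GL_coe_matrix,
      s.det_coe, one_mul]
    exact inv_mul_cancel₀ g.det_ne_zero

theorem stab [ProperSpace k] (v : V k) :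
    IsCompact {s : SL(2, k) | Matrix.SpecialLinearGroup.toGL s • v = v} ∧
      IsOpen {s : SL(2, k) | Matrix.SpecialLinearGroup.toGL s • v = v} := by
  induction v using QuotientGroup.induction_on with | H g => ?_
  simp only [stab_iff]
  constructor
  · have hC : IsCompact {y : Matrix (Fin 2) (Fin 2) k | ∀ i j, ‖y i j‖ ≤ 1} := by
      have : {y : Matrix (Fin 2) (Fin 2) k | ∀ i j, ‖y i j‖ ≤ 1} =
          Set.univ.pi fun _ : Fin 2 => Set.univ.pi fun _ : Fin 2 => Metric.closedBall (0 : k) 1 := by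
        ext y
        exact ⟨fun h i _ j _ => mem_closedBall_zero_iff.2 (h i j),
          fun h i j => mem_closedBall_zero_iff.1 (h i trivial j trivial)⟩
      rw [this]
      exact isCompact_univ_pi fun _ : Fin 2 => isCompact_univ_pi fun _ : Fin 2 =>
        isCompact_closedBall (0 : k) 1
    refine Eq.subst (motive := fun S : Set SL(2, k) => IsCompact S) (Eq.symm ?_)
      (Matrix.SpecialLinearGroup.isClosedEmbedding_val.isCompact_preimage
        (hC.image (f := fun y => g.val * y * (g⁻¹).val) (by fun_prop)))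
    ext s
    simp only [Set.mem_ofPred_eq]
    constructor
    · intro h
      refine ⟨_, h, ?_⟩
      simp only [← mul_assoc, Units.mul_inv, one_mul, Units.mul_inv_cancel_right]
    · rintro ⟨y, hy, hs⟩
      rw [← hs]
      simp only [← mul_assoc, Units.inv_mul, one_mul, Units.inv_mul_cancel_right]
      exact hy
  · simp only [Set.ofPred_forall]
    refine isOpen_iInter_of_finite fun i => isOpen_iInter_of_finite fun j => ?_
    have hc : Continuous fun s : SL(2, k) => ((g⁻¹).val * s.val * g.val) i j :=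
      ((continuous_const.matrix_mul continuous_subtype_val).matrix_mul
        continuous_const).matrix_elem i j
    convert (IsUltrametricDist.isOpen_closedBall (0 : k) one_ne_zero).preimage hc using 1
    ext s
    simp

theorem kernel {p : k} (hp0 : p ≠ 0) (hp1 : ‖p‖ < 1) (s : SL(2, k))
    (h : ∀ v : V k, Matrix.SpecialLinearGroup.toGL s • v = v) :
    s ∈ Subgroup.center SL(2, k) := by
  have h' := fun g : GL (Fin 2) k => (stab_iff s g).1 (h g)
  have hb : s.val 0 1 = 0 := zero_of_bdd hp0 hp1 fun x hx => by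
    have := h' (dg x⁻¹ (inv_ne_zero hx)) 0 1
    rw [dg_inv] at this
    simpa [Matrix.mul_apply, Fin.sum_univ_two, Matrix.vecMul, dotProduct, mul_comm] using this
  have hc : s.val 1 0 = 0 := zero_of_bdd hp0 hp1 fun x hx => by
    have := h' (dg x hx) 1 0
    rw [dg_inv] at this
    simpa [Matrix.mul_apply, Fin.sum_univ_two, Matrix.vecMul, dotProduct, mul_comm] using this
  have ha : s.val 0 0 - s.val 1 1 = 0 := zero_of_bdd hp0 hp1 fun x _ => by
    have := h' (mt 1 x 0 1 (by simp)) 0 1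
    rw [inv_val] at this
    convert this using 2
    simp [Matrix.mul_apply, Fin.sum_univ_two, Matrix.vecMul, dotProduct, hb, hc]
    ring
  rw [sub_eq_zero] at ha
  refine Subgroup.mem_center_iff.2 fun g => Subtype.ext ?_
  ext i j
  simp only [Matrix.SpecialLinearGroup.coe_mul, Matrix.mul_apply, Fin.sum_univ_two]
  fin_cases i <;> fin_cases j <;> simp [ha, hb, hc, mul_comm]

theorem exists_unif [ProperSpace k] :
    ∃ p : k, p ≠ 0 ∧ ‖p‖ < 1 ∧ ∀ x : k, ‖x‖ < 1 → ‖x‖ ≤ ‖p‖ := by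
  have hC : IsCompact (Metric.ball (0 : k) 1) :=
    (isCompact_closedBall (0 : k) 1).of_isClosed_subset (IsUltrametricDist.isClosed_ball 0 1)
      Metric.ball_subset_closedBall
  obtain ⟨p, hp, hmax⟩ := hC.exists_isMaxOn ⟨0, by simp⟩ continuous_norm.continuousOn
  have hmax' : ∀ x : k, ‖x‖ < 1 → ‖x‖ ≤ ‖p‖ := fun x hx => hmax (mem_ball_zero_iff.2 hx)
  obtain ⟨x, hx0, hx1⟩ := NormedField.exists_norm_lt_one k
  exact ⟨p, norm_pos_iff.1 (hx0.trans_le (hmax' x hx1)), mem_ball_zero_iff.1 hp, hmax'⟩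

end ExTree

theorem sl2_isTreeGroup (k : Type) [NontriviallyNormedField k] [IsUltrametricDist k]
    [LocallyCompactSpace k] : IsTreeGroup SL(2, k) := by
  have : ProperSpace k := .of_nontriviallyNormedField_of_weaklyLocallyCompactSpace k
  obtain ⟨p, hp0, hp1, hp⟩ := ExTree.exists_unif (k := k)
  let i : MulAction SL(2, k) (ExTree.V k) :=
    MulAction.compHom (ExTree.V k) Matrix.SpecialLinearGroup.toGL
  have hfin := ExTree.finite_nbr (G := SL(2, k)) (ExTree.tree hp0 hp1) ExTree.stab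
    (ExTree.trans hp0 hp1 hp)
  exact ⟨ExTree.V k, ExTree.tree hp0 hp1, i,
    ⟨ExTree.connected hp0 hp1 hp, ExTree.acyclic hp0 hp1 hp⟩,
    fun v => ⟨hfin v, ExTree.three hp0 hp1 v (hfin v)⟩,
    fun g v w h => (ExTree.Dl_smul _ v w).trans h, ExTree.stab, ExTree.trans hp0 hp1 hp,
    ExTree.kernel hp0 hp1⟩

end Pool.Agent.Lib.MP_60cbcc_al.H3Z
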