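import Mathlib

/-!
Howe-Moore groups: the definitions used in the statements.
-/

namespace Pool.Agent.Lib.MP_60cbcc_al.H3Z

open Filter Topology BoundedContinuousFunction

/-- The Howe-Moore property: the matrix coefficients of every continuous unitary representation
without non-zero invariant vectors vanish at infinity. -/
def HoweMoore (L : Type) [Group L] [TopologicalSpace L] : Prop :=
  ∀ (H : Type) [NormedAddCommGroup H] [InnerProductSpace ℂ H] [CompleteSpace H]
    (π : L → H → H), (∀ g, IsLinearMap ℂ (π g)) → (∀ g v, ‖π g v‖ = ‖v‖) → (∀ v, π 1 v = v) →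
    (∀ g h v, π (g * h) v = π g (π h v)) → (∀ v, Continuous fun g => π g v) →
    (∀ v, (∀ g, π g v = v) → v = 0) →
    ∀ v w, Tendsto (fun g => inner ℂ (π g v) w) (cocompact L) (𝓝 0)

/-- Left translation of bounded continuous functions. -/
def transl {L : Type} [Group L] [TopologicalSpace L] [IsTopologicalGroup L] (g : L)
    (f : L →ᵇ ℝ) : L →ᵇ ℝ := f.compContinuous ⟨fun x => g⁻¹ * x, by fun_prop⟩

/-- Amenability: there is a mean that is invariant on the uniformly continuous functions. -/
def Amenable (L : Type) [Group L] [TopologicalSpace L] [IsTopologicalGroup L] : Prop :=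
  ∃ m : (L →ᵇ ℝ) →ₗ[ℝ] ℝ, m 1 = 1 ∧ (∀ f, 0 ≤ f → 0 ≤ m f) ∧
    ∀ f, (Continuous fun g => transl g f) → ∀ g, m (transl g f) = m f

/-- Compactly generated, non-discrete, non-amenable, topologically quasi-simple groups with the
Howe-Moore property. -/
def HMType (L : Type) [Group L] [TopologicalSpace L] [IsTopologicalGroup L] : Prop :=
  (∃ S : Set L, IsCompact S ∧ Subgroup.closure S = ⊤) ∧ ¬ DiscreteTopology L ∧ ¬ Amenable L ∧
    Dense (commutator L : Set L) ∧
    (∀ N : Subgroup L, N.Normal → IsClosed (N : Set L) → N ≤ Subgroup.center L ∨ N = ⊤) ∧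
    HoweMoore L

end Pool.Agent.Lib.MP_60cbcc_al.H3Z
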