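import Pool.Agent.Lib.MP_60cbcc_al.H3ZDefs
import Pool.Agent.Lib.MP_60cbcc_al.H3ZHMDefs
import Pool.Agent.Lib.MP_60cbcc_al.H3ZAlgDefs

/-!
The class of factors used in the statement.
-/

namespace Pool.Agent.Lib.MP_60cbcc_al.H3Z

/-- Groups of points of isotropic almost simple algebraic groups over local fields of
characteristic zero, and groups with an open normal Howe-Moore subgroup of finite index whose
centraliser is central. -/
def IsConcrete (G : Type) [Group G] [TopologicalSpace G] [IsTopologicalGroup G] : Prop :=
  IsAlgebraic G ∨ ∃ L : Subgroup G, L.Normal ∧ L.FiniteIndex ∧ IsOpen (L : Set G) ∧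
    Subgroup.centralizer (L : Set G) ≤ Subgroup.center G ∧ HMType L

end Pool.Agent.Lib.MP_60cbcc_al.H3Z
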