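import Pool.Agent.Lib.MP_60cbcc_al.H3ZHMC

namespace Pool.Agent.Lib.MP_60cbcc_al.H3Z

open MeasureTheory

section Factor

open Topology Filter

variable {L : Type} [Group L] [TopologicalSpace L] [IsTopologicalGroup L] [T2Space L]

theorem fm_ne_top (hL : Firm L) {c : L} (hc : c ∉ Subgroup.center L) : dnZ c ≠ ⊤ := by
  intro h
  have hm : ∀ a : L, a * c * a⁻¹ * c⁻¹ ∈ Subgroup.center L := fun a =>
    (h.ge (Subgroup.mem_top a) : a ∈ dnZ c)
  let f : L →* L := MonoidHom.mk' (fun a => a * c * a⁻¹ * c⁻¹) fun a b => by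
    have e := Subgroup.mem_center_iff.1 (hm b)
    calc a * b * c * (a * b)⁻¹ * c⁻¹ = a * (b * c * b⁻¹ * c⁻¹) * (c * a⁻¹ * c⁻¹) := by group
      _ = a * ((b * c * b⁻¹ * c⁻¹) * (c * a⁻¹ * c⁻¹)) := by rw [mul_assoc]
      _ = a * ((c * a⁻¹ * c⁻¹) * (b * c * b⁻¹ * c⁻¹)) := by rw [e]
      _ = _ := by group
  have h0 : commutator L ≤ f.ker := Subgroup.commutator_le.2 fun a _ b _ => by
    rw [MonoidHom.mem_ker, map_commutatorElement, commutatorElement_eq_one_iff_mul_comm]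
    exact Subgroup.mem_center_iff.1 (hm b) _
  have h1 : (commutator L : Set L) ⊆ {a | a * c = c * a} := fun a ha => by
    have := MonoidHom.mem_ker.1 (h0 ha)
    change a * c * a⁻¹ * c⁻¹ = 1 at this
    rw [Set.mem_ofPred_eq]
    calc a * c = (a * c * a⁻¹ * c⁻¹) * (c * a) := by group
      _ = c * a := by rw [this, one_mul]
  have h2 : IsClosed {a : L | a * c = c * a} := isClosed_eq (by fun_prop) (by fun_prop)
  exact hc (Subgroup.mem_center_iff.2 fun a => closure_minimal h1 h2 (hL.perf a))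

theorem fm_seq (hL : Firm L) {c : L} (hc : c ∉ Subgroup.center L) (N : ℕ) :
    ∃ a : Fin N → L, ∀ k l, k ≠ l → (a l)⁻¹ * a k ∉ dnZ c := by
  have h1 : IsClosed (dnZ c : Set L) :=
    dn_center_closed.preimage (f := fun a : L => a * c * a⁻¹ * c⁻¹) (by fun_prop)
  have h2 : Infinite (L ⧸ dnZ c) := by
    by_contra hn
    rw [not_infinite_iff_finite] at hn
    exact fm_ne_top hL hc (hL.nfi _ h1 (Subgroup.finiteIndex_of_finite_quotient))
  let e := Infinite.natEmbedding (L ⧸ dnZ c)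
  refine ⟨fun k => (e k).out, fun k l hkl hm => hkl (Fin.ext (e.injective ?_)).symm⟩
  rw [← QuotientGroup.out_eq' (e l), ← QuotientGroup.out_eq' (e k)]
  exact QuotientGroup.eq.2 hm

variable {Γ M X : Type} [Group Γ] [Countable Γ] [Group M] [TopologicalSpace M]
  [IsTopologicalGroup M] [FirstCountableTopology M] [MulAction Γ X] [MeasurableSpace X]
  {q : Γ →* M} {μ : Measure X} [IsFiniteMeasure μ] [SMulInvariantMeasure Γ X μ]

theorem fm_step1 (hL : Firm L) (hX : ∀ γ : Γ, MeasurableSet {x : X | γ • x = x})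
    (hq : DenseRange q) (i : L →* M) (p : M →* L)
    (hc : ∀ (a : L) (g : M), i a * g * (i a)⁻¹ * g⁻¹ = i (a * p g * a⁻¹ * (p g)⁻¹))
    {g : M} (hg : p g ∉ Subgroup.center L) (h0 : μ (dnD q X {g}) ≠ 0) :
    ∃ n : L, n ∉ Subgroup.center L ∧ μ (dnD q X {i n}) ≠ 0 := by
  obtain ⟨N, hN⟩ := dn_pigeon μ h0
  obtain ⟨a, ha⟩ := fm_seq hL hg N
  obtain ⟨k, l, hkl, h⟩ := hN (fun k => dnD q X (dnC (i (a k)) {g}))
    (fun k => dnD_meas hX (dnC_fin _ (Set.finite_singleton g)).countable)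
    fun k => dn_conj hX hq _ (Set.finite_singleton g)
  refine ⟨a l * ((a l)⁻¹ * a k * p g * ((a l)⁻¹ * a k)⁻¹ * (p g)⁻¹) * (a l)⁻¹,
    fun e => ha k l hkl (dn_center_conj e), fun e => h (measure_mono_null ?_ e)⟩
  rintro x ⟨h1, h2⟩ _ rfl
  have e1 := mem_dnD_dnC.1 h1 g rfl
  have e2 := mem_dnD_dnC.1 h2 g rfl
  have e3 := (dnH q x).mul_mem e1 ((dnH q x).inv_mem e2)
  rw [map_mul, map_mul, ← hc, map_mul, map_inv]
  convert e3 using 1
  group

omit [TopologicalSpace L] [IsTopologicalGroup L] [T2Space L] [TopologicalSpace M]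
  [IsTopologicalGroup M] [FirstCountableTopology M] in
theorem fm_conj_i {i : L →* M} {p : M →* L}
    (hc : ∀ (a : L) (g : M), i a * g * (i a)⁻¹ * g⁻¹ = i (a * p g * a⁻¹ * (p g)⁻¹)) (g : M) (a : L) :
    g * i a * g⁻¹ = i (p g * a * (p g)⁻¹) := by
  have h := hc a⁻¹ g
  rw [mul_assoc a⁻¹, mul_assoc a⁻¹, map_mul i a⁻¹, mul_assoc (i a⁻¹), mul_assoc (i a⁻¹),
    mul_right_inj, map_inv, inv_inv, inv_inv] at h
  exact h

theorem fm_claim [MeasurableConstSMul Γ X] (hL : Firm L)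
    (hX : ∀ γ : Γ, MeasurableSet {x : X | γ • x = x}) (hq : DenseRange q) (i : L →* M)
    (hi : Continuous i) (p : M →* L) (hp : DenseRange fun γ => p (q γ))
    (hc : ∀ (a : L) (g : M), i a * g * (i a)⁻¹ * g⁻¹ = i (a * p g * a⁻¹ * (p g)⁻¹))
    (h0 : μ {x | ∀ a : L, i a ∈ dnH q x} = 0) :
    μ {x | ∃ γ : Γ, γ • x = x ∧ p (q γ) ∉ Subgroup.center L} = 0 := by
  rw [Set.ofPred_exists]
  refine measure_iUnion_null fun γ => ?_
  by_cases hγ : p (q γ) ∈ Subgroup.center L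
  · simp [hγ]
  by_contra hn
  have h1 : μ (dnD q X {q γ}) ≠ 0 := fun e => hn (measure_mono_null (by
    rintro x hx _ rfl
    exact subset_closure ⟨γ, hx.1, rfl⟩) e)
  obtain ⟨n, n1, n2⟩ := fm_step1 hL hX hq i p hc hγ h1
  exact hL.step Γ M X q μ hX hq i hi (p.comp q) hp (fun δ => fm_conj_i hc (q δ)) n n1 n2 h0

end Factor

/-- For almost every point, the stabiliser projects centrally to the factor `L` of `M`, or the
closure of its image in `M` contains `L`. -/
theorem fm_dense_ae {Γ M L X : Type} [Group Γ] [Countable Γ]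
    [Group M] [TopologicalSpace M] [IsTopologicalGroup M] [SecondCountableTopology M] [T2Space M]
    [Group L] [TopologicalSpace L] [IsTopologicalGroup L] [SecondCountableTopology L] [T2Space L]
    (hL : Firm L) (q : Γ →* M) (hq : DenseRange q) (i : L →* M) (hi : Continuous i)
    (p : M →* L) (hp : DenseRange fun γ => p (q γ))
    (hc : ∀ (a : L) (g : M), i a * g * (i a)⁻¹ * g⁻¹ = i (a * p g * a⁻¹ * (p g)⁻¹))
    [MeasurableSpace X] [MulAction Γ X] [MeasurableConstSMul Γ X] (μ : Measure X)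
    [IsFiniteMeasure μ] [SMulInvariantMeasure Γ X μ]
    (hF : ∀ γ : Γ, MeasurableSet {x : X | γ • x = x}) :
    ∀ᵐ x ∂μ, (∀ γ : Γ, γ • x = x → p (q γ) ∈ Subgroup.center L) ∨
      ∀ a : L, i a ∈ closure (q '' {γ | γ • x = x}) := by
  set B : Set X := {x | ∀ a : L, i a ∈ dnH q x} with hB
  have mB : MeasurableSet B := by
    obtain ⟨T, T1, T2⟩ := TopologicalSpace.exists_countable_dense L
    have : B = dnD q X (i '' T) := by
      ext x
      refine ⟨fun hx => Set.forall_mem_image.2 fun a _ => hx a, fun hx a => ?_⟩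
      exact closure_minimal (s := T) (t := i ⁻¹' (dnH q x : Set M))
        (fun b hb => hx _ ⟨b, hb, rfl⟩) ((Subgroup.isClosed_topologicalClosure _).preimage hi)
        (T2 a)
    rw [this]
    exact dnD_meas hF (T1.image _)
  have iB : ∀ (δ : Γ) (x : X), x ∈ B → δ • x ∈ B := by
    intro δ x hx a
    have h1 := dnH_smul δ (hx ((p (q δ))⁻¹ * a * p (q δ)))
    rw [fm_conj_i hc] at h1
    simpa [mul_assoc] using h1
  have iB' : ∀ δ : Γ, (fun x : X => δ • x) ⁻¹' Bᶜ = Bᶜ := fun δ => by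
    ext x
    refine not_congr ⟨fun h => ?_, iB δ x⟩
    simpa using iB δ⁻¹ _ h
  have : SMulInvariantMeasure Γ X (μ.restrict Bᶜ) := ⟨fun δ s hs => by
    rw [Measure.restrict_apply' mB.compl, Measure.restrict_apply' mB.compl]
    conv_lhs => rw [← iB' δ, ← Set.preimage_inter]
    exact measure_preimage_smul μ δ _⟩
  have h0 := fm_claim (μ := μ.restrict Bᶜ) hL hF hq i hi p hp hc (by
    rw [Measure.restrict_apply' mB.compl, ← hB, Set.inter_compl_self, measure_empty])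
  rw [Measure.restrict_apply' mB.compl] at h0
  filter_upwards [measure_eq_zero_iff_ae_notMem.1 h0] with x hx
  by_cases e : x ∈ B
  · exact Or.inr e
  · exact Or.inl fun γ hγ => not_not.1 fun a => hx ⟨⟨γ, hγ, a⟩, e⟩

end Pool.Agent.Lib.MP_60cbcc_al.H3Z
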