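import Mathlib

/-!
Lattice embeddings of countable groups.
-/

namespace Pool.Agent.Lib.MP_60cbcc_al.H3Z

open MeasureTheory

/-- An injective proper homomorphism whose image has a covering set of finite Haar measure. -/
structure Lat {Γ G : Type} [Group Γ] [Group G] [TopologicalSpace G] [MeasurableSpace G]
    (j : Γ →* G) : Prop where
  inj : Function.Injective j
  fin : ∀ K : Set G, IsCompact K → {γ | j γ ∈ K}.Finite
  cov : ∃ (m : Measure G) (Ω : Set G), m.IsHaarMeasure ∧ m Ω ≠ ⊤ ∧ ∀ᵐ g ∂m, ∃ γ, j γ * g ∈ Ω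

end Pool.Agent.Lib.MP_60cbcc_al.H3Z
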