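import Pool.Agent.Lib.MP_60cbcc_al.H8WProd

/-!
Measurable fundamental domains, the invariant measure on a coset space and unimodularity.
-/

namespace Pool.Agent.Lib.MP_60cbcc_al.H8W

open MeasureTheory Set Filter Topology
open scoped ENNReal Pointwise

variable {G : Type} [Group G] [MeasurableSpace G] {Λ : Subgroup G} {r : G → Λ} {μ : Measure G}

/-- Measurable maps to `Λ` that commute with right multiplication. -/
structure Sel (Λ : Subgroup G) (r : G → Λ) : Prop where
  meas : Measurable r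
  eqv : ∀ g (l : Λ), r (g * l) = r g * l

/-- The section of the coset space with values in the fundamental domain. -/
noncomputable def sec (r : G → Λ) (x : G ⧸ Λ) : G := x.out * (r x.out : G)⁻¹

/-- The measure on the coset space. -/
noncomputable def qm (μ : Measure G) (r : G → Λ) : Measure (G ⧸ Λ) :=
  (μ.restrict {g | r g = 1}).map QuotientGroup.mk

instance [SFinite μ] : SFinite (qm μ r) := by unfold qm; infer_instance

theorem Sel.sec_mk (h : Sel Λ r) (g : G) : sec r (g : G ⧸ Λ) = g * (r g : G)⁻¹ := by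
  obtain ⟨l, hl⟩ := QuotientGroup.mk_out_eq_mul Λ g
  simp [sec, hl, h.eqv]

omit [MeasurableSpace G] in
theorem mk_sec (x : G ⧸ Λ) : ((sec r x : G) : G ⧸ Λ) = x := by
  rw [sec, QuotientGroup.mk_mul_of_mem _ (Λ.inv_mem (r _).2), QuotientGroup.out_eq']

variable [MeasurableMul₂ G] [MeasurableInv G]

theorem Sel.meas_sec (h : Sel Λ r) : Measurable (sec r) := by
  rw [QuotientGroup.measurable_from_quotient]
  have : sec r ∘ QuotientGroup.mk = fun g => g * (r g : G)⁻¹ := funext h.sec_mk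
  rw [this]
  exact measurable_id.mul (measurable_subtype_coe.comp h.meas).inv

theorem Sel.smul₂ (h : Sel Λ r) : MeasurableSMul₂ G (G ⧸ Λ) := by
  constructor
  have : (fun p : G × (G ⧸ Λ) => p.1 • p.2) = fun p => ((p.1 * sec r p.2 : G) : G ⧸ Λ) := by
    ext p; nth_rewrite 1 [← mk_sec (r := r) p.2]; rfl
  change Measurable fun p : G × (G ⧸ Λ) => p.1 • p.2
  rw [this]
  exact QuotientGroup.measurable_coe.comp (measurable_fst.mul (h.meas_sec.comp measurable_snd))

omit [MeasurableMul₂ G] [MeasurableInv G] in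
theorem meas_mk {β : Type} [MeasurableSpace β] {φ : G ⧸ Λ → β} (hφ : Measurable φ) :
    Measurable fun g : G => φ g := hφ.comp QuotientGroup.measurable_coe

variable [MeasurableSingletonClass G]

omit [MeasurableMul₂ G] [MeasurableInv G] in
theorem Sel.mD (h : Sel Λ r) (l : Λ) : MeasurableSet {g | r g = l} :=
  h.meas (measurableSet_singleton l)

omit [MeasurableMul₂ G] [MeasurableInv G] [MeasurableSingletonClass G] in
theorem lint_qm {φ : G ⧸ Λ → ℝ≥0∞} (hφ : Measurable φ) :
    ∫⁻ x, φ x ∂qm μ r = ∫⁻ g in {g | r g = 1}, φ g ∂μ :=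
  lintegral_map hφ QuotientGroup.measurable_coe

variable [Countable Λ] [μ.IsMulRightInvariant]

omit [MeasurableInv G] in
theorem Sel.unf (h : Sel Λ r) {ψ : G → ℝ≥0∞} (hψ : Measurable ψ) :
    ∫⁻ g, ψ g ∂μ = ∫⁻ g in {g | r g = 1}, ∑' l : Λ, ψ (g * l) ∂μ := by
  rw [lintegral_tsum (f := fun (l : Λ) g => ψ (g * l))
    fun l => (hψ.comp (measurable_mul_const (l : G))).aemeasurable]
  have e : ∀ g, ψ g = ∑' l : Λ, {g | r g = l}.indicator ψ g := fun g => by
    rw [tsum_eq_single (r g) fun l hl => by simp [indicator, hl.symm]]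
    simp [indicator]
  rw [lintegral_congr e, lintegral_tsum fun l => (hψ.indicator (h.mD l)).aemeasurable]
  refine tsum_congr fun l => ?_
  rw [← lintegral_mul_right_eq_self _ (l : G), ← lintegral_indicator (h.mD 1)]
  refine lintegral_congr fun g => ?_
  by_cases hg : r g = 1
  · rw [indicator_of_mem (by simpa [h.eqv] using hg), indicator_of_mem (by simpa using hg)]
  · rw [indicator_of_notMem (by simpa [h.eqv] using hg), indicator_of_notMem (by simpa using hg)]

omit [MeasurableInv G] in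
theorem Sel.shift (h : Sel Λ r) (s : G) {φ : G ⧸ Λ → ℝ≥0∞} (hφ : Measurable φ) :
    ∫⁻ g in {g | r (s * g) = 1}, φ g ∂μ = ∫⁻ x, φ x ∂qm μ r := by
  have hm : MeasurableSet {g | r (s * g) = 1} := measurable_const_mul s (h.mD 1)
  rw [lint_qm hφ, ← lintegral_indicator hm,
    h.unf ((meas_mk hφ).indicator hm)]
  refine lintegral_congr fun g => ?_
  rw [tsum_eq_single (r (s * g))⁻¹ fun l hl => indicator_of_notMem (fun h' => hl ?_) _,
    indicator_of_mem (by simp only [mem_ofPred_eq, ← mul_assoc, h.eqv, mul_inv_cancel])]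
  · exact congrArg φ (QuotientGroup.mk_mul_of_mem _ (Subtype.prop _))
  · rw [mem_ofPred_eq, ← mul_assoc, h.eqv] at h'
    exact eq_inv_of_mul_eq_one_right h'

theorem Sel.inv (h : Sel Λ r) [μ.IsMulLeftInvariant] :
    SMulInvariantMeasure G (G ⧸ Λ) (qm μ r) := by
  have := h.smul₂
  refine ⟨fun s A hA => ?_⟩
  have hA' : MeasurableSet ((s • ·) ⁻¹' A) := measurable_const_smul s hA
  rw [← lintegral_indicator_one hA, ← lintegral_indicator_one hA',
    lint_qm (measurable_one.indicator hA'), ← h.shift s⁻¹ (measurable_one.indicator hA),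
    ← lintegral_indicator (h.mD 1), ← lintegral_indicator
      (show MeasurableSet {g | r (s⁻¹ * g) = 1} from measurable_const_mul s⁻¹ (h.mD 1)),
    ← lintegral_mul_left_eq_self _ s⁻¹]
  refine lintegral_congr fun g => ?_
  by_cases hg : r (s⁻¹ * g) = 1
  · rw [indicator_of_mem (by simpa using hg), indicator_of_mem (s := {g | r (s⁻¹ * g) = 1}) hg]
    by_cases hA : (g : G ⧸ Λ) ∈ A
    · rw [indicator_of_mem (by simpa using hA), indicator_of_mem hA]; rfl
    · rw [indicator_of_notMem (by simpa using hA), indicator_of_notMem hA]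
  · rw [indicator_of_notMem (by simpa using hg),
      indicator_of_notMem (s := {g | r (s⁻¹ * g) = 1}) hg]

end Pool.Agent.Lib.MP_60cbcc_al.H8W

namespace Pool.Agent.Lib.MP_60cbcc_al.H8W

open MeasureTheory Set Filter Topology
open scoped ENNReal Pointwise

variable {G : Type} [Group G] [TopologicalSpace G] [IsTopologicalGroup G] [T2Space G]
  {Λ : Subgroup G}

theorem fin_cpt (Λ : Subgroup G) [DiscreteTopology Λ] {C : Set G} (hC : IsCompact C) :
    {γ : Λ | γ.1 ∈ C}.Finite := by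
  have := Λ.tendsto_coe_cofinite_of_discrete (isDiscrete_iff_discreteTopology.2 ‹_›)
    hC.compl_mem_cocompact
  exact (show (Subtype.val ⁻¹' C).Finite by simpa using this)

omit [IsTopologicalGroup G] [T2Space G] in
theorem count_disc [SecondCountableTopology G] (Λ : Subgroup G) [DiscreteTopology Λ] :
    Countable Λ := TopologicalSpace.separableSpace_iff_countable.1 inferInstance

variable [MeasurableSpace G] [BorelSpace G] [SecondCountableTopology G] [LocallyCompactSpace G]
  [DiscreteTopology Λ] {r : G → Λ} {μ : Measure G}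

theorem exists_sel' {C : Set G} (hC : IsCompact C) (h : ∀ g, ∃ γ ∈ Λ, g * γ ∈ C) :
    ∃ (r : G → Λ) (C' : Set G), Sel Λ r ∧ IsCompact C' ∧ ∀ g, g * (r g : G)⁻¹ ∈ C' := by
  classical
  have := count_disc Λ
  obtain ⟨W, hW, hWc, hW1⟩ : ∃ W ∈ 𝓝 (1 : G), IsCompact W ∧
      ∀ u ∈ W, ∀ w ∈ W, u⁻¹ * w ∈ Λ → u = w := by
    obtain ⟨V, hV, hV'⟩ := isOpen_induced_iff.1 (isOpen_discrete ({1} : Set Λ))
    have h1 : (1 : G) ∈ V := by simpa using hV'.ge rfl
    have h2 := (show Continuous fun p : G × G => p.1⁻¹ * p.2 by fun_prop).continuousAt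
      (x := (1, 1)).eventually (hV.mem_nhds (by simpa using h1))
    rw [nhds_prod_eq, eventually_prod_iff] at h2
    obtain ⟨pa, ha, pb, hb, hab⟩ := h2
    obtain ⟨W, hW, hWs, hWc⟩ := local_compact_nhds (inter_mem ha hb)
    refine ⟨W, hW, hWc, fun u hu w hw huw => inv_mul_eq_one.1 ?_⟩
    exact congrArg Subtype.val (hV'.le (show (⟨_, huw⟩ : Λ) ∈ _ from hab (hWs hu).1 (hWs hw).2))
  obtain ⟨t, -, ht⟩ := hC.elim_nhds_subcover (fun x => {y | x⁻¹ * y ∈ W}) fun x _ =>
    (continuous_const_mul x⁻¹).continuousAt.preimage_mem_nhds (by simpa using hW)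
  obtain ⟨e, he⟩ := (t.finite_toSet.insert 1).countable.exists_eq_range (insert_nonempty _ _)
  have ex : ∀ g, ∃ n, ∃ l : Λ, (e n)⁻¹ * (g * (l : G)⁻¹) ∈ W := fun g => by
    obtain ⟨γ, hγ, hg⟩ := h g
    obtain ⟨x, hx, hx'⟩ := mem_iUnion₂.1 (ht hg)
    obtain ⟨n, rfl⟩ := he.le (.inr hx)
    exact ⟨n, ⟨γ, hγ⟩⁻¹, by simpa using hx'⟩
  have hN : Measurable fun g => Nat.find (ex g) := measurable_find ex fun k => by
    rw [ofPred_exists]
    exact .iUnion fun l => (by fun_prop : Measurable fun g => (e k)⁻¹ * (g * (l : G)⁻¹))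
      hWc.measurableSet
  choose r hr using fun g => Nat.find_spec (ex g)
  have ch : ∀ g (l : Λ), (e (Nat.find (ex g)))⁻¹ * (g * (l : G)⁻¹) ∈ W → r g = l := fun g l hl => by
    have := hW1 _ (hr g) _ hl (by simpa [mul_assoc] using Λ.mul_mem (r g).2 (Λ.inv_mem l.2))
    exact Subtype.ext (by simpa using this)
  refine ⟨r, insert 1 (t : Set G) * W, ⟨measurable_to_countable' fun l => ?_, fun g l => ch _ _ ?_⟩,
    (t.finite_toSet.insert 1).isCompact.mul hWc, 
    fun g => ⟨_, he.ge ⟨Nat.find (ex g), rfl⟩, _, hr g, by simp⟩⟩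
  · have : r ⁻¹' {l} = (fun g => (e (Nat.find (ex g)))⁻¹ * (g * (l : G)⁻¹)) ⁻¹' W :=
      Set.ext fun g => ⟨fun h => by simpa [show r g = l from h] using hr g, ch g l⟩
    rw [this]
    exact (((measurable_of_countable e).comp hN).inv.mul (measurable_mul_const _))
      hWc.measurableSet
  · rw [show Nat.find (ex (g * l)) = Nat.find (ex g) from Nat.find_congr'
      ⟨fun ⟨k, hk⟩ => ⟨k * l⁻¹, by simpa [mul_assoc] using hk⟩,
        fun ⟨k, hk⟩ => ⟨k * l, by simpa [mul_assoc] using hk⟩⟩]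
    simpa [mul_assoc] using hr g

theorem exists_sel {C : Set G} (hC : IsCompact C) (h : ∀ g, ∃ γ ∈ Λ, g * γ ∈ C) :
    ∃ (r : G → Λ) (C' : Set G), Sel Λ r ∧ IsCompact C' ∧ (∀ g, g * (r g : G)⁻¹ ∈ C') ∧
      ∀ γ : Λ, r γ = γ := by
  obtain ⟨r, C', s, h1, h2⟩ := exists_sel' hC h
  refine ⟨fun g => (r 1)⁻¹ * r g, C' * {(r 1 : G)}, ⟨s.meas.const_mul _, fun g l => by
    rw [s.eqv, mul_assoc]⟩, h1.mul isCompact_singleton,
    fun g => ⟨_, h2 g, _, rfl, by simp [mul_assoc]⟩, fun γ => ?_⟩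
  simp only
  rw [← one_mul (γ : G), s.eqv, inv_mul_cancel_left]

omit [LocallyCompactSpace G] in
theorem Sel.sp (h : Sel Λ r) [μ.IsMulRightInvariant] : Sp μ (qm μ r) ((1 : G) : G ⧸ Λ) := by
  have := count_disc Λ
  have e : ∀ g : G, g • ((1 : G) : G ⧸ Λ) = g := fun g => by simp
  have ms : ∀ K : Set G, IsCompact K → MeasurableSet (QuotientGroup.mk '' K : Set (G ⧸ Λ)) :=
    fun K hK => by
      change MeasurableSet (QuotientGroup.mk ⁻¹' _)
      rw [QuotientGroup.preimage_image_mk]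
      exact .iUnion fun l => measurable_mul_const _ hK.measurableSet
  refine ⟨⟨sec r, h.meas_sec, fun x => by rw [e, mk_sec]⟩, fun K hK => ?_,
    by simpa only [e] using ms, fun K hK φ hφ => ?_⟩
  · refine ⟨∑' l : Λ, {l : Λ | l.1 ∈ K⁻¹ * K}.indicator 1 l, ?_, fun φ hφ => ?_⟩
    · rw [tsum_eq_sum (s := (fin_cpt Λ (hK.inv.mul hK)).toFinset) fun l hl =>
        indicator_of_notMem (by simpa using hl) _]
      exact ENNReal.sum_ne_top.2 fun l _ => ne_top_of_le_ne_top ENNReal.one_ne_top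
        (indicator_le_self _ _ l)
    simp only [e]
    rw [← lintegral_indicator hK.measurableSet, lint_qm hφ,
      h.unf ((meas_mk hφ).indicator hK.measurableSet),
      ← lintegral_const_mul _ (meas_mk hφ)]
    refine lintegral_mono fun g => ?_
    by_cases hg : ∃ l : Λ, g * l ∈ K
    · obtain ⟨l₀, h0⟩ := hg
      simp only
      rw [← (Equiv.mulLeft l₀).tsum_eq, ← ENNReal.tsum_mul_right]
      refine ENNReal.tsum_le_tsum fun l => ?_
      by_cases hl : g * (l₀ * l : Λ) ∈ K
      · rw [Equiv.coe_mulLeft, indicator_of_mem hl, indicator_of_mem (s := {l : Λ | l.1 ∈ K⁻¹ * K})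
          (show l.1 ∈ K⁻¹ * K from ⟨(g * l₀)⁻¹, by simpa using h0, _, hl, by simp [mul_assoc]⟩)]
        simp [QuotientGroup.mk_mul_of_mem _ (Λ.mul_mem l₀.2 l.2)]
      · rw [Equiv.coe_mulLeft, indicator_of_notMem hl]; exact zero_le
    · simp [indicator_of_notMem (not_exists.1 hg _)]
  · simp only [e]
    rw [← lintegral_indicator (ms K hK), ← lintegral_indicator hK.measurableSet,
      lint_qm (hφ.indicator (ms K hK)),
      h.unf ((meas_mk hφ).indicator hK.measurableSet)]
    refine lintegral_mono fun g => ?_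
    by_cases hg : (g : G ⧸ Λ) ∈ QuotientGroup.mk '' K
    · obtain ⟨k, hk, hk'⟩ := id hg
      refine le_trans (le_of_eq ?_) (ENNReal.le_tsum ⟨g⁻¹ * k, QuotientGroup.eq.1 hk'.symm⟩)
      simp [indicator_of_mem hg, indicator_of_mem hk, hk']
    · simp [indicator_of_notMem hg]

omit [LocallyCompactSpace G] in
theorem Sel.pos (h : Sel Λ r) [μ.IsMulRightInvariant] [μ.IsOpenPosMeasure] :
    μ {g | r g = 1} ≠ 0 := fun h0 => by
  have := count_disc Λ
  have h1 := h.unf (μ := μ) (ψ := fun _ => 1) measurable_const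
  rw [setLIntegral_measure_zero _ _ h0, lintegral_one] at h1
  exact (isOpen_univ.measure_pos μ univ_nonempty).ne' h1

theorem Sel.unimod (h : Sel Λ r) {C : Set G} (hC : IsCompact C) (hr : ∀ g, g * (r g : G)⁻¹ ∈ C)
    (μ : Measure G) [μ.IsHaarMeasure] : μ.IsMulRightInvariant := by
  have := count_disc Λ
  refine ⟨fun s => ?_⟩
  have h1 := Measure.isMulLeftInvariant_eq_smul (μ.map (· * s)) μ
  have h2 := h.shift (μ := μ.inv) s⁻¹ (φ := fun _ => 1) measurable_const
  rw [lint_qm measurable_const, setLIntegral_one, setLIntegral_one, Measure.inv_apply,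
    Measure.inv_apply] at h2
  have h3 : μ {g | r g = 1}⁻¹ ≠ 0 := by rw [← Measure.inv_apply]; exact h.pos
  have h4 : μ {g | r g = 1}⁻¹ ≠ ∞ := ne_top_of_le_ne_top hC.inv.measure_ne_top
    (measure_mono (inv_subset_inv.2 fun g hg => by simpa [show r g = 1 from hg] using hr g))
  have h5 : μ.map (· * s) {g | r g = 1}⁻¹ = μ {g | r g = 1}⁻¹ := by
    rw [Measure.map_apply (measurable_mul_const s) (h.mD 1).inv, ← h2]
    congr 1; ext g; simp
  rw [h1, Measure.smul_apply, ENNReal.smul_def, smul_eq_mul] at h5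
  rw [h1, ENNReal.coe_eq_one.1 ((ENNReal.mul_left_inj h3 h4).1 (h5.trans (one_mul _).symm)),
    one_smul]

end Pool.Agent.Lib.MP_60cbcc_al.H8W
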