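import Pool.Agent.Lib.MP_60cbcc_al.H3ZFac
import Pool.Agent.Lib.MP_60cbcc_al.H3ZLat
import Pool.Agent.Lib.MP_60cbcc_al.H8WDom

/-!
Elementary facts on groups, products, lattices and actions.
-/

namespace Pool.Agent.Lib.MP_60cbcc_al.H3Z

open MeasureTheory MulAction

set_option linter.unusedSectionVars false

section groups

variable {G : Type} [Group G] [TopologicalSpace G] [IsTopologicalGroup G] [T2Space G]

theorem w1_closed_center : IsClosed (Subgroup.center G : Set G) := by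
  have := Set.isClosed_centralizer (Set.univ : Set G)
  rwa [Set.centralizer_univ] at this

/-- An element all of whose commutators are central is central. -/
theorem w1_central (hp : Dense (commutator G : Set G)) {g : G}
    (h : ∀ a, a * g * a⁻¹ * g⁻¹ ∈ Subgroup.center G) : g ∈ Subgroup.center G := by
  let f : G →* Subgroup.center G := MonoidHom.mk' (fun a => ⟨_, h a⟩) fun a b => by
    apply Subtype.ext
    have h1 := Subgroup.mem_center_iff.1 (h b) a
    have h2 := Subgroup.mem_center_iff.1 (h b) (a * g * a⁻¹ * g⁻¹)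
    change a * b * g * (a * b)⁻¹ * g⁻¹ = a * g * a⁻¹ * g⁻¹ * (b * g * b⁻¹ * g⁻¹)
    rw [h2]
    calc a * b * g * (a * b)⁻¹ * g⁻¹ = a * (b * g * b⁻¹ * g⁻¹) * (g * a⁻¹ * g⁻¹) := by group
      _ = _ := by rw [h1]; group
  have h0 : commutator G ≤ f.ker := by
    rw [commutator_def, Subgroup.commutator_le]
    intro a _ b _
    rw [MonoidHom.mem_ker, map_commutatorElement, commutatorElement_eq_one_iff_mul_comm]
    exact Subtype.ext (Subgroup.mem_center_iff.1 (f b).2 (f a))
  have h1 : ∀ a, a * g * a⁻¹ * g⁻¹ = 1 :=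
    hp.induction (fun a ha => congrArg Subtype.val (show f a = 1 from h0 ha))
      (isClosed_eq (by fun_prop) continuous_const)
  refine Subgroup.mem_center_iff.2 fun a => ?_
  calc a * g = a * g * a⁻¹ * g⁻¹ * (g * a) := by group
    _ = g * a := by rw [h1, one_mul]

omit [T2Space G] in
theorem w1_two {D C : Set G} (hD : Dense D) (hC : IsClosed C)
    (h : ∀ a ∈ D, ∀ b ∈ D, a * b * a⁻¹ * b⁻¹ ∈ C) (a b : G) : a * b * a⁻¹ * b⁻¹ ∈ C :=
  (hD.prod hD).induction (P := fun z : G × G => z.1 * z.2 * z.1⁻¹ * z.2⁻¹ ∈ C)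
    (fun z hz => h _ hz.1 _ hz.2) (hC.preimage (by fun_prop)) (a, b)

omit [T2Space G] in
theorem w1_comm_dense {Γ : Type} [Group Γ] (hp : Dense (commutator G : Set G)) (f : Γ →* G)
    (H : Subgroup Γ) (hd : Dense (f '' H)) : Dense (f '' (⁅H, H⁆ : Subgroup Γ)) := by
  have h1 : (commutator G : Set G) ⊆ (⁅H, H⁆.map f).topologicalClosure := by
    rw [SetLike.coe_subset_coe, commutator_def, Subgroup.commutator_le]
    intro a _ b _
    refine w1_two hd (Subgroup.isClosed_topologicalClosure _) ?_ a b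
    rintro _ ⟨x, hx, rfl⟩ _ ⟨y, hy, rfl⟩
    refine Subgroup.le_topologicalClosure _ ⟨_, Subgroup.commutator_mem_commutator hx hy, ?_⟩
    rw [map_commutatorElement, commutatorElement_def]
  exact dense_closure.1 (hp.mono h1)

theorem w1_closed_of_fin {Y : Type} [TopologicalSpace Y] [T2Space Y] [LocallyCompactSpace Y]
    {S : Set Y} (h : ∀ K, IsCompact K → (S ∩ K).Finite) : IsClosed S := by
  refine (CompactlyCoherentSpace.isClosed_iff S).2 fun K hK => ?_
  exact (((h K hK).preimage Subtype.val_injective.injOn).subset fun x hx => ⟨hx, x.2⟩).isClosed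

theorem w1_disc [LocallyCompactSpace G] (h : ∀ K : Set G, IsCompact K → K.Finite) :
    DiscreteTopology G := by
  obtain ⟨K, hK, h1⟩ := exists_compact_mem_nhds (1 : G)
  exact discreteTopology_of_isOpen_singleton_one
    (isOpen_singleton_of_finite_mem_nhds 1 h1 (h K hK))

end groups

section prods

variable {κ : Type} [Finite κ] [DecidableEq κ] {A : κ → Type} [∀ i, Group (A i)]
  [∀ i, TopologicalSpace (A i)] [∀ i, IsTopologicalGroup (A i)]

theorem w1_single_comm (k : κ) (a : A k) (g : ∀ i, A i) :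
    MonoidHom.mulSingle A k a * g * (MonoidHom.mulSingle A k a)⁻¹ * g⁻¹ =
      MonoidHom.mulSingle A k (a * g k * a⁻¹ * (g k)⁻¹) := by
  funext t
  by_cases h : t = k
  · subst h
    simp
  · simp [Pi.mulSingle_eq_of_ne h]

theorem w1_pi_dense {Γ : Type} [Group Γ] (q : Γ →* ∀ i, A i) (H : Subgroup Γ)
    (h : ∀ k (a : A k), MonoidHom.mulSingle A k a ∈ closure (q '' H)) : Dense (q '' H) :=
  fun x => Subgroup.pi_mem_of_mulSingle_mem (H := (H.map q).topologicalClosure) x fun k => h k _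

theorem w1_pi_perf (h : ∀ k, Dense (commutator (A k) : Set (A k))) :
    Dense (commutator (∀ i, A i) : Set (∀ i, A i)) := by
  intro x
  refine Subgroup.pi_mem_of_mulSingle_mem (H := (commutator (∀ i, A i)).topologicalClosure) x
    fun k => ?_
  refine (h k).induction
    (P := fun a => Pi.mulSingle k a ∈ (commutator (∀ i, A i)).topologicalClosure) (fun a ha => ?_)
    ((Subgroup.isClosed_topologicalClosure _).preimage (continuous_mulSingle k)) _
  refine Subgroup.le_topologicalClosure _ ?_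
  have h1 : (commutator (A k)).map (MonoidHom.mulSingle A k) ≤ commutator (∀ i, A i) := by
    rw [commutator_def, Subgroup.map_commutator]
    exact Subgroup.commutator_mono le_top le_top
  exact h1 ⟨a, ha, rfl⟩

theorem w1_pi_cg (h : ∀ k, ∃ S : Set (A k), IsCompact S ∧ Subgroup.closure S = ⊤) :
    ∃ S : Set (∀ i, A i), IsCompact S ∧ Subgroup.closure S = ⊤ := by
  choose S hS hS' using h
  refine ⟨⋃ k, MonoidHom.mulSingle A k '' S k,
    isCompact_iUnion fun k => (hS k).image (continuous_mulSingle k), ?_⟩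
  refine top_unique fun x _ => Subgroup.pi_mem_of_mulSingle_mem x fun k => ?_
  have h1 : Subgroup.closure (MonoidHom.mulSingle A k '' S k) =
      (⊤ : Subgroup (A k)).map (MonoidHom.mulSingle A k) := by
    rw [← MonoidHom.map_closure, hS']
  refine Subgroup.closure_mono (Set.subset_iUnion (fun k => MonoidHom.mulSingle A k '' S k) k) ?_
  rw [h1]
  exact ⟨x k, trivial, rfl⟩

theorem w1_proj_dense {Γ : Type} [Group Γ] (q : Γ →* ∀ i, A i) (H : Set Γ) (k : κ)
    (h : ∀ a : A k, MonoidHom.mulSingle A k a ∈ closure (q '' H)) :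
    Dense ((fun γ => q γ k) '' H) := by
  intro a
  have h1 := image_closure_subset_closure_image (continuous_apply k) ⟨_, h a, rfl⟩
  rw [Set.image_image] at h1
  simpa using h1

/-- A discrete subgroup normalised by a dense subgroup projects into the centre. -/
theorem w1_norm [∀ i, T2Space (A i)] [∀ i, LocallyCompactSpace (A i)] {Γ : Type} [Group Γ]
    (q : Γ →* ∀ i, A i) (hq : DenseRange q) (N : Subgroup Γ) [hN : N.Normal]
    (hfin : ∀ K, IsCompact K → {γ | γ ∈ N ∧ q γ ∈ K}.Finite) (k : κ) (hk : Weak (A k))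
    {γ : Γ} (hγ : γ ∈ N) : q γ k ∈ Subgroup.center (A k) := by
  have h1 : ∀ K, IsCompact K → ((N.map q : Set (∀ i, A i)) ∩ K).Finite := fun K hK =>
    ((hfin K hK).image q).subset (by
      rintro _ ⟨⟨x, hx, rfl⟩, hx'⟩
      exact ⟨x, ⟨hx, hx'⟩, rfl⟩)
  have h2 : IsClosed (N.map q : Set (∀ i, A i)) := w1_closed_of_fin h1
  have h3 : (N.map q).Normal := ⟨by
    rintro _ ⟨x, hx, rfl⟩ g
    refine Dense.induction hq (P := fun g => g * q x * g⁻¹ ∈ N.map q) ?_
      (h2.preimage (by fun_prop)) g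
    rintro _ ⟨y, rfl⟩
    exact ⟨y * x * y⁻¹, hN.conj_mem x hx y, by simp⟩⟩
  have h4 : (N.map q).comap (MonoidHom.mulSingle A k) ≤ Subgroup.center (A k) := by
    refine (hk.qs _ (h3.comap (MonoidHom.mulSingle A k))
      (h2.preimage (continuous_mulSingle k))).resolve_right fun e => ?_
    refine hk.nd (w1_disc fun K hK => ?_)
    refine ((h1 _ (hK.image (continuous_mulSingle k))).preimage
      (Pi.mulSingle_injective k).injOn).subset fun a ha => ⟨?_, a, ha, rfl⟩
    have : a ∈ (N.map q).comap (MonoidHom.mulSingle A k) := by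
      rw [e]
      trivial
    exact this
  refine w1_central hk.perf fun a => h4 ?_
  rw [Subgroup.mem_comap, ← w1_single_comm]
  exact mul_mem (h3.conj_mem _ ⟨γ, hγ, rfl⟩ _) (inv_mem ⟨γ, hγ, rfl⟩)

end prods

section split

variable {ι Γ : Type} {L : ι → Type} [∀ i, Group (L i)] [Group Γ]

/-- Forget one coordinate. -/
def w1q (j : Γ →* ∀ i, L i) (i : ι) : Γ →* ∀ k : {k // k ≠ i}, L k.1 where
  toFun γ k := j γ k.1
  map_one' := by
    funext k
    simp
  map_mul' a b := by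
    funext k
    simp

variable [∀ i, TopologicalSpace (L i)]

/-- Split off one coordinate. -/
def w1e [DecidableEq ι] (L : ι → Type) [∀ i, Group (L i)] [∀ i, TopologicalSpace (L i)] (i : ι) :
    (∀ k, L k) ≃ₜ* L i × ∀ k : {k // k ≠ i}, L k.1 :=
  { Homeomorph.piSplitAt i L with map_mul' := fun _ _ => rfl }

theorem w1_lat {G G' : Type} [Group G] [TopologicalSpace G] [IsTopologicalGroup G]
    [MeasurableSpace G] [BorelSpace G] [Group G'] [TopologicalSpace G'] [IsTopologicalGroup G']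
    [MeasurableSpace G'] [BorelSpace G'] (e : G ≃ₜ* G') {j : Γ →* G} (hj : Lat j) (j' : Γ →* G')
    (h : ∀ γ, j' γ = e (j γ)) : Lat j' := by
  refine ⟨fun a b hab => hj.inj (e.injective (by rw [← h, ← h, hab])), fun K hK => ?_, ?_⟩
  · simp only [h]
    exact hj.fin _ (e.toHomeomorph.isCompact_preimage.2 hK)
  · obtain ⟨m, Ω, hm, h1, h2⟩ := hj.cov
    have he : MeasurableEmbedding e := e.toHomeomorph.measurableEmbedding
    refine ⟨m.map e, e '' Ω, inferInstance, ?_, ?_⟩
    · rw [he.map_apply, Set.preimage_image_eq _ e.injective]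
      exact h1
    · rw [he.ae_map_iff]
      filter_upwards [h2] with g ⟨γ, hγ⟩
      exact ⟨γ, _, hγ, by rw [h, map_mul]⟩

end split

section meas

variable {Γ X : Type} [Group Γ] [MeasurableSpace X] [MulAction Γ X]

theorem w1_meas_fin [Countable Γ] (hF : ∀ γ : Γ, MeasurableSet {x : X | γ • x = x}) :
    MeasurableSet {x : X | (orbit Γ x).Finite} := by
  have e : {x : X | (orbit Γ x).Finite} =
      ⋃ s : Finset Γ, ⋂ γ : Γ, ⋃ δ ∈ s, {x : X | (δ⁻¹ * γ) • x = x} := by
    ext x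
    simp only [Set.mem_ofPred_eq, Set.mem_iUnion, Set.mem_iInter, mul_smul, inv_smul_eq_iff]
    constructor
    · intro h
      obtain ⟨s, -, hs, h1⟩ := Set.exists_subset_image_finite_and.1
        (⟨orbit Γ x, (Set.image_univ (f := fun γ : Γ => γ • x)).ge, h, rfl⟩ :
          ∃ t ⊆ (fun γ : Γ => γ • x) '' Set.univ, t.Finite ∧ t = orbit Γ x)
      refine ⟨hs.toFinset, fun γ => ?_⟩
      obtain ⟨δ, h2, h3⟩ := h1.ge (mem_orbit x γ)
      exact ⟨δ, hs.mem_toFinset.2 h2, h3.symm⟩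
    · rintro ⟨s, hs⟩
      refine (s.finite_toSet.image fun δ => δ • x).subset ?_
      rintro _ ⟨γ, rfl⟩
      obtain ⟨δ, h1, h2⟩ := hs γ
      exact ⟨δ, h1, h2.symm⟩
  rw [e]
  exact .iUnion fun s => .iInter fun γ => s.measurableSet_biUnion fun δ _ => hF _

theorem w1_cond [MeasurableConstSMul Γ X] (μ : Measure X) [SMulInvariantMeasure Γ X μ] {E : Set X}
    (hE : MeasurableSet E) (hi : ∀ (γ : Γ) x, γ • x ∈ E ↔ x ∈ E) :
    SMulInvariantMeasure Γ X (ProbabilityTheory.cond μ E) := by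
  refine ⟨fun c s _ => ?_⟩
  rw [ProbabilityTheory.cond_apply hE, ProbabilityTheory.cond_apply hE,
    ← measure_preimage_smul μ c (E ∩ s)]
  congr 2
  ext x
  simp [hi]

end meas

namespace W2

open Set Filter Topology

theorem lat {G : Type} [Group G] [TopologicalSpace G] [IsTopologicalGroup G] [T2Space G]
    [MeasurableSpace G] {Γ : Subgroup G} (h : IsLattice Γ) : Lat Γ.subtype := by
  obtain ⟨_, m, Ω, h1, h2, h3⟩ := h
  exact ⟨Γ.subtype_injective, fun K hK => H8W.fin_cpt Γ hK, m, Ω, h1, h3, h2.ae_covers⟩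

theorem fi_comap {G H : Type} [Group G] [Group H] (K : Subgroup H) [K.FiniteIndex] (f : G →* H) :
    (K.comap f).FiniteIndex :=
  have : K.IsFiniteRelIndex f.range := Subgroup.isFiniteRelIndex_of_finiteIndex
  ⟨K.index_comap f ▸ Subgroup.relIndex_ne_zero⟩

theorem exists_out {Γ : Type} [Group Γ] (Δ : Subgroup Γ) (γ : Γ) :
    ∃ (c : Γ ⧸ Δ) (δ : Δ), γ = c.out * δ := by
  obtain ⟨l, hl⟩ := QuotientGroup.mk_out_eq_mul Δ γ
  exact ⟨γ, l⁻¹, by simp [hl]⟩

theorem lat_sub {Γ G H : Type} [Group Γ] [Group G] [TopologicalSpace G] [IsTopologicalGroup G]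
    [MeasurableSpace G] [BorelSpace G] [Group H] [TopologicalSpace H] [IsTopologicalGroup H]
    [MeasurableSpace H] [BorelSpace H] {j : Γ →* G} (hj : Lat j) {e : H →* G}
    (he : IsOpenEmbedding e) (Δ : Subgroup Γ) [Δ.FiniteIndex] {j' : Δ →* H}
    (h : ∀ δ, e (j' δ) = j δ) : Lat j' := by
  obtain ⟨m, Ω, h1, h2, h3⟩ := hj.cov
  have hle : ∀ s, m.comap e (e ⁻¹' s) ≤ m s := fun s => by
    rw [he.measurableEmbedding.comap_apply]
    exact measure_mono (image_preimage_subset _ _)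
  refine ⟨fun a b hab => Subtype.ext (hj.inj (by rw [← h, ← h, hab])), fun K hK =>
    ((hj.fin _ (hK.image he.continuous)).preimage Subtype.val_injective.injOn).subset
      fun δ hδ => ⟨_, hδ, h δ⟩, m.comap e, e ⁻¹' ⋃ c : Γ ⧸ Δ, (fun g => j c.out * g) ⁻¹' Ω,
    Measure.IsHaarMeasure.comap (mH := inferInstance) m he, ?_, ?_⟩
  · have := Fintype.ofFinite (Γ ⧸ Δ)
    refine ne_top_of_le_ne_top ?_ ((hle _).trans (measure_iUnion_fintype_le _ _))
    exact ENNReal.sum_ne_top.2 fun c _ => by rwa [measure_preimage_mul]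
  · have h4 : ∀ᵐ g ∂m.comap e, ∃ γ, j γ * e g ∈ Ω := nonpos_iff_eq_zero.1 ((hle _).trans h3.le)
    filter_upwards [h4] with g ⟨γ, hγ⟩
    obtain ⟨c, δ, rfl⟩ := exists_out Δ γ
    exact ⟨δ, mem_iUnion.2 ⟨c, by simpa only [mem_preimage, map_mul, h, mul_assoc] using hγ⟩⟩

theorem mem_clos {Γ M L : Type} [Group Γ] [Group M] [TopologicalSpace M] [IsTopologicalGroup M]
    [Group L] [TopologicalSpace L] (hL : Weak L) {q : Γ →* M}
    (hq : q.range.topologicalClosure.FiniteIndex)
    (Δ : Subgroup Γ) [Δ.FiniteIndex] (i : L →* M) (hi : Continuous i) (a : L) :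
    i a ∈ (Δ.map q).topologicalClosure := by
  set C := (Δ.map q).topologicalClosure
  have hC : IsClosed (C : Set M) := Subgroup.isClosed_topologicalClosure _
  have h0 : ∀ g ∈ q.range.topologicalClosure, ∃ c : Γ ⧸ Δ, (q c.out)⁻¹ * g ∈ C := fun g hg => by
    refine closure_minimal (t := {g | ∃ c : Γ ⧸ Δ, (q c.out)⁻¹ * g ∈ C}) ?_ ?_ hg
    · rintro _ ⟨γ, rfl⟩
      obtain ⟨c, δ, rfl⟩ := exists_out Δ γ
      exact ⟨c, by simpa using Subgroup.le_topologicalClosure _ (Subgroup.mem_map_of_mem q δ.2)⟩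
    · rw [ofPred_exists]
      exact isClosed_iUnion_of_finite fun c => hC.preimage (continuous_const_mul _)
  have h1 : Function.Surjective fun c : (M ⧸ q.range.topologicalClosure) × (Γ ⧸ Δ) =>
      ((c.1.out * q c.2.out : M) : M ⧸ C) := fun y => by
    obtain ⟨g, rfl⟩ := QuotientGroup.mk_surjective y
    obtain ⟨d, δ, rfl⟩ := exists_out q.range.topologicalClosure g
    obtain ⟨c, hc⟩ := h0 δ δ.2
    exact ⟨(d, c), QuotientGroup.eq.2 (by simpa [mul_assoc] using hc)⟩
  have := Finite.of_surjective _ h1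
  have : C.FiniteIndex := Subgroup.finiteIndex_of_finite_quotient
  exact (hL.nfi (C.comap i) (hC.preimage hi) (fi_comap C i)).ge (Subgroup.mem_top a)

variable {Γ X : Type} [Group Γ] [MeasurableSpace X] [MulAction Γ X]

theorem fix_meas [StandardBorelSpace X] [MeasurableConstSMul Γ X] (γ : Γ) :
    MeasurableSet {x : X | γ • x = x} := measurableSet_eq_fun (measurable_const_smul γ) measurable_id

theorem fin_meas [Countable Γ] (hF : ∀ γ : Γ, MeasurableSet {x : X | γ • x = x}) :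
    MeasurableSet {x : X | (orbit Γ x).Finite} := by
  have e : ∀ x : X, (orbit Γ x).Finite ↔ ∃ s : Finset Γ, ∀ γ, ∃ δ, δ ∈ s ∧ (δ⁻¹ * γ) • x = x :=
    fun x => by
      simp only [mul_smul, inv_smul_eq_iff]
      refine ⟨fun h => ?_, fun ⟨s, hs⟩ => (s.finite_toSet.image (· • x)).subset ?_⟩
      · obtain ⟨s, -, h1, h2⟩ := (exists_subset_image_finite_and (f := fun γ : Γ => γ • x) (s := univ)
          (p := fun t => orbit Γ x ⊆ t)).1 ⟨_, by rw [image_univ]; exact Subset.rfl, h, Subset.rfl⟩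
        exact ⟨h1.toFinset, fun γ => (h2 (mem_orbit x γ)).imp fun δ h =>
          ⟨h1.mem_toFinset.2 h.1, h.2.symm⟩⟩
      · rintro _ ⟨γ, rfl⟩
        exact (hs γ).imp fun δ h => ⟨h.1, h.2.symm⟩
  simp only [e]
  exact measurableSet_setOfPred.2 (.exists fun s => .forall fun γ => .exists fun δ =>
    measurable_const.and (measurableSet_setOfPred.1 (hF _)))

theorem cond_inv (μ : Measure X) [SMulInvariantMeasure Γ X μ] {E : Set X} (hE : MeasurableSet E)
    (h : ∀ γ : Γ, (γ • ·) ⁻¹' E = E) : SMulInvariantMeasure Γ X (ProbabilityTheory.cond μ E) :=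
  ⟨fun γ s _ => by
    rw [ProbabilityTheory.cond_apply hE, ProbabilityTheory.cond_apply hE,
      ← measure_preimage_smul μ γ (E ∩ s), preimage_inter, h]⟩

theorem erg (μ : Measure X) [ErgodicSMul Γ X μ] {E : Set X} (hE : MeasurableSet E)
    (h : ∀ γ : Γ, (γ • ·) ⁻¹' E = E) : (∀ᵐ x ∂μ, x ∈ E) ∨ ∀ᵐ x ∂μ, x ∉ E :=
  eventuallyConst_set.1 (aeconst_of_forall_preimage_smul_ae_eq Γ hE.nullMeasurableSet
    fun γ => (h γ).eventuallyEq)

theorem ess_finite [Countable Γ] [StandardBorelSpace X] [MeasurableConstSMul Γ X] (μ : Measure X)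
    [IsProbabilityMeasure μ] [ErgodicSMul Γ X μ] (h : ∀ᵐ x ∂μ, (orbit Γ x).Finite) :
    ∃ F : Set X, F.Finite ∧ μ Fᶜ = 0 := by
  have hf := measurableEmbedding_embeddingReal X
  generalize embeddingReal X = f at hf
  have hm : Measurable fun x => ⨅ γ : Γ, f (γ • x) :=
    .iInf fun γ => hf.measurable.comp (measurable_const_smul γ)
  obtain ⟨c, hc⟩ := exists_eventuallyEq_const_of_forall_separating (l := ae μ)
    (f := fun x => ⨅ γ : Γ, f (γ • x)) MeasurableSet fun U hU => erg (Γ := Γ) μ (hm hU) fun γ => by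
      ext x
      change ⨅ δ : Γ, f (δ • γ • x) ∈ U ↔ ⨅ δ : Γ, f (δ • x) ∈ U
      rw [← (Equiv.mulRight γ).iInf_comp (g := fun δ => f (δ • x))]
      simp only [Equiv.coe_mulRight, mul_smul]
  have h1 : ∀ᵐ x ∂μ, (orbit Γ x).Finite ∧ ∃ γ : Γ, f (γ • x) = c := by
    filter_upwards [h, hc] with x hx (e : _ = c)
    refine ⟨hx, e ▸ (range_nonempty fun γ : Γ => f (γ • x)).csInf_mem ?_⟩
    exact range_comp f (fun γ : Γ => γ • x) ▸ hx.image f
  obtain ⟨y, hy, δ, hδ⟩ := h1.exists
  refine ⟨_, hy, ?_⟩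
  filter_upwards [h1] with x ⟨_, γ, hγ⟩
  exact ⟨γ⁻¹ * δ, by simp only [mul_smul, ← hf.injective (hγ.trans hδ.symm), inv_smul_smul]⟩

theorem fi_centralizer [Countable Γ] (μ : Measure X) [IsFiniteMeasure μ]
    [SMulInvariantMeasure Γ X μ] (hF : ∀ γ : Γ, MeasurableSet {x : X | γ • x = x})
    (Δ : Subgroup Γ) [Δ.FiniteIndex] (h : ∀ᵐ x ∂μ, ∀ δ ∈ Δ, δ • x = x → δ = 1) {γ : Γ}
    (hγ : μ {x : X | γ • x = x} ≠ 0) : (Subgroup.centralizer {γ}).FiniteIndex := by
  rw [Subgroup.finiteIndex_iff_finite_quotient, ← not_infinite_iff_finite]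
  intro _
  have : Countable (Γ ⧸ Subgroup.centralizer {γ}) := QuotientGroup.mk_surjective.countable
  let t : Γ ⧸ Subgroup.centralizer {γ} → Γ := fun c => c.out * γ * c.out⁻¹
  obtain ⟨y, hy⟩ := Finite.exists_infinite_fiber fun c => (t c : Γ ⧸ Δ)
  have h1 := measure_iUnion₀ (μ := μ)
    (f := fun c : (fun c => (t c : Γ ⧸ Δ)) ⁻¹' {y} => {x : X | t c • x = x}) (fun a b hab => by
      refine measure_mono_null (t := {x | ∀ δ ∈ Δ, δ • x = x → δ = 1}ᶜ)
        (fun x hx hx' => hab (Subtype.ext ?_)) h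
      have h2 := hx' _ (QuotientGroup.eq.1 (a.2.trans b.2.symm))
        (by rw [mul_smul, hx.2, inv_smul_eq_iff, hx.1])
      rw [← a.1.out_eq, ← b.1.out_eq]
      refine QuotientGroup.eq.2 (Subgroup.mem_centralizer_singleton_iff.2 ?_)
      have h3 : a.1.out * γ * a.1.out⁻¹ = b.1.out * γ * b.1.out⁻¹ := inv_mul_eq_one.1 h2
      calc _ = a.1.out⁻¹ * (b.1.out * γ * b.1.out⁻¹) * b.1.out := by group
        _ = _ := by rw [← h3]; group) fun c => (hF _).nullMeasurableSet
  have h2 : ∀ c, μ {x : X | t c • x = x} = μ {x : X | γ • x = x} := fun c => by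
    rw [← measure_preimage_smul μ c.out⁻¹ {x : X | γ • x = x}]
    simp only [t, preimage_ofPred_eq, mul_smul, smul_eq_iff_eq_inv_smul c.out]
  simp only [h2, ENNReal.tsum_const_eq_top_of_ne_zero hγ] at h1
  exact measure_ne_top _ _ h1

omit [MeasurableSpace X] in
theorem fin_orbit (Δ : Subgroup Γ) [Δ.FiniteIndex] {x : X} (h : (orbit Δ x).Finite) :
    (orbit Γ x).Finite := by
  refine (finite_iUnion fun c : Γ ⧸ Δ => h.image (c.out • ·)).subset ?_
  rintro _ ⟨γ, rfl⟩
  obtain ⟨c, δ, rfl⟩ := exists_out Δ γ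
  exact mem_iUnion.2 ⟨c, _, ⟨δ, rfl⟩, (mul_smul _ _ _).symm⟩

end W2

end Pool.Agent.Lib.MP_60cbcc_al.H3Z
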