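import Pool.Agent.Lib.MP_60cbcc_al.H3ZCore
import Pool.Agent.Lib.MP_60cbcc_al.H3ZGrp
import Pool.Agent.Lib.MP_60cbcc_al.H3ZFDense
import Pool.Agent.Lib.MP_60cbcc_al.H3ZAlgB
import Pool.Agent.Lib.MP_60cbcc_al.H3ZFDefs

namespace Pool.Agent.Lib.MP_60cbcc_al.H3Z

open MeasureTheory MulAction

section split

variable {ι Γ : Type} {L : ι → Type} [∀ i, Group (L i)] [Group Γ] [∀ i, TopologicalSpace (L i)]

variable [Finite ι] [DecidableEq ι] [∀ i, IsTopologicalGroup (L i)] [∀ i, T2Space (L i)]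
  [∀ i, LocallyCompactSpace (L i)]

/-- If one projection of a subgroup is not central, then none is. -/
theorem fm_step (hL : ∀ i, Firm (L i)) (j : Γ →* ∀ i, L i)
    (hfin : ∀ K : Set (∀ i, L i), IsCompact K → {γ | j γ ∈ K}.Finite) {k k0 : ι} (hk : k0 ≠ k)
    (hd : DenseRange (w1q j k)) (H : Subgroup Γ) (hc : ∀ γ ∈ H, j γ k ∈ Subgroup.center (L k))
    (hd0 : Dense ((fun γ => j γ k0) '' H)) (g : L k0) : g ∈ Subgroup.center (L k0) := by
  have h1 : ∀ γ ∈ ((Pi.evalMonoidHom L k).comp j).ker, j γ k0 ∈ Subgroup.center (L k0) := by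
    intro γ hγ
    refine w1_norm (w1q j k) hd _ (fun K hK => ?_) ⟨k0, hk⟩ (hL k0).weak hγ
    refine (hfin _ ((w1e L k).toHomeomorph.isCompact_preimage.2
      ((isCompact_singleton (x := 1)).prod hK))).subset fun γ hγ => ⟨hγ.1, hγ.2⟩
  refine w1_central (hL k0).perf fun a => w1_two hd0 w1_closed_center ?_ a g
  rintro _ ⟨x, hx, rfl⟩ _ ⟨y, hy, rfl⟩
  have h2 := h1 (x * y * x⁻¹ * y⁻¹) (by
    have h3 := Subgroup.mem_center_iff.1 (hc x hx) (j y k)
    simp [MonoidHom.mem_ker, ← h3])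
  simpa using h2

theorem fm_det [Nontrivial ι] (hL : ∀ i, Firm (L i)) (j : Γ →* ∀ i, L i)
    (hfin : ∀ K : Set (∀ i, L i), IsCompact K → {γ | j γ ∈ K}.Finite)
    (hd : ∀ i, DenseRange (w1q j i)) (H : Subgroup Γ)
    (hA : ∀ (i : ι) (k : {k // k ≠ i}), (∀ γ ∈ H, j γ k.1 ∈ Subgroup.center (L k.1)) ∨
      ∀ a : L k.1, MonoidHom.mulSingle (fun k : {k // k ≠ i} => L k.1) k a ∈ closure (w1q j i '' H))
    (hn : ∃ γ ∈ H, ∃ k, j γ k ∉ Subgroup.center (L k)) (i : ι) :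
    Dense ((fun γ => j γ i) '' (⁅H, H⁆ : Subgroup Γ)) ∧
      Dense (w1q j i '' (⁅H, H⁆ : Subgroup Γ)) := by
  obtain ⟨γ0, h0, k0, hk0⟩ := hn
  have h1 : ∀ k, ¬ ∀ γ ∈ H, j γ k ∈ Subgroup.center (L k) := by
    intro k hc
    have hk : k0 ≠ k := by
      rintro rfl
      exact hk0 (hc γ0 h0)
    have h2 := (hA k ⟨k0, hk⟩).resolve_left fun e => hk0 (e γ0 h0)
    exact hk0 (fm_step hL j hfin hk (hd k) H hc (w1_proj_dense (w1q j k) H ⟨k0, hk⟩ h2) _)
  have h2 := fun (i : ι) (k : {k // k ≠ i}) => (hA i k).resolve_left (h1 k.1)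
  obtain ⟨i', hi'⟩ := exists_ne i
  exact ⟨w1_comm_dense (hL i).perf ((Pi.evalMonoidHom L i).comp j) H
      (w1_proj_dense (w1q j i') H ⟨i, hi'.symm⟩ (h2 i' ⟨i, hi'.symm⟩)),
    w1_comm_dense (w1_pi_perf fun k : {k // k ≠ i} => (hL k.1).perf) (w1q j i) H
      (w1_pi_dense _ H (h2 i))⟩

end split

/-- Products of rigid groups: almost every orbit is finite or has a central stabiliser. -/
theorem fm_wrap {ι Γ X : Type} [Finite ι] [Nontrivial ι] {L : ι → Type} [∀ i, Group (L i)]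
    [∀ i, TopologicalSpace (L i)] [∀ i, IsTopologicalGroup (L i)] [∀ i, LocallyCompactSpace (L i)]
    [∀ i, SecondCountableTopology (L i)] [∀ i, T2Space (L i)] [∀ i, MeasurableSpace (L i)]
    [∀ i, BorelSpace (L i)] (hL : ∀ i, Firm (L i)) [Group Γ] [Countable Γ]
    (j : Γ →* ∀ i, L i) (hj : Lat j)
    (hd : ∀ i, DenseRange fun (γ : Γ) (k : {k // k ≠ i}) => j γ k.1)
    [MeasurableSpace X] [MulAction Γ X] [MeasurableConstSMul Γ X] (μ : Measure X)
    [IsProbabilityMeasure μ] [SMulInvariantMeasure Γ X μ]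
    (hF : ∀ γ : Γ, MeasurableSet {x : X | γ • x = x}) :
    ∀ᵐ x ∂μ, (orbit Γ x).Finite ∨
      ∀ γ : Γ, γ • x = x → ∀ i, j γ i ∈ Subgroup.center (L i) := by
  classical
  have hA : ∀ᵐ x ∂μ, ∀ (i : ι) (k : {k // k ≠ i}),
      (∀ γ ∈ stabilizer Γ x, j γ k.1 ∈ Subgroup.center (L k.1)) ∨
      ∀ a : L k.1, MonoidHom.mulSingle (fun k : {k // k ≠ i} => L k.1) k a ∈
        closure (w1q j i '' stabilizer Γ x) := by
    refine ae_all_iff.2 fun i => ae_all_iff.2 fun k => ?_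
    exact fm_dense_ae (hL k.1) (w1q j i) (hd i) (MonoidHom.mulSingle (fun k : {k // k ≠ i} => L k.1) k)
      (continuous_mulSingle (A := fun k : {k // k ≠ i} => L k.1) k) (Pi.evalMonoidHom (fun k : {k // k ≠ i} => L k.1) k)
      ((Function.surjective_eval k (β := fun l : {l // l ≠ i} => L l.1)).denseRange.comp (hd i)
        (continuous_apply _))
      (w1_single_comm (A := fun k : {k // k ≠ i} => L k.1) k) μ hF
  set E : Set X := {x | ¬ ((orbit Γ x).Finite ∨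
    ∀ γ : Γ, γ • x = x → ∀ i, j γ i ∈ Subgroup.center (L i))} with hEd
  have hE : MeasurableSet E := by
    refine ((w1_meas_fin hF).union (s₂ := {x : X | ∀ γ : Γ, γ • x = x →
      ∀ i, j γ i ∈ Subgroup.center (L i)}) ?_).compl
    rw [Set.ofPred_forall]
    refine .iInter fun γ => ?_
    by_cases h : ∀ i, j γ i ∈ Subgroup.center (L i)
    · simp [h]
    · simp only [h, imp_false]
      exact (hF γ).compl
  have hi' : ∀ (γ : Γ) x, γ • x ∈ E → x ∈ E := by
    intro γ x hx h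
    refine hx (h.imp (fun h => by rwa [orbit_smul]) fun h δ hδ i => ?_)
    have h1 := h (γ⁻¹ * δ * γ) (by rw [mul_smul, mul_smul, hδ, inv_smul_smul]) i
    have h2 := (Subgroup.normal_of_characteristic (Subgroup.center (L i))).conj_mem _ h1 (j γ i)
    simpa [mul_assoc] using h2
  have hi : ∀ (γ : Γ) x, γ • x ∈ E ↔ x ∈ E := fun γ x =>
    ⟨hi' γ x, fun h => hi' γ⁻¹ _ (by rwa [inv_smul_smul])⟩
  rw [ae_iff]
  by_contra h0
  have := ProbabilityTheory.cond_isProbabilityMeasure (μ := μ) (s := E) h0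
  have := w1_cond (Γ := Γ) μ hE hi
  obtain ⟨i⟩ : Nonempty ι := inferInstance
  refine coreK (hL i).cg (w1_pi_cg fun k : {k // k ≠ i} => (hL k.1).cg) ⊥ ⊥ isCompact_singleton
    isCompact_singleton
    (((Pi.evalMonoidHom L i).comp j).prod (w1q j i)) (w1_lat (w1e L i) hj _ fun _ => rfl)
    (ProbabilityTheory.cond μ E) hF ?_ ?_
  · filter_upwards [ProbabilityTheory.cond_absolutelyContinuous.ae_le hA,
      ProbabilityTheory.ae_cond_mem hE] with x hx hx'
    refine (fm_det hL j hj.fin hd _ hx ?_ i).imp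
      (fun h => h.mono (Set.subset_mul_left _ (one_mem (⊥ : Subgroup _))))
      fun h => h.mono (Set.subset_mul_left _ (one_mem (⊥ : Subgroup _)))
    by_contra h
    refine hx' (Or.inr fun γ hγ k => ?_)
    by_contra h'
    exact h ⟨γ, hγ, k, h'⟩
  · filter_upwards [ProbabilityTheory.ae_cond_mem hE] with x hx h
    exact hx (Or.inl h)

open W2

/-- The main theorem. -/
theorem fm_main {ι : Type} [Finite ι] [Nontrivial ι] {G : ι → Type} [∀ i, Group (G i)]
    [∀ i, TopologicalSpace (G i)] [∀ i, IsTopologicalGroup (G i)] [∀ i, LocallyCompactSpace (G i)]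
    [∀ i, SecondCountableTopology (G i)] [∀ i, T2Space (G i)] [∀ i, MeasurableSpace (G i)]
    [∀ i, BorelSpace (G i)] (hG : ∀ i, IsConcrete (G i))
    (Γ : Subgroup (∀ i, G i)) (hΓ : IsLattice Γ)
    (hd : ∀ i, (Γ.map (MonoidHom.pi fun k : {k // k ≠ i} =>
      Pi.evalMonoidHom G k.1)).topologicalClosure.FiniteIndex)
    (hZ : Subgroup.center Γ = ⊥)
    {X : Type} [MeasurableSpace X] [StandardBorelSpace X] [MulAction Γ X]
    [MeasurableConstSMul Γ X] (μ : Measure X) [IsProbabilityMeasure μ] [ErgodicSMul Γ X μ] :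
    (∃ F : Set X, F.Finite ∧ μ Fᶜ = 0) ∨ ∀ᵐ x ∂μ, stabilizer Γ x = ⊥ := by
  classical
  have hG' : ∀ i, ∃ L : Subgroup (G i), L.Normal ∧ L.FiniteIndex ∧ IsOpen (L : Set (G i)) ∧
      Subgroup.centralizer (L : Set (G i)) ≤ Subgroup.center (G i) ∧ (Rigid L ∨ HMType L) :=
    fun i => (hG i).elim (fun h => h.ex.imp fun _ ⟨a, b, c, d, e⟩ => ⟨a, b, c, d, .inl e⟩)
      fun h => h.imp fun _ ⟨a, b, c, d, e⟩ => ⟨a, b, c, d, .inr e⟩
  choose L h1 h2 h3 h4 h5 using hG'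
  have : ∀ i, SecondCountableTopology (L i) := fun i =>
    Topology.IsInducing.subtypeVal.secondCountableTopology
  have hL : ∀ i, Firm (L i) := fun i =>
    (h5 i).elim (·.firm) (·.firm)
  have := hΓ.1
  have := H8W.count_disc Γ
  have := fun i => (h3 i).locallyCompactSpace
  let p : ∀ i, Γ →* G i := fun i => (Pi.evalMonoidHom G i).comp Γ.subtype
  replace hd : ∀ i, (MonoidHom.pi fun k : {k // k ≠ i} => p k.1).range.topologicalClosure.FiniteIndex :=
    fun i => by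
      convert hd i using 2
      ext g
      exact ⟨fun ⟨γ, h⟩ => ⟨γ, γ.2, h⟩, fun ⟨γ, h, e⟩ => ⟨⟨γ, h⟩, e⟩⟩
  let Δ : Subgroup Γ := ⨅ i, (L i).comap (p i)
  have : Δ.FiniteIndex := Subgroup.finiteIndex_iInf fun i => fi_comap _ _
  let j : Δ →* ∀ i, L i := MonoidHom.pi fun i =>
    ((p i).comp Δ.subtype).codRestrict (L i) fun δ => Subgroup.mem_iInf.1 δ.2 i
  have hj : Lat j := lat_sub (lat hΓ)
    (e := MonoidHom.pi fun i => (L i).subtype.comp (Pi.evalMonoidHom (fun i => L i) i))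
    (Topology.IsOpenEmbedding.piMap fun i => (h3 i).isOpenEmbedding_subtypeVal) Δ fun _ => rfl
  have hdj : ∀ i, DenseRange fun (δ : Δ) (k : {k // k ≠ i}) => j δ k.1 := fun i x => by
    have h6 := (Subgroup.pi_le_iff (H := fun k : {k // k ≠ i} => L k.1)).2 (fun k => by
      rintro _ ⟨a, ha, rfl⟩
      exact mem_clos (hL k.1).weak (q := MonoidHom.pi fun k : {k // k ≠ i} => p k.1) (hd i) Δ
        ((MonoidHom.mulSingle (fun k : {k // k ≠ i} => G k.1) k).comp (L k.1).subtype)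
        ((continuous_mulSingle k).comp continuous_subtype_val) ⟨a, ha⟩)
      (show (fun k => (x k).1) ∈ _ from fun k _ => (x k).2)
    rw [(Topology.IsInducing.piMap fun k : {k // k ≠ i} =>
      Topology.IsInducing.subtypeVal (t := (L k.1 : Set (G k.1)))).closure_eq_preimage_closure_image]
    refine closure_mono ?_ h6
    rintro _ ⟨γ, hγ, rfl⟩
    exact ⟨_, ⟨⟨γ, hγ⟩, rfl⟩, rfl⟩
  have hc : ∀ γ : Γ, (∀ i, ∀ a ∈ L i, a * γ.1 i = γ.1 i * a) → γ = 1 := fun γ h =>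
    Subgroup.mem_bot.1 (hZ ▸ Subgroup.mem_center_iff.2 fun g => Subtype.ext (funext fun i =>
      Subgroup.mem_center_iff.1 (h4 i (h i)) (g.1 i)))
  have : SMulInvariantMeasure Δ X μ := ⟨fun δ s _ => measure_preimage_smul μ δ.1 s⟩
  have h6 := fm_wrap hL j hj hdj μ fun δ => fix_meas δ
  rcases erg (Γ := Γ) μ (fin_meas (Γ := Γ) fix_meas) (fun γ => by
    simp only [Set.preimage_ofPred_eq, orbit_smul]) with h | h
  · exact .inl (ess_finite μ h)
  have h7 : ∀ᵐ x ∂μ, ∀ δ ∈ Δ, δ • x = x → δ = 1 := by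
    filter_upwards [h, h6] with x hx hx' δ hδ e
    exact hc δ fun i a ha => congrArg Subtype.val (Subgroup.mem_center_iff.1
      (hx'.resolve_left (fun h => hx (fin_orbit Δ h)) ⟨δ, hδ⟩ e i) ⟨a, ha⟩)
  have h8 : ∀ γ : Γ, ∀ᵐ x ∂μ, γ • x = x → γ = 1 := fun γ => by
    by_cases h9 : μ {x : X | γ • x = x} = 0
    · exact measure_mono_null (fun x hx => by_contra fun h => hx fun e => (h e).elim) h9
    have := fi_centralizer μ fix_meas Δ h7 h9
    refine .of_forall fun _ _ => hc γ fun i a ha => ?_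
    obtain ⟨k, hk⟩ := exists_ne i
    have h10 := closure_minimal
      (t := {m : ∀ l : {l // l ≠ k}, G l.1 | m ⟨i, hk.symm⟩ * γ.1 i = γ.1 i * m ⟨i, hk.symm⟩}) ?_
      (isClosed_eq (by fun_prop) (by fun_prop)) (mem_clos (hL i).weak (hd k) (Subgroup.centralizer {γ})
        ((MonoidHom.mulSingle (fun l : {l // l ≠ k} => G l.1) ⟨i, hk.symm⟩).comp (L i).subtype)
        ((continuous_mulSingle _).comp continuous_subtype_val) ⟨a, ha⟩)
    · simpa using h10
    rintro _ ⟨δ, hδ, rfl⟩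
    exact congrArg (fun g : Γ => g.1 i) (Subgroup.mem_centralizer_singleton_iff.1 hδ)
  exact .inr ((ae_all_iff.2 h8).mono fun x hx => (Subgroup.eq_bot_iff_forall _).2 hx)

end Pool.Agent.Lib.MP_60cbcc_al.H3Z
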