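import Pool.Agent.Lib.MP_60cbcc_al.H3ZSec

/-!
Orthonormal frames indexed by the orbits.
-/

set_option linter.unusedSectionVars false

namespace Pool.Agent.Lib.MP_60cbcc_al.H3Z

open MeasureTheory Set Filter Topology
open scoped ENNReal NNReal RealInnerProductSpace

open Classical in
/-- Orthonormal families indexed by the points of the orbits, carried along by isometries. -/
structure Frame {Γ X H : Type} [Group Γ] [MeasurableSpace X] [MulAction Γ X]
    [NormedAddCommGroup H] [InnerProductSpace ℝ H] (V : Γ → X → H →ₗᵢ[ℝ] H) (ε : X → X → H) :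
    Prop where
  fix : ∀ γ x, γ • x = x → ∀ z, V γ x z = z
  inner : ∀ (x : X) (γ δ : Γ), ⟪ε x (γ • x), ε x (δ • x)⟫ = if γ • x = δ • x then 1 else 0
  eqv : ∀ (γ δ : Γ) (x : X), V γ x (ε x (δ • x)) = ε (γ • x) (δ • x)
  meas : ∀ γ : Γ, StronglyMeasurable fun x => ε x (γ • x)

namespace Fr

section least

variable {Γ X : Type} [Group Γ] [MulAction Γ X]

/-- `γ` has the least code among the elements with the same value at `x`. -/
def Lst (c : Γ → ℕ) (γ : Γ) (x : X) : Prop := ∀ δ : Γ, δ • x = γ • x → c γ ≤ c δ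

variable {c : Γ → ℕ} {γ δ : Γ} {x : X}

theorem Lst.uniq (hc : Function.Injective c) (h : Lst c γ x) (h' : Lst c δ x)
    (e : γ • x = δ • x) : γ = δ := hc (le_antisymm (h δ e.symm) (h' γ e))

theorem exists_lst (c : Γ → ℕ) (γ : Γ) (x : X) : ∃ δ : Γ, δ • x = γ • x ∧ Lst c δ x := by
  obtain ⟨δ, h1, h2⟩ := (measure c).wf.has_min {δ : Γ | δ • x = γ • x} ⟨γ, rfl⟩
  exact ⟨δ, h1, fun δ' e => not_lt.1 (h2 δ' (e.trans h1))⟩

theorem infinite_lst (c : Γ → ℕ) (h : (MulAction.orbit Γ x).Infinite) :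
    {γ : Γ | Lst c γ x}.Infinite := by
  refine Set.Infinite.of_image (fun γ : Γ => γ • x) (h.mono ?_)
  rintro _ ⟨γ, rfl⟩
  obtain ⟨δ, h1, h2⟩ := exists_lst c γ x
  exact ⟨δ, h2, h1⟩

open Classical in
/-- The least element that moves `x` to `p`. -/
noncomputable def lst (c : Γ → ℕ) (x p : X) : Γ :=
  if h : ∃ δ : Γ, δ • x = p ∧ Lst c δ x then h.choose else 1

theorem lst_spec (c : Γ → ℕ) (γ : Γ) (x : X) :
    lst c x (γ • x) • x = γ • x ∧ Lst c (lst c x (γ • x)) x := by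
  rw [lst, dif_pos (exists_lst c γ x)]
  exact (exists_lst c γ x).choose_spec

theorem lst_eq (hc : Function.Injective c) :
    lst c x (γ • x) = δ ↔ δ • x = γ • x ∧ Lst c δ x :=
  ⟨fun e => e ▸ lst_spec c γ x, fun h =>
    (lst_spec c γ x).2.uniq hc h.2 ((lst_spec c γ x).1.trans h.1.symm)⟩

theorem lst_inj (h : lst c x (γ • x) = lst c x (δ • x)) : γ • x = δ • x := by
  rw [← (lst_spec c γ x).1, h, (lst_spec c δ x).1]

variable [MeasurableSpace X]

theorem meas_eq (hF : ∀ γ : Γ, MeasurableSet {x : X | γ • x = x}) (γ δ : Γ) :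
    MeasurableSet {x : X | δ • x = γ • x} := by
  convert hF (γ⁻¹ * δ) using 3 with x
  rw [mul_smul, inv_smul_eq_iff]

theorem meas_lst [Countable Γ] (hF : ∀ γ : Γ, MeasurableSet {x : X | γ • x = x}) (c : Γ → ℕ)
    (γ : Γ) : MeasurableSet {x : X | Lst c γ x} := by
  have e : {x : X | Lst c γ x} =
      ⋂ δ : Γ, ({x : X | δ • x = γ • x}ᶜ ∪ {_x : X | c γ ≤ c δ}) := by
    ext x
    simp only [Lst, mem_iInter, mem_union, mem_compl_iff, mem_ofPred_eq, imp_iff_not_or]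
  rw [e]
  exact MeasurableSet.iInter fun δ => (meas_eq hF γ δ).compl.union (MeasurableSet.const _)

end least

section iso

open Classical

variable {ι : Type}

/-- The standard unit vectors. -/
noncomputable def e (i : ι) : lp (fun _ : ι => ℝ) 2 := lp.single 2 i 1

theorem inner_e (i j : ι) : ⟪e i, e j⟫ = if i = j then 1 else 0 := by
  rw [e, lp.inner_single_left, e, lp.single_apply, Pi.single_apply]
  split_ifs <;> simp

theorem exists_iso (σ : ι → ι) (hσ : Function.Injective σ) :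
    ∃ U : lp (fun _ : ι => ℝ) 2 →ₗᵢ[ℝ] lp (fun _ : ι => ℝ) 2, ∀ i, U (e i) = e (σ i) := by
  have h : Orthonormal ℝ fun i => e (σ i) :=
    orthonormal_iff_ite.2 fun i j => by rw [inner_e]; simp only [hσ.eq_iff]
  refine ⟨h.orthogonalFamily.linearIsometry, fun i => ?_⟩
  rw [e, OrthogonalFamily.linearIsometry_apply_single]
  simp

end iso

section bessel

open Classical

variable {ι H : Type} [NormedAddCommGroup H] [InnerProductSpace ℝ H] {s : Finset ι} {v : ι → H}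

theorem norm_sub_proj (h : ∀ i ∈ s, ∀ j ∈ s, ⟪v i, v j⟫ = if i = j then 1 else 0) (z : H) :
    ‖z - ∑ i ∈ s, ⟪v i, z⟫ • v i‖ ^ 2 = ‖z‖ ^ 2 - ∑ i ∈ s, ⟪v i, z⟫ ^ 2 := by
  have h1 : ⟪z, ∑ i ∈ s, ⟪v i, z⟫ • v i⟫ = ∑ i ∈ s, ⟪v i, z⟫ ^ 2 := by
    rw [inner_sum]
    exact Finset.sum_congr rfl fun i _ => by rw [real_inner_smul_right, real_inner_comm, sq]
  have h2 : ‖∑ i ∈ s, ⟪v i, z⟫ • v i‖ ^ 2 = ∑ i ∈ s, ⟪v i, z⟫ ^ 2 := by
    rw [← real_inner_self_eq_norm_sq, sum_inner]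
    refine Finset.sum_congr rfl fun i hi => ?_
    rw [real_inner_smul_left, inner_sum, Finset.sum_eq_single_of_mem i hi fun j hj hne => by
      rw [real_inner_smul_right, h i hi j hj, if_neg hne.symm, mul_zero]]
    rw [real_inner_smul_right, h i hi i hi, if_pos rfl, mul_one, sq]
  rw [norm_sub_sq_real, h1, h2]
  ring

theorem bessel (h : ∀ i ∈ s, ∀ j ∈ s, ⟪v i, v j⟫ = if i = j then 1 else 0) (z : H) :
    ∑ i ∈ s, ⟪v i, z⟫ ^ 2 ≤ ‖z‖ ^ 2 := by
  have := norm_sub_proj h z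
  nlinarith [sq_nonneg ‖z - ∑ i ∈ s, ⟪v i, z⟫ • v i‖]

theorem norm_sub_proj_le (h : ∀ i ∈ s, ∀ j ∈ s, ⟪v i, v j⟫ = if i = j then 1 else 0) (z : H) :
    ‖z - ∑ i ∈ s, ⟪v i, z⟫ • v i‖ ≤ ‖z‖ := by
  refine le_of_sq_le_sq ?_ (norm_nonneg _)
  rw [norm_sub_proj h z]
  exact sub_le_self _ (Finset.sum_nonneg fun i _ => sq_nonneg _)

theorem tendsto_proj (T : ι → Prop) (h : ∀ i, T i → ∀ j, T j → ⟪v i, v j⟫ = if i = j then 1 else 0)
    (hT : ∀ i, ∃ j, T j ∧ v j = v i) {z : H}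
    (hz : z ∈ closure (Submodule.span ℝ (range v) : Set H)) :
    Tendsto (fun F : Finset ι => ‖z - ∑ i ∈ F.filter T, ⟪v i, z⟫ • v i‖) atTop (𝓝 0) := by
  have h0 : ∀ F : Finset ι, ∀ i ∈ F.filter T, ∀ j ∈ F.filter T,
      ⟪v i, v j⟫ = if i = j then 1 else 0 := fun F i hi j hj =>
    h i (Finset.mem_filter.1 hi).2 j (Finset.mem_filter.1 hj).2
  have h1 : ∀ w ∈ Submodule.span ℝ (range v),
      ∀ᶠ F : Finset ι in atTop, ∑ i ∈ F.filter T, ⟪v i, w⟫ • v i = w := by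
    intro w hw
    induction hw using Submodule.span_induction with
    | mem w hw =>
      obtain ⟨i, rfl⟩ := hw
      obtain ⟨j, hj, e⟩ := hT i
      filter_upwards [eventually_ge_atTop ({j} : Finset ι)] with F hF
      have hj' : j ∈ F.filter T := Finset.mem_filter.2 ⟨hF (Finset.mem_singleton_self j), hj⟩
      rw [← e, Finset.sum_eq_single_of_mem j hj' fun i hi hne => by
        rw [h0 F i hi j hj', if_neg hne, zero_smul], h0 F j hj' j hj', if_pos rfl, one_smul]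
    | zero => simp
    | add a b _ _ ha hb =>
      filter_upwards [ha, hb] with F h1 h2
      simp only [inner_add_right, add_smul, Finset.sum_add_distrib, h1, h2]
    | smul r a _ ha =>
      filter_upwards [ha] with F h1
      simp only [real_inner_smul_right, mul_smul, ← Finset.smul_sum, h1]
  refine Metric.tendsto_nhds.2 fun η hη => ?_
  obtain ⟨w, hw, hd⟩ := Metric.mem_closure_iff.1 hz η hη
  filter_upwards [h1 w hw] with F hF
  have h2 := norm_sub_proj_le (h0 F) (z - w)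
  simp only [inner_sub_right, sub_smul, Finset.sum_sub_distrib, hF, sub_sub_sub_cancel_right] at h2
  rw [dist_zero_right, norm_norm]
  exact h2.trans_lt (by rwa [dist_eq_norm] at hd)

end bessel

end Fr

theorem exists_frame {Γ X : Type} [Group Γ] [Countable Γ] [MeasurableSpace X] [MulAction Γ X]
    [MeasurableConstSMul Γ X] (hF : ∀ γ : Γ, MeasurableSet {x : X | γ • x = x}) :
    ∃ (V : Γ → X → lp (fun _ : ℕ × Γ => ℝ) 2 →ₗᵢ[ℝ] lp (fun _ : ℕ × Γ => ℝ) 2)
      (ε : X → X → lp (fun _ : ℕ × Γ => ℝ) 2), Frame V ε := by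
  classical
  obtain ⟨c, hc⟩ := Countable.exists_injective_nat Γ
  let σ : Γ → X → ℕ × Γ → ℕ × Γ := fun γ x i =>
    if i.1 = 0 ∧ Fr.Lst c i.2 x then (0, Fr.lst c (γ • x) (i.2 • x)) else (i.1 + 1, i.2)
  have hs : ∀ (γ δ : Γ) (x : X), δ • x = (δ * γ⁻¹) • γ • x := fun γ δ x => by
    rw [mul_smul, inv_smul_smul]
  have hσ : ∀ γ x, Function.Injective (σ γ x) := by
    rintro γ x ⟨n, δ⟩ ⟨n', δ'⟩ e
    simp only [σ] at e
    split_ifs at e with h1 h2 h2
    · have e1 := (Prod.ext_iff.1 e).2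
      simp only at e1
      rw [hs γ δ, hs γ δ'] at e1
      have e2 := Fr.lst_inj e1
      rw [← hs, ← hs] at e2
      exact Prod.ext (h1.1.trans h2.1.symm) (h1.2.uniq hc h2.2 e2)
    · simp at e
    · simp at e
    · simpa using e
  choose U hU using fun γ x => Fr.exists_iso (σ γ x) (hσ γ x)
  refine ⟨fun γ x => if γ • x = x then LinearIsometry.id else U γ x,
    fun x p => Fr.e (0, Fr.lst c x p), fun γ x h z => by simp [h], fun x γ δ => ?_,
    fun γ δ x => ?_, fun γ => ?_⟩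
  · rw [Fr.inner_e]
    by_cases h : γ • x = δ • x
    · rw [if_pos h, if_pos (by rw [h])]
    · rw [if_neg h, if_neg fun e => h (Fr.lst_inj (Prod.ext_iff.1 e).2)]
  · by_cases h : γ • x = x
    · simp [h]
    · simp only [if_neg h, hU, σ, true_and, if_pos (Fr.lst_spec c δ x).2, (Fr.lst_spec c δ x).1]
  · let _ : MeasurableSpace Γ := ⊤
    have h1 : Measurable fun x : X => Fr.lst c x (γ • x) := measurable_to_countable' fun δ => by
      convert (Fr.meas_eq hF γ δ).inter (Fr.meas_lst hF c δ) using 1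
      ext x
      exact Fr.lst_eq hc
    exact (StronglyMeasurable.of_discrete (f := fun δ : Γ => Fr.e ((0, δ) : ℕ × Γ))).comp_measurable h1

variable {Γ G X : Type} [Group Γ] [Countable Γ] [Group G] [TopologicalSpace G]
  [IsTopologicalGroup G] [LocallyCompactSpace G] [SecondCountableTopology G] [T2Space G]
  [MeasurableSpace G] [BorelSpace G] [MeasurableSpace X] [MulAction Γ X] [MeasurableConstSMul Γ X]
  {H : Type} [NormedAddCommGroup H] [InnerProductSpace ℝ H] [CompleteSpace H]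
  {S : Setup Γ G X} {V : Γ → X → H →ₗᵢ[ℝ] H} {ε : X → X → H}

namespace Fr

open Classical

theorem norm_eps (hfr : Frame V ε) (x : X) (γ : Γ) : ‖ε x (γ • x)‖ = 1 := by
  have := hfr.inner x γ γ
  rw [if_pos rfl, real_inner_self_eq_norm_sq] at this
  exact (pow_eq_one_iff_of_nonneg (norm_nonneg _) two_ne_zero).1 this

/-- The coefficients in the frame. -/
noncomputable def cf (ε : X → X → H) (u : Sec S V) (δ : Γ) (y : X × G) : ℝ :=
  ⟪ε y.1 (δ • y.1), u y⟫

/-- The defect of invariance. -/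
noncomputable def df (u : Sec S V) (γ : Γ) (y : X × G) : ℝ := ‖u (y.1, S.j γ * y.2) - u y‖ ^ 2

theorem meas_cf (hfr : Frame V ε) (u : Sec S V) (δ : Γ) : Measurable (cf ε u δ) :=
  (((hfr.meas δ).comp_measurable measurable_fst).inner u.meas).measurable

theorem abs_cf_le (hfr : Frame V ε) (u : Sec S V) (δ : Γ) (y : X × G) : |cf ε u δ y| ≤ ‖u y‖ := by
  have := abs_real_inner_le_norm (ε y.1 (δ • y.1)) (u y)
  rwa [norm_eps hfr, one_mul] at this

theorem sq_cf_le (hfr : Frame V ε) {u : Sec S V} (hu : ∀ y, ‖u y‖ ≤ 1) (δ : Γ) (y : X × G) :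
    cf ε u δ y ^ 2 ≤ 1 := by
  rw [sq_le_one_iff_abs_le_one]
  exact (abs_cf_le hfr u δ y).trans (hu y)

theorem meas_df (u : Sec S V) (γ : Γ) : Measurable (df u γ) :=
  ((u.meas.comp_measurable (g := fun y : X × G => (y.1, S.j γ * y.2)) (by fun_prop)).sub
    u.meas).norm.measurable.pow_const 2

theorem intg {f : X × G → ℝ} (hf : Measurable f) (C : ℝ) (h : ∀ y, |f y| ≤ C) :
    Integrable f S.m := Integrable.of_bound hf.aestronglyMeasurable C (ae_of_all _ h)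

theorem int_df {u : Sec S V} (hu : ∀ y, ‖u y‖ ≤ 1) (γ : Γ) : Integrable (df u γ) S.m :=
  intg (meas_df u γ) 4 fun y => by
    have h1 : ‖u (y.1, S.j γ * y.2) - u y‖ ≤ 1 + 1 := norm_sub_le_of_le (hu _) (hu _)
    have h2 := norm_nonneg (u (y.1, S.j γ * y.2) - u y)
    rw [df, abs_of_nonneg (sq_nonneg _)]
    nlinarith

theorem mp (S : Setup Γ G X) (γ : Γ) :
    MeasurePreserving (fun y : X × G => (γ • y.1, y.2)) S.m S.m :=
  (measurePreserving_smul γ S.μ).prod (MeasurePreserving.id _)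

theorem int_smul {f : X × G → ℝ} (hf : Measurable f) (γ : Γ) :
    ∫ y, f (γ • y.1, y.2) ∂S.m = ∫ y, f y ∂S.m := by
  rw [← integral_map (mp S γ).measurable.aemeasurable hf.aestronglyMeasurable, (mp S γ).map_eq]

theorem cf_shift (hfr : Frame V ε) (u : Sec S V) (γ δ : Γ) (y : X × G) :
    cf ε u δ y ^ 2 ≤ 2 * cf ε u (δ * γ⁻¹) (γ • y.1, y.2) ^ 2 + 2 * df u γ (γ • y.1, y.2) := by
  obtain ⟨x, g⟩ := y
  have e : (δ * γ⁻¹) • γ • x = δ • x := by rw [mul_smul, inv_smul_smul]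
  have h1 : cf ε u δ (x, g) = cf ε u (δ * γ⁻¹) (γ • x, g) +
      ⟪ε (γ • x) ((δ * γ⁻¹) • γ • x), u (γ • x, S.j γ * g) - u (γ • x, g)⟫ := by
    simp only [cf]
    rw [← inner_add_right, add_sub_cancel, e, u.eqv, ← hfr.eqv, LinearIsometry.inner_map_map]
  have h2 := abs_real_inner_le_norm (ε (γ • x) ((δ * γ⁻¹) • γ • x))
    (u (γ • x, S.j γ * g) - u (γ • x, g))
  rw [norm_eps hfr, one_mul] at h2
  have h3 := pow_le_pow_left₀ (abs_nonneg _) h2 2
  rw [sq_abs] at h3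
  rw [h1]
  simp only [df]
  nlinarith [sq_nonneg (cf ε u (δ * γ⁻¹) (γ • x, g) -
    ⟪ε (γ • x) ((δ * γ⁻¹) • γ • x), u (γ • x, S.j γ * g) - u (γ • x, g)⟫)]

theorem meas_cut (hfr : Frame V ε) (u : Sec S V) (δ : Γ) {p : X → Prop}
    (hp : MeasurableSet {x | p x}) :
    Measurable fun y : X × G => if p y.1 then cf ε u δ y ^ 2 else 0 :=
  Measurable.ite (measurable_fst hp) ((meas_cf hfr u δ).pow_const 2) measurable_const

theorem int_cut (hfr : Frame V ε) {u : Sec S V} (hu : ∀ y, ‖u y‖ ≤ 1) (δ : Γ) {p : X → Prop}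
    (hp : MeasurableSet {x | p x}) :
    Integrable (fun y : X × G => if p y.1 then cf ε u δ y ^ 2 else 0) S.m :=
  intg (meas_cut hfr u δ hp) 1 fun y => by
    split_ifs
    · rw [abs_of_nonneg (sq_nonneg _)]
      exact sq_cf_le hfr hu δ y
    · simp

theorem int_sq (hfr : Frame V ε) {u : Sec S V} (hu : ∀ y, ‖u y‖ ≤ 1) (δ : Γ) :
    Integrable (fun y : X × G => cf ε u δ y ^ 2) S.m := by
  simpa using int_cut hfr hu δ (p := fun _ => True) (by simp)

theorem meas_shift {p : X → Prop} (hp : MeasurableSet {x | p x}) (γ : Γ) :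
    MeasurableSet {x | p (γ • x)} := measurable_const_smul γ hp

theorem key (hfr : Frame V ε) {u : Sec S V} (hu : ∀ y, ‖u y‖ ≤ 1) (γ δ : Γ) {p : X → Prop}
    (hp : MeasurableSet {x | p x}) :
    ∫ y, (if p y.1 then cf ε u δ y ^ 2 else 0) ∂S.m ≤
      2 * ∫ y, (if p (γ⁻¹ • y.1) then cf ε u (δ * γ⁻¹) y ^ 2 else 0) ∂S.m +
        2 * ∫ y, df u γ y ∂S.m := by
  have h1 := int_cut hfr hu (δ * γ⁻¹) (meas_shift hp γ⁻¹)
  have h2 := int_df hu γ
  have h3 := (h1.const_mul 2).add (h2.const_mul 2)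
  rw [← integral_const_mul, ← integral_const_mul,
    ← integral_add (h1.const_mul 2) (h2.const_mul 2),
    ← int_smul (((meas_cut hfr u (δ * γ⁻¹) (meas_shift hp γ⁻¹)).const_mul 2).fun_add
      ((meas_df u γ).const_mul 2)) γ]
  refine integral_mono (int_cut hfr hu δ hp) ((mp S γ).integrable_comp_of_integrable h3) fun y => ?_
  simp only [inv_smul_smul]
  split_ifs
  · exact cf_shift hfr u γ δ y
  · have : 0 ≤ df u γ (γ • y.1, y.2) := sq_nonneg _
    linarith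

theorem sum_le (hfr : Frame V ε) {c : Γ → ℕ} (hc : Function.Injective c) {u : Sec S V}
    (hu : ∀ y, ‖u y‖ ≤ 1) (F : Finset Γ) :
    ∑ γ ∈ F, ∫ y, (if Lst c γ y.1 then cf ε u 1 y ^ 2 else 0) ∂S.m ≤
      2 + 2 * ∑ γ ∈ F, ∫ y, df u γ y ∂S.m := by
  have h1 : ∑ γ ∈ F, ∫ y, (if Lst c γ (γ⁻¹ • y.1) then cf ε u (1 * γ⁻¹) y ^ 2 else 0) ∂S.m ≤ 1 := by
    have hi := fun γ (_ : γ ∈ F) => int_cut hfr hu (1 * γ⁻¹) (meas_shift (meas_lst S.fix c γ) γ⁻¹)
    rw [← integral_finsetSum F hi]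
    refine (integral_mono (integrable_finsetSum F hi) (integrable_const 1) fun y => ?_).trans
      (by simp)
    simp only [← Finset.sum_filter, one_mul]
    refine (bessel (v := fun γ : Γ => ε y.1 (γ⁻¹ • y.1)) (fun γ hγ δ hδ => ?_) (u y)).trans
      (pow_le_one₀ (norm_nonneg _) (hu y))
    rw [hfr.inner]
    by_cases h : γ = δ
    · rw [if_pos h, if_pos (by rw [h])]
    · rw [if_neg h, if_neg fun e => h ?_]
      have h2 := (Finset.mem_filter.1 hδ).2
      rw [← e] at h2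
      refine (Finset.mem_filter.1 hγ).2.uniq hc h2 ?_
      rw [smul_inv_smul, e, smul_inv_smul]
  have h2 := Finset.sum_le_sum fun γ (_ : γ ∈ F) => key hfr hu γ 1 (meas_lst S.fix c γ)
  rw [Finset.sum_add_distrib, ← Finset.mul_sum, ← Finset.mul_sum] at h2
  linarith

theorem meas_few (S : Setup Γ G X) (c : Γ → ℕ) (F : Finset Γ) (K : ℝ) : Measurable fun y : X × G =>
    if (∑ γ ∈ F, if Lst c γ y.1 then (1 : ℝ) else 0) < K then (1 : ℝ) else 0 :=
  Measurable.ite (measurableSet_lt (Finset.measurable_sum F fun γ _ =>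
    Measurable.ite (measurable_fst (meas_lst S.fix c γ)) measurable_const measurable_const)
    measurable_const) measurable_const measurable_const

theorem tendsto_few (hinf : ∀ᵐ x ∂S.μ, (MulAction.orbit Γ x).Infinite) (c : Γ → ℕ) (K : ℕ) :
    Tendsto (fun F : Finset Γ => ∫ y,
      (if (∑ γ ∈ F, if Lst c γ y.1 then (1 : ℝ) else 0) < K then (1 : ℝ) else 0) ∂S.m)
      atTop (𝓝 0) := by
  have h := tendsto_integral_filter_of_dominated_convergence (μ := S.m) (l := atTop)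
    (F := fun (F : Finset Γ) (y : X × G) =>
      if (∑ γ ∈ F, if Lst c γ y.1 then (1 : ℝ) else 0) < K then (1 : ℝ) else 0)
    (f := fun _ => 0) (fun _ => 1)
    (Eventually.of_forall fun F => (meas_few S c F K).aestronglyMeasurable)
    (Eventually.of_forall fun F => ae_of_all _ fun y => by split_ifs <;> simp)
    (integrable_const 1) (by
      have h0 : ∀ᵐ y ∂S.m, (MulAction.orbit Γ y.1).Infinite :=
        Measure.quasiMeasurePreserving_fst.ae hinf
      filter_upwards [h0] with y hy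
      obtain ⟨F₀, h1, h2⟩ := (infinite_lst c hy).exists_subset_card_eq K
      refine tendsto_const_nhds.congr' ?_
      filter_upwards [eventually_ge_atTop F₀] with F hF
      rw [if_neg (not_lt.2 ?_)]
      rw [Finset.sum_boole, ← h2]
      exact Nat.cast_le.2 (Finset.card_le_card fun γ hγ => Finset.mem_filter.2 ⟨hF hγ, h1 hγ⟩))
  simpa using h

theorem int_one_le (hfr : Frame V ε) {c : Γ → ℕ} (hc : Function.Injective c) {u : Sec S V}
    (hu : ∀ y, ‖u y‖ ≤ 1) (F : Finset Γ) {K : ℝ} (hK : 0 < K) :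
    ∫ y, cf ε u 1 y ^ 2 ∂S.m ≤ ∫ y,
      (if (∑ γ ∈ F, if Lst c γ y.1 then (1 : ℝ) else 0) < K then (1 : ℝ) else 0) ∂S.m +
      (2 + 2 * ∑ γ ∈ F, ∫ y, df u γ y ∂S.m) / K := by
  have hi := fun γ (_ : γ ∈ F) => int_cut hfr hu 1 (meas_lst S.fix c γ)
  have h0 := intg (S := S) (meas_few S c F K) 1 fun y => by split_ifs <;> simp
  have h1 := (integrable_finsetSum F hi).div_const K
  refine le_trans ?_ (add_le_add le_rfl (div_le_div_of_nonneg_right (sum_le hfr hc hu F) hK.le))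
  rw [← integral_finsetSum F hi, ← integral_div, ← integral_add h0 h1]
  refine integral_mono (int_sq hfr hu 1) (h0.add h1) fun y => ?_
  have e : ∑ γ ∈ F, (if Lst c γ y.1 then cf ε u 1 y ^ 2 else 0) =
      (∑ γ ∈ F, if Lst c γ y.1 then (1 : ℝ) else 0) * cf ε u 1 y ^ 2 := by
    rw [Finset.sum_mul]
    exact Finset.sum_congr rfl fun γ _ => by split_ifs <;> simp
  have h2 : 0 ≤ ∑ γ ∈ F, if Lst c γ y.1 then (1 : ℝ) else 0 :=
    Finset.sum_nonneg fun γ _ => by split_ifs <;> simp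
  have h3 := sq_nonneg (cf ε u 1 y)
  simp only [e]
  split_ifs with h
  · have := sq_cf_le hfr hu 1 y
    have := div_nonneg (mul_nonneg h2 h3) hK.le
    linarith
  · rw [zero_add, le_div_iff₀ hK, mul_comm]
    exact mul_le_mul_of_nonneg_right (not_lt.1 h) h3

variable {ζ : ℕ → Sec S V}

theorem tendsto_one (hfr : Frame V ε) (hinf : ∀ᵐ x ∂S.μ, (MulAction.orbit Γ x).Infinite)
    (hζ : ∀ n y, ‖ζ n y‖ ≤ 1)
    (hinv : ∀ γ : Γ, Tendsto (fun n => ∫ y, df (ζ n) γ y ∂S.m) atTop (𝓝 0)) :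
    Tendsto (fun n => ∫ y, cf ε (ζ n) 1 y ^ 2 ∂S.m) atTop (𝓝 0) := by
  obtain ⟨c, hc⟩ := Countable.exists_injective_nat Γ
  refine tendsto_order.2 ⟨fun a ha => Eventually.of_forall fun n =>
    ha.trans_le (integral_nonneg fun y => sq_nonneg _), fun η hη => ?_⟩
  obtain ⟨K, hK⟩ := exists_nat_gt (8 / η)
  have hK0 : (0 : ℝ) < K := lt_trans (by positivity) hK
  obtain ⟨F, hF⟩ := ((tendsto_order.1 (tendsto_few hinf c K)).2 (η / 2) (by positivity)).exists
  have h1 : Tendsto (fun n => ∑ γ ∈ F, ∫ y, df (ζ n) γ y ∂S.m) atTop (𝓝 0) := by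
    simpa using tendsto_finsetSum F fun γ _ => hinv γ
  filter_upwards [(tendsto_order.1 h1).2 1 one_pos] with n hn
  have h2 := int_one_le hfr hc (hζ n) F hK0
  have h3 : (2 + 2 * ∑ γ ∈ F, ∫ y, df (ζ n) γ y ∂S.m) / K ≤ η / 2 := by
    rw [div_lt_iff₀ hη] at hK
    rw [div_le_iff₀ hK0]
    nlinarith
  linarith

theorem tendsto_sq (hfr : Frame V ε) (hinf : ∀ᵐ x ∂S.μ, (MulAction.orbit Γ x).Infinite)
    (hζ : ∀ n y, ‖ζ n y‖ ≤ 1)
    (hinv : ∀ γ : Γ, Tendsto (fun n => ∫ y, df (ζ n) γ y ∂S.m) atTop (𝓝 0)) (δ : Γ) :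
    Tendsto (fun n => ∫ y, cf ε (ζ n) δ y ^ 2 ∂S.m) atTop (𝓝 0) := by
  have h1 := ((tendsto_one hfr hinf hζ hinv).const_mul 2).add ((hinv δ).const_mul 2)
  rw [mul_zero, add_zero] at h1
  refine squeeze_zero (fun n => integral_nonneg fun y => sq_nonneg _) (fun n => ?_) h1
  simpa using key hfr (hζ n) δ δ (p := fun _ => True) (by simp)

theorem tendsto_abs (hfr : Frame V ε) (hinf : ∀ᵐ x ∂S.μ, (MulAction.orbit Γ x).Infinite)
    (hζ : ∀ n y, ‖ζ n y‖ ≤ 1)
    (hinv : ∀ γ : Γ, Tendsto (fun n => ∫ y, df (ζ n) γ y ∂S.m) atTop (𝓝 0)) (δ : Γ) :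
    Tendsto (fun n => ∫ y, |cf ε (ζ n) δ y| ∂S.m) atTop (𝓝 0) := by
  refine tendsto_order.2 ⟨fun a ha => Eventually.of_forall fun n =>
    ha.trans_le (integral_nonneg fun y => abs_nonneg _), fun η hη => ?_⟩
  filter_upwards [(tendsto_order.1 (tendsto_sq hfr hinf hζ hinv δ)).2 (η / 2 * (η / 2))
    (by positivity)] with n hn
  have ht : 0 < η / 2 := by positivity
  have h1 := (int_sq hfr (hζ n) δ).div_const (η / 2)
  have h2 : ∫ y, |cf ε (ζ n) δ y| ∂S.m ≤ ∫ y, (η / 2 + cf ε (ζ n) δ y ^ 2 / (η / 2)) ∂S.m := by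
    refine integral_mono_of_nonneg (ae_of_all _ fun y => abs_nonneg _)
      ((integrable_const _).add h1) (ae_of_all _ fun y => ?_)
    simp only
    rw [← sub_le_iff_le_add', le_div_iff₀ ht, ← sq_abs]
    nlinarith [sq_nonneg (|cf ε (ζ n) δ y| - η / 2), abs_nonneg (cf ε (ζ n) δ y)]
  rw [integral_add (integrable_const _) h1, integral_div (η / 2)] at h2
  have h3 : (∫ y, cf ε (ζ n) δ y ^ 2 ∂S.m) / (η / 2) < η / 2 := by rwa [div_lt_iff₀ ht]
  simp only [integral_const, probReal_univ, smul_eq_mul, one_mul] at h2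
  linarith

/-- The distance to the span of finitely many vectors of the frame. -/
noncomputable def rem (ε : X → X → H) (c : Γ → ℕ) (ξ : Sec S V) (F : Finset Γ) (y : X × G) : ℝ :=
  ‖ξ y - ∑ γ ∈ F.filter (fun γ => Lst c γ y.1), ⟪ε y.1 (γ • y.1), ξ y⟫ • ε y.1 (γ • y.1)‖

theorem orth (hfr : Frame V ε) {c : Γ → ℕ} (hc : Function.Injective c) (x : X) (γ : Γ)
    (hγ : Lst c γ x) (δ : Γ) (hδ : Lst c δ x) :
    ⟪ε x (γ • x), ε x (δ • x)⟫ = if γ = δ then 1 else 0 := by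
  rw [hfr.inner]
  by_cases h : γ = δ
  · rw [if_pos h, if_pos (by rw [h])]
  · rw [if_neg h, if_neg fun e => h (hγ.uniq hc hδ e)]

theorem meas_rem (hfr : Frame V ε) (c : Γ → ℕ) (ξ : Sec S V) (F : Finset Γ) :
    Measurable (rem ε c ξ F) := by
  unfold rem
  simp only [Finset.sum_filter]
  refine (ξ.meas.sub (Finset.stronglyMeasurable_fun_sum F fun γ _ => ?_)).norm.measurable
  exact StronglyMeasurable.ite (measurable_fst (meas_lst S.fix c γ))
    ((meas_cf hfr ξ γ).stronglyMeasurable.smul ((hfr.meas γ).comp_measurable measurable_fst))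
    stronglyMeasurable_const

theorem rem_le (hfr : Frame V ε) {c : Γ → ℕ} (hc : Function.Injective c) (ξ : Sec S V)
    (F : Finset Γ) (y : X × G) : |rem ε c ξ F y| ≤ ‖ξ y‖ := by
  rw [rem, abs_norm]
  exact norm_sub_proj_le (v := fun γ : Γ => ε y.1 (γ • y.1)) (fun γ hγ δ hδ =>
    orth hfr hc y.1 γ (Finset.mem_filter.1 hγ).2 δ (Finset.mem_filter.1 hδ).2) (ξ y)

theorem tendsto_rem (hfr : Frame V ε) {c : Γ → ℕ} (hc : Function.Injective c) (ξ : Sec S V)
    (hξ : ∀ y, ξ y ∈ closure (Submodule.span ℝ (range fun γ : Γ => ε y.1 (γ • y.1)) : Set H)) :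
    Tendsto (fun F : Finset Γ => ∫ y, rem ε c ξ F y ∂S.m) atTop (𝓝 0) := by
  obtain ⟨C, hC⟩ := ξ.bdd
  have h := tendsto_integral_filter_of_dominated_convergence (μ := S.m) (l := atTop)
    (F := rem ε c ξ) (f := fun _ => 0) (fun _ => C)
    (Eventually.of_forall fun F => (meas_rem hfr c ξ F).aestronglyMeasurable)
    (Eventually.of_forall fun F => ae_of_all _ fun y => (rem_le hfr hc ξ F y).trans (hC y))
    (integrable_const C) (ae_of_all _ fun y =>
      tendsto_proj (v := fun γ : Γ => ε y.1 (γ • y.1)) (fun γ => Lst c γ y.1) (orth hfr hc y.1)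
        (fun γ => (exists_lst c γ y.1).imp fun δ h => ⟨h.2, by rw [h.1]⟩) (hξ y))
  simpa using h

theorem abs_inner_le (hfr : Frame V ε) {c : Γ → ℕ} (hc : Function.Injective c) (ξ : Sec S V)
    {C : ℝ} (hC : ∀ y, ‖ξ y‖ ≤ C) {u : Sec S V} (hu : ∀ y, ‖u y‖ ≤ 1) (F : Finset Γ) :
    |⟪u, ξ⟫| ≤ ∫ y, rem ε c ξ F y ∂S.m + C * ∑ γ ∈ F, ∫ y, |cf ε u γ y| ∂S.m := by
  have hi : ∀ γ ∈ F, Integrable (fun y => |cf ε u γ y|) S.m := fun γ _ =>
    (intg (meas_cf hfr u γ) 1 fun y => (abs_cf_le hfr u γ y).trans (hu y)).abs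
  have h0 : Integrable (rem ε c ξ F) S.m :=
    intg (meas_rem hfr c ξ F) C fun y => (rem_le hfr hc ξ F y).trans (hC y)
  have h1 := (integrable_finsetSum F hi).const_mul C
  rw [Sec.inner_def, ← integral_finsetSum F hi, ← integral_const_mul, ← integral_add h0 h1]
  refine abs_integral_le_integral_abs.trans (integral_mono_of_nonneg
    (ae_of_all _ fun y => abs_nonneg _) (h0.add h1) (ae_of_all _ fun y => ?_))
  simp only
  have hC0 : 0 ≤ C := (norm_nonneg _).trans (hC y)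
  set P := ∑ γ ∈ F.filter (fun γ => Lst c γ y.1), ⟪ε y.1 (γ • y.1), ξ y⟫ • ε y.1 (γ • y.1) with hP
  have e : ⟪u y, ξ y⟫ = ⟪u y, ξ y - P⟫ + ⟪u y, P⟫ := by rw [← inner_add_right, sub_add_cancel]
  have h2 : |⟪u y, ξ y - P⟫| ≤ rem ε c ξ F y :=
    (abs_real_inner_le_norm _ _).trans (mul_le_of_le_one_left (norm_nonneg _) (hu y))
  have h3 : |⟪u y, P⟫| ≤ C * ∑ γ ∈ F, |cf ε u γ y| := by
    rw [hP, inner_sum, Finset.mul_sum]
    refine (Finset.abs_sum_le_sum_abs _ _).trans ((Finset.sum_le_sum fun γ _ => ?_).trans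
      (Finset.sum_le_sum_of_subset_of_nonneg (Finset.filter_subset _ _) fun γ _ _ =>
        mul_nonneg hC0 (abs_nonneg _)))
    rw [real_inner_smul_right, abs_mul, real_inner_comm (ε y.1 (γ • y.1)) (u y)]
    exact mul_le_mul_of_nonneg_right ((abs_cf_le hfr ξ γ y).trans (hC y)) (abs_nonneg _)
  rw [e]
  exact (abs_add_le _ _).trans (add_le_add h2 h3)

end Fr

/-- On infinite orbits, asymptotically invariant bounded sections tend weakly to zero. -/
theorem decay (hfr : Frame V ε) (hinf : ∀ᵐ x ∂S.μ, (MulAction.orbit Γ x).Infinite) (ξ : Sec S V)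
    (hξ : ∀ y, ξ y ∈ closure (Submodule.span ℝ (range fun γ : Γ => ε y.1 (γ • y.1)) : Set H))
    (ζ : ℕ → Sec S V) (hζ : ∀ n y, ‖ζ n y‖ ≤ 1)
    (hinv : ∀ γ : Γ, Tendsto (fun n => ∫ y, ‖ζ n (y.1, S.j γ * y.2) - ζ n y‖ ^ 2 ∂S.m)
      atTop (𝓝 0)) :
    Tendsto (fun n => ⟪ζ n, ξ⟫) atTop (𝓝 0) := by
  obtain ⟨c, hc⟩ := Countable.exists_injective_nat Γ
  obtain ⟨C, hC⟩ := ξ.bdd
  refine Metric.tendsto_nhds.2 fun η hη => ?_
  obtain ⟨F, hF⟩ :=
    ((tendsto_order.1 (Fr.tendsto_rem hfr hc ξ hξ)).2 (η / 2) (by positivity)).exists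
  have h1 : Tendsto (fun n => C * ∑ γ ∈ F, ∫ y, |Fr.cf ε (ζ n) γ y| ∂S.m) atTop (𝓝 0) := by
    simpa using (tendsto_finsetSum F fun γ _ => Fr.tendsto_abs hfr hinf hζ hinv γ).const_mul C
  filter_upwards [(tendsto_order.1 h1).2 (η / 2) (by positivity)] with n hn
  have h2 := Fr.abs_inner_le hfr hc ξ hC (hζ n) F
  rw [dist_zero_right, Real.norm_eq_abs]
  linarith

end Pool.Agent.Lib.MP_60cbcc_al.H3Z
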