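import Pool.Agent.Lib.MP_60cbcc_al.H3ZOne
import Pool.Agent.Lib.MP_60cbcc_al.H3ZBad

/-!
The spectral gap for bounded sections.
-/

set_option linter.unusedSectionVars false

namespace Pool.Agent.Lib.MP_60cbcc_al.H3Z

open MeasureTheory Set Filter Topology MulAction
open scoped ENNReal NNReal RealInnerProductSpace Pointwise

variable {Γ G X G₁ G₂ : Type} [Group Γ] [Countable Γ] [Group G] [TopologicalSpace G]
  [IsTopologicalGroup G] [LocallyCompactSpace G] [SecondCountableTopology G] [T2Space G]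
  [MeasurableSpace G] [BorelSpace G] [MeasurableSpace X] [MulAction Γ X] [MeasurableConstSMul Γ X]
  [Group G₁] [TopologicalSpace G₁] [IsTopologicalGroup G₁] [LocallyCompactSpace G₁]
  [SecondCountableTopology G₁] [T2Space G₁] [MeasurableSpace G₁] [BorelSpace G₁]
  [Group G₂] [TopologicalSpace G₂] [IsTopologicalGroup G₂] [LocallyCompactSpace G₂]
  [SecondCountableTopology G₂] [T2Space G₂] [MeasurableSpace G₂] [BorelSpace G₂]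
  {H : Type} [NormedAddCommGroup H] [InnerProductSpace ℝ H] [CompleteSpace H]

theorem err_small (C : ℝ) {δ : ℝ} (hδ : 0 < δ) : ∃ k₀ : ℕ, ∀ K : ℕ,
    ∑ k ∈ Finset.Ico k₀ K, C * (√(√(1 / 2)) : ℝ) ^ k ≤ δ := by
  have h1 : √(√(1 / 2)) < (1 : ℝ) := by
    rw [Real.sqrt_lt' one_pos, Real.sqrt_lt' (by norm_num)]; norm_num
  have hs : Summable fun k : ℕ => C * (√(√(1 / 2)) : ℝ) ^ k :=
    (summable_geometric_of_lt_one (Real.sqrt_nonneg _) h1).mul_left C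
  obtain ⟨s, hs'⟩ := summable_iff_vanishing.1 hs _ (Iio_mem_nhds hδ)
  refine ⟨s.sup id + 1, fun K => le_of_lt (hs' _ (Finset.disjoint_left.2 fun k hk hk' => ?_))⟩
  have := Finset.le_sup (f := id) hk'
  have := (Finset.mem_Ico.1 hk).1
  simp only [id] at *
  omega

namespace Spl

variable (P : Spl G G₁ G₂) (S : Setup Γ G X) (V : Γ → X → H →ₗᵢ[ℝ] H)

/-- The law of the lazy walk. -/
noncomputable def ν : Measure G :=
  (1 / 2 : ℝ≥0) • Measure.dirac 1 + (1 / 4 : ℝ≥0) • P.ν₁ + (1 / 4 : ℝ≥0) • P.ν₂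

instance probν : IsProbabilityMeasure P.ν := ⟨by
  simp only [ν, Measure.add_apply, Measure.smul_apply, measure_univ, ENNReal.smul_def,
    smul_eq_mul, mul_one]
  rw [← ENNReal.coe_add, ← ENNReal.coe_add]; norm_num⟩

instance symmν : P.ν.IsInvInvariant := ⟨by
  have h1 := P.symm₁.inv_eq_self
  have h2 := P.symm₂.inv_eq_self
  simp only [Measure.inv] at h1 h2 ⊢
  rw [ν, Measure.map_add _ _ measurable_inv, Measure.map_add _ _ measurable_inv,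
    Measure.map_smul, Measure.map_smul, Measure.map_smul, h1, h2, Measure.map_dirac' measurable_inv,
    inv_one]⟩

theorem Av_ν : Av S V P.ν = lazy (P.R₁ S V) (P.R₂ S V) := by
  rw [ν, Av_add, Av_add, Av_smul, Av_smul, Av_smul, Av_dirac, lazy]
  have : (Tr S V 1 : Module.End ℝ (Sec S V)) = 1 := by ext u y; simp
  simp [this, R₁, R₂]

theorem gap (hV : ∀ γ x, γ • x = x → ∀ z, V γ x z = z)
    (hd₁ : ∀ᵐ x ∂S.μ, Dense ((fun γ => (P.e.symm (S.j γ)).1) ''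
      (⁅stabilizer Γ x, stabilizer Γ x⁆ : Subgroup Γ) * (P.W₁.K : Set G₁)))
    (hd₂ : ∀ᵐ x ∂S.μ, Dense ((fun γ => (P.e.symm (S.j γ)).2) ''
      (⁅stabilizer Γ x, stabilizer Γ x⁆ : Subgroup Γ) * (P.W₂.K : Set G₂))) :
    ∃ k₀ : ℕ, ∀ ξ : Sec S V, (∀ y, ‖ξ y‖ ≤ 1) → ∀ K : ℕ, ∑ k ∈ Finset.Ico k₀ K,
      ‖(Av S V P.ν ^ 2 ^ (k + 1) - Av S V P.ν ^ 2 ^ (k + 2)) ξ‖ ^ 2 ≤ 1 / 10 := by
  have O := P.ops S V
  obtain ⟨K₀, hK₀, hK₀'⟩ := S.tight (ε := 1 / 100000) (by norm_num)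
  obtain ⟨C₁, Z₁, hC₁, hZ₁, hZ₁', H₁⟩ := P.one S V hV hd₁ (ε := 1 / 1000) (β := 1 / 100000)
    (by norm_num) (by norm_num) hK₀
  obtain ⟨C₂, Z₂, hC₂, hZ₂, hZ₂', H₂⟩ := P.swap.one S V hV hd₂ (ε := 1 / 1000) (β := 1 / 100000)
    (by norm_num) (by norm_num) hK₀
  rw [swap_R₁, swap_R₂] at H₂
  set R₁ := P.R₁ S V with hR₁
  set R₂ := P.R₂ S V with hR₂
  obtain ⟨τ, hτ, hτ'⟩ : ∃ τ : ℝ, 0 < τ ∧ 48 * (C₁ + C₂) / τ ^ 2 ≤ 1 / 100000 := by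
    refine ⟨4800000 * (C₁ + C₂) + 1, by positivity, ?_⟩
    rw [div_le_iff₀ (by positivity)]
    nlinarith [sq_nonneg (C₁ + C₂)]
  obtain ⟨k₀, hk₀⟩ := err_small ((C₁ + C₂) * (16 * τ + 1024)) (δ := 1 / 10) (by norm_num)
  refine ⟨k₀, fun ξ hξ K => ?_⟩
  have hξ' : ‖ξ‖ ≤ 1 := ξ.norm_le zero_le_one hξ
  have hL := P.Av_ν S V
  rw [← hR₁, ← hR₂] at hL
  set Q := Av S V P.ν with hQ
  set D : ℕ → Sec S V := fun k => (Q ^ 2 ^ (k + 1) - Q ^ 2 ^ (k + 2)) ξ with hD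
  set W : ℕ → Sec S V := fun k => ∑ j ∈ Finset.Ico (2 ^ (k + 1)) (2 ^ (k + 2)), (Q ^ j) ξ with hW
  have hWD : ∀ k, (1 - Q) (W k) = D k := fun k => by
    have : ∀ a b : ℕ, a ≤ b → (1 - Q) (∑ j ∈ Finset.Ico a b, (Q ^ j) ξ) = (Q ^ a - Q ^ b) ξ := by
      intro a b hab
      induction b, hab using Nat.le_induction with
      | base => simp
      | succ b hab ih =>
        rw [Finset.sum_Ico_succ_top hab, map_add, ih, pow_succ']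
        simp
    exact this _ _ (Nat.pow_le_pow_right two_pos (Nat.le_succ _))
  have cQ : ∀ z, ‖Q z‖ ≤ ‖z‖ := norm_Av_le _
  have hD2 : ∀ k, ‖D k‖ ≤ 2 := fun k => by
    have := norm_sub_le_of_le ((norm_pow_le cQ (2 ^ (k + 1)) ξ).trans hξ')
      ((norm_pow_le cQ (2 ^ (k + 2)) ξ).trans hξ')
    simpa [hD, one_add_one_eq_two] using this
  have hsum : ∑ k ∈ Finset.Ico k₀ K, ‖D k‖ ^ 2 ≤ 3 := by
    have := bad P.ν ξ hξ MeasurableSet.univ (fun _ _ _ => rfl) one_pos k₀ K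
    simp only [Measure.restrict_univ, probReal_univ, ← Sec.norm_sq] at this
    linarith
  set ρ : ℝ := √(√(1 / 2)) with hρ
  have hρ0 : 0 ≤ ρ := Real.sqrt_nonneg _
  have hρ4 : ρ ^ 4 = 1 / 2 := by
    rw [show ρ ^ 4 = (ρ ^ 2) ^ 2 by ring, hρ, Real.sq_sqrt (Real.sqrt_nonneg _),
      Real.sq_sqrt (by norm_num)]
  have hρ1 : ρ ≤ 1 := by
    rw [hρ]; exact Real.sqrt_le_one.2 (Real.sqrt_le_one.2 (by norm_num))
  have hdec : ∀ k j : ℕ, 2 ^ k ≤ j → ‖(1 - Q) ((Q ^ j) ξ)‖ ≤ (ρ ^ k) ^ 2 := fun k j hj => by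
    refine (abs_le_of_sq_le_sq' ?_ (by positivity)).2
    have h1 := O.decay ξ j
    rw [← hL] at h1
    refine h1.trans ?_
    rw [show ((ρ ^ k) ^ 2) ^ 2 = (ρ ^ 4) ^ k by ring, hρ4, one_div_pow]
    have : (2 : ℝ) ^ k ≤ j := by exact_mod_cast hj
    exact div_le_div₀ zero_le_one (by nlinarith [norm_nonneg ξ]) (by positivity) (by linarith)
  have hDD : ∀ k, ‖(1 - Q) (D k)‖ ≤ 2 * (ρ ^ k) ^ 2 := fun k => by
    have := norm_sub_le_of_le (hdec k (2 ^ (k + 1)) (Nat.pow_le_pow_right two_pos (by omega)))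
      (hdec k (2 ^ (k + 2)) (Nat.pow_le_pow_right two_pos (by omega)))
    rw [← map_sub, ← two_mul] at this
    exact this
  have a₁ : ∀ z, ‖(1 - R₁) z‖ ≤ 4 * ‖(1 - Q) z‖ := hL ▸ O.d₁
  have a₂ : ∀ z, ‖(1 - R₂) z‖ ≤ 4 * ‖(1 - Q) z‖ := hL ▸ O.d₂
  have q₁ : ∀ z, (1 - Q) ((1 - R₁) z) = (1 - R₁) ((1 - Q) z) := fun z => by
    have := LinearMap.congr_fun (hL ▸ O.comm_lazy : Commute R₁ Q).eq z
    simp only [Module.End.mul_apply] at this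
    simp only [LinearMap.sub_apply, Module.End.one_apply, map_sub, this]; abel
  have q₂ : ∀ z, (1 - Q) ((1 - R₂) z) = (1 - R₂) ((1 - Q) z) := fun z => by
    have h := O.swap.comm_lazy
    rw [Ops.lazy_swap, ← hL] at h
    have := LinearMap.congr_fun h.eq z
    simp only [Module.End.mul_apply] at this
    simp only [LinearMap.sub_apply, Module.End.one_apply, map_sub, this]; abel
  have w₁ : ∀ k, ‖(1 - R₁) (W k)‖ ≤ 4 * ‖D k‖ := fun k => hWD k ▸ a₁ _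
  have w₂ : ∀ k, ‖(1 - R₂) (W k)‖ ≤ 4 * ‖D k‖ := fun k => hWD k ▸ a₂ _
  have v₁ : ∀ k, 4 * ‖(1 - Q) ((1 - R₁) (W k))‖ ≤ 32 * (ρ ^ k) ^ 2 := fun k => by
    rw [q₁, hWD]; linarith [a₁ (D k), hDD k]
  have v₂ : ∀ k, 4 * ‖(1 - Q) ((1 - R₂) (W k))‖ ≤ 32 * (ρ ^ k) ^ 2 := fun k => by
    rw [q₂, hWD]; linarith [a₂ (D k), hDD k]
  choose Y₁ hY₁ hY₁' I₁ using fun k => H₁ τ hτ (W k) _ _ (w₁ k) (w₂ k) ((a₁ _).trans (v₁ k))
    ((a₁ _).trans (v₂ k))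
  choose Y₂ hY₂ hY₂' I₂ using fun k => H₂ τ hτ (W k) _ _ (w₂ k) (w₁ k) ((a₂ _).trans (v₂ k))
    ((a₂ _).trans (v₁ k))
  set Z := Z₁ ∪ Z₂ ∪ ⋃ k ∈ Finset.Ico k₀ K, (Y₁ k ∪ Y₂ k) with hZ
  have mZ : MeasurableSet Z := (hZ₁.union hZ₂).union
    (Finset.measurableSet_biUnion _ fun k _ => (hY₁ k).union (hY₂ k))
  have hZ' : S.μ.real Z ≤ 3 / 100000 := by
    have h1 : S.μ.real (⋃ k ∈ Finset.Ico k₀ K, (Y₁ k ∪ Y₂ k)) ≤ 1 / 100000 := by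
      refine (measureReal_biUnion_finset_le _ _).trans ((Finset.sum_le_sum (g := fun k =>
        16 * (C₁ + C₂) / τ ^ 2 * ‖D k‖ ^ 2) fun k _ => ?_).trans ?_)
      · refine (measureReal_union_le _ _).trans ((add_le_add (hY₁' k) (hY₂' k)).trans_eq ?_)
        ring
      · rw [← Finset.mul_sum]
        refine (mul_le_mul_of_nonneg_left hsum (by positivity)).trans (le_of_eq_of_le ?_ hτ')
        ring
    have h2 := measureReal_union_le (μ := S.μ) Z₁ Z₂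
    have h3 := measureReal_union_le (μ := S.μ) (Z₁ ∪ Z₂) (⋃ k ∈ Finset.Ico k₀ K, (Y₁ k ∪ Y₂ k))
    linarith
  have mA : MeasurableSet (Zᶜ ×ˢ K₀) := mZ.compl.prod hK₀.measurableSet
  have hae : (S.ret ⁻¹' (Zᶜ ×ˢ K₀)ᶜ : Set (X × G)) =ᵐ[S.m] ((Zᶜ ×ˢ K₀)ᶜ : Set (X × G)) := by
    filter_upwards [S.ae_mem] with y hy
    change (S.ret y ∈ (Zᶜ ×ˢ K₀)ᶜ) = (y ∈ (Zᶜ ×ˢ K₀)ᶜ)
    rw [S.ret_of_mem hy]
  have hB := bad P.ν ξ hξ (S.meas_ret mA.compl)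
    (fun γ x g => by simp only [mem_preimage, S.inv_ret γ x g]) (t := 100) (by norm_num) k₀ K
  rw [measureReal_congr hae, Measure.restrict_congr_set hae] at hB
  have hm : S.m.real (Zᶜ ×ˢ K₀)ᶜ ≤ 4 / 100000 := by
    have h1 : ((Zᶜ ×ˢ K₀)ᶜ : Set (X × G)) ⊆ Z ×ˢ univ ∪ univ ×ˢ K₀ᶜ := fun y hy => by
      by_cases h : y.1 ∈ Z
      · exact .inl ⟨h, trivial⟩
      · exact .inr ⟨trivial, fun h' => hy ⟨h, h'⟩⟩
    refine (measureReal_mono h1).trans ((measureReal_union_le _ _).trans ?_)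
    rw [Setup.m, measureReal_prod_prod, measureReal_prod_prod]
    simp only [probReal_univ, mul_one, one_mul]
    linarith
  have hG : ∀ k ∈ Finset.Ico k₀ K, ‖D k‖ ^ 2 ≤ ∫ y in (Zᶜ ×ˢ K₀)ᶜ, ‖D k y‖ ^ 2 ∂S.m +
      (4 / 1000 * ‖D k‖ ^ 2 + 1 / 8 * ((C₁ + C₂) * (16 * τ + 1024) * ρ ^ k)) := fun k hk => by
    have h0 := integral_add_compl mA (D k).int_sq
    rw [← (D k).norm_sq] at h0
    have h1 := I₁ k Zᶜ mZ.compl fun x hx => ⟨fun h => hx (.inl (.inl h)),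
      fun h => hx (.inr (mem_biUnion hk (.inl h)))⟩
    have h2 := I₂ k Zᶜ mZ.compl fun x hx => ⟨fun h => hx (.inl (.inr h)),
      fun h => hx (.inr (mem_biUnion hk (.inr h)))⟩
    have h3 := setInt_add ((1 - R₁) (W k)) ((1 - R₂) (W k)) (Zᶜ ×ˢ K₀)
    have h4 : (1 - R₁) (W k) + (1 - R₂) (W k) = (4 : ℝ) • D k := by
      rw [← hWD, hL, Ops.one_sub_lazy]; simp [smul_smul]
    have h5 : ∫ y in Zᶜ ×ˢ K₀, ‖((4 : ℝ) • D k) y‖ ^ 2 ∂S.m =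
        16 * ∫ y in Zᶜ ×ˢ K₀, ‖D k y‖ ^ 2 ∂S.m := by
      rw [← integral_const_mul]
      refine integral_congr_ae (ae_of_all _ fun y => ?_)
      simp only [Sec.smul_apply, norm_smul, mul_pow]; norm_num
    rw [h4, h5] at h3
    have hk0 : 0 ≤ ρ ^ k := pow_nonneg hρ0 k
    have hk1 : ρ ^ k ≤ 1 := pow_le_one₀ hρ0 hρ1
    have h6 : √(4 * ‖D k‖ * (32 * (ρ ^ k) ^ 2)) ≤ 16 * ρ ^ k :=
      Real.sqrt_le_iff.2 ⟨by positivity, by nlinarith [hD2 k, sq_nonneg (ρ ^ k)]⟩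
    have h7 : (32 * (ρ ^ k) ^ 2) ^ 2 ≤ 1024 * ρ ^ k := by
      have : (ρ ^ k) ^ 4 ≤ ρ ^ k := pow_le_of_le_one hk0 hk1 (by norm_num)
      nlinarith
    have h8 := mul_le_mul_of_nonneg_left h6 (by positivity : 0 ≤ (C₁ + C₂) * τ)
    have h9 := mul_le_mul_of_nonneg_left h7 (by positivity : 0 ≤ C₁ + C₂)
    nlinarith
  have hF := Finset.sum_le_sum hG
  rw [Finset.sum_add_distrib, Finset.sum_add_distrib, ← Finset.mul_sum, ← Finset.mul_sum] at hF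
  have := hk₀ K
  change ∑ k ∈ Finset.Ico k₀ K, ‖D k‖ ^ 2 ≤ _
  change ∑ k ∈ Finset.Ico k₀ K, ∫ y in (Zᶜ ×ˢ K₀)ᶜ, ‖D k y‖ ^ 2 ∂S.m ≤ _ at hB
  linarith

end Spl

end Pool.Agent.Lib.MP_60cbcc_al.H3Z
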