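import Pool.Agent.Lib.MP_60cbcc_al.H3ZHMDefs

/-!
Orbit maps into a Hilbert space: a vector with an unbounded stabiliser is fixed.
-/

namespace Pool.Agent.Lib.MP_60cbcc_al.H3Z

open Filter Topology

variable {L H : Type} [Group L] [TopologicalSpace L] [NormedAddCommGroup H]
  [InnerProductSpace ℂ H] [CompleteSpace H]

/-- The representation on the closed span of a family with an invariant Gram kernel. -/
theorem hm_rep {J : Type} [MulAction L J] (u : J → H)
    (hu : ∀ (g : L) j j', inner ℂ (u (g • j)) (u (g • j')) = inner ℂ (u j) (u j'))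
    (hc : ∀ j, Continuous fun g : L => u (g • j)) :
    ∃ (K : Submodule ℂ H) (_ : CompleteSpace K) (π : L →* K ≃ₗᵢ[ℂ] K) (e : J → K),
      (∀ j, (e j : H) = u j) ∧ Dense (Submodule.span ℂ (Set.range e) : Set K) ∧
      (∀ v, Continuous fun g => π g v) ∧ ∀ g j, π g (e j) = e (g • j) := by
  let K := (Submodule.span ℂ (Set.range u)).topologicalClosure
  have : CompleteSpace K := (Submodule.isClosed_topologicalClosure _).completeSpace_coe
  let e : J → K := fun j => ⟨u j, subset_closure (Submodule.subset_span ⟨j, rfl⟩)⟩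
  have hd : Dense (Submodule.span ℂ (Set.range e) : Set K) := by
    rw [Subtype.dense_iff, ← Submodule.coe_subtype, ← Submodule.map_coe, Submodule.map_span,
      ← Set.range_comp]
    exact subset_rfl
  let T := Finsupp.linearCombination ℂ e
  have hT : DenseRange T := by
    rwa [DenseRange, ← LinearMap.coe_range, Finsupp.range_linearCombination]
  let U : L → (J →₀ ℂ) ≃ₗ[ℂ] (J →₀ ℂ) := fun g => Finsupp.domLCongr (MulAction.toPerm g)
  have hU : ∀ g a, T (U g a) = a.sum fun j c => c • e (g • j) := fun g a => by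
    simp [T, U, Finsupp.linearCombination_apply, Finsupp.sum_equivMapDomain]
  have hn : ∀ g a, ‖T (U g a)‖ = ‖T a‖ := fun g a => by
    rw [norm_eq_sqrt_re_inner (𝕜 := ℂ), norm_eq_sqrt_re_inner (𝕜 := ℂ), hU,
      Finsupp.linearCombination_apply]
    simp only [Finsupp.sum, sum_inner, inner_sum, inner_smul_left, inner_smul_right,
      Submodule.coe_inner, e, hu]
  have h1 : ∀ g j, (U g).extendOfIsometry T T hT hT (hn g) (e j) = e (g • j) := fun g j => by
    have := LinearEquiv.extendOfIsometry_eq (U g) T T hT hT (hn g) (Finsupp.single j 1)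
    rw [hU] at this
    simpa [T] using this
  have ext : ∀ A B : K ≃ₗᵢ[ℂ] K, (∀ j, A (e j) = B (e j)) → A = B := fun A B h =>
    LinearIsometryEquiv.ext fun v => congrFun (Continuous.ext_on hd A.continuous B.continuous
      (LinearMap.eqOn_span' (f := A.toLinearEquiv.toLinearMap) (g := B.toLinearEquiv.toLinearMap)
        (Set.forall_mem_range.2 h))) v
  let π : L →* K ≃ₗᵢ[ℂ] K := MonoidHom.mk' (fun g => (U g).extendOfIsometry T T hT hT (hn g))
    fun a b => ext _ _ fun j => by rw [LinearIsometryEquiv.coe_mul, Function.comp, h1, h1, h1,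
      mul_smul]
  refine ⟨K, this, π, e, fun _ => rfl, hd, fun v => ?_, h1⟩
  refine continuous_of_uniform_approx_of_continuous fun s hs => ?_
  obtain ⟨ε, hε, hs⟩ := Metric.mem_uniformity_dist.1 hs
  obtain ⟨a, ha⟩ := hT.exists_dist_lt v hε
  refine ⟨fun g => π g (T a), ?_, fun g => hs (by rwa [(π g).dist_map])⟩
  have : ∀ g, π g (T a) = ∑ j ∈ a.support, a j • e (g • j) := fun g =>
    (LinearEquiv.extendOfIsometry_eq (U g) T T hT hT (hn g) a).trans (hU g a)
  simp only [this]
  exact continuous_finsetSum _ fun j _ => (continuous_const_smul (a j)).comp ((hc j).subtype_mk _)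

theorem hm_fix [IsTopologicalGroup L] (h : HoweMoore L) (v : L → H) (hc : Continuous v)
    (hv : ∀ g a b, inner ℂ (v (g * a)) (v (g * b)) = inner ℂ (v a) (v b)) {S : Set L}
    (hS : ¬ IsCompact (closure S)) (h1 : ∀ s ∈ S, v s = v 1) (a : L) :
    inner ℂ (v a) (v 1) = inner ℂ (v 1) (v 1) := by
  obtain ⟨K, _, π, e, e1, e2, e3, e4⟩ := hm_rep (L := L) (fun j : L × L => v j.1 - v j.2)
    (fun g j j' => by simp only [inner_sub_left, inner_sub_right, Prod.smul_fst, Prod.smul_snd,
      smul_eq_mul, hv])
    fun j => by simp only [Prod.smul_fst, Prod.smul_snd, smul_eq_mul]; fun_prop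
  have k : ∀ (g b : L) (w : K), inner ℂ (π g w : H) (v (g * b)) = inner ℂ (w : H) (v b) := by
    intro g b w
    refine e2.induction (P := fun w => inner ℂ (π g w : H) (v (g * b)) = inner ℂ (w : H) (v b))
      (fun w hw => ?_) (isClosed_eq (by fun_prop) (by fun_prop)) w
    induction hw using Submodule.span_induction with
    | mem w hw =>
      obtain ⟨j, rfl⟩ := hw
      simp [e4, e1, hv]
    | zero => simp
    | add x y _ _ a b => simp [a, b]
    | smul c x _ a => simp [a]
  have t := h K (fun g => π g) (fun g => (π g).toLinearEquiv.toLinearMap.isLinear)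
    (fun g => (π g).norm_map) (by simp) (by simp) e3 (fun w hw => ?_) (e (a, 1))
    (K.orthogonalProjectionOnto (v 1))
  · have f : ∃ᶠ g in cocompact L, g ∈ S := fun c => by
      obtain ⟨C, hC, h⟩ := mem_cocompact.1 c
      exact hS (hC.closure_of_subset fun s hs => not_not.1 fun n => h n hs)
    have := tendsto_nhds_unique_of_frequently_eq t tendsto_const_nhds (f.mono fun s hs =>
      show _ = inner ℂ (e (a, 1) : H) (v 1) by
        rw [Submodule.inner_orthogonalProjectionOnto_eq_of_mem_left, ← k s 1 (e _), mul_one,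
          h1 s hs])
    rw [e1, inner_sub_left] at this
    exact sub_eq_zero.1 this.symm
  · refine e2.eq_zero_of_inner_left ℂ fun x hx => ?_
    induction hx using Submodule.span_induction with
    | mem x hx =>
      obtain ⟨j, rfl⟩ := hx
      have a := k j.1 1 w
      have b := k j.2 1 w
      rw [hw, mul_one] at a b
      rw [Submodule.coe_inner, e1, inner_sub_right, a, b, sub_self]
    | zero => simp
    | add x y _ _ a b => rw [inner_add_right, a, b, add_zero]
    | smul c x _ a => rw [inner_smul_right, a, mul_zero]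

end Pool.Agent.Lib.MP_60cbcc_al.H3Z
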