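import Pool.Agent.Lib.MP_60cbcc_al.H3ZHMDefs

/-!
Random locally bounded subgroups of a quasi-simple non-amenable group are central.
-/

namespace Pool.Agent.Lib.MP_60cbcc_al.H3Z

open Filter Topology MeasureTheory

section
variable {V : Type} [NormedAddCommGroup V] [NormedSpace ℝ V]

/-- Sublinear functionals bounded by the norm. -/
structure Sbl (τ : V → ℝ) : Prop where
  add : ∀ f g, τ (f + g) ≤ τ f + τ g
  smul : ∀ c : ℝ, 0 < c → ∀ f, τ (c • f) ≤ c * τ f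
  le : ∀ f, τ f ≤ ‖f‖

theorem Sbl.ge {τ : V → ℝ} (h : Sbl τ) (f : V) : -‖f‖ ≤ τ f := by
  have h1 := h.add 0 0
  have h2 := h.add f (-f)
  have h3 := h.le (-f)
  rw [add_zero] at h1
  rw [add_neg_cancel] at h2
  rw [norm_neg] at h3
  linarith

theorem Sbl.cont {τ : V → ℝ} (h : Sbl τ) : Continuous τ := by
  refine (LipschitzWith.of_le_add_mul 1 fun f g => ?_).continuous
  have h1 := h.add g (f - g)
  have h2 := h.le (f - g)
  rw [add_sub_cancel] at h1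
  rw [dist_eq_norm, NNReal.coe_one]
  linarith

theorem Sbl.hom {τ : V → ℝ} (h : Sbl τ) (c : ℝ) (hc : 0 < c) (f : V) : τ (c • f) = c * τ f := by
  refine (h.smul c hc f).antisymm ?_
  have := h.smul c⁻¹ (inv_pos.2 hc) (c • f)
  rwa [inv_smul_smul₀ hc.ne', le_inv_mul_iff₀ hc] at this

theorem Sbl.lin {τ : V → ℝ} (h : Sbl τ) : ∃ l : V →ₗ[ℝ] ℝ, ∀ f, l f ≤ τ f := by
  obtain ⟨l, -, hl⟩ := exists_extension_of_le_sublinear (⊥ : V →ₗ.[ℝ] ℝ) τ h.hom h.add fun x => by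
    obtain rfl : x = 0 := Subsingleton.elim (α := (⊥ : Submodule ℝ V)) _ _
    simpa using h.ge 0
  exact ⟨l, hl⟩

theorem Sbl.iInf {ι : Type} [Nonempty ι] {τ : ι → V → ℝ} (h : ∀ i, Sbl (τ i))
    (hd : ∀ i j, ∃ k, τ k ≤ τ i ∧ τ k ≤ τ j) : Sbl fun f => ⨅ i, τ i f := by
  have b : ∀ f i, ⨅ i, τ i f ≤ τ i f := fun f =>
    ciInf_le ⟨-‖f‖, Set.forall_mem_range.2 fun i => (h i).ge f⟩
  refine ⟨fun f g => le_ciInf_add_ciInf fun i j => ?_, fun c hc f => ?_,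
    fun f => (b f (Classical.arbitrary ι)).trans ((h _).le f)⟩
  · obtain ⟨k, h1, h2⟩ := hd i j
    exact (b _ k).trans (((h k).add f g).trans (add_le_add (h1 f) (h2 g)))
  · rw [← inv_mul_le_iff₀ hc]
    exact le_ciInf fun i => (inv_mul_le_iff₀ hc).2 ((b _ i).trans ((h i).smul c hc f))

variable {L : Type} [Group L] (ρ : L →* V ≃ₗᵢ[ℝ] V) (τ : V → ℝ)

/-- The supremum of the linear functionals below `τ` that are invariant under `F`. -/
noncomputable def hmS (F : Set L) (f : V) : ℝ :=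
  sSup (insert (-‖f‖) {r | ∃ l : V →ₗ[ℝ] ℝ, (∀ f, l f ≤ τ f) ∧ (∀ a ∈ F, ∀ f, l (ρ a f) = l f) ∧
    l f = r})

variable {ρ τ}

theorem hmS_le {F : Set L} {f : V} {b : ℝ} (h0 : -‖f‖ ≤ b) (h : ∀ l : V →ₗ[ℝ] ℝ,
    (∀ f, l f ≤ τ f) → (∀ a ∈ F, ∀ f, l (ρ a f) = l f) → l f ≤ b) : hmS ρ τ F f ≤ b := by
  refine csSup_le (Set.insert_nonempty _ _) ?_
  rintro _ (rfl | ⟨l, h1, h2, rfl⟩)
  exacts [h0, h l h1 h2]

theorem hmS_bdd (h : Sbl τ) (F : Set L) (f : V) : BddAbove (insert (-‖f‖) {r | ∃ l : V →ₗ[ℝ] ℝ,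
    (∀ f, l f ≤ τ f) ∧ (∀ a ∈ F, ∀ f, l (ρ a f) = l f) ∧ l f = r}) := by
  refine ⟨τ f, ?_⟩
  rintro _ (rfl | ⟨l, h1, -, rfl⟩)
  exacts [h.ge f, h1 f]

theorem ge_hmS (h : Sbl τ) (F : Set L) (f : V) : -‖f‖ ≤ hmS ρ τ F f :=
  le_csSup (hmS_bdd h F f) (Or.inl rfl)

theorem le_hmS (h : Sbl τ) {F : Set L} {l : V →ₗ[ℝ] ℝ} (h1 : ∀ f, l f ≤ τ f)
    (h2 : ∀ a ∈ F, ∀ f, l (ρ a f) = l f) (f : V) : l f ≤ hmS ρ τ F f :=
  le_csSup (hmS_bdd h F f) (Or.inr ⟨l, h1, h2, rfl⟩)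

theorem hmS_conj (h : Sbl τ) {g : L} (hg : ∀ f, τ (ρ g f) ≤ τ f) {F F' : Set L}
    (hF : ∀ a ∈ F, g * a * g⁻¹ ∈ F') (f : V) : hmS ρ τ F' (ρ g f) ≤ hmS ρ τ F f := by
  refine hmS_le (by rw [(ρ g).norm_map]; exact ge_hmS h F f) fun l h1 h2 => ?_
  refine le_hmS h (l := l ∘ₗ (ρ g).toLinearEquiv.toLinearMap) (fun f => (h1 _).trans (hg f))
    (fun a ha f => ?_) f
  simpa using h2 _ (hF a ha) (ρ g f)

variable [TopologicalSpace L] [IsTopologicalGroup L]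

theorem hmS_sbl (hρ : ∀ f, Continuous fun g => ρ g f) (h : Sbl τ) (hτ : ∀ g f, τ (ρ g f) ≤ τ f)
    {F : Set L} (hF : IsCompact (closure (Subgroup.closure F : Set L))) : Sbl (hmS ρ τ F) := by
  obtain ⟨l, h1, h2⟩ : ∃ l : V →ₗ[ℝ] ℝ, (∀ f, l f ≤ τ f) ∧ ∀ a ∈ F, ∀ f, l (ρ a f) = l f := by
    obtain ⟨l, hl⟩ := h.lin
    let K := (Subgroup.closure F).topologicalClosure
    have : CompactSpace K := isCompact_iff_compactSpace.1 hF
    borelize (↥K)
    let m : Measure K := Measure.haarMeasure ⊤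
    have : IsProbabilityMeasure m := ⟨Measure.haarMeasure_self⟩
    have c : Continuous l := AddMonoidHomClass.continuous_of_bound l 1 fun f => by
      have a := (hl f).trans (h.le f)
      have b := (hl (-f)).trans (h.le (-f))
      rw [map_neg, norm_neg] at b
      rw [one_mul, Real.norm_eq_abs, abs_le]
      exact ⟨by linarith, a⟩
    have i : ∀ f, Integrable (fun k : K => l (ρ (k : L)⁻¹ f)) m := fun f =>
      (c.comp ((hρ f).comp (by fun_prop))).integrable_of_hasCompactSupport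
        (HasCompactSupport.of_compactSpace _)
    refine ⟨⟨⟨fun f => ∫ k : K, l (ρ (k : L)⁻¹ f) ∂m, fun f g => ?_⟩, fun c f => ?_⟩, fun f => ?_,
      fun a ha f => ?_⟩
    · simp only [map_add, integral_add (i f) (i g)]
    · simp only [map_smul, integral_smul, RingHom.id_apply]
    · simpa using integral_mono (i f) (integrable_const (τ f)) fun k => (hl _).trans (hτ _ f)
    · have := integral_mul_left_eq_self (μ := m) (fun k : K => l (ρ (k : L)⁻¹ (ρ a f)))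
        ⟨a, subset_closure (Subgroup.subset_closure ha)⟩
      simpa using this.symm
  have b : ∀ f, -‖f‖ ≤ l f := fun f => by
    have b := (h1 (-f)).trans (h.le (-f))
    rw [map_neg, norm_neg] at b
    linarith
  refine ⟨fun f g => hmS_le ((b _).trans ?_) fun l h1 h2 => ?_,
    fun c hc f => hmS_le ((b _).trans ?_) fun l h1 h2 => ?_,
    fun f => hmS_le (neg_le_self (norm_nonneg f)) fun l h1 _ => (h1 f).trans (h.le f)⟩
  iterate 2 exact (map_add l f g).trans_le (add_le_add (le_hmS h h1 h2 f) (le_hmS h h1 h2 g))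
  iterate 2 exact (map_smul l c f).trans_le (mul_le_mul_of_nonneg_left (le_hmS h h1 h2 f) hc.le)

theorem hm_bdl (hρ : ∀ f, Continuous fun g => ρ g f) {s₀ : V → ℝ} (h₀ : Sbl s₀)
    (i₀ : ∀ g f, s₀ (ρ g f) ≤ s₀ f)
    (qs : ∀ N : Subgroup L, N.Normal → IsClosed (N : Set L) → N ≤ Subgroup.center L ∨ N = ⊤)
    {Γ X : Type} [Group Γ] [Countable Γ] [MulAction Γ X] [MeasurableSpace X]
    [MeasurableConstSMul Γ X] (μ : Measure X) [IsProbabilityMeasure μ] [SMulInvariantMeasure Γ X μ]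
    (c : Γ →* L) {n : L} (hn : n ∉ Subgroup.center L) {P : X → Γ → Prop}
    (hP : ∀ δ, MeasurableSet {x | P x δ}) (hc : DenseRange c)
    (eP : ∀ γ x δ, P x δ → P (γ • x) (γ * δ)) (h1 : μ {x | P x 1} ≠ 0)
    (hK : ∀ᵐ x ∂μ, ∀ s : Finset Γ, (∀ δ ∈ s, P x δ) →
      IsCompact (closure (Subgroup.closure ((fun δ => c δ * n * (c δ)⁻¹) '' s) : Set L))) :
    ∃ l : V →ₗ[ℝ] ℝ, (∀ f, l f ≤ s₀ f) ∧ ∀ g f, l (ρ g f) = l f := by
  classical
  obtain ⟨τ, -, ⟨hτ, t0, ti⟩, tm⟩ := zorn_le_nonempty₀ (α := (V → ℝ)ᵒᵈ)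
    {τ : V → ℝ | Sbl τ ∧ τ ≤ s₀ ∧ ∀ g f, τ (ρ g f) ≤ τ f} (fun C hC hch y hy => by
      have : Nonempty C := ⟨⟨y, hy⟩⟩
      have b : ∀ f (i : C), ⨅ i : C, i.1 f ≤ i.1 f := fun f =>
        ciInf_le ⟨-‖f‖, Set.forall_mem_range.2 fun i => (hC i.2).1.ge f⟩
      refine ⟨fun f => ⨅ i : C, i.1 f, ⟨Sbl.iInf (fun i : C => (hC i.2).1) fun i j => ?_,
        fun f => (b f ⟨y, hy⟩).trans ((hC hy).2.1 f),
        fun g f => le_ciInf fun i => (b _ i).trans ((hC i.2).2.2 g f)⟩, fun z hz f => b f ⟨z, hz⟩⟩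
      exact (hch.total i.2 j.2).elim (fun h => ⟨j, h, le_rfl⟩) fun h => ⟨i, le_rfl, h⟩)
    s₀ ⟨h₀, le_rfl, i₀⟩
  change V → ℝ at τ
  obtain ⟨T, hT⟩ : ∃ T : X → Finset Γ → V → ℝ, ∀ x s, T x s = if ∀ δ ∈ s, P x δ then
    hmS ρ τ ((fun δ => c δ * n * (c δ)⁻¹) '' s) else τ := ⟨_, fun _ _ => rfl⟩
  have T1 : ∀ x s f, -‖f‖ ≤ T x s f ∧ T x s f ≤ τ f := fun x s f => by
    rw [hT]
    split_ifs
    exacts [⟨ge_hmS hτ _ f, hmS_le (hτ.ge f) fun l h _ => h f⟩, ⟨hτ.ge f, le_rfl⟩]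
  have b : ∀ x f s, ⨅ s, T x s f ≤ T x s f := fun x f =>
    ciInf_le ⟨-‖f‖, Set.forall_mem_range.2 fun s => (T1 x s f).1⟩
  have T2 : ∀ x f, ⨅ s, T x s f ≤ τ f := fun x f => (b x f ∅).trans (T1 x ∅ f).2
  have T3 : ∀ᵐ x ∂μ, Sbl fun f => ⨅ s, T x s f := by
    filter_upwards [hK] with x hx
    refine Sbl.iInf (fun s => ?_) fun s s' => ?_
    · rw [hT]
      split_ifs with h
      exacts [hmS_sbl hρ hτ ti (hx s h), hτ]
    · have k : ∀ u ⊆ s ∪ s', T x ((s ∪ s').filter (P x)) ≤ T x u := fun u hu f => by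
        rw [hT x u]
        split_ifs with h
        · rw [hT, if_pos fun δ hδ => (Finset.mem_filter.1 hδ).2]
          exact hmS_le (ge_hmS hτ _ f) fun l h1 h2 => le_hmS hτ h1 (fun a ha => h2 a
            (Set.image_mono (fun δ hδ => Finset.mem_filter.2 ⟨hu hδ, h δ hδ⟩) ha)) f
        · exact (T1 _ _ f).2
      exact ⟨_, k s Finset.subset_union_left, k s' Finset.subset_union_right⟩
  have T4 : ∀ f, Integrable (fun x => ⨅ s, T x s f) μ := fun f => by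
    refine .of_bound (Measurable.iInf fun s => ?_).aestronglyMeasurable ‖f‖ (ae_of_all _ fun x =>
      abs_le.2 ⟨le_ciInf fun s => (T1 x s f).1, (T2 x f).trans (hτ.le f)⟩)
    simp only [hT, ite_apply]
    refine Measurable.ite ?_ measurable_const measurable_const
    simp only [Set.ofPred_forall]
    exact .iInter fun δ => .iInter fun _ => hP δ
  have T5 : ∀ f, ∫ x, ⨅ s, T x s f ∂μ ≤ τ f := fun f => by
    simpa using integral_mono (T4 f) (integrable_const (τ f)) fun x => T2 x f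
  have T6 : Sbl fun f => ∫ x, ⨅ s, T x s f ∂μ := by
    refine ⟨fun f g => ?_, fun a ha f => ?_, fun f => (T5 f).trans (hτ.le f)⟩
    · rw [← integral_add (T4 f) (T4 g)]
      exact integral_mono_ae (T4 _) ((T4 f).add (T4 g)) (T3.mono fun x h => h.add f g)
    · rw [← integral_const_mul]
      exact integral_mono_ae (T4 _) ((T4 f).const_mul a) (T3.mono fun x h => h.smul a ha f)
  have T7 : ∀ g f, ∫ x, ⨅ s, T x s (ρ g f) ∂μ ≤ ∫ x, ⨅ s, T x s f ∂μ := fun g f => by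
    refine hc.induction_on g (isClosed_le (T6.cont.comp (hρ f)) continuous_const) fun γ => ?_
    rw [← integral_smul_eq_self (μ := μ) _ (g := γ)]
    refine integral_mono ((measurePreserving_smul γ μ).integrable_comp_of_integrable (T4 _)) (T4 f)
      fun x => le_ciInf fun s => ?_
    rw [hT x s]
    split_ifs with h
    · refine (b _ _ (s.image (γ * ·))).trans ?_
      rw [hT, if_pos (Finset.forall_mem_image.2 fun δ hδ => eP γ x δ (h δ hδ))]
      refine hmS_conj hτ (ti _) ?_ f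
      rintro _ ⟨δ, hδ, rfl⟩
      exact ⟨γ * δ, Finset.mem_coe.2 (Finset.mem_image_of_mem _ hδ), by simp [mul_assoc]⟩
    · exact (T2 _ _).trans (ti _ f)
  have T8 : ∀ f, τ f ≤ ∫ x, ⨅ s, T x s f ∂μ := tm ⟨T6, fun f => (T5 f).trans (t0 f), T7⟩ T5
  let N : Subgroup L :=
    { carrier := {g | ∀ f, τ (f - ρ g f) ≤ 0}
      one_mem' := fun f => by simpa using hτ.le 0
      mul_mem' := fun {g h} hg hh f => by
        have e : f - ρ (g * h) f = (f - ρ g f) + ρ g (f - ρ h f) := by simp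
        linarith [e ▸ hτ.add _ _, hg f, ti g (f - ρ h f), hh f]
      inv_mem' := fun {g} hg f => by
        have e : f - ρ g⁻¹ f = -ρ g⁻¹ f - ρ g (-ρ g⁻¹ f) := by simp [sub_eq_neg_add, add_comm]
        exact e ▸ hg _ }
  have nN : n ∈ N := fun f => by
    have := (integral_eq_iff_of_ae_le (T4 (f - ρ n f)) (integrable_const (τ (f - ρ n f)))
      (ae_of_all _ fun x => T2 x _)).1 (by simpa using (T5 _).antisymm (T8 _))
    obtain ⟨x, hx, e⟩ := Measure.exists_mem_of_measure_ne_zero_of_ae h1 (ae_restrict_of_ae this)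
    refine e.ge.trans ((b x _ {1}).trans ?_)
    rw [hT, if_pos (by simpa using hx)]
    exact hmS_le (neg_nonpos.2 (norm_nonneg _)) fun l _ h => by
      rw [map_sub, h n ⟨1, by simp, by simp⟩, sub_self]
  have tN : N = ⊤ := (qs N ⟨fun a ha g f => by
      have e : f - ρ (g * a * g⁻¹) f = ρ g (ρ g⁻¹ f - ρ a (ρ g⁻¹ f)) := by simp
      exact e ▸ (ti g _).trans (ha _)⟩ (by
      change IsClosed {g | ∀ f, τ (f - ρ g f) ≤ 0}
      rw [Set.ofPred_forall]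
      exact isClosed_iInter fun f => isClosed_le (hτ.cont.comp (continuous_const.sub (hρ f)))
        continuous_const)).resolve_left fun h => hn (h nN)
  obtain ⟨l, hl⟩ := hτ.lin
  refine ⟨l, fun f => (hl f).trans (t0 f), fun g f => ?_⟩
  have a := (hl _).trans ((tN.ge (Subgroup.mem_top g) : g ∈ N) f)
  have b := (hl _).trans ((tN.ge (Subgroup.mem_top g) : g ∈ N) (-f))
  simp only [map_sub, map_neg] at a b
  linarith

end

end Pool.Agent.Lib.MP_60cbcc_al.H3Z
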