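import Pool.Agent.Lib.MP_60cbcc_al.H3ZDense
import Pool.Agent.Lib.MP_60cbcc_al.H3ZFac
import Pool.Agent.Lib.MP_60cbcc_al.H3ZHMA
import Pool.Agent.Lib.MP_60cbcc_al.H3ZHMB

/-!
The properties of a factor that are used, for rigid groups and for Howe-Moore groups.
-/

namespace Pool.Agent.Lib.MP_60cbcc_al.H3Z

open MeasureTheory Topology Filter BoundedContinuousFunction

variable {L : Type} [Group L] [TopologicalSpace L] [IsTopologicalGroup L]

section

theorem fm_top
    (qs : ∀ N : Subgroup L, N.Normal → IsClosed (N : Set L) → N ≤ Subgroup.center L ∨ N = ⊤)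
    {K : Subgroup L} (hK : IsClosed (K : Set L)) {n : L}
    (hn : n ∉ Subgroup.center L) {T : Set L} (hT : Dense T) (h : ∀ g ∈ T, g * n * g⁻¹ ∈ K) :
    K = ⊤ := by
  have h1 : n ∈ K.normalCore := fun g =>
    closure_minimal (s := T) (t := (fun g => g * n * g⁻¹) ⁻¹' K) h (hK.preimage (by fun_prop))
      (hT g)
  rcases qs K.normalCore inferInstance (K.normalCore_isClosed hK) with a | a
  · exact absurd (a h1) hn
  · exact top_unique (a ▸ K.normalCore_le)

variable {Γ M X : Type} [Group Γ] [Countable Γ] [Group M] [TopologicalSpace M]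
  [IsTopologicalGroup M] [FirstCountableTopology M] [MulAction Γ X] [MeasurableSpace X]
  {q : Γ →* M} {μ : Measure X} [IsFiniteMeasure μ] [SMulInvariantMeasure Γ X μ]

theorem fm_fin [SecondCountableTopology L]
    (qs : ∀ N : Subgroup L, N.Normal → IsClosed (N : Set L) → N ≤ Subgroup.center L ∨ N = ⊤)
    (i : L →* M) (hi : Continuous i) {n : L} (hn : n ∉ Subgroup.center L) {F' : Set M}
    (hm : i n ∈ F') (p2 : μ (dnD q X F') ≠ 0) (z : ∀ g : L, dnP q μ F' (i g) = 0) :
    μ {x | ∀ a : L, i a ∈ dnH q x} ≠ 0 := by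
  obtain ⟨T, T1, T2⟩ := TopologicalSpace.exists_countable_dense L
  have ae : ∀ᵐ x ∂μ, ∀ g ∈ T, x ∉ dnD q X F' \ dnD q X (dnC (i g) F') := by
    refine (ae_ball_iff T1).2 fun g _ => measure_eq_zero_iff_ae_notMem.1 ?_
    exact (measureReal_eq_zero_iff (measure_ne_top _ _)).1 (z g)
  intro e
  refine p2 (measure_eq_zero_iff_ae_notMem.2 ?_)
  filter_upwards [ae, measure_eq_zero_iff_ae_notMem.1 e] with x h1 h2 hx
  refine h2 fun g => ?_
  have cl : IsClosed ((dnH q x).comap i : Set L) :=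
    (Subgroup.isClosed_topologicalClosure _).preimage hi
  have tp := fm_top qs cl hn T2
    fun g hg => by
      have m : x ∈ dnD q X (dnC (i g) F') := not_not.1 fun e => h1 g hg ⟨hx, e⟩
      have := mem_dnD_dnC.1 m _ hm
      simpa only [Subgroup.mem_comap, map_mul, map_inv] using this
  exact (tp.ge (Subgroup.mem_top g) : g ∈ (dnH q x).comap i)

end

theorem transl_mul (a b : L) (f : L →ᵇ ℝ) : transl (a * b) f = transl a (transl b f) := by
  ext x
  simp [transl, mul_assoc]

theorem transl_one (f : L →ᵇ ℝ) : transl 1 f = f := by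
  ext x
  simp [transl]

theorem norm_transl (a : L) (f : L →ᵇ ℝ) : ‖transl a f‖ = ‖f‖ := by
  have k : ∀ (a : L) (f : L →ᵇ ℝ), ‖transl a f‖ ≤ ‖f‖ := fun a f => norm_compContinuous_le _ _
  refine (k a f).antisymm ?_
  simpa only [← transl_mul, inv_mul_cancel, transl_one] using k a⁻¹ (transl a f)

variable (L) in
/-- The uniformly continuous functions. -/
def hmU : Submodule ℝ (L →ᵇ ℝ) where
  carrier := {f | Continuous fun g => transl g f}
  zero_mem' := continuous_const (y := 0)
  add_mem' := fun a b => Continuous.add a b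
  smul_mem' := fun c _ a => (continuous_const_smul c).comp a

/-- Translation of uniformly continuous functions. -/
def hmT (g : L) : hmU L →ₗ[ℝ] hmU L where
  toFun f := ⟨transl g f.1, by
    change Continuous fun h => transl h (transl g f.1)
    simp only [← transl_mul]
    exact Continuous.comp (g := fun g => transl g f.1) f.2 (continuous_mul_const g)⟩
  map_add' _ _ := rfl
  map_smul' _ _ := rfl

variable (L) in
/-- The representation on uniformly continuous functions. -/
noncomputable def hmR : L →* hmU L ≃ₗᵢ[ℝ] hmU L := MonoidHom.mk' (fun g =>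
  { hmT g with
    invFun := hmT g⁻¹
    left_inv := fun f => Subtype.ext ((transl_mul _ _ _).symm.trans (by
      rw [inv_mul_cancel, transl_one]))
    right_inv := fun f => Subtype.ext ((transl_mul _ _ _).symm.trans (by
      rw [mul_inv_cancel, transl_one]))
    norm_map' := fun f => norm_transl g f.1 })
  fun a b => LinearIsometryEquiv.ext fun f => Subtype.ext (transl_mul a b f.1)

omit [Group L] [IsTopologicalGroup L] in
theorem le_sup' (f : L →ᵇ ℝ) (x : L) : f x ≤ ⨆ x, f x :=
  le_ciSup ⟨‖f‖, Set.forall_mem_range.2 f.apply_le_norm⟩ x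

omit [IsTopologicalGroup L] in
theorem sbl_sup : Sbl fun f : L →ᵇ ℝ => ⨆ x, f x :=
  ⟨fun f g => ciSup_le fun x => add_le_add (le_sup' f x) (le_sup' g x),
    fun _ hc f => ciSup_le fun x => mul_le_mul_of_nonneg_left (le_sup' f x) hc.le,
    fun f => ciSup_le f.apply_le_norm⟩

theorem amenable_of {l : hmU L →ₗ[ℝ] ℝ} (h1 : ∀ f, l f ≤ ⨆ x, f.1 x)
    (h2 : ∀ g f, l (hmR L g f) = l f) : Amenable L := by
  obtain ⟨m, e, hm⟩ := exists_extension_of_le_sublinear ⟨hmU L, l⟩ (fun f => ⨆ x, f x)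
    sbl_sup.hom sbl_sup.add h1
  refine ⟨m, ?_, fun f hf => ?_, fun f hf g => (e (hmR L g ⟨f, hf⟩)).trans ((h2 g _).trans
    (e ⟨f, hf⟩).symm)⟩
  · have a := hm 1
    have b := hm (-1)
    simp only [map_neg, coe_one, Pi.one_apply, ciSup_const, coe_neg, Pi.neg_apply] at a b
    linarith
  · have a := (hm (-f)).trans (ciSup_le (c := 0) fun x => neg_nonpos.2 (hf x))
    rwa [map_neg, neg_nonpos] at a

/-- The properties of a factor used in the proof. -/
structure Firm (L : Type) [Group L] [TopologicalSpace L] : Prop where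
  cg : ∃ S : Set L, IsCompact S ∧ Subgroup.closure S = ⊤
  qs : ∀ N : Subgroup L, N.Normal → IsClosed (N : Set L) → N ≤ Subgroup.center L ∨ N = ⊤
  perf : Dense (commutator L : Set L)
  nfi : ∀ N : Subgroup L, IsClosed (N : Set L) → N.FiniteIndex → N = ⊤
  nd : ¬ DiscreteTopology L
  step : ∀ (Γ M X : Type) [Group Γ] [Countable Γ] [Group M] [TopologicalSpace M]
    [IsTopologicalGroup M] [FirstCountableTopology M] [MulAction Γ X] [MeasurableSpace X]
    [MeasurableConstSMul Γ X] (q : Γ →* M) (μ : Measure X) [IsFiniteMeasure μ]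
    [SMulInvariantMeasure Γ X μ], (∀ γ : Γ, MeasurableSet {x : X | γ • x = x}) → DenseRange q →
    ∀ i : L →* M, Continuous i → ∀ c : Γ →* L, DenseRange c →
    (∀ δ a, q δ * i a * (q δ)⁻¹ = i (c δ * a * (c δ)⁻¹)) → ∀ n ∉ Subgroup.center L,
    μ (dnD q X {i n}) ≠ 0 → μ {x | ∀ a : L, i a ∈ dnH q x} ≠ 0

theorem Firm.weak (h : Firm L) : Weak L := ⟨h.qs, h.perf, h.nfi, h.nd⟩

theorem Rigid.firm [SecondCountableTopology L] (h : Rigid L) : Firm L :=
  ⟨h.cg, h.qs, h.perf, h.nfi, h.nd, fun _ _ _ _ _ _ _ _ _ _ _ _ _ _ _ _ hX hq i hi _ _ _ _ hn h0 =>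
    dn_step2 h hX hq i hi hn h0⟩

section
variable {Γ M X : Type} [Group Γ] [Countable Γ] [Group M] [TopologicalSpace M]
  [IsTopologicalGroup M] [FirstCountableTopology M] [MulAction Γ X] [MeasurableSpace X]
  {q : Γ →* M} {μ : Measure X} [IsFiniteMeasure μ] [SMulInvariantMeasure Γ X μ]

theorem hm_zero (h : HoweMoore L) (hX : ∀ γ : Γ, MeasurableSet {x : X | γ • x = x})
    (hq : DenseRange q) (i : L →* M) (hi : Continuous i) {F : Set L} (hF : F.Finite)
    (hn : ¬ IsCompact (closure (Subgroup.closure F : Set L))) (g : L) :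
    dnP q μ (i '' F) (i g) = 0 := by
  have f := hF.image i
  have m : ∀ a : L, MeasurableSet (dnD q X (dnC (i a) (i '' F))) := fun a =>
    dnD_meas hX (dnC_fin _ f).countable
  obtain ⟨v, hv⟩ : ∃ v : L → Lp ℂ 2 μ, ∀ a b, inner ℂ (v a) (v b) =
      ((μ.real (dnD q X (i '' F)) - dnP q μ (i '' F) (i (a⁻¹ * b)) : ℝ) : ℂ) := by
    refine ⟨fun a => indicatorConstLp 2 (m a) (measure_ne_top _ _) 1, fun a b => ?_⟩
    rw [L2.inner_indicatorConstLp_one_indicatorConstLp_one, map_mul, map_inv, ← dnP_eq hX hq f,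
      eq_sub_of_add_eq (measureReal_inter_add_sdiff (μ := μ) (m b))]
    simp only [Measure.real, dn_conj hX hq _ f]
    rfl
  have d : ∀ a b, dist (v a) (v b) = √(2 * dnP q μ (i '' F) (i (a⁻¹ * b))) := fun a b => by
    rw [dist_eq_norm, norm_eq_sqrt_re_inner (𝕜 := ℂ), inner_sub_left, inner_sub_right,
      inner_sub_right, hv, hv, hv, hv, show b⁻¹ * a = (a⁻¹ * b)⁻¹ by simp, map_inv i (_ * _),
      dnP_inv hX hq f]
    congr 1
    simp [dnP_one]
    ring
  have c : Continuous v := continuous_iff_continuous_dist.2 (by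
    have := dnP_cont (μ := μ) hX hq f
    simp only [d]
    fun_prop)
  have k := hm_fix h v c (fun g a b => by simp [hv, mul_assoc]) hn (fun s hs => ?_) g⁻¹
  · rw [hv, hv] at k
    simpa [dnP_one] using k
  rw [← dist_eq_zero, dist_comm, d, inv_one, one_mul]
  suffices dnP q μ (i '' F) (i s) = 0 by simp [this]
  induction hs using Subgroup.closure_induction with
  | mem x hx => exact dnP_mem ⟨x, hx, rfl⟩
  | one => rw [map_one, dnP_one]
  | mul x y _ _ a b =>
    exact le_antisymm (by simpa [a, b] using dnP_mul (μ := μ) hX hq f (i x) (i y))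
      measureReal_nonneg
  | inv x _ a => rw [map_inv, dnP_inv hX hq f, a]

end

theorem HMType.firm [SecondCountableTopology L] [T2Space L] (h : HMType L) : Firm L := by
  obtain ⟨cg, nd, na, perf, qs, hm⟩ := h
  refine ⟨cg, qs, perf, fun N hN hf => ?_, nd, ?_⟩
  · refine top_unique (((qs _ inferInstance (N.normalCore_isClosed hN)).resolve_left
      fun hc => nd ?_).ge.trans N.normalCore_le)
    have : (Subgroup.center L).FiniteIndex := Subgroup.finiteIndex_of_le hc
    have : Finite (commutatorSet L) := by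
      refine (Set.finite_range fun p : (L ⧸ Subgroup.center L) × (L ⧸ Subgroup.center L) =>
        p.1.out * p.2.out * p.1.out⁻¹ * p.2.out⁻¹).subset ?_
      rintro _ ⟨a, b, rfl⟩
      obtain ⟨⟨x, hx⟩, e1⟩ := QuotientGroup.mk_out_eq_mul (Subgroup.center L) a
      obtain ⟨⟨y, hy⟩, e2⟩ := QuotientGroup.mk_out_eq_mul (Subgroup.center L) b
      refine ⟨(a, b), ?_⟩
      have hx := Subgroup.mem_center_iff.1 hx
      have hy := Subgroup.mem_center_iff.1 hy
      simp only [e1, e2, commutatorElement_def, mul_inv_rev]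
      calc a * x * (b * y) * (x⁻¹ * a⁻¹) * (y⁻¹ * b⁻¹)
          = a * (x * (b * y)) * x⁻¹ * (a⁻¹ * y⁻¹) * b⁻¹ := by group
        _ = a * b * (y * (a * y)⁻¹) * b⁻¹ := by rw [← hx, hy a]; group
        _ = _ := by group
    have f : (commutator L : Set L).Finite :=
      Set.finite_coe_iff.1 (inferInstanceAs (Finite (commutator L)))
    have : Finite L := Set.finite_univ_iff.1 (by rwa [← perf.closure_eq, f.isClosed.closure_eq])
    infer_instance
  intro Γ M X _ _ _ _ _ _ _ _ _ q μ _ _ hX hq i hi c hc hj n hn h0 h1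
  have : NeZero μ := ⟨fun e => h0 (by simp [e])⟩
  have ac : (μ Set.univ)⁻¹ • μ ≪ μ := Measure.smul_absolutelyContinuous
  have a1 : ∀ f : hmU L, Continuous fun g => hmR L g f := fun f => Continuous.subtype_mk f.2 _
  have a2 : Sbl fun f : hmU L => ⨆ x, f.1 x :=
    ⟨fun f g => sbl_sup.add f.1 g.1, fun a ha f => sbl_sup.smul a ha f.1, fun f => sbl_sup.le f.1⟩
  have a3 : ∀ g (f : hmU L), ⨆ x, (hmR L g f).1 x ≤ ⨆ x, f.1 x :=
    fun g f => ciSup_le fun x => le_sup' f.1 (g⁻¹ * x)
  have a4 : ∀ γ x δ, x ∈ dnD q X {i (c δ * n * (c δ)⁻¹)} →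
      γ • x ∈ dnD q X {i (c (γ * δ) * n * (c (γ * δ))⁻¹)} := by
    rintro γ x δ h _ rfl
    have := dnH_smul γ (h _ rfl)
    rw [hj] at this
    simpa only [map_mul c, mul_inv_rev, mul_assoc] using this
  refine (hm_bdl a1 a2 a3 qs ((μ Set.univ)⁻¹ • μ) c hn
    (P := fun x δ => x ∈ dnD q X {i (c δ * n * (c δ)⁻¹)})
    (fun δ => dnD_meas hX (Set.countable_singleton _)) hc a4
    (by simpa using h0) (ac.ae_le (ae_all_iff.2 fun s => ?_))).elim
    fun l h => na (amenable_of h.1 h.2)
  by_cases hs : IsCompact (closure (Subgroup.closure ((fun δ => c δ * n * (c δ)⁻¹) '' s) : Set L))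
  · exact ae_of_all _ fun _ _ => hs
  obtain ⟨δ, hδ⟩ : s.Nonempty := Finset.nonempty_iff_ne_empty.2 fun e => hs (by simp [e])
  have : μ (dnD q X (i '' ((fun δ => c δ * n * (c δ)⁻¹) '' s))) = 0 := not_not.1 fun e =>
    fm_fin qs i hi (fun e => hn (dn_center_conj e))
      (Set.mem_image_of_mem i (Set.mem_image_of_mem (fun δ => c δ * n * (c δ)⁻¹) hδ)) e
      (hm_zero hm hX hq i hi (s.finite_toSet.image _) hs) h1
  filter_upwards [measure_eq_zero_iff_ae_notMem.1 this] with x hx h
  exact (hx (Set.forall_mem_image.2 (Set.forall_mem_image.2 fun δ hδ => h δ hδ _ rfl))).elim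

end Pool.Agent.Lib.MP_60cbcc_al.H3Z
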