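import Pool.Agent.Lib.MP_60cbcc_al.H3ZRealB

/-!
Elements with a large adjoint trace from small conjugates.
-/

namespace Pool.Agent.Lib.MP_60cbcc_al.H3Z

open H8W Topology
open scoped Matrix.Norms.Operator

section Linear

variable {V : Type} [AddCommGroup V] [Module ℝ V]

/-- An orthonormal basis of eigenvectors of a map symmetric for a positive form. -/
theorem realD_eigen [FiniteDimensional ℝ V] (β : V →ₗ[ℝ] V →ₗ[ℝ] ℝ) (hs : ∀ x y, β x y = β y x)
    (h0 : ∀ x, 0 ≤ β x x) (hd : ∀ x, β x x = 0 → x = 0) (T : Module.End ℝ V)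
    (hT : ∀ x y, β (T x) y = β x (T y)) :
    ∃ (b : Module.Basis (Fin (Module.finrank ℝ V)) ℝ V) (μ : Fin (Module.finrank ℝ V) → ℝ),
      (∀ x i, b.repr x i = β (b i) x) ∧ ∀ i, T (b i) = μ i • b i := by
  let c : InnerProductSpace.Core ℝ V :=
    { inner := fun x y => β x y
      conj_inner_symm := fun x y => hs y x
      re_inner_nonneg := h0
      add_left := fun x y z => by simp
      smul_left := fun x y r => by simp
      definite := hd }
  let _ : NormedAddCommGroup V := InnerProductSpace.Core.toNormedAddCommGroup (cd := c)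
  let _ : InnerProductSpace ℝ V := InnerProductSpace.ofCore c.toCore
  have hT' : T.IsSymmetric := hT
  refine ⟨(hT'.eigenvectorBasis rfl).toBasis, hT'.eigenvalues rfl, fun x i => ?_, fun i => ?_⟩
  · rw [OrthonormalBasis.coe_toBasis_repr_apply, OrthonormalBasis.repr_apply_apply,
      OrthonormalBasis.coe_toBasis]
    rfl
  · rw [OrthonormalBasis.coe_toBasis]
    exact hT'.apply_eigenvectorBasis rfl i

theorem realD_diag {ι : Type} [Fintype ι] [DecidableEq ι] (b : Module.Basis ι ℝ V)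
    {T : Module.End ℝ V} {u : ι → ℝ} (h : ∀ i, T (b i) = u i • b i) :
    LinearMap.toMatrixAlgEquiv b T = Matrix.diagonal u := by
  ext i j
  rw [LinearMap.toMatrixAlgEquiv_apply, h, map_smul, b.repr_self, Matrix.diagonal_apply]
  by_cases e : i = j <;> simp [e]

theorem realD_trace {ι : Type} [Fintype ι] [DecidableEq ι] (b : Module.Basis ι ℝ V)
    {T T' f g : Module.End ℝ V} {u u' : ι → ℝ} (h : ∀ i, T (b i) = u i • b i)
    (h' : ∀ i, T' (b i) = u' i • b i) (hu : ∀ i, 0 ≤ u i) (hu' : ∀ i, 0 ≤ u' i)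
    (hg : LinearMap.toMatrixAlgEquiv b g = (LinearMap.toMatrixAlgEquiv b f).transpose)
    (i j : ι) (k : ℕ) :
    LinearMap.toMatrixAlgEquiv b f i j ^ 2 * (u i * u' j) ^ k ≤
      LinearMap.trace ℝ V (g * (T ^ k * f * T' ^ k)) := by
  have e : LinearMap.trace ℝ V (g * (T ^ k * f * T' ^ k)) =
      ∑ j, ∑ i, LinearMap.toMatrixAlgEquiv b f i j ^ 2 * (u i * u' j) ^ k := by
    rw [LinearMap.trace_eq_matrix_trace ℝ b]
    change Matrix.trace (LinearMap.toMatrixAlgEquiv b _) = _
    rw [map_mul, map_mul, map_mul, map_pow, map_pow, realD_diag b h, realD_diag b h', hg,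
      Matrix.diagonal_pow, Matrix.diagonal_pow, Matrix.trace]
    refine Finset.sum_congr rfl fun j _ => ?_
    rw [Matrix.diag_apply, Matrix.mul_apply]
    refine Finset.sum_congr rfl fun i _ => ?_
    rw [Matrix.mul_diagonal, Matrix.diagonal_mul, Matrix.transpose_apply, Pi.pow_apply,
      Pi.pow_apply]
    ring
  have p : ∀ i j, 0 ≤ LinearMap.toMatrixAlgEquiv b f i j ^ 2 * (u i * u' j) ^ k := fun i j =>
    mul_nonneg (sq_nonneg _) (pow_nonneg (mul_nonneg (hu i) (hu' j)) _)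
  rw [e]
  exact (Finset.single_le_sum (fun i _ => p i j) (Finset.mem_univ i)).trans
    (Finset.single_le_sum (fun j _ => Finset.sum_nonneg fun i _ => p i j) (Finset.mem_univ j))

theorem realD_bound {ι : Type} {S : Set V} (P : ι → Prop) (φ : ι → V → ℝ)
    (ha : ∀ i x y, φ i (x + y) = φ i x + φ i y) (hm : ∀ i (c : ℝ) x, φ i (c • x) = c * φ i x)
    (hS : ∀ x ∈ S, ∃ C, ∀ i, P i → |φ i x| ≤ C) {x : V} (hx : x ∈ Submodule.span ℝ S) :
    ∃ C, ∀ i, P i → |φ i x| ≤ C := by
  induction hx using Submodule.span_induction with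
  | mem x hx => exact hS x hx
  | zero =>
    refine ⟨0, fun i _ => ?_⟩
    have := hm i 0 0
    rw [zero_smul, zero_mul] at this
    rw [this, abs_zero]
  | add x y _ _ h1 h2 =>
    obtain ⟨C, h1⟩ := h1
    obtain ⟨D, h2⟩ := h2
    exact ⟨C + D, fun i hi => by
      rw [ha]
      exact (abs_add_le _ _).trans (add_le_add (h1 i hi) (h2 i hi))⟩
  | smul c x _ h1 =>
    obtain ⟨C, h1⟩ := h1
    exact ⟨|c| * C, fun i hi => by
      rw [hm, abs_mul]
      exact mul_le_mul_of_nonneg_left (h1 i hi) (abs_nonneg c)⟩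

theorem realD_inv [FiniteDimensional ℝ V] (A : Submodule ℝ (Module.End ℝ V)) (h1 : 1 ∈ A)
    (hm : ∀ B ∈ A, ∀ C ∈ A, B * C ∈ A) {u : Module.End ℝ V} (hu : u ∈ A) (hu' : IsUnit u) :
    ∃ B ∈ A, u * B = 1 := by
  let m : A →ₗ[ℝ] A := (LinearMap.mulLeft ℝ u).restrict (hm _ hu)
  have hi : Function.Injective m := fun B C e =>
    Subtype.ext (hu'.mul_left_cancel (congrArg Subtype.val e))
  obtain ⟨B, hB⟩ := (LinearMap.injective_iff_surjective (f := m)).1 hi ⟨1, h1⟩
  exact ⟨B, B.2, congrArg Subtype.val hB⟩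

end Linear

theorem realD_exp {𝔸 : Type} [NormedRing 𝔸] [NormedAlgebra ℝ 𝔸] [CompleteSpace 𝔸] {Z X : 𝔸}
    {μ : ℝ} (h : Z * X - X * Z = μ • X) :
    (expU Z * X * ↑(expU Z)⁻¹ : 𝔸) = Real.exp μ • X := by
  let +nondep : NormedAlgebra ℚ 𝔸 := .restrictScalars ℚ ℝ 𝔸
  have h1 : SemiconjBy X (Z + algebraMap ℝ 𝔸 μ) Z := by
    rw [SemiconjBy, mul_add, ← Algebra.commutes, ← Algebra.smul_def, ← h, add_sub_cancel]
  have h2 := h1.exp_right
  rw [SemiconjBy, exp_add_comm (Algebra.commute_algebraMap_right μ Z),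
    ← NormedSpace.algebraMap_exp_comm, ← Real.exp_eq_exp_ℝ, ← mul_assoc, ← Algebra.commutes,
    ← Algebra.smul_def] at h2
  rw [val_expU, ← h2, smul_mul_assoc, ← val_expU, Units.mul_inv_cancel_right]

variable {n : ℕ} {Q : Subgroup (GL (Fin n) ℝ)}

theorem realD_closed (h : IsNoncompactSimple Q)
    (S : Submodule ℝ (Module.End ℝ (lieSub Q h.closed))) : IsClosed {q : Q | Ad h q ∈ S} := by
  have h1 : Continuous fun q : Q => LinearMap.toContinuousLinearMap (Ad h q) :=
    continuous_clm_apply.2 fun X => Continuous.subtype_mk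
      (((Units.continuous_val.comp continuous_subtype_val).mul continuous_const).mul
        (Units.continuous_coe_inv.comp continuous_subtype_val)) _
  have h2 := ((S.map (LinearMap.toContinuousLinearMap (𝕜 := ℝ) (E := lieSub Q h.closed)
    (F' := lieSub Q h.closed)).toLinearMap).closed_of_finiteDimensional).preimage h1
  convert h2 using 1
  ext q
  simp

/-- Finitely many small conjugates generate a group whose adjoint image spans that of `Q`. -/
theorem exists_span (h : IsNoncompactSimple Q) (g : Q) (hg : g ∉ Subgroup.center Q) :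
    ∃ d : ℕ, ∀ U ∈ 𝓝 (1 : Q), ∃ s : Finset Q, s.card ≤ d ∧ (s : Set Q) ⊆ U ∧ ∀ q : Q,
      Ad h q ∈ Submodule.span ℝ
        (Ad h '' (Subgroup.closure {f | ∃ v ∈ s, f = v * g * v⁻¹} : Subgroup Q)) := by
  classical
  have := h.conn
  let S : Set Q → Submodule ℝ (Module.End ℝ (lieSub Q h.closed)) := fun U =>
    Submodule.span ℝ ((fun v => Ad h (v * g * v⁻¹)) '' U)
  have hex : ∃ m, ∃ U ∈ 𝓝 (1 : Q), Module.finrank ℝ (S U) = m := ⟨_, _, Filter.univ_mem, rfl⟩
  obtain ⟨U₁, hU₁, hm⟩ := Nat.find_spec hex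
  have hst : ∀ W ∈ 𝓝 (1 : Q), S (W ∩ U₁) = S U₁ := fun W hW =>
    Submodule.eq_of_le_of_finrank_le (Submodule.span_mono (Set.image_mono Set.inter_subset_right))
      (hm ▸ Nat.find_min' hex ⟨_, Filter.inter_mem hW hU₁, rfl⟩)
  obtain ⟨W, hW, hW'⟩ := exists_nhds_one_split hU₁
  have hWc : ∀ x ∈ W, ∀ B ∈ S U₁, Ad h x * B * Ad h x⁻¹ ∈ S U₁ := fun x hx B hB => by
    rw [← hst W hW] at hB
    induction hB using Submodule.span_induction with
    | mem B hB =>
      obtain ⟨v, hv, rfl⟩ := hB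
      refine Submodule.subset_span ⟨x * v, hW' x hx v hv.1, ?_⟩
      simp only [← map_mul]
      congr 1
      group
    | zero => simp
    | add B C _ _ p q => simpa only [mul_add, add_mul] using add_mem p q
    | smul c B _ p => simpa only [mul_smul_comm, smul_mul_assoc] using Submodule.smul_mem _ c p
  let H : Subgroup Q :=
    { carrier := {x | (∀ B ∈ S U₁, Ad h x * B * Ad h x⁻¹ ∈ S U₁) ∧
        ∀ B ∈ S U₁, Ad h x⁻¹ * B * Ad h x ∈ S U₁}
      one_mem' := by simp
      mul_mem' := fun {x y} hx hy => ⟨fun B hB => by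
        simpa only [mul_inv_rev, map_mul, mul_assoc] using hx.1 _ (hy.1 B hB), fun B hB => by
        simpa only [mul_inv_rev, map_mul, mul_assoc] using hy.2 _ (hx.2 B hB)⟩
      inv_mem' := fun {x} hx => ⟨by simpa only [inv_inv] using hx.2, by
        simpa only [inv_inv] using hx.1⟩ }
  have hH : H = ⊤ := eq_top_of_nhds H (x := 1) (Filter.mem_of_superset
    (Filter.inter_mem hW (inv_mem_nhds_one Q hW)) fun x hx =>
      ⟨hWc x hx.1, by simpa only [inv_inv] using hWc x⁻¹ hx.2⟩)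
  have hall : ∀ x, Ad h (x * g * x⁻¹) ∈ S U₁ := fun x => by
    rw [map_mul, map_mul]
    exact (hH.ge (Subgroup.mem_top x)).1 _
      (Submodule.subset_span ⟨1, mem_of_mem_nhds hU₁, by simp⟩)
  refine ⟨Module.finrank ℝ (Module.End ℝ (lieSub Q h.closed)), fun U hU => ?_⟩
  obtain ⟨f, hf, hsp, -⟩ := Submodule.exists_fun_fin_finrank_span_eq ℝ
    ((fun v => Ad h (v * g * v⁻¹)) '' (U ∩ U₁))
  choose v hv hv' using hf
  refine ⟨Finset.univ.image v, Finset.card_image_le.trans (by
    rw [Finset.card_univ, Fintype.card_fin]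
    exact Submodule.finrank_le _), by
      intro x hx
      obtain ⟨i, -, rfl⟩ := Finset.mem_image.1 (Finset.mem_coe.1 hx)
      exact (hv i).1, ?_⟩
  set Λ : Subgroup Q := Subgroup.closure {f | ∃ w ∈ Finset.univ.image v, f = w * g * w⁻¹} with hΛ
  set A := Submodule.span ℝ (Ad h '' (Λ : Set Q)) with hA
  have hSA : S U₁ ≤ A := by
    rw [← hst U hU]
    refine hsp.ge.trans (Submodule.span_mono ?_)
    rintro _ ⟨i, rfl⟩
    exact ⟨_, Subgroup.subset_closure ⟨v i, Finset.mem_image_of_mem _ (Finset.mem_univ i), rfl⟩,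
      hv' i⟩
  have h1 : (1 : Module.End ℝ (lieSub Q h.closed)) ∈ A :=
    Submodule.subset_span ⟨1, Λ.one_mem, map_one _⟩
  have hmul : ∀ B ∈ A, ∀ C ∈ A, B * C ∈ A := fun B hB C hC => by
    have := Submodule.mul_mem_mul hB hC
    rw [hA, Submodule.span_mul_span] at this
    refine Submodule.span_mono ?_ this
    rintro _ ⟨_, ⟨x, hx, rfl⟩, _, ⟨y, hy, rfl⟩, rfl⟩
    exact ⟨x * y, Λ.mul_mem hx hy, map_mul _ _ _⟩
  let K : Subgroup Q :=
    { carrier := {q | Ad h q ∈ A}
      one_mem' := by simpa using h1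
      mul_mem' := fun {x y} hx hy => by simpa using hmul _ hx _ hy
      inv_mem' := fun {x} hx => by
        obtain ⟨B, hB, e⟩ := realD_inv A h1 hmul hx ((Group.isUnit x).map (Ad h))
        have e' : Ad h x⁻¹ = B := by
          rw [← mul_one (Ad h x⁻¹), ← e, ← mul_assoc, ← map_mul, inv_mul_cancel, map_one, one_mul]
        change Ad h x⁻¹ ∈ A
        exact e' ▸ hB }
  have hK := (simple_qs h K.normalCore inferInstance
    (K.normalCore_isClosed (realD_closed h A))).resolve_left fun hc => hg (hc fun x => hSA (hall x))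
  exact fun q => K.normalCore_le (hK.ge (Subgroup.mem_top q))

/-- The trace form on the Lie algebra. -/
noncomputable def realD_form (W : Submodule ℝ (Matrix (Fin n) (Fin n) ℝ)) : W →ₗ[ℝ] W →ₗ[ℝ] ℝ :=
  LinearMap.mk₂ ℝ (fun X Y => Matrix.trace (X.1 * Y.1.transpose))
    (fun _ _ _ => by simp [add_mul]) (fun _ _ _ => by simp)
    (fun _ _ _ => by simp [mul_add]) (fun _ _ _ => by simp)

theorem realD_form_apply (W : Submodule ℝ (Matrix (Fin n) (Fin n) ℝ)) (X Y : W) :
    realD_form W X Y = Matrix.trace (X.1 * Y.1.transpose) := rfl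

theorem realD_form_symm (W : Submodule ℝ (Matrix (Fin n) (Fin n) ℝ)) (X Y : W) :
    realD_form W X Y = realD_form W Y X := by
  rw [realD_form_apply, realD_form_apply, ← Matrix.trace_transpose, Matrix.transpose_mul,
    Matrix.transpose_transpose]

theorem realD_adj (h : IsNoncompactSimple Q) (q : Q) : ∃ q' : Q, ∀ X Y,
    realD_form _ (Ad h q X) Y = realD_form _ X (Ad h q' Y) := by
  obtain ⟨q', h1, h2⟩ := h.transpose _ q.2
  refine ⟨⟨q', h1⟩, fun X Y => ?_⟩
  have h3 : (q'⁻¹).1 = ((q.1⁻¹).1).transpose := by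
    refine Units.inv_eq_of_mul_eq_one_right ?_
    rw [h2, ← Matrix.transpose_mul, Units.inv_mul, Matrix.transpose_one]
  rw [realD_form_apply, realD_form_apply, Ad_apply, Ad_apply]
  simp only [h2, h3, Matrix.transpose_mul, Matrix.transpose_transpose]
  rw [mul_assoc, mul_assoc, Matrix.trace_mul_comm]
  simp only [mul_assoc]

/-- Trace growth. -/
theorem exists_trace (h : IsNoncompactSimple Q) (Λ : Subgroup Q)
    (hΛ : ∀ q : Q, Ad h q ∈ Submodule.span ℝ (Ad h '' Λ)) :
    ∃ (a : Q) (k₀ : ℕ), ∀ k, k₀ ≤ k → ∃ w₁ ∈ Λ, ∃ w₂ ∈ Λ,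
      (Module.finrank ℝ (lieSub Q h.closed) : ℝ) <
        |LinearMap.trace ℝ _ (Ad h (w₁ * (a ^ k * w₂ * (a ^ k)⁻¹)))| := by
  obtain ⟨Z, hZ, sZ, nZ⟩ := exists_symm h
  let ad : Module.End ℝ (lieSub Q h.closed) :=
    { toFun X := ⟨Z * X.1 - X.1 * Z, lie_comm hZ X.2⟩
      map_add' X Y := Subtype.ext (by simp [mul_add, add_mul]; abel)
      map_smul' c X := Subtype.ext (by simp [smul_sub]) }
  have had : ∀ X, (ad X).1 = Z * X.1 - X.1 * Z := fun _ => rfl
  obtain ⟨b, μ, hb, hμ⟩ := realD_eigen (realD_form (lieSub Q h.closed)) (realD_form_symm _)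
    (fun X => by
      rw [realD_form_apply, Matrix.trace]
      refine Finset.sum_nonneg fun i _ => ?_
      rw [Matrix.diag_apply, Matrix.mul_apply]
      exact Finset.sum_nonneg fun j _ => mul_self_nonneg _)
    (fun X hX => Subtype.ext (Matrix.trace_mul_conjTranspose_self_eq_zero_iff.1 hX)) ad
    (fun X Y => by
      rw [realD_form_apply, realD_form_apply, had, had]
      simp only [Matrix.transpose_sub, Matrix.transpose_mul, sZ, sub_mul, mul_sub,
        Matrix.trace_sub, mul_assoc]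
      rw [Matrix.trace_mul_comm Z, mul_assoc])
  let a : Q := ⟨expU Z, by simpa using hZ 1⟩
  have ha : ∀ i, Ad h a (b i) = Real.exp (μ i) • b i := fun i =>
    Subtype.ext (realD_exp (congrArg Subtype.val (hμ i)))
  have ha' : ∀ i, Ad h a⁻¹ (b i) = Real.exp (-μ i) • b i := fun i => by
    have := congrArg (fun X => Real.exp (-μ i) • Ad h a⁻¹ X) (ha i)
    simp only [map_smul, smul_smul, ← Real.exp_add, neg_add_cancel, Real.exp_zero, one_smul,
      ← Module.End.mul_apply, ← map_mul, inv_mul_cancel, map_one, Module.End.one_apply] at this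
    exact this.symm
  have htr : ∀ q : Q, ∃ q' : Q, LinearMap.toMatrixAlgEquiv b (Ad h q') =
      (LinearMap.toMatrixAlgEquiv b (Ad h q)).transpose := fun q => by
    obtain ⟨q', hq⟩ := realD_adj h q
    refine ⟨q', Matrix.ext fun i j => ?_⟩
    rw [Matrix.transpose_apply, LinearMap.toMatrixAlgEquiv_apply,
      LinearMap.toMatrixAlgEquiv_apply, hb, hb, ← hq, realD_form_symm]
  have key : ∃ (q : Q) (i j : _), μ j < μ i ∧ LinearMap.toMatrixAlgEquiv b (Ad h q) i j ≠ 0 := by
    by_contra! h0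
    have h1 : ∀ q : Q, Ad h q * ad = ad * Ad h q := fun q => by
      apply (LinearMap.toMatrixAlgEquiv b).injective
      rw [map_mul, map_mul, realD_diag b hμ]
      ext i j
      rw [Matrix.mul_diagonal, Matrix.diagonal_mul]
      rcases lt_trichotomy (μ j) (μ i) with e | e | e
      · rw [h0 q i j e, zero_mul, mul_zero]
      · rw [e, mul_comm]
      · obtain ⟨q', hq⟩ := htr q
        have := h0 q' j i e
        rw [hq, Matrix.transpose_apply] at this
        rw [this, zero_mul, mul_zero]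
    let I : Submodule ℝ (Matrix (Fin n) (Fin n) ℝ) :=
      (LinearMap.ker ad).map (lieSub Q h.closed).subtype
    have hI := (h.simple I (by
      rintro _ ⟨X, -, rfl⟩
      exact (lie_iff h).1 X.2) (by
      rintro X hX _ ⟨Y, hY, rfl⟩
      refine comm_mem I fun t => ⟨Ad h ⟨_, (lie_iff h).2 hX t⟩ Y, ?_, rfl⟩
      change ad _ = 0
      rw [← Module.End.mul_apply, ← h1, Module.End.mul_apply, LinearMap.mem_ker.1 hY,
        map_zero])).resolve_left fun e => nZ (e.le ⟨⟨Z, hZ⟩, Subtype.ext (sub_self _), rfl⟩)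
    have hc : ∀ X ∈ lieAlg Q, Z * X = X * Z := fun X hX => by
      obtain ⟨Y, hY, rfl⟩ := hI.ge hX
      exact sub_eq_zero.1 (congrArg Subtype.val (LinearMap.mem_ker.1 hY))
    have hJ := (h.simple (Submodule.span ℝ {Z}) (fun X hX => (lie_iff h).1
      ((Submodule.span_singleton_le_iff_mem _ _).2 hZ hX)) (fun X hX Y hY => by
        obtain ⟨c, rfl⟩ := Submodule.mem_span_singleton.1 hY
        rw [mul_smul_comm, smul_mul_assoc, hc X hX, sub_self]
        exact zero_mem _)).resolve_left fun e => nZ (e.le (Submodule.mem_span_singleton_self Z))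
    obtain ⟨X, hX, Y, hY, hXY⟩ := h.nonabelian
    obtain ⟨c, rfl⟩ := Submodule.mem_span_singleton.1 (hJ.ge hX)
    exact hXY (by rw [mul_smul_comm, smul_mul_assoc, hc Y hY])
  obtain ⟨q, i, j, hij, hq⟩ := key
  obtain ⟨q', hq'⟩ := htr q
  set M : ℝ := (Module.finrank ℝ (lieSub Q h.closed) : ℝ) with hM
  let P : ℕ → Prop := fun k => ∀ w₁ ∈ Λ, ∀ w₂ ∈ Λ,
    |LinearMap.trace ℝ _ (Ad h w₁ * (Ad h a ^ k * Ad h w₂ * Ad h a⁻¹ ^ k))| ≤ M
  obtain ⟨C, hC⟩ := realD_bound P
    (fun k B => LinearMap.trace ℝ _ (B * (Ad h a ^ k * Ad h q * Ad h a⁻¹ ^ k)))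
    (fun k B B' => by rw [add_mul, map_add])
    (fun k c B => by rw [smul_mul_assoc, map_smul, smul_eq_mul])
    (by
      rintro _ ⟨w₁, hw₁, rfl⟩
      exact realD_bound P
        (fun k B => LinearMap.trace ℝ _ (Ad h w₁ * (Ad h a ^ k * B * Ad h a⁻¹ ^ k)))
        (fun k B B' => by rw [mul_add, add_mul, mul_add, map_add])
        (fun k c B => by rw [mul_smul_comm, smul_mul_assoc, mul_smul_comm, map_smul, smul_eq_mul])
        (by
          rintro _ ⟨w₂, hw₂, rfl⟩
          exact ⟨M, fun k hk => hk w₁ hw₁ w₂ hw₂⟩) (hΛ q)) (hΛ q')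
  have hr : 1 < Real.exp (μ i) * Real.exp (-μ j) := by
    rw [← Real.exp_add]
    exact Real.one_lt_exp_iff.2 (by linarith)
  have hlim := (tendsto_pow_atTop_atTop_of_one_lt hr).const_mul_atTop (sq_pos_of_ne_zero hq)
  obtain ⟨k₀, hk₀⟩ := Filter.eventually_atTop.1 (hlim.eventually_gt_atTop C)
  refine ⟨a, k₀, fun k hk => ?_⟩
  by_contra! hcon
  have h1 := hC k fun w₁ hw₁ w₂ hw₂ => by
    have := hcon w₁ hw₁ w₂ hw₂
    rwa [← inv_pow, map_mul (Ad h), map_mul (Ad h), map_mul (Ad h), map_pow (Ad h),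
      map_pow (Ad h)] at this
  have h2 := realD_trace b ha ha' (fun _ => (Real.exp_pos _).le) (fun _ => (Real.exp_pos _).le)
    hq' i j k
  have h3 := hk₀ k hk
  have h4 := le_abs_self (LinearMap.trace ℝ _ (Ad h q' * (Ad h a ^ k * Ad h q * Ad h a⁻¹ ^ k)))
  linarith

end Pool.Agent.Lib.MP_60cbcc_al.H3Z
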