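import Pool.Agent.Lib.MP_60cbcc_al.H3ZRealC
import Pool.Agent.Lib.MP_60cbcc_al.H3ZRealD
import Pool.Agent.Lib.MP_60cbcc_al.H3ZDefs

namespace Pool.Agent.Lib.MP_60cbcc_al.H3Z

theorem rigid_of_simple {n : ℕ} {Q : Subgroup (GL (Fin n) ℝ)} (h : H8W.IsNoncompactSimple Q) :
    Rigid Q := by
  refine ⟨simple_cg h, simple_qs h, simple_perf h, simple_nfi h, simple_nd h, fun g hg => ?_⟩
  obtain ⟨d, hd⟩ := exists_span h g hg
  refine ⟨d, fun U hU => ?_⟩
  obtain ⟨s, h1, h2, h3⟩ := hd U hU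
  obtain ⟨a, k₀, hk⟩ := exists_trace h _ h3
  refine ⟨s, h1, h2, fun N => ⟨fun i => a ^ (i.1 * k₀), ?_⟩⟩
  have key : ∀ i j : Fin N, i < j → Mau {f | ∃ v ∈ s,
      f = a ^ (i.1 * k₀) * v * g * (a ^ (i.1 * k₀) * v)⁻¹ ∨
      f = a ^ (j.1 * k₀) * v * g * (a ^ (j.1 * k₀) * v)⁻¹} := fun i j hij => by
    obtain ⟨c, hc⟩ := Nat.exists_eq_add_of_lt (Fin.lt_def.1 hij)
    obtain ⟨w₁, hw₁, w₂, hw₂, hw⟩ := hk ((c + 1) * k₀) (Nat.le_mul_of_pos_left _ c.succ_pos)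
    set k := (c + 1) * k₀ with hk'
    have hM : Mau {f | ∃ v ∈ s, f = v * g * v⁻¹ ∨ f = a ^ k * (v * g * v⁻¹) * (a ^ k)⁻¹} := by
      refine Mau.of_closure ?_ (mau_of_trace h _ hw)
      refine mul_mem (Subgroup.closure_mono ?_ hw₁) ?_
      · rintro f ⟨v, hv, e⟩
        exact ⟨v, hv, .inl e⟩
      clear hw
      induction hw₂ using Subgroup.closure_induction with
      | mem x hx =>
        obtain ⟨v, hv, rfl⟩ := hx
        exact Subgroup.subset_closure ⟨v, hv, .inr rfl⟩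
      | one => simp
      | mul x y _ _ p q => convert mul_mem p q using 1; group
      | inv x _ p => convert inv_mem p using 1; group
    refine hM.of_conj (a ^ (i.1 * k₀)) ?_
    rintro _ ⟨v, hv, rfl | rfl⟩
    · exact ⟨v, hv, .inl (by group)⟩
    · refine ⟨v, hv, .inr ?_⟩
      have : j.1 * k₀ = i.1 * k₀ + k := by rw [hc, hk']; ring
      rw [this, pow_add]; group
  intro i j hij
  rcases lt_or_gt_of_ne hij with h' | h'
  · exact key i j h'
  · refine (key j i h').of_conj 1 ?_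
    rintro f ⟨v, hv, e⟩
    exact ⟨v, hv, by simpa using e.symm⟩

theorem RealType.rigid {L : Type} [Group L] [TopologicalSpace L] (h : RealType L) : Rigid L := by
  obtain ⟨n, Q, hQ, ⟨e⟩⟩ := h
  exact (rigid_of_simple hQ).congr e

end Pool.Agent.Lib.MP_60cbcc_al.H3Z
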