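import Pool.Agent.Lib.MP_60cbcc_al.H3ZKazA
import Pool.Agent.Lib.MP_60cbcc_al.H3ZReal
import Pool.Agent.Lib.MP_60cbcc_al.H3ZGrp

/-!
Real factors, factors of higher rank, and transfer to products.
-/

namespace Pool.Agent.Lib.MP_60cbcc_al.H3Z

open MeasureTheory

section aux

open Filter Topology
open scoped Pointwise

variable {G : Type} [Group G] [TopologicalSpace G] [IsTopologicalGroup G]

theorem high_le {L J : Subgroup G} {a : G} (ha : a ∈ L)
    (hL : (Subgroup.closure (con a ∪ con a⁻¹)).topologicalClosure = L) (hJ : IsClosed (J : Set G))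
    (h : ∀ b ∈ L, ∀ u ∈ L, u ∈ con b → u ∈ J) : L ≤ J := by
  have h1 : con a ∪ con a⁻¹ ⊆ L := fun u hu =>
    hL ▸ Subgroup.le_topologicalClosure _ (Subgroup.subset_closure hu)
  refine hL.ge.trans (Subgroup.topologicalClosure_minimal _ ((Subgroup.closure_le _).2 ?_) hJ)
  rintro u (hu | hu)
  · exact h a ha u (h1 (Or.inl hu)) hu
  · exact h a⁻¹ (inv_mem ha) u (h1 (Or.inr hu)) hu

omit [IsTopologicalGroup G] in
theorem high_closed_map {L : Subgroup G} (hL : IsClosed (L : Set G)) {N : Subgroup L}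
    (hN : IsClosed (N : Set L)) : IsClosed (N.map L.subtype : Set G) :=
  hL.isClosedEmbedding_subtypeVal.isClosedMap _ hN

omit [TopologicalSpace G] [IsTopologicalGroup G] in
theorem high_top_of_le {L : Subgroup G} {N : Subgroup L} (h : L ≤ N.map L.subtype) : N = ⊤ :=
  top_unique fun x _ => by
    obtain ⟨y, hy, e⟩ := h x.2
    rwa [← (Subtype.ext e : y = x)]

theorem high_open {L : Subgroup G} {a : G} (ha : a ∈ L)
    (hL : (Subgroup.closure (con a ∪ con a⁻¹)).topologicalClosure = L) (O : Subgroup L)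
    [hO : O.Normal] (ho : IsOpen (O : Set L)) : O = ⊤ := by
  have hc : IsClosed (L : Set G) := hL ▸ Subgroup.isClosed_topologicalClosure _
  refine high_top_of_le (high_le ha hL (high_closed_map hc (O.isClosed_of_isOpen ho)) ?_)
  intro b hb u hu hcon
  have h1 : Tendsto (fun n : ℕ => (⟨b, hb⟩ : L) ^ n * ⟨u, hu⟩ * ((⟨b, hb⟩ : L) ^ n)⁻¹) atTop
      (𝓝 1) := tendsto_subtype_rng.2 hcon
  obtain ⟨n, hn⟩ := (h1.eventually (ho.mem_nhds O.one_mem)).exists
  refine ⟨⟨u, hu⟩, ?_, rfl⟩
  have h2 := hO.conj_mem' _ hn ((⟨b, hb⟩ : L) ^ n)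
  rwa [show ((⟨b, hb⟩ : L) ^ n)⁻¹ * ((⟨b, hb⟩ : L) ^ n * ⟨u, hu⟩ * ((⟨b, hb⟩ : L) ^ n)⁻¹) *
    (⟨b, hb⟩ : L) ^ n = ⟨u, hu⟩ by group] at h2

theorem high_perf {L : Subgroup G} {a : G} (ha : a ∈ L)
    (hL : (Subgroup.closure (con a ∪ con a⁻¹)).topologicalClosure = L) :
    Dense (commutator L : Set L) := by
  have hc : IsClosed (L : Set G) := hL ▸ Subgroup.isClosed_topologicalClosure _
  have hJ := high_closed_map hc (commutator L).isClosed_topologicalClosure
  have h1 : (commutator L).topologicalClosure = ⊤ := by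
    refine high_top_of_le (high_le ha hL hJ ?_)
    intro b hb u hu hcon
    rw [← inv_mem_iff]
    have h2 : Tendsto (fun n : ℕ => u⁻¹ * (b ^ n * u * (b ^ n)⁻¹)) atTop (𝓝 (u⁻¹ * 1)) :=
      Tendsto.const_mul _ hcon
    rw [mul_one] at h2
    refine hJ.mem_of_tendsto h2 (Eventually.of_forall fun n => ?_)
    refine ⟨_, Subgroup.le_topologicalClosure _ (Subgroup.commutator_mem_commutator
      (Subgroup.mem_top (⟨u, hu⟩ : L)⁻¹) (Subgroup.mem_top ((⟨b, hb⟩ : L) ^ n))), ?_⟩
    simp [commutatorElement_def, mul_assoc]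
  intro x
  exact h1.ge (Subgroup.mem_top x)

theorem high_cpt [LocallyCompactSpace G] (L : Subgroup G) [CompactSpace (G ⧸ L)] :
    ∃ C : Set G, IsCompact C ∧ C * (L : Set G) = Set.univ := by
  choose K hK hK' using fun g : G => exists_compact_mem_nhds g
  obtain ⟨s, hs⟩ := isCompact_univ.elim_finite_subcover
    (fun g : G => (QuotientGroup.mk : G → G ⧸ L) '' interior (K g))
    (fun g => QuotientGroup.isOpenMap_coe _ isOpen_interior) fun y _ => by
      obtain ⟨g, rfl⟩ := QuotientGroup.mk_surjective y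
      exact Set.mem_iUnion.2 ⟨g, g, mem_interior_iff_mem_nhds.2 (hK' g), rfl⟩
  refine ⟨⋃ g ∈ s, K g, s.isCompact_biUnion fun g _ => hK g, Set.eq_univ_of_forall fun x => ?_⟩
  obtain ⟨g, hg, y, hy, e⟩ := Set.mem_iUnion₂.1 (hs (Set.mem_univ (x : G ⧸ L)))
  exact ⟨y, Set.mem_iUnion₂.2 ⟨g, hg, interior_subset hy⟩, y⁻¹ * x, QuotientGroup.eq.1 e,
    by simp⟩

omit [IsTopologicalGroup G] in
theorem high_con_map {M : Type} [Group M] [TopologicalSpace M] (i : G →* M) (hi : Continuous i)
    {a u : G} (hu : u ∈ con a) : i u ∈ con (i a) := by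
  have h1 := (hi.tendsto 1).comp hu
  rw [map_one] at h1
  refine h1.congr fun n => ?_
  simp

/-- A closed subgroup containing the commutators with an element outside the centraliser. -/
theorem high_gen [T2Space G] {L J : Subgroup G} (h : Std L) {t : G}
    (ht : t ∉ Subgroup.centralizer (L : Set G)) (hJ : IsClosed (J : Set G))
    (hc : ∀ n ∈ L, n * t * n⁻¹ * t⁻¹ ∈ J) : L ≤ J := by
  let c : L → L := fun n => ⟨n * t * (n : G)⁻¹ * t⁻¹, by
    have := mul_mem n.2 (h.norm.conj_mem _ (inv_mem n.2) t)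
    simpa only [mul_assoc] using this⟩
  have hmul : ∀ m n : L, c (m * n) = m * c n * m⁻¹ * c m := fun m n => Subtype.ext (by
    change (m : G) * n * t * ((m : G) * n)⁻¹ * t⁻¹ =
      m * (n * t * (n : G)⁻¹ * t⁻¹) * (m : G)⁻¹ * (m * t * (m : G)⁻¹ * t⁻¹)
    group)
  have hN : (Subgroup.closure (Set.range c)).Normal := ⟨fun x hx m => by
    induction hx using Subgroup.closure_induction with
    | mem x hx =>
      obtain ⟨n, rfl⟩ := hx
      rw [← mul_inv_eq_of_eq_mul (hmul m n)]
      exact mul_mem (Subgroup.subset_closure ⟨_, rfl⟩) (inv_mem (Subgroup.subset_closure ⟨_, rfl⟩))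
    | one => simp
    | mul x y _ _ hx hy =>
      rw [show m * (x * y) * m⁻¹ = m * x * m⁻¹ * (m * y * m⁻¹) by group]
      exact mul_mem hx hy
    | inv x _ hx =>
      rw [show m * x⁻¹ * m⁻¹ = (m * x * m⁻¹)⁻¹ by group]
      exact inv_mem hx⟩
  rcases h.weak.qs _ (Subgroup.is_normal_topologicalClosure (Subgroup.closure (Set.range c)))
    (Subgroup.isClosed_topologicalClosure _) with h1 | h1
  · exfalso
    have h2 : ∀ n, c n ∈ Subgroup.center L := fun n =>
      h1 (Subgroup.le_topologicalClosure _ (Subgroup.subset_closure ⟨n, rfl⟩))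
    let f : L →* Subgroup.center L := MonoidHom.mk' (fun n => ⟨c n, h2 n⟩) fun m n => by
      apply Subtype.ext
      change c (m * n) = c m * c n
      rw [hmul, Subgroup.mem_center_iff.1 (h2 n) m, Subgroup.mem_center_iff.1 (h2 n) (c m)]
      group
    have h0 : commutator L ≤ f.ker := by
      rw [commutator_def, Subgroup.commutator_le]
      intro a _ b _
      rw [MonoidHom.mem_ker, map_commutatorElement, commutatorElement_eq_one_iff_mul_comm]
      exact Subtype.ext (Subgroup.mem_center_iff.1 (f b).2 (f a))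
    have h3 : ∀ n : L, (n : G) * t * (n : G)⁻¹ * t⁻¹ = 1 :=
      h.weak.perf.induction
        (fun n hn => congrArg (fun x : Subgroup.center L => ((x : L) : G)) (show f n = 1 from h0 hn))
        (isClosed_eq (by fun_prop) continuous_const)
    refine ht fun n hn => ?_
    calc n * t = n * t * n⁻¹ * t⁻¹ * (t * n) := by group
      _ = t * n := by rw [h3 ⟨n, hn⟩, one_mul]
  · have h2 : (Subgroup.closure (Set.range c)).topologicalClosure ≤ J.comap L.subtype := by
      refine Subgroup.topologicalClosure_minimal _ ((Subgroup.closure_le _).2 ?_)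
        (hJ.preimage continuous_subtype_val)
      rintro _ ⟨n, rfl⟩
      exact hc n n.2
    intro n hn
    exact h2 (h1.ge (Subgroup.mem_top (⟨n, hn⟩ : L)))

end aux

variable {G : Type} [Group G] [TopologicalSpace G] [IsTopologicalGroup G] [LocallyCompactSpace G]
  [SecondCountableTopology G] [T2Space G] [MeasurableSpace G] [BorelSpace G]

theorem IsReal.low (h : IsReal G) : ∃ L K : Subgroup G, Low L K := by
  obtain ⟨L, hN, hF, hO, hC, hR⟩ := h
  refine ⟨L, ⊥, ⟨hN, L.isClosed_of_isOpen hO, hC, hR.rigid.weak⟩, ?_, ?_, hR.rigid⟩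
  · rw [Subgroup.coe_bot]
    exact isCompact_singleton
  · rwa [sup_bot_eq]

theorem IsHigh.high (h : IsHigh G) : ∃ L : Subgroup G, High L := by
  obtain ⟨hT, L, B, A, hN, hne, hcpt, hd, hs, hBL, ⟨a, ha⟩, hg, hA⟩ := h
  have haL : a ∈ L := hBL (hA a ha).1
  have hL := (hA a ha).2.1
  have hc : IsClosed (L : Set G) := hL ▸ Subgroup.isClosed_topologicalClosure _
  refine ⟨L, ⟨hN, hc, ?_, ?_, high_perf haL hL, ?_, ?_⟩, hT.kaz, high_cpt L, B, A, hs,
    A.countable_toSet, fun b hb => ⟨(hA b hb).1, (hA b hb).2.1.ge, (hA b hb).2.2⟩,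
    fun J hJ hB hZ => hg.trans
      (Subgroup.topologicalClosure_minimal _ (sup_le hB (iSup₂_le hZ)) hJ)⟩
  · refine (hd _ (Set.isClosed_centralizer _) fun g hg n hn => ?_).resolve_right fun h1 => hne ?_
    · rwa [hn g hg, mul_inv_cancel_right]
    · refine le_bot_iff.1 (high_le haL hL ?_ fun b hb u hu hcon => ?_)
      · rw [Subgroup.coe_bot]
        exact isClosed_singleton
      · refine tendsto_nhds_unique tendsto_const_nhds (Filter.Tendsto.congr (fun n => ?_) hcon)
        rw [h1 hu _ (pow_mem hb n), mul_inv_cancel_right]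
  · intro N hNn hNc
    refine (hd _ (high_closed_map hc hNc) ?_).imp (fun h1 x hx => ?_) high_top_of_le
    · rintro g hg _ ⟨n, hn, rfl⟩
      exact ⟨_, hNn.conj_mem n hn ⟨g, hg⟩, rfl⟩
    · exact Subgroup.mem_center_iff.2 fun y =>
        Subtype.ext (Subgroup.mem_center_iff.1 (h1 ⟨x, hx, rfl⟩) y)
  · intro N hNc hNf
    exact top_unique ((high_open haL hL N.normalCore
      (N.normalCore.isOpen_of_isClosed_of_finiteIndex (N.normalCore_isClosed hNc))).ge.trans
        N.normalCore_le)
  · intro hD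
    have h1 := high_open haL hL ⊥ (isOpen_discrete _)
    refine hne (le_bot_iff.1 fun x hx => ?_)
    exact congrArg Subtype.val (show (⟨x, hx⟩ : L) = 1 from h1.ge (Subgroup.mem_top _))

variable {R M : Type} [Group R] [TopologicalSpace R] [IsTopologicalGroup R] [LocallyCompactSpace R]
  [SecondCountableTopology R] [T2Space R] [MeasurableSpace R] [BorelSpace R]
  [Group M] [TopologicalSpace M] [IsTopologicalGroup M] [LocallyCompactSpace M]
  [SecondCountableTopology M] [T2Space M] [MeasurableSpace M] [BorelSpace M]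

/-- Cells in a direct factor. -/
theorem Cell.map {a : G} {L B : Subgroup G} (h : Cell a L B) (e : G × R ≃ₜ* M) (i : G →* M)
    (hi : ∀ g, i g = e (g, 1)) {B' : Subgroup M} (hB : B.map i ≤ B') :
    Cell (i a) (L.map i) B' := by
  have hc : Continuous i := by
    rw [show (i : G → M) = fun g => e (g, 1) from funext hi]
    fun_prop
  refine ⟨hB ⟨a, h.mem, rfl⟩, Subgroup.map_le_iff_le_comap.2 (h.mau.trans ?_), fun m hm => ?_⟩
  · refine Subgroup.topologicalClosure_minimal _ ((Subgroup.closure_le _).2 ?_)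
      ((Subgroup.isClosed_topologicalClosure _).preimage hc)
    intro u hu
    refine Subgroup.le_topologicalClosure _ (Subgroup.subset_closure ?_)
    rcases hu with hu | hu
    · exact Or.inl (high_con_map i hc hu)
    · exact Or.inr (map_inv i a ▸ high_con_map i hc hu)
  · have h1 := (Measure.quasiMeasurePreserving_fst (μ := (Measure.haar : Measure G))
      (ν := (Measure.haar : Measure R))).ae (h.cell _ inferInstance)
    have h2 := (Measure.absolutelyContinuous_isHaarMeasure (m.map e.symm)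
      ((Measure.haar : Measure G).prod (Measure.haar : Measure R))).ae_le h1
    filter_upwards [ae_of_ae_map e.symm.continuous.measurable.aemeasurable h2] with g hg
    obtain ⟨_, ⟨u, hu, z, hz, rfl⟩, b, hb, hg⟩ := hg
    refine ⟨_, ⟨i u, high_con_map i hc hu, e (z, (e.symm g).2), ?_, rfl⟩, i b,
      hB ⟨b, hb, rfl⟩, ?_⟩
    · refine Subgroup.mem_centralizer_singleton_iff.2 ?_
      rw [hi, ← map_mul, ← map_mul]
      congr 1
      exact Prod.ext (Subgroup.mem_centralizer_singleton_iff.1 hz) (by simp)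
    · change i u * e (z, (e.symm g).2) * i b = g
      rw [hi, hi, ← map_mul, ← map_mul, ← e.apply_symm_apply g]
      congr 1
      exact Prod.ext hg (by simp)

/-- Elements whose component in a direct factor does not centralise `L`. -/
theorem Std.gen {L : Subgroup G} (h : Std L) (e : G × R ≃ₜ* M) (i : G →* M)
    (hi : ∀ g, i g = e (g, 1)) {σ : M}
    (hσ : (e.symm σ).1 ∉ Subgroup.centralizer (L : Set G)) : Gen σ (L.map i) := by
  have hc : Continuous i := by
    rw [show (i : G → M) = fun g => e (g, 1) from funext hi]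
    fun_prop
  intro k J hJ hn
  obtain ⟨z, hz⟩ := e.surjective (k⁻¹ * σ * k)
  have h1 : k⁻¹ * σ * k ∈ J := by simpa using hn 1 (one_mem _)
  refine Subgroup.map_le_iff_le_comap.2 (high_gen h (t := z.1) (fun ht => hσ ?_)
    (hJ.preimage hc) fun n hnL => ?_)
  · have h2 : e.symm σ = e.symm k * z * (e.symm k)⁻¹ := by
      rw [← e.symm_apply_apply z, hz, ← map_inv, ← map_mul, ← map_mul]
      congr 1
      group
    rw [h2, Prod.fst_mul, Prod.fst_mul, Prod.fst_inv, Subgroup.mem_center_iff.1 (h.cen ht),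
      mul_inv_cancel_right]
    exact ht
  · have h2 := mul_mem (hn _ ⟨n, hnL, rfl⟩) (inv_mem h1)
    rw [← hz, hi, ← map_inv, ← map_inv, ← map_mul, ← map_mul, ← map_mul] at h2
    rw [Subgroup.mem_comap, hi]
    convert h2 using 2
    exact Prod.ext rfl (by simp)

end Pool.Agent.Lib.MP_60cbcc_al.H3Z
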