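import Mathlib

/-!
Linear algebra over a complete normed field: traces and growth filtrations.
-/

namespace Pool.Agent.Lib.MP_60cbcc_al.H3Z

open Filter Topology Polynomial

set_option linter.unusedSectionVars false

variable {k W : Type} [NontriviallyNormedField k] [NormedAddCommGroup W] [NormedSpace k W]

/-- The trace. -/
noncomputable def tr : (W →L[k] W) →ₗ[k] k :=
  (LinearMap.trace k W).comp (ContinuousLinearMap.coeLM k)

theorem tr_mul_comm (a b : W →L[k] W) : tr (a * b) = tr (b * a) :=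
  LinearMap.trace_mul_comm k (a : W →ₗ[k] W) (b : W →ₗ[k] W)

/-- The vectors whose images under the powers of `b` grow at most like `r ^ n`, up to
subexponential factors. -/
def Fle (b : W →L[k] W) (r : ℝ) : Submodule k W where
  carrier := {v | ∀ t : ℝ, 1 < t → ∃ C : ℝ, ∀ n : ℕ, ‖(b ^ n) v‖ ≤ C * (t * r) ^ n}
  zero_mem' := fun _ _ => ⟨0, by simp⟩
  add_mem' := fun {v w} hv hw t ht => by
    obtain ⟨C, hC⟩ := hv t ht
    obtain ⟨D, hD⟩ := hw t ht
    exact ⟨C + D, fun n => by
      rw [map_add, add_mul]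
      exact (norm_add_le _ _).trans (add_le_add (hC n) (hD n))⟩
  smul_mem' := fun c v hv t ht => by
    obtain ⟨C, hC⟩ := hv t ht
    exact ⟨‖c‖ * C, fun n => by
      rw [map_smul, norm_smul, mul_assoc]
      exact mul_le_mul_of_nonneg_left (hC n) (norm_nonneg _)⟩

theorem slack {x : ℝ} (h : x < 1) : ∃ t : ℝ, 1 < t ∧ t * t * x < 1 := by
  have : ∀ᶠ t : ℝ in 𝓝 1, t * t * x < 1 :=
    (Continuous.tendsto' (f := fun t : ℝ => t * t * x) (by fun_prop) 1 x (by simp)).eventually
      (gt_mem_nhds h)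
  exact (eventually_mem_nhdsWithin.and (this.filter_mono
    (nhdsWithin_le_nhds (s := Set.Ioi 1)))).exists

theorem Fle_mono {b : W →L[k] W} {r s : ℝ} (hr : 0 ≤ r) (h : r ≤ s) : Fle b r ≤ Fle b s := by
  intro v hv t ht
  obtain ⟨C, hC⟩ := hv t ht
  have : 0 ≤ C := by simpa using (norm_nonneg _).trans (hC 0)
  have t0 : 0 ≤ t := zero_le_one.trans ht.le
  exact ⟨C, fun n => (hC n).trans (by gcongr)⟩

theorem Fle_comm {b c : W →L[k] W} (h : Commute b c) {r : ℝ} {v : W} (hv : v ∈ Fle b r) :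
    c v ∈ Fle b r := fun t ht => by
  obtain ⟨C, hC⟩ := hv t ht
  refine ⟨‖c‖ * C, fun n => ?_⟩
  rw [← mul_apply_eq_comp, (h.pow_left n).eq, mul_apply_eq_comp, mul_assoc]
  exact (c.le_opNorm _).trans (mul_le_mul_of_nonneg_left (hC n) (norm_nonneg _))

theorem Fle_lim {b : W →L[k] W} {r : ℝ} (h0 : 0 ≤ r) (h1 : r < 1) {v : W} (hv : v ∈ Fle b r) :
    Tendsto (fun n => (b ^ n) v) atTop (𝓝 0) := by
  obtain ⟨t, t1, ht⟩ := slack h1
  obtain ⟨C, hC⟩ := hv (t * t) (by nlinarith)
  refine squeeze_zero_norm hC ?_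
  simpa using (tendsto_pow_atTop_nhds_zero_of_lt_one (mul_nonneg (mul_self_nonneg t) h0)
    ht).const_mul C

variable [CompleteSpace k] [FiniteDimensional k W]

theorem tr_cont : Continuous (tr : (W →L[k] W) → k) := LinearMap.continuous_of_finiteDimensional _

theorem tr_nil {a : W →L[k] W} (h : IsNilpotent a) : tr a = 0 :=
  (LinearMap.isNilpotent_trace_of_isNilpotent (h.map ContinuousLinearMap.toLinearMapRingHom)).eq_zero

theorem nil_of_tr [CharZero k] {a : W →L[k] W} (h : ∀ m, tr (a ^ (m + 1)) = 0) :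
    IsNilpotent a := by
  have hi : IsIntegral k a := Algebra.IsIntegral.isIntegral a
  obtain ⟨q, h1, h2⟩ := exists_eq_pow_rootMultiplicity_mul_and_not_dvd _ (minpoly.ne_zero hi) 0
  generalize rootMultiplicity 0 (minpoly k a) = j at h1
  rw [C_0, sub_zero] at h1 h2
  obtain ⟨u, w, h3⟩ := ((irreducible_X.coprime_iff_not_dvd.2 h2).pow_left (m := j + 1))
  have h4 : a ^ j * aeval a q = 0 := by
    have := minpoly.aeval k a
    rwa [h1, map_mul, map_pow, aeval_X] at this
  have h5 := congrArg (aeval a) h3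
  rw [map_add, map_one] at h5
  have h6 : aeval a (X ^ j * (w * q)) = 0 := by
    rw [mul_left_comm, map_mul, map_mul, map_pow, aeval_X, h4, mul_zero]
  have h7 : IsIdempotentElem (aeval a (u * X ^ (j + 1))) := by
    rw [IsIdempotentElem, ← sub_eq_zero, ← neg_eq_zero, neg_sub, ← mul_one_sub, ← h5,
      add_sub_cancel_left, ← map_mul, show u * X ^ (j + 1) * (w * q) = u * X * (X ^ j * (w * q)) by
        ring, map_mul, h6, mul_zero]
  have h8 : tr (aeval a (u * X ^ (j + 1))) = 0 := by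
    rw [map_mul, map_pow, aeval_X, aeval_eq_sum_range, Finset.sum_mul, map_sum]
    exact Finset.sum_eq_zero fun i _ => by rw [smul_mul_assoc, ← pow_add, map_smul, ← add_assoc, h,
      smul_zero]
  have h9 : aeval a (u * X ^ (j + 1)) = 0 := ContinuousLinearMap.coe_injective
    (LinearMap.IsIdempotentElem.eq_zero_of_trace_eq_zero
      (h7.map ContinuousLinearMap.toLinearMapRingHom) h8)
  rw [h9, zero_add] at h5
  rw [map_mul, h5, map_pow, aeval_X, mul_one] at h6
  exact ⟨j, h6⟩

theorem Fle_unif (b : W →L[k] W) {r t : ℝ} (hr : 0 ≤ r) (ht : 1 < t) :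
    ∃ C, ∀ v ∈ Fle b r, ∀ n : ℕ, ‖(b ^ n) v‖ ≤ C * (t * r) ^ n * ‖v‖ := by
  let e := Module.finBasis k (Fle b r)
  obtain ⟨C, hC, h⟩ := e.exists_opNorm_le (F := W)
  choose D hD using fun i => (e i).2 t ht
  have D0 : ∀ i, 0 ≤ D i := fun i => by simpa using (norm_nonneg _).trans (hD i 0)
  have r0 := mul_nonneg (zero_le_one.trans ht.le) hr
  refine ⟨C * ∑ i, D i, fun v hv n => ?_⟩
  have := h (u := (b ^ n).comp (Fle b r).subtypeL) (M := (∑ i, D i) * (t * r) ^ n)
    (mul_nonneg (Finset.sum_nonneg fun i _ => D0 i) (pow_nonneg r0 n)) fun i => (hD i n).trans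
      (mul_le_mul_of_nonneg_right (Finset.single_le_sum (fun i _ => D0 i) (Finset.mem_univ i))
        (pow_nonneg r0 n))
  rw [mul_assoc C]
  exact ((b ^ n).comp (Fle b r).subtypeL).le_of_opNorm_le this ⟨v, hv⟩

theorem Fle_disj {b b' : W →L[k] W} (h : b * b' = 1) (h' : b' * b = 1) {r s : ℝ} (hr : 0 ≤ r)
    (hs : 0 ≤ s) (h1 : r * s < 1) {v : W} (hv : v ∈ Fle b r) (hv' : v ∈ Fle b' s) : v = 0 := by
  obtain ⟨t, t1, ht⟩ := slack h1
  have t0 : 0 ≤ t := zero_le_one.trans t1.le
  obtain ⟨C, hC⟩ := Fle_unif b' hs t1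
  obtain ⟨D, hD⟩ := hv t t1
  have c : Commute b' b := h'.trans h.symm
  have : ∀ n : ℕ, ‖v‖ ≤ |C| * D * (t * t * (r * s)) ^ n := fun n => by
    have h2 := hC _ (Fle_comm (c.pow_right n) hv') n
    rw [← mul_apply_eq_comp, ← c.mul_pow, h', one_pow] at h2
    refine h2.trans ?_
    calc _ ≤ |C| * (t * s) ^ n * (D * (t * r) ^ n) := by gcongr; exacts [le_abs_self C, hD n]
      _ = _ := by ring
  refine norm_le_zero_iff.1 (ge_of_tendsto' (x := atTop) ?_ this)
  simpa using (tendsto_pow_atTop_nhds_zero_of_lt_one (by positivity) ht).const_mul (|C| * D)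

section closure

open scoped TensorProduct

variable {K : Type} [NormedField K] [NormedAlgebra k K]
  [Algebra.IsAlgebraic k K]

theorem la_bound (ψ : K →ₗ[k] W) (l : K) : ∃ C, ∀ i : ℕ, ‖ψ (l ^ i)‖ ≤ C * ‖l‖ ^ i := by
  let S := (Algebra.adjoin k {l}).toSubmodule
  have : FiniteDimensional k S := Module.Finite.iff_fg.2
    (Algebra.IsAlgebraic.isAlgebraic (R := k) l).isIntegral.fg_adjoin_singleton
  refine ⟨‖(ψ.domRestrict S).toContinuousLinearMap‖, fun i => ?_⟩
  rw [← norm_pow]
  exact (ψ.domRestrict S).toContinuousLinearMap.le_opNorm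
    ⟨l ^ i, pow_mem (Algebra.self_mem_adjoin_singleton k l) i⟩

/-- Descent along a linear form. -/
noncomputable def la_P (π : K →ₗ[k] k) : K ⊗[k] W →ₗ[k] W :=
  (TensorProduct.lid k W).toLinearMap ∘ₗ π.rTensor W

theorem la_P_comm (π : K →ₗ[k] k) (b : W →L[k] W) (w : K ⊗[k] W) :
    b (la_P π w) = la_P π ((b : W →ₗ[k] W).baseChange K w) := by
  induction w using TensorProduct.induction_on with
  | zero => simp
  | tmul c v => simp [la_P]
  | add x y h1 h2 => simp only [map_add, h1, h2]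

theorem la_base {b b' : W →L[k] W} (h : b * b' = 1) :
    (b : W →ₗ[k] W).baseChange K * (b' : W →ₗ[k] W).baseChange K = 1 := by
  rw [← LinearMap.baseChange_mul, ← ContinuousLinearMap.toLinearMap_mul, h]
  exact LinearMap.baseChange_one k W

variable {V : Type} [AddCommGroup V] [Module K V]

theorem la_gen [Module k V] [IsScalarTower k K V] (P : V →ₗ[k] W) {b : W →L[k] W}
    {B : Module.End K V} (hP : ∀ w, b (P w) = P (B w)) {l : K} (hl : l ≠ 0) {m : ℕ} {w : V}
    (h : ((B - l • 1) ^ m) w = 0) : P w ∈ Fle b ‖l‖ := by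
  have hn : ∀ (n : ℕ) w, (b ^ n) (P w) = P ((B ^ n) w) := fun n => by
    induction n with
    | zero => simp
    | succ n ih => simp [pow_succ, hP, ih]
  set N := B - l • 1 with hN
  have l0 := norm_pos_iff.2 hl
  choose C hC using fun j : ℕ => la_bound (P ∘ₗ
    (LinearMap.toSpanSingleton K _ ((N ^ j) w)).restrictScalars k) l
  have C0 : ∀ j, 0 ≤ C j := fun j => by simpa using (norm_nonneg _).trans (hC j 0)
  intro t ht
  have t0 := sub_pos.2 ht
  refine ⟨∑ j ∈ Finset.range m, C j / ((t - 1) * ‖l‖) ^ j, fun n => ?_⟩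
  have e : B = N + l • 1 := by simp [hN]
  rw [hn, e, ((Commute.one_right N).smul_right l).add_pow, LinearMap.sum_apply, map_sum,
    Finset.sum_mul]
  refine (norm_sum_le _ _).trans ?_
  have a : ∀ j ∈ Finset.range (n + 1), ‖P ((N ^ j * (l • 1) ^ (n - j) * (n.choose j)) w)‖ ≤
      if j < m then C j / ((t - 1) * ‖l‖) ^ j * (t * ‖l‖) ^ n else 0 := fun j hj => by
    have e1 : (N ^ j * (l • 1) ^ (n - j) * (n.choose j)) w =
        (n.choose j : k) • l ^ (n - j) • (N ^ j) w := by
      simp [_root_.smul_pow, Nat.cast_smul_eq_nsmul, smul_comm (l ^ (n - j)) (n.choose j)]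
    rw [e1, map_smul, norm_smul]
    split_ifs with hm
    · have e2 : (n.choose j : ℝ) ≤ t ^ n / (t - 1) ^ j := by
        rw [le_div_iff₀ (pow_pos t0 j), ← sub_add_cancel t 1, add_pow, add_sub_cancel_right]
        refine le_trans (by simp [mul_comm]) (Finset.single_le_sum (fun i _ => ?_) hj)
        positivity
      refine (mul_le_mul ((Nat.norm_cast_le _).trans (by simpa using e2)) (hC j (n - j))
        (norm_nonneg _) (by positivity)).trans_eq ?_
      rw [pow_sub₀ _ l0.ne' (Nat.lt_succ_iff.1 (Finset.mem_range.1 hj)), mul_pow, mul_pow]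
      field_simp
    · obtain ⟨i, rfl⟩ := Nat.exists_eq_add_of_le' (not_lt.1 hm)
      simp [pow_add, h]
  refine (Finset.sum_le_sum a).trans ?_
  rw [← Finset.sum_filter]
  refine Finset.sum_le_sum_of_subset_of_nonneg (fun j hj => ?_) fun j _ _ => ?_
  · exact Finset.mem_range.2 (Finset.mem_filter.1 hj).2
  · have := C0 j
    positivity

theorem la_inv {B B' : Module.End K V} (e1 : B * B' = 1) (e2 : B' * B = 1) {l : K} {m : ℕ}
    {w : V} (hw : ((B - l • 1) ^ m) w = 0) :
    w = 0 ∨ l ≠ 0 ∧ ((B' - l⁻¹ • 1) ^ m) w = 0 := by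
  have c : Commute B' B := e2.trans e1.symm
  rcases eq_or_ne l 0 with rfl | hl
  · left
    have := congrArg (B' ^ m) hw
    rwa [zero_smul, sub_zero, map_zero, ← Module.End.mul_apply, ← c.mul_pow, e2, one_pow] at this
  · refine Or.inr ⟨hl, ?_⟩
    have : B' - l⁻¹ • 1 = ((-l⁻¹) • B') * (B - l • 1) := by
      rw [smul_mul_assoc, mul_sub, e2, mul_smul_comm, mul_one, smul_sub, smul_smul, neg_mul,
        inv_mul_cancel₀ hl]
      simp [neg_add_eq_sub]
    rw [this, ((c.sub_right ((Commute.one_right _).smul_right l)).smul_left _).mul_pow,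
      Module.End.mul_apply, hw, map_zero]

variable (K) [IsAlgClosed K]

include K in
theorem la_span {b b' : W →L[k] W} (h : b * b' = 1) (h' : b' * b = 1) :
    Submodule.span k {v | ∃ r > 0, v ∈ Fle b r ∧ v ∈ Fle b' r⁻¹} = ⊤ := by
  obtain ⟨π, hπ⟩ := (Algebra.linearMap k K).exists_leftInverse_of_injective
    (LinearMap.ker_eq_bot.2 (algebraMap k K).injective)
  have h1 : π 1 = 1 := by simpa using LinearMap.congr_fun hπ 1
  refine eq_top_iff.2 fun v _ => ?_
  have h2 : v = la_P π (1 ⊗ₜ v) := by simp [la_P, h1]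
  rw [h2]
  have h3 : (1 : K) ⊗ₜ[k] v ∈ ⨆ l, Module.End.maxGenEigenspace
      ((b : W →ₗ[k] W).baseChange K) l := by
    rw [Module.End.iSup_maxGenEigenspace_eq_top]
    trivial
  generalize (1 : K) ⊗ₜ[k] v = w at h3
  induction h3 using Submodule.iSup_induction' with
  | mem l w hw =>
    obtain ⟨m, hm⟩ := (Module.End.mem_maxGenEigenspace _ _ _).1 hw
    rcases la_inv (la_base h) (la_base h') hm with rfl | ⟨hl, hm'⟩
    · simp
    · exact Submodule.subset_span ⟨‖l‖, norm_pos_iff.2 hl, la_gen _ (la_P_comm π b) hl hm,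
        norm_inv l ▸ la_gen _ (la_P_comm π b') (inv_ne_zero hl) hm'⟩
  | zero => simp
  | add x y _ _ h1 h2 => exact map_add (la_P π) x y ▸ add_mem h1 h2

include K in
theorem la_tr {b b' : W →L[k] W} (h : b * b' = 1) (h' : b' * b = 1) (ht : Fle b 1 = ⊤) :
    ‖tr b‖ ≤ Module.finrank k W := by
  obtain ⟨π, hπ⟩ := (Algebra.linearMap k K).exists_leftInverse_of_injective
    (LinearMap.ker_eq_bot.2 (algebraMap k K).injective)
  have h1 : π 1 = 1 := by simpa using LinearMap.congr_fun hπ 1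
  have e := LinearMap.trace_baseChange (b : W →ₗ[k] W) K
  rw [Module.End.trace_eq_sum_roots_charpoly_of_splits (IsAlgClosed.splits _)] at e
  rw [← norm_algebraMap' K, show tr b = LinearMap.trace k W b from rfl, ← e]
  refine (norm_multiset_sum_le _).trans
    ((Multiset.sum_le_card_nsmul _ 1 fun x hx => ?_).trans ?_)
  · obtain ⟨l, hl, rfl⟩ := Multiset.mem_map.1 hx
    obtain ⟨w, w1, w2⟩ := ((Module.End.hasEigenvalue_iff_isRoot_charpoly _ _).2
      (isRoot_of_mem_roots hl)).exists_hasEigenvector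
    refine not_lt.1 fun l1 => w2 ?_
    have z : ∀ c : K, la_P π (c • w) = 0 := fun c => by
      obtain ⟨m, this⟩ := (Module.End.mem_maxGenEigenspace _ _ _).1
        (Submodule.smul_mem _ c (Module.End.genEigenspace_le_maximal _ _ _ w1))
      rcases la_inv (la_base h) (la_base h') this with h2 | ⟨hl, hm⟩
      · rw [h2, map_zero]
      · refine Fle_disj h h' zero_le_one (norm_nonneg _) ?_ (ht ▸ Submodule.mem_top)
          (la_gen _ (la_P_comm π b') (inv_ne_zero hl) hm)
        rw [one_mul, norm_inv]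
        exact inv_lt_one_of_one_lt₀ l1
    let e := Module.finBasis k W
    have y : ∀ (i) (x : K ⊗[k] W),
        e.repr (la_P π x) i = π ((Algebra.TensorProduct.basis K e).repr x i) := fun i x => by
      induction x using TensorProduct.induction_on with
      | zero => simp
      | tmul c v => simp [la_P, mul_comm c, ← Algebra.smul_def, mul_comm (π c)]
      | add x y h1 h2 => simp [h1, h2]
    refine (Algebra.TensorProduct.basis K e).ext_elem fun i => not_not.1 fun c => ?_
    have := y i (((Algebra.TensorProduct.basis K e).repr w i)⁻¹ • w)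
    simp only [map_zero, Finsupp.zero_apply] at c
    simp [z, inv_mul_cancel₀ c, h1] at this
  · rw [Multiset.card_map, nsmul_eq_mul, mul_one, Nat.cast_le]
    refine (card_roots' _).trans_eq ?_
    rw [LinearMap.charpoly_natDegree, Module.finrank_baseChange]

end closure

variable (k) in
/-- The norm extends to an algebraic closure. -/
def Ext : Prop := ∃ (K : Type) (_ : NormedField K) (_ : NormedAlgebra k K),
  Algebra.IsAlgebraic k K ∧ IsAlgClosed K

theorem ext_ultra [IsUltrametricDist k] : Ext k :=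
  ⟨AlgebraicClosure k, spectralNorm.normedField k _, spectralNorm.normedAlgebra k _,
    inferInstance, inferInstance⟩

variable [x : Fact (Ext k)]

theorem Fle_span {b b' : W →L[k] W} (h : b * b' = 1) (h' : b' * b = 1) :
    Submodule.span k {v | ∃ r > 0, v ∈ Fle b r ∧ v ∈ Fle b' r⁻¹} = ⊤ := by
  obtain ⟨K, _, _, _, _⟩ := x.out
  exact la_span K h h'

theorem tr_le {b b' : W →L[k] W} (h : b * b' = 1) (h' : b' * b = 1) (ht : Fle b 1 = ⊤) :
    ‖tr b‖ ≤ Module.finrank k W := by
  obtain ⟨K, _, _, _, _⟩ := x.out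
  exact la_tr K h h' ht

end Pool.Agent.Lib.MP_60cbcc_al.H3Z
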