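import Pool.Agent.Lib.MP_60cbcc_al.H3ZLieA

/-!
Simple Lie brackets: truncated exponentials and the Jacobson-Morozov theorem.
-/

namespace Pool.Agent.Lib.MP_60cbcc_al.H3Z

open Filter Topology
open scoped Nat

set_option linter.unusedSectionVars false

variable {k W : Type} [NontriviallyNormedField k] [NormedAddCommGroup W] [NormedSpace k W]

/-- A simple Lie bracket. -/
structure SLie (br : W →L[k] W →L[k] W) : Prop where
  anti : ∀ x y, br x y = - br y x
  jac : ∀ x y, br (br x y) = br x * br y - br y * br x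
  simple : ∀ I : Submodule k W, (∀ x, ∀ y ∈ I, br x y ∈ I) → I = ⊥ ∨ I = ⊤
  kill : ∀ x, (∀ y, tr (br x * br y) = 0) → x = 0
  der : ∀ D : W →L[k] W, (∀ x y, D (br x y) = br (D x) y + br x (D y)) → ∃ z, D = br z

/-- Endomorphisms of the bracket. -/
def IsAut (br : W →L[k] W →L[k] W) (g : W →L[k] W) : Prop :=
  ∀ x y, g (br x y) = br (g x) (g y)

/-- The truncated exponential. -/
noncomputable def xp (m : ℕ) (A : W →L[k] W) : W →L[k] W :=
  ∑ j ∈ Finset.range m, (j ! : k)⁻¹ • A ^ j

theorem xp_cont (m : ℕ) : Continuous (xp m : (W →L[k] W) → _) := by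
  unfold xp
  fun_prop

theorem xp_zero {m : ℕ} (h : 3 ≤ m) : xp m (0 : W →L[k] W) = 1 := by
  obtain ⟨m, rfl⟩ := Nat.exists_eq_add_of_le' h
  simp [xp, Finset.sum_range_succ']

theorem xp_apply {m : ℕ} (h : 3 ≤ m) {A : W →L[k] W} {v : W} (hv : A (A (A v)) = 0) :
    xp m A v = v + A v + (2 : k)⁻¹ • A (A v) := by
  obtain ⟨m, rfl⟩ := Nat.exists_eq_add_of_le' h
  simp [xp, Finset.sum_range_succ', pow_succ, hv, add_comm, add_left_comm, add_assoc]

theorem xp_deriv {m : ℕ} (h : 3 ≤ m) (A : W →L[k] W) :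
    HasStrictDerivAt (fun t : k => xp m (t • A)) A 0 := by
  have := HasStrictDerivAt.fun_sum (u := Finset.range m) fun j _ =>
    ((hasStrictDerivAt_pow j (0 : k)).smul_const (A ^ j)).const_smul (j ! : k)⁻¹
  rw [Finset.sum_eq_single 1 (fun j _ hj => ?_) fun c => (c (Finset.mem_range.2 (by omega))).elim]
    at this
  · simpa [xp, smul_pow] using this
  · rcases j with _ | _ | j
    · simp
    · exact (hj rfl).elim
    · simp

theorem xp_inj {m : ℕ} (h : 3 ≤ m) {A : W →L[k] W} (hA : IsNilpotent A) (h1 : xp m A = 1) :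
    A = 0 := by
  obtain ⟨m, rfl⟩ := Nat.exists_eq_add_of_le' h
  have : ∀ n, A ^ (n + 1) = 0 → A = 0 := fun n => by
    induction n with
    | zero => simp
    | succ n ih =>
      refine fun h2 => ih ?_
      have h3 : ∀ j, A ^ n * A ^ (j + 1 + 1) = 0 := fun j => by
        rw [← pow_add]
        exact pow_eq_zero_of_le (by omega) h2
      have := congrArg (A ^ n * ·) h1
      simp only [xp] at this
      rw [Finset.sum_range_succ', Finset.sum_range_succ'] at this
      simpa [mul_add, Finset.mul_sum, h3, ← pow_succ] using this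
  obtain ⟨n, hn⟩ := hA
  exact this n (by rw [pow_succ, hn, zero_mul])

theorem IsAut.ad {br : W →L[k] W →L[k] W} {g g' : W →L[k] W} (h : IsAut br g) (h' : g * g' = 1)
    (x : W) : br (g x) = g * br x * g' := by
  ext y
  rw [mul_apply_eq_comp, mul_apply_eq_comp, h, ← mul_apply_eq_comp g, h']
  rfl

variable [CompleteSpace k] [FiniteDimensional k W] [CharZero k] {br : W →L[k] W →L[k] W}

theorem jm_nil {A B : W →L[k] W} (hA : IsNilpotent A) (h : Commute A (A * B - B * A)) :
    IsNilpotent (A * B) := by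
  obtain ⟨C, hC⟩ : ∃ C, C = A * B - B * A := ⟨_, rfl⟩
  rw [← hC] at h
  obtain ⟨q, hq⟩ : IsNilpotent C := nil_of_tr fun j => by
    rw [pow_succ, show C ^ j * C = C ^ j * (A * B - B * A) by rw [← hC], mul_sub, map_sub,
      ← mul_assoc, ← mul_assoc, tr_mul_comm _ A, ← (h.pow_right j).eq, mul_assoc, sub_self]
  have e : ∀ j : ℕ, A ^ (j + 1) * B = B * A ^ (j + 1) + ((j + 1) • C) * A ^ j := fun j => by
    induction j with
    | zero => simp [hC]
    | succ j ih =>
      rw [pow_succ' A (j + 1), mul_assoc, ih, mul_add, ← mul_assoc, ← mul_assoc,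
        (h.smul_right (j + 1)).eq, show A * B = B * A + C by simp [hC], succ_nsmul C (j + 1),
        pow_succ' A j]
      noncomm_ring
  have : ∀ j, ∃ n, ∀ Z, A ^ j * Z = 0 → (A * B) ^ n * Z = 0 := fun j => by
    induction j with
    | zero => exact ⟨0, by simp⟩
    | succ j ih =>
      obtain ⟨n, hn⟩ := ih
      refine ⟨n + q, fun Z hZ => ?_⟩
      rw [pow_add, mul_assoc]
      refine hn _ ?_
      have : ∀ i, A ^ j * ((A * B) ^ i * Z) = ((j + 1) • C) ^ i * (A ^ j * Z) := fun i => by
        induction i with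
        | zero => simp
        | succ i ih =>
          have h1 : A ^ (j + 1) * ((A * B) ^ i * Z) = 0 := by
            rw [pow_succ', mul_assoc, ih, ← mul_assoc, ((h.smul_right _).pow_right i).eq,
              mul_assoc, ← mul_assoc A, ← pow_succ', hZ, mul_zero]
          rw [pow_succ' (A * B), mul_assoc, mul_assoc, ← mul_assoc _ A, ← pow_succ, ← mul_assoc, e,
            add_mul, mul_assoc, h1, mul_zero, zero_add, mul_assoc, ih, ← mul_assoc, ← pow_succ']
      rw [this, smul_pow, hq, smul_zero, zero_mul]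
  obtain ⟨m, hm⟩ := hA
  obtain ⟨n, hn⟩ := this m
  exact ⟨n, by simpa using hn 1 (by simp [hm])⟩

theorem SLie.self (L : SLie br) (x : W) : br x x = 0 := by
  have := L.anti x x
  rwa [eq_neg_iff_add_eq_zero, ← two_smul k, smul_eq_zero_iff_right two_ne_zero] at this

theorem SLie.inj (L : SLie br) {x : W} (h : br x = 0) : x = 0 := L.kill x fun y => by simp [h]

theorem nil_of_comm {H F : W →L[k] W} {c : k} (hc : c ≠ 0) (h1 : c • F = H * F - F * H) :
    IsNilpotent F := nil_of_tr fun j => by
  have h2 := congrArg (fun a => tr (a * F ^ j)) h1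
  simp only [smul_mul_assoc, map_smul, sub_mul, map_sub, ← pow_succ'] at h2
  rw [mul_assoc F, tr_mul_comm F, mul_assoc, mul_assoc, ← pow_succ, ← pow_succ', sub_self] at h2
  exact (smul_eq_zero_iff_right hc).1 h2

theorem SLie.nil_of_eig (L : SLie br) {h f : W} {c : k} (hc : c ≠ 0) (e : br h f = c • f) :
    IsNilpotent (br f) := nil_of_comm hc (by rw [← L.jac h f, e, map_smul])

theorem SLie.jm1 (L : SLie br) {X : W} (hX : IsNilpotent (br X)) : ∃ z, br X (br X z) = X := by
  let κ : W →ₗ[k] Module.Dual k W := LinearMap.mk₂ k (fun y x => tr (br y * br x))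
    (by simp [add_mul]) (by simp) (by simp [mul_add]) (by simp)
  have hκ : Function.Surjective κ :=
    (LinearMap.injective_iff_surjective_of_finrank_eq_finrank Subspace.dual_finrank_eq.symm).1
      ((injective_iff_map_eq_zero κ).2 fun y hy => L.kill y fun x => LinearMap.congr_fun hy x)
  have sk : ∀ x y, tr (br y * br (br X x)) = - tr (br (br X y) * br x) := fun x y => by
    rw [L.jac, L.jac, mul_sub, sub_mul, map_sub, map_sub, neg_sub, ← mul_assoc, ← mul_assoc,
      tr_mul_comm _ (br X), mul_assoc (br X)]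
  by_contra c
  obtain ⟨ψ, h1, h2⟩ := Submodule.exists_dual_map_eq_bot_of_notMem
    (p := LinearMap.range (br X * br X : W →L[k] W).toLinearMap) (x := X) c inferInstance
  obtain ⟨y, rfl⟩ := hκ ψ
  have h3 : br X (br X y) = 0 := L.kill _ fun x => by
    have : tr (br y * br (br X (br X x))) = 0 :=
      (Submodule.eq_bot_iff _).1 h2 _ ⟨_, ⟨x, rfl⟩, rfl⟩
    rwa [sk, sk, neg_neg] at this
  refine h1 ((tr_mul_comm _ _).trans (tr_nil (jm_nil hX ?_)))
  rw [← L.jac, Commute, SemiconjBy, ← sub_eq_zero, ← L.jac, h3, map_zero]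

/-- The Jacobson-Morozov theorem. -/
theorem SLie.jm (L : SLie br) {X : W} (hX : IsNilpotent (br X)) :
    ∃ h f, br h X = (2 : k) • X ∧ br h f = (-2 : k) • f ∧ br X f = h := by
  obtain ⟨z, hz⟩ := L.jm1 hX
  obtain ⟨f, hf⟩ : ∃ f, br (br X f) X = (2 : k) • X :=
    ⟨(-2 : k) • z, by rw [L.anti]; simp [hz]⟩
  obtain ⟨h, hh⟩ : ∃ h, h = br X f := ⟨_, rfl⟩
  rw [← hh] at hf
  have e1 : br X * br f = br f * br X + br h := by rw [hh, L.jac, add_sub_cancel]
  have e2 : br X * br h = br h * br X - (2 : k) • br X := by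
    rw [← map_smul, ← hf, L.jac, sub_sub_cancel]
  have e3 : ∀ i : ℕ, br X ^ (i + 1) * br f = br f * br X ^ (i + 1) +
      ((i + 1 : k) • (br h * br X ^ i) - ((i + 1) * i : k) • br X ^ i) := fun i => by
    induction i with
    | zero => simp [e1]
    | succ i ih =>
      rw [pow_succ' _ (i + 1), mul_assoc, ih, mul_add, mul_sub, mul_smul_comm, mul_smul_comm,
        ← mul_assoc, ← mul_assoc, e1, e2]
      simp only [add_mul, sub_mul, smul_mul_assoc, mul_assoc, ← pow_succ']
      push_cast
      module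
  let T : LinearMap.ker (br X).toLinearMap →ₗ[k] LinearMap.ker (br X).toLinearMap :=
    (br h + (2 : k) • 1 : W →L[k] W).toLinearMap.restrict fun v hv => by
      have h1 := congrArg (fun a : W →L[k] W => a v) e2
      have h2 : br X v = 0 := hv
      simpa [h2] using h1
  have hT : Function.Surjective T := LinearMap.injective_iff_surjective.1
    ((injective_iff_map_eq_zero T).2 fun v hv => by
      have h1 : br X v = 0 := v.2
      have h2 : br h v = (-2 : k) • (v : W) := by
        simpa [T, ← eq_neg_iff_add_eq_zero] using congrArg Subtype.val hv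
      have : ∀ i : ℕ, ∃ u, (br X ^ i) u = v := fun i => by
        induction i with
        | zero => exact ⟨v, rfl⟩
        | succ i ih =>
          obtain ⟨u, hu⟩ := ih
          have h3 : (br X ^ (i + 1)) (br f u) = (-((i + 1) * (i + 2)) : k) • (v : W) := by
            have := congrArg (fun a : W →L[k] W => a u) (e3 i)
            simp only [pow_succ' (br X) i, mul_apply_eq_comp, add_apply, sub_apply, smul_apply, hu,
              h1, h2, map_zero] at this
            rw [pow_succ', mul_apply_eq_comp, this]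
            module
          have h4 : (-((i + 1) * (i + 2)) : k) ≠ 0 :=
            neg_ne_zero.2 (mul_ne_zero (Nat.cast_add_one_ne_zero i) (by exact_mod_cast i.succ.succ_ne_zero))
          exact ⟨(-((i + 1) * (i + 2)) : k)⁻¹ • br f u, by rw [map_smul, h3, inv_smul_smul₀ h4]⟩
      obtain ⟨m, hm⟩ := hX
      obtain ⟨u, hu⟩ := this m
      exact Subtype.ext (by simpa [hm] using hu.symm))
  obtain ⟨y, hy⟩ := hT ⟨br h f + (2 : k) • f, by
    have h1 := congrArg (fun a : W →L[k] W => a f) e2
    simp only [mul_apply_eq_comp, sub_apply, smul_apply, ← hh, L.self] at h1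
    simp [h1, ← hh]⟩
  have h1 : br X y = 0 := y.2
  have h2 : br h y + (2 : k) • (y : W) = br h f + (2 : k) • f := congrArg Subtype.val hy
  refine ⟨h, f - y, hf, ?_, by rw [map_sub, h1, sub_zero, hh]⟩
  rw [map_sub, eq_sub_of_add_eq h2]
  module

end Pool.Agent.Lib.MP_60cbcc_al.H3Z
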