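import Pool.Agent.Lib.MP_60cbcc_al.H3ZLieB

/-!
Simple Lie brackets: tangent vectors of monoids of automorphisms, gradings.
-/

namespace Pool.Agent.Lib.MP_60cbcc_al.H3Z

open Filter Topology

set_option linter.unusedSectionVars false

variable {k W : Type} [NontriviallyNormedField k] [NormedAddCommGroup W] [NormedSpace k W]

/-- Tangent vectors of curves in `S` through the identity. -/
def Tan (br : W →L[k] W →L[k] W) (S : Submonoid (W →L[k] W)) : Submodule k W where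
  carrier := {Y | ∃ c : k → W →L[k] W, (∀ t, c t ∈ S) ∧ c 0 = 1 ∧ HasStrictDerivAt c (br Y) 0}
  zero_mem' := ⟨fun _ => 1, fun _ => one_mem S, rfl, by simpa using hasStrictDerivAt_const _ _⟩
  add_mem' := by
    rintro x y ⟨c, c1, c2, c3⟩ ⟨d, d1, d2, d3⟩
    exact ⟨fun t => c t * d t, fun t => mul_mem (c1 t) (d1 t), by simp [c2, d2],
      by simpa [c2, d2] using c3.fun_mul d3⟩
  smul_mem' := by
    rintro a x ⟨c, c1, c2, c3⟩
    refine ⟨fun t => c (a * t), fun t => c1 _, by simp [c2], ?_⟩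
    have := HasStrictDerivAt.scomp (0 : k) (h := fun t => a * t) (by simpa using c3)
      ((hasStrictDerivAt_id 0).const_mul a)
    rw [mul_one, ← map_smul] at this
    exact this

variable {br : W →L[k] W →L[k] W}

theorem Tan_conj {S : Submonoid (W →L[k] W)} {g g' : W →L[k] W} (h : IsAut br g) (h' : g * g' = 1)
    (hS : ∀ a ∈ S, g * a * g' ∈ S) {Y : W} (hY : Y ∈ Tan br S) : g Y ∈ Tan br S := by
  obtain ⟨c, c1, c2, c3⟩ := hY
  exact ⟨fun t => g * c t * g', fun t => hS _ (c1 t), by simp [c2, h'],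
    h.ad h' Y ▸ (c3.const_mul g).mul_const g'⟩

theorem deriv_mem {F : Type} [NormedAddCommGroup F] [NormedSpace k F] {T : Submodule k F}
    (hT : IsClosed (T : Set F)) {c : k → F} {d : F} (h : ∀ t, c t ∈ T) (hd : HasDerivAt c d 0) :
    d ∈ T :=
  hT.mem_of_tendsto hd.tendsto_slope_zero
    (Eventually.of_forall fun _ => T.smul_mem _ (sub_mem (h _) (h _)))

theorem Fle_br {b : W →L[k] W} (h : IsAut br b) {r s : ℝ} {x y : W}
    (hx : x ∈ Fle b r) (hy : y ∈ Fle b s) : br x y ∈ Fle b (r * s) := fun t ht => by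
  have t1 : 1 < √t := Real.lt_sqrt_of_sq_lt (by simpa using ht)
  obtain ⟨C, hC⟩ := hx _ t1
  obtain ⟨D, hD⟩ := hy _ t1
  have e : ∀ n : ℕ, (b ^ n) (br x y) = br ((b ^ n) x) ((b ^ n) y) := fun n => by
    induction n with
    | zero => simp
    | succ n ih => simp [pow_succ', ih, h _ _]
  refine ⟨‖br‖ * C * D, fun n => ?_⟩
  rw [e]
  calc _ ≤ ‖br‖ * ‖(b ^ n) x‖ * ‖(b ^ n) y‖ := br.le_opNorm₂ _ _
    _ ≤ ‖br‖ * (C * (√t * r) ^ n) * (D * (√t * s) ^ n) := mul_le_mul (mul_le_mul_of_nonneg_left (hC n)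
      (norm_nonneg _)) (hD n) (norm_nonneg _)
      (mul_nonneg (norm_nonneg _) ((norm_nonneg _).trans (hC n)))
    _ = ‖br‖ * C * D * (√t * √t * (r * s)) ^ n := by ring
    _ = _ := by rw [Real.mul_self_sqrt (zero_le_one.trans ht.le)]

/-- The piece of the grading defined by `b` of radius `r`. -/
noncomputable def Gr (b b' : W →L[k] W) (r : ℝ) : Submodule k W := Fle b r ⊓ Fle b' r⁻¹

/-- The homogeneous vectors of radius different from one. -/
def Hyp (b b' : W →L[k] W) : Set W := {Y | ∃ r > 0, r ≠ 1 ∧ Y ∈ Gr b b' r}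

theorem Gr_br {b b' : W →L[k] W} (h : IsAut br b) (h' : IsAut br b') {r s : ℝ} {x y : W}
    (hx : x ∈ Gr b b' r) (hy : y ∈ Gr b b' s) : br x y ∈ Gr b b' (r * s) :=
  ⟨Fle_br h hx.1 hy.1, mul_inv r s ▸ Fle_br h' hx.2 hy.2⟩

theorem Hyp_symm {b b' : W →L[k] W} {Y : W} (h : Y ∈ Hyp b b') : Y ∈ Hyp b' b := by
  obtain ⟨r, r0, r1, h1, h2⟩ := h
  exact ⟨r⁻¹, inv_pos.2 r0, by simpa using r1, h2, by simpa using h1⟩

theorem Hyp_smul {b b' : W →L[k] W} {Y : W} (h : Y ∈ Hyp b b') (t : k) : t • Y ∈ Hyp b b' := by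
  obtain ⟨r, r0, r1, h1⟩ := h
  exact ⟨r, r0, r1, Submodule.smul_mem _ t h1⟩

theorem Hyp_lim {b b' : W →L[k] W} {Y : W} (h : Y ∈ Hyp b b') :
    Tendsto (fun n => (b ^ n) Y) atTop (𝓝 0) ∨ Tendsto (fun n => (b' ^ n) Y) atTop (𝓝 0) := by
  obtain ⟨r, r0, r1, h1, h2⟩ := h
  exact r1.lt_or_gt.imp (fun c => Fle_lim r0.le c h1) fun c =>
    Fle_lim (inv_pos.2 r0).le (inv_lt_one_of_one_lt₀ c) h2

variable [CompleteSpace k] [FiniteDimensional k W]

theorem xp_stab {m : ℕ} (hm : 3 ≤ m) {A : W →L[k] W} {T : Submodule k W} {v : W}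
    (h : ∀ t : k, xp m (t • A) v ∈ T) : A v ∈ T :=
  deriv_mem T.closed_of_finiteDimensional h
    (by simpa using (xp_deriv hm A).hasDerivAt.clm_apply (hasDerivAt_const 0 v))

theorem nil_of_lim [CharZero k] {g g' : ℕ → W →L[k] W} (h : ∀ n, IsAut br (g n))
    (h1 : ∀ n, g n * g' n = 1) (h2 : ∀ n, g' n * g n = 1) {Y : W}
    (hY : Tendsto (fun n => g n Y) atTop (𝓝 0)) : IsNilpotent (br Y) := nil_of_tr fun j => by
  have e : ∀ n, tr (br (g n Y) ^ (j + 1)) = tr (br Y ^ (j + 1)) := fun n => by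
    rw [(h n).ad (h1 n), show g n * br Y * g' n = (⟨_, _, h1 n, h2 n⟩ : (W →L[k] W)ˣ) * br Y *
      (⟨_, _, h1 n, h2 n⟩ : (W →L[k] W)ˣ)⁻¹ from rfl, Units.conj_pow, tr_mul_comm, ← mul_assoc,
      Units.inv_mul, one_mul]
  have := ((tr_cont.comp ((continuous_pow (j + 1)).comp br.continuous)).tendsto 0).comp hY
  simpa [Function.comp_def, e] using this

theorem tan_prod {S : Submonoid (W →L[k] W)} {ι : Type} [Fintype ι] {e : ι → W}
    (h : ∀ i, e i ∈ Tan br S) (s : Finset ι) : ∃ Φ : (ι → k) → W →L[k] W,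
      (∀ t, Φ t ∈ S) ∧ Φ 0 = 1 ∧ HasStrictFDerivAt Φ (∑ i ∈ s,
        (ContinuousLinearMap.toSpanSingleton k (br (e i))).comp (ContinuousLinearMap.proj i)) 0 := by
  classical
  choose c c1 c2 c3 using h
  induction s using Finset.induction_on with
  | empty => exact ⟨fun _ => 1, fun _ => one_mem S, rfl, by simpa using hasStrictFDerivAt_const _ _⟩
  | insert i s hi ih =>
    obtain ⟨Φ, h1, h2, h3⟩ := ih
    refine ⟨fun t => Φ t * c i (t i), fun t => mul_mem (h1 t) (c1 i _), by simp [h2, c2], ?_⟩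
    refine (h3.fun_mul' ((c3 i).hasStrictFDerivAt.comp 0
      (hasStrictFDerivAt_apply i 0))).congr_fderiv (ContinuousLinearMap.ext fun t => ?_)
    simp [h2, c2, Finset.sum_insert hi]

theorem SLie.loc_inj (L : SLie br) {p : (W →L[k] W) →L[k] W} (hp : ∀ x, p (br x) = x) :
    ∀ᶠ q : (W →L[k] W) × (W →L[k] W) in 𝓝 (1, 1),
      IsAut br q.1 → IsAut br q.2 → p q.1 = p q.2 → q.1 = q.2 := by
  obtain ⟨Λ, hΛ⟩ : ∃ Λ : (W →L[k] W) →ₗ[k] (W →L[k] W →L[k] W),
      ∀ d x y, Λ d x y = d (br x y) - br (d x) y - br x (d y) :=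
    ⟨{ toFun := fun d => (ContinuousLinearMap.mul k _ d).comp br - br.comp d -
        ((ContinuousLinearMap.mul k _).flip d).comp br
       map_add' := fun a b => by ext; simp; abel
       map_smul' := fun a b => by ext; simp [smul_sub] }, fun _ _ _ => rfl⟩
  obtain ⟨K, -, hK⟩ := (Λ.prod p.toLinearMap).exists_antilipschitzWith
    (LinearMap.ker_eq_bot'.2 fun d hd => by
      obtain ⟨z, rfl⟩ := L.der d fun x y => by
        have : Λ d x y = 0 := congrArg (fun a => a.1 x y) hd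
        rwa [hΛ, sub_sub, sub_eq_zero] at this
      have : p (br z) = 0 := congrArg Prod.snd hd
      rw [← hp z, this, map_zero])
  have : ∀ᶠ q : (W →L[k] W) × (W →L[k] W) in 𝓝 (1, 1),
      K * (‖br‖ * (‖q.1 - 1‖ + ‖q.2 - 1‖)) < 1 :=
    ContinuousAt.eventually_lt (by fun_prop) continuousAt_const (by simp)
  filter_upwards [this] with ⟨g, g'⟩ hq a1 a2 a3
  have b1 := ZeroHomClass.bound_of_antilipschitz (Λ.prod p.toLinearMap) hK (g - g')
  have b2 : ‖Λ.prod p.toLinearMap (g - g')‖ ≤ ‖br‖ * (‖g - 1‖ + ‖g' - 1‖) * ‖g - g'‖ := by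
    refine max_le (ContinuousLinearMap.opNorm_le_bound₂ _ (by positivity) fun x y => ?_) ?_
    · have : Λ (g - g') x y = br ((g - g') x) ((g - 1) y) + br ((g' - 1) x) ((g - g') y) := by
        simp only [hΛ, sub_apply, a1 x y, a2 x y, map_sub, one_apply_eq_self]
        abel
      refine (congrArg norm this).trans_le ?_
      refine (norm_add_le _ _).trans ((add_le_add (br.le_opNorm₂ _ _) (br.le_opNorm₂ _ _)).trans ?_)
      calc _ ≤ ‖br‖ * (‖g - g'‖ * ‖x‖) * (‖g - 1‖ * ‖y‖) +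
          ‖br‖ * (‖g' - 1‖ * ‖x‖) * (‖g - g'‖ * ‖y‖) := by
            gcongr <;> exact ContinuousLinearMap.le_opNorm _ _
        _ = _ := by ring
    · have : p (g - g') = 0 := by rw [map_sub, sub_eq_zero]; exact a3
      refine (congrArg norm this).trans_le ?_
      rw [norm_zero]
      positivity
  refine sub_eq_zero.1 (norm_le_zero_iff.1 (not_lt.1 fun c => ?_))
  have := mul_lt_mul_of_pos_right hq c
  have := b1.trans (mul_le_mul_of_nonneg_left b2 K.2)
  linarith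

theorem SLie.open_of_tan (L : SLie br) {S : Submonoid (W →L[k] W)} (hS : ∀ g ∈ S, IsAut br g)
    (h : Tan br S = ⊤) : ∀ᶠ g in 𝓝 1, IsAut br g → g ∈ S := by
  have : CompleteSpace W := FiniteDimensional.complete k W
  obtain ⟨p, hp⟩ : ∃ p : (W →L[k] W) →L[k] W, ∀ x, p (br x) = x := by
    obtain ⟨p, hp⟩ := br.toLinearMap.exists_leftInverse_of_injective
      (LinearMap.ker_eq_bot'.2 fun x hx => L.kill x fun y => by simp [show br x = 0 from hx])
    exact ⟨p.toContinuousLinearMap, LinearMap.congr_fun hp⟩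
  let e := Module.finBasis k W
  obtain ⟨Φ, h1, h2, h3⟩ := tan_prod
    (fun i => (show e i ∈ Tan br S from h ▸ Submodule.mem_top)) Finset.univ
  have h4 : HasStrictFDerivAt (fun t => p (Φ t))
      (e.equivFunL.symm : (Fin (Module.finrank k W) → k) →L[k] W) 0 := by
    refine ((p.hasStrictFDerivAt (x := Φ 0)).comp 0 h3).congr_fderiv ?_
    ext i
    refine Eq.trans ?_ (e.equivFun_symm_apply i).symm
    simp [hp]
  have inj := L.loc_inj hp
  rw [nhds_prod_eq] at inj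
  obtain ⟨U, hU, V, hV, inj⟩ := eventually_prod_iff.1 inj
  have h5 : ∀ᶠ t in 𝓝 0, V (Φ t) := h3.continuousAt.tendsto.eventually (h2 ▸ hV)
  have h6 := image_mem_map (m := fun t => p (Φ t)) h5
  rw [h4.map_nhds_eq_of_equiv, h2] at h6
  filter_upwards [hU, p.continuous.continuousAt.preimage_mem_nhds h6] with g g1 ⟨t, t1, t2⟩ g3
  have : g = Φ t := inj g1 t1 g3 (hS _ (h1 t)) t2.symm
  exact this ▸ h1 t

variable [Fact (Ext k)]

theorem SLie.ideal_of_hyp (L : SLie br) {b b' : W →L[k] W} (e : b * b' = 1) (e' : b' * b = 1)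
    (h : IsAut br b) (h' : IsAut br b') (hne : ∃ Y ∈ Hyp b b', Y ≠ 0) (S : Submodule k W)
    (hS : ∀ Y ∈ Hyp b b', ∀ v ∈ S, br Y v ∈ S) : S = ⊥ ∨ S = ⊤ := by
  let I := Submodule.span k (Hyp b b' ∪ {w | ∃ y ∈ Hyp b b', ∃ z ∈ Hyp b b', w = br y z})
  have a1 : ∀ q > 0, ∀ x ∈ Gr b b' q, ∀ y ∈ Hyp b b', br x y ∈ I := fun q q0 x hx y hy => by
    rcases eq_or_ne q 1 with rfl | q1
    · obtain ⟨r, r0, r1, hy⟩ := hy
      exact Submodule.subset_span (Or.inl ⟨r, r0, r1, one_mul r ▸ Gr_br h h' hx hy⟩)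
    · exact Submodule.subset_span (Or.inr ⟨x, ⟨q, q0, q1, hx⟩, y, hy, rfl⟩)
  have a2 : ∀ x, ∀ y ∈ I, br x y ∈ I := fun x y hy => by
    have hx : x ∈ Submodule.span k {v | ∃ r > 0, v ∈ Fle b r ∧ v ∈ Fle b' r⁻¹} :=
      Fle_span e e' ▸ Submodule.mem_top
    induction hx using Submodule.span_induction with
    | zero => simp
    | add x x' _ _ h1 h2 => simpa using add_mem h1 h2
    | smul c x _ h1 => simpa using I.smul_mem c h1
    | mem x hx =>
      obtain ⟨q, q0, hx⟩ := hx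
      refine (Submodule.span_le (p := I.comap (br x).toLinearMap)).2 ?_ hy
      rintro y (hy | ⟨y, ⟨r, r0, r1, hy⟩, z, ⟨s, s0, s1, hz⟩, rfl⟩)
      · exact a1 q q0 x hx y hy
      rcases eq_or_ne q 1 with rfl | q1
      · have : br x (br y z) = br (br x y) z + br y (br x z) := by simp [L.jac]
        change br x (br y z) ∈ I
        rw [this]
        exact add_mem (a1 _ (mul_pos q0 r0) _ (Gr_br h h' hx hy) z ⟨s, s0, s1, hz⟩)
          (a1 r r0 y hy _ ⟨s, s0, s1, one_mul s ▸ Gr_br h h' hx hz⟩)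
      rcases eq_or_ne (r * s) 1 with c | c
      · exact Submodule.subset_span
          (Or.inl ⟨q, q0, q1, by simpa [c] using Gr_br h h' hx (Gr_br h h' hy hz)⟩)
      · exact a1 q q0 x hx _ ⟨_, mul_pos r0 s0, c, Gr_br h h' hy hz⟩
  obtain ⟨Y, Y1, Y2⟩ := hne
  have a3 := (L.simple I a2).resolve_left fun c =>
    Y2 ((Submodule.eq_bot_iff _).1 c Y (Submodule.subset_span (Or.inl Y1)))
  refine L.simple S fun x v hv => ?_
  refine (Submodule.span_le (p := S.comap (br.flip v).toLinearMap)).2 ?_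
    (show x ∈ I from a3 ▸ Submodule.mem_top)
  rintro y (hy | ⟨y, hy, z, hz, rfl⟩)
  · exact hS y hy v hv
  · change br (br y z) v ∈ S
    rw [L.jac]
    exact sub_mem (hS y hy _ (hS z hz v hv)) (hS z hz _ (hS y hy v hv))

end Pool.Agent.Lib.MP_60cbcc_al.H3Z
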