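import Pool.Agent.Lib.MP_60cbcc_al.H3ZLieC

/-!
Simple Lie brackets: the big cell of a hyperbolic automorphism.
-/

namespace Pool.Agent.Lib.MP_60cbcc_al.H3Z

open Filter Topology

set_option linter.unusedSectionVars false

variable {k W : Type} [NontriviallyNormedField k] [NormedAddCommGroup W] [NormedSpace k W]
  [CompleteSpace k] [FiniteDimensional k W] {br : W →L[k] W →L[k] W}

theorem basis_mem {ι : Type} (e : Module.Basis ι k W) (T : Submodule k W) (f : W →L[k] W)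
    (h : ∀ i, f (e i) ∈ T) (v : W) : f v ∈ T :=
  (Submodule.span_le (p := T.comap f.toLinearMap)).2 (Set.range_subset_iff.2 h)
    (e.span_eq ▸ Submodule.mem_top)

theorem basis_in {T : Set W} (h : Submodule.span k T = ⊤) :
    ∃ (d : ℕ) (e : Module.Basis (Fin d) k W), ∀ i, e i ∈ T := by
  obtain ⟨f, f1, f2, f3⟩ := Submodule.exists_fun_fin_finrank_span_eq k T
  exact ⟨_, Module.Basis.mk f3 (f2.trans h).ge, by simpa using f1⟩

theorem basis_lim {ι : Type} [Finite ι] (e : Module.Basis ι k W) {a : ℕ → W →L[k] W}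
    {c : W →L[k] W} (h : ∀ i, Tendsto (fun n => a n (e i)) atTop (𝓝 (c (e i)))) :
    Tendsto a atTop (𝓝 c) := by
  let T : (ι → W) →ₗ[k] W →L[k] W :=
    LinearMap.toContinuousLinearMap.toLinearMap ∘ₗ (e.constr k).toLinearMap
  have hT : ∀ x : W →L[k] W, T (fun i => x (e i)) = x := fun x =>
    ContinuousLinearMap.coe_injective (e.ext fun i => by simp [T])
  simpa [Function.comp_def, hT] using
    (T.continuous_of_finiteDimensional.tendsto _).comp (tendsto_pi_nhds.2 h)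

/-- The coordinate projections of a basis. -/
noncomputable def cpr {ι : Type} [DecidableEq ι] (e : Module.Basis ι k W) (S : Finset ι) :
    W →L[k] W := (e.constr k fun i => if i ∈ S then e i else 0).toContinuousLinearMap

theorem cpr_apply {ι : Type} [DecidableEq ι] (e : Module.Basis ι k W) (S : Finset ι) (i : ι) :
    cpr e S (e i) = if i ∈ S then e i else 0 := by simp [cpr]

theorem cpr_idem {ι : Type} [DecidableEq ι] (e : Module.Basis ι k W) (S : Finset ι) :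
    cpr e S * cpr e S = cpr e S :=
  ContinuousLinearMap.coe_injective (e.ext fun i => by
    by_cases h : i ∈ S <;> simp [cpr_apply, h])

variable [Fact (Ext k)]

theorem big_cell {b b' : W →L[k] W} (e1 : b * b' = 1) (e2 : b' * b = 1)
    (h : IsAut br b) (h' : IsAut br b') {r₁ : ℝ} (r0 : 0 ≤ r₁) (r1 : r₁ < 1) {Y : W} (Y0 : Y ≠ 0)
    (hY : Y ∈ Fle b r₁) :
    ∃ (X : W) (ι : Type) (_ : Fintype ι) (π : ι → W →L[k] W), X ≠ 0 ∧ X ∈ Hyp b b' ∧
      (∀ i, π i * π i = π i) ∧ ∀ x, IsAut br x →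
      (∀ i, LinearMap.det (π i * x * π i + (1 - π i)).toLinearMap ≠ 0) →
      ∃ u X', IsAut br u ∧ Tendsto (fun n => b' ^ n * u * b ^ n) atTop (𝓝 1) ∧
        X' ∈ Hyp b b' ∧ x X = u X' := by
  obtain ⟨d, e, f1⟩ := basis_in (Fle_span e1 e2)
  choose ρ ρ0 ρ1 ρ2 using f1
  obtain ⟨π, π0⟩ : ∃ π : ℝ → W →L[k] W, ∀ r, π r = cpr e (Finset.univ.filter fun i => ρ i ≤ r) :=
    ⟨_, fun _ => rfl⟩
  have hπ : ∀ r i, π r (e i) = if ρ i ≤ r then e i else 0 := fun r i => by simp [π0, cpr_apply]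
  have P1 : ∀ r v, π r v ∈ Fle b r := fun r => basis_mem e _ _ fun i => by
    rw [hπ]
    split_ifs with c
    exacts [Fle_mono (ρ0 i).le c (ρ1 i), zero_mem _]
  have : ∀ r : ℝ, ∃ s > r, ∀ i, r < ρ i → s ≤ ρ i := fun r => by
    have : ∀ᶠ s in 𝓝[>] r, ∀ i, r < ρ i → s ≤ ρ i := eventually_all.2 fun i => by
      by_cases c : r < ρ i
      · exact ((eventually_le_nhds c).filter_mono nhdsWithin_le_nhds).mono fun _ h _ => h
      · exact .of_forall fun _ h => (c h).elim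
    exact (eventually_mem_nhdsWithin.and this).exists
  choose σ σ1 σ2 using this
  have P2 : ∀ r, 0 ≤ r → ∀ v, v - π r v ∈ Fle b' (σ r)⁻¹ := fun r hr =>
    basis_mem e _ (1 - π r) fun i => by
      rw [sub_apply, hπ]
      split_ifs with c
      · simp
      · simpa using Fle_mono (inv_pos.2 (ρ0 i)).le
          (inv_anti₀ (hr.trans_lt (σ1 r)) (σ2 r i (not_le.1 c))) (ρ2 i)
  have K : ∀ r s, 0 ≤ r → r < s → ∀ v ∈ Fle b' s⁻¹, π r v = 0 := fun r s hr hs v hv => by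
    have m0 : r < min s (σ r) := lt_min hs (σ1 r)
    have m1 := hr.trans_lt m0
    refine Fle_disj e1 e2 hr (inv_pos.2 m1).le ((mul_inv_lt_iff₀ m1).2 (by simpa using m0))
      (P1 r v) ?_
    rw [← sub_sub_cancel v (π r v)]
    exact sub_mem (Fle_mono (inv_pos.2 (hr.trans_lt hs)).le (inv_anti₀ m1 (min_le_left _ _)) hv)
      (Fle_mono (inv_pos.2 (hr.trans_lt (σ1 r))).le (inv_anti₀ m1 (min_le_right _ _)) (P2 r hr v))
  have F : ∀ r, 0 ≤ r → ∀ v ∈ Fle b r, π r v = v := fun r hr v hv => by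
    have m1 := hr.trans_lt (σ1 r)
    exact (sub_eq_zero.1 (Fle_disj e1 e2 hr (inv_pos.2 m1).le ((mul_inv_lt_iff₀ m1).2
      (by simpa using σ1 r)) (sub_mem hv (P1 r v)) (P2 r hr v))).symm
  have G : ∀ r, 0 ≤ r → ∀ v, π r v = 0 → v ∈ Fle b' (σ r)⁻¹ := fun r hr v hv => by
    simpa [hv] using P2 r hr v
  have : Nonempty (Fin d) := not_isEmpty_iff.1 fun c => Y0 (by simpa using (e.sum_repr Y).symm)
  obtain ⟨i₀, hi⟩ := Finite.exists_min ρ
  have a0 : ∀ v, v ∈ Fle b' (ρ i₀)⁻¹ := basis_mem e _ 1 fun i =>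
    Fle_mono (inv_pos.2 (ρ0 i)).le (inv_anti₀ (ρ0 i₀) (hi i)) (ρ2 i)
  have a1 : ρ i₀ ≠ 1 := ne_of_lt (not_le.1 fun c => Y0 (Fle_disj e1 e2 r0 (inv_pos.2 (ρ0 i₀)).le
    ((mul_inv_lt_iff₀ (ρ0 i₀)).2 (by linarith)) hY (a0 Y)))
  refine ⟨e i₀, _, inferInstance, cpr e, e.ne_zero _, ⟨_, ρ0 i₀, a1, ρ1 i₀, ρ2 i₀⟩, cpr_idem e,
    fun x hx hd => ?_⟩
  replace hd : ∀ r, Function.Bijective (π r * x * π r + (1 - π r) : W →L[k] W) := fun r =>
    π0 r ▸ (Module.End.isUnit_iff _).1 ((LinearMap.isUnit_iff_isUnit_det _).2 (hd _).isUnit)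
  have pp : ∀ r v, π r (π r v) = π r v := fun r v => by
    rw [← mul_apply_eq_comp, π0, cpr_idem]
  choose y hy using fun i => (hd (ρ i)).2 (e i)
  obtain ⟨u, hu⟩ : ∃ u : W →L[k] W, ∀ i, u (e i) = x (π (ρ i) (y i)) :=
    ⟨(e.constr k _).toContinuousLinearMap, fun i => e.constr_basis k _ i⟩
  have U : ∀ i, u (e i) - e i ∈ Fle b' (σ (ρ i))⁻¹ := fun i => G _ (ρ0 i).le _ (by
    have := congrArg (π (ρ i)) (hy i)
    simp only [add_apply, sub_apply, mul_apply_eq_comp, one_apply_eq_self, map_add, map_sub, pp,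
      sub_self, add_zero] at this
    rw [map_sub, hu, this, sub_self])
  have A : ∀ r, 0 ≤ r → ∀ v ∈ Fle b r, u v ∈ (Fle b r).map x.toLinearMap := fun r hr v hv => by
    rw [← F r hr v hv]
    refine basis_mem e _ (u * π r) (fun i => ?_) v
    rw [mul_apply_eq_comp, hπ]
    split_ifs with c
    exacts [⟨_, Fle_mono (ρ0 i).le c (P1 _ _), (hu i).symm⟩, by simp]
  have B : ∀ r, 0 < r → ∀ v ∈ Fle b' r⁻¹, π r (u v - v) = 0 := fun r hr v hv => by
    have : ∀ᶠ s in 𝓝[<] r, ∀ i, ρ i < r → ρ i ≤ s := eventually_all.2 fun i => by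
      by_cases c : ρ i < r
      · exact ((eventually_ge_nhds c).filter_mono nhdsWithin_le_nhds).mono fun _ h _ => h
      · exact .of_forall fun _ h => (c h).elim
    obtain ⟨s, s1, s2⟩ := (Eventually.and (Ioo_mem_nhdsLT hr) this).exists
    have := basis_mem e ⊥ (π r * (u - 1) * (1 - π s)) (fun i => ?_) v
    · simpa [K s r s1.1.le s1.2 v hv] using this
    · simp only [mul_apply_eq_comp, sub_apply, one_apply_eq_self, hπ]
      split_ifs with c
      · simp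
      · rw [sub_zero]
        exact K r _ hr.le ((not_lt.1 fun c' => c (s2 i c')).trans_lt (σ1 _)) _ (U i)
  have Z : ∀ r, 0 ≤ r → ∀ w ∈ (Fle b r).map x.toLinearMap, π r w = 0 → w = 0 := by
    rintro r hr _ ⟨v, hv, rfl⟩ hw
    have : v = 0 := (hd r).1 (by simpa [F r hr v hv] using hw)
    simp [this]
  have au : ∀ i j, u (br (e i) (e j)) = br (u (e i)) (u (e j)) := fun i j => by
    have p0 := mul_pos (ρ0 i) (ρ0 j)
    refine sub_eq_zero.1 (Z _ p0.le _ (sub_mem (A _ p0.le _ (Fle_br h (ρ1 i) (ρ1 j))) ?_) ?_)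
    · exact ⟨_, Fle_br h (P1 _ _) (P1 _ _), by rw [hu, hu]; exact hx _ _⟩
    · have b1 := B _ p0 _ (mul_inv (ρ i) (ρ j) ▸ Fle_br h' (ρ2 i) (ρ2 j))
      have b2 : u (e j) ∈ Fle b' (ρ j)⁻¹ := by
        simpa using add_mem (Fle_mono (inv_pos.2 ((ρ0 j).trans (σ1 _))).le
          (inv_anti₀ (ρ0 j) (σ1 _).le) (U j)) (ρ2 j)
      have b3 := K _ _ p0.le (mul_lt_mul_of_pos_right (σ1 _) (ρ0 j)) _
        (mul_inv (σ (ρ i)) (ρ j) ▸ Fle_br h' (U i) b2)
      have b4 := K _ _ p0.le (mul_lt_mul_of_pos_left (σ1 _) (ρ0 i)) _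
        (mul_inv (ρ i) (σ (ρ j)) ▸ Fle_br h' (ρ2 i) (U j))
      simp only [map_sub, sub_apply, sub_eq_zero] at b1 b3 b4 ⊢
      rw [b1, b3, b4]
  refine ⟨u, π (ρ i₀) (x (e i₀)), fun v w => ?_, basis_lim e fun i => ?_,
    ⟨_, ρ0 i₀, a1, P1 _ _, a0 _⟩, sub_eq_zero.1 (Z _ (ρ0 i₀).le _
      (sub_mem ⟨_, ρ1 i₀, rfl⟩ (A _ (ρ0 i₀).le _ (P1 _ _))) ?_)⟩
  · refine sub_eq_zero.1 (basis_mem e ⊥ (u.comp (br.flip w) - (br.flip (u w)).comp u)
      (fun i => ?_) v)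
    exact basis_mem e ⊥ (u.comp (br (e i)) - (br (u (e i))).comp u)
      (fun j => sub_eq_zero.2 (au i j)) w
  · have c : Commute b' b := e2.trans e1.symm
    have s0 := (ρ0 i).trans (σ1 _)
    obtain ⟨t, t1, ht⟩ := slack (x := (σ (ρ i))⁻¹ * ρ i)
      ((inv_mul_lt_iff₀ s0).2 (by simpa using σ1 _))
    have t0 : 0 ≤ t := zero_le_one.trans t1.le
    obtain ⟨C, hC⟩ := Fle_unif b' (inv_pos.2 s0).le t1
    obtain ⟨D, hD⟩ := ρ1 i t t1
    rw [← tendsto_sub_nhds_zero_iff]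
    refine squeeze_zero_norm (a := fun n => |C| * ‖u - 1‖ * D * (t * t * ((σ (ρ i))⁻¹ * ρ i)) ^ n)
      (fun n => ?_) ?_
    · have := hC _ (G _ (ρ0 i).le _ (B _ (ρ0 i) _ (Fle_comm (c.pow_right n) (ρ2 i)))) n
      rw [map_sub, ← mul_apply_eq_comp (b' ^ n) (b ^ n), ← c.mul_pow, e2, one_pow] at this
      refine this.trans ?_
      calc _ ≤ |C| * (t * (σ (ρ i))⁻¹) ^ n * (‖u - 1‖ * (D * (t * ρ i) ^ n)) := by
            gcongr
            exacts [le_abs_self C, ((u - 1).le_opNorm _).trans (by gcongr; exact hD n)]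
        _ = _ := by ring
    · simpa using (tendsto_pow_atTop_nhds_zero_of_lt_one (mul_nonneg (mul_self_nonneg t)
        (mul_pos (inv_pos.2 s0) (ρ0 i)).le) ht).const_mul (|C| * ‖u - 1‖ * D)
  · have := B _ (ρ0 i₀) _ (a0 (π (ρ i₀) (x (e i₀))))
    rw [map_sub, pp, sub_eq_zero] at this
    rw [map_sub, this, sub_self]

end Pool.Agent.Lib.MP_60cbcc_al.H3Z
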