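import Pool.Agent.Lib.MP_60cbcc_al.H3ZLieD

/-!
Groups generated by the exponentials of the nilpotent elements of a simple Lie algebra:
polynomial functions, simplicity.
-/

namespace Pool.Agent.Lib.MP_60cbcc_al.H3Z

open Filter Topology
open scoped commutatorElement

set_option linter.unusedSectionVars false

variable {k W : Type} [NontriviallyNormedField k] [NormedAddCommGroup W] [NormedSpace k W]

/-- Polynomial functions. -/
def PS (k : Type) [Field k] : Subalgebra k (k → k) where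
  carrier := {f | ∃ P : Polynomial k, ∀ t, f t = P.eval t}
  mul_mem' := fun ⟨P, hP⟩ ⟨R, hR⟩ => ⟨P * R, fun t => by simp [hP, hR]⟩
  add_mem' := fun ⟨P, hP⟩ ⟨R, hR⟩ => ⟨P + R, fun t => by simp [hP, hR]⟩
  algebraMap_mem' c := ⟨Polynomial.C c, fun t => by simp⟩

theorem PS_zero {f : k → k} (hf : f ∈ PS k) (h : {t | f t = 0}.Infinite) (t : k) : f t = 0 := by
  obtain ⟨P, hP⟩ := hf
  rw [hP, P.eq_zero_of_infinite_isRoot (by simpa [hP] using h), Polynomial.eval_zero]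

/-- Polynomial curves of operators. -/
def PE (c : k → W →L[k] W) : Prop := ∀ l : (W →L[k] W) →ₗ[k] k, (fun t => l (c t)) ∈ PS k

theorem PE.const (a : W →L[k] W) : PE fun _ : k => a := fun l => (PS k).algebraMap_mem (l a)

theorem PE.add {c d : k → W →L[k] W} (hc : PE c) (hd : PE d) : PE fun t => c t + d t := fun l => by
  simp only [map_add]
  exact add_mem (hc l) (hd l)

theorem PE.xp (m : ℕ) (A : W →L[k] W) : PE fun t : k => xp m (t • A) := fun l => by
  refine ⟨∑ j ∈ Finset.range m, Polynomial.C ((j.factorial : k)⁻¹ * l (A ^ j)) *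
    Polynomial.X ^ j, fun t => ?_⟩
  simp only [H3Z.xp, smul_pow, map_sum, map_smul, Polynomial.eval_finsetSum, smul_eq_mul,
    Polynomial.eval_mul, Polynomial.eval_C, Polynomial.eval_pow, Polynomial.eval_X]
  exact Finset.sum_congr rfl fun _ _ => by ring

variable [CompleteSpace k] [FiniteDimensional k W]

theorem PE.mul {c d : k → W →L[k] W} (hc : PE c) (hd : PE d) : PE fun t => c t * d t := fun l => by
  let e := Module.finBasis k (W →L[k] W)
  have : (fun t => l (c t * d t)) = ∑ i, (fun t => e.coord i (c t)) *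
      fun t => (l ∘ₗ LinearMap.mulLeft k (e i)) (d t) := by
    funext t
    conv_lhs => rw [← e.sum_repr (c t), Finset.sum_mul, map_sum]
    simp
  rw [this]
  exact sum_mem fun i _ => mul_mem (hc _) (hd _)

theorem PE.det {c : k → W →L[k] W} (hc : PE c) :
    (fun t => LinearMap.det (c t).toLinearMap) ∈ PS k := by
  let e := Module.finBasis k W
  have : (fun t => LinearMap.det (c t).toLinearMap) = ∑ σ : Equiv.Perm _, Equiv.Perm.sign σ •
      ∏ i, fun t => (e.coord (σ i) ∘ₗ (ContinuousLinearMap.apply k W (e i)).toLinearMap) (c t) := by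
    funext t
    rw [← LinearMap.det_toMatrix e, Matrix.det_apply]
    simp [LinearMap.toMatrix_apply]
  rw [this]
  exact sum_mem fun σ _ => zsmul_mem (prod_mem fun i _ => hc _) _

/-- A group generated by the exponentials of the nilpotent elements. -/
structure Dat (br : W →L[k] W →L[k] W) (Q : Type) [Group Q] [TopologicalSpace Q] where
  Ad : Q →* (W →L[k] W)
  ex : W → Q
  m : ℕ
  hm : 3 ≤ m
  aut : ∀ g, IsAut br (Ad g)
  ex_add : ∀ X, IsNilpotent (br X) → ∀ s t : k, ex ((s + t) • X) = ex (s • X) * ex (t • X)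
  ex_conj : ∀ X, IsNilpotent (br X) → ∀ g, g * ex X * g⁻¹ = ex (Ad g X)
  Ad_ex : ∀ X, IsNilpotent (br X) → Ad (ex X) = xp m (br X)
  gen : Subgroup.closure (ex '' {X | IsNilpotent (br X)}) = ⊤
  ker : ∀ g, Ad g = 1 → g ∈ Subgroup.center Q
  cont : ContinuousOn ex {X | IsNilpotent (br X)}
  ne : ∃ X ≠ 0, IsNilpotent (br X)

variable {br : W →L[k] W →L[k] W} {Q : Type} [Group Q] [TopologicalSpace Q]

theorem nil_smul {X : W} (h : IsNilpotent (br X)) (t : k) : IsNilpotent (br (t • X)) :=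
  map_smul br t X ▸ h.smul t

namespace Dat

variable (D : Dat br Q)

theorem Ad_inv (g : Q) : D.Ad g * D.Ad g⁻¹ = 1 := by rw [← map_mul, mul_inv_cancel, map_one]

theorem inv_Ad (g : Q) : D.Ad g⁻¹ * D.Ad g = 1 := by rw [← map_mul, inv_mul_cancel, map_one]

theorem Ad_br (g : Q) (X : W) : br (D.Ad g X) = D.Ad g * br X * D.Ad g⁻¹ :=
  (D.aut g).ad (D.Ad_inv g) X

theorem nil_Ad {X : W} (h : IsNilpotent (br X)) (g : Q) : IsNilpotent (br (D.Ad g X)) := by
  obtain ⟨n, hn⟩ := h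
  refine ⟨n, ?_⟩
  rw [Ad_br, show D.Ad g * br X * D.Ad g⁻¹ = D.Ad.toHomUnits g * br X * (D.Ad.toHomUnits g)⁻¹ from
    rfl, Units.conj_pow, hn, mul_zero, zero_mul]

theorem ex_zero : D.ex 0 = 1 := by simpa using D.ex_add 0 (by simp) 0 0

theorem ex_neg {X : W} (h : IsNilpotent (br X)) : D.ex (-X) = (D.ex X)⁻¹ :=
  eq_inv_of_mul_eq_one_left (by simpa [D.ex_zero] using (D.ex_add X h (-1) 1).symm)

theorem Ad_smul {X : W} (h : IsNilpotent (br X)) (t : k) :
    D.Ad (D.ex (t • X)) = xp D.m (t • br X) := by rw [D.Ad_ex _ (nil_smul h t), map_smul]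

theorem ex_lim {Y : ℕ → W} (h : ∀ n, IsNilpotent (br (Y n))) (h0 : Tendsto Y atTop (𝓝 0)) :
    Tendsto (fun n => D.ex (Y n)) atTop (𝓝 1) :=
  D.ex_zero ▸ (D.cont 0 (by simp)).tendsto.comp
    (tendsto_nhdsWithin_iff.2 ⟨h0, Eventually.of_forall h⟩)

theorem ex_cont {X : W} (h : IsNilpotent (br X)) : Continuous fun t : k => D.ex (t • X) :=
  D.cont.comp_continuous (by fun_prop) (nil_smul h)

/-- Functions that are polynomial along the one-parameter groups. -/
def Pol (f : Q → k) : Prop :=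
  ∀ a c X, IsNilpotent (br X) → (fun t : k => f (a * D.ex (t • X) * c)) ∈ PS k

theorem PE_Ad (a c : Q) {X : W} (h : IsNilpotent (br X)) :
    PE fun t : k => D.Ad (a * D.ex (t • X) * c) := by
  simp only [map_mul, D.Ad_smul h]
  exact ((PE.const _).mul (PE.xp _ _)).mul (PE.const _)

theorem PE_inv (a c : Q) {X : W} (h : IsNilpotent (br X)) :
    PE fun t : k => D.Ad (a * D.ex (t • X) * c)⁻¹ := by
  simpa [D.ex_neg (nil_smul h _), mul_assoc] using
    D.PE_Ad c⁻¹ a⁻¹ (X := -X) (by simpa using h.neg)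

theorem vanish {O : Set Q} (h1 : 1 ∈ O)
    (hO : ∀ g ∈ O, ∀ X, IsNilpotent (br X) → {t : k | g * D.ex (t • X) ∈ O}.Infinite)
    {f : Q → k} (hf : D.Pol f) (h : ∀ g ∈ O, f g = 0) (g : Q) : f g = 0 := by
  have : ∀ x ∈ O, f (x * g) = 0 := by
    have hg : g ∈ Subgroup.closure (D.ex '' {X | IsNilpotent (br X)}) := D.gen ▸ Subgroup.mem_top g
    have key : ∀ X, IsNilpotent (br X) → ∀ y, (∀ x ∈ O, f (x * y) = 0) →
        ∀ x ∈ O, f (x * (D.ex X * y)) = 0 := fun X hX y ih x hx => by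
      simpa [mul_assoc] using PS_zero (hf x y X hX) ((hO x hx X hX).mono fun t ht => ih _ ht) 1
    induction hg using Subgroup.closure_induction_left with
    | one => simpa using h
    | mul_left x hx y _ ih =>
      obtain ⟨X, hX, rfl⟩ := hx
      exact key X hX y ih
    | inv_mul_cancel x hx y _ ih =>
      obtain ⟨X, hX, rfl⟩ := hx
      exact D.ex_neg hX ▸ key (-X) (by simpa using IsNilpotent.neg hX) y ih
  simpa using this 1 h1

theorem hyp_of_eig {a : Q} {X : W} {l : k} (h : D.Ad a X = l • X) (l0 : l ≠ 0) (l1 : ‖l‖ ≠ 1) :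
    X ∈ Hyp (D.Ad a) (D.Ad a⁻¹) := by
  have : ∀ {b : W →L[k] W} {l : k}, b X = l • X → X ∈ Fle b ‖l‖ := fun {b l} h t ht =>
    ⟨‖X‖, fun n => by
      have : (b ^ n) X = l ^ n • X := by
        induction n with
        | zero => simp
        | succ n ih => rw [pow_succ', mul_apply_eq_comp, ih, map_smul, h, smul_smul, pow_succ]
      rw [this, norm_smul, norm_pow, mul_comm]
      gcongr
      exact le_mul_of_one_le_left (norm_nonneg _) ht.le⟩
  refine ⟨‖l‖, norm_pos_iff.2 l0, l1, this h, norm_inv l ▸ this ?_⟩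
  rw [eq_inv_smul_iff₀ l0, ← map_smul, ← h, ← mul_apply_eq_comp, D.inv_Ad, one_apply_eq_self]

/-- The image of a subgroup. -/
def AdS (H : Subgroup Q) : Submonoid (W →L[k] W) := H.toSubmonoid.map D.Ad

/-- The saturation of a subgroup. -/
def sat (H : Subgroup Q) : Subgroup Q := (H.map D.Ad.toHomUnits).comap D.Ad.toHomUnits

theorem mem_sat {H : Subgroup Q} {g : Q} : g ∈ D.sat H ↔ D.Ad g ∈ D.AdS H := by
  simp [sat, AdS, Units.ext_iff]

theorem AdS_aut (H : Subgroup Q) : ∀ g ∈ D.AdS H, IsAut br g := by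
  rintro _ ⟨g, -, rfl⟩
  exact D.aut g

theorem tan_ex {H : Subgroup Q} {X : W} (h : IsNilpotent (br X)) (hH : ∀ t : k, D.ex (t • X) ∈ H) :
    X ∈ Tan br (D.AdS H) :=
  ⟨fun t => xp D.m (t • br X), fun t => ⟨_, hH t, D.Ad_smul h t⟩, by simp [xp_zero D.hm],
    xp_deriv D.hm _⟩

theorem tan_Ad {H : Subgroup Q} {g : Q} (hg : ∀ h ∈ H, g * h * g⁻¹ ∈ H) {Y : W}
    (hY : Y ∈ Tan br (D.AdS H)) : D.Ad g Y ∈ Tan br (D.AdS H) :=
  Tan_conj (D.aut g) (D.Ad_inv g) (by
    rintro _ ⟨h, hh, rfl⟩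
    exact ⟨_, hg h hh, by simp only [map_mul]⟩) hY

variable [CharZero k]

theorem nil_of_hyp {a : Q} {Y : W} (h : Y ∈ Hyp (D.Ad a) (D.Ad a⁻¹)) : IsNilpotent (br Y) := by
  have : ∀ a, Tendsto (fun n => (D.Ad a ^ n) Y) atTop (𝓝 0) → IsNilpotent (br Y) := fun a h =>
    nil_of_lim (g := fun n => D.Ad (a ^ n)) (fun _ => D.aut _) (fun _ => D.Ad_inv _)
      (fun _ => D.inv_Ad _) (by simpa only [map_pow] using h)
  exact (Hyp_lim h).elim (this _) (this _)

variable (L : SLie br)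
include D L

theorem torus {X : W} (hX : IsNilpotent (br X)) : ∃ (a : Q) (l : k), 1 < ‖l‖ ∧ D.Ad a X = l • X := by
  obtain ⟨h, f, h1, h2, h3⟩ := L.jm hX
  have hf := L.nil_of_eig (by norm_num) h2
  have e1 : br f X = -h := by rw [L.anti, h3]
  have e2 : br f h = (2 : k) • f := by rw [L.anti, h2]; simp
  have e3 : br X h = (-2 : k) • X := by rw [L.anti, h1]; simp
  have : ∀ t : k, t ≠ 0 → D.Ad (D.ex (t • X) * D.ex ((-t⁻¹) • f)) X = (-(t⁻¹ ^ 2)) • f := by
    intro t ht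
    rw [map_mul, mul_apply_eq_comp, D.Ad_smul hX, D.Ad_smul hf,
      xp_apply D.hm (v := X) (by simp [e1, e2, L.self]),
      xp_apply D.hm (by simp [e1, e2, e3, h3, L.self])]
    simp only [smul_apply, map_smul, map_add, map_neg, e1, e2, e3, h3, L.self, map_zero]
    match_scalars <;> field_simp <;> ring
  obtain ⟨t, ht⟩ := NormedField.exists_one_lt_norm k
  have t0 : t ≠ 0 := norm_pos_iff.1 (one_pos.trans ht)
  refine ⟨(D.ex (t • X) * D.ex ((-t⁻¹) • f))⁻¹ * (D.ex ((1 : k) • X) * D.ex ((-(1 : k)⁻¹) • f)),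
    t ^ 2, by rw [norm_pow]; nlinarith, ?_⟩
  rw [map_mul, mul_apply_eq_comp, this 1 one_ne_zero, show (-((1 : k)⁻¹ ^ 2)) • f =
    t ^ 2 • (-(t⁻¹ ^ 2)) • f by rw [smul_smul]; congr 1; field_simp, ← this t t0, map_smul,
    ← mul_apply_eq_comp, D.inv_Ad, one_apply_eq_self]

theorem perf : commutator Q = ⊤ := by
  refine eq_top_iff.2 (D.gen.ge.trans ((Subgroup.closure_le _).2 ?_))
  rintro _ ⟨X, hX, rfl⟩
  obtain ⟨a, l, l1, h⟩ := D.torus L hX
  have l0 : l - 1 ≠ 0 := sub_ne_zero.2 fun c => by simp [c] at l1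
  have := Subgroup.commutator_mem_commutator (Subgroup.mem_top a)
    (Subgroup.mem_top (D.ex ((l - 1)⁻¹ • X)))
  rwa [commutatorElement_def, D.ex_conj _ (nil_smul hX _), ← D.ex_neg (nil_smul hX _), map_smul, h,
    smul_smul, ← neg_smul, ← D.ex_add X hX, show (l - 1)⁻¹ * l + -(l - 1)⁻¹ = 1 by field_simp; ring,
    one_smul] at this

theorem of_sat {H : Subgroup Q} (h : D.sat H = ⊤) : H = ⊤ := by
  refine eq_top_iff.2 ((D.perf L).ge.trans (Subgroup.commutator_le.2 fun x _ y _ => ?_))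
  have : ∀ x, ∃ z ∈ Subgroup.center Q, ∃ g ∈ H, x = z * g := fun x => by
    obtain ⟨g, hg, e⟩ := D.mem_sat.1 (h ▸ Subgroup.mem_top x)
    exact ⟨x * g⁻¹, D.ker _ (by rw [map_mul, ← e, D.Ad_inv]), g, hg, by simp⟩
  obtain ⟨z, hz, g, hg, rfl⟩ := this x
  obtain ⟨w, hw, g', hg', rfl⟩ := this y
  have : ⁅z * g, w * g'⁆ = ⁅g, g'⁆ := by
    have a := Subgroup.mem_center_iff.1 hz
    have b := Subgroup.mem_center_iff.1 hw
    calc _ = z * (g * (w * g') * g⁻¹) * z⁻¹ * (w * g')⁻¹ := by group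
      _ = g * w * g' * g⁻¹ * g'⁻¹ * w⁻¹ := by rw [← a]; group
      _ = w * (g * g' * g⁻¹ * g'⁻¹) * w⁻¹ := by rw [b]; group
      _ = _ := by rw [← b]; group
  rw [this]
  exact mul_mem (mul_mem (mul_mem hg hg') (inv_mem hg)) (inv_mem hg')

theorem not_central {X : W} (hX : IsNilpotent (br X)) (h0 : X ≠ 0) :
    D.ex X ∉ Subgroup.center Q := fun c => by
  obtain ⟨a, l, l1, h⟩ := D.torus L hX
  have l0 : l - 1 ≠ 0 := sub_ne_zero.2 fun c => by simp [c] at l1
  have h1 := D.ex_conj X hX a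
  rw [Subgroup.mem_center_iff.1 c, mul_inv_cancel_right, h] at h1
  have h2 := D.ex_add X hX (l - 1) 1
  rw [sub_add_cancel, one_smul, ← h1, right_eq_mul] at h2
  have h3 := D.Ad_ex _ (nil_smul hX (l - 1))
  rw [h2, map_one] at h3
  exact h0 ((smul_eq_zero_iff_right l0).1 (L.inj (xp_inj D.hm (nil_smul hX _) h3.symm)))

variable [Fact (Ext k)]

theorem irr_of {a : Q} (hne : ∃ Y ∈ Hyp (D.Ad a) (D.Ad a⁻¹), Y ≠ 0) (S : Submodule k W)
    (hS : ∀ Y ∈ Hyp (D.Ad a) (D.Ad a⁻¹), ∀ v ∈ S, D.Ad (D.ex Y) v ∈ S) : S = ⊥ ∨ S = ⊤ :=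
  L.ideal_of_hyp (D.Ad_inv a) (D.inv_Ad a) (D.aut _) (D.aut _) hne S fun _ hY v hv =>
    xp_stab D.hm fun t => D.Ad_smul (D.nil_of_hyp hY) t ▸ hS _ (Hyp_smul hY t) v hv

theorem irr (S : Submodule k W) (hS : ∀ g, ∀ v ∈ S, D.Ad g v ∈ S) : S = ⊥ ∨ S = ⊤ := by
  obtain ⟨X, X0, hX⟩ := D.ne
  obtain ⟨a, l, l1, h⟩ := D.torus L hX
  exact D.irr_of L ⟨X, D.hyp_of_eig h (norm_pos_iff.1 (one_pos.trans l1)) l1.ne', X0⟩ S
    fun _ _ => hS _

theorem span_nil : Submodule.span k {X : W | IsNilpotent (br X)} = ⊤ := by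
  obtain ⟨X, X0, hX⟩ := D.ne
  refine (D.irr L _ fun g v hv => ?_).resolve_left fun c =>
    X0 ((Submodule.eq_bot_iff _).1 c X (Submodule.subset_span hX))
  exact (Submodule.span_le (p := Submodule.comap (D.Ad g).toLinearMap
    (Submodule.span k {X : W | IsNilpotent (br X)}))).2
    (fun Y hY => Submodule.subset_span (D.nil_Ad hY g)) hv

theorem shrink {X : W} (hX : IsNilpotent (br X)) :
    ∃ a : Q, Tendsto (fun n : ℕ => D.Ad (a ^ n) X) atTop (𝓝 0) := by
  obtain ⟨a, l, l1, h⟩ := D.torus L hX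
  simpa only [map_pow] using (Hyp_lim (D.hyp_of_eig h (norm_pos_iff.1 (one_pos.trans l1))
    l1.ne')).elim (fun h => ⟨a, h⟩) fun h => ⟨a⁻¹, h⟩

theorem near {H : Subgroup Q} (hT : Tan br (D.AdS H) = ⊤) {α : Type} {l : Filter α} {Y : α → W}
    (h : ∀ n, IsNilpotent (br (Y n))) (h0 : Tendsto Y l (𝓝 0)) :
    ∀ᶠ n in l, D.ex (Y n) ∈ D.sat H := by
  have := ((xp_cont D.m).comp br.continuous).continuousAt.tendsto.comp h0
  simp only [Function.comp_def, map_zero, xp_zero D.hm] at this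
  filter_upwards [this.eventually (L.open_of_tan (D.AdS_aut H) hT)] with n hn
  rw [← D.Ad_ex _ (h n)] at hn
  exact D.mem_sat.2 (hn (D.aut _))

theorem qs (K : Subgroup Q) [hK : K.Normal] {n : Q} (hn : n ∈ K) (h : n ∉ Subgroup.center Q) :
    K = ⊤ := by
  have hT : Tan br (D.AdS K) = ⊤ := by
    refine (D.irr L _ fun g v hv => D.tan_Ad (fun h hh => hK.conj_mem h hh g) hv).resolve_left
      fun c => h (D.ker n (ContinuousLinearMap.coe_injective (LinearMap.ext_on (D.span_nil L)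
        fun X hX => sub_eq_zero.1 ((Submodule.eq_bot_iff _).1 c _ ?_))))
    refine ⟨fun t => xp D.m (t • br (D.Ad n X)) * xp D.m (t • br (-X)), fun t => ?_,
      by simp [xp_zero D.hm], by
        simpa [xp_zero D.hm, sub_eq_add_neg] using
          (xp_deriv D.hm (br (D.Ad n X))).fun_mul (xp_deriv D.hm (br (-X)))⟩
    refine ⟨n * (D.ex (t • X) * n⁻¹ * (D.ex (t • X))⁻¹), mul_mem hn (hK.conj_mem _ (inv_mem hn) _), ?_⟩
    rw [← mul_assoc, ← mul_assoc, D.ex_conj _ (nil_smul hX t), ← D.ex_neg (nil_smul hX t), map_smul,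
      map_mul, D.Ad_smul (D.nil_Ad hX n), ← smul_neg,
      D.Ad_smul (by simpa using IsNilpotent.neg hX)]
  refine D.of_sat L (eq_top_iff.2 (D.gen.ge.trans ((Subgroup.closure_le _).2 ?_)))
  rintro _ ⟨X, hX, rfl⟩
  obtain ⟨a, ha⟩ := D.shrink L hX
  obtain ⟨j, hj⟩ := (D.near L hT (fun _ => D.nil_Ad hX _) ha).exists
  obtain ⟨g, hg, e⟩ := D.mem_sat.1 hj
  refine D.mem_sat.2 ⟨_, hK.conj_mem g hg (a ^ j)⁻¹, ?_⟩
  rw [map_mul, map_mul, e, ← D.ex_conj X hX, ← map_mul, ← map_mul]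
  congr 1
  group

end Dat

end Pool.Agent.Lib.MP_60cbcc_al.H3Z
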