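import Pool.Agent.Lib.MP_60cbcc_al.H3ZLieE
import Pool.Agent.Lib.MP_60cbcc_al.H3ZClass

/-!
Groups generated by the exponentials of the nilpotent elements of a simple Lie algebra are rigid.
-/

namespace Pool.Agent.Lib.MP_60cbcc_al.H3Z.Dat

open Filter Topology

set_option linter.unusedSectionVars false

variable {k W : Type} [NontriviallyNormedField k] [NormedAddCommGroup W] [NormedSpace k W]
  [CompleteSpace k] [FiniteDimensional k W] {br : W →L[k] W →L[k] W} {Q : Type} [Group Q]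
  [TopologicalSpace Q] [CharZero k] [Fact (Ext k)] (D : Dat br Q) (L : SLie br)

include D L

theorem pt' {H : Subgroup Q} {b : Q} (hb : b ∈ H) {r : ℝ} (r0 : 0 < r) (r1 : r < 1) {Y : W}
    (Y0 : Y ≠ 0) (hY : Y ∈ Gr (D.Ad b) (D.Ad b⁻¹) r)
    (hH : ∀ Y ∈ Hyp (D.Ad b) (D.Ad b⁻¹), D.ex Y ∈ H) : H = ⊤ := by
  have Y1 : Y ∈ Hyp (D.Ad b) (D.Ad b⁻¹) := ⟨r, r0, r1.ne, hY⟩
  have hT : Tan br (D.AdS H) = ⊤ :=
    (D.irr_of L ⟨Y, Y1, Y0⟩ _ fun Z hZ v hv => D.tan_Ad
      (fun h hh => mul_mem (mul_mem (hH Z hZ) hh) (inv_mem (hH Z hZ))) hv).resolve_left fun c =>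
      Y0 ((Submodule.eq_bot_iff _).1 c _
        (D.tan_ex (D.nil_of_hyp Y1) fun t => hH _ (Hyp_smul Y1 t)))
  obtain ⟨X, ι, _, π, X0, hX, hπ, hc⟩ :=
    big_cell (D.Ad_inv b) (D.inv_Ad b) (D.aut _) (D.aut _) r0.le r1 Y0 hY.1
  have nX := D.nil_of_hyp hX
  have key : ∀ x, x * D.ex X * x⁻¹ ∈ D.sat H := fun x => by
    obtain ⟨h, hh, h1⟩ : ∃ h ∈ D.sat H, ∏ i,
        LinearMap.det (π i * D.Ad (h * x) * π i + (1 - π i)).toLinearMap ≠ 0 := by
      by_contra! c
      have := D.vanish (one_mem (D.sat H)) (fun g hg Z hZ => infinite_of_mem_nhds 0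
        ((D.near L hT (nil_smul hZ) (l := 𝓝 0) (Continuous.tendsto' (by fun_prop) _ _
          (zero_smul _ _))).mono fun t ht => mul_mem hg ht)) (fun a c Z hZ => ?_) c x⁻¹
      · simp [hπ] at this
      · have := prod_mem (S := PS k) (t := Finset.univ) fun i _ => ((((PE.const (π i)).mul
          (D.PE_Ad a (c * x) hZ)).mul (PE.const (π i))).add (PE.const (1 - π i))).det
        rw [Finset.prod_fn] at this
        simpa only [mul_assoc] using this
    obtain ⟨u, X', u1, u2, u3, u4⟩ := hc _ (D.aut _) fun i =>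
      Finset.prod_ne_zero_iff.1 h1 i (Finset.mem_univ i)
    obtain ⟨n, hn⟩ := (u2.eventually (L.open_of_tan (D.AdS_aut H) hT)).exists
    rw [← map_pow, ← map_pow] at hn
    obtain ⟨g, hg, e⟩ := hn fun v w => by
      simp only [mul_apply_eq_comp, D.aut _ _ _, u1 _ _]
    have e' : D.Ad (b ^ n * g * b⁻¹ ^ n) = u := by
      rw [map_mul, map_mul, e, inv_pow, ← mul_assoc, ← mul_assoc, D.Ad_inv, one_mul, mul_assoc,
        D.Ad_inv, mul_one]
    have h2 : b ^ n * g * b⁻¹ ^ n ∈ H := mul_mem (mul_mem (pow_mem hb n) hg) (pow_mem (inv_mem hb) n)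
    have h3 := mul_mem (mul_mem h2 (hH _ u3)) (inv_mem h2)
    rw [D.ex_conj _ (D.nil_of_hyp u3), e', ← u4, ← D.ex_conj _ nX] at h3
    have h4 := mul_mem (mul_mem (inv_mem hh) (D.mem_sat.2 ⟨_, h3, rfl⟩)) hh
    simpa [mul_assoc] using h4
  exact D.of_sat L (eq_top_iff.2 ((D.qs L (D.sat H).normalCore key (D.not_central L nX X0)).ge.trans
    (Subgroup.normalCore_le _)))

theorem pt {H : Subgroup Q} {b : Q} (hb : b ∈ H) (hne : ∃ Y ∈ Hyp (D.Ad b) (D.Ad b⁻¹), Y ≠ 0)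
    (hH : ∀ Y ∈ Hyp (D.Ad b) (D.Ad b⁻¹), D.ex Y ∈ H) : H = ⊤ := by
  obtain ⟨Y, ⟨r, r0, r1, hY⟩, Y0⟩ := hne
  rcases r1.lt_or_gt with c | c
  · exact D.pt' L hb r0 c Y0 hY hH
  · exact D.pt' L (inv_mem hb) (inv_pos.2 r0) (inv_lt_one_of_one_lt₀ c) Y0
      ⟨hY.2, by simpa using hY.1⟩ fun Z hZ => hH Z (by simpa using Hyp_symm hZ)

theorem form {x : W →L[k] W} (hx : x ∈ Algebra.adjoin k (Set.range D.Ad)) (x0 : x ≠ 0) :
    ∃ y ∈ Algebra.adjoin k (Set.range D.Ad), tr (y * x) ≠ 0 := by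
  by_contra! c
  obtain ⟨v, hv⟩ : ∃ v, x v ≠ 0 := not_forall.1 fun h => x0 (ContinuousLinearMap.ext h)
  have := (D.irr L ((Algebra.adjoin k (Set.range D.Ad)).toSubmodule.map
    (ContinuousLinearMap.apply k W (x v)).toLinearMap) (by
      rintro g _ ⟨y, hy, rfl⟩
      exact ⟨D.Ad g * y, Subalgebra.mul_mem _ (Algebra.subset_adjoin ⟨g, rfl⟩) hy, rfl⟩)).resolve_left
    fun c => hv ((Submodule.eq_bot_iff _).1 c _ ⟨1, Subalgebra.one_mem _, rfl⟩)
  obtain ⟨y, hy, e⟩ := this.ge (Submodule.mem_top (x := v))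
  obtain ⟨n, hn⟩ := nil_of_tr (a := y * x) fun m => by
    rw [pow_succ, ← mul_assoc]
    exact c _ (Subalgebra.mul_mem _ (pow_mem (Subalgebra.mul_mem _ hy hx) m) hy)
  have : ∀ m, ((y * x) ^ m) v = v := fun m => by
    induction m with
    | zero => rfl
    | succ m ih => rw [pow_succ, mul_apply_eq_comp, show (y * x) v = v from e, ih]
  exact hv (by rw [← this n, hn]; simp)

theorem nfi (N : Subgroup Q) [N.FiniteIndex] : N = ⊤ := by
  refine eq_top_iff.2 (D.gen.ge.trans ((Subgroup.closure_le _).2 ?_))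
  rintro _ ⟨X, hX, rfl⟩
  have : ∀ (t : k) (n : ℕ), D.ex (t • X) ^ n = D.ex ((n * t) • X) := fun t n => by
    induction n with
    | zero => simp [D.ex_zero]
    | succ n ih => rw [pow_succ, ih, ← D.ex_add X hX, Nat.cast_succ, add_one_mul]
  have h := N.normalCore.pow_index_mem (D.ex (((N.normalCore.index : k))⁻¹ • X))
  rw [this, mul_inv_cancel₀ (Nat.cast_ne_zero.2 Subgroup.FiniteIndex.index_ne_zero), one_smul] at h
  exact N.normalCore_le h

theorem nd : ¬ DiscreteTopology Q := fun _ => by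
  obtain ⟨X, X0, hX⟩ := D.ne
  have h := (D.ex_cont hX).continuousAt (x := 0)
  rw [ContinuousAt, nhds_discrete Q, tendsto_pure, zero_smul, D.ex_zero] at h
  obtain ⟨t, t0, ht⟩ := (eventually_mem_nhdsWithin.and
    (h.filter_mono (nhdsWithin_le_nhds (s := {0}ᶜ)))).exists
  exact D.not_central L (nil_smul hX t) (smul_ne_zero t0 X0) (ht ▸ one_mem _)

theorem cg [ProperSpace k] : ∃ S : Set Q, IsCompact S ∧ Subgroup.closure S = ⊤ := by
  obtain ⟨d, e, he⟩ := basis_in (D.span_nil L)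
  choose c l l1 hc using fun i => D.torus L (he i)
  obtain ⟨X, X0, hX⟩ := D.ne
  obtain ⟨b, s, s1, hb⟩ := D.torus L hX
  refine ⟨insert b (⋃ i, insert (c i) ((fun t : k => D.ex (t • e i)) '' Metric.closedBall 0 1)),
    (isCompact_iUnion fun i => ((isCompact_closedBall _ _).image (D.ex_cont (he i))).insert _).insert _,
    ?_⟩
  generalize hH : Subgroup.closure (G := Q) _ = H
  have h0 : ∀ x ∈ _, x ∈ H := hH ▸ Subgroup.subset_closure
  have hT : Tan br (D.AdS H) = ⊤ := eq_top_iff.2 (e.span_eq.ge.trans (Submodule.span_le.2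
    (Set.range_subset_iff.2 fun i => D.tan_ex (he i) fun t => by
      obtain ⟨n, hn⟩ := pow_unbounded_of_one_lt ‖t‖ (l1 i)
      have l0 : 0 < ‖l i‖ := one_pos.trans (l1 i)
      have h1 := pow_mem (h0 _ (Or.inr (Set.mem_iUnion.2 ⟨i, Or.inl rfl⟩))) n
      have h2 := h0 _ (Or.inr (Set.mem_iUnion.2 ⟨i, Or.inr ⟨t / l i ^ n, by
        rw [mem_closedBall_zero_iff, norm_div, norm_pow]
        exact (div_le_one (pow_pos l0 n)).2 hn.le, rfl⟩⟩))
      have h3 := mul_mem (mul_mem h1 h2) (inv_mem h1)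
      have h4 : ∀ n, D.Ad (c i ^ n) (e i) = l i ^ n • e i := fun n => by
        induction n with
        | zero => simp
        | succ n ih => rw [pow_succ', map_mul, mul_apply_eq_comp, ih, map_smul, hc, smul_smul,
            pow_succ]
      rwa [D.ex_conj _ (nil_smul (he i) _), map_smul, h4, smul_smul,
        div_mul_cancel₀ _ (pow_ne_zero n (norm_pos_iff.1 l0))] at h3)))
  have b0 : b ∈ D.sat H := D.mem_sat.2 ⟨b, h0 _ (Or.inl rfl), rfl⟩
  refine D.of_sat L (D.pt L b0 ⟨X, D.hyp_of_eig hb (norm_pos_iff.1 (one_pos.trans s1)) s1.ne', X0⟩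
    fun Y hY => ?_)
  have : ∀ x ∈ D.sat H, Tendsto (fun n => (D.Ad x ^ n) Y) atTop (𝓝 0) → D.ex Y ∈ D.sat H :=
    fun x hx h => by
      simp only [← map_pow] at h
      obtain ⟨n, hn⟩ := (D.near L hT (fun _ => D.nil_Ad (D.nil_of_hyp hY) _) h).exists
      rw [← D.ex_conj _ (D.nil_of_hyp hY)] at hn
      simpa [mul_assoc] using mul_mem (mul_mem (inv_mem (pow_mem hx n)) hn) (pow_mem hx n)
  exact (Hyp_lim hY).elim (this _ b0) (this _ (inv_mem b0))

theorem mau_one {b : Q} (h : (Module.finrank k W : ℝ) < ‖tr (D.Ad b)‖) : Mau {b} := by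
  intro φ hc h1 hi hm hb
  have h0 : ∀ g, 0 ≤ φ g := fun g => by
    have := hm g g⁻¹
    rw [mul_inv_cancel, h1, hi] at this
    linarith
  let H : Subgroup Q :=
    { carrier := {g | φ g = 0}
      one_mem' := h1
      mul_mem' := fun {x y} (hx : φ x = 0) (hy : φ y = 0) =>
        le_antisymm (by linarith [hm x y]) (h0 _)
      inv_mem' := fun {x} (hx : φ x = 0) => (hi x).trans hx }
  have b0 : b ∈ H := hb b rfl
  refine fun g => (D.pt L b0 ?_ fun Y hY => ?_).ge (Subgroup.mem_top g)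
  · by_contra! c
    refine h.not_ge (tr_le (D.Ad_inv b) (D.inv_Ad b) (eq_top_iff.2
      ((Fle_span (D.Ad_inv b) (D.inv_Ad b)).ge.trans (Submodule.span_le.2 ?_))))
    rintro v ⟨r, r0, hv⟩
    rcases eq_or_ne r 1 with rfl | r1
    exacts [hv.1, c v ⟨r, r0, r1, hv⟩ ▸ zero_mem _]
  have nY := D.nil_of_hyp hY
  have : ∀ x ∈ H, Tendsto (fun n => (D.Ad x ^ n) Y) atTop (𝓝 0) → D.ex Y ∈ H := fun x hx h => by
    simp only [← map_pow] at h
    have h2 := (hc.tendsto 1).comp (D.ex_lim (fun _ => D.nil_Ad nY _) h)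
    refine le_antisymm (ge_of_tendsto' (h1 ▸ h2) fun n => ?_) (h0 _)
    have h3 : φ (x ^ n) = 0 := pow_mem hx n
    have h4 := hm ((x ^ n)⁻¹ * (x ^ n * D.ex Y * (x ^ n)⁻¹)) (x ^ n)
    have h5 := hm (x ^ n)⁻¹ (x ^ n * D.ex Y * (x ^ n)⁻¹)
    rw [show (x ^ n)⁻¹ * (x ^ n * D.ex Y * (x ^ n)⁻¹) * x ^ n = D.ex Y by group] at h4
    rw [hi] at h5
    rw [Function.comp, ← D.ex_conj _ nY]
    linarith
  exact (Hyp_lim hY).elim (this _ b0) (this _ (inv_mem b0))

variable [IsTopologicalGroup Q]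

theorem dense_conj {g : Q} (hg : g ∉ Subgroup.center Q) {U : Set Q} (hU : U ∈ 𝓝 1) :
    ∃ s : Finset Q, s.card ≤ Module.finrank k (W →L[k] W) ∧ (s : Set Q) ⊆ U ∧
      ∀ q, D.Ad q ∈ Algebra.adjoin k (D.Ad '' ((fun v => v * g * v⁻¹) '' s)) := by
  classical
  obtain ⟨f, f1, f2, -⟩ := Submodule.exists_fun_fin_finrank_span_eq k
    ((fun v => D.Ad (v * g * v⁻¹)) '' interior U)
  choose v v1 v2 using f1
  refine ⟨Finset.univ.image v, Finset.card_image_le.trans (by simpa using Submodule.finrank_le _),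
    by simpa [Set.range_subset_iff] using fun i => interior_subset (v1 i), ?_⟩
  generalize hA : Algebra.adjoin k (A := W →L[k] W) _ = A
  have h1 : ∀ x, D.Ad (x * g * x⁻¹) ∈ A := fun x => by
    by_contra c
    obtain ⟨l, l1, l2⟩ := Submodule.exists_dual_map_eq_bot_of_notMem (p := A.toSubmodule) c
      inferInstance
    refine l1 (D.vanish (f := fun x => l (D.Ad (x * g * x⁻¹))) (mem_interior_iff_mem_nhds.2 hU)
      (fun y hy Z hZ => infinite_of_mem_nhds 0 ((continuous_const.mul (D.ex_cont hZ)).continuousAt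
        (isOpen_interior.mem_nhds (by simpa [D.ex_zero] using hy)))) (fun a c Z hZ => ?_)
      (fun y hy => (Submodule.eq_bot_iff _).1 l2 _ ⟨_, ?_, rfl⟩) x)
    · simp only [map_mul _ (_ * g), map_mul _ _ g]
      exact ((D.PE_Ad a c hZ).mul (PE.const _)).mul (D.PE_inv a c hZ) l
    · refine (Submodule.span_le (p := A.toSubmodule)).2 (Set.range_subset_iff.2 fun i => ?_)
        (f2.ge (Submodule.subset_span ⟨y, hy, rfl⟩))
      exact hA ▸ Algebra.subset_adjoin ⟨_, ⟨v i, by simp, rfl⟩, v2 i⟩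
  let K : Subgroup Q :=
    { carrier := {q | D.Ad q ∈ A}
      one_mem' := by simp
      mul_mem' := fun hx hy => by simpa using mul_mem hx hy
      inv_mem' := fun {x} hx => by
        obtain ⟨z, hz⟩ := (LinearMap.injective_iff_surjective (f := LinearMap.mulLeft k
          (⟨D.Ad x, hx⟩ : A))).1 (fun y z h => Subtype.ext (by
            simpa [← mul_assoc, D.inv_Ad] using congrArg (fun w : A => D.Ad x⁻¹ * w) h)) 1
        have : D.Ad x⁻¹ = z := by
          simpa [← mul_assoc, D.inv_Ad] using (congrArg (fun w : A => D.Ad x⁻¹ * w) hz).symm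
        exact (this ▸ z.2 : D.Ad x⁻¹ ∈ A) }
  exact fun q => K.normalCore_le ((D.qs L K.normalCore h1 hg).ge (Subgroup.mem_top q))

theorem rigid [ProperSpace k] : Rigid Q := by
  refine ⟨D.cg L, fun N _ _ => (em _).imp_right fun h => ?_, by simp [D.perf L],
    fun N _ _ => D.nfi L N, D.nd L,
    fun g hg => ⟨Module.finrank k (W →L[k] W), fun U hU => ?_⟩⟩
  · obtain ⟨n, n1, n2⟩ := SetLike.not_le_iff_exists.1 h
    exact D.qs L N n1 n2
  obtain ⟨s, s1, s2, s3⟩ := D.dense_conj L hg hU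
  refine ⟨s, s1, s2, fun N => ?_⟩
  obtain ⟨X, X0, hX⟩ := D.ne
  obtain ⟨a, l, l1, ha⟩ := D.torus L hX
  have h1 : br X ∈ Algebra.adjoin k (Set.range D.Ad) :=
    deriv_mem (Algebra.adjoin k (Set.range D.Ad)).toSubmodule.closed_of_finiteDimensional
      (fun t => Algebra.subset_adjoin ⟨_, D.Ad_smul hX t⟩) (xp_deriv D.hm _).hasDerivAt
  obtain ⟨y, y1, y2⟩ := D.form L h1 fun c => X0 (L.inj c)
  generalize hF : (fun v => v * g * v⁻¹) '' s = F at s3
  have h2 : ∀ x ∈ Algebra.adjoin k (Set.range D.Ad),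
      x ∈ Submodule.span k (D.Ad '' Subgroup.closure F) := fun x hx => by
    have := Algebra.adjoin_le (Set.range_subset_iff.2 s3) hx
    rw [← Subalgebra.mem_toSubmodule, Algebra.adjoin_eq_span] at this
    refine Submodule.span_mono ((Submonoid.closure_le (S := D.AdS _)).2 ?_) this
    exact Set.image_mono Subgroup.subset_closure
  have h3 : ∀ x ∈ Submodule.span k (D.Ad '' Subgroup.closure F),
      ∀ z ∈ Submodule.span k (D.Ad '' Subgroup.closure F), ∃ C : ℝ, ∀ m : ℕ,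
      (∀ p ∈ Subgroup.closure F, ∀ q ∈ Subgroup.closure F,
        ‖tr (D.Ad (p * (a ^ m * q * (a ^ m)⁻¹)))‖ ≤ Module.finrank k W) →
      ‖tr (x * (D.Ad (a ^ m) * z * D.Ad (a ^ m)⁻¹))‖ ≤ C := fun x hx z hz => by
    induction hx, hz using Submodule.span_induction₂ with
    | mem_mem x z hx hz =>
      obtain ⟨p, hp, rfl⟩ := hx
      obtain ⟨q, hq, rfl⟩ := hz
      exact ⟨_, fun m h => by simpa only [map_mul] using h p hp q hq⟩
    | zero_left => exact ⟨0, by simp⟩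
    | zero_right => exact ⟨0, by simp⟩
    | add_left _ _ _ _ _ _ h1 h2 | add_right _ _ _ _ _ _ h1 h2 =>
      obtain ⟨⟨C, h1⟩, C', h2⟩ := And.intro h1 h2
      exact ⟨C + C', fun m h => by
        simpa only [add_mul, mul_add, map_add] using norm_add_le_of_le (h1 m h) (h2 m h)⟩
    | smul_left c _ _ _ _ h1 | smul_right c _ _ _ _ h1 =>
      obtain ⟨C, h1⟩ := h1
      exact ⟨‖c‖ * C, fun m h => by
        simpa only [smul_mul_assoc, mul_smul_comm, map_smul, norm_smul] using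
          mul_le_mul_of_nonneg_left (h1 m h) (norm_nonneg c)⟩
  obtain ⟨C, hC⟩ := h3 y (h2 y y1) _ (h2 _ h1)
  have h4 : ∀ n, D.Ad (a ^ n) X = l ^ n • X := fun n => by
    induction n with
    | zero => simp
    | succ n ih => rw [pow_succ', map_mul, mul_apply_eq_comp, ih, map_smul, ha, smul_smul, pow_succ]
  simp only [← D.Ad_br, h4, map_smul, mul_smul_comm, norm_smul, norm_pow] at hC
  obtain ⟨m, hm⟩ := eventually_atTop.1 (((tendsto_pow_atTop_atTop_of_one_lt l1).atTop_mul_const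
    (norm_pos_iff.2 y2)).eventually_gt_atTop C)
  have h5 : ∀ (c : Q) (Z : Set Q), (∀ v ∈ s, c * v * g * (c * v)⁻¹ ∈ Z) →
      ∀ p ∈ Subgroup.closure F, c * p * c⁻¹ ∈ Subgroup.closure Z := fun c Z h p hp =>
    (Subgroup.closure_le ((Subgroup.closure Z).comap (MulAut.conj c).toMonoidHom)).2 (by
      rw [← hF]
      rintro _ ⟨v, hv, rfl⟩
      simpa [mul_assoc] using Subgroup.subset_closure (h v hv)) hp
  have h6 : ∀ i j : ℕ, i < j → ∀ Z : Set Q, (∀ v ∈ s, a ^ (i * m) * v * g * (a ^ (i * m) * v)⁻¹ ∈ Z) →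
      (∀ v ∈ s, a ^ (j * m) * v * g * (a ^ (j * m) * v)⁻¹ ∈ Z) → Mau Z := fun i j hij Z hi hj => by
    obtain ⟨n, rfl⟩ := Nat.exists_eq_add_of_lt hij
    have := mt (hC ((n + 1) * m)) (not_le.2 (hm _ (by nlinarith)))
    push Not at this
    obtain ⟨p, hp, q, hq, h⟩ := this
    refine Mau.of_closure (mul_mem (h5 _ Z hi p hp) (h5 _ Z hj q hq)) (Mau.of_conj (a ^ (i * m))
      (by rintro _ rfl; rw [add_assoc, add_mul, pow_add]; exact Set.mem_singleton_iff.2 (by group))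
      (D.mau_one L h))
  refine ⟨fun i => a ^ (i.1 * m), fun i j hij => ?_⟩
  rcases (Fin.val_injective.ne hij).lt_or_gt with c | c
  · exact h6 _ _ c _ (fun v hv => ⟨v, hv, Or.inl rfl⟩) fun v hv => ⟨v, hv, Or.inr rfl⟩
  · exact h6 _ _ c _ (fun v hv => ⟨v, hv, Or.inr rfl⟩) fun v hv => ⟨v, hv, Or.inl rfl⟩

end Pool.Agent.Lib.MP_60cbcc_al.H3Z.Dat
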