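import Pool.Agent.Lib.MP_60cbcc_al.H3ZWalk

/-!
A Liouville theorem for functions invariant under a random subgroup.
-/

set_option linter.unusedSectionVars false

namespace Pool.Agent.Lib.MP_60cbcc_al.H3Z

open MeasureTheory Set Filter Topology
open scoped ENNReal NNReal Pointwise

namespace Liou

section One

variable {L : Type} [Group L] [TopologicalSpace L] [IsTopologicalGroup L] [LocallyCompactSpace L]
  [SecondCountableTopology L] [T2Space L] [MeasurableSpace L] [BorelSpace L]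

theorem cpow_add (r : Measure L) [IsProbabilityMeasure r] (n N : ℕ) :
    cpow r (n + N) = cpow r n ∗ₘ cpow r N := by
  induction N with
  | zero => rw [add_zero, cpow, Measure.mconv_dirac_one]
  | succ N ih => rw [← add_assoc, cpow, cpow, ih, Measure.mconv_assoc]

theorem intg {g : L → ℝ} (hg : Measurable g) {C : ℝ} (hC : ∀ s, |g s| ≤ C) (ν : Measure L)
    [IsFiniteMeasure ν] : Integrable g ν :=
  Integrable.of_bound hg.aestronglyMeasurable C (ae_of_all _ hC)

/-- Bounded continuous harmonic functions. -/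
structure Harm (W : Walk L) (g : L → ℝ) : Prop where
  cont : Continuous g
  bdd : ∀ b, |g b| ≤ 1
  harm : ∀ b, ∫ t, g (b * t) ∂W.r = g b

variable {W : Walk L} {g : L → ℝ}

theorem Harm.meas (h : Harm W g) (b : L) : Measurable fun t => g (b * t) :=
  (h.cont.comp (continuous_const_mul b)).measurable

theorem Harm.int (h : Harm W g) (b : L) (ν : Measure L) [IsFiniteMeasure ν] :
    Integrable (fun t => g (b * t)) ν := intg (h.meas b) (fun _ => h.bdd _) ν

theorem Harm.sq_le (h : Harm W g) (b : L) : |g b ^ 2| ≤ 1 := by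
  rw [abs_pow]
  exact pow_le_one₀ (abs_nonneg _) (h.bdd b)

theorem Harm.int_sq (h : Harm W g) (b : L) (ν : Measure L) [IsFiniteMeasure ν] :
    Integrable (fun t => g (b * t) ^ 2) ν := intg ((h.meas b).pow_const 2) (fun _ => h.sq_le _) ν

theorem Harm.pow (h : Harm W g) (n : ℕ) (b : L) : ∫ t, g (b * t) ∂cpow W.r n = g b := by
  induction n with
  | zero => rw [cpow, integral_dirac, mul_one]
  | succ n ih =>
    rw [cpow, integral_mconv (h.int b _)]
    simp only [← mul_assoc, h.harm, ih]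

/-- The second moment after `n` steps. -/
noncomputable def E (W : Walk L) (g : L → ℝ) (n : ℕ) (b : L) : ℝ :=
  ∫ t, g (b * t) ^ 2 ∂cpow W.r n

theorem Harm.E_add (h : Harm W g) (n N : ℕ) (b : L) :
    E W g (n + N) b = ∫ t, E W g N (b * t) ∂cpow W.r n := by
  rw [E, cpow_add, integral_mconv (h.int_sq b _)]
  simp only [← mul_assoc, E]

theorem Harm.E_le (h : Harm W g) (n : ℕ) (b : L) : |E W g n b| ≤ 1 := by
  have := norm_integral_le_of_norm_le_const (μ := cpow W.r n) (f := fun t => g (b * t) ^ 2)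
    (C := 1) (ae_of_all _ fun _ => h.sq_le _)
  simpa [E] using this

theorem Harm.E_meas (h : Harm W g) (n : ℕ) : Measurable (E W g n) :=
  (StronglyMeasurable.integral_prod_right' (f := fun z : L × L => g (z.1 * z.2) ^ 2)
    ((h.cont.comp continuous_mul).pow 2).stronglyMeasurable).measurable

theorem Harm.var (h : Harm W g) (ν : Measure L) [IsProbabilityMeasure ν] (b : L) (z : ℝ) :
    ∫ t, (g (b * t) - z) ^ 2 ∂ν = ∫ t, g (b * t) ^ 2 ∂ν - 2 * z * ∫ t, g (b * t) ∂ν + z ^ 2 := by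
  have h1 : (fun t => (g (b * t) - z) ^ 2) =
      fun t => g (b * t) ^ 2 - 2 * z * g (b * t) + z ^ 2 := funext fun t => by ring
  have h2 : Integrable (fun t => g (b * t) ^ 2 - 2 * z * g (b * t)) ν :=
    (h.int_sq b ν).sub ((h.int b ν).const_mul _)
  rw [h1, integral_add h2 (integrable_const _),
    integral_sub (h.int_sq b ν) ((h.int b ν).const_mul _), integral_const_mul]
  simp

theorem Harm.var_pow (h : Harm W g) (n : ℕ) (b : L) :
    ∫ t, (g (b * t) - g b) ^ 2 ∂cpow W.r n = E W g n b - g b ^ 2 := by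
  rw [h.var, h.pow, E]
  ring

theorem Harm.sq_le_E (h : Harm W g) (n : ℕ) (b : L) : 0 ≤ E W g n b - g b ^ 2 := by
  rw [← h.var_pow]
  exact integral_nonneg fun _ => sq_nonneg _

theorem Harm.int_E (h : Harm W g) (N : ℕ) (b : L) (ν : Measure L) [IsFiniteMeasure ν] :
    Integrable (fun t => E W g N (b * t)) ν :=
  intg ((h.E_meas N).comp (measurable_const_mul b)) (fun _ => h.E_le _ _) ν

theorem Harm.E_sub (h : Harm W g) (n N : ℕ) (b : L) : E W g (n + N) b - E W g n b =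
    ∫ t, (E W g N (b * t) - g (b * t) ^ 2) ∂cpow W.r n := by
  rw [integral_sub (h.int_E N b _) (h.int_sq b _), h.E_add]
  rfl

theorem Harm.tend (h : Harm W g) (N : ℕ) (b : L) :
    Tendsto (fun n => E W g (n + N) b - E W g n b) atTop (𝓝 0) := by
  have hm : Monotone fun n => E W g n b := monotone_nat_of_le_succ fun n => by
    have h1 := h.E_sub n 1 b
    have h2 : 0 ≤ ∫ t, (E W g 1 (b * t) - g (b * t) ^ 2) ∂cpow W.r n :=
      integral_nonneg fun _ => h.sq_le_E _ _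
    linarith
  have hb : BddAbove (range fun n => E W g n b) :=
    ⟨1, by rintro _ ⟨n, rfl⟩; exact (le_abs_self _).trans (h.E_le n b)⟩
  have h1 := tendsto_atTop_ciSup hm hb
  simpa using ((tendsto_add_atTop_iff_nat N).2 h1).sub h1

theorem dom (W : Walk L) {C : Set L} (hC : IsCompact C) :
    ∃ (N : ℕ) (c' : ℝ≥0), ∀ c ∈ C, W.r.map (c * ·) ≤ c' • cpow W.r N := by
  obtain ⟨N, c', h⟩ := W.dom _ (hC.mul W.cpt)
  refine ⟨N, W.M * c', fun c hc => Measure.le_iff.2 fun A hA => ?_⟩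
  have hA' : MeasurableSet ((c * ·) ⁻¹' A) := measurable_const_mul c hA
  rw [Measure.map_apply (measurable_const_mul c) hA]
  refine (W.le _).trans ?_
  rw [mul_smul, Measure.coe_nnreal_smul_apply, Measure.coe_nnreal_smul_apply W.M]
  refine mul_le_mul_right (le_trans ?_ (h A)) _
  rw [Measure.restrict_apply hA', Measure.restrict_apply hA,
    ← measure_preimage_mul W.lam c (A ∩ (C * W.S))]
  exact measure_mono fun s hs => ⟨hs.1, mul_mem_mul hc hs.2⟩

theorem key (W : Walk L) {C : Set L} (hC : IsCompact C) : ∃ (N : ℕ) (c' : ℝ), 0 ≤ c' ∧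
    ∀ g, Harm W g → ∀ b, ∀ c ∈ C, (g (b * c) - g b) ^ 2 ≤ c' * (E W g N b - g b ^ 2) := by
  obtain ⟨N, c', h⟩ := dom W hC
  refine ⟨N, c', c'.2, fun g hg b c hc => ?_⟩
  have hm : Measurable fun u => (g (b * u) - g b) ^ 2 := ((hg.meas b).sub_const _).pow_const 2
  have hb : ∀ u, |(g (b * u) - g b) ^ 2| ≤ 2 ^ 2 := fun u => by
    rw [abs_pow]
    refine pow_le_pow_left₀ (abs_nonneg _) ((abs_sub _ _).trans ?_) 2
    linarith [hg.bdd (b * u), hg.bdd b]
  have h1 : (g (b * c) - g b) ^ 2 ≤ ∫ s, (g (b * c * s) - g b) ^ 2 ∂W.r := by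
    have h2 : 0 ≤ ∫ s, (g (b * c * s) - g (b * c)) ^ 2 ∂W.r := integral_nonneg fun _ => sq_nonneg _
    rw [hg.var, hg.harm] at h2 ⊢
    nlinarith
  have h2 : ∫ s, (g (b * c * s) - g b) ^ 2 ∂W.r =
      ∫ u, (g (b * u) - g b) ^ 2 ∂W.r.map (c * ·) := by
    rw [integral_map (measurable_const_mul c).aemeasurable hm.aestronglyMeasurable]
    simp only [mul_assoc]
  refine h1.trans (h2.trans_le ((integral_mono_measure (h c hc)
    (ae_of_all _ fun _ => sq_nonneg _) (intg hm hb _)).trans (le_of_eq ?_)))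
  rw [integral_smul_nnreal_measure, hg.var_pow, NNReal.smul_def, smul_eq_mul]

theorem same {g₁ g₂ : L → ℝ} (h₁ : Harm W g₁) (h₂ : Harm W g₂) (b : L)
    (H : ∀ δ : ℝ, 0 < δ → ∃ C B : Set L, IsCompact C ∧ MeasurableSet B ∧
      (∃ᶠ n in atTop, cpow W.r n B < ENNReal.ofReal δ) ∧
      ∀ t ∉ B, ∃ c ∈ C, |g₁ (b * t) - g₂ (b * t * c)| ≤ δ) : g₁ b = g₂ b := by
  refine sub_eq_zero.1 (abs_nonpos_iff.1 (le_of_forall_pos_le_add fun ε hε => ?_))
  obtain ⟨δ, hδ, rfl⟩ : ∃ δ : ℝ, 0 < δ ∧ ε = 5 * δ := ⟨ε / 5, by positivity, by ring⟩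
  obtain ⟨C, B, hC, hB, hfr, hin⟩ := H δ hδ
  obtain ⟨N, c', hc', hkey⟩ := key W hC
  have h3 : ∀ᶠ n in atTop, c' / δ * (E W g₂ (n + N) b - E W g₂ n b) < δ := by
    have := (h₂.tend N b).const_mul (c' / δ)
    rw [mul_zero] at this
    exact this.eventually (gt_mem_nhds hδ)
  obtain ⟨n, hn1, hn2⟩ := (hfr.and_eventually h3).exists
  have hn3 : (cpow W.r n).real B ≤ δ := ENNReal.toReal_le_of_le_ofReal hδ.le hn1.le
  have hi1 : Integrable (fun t => E W g₂ N (b * t) - g₂ (b * t) ^ 2) (cpow W.r n) :=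
    (h₂.int_E N b _).sub (h₂.int_sq b _)
  have hi2 : Integrable (B.indicator fun _ => (2 : ℝ)) (cpow W.r n) :=
    (integrable_const _).indicator hB
  have h4 : ∀ t, |g₁ (b * t) - g₂ (b * t)| ≤
      2 * δ + c' / δ * (E W g₂ N (b * t) - g₂ (b * t) ^ 2) + B.indicator (fun _ => (2 : ℝ)) t := by
    intro t
    have h5 := h₂.sq_le_E N (b * t)
    have h6 : 0 ≤ c' / δ * (E W g₂ N (b * t) - g₂ (b * t) ^ 2) := by positivity
    by_cases ht : t ∈ B
    · rw [indicator_of_mem ht]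
      linarith [abs_sub (g₁ (b * t)) (g₂ (b * t)), h₁.bdd (b * t), h₂.bdd (b * t)]
    · rw [indicator_of_notMem ht]
      obtain ⟨c, hc, h7⟩ := hin t ht
      have h8 := hkey g₂ h₂ (b * t) c hc
      have h9 : |g₂ (b * t * c) - g₂ (b * t)| ≤
          δ + c' / δ * (E W g₂ N (b * t) - g₂ (b * t) ^ 2) := by
        rw [← sq_abs] at h8
        rw [div_mul_eq_mul_div, ← sub_le_iff_le_add', le_div_iff₀ hδ]
        nlinarith [sq_nonneg (|g₂ (b * t * c) - g₂ (b * t)| - δ),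
          abs_nonneg (g₂ (b * t * c) - g₂ (b * t))]
      linarith [abs_sub_le (g₁ (b * t)) (g₂ (b * t * c)) (g₂ (b * t))]
  have hi3 : Integrable (fun t => 2 * δ + c' / δ * (E W g₂ N (b * t) - g₂ (b * t) ^ 2))
      (cpow W.r n) := (integrable_const _).add (hi1.const_mul _)
  have h5 : |g₁ b - g₂ b| ≤ ∫ t, (2 * δ + c' / δ * (E W g₂ N (b * t) - g₂ (b * t) ^ 2) +
      B.indicator (fun _ => (2 : ℝ)) t) ∂cpow W.r n := by
    rw [← h₁.pow n b, ← h₂.pow n b, ← integral_sub (h₁.int b _) (h₂.int b _)]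
    exact norm_integral_le_of_norm_le (f := fun t => g₁ (b * t) - g₂ (b * t)) (hi3.add hi2)
      (ae_of_all _ h4)
  rw [integral_add hi3 hi2,
    integral_add (integrable_const _) (hi1.const_mul _), integral_const_mul (c' / δ), ← h₂.E_sub,
    integral_indicator_const _ hB, integral_const, probReal_univ, smul_eq_mul, smul_eq_mul] at h5
  linarith

end One

variable {Γ X G₁ G₂ : Type} [Group Γ] [Countable Γ]
  [MeasurableSpace X] [MulAction Γ X] [MeasurableConstSMul Γ X]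
  [Group G₁] [TopologicalSpace G₁] [IsTopologicalGroup G₁] [LocallyCompactSpace G₁]
  [SecondCountableTopology G₁] [T2Space G₁] [MeasurableSpace G₁] [BorelSpace G₁]
  [Group G₂] [TopologicalSpace G₂] [IsTopologicalGroup G₂] [LocallyCompactSpace G₂]
  [SecondCountableTopology G₂] [T2Space G₂] [MeasurableSpace G₂] [BorelSpace G₂]

/-- Points whose stabiliser misses a box. -/
def Bd (S : Setup Γ (G₁ × G₂) X) (O : Set G₁) (C : Set G₂) : Set (X × (G₁ × G₂)) :=
  {y | ¬ ∃ γ : Γ, γ • y.1 = y.1 ∧ y.2⁻¹ * S.j γ * y.2 ∈ O ×ˢ C}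

variable (S : Setup Γ (G₁ × G₂) X)

theorem meas_Bd {O : Set G₁} {C : Set G₂} (hO : MeasurableSet O) (hC : MeasurableSet C) :
    MeasurableSet (Bd S O C) := by
  have : Bd S O C = (⋃ γ : Γ, {x : X | γ • x = x} ×ˢ
      ((fun h : G₁ × G₂ => h⁻¹ * S.j γ * h) ⁻¹' (O ×ˢ C)))ᶜ := by
    ext y
    simp only [Bd, mem_setOf_eq, mem_compl_iff, mem_iUnion, mem_prod, mem_preimage]
  rw [this]
  refine (MeasurableSet.iUnion fun γ => (S.fix γ).prod ?_).compl
  exact (Continuous.measurable (by fun_prop)) (hO.prod hC)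

theorem inv_Bd (O : Set G₁) (C : Set G₂) (δ : Γ) (x : X) (h : G₁ × G₂) :
    (δ • x, S.j δ * h) ∈ Bd S O C ↔ (x, h) ∈ Bd S O C := by
  refine not_congr ⟨?_, ?_⟩
  · rintro ⟨γ, h1, h2⟩
    refine ⟨δ⁻¹ * γ * δ, ?_, ?_⟩
    · show (δ⁻¹ * γ * δ) • x = x
      rw [mul_smul, mul_smul, h1, inv_smul_smul]
    · simpa only [map_mul, map_inv, mul_inv_rev, mul_assoc] using h2
  · rintro ⟨γ, h1, h2⟩
    refine ⟨δ * γ * δ⁻¹, ?_, ?_⟩
    · show (δ * γ * δ⁻¹) • δ • x = δ • x
      rw [mul_smul, mul_smul, inv_smul_smul, h1]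
    · simpa only [map_mul, map_inv, mul_inv_rev, mul_assoc, inv_mul_cancel_left] using h2

/-- The times at which a walk in the second factor is at such a point. -/
def Bt (O : Set G₁) (C : Set G₂) (y : X × (G₁ × G₂)) : Set G₂ :=
  {t | (y.1, y.2 * (1, t)) ∈ Bd S O C}

theorem meas_Bt' {O : Set G₁} {C : Set G₂} (hO : MeasurableSet O) (hC : MeasurableSet C) :
    MeasurableSet {z : (X × (G₁ × G₂)) × G₂ | (z.1.1, z.1.2 * (1, z.2)) ∈ Bd S O C} :=
  (by fun_prop : Measurable fun z : (X × (G₁ × G₂)) × G₂ => (z.1.1, z.1.2 * (1, z.2)))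
    (meas_Bd S hO hC)

theorem inv_Bt (O : Set G₁) (C : Set G₂) : S.Inv (Bt S O C) := fun δ x h => by
  ext t
  simp only [Bt, mem_setOf_eq, mul_assoc, inv_Bd]

theorem lint_Bt {O : Set G₁} {C : Set G₂} (hO : MeasurableSet O) (hC : MeasurableSet C)
    (ν : Measure G₂) [IsProbabilityMeasure ν] : ∫⁻ y, ν (Bt S O C y) ∂S.m = S.m (Bd S O C) := by
  have h1 := meas_Bt' S hO hC
  have h2 := Measure.prod_apply (μ := S.m) (ν := ν) h1
  have h3 := Measure.prod_apply_symm (μ := S.m) (ν := ν) h1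
  refine h2.symm.trans (h3.trans ?_)
  have h4 : ∀ t : G₂, S.m ((fun y : X × (G₁ × G₂) => (y, t)) ⁻¹'
      {z : (X × (G₁ × G₂)) × G₂ | (z.1.1, z.1.2 * (1, z.2)) ∈ Bd S O C}) = S.m (Bd S O C) := by
    intro t
    have h5 := S.lint_right (N := (Bd S O C).indicator 1)
      (measurable_one.indicator (meas_Bd S hO hC))
      (fun δ x h => by
        classical
        rw [indicator_apply, indicator_apply]
        exact if_congr (inv_Bd S O C δ x h) rfl rfl) (1, t)
    rw [lintegral_indicator_one (meas_Bd S hO hC)] at h5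
    rw [← h5, ← lintegral_indicator_one (measurable_prodMk_right h1)]
    rfl
  simp only [h4, lintegral_const, measure_univ, mul_one]

theorem dense_conj {Λ K : Subgroup G₁} (hK : IsCompact (K : Set G₁))
    (hd : Dense ((Λ : Set G₁) * (K : Set G₁))) {O : Set G₁} (hO : IsOpen O) (hne : O.Nonempty) (h : G₁) :
    ∃ l ∈ Λ, h⁻¹ * l * h ∈ O * (K : Set G₁) := by
  have h1 : ∀ g : G₁, g ∈ (Λ.topologicalClosure : Set G₁) * (K : Set G₁) := fun g =>
    closure_minimal (mul_subset_mul_right Λ.le_topologicalClosure)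
      (Λ.isClosed_topologicalClosure.mul_right_of_isCompact hK) (hd g)
  obtain ⟨o, ho⟩ := hne
  obtain ⟨l, hl, k, hk, e⟩ := h1 h
  obtain ⟨l', hl', k', hk', e'⟩ := h1 (h * o)
  have h2 : IsOpen ((fun a => h⁻¹ * a * h) ⁻¹' (O * (K : Set G₁))) :=
    hO.mul_right.preimage (by fun_prop)
  obtain ⟨a, ha, ha'⟩ := mem_closure_iff.1 (mul_mem hl' (inv_mem hl)) _ h2
    ⟨o, ho, k'⁻¹ * k, mul_mem (inv_mem hk') hk, by
      simp only at e e' ⊢
      rw [eq_mul_inv_of_mul_eq e', eq_mul_inv_of_mul_eq e]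
      group⟩
  exact ⟨a, ha', ha⟩

theorem rare (W : Walk G₂) {O : Set G₁} (hO : IsOpen O)
    (hd₁ : ∀ᵐ x ∂S.μ, ∀ h : G₁, ∃ γ : Γ, γ • x = x ∧ h⁻¹ * (S.j γ).1 * h ∈ O) :
    ∀ᵐ x ∂S.μ, ∀ᵐ h ∂S.lam,
      ⨅ i, liminf (fun n => cpow W.r n (Bt S O (compactCovering G₂ i) (x, h))) atTop = 0 := by
  have hC : ∀ i, MeasurableSet (compactCovering G₂ i) := fun i =>
    (isCompact_compactCovering G₂ i).measurableSet
  have hm : ∀ i n, Measurable fun y => cpow W.r n (Bt S O (compactCovering G₂ i) y) := fun i n =>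
    measurable_measure_prodMk_left (meas_Bt' S hO.measurableSet (hC i))
  have hq : Measurable fun y => ⨅ i,
      liminf (fun n => cpow W.r n (Bt S O (compactCovering G₂ i) y)) atTop :=
    Measurable.iInf fun i => Measurable.liminf (hm i)
  refine S.ae_of_m (p := fun y => ⨅ i,
      liminf (fun n => cpow W.r n (Bt S O (compactCovering G₂ i) y)) atTop = 0)
    (hq (measurableSet_singleton 0)) (fun δ x h => by simp only [inv_Bt S O _ δ x h]) ?_
  refine (lintegral_eq_zero_iff hq).1 (le_antisymm ?_ zero_le)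
  have h1 : Tendsto (fun i => S.m (Bd S O (compactCovering G₂ i))) atTop (𝓝 0) := by
    have h2 : S.m (⋂ i, Bd S O (compactCovering G₂ i)) = 0 := by
      have h3 : ∀ᵐ y ∂S.m, ∀ h : G₁, ∃ γ : Γ, γ • y.1 = y.1 ∧ h⁻¹ * (S.j γ).1 * h ∈ O :=
        Measure.quasiMeasurePreserving_fst.ae hd₁
      refine measure_mono_null ?_ h3
      intro y hy hd
      obtain ⟨γ, hγ, h5⟩ := hd y.2.1
      obtain ⟨i, hi⟩ := exists_mem_compactCovering (y.2⁻¹ * S.j γ * y.2).2
      exact mem_iInter.1 hy i ⟨γ, hγ, h5, hi⟩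
    rw [← h2]
    refine tendsto_measure_iInter_atTop
      (fun i => (meas_Bd S hO.measurableSet (hC i)).nullMeasurableSet) ?_ ⟨0, measure_ne_top _ _⟩
    rintro i i' hi y hy ⟨γ, hγ, h5, h6⟩
    exact hy ⟨γ, hγ, h5, compactCovering_subset G₂ hi h6⟩
  refine ge_of_tendsto' h1 fun i => (lintegral_mono fun y => iInf_le _ i).trans
    ((lintegral_liminf_le (hm i)).trans (le_of_eq ?_))
  simp only [lint_Bt S hO.measurableSet (hC i), liminf_const]

end Liou

variable {Γ X G₁ G₂ : Type} [Group Γ] [Countable Γ]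
  [MeasurableSpace X] [MulAction Γ X] [MeasurableConstSMul Γ X]
  [Group G₁] [TopologicalSpace G₁] [IsTopologicalGroup G₁] [LocallyCompactSpace G₁]
  [SecondCountableTopology G₁] [T2Space G₁] [MeasurableSpace G₁] [BorelSpace G₁]
  [Group G₂] [TopologicalSpace G₂] [IsTopologicalGroup G₂] [LocallyCompactSpace G₂]
  [SecondCountableTopology G₂] [T2Space G₂] [MeasurableSpace G₂] [BorelSpace G₂]

open Liou TopologicalSpace in
theorem liouville (S : Setup Γ (G₁ × G₂) X) (W : Walk G₂) {K₁ : Subgroup G₁}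
    (hK₁ : IsCompact (K₁ : Set G₁)) (K₂ : Subgroup G₂)
    (hd₁ : ∀ᵐ x ∂S.μ, Dense ((fun γ => (S.j γ).1) '' {γ : Γ | γ • x = x} * (K₁ : Set G₁)))
    (hd₂ : ∀ᵐ x ∂S.μ, Dense ((fun γ => (S.j γ).2) '' {γ : Γ | γ • x = x} * (K₂ : Set G₂))) :
    ∀ᵐ x ∂S.μ, ∀ f : G₁ × G₂ → ℝ, Continuous f → (∀ y, |f y| ≤ 1) →
      (∀ γ : Γ, γ • x = x → ∀ y, f (S.j γ * y) = f y) →
      (∀ ε > 0, ∀ᶠ u in 𝓝 (1 : G₁), ∀ a b, |f (a * u, b) - f (a, b)| ≤ ε) →
      (∀ a b, ∫ t, f (a, b * t) ∂W.r = f (a, b)) →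
      (∀ k ∈ K₁, ∀ a b, f (a * k, b) = f (a, b)) → (∀ k ∈ K₂, ∀ a b, f (a, b * k) = f (a, b)) →
      ∀ y y', f y = f y' := by
  have h0 := (ae_ball_iff (countable_countableBasis G₁)).2 fun O hO =>
    rare S W (O := O * (K₁ : Set G₁)) (isOpen_of_mem_countableBasis hO).mul_right (hd₁.mono fun x hx h => by
      obtain ⟨_, ⟨γ, hγ, rfl⟩, h1⟩ := dense_conj
        (Λ := (MulAction.stabilizer Γ x).map ((MonoidHom.fst G₁ G₂).comp S.j)) hK₁ hx
        (isOpen_of_mem_countableBasis hO) (nonempty_of_mem_countableBasis hO) h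
      exact ⟨γ, hγ, h1⟩)
  filter_upwards [h0, hd₂] with x hx hx₂ f hf hb hinv huc hh hk₁ hk₂
  have hH : ∀ a, Harm W fun b => f (a, b) := fun a =>
    ⟨hf.comp (Continuous.prodMk_right a), fun _ => hb _, hh a⟩
  have h1 : ∀ v : G₁, (fun h : G₁ × G₂ => f (h.1, h.2)) = fun h => f (h.1 * v, h.2) := by
    intro v
    refine (Continuous.ae_eq_iff_eq S.lam hf (hf.comp (by fun_prop))).1 ?_
    filter_upwards [(ae_ball_iff (countable_countableBasis G₁)).2 hx] with h hh'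
    refine same (hH h.1) (hH (h.1 * v)) h.2 fun δ hδ => ?_
    have h2 : {o | ∀ a b, |f (a * (v⁻¹ * o), b) - f (a, b)| ≤ δ} ∈ 𝓝 v := by
      have h3 : Tendsto (fun o => v⁻¹ * o) (𝓝 v) (𝓝 1) := by
        simpa using (continuous_const_mul v⁻¹).tendsto v
      exact h3.eventually (huc δ hδ)
    obtain ⟨O, hO, -, hOU⟩ := (isBasis_countableBasis G₁).mem_nhds_iff.1 h2
    obtain ⟨i, hi⟩ := iInf_lt_iff.1 ((hh' O hO).trans_lt (ENNReal.ofReal_pos.2 hδ))
    refine ⟨compactCovering G₂ i, Bt S (O * (K₁ : Set G₁)) (compactCovering G₂ i) (x, h),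
      isCompact_compactCovering G₂ i, measurable_prodMk_left (meas_Bt' S
        (isOpen_of_mem_countableBasis hO).mul_right.measurableSet
        (isCompact_compactCovering G₂ i).measurableSet),
      frequently_lt_of_liminf_lt (by isBoundedDefault) hi, fun t ht => ?_⟩
    obtain ⟨γ, hγ, ⟨o, h4, k, hk, e⟩, h5⟩ := not_not.1 ht
    refine ⟨_, h5, ?_⟩
    have h6 := hOU h4 (h.1 * v) (h.2 * t * ((h * (1, t))⁻¹ * S.j γ * (h * (1, t))).2)
    have h7 := hinv γ hγ (h * (1, t))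
    refine le_of_eq_of_le ?_ h6
    congr 2
    rw [← hk₁ k hk (h.1 * v * _)]
    refine Eq.trans ?_ (h7.symm.trans ?_)
    · congr 1
      ext <;> simp
    · have e' : o * k = h.1⁻¹ * (S.j γ).1 * h.1 := by simpa using e
      congr 1
      ext <;> simp [mul_assoc, e']
  have h2 : ∀ a b, f (a, b) = f (1, b) := fun a b => by
    simpa using (congrFun (h1 a) (1, b)).symm
  have h3 : (fun c => f (1, c)) = fun _ => f (1, 1) := by
    refine Continuous.ext_on hx₂ (hf.comp (by fun_prop)) continuous_const ?_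
    rintro _ ⟨_, ⟨γ, hγ, rfl⟩, k, hk, rfl⟩
    refine (hk₂ k hk _ _).trans ((h2 (S.j γ).1 _).symm.trans ?_)
    have := hinv γ hγ 1
    rwa [mul_one] at this
  rintro ⟨a, b⟩ ⟨a', b'⟩
  rw [h2 a b, h2 a' b', congrFun h3 b, congrFun h3 b']

end Pool.Agent.Lib.MP_60cbcc_al.H3Z
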