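import Pool.Agent.Lib.MP_60cbcc_al.H3ZTree
import Pool.Agent.Lib.MP_60cbcc_al.H3ZFac

/-!
The smallest closed normal non-central subgroup of a group acting on a tree.
-/

set_option linter.unusedSectionVars false

namespace Pool.Agent.Lib.MP_60cbcc_al.H3Z

variable {G : Type} [Group G] [TopologicalSpace G] [IsTopologicalGroup G] [T2Space G]
  [SecondCountableTopology G] {V : Type} {T : SimpleGraph V} [MulAction G V]

/-- A subgroup that moves some vertex. -/
def TcMoving (V : Type) [MulAction G V] (N : Subgroup G) : Prop := ∃ n ∈ N, ∃ v : V, n • v ≠ v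

/-- The stabiliser of `v` in `N` is transitive on the spheres about `v`. -/
def TcSph (T : SimpleGraph V) (N : Subgroup G) (v : V) : Prop :=
  ∀ w w' : V, T.dist v w = T.dist v w' → ∃ n ∈ N, n • v = v ∧ n • w = w'

namespace Tree0

/-- Elements fixing a half axis fix the whole axis modulo a closed normal subgroup that contains
the translation. -/
theorem tc_fixP (h : Tree0 G T) {N : Subgroup G} (hn : N.Normal) (hc : IsClosed (N : Set G))
    {c : G} (hcN : c ∈ N) {y : V} {n : G} (hf : n ∈ fixP c y) : n ∈ N ⊔ fixA c y := by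
  let D : ℕ → Set G := fun k => (⋂ i : {i : ℤ // -(k : ℤ) ≤ i},
    {x | x • c ^ i.1 • y = c ^ i.1 • y}) ∩ {x | n * x⁻¹ ∈ N}
  have hDc : ∀ k, IsClosed (D k) := fun k =>
    (isClosed_iInter fun i => h.b_mv_closed _ _).inter (hc.preimage (by fun_prop))
  obtain ⟨m, hm⟩ := IsCompact.nonempty_iInter_of_sequence_nonempty_isCompact_isClosed D
    (fun k x hx => ⟨Set.mem_iInter.2 fun i =>
      Set.mem_iInter.1 hx.1 ⟨i.1, by have := i.2; push_cast; omega⟩, hx.2⟩)
    (fun k => by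
      refine ⟨(c ^ (k : ℤ))⁻¹ * n * c ^ (k : ℤ), Set.mem_iInter.2 fun i => ?_, ?_⟩
      · obtain ⟨j, hj⟩ : ∃ j : ℕ, (j : ℤ) = k + i.1 :=
          ⟨(k + i.1).toNat, by have := i.2; omega⟩
        have e := hf j
        rw [← zpow_natCast, hj] at e
        change ((c ^ (k : ℤ))⁻¹ * n * c ^ (k : ℤ)) • c ^ i.1 • y = c ^ i.1 • y
        rw [mul_smul, mul_smul, smul_smul (c ^ (k : ℤ)), ← zpow_add, e, smul_smul, ← zpow_neg,
          ← zpow_add, neg_add_cancel_left]
      · have e : n * ((c ^ (k : ℤ))⁻¹ * n * c ^ (k : ℤ))⁻¹ =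
            n * (c ^ (k : ℤ))⁻¹ * n⁻¹ * c ^ (k : ℤ) := by group
        change n * ((c ^ (k : ℤ))⁻¹ * n * c ^ (k : ℤ))⁻¹ ∈ N
        rw [e]
        exact mul_mem (hn.conj_mem _ (inv_mem (zpow_mem hcN _)) n) (zpow_mem hcN _))
    ((h.stab y).1.of_isClosed_subset (hDc 0) fun x hx => by
      simpa using Set.mem_iInter.1 hx.1 ⟨0, by omega⟩) hDc
  have hmA : m ∈ fixA c y := fun i =>
    Set.mem_iInter.1 (Set.mem_iInter.1 hm i.natAbs).1 ⟨i, by omega⟩
  have hmN : n * m⁻¹ ∈ N := (Set.mem_iInter.1 hm 0).2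
  simpa using mul_mem (Subgroup.mem_sup_left hmN) (Subgroup.mem_sup_right hmA)

/-- The two half axis fixators generate the stabiliser of a point of the axis. -/
theorem tc_stab_le (h : Tree0 G T) {b : G} {y : V} {l : ℕ} (hl : 0 < l)
    (hb : ∀ k : ℕ, T.dist y (b ^ k • y) = k * l) (H : Subgroup G)
    (hPH : ∀ n, n ∈ fixP b y ∨ n ∈ fixP b⁻¹ y → n ∈ H) (g : G) (hy : g • y = y) : g ∈ H := by
  obtain ⟨e, he, hd⟩ := h.b_exists_dir hl hb
  obtain ⟨e', he', hd'⟩ := h.b_exists_dir hl (h.ax_inv hb)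
  have hfw : ∀ g : G, g • y = y → g • e ≠ e' → g ∈ H := fun g hy hne => by
    obtain ⟨n, hn, hng⟩ := h.decomp_of_ne hb he he' hd hd' hy hne
    simpa using mul_mem (inv_mem (hPH n (.inr hn))) (hPH _ (.inl hng))
  obtain ⟨e3, he3, hn1, hn2⟩ := h.third y (P := fun a => a = e) (Q := fun a => a = e')
    (fun _ _ _ _ a b => a.trans b.symm) fun _ _ _ _ a b => a.trans b.symm
  obtain ⟨s, hsy, hse⟩ := h.sph y e' e3
    (by rw [SimpleGraph.dist_eq_one_iff_adj.2 he', SimpleGraph.dist_eq_one_iff_adj.2 he3])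
  obtain ⟨n, hn, hns⟩ := h.decomp_of_ne (h.ax_inv hb) he' he hd' (by simpa using hd) hsy
    (by rwa [hse])
  rw [inv_inv] at hn
  have hsH : s ∈ H := by
    simpa using mul_mem (inv_mem (hPH n (.inl hn))) (hPH _ (.inr hns))
  by_cases hge : g • e = e'
  · simpa using mul_mem (inv_mem hsH) (hfw (s * g) (by rw [mul_smul, hy, hsy])
      (by rwa [mul_smul, hge, hse]))
  · exact hfw g hy hge

theorem tc_sph_axis (h : Tree0 G T) {N : Subgroup G} (hn : N.Normal) (hc : IsClosed (N : Set G))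
    {b : G} (hbN : b ∈ N) {y : V} {l : ℕ} (hl : 0 < l)
    (hb : ∀ k : ℕ, T.dist y (b ^ k • y) = k * l) : TcSph T N y := by
  have hst := h.tc_stab_le hl hb (N ⊔ fixA b y) fun n hf => hf.elim
    (h.tc_fixP hn hc hbN) fun hf => fixA_inv b y ▸ h.tc_fixP hn hc (inv_mem hbN) hf
  intro w w' hw
  have hrl : T.dist y w ≤ T.dist y w * l := Nat.le_mul_of_pos_right _ hl
  obtain ⟨p, p1, p2⟩ := h.exists_mid y (b ^ T.dist y w • y) (k := T.dist y w) (by rw [hb]; omega)
  have key : ∀ z, T.dist y z = T.dist y w → ∃ n ∈ N, n • y = y ∧ n • p = z := fun z hz => by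
    obtain ⟨s, s1, s2⟩ := h.sph y p z (p1.trans hz.symm)
    obtain ⟨n, hnN, m, hm, rfl⟩ := Subgroup.mem_sup_of_normal_left.1 (hst s s1)
    have m1 : m • y = y := by simpa using hm 0
    have m2 : m • b ^ T.dist y w • y = b ^ T.dist y w • y := by
      simpa using hm (T.dist y w : ℕ)
    have m3 : T.dist y (m • p) = T.dist y p := by rw [← h.dist_smul m y p, m1]
    have m4 : T.dist (m • p) (b ^ T.dist y w • y) = T.dist p (b ^ T.dist y w • y) := by
      rw [← h.dist_smul m p, m2]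
    have m5 : m • p = p := h.uniq (p := y) (q := b ^ T.dist y w • y) (by rw [m3, m4, p2]) p2 m3
    rw [mul_smul, m1] at s1
    rw [mul_smul, m5] at s2
    exact ⟨n, hnN, s1, s2⟩
  obtain ⟨n, hnN, n1, n2⟩ := key w rfl
  obtain ⟨n', hnN', n1', n2'⟩ := key w' hw.symm
  refine ⟨n' * n⁻¹, mul_mem hnN' (inv_mem hnN), ?_, ?_⟩
  · rw [mul_smul, inv_smul_eq_iff.2 n1.symm, n1']
  · rw [mul_smul, inv_smul_eq_iff.2 n2.symm, n2']

theorem tc_sph_conj (h : Tree0 G T) {N : Subgroup G} (hn : N.Normal) {u : V} (hu : TcSph T N u)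
    (g : G) : TcSph T N (g • u) := by
  intro w w' hw
  rw [h.dist_smul_left, h.dist_smul_left] at hw
  obtain ⟨n, hnN, n1, n2⟩ := hu _ _ hw
  refine ⟨g * n * g⁻¹, hn.conj_mem n hnN g, ?_, ?_⟩
  · rw [mul_smul, mul_smul, inv_smul_smul, n1]
  · rw [mul_smul, mul_smul, n2, smul_inv_smul]

/-- A closed normal subgroup that moves a vertex is transitive on spheres. -/
theorem tc_sph (h : Tree0 G T) {N : Subgroup G} (hn : N.Normal) (hc : IsClosed (N : Set G))
    (hm : TcMoving V N) (v : V) : TcSph T N v := by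
  obtain ⟨g, hg, u, hu⟩ := hm
  obtain ⟨c, hcc⟩ := h.pingpong hu 2
  obtain ⟨y, l, hl, hb⟩ := hcc 0 1 (by decide)
  have hbN := mul_mem (hn.conj_mem g hg (c 0)) (hn.conj_mem g hg (c 1))
  generalize c 0 * g * (c 0)⁻¹ * (c 1 * g * (c 1)⁻¹) = b at hb hbN
  obtain ⟨e, he, hd⟩ := h.b_exists_dir hl hb
  have h1 : T.dist y e = 1 := SimpleGraph.dist_eq_one_iff_adj.2 he
  have hb' : ∀ k : ℕ, T.dist e (b ^ k • e) = k * l := fun k => by
    rcases k with _ | k
    · simp
    have a1 := h.tri e (b ^ (k + 1) • y) (b ^ (k + 1) • e)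
    have a2 := hd k
    have a3 := h.tri y e (b ^ (k + 1 + 1) • y)
    have a4 := h.tri e (b ^ (k + 1) • e) (b ^ (k + 1 + 1) • y)
    have a5 := hd 0
    rw [h.dist_smul] at a1
    rw [hb, add_mul (k + 1)] at a3
    rw [pow_add b (k + 1) 1, mul_smul, h.dist_smul] at a4
    rw [pow_add b (k + 1) 1, mul_smul] at a3
    rw [zero_add] at a5
    omega
  have s1 := h.tc_sph_axis hn hc hbN hl hb
  have s2 := h.tc_sph_axis hn hc hbN hl hb'
  have d := h.dist_adj he v
  rw [T.dist_comm (u := v), T.dist_comm (u := v)] at d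
  rcases Nat.even_or_odd' (T.dist y v) with ⟨r, hr | hr⟩
  · obtain ⟨k, rfl⟩ := h.even_orbit hr
    exact h.tc_sph_conj hn s1 k
  · obtain ⟨r', hr'⟩ : ∃ r', T.dist e v = 2 * r' := ⟨T.dist e v / 2, by omega⟩
    obtain ⟨k, rfl⟩ := h.even_orbit hr'
    exact h.tc_sph_conj hn s2 k

theorem tc_even (h : Tree0 G T) {N : Subgroup G} (hs : ∀ v, TcSph T N v) {v y : V} {r : ℕ}
    (e : T.dist v y = 2 * r) : ∃ k ∈ N, k • v = y := by
  obtain ⟨m, m1, m2⟩ := h.exists_mid v y (k := r) (by omega)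
  obtain ⟨k, hk, -, hk2⟩ := hs m v y (by rw [SimpleGraph.dist_comm]; omega)
  exact ⟨k, hk, hk2⟩

theorem tc_moving (h : Tree0 G T) {N : Subgroup G} (hs : ∀ v, TcSph T N v) : TcMoving V N := by
  obtain ⟨v⟩ := h.tree.connected.nonempty
  obtain ⟨s, s1, s2⟩ := h.sphere v 1
  obtain ⟨y, hy, y', hy', hne⟩ := Finset.one_lt_card.1 (show 1 < s.card by omega)
  obtain ⟨n, hn, -, n2⟩ := hs v y y' ((s2 _ hy).trans (s2 _ hy').symm)
  exact ⟨n, hn, y, fun e => hne (e.symm.trans n2)⟩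

theorem tc_inf (h : Tree0 G T) {N M : Subgroup G} (hn : N.Normal) (hm : M.Normal)
    (hN : ∀ v, TcSph T N v) (hM : ∀ v, TcSph T M v) : TcMoving V (N ⊓ M) := by
  obtain ⟨v⟩ := h.tree.connected.nonempty
  obtain ⟨s, s1, s2⟩ := h.sphere v (2 * 1)
  obtain ⟨y, hy, y', hy', hne⟩ := Finset.one_lt_card.1 (show 1 < s.card by omega)
  obtain ⟨k, hk, rfl⟩ := h.tc_even hN (s2 y hy)
  obtain ⟨g, hg, g1, g2⟩ := hM v _ y' ((s2 _ hy).trans (s2 _ hy').symm)
  refine ⟨g * k * g⁻¹ * k⁻¹,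
    Subgroup.mem_inf.2 ⟨mul_mem (hn.conj_mem k hk g) (inv_mem hk), ?_⟩, k • v, ?_⟩
  · have := mul_mem hg (hm.conj_mem _ (inv_mem hg) k)
    simpa [mul_assoc] using this
  · rw [mul_smul, mul_smul, mul_smul, inv_smul_smul, inv_smul_eq_iff.2 g1.symm, g2]
    exact hne.symm

/-- The smallest closed normal subgroup that moves a vertex. -/
theorem tc_mono (h : Tree0 G T) : ∃ L : Subgroup G, L.Normal ∧ IsClosed (L : Set G) ∧
    (∀ v, TcSph T L v) ∧
      ∀ N : Subgroup G, N.Normal → IsClosed (N : Set G) → TcMoving V N → L ≤ N := by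
  let ι := {N : Subgroup G // N.Normal ∧ IsClosed (N : Set G) ∧ TcMoving V N}
  have : Nonempty ι := ⟨⟨⊤, inferInstance, by simp, h.tc_moving fun v w w' e => by
    obtain ⟨g, g1, g2⟩ := h.sph v w w' e
    exact ⟨g, Subgroup.mem_top g, g1, g2⟩⟩⟩
  have hs : ∀ N : ι, ∀ v, TcSph T N.1 v := fun N => h.tc_sph N.2.1 N.2.2.1 N.2.2.2
  refine ⟨⨅ N : ι, N.1, Subgroup.normal_iInf_normal fun N => N.2.1, ?_, fun v w w' e => ?_,
    fun N a b c => iInf_le (fun N : ι => N.1) ⟨N, a, b, c⟩⟩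
  · rw [Subgroup.coe_iInf]
    exact isClosed_iInter fun N => N.2.2.1
  · let S : ι → Set G := fun N => ({g | g • v = v} ∩ {g | g • w = w'}) ∩ (N.1 : Set G)
    have hSc : ∀ N, IsClosed (S N) := fun N =>
      ((h.b_mv_closed _ _).inter (h.b_mv_closed _ _)).inter N.2.2.1
    obtain ⟨n, hn⟩ := IsCompact.nonempty_iInter_of_directed_nonempty_isCompact_isClosed S
      (fun N M => by
        have := N.2.1
        have := M.2.1
        refine ⟨⟨N.1 ⊓ M.1, inferInstance, N.2.2.1.inter M.2.2.1,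
          h.tc_inf N.2.1 M.2.1 (hs N) (hs M)⟩, fun x hx => ⟨hx.1, hx.2.1⟩,
          fun x hx => ⟨hx.1, hx.2.2⟩⟩)
      (fun N => by
        obtain ⟨n, hn, n1, n2⟩ := hs N v w w' e
        exact ⟨n, ⟨n1, n2⟩, hn⟩)
      (fun N => (h.stab v).1.of_isClosed_subset (hSc N) fun x hx => hx.1.1) hSc
    obtain ⟨N0⟩ := this
    have h0 := Set.mem_iInter.1 hn N0
    exact ⟨n, Subgroup.mem_iInf.2 fun N => (Set.mem_iInter.1 hn N).2, h0.1.1, h0.1.2⟩

/-- A closed subgroup that is transitive on spheres. -/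
theorem tc_sub (h : Tree0 G T) {L : Subgroup G} (hc : IsClosed (L : Set G))
    (hs : ∀ v, TcSph T L v) : Tree0 L T where
  tree := h.tree
  deg := h.deg
  adj g v w := h.adj (g : G) v w
  stab v := ⟨hc.isClosedEmbedding_subtypeVal.isCompact_preimage (h.stab v).1,
    (h.stab v).2.preimage continuous_subtype_val⟩
  sph v w w' e := by
    obtain ⟨n, hn, n1, n2⟩ := hs v w w' e
    exact ⟨⟨n, hn⟩, n1, n2⟩

theorem tc_parity (h : Tree0 G T) (a b c : V) :
    (T.dist a b + T.dist a c + T.dist b c) % 2 = 0 := by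
  induction e : T.dist b c generalizing c with
  | zero =>
    rw [← h.eq_of_dist e]
    omega
  | succ n ih =>
    obtain ⟨y, y1, y2⟩ := h.exists_pred e
    have h1 := ih y y2
    have h2 := h.dist_adj y1 a
    omega

theorem tc_index (h : Tree0 G T) {L : Subgroup G} (hs : ∀ v, TcSph T L v) (v : V) :
    (L ⊔ MulAction.stabilizer G v).FiniteIndex := by
  set H := L ⊔ MulAction.stabilizer G v with hH
  have hev : ∀ g : G, T.dist v (g • v) % 2 = 0 → g ∈ H := fun g hg => by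
    obtain ⟨k, hk, e⟩ := h.tc_even hs (r := T.dist v (g • v) / 2) (v := v) (y := g • v) (by omega)
    have h1 : k⁻¹ * g ∈ MulAction.stabilizer G v := by
      rw [MulAction.mem_stabilizer_iff, mul_smul, ← e, inv_smul_smul]
    simpa using mul_mem (Subgroup.mem_sup_left hk) (Subgroup.mem_sup_right h1)
  have hsub : ∀ i : ℕ, ((fun g : G => (g : G ⧸ H)) ''
      {g | T.dist v (g • v) % 2 = i}).Subsingleton := by
    rintro i _ ⟨g, hg, rfl⟩ _ ⟨g', hg', rfl⟩
    refine QuotientGroup.eq.2 (hev _ ?_)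
    have h1 := h.tc_parity v (g • v) (g' • v)
    have h2 : T.dist v (g • v) % 2 = i := hg
    have h3 : T.dist v (g' • v) % 2 = i := hg'
    rw [mul_smul, ← h.dist_smul_left]
    omega
  have : Finite (G ⧸ H) := by
    refine Set.finite_univ_iff.1 (((hsub 0).finite.union (hsub 1).finite).subset fun x _ => ?_)
    obtain ⟨g, rfl⟩ := QuotientGroup.mk_surjective x
    rcases Nat.mod_two_eq_zero_or_one (T.dist v (g • v)) with e | e
    · exact .inl ⟨g, e, rfl⟩
    · exact .inr ⟨g, e, rfl⟩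
  exact H.finiteIndex_of_finite_quotient

theorem tc_cen (h : Tree0 G T) {L : Subgroup G} (hs : ∀ v, TcSph T L v) {z : G}
    (hz : z ∈ Subgroup.centralizer (L : Set G)) (v : V) : z • v = v := by
  by_contra hn
  have h0 : T.dist v (z • v) ≠ 0 := fun e => hn (h.eq_of_dist e).symm
  obtain ⟨s, s1, s2⟩ := h.sphere v (T.dist v (z • v))
  obtain ⟨y, hy, hne⟩ := Finset.exists_mem_ne (show 1 < s.card by omega) (z • v)
  obtain ⟨g, hg, g1, g2⟩ := hs v (z • v) y (s2 y hy).symm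
  rw [← mul_smul, Subgroup.mem_centralizer_iff.1 hz g hg, mul_smul, g1] at g2
  exact hne g2.symm

/-- The smallest closed normal moving subgroup is quasi-simple. -/
theorem tc_qs (h : Tree0 G T) (hk : ∀ g : G, (∀ v : V, g • v = v) → g ∈ Subgroup.center G)
    {L : Subgroup G} (hn : L.Normal) (hc : IsClosed (L : Set G)) (hs : ∀ v, TcSph T L v)
    (hmin : ∀ N : Subgroup G, N.Normal → IsClosed (N : Set G) → TcMoving V N → L ≤ N)
    (M : Subgroup L) (hM : M.Normal) (hMc : IsClosed (M : Set L)) :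
    M ≤ Subgroup.center L ∨ M = ⊤ := by
  refine or_iff_not_imp_left.2 fun hne => ?_
  obtain ⟨m, hm, hmc⟩ := SetLike.not_le_iff_exists.1 hne
  obtain ⟨u, hu⟩ : ∃ u : V, (m : G) • u ≠ u := by
    by_contra hcon
    push Not at hcon
    exact hmc (Subgroup.mem_center_iff.2 fun g =>
      Subtype.ext (Subgroup.mem_center_iff.1 (hk m hcon) g))
  have hL := h.tc_sub hc hs
  have : SecondCountableTopology L := TopologicalSpace.Subtype.secondCountableTopology (L : Set G)
  obtain ⟨L', -, -, hs', hmin'⟩ := hL.tc_mono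
  obtain ⟨x, hx, w, hw⟩ := hL.tc_moving hs'
  have hMc' : IsClosed (M.map L.subtype : Set G) := by
    rw [Subgroup.coe_map]
    exact hc.isClosedEmbedding_subtypeVal.isClosedMap _ hMc
  have hxC : (x : G) ∈ (M.map L.subtype).normalCore := by
    intro g
    have hcont : Continuous fun a : L => (MulAut.conjNormal g a : L) :=
      continuous_induced_rng.2 (show Continuous fun a : L => g * (a : G) * g⁻¹ by fun_prop)
    have h1 := hmin' (M.comap (MulAut.conjNormal g : L ≃* L).toMonoidHom) (hM.comap _)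
      (hMc.preimage hcont) ⟨MulAut.conjNormal g⁻¹ m, by
        rw [Subgroup.mem_comap]
        have e : (MulAut.conjNormal g : L ≃* L).toMonoidHom (MulAut.conjNormal g⁻¹ m) = m :=
          Subtype.ext (by simp)
        rwa [e], g⁻¹ • u, fun e => hu (by
          have e' : (g⁻¹ * (m : G) * g⁻¹⁻¹) • g⁻¹ • u = g⁻¹ • u := e
          rw [mul_smul, mul_smul, inv_smul_smul] at e'
          exact MulAction.injective g⁻¹ e')⟩ hx
    exact ⟨_, h1, rfl⟩
  have h2 := (hmin _ inferInstance ((M.map L.subtype).normalCore_isClosed hMc')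
    ⟨x, hxC, w, hw⟩).trans (M.map L.subtype).normalCore_le
  refine top_unique fun a _ => ?_
  obtain ⟨b, hb, e⟩ := h2 a.2
  rwa [← show b = a from Subtype.ext e]

end Tree0

theorem IsTreeGroup.low {G : Type} [Group G] [TopologicalSpace G] [IsTopologicalGroup G]
    [T2Space G] [SecondCountableTopology G] (h : IsTreeGroup G) : ∃ L K : Subgroup G, Low L K := by
  obtain ⟨V, T, _, h1, h2, h3, h4, h5, hk⟩ := h
  have h : Tree0 G T := ⟨h1, h2, h3, h4, h5⟩
  obtain ⟨L, hn, hc, hs, hmin⟩ := h.tc_mono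
  obtain ⟨v⟩ := h.tree.connected.nonempty
  have : SecondCountableTopology L := TopologicalSpace.Subtype.secondCountableTopology (L : Set G)
  have hr : Rigid L := TreeAct.rigid (T := T) ⟨h.tc_sub hc hs, h.tc_qs hk hn hc hs hmin⟩
  exact ⟨L, MulAction.stabilizer G v,
    ⟨hn, hc, fun z hz => hk z (h.tc_cen hs hz), hr.weak⟩, (h.stab v).1, h.tc_index hs v, hr⟩

end Pool.Agent.Lib.MP_60cbcc_al.H3Z
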