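import Pool.Agent.Lib.MP_60cbcc_al.H3ZCore2
import Pool.Agent.Lib.MP_60cbcc_al.H3ZDense2
import Pool.Agent.Lib.MP_60cbcc_al.H3ZHigh

/-!
Products with a factor of higher rank.
-/

namespace Pool.Agent.Lib.MP_60cbcc_al.H3Z

open MeasureTheory MulAction
open scoped Pointwise

theorem wb_solv {H κ : Type} [Group H] [Finite κ] {B : κ → Type} [∀ i, Group (B i)]
    (hB : ∀ i, Group.IsSolvable (B i)) (f : ∀ i, H →* B i) (hf : ∀ x, (∀ i, f i x = 1) → x = 1) :
    Group.IsSolvable H := by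
  choose n hn using fun i => (hB i).solvable
  obtain ⟨N, hN⟩ := (Set.finite_range n).bddAbove
  refine ⟨⟨N, le_bot_iff.1 fun x hx => hf x fun i => ?_⟩⟩
  have h1 := derivedSeries_antitone (B i) (hN ⟨i, rfl⟩)
    (map_derivedSeries_le_derivedSeries (f i) N ⟨x, hx, rfl⟩)
  rwa [hn i] at h1

theorem wb_conj {κ : Type} [DecidableEq κ] {A : κ → Type} [∀ i, Group (A i)] (k : κ) (a : A k)
    (g : ∀ i, A i) : g * Pi.mulSingle k a * g⁻¹ = Pi.mulSingle k (g k * a * (g k)⁻¹) := by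
  funext t
  by_cases h : t = k
  · subst h
    simp
  · simp [Pi.mulSingle_eq_of_ne h]

/-- Split off one coordinate of the first factor. -/
def wbe {κ : Type} [DecidableEq κ] (A : κ → Type) [∀ i, Group (A i)] [∀ i, TopologicalSpace (A i)]
    (M : Type) [Group M] [TopologicalSpace M] (i : κ) :
    (∀ k, A k) × M ≃ₜ* A i × ((∀ k : {k // k ≠ i}, A k.1) × M) :=
  { ((Homeomorph.piSplitAt i A).prodCongr (Homeomorph.refl M)).trans (Homeomorph.prodAssoc _ _ _)
    with map_mul' := fun _ _ => rfl }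

/-- The inclusion of one coordinate of the first factor. -/
def wbi {κ : Type} [DecidableEq κ] (A : κ → Type) [∀ i, Group (A i)] (M : Type) [Group M] (i : κ) :
    A i →* (∀ k, A k) × M := (MonoidHom.inl _ _).comp (MonoidHom.mulSingle A i)

theorem wbi_eq {κ : Type} [DecidableEq κ] (A : κ → Type) [∀ i, Group (A i)]
    [∀ i, TopologicalSpace (A i)] (M : Type) [Group M] [TopologicalSpace M] (i : κ) (g : A i) :
    wbi A M i g = (wbe A M i).symm (g, 1) := by
  rw [eq_comm, ContinuousMulEquiv.symm_apply_eq]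
  refine Prod.ext ?_ (Prod.ext ?_ rfl)
  · exact (Pi.mulSingle_eq_same i g).symm
  · funext k
    exact (Pi.mulSingle_eq_of_ne k.2 g).symm

theorem wb_core {ι₁ ι₂ Γ X : Type} [Finite ι₁] [Finite ι₂] [DecidableEq ι₂] {A : ι₁ → Type}
    [∀ i, Group (A i)] [∀ i, TopologicalSpace (A i)] [∀ i, IsTopologicalGroup (A i)]
    [∀ i, LocallyCompactSpace (A i)] [∀ i, SecondCountableTopology (A i)] [∀ i, T2Space (A i)]
    [∀ i, MeasurableSpace (A i)] [∀ i, BorelSpace (A i)] {M : ι₂ → Type}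
    [∀ i, Group (M i)] [∀ i, TopologicalSpace (M i)] [∀ i, IsTopologicalGroup (M i)]
    [∀ i, LocallyCompactSpace (M i)] [∀ i, SecondCountableTopology (M i)] [∀ i, T2Space (M i)]
    [∀ i, MeasurableSpace (M i)] [∀ i, BorelSpace (M i)] {R : ι₂ → Type}
    [∀ i, Group (R i)] [∀ i, TopologicalSpace (R i)] [∀ i, IsTopologicalGroup (R i)]
    [∀ i, SecondCountableTopology (R i)] [∀ i, T2Space (R i)] [Group Γ] [Countable Γ]
    (L : ∀ i, Subgroup (A i)) (hL : ∀ i, High (L i)) (hR : ∀ k, Rigid (R k))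
    (r : ∀ k, R k →* M k) (hr : ∀ k, Topology.IsEmbedding (r k)) (hn : ∀ k, (r k).range.Normal)
    (K : ∀ k, Subgroup (M k)) (hK : ∀ k, IsCompact (K k : Set (M k)))
    (hs : ∀ k g, ∃ a, ∃ c ∈ K k, g = r k a * c) (j : Γ →* (∀ i, A i) × ∀ k, M k) (hj : Lat j)
    (hq : ∀ k a, Pi.mulSingle k (r k a) ∈ closure (Set.range fun γ => (j γ).2))
    (hc₁ : ∀ γ i, (j γ).1 i ∈ Subgroup.centralizer (L i : Set (A i)) → γ = 1)
    (hc₂ : ∀ γ k, (∀ a, r k a * (j γ).2 k = (j γ).2 k * r k a) → γ = 1)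
    [MeasurableSpace X] [MulAction Γ X] [MeasurableConstSMul Γ X] (μ : Measure X)
    [IsProbabilityMeasure μ] [SMulInvariantMeasure Γ X μ]
    (hF : ∀ γ : Γ, MeasurableSet {x : X | γ • x = x}) :
    ∀ᵐ x ∂μ, (orbit Γ x).Finite ∨ ∀ γ : Γ, γ • x = x → γ = 1 := by
  classical
  have hA : ∀ᵐ x ∂μ, ∀ k, (∀ γ : Γ, γ • x = x → ∀ a : R k,
      Pi.mulSingle k (r k a) * (j γ).2 = (j γ).2 * Pi.mulSingle k (r k a)) ∨
      ∀ a : R k, Pi.mulSingle k (r k a) ∈ closure ((fun γ => (j γ).2) '' {γ | γ • x = x}) := by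
    refine ae_all_iff.2 fun k => ?_
    refine dense_ae2 (hR k) ((MonoidHom.snd _ _).comp j) ((MonoidHom.mulSingle M k).comp (r k))
      ?_ ⟨?_⟩ (hq k) μ hF
    · exact (Function.LeftInverse.isEmbedding (f := fun g : ∀ k, M k => g k)
        (g := fun a : M k => Pi.mulSingle k a) (fun a => Pi.mulSingle_eq_same k a)
        (continuous_apply k) (continuous_mulSingle k)).comp (hr k)
    · rintro _ ⟨a, rfl⟩ g
      obtain ⟨b, hb⟩ := (hn k).conj_mem _ ⟨a, rfl⟩ (g k)
      exact ⟨b, (congrArg (Pi.mulSingle k) hb).trans (wb_conj k _ g).symm⟩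
  set E : Set X := {x | ¬ ((orbit Γ x).Finite ∨ ∀ γ : Γ, γ • x = x → γ = 1)} with hEd
  have hE : MeasurableSet E := by
    refine ((w1_meas_fin hF).union (s₂ := {x : X | ∀ γ : Γ, γ • x = x → γ = 1}) ?_).compl
    rw [Set.ofPred_forall]
    refine .iInter fun γ => ?_
    by_cases h : γ = 1
    · simp [h]
    · simp only [h, imp_false]
      exact (hF γ).compl
  have hi' : ∀ (γ : Γ) x, γ • x ∈ E → x ∈ E := by
    intro γ x hx h
    refine hx (h.imp (fun h => by rwa [orbit_smul]) fun h δ hδ => ?_)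
    have h1 := h (γ⁻¹ * δ * γ) (by rw [mul_smul, mul_smul, hδ, inv_smul_smul])
    calc δ = γ * (γ⁻¹ * δ * γ) * γ⁻¹ := by group
      _ = 1 := by rw [h1]; group
  have hi : ∀ (γ : Γ) x, γ • x ∈ E ↔ x ∈ E := fun γ x =>
    ⟨hi' γ x, fun h => hi' γ⁻¹ _ (by rwa [inv_smul_smul])⟩
  have hne : ∀ x ∈ E, ∃ γ : Γ, γ • x = x ∧ γ ≠ 1 := by
    intro x hx
    by_contra h
    refine hx (Or.inr fun γ hγ => ?_)
    by_contra h'
    exact h ⟨γ, hγ, h'⟩
  rw [ae_iff]
  by_contra h0
  have := ProbabilityTheory.cond_isProbabilityMeasure (μ := μ) (s := E) h0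
  have := w1_cond (Γ := Γ) μ hE hi
  choose B S hB hS hcell hgen using fun i => (hL i).ex
  choose C hC hC' using fun i => (hL i).cpt
  have : ∀ i, Countable (S i) := fun i => (hS i).to_subtype
  have : (Subgroup.pi Set.univ L).Normal :=
    ⟨fun n hn g i hi => (hL i).norm.conj_mem _ (hn i hi) (g i)⟩
  have : Group.IsSolvable ((Subgroup.pi Set.univ B).prod (⊥ : Subgroup (∀ k, M k))) :=
    wb_solv hB (fun i => (((Pi.evalMonoidHom A i).comp (MonoidHom.fst _ (∀ k, M k))).comp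
      ((Subgroup.pi Set.univ B).prod (⊥ : Subgroup (∀ k, M k))).subtype).codRestrict (B i)
        fun x => x.2.1 i trivial)
      fun x hx => Subtype.ext (Prod.ext (funext fun i => congrArg Subtype.val (hx i)) x.2.2)
  have hBi : ∀ i, (B i).map (wbi A (∀ k, M k) i) ≤
      (Subgroup.pi Set.univ B).prod (⊥ : Subgroup (∀ k, M k)) := by
    rintro i _ ⟨b, hb, rfl⟩
    refine ⟨fun t _ => ?_, rfl⟩
    change Pi.mulSingle (M := A) i b t ∈ B t
    by_cases h : t = i
    · subst h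
      rwa [Pi.mulSingle_eq_same]
    · rw [Pi.mulSingle_eq_of_ne h]
      exact one_mem _
  refine core2 (κ := Σ i, S i) (Kaz.pi fun i => (hL i).kaz) (w1_pi_cg fun k => ?_)
    (Subgroup.pi Set.univ L) (isClosed_set_pi fun i _ => (hL i).closed)
    ⟨Set.pi Set.univ C, isCompact_univ_pi hC, Set.eq_univ_of_forall fun g => ?_⟩
    (Subgroup.pi Set.univ K) (isCompact_univ_pi hK)
    ((Subgroup.pi Set.univ B).prod (⊥ : Subgroup (∀ k, M k)))
    (fun s => wbi A (∀ k, M k) s.1 s.2) (fun s => (L s.1).map (wbi A (∀ k, M k) s.1))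
    (fun s => ⟨?_⟩)
    (fun s => (hcell s.1 s.2 s.2.2).map (wbe A (∀ k, M k) s.1).symm _ (wbi_eq A _ s.1) (hBi s.1))
    (fun J hJ hBJ hZ n hn' => ?_) j hj (ProbabilityTheory.cond μ E) hF ?_ ?_ ?_
  · obtain ⟨T, hT, hT'⟩ := (hR k).cg
    refine ⟨r k '' T ∪ K k, (hT.image (hr k).continuous).union (hK k), top_unique fun g _ => ?_⟩
    obtain ⟨a, c, hc, rfl⟩ := hs k g
    refine mul_mem (Subgroup.closure_mono Set.subset_union_left ?_)
      (Subgroup.subset_closure (Or.inr hc))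
    rw [← MonoidHom.map_closure, hT']
    exact ⟨a, trivial, rfl⟩
  · choose c hc l hl e using fun i => (hC' i).ge (Set.mem_univ (g i))
    exact ⟨c, fun i _ => hc i, l, fun i _ => hl i, funext e⟩
  · rintro _ ⟨a, ha, rfl⟩ g
    refine ⟨_, (hL s.1).norm.conj_mem _ ha (g.1 s.1), Prod.ext (wb_conj s.1 a g.1).symm ?_⟩
    change (1 : ∀ k, M k) = g.2 * 1 * g.2⁻¹
    group
  · refine Subgroup.pi_mem_of_mulSingle_mem (H := J.comap (MonoidHom.inl _ _)) n fun i => ?_
    refine hgen i (J.comap (wbi A (∀ k, M k) i))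
      (hJ.preimage ((continuous_mulSingle i).prodMk continuous_const))
      (fun b hb => hBJ (hBi i ⟨b, hb, rfl⟩)) (fun a ha z hz => hZ ⟨i, a, ha⟩ ⟨?_, z, hz.2, rfl⟩)
      (hn' i trivial)
    refine Subgroup.mem_centralizer_singleton_iff.2 ?_
    rw [← map_mul, ← map_mul, Subgroup.mem_centralizer_singleton_iff.1 hz.1]
  · filter_upwards [ProbabilityTheory.ae_cond_mem hE] with x hx s
    obtain ⟨γ, h1, h2⟩ := hne x hx
    exact ⟨γ, h1, (hL s.1).toStd.gen (wbe A (∀ k, M k) s.1).symm _ (wbi_eq A _ s.1)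
      fun h => h2 (hc₁ γ s.1 h)⟩
  · filter_upwards [ProbabilityTheory.cond_absolutelyContinuous.ae_le hA,
      ProbabilityTheory.ae_cond_mem hE] with x hx hx' g
    obtain ⟨γ, h1, h2⟩ := hne x hx'
    have h3 := fun k => (hx k).resolve_left fun h => h2 (hc₂ γ k fun a => by
      simpa using congrFun (h γ h1 a) k)
    choose a c hc e using fun k => hs k (g k)
    have h4 : (fun k => r k (a k)) ∈
        ((stabilizer Γ x).map ((MonoidHom.snd _ _).comp j)).topologicalClosure :=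
      Subgroup.pi_mem_of_mulSingle_mem _ fun k => h3 k (a k)
    have h5 : g = (fun k => r k (a k)) * c := funext e
    rw [h5]
    exact map_mem_closure (f := fun y => y * c) (continuous_mul_const c) h4
      fun y hy => ⟨y, hy, c, fun k _ => hc k, rfl⟩
  · filter_upwards [ProbabilityTheory.ae_cond_mem hE] with x hx h
    exact hx (Or.inl h)

variable {ι Γ X : Type} [Finite ι] {G : ι → Type} [∀ i, Group (G i)]
  [∀ i, TopologicalSpace (G i)] [∀ i, IsTopologicalGroup (G i)] [∀ i, LocallyCompactSpace (G i)]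
  [∀ i, SecondCountableTopology (G i)] [∀ i, T2Space (G i)] [∀ i, MeasurableSpace (G i)]
  [∀ i, BorelSpace (G i)] [Group Γ] [Countable Γ]

theorem wrapB (L : ∀ i, Subgroup (G i)) (hf : ∀ i, (∃ K, Low (L i) K) ∨ High (L i))
    (hr : ∃ i, High (L i)) (j : Γ →* ∀ i, G i) (hj : Lat j)
    (hd : ∀ i, (w1q j i).range.topologicalClosure.FiniteIndex)
    (hc : ∀ γ k, j γ k ∈ Subgroup.centralizer (L k : Set (G k)) → γ = 1)
    [MeasurableSpace X] [MulAction Γ X] [MeasurableConstSMul Γ X] (μ : Measure X)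
    [IsProbabilityMeasure μ] [SMulInvariantMeasure Γ X μ]
    (hF : ∀ γ : Γ, MeasurableSet {x : X | γ • x = x}) :
    ∃ Δ : Subgroup Γ, Δ.FiniteIndex ∧ ((∀ i, High (L i)) → Δ = ⊤) ∧
      ∀ᵐ x ∂μ, (orbit Δ x).Finite ∨ ∀ δ ∈ Δ, δ • x = x → δ = 1 := by
  classical
  choose K hK using fun k : {k // ¬ High (L k)} => (hf k.1).resolve_right k.2
  let E : ∀ k : {k // ¬ High (L k)}, Subgroup (G k.1) := fun k => L k.1 ⊔ K k
  have hmul : ∀ k, (E k : Set (G k.1)) = (L k.1 : Set (G k.1)) * (K k : Set (G k.1)) := fun k =>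
    have := (hK k).norm
    Subgroup.normal_mul _ _
  have hcl : ∀ k, IsClosed (E k : Set (G k.1)) := fun k => by
    rw [hmul]
    exact (hK k).closed.mul_right_of_isCompact (hK k).cpt
  have hfi : ∀ k, (E k).FiniteIndex := fun k => (hK k).fi
  have hop : ∀ k, IsOpen (E k : Set (G k.1)) := fun k =>
    Subgroup.isOpen_of_isClosed_of_finiteIndex _ (hcl k)
  have : ∀ k, LocallyCompactSpace (E k) := fun k => (hcl k).locallyCompactSpace
  have : ∀ k, SecondCountableTopology (E k) := fun k =>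
    TopologicalSpace.Subtype.secondCountableTopology _
  have : ∀ k, SecondCountableTopology (L k) := fun k =>
    TopologicalSpace.Subtype.secondCountableTopology _
  have : ∀ k, BorelSpace (E k) := fun k => Subtype.borelSpace _
  let Δ : Subgroup Γ := ⨅ k : {k // ¬ High (L k)}, (E k).comap ((Pi.evalMonoidHom G k.1).comp j)
  have hΔ : Δ.FiniteIndex := Subgroup.finiteIndex_iInf fun k => W2.fi_comap _ _
  let j' : Δ →* (∀ i : {i // High (L i)}, G i.1) × ∀ k : {k // ¬ High (L k)}, E k :=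
    { toFun := fun δ => (fun i => j δ i.1, fun k => ⟨j δ k.1, Subgroup.mem_iInf.1 δ.2 k⟩)
      map_one' := Prod.ext (funext fun i => by simp) (funext fun k => Subtype.ext (by simp))
      map_mul' := fun a b =>
        Prod.ext (funext fun i => by simp) (funext fun k => Subtype.ext (by simp)) }
  let e : (∀ i : {i // High (L i)}, G i.1) × (∀ k : {k // ¬ High (L k)}, E k) →* ∀ i, G i :=
    { toFun := fun z i => if h : High (L i) then z.1 ⟨i, h⟩ else (z.2 ⟨i, h⟩ : G i)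
      map_one' := funext fun i => by by_cases h : High (L i) <;> simp [h]
      map_mul' := fun a b => funext fun i => by by_cases h : High (L i) <;> simp [h] }
  have hv : Topology.IsOpenEmbedding
      (Pi.map fun (k : {k // ¬ High (L k)}) (z : E k) => (z : G k.1)) :=
    Topology.IsOpenEmbedding.piMap fun k => (hop k).isOpenEmbedding_subtypeVal
  have he : Topology.IsOpenEmbedding e :=
    (Homeomorph.piEquivPiSubtypeProd (fun i => High (L i)) G).symm.isOpenEmbedding.comp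
      (Topology.IsOpenEmbedding.id.prodMap hv)
  have hj' : Lat j' := W2.lat_sub hj he Δ fun δ => funext fun i => by
    by_cases h : High (L i) <;> simp [e, j', h]
  refine ⟨Δ, hΔ, fun h => iInf_eq_top.2 fun k => absurd (h k.1) k.2, ?_⟩
  refine (wb_core (X := X) (fun i : {i // High (L i)} => L i.1) (fun i => i.2)
    (fun k => (hK k).rig) (fun k => Subgroup.inclusion (le_sup_left : L k.1 ≤ E k))
    (fun k => Topology.IsEmbedding.inclusion (le_sup_left : L k.1 ≤ E k)) (fun k => ⟨?_⟩) (fun k => (K k).subgroupOf (E k))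
    (fun k => (hcl k).isClosedEmbedding_subtypeVal.isCompact_preimage (hK k).cpt) (fun k g => ?_)
    j' hj' (fun k a => ?_) (fun γ i h => Subtype.ext (hc γ i.1 h))
    (fun γ k h => Subtype.ext (hc γ k.1 fun a ha => congrArg Subtype.val (h ⟨a, ha⟩))) μ
    (fun γ => hF γ)).mono fun x hx =>
      hx.imp id fun h δ hδ hx' => congrArg Subtype.val (h ⟨δ, hδ⟩ hx')
  · rintro _ ⟨a, rfl⟩ g
    exact ⟨⟨_, (hK k).norm.conj_mem _ a.2 g⟩, rfl⟩
  · obtain ⟨a, ha, c, hc', e'⟩ := (hmul k).le g.2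
    exact ⟨⟨a, ha⟩, ⟨c, (le_sup_right : K k ≤ E k) hc'⟩, hc', Subtype.ext e'.symm⟩
  · obtain ⟨i₀, hi₀⟩ := hr
    have hne : ∀ t : {k // ¬ High (L k)}, t.1 ≠ i₀ := fun t h => t.2 (h ▸ hi₀)
    have h1 := W2.mem_clos (hK k).weak (hd i₀) Δ
      ((MonoidHom.mulSingle (fun t : {t // t ≠ i₀} => G t.1) ⟨k.1, hne k⟩).comp (L k.1).subtype)
      ((continuous_mulSingle (A := fun t : {t // t ≠ i₀} => G t.1) _).comp continuous_subtype_val) a
    rw [hv.isInducing.closure_eq_preimage_closure_image]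
    have h2 := map_mem_closure
      (f := fun (g : ∀ t : {t // t ≠ i₀}, G t.1) (t : {k // ¬ High (L k)}) => g ⟨t.1, hne t⟩)
      (t := (Pi.map fun (k : {k // ¬ High (L k)}) (z : E k) => (z : G k.1)) ''
        Set.range fun γ => (j' γ).2) (by fun_prop) h1 (by
        rintro _ ⟨γ, hγ, rfl⟩
        exact ⟨_, ⟨⟨γ, hγ⟩, rfl⟩, rfl⟩)
    refine Set.mem_preimage.2 (Eq.subst (motive := fun y => y ∈ closure _) ?_ h2)
    funext t
    by_cases h : t = k
    · subst h
      simp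
    · have h' : (⟨t.1, hne t⟩ : {t // t ≠ i₀}) ≠ ⟨k.1, hne k⟩ :=
        fun h' => h (Subtype.ext (Subtype.mk.inj h'))
      simp [Pi.mulSingle_eq_of_ne h, Pi.mulSingle_eq_of_ne h']

end Pool.Agent.Lib.MP_60cbcc_al.H3Z
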