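import Pool.Agent.Lib.MP_60cbcc_al.H3ZWrapA
import Pool.Agent.Lib.MP_60cbcc_al.H3ZWrapB
import Pool.Agent.Lib.MP_60cbcc_al.H3ZTreeC

namespace Pool.Agent.Lib.MP_60cbcc_al.H3Z

open MeasureTheory MulAction

set_option linter.unusedSectionVars false

/-- An element whose commutators with a perfect subgroup are central centralises it. -/
theorem main_central {G : Type} [Group G] [TopologicalSpace G] [IsTopologicalGroup G] [T2Space G]
    {L : Subgroup G} (hp : Dense (commutator L : Set L)) {g : G}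
    (h : ∀ a : L, a * g * (a : G)⁻¹ * g⁻¹ ∈ Subgroup.center G) :
    g ∈ Subgroup.centralizer (L : Set G) := by
  let f : L →* Subgroup.center G := MonoidHom.mk' (fun a => ⟨_, h a⟩) fun a b => by
    apply Subtype.ext
    have h1 := Subgroup.mem_center_iff.1 (h b) a
    have h2 := Subgroup.mem_center_iff.1 (h b) (a * g * (a : G)⁻¹ * g⁻¹)
    change (a : G) * b * g * ((a : G) * b)⁻¹ * g⁻¹ =
      a * g * (a : G)⁻¹ * g⁻¹ * (b * g * (b : G)⁻¹ * g⁻¹)
    rw [h2]
    calc (a : G) * b * g * ((a : G) * b)⁻¹ * g⁻¹ =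
          a * (b * g * (b : G)⁻¹ * g⁻¹) * (g * (a : G)⁻¹ * g⁻¹) := by group
      _ = _ := by rw [h1]; group
  have h0 : commutator L ≤ f.ker := by
    rw [commutator_def, Subgroup.commutator_le]
    intro a _ b _
    rw [MonoidHom.mem_ker, map_commutatorElement, commutatorElement_eq_one_iff_mul_comm]
    exact Subtype.ext (Subgroup.mem_center_iff.1 (f b).2 (f a))
  have h1 : ∀ a : L, a * g * (a : G)⁻¹ * g⁻¹ = 1 :=
    hp.induction (fun a ha => congrArg Subtype.val (show f a = 1 from h0 ha))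
      (isClosed_eq (by fun_prop) continuous_const)
  refine Subgroup.mem_centralizer_iff.2 fun a ha => ?_
  calc a * g = a * g * a⁻¹ * g⁻¹ * (g * a) := by group
    _ = g * a := by rw [h1 ⟨a, ha⟩, one_mul]

variable {ι : Type} [Finite ι] {G : ι → Type} [∀ i, Group (G i)]
  [∀ i, TopologicalSpace (G i)] [∀ i, IsTopologicalGroup (G i)] [∀ i, LocallyCompactSpace (G i)]
  [∀ i, SecondCountableTopology (G i)] [∀ i, T2Space (G i)] [∀ i, MeasurableSpace (G i)]
  [∀ i, BorelSpace (G i)]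

omit [∀ i, SecondCountableTopology (G i)] [∀ i, MeasurableSpace (G i)] [∀ i, BorelSpace (G i)] in
/-- A discrete normal subgroup centralises every `L k` in the closure of the image. -/
theorem main_norm {Γ : Type} [Group Γ] [DecidableEq ι] (q : Γ →* ∀ i, G i)
    (hq : q.range.topologicalClosure.FiniteIndex) (N : Subgroup Γ) [hN : N.Normal]
    (hfin : ∀ K, IsCompact K → {γ | γ ∈ N ∧ q γ ∈ K}.Finite) (k : ι) {L : Subgroup (G k)}
    (hk : Std L) {γ : Γ} (hγ : γ ∈ N) : q γ k ∈ Subgroup.center (G k) := by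
  have h1 : ∀ K, IsCompact K → ((N.map q : Set (∀ i, G i)) ∩ K).Finite := fun K hK =>
    ((hfin K hK).image q).subset (by
      rintro _ ⟨⟨x, hx, rfl⟩, hx'⟩
      exact ⟨x, ⟨hx, hx'⟩, rfl⟩)
  have h2 : IsClosed (N.map q : Set (∀ i, G i)) := w1_closed_of_fin h1
  let e : L →* ∀ i, G i := (MonoidHom.mulSingle G k).comp L.subtype
  have he : Continuous e := (continuous_mulSingle k).comp continuous_subtype_val
  have h3 : ∀ (a : L), ∀ n ∈ N.map q, e a * n * (e a)⁻¹ ∈ N.map q := by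
    rintro a _ ⟨x, hx, rfl⟩
    refine closure_minimal (t := {g | g * q x * g⁻¹ ∈ N.map q}) ?_ (h2.preimage (by fun_prop))
      (W2.mem_clos hk.weak hq ⊤ e he a)
    rintro _ ⟨y, -, rfl⟩
    exact ⟨y * x * y⁻¹, hN.conj_mem x hx y, by simp⟩
  have h4 : (N.map q).comap e ≤ Subgroup.center L := by
    refine (hk.weak.qs _ ⟨fun n hn a => ?_⟩ (h2.preimage he)).resolve_right fun e' => ?_
    · rw [Subgroup.mem_comap, map_mul, map_mul, map_inv]
      exact h3 a _ hn
    have := hk.closed.locallyCompactSpace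
    refine hk.weak.nd (w1_disc fun K hK => ?_)
    refine ((h1 _ (hK.image he)).preimage
      ((Pi.mulSingle_injective k).comp Subtype.val_injective).injOn).subset fun a ha =>
        ⟨?_, a, ha, rfl⟩
    have : a ∈ (N.map q).comap e := by
      rw [e']
      trivial
    exact this
  refine hk.cen (main_central hk.weak.perf fun a => hk.cen fun b hb => ?_)
  have h5 : (a : G k) * q γ k * (a : G k)⁻¹ * (q γ k)⁻¹ ∈ L := by
    have := mul_mem a.2 (hk.norm.conj_mem _ (inv_mem a.2) (q γ k))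
    simpa only [mul_assoc] using this
  have h6 : (⟨_, h5⟩ : L) ∈ (N.map q).comap e := by
    have h7 := mul_mem (h3 a _ ⟨γ, hγ, rfl⟩) (inv_mem ⟨γ, hγ, rfl⟩ : (q γ)⁻¹ ∈ N.map q)
    exact (w1_single_comm k (a : G k) (q γ) ▸ h7 :)
  exact congrArg Subtype.val (Subgroup.mem_center_iff.1 (h4 h6) ⟨b, hb⟩)

/-- In a centre-free irreducible lattice no non-trivial element centralises a factor. -/
theorem no_cent {Γ : Type} [Group Γ] (L : ∀ i, Subgroup (G i)) (hf : ∀ i, Std (L i))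
    (j : Γ →* ∀ i, G i) (hj : Lat j)
    (hd : ∀ i, (w1q j i).range.topologicalClosure.FiniteIndex) (hZ : Subgroup.center Γ = ⊥)
    (γ : Γ) (k : ι) (h : j γ k ∈ Subgroup.centralizer (L k : Set (G k))) : γ = 1 := by
  classical
  let N : Subgroup Γ := ((Pi.evalMonoidHom G k).comp j).ker
  have hfin : ∀ K, IsCompact K → {γ | γ ∈ N ∧ w1q j k γ ∈ K}.Finite := fun K hK =>
    (hj.fin _ ((w1e G k).toHomeomorph.isCompact_preimage.2
      ((isCompact_singleton (x := 1)).prod hK))).subset fun δ hδ => ⟨hδ.1, hδ.2⟩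
  have h1 : ∀ n ∈ N, n = 1 := fun n hn =>
    Subgroup.mem_bot.1 (hZ ▸ Subgroup.mem_center_iff.2 fun g => hj.inj (by
      rw [map_mul, map_mul]
      funext i
      by_cases hi : i = k
      · subst hi
        have h2 : j n i = 1 := hn
        simp [h2]
      · exact Subgroup.mem_center_iff.1
          (main_norm (G := fun t : {t // t ≠ k} => G t.1) (w1q j k) (hd k) N hfin ⟨i, hi⟩
            (hf i) hn) (j g i)))
  refine Subgroup.mem_bot.1 (hZ ▸ Subgroup.mem_center_iff.2 fun g => ?_)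
  have h2 : g * γ * g⁻¹ * γ⁻¹ ∈ N := by
    have h3 := Subgroup.mem_center_iff.1 ((hf k).cen h) (j g k)
    change j (g * γ * g⁻¹ * γ⁻¹) k = 1
    simp [h3]
  calc g * γ = g * γ * g⁻¹ * γ⁻¹ * (γ * g) := by group
    _ = γ * g := by rw [h1 _ h2, one_mul]

open W2 in
/-- The main theorem. -/
theorem main (hG : ∀ i, IsFactor (G i)) (hr : Nontrivial ι ∨ ∃ i, IsHigh (G i))
    (Γ : Subgroup (∀ i, G i)) (hΓ : IsLattice Γ)
    (hd : ∀ i, (Γ.map (MonoidHom.pi fun k : {k // k ≠ i} =>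
      Pi.evalMonoidHom G k.1)).topologicalClosure.FiniteIndex)
    (hZ : Subgroup.center Γ = ⊥)
    {X : Type} [MeasurableSpace X] [StandardBorelSpace X] [MulAction Γ X]
    [MeasurableConstSMul Γ X] (μ : Measure X) [IsProbabilityMeasure μ] [ErgodicSMul Γ X μ] :
    (∃ F : Set X, F.Finite ∧ μ Fᶜ = 0) ∨ ∀ᵐ x ∂μ, stabilizer Γ x = ⊥ := by
  classical
  have h0 : ∀ i, ∃ L : Subgroup (G i), (IsHigh (G i) → High L) ∧
      (¬ IsHigh (G i) → ∃ K, Low L K) := fun i => by
    by_cases hi : IsHigh (G i)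
    · obtain ⟨L, hL⟩ := hi.high
      exact ⟨L, fun _ => hL, fun h => (h hi).elim⟩
    · obtain ⟨L, hL⟩ := (hG i).elim IsReal.low fun h => (h.resolve_right hi).low
      exact ⟨L, fun h => (hi h).elim, fun _ => hL⟩
  choose L h1 h2 using h0
  have hf : ∀ i, (∃ K, Low (L i) K) ∨ High (L i) := fun i =>
    (em (IsHigh (G i))).elim (fun h => .inr (h1 i h)) fun h => .inl (h2 i h)
  have hs : ∀ i, Std (L i) := fun i => (hf i).elim (fun ⟨_, h⟩ => h.toStd) fun h => h.toStd
  have := hΓ.1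
  have := H8W.count_disc Γ
  have hd' : ∀ i, (w1q Γ.subtype i).range.topologicalClosure.FiniteIndex := fun i => by
    have e : (w1q Γ.subtype i).range = Γ.map (MonoidHom.pi fun k : {k // k ≠ i} =>
        Pi.evalMonoidHom G k.1) := by
      ext y
      exact ⟨fun ⟨γ, h⟩ => ⟨γ.1, γ.2, h⟩, fun ⟨γ, h, h'⟩ => ⟨⟨γ, h⟩, h'⟩⟩
    rw [e]
    exact hd i
  have hc := no_cent L hs Γ.subtype (lat hΓ) hd' hZ
  obtain ⟨Δ, _, h5, h6⟩ : ∃ Δ : Subgroup Γ, Δ.FiniteIndex ∧ (Subsingleton ι → Δ = ⊤) ∧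
      ∀ᵐ x ∂μ, (orbit Δ x).Finite ∨ ∀ δ ∈ Δ, δ • x = x → δ = 1 := by
    by_cases hH : ∃ i, IsHigh (G i)
    · obtain ⟨i, hi⟩ := hH
      obtain ⟨Δ, a, b, c⟩ := wrapB L hf ⟨i, h1 i hi⟩ Γ.subtype (lat hΓ) hd' hc μ fix_meas
      exact ⟨Δ, a, fun _ => b fun k => Subsingleton.elim i k ▸ h1 i hi, c⟩
    · have := hr.resolve_right hH
      choose K hK using fun i => h2 i fun h => hH ⟨i, h⟩
      obtain ⟨Δ, a, c⟩ := wrapA L K hK Γ.subtype (lat hΓ) hd' hc μ fix_meas
      exact ⟨Δ, a, fun h => (not_subsingleton ι h).elim, c⟩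
  rcases erg (Γ := Γ) μ (fin_meas (Γ := Γ) fix_meas) (fun γ => by
    simp only [Set.preimage_ofPred_eq, orbit_smul]) with h | h
  · exact .inl (ess_finite μ h)
  have h7 : ∀ᵐ x ∂μ, ∀ δ ∈ Δ, δ • x = x → δ = 1 := by
    filter_upwards [h, h6] with x hx hx'
    exact hx'.resolve_left fun h => hx (fin_orbit Δ h)
  have h8 : ∀ γ : Γ, ∀ᵐ x ∂μ, γ • x = x → γ = 1 := fun γ => by
    rcases subsingleton_or_nontrivial ι with hι | hι
    · exact h7.mono fun x hx => hx γ (h5 hι ▸ Subgroup.mem_top γ)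
    by_cases h9 : μ {x : X | γ • x = x} = 0
    · exact measure_mono_null (fun x hx => by_contra fun h => hx fun e => (h e).elim) h9
    have := fi_centralizer μ fix_meas Δ h7 h9
    obtain ⟨i, k, hk⟩ := exists_pair_ne ι
    refine .of_forall fun _ _ => hc γ i fun a ha => ?_
    have h10 := closure_minimal
      (t := {m : ∀ t : {t // t ≠ k}, G t.1 | m ⟨i, hk⟩ * γ.1 i = γ.1 i * m ⟨i, hk⟩}) ?_
      (isClosed_eq (by fun_prop) (by fun_prop)) (mem_clos (hs i).weak (hd' k)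
        (Subgroup.centralizer {γ})
        ((MonoidHom.mulSingle (fun t : {t // t ≠ k} => G t.1) ⟨i, hk⟩).comp (L i).subtype)
        ((continuous_mulSingle _).comp continuous_subtype_val) ⟨a, ha⟩)
    · simpa using h10
    rintro _ ⟨δ, hδ, rfl⟩
    exact congrArg (fun g : Γ => g.1 i) (Subgroup.mem_centralizer_singleton_iff.1 hδ)
  exact .inr ((ae_all_iff.2 h8).mono fun x hx => (Subgroup.eq_bot_iff_forall _).2 hx)

end Pool.Agent.Lib.MP_60cbcc_al.H3Z
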