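import Pool.Agent.Lib.MP_60cbcc_al.H3ZCore
import Pool.Agent.Lib.MP_60cbcc_al.H3ZGrp

namespace Pool.Agent.Lib.MP_60cbcc_al.H3Z

open MeasureTheory MulAction W2

/-- The abstract theorem for lattices in products of two compactly generated groups. -/
theorem mainA {G₁ G₂ : Type}
    [Group G₁] [TopologicalSpace G₁] [IsTopologicalGroup G₁] [LocallyCompactSpace G₁]
    [SecondCountableTopology G₁] [T2Space G₁] [MeasurableSpace G₁] [BorelSpace G₁]
    [Group G₂] [TopologicalSpace G₂] [IsTopologicalGroup G₂] [LocallyCompactSpace G₂]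
    [SecondCountableTopology G₂] [T2Space G₂] [MeasurableSpace G₂] [BorelSpace G₂]
    (h₁ : ∃ S : Set G₁, IsCompact S ∧ Subgroup.closure S = ⊤)
    (h₂ : ∃ S : Set G₂, IsCompact S ∧ Subgroup.closure S = ⊤)
    (Γ : Subgroup (G₁ × G₂)) (hΓ : IsLattice Γ)
    {X : Type} [MeasurableSpace X] [StandardBorelSpace X] [MulAction Γ X]
    [MeasurableConstSMul Γ X] (μ : Measure X) [IsProbabilityMeasure μ]
    [SMulInvariantMeasure Γ X μ]
    (hd : ∀ᵐ x ∂μ,
      Dense ((fun γ : Γ => γ.1.1) '' (⁅stabilizer Γ x, stabilizer Γ x⁆ : Subgroup Γ)) ∧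
      Dense ((fun γ : Γ => γ.1.2) '' (⁅stabilizer Γ x, stabilizer Γ x⁆ : Subgroup Γ))) :
    ∀ᵐ x ∂μ, (orbit Γ x).Finite := by
  by_contra h
  have := hΓ.1
  have := H8W.count_disc Γ
  have hE := (fin_meas (Γ := Γ) (X := X) fix_meas).compl
  have := ProbabilityTheory.cond_isProbabilityMeasure (μ := μ)
    (s := {x : X | (orbit Γ x).Finite}ᶜ) h
  have := cond_inv (Γ := Γ) μ hE fun γ => by
    simp only [Set.preimage_compl, Set.preimage_ofPred_eq, orbit_smul]
  exact coreK h₁ h₂ ⊥ ⊥ isCompact_singleton isCompact_singleton Γ.subtype (lat hΓ)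
    (ProbabilityTheory.cond μ {x : X | (orbit Γ x).Finite}ᶜ) fix_meas
    (ProbabilityTheory.cond_absolutelyContinuous.ae_le (hd.mono fun x hx =>
      ⟨hx.1.mono (Set.subset_mul_left _ (one_mem (⊥ : Subgroup G₁))),
        hx.2.mono (Set.subset_mul_left _ (one_mem (⊥ : Subgroup G₂)))⟩))
    (ProbabilityTheory.ae_cond_mem hE)

end Pool.Agent.Lib.MP_60cbcc_al.H3Z
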