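import Pool.Agent.Lib.MP_60cbcc_al.H3ZBox

/-!
The one-sided estimate.
-/

set_option linter.unusedSectionVars false

namespace Pool.Agent.Lib.MP_60cbcc_al.H3Z

open MeasureTheory Set Filter Topology MulAction
open scoped ENNReal NNReal RealInnerProductSpace Pointwise

variable {Γ G X G₁ G₂ : Type} [Group Γ] [Countable Γ] [Group G] [TopologicalSpace G]
  [IsTopologicalGroup G] [LocallyCompactSpace G] [SecondCountableTopology G] [T2Space G]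
  [MeasurableSpace G] [BorelSpace G] [MeasurableSpace X] [MulAction Γ X] [MeasurableConstSMul Γ X]
  [Group G₁] [TopologicalSpace G₁] [IsTopologicalGroup G₁] [LocallyCompactSpace G₁]
  [SecondCountableTopology G₁] [T2Space G₁] [MeasurableSpace G₁] [BorelSpace G₁]
  [Group G₂] [TopologicalSpace G₂] [IsTopologicalGroup G₂] [LocallyCompactSpace G₂]
  [SecondCountableTopology G₂] [T2Space G₂] [MeasurableSpace G₂] [BorelSpace G₂]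
  {H : Type} [NormedAddCommGroup H] [InnerProductSpace ℝ H] [CompleteSpace H]

/-- Averages at points of `U` are close to the average at the identity. -/
def Slow (W : Walk G₁) (H : Type) [NormedAddCommGroup H] [NormedSpace ℝ H] (U : Set G₁) (ω : ℝ) :
    Prop :=
  ∀ u ∈ U, ∀ f : G₁ → H, StronglyMeasurable f → (∃ C, ∀ s, ‖f s‖ ≤ C) → ∀ (z : H) (D : ℝ),
    (∀ s ∈ W.S, ‖f s - z‖ ≤ D) → (∀ s ∈ W.S, ‖f (u * s) - z‖ ≤ D) →
    ‖∫ s, f (u * s) ∂W.r - ∫ s, f s ∂W.r‖ ≤ ω * D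

theorem osc1 (W : Walk G₁) {U K : Set G₁} {ω : ℝ} (hω : ω ≤ 1 / 2) (hU : Slow W H U ω)
    (h1 : (1 : G₁) ∈ U) (hK : ∀ u ∈ U, ∀ s ∈ W.S, u * s ∈ K) {φ : G₁ → H}
    (hφ : StronglyMeasurable φ) (hb : ∃ C, ∀ s, ‖φ s‖ ≤ C) {θ σ : ℝ}
    (hθ : ∀ g ∈ K, ∃ u ∈ U, ‖φ g - φ u‖ ≤ θ)
    (hσ : ∀ u ∈ U, ‖φ u - ∫ s, φ (u * s) ∂W.r‖ ≤ σ) : ∀ g ∈ K, ‖φ g - φ 1‖ ≤ 2 * θ + 4 * σ := by
  have hK1 : (1 : G₁) ∈ K := by simpa using hK 1 h1 1 W.one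
  have : Nonempty K := ⟨⟨1, hK1⟩⟩
  obtain ⟨C, hC⟩ := id hb
  have hbdd : BddAbove (range fun g : K => ‖φ g - φ 1‖) := ⟨C + C, by
    rintro _ ⟨g, rfl⟩
    exact norm_sub_le_of_le (hC _) (hC _)⟩
  set D := ⨆ g : K, ‖φ g - φ 1‖
  have hD : ∀ g ∈ K, ‖φ g - φ 1‖ ≤ D := fun g hg => le_ciSup hbdd ⟨g, hg⟩
  have hD0 : 0 ≤ D := (norm_nonneg _).trans (hD 1 hK1)
  have : D ≤ θ + 2 * σ + D / 2 := ciSup_le fun g => by
    obtain ⟨u, hu, h2⟩ := hθ g g.2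
    have h3 := hU u hu φ hφ hb (φ 1) D (fun s hs => hD s (by simpa using hK 1 h1 s hs))
      fun s hs => hD _ (hK u hu s hs)
    have h4 := hσ u hu
    have h5 := hσ 1 h1
    simp only [one_mul] at h5
    have e : φ g - φ 1 = (φ g - φ u) + (φ u - ∫ s, φ (u * s) ∂W.r) +
      (∫ s, φ (u * s) ∂W.r - ∫ s, φ s ∂W.r) - (φ 1 - ∫ s, φ s ∂W.r) := by abel
    rw [e]
    have := norm_sub_le_of_le (norm_add_le_of_le (norm_add_le_of_le h2 h4) h3) h5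
    nlinarith
  intro g hg
  linarith [hD g hg]

/-- The conclusion of the lemma on good points. -/
def GoodAt (H : Type) [NormedAddCommGroup H] (J : Γ →* G₁ × G₂) (x : X) (K U A₁ : Set G₁)
    (A₂ : Set G₂) (n : ℝ) : Prop :=
  ∀ f : G₁ × G₂ → H, (∀ γ : Γ, γ • x = x → ∀ y, f (J γ * y) = f y) → ∀ η, 0 ≤ η →
    BoxLe f A₁ A₂ η → ∀ g ∈ K, ∃ u ∈ U, ‖f (g, 1) - f (u, 1)‖ ≤ n * η

namespace Spl

variable (P : Spl G G₁ G₂) (S : Setup Γ G X) {V : Γ → X → H →ₗᵢ[ℝ] H}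

/-- The lattice in product coordinates. -/
def J : Γ →* G₁ × G₂ := (P.e.symm : G →* G₁ × G₂).comp S.j

variable {P S}

theorem sl_meas (v : Sec S V) (x : X) (b : G₂) : StronglyMeasurable fun a => v (x, P.e (a, b)) :=
  v.meas.comp_measurable (measurable_const.prodMk
    (P.e.continuous_toFun.comp (Continuous.prodMk_left b)).measurable)

theorem sl_int (v : Sec S V) (x : X) (a : G₁) (b : G₂) :
    Integrable (fun s => v (x, P.e (a * s, b))) P.W₁.r := by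
  obtain ⟨C, hC⟩ := v.bdd
  exact Integrable.of_bound ((sl_meas v x b).comp_measurable
    (measurable_const_mul a)).aestronglyMeasurable C (ae_of_all _ fun _ => hC _)

theorem good_sl (hV : ∀ γ x, γ • x = x → ∀ z, V γ x z = z) {x : X} {K U A₁ : Set G₁}
    {A₂ B : Set G₂} {n : ℝ} (h : GoodAt H (P.J S) x K U A₁ A₂ n) (v : Sec S V) {η : ℝ}
    (hη : 0 ≤ η) (hB : BoxLe (fun y => v (x, P.e y)) A₁ (A₂ * B) η) {b : G₂} (hb : b ∈ B) :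
    ∀ g ∈ K, ∃ u ∈ U, ‖v (x, P.e (g, b)) - v (x, P.e (u, b))‖ ≤ n * η := by
  have := h (fun y => v (x, P.e (y.1, y.2 * b))) (fun γ hγ y => ?_) η hη
    fun a ha a' ha' c hc c' hc' => hB a ha a' ha' _ (mul_mem_mul hc hb) _ (mul_mem_mul hc' hb)
  · simpa only [one_mul] using this
  · have e : P.e ((P.J S γ * y).1, (P.J S γ * y).2 * b) = S.j γ * P.e (y.1, y.2 * b) := by
      conv_rhs => rw [← P.e.apply_symm_apply (S.j γ), ← map_mul]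
      congr 1
      ext <;> simp [J, mul_assoc]
    simp only [e]
    conv_lhs => rw [← hγ]
    rw [v.eqv, hV γ x hγ]

theorem stage (hV : ∀ γ x, γ • x = x → ∀ z, V γ x z = z) {x : X} {K U A₁ : Set G₁}
    {A₂ B : Set G₂} {n ω : ℝ} (hω : ω ≤ 1 / 2) (hU : Slow P.W₁ H U ω) (h1 : (1 : G₁) ∈ U)
    (hK : ∀ u ∈ U, ∀ s ∈ P.W₁.S, u * s ∈ K)
    (h : GoodAt H (P.J S) x K U A₁ A₂ n) (v : Sec S V) {η σ : ℝ}
    (hη : 0 ≤ η) (hB : BoxLe (fun y => v (x, P.e y)) A₁ (A₂ * B) η) {b : G₂} (hb : b ∈ B)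
    (hσ : ∀ u ∈ U, ‖(1 - P.R₁ S V) v (x, P.e (u, b))‖ ≤ σ) :
    ∀ g ∈ K, ‖v (x, P.e (g, b)) - v (x, P.e (1, b))‖ ≤ 2 * (n * η) + 4 * σ :=
  osc1 P.W₁ hω hU h1 hK (sl_meas v x b) (v.bdd.imp fun _ hC _ => hC _)
    (good_sl hV h v hη hB hb) fun u hu => by
      rw [← P.R₁_apply]; exact hσ u hu

theorem box_R₁ {x : X} {A₁ : Set G₁} {A₂ : Set G₂} (v : Sec S V) {η : ℝ}
    (hB : BoxLe (fun y => v (x, P.e y)) (A₁ * P.W₁.S) A₂ η) :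
    BoxLe (fun y => P.R₁ S V v (x, P.e y)) A₁ A₂ η := fun a ha a' ha' b hb b' hb' => by
  simp only [R₁_apply]
  have i := sl_int (P := P) v x
  rw [← integral_sub (i _ _) (i _ _), ← integral_sub _ (i _ _), ← integral_add _ (i _ _)]
  · refine (norm_integral_le_of_norm_le_const (C := η) ?_).trans (by simp)
    filter_upwards [P.W₁.ae_mem] with s hs
    exact hB _ (mul_mem_mul ha hs) _ (mul_mem_mul ha' hs) b hb b' hb'
  · exact ((i _ _).sub (i _ _)).sub (i _ _)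
  · exact (i _ _).sub (i _ _)

theorem stage2 (hV : ∀ γ x, γ • x = x → ∀ z, V γ x z = z) {x : X} {K U A₁ : Set G₁}
    {A₂ B : Set G₂} {n ω : ℝ} (hn : 0 ≤ n) (hω : ω ≤ 1 / 2)
    (hU : Slow P.W₁ H U ω) (h1 : (1 : G₁) ∈ U) (hK : ∀ u ∈ U, ∀ s ∈ P.W₁.S, u * s ∈ K)
    (h : GoodAt H (P.J S) x K U A₁ A₂ n) (v : Sec S V) {η σ : ℝ}
    (hη : 0 ≤ η) (hB : BoxLe (fun y => v (x, P.e y)) (A₁ * P.W₁.S) (A₂ * B) η) {b : G₂}
    (hb : b ∈ B) (hσ : ∀ u ∈ U, ‖(1 - P.R₁ S V) v (x, P.e (u, b))‖ ≤ σ) {g : G₁}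
    (hg : ∀ s ∈ P.W₁.S, g * s ∈ K) :
    ‖(1 - P.R₁ S V) (P.R₁ S V v) (x, P.e (g, b))‖ ≤ 4 * (n * η) + 8 * (ω * σ) := by
  have hB' : BoxLe (fun y => v (x, P.e y)) A₁ (A₂ * B) η := fun a ha a' ha' =>
    hB a (by simpa using mul_mem_mul ha P.W₁.one) a' (by simpa using mul_mem_mul ha' P.W₁.one)
  have h2 := stage hV hω hU h1 hK h v hη hB' hb hσ
  have h3 : ∀ k ∈ K, ‖P.R₁ S V v (x, P.e (k, b)) - P.R₁ S V v (x, P.e (1, b))‖ ≤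
      2 * (n * η) + 4 * (ω * σ) := fun k hk => by
    obtain ⟨u, hu, h4⟩ := good_sl hV h (P.R₁ S V v) hη (box_R₁ v hB) hb k hk
    have h5 := hU u hu _ (sl_meas (P := P) v x b) (v.bdd.imp fun _ hC _ => hC _) _ _
      (fun s hs => h2 s (by simpa using hK 1 h1 s hs)) fun s hs => h2 _ (hK u hu s hs)
    have h6 : ∫ s, v (x, P.e (s, b)) ∂P.W₁.r = P.R₁ S V v (x, P.e (1, b)) := by
      simp only [R₁_apply, one_mul]
    rw [← P.R₁_apply, h6] at h5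
    have := norm_add_le_of_le h4 h5
    rw [sub_add_sub_cancel] at this
    nlinarith [mul_nonneg hn hη]
  have e : (1 - P.R₁ S V) (P.R₁ S V v) (x, P.e (g, b)) =
      ∫ s, (P.R₁ S V v (x, P.e (g, b)) - P.R₁ S V v (x, P.e (g * s, b))) ∂P.W₁.r := by
    rw [integral_sub (integrable_const _) (sl_int _ x _ _), ← P.R₁_apply]
    simp
  rw [e]
  refine (norm_integral_le_of_norm_le_const (C := 4 * (n * η) + 8 * (ω * σ)) ?_).trans (by simp)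
  filter_upwards [P.W₁.ae_mem] with s hs
  have := norm_sub_le_of_le (h3 g (by simpa using hg 1 P.W₁.one)) (h3 _ (hg s hs))
  rw [sub_sub_sub_cancel_right] at this
  linarith

theorem maj_markov {μ : Measure X} [IsFiniteMeasure μ] {s : X → ℝ} {c t : ℝ} (h : Maj μ s c)
    (ht : 0 < t) : μ.real {x | t ≤ s x} ≤ c / t := by
  rw [le_div_iff₀ ht, mul_comm]
  exact (mul_meas_ge_le_integral_of_nonneg (ae_of_all _ h.nn) h.int t).trans h.le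

theorem maj_add {μ : Measure X} {s s' : X → ℝ} {c c' p q : ℝ} (h : Maj μ s c) (h' : Maj μ s' c')
    (hp : 0 ≤ p) (hq : 0 ≤ q) : Maj μ (fun x => p * s x + q * s' x) (p * c + q * c') where
  meas := (h.meas.const_mul p).add (h'.meas.const_mul q)
  int := (h.int.const_mul p).add (h'.int.const_mul q)
  nn x := add_nonneg (mul_nonneg hp (h.nn x)) (mul_nonneg hq (h'.nn x))
  le := by
    rw [integral_add (h.int.const_mul p) (h'.int.const_mul q), integral_const_mul,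
      integral_const_mul]
    exact add_le_add (mul_le_mul_of_nonneg_left h.le hp) (mul_le_mul_of_nonneg_left h'.le hq)

theorem setInt_le (S : Setup Γ G X) {s : X → ℝ} {c : ℝ} (h : Maj S.μ s c) (u : Sec S V)
    {A : Set (X × G)} (hA : MeasurableSet A) (hu : ∀ y ∈ A, ‖u y‖ ^ 2 ≤ s y.1) :
    ∫ y in A, ‖u y‖ ^ 2 ∂S.m ≤ c := by
  have hi : Integrable (fun y : X × G => s y.1) S.m := h.int.comp_fst _
  refine (setIntegral_mono_on u.int_sq.integrableOn hi.integrableOn hA hu).trans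
    ((setIntegral_le_integral hi (ae_of_all _ fun y => h.nn _)).trans ?_)
  have : ∫ y, s y.1 ∂S.m = ∫ x, s x ∂S.μ := by
    rw [Setup.m, integral_prod _ hi]; simp
  exact this ▸ h.le

theorem setInt_add (u v : Sec S V) (A : Set (X × G)) :
    ∫ y in A, ‖(u + v) y‖ ^ 2 ∂S.m ≤
      2 * ∫ y in A, ‖u y‖ ^ 2 ∂S.m + 2 * ∫ y in A, ‖v y‖ ^ 2 ∂S.m := by
  rw [← integral_const_mul, ← integral_const_mul, ← integral_add
    (u.int_sq.integrableOn.const_mul 2) (v.int_sq.integrableOn.const_mul 2)]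
  refine integral_mono (u + v).int_sq.integrableOn ((u.int_sq.integrableOn.const_mul 2).add
    (v.int_sq.integrableOn.const_mul 2)) fun y => ?_
  have := norm_add_le (u y) (v y)
  simp only [Sec.add_apply]
  nlinarith [norm_nonneg (u y + v y), sq_nonneg (‖u y‖ - ‖v y‖)]

theorem setInt_le_norm (u : Sec S V) (A : Set (X × G)) : ∫ y in A, ‖u y‖ ^ 2 ∂S.m ≤ ‖u‖ ^ 2 := by
  rw [u.norm_sq]
  exact setIntegral_le_integral u.int_sq (ae_of_all _ fun y => sq_nonneg _)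

variable (P S V) in
/-- The one-sided estimate. -/
theorem one (hV : ∀ γ x, γ • x = x → ∀ z, V γ x z = z)
    (hd : ∀ᵐ x ∂S.μ, Dense ((fun γ => (P.e.symm (S.j γ)).1) ''
      (⁅stabilizer Γ x, stabilizer Γ x⁆ : Subgroup Γ) * (P.W₁.K : Set G₁)))
    {ε β : ℝ} (hε : 0 < ε) (hβ : 0 < β) {K₀ : Set G} (hK₀ : IsCompact K₀) :
    ∃ (C : ℝ) (Z₀ : Set X), 0 ≤ C ∧ MeasurableSet Z₀ ∧ S.μ.real Z₀ ≤ β ∧
      ∀ (τ : ℝ), 0 < τ → ∀ (w : Sec S V) (a b : ℝ), ‖(1 - P.R₁ S V) w‖ ≤ a →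
        ‖(1 - P.R₂ S V) w‖ ≤ a → ‖(1 - P.R₁ S V) ((1 - P.R₁ S V) w)‖ ≤ b →
        ‖(1 - P.R₁ S V) ((1 - P.R₂ S V) w)‖ ≤ b →
        ∃ Z : Set X, MeasurableSet Z ∧ S.μ.real Z ≤ C * a ^ 2 / τ ^ 2 ∧
          ∀ A : Set X, MeasurableSet A → (∀ x ∈ A, x ∉ Z₀ ∧ x ∉ Z) →
            ∫ y in A ×ˢ K₀, ‖(1 - P.R₁ S V) w y‖ ^ 2 ∂S.m ≤
              ε * a ^ 2 + C * τ * √(a * b) + C * b ^ 2 := by
  have O := P.ops S V
  set R₁ := P.R₁ S V with hR₁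
  set R₂ := P.R₂ S V with hR₂
  obtain ⟨U₁, hU₁, hU₁'⟩ := exists_compact_mem_nhds (1 : G₁)
  have hU₀ : IsCompact ((P.W₁.K : Set G₁) * U₁) := P.W₁.kc.mul hU₁
  set U₀ := (P.W₁.K : Set G₁) * U₁ with hU₀e
  have hK₁ : IsCompact ((fun g => (P.e.symm g).1) '' K₀) := hK₀.image (by fun_prop)
  have hB : IsCompact ((fun g => (P.e.symm g).2) '' K₀) := hK₀.image (by fun_prop)
  set K₁ := (fun g => (P.e.symm g).1) '' K₀
  set B := (fun g => (P.e.symm g).2) '' K₀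
  obtain ⟨C₀, hC₀, H₀⟩ := P.loc0 S V hU₀ hB
  obtain ⟨ω, hω0, hω, hωε⟩ : ∃ ω : ℝ, 0 < ω ∧ ω ≤ 1 / 2 ∧ 256 * ω ^ 2 * C₀ ≤ ε := by
    refine ⟨min (1 / 2) (ε / (128 * C₀ + 1)), by positivity, min_le_left _ _, ?_⟩
    have h1 := min_le_left (1 / 2) (ε / (128 * C₀ + 1))
    have h2 := (le_div_iff₀ (by positivity)).1 (min_le_right (1 / 2) (ε / (128 * C₀ + 1)))
    have h3 : 0 < min (1 / 2) (ε / (128 * C₀ + 1)) := by positivity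
    generalize min (1 / 2) (ε / (128 * C₀ + 1)) = ω at *
    nlinarith [mul_nonneg h3.le hC₀]
  obtain ⟨U', hU, hUU, hS⟩ : ∃ U ∈ 𝓝 (1 : G₁), (P.W₁.K : Set G₁) * U ⊆ U₀ ∧
      Slow P.W₁ H ((P.W₁.K : Set G₁) * U) ω :=
    ⟨_, inter_mem hU₁' (P.W₁.osc' H hω0), mul_subset_mul_left inter_subset_left, by
      rintro _ ⟨k, hk, w, hw, rfl⟩
      exact hw.2 k hk⟩
  have h1U : (1 : G₁) ∈ (P.W₁.K : Set G₁) * U' :=
    ⟨1, P.W₁.K.one_mem, 1, mem_of_mem_nhds hU, mul_one _⟩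
  set U := (P.W₁.K : Set G₁) * U' with hUe
  have hKU : ∀ K : Set G₁, ∀ u ∈ U, ∀ s ∈ P.W₁.S, u * s ∈ (K ∪ U₀) * P.W₁.S :=
    fun K u hu s hs => mul_mem_mul (.inr (hUU hu)) hs
  obtain ⟨A₁, A₂, n, Z₁, hA₁, hA₂, hn, hZ₁, hZ₁', G₁'⟩ := good H (P.J S) S.μ S.fix P.W₁.kc hd
    ((hK₁.union hU₀).mul P.W₁.cpt) hU (half_pos hβ)
  obtain ⟨K₁', K₂', C₂, hK₁', hK₂', hC₂, H₂⟩ := P.loc2 S V (hA₁.mul P.W₁.cpt) (hA₂.mul hB)
  obtain ⟨A₁', A₂', n', Z₂, hA₁', hA₂', hn', hZ₂, hZ₂', G₂'⟩ := good H (P.J S) S.μ S.fix P.W₁.kc hd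
    ((hK₁'.union hU₀).mul P.W₁.cpt) hU (half_pos hβ)
  obtain ⟨C₁, hC₁, H₁⟩ := P.loc1 S V hA₁' (hA₂'.mul hK₂')
  obtain ⟨C₃, hC₃, H₃⟩ := P.loc0 S V hU₀ hK₂'
  refine ⟨32 * n' ^ 2 * C₁ + 128 * C₃ + 64 * n ^ 2 * C₂ + 50, Z₁ ∪ Z₂, by positivity,
    hZ₁.union hZ₂, (measureReal_union_le _ _).trans (by linarith), ?_⟩
  intro τ hτ w a b ha₁ ha₂ hb₁ hb₂
  have ha : 0 ≤ a := (norm_nonneg _).trans ha₁
  have hb : 0 ≤ b := (norm_nonneg _).trans hb₁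
  have c12 : ∀ z, R₁ (R₂ z) = R₂ (R₁ z) := fun z => LinearMap.congr_fun O.comm.eq z
  have cR : ∀ z, ‖R₁ (R₂ z)‖ ≤ ‖z‖ := fun z => (O.c₁ _).trans (O.c₂ _)
  have e₁ : ∀ z, (1 - R₁) (R₁ (R₂ z)) = R₁ (R₂ ((1 - R₁) z)) := fun z => by simp [c12]
  have e₂ : ∀ z, (1 - R₂) (R₁ (R₂ z)) = R₁ (R₂ ((1 - R₂) z)) := fun z => by simp [c12]
  obtain ⟨s₁, m₁, p₁⟩ := H₁ w
  obtain ⟨s₃, m₃, p₃⟩ := H₃ ((1 - R₁) w)
  obtain ⟨s₂, m₂, p₂⟩ := H₂ (R₁ (R₂ w)) τ hτ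
  obtain ⟨s₀, m₀, p₀⟩ := H₀ ((1 - R₁) (R₁ (R₂ w)))
  have mA := maj_add m₁ m₃ (p := 32 * n' ^ 2) (q := 128) (by positivity) (by norm_num)
  have mB := maj_add m₂ m₀ (p := 32 * n ^ 2) (q := 128 * ω ^ 2) (by positivity) (by positivity)
  refine ⟨_, measurableSet_le measurable_const mA.meas,
    (maj_markov mA (sq_pos_of_pos hτ)).trans ?_, fun A hA hAZ => ?_⟩
  · refine div_le_div_of_nonneg_right ?_ (sq_nonneg τ)
    have h1 : ‖(1 - R₁) w‖ * ‖(1 - R₂) w‖ ≤ a ^ 2 := by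
      rw [sq]; exact mul_le_mul ha₁ ha₂ (norm_nonneg _) ha
    have h2 : ‖(1 - R₁) w‖ ^ 2 ≤ a ^ 2 := by gcongr
    have h3 := mul_le_mul_of_nonneg_left h1 (by positivity : 0 ≤ 32 * n' ^ 2 * C₁)
    have h4 := mul_le_mul_of_nonneg_left h2 (by positivity : 0 ≤ 128 * C₃)
    have h5 : 0 ≤ (64 * n ^ 2 * C₂ + 50) * a ^ 2 := by positivity
    nlinarith
  have key : ∀ y ∈ A ×ˢ K₀, ‖(1 - R₁) (R₁ (R₁ (R₂ (R₁ (R₂ w))))) y‖ ^ 2 ≤
      32 * n ^ 2 * s₂ y.1 + 128 * ω ^ 2 * s₀ y.1 := by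
    rintro ⟨x, g⟩ ⟨hx, hg⟩
    obtain ⟨hx1, hx2⟩ := hAZ x hx
    have gA : ∀ c ∈ K₁', ∀ d ∈ K₂', ‖R₁ (R₂ w) (x, P.e (c, d)) - R₁ (R₂ w) (x, P.e (1, d))‖ ≤
        2 * (n' * √(s₁ x)) + 4 * √(s₃ x) := fun c hc d hd' =>
      stage hV hω hS h1U (hKU K₁') (G₂' x fun h => hx1 (.inr h)) _ (Real.sqrt_nonneg _) (p₁ x) hd'
        (fun u hu => by
          rw [← hR₁, e₁]; exact Real.le_sqrt_of_sq_le (p₃ x u (hUU hu) d hd')) c
        (by simpa using Set.mul_mem_mul (mem_union_left U₀ hc) P.W₁.one)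
    have gB := p₂ x fun c hc c' hc' d hd' => by
      have h1 := norm_sub_le_of_le (gA c hc d hd') (gA c' hc' d hd')
      rw [sub_sub_sub_cancel_right] at h1
      refine h1.trans (abs_le_of_sq_le_sq' ?_ hτ.le).2
      have h2 : 32 * n' ^ 2 * s₁ x + 128 * s₃ x < τ ^ 2 := not_le.1 hx2
      have h3 := Real.sq_sqrt (m₁.nn x)
      have h4 := Real.sq_sqrt (m₃.nn x)
      nlinarith [sq_nonneg (n' * √(s₁ x) - 2 * √(s₃ x))]
    have gC := stage2 (σ := √(s₀ x)) hV hn hω hS h1U (hKU K₁) (G₁' x fun h => hx1 (.inl h)) _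
      (Real.sqrt_nonneg _) gB (mem_image_of_mem _ hg)
      (fun u hu => by
        rw [← hR₁, e₁]; exact Real.le_sqrt_of_sq_le (p₀ x u (hUU hu) _ (mem_image_of_mem _ hg)))
      (g := (P.e.symm g).1) fun s hs => mul_mem_mul (.inl (mem_image_of_mem _ hg)) hs
    simp only [Prod.mk.eta, ContinuousMulEquiv.apply_symm_apply] at gC
    have h3 := Real.sq_sqrt (m₂.nn x)
    have h4 := Real.sq_sqrt (m₀.nn x)
    refine (pow_le_pow_left₀ (norm_nonneg _) gC 2).trans ?_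
    nlinarith [sq_nonneg (n * √(s₂ x) - 2 * (ω * √(s₀ x)))]
  have h1 := setInt_le S mB _ (hA.prod hK₀.measurableSet) key
  set z := (1 - R₁) w with hz
  have e : z = (1 - R₁) (R₁ (R₁ (R₂ (R₁ (R₂ w))))) + ((1 - R₁) z + R₁ ((1 - R₁) z) +
      R₁ (R₁ ((1 - R₁) z)) + R₁ (R₁ (R₁ ((1 - R₂) z))) + R₁ (R₁ (R₁ (R₂ ((1 - R₂) z))))) := by
    simp only [hz, LinearMap.sub_apply, Module.End.one_apply, map_sub, c12]; abel
  have hb₃ : ‖(1 - R₂) z‖ ≤ b := by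
    convert hb₂ using 2
    simp only [hz, LinearMap.sub_apply, Module.End.one_apply, map_sub, c12]; abel
  have h2 : ‖(1 - R₁) z + R₁ ((1 - R₁) z) + R₁ (R₁ ((1 - R₁) z)) + R₁ (R₁ (R₁ ((1 - R₂) z))) +
      R₁ (R₁ (R₁ (R₂ ((1 - R₂) z))))‖ ≤ b + b + b + b + b :=
    norm_add_le_of_le (norm_add_le_of_le (norm_add_le_of_le (norm_add_le_of_le hb₁
      ((O.c₁ _).trans hb₁)) ((O.c₁ _).trans ((O.c₁ _).trans hb₁)))
      ((O.c₁ _).trans ((O.c₁ _).trans ((O.c₁ _).trans hb₃))))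
      ((O.c₁ _).trans ((O.c₁ _).trans ((cR _).trans hb₃)))
  have h3 := (setInt_le_norm _ (A ×ˢ K₀)).trans (pow_le_pow_left₀ (norm_nonneg _) h2 2)
  rw [e]
  refine (setInt_add _ _ _).trans ?_
  have h4 : √(‖(1 - R₁) ((1 - R₂) (R₁ (R₂ w)))‖ * ‖(1 - R₂) (R₁ (R₂ w))‖) ≤ √(a * b) := by
    rw [e₂, e₁, mul_comm]
    exact Real.sqrt_le_sqrt (mul_le_mul ((cR _).trans ha₂) ((cR _).trans hb₂) (norm_nonneg _) ha)
  have h5 : ‖(1 - R₁) (R₁ (R₂ w))‖ ^ 2 ≤ a ^ 2 := by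
    rw [e₁]; exact pow_le_pow_left₀ (norm_nonneg _) ((cR _).trans ha₁) 2
  have h6 := mul_le_mul_of_nonneg_left h4 (by positivity : 0 ≤ 64 * n ^ 2 * C₂ * τ)
  have h7 := mul_le_mul_of_nonneg_left h5 (by positivity : 0 ≤ 256 * ω ^ 2 * C₀)
  have h8 := mul_le_mul_of_nonneg_right hωε (sq_nonneg a)
  have h9 : 0 ≤ (32 * n' ^ 2 * C₁ + 128 * C₃ + 50) * τ * √(a * b) := by positivity
  have h10 : 0 ≤ (32 * n' ^ 2 * C₁ + 128 * C₃ + 64 * n ^ 2 * C₂) * b ^ 2 := by positivity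
  nlinarith

end Spl

end Pool.Agent.Lib.MP_60cbcc_al.H3Z
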