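import Mathlib

/-!
Growth decomposition of an invertible linear map.
-/

namespace Pool.Agent.Lib.MP_60cbcc_al.H3Z

variable {E : Type} [NormedAddCommGroup E] [NormedSpace ℝ E]

lemma realA_le_abs {a C c c' : ℝ} {k : ℕ} (h : a ≤ C * c ^ k) (h0 : 0 ≤ c) (h1 : c ≤ c') :
    a ≤ |C| * c' ^ k :=
  h.trans (mul_le_mul (le_abs_self C) (pow_le_pow_left₀ h0 h1 k) (pow_nonneg h0 k) (abs_nonneg C))

/-- Exponentially contracted vectors. -/
def contr (T : Module.End ℝ E) : Submodule ℝ E where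
  carrier := {x | ∃ c C : ℝ, 0 ≤ c ∧ c < 1 ∧ ∀ k : ℕ, ‖(T ^ k) x‖ ≤ C * c ^ k}
  zero_mem' := ⟨0, 0, le_rfl, zero_lt_one, fun k => by simp⟩
  add_mem' := by
    rintro x y ⟨c, C, h0, h1, h⟩ ⟨c', C', h0', h1', h'⟩
    refine ⟨max c c', |C| + |C'|, le_max_of_le_left h0, max_lt h1 h1', fun k => ?_⟩
    rw [map_add, add_mul]
    exact (norm_add_le _ _).trans (add_le_add (realA_le_abs (h k) h0 (le_max_left _ _))
      (realA_le_abs (h' k) h0' (le_max_right _ _)))
  smul_mem' := by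
    rintro r x ⟨c, C, h0, h1, h⟩
    refine ⟨c, ‖r‖ * C, h0, h1, fun k => ?_⟩
    rw [map_smul, norm_smul, mul_assoc]
    exact mul_le_mul_of_nonneg_left (h k) (norm_nonneg r)

/-- Vectors of subexponential growth. -/
def subexp (T : Module.End ℝ E) : Submodule ℝ E where
  carrier := {x | ∀ c : ℝ, 1 < c → ∃ C : ℝ, ∀ k : ℕ, ‖(T ^ k) x‖ ≤ C * c ^ k}
  zero_mem' := fun c _ => ⟨0, fun k => by simp⟩
  add_mem' := by
    intro x y hx hy c hc
    obtain ⟨C, h⟩ := hx c hc
    obtain ⟨C', h'⟩ := hy c hc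
    refine ⟨C + C', fun k => ?_⟩
    rw [map_add, add_mul]
    exact (norm_add_le _ _).trans (add_le_add (h k) (h' k))
  smul_mem' := by
    intro r x hx c hc
    obtain ⟨C, h⟩ := hx c hc
    refine ⟨‖r‖ * C, fun k => ?_⟩
    rw [map_smul, norm_smul, mul_assoc]
    exact mul_le_mul_of_nonneg_left (h k) (norm_nonneg r)

namespace RealA

section cx

variable {V : Type} [NormedAddCommGroup V] [NormedSpace ℂ V]

lemma growth (S : Module.End ℂ V) (μ : ℂ) {c : ℝ} (hc : ‖μ‖ < c) (m : ℕ) :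
    ∀ v : V, ((S - μ • (1 : Module.End ℂ V)) ^ m) v = 0 →
      ∃ C : ℝ, ∀ k : ℕ, ‖(S ^ k) v‖ ≤ C * c ^ k := by
  induction m with
  | zero =>
    intro v hv
    obtain rfl : v = 0 := by simpa using hv
    exact ⟨0, fun k => by simp⟩
  | succ m ih =>
    intro v hv
    rw [pow_succ, Module.End.mul_apply] at hv
    obtain ⟨C, hC⟩ := ih _ hv
    have hc0 : 0 < c := (norm_nonneg μ).trans_lt hc
    have hd : 0 < c - ‖μ‖ := sub_pos.2 hc
    obtain ⟨D, hD1, hD2⟩ : ∃ D : ℝ, ‖v‖ ≤ D ∧ C ≤ D * (c - ‖μ‖) :=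
      ⟨max ‖v‖ (C / (c - ‖μ‖)), le_max_left _ _, (div_le_iff₀ hd).1 (le_max_right _ _)⟩
    refine ⟨D, fun k => ?_⟩
    induction k with
    | zero => simpa using hD1
    | succ k ihk =>
      have e : (S ^ (k + 1)) v =
          μ • (S ^ k) v + (S ^ k) ((S - μ • (1 : Module.End ℂ V)) v) := by
        rw [pow_succ, Module.End.mul_apply, LinearMap.sub_apply, LinearMap.smul_apply,
          Module.End.one_apply, map_sub, map_smul]
        abel
      have h1 : ‖(S ^ (k + 1)) v‖ ≤ ‖μ‖ * (D * c ^ k) + C * c ^ k := by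
        rw [e]
        refine (norm_add_le _ _).trans (add_le_add ?_ (hC k))
        rw [norm_smul]
        exact mul_le_mul_of_nonneg_left ihk (norm_nonneg μ)
      have h2 : C * c ^ k ≤ D * (c - ‖μ‖) * c ^ k :=
        mul_le_mul_of_nonneg_right hD2 (pow_nonneg hc0.le k)
      rw [pow_succ c]
      nlinarith

lemma inv_nil {S S' : Module.End ℂ V} (h : S * S' = 1) (h' : S' * S = 1) {μ : ℂ} (hμ : μ ≠ 0)
    {m : ℕ} {v : V} (hv : ((S - μ • (1 : Module.End ℂ V)) ^ m) v = 0) :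
    ((S' - μ⁻¹ • (1 : Module.End ℂ V)) ^ m) v = 0 := by
  have e : S' - μ⁻¹ • (1 : Module.End ℂ V) = ((-μ⁻¹) • S') * (S - μ • (1 : Module.End ℂ V)) := by
    rw [smul_mul_assoc, mul_sub, h', mul_smul_comm, mul_one, smul_sub, smul_smul, neg_mul,
      inv_mul_cancel₀ hμ, neg_smul, neg_smul, one_smul]
    abel
  have hc : Commute ((-μ⁻¹) • S') (S - μ • (1 : Module.End ℂ V)) := by
    refine Commute.smul_left (Commute.sub_right (h'.trans h.symm) ?_) _
    exact (Commute.one_right S').smul_right μ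
  rw [e, hc.mul_pow, Module.End.mul_apply, hv, map_zero]

end cx

variable {n : ℕ} (b : Module.Basis (Fin n) ℝ E)

/-- The complexification of an endomorphism. -/
noncomputable def cxM (T : Module.End ℝ E) : Matrix (Fin n) (Fin n) ℂ :=
  (LinearMap.toMatrix b b T).map Complex.ofRealHom

/-- The real part of a complex coordinate vector. -/
noncomputable def rp : (Fin n → ℂ) →ₗ[ℝ] E :=
  b.equivFun.symm.toLinearMap ∘ₗ (LinearMap.pi fun i => Complex.reLm ∘ₗ LinearMap.proj i)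

lemma rp_apply (v : Fin n → ℂ) : rp b v = b.equivFun.symm fun i => (v i).re := rfl

lemma rp_surj (x : E) : ∃ v, rp b v = x :=
  ⟨fun i => (b.equivFun x i : ℂ), by rw [rp_apply]; simp⟩

lemma rp_zero {v : Fin n → ℂ} (h : rp b v = 0) (h' : rp b (Complex.I • v) = 0) : v = 0 := by
  rw [rp_apply, LinearEquiv.map_eq_zero_iff] at h h'
  funext i
  have h1 := congrFun h i
  have h2 := congrFun h' i
  simp only [Pi.smul_apply, smul_eq_mul, Complex.mul_re, Complex.I_re, Complex.I_im, zero_mul,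
    one_mul, zero_sub, Pi.zero_apply, neg_eq_zero] at h1 h2
  exact Complex.ext h1 h2

lemma rp_cx (T : Module.End ℝ E) (v : Fin n → ℂ) :
    rp b (Matrix.toLin' (cxM b T) v) = T (rp b v) := by
  apply b.equivFun.injective
  rw [rp_apply, LinearEquiv.apply_symm_apply]
  have h1 : b.equivFun (T (rp b v)) = (LinearMap.toMatrix b b T).mulVec (b.equivFun (rp b v)) := by
    rw [Module.Basis.equivFun_apply, Module.Basis.equivFun_apply, LinearMap.toMatrix_mulVec_repr]
  rw [h1, rp_apply, LinearEquiv.apply_symm_apply]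
  funext i
  simp [cxM, Matrix.mulVec, dotProduct]

lemma rp_cx_pow (T : Module.End ℝ E) (k : ℕ) (v : Fin n → ℂ) :
    rp b ((Matrix.toLin' (cxM b T) ^ k) v) = (T ^ k) (rp b v) := by
  induction k with
  | zero => simp
  | succ k ih => rw [pow_succ', pow_succ', Module.End.mul_apply, Module.End.mul_apply, rp_cx, ih]

lemma cx_mul {T T' : Module.End ℝ E} (h : T * T' = 1) :
    (Matrix.toLin' (cxM b T) : Module.End ℂ (Fin n → ℂ)) * Matrix.toLin' (cxM b T') = 1 := by
  have : cxM b T * cxM b T' = 1 := by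
    rw [cxM, cxM, ← Matrix.map_mul, ← LinearMap.toMatrix_mul, h, LinearMap.toMatrix_one,
      Matrix.map_one _ (map_zero _) (map_one _)]
  rw [Module.End.mul_eq_comp, ← Matrix.toLin'_mul, this, Matrix.toLin'_one]
  rfl

lemma real_growth (T : Module.End ℝ E) (μ : ℂ) {c : ℝ} (hc : ‖μ‖ < c) {m : ℕ} {v : Fin n → ℂ}
    (hv : ((Matrix.toLin' (cxM b T) - μ • (1 : Module.End ℂ (Fin n → ℂ))) ^ m) v = 0) :
    ∃ C : ℝ, ∀ k : ℕ, ‖(T ^ k) (rp b v)‖ ≤ C * c ^ k := by
  obtain ⟨C, hC⟩ := growth _ μ hc m v hv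
  refine ⟨‖LinearMap.toContinuousLinearMap (rp b)‖ * C, fun k => ?_⟩
  rw [← rp_cx_pow, mul_assoc]
  exact ((LinearMap.toContinuousLinearMap (rp b)).le_opNorm _).trans
    (mul_le_mul_of_nonneg_left (hC k) (norm_nonneg _))

lemma mem_contr (T : Module.End ℝ E) {μ : ℂ} (hμ : ‖μ‖ < 1) {m : ℕ} {v : Fin n → ℂ}
    (hv : ((Matrix.toLin' (cxM b T) - μ • (1 : Module.End ℂ (Fin n → ℂ))) ^ m) v = 0) :
    rp b v ∈ contr T := by
  obtain ⟨c, h1, h2⟩ := exists_between hμ
  obtain ⟨C, hC⟩ := real_growth b T μ h1 hv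
  exact ⟨c, C, (norm_nonneg μ).trans h1.le, h2, hC⟩

lemma mem_subexp (T : Module.End ℝ E) {μ : ℂ} (hμ : ‖μ‖ ≤ 1) {m : ℕ} {v : Fin n → ℂ}
    (hv : ((Matrix.toLin' (cxM b T) - μ • (1 : Module.End ℂ (Fin n → ℂ))) ^ m) v = 0) :
    rp b v ∈ subexp T := fun _ hc => real_growth b T μ (hμ.trans_lt hc) hv

lemma mem_contr_inv {T T' : Module.End ℝ E} (h : T * T' = 1) (h' : T' * T = 1) {μ : ℂ}
    (hμ : 1 < ‖μ‖) {m : ℕ} {v : Fin n → ℂ}
    (hv : ((Matrix.toLin' (cxM b T) - μ • (1 : Module.End ℂ (Fin n → ℂ))) ^ m) v = 0) :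
    rp b v ∈ contr T' := by
  have h0 : μ ≠ 0 := norm_pos_iff.1 (zero_lt_one.trans hμ)
  refine mem_contr b T' ?_ (inv_nil (cx_mul b h) (cx_mul b h') h0 hv)
  rw [norm_inv]
  exact inv_lt_one_of_one_lt₀ hμ

end RealA

variable [FiniteDimensional ℝ E]

open RealA in
theorem grow_decomp {T T' : Module.End ℝ E} (h : T * T' = 1) :
    contr T' ⊔ (subexp T ⊓ subexp T') ⊔ contr T = ⊤ := by
  have h' : T' * T = 1 := mul_eq_one_comm.1 h
  let b := Module.finBasis ℝ E
  rw [eq_top_iff]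
  rintro x -
  obtain ⟨v, rfl⟩ := rp_surj b x
  have hv : v ∈ ⨆ μ, Module.End.maxGenEigenspace (Matrix.toLin' (cxM b T)) μ := by
    rw [Module.End.iSup_maxGenEigenspace_eq_top]
    trivial
  refine Submodule.iSup_induction _ (motive := fun v => rp b v ∈
    contr T' ⊔ (subexp T ⊓ subexp T') ⊔ contr T) hv ?_ (by simp) ?_
  · intro μ w hw
    obtain ⟨m, hm⟩ := (Module.End.mem_maxGenEigenspace _ _ _).1 hw
    rcases lt_trichotomy ‖μ‖ 1 with hμ | hμ | hμ
    · exact Submodule.mem_sup_right (mem_contr b T hμ hm)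
    · have h0 : μ ≠ 0 := norm_pos_iff.1 (hμ ▸ zero_lt_one)
      refine Submodule.mem_sup_left (Submodule.mem_sup_right ⟨mem_subexp b T hμ.le hm, ?_⟩)
      refine mem_subexp b T' ?_ (inv_nil (cx_mul b h) (cx_mul b h') h0 hm)
      rw [norm_inv, hμ, inv_one]
    · exact Submodule.mem_sup_left (Submodule.mem_sup_left (mem_contr_inv b h h' hμ hm))
  · intro u w hu hw
    rw [map_add]
    exact add_mem hu hw

open RealA in
theorem contr_ne_bot {T T' : Module.End ℝ E} (h : T * T' = 1)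
    (ht : (Module.finrank ℝ E : ℝ) < |LinearMap.trace ℝ E T|) : contr T' ≠ ⊥ := by
  intro hb
  have h' : T' * T = 1 := mul_eq_one_comm.1 h
  let b := Module.finBasis ℝ E
  have h1 : ∀ μ ∈ (cxM b T).charpoly.roots, ‖μ‖ ≤ 1 := by
    intro μ hμ
    by_contra hlt
    have h2 : Module.End.HasEigenvalue (Matrix.toLin' (cxM b T)) μ := by
      rw [Module.End.hasEigenvalue_iff_isRoot_charpoly, Matrix.charpoly_toLin']
      exact Polynomial.isRoot_of_mem_roots hμ
    obtain ⟨v, hv⟩ := h2.exists_hasEigenvector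
    have h3 : ∀ z : ℂ, rp b (z • v) = 0 := by
      intro z
      have := mem_contr_inv b h h' (not_le.1 hlt) (m := 1) (v := z • v) (by
        rw [map_smul, pow_one, LinearMap.sub_apply, hv.apply_eq_smul]
        simp)
      rwa [hb, Submodule.mem_bot] at this
    exact hv.2 (rp_zero b (by simpa using h3 1) (h3 _))
  have h4 : ((LinearMap.trace ℝ E T : ℝ) : ℂ) = (cxM b T).charpoly.roots.sum := by
    rw [← Matrix.trace_eq_sum_roots_charpoly, LinearMap.trace_eq_matrix_trace ℝ b, cxM]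
    simp [Matrix.trace]
  have h5 : ‖(cxM b T).charpoly.roots.sum‖ ≤ Module.finrank ℝ E := by
    refine (norm_multiset_sum_le _).trans ?_
    refine (Multiset.sum_le_card_nsmul _ 1 ?_).trans ?_
    · intro x hx
      obtain ⟨μ, hμ, rfl⟩ := Multiset.mem_map.1 hx
      exact h1 μ hμ
    · have := Polynomial.card_roots' (cxM b T).charpoly
      rw [Matrix.charpoly_natDegree_eq_dim, Fintype.card_fin] at this
      rw [Multiset.card_map, nsmul_eq_mul, mul_one]
      exact_mod_cast this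
  rw [← h4, Complex.norm_real, Real.norm_eq_abs] at h5
  exact absurd ht (not_lt.2 h5)

end Pool.Agent.Lib.MP_60cbcc_al.H3Z
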