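import Pool.Agent.Lib.MP_60cbcc_al.H8WLie
import Pool.Agent.Lib.MP_60cbcc_al.H3ZClass

/-!
The adjoint action and the elementary properties of simple linear Lie groups.
-/

namespace Pool.Agent.Lib.MP_60cbcc_al.H3Z

open H8W
open scoped Matrix.Norms.Operator

variable {n : ℕ} {Q : Subgroup (GL (Fin n) ℝ)}

/-- The adjoint action on the Lie algebra. -/
noncomputable def Ad (h : IsNoncompactSimple Q) : Q →* Module.End ℝ (lieSub Q h.closed) where
  toFun q :=
    { toFun X := ⟨q.1.1 * X.1 * (q.1⁻¹).1,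
        conj_mem (fun _ hp => Q.mul_mem (Q.mul_mem q.2 hp) (Q.inv_mem q.2)) X.2⟩
      map_add' X Y := Subtype.ext (by simp [mul_add, add_mul])
      map_smul' c X := Subtype.ext (by simp) }
  map_one' := by ext X; simp
  map_mul' p q := by ext X; simp [mul_assoc]

theorem Ad_apply (h : IsNoncompactSimple Q) (q : Q) (X : lieSub Q h.closed) :
    (Ad h q X).1 = q.1.1 * X.1 * (q.1⁻¹).1 := rfl

theorem realB_closed (h : IsNoncompactSimple Q) {N : Subgroup Q} (hc : IsClosed (N : Set Q)) :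
    IsClosed (N.map Q.subtype : Set (GL (Fin n) ℝ)) :=
  h.closed.isClosedEmbedding_subtypeVal.isClosedMap _ hc

/-- A closed subgroup whose Lie algebra contains a non-zero ideal is the whole group. -/
theorem realB_top (h : IsNoncompactSimple Q) {N : Subgroup Q} (hc : IsClosed (N : Set Q))
    {W : Submodule ℝ (Matrix (Fin n) (Fin n) ℝ)} (h1 : W ≤ lieSub _ (realB_closed h hc))
    (h2 : W ≠ ⊥) (h3 : ∀ X ∈ lieSub Q h.closed, ∀ Y ∈ W, X * Y - Y * X ∈ W) : N = ⊤ := by
  have h4 := (h.simple W (fun X hX => (lie_iff h).1 fun t => Subgroup.map_subtype_le N (h1 hX t))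
    fun X hX => h3 X ((lie_iff h).2 hX)).resolve_left h2
  have h5 := top_of_exp h.closed h.connected (N.map Q.subtype) fun D hD => by
    simpa using h1 (h4.ge ((lie_iff h).1 hD)) 1
  refine eq_top_iff.2 fun q _ => ?_
  obtain ⟨x, hx, e⟩ := h5 q.2
  exact (show x = q from Subtype.ext e) ▸ hx

theorem realB_normal (h : IsNoncompactSimple Q) {N : Subgroup Q} (hN : N.Normal)
    (hc : IsClosed (N : Set Q)) {q : Q} {X : Matrix (Fin n) (Fin n) ℝ}
    (hne : q.1.1 * X * (q.1⁻¹).1 ≠ X) (hX : X ∈ lieSub Q h.closed)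
    (hq : ∀ u : Q, u * q * u⁻¹ * q⁻¹ ∈ N) : N = ⊤ := by
  have h1 : X - q.1.1 * X * (q.1⁻¹).1 ∈ lieSub _ (realB_closed h hc) := by
    refine mem_lie_of_hasDerivAt (realB_closed h hc)
      (c := fun t => expU (t • X) * expU (t • (-(q.1.1 * X * (q.1⁻¹).1))))
      (fun t => ⟨_, hq ⟨_, hX t⟩, ?_⟩) (by simp [expU_zero]) ?_
    · rw [smul_neg, expU_neg, ← smul_mul_assoc, ← mul_smul_comm, expU_conj]
      simp [mul_assoc]
    · have := (hasDerivAt_exp_smul_zero X).mul
        (hasDerivAt_exp_smul_zero (-(q.1.1 * X * (q.1⁻¹).1)))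
      exact this.congr_deriv (by simp [sub_eq_add_neg])
  refine realB_top h hc le_rfl (fun e => hne ?_) fun Y hY Z hZ => comm_mem _ fun t =>
    conj_mem ?_ hZ
  · rw [e, Submodule.mem_bot, sub_eq_zero] at h1
    exact h1.symm
  · rintro _ ⟨x, hx, rfl⟩
    exact ⟨_, hN.conj_mem x hx ⟨_, hY t⟩, rfl⟩

theorem realB_center (h : IsNoncompactSimple Q) {q : Q}
    (hq : ∀ X ∈ lieSub Q h.closed, q.1.1 * X * (q.1⁻¹).1 = X) : q ∈ Subgroup.center Q := by
  have h1 := top_of_exp h.closed h.connected (Subgroup.centralizer {q.1}) fun D hD => by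
    rw [Subgroup.mem_centralizer_singleton_iff, eq_comm, ← mul_inv_eq_iff_eq_mul, ← expU_conj,
      hq D hD]
  exact Subgroup.mem_center_iff.2 fun g =>
    Subtype.ext (Subgroup.mem_centralizer_singleton_iff.1 (h1 g.2))

theorem simple_cg (h : IsNoncompactSimple Q) :
    ∃ S : Set Q, IsCompact S ∧ Subgroup.closure S = ⊤ := by
  have := h.conn
  have := h.lc
  exact cgen

theorem simple_qs (h : IsNoncompactSimple Q) (N : Subgroup Q) (hN : N.Normal)
    (hc : IsClosed (N : Set Q)) : N ≤ Subgroup.center Q ∨ N = ⊤ := by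
  refine or_iff_not_imp_left.2 fun h1 => ?_
  obtain ⟨q, hq, h2⟩ := SetLike.not_le_iff_exists.1 h1
  have h3 := mt (realB_center h) h2
  push Not at h3
  obtain ⟨X, hX, h3⟩ := h3
  exact realB_normal h hN hc h3 hX fun u => N.mul_mem (hN.conj_mem q hq u) (N.inv_mem hq)

theorem simple_perf (h : IsNoncompactSimple Q) : Dense (commutator Q : Set Q) := by
  obtain ⟨X, hX, Y, hY, hXY⟩ := h.nonabelian
  obtain ⟨t, ht⟩ : ∃ t : ℝ, (expU (t • X)).1 * Y * ((expU (t • X))⁻¹).1 ≠ Y := by
    by_contra! h0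
    have hF : HasDerivAt (fun t : ℝ => NormedSpace.exp (t • X) * Y * NormedSpace.exp (t • (-X)))
        (X * Y - Y * X) 0 :=
      (((hasDerivAt_exp_smul_zero X).mul_const Y).mul (hasDerivAt_exp_smul_zero (-X))).congr_deriv
        (by simp [sub_eq_add_neg])
    refine hXY (sub_eq_zero.1 (hF.unique ?_))
    refine (hasDerivAt_const (0 : ℝ) Y).congr_of_eventuallyEq (.of_forall fun t => ?_)
    simp only
    rw [smul_neg]
    exact h0 t
  have h1 := realB_normal h (N := (commutator Q).topologicalClosure)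
    (Subgroup.is_normal_topologicalClosure _) (Subgroup.isClosed_topologicalClosure _)
    (q := ⟨_, (lie_iff h).2 hX t⟩) ht ((lie_iff h).2 hY) fun u =>
      Subgroup.le_topologicalClosure _
        (Subgroup.commutator_mem_commutator (Subgroup.mem_top u) (Subgroup.mem_top _))
  exact fun q => h1.ge (Subgroup.mem_top q)

theorem simple_nfi (h : IsNoncompactSimple Q) (N : Subgroup Q) (hc : IsClosed (N : Set Q))
    (hN : N.FiniteIndex) : N = ⊤ := by
  have := h.conn
  exact eq_top_of_nhds N ((N.isOpen_of_isClosed_of_finiteIndex hc).mem_nhds N.one_mem)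

theorem simple_nd (h : IsNoncompactSimple Q) : ¬ DiscreteTopology Q := by
  intro _
  have := h.conn
  have : Subsingleton Q := PreconnectedSpace.trivial_of_discrete
  exact h.noncompact (isCompact_iff_compactSpace.2 (inferInstanceAs (CompactSpace Q)))

end Pool.Agent.Lib.MP_60cbcc_al.H3Z
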