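import Pool.Agent.Lib.MP_60cbcc_al.H3ZRealA
import Pool.Agent.Lib.MP_60cbcc_al.H3ZRealB

/-!
The Mautner phenomenon for elements with a large adjoint trace.
-/

namespace Pool.Agent.Lib.MP_60cbcc_al.H3Z

open H8W
open scoped Matrix.Norms.Operator

variable {n : ℕ} {Q : Subgroup (GL (Fin n) ℝ)}

section
variable {E : Type} [NormedAddCommGroup E] [NormedSpace ℝ E]

theorem realC_br {br : E →ₗ[ℝ] E →ₗ[ℝ] E} (hn : ∀ X Y, ‖br X Y‖ ≤ 2 * (‖X‖ * ‖Y‖))
    {T : Module.End ℝ E} (hT : ∀ X Y, T (br X Y) = br (T X) (T Y)) {X Y : E}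
    (hX : X ∈ subexp T) (hY : Y ∈ contr T) : br X Y ∈ contr T := by
  obtain ⟨c, C, h0, h1, h2⟩ := hY
  have h3 : (0 : ℝ) < 1 + c := by linarith
  obtain ⟨C', h4⟩ := hX (2 / (1 + c)) (by rw [one_lt_div h3]; linarith)
  have h5 : ∀ k : ℕ, (T ^ k) (br X Y) = br ((T ^ k) X) ((T ^ k) Y) := fun k => by
    induction k with
    | zero => rfl
    | succ k ih => simp only [pow_succ', Module.End.mul_apply, ih, hT]
  refine ⟨2 / (1 + c) * c, 2 * (C' * C), by positivity, ?_, fun k => ?_⟩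
  · rw [div_mul_eq_mul_div, div_lt_one h3]
    linarith
  · rw [h5]
    refine (hn _ _).trans ?_
    have := mul_le_mul (h4 k) (h2 k) (norm_nonneg _) ((norm_nonneg _).trans (h4 k))
    rw [mul_pow]
    linarith

/-- The subalgebra generated by the contracted and the expanded vectors is an ideal. -/
theorem realC_ideal [FiniteDimensional ℝ E] {br : E →ₗ[ℝ] E →ₗ[ℝ] E}
    (hn : ∀ X Y, ‖br X Y‖ ≤ 2 * (‖X‖ * ‖Y‖))
    (hj : ∀ X Y Z, br X (br Y Z) = br (br X Y) Z + br Y (br X Z)) {T T' : Module.End ℝ E}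
    (h : T * T' = 1) (hT : ∀ X Y, T (br X Y) = br (T X) (T Y))
    (hT' : ∀ X Y, T' (br X Y) = br (T' X) (T' Y)) {m : Submodule ℝ E} (h1 : contr T ≤ m)
    (h2 : contr T' ≤ m) (h3 : ∀ X ∈ m, ∀ Y ∈ m, br X Y ∈ m) :
    ∃ W ≤ m, contr T' ≤ W ∧ ∀ X, ∀ Y ∈ W, br X Y ∈ W := by
  set W := sInf {V : Submodule ℝ E | contr T ≤ V ∧ contr T' ≤ V ∧ ∀ X ∈ V, ∀ Y ∈ V, br X Y ∈ V}
  have w1 : contr T ≤ W := le_sInf fun V hV => hV.1
  have w2 : contr T' ≤ W := le_sInf fun V hV => hV.2.1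
  have w3 : ∀ X ∈ W, ∀ Y ∈ W, br X Y ∈ W := fun X hX Y hY =>
    Submodule.mem_sInf.2 fun V hV =>
      hV.2.2 X (Submodule.mem_sInf.1 hX V hV) Y (Submodule.mem_sInf.1 hY V hV)
  refine ⟨W, sInf_le ⟨h1, h2, h3⟩, w2, fun X => ?_⟩
  obtain ⟨_, hD, C, hC, rfl⟩ := Submodule.mem_sup.1 ((grow_decomp h).ge (Submodule.mem_top (x := X)))
  obtain ⟨A, hA, B, hB, rfl⟩ := Submodule.mem_sup.1 hD
  have w4 : W ≤ W ⊓ W.comap (br B) := sInf_le
    ⟨le_inf w1 fun Y hY => w1 (realC_br hn hT hB.1 hY),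
      le_inf w2 fun Y hY => w2 (realC_br hn hT' hB.2 hY), fun Y hY Z hZ =>
      ⟨w3 Y hY.1 Z hZ.1, by
        rw [SetLike.mem_coe, Submodule.mem_comap, hj]
        exact W.add_mem (w3 _ hY.2 Z hZ.1) (w3 Y hY.1 _ hZ.2)⟩⟩
  intro Y hY
  simp only [map_add, LinearMap.add_apply]
  exact W.add_mem (W.add_mem (w3 A (w2 hA) Y hY) (w4 hY).2) (w3 C (w1 hC) Y hY)

end

/-- The commutator on the Lie algebra. -/
noncomputable def realC_lie (h : IsNoncompactSimple Q) :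
    lieSub Q h.closed →ₗ[ℝ] lieSub Q h.closed →ₗ[ℝ] lieSub Q h.closed :=
  LinearMap.mk₂ ℝ (fun X Y => ⟨X.1 * Y.1 - Y.1 * X.1, lie_comm X.2 Y.2⟩)
    (fun X Y Z => Subtype.ext (by simp only [Submodule.coe_add]; noncomm_ring))
    (fun c X Y => Subtype.ext (by simp [smul_sub]))
    (fun X Y Z => Subtype.ext (by simp only [Submodule.coe_add]; noncomm_ring))
    (fun c X Y => Subtype.ext (by simp [smul_sub]))

theorem realC_lie_apply (h : IsNoncompactSimple Q) (X Y : lieSub Q h.closed) :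
    (realC_lie h X Y).1 = X.1 * Y.1 - Y.1 * X.1 := rfl

theorem realC_Ad (h : IsNoncompactSimple Q) (q : Q) (X Y : lieSub Q h.closed) :
    Ad h q (realC_lie h X Y) = realC_lie h (Ad h q X) (Ad h q Y) := Subtype.ext (by
  simp only [realC_lie_apply, Ad_apply, mul_sub, sub_mul, mul_assoc, Units.inv_mul_cancel_left])

/-- Contracted one-parameter groups are killed by a seminorm vanishing at the contraction. -/
theorem realC_contr (h : IsNoncompactSimple Q) {φ : Q → ℝ} (hc : Continuous φ) (h1 : φ 1 = 0)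
    {M : Subgroup Q} (hM : ∀ u, ∀ m ∈ M, φ u ≤ φ (m * u * m⁻¹)) {q : Q} (hq : q ∈ M)
    {X : lieSub Q h.closed} (hX : X ∈ contr (Ad h q)) (t : ℝ) : φ ⟨_, X.2 t⟩ ≤ 0 := by
  obtain ⟨c, C, h2, h3, h4⟩ := hX
  have h5 : Filter.Tendsto (fun k : ℕ => (Ad h q ^ k) X) Filter.atTop (nhds 0) :=
    squeeze_zero_norm h4 (by
      simpa using (tendsto_pow_atTop_nhds_zero_of_lt_one h2 h3).const_mul C)
  have h6 : Continuous fun Y : lieSub Q h.closed => φ ⟨_, Y.2 t⟩ :=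
    hc.comp ((continuous_expU.comp (continuous_subtype_val.const_smul t)).subtype_mk _)
  have h7 := (h6.tendsto 0).comp h5
  have h8 : φ ⟨_, (0 : lieSub Q h.closed).2 t⟩ = 0 := by
    rw [← h1]
    congr 1
    exact Subtype.ext (by simp [expU_zero])
  rw [h8] at h7
  refine ge_of_tendsto' h7 fun k => (hM _ _ (M.pow_mem hq k)).trans_eq (congrArg φ ?_)
  refine Subtype.ext ?_
  change _ = expU (t • ((Ad h q ^ k) X).1)
  rw [← map_pow, Ad_apply, ← smul_mul_assoc, ← mul_smul_comm, expU_conj]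
  rfl

theorem mau_of_trace (h : IsNoncompactSimple Q) (b : Q)
    (hb : (Module.finrank ℝ (lieSub Q h.closed) : ℝ) < |LinearMap.trace ℝ _ (Ad h b)|) :
    Mau {b} := by
  intro φ hc h1 hi hm hF
  have h0 : ∀ g, 0 ≤ φ g := fun g => by
    have := hm g g⁻¹
    rw [mul_inv_cancel, h1, hi] at this
    linarith
  let M : Subgroup Q :=
    { carrier := {g | φ g = 0}
      one_mem' := h1
      mul_mem' := fun {x y} (a : φ x = 0) (b : φ y = 0) =>
        le_antisymm (by linarith [hm x y]) (h0 _)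
      inv_mem' := fun {x} (a : φ x = 0) => (hi x).trans a }
  have hMc : IsClosed (M : Set Q) := isClosed_eq hc continuous_const
  have hM : ∀ u, ∀ m ∈ M, φ u ≤ φ (m * u * m⁻¹) := fun u m (a : φ m = 0) => by
    have h2 := hm (m⁻¹ * (m * u * m⁻¹)) m
    have h3 := hm m⁻¹ (m * u * m⁻¹)
    rw [show m⁻¹ * (m * u * m⁻¹) * m = u by group] at h2
    rw [hi] at h3
    linarith
  have hb' : b ∈ M := hF b rfl
  have h2 : ∀ q ∈ M, contr (Ad h q) ≤
      (lieSub _ (realB_closed h hMc)).comap (lieSub Q h.closed).subtype := fun q hq X hX t =>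
    ⟨⟨_, X.2 t⟩, le_antisymm (realC_contr h hc h1 hM hq hX t) (h0 _), rfl⟩
  have h3 : Ad h b * Ad h b⁻¹ = 1 := by rw [← map_mul, mul_inv_cancel, map_one]
  obtain ⟨W, w1, w2, w3⟩ := realC_ideal (br := realC_lie h) (fun X Y => by
      have := norm_sub_le (X.1 * Y.1) (Y.1 * X.1)
      have := norm_mul_le X.1 Y.1
      have := norm_mul_le Y.1 X.1
      change ‖X.1 * Y.1 - Y.1 * X.1‖ ≤ 2 * (‖X.1‖ * ‖Y.1‖)
      linarith)
    (fun X Y Z => Subtype.ext (by simp only [realC_lie_apply, Submodule.coe_add]; noncomm_ring))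
    h3 (realC_Ad h b) (realC_Ad h b⁻¹) (h2 b hb') (h2 _ (M.inv_mem hb'))
    fun X hX Y hY => lie_comm (hQ := realB_closed h hMc) hX hY
  have h4 := realB_top h hMc (W := W.map (lieSub Q h.closed).subtype)
    (Submodule.map_le_iff_le_comap.2 w1) (fun e => contr_ne_bot h3 hb ?_) ?_
  · exact fun g => h4.ge (Subgroup.mem_top g)
  · exact eq_bot_iff.2 fun X hX => Subtype.ext (e.le ⟨X, w2 hX, rfl⟩ : X.1 ∈ (⊥ : Submodule ℝ _))
  · rintro X hX _ ⟨Y, hY, rfl⟩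
    exact ⟨_, w3 ⟨X, hX⟩ Y hY, rfl⟩

end Pool.Agent.Lib.MP_60cbcc_al.H3Z
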