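import Pool.Agent.Lib.MP_60cbcc_al.H3ZCont
import Pool.Agent.Lib.MP_60cbcc_al.H3ZFac

/-!
Recurrence with positive density.
-/

set_option linter.unusedSectionVars false

namespace Pool.Agent.Lib.MP_60cbcc_al.H3Z

open MeasureTheory Set Filter Topology
open scoped ENNReal NNReal RealInnerProductSpace

variable {Γ G X : Type} [Group Γ] [Countable Γ] [Group G] [TopologicalSpace G]
  [IsTopologicalGroup G] [LocallyCompactSpace G] [SecondCountableTopology G] [T2Space G]
  [MeasurableSpace G] [BorelSpace G] [MeasurableSpace X] [MulAction Γ X] [MeasurableConstSMul Γ X]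

/-- The trivial cocycle. -/
noncomputable def recV (Γ X : Type) : Γ → X → ℝ →ₗᵢ[ℝ] ℝ := fun _ _ => LinearIsometry.id

/-- The indicator of an invariant set, as a section. -/
noncomputable def recInd (S : Setup Γ G X) {E : Set (X × G)} (hE : MeasurableSet E)
    (hI : ∀ γ x g, (γ • x, S.j γ * g) ∈ E ↔ (x, g) ∈ E) : Sec S (recV Γ X) :=
  Sec.mk' (E.indicator 1) (stronglyMeasurable_one.indicator hE)
    ⟨1, fun y => by by_cases h : y ∈ E <;> simp [h]⟩
    fun γ x g => by
      by_cases h : (x, g) ∈ E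
      · simp [h, (hI γ x g).2 h, recV]
      · have h' : (γ • x, S.j γ * g) ∉ E := fun h' => h ((hI γ x g).1 h')
        simp [h, h', recV]

theorem recInd_apply (S : Setup Γ G X) {E : Set (X × G)} (hE : MeasurableSet E)
    (hI : ∀ γ x g, (γ • x, S.j γ * g) ∈ E ↔ (x, g) ∈ E) (y : X × G) :
    recInd S hE hI y = E.indicator (1 : X × G → ℝ) y := rfl

theorem rec_pres (S : Setup Γ G X) (h : G) :
    MeasurePreserving (fun y : X × G => S.ret (y.1, y.2 * h)) S.m S.m := by
  have hR : Measurable fun y : X × G => (y.1, y.2 * h) :=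
    measurable_fst.prodMk (measurable_snd.mul_const h)
  have hΦ : Measurable fun y : X × G => S.ret (y.1, y.2 * h) := S.meas_ret.comp hR
  refine ⟨hΦ, ?_⟩
  ext s hs
  have hs' := S.meas_ret hs
  have h1 := S.lint_right (N := (S.ret ⁻¹' s).indicator 1) (measurable_one.indicator hs')
    (fun γ x g => by
      have hm : ((γ • x, S.j γ * g) ∈ S.ret ⁻¹' s) ↔ ((x, g) ∈ S.ret ⁻¹' s) := by
        rw [mem_preimage, mem_preimage, S.inv_ret γ x g]
      by_cases hx : (x, g) ∈ S.ret ⁻¹' s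
      · rw [indicator_of_mem hx, indicator_of_mem (hm.2 hx)]
        rfl
      · rw [indicator_of_notMem hx, indicator_of_notMem fun h' => hx (hm.1 h')]) h
  rw [lintegral_indicator_one hs'] at h1
  have h2 : S.m (S.ret ⁻¹' s) = S.m s := by
    refine measure_congr ?_
    filter_upwards [S.ae_mem] with y hy
    change (S.ret y ∈ s) = (y ∈ s)
    rw [S.ret_of_mem hy]
  rw [Measure.map_apply hΦ hs, ← h2, ← h1, ← lintegral_indicator_one (hΦ hs)]
  rfl

section Tr

variable {H : Type} [NormedAddCommGroup H] [InnerProductSpace ℝ H] [CompleteSpace H]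
  {S : Setup Γ G X} {V : Γ → X → H →ₗᵢ[ℝ] H}

theorem rec_Tr_mul (g h : G) (u : Sec S V) : Tr S V (g * h) u = Tr S V g (Tr S V h u) :=
  Sec.ext fun y => by simp [mul_assoc]

theorem rec_Tr_one (u : Sec S V) : Tr S V 1 u = u := Sec.ext fun y => by simp

/-- The elements that fix a section. -/
def recFix (z : Sec S V) : Subgroup G where
  carrier := {g | Tr S V g z = z}
  one_mem' := rec_Tr_one z
  mul_mem' {a b} ha hb := by
    have ha' : Tr S V a z = z := ha
    have hb' : Tr S V b z = z := hb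
    change Tr S V (a * b) z = z
    rw [rec_Tr_mul, hb', ha']
  inv_mem' {a} ha := by
    have ha' : Tr S V a z = z := ha
    change Tr S V a⁻¹ z = z
    conv_lhs => rw [← ha', ← rec_Tr_mul, inv_mul_cancel, rec_Tr_one]

/-- The elements that fix a section almost everywhere. -/
def recFixA (z : Sec S V) : Subgroup G where
  carrier := {g | ‖Tr S V g z - z‖ = 0}
  one_mem' := by
    change ‖Tr S V 1 z - z‖ = 0
    rw [rec_Tr_one, sub_self, norm_zero]
  mul_mem' {a b} ha hb := by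
    have ha' : ‖Tr S V a z - z‖ = 0 := ha
    have hb' : ‖Tr S V b z - z‖ = 0 := hb
    change ‖Tr S V (a * b) z - z‖ = 0
    have e : Tr S V (a * b) z - z = Tr S V a (Tr S V b z - z) + (Tr S V a z - z) := by
      rw [rec_Tr_mul, map_sub]; abel
    refine le_antisymm ?_ (norm_nonneg _)
    rw [e]
    refine (norm_add_le _ _).trans (le_of_eq ?_)
    rw [norm_Tr, ha', hb', add_zero]
  inv_mem' {a} ha := by
    have ha' : ‖Tr S V a z - z‖ = 0 := ha
    change ‖Tr S V a⁻¹ z - z‖ = 0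
    rw [← norm_Tr a, map_sub, ← rec_Tr_mul, mul_inv_cancel, rec_Tr_one, norm_sub_rev, ha']

theorem rec_closed (z : Sec S V) : IsClosed (recFixA z : Set G) :=
  isClosed_eq ((continuous_Tr z).sub continuous_const).norm continuous_const

theorem rec_con (z : Sec S V) {b : G} (hb : b ∈ recFix z) : con b ⊆ (recFixA z : Set G) := by
  intro c hc
  have h1 : ∀ k : ℕ, ‖Tr S V (b ^ k * c * (b ^ k)⁻¹) z - z‖ = ‖Tr S V c z - z‖ := by
    intro k
    have e1 : Tr S V (b ^ k) z = z := (recFix z).pow_mem hb k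
    have e2 : Tr S V (b ^ k)⁻¹ z = z := (recFix z).inv_mem ((recFix z).pow_mem hb k)
    rw [rec_Tr_mul, rec_Tr_mul, e2, ← norm_Tr (b ^ k) (Tr S V c z - z), map_sub, e1]
  have h2 : Tendsto (fun k : ℕ => ‖Tr S V (b ^ k * c * (b ^ k)⁻¹) z - z‖) atTop
      (𝓝 ‖Tr S V 1 z - z‖) :=
    (((continuous_Tr z).sub continuous_const).norm.tendsto 1).comp hc
  simp only [h1] at h2
  rw [rec_Tr_one, sub_self, norm_zero] at h2
  exact tendsto_nhds_unique tendsto_const_nhds h2

/-- The Mautner phenomenon. -/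
theorem rec_mautner (z : Sec S V) {a n : G} (ha : a ∈ recFix z)
    (hn : n ∈ (Subgroup.closure (con a ∪ con a⁻¹)).topologicalClosure) :
    ‖Tr S V n z - z‖ = 0 := by
  have h : (Subgroup.closure (con a ∪ con a⁻¹)).topologicalClosure ≤ recFixA z := by
    refine Subgroup.topologicalClosure_minimal _ ?_ (rec_closed z)
    rw [Subgroup.closure_le]
    exact union_subset (rec_con z ha) (rec_con z ((recFix z).inv_mem ha))
  exact h hn

theorem rec_sum_apply (s : Finset ℕ) (w : ℕ → Sec S V) (y : X × G) :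
    (∑ k ∈ s, w k) y = ∑ k ∈ s, w k y := by
  classical
  induction s using Finset.induction_on with
  | empty => simp
  | insert k s hk ih => rw [Finset.sum_insert hk, Finset.sum_insert hk, Sec.add_apply, ih]

end Tr

/-- The ergodic averages. -/
noncomputable def recAv {S : Setup Γ G X} (a : G) (v : Sec S (recV Γ X)) (M : ℕ) :
    Sec S (recV Γ X) :=
  (M : ℝ)⁻¹ • ∑ k ∈ Finset.range M, Tr S (recV Γ X) (a ^ k) v

theorem recAv_apply {S : Setup Γ G X} (a : G) (v : Sec S (recV Γ X)) (M : ℕ) (y : X × G) :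
    recAv a v M y = (M : ℝ)⁻¹ * ∑ k ∈ Finset.range M, v (y.1, y.2 * a ^ k) := by
  rw [recAv, Sec.smul_apply, rec_sum_apply]
  rfl

/-- The mean ergodic theorem. -/
theorem rec_mean {S : Setup Γ G X} (a : G) (v : Sec S (recV Γ X)) :
    ∃ f : Lp ℝ 2 S.m, Tendsto (fun M => Sec.toL2 (recAv a v M)) atTop (𝓝 f) := by
  let K : Lp ℝ 2 S.m →ₗᵢ[ℝ] Lp ℝ 2 S.m := Lp.compMeasurePreservingₗᵢ ℝ _ (rec_pres S a)
  have hK : ∀ u : Sec S (recV Γ X), K (Sec.toL2 u) = Sec.toL2 (Tr S (recV Γ X) a u) := by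
    intro u
    refine Lp.ext ?_
    have h1 := Lp.coeFn_compMeasurePreserving (Sec.toL2 u) (rec_pres S a)
    have h2 := (rec_pres S a).quasiMeasurePreserving.ae (u.memLp 2).coeFn_toLp
    filter_upwards [h1, h2, ((Tr S (recV Γ X) a u).memLp 2).coeFn_toLp] with y e1 e2 e3
    refine (e1.trans (e2.trans ?_)).trans e3.symm
    exact u.eqv _ _ _
  have hKk : ∀ k : ℕ, (K.toContinuousLinearMap)^[k] (Sec.toL2 v)
      = Sec.toL2 (Tr S (recV Γ X) (a ^ k) v) := by
    intro k
    induction k with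
    | zero => rw [pow_zero, rec_Tr_one]; rfl
    | succ k ih =>
      rw [Function.iterate_succ_apply', ih, pow_succ', rec_Tr_mul, ← hK]
      rfl
  refine ⟨_, (ContinuousLinearMap.tendsto_birkhoffAverage_orthogonalProjection
    K.toContinuousLinearMap K.norm_toContinuousLinearMap_le (Sec.toL2 v)).congr fun M => ?_⟩
  simp only [birkhoffAverage, birkhoffSum, id, hKk, recAv, map_smul, map_sum]

/-- Positive lower density along a sequence. -/
def recP (w : X × G → ℝ) (a : G) (φ : ℕ → ℕ) (y : X × G) : Prop :=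
  ∃ p : ℝ, 0 < p ∧ ∀ᶠ j in atTop, p * φ j ≤ ∑ k ∈ Finset.range (φ j), w (y.1, y.2 * a ^ k)

theorem recP_meas {w : X × G → ℝ} (hw : Measurable w) (a : G) (φ : ℕ → ℕ) :
    MeasurableSet {y | recP w a φ y} := by
  have e : {y | recP w a φ y} = ⋃ q : ℕ, ⋃ N : ℕ, ⋂ j : ℕ, ⋂ (_ : N ≤ j),
      {y : X × G | (1 / ((q : ℝ) + 1)) * φ j ≤
        ∑ k ∈ Finset.range (φ j), w (y.1, y.2 * a ^ k)} := by
    ext y
    simp only [mem_ofPred_eq, mem_iUnion, mem_iInter, recP, eventually_atTop]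
    constructor
    · rintro ⟨p, hp, N, hN⟩
      obtain ⟨q, hq⟩ := exists_nat_one_div_lt hp
      exact ⟨q, N, fun j hj =>
        (mul_le_mul_of_nonneg_right hq.le (Nat.cast_nonneg _)).trans (hN j hj)⟩
    · rintro ⟨q, N, hN⟩
      exact ⟨_, Nat.one_div_pos_of_nat, N, hN⟩
  rw [e]
  refine MeasurableSet.iUnion fun q => MeasurableSet.iUnion fun N =>
    MeasurableSet.iInter fun j => MeasurableSet.iInter fun _ => ?_
  refine measurableSet_le measurable_const (Finset.measurable_sum _ fun k _ => ?_)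
  exact hw.comp (measurable_fst.prodMk (measurable_snd.mul_const _))

theorem rec_shift {φ : ℕ → ℕ} (hφ : Tendsto φ atTop atTop) {s t : ℕ → ℝ}
    (hst : ∀ j, s j - 1 ≤ t j) (h : ∃ p : ℝ, 0 < p ∧ ∀ᶠ j in atTop, p * φ j ≤ s j) :
    ∃ p : ℝ, 0 < p ∧ ∀ᶠ j in atTop, p * φ j ≤ t j := by
  obtain ⟨p, hp, h⟩ := h
  refine ⟨p / 2, half_pos hp, ?_⟩
  have h2 : Tendsto (fun j => p / 2 * (φ j : ℝ)) atTop atTop :=
    (tendsto_natCast_atTop_atTop.comp hφ).const_mul_atTop (half_pos hp)
  filter_upwards [h, h2.eventually_ge_atTop 1] with j h1 h3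
  have := hst j
  linarith

theorem recP_shift {w : X × G → ℝ} (h0 : ∀ y, 0 ≤ w y) (h1 : ∀ y, w y ≤ 1) (a : G) {φ : ℕ → ℕ}
    (hφ : Tendsto φ atTop atTop) (y : X × G) : recP w a φ (y.1, y.2 * a) ↔ recP w a φ y := by
  have key : ∀ M : ℕ, ∑ k ∈ Finset.range M, w (y.1, y.2 * a * a ^ k) + w (y.1, y.2 * a ^ 0)
      = ∑ k ∈ Finset.range M, w (y.1, y.2 * a ^ k) + w (y.1, y.2 * a ^ M) := by
    intro M
    rw [← Finset.sum_range_succ, Finset.sum_range_succ']
    simp only [pow_succ', mul_assoc]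
  constructor
  · refine rec_shift hφ fun j => ?_
    have := key (φ j)
    have := h0 (y.1, y.2 * a ^ 0)
    have := h1 (y.1, y.2 * a ^ φ j)
    dsimp only
    linarith
  · refine rec_shift hφ fun j => ?_
    have := key (φ j)
    have := h1 (y.1, y.2 * a ^ 0)
    have := h0 (y.1, y.2 * a ^ φ j)
    dsimp only
    linarith

theorem recur (S : Setup Γ G X) {a n : G}
    (hn : n ∈ (Subgroup.closure (con a ∪ con a⁻¹)).topologicalClosure) {E : Set (X × G)}
    (hE : MeasurableSet E) (hI : ∀ γ x g, (γ • x, S.j γ * g) ∈ E ↔ (x, g) ∈ E) :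
    ∃ φ : ℕ → ℕ, Tendsto φ atTop atTop ∧ ∀ᵐ x ∂S.μ, ∀ᵐ h ∂S.lam, (x, h) ∈ E →
      ∃ p : ℝ, 0 < p ∧ ∀ᶠ j in atTop, p * φ j ≤
        ∑ k ∈ Finset.range (φ j), E.indicator (1 : X × G → ℝ) (x, h * a ^ k * n) := by
  set u := recInd S hE hI with hu
  set v := Tr S (recV Γ X) n u with hv
  have hv0 : ∀ y, 0 ≤ v y := fun y => indicator_nonneg (fun _ _ => zero_le_one) _
  have hv1 : ∀ y, v y ≤ 1 := fun y => indicator_le_self' (fun _ _ => zero_le_one) _
  obtain ⟨f, hf⟩ := rec_mean a v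
  obtain ⟨φ, hφ, hae⟩ := (tendstoInMeasure_of_tendsto_Lp hf).exists_seq_tendsto_ae
  have hφ' := hφ.tendsto_atTop
  refine ⟨φ, hφ', ?_⟩
  have hPm := recP_meas v.meas.measurable a φ
  have hPI : ∀ γ x g, recP v a φ (γ • x, S.j γ * g) ↔ recP v a φ (x, g) := by
    intro γ x g
    have e : ∀ k : ℕ, v (γ • x, S.j γ * g * a ^ k) = v (x, g * a ^ k) := fun k => by
      rw [mul_assoc]; exact v.eqv γ x _
    simp only [recP, e]
  let Z : Set (X × G) := {y | recP v a φ y}ᶜ
  have hZ : MeasurableSet Z := hPm.compl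
  have hZI : ∀ γ x g, (γ • x, S.j γ * g) ∈ Z ↔ (x, g) ∈ Z := fun γ x g => not_congr (hPI γ x g)
  set z := recInd S hZ hZI with hz
  have hza : a ∈ recFix z := by
    refine Sec.ext fun y => ?_
    have e : (y.1, y.2 * a) ∈ Z ↔ y ∈ Z := not_congr (recP_shift hv0 hv1 a hφ' y)
    rw [Tr_apply, hz, recInd_apply, recInd_apply]
    by_cases h : y ∈ Z
    · rw [indicator_of_mem h, indicator_of_mem (e.2 h)]; rfl
    · rw [indicator_of_notMem h, indicator_of_notMem fun h' => h (e.1 h')]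
  -- the limit is not positive on `Z`
  have hfz : ⟪f, Sec.toL2 z⟫ ≤ 0 := by
    rw [L2.inner_def]
    refine integral_nonpos_of_ae ?_
    have hall : ∀ᵐ y ∂S.m, ∀ j, Sec.toL2 (recAv a v (φ j)) y = recAv a v (φ j) y :=
      ae_all_iff.2 fun j => ((recAv a v (φ j)).memLp 2).coeFn_toLp
    filter_upwards [hae, hall, (z.memLp 2).coeFn_toLp] with y h1 h2 h3
    have h3' : Sec.toL2 z y = Z.indicator (1 : X × G → ℝ) y := h3
    simp only [h2] at h1
    rw [h3']
    by_cases hy : y ∈ Z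
    · have hle : f y ≤ 0 := by
        by_contra hpos
        have hpos' : 0 < f y := not_le.1 hpos
        apply hy
        refine ⟨f y / 2, half_pos hpos', ?_⟩
        filter_upwards [h1.eventually (lt_mem_nhds (half_lt_self hpos')),
          hφ'.eventually_gt_atTop 0] with j h4 h5
        rw [recAv_apply] at h4
        have h6 : (0 : ℝ) < φ j := Nat.cast_pos.2 h5
        rw [inv_mul_eq_div, lt_div_iff₀ h6] at h4
        exact h4.le
      simpa [indicator_of_mem hy] using hle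
    · simp [indicator_of_notMem hy]
  have hAz : ∀ M : ℕ, 0 < M → ⟪recAv a v M, z⟫ = ⟪v, z⟫ := by
    intro M hM
    have e : ∀ k : ℕ, ⟪Tr S (recV Γ X) (a ^ k) v, z⟫ = ⟪v, z⟫ := fun k => by
      have e1 : Tr S (recV Γ X) (a ^ k) z = z := (recFix z).pow_mem hza k
      conv_lhs => rw [← e1]
      exact inner_Tr _ _ _
    have h6 : (M : ℝ) ≠ 0 := Nat.cast_ne_zero.2 hM.ne'
    rw [recAv, real_inner_smul_left, sum_inner]
    simp only [e, Finset.sum_const, Finset.card_range, nsmul_eq_mul]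
    rw [← mul_assoc, inv_mul_cancel₀ h6, one_mul]
  have hvz : ⟪v, z⟫ = ⟪f, Sec.toL2 z⟫ := by
    have h1 : Tendsto (fun M => ⟪Sec.toL2 (recAv a v M), Sec.toL2 z⟫) atTop
        (𝓝 ⟪f, Sec.toL2 z⟫) := hf.inner tendsto_const_nhds
    refine tendsto_nhds_unique (tendsto_const_nhds.congr' ?_) h1
    filter_upwards [eventually_gt_atTop 0] with M hM
    exact (hAz M hM).symm
  have huz : ⟪u, z⟫ = ⟪v, z⟫ := by
    have h1 := rec_mautner z hza hn
    have h2 : ⟪v, Tr S (recV Γ X) n z - z⟫ = 0 := by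
      have := abs_real_inner_le_norm v (Tr S (recV Γ X) n z - z)
      rw [h1, mul_zero] at this
      exact abs_nonpos_iff.1 this
    rw [inner_sub_right, sub_eq_zero] at h2
    rw [← h2, hv, inner_Tr]
  have hint : ∫ y, (E ∩ Z).indicator (1 : X × G → ℝ) y ∂S.m ≤ 0 := by
    refine le_trans (le_of_eq ?_) (huz.trans_le (hvz.trans_le hfz))
    rw [Sec.inner_def]
    refine integral_congr_ae (ae_of_all _ fun y => ?_)
    simp only [hu, hz, recInd_apply]
    by_cases h1 : y ∈ E <;> by_cases h2 : y ∈ Z <;> simp [h1, h2]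
  rw [integral_indicator_one (hE.inter hZ)] at hint
  have hnull : S.m (E ∩ Z) = 0 :=
    (measureReal_eq_zero_iff (measure_ne_top _ _)).1 (le_antisymm hint measureReal_nonneg)
  have hfin := S.ae_of_m (p := fun y => y ∉ E ∩ Z) (hE.inter hZ).compl
    (fun γ x g => propext (not_congr (and_congr (hI γ x g) (hZI γ x g))))
    (measure_eq_zero_iff_ae_notMem.1 hnull)
  filter_upwards [hfin] with x hx
  filter_upwards [hx] with h hh hE'
  have hP : recP v a φ (x, h) := by
    by_contra hc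
    exact hh ⟨hE', hc⟩
  exact hP

end Pool.Agent.Lib.MP_60cbcc_al.H3Z
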