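import Pool.Agent.Lib.MP_60cbcc_al.H3ZSetup

/-!
Bounded measurable equivariant sections and averaging operators.
-/

set_option linter.unusedSectionVars false

namespace Pool.Agent.Lib.MP_60cbcc_al.H3Z

open MeasureTheory Set Filter Topology
open scoped ENNReal NNReal RealInnerProductSpace

variable {Γ G X : Type} [Group Γ] [Countable Γ] [Group G] [TopologicalSpace G]
  [IsTopologicalGroup G] [LocallyCompactSpace G] [SecondCountableTopology G] [T2Space G]
  [MeasurableSpace G] [BorelSpace G] [MeasurableSpace X] [MulAction Γ X] [MeasurableConstSMul Γ X]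
  {H : Type} [NormedAddCommGroup H] [InnerProductSpace ℝ H] [CompleteSpace H]

/-- Bounded measurable equivariant functions. -/
def secs (S : Setup Γ G X) (V : Γ → X → H →ₗᵢ[ℝ] H) : Submodule ℝ (X × G → H) where
  carrier := {u | StronglyMeasurable u ∧ (∃ C, ∀ y, ‖u y‖ ≤ C) ∧
    ∀ γ x g, u (γ • x, S.j γ * g) = V γ x (u (x, g))}
  zero_mem' := ⟨stronglyMeasurable_const, ⟨0, by simp⟩, by simp⟩
  add_mem' := by
    rintro u v ⟨hu, ⟨C, hC⟩, hu'⟩ ⟨hv, ⟨D, hD⟩, hv'⟩
    exact ⟨hu.add hv, ⟨C + D, fun y => norm_add_le_of_le (hC y) (hD y)⟩,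
      fun γ x g => by simp [hu', hv']⟩
  smul_mem' := by
    rintro c u ⟨hu, ⟨C, hC⟩, hu'⟩
    exact ⟨hu.const_smul c, ⟨‖c‖ * C, fun y => by
      simpa [norm_smul] using mul_le_mul_of_nonneg_left (hC y) (abs_nonneg c)⟩,
      fun γ x g => by simp [hu']⟩

/-- The space of sections. -/
def Sec (S : Setup Γ G X) (V : Γ → X → H →ₗᵢ[ℝ] H) : Type := secs S V

variable {S : Setup Γ G X} {V : Γ → X → H →ₗᵢ[ℝ] H}

namespace Sec

instance : AddCommGroup (Sec S V) := inferInstanceAs (AddCommGroup (secs S V))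
instance : Module ℝ (Sec S V) := inferInstanceAs (Module ℝ (secs S V))

/-- The underlying function. -/
@[coe] def fn (u : Sec S V) : X × G → H := u.1

instance : CoeFun (Sec S V) (fun _ => X × G → H) := ⟨fn⟩

/-- A section from a function. -/
def mk' (u : X × G → H) (h₁ : StronglyMeasurable u) (h₂ : ∃ C, ∀ y, ‖u y‖ ≤ C)
    (h₃ : ∀ γ x g, u (γ • x, S.j γ * g) = V γ x (u (x, g))) : Sec S V := ⟨u, h₁, h₂, h₃⟩

@[simp] theorem mk'_apply (u : X × G → H) (h₁ h₂ h₃) (y) :
    (mk' u h₁ h₂ h₃ : Sec S V) y = u y := rfl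

@[ext] theorem ext {u v : Sec S V} (h : ∀ y, u y = v y) : u = v := Subtype.ext (funext h)

theorem meas (u : Sec S V) : StronglyMeasurable u := u.2.1
theorem bdd (u : Sec S V) : ∃ C, ∀ y, ‖u y‖ ≤ C := u.2.2.1
theorem eqv (u : Sec S V) (γ : Γ) (x : X) (g : G) :
    u (γ • x, S.j γ * g) = V γ x (u (x, g)) := u.2.2.2 γ x g

@[simp] theorem add_apply (u v : Sec S V) (y) : (u + v) y = u y + v y := rfl
@[simp] theorem sub_apply (u v : Sec S V) (y) : (u - v) y = u y - v y := rfl
@[simp] theorem neg_apply (u : Sec S V) (y) : (-u) y = -u y := rfl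
@[simp] theorem zero_apply (y) : (0 : Sec S V) y = 0 := rfl
@[simp] theorem smul_apply (c : ℝ) (u : Sec S V) (y) : (c • u) y = c • u y := rfl

theorem memLp (u : Sec S V) (p : ℝ≥0∞) : MemLp u p S.m := by
  obtain ⟨C, hC⟩ := u.bdd
  exact MemLp.of_bound u.meas.aestronglyMeasurable C (ae_of_all _ hC)

/-- The class in the square integrable functions. -/
noncomputable def toL2 : Sec S V →ₗ[ℝ] Lp H 2 S.m where
  toFun u := (u.memLp 2).toLp u
  map_add' u v := MemLp.toLp_add (u.memLp 2) (v.memLp 2)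
  map_smul' c u := MemLp.toLp_const_smul c (u.memLp 2)

noncomputable instance : SeminormedAddCommGroup (Sec S V) :=
  SeminormedAddCommGroup.induced _ _ (toL2 (S := S) (V := V))

noncomputable instance : InnerProductSpace ℝ (Sec S V) :=
  InnerProductSpace.induced (toL2 (S := S) (V := V))

theorem inner_def (u v : Sec S V) : ⟪u, v⟫ = ∫ y, ⟪u y, v y⟫ ∂S.m := by
  change ⟪toL2 u, toL2 v⟫ = _
  rw [L2.inner_def]
  refine integral_congr_ae ?_
  filter_upwards [(u.memLp 2).coeFn_toLp, (v.memLp 2).coeFn_toLp] with y h1 h2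
  exact congrArg₂ _ h1 h2

theorem norm_sq (u : Sec S V) : ‖u‖ ^ 2 = ∫ y, ‖u y‖ ^ 2 ∂S.m := by
  rw [← real_inner_self_eq_norm_sq, inner_def]; simp

theorem int_inner (u v : Sec S V) : Integrable (fun y => ⟪u y, v y⟫) S.m := by
  obtain ⟨C, hC⟩ := u.bdd
  obtain ⟨D, hD⟩ := v.bdd
  refine Integrable.of_bound (u.meas.inner v.meas).aestronglyMeasurable (C * D)
    (ae_of_all _ fun y => (norm_inner_le_norm _ _).trans ?_)
  exact mul_le_mul (hC y) (hD y) (norm_nonneg _) ((norm_nonneg _).trans (hC y))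

theorem int_sq (u : Sec S V) : Integrable (fun y => ‖u y‖ ^ 2) S.m := by
  simpa only [real_inner_self_eq_norm_sq] using int_inner u u

theorem lint_sq (u : Sec S V) : ∫⁻ y, ‖u y‖ₑ ^ 2 ∂S.m = ENNReal.ofReal (‖u‖ ^ 2) := by
  rw [norm_sq, ofReal_integral_eq_lintegral_ofReal (int_sq u) (ae_of_all _ fun y => by positivity)]
  refine lintegral_congr fun y => ?_
  rw [ENNReal.ofReal_pow (norm_nonneg _), ofReal_norm]

theorem norm_le (u : Sec S V) {C : ℝ} (hC : 0 ≤ C) (h : ∀ y, ‖u y‖ ≤ C) : ‖u‖ ≤ C := by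
  refine abs_le_of_sq_le_sq' ?_ hC |>.2
  rw [norm_sq]
  calc ∫ y, ‖u y‖ ^ 2 ∂S.m ≤ ∫ _y, C ^ 2 ∂S.m :=
        integral_mono (int_sq u) (integrable_const _) fun y =>
          pow_le_pow_left₀ (norm_nonneg _) (h y) 2
    _ = C ^ 2 := by simp

theorem inv_inner (u v : Sec S V) : S.Inv fun y => ⟪u y, v y⟫ := fun γ x g => by
  simp only [eqv, LinearIsometry.inner_map_map]

theorem inv_norm (u : Sec S V) : S.Inv fun y => ‖u y‖ := fun γ x g => by
  simp only [eqv, LinearIsometry.norm_map]

end Sec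

variable (S V)

/-- Right translation. -/
noncomputable def Tr (h : G) : Sec S V →ₗ[ℝ] Sec S V where
  toFun u := Sec.mk' (fun y => u (y.1, y.2 * h)) (u.meas.comp_measurable (by fun_prop))
    (u.bdd.imp fun _ hC _ => hC _) fun γ x g => by simp only [mul_assoc, u.eqv]
  map_add' _ _ := rfl
  map_smul' _ _ := rfl

theorem int_sl (u : Sec S V) (ν : Measure G) [IsFiniteMeasure ν] (x : X) (g : G) :
    Integrable (fun h => u (x, g * h)) ν := by
  obtain ⟨C, hC⟩ := u.bdd
  exact Integrable.of_bound (u.meas.comp_measurable (by fun_prop)).aestronglyMeasurable C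
    (ae_of_all _ fun _ => hC _)

/-- Averaging over a finite measure. -/
noncomputable def Av' (ν : Measure G) [IsFiniteMeasure ν] : Sec S V →ₗ[ℝ] Sec S V where
  toFun u := Sec.mk' (fun y => ∫ h, u (y.1, y.2 * h) ∂ν)
    (StronglyMeasurable.integral_prod_right' (f := fun z : (X × G) × G => u (z.1.1, z.1.2 * z.2))
      (u.meas.comp_measurable (by fun_prop)))
    (by
      obtain ⟨C, hC⟩ := u.bdd
      exact ⟨C * ν.real univ, fun y => norm_integral_le_of_norm_le_const (ae_of_all _ fun _ => hC _)⟩)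
    fun γ x g => by
      simp only [mul_assoc, u.eqv]
      exact (V γ x).integral_comp_comm _
  map_add' u v := Sec.ext fun y => integral_add (int_sl S V u ν _ _) (int_sl S V v ν _ _)
  map_smul' c u := Sec.ext fun y => integral_smul c fun h => u (y.1, y.2 * h)

open Classical in
/-- Averaging over a measure (zero if the measure is infinite). -/
noncomputable def Av (ν : Measure G) : Module.End ℝ (Sec S V) :=
  if h : IsFiniteMeasure ν then Av' S V ν else 0

variable {S V}

@[simp] theorem Tr_apply (h : G) (u : Sec S V) (y) : Tr S V h u y = u (y.1, y.2 * h) := rfl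

theorem Av_apply (ν : Measure G) [hν : IsFiniteMeasure ν] (u : Sec S V) (y) :
    Av S V ν u y = ∫ h, u (y.1, y.2 * h) ∂ν := by
  rw [Av, dif_pos hν]; rfl

theorem inner_Tr (h : G) (u v : Sec S V) : ⟪Tr S V h u, Tr S V h v⟫ = ⟪u, v⟫ := by
  rw [Sec.inner_def, Sec.inner_def]
  exact S.int_right (N := fun y => ⟪u y, v y⟫) (u.meas.inner v.meas).measurable
    (Sec.inv_inner u v) h

theorem norm_Tr (h : G) (u : Sec S V) : ‖Tr S V h u‖ = ‖u‖ := by
  have := inner_Tr h u u
  rw [real_inner_self_eq_norm_sq, real_inner_self_eq_norm_sq] at this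
  exact (pow_left_inj₀ (norm_nonneg _) (norm_nonneg _) two_ne_zero).mp this

theorem meas_inner_Tr (u v : Sec S V) : Measurable fun h => ⟪Tr S V h u, v⟫ := by
  simp only [Sec.inner_def, Tr_apply]
  exact (StronglyMeasurable.integral_prod_right'
    (f := fun z : G × (X × G) => ⟪u (z.2.1, z.2.2 * z.1), v z.2⟫)
    ((u.meas.comp_measurable (by fun_prop)).inner (v.meas.comp_measurable (by fun_prop)))).measurable

theorem sec_int2 (ν : Measure G) [IsFiniteMeasure ν] (u v : Sec S V) :
    Integrable (Function.uncurry fun (y : X × G) (h : G) => ⟪u (y.1, y.2 * h), v y⟫)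
      (S.m.prod ν) := by
  obtain ⟨C, hC⟩ := u.bdd
  obtain ⟨D, hD⟩ := v.bdd
  refine Integrable.of_bound (C := C * D) ?_ (ae_of_all _ fun z => ?_)
  · exact ((u.meas.comp_measurable (g := fun z : (X × G) × G => (z.1.1, z.1.2 * z.2))
      (by fun_prop)).inner (v.meas.comp_measurable measurable_fst)).aestronglyMeasurable
  · refine (norm_inner_le_norm _ _).trans ?_
    exact mul_le_mul (hC _) (hD _) (norm_nonneg _) ((norm_nonneg _).trans (hC z.1))

theorem sec_int_Tr (ν : Measure G) [IsFiniteMeasure ν] (u v : Sec S V) :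
    Integrable (fun h => ⟪Tr S V h u, v⟫) ν :=
  Integrable.of_bound (meas_inner_Tr u v).aestronglyMeasurable (‖u‖ * ‖v‖)
    (ae_of_all _ fun k => by
      simpa only [norm_Tr] using norm_inner_le_norm (𝕜 := ℝ) (Tr S V k u) v)

theorem inner_Av (ν : Measure G) [IsFiniteMeasure ν] (u v : Sec S V) :
    ⟪Av S V ν u, v⟫ = ∫ h, ⟪Tr S V h u, v⟫ ∂ν := by
  simp only [Sec.inner_def, Tr_apply, Av_apply]
  rw [← integral_integral_swap (sec_int2 ν u v)]
  refine integral_congr_ae (ae_of_all _ fun y => ?_)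
  simp only [real_inner_comm (v y)]
  exact (integral_inner (int_sl S V u ν y.1 y.2) (v y)).symm

theorem norm_Av_apply_le (ν : Measure G) [IsProbabilityMeasure ν] (u : Sec S V) {C : ℝ}
    (h : ∀ y, ‖u y‖ ≤ C) (y) : ‖Av S V ν u y‖ ≤ C := by
  rw [Av_apply]
  simpa using norm_integral_le_of_norm_le_const (μ := ν) (f := fun k => u (y.1, y.2 * k)) (C := C)
    (ae_of_all _ fun _ => h _)

theorem norm_Av_le (ν : Measure G) [IsProbabilityMeasure ν] (u : Sec S V) :
    ‖Av S V ν u‖ ≤ ‖u‖ := by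
  set w := Av S V ν u with hw
  have h1 : ‖w‖ ^ 2 ≤ ‖u‖ * ‖w‖ := by
    rw [← real_inner_self_eq_norm_sq]
    conv_lhs => rw [hw, inner_Av, ← hw]
    refine (le_abs_self _).trans ?_
    have := norm_integral_le_of_norm_le_const (μ := ν) (f := fun k => ⟪Tr S V k u, w⟫)
      (C := ‖u‖ * ‖w‖) (ae_of_all _ fun k => by
        simpa only [norm_Tr] using norm_inner_le_norm (𝕜 := ℝ) (Tr S V k u) w)
    simpa using this
  rcases (norm_nonneg w).eq_or_lt with h | h
  · rw [← h]; exact norm_nonneg _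
  · nlinarith

theorem Av_symm (ν : Measure G) [IsFiniteMeasure ν] [ν.IsInvInvariant] (u v : Sec S V) :
    ⟪Av S V ν u, v⟫ = ⟪u, Av S V ν v⟫ := by
  rw [real_inner_comm (Av S V ν v) u, inner_Av, inner_Av,
    ← integral_inv_eq_self (fun h => ⟪Tr S V h v, u⟫) ν]
  refine integral_congr_ae (ae_of_all _ fun h => ?_)
  have e : Tr S V h (Tr S V h⁻¹ v) = v := Sec.ext fun y => by simp
  simp only
  rw [← inner_Tr h (Tr S V h⁻¹ v) u, e, real_inner_comm]

theorem Av_mconv (ν ρ : Measure G) [IsFiniteMeasure ν] [IsFiniteMeasure ρ] :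
    Av S V (ν ∗ₘ ρ) = Av S V ν * Av S V ρ := by
  refine LinearMap.ext fun u => Sec.ext fun y => ?_
  simp only [Module.End.mul_apply, Av_apply]
  rw [integral_mconv (int_sl S V u _ y.1 y.2)]
  simp only [mul_assoc]

theorem Av_dirac (h : G) : Av S V (Measure.dirac h) = Tr S V h := by
  refine LinearMap.ext fun u => Sec.ext fun y => ?_
  rw [Av_apply, Tr_apply, integral_dirac]

theorem Av_add (ν ρ : Measure G) [IsFiniteMeasure ν] [IsFiniteMeasure ρ] :
    Av S V (ν + ρ) = Av S V ν + Av S V ρ := by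
  refine LinearMap.ext fun u => Sec.ext fun y => ?_
  simp only [LinearMap.add_apply, Sec.add_apply, Av_apply]
  exact integral_add_measure (int_sl S V u _ y.1 y.2) (int_sl S V u _ y.1 y.2)

theorem Av_smul (c : ℝ≥0) (ν : Measure G) [IsFiniteMeasure ν] :
    Av S V (c • ν) = (c : ℝ) • Av S V ν := by
  refine LinearMap.ext fun u => Sec.ext fun y => ?_
  simp only [LinearMap.smul_apply, Sec.smul_apply, Av_apply]
  rw [integral_smul_nnreal_measure]
  rfl

/-- The energy identity, for two sections. -/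
theorem energy (ν : Measure G) [IsProbabilityMeasure ν] [ν.IsInvInvariant] (u v : Sec S V) :
    ∫ y, ∫ h, ⟪u (y.1, y.2 * h) - u y, v (y.1, y.2 * h) - v y⟫ ∂ν ∂S.m =
      2 * ⟪u - Av S V ν u, v⟫ := by
  obtain ⟨C, hC⟩ := u.bdd
  obtain ⟨D, hD⟩ := v.bdd
  have hi : Integrable (Function.uncurry fun (y : X × G) (h : G) =>
      ⟪u (y.1, y.2 * h) - u y, v (y.1, y.2 * h) - v y⟫) (S.m.prod ν) := by
    refine Integrable.of_bound (C := (C + C) * (D + D)) ?_ (ae_of_all _ fun z => ?_)
    · exact (((u.meas.comp_measurable (g := fun z : (X × G) × G => (z.1.1, z.1.2 * z.2))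
        (by fun_prop)).sub (u.meas.comp_measurable measurable_fst)).inner
        ((v.meas.comp_measurable (g := fun z : (X × G) × G => (z.1.1, z.1.2 * z.2))
        (by fun_prop)).sub (v.meas.comp_measurable measurable_fst))).aestronglyMeasurable
    · refine (norm_inner_le_norm _ _).trans ?_
      have a1 := norm_sub_le_of_le (hC (z.1.1, z.1.2 * z.2)) (hC z.1)
      exact mul_le_mul a1 (norm_sub_le_of_le (hD _) (hD _)) (norm_nonneg _)
        ((norm_nonneg _).trans a1)
  rw [integral_integral_swap hi]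
  have e : ∀ h : G, ∫ y, ⟪u (y.1, y.2 * h) - u y, v (y.1, y.2 * h) - v y⟫ ∂S.m
      = 2 * ⟪u, v⟫ - ⟪Tr S V h u, v⟫ - ⟪Tr S V h v, u⟫ := by
    intro h
    have := Sec.inner_def (Tr S V h u - u) (Tr S V h v - v)
    simp only [Sec.sub_apply, Tr_apply] at this
    rw [← this, inner_sub_left, inner_sub_right, inner_sub_right, inner_Tr,
      real_inner_comm (Tr S V h v) u]
    ring
  simp only [e]
  have hi2 : Integrable (fun h => 2 * ⟪u, v⟫ - ⟪Tr S V h u, v⟫) ν :=
    (integrable_const _).sub (sec_int_Tr ν u v)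
  rw [integral_sub hi2 (sec_int_Tr ν v u),
    integral_sub (integrable_const _) (sec_int_Tr ν u v), ← inner_Av, ← inner_Av,
    Av_symm ν v u, real_inner_comm (Av S V ν u) v, inner_sub_left]
  simp only [integral_const, probReal_univ, one_smul]
  ring

/-- Convolution powers. -/
noncomputable def cpow {L : Type} [Monoid L] [MeasurableSpace L] (r : Measure L) : ℕ → Measure L
  | 0 => Measure.dirac 1
  | n + 1 => cpow r n ∗ₘ r

instance cpow_prob {L : Type} [Monoid L] [MeasurableSpace L] [MeasurableMul₂ L] (r : Measure L)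
    [IsProbabilityMeasure r] (n : ℕ) : IsProbabilityMeasure (cpow r n) := by
  induction n with
  | zero => unfold cpow; infer_instance
  | succ n ih => unfold cpow; infer_instance

theorem cpow_map {L M : Type} [Monoid L] [MeasurableSpace L] [MeasurableMul₂ L] [Monoid M]
    [MeasurableSpace M] [MeasurableMul₂ M] (r : Measure L) [IsProbabilityMeasure r] (f : L →* M)
    (hf : Measurable f) (n : ℕ) : (cpow r n).map f = cpow (r.map f) n := by
  induction n with
  | zero => simp only [cpow, Measure.map_dirac' hf, map_one]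
  | succ n ih => simp only [cpow]; rw [Measure.map_mconv_monoidHom f hf, ih]

instance cpow_symm {L : Type} [Group L] [MeasurableSpace L] [MeasurableMul₂ L] [MeasurableInv L]
    (r : Measure L) [IsProbabilityMeasure r] [r.IsInvInvariant] (n : ℕ) :
    (cpow r n).IsInvInvariant := by
  have comm : ∀ n, r ∗ₘ cpow r n = cpow r n ∗ₘ r := by
    intro n
    induction n with
    | zero => simp [cpow]
    | succ n ih => simp only [cpow]; rw [← Measure.mconv_assoc, ih]
  have rev : ∀ (a b : Measure L) [IsProbabilityMeasure a] [IsProbabilityMeasure b],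
      (a ∗ₘ b).map Inv.inv = b.map Inv.inv ∗ₘ a.map Inv.inv := by
    intro a b _ _
    unfold Measure.mconv
    rw [Measure.map_prod_map _ _ measurable_inv measurable_inv, ← Measure.prod_swap (μ := a) (ν := b),
      Measure.map_map (by fun_prop) (by fun_prop), Measure.map_map (by fun_prop) (by fun_prop),
      Measure.map_map (by fun_prop) (by fun_prop)]
    congr 1
    funext p
    simp
  induction n with
  | zero => exact ⟨by simp [cpow, Measure.inv, Measure.map_dirac' measurable_inv]⟩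
  | succ n ih =>
    refine ⟨?_⟩
    simp only [cpow, Measure.inv]
    rw [rev, Measure.map_inv_eq_self, Measure.map_inv_eq_self, comm]

theorem Av_cpow (ν : Measure G) [IsProbabilityMeasure ν] (n : ℕ) :
    Av S V (cpow ν n) = Av S V ν ^ n := by
  induction n with
  | zero =>
    simp only [cpow, Av_dirac, pow_zero]
    exact LinearMap.ext fun u => Sec.ext fun y => by simp
  | succ n ih => simp only [cpow]; rw [Av_mconv, ih, pow_succ]

end Pool.Agent.Lib.MP_60cbcc_al.H3Z
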