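import Pool.Agent.Lib.MP_60cbcc_al.H3ZLat

/-!
The induced space of an action of a lattice: exact fundamental domain, invariance and localisation.
-/

set_option linter.unusedSectionVars false

namespace Pool.Agent.Lib.MP_60cbcc_al.H3Z

open MeasureTheory Set Filter Topology
open scoped ENNReal NNReal Pointwise

/-- A lattice embedding with an exact fundamental domain of Haar measure one, and an action. -/
structure Setup (Γ G X : Type) [Group Γ] [Group G] [TopologicalSpace G] [MeasurableSpace G]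
    [MeasurableSpace X] [MulAction Γ X] where
  j : Γ →* G
  lam : Measure G
  haar : lam.IsHaarMeasure
  right : lam.IsMulRightInvariant
  π : G → Γ
  mπ : ∀ γ, MeasurableSet {g | π g = γ}
  eqv : ∀ γ g, π (j γ * g) = γ * π g
  one : lam {g | π g = 1} = 1
  fin : ∀ K : Set G, IsCompact K → {γ | j γ ∈ K}.Finite
  μ : Measure X
  prob : IsProbabilityMeasure μ
  inv : SMulInvariantMeasure Γ X μ
  fix : ∀ γ : Γ, MeasurableSet {x : X | γ • x = x}

attribute [instance] Setup.haar Setup.right Setup.prob Setup.inv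

section Unfold

variable {Γ Y : Type} [Group Γ] [Countable Γ] [MeasurableSpace Y] {ν : Measure Y}
  {T : Γ → Y → Y}

/-- Unfolding along an equivariant selector. -/
theorem unf (hT : ∀ γ, MeasurePreserving (T γ) ν ν) {π : Y → Γ}
    (mπ : ∀ γ, MeasurableSet {y | π y = γ}) (eqv : ∀ γ y, π (T γ y) = γ * π y)
    {F : Y → ℝ≥0∞} (hF : Measurable F) :
    ∫⁻ y, F y ∂ν = ∫⁻ y in {y | π y = 1}, ∑' γ, F (T γ y) ∂ν := by
  have hu : (⋃ γ, {y | π y = γ}) = univ := by
    ext y; simp
  have hd : Pairwise (Function.onFun Disjoint fun γ => {y | π y = γ}) := by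
    intro a b hab
    refine Set.disjoint_left.2 fun y ha hb => hab ?_
    exact (show π y = a from ha).symm.trans hb
  rw [lintegral_tsum (f := fun γ y => F (T γ y))
      fun γ => (hF.comp (hT γ).measurable).aemeasurable,
    ← setLIntegral_univ, ← hu, lintegral_iUnion mπ hd]
  refine tsum_congr fun γ => ?_
  rw [← (hT γ).setLIntegral_comp_preimage (mπ γ) hF]
  congr 2
  ext y
  simp [eqv]

/-- Two equivariant selectors give the same integral of an invariant function. -/
theorem unf_two (hT : ∀ γ, MeasurePreserving (T γ) ν ν) {π π' : Y → Γ}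
    (mπ : ∀ γ, MeasurableSet {y | π y = γ}) (eqv : ∀ γ y, π (T γ y) = γ * π y)
    (mπ' : ∀ γ, MeasurableSet {y | π' y = γ}) (eqv' : ∀ γ y, π' (T γ y) = γ * π' y)
    {N : Y → ℝ≥0∞} (hN : Measurable N) (hI : ∀ γ y, N (T γ y) = N y) :
    ∫⁻ y in {y | π y = 1}, N y ∂ν = ∫⁻ y in {y | π' y = 1}, N y ∂ν := by
  rw [← lintegral_indicator (mπ 1), unf hT mπ' eqv' (hN.indicator (mπ 1))]
  refine lintegral_congr fun y => ?_
  rw [tsum_eq_single (π y)⁻¹]
  · rw [indicator_of_mem, hI]
    simp [eqv]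
  · intro γ hγ
    refine indicator_of_notMem ?_ _
    intro h
    apply hγ
    have h' : γ * π y = 1 := by rw [← eqv]; exact h
    exact eq_inv_of_mul_eq_one_left h'

end Unfold

variable {Γ G X : Type} [Group Γ] [Countable Γ] [Group G] [TopologicalSpace G]
  [IsTopologicalGroup G] [LocallyCompactSpace G] [SecondCountableTopology G] [T2Space G]
  [MeasurableSpace G] [BorelSpace G] [MeasurableSpace X] [MulAction Γ X] [MeasurableConstSMul Γ X]

/-- A neighbourhood of the identity that meets the image of the lattice only at the identity. -/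
theorem exists_small (j : Γ →* G) (hj : Lat j) :
    ∃ U : Set G, IsOpen U ∧ (1 : G) ∈ U ∧ ∀ γ, ∀ u ∈ U, ∀ u' ∈ U, j γ * u = u' → γ = 1 := by
  obtain ⟨K, hK, hK1⟩ := exists_compact_mem_nhds (1 : G)
  have hfin : (j '' ({γ | j γ ∈ K} \ {1})).Finite := ((hj.fin K hK).subset sdiff_subset).image _
  have hW : K ∩ (j '' ({γ | j γ ∈ K} \ {1}))ᶜ ∈ 𝓝 (1 : G) := by
    refine inter_mem hK1 (hfin.isClosed.isOpen_compl.mem_nhds ?_)
    rintro ⟨γ, ⟨-, h1⟩, h2⟩
    exact h1 (hj.inj (h2.trans (map_one j).symm))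
  obtain ⟨V, hV, hVW⟩ := exists_nhds_split_inv hW
  refine ⟨interior V, isOpen_interior, mem_interior_iff_mem_nhds.2 hV, ?_⟩
  intro γ u hu u' hu' h
  have h1 := hVW u' (interior_subset hu') u (interior_subset hu)
  have h2 : u' / u = j γ := by rw [← h]; simp
  rw [h2] at h1
  by_contra hγ
  exact h1.2 ⟨γ, ⟨h1.1, hγ⟩, rfl⟩

/-- A measurable equivariant selector. -/
theorem exists_selector (j : Γ →* G) (hj : Lat j) :
    ∃ π : G → Γ, (∀ γ, MeasurableSet {g | π g = γ}) ∧ ∀ γ g, π (j γ * g) = γ * π g := by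
  classical
  obtain ⟨U, hU, hU1, hUj⟩ := exists_small j hj
  obtain ⟨d, hd⟩ := TopologicalSpace.exists_dense_seq G
  let Q : ℕ → Γ → G → Prop := fun n γ g => (j γ)⁻¹ * g * (d n)⁻¹ ∈ U
  have hQo : ∀ n γ, IsOpen {g | Q n γ g} := fun n γ =>
    hU.preimage (f := fun g => (j γ)⁻¹ * g * (d n)⁻¹) (by fun_prop)
  have hQu : ∀ n γ γ' g, Q n γ g → Q n γ' g → γ = γ' := by
    intro n γ γ' g h h'
    have := hUj (γ'⁻¹ * γ) _ h _ h' (by simp [mul_assoc])
    exact (inv_mul_eq_one.1 this).symm
  have hQe : ∀ n γ δ g, Q n (δ * γ) (j δ * g) ↔ Q n γ g := by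
    intro n γ δ g
    simp only [Q, map_mul, mul_inv_rev, mul_assoc, inv_mul_cancel_left]
  have hex : ∀ g, ∃ n, ∃ γ, Q n γ g := by
    intro g
    have ho : IsOpen {x : G | g * x⁻¹ ∈ U} :=
      hU.preimage (f := fun x : G => g * x⁻¹) (by fun_prop)
    obtain ⟨n, hn⟩ := hd.exists_mem_open ho ⟨g, by simpa using hU1⟩
    exact ⟨n, 1, by simpa [Q] using hn⟩
  have hP : ∀ n δ g, (∃ γ, Q n γ (j δ * g)) ↔ ∃ γ, Q n γ g := by
    intro n δ g
    constructor
    · rintro ⟨γ, h⟩
      refine ⟨δ⁻¹ * γ, (hQe n _ δ g).1 ?_⟩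
      rwa [mul_inv_cancel_left]
    · rintro ⟨γ, h⟩
      exact ⟨δ * γ, (hQe n γ δ g).2 h⟩
  let π : G → Γ := fun g => (Nat.find_spec (hex g)).choose
  have hπ : ∀ g, Q (Nat.find (hex g)) (π g) g := fun g => (Nat.find_spec (hex g)).choose_spec
  refine ⟨π, fun γ => ?_, fun δ g => ?_⟩
  · have : {g | π g = γ} = ⋃ n, ({g | Q n γ g} ∩ ⋂ k, ⋂ (_ : k < n), (⋃ γ', {g | Q k γ' g})ᶜ) := by
      ext g
      simp only [mem_ofPred_eq, mem_iUnion, mem_inter_iff, mem_iInter, mem_compl_iff]
      constructor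
      · rintro rfl
        exact ⟨_, hπ g, fun k hk => Nat.find_min (hex g) hk⟩
      · rintro ⟨n, h1, h2⟩
        have hn : Nat.find (hex g) = n := (Nat.find_eq_iff _).2 ⟨⟨γ, h1⟩, h2⟩
        have h3 := hπ g
        rw [hn] at h3
        exact hQu n _ _ g h3 h1
    rw [this]
    refine MeasurableSet.iUnion fun n => (hQo n γ).measurableSet.inter ?_
    refine MeasurableSet.iInter fun k => MeasurableSet.iInter fun _ => ?_
    exact (isOpen_iUnion fun γ' => hQo k γ').measurableSet.compl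
  · have hn : Nat.find (hex (j δ * g)) = Nat.find (hex g) := by
      refine (Nat.find_eq_iff _).2 ⟨(hP _ δ g).2 (Nat.find_spec (hex g)), fun k hk h => ?_⟩
      exact Nat.find_min (hex g) hk ((hP k δ g).1 h)
    have h1 := hπ (j δ * g)
    rw [hn] at h1
    exact hQu _ _ _ _ h1 ((hQe _ _ δ g).2 (hπ g))

theorem exists_setup (j : Γ →* G) (hj : Lat j) (μ : Measure X) [IsProbabilityMeasure μ]
    [SMulInvariantMeasure Γ X μ] (hF : ∀ γ : Γ, MeasurableSet {x : X | γ • x = x}) :
    ∃ S : Setup Γ G X, S.j = j ∧ S.μ = μ := by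
  obtain ⟨π, mπ, eqv⟩ := exists_selector j hj
  obtain ⟨m, Ω, hm, hΩ, hcov⟩ := hj.cov
  have hT : ∀ γ, MeasurePreserving (fun g => j γ * g) m m := fun γ =>
    measurePreserving_mul_left m (j γ)
  have htop : m {g | π g = 1} ≠ ⊤ := by
    refine ne_top_of_le_ne_top hΩ ?_
    rw [← measure_toMeasurable Ω, ← lintegral_indicator_one (measurableSet_toMeasurable m Ω),
      unf hT mπ eqv (measurable_one.indicator (measurableSet_toMeasurable m Ω)),
      ← setLIntegral_one]
    refine lintegral_mono_ae (ae_restrict_of_ae ?_)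
    filter_upwards [hcov] with g hg
    obtain ⟨γ, hγ⟩ := hg
    refine le_trans ?_ (ENNReal.le_tsum γ)
    rw [indicator_of_mem (subset_toMeasurable m Ω hγ)]
    simp
  have hpos : m {g | π g = 1} ≠ 0 := by
    intro h0
    have h1 := unf hT mπ eqv (F := fun _ => 1) measurable_const
    rw [Measure.restrict_eq_zero.2 h0, lintegral_zero_measure, lintegral_one] at h1
    exact isOpen_univ.measure_ne_zero m univ_nonempty h1
  have hright : m.IsMulRightInvariant := by
    refine ⟨fun h => ?_⟩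
    have h1 := Measure.isMulLeftInvariant_eq_smul (Measure.map (· * h) m) m
    have h2 : Measure.map (· * h) m {g | π g = 1} = m {g | π g = 1} := by
      rw [Measure.map_apply (measurable_mul_const h) (mπ 1)]
      have := unf_two hT (π := fun g => π (g * h)) (π' := π)
        (fun γ => measurable_mul_const h (mπ γ)) (fun γ g => by rw [mul_assoc, eqv]) mπ eqv
        (N := fun _ => 1) measurable_const (fun _ _ => rfl)
      simpa using this
    set c := Measure.haarScalarFactor (Measure.map (· * h) m) m with hc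
    have h3 : (c : ℝ≥0∞) * m {g | π g = 1} = 1 * m {g | π g = 1} := by
      rw [one_mul]
      conv_rhs => rw [← h2, h1]
      simp
    have h4 : (c : ℝ≥0∞) = 1 := (ENNReal.mul_left_inj hpos htop).1 h3
    have h5 : c = 1 := by exact_mod_cast h4
    rw [h1, h5, one_smul]
  refine ⟨⟨j, (m {g | π g = 1})⁻¹ • m, Measure.IsHaarMeasure.smul m (ENNReal.inv_ne_zero.2 htop)
    (ENNReal.inv_ne_top.2 hpos), inferInstance, π, mπ, eqv, ?_, hj.fin, μ, inferInstance,
    inferInstance, hF⟩, rfl, rfl⟩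
  rw [Measure.smul_apply, smul_eq_mul, ENNReal.inv_mul_cancel hpos htop]

namespace Setup

variable (S : Setup Γ G X)

/-- The fundamental domain. -/
def Ω : Set G := {g | S.π g = 1}

/-- The probability measure of the induced space. -/
noncomputable def m : Measure (X × G) := S.μ.prod (S.lam.restrict S.Ω)

/-- Invariant functions. -/
def Inv {β : Type} (N : X × G → β) : Prop := ∀ γ x g, N (γ • x, S.j γ * g) = N (x, g)

instance probΩ : IsProbabilityMeasure (S.lam.restrict S.Ω) :=
  ⟨by rw [Measure.restrict_apply_univ]; exact S.one⟩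

instance probm : IsProbabilityMeasure S.m := by unfold m; infer_instance

theorem m_eq : S.m = (S.μ.prod S.lam).restrict {y | S.π y.2 = 1} := by
  unfold m
  conv_lhs => rw [← Measure.restrict_univ (μ := S.μ)]
  rw [Measure.prod_restrict]
  congr 1
  ext y
  simp [Ω]

theorem diag_pres (γ : Γ) : MeasurePreserving (fun y : X × G => (γ • y.1, S.j γ * y.2))
    (S.μ.prod S.lam) (S.μ.prod S.lam) :=
  (measurePreserving_smul γ S.μ).prod (measurePreserving_mul_left S.lam (S.j γ))

theorem mπ₂ (γ : Γ) : MeasurableSet {y : X × G | S.π y.2 = γ} := measurable_snd (S.mπ γ)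

/-- Unfolding on the product. -/
theorem unf_prod {F : X × G → ℝ≥0∞} (hF : Measurable F) :
    ∫⁻ y, F y ∂(S.μ.prod S.lam) = ∫⁻ y, ∑' γ, F (γ • y.1, S.j γ * y.2) ∂S.m := by
  rw [S.m_eq]
  exact unf S.diag_pres S.mπ₂ (fun γ y => S.eqv γ y.2) hF

/-- Invariance under right translation. -/
theorem lint_right {N : X × G → ℝ≥0∞} (hN : Measurable N) (hI : S.Inv N) (h : G) :
    ∫⁻ y, N (y.1, y.2 * h) ∂S.m = ∫⁻ y, N y ∂S.m := by
  have hR : MeasurePreserving (fun y : X × G => (y.1, y.2 * h)) (S.μ.prod S.lam)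
      (S.μ.prod S.lam) :=
    (MeasurePreserving.id S.μ).prod (measurePreserving_mul_right S.lam h)
  have hm : ∀ γ, MeasurableSet {y : X × G | S.π (y.2 * h⁻¹) = γ} := fun γ =>
    (measurable_snd.mul_const h⁻¹) (S.mπ γ)
  rw [S.m_eq, unf_two S.diag_pres S.mπ₂ (fun γ y => S.eqv γ y.2) hm
    (fun γ y => by simp only [mul_assoc, S.eqv]) hN (fun γ y => hI γ y.1 y.2),
    ← hR.setLIntegral_comp_preimage (hm 1) hN]
  congr 2
  ext y
  simp

/-- The retraction onto the fundamental domain. -/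
def ret (y : X × G) : X × G := ((S.π y.2)⁻¹ • y.1, S.j (S.π y.2)⁻¹ * y.2)

theorem meas_ret : Measurable S.ret := by
  intro s hs
  have : S.ret ⁻¹' s = ⋃ γ, ({y : X × G | S.π y.2 = γ} ∩
      (fun y : X × G => (γ⁻¹ • y.1, S.j γ⁻¹ * y.2)) ⁻¹' s) := by
    ext y
    simp only [mem_preimage, mem_iUnion, mem_inter_iff, mem_ofPred_eq, ret]
    constructor
    · intro h
      exact ⟨_, rfl, h⟩
    · rintro ⟨γ, rfl, h⟩
      exact h
  rw [this]
  exact MeasurableSet.iUnion fun γ => (S.mπ₂ γ).inter ((S.diag_pres γ⁻¹).measurable hs)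

theorem inv_ret : S.Inv S.ret := by
  intro γ x g
  simp only [ret, S.eqv, mul_inv_rev, mul_smul, inv_smul_smul, map_mul, map_inv, mul_assoc,
    inv_mul_cancel_left]

theorem ret_of_mem {y : X × G} (h : y.2 ∈ S.Ω) : S.ret y = y := by
  have h' : S.π y.2 = 1 := h
  simp [ret, h']

theorem ae_mem : ∀ᵐ y ∂S.m, y.2 ∈ S.Ω := by
  rw [S.m_eq]
  exact ae_restrict_mem (S.mπ₂ 1)

/-- Invariance under right translation. -/
theorem int_right {N : X × G → ℝ} (hN : Measurable N) (hI : S.Inv N) (h : G) :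
    ∫ y, N (y.1, y.2 * h) ∂S.m = ∫ y, N y ∂S.m := by
  have hR : Measurable fun y : X × G => (y.1, y.2 * h) :=
    measurable_fst.prodMk (measurable_snd.mul_const h)
  have hΦ : Measurable fun y : X × G => S.ret (y.1, y.2 * h) := S.meas_ret.comp hR
  have hmap : Measure.map (fun y : X × G => S.ret (y.1, y.2 * h)) S.m = S.m := by
    ext s hs
    have hs' := S.meas_ret hs
    have h1 := S.lint_right (N := (S.ret ⁻¹' s).indicator 1) (measurable_one.indicator hs')
      (fun γ x g => by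
        have hm : ((γ • x, S.j γ * g) ∈ S.ret ⁻¹' s) ↔ ((x, g) ∈ S.ret ⁻¹' s) := by
          rw [mem_preimage, mem_preimage, S.inv_ret γ x g]
        by_cases hx : (x, g) ∈ S.ret ⁻¹' s
        · rw [indicator_of_mem hx, indicator_of_mem (hm.2 hx)]
          rfl
        · rw [indicator_of_notMem hx, indicator_of_notMem fun h' => hx (hm.1 h')]) h
    rw [lintegral_indicator_one hs'] at h1
    have h2 : S.m (S.ret ⁻¹' s) = S.m s := by
      refine measure_congr ?_
      filter_upwards [S.ae_mem] with y hy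
      change (S.ret y ∈ s) = (y ∈ s)
      rw [S.ret_of_mem hy]
    rw [Measure.map_apply hΦ hs, ← h2, ← h1, ← lintegral_indicator_one (hΦ hs)]
    rfl
  conv_rhs => rw [← hmap]
  rw [integral_map hΦ.aemeasurable hN.aestronglyMeasurable]
  refine integral_congr_ae (Eventually.of_forall fun y => ?_)
  exact (hI _ _ _).symm

/-- Localisation. -/
theorem loc {K : Set G} (hK : IsCompact K) : ∃ C : ℝ≥0, ∀ N : X × G → ℝ≥0∞, Measurable N →
    S.Inv N → ∫⁻ x, ∫⁻ g in K, N (x, g) ∂S.lam ∂S.μ ≤ C * ∫⁻ y, N y ∂S.m := by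
  classical
  have hfin := S.fin (K * K⁻¹) (hK.mul hK.inv)
  refine ⟨hfin.toFinset.card, fun N hN hI => ?_⟩
  have hKm : MeasurableSet {y : X × G | y.2 ∈ K} := measurable_snd hK.measurableSet
  have h1 : ∫⁻ x, ∫⁻ g in K, N (x, g) ∂S.lam ∂S.μ
      = ∫⁻ y, {y : X × G | y.2 ∈ K}.indicator N y ∂(S.μ.prod S.lam) := by
    rw [lintegral_prod _ (hN.indicator hKm).aemeasurable]
    refine lintegral_congr fun x => ?_
    rw [← lintegral_indicator hK.measurableSet]
    rfl
  rw [h1, S.unf_prod (hN.indicator hKm), ← lintegral_const_mul _ hN]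
  refine lintegral_mono fun y => ?_
  by_cases h0 : ∃ γ0, S.j γ0 * y.2 ∈ K
  · obtain ⟨γ0, h0⟩ := h0
    rw [← (Equiv.mulRight γ0).tsum_eq, tsum_eq_sum (s := hfin.toFinset)]
    · calc _ ≤ ∑ _γ ∈ hfin.toFinset, N y := by
            refine Finset.sum_le_sum fun γ _ => ?_
            refine (indicator_le_self _ _ _).trans (le_of_eq ?_)
            exact hI _ _ _
        _ = _ := by simp
    · intro γ hγ
      refine indicator_of_notMem ?_ _
      intro h
      apply hγ
      rw [Finite.mem_toFinset]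
      refine ⟨_, h, _, inv_mem_inv.2 h0, ?_⟩
      simp [mul_assoc]
  · refine le_trans (le_of_eq (b := (0 : ℝ≥0∞)) ?_) bot_le
    rw [ENNReal.tsum_eq_zero]
    intro γ
    refine indicator_of_notMem ?_ _
    intro h
    exact h0 ⟨γ, h⟩

/-- Invariant properties that hold almost everywhere on the induced space. -/
theorem ae_of_m {p : X × G → Prop} (hp : MeasurableSet {y | p y}) (hI : S.Inv p)
    (h : ∀ᵐ y ∂S.m, p y) : ∀ᵐ x ∂S.μ, ∀ᵐ g ∂S.lam, p (x, g) := by
  refine Measure.ae_ae_of_ae_prod (p := p) ?_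
  rw [ae_iff]
  have hc : MeasurableSet {y | ¬ p y} := hp.compl
  rw [← lintegral_indicator_one hc, S.unf_prod (measurable_one.indicator hc)]
  refine (lintegral_congr_ae ?_).trans (lintegral_zero (μ := S.m))
  filter_upwards [h] with y hy
  rw [ENNReal.tsum_eq_zero]
  intro γ
  refine indicator_of_notMem ?_ _
  intro h'
  apply h'
  rw [hI]
  exact hy

/-- Tightness. -/
theorem tight {ε : ℝ} (hε : 0 < ε) :
    ∃ K : Set G, IsCompact K ∧ (S.lam.restrict S.Ω).real Kᶜ ≤ ε := by
  have h1 := tendsto_measure_iInter_atTop (μ := S.lam.restrict S.Ω)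
    (s := fun n => (compactCovering G n)ᶜ)
    (fun n => (isCompact_compactCovering G n).measurableSet.compl.nullMeasurableSet)
    (fun a b hab => compl_subset_compl.2 (compactCovering_subset G hab)) ⟨0, measure_ne_top _ _⟩
  rw [← compl_iUnion, iUnion_compactCovering, compl_univ, measure_empty] at h1
  obtain ⟨n, hn⟩ := (h1.eventually (gt_mem_nhds (ENNReal.ofReal_pos.2 hε))).exists
  refine ⟨_, isCompact_compactCovering G n, ?_⟩
  exact ENNReal.toReal_le_of_le_ofReal hε.le hn.le

end Setup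

end Pool.Agent.Lib.MP_60cbcc_al.H3Z
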