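import Pool.Agent.Lib.MP_60cbcc_al.H3ZTreeB

namespace Pool.Agent.Lib.MP_60cbcc_al.H3Z

theorem TreeAct.rigid {L : Type} [Group L] [TopologicalSpace L] [IsTopologicalGroup L]
    [T2Space L] [SecondCountableTopology L] {V : Type} {T : SimpleGraph V} [MulAction L V]
    (h : TreeAct L T) : Rigid L := by
  refine ⟨h.cg, h.qs, h.perf, h.nfi, h.nd, fun g hg => ⟨1, fun U hU =>
    ⟨{1}, by simp, by simpa using mem_of_mem_nhds hU, fun N => ?_⟩⟩⟩
  obtain ⟨v, hv⟩ := h.exists_move hg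
  obtain ⟨c, hc⟩ := h.pingpong hv N
  refine ⟨c, fun a b hab => ?_⟩
  obtain ⟨y, l, hl, hy⟩ := hc a b hab
  exact Mau.of_closure (mul_mem (Subgroup.subset_closure ⟨1, by simp, .inl (by simp)⟩)
    (Subgroup.subset_closure ⟨1, by simp, .inr (by simp)⟩)) (h.mau hl hy)

end Pool.Agent.Lib.MP_60cbcc_al.H3Z
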