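import Pool.Agent.Lib.MP_60cbcc_al.H3ZClass

/-!
Groups acting on trees: elementary properties and ping-pong.
-/

set_option linter.unusedSectionVars false

namespace Pool.Agent.Lib.MP_60cbcc_al.H3Z

/-- The geometric hypotheses on an action on a tree. -/
structure Tree0 (L : Type) [Group L] [TopologicalSpace L] {V : Type} (T : SimpleGraph V)
    [MulAction L V] : Prop where
  tree : T.IsTree
  deg : ∀ v, (T.neighborSet v).Finite ∧ 3 ≤ (T.neighborSet v).ncard
  adj : ∀ (g : L) (v w : V), T.Adj v w → T.Adj (g • v) (g • w)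
  stab : ∀ v : V, IsCompact {g : L | g • v = v} ∧ IsOpen {g : L | g • v = v}
  sph : ∀ v w w' : V, T.dist v w = T.dist v w' → ∃ g : L, g • v = v ∧ g • w = w'

/-- The hypotheses on an action on a tree. -/
structure TreeAct (L : Type) [Group L] [TopologicalSpace L] {V : Type} (T : SimpleGraph V)
    [MulAction L V] : Prop extends Tree0 L T where
  qs : ∀ N : Subgroup L, N.Normal → IsClosed (N : Set L) → N ≤ Subgroup.center L ∨ N = ⊤

variable {L : Type} [Group L] [TopologicalSpace L] [IsTopologicalGroup L] [T2Space L]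
  [SecondCountableTopology L] {V : Type} {T : SimpleGraph V} [MulAction L V]

namespace Tree0

theorem tri (h : Tree0 L T) (p y q : V) : T.dist p q ≤ T.dist p y + T.dist y q :=
  h.tree.connected.dist_triangle

theorem eq_of_dist (h : Tree0 L T) {p q : V} (e : T.dist p q = 0) : p = q :=
  h.tree.connected.dist_eq_zero_iff.1 e

theorem dist_smul_le (h : Tree0 L T) (g : L) (v w : V) :
    T.dist (g • v) (g • w) ≤ T.dist v w := by
  obtain ⟨p, hp⟩ := h.tree.connected.exists_walk_length_eq_dist v w
  have := SimpleGraph.dist_le (p.map (⟨fun x => g • x, fun {a b} e => h.adj g a b e⟩ : T →g T))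
  rwa [SimpleGraph.Walk.length_map, hp] at this

theorem dist_smul (h : Tree0 L T) (g : L) (v w : V) : T.dist (g • v) (g • w) = T.dist v w := by
  refine le_antisymm (h.dist_smul_le g v w) ?_
  simpa using h.dist_smul_le g⁻¹ (g • v) (g • w)

theorem dist_smul_left (h : Tree0 L T) (g : L) (v w : V) :
    T.dist (g • v) w = T.dist v (g⁻¹ • w) := by
  rw [← h.dist_smul g v, smul_inv_smul]

/-- Points of a geodesic are determined by their distance to an end point. -/
theorem uniq (h : Tree0 L T) {p q y y' : V} (hy : T.dist p y + T.dist y q = T.dist p q)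
    (hy' : T.dist p y' + T.dist y' q = T.dist p q) (e : T.dist p y = T.dist p y') : y = y' := by
  obtain ⟨a, ha⟩ := h.tree.connected.exists_walk_length_eq_dist p y
  obtain ⟨b, hb⟩ := h.tree.connected.exists_walk_length_eq_dist y q
  obtain ⟨a', ha'⟩ := h.tree.connected.exists_walk_length_eq_dist p y'
  obtain ⟨b', hb'⟩ := h.tree.connected.exists_walk_length_eq_dist y' q
  have h1 := (a.append b).isPath_of_length_eq_dist (by rw [SimpleGraph.Walk.length_append]; omega)
  have h2 := (a'.append b').isPath_of_length_eq_dist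
    (by rw [SimpleGraph.Walk.length_append]; omega)
  have h3 := congrArg (fun c => c.getVert (T.dist p y))
    ((h.tree.existsUnique_path p q).unique h1 h2)
  simpa [SimpleGraph.Walk.getVert_append, ha, ha', e] using h3

theorem exists_pred (h : Tree0 L T) {p q : V} {n : ℕ} (e : T.dist p q = n + 1) :
    ∃ y, T.Adj y q ∧ T.dist p y = n := by
  obtain ⟨a, ha⟩ := h.tree.connected.exists_walk_length_eq_dist q p
  rw [SimpleGraph.dist_comm, e] at ha
  cases a with
  | nil => simp at ha
  | @cons _ y _ hy a =>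
    refine ⟨y, hy.symm, ?_⟩
    have h1 := SimpleGraph.dist_le a
    have h2 := h.tri p y q
    rw [SimpleGraph.dist_eq_one_iff_adj.2 hy.symm] at h2
    rw [SimpleGraph.dist_comm] at h1
    rw [SimpleGraph.Walk.length_cons] at ha
    omega

theorem exists_mid (h : Tree0 L T) (p q : V) {k : ℕ} (hk : k ≤ T.dist p q) :
    ∃ y, T.dist p y = k ∧ T.dist p y + T.dist y q = T.dist p q := by
  induction e : T.dist p q generalizing q with
  | zero => exact ⟨q, by omega, by simp [e]⟩
  | succ n ih =>
    by_cases h0 : k = n + 1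
    · exact ⟨q, by omega, by simp [e]⟩
    obtain ⟨x, x1, x2⟩ := h.exists_pred e
    obtain ⟨y, y1, y2⟩ := ih x (by omega) x2
    have h1 := h.tri p y q
    have h2 := h.tri y x q
    rw [SimpleGraph.dist_eq_one_iff_adj.2 x1] at h2
    exact ⟨y, y1, by omega⟩

theorem dist_adj (h : Tree0 L T) {v w : V} (hvw : T.Adj v w) (z : V) :
    T.dist z w = T.dist z v + 1 ∨ T.dist z v = T.dist z w + 1 :=
  (h.tree.dist_eq_dist_add_one_of_adj z hvw).symm

/-- At most one neighbour of a vertex is closer to a given vertex. -/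
theorem closer (h : Tree0 L T) {v w w' z : V} (h1 : T.Adj v w) (h2 : T.Adj v w')
    (e1 : T.dist z v = T.dist z w + 1) (e2 : T.dist z v = T.dist z w' + 1) : w = w' :=
  h.uniq (p := z) (q := v) (by rw [SimpleGraph.dist_eq_one_iff_adj.2 h1.symm, e1])
    (by rw [SimpleGraph.dist_eq_one_iff_adj.2 h2.symm, e2]) (by omega)

theorem third (h : Tree0 L T) (v : V) {P Q : V → Prop}
    (hP : ∀ a b, T.Adj v a → T.Adj v b → P a → P b → a = b)
    (hQ : ∀ a b, T.Adj v a → T.Adj v b → Q a → Q b → a = b) : ∃ w, T.Adj v w ∧ ¬ P w ∧ ¬ Q w := by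
  obtain ⟨a, ha, b, hb, c, hc, h1, h2, h3⟩ := (Set.two_lt_ncard (h.deg v).1).1 (h.deg v).2
  rw [SimpleGraph.mem_neighborSet] at ha hb hc
  by_contra hn
  push Not at hn
  have := hn a ha
  have := hn b hb
  have := hn c hc
  have := hP a b ha hb
  have := hP a c ha hc
  have := hP b c hb hc
  have := hQ a b ha hb
  have := hQ a c ha hc
  have := hQ b c hb hc
  tauto

/-- A neighbour that is farther from two given vertices. -/
theorem out (h : Tree0 L T) (v z z' : V) :
    ∃ w, T.Adj v w ∧ T.dist z w = T.dist z v + 1 ∧ T.dist z' w = T.dist z' v + 1 := by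
  obtain ⟨w, h1, h2, h3⟩ := h.third v (P := fun a => T.dist z v = T.dist z a + 1)
    (Q := fun a => T.dist z' v = T.dist z' a + 1) (fun _ _ => h.closer) fun _ _ => h.closer
  exact ⟨w, h1, (h.dist_adj h1 z).resolve_right h2, (h.dist_adj h1 z').resolve_right h3⟩

theorem out_ne (h : Tree0 L T) (v z u : V) :
    ∃ w, T.Adj v w ∧ T.dist z w = T.dist z v + 1 ∧ w ≠ u := by
  obtain ⟨w, h1, h2, h3⟩ := h.third v (P := fun a => T.dist z v = T.dist z a + 1)
    (Q := fun a => a = u) (fun _ _ => h.closer) fun _ _ _ _ a b => a.trans b.symm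
  exact ⟨w, h1, (h.dist_adj h1 z).resolve_right h2, h3⟩

theorem ball_fin (h : Tree0 L T) (v : V) (r : ℕ) : {w | T.dist v w ≤ r}.Finite := by
  induction r with
  | zero => exact (Set.finite_singleton v).subset fun w hw => (h.eq_of_dist (Nat.le_zero.1 hw)).symm
  | succ r ih =>
    refine (ih.union (ih.biUnion fun y _ => (h.deg y).1)).subset fun w hw => ?_
    by_cases h0 : T.dist v w ≤ r
    · exact Or.inl h0
    obtain ⟨y, y1, y2⟩ := h.exists_pred (p := v) (q := w) (n := r)
      (by have : T.dist v w ≤ r + 1 := hw; omega)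
    exact Or.inr (Set.mem_biUnion (show y ∈ {w | T.dist v w ≤ r} from y2.le) y1)

/-- Spheres are large. -/
theorem sphere (h : Tree0 L T) (o : V) (r : ℕ) :
    ∃ s : Finset V, r + 1 ≤ s.card ∧ ∀ y ∈ s, T.dist o y = r := by
  classical
  induction r with
  | zero => exact ⟨{o}, by simp, by simp⟩
  | succ r ih =>
    obtain ⟨s, s1, s2⟩ := ih
    choose c c1 c2 c3 using fun y => h.out y o o
    obtain ⟨y0, hy0⟩ := Finset.card_pos.1 (show 0 < s.card by omega)
    obtain ⟨w, w1, w2, w3⟩ := h.out_ne y0 o (c y0)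
    have hinj : Function.Injective c := fun a b e =>
      h.closer (c1 a).symm (e ▸ (c1 b).symm) (c2 a) (e ▸ c2 b)
    have hw : w ∉ s.image c := fun hw => by
      obtain ⟨y, -, rfl⟩ := Finset.mem_image.1 hw
      exact w3 (congrArg c (h.closer (c1 y).symm w1.symm (c2 y) w2))
    refine ⟨insert w (s.image c), ?_, fun y hy => ?_⟩
    · rw [Finset.card_insert_of_notMem hw, Finset.card_image_of_injective _ hinj]
      omega
    · rcases Finset.mem_insert.1 hy with rfl | hy
      · rw [w2, s2 y0 hy0]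
      · obtain ⟨x, hx, rfl⟩ := Finset.mem_image.1 hy
        rw [c2, s2 x hx]

theorem even_orbit (h : Tree0 L T) {v y : V} {r : ℕ} (e : T.dist v y = 2 * r) :
    ∃ k : L, k • v = y := by
  obtain ⟨m, m1, m2⟩ := h.exists_mid v y (k := r) (by omega)
  obtain ⟨k, -, hk⟩ := h.sph m v y (by rw [SimpleGraph.dist_comm]; omega)
  exact ⟨k, hk⟩

theorem orbit_inf (h : Tree0 L T) (v : V) : (MulAction.orbit L v).Infinite := by
  refine Set.Infinite.of_image (T.dist v) (Set.infinite_of_forall_exists_gt fun n => ?_)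
  obtain ⟨s, s1, s2⟩ := h.sphere v (2 * (n + 1))
  obtain ⟨y, hy⟩ := Finset.card_pos.1 (show 0 < s.card by omega)
  exact ⟨_, ⟨y, h.even_orbit (s2 y hy), s2 y hy⟩, by omega⟩

theorem central_fix (h : Tree0 L T) {z : L} (hz : z ∈ Subgroup.center L) (v : V) :
    z • v = v := by
  by_contra hn
  have h0 : T.dist v (z • v) ≠ 0 := fun e => hn (h.eq_of_dist e).symm
  obtain ⟨s, s1, s2⟩ := h.sphere v (T.dist v (z • v))
  obtain ⟨y, hy, hne⟩ := Finset.exists_mem_ne (show 1 < s.card by omega) (z • v)
  obtain ⟨g, g1, g2⟩ := h.sph v (z • v) y (s2 y hy).symm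
  rw [← mul_smul, Subgroup.mem_center_iff.1 hz g, mul_smul, g1] at g2
  exact hne g2.symm

theorem cg (h : Tree0 L T) : ∃ S : Set L, IsCompact S ∧ Subgroup.closure S = ⊤ := by
  obtain ⟨v⟩ := h.tree.connected.nonempty
  refine ⟨{g | T.dist v (g • v) ≤ 2}, ?_, ?_⟩
  · have e : {g : L | T.dist v (g • v) ≤ 2} = ⋃ y ∈ {w | T.dist v w ≤ 2}, {g : L | g • v = y} := by
      ext g
      simp
    rw [e]
    refine (h.ball_fin v 2).isCompact_biUnion fun y _ => ?_
    rcases Set.eq_empty_or_nonempty {g : L | g • v = y} with e | ⟨k, hk⟩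
    · rw [e]
      exact isCompact_empty
    · have e : {g : L | g • v = y} = (fun g => k * g) '' {g : L | g • v = v} := by
        ext g
        refine ⟨fun hg => ⟨k⁻¹ * g, ?_, by simp⟩, ?_⟩
        · change (k⁻¹ * g) • v = v
          rw [mul_smul, show g • v = y from hg, ← show k • v = y from hk, inv_smul_smul]
        · rintro ⟨g, hg, rfl⟩
          change (k * g) • v = y
          rw [mul_smul, show g • v = v from hg, show k • v = y from hk]
      rw [e]
      exact (h.stab v).1.image (continuous_const_mul k)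
  · refine (Subgroup.eq_top_iff' _).2 fun g => ?_
    induction e : T.dist v (g • v) using Nat.strong_induction_on generalizing g with
    | _ n ih =>
      by_cases h2 : n ≤ 2
      · exact Subgroup.subset_closure (show T.dist v (g • v) ≤ 2 by omega)
      obtain ⟨y, y1, y2⟩ := h.exists_mid v (g • v) (k := 2) (by omega)
      obtain ⟨k, rfl⟩ := h.even_orbit (r := 1) y1
      have h3 := ih (n - 2) (by omega) (k⁻¹ * g) (by rw [mul_smul, ← h.dist_smul_left]; omega)
      have h4 : k ∈ {g : L | T.dist v (g • v) ≤ 2} := y1.le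
      simpa using mul_mem (Subgroup.subset_closure h4) h3

theorem _root_.Pool.Agent.Lib.MP_60cbcc_al.H3Z.TreeAct.perf
    (h : TreeAct L T) : Dense (commutator L : Set L) := by
  rcases h.qs _ (Subgroup.is_normal_topologicalClosure (commutator L))
    (Subgroup.isClosed_topologicalClosure _) with e | e
  · exfalso
    obtain ⟨v⟩ := h.tree.connected.nonempty
    obtain ⟨s, s1, s2⟩ := h.sphere v (2 * 1)
    obtain ⟨y, hy, y', hy', hne⟩ := Finset.one_lt_card.1 (show 1 < s.card by omega)
    obtain ⟨k, rfl⟩ := h.even_orbit (s2 y hy)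
    obtain ⟨g, g1, g2⟩ := h.sph v _ y' ((s2 _ hy).trans (s2 _ hy').symm)
    have h1 := h.central_fix (e (Subgroup.le_topologicalClosure _
      (Subgroup.commutator_mem_commutator (Subgroup.mem_top g) (Subgroup.mem_top k)))) (k • v)
    rw [commutatorElement_def, mul_smul, mul_smul, mul_smul, inv_smul_smul,
      inv_smul_eq_iff.2 g1.symm, g2] at h1
    exact hne h1.symm
  · exact dense_iff_closure_eq.2 (by
      rw [← Subgroup.topologicalClosure_coe, e, Subgroup.coe_top])

theorem _root_.Pool.Agent.Lib.MP_60cbcc_al.H3Z.TreeAct.nfi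
    (h : TreeAct L T) (N : Subgroup L) (hc : IsClosed (N : Set L)) (hN : N.FiniteIndex) :
    N = ⊤ := by
  rcases h.qs _ N.normalCore_normal (N.normalCore_isClosed hc) with e | e
  · exfalso
    obtain ⟨v⟩ := h.tree.connected.nonempty
    have : (MulAction.stabilizer L v).FiniteIndex :=
      Subgroup.finiteIndex_of_le (H := N.normalCore) fun g hg => h.central_fix (e hg) v
    have : Finite (MulAction.orbit L v) :=
      Finite.of_equiv _ (MulAction.orbitEquivQuotientStabilizer L v).symm
    exact h.orbit_inf v (Set.toFinite _)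
  · exact top_le_iff.1 (e ▸ N.normalCore_le)

theorem nd (h : Tree0 L T) : ¬ DiscreteTopology L := by
  intro hd
  obtain ⟨v⟩ := h.tree.connected.nonempty
  have hf := (h.stab v).1.finite_of_discrete
  obtain ⟨s, s1, s2⟩ := h.sphere v {g : L | g • v = v}.ncard
  obtain ⟨y, hy⟩ := Finset.card_pos.1 (show 0 < s.card by omega)
  have h1 : (s : Set V) ⊆ (fun g : L => g • y) '' {g : L | g • v = v} := fun x hx =>
    h.sph v y x ((s2 y hy).trans (s2 x hx).symm)
  have h2 := (Set.ncard_le_ncard h1 (hf.image _)).trans (Set.ncard_image_le hf)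
  rw [Set.ncard_coe_finset] at h2
  omega

/-- An edge joining the two sides of an edge is that edge. -/
theorem cross (h : Tree0 L T) {v w a b : V} (hvw : T.Adj v w) (hab : T.Adj a b)
    (ha : T.dist a v = T.dist a w + 1) (hb : T.dist b w = T.dist b v + 1) : a = w ∧ b = v := by
  have h1 := h.dist_adj hab v
  have h2 := h.dist_adj hab w
  have h3 : T.dist w v = 1 := SimpleGraph.dist_eq_one_iff_adj.2 hvw.symm
  have h4 : T.dist a b = 1 := SimpleGraph.dist_eq_one_iff_adj.2 hab
  rw [T.dist_comm (u := a), T.dist_comm (u := a)] at ha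
  rw [T.dist_comm (u := b), T.dist_comm (u := b)] at hb
  by_cases h0 : T.dist w a = 0
  · exact ⟨(h.eq_of_dist h0).symm, (h.eq_of_dist (by omega)).symm⟩
  exfalso
  obtain ⟨y, y1, y2⟩ := h.exists_mid v b (k := T.dist w a - 1) (by omega)
  have h5 := h.tri w v y
  have h6 := h.tri w y b
  have h7 : y = a := h.uniq (p := w) (q := b) (by omega) (by omega) (by omega)
  rw [h7] at y1
  omega

/-- Geodesics between the two sides of an edge pass through the edge. -/
theorem gate (h : Tree0 L T) {v w z x : V} (hvw : T.Adj v w)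
    (hz : T.dist z v = T.dist z w + 1) (hx : T.dist x w = T.dist x v + 1) :
    T.dist z x = T.dist z v + T.dist v x := by
  induction e : T.dist z x generalizing x with
  | zero =>
    rw [← h.eq_of_dist e] at hx
    omega
  | succ n ih =>
    obtain ⟨y, y1, y2⟩ := h.exists_pred e
    rcases h.dist_adj hvw y with h1 | h1
    · have h2 := ih h1 y2
      have h3 := h.tri v y x
      have h4 := h.tri z v x
      rw [SimpleGraph.dist_eq_one_iff_adj.2 y1] at h3
      omega
    · obtain ⟨-, rfl⟩ := h.cross hvw y1 h1 hx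
      rw [SimpleGraph.dist_self]
      omega

/-- An element mapping a half-tree properly into itself translates along an axis. -/
theorem axis (h : Tree0 L T) {v w o : V} {b : L} (hvw : T.Adj v w)
    (hb : ∀ z, T.dist z w = T.dist z v + 1 → T.dist (b • z) w = T.dist (b • z) v + 1)
    (ho : T.dist o v = T.dist o w + 1) (ho' : T.dist (b • o) w = T.dist (b • o) v + 1) :
    ∃ l : ℕ, 0 < l ∧ ∀ k : ℕ, T.dist v (b ^ k • v) = k * l := by
  have hv : T.dist v w = T.dist v v + 1 := by
    rw [SimpleGraph.dist_self, SimpleGraph.dist_eq_one_iff_adj.2 hvw]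
  have hw : T.dist w v = T.dist w w + 1 := by
    rw [SimpleGraph.dist_self, SimpleGraph.dist_eq_one_iff_adj.2 hvw.symm]
  have h1 : T.dist (b⁻¹ • v) v = T.dist (b⁻¹ • v) w + 1 := by
    refine (h.dist_adj hvw _).resolve_left fun e => ?_
    have h2 : T.dist (b⁻¹ • w) v = T.dist (b⁻¹ • w) w + 1 := by
      refine (h.dist_adj hvw _).resolve_left fun e => ?_
      have := hb _ e
      rw [smul_inv_smul] at this
      omega
    obtain ⟨e1, e2⟩ := h.cross hvw (h.adj _ _ _ hvw.symm) h2 e
    rw [h.dist_smul_left, h.dist_smul_left, e1, e2] at ho'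
    omega
  have h3 : ∀ k : ℕ, T.dist (b ^ k • v) w = T.dist (b ^ k • v) v + 1 := fun k => by
    induction k with
    | zero => simpa using hv
    | succ k ih =>
      rw [pow_succ', mul_smul]
      exact hb _ ih
  refine ⟨T.dist (b⁻¹ • v) v, by omega, fun k => ?_⟩
  induction k with
  | zero => simp
  | succ k ih =>
    have := h.gate hvw h1 (h3 k)
    rw [h.dist_smul_left, inv_inv, ← mul_smul, ← pow_succ'] at this
    rw [this, ih]
    ring

theorem _root_.Pool.Agent.Lib.MP_60cbcc_al.H3Z.TreeAct.exists_move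
    (h : TreeAct L T) {g : L} (hg : g ∉ Subgroup.center L) :
    ∃ v : V, g • v ≠ v := by
  by_contra hn
  push Not at hn
  have hm : ∀ x : L, x ∈ (MulAction.toPermHom L V).ker ↔ ∀ v : V, x • v = v := fun x => by
    simp [MonoidHom.mem_ker, Equiv.ext_iff]
  have hc : IsClosed ((MulAction.toPermHom L V).ker : Set L) := by
    have e : ((MulAction.toPermHom L V).ker : Set L) = ⋂ v : V, {g : L | g • v = v} := by
      ext x
      simpa using hm x
    rw [e]
    exact isClosed_iInter fun v => (h.stab v).1.isClosed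
  rcases h.qs _ inferInstance hc with e | e
  · exact hg (e ((hm g).2 hn))
  · obtain ⟨v⟩ := h.tree.connected.nonempty
    refine h.orbit_inf v ((Set.finite_singleton v).subset ?_)
    rintro _ ⟨x, rfl⟩
    exact (hm x).1 (e ▸ Subgroup.mem_top x) v

/-- Ping-pong: products of suitable conjugates translate along an axis. -/
theorem pingpong (h : Tree0 L T) {g : L} {v : V} (hv : g • v ≠ v) (N : ℕ) :
    ∃ c : Fin N → L, ∀ a b, a ≠ b → ∃ (y : V) (l : ℕ), 0 < l ∧ ∀ k : ℕ,
      T.dist y ((c a * g * (c a)⁻¹ * (c b * g * (c b)⁻¹)) ^ k • y) = k * l := by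
  obtain ⟨w, hvw, w1, w2⟩ := h.out v (g • v) (g⁻¹ • v)
  have hU : ∀ z, T.dist z v = T.dist z w + 1 → T.dist (g • z) w = T.dist (g • z) v + 1 := by
    intro z hz
    refine (h.dist_adj hvw _).resolve_right fun e => hv (h.eq_of_dist ?_)
    have h1 := h.gate hvw e w1
    have h2 := h.gate hvw hz w2
    rw [← h.dist_smul_left] at h2
    rw [h.dist_smul] at h1
    rw [← h.dist_smul_left] at h2
    omega
  have hO : ∀ r, ∃ o, T.dist w o = r ∧ T.dist v o = r + 1 := fun r => by
    induction r with
    | zero => exact ⟨w, by simp, SimpleGraph.dist_eq_one_iff_adj.2 hvw⟩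
    | succ r ih =>
      obtain ⟨o, o1, o2⟩ := ih
      obtain ⟨o', -, p1, p2⟩ := h.out o w v
      exact ⟨o', by omega, by omega⟩
  obtain ⟨o, o1, o2⟩ := hO N
  rw [T.dist_comm] at o1 o2
  obtain ⟨s, s1, s2⟩ := h.sphere o (N + 1)
  obtain ⟨f⟩ : Nonempty (Fin N ↪ s) := Function.Embedding.nonempty_of_card_le (by simp; omega)
  choose c c1 c2 using fun a => h.sph o v (f a) (o2.trans (s2 _ (f a).2).symm)
  have ho : ∀ a, T.dist o (c a • v) = T.dist o (c a • w) + 1 := fun a => by
    rw [← c1 a, h.dist_smul, h.dist_smul]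
    omega
  have hd : ∀ a b, a ≠ b → ∀ z, T.dist z (c a • w) = T.dist z (c a • v) + 1 →
      T.dist z (c b • v) = T.dist z (c b • w) + 1 := by
    intro a b hab z hz
    refine (h.dist_adj (h.adj _ _ _ hvw) _).resolve_left fun e => hab (f.injective ?_)
    have h1 := h.gate (h.adj _ _ _ hvw) (ho a) hz
    have h2 := h.gate (h.adj _ _ _ hvw) (ho b) e
    rw [c2] at h1 h2
    exact Subtype.ext (h.uniq h1.symm h2.symm ((s2 _ (f a).2).trans (s2 _ (f b).2).symm))
  have hg' : ∀ a z, T.dist z (c a • v) = T.dist z (c a • w) + 1 →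
      T.dist ((c a * g * (c a)⁻¹) • z) (c a • w) =
        T.dist ((c a * g * (c a)⁻¹) • z) (c a • v) + 1 := by
    intro a z hz
    rw [mul_smul, mul_smul, h.dist_smul, h.dist_smul]
    refine hU _ ?_
    rwa [h.dist_smul_left, h.dist_smul_left, inv_inv]
  refine ⟨c, fun a b hab => ⟨c a • v, ?_⟩⟩
  have key : ∀ z, T.dist z (c b • v) = T.dist z (c b • w) + 1 →
      T.dist ((c a * g * (c a)⁻¹ * (c b * g * (c b)⁻¹)) • z) (c a • w) =
        T.dist ((c a * g * (c a)⁻¹ * (c b * g * (c b)⁻¹)) • z) (c a • v) + 1 := fun z hz => by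
    rw [mul_smul]
    exact hg' a _ (hd b a hab.symm _ (hg' b z hz))
  exact h.axis (h.adj _ _ _ hvw) (fun z hz => key z (hd a b hab z hz)) (ho a) (key o (ho b))

end Tree0

end Pool.Agent.Lib.MP_60cbcc_al.H3Z
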