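import Pool.Agent.Lib.MP_60cbcc_al.H3ZTreeA

/-!
The Mautner phenomenon for hyperbolic tree automorphisms.
-/

namespace Pool.Agent.Lib.MP_60cbcc_al.H3Z

open Topology

set_option linter.unusedSectionVars false

variable {L : Type} [Group L] [TopologicalSpace L] [IsTopologicalGroup L] [T2Space L]
  [SecondCountableTopology L] {V : Type} {T : SimpleGraph V} [MulAction L V]

namespace Tree0

theorem b_mv_compact (h : Tree0 L T) (u v : V) : IsCompact {n : L | n • u = v} := by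
  by_cases he : ∃ n : L, n • u = v
  · obtain ⟨n, rfl⟩ := he
    have : {m : L | m • u = n • u} = (fun m => n * m) '' {m : L | m • u = u} := by
      ext m
      constructor
      · intro hm
        refine ⟨n⁻¹ * m, ?_, by simp⟩
        have hm' : m • u = n • u := hm
        change (n⁻¹ * m) • u = u
        rw [mul_smul, hm', inv_smul_smul]
      · rintro ⟨m, hm, rfl⟩
        have hm' : m • u = u := hm
        change (n * m) • u = n • u
        rw [mul_smul, hm']
    rw [this]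
    exact (h.stab u).1.image (by fun_prop)
  · have : {n : L | n • u = v} = ∅ := Set.eq_empty_of_forall_notMem fun n hn => he ⟨n, hn⟩
    rw [this]
    exact isCompact_empty

theorem b_mv_closed (h : Tree0 L T) (u v : V) : IsClosed {n : L | n • u = v} :=
  (h.b_mv_compact u v).isClosed

theorem b_tri (h : Tree0 L T) (u v w : V) : T.dist u w ≤ T.dist u v + T.dist v w :=
  h.tree.connected.dist_triangle

theorem b_align (h : Tree0 L T) (p q : V) (r : ℕ) : ∀ u v : V, T.Adj u v →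
    T.dist p v = T.dist p u + 1 → T.dist u q = r + 1 → T.dist v q = r →
    T.dist p q = T.dist p u + r + 1 := by
  induction r with
  | zero =>
    intro u v _ h1 _ h3
    have : v = q := h.tree.connected.dist_eq_zero_iff.1 h3
    subst this
    omega
  | succ r ih =>
    intro u v huv h1 h2 h3
    obtain ⟨v', hv1, hv2⟩ := h.exists_mid v q (k := 1) (by omega)
    have hadj : T.Adj v v' := SimpleGraph.dist_eq_one_iff_adj.1 hv1
    have huv1 : T.dist u v = 1 := SimpleGraph.dist_eq_one_iff_adj.2 huv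
    rcases h.dist_adj hadj p with h4 | h4
    · have := ih v v' hadj h4 h3 (by omega)
      omega
    · have hvv : T.dist v' v = 1 := by rw [SimpleGraph.dist_comm, hv1]
      have : u = v' := h.uniq (p := p) (q := v) (by omega) (by omega) (by omega)
      subst this
      omega

/-- Two vertices seen from `y` in different directions. -/
theorem b_gate (h : Tree0 L T) {y a a' p q : V} (ha : T.Adj y a) (ha' : T.Adj y a')
    (hne : a' ≠ a) (hp : T.dist a p + 1 = T.dist y p) (hq : T.dist a' q + 1 = T.dist y q) :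
    T.dist p q = T.dist y p + T.dist y q := by
  have e1 : T.dist a y = 1 := SimpleGraph.dist_eq_one_iff_adj.2 ha.symm
  have e2 : T.dist a' y = 1 := SimpleGraph.dist_eq_one_iff_adj.2 ha'.symm
  rw [SimpleGraph.dist_comm (u := a), SimpleGraph.dist_comm (u := y)] at hp
  rcases h.dist_adj ha' p with h4 | h4
  · have := h.b_align p q (T.dist a' q) y a' ha' h4 hq.symm rfl
    rw [SimpleGraph.dist_comm (u := y) (v := p)]
    omega
  · exact absurd (h.uniq (p := p) (q := y) (by omega) (by omega) (by omega)) hne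

end Tree0

/-- The elements fixing the forward half of the axis. -/
def fixP (c : L) (y : V) : Set L := {n | ∀ k : ℕ, n • c ^ k • y = c ^ k • y}

/-- The elements fixing the whole axis. -/
def fixA (c : L) (y : V) : Subgroup L where
  carrier := {n | ∀ k : ℤ, n • c ^ k • y = c ^ k • y}
  one_mem' := fun _ => one_smul _ _
  mul_mem' := fun {a b} ha hb k => by rw [mul_smul, hb k, ha k]
  inv_mem' := fun {a} ha k => by rw [inv_smul_eq_iff, ha k]

omit [TopologicalSpace L] [IsTopologicalGroup L] [T2Space L] [SecondCountableTopology L] in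
theorem fixA_inv (c : L) (y : V) : fixA c⁻¹ y = fixA c y := by
  ext n
  constructor
  · intro hn k
    have := hn (-k)
    rwa [inv_zpow', neg_neg] at this
  · intro hn k
    rw [inv_zpow']
    exact hn (-k)

omit [TopologicalSpace L] [IsTopologicalGroup L] [T2Space L] [SecondCountableTopology L] in
theorem fixA_conj {c : L} {y : V} {m : L} (hm : m ∈ fixA c y) (i : ℤ) :
    c ^ i * m * (c ^ i)⁻¹ ∈ fixA c y := by
  intro k
  have := hm (k - i)
  rw [mul_smul, mul_smul, smul_smul (c ^ i)⁻¹, ← zpow_neg, ← zpow_add, neg_add_eq_sub, this,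
    smul_smul, ← zpow_add, add_sub_cancel]

namespace Tree0

theorem fixA_compact (h : Tree0 L T) (c : L) (y : V) : IsCompact (fixA c y : Set L) := by
  refine (h.stab y).1.of_isClosed_subset ?_ fun n hn => by simpa using hn 0
  have : (fixA c y : Set L) = ⋂ k : ℤ, {n : L | n • c ^ k • y = c ^ k • y} := by
    ext n
    rw [Set.mem_iInter]
    rfl
  rw [this]
  exact isClosed_iInter fun k => h.b_mv_closed _ _

/-- An element fixing the forward half of the axis is, up to the kernel of a conjugation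
invariant function, an element fixing the whole axis. -/
theorem exists_fixA (h : Tree0 L T) {c : L} {y : V} {ψ : L → ℝ} (hc : Continuous ψ)
    (h1 : ψ 1 = 0) (h0 : ∀ g, 0 ≤ ψ g) (hj : ∀ (k : ℤ) g, ψ (c ^ k * g * (c ^ k)⁻¹) = ψ g)
    {n : L} (hn : n ∈ fixP c y) : ∃ m ∈ fixA c y, ψ (m⁻¹ * n) = 0 := by
  obtain ⟨m, hm, hmin⟩ := (h.fixA_compact c y).exists_isMinOn ⟨1, one_mem _⟩
    (f := fun m => ψ (m⁻¹ * n)) (by fun_prop)
  refine ⟨m, hm, le_antisymm (le_of_forall_pos_le_add fun ε hε => ?_) (h0 _)⟩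
  let D : ℕ → Set L := fun k => ⋂ i : {i : ℤ // -(k : ℤ) ≤ i}, {x | x • c ^ i.1 • y = c ^ i.1 • y}
  have hDc : ∀ k, IsClosed (D k) := fun k => isClosed_iInter fun i => h.b_mv_closed _ _
  have hDk : ∀ k, IsCompact (D k) := fun k =>
    (h.stab y).1.of_isClosed_subset (hDc k) fun x hx => by
      simpa using Set.mem_iInter.1 hx ⟨0, by omega⟩
  have hdir : Directed (· ⊇ ·) D := by
    refine Antitone.directed_ge fun k k' hk x hx => Set.mem_iInter.2 fun i => ?_
    exact Set.mem_iInter.1 hx ⟨i.1, by have := i.2; omega⟩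
  obtain ⟨k, hk⟩ := exists_subset_nhds_of_isCompact' hdir hDk hDc
    (U := {x | ∃ m ∈ fixA c y, ψ (m⁻¹ * x) < ε}) fun x hx => by
      have hxA : x ∈ fixA c y := fun i =>
        Set.mem_iInter.1 (Set.mem_iInter.1 hx i.natAbs) ⟨i, by omega⟩
      have ho : IsOpen {z | ψ (x⁻¹ * z) < ε} := isOpen_lt (by fun_prop) continuous_const
      exact Filter.mem_of_superset (ho.mem_nhds (by simpa [h1] using hε)) fun z hz => ⟨x, hxA, hz⟩
  obtain ⟨m', hm', hlt⟩ := hk (a := (c ^ (k : ℤ))⁻¹ * n * c ^ (k : ℤ))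
    (Set.mem_iInter.2 fun i => by
      obtain ⟨j, hj⟩ : ∃ j : ℕ, (j : ℤ) = k + i.1 := ⟨(k + i.1).toNat, by have := i.2; omega⟩
      have e := hn j
      rw [← zpow_natCast, hj] at e
      change ((c ^ (k : ℤ))⁻¹ * n * c ^ (k : ℤ)) • c ^ i.1 • y = c ^ i.1 • y
      rw [mul_smul, mul_smul, smul_smul (c ^ (k : ℤ)), ← zpow_add, e, smul_smul, ← zpow_neg,
        ← zpow_add, neg_add_cancel_left])
  have e := hj k (m'⁻¹ * ((c ^ (k : ℤ))⁻¹ * n * c ^ (k : ℤ)))
  have e2 : c ^ (k : ℤ) * (m'⁻¹ * ((c ^ (k : ℤ))⁻¹ * n * c ^ (k : ℤ))) * (c ^ (k : ℤ))⁻¹ =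
      (c ^ (k : ℤ) * m' * (c ^ (k : ℤ))⁻¹)⁻¹ * n := by group
  have := hmin (fixA_conj hm' k)
  simp only [Set.mem_ofPred_eq] at this
  rw [e2] at e
  linarith

variable {c : L} {y : V} {l : ℕ}

theorem ax_inv (h : Tree0 L T) (hb : ∀ k : ℕ, T.dist y (c ^ k • y) = k * l) (k : ℕ) :
    T.dist y (c⁻¹ ^ k • y) = k * l := by
  rw [← h.dist_smul (c ^ k), smul_smul, inv_pow, mul_inv_cancel, one_smul, SimpleGraph.dist_comm,
    hb]

theorem ax_add (h : Tree0 L T) (hb : ∀ k : ℕ, T.dist y (c ^ k • y) = k * l) (i j : ℕ) :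
    T.dist (c ^ i • y) (c ^ (i + j) • y) = j * l := by
  rw [pow_add, mul_smul, h.dist_smul, hb]

theorem ax_opp (h : Tree0 L T) (hb : ∀ k : ℕ, T.dist y (c ^ k • y) = k * l) (j k : ℕ) :
    T.dist (c⁻¹ ^ j • y) (c ^ k • y) = (j + k) * l := by
  rw [← h.dist_smul (c ^ j), smul_smul, inv_pow, mul_inv_cancel, one_smul, smul_smul, ← pow_add,
    hb]

/-- Decomposition of an element that keeps the two halves of the axis aligned. -/
theorem b_decomp (h : Tree0 L T) (hb : ∀ k : ℕ, T.dist y (c ^ k • y) = k * l) {g : L}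
    (hg : ∀ j k : ℕ, T.dist (c⁻¹ ^ j • y) (g • c ^ k • y) = (j + k) * l) :
    ∃ n ∈ fixP c⁻¹ y, n * g ∈ fixP c y := by
  let C : ℕ → Set L := fun k => ⋂ i : {i : ℕ // i ≤ k},
    {n | n • c⁻¹ ^ i.1 • y = c⁻¹ ^ i.1 • y} ∩ {n | n • g • c ^ i.1 • y = c ^ i.1 • y}
  have hCc : ∀ k, IsClosed (C k) := fun k =>
    isClosed_iInter fun i => (h.b_mv_closed _ _).inter (h.b_mv_closed _ _)
  obtain ⟨n, hn⟩ := IsCompact.nonempty_iInter_of_sequence_nonempty_isCompact_isClosed C
    (fun k x hx => Set.mem_iInter.2 fun i => Set.mem_iInter.1 hx ⟨i.1, by have := i.2; omega⟩)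
    (fun k => by
      obtain ⟨n, hn1, hn2⟩ := h.sph (c⁻¹ ^ k • y) (g • c ^ k • y) (c ^ k • y)
        (by rw [hg, h.ax_opp hb])
      refine ⟨n, Set.mem_iInter.2 fun i => ?_⟩
      obtain ⟨i, hi⟩ := i
      obtain ⟨d, rfl⟩ := Nat.exists_eq_add_of_le hi
      have a1 := h.ax_add (h.ax_inv hb) i d
      have a2 := h.ax_add hb i d
      have a3 := h.ax_opp hb (i + d) (i + d)
      rw [SimpleGraph.dist_comm] at a1
      constructor
      · have b1 : T.dist (c⁻¹ ^ (i + d) • y) (n • c⁻¹ ^ i • y) = d * l := by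
          rw [← a1, ← h.dist_smul n (c⁻¹ ^ (i + d) • y) (c⁻¹ ^ i • y), hn1]
        have b2 : T.dist (n • c⁻¹ ^ i • y) (c ^ (i + d) • y) = (i + (i + d)) * l := by
          rw [← hg, ← h.dist_smul n (c⁻¹ ^ i • y), hn2]
        exact h.uniq (p := c⁻¹ ^ (i + d) • y) (q := c ^ (i + d) • y) (by rw [b1, b2, a3]; ring)
          (by rw [a1, h.ax_opp hb, a3]; ring) (by rw [b1, a1])
      · have b1 : T.dist (c⁻¹ ^ (i + d) • y) (n • g • c ^ i • y) = (i + d + i) * l := by
          rw [← hg, ← h.dist_smul n (c⁻¹ ^ (i + d) • y) (g • c ^ i • y), hn1]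
        have b2 : T.dist (n • g • c ^ i • y) (c ^ (i + d) • y) = d * l := by
          rw [← a2, ← h.dist_smul g (c ^ i • y), ← h.dist_smul n (g • c ^ i • y), hn2]
        exact h.uniq (p := c⁻¹ ^ (i + d) • y) (q := c ^ (i + d) • y) (by rw [b1, b2, a3]; ring)
          (by rw [a2, h.ax_opp hb, a3]; ring) (by rw [b1, h.ax_opp hb]))
    ((h.stab y).1.of_isClosed_subset (hCc 0) fun x hx => by
      simpa using (Set.mem_iInter.1 hx ⟨0, le_rfl⟩).1) hCc
  refine ⟨n, fun k => (Set.mem_iInter.1 (Set.mem_iInter.1 hn k) ⟨k, le_rfl⟩).1, fun k => ?_⟩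
  rw [mul_smul]
  exact (Set.mem_iInter.1 (Set.mem_iInter.1 hn k) ⟨k, le_rfl⟩).2

/-- The neighbour of `y` in the forward direction. -/
theorem b_exists_dir (h : Tree0 L T) (hl : 0 < l) (hb : ∀ k : ℕ, T.dist y (c ^ k • y) = k * l) :
    ∃ e, T.Adj y e ∧ ∀ k : ℕ, T.dist e (c ^ (k + 1) • y) + 1 = (k + 1) * l := by
  have h1 := hb 1
  obtain ⟨e, he1, he2⟩ := h.exists_mid y (c ^ 1 • y) (k := 1) (by omega)
  refine ⟨e, SimpleGraph.dist_eq_one_iff_adj.1 he1, fun k => ?_⟩
  have a1 := h.b_tri e (c ^ 1 • y) (c ^ (1 + k) • y)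
  have a2 := h.b_tri y e (c ^ (1 + k) • y)
  rw [h.ax_add hb] at a1
  rw [hb] at a2
  rw [add_comm k 1]
  rw [add_mul] at a2 ⊢
  omega

theorem decomp_of_ne (h : Tree0 L T) (hb : ∀ k : ℕ, T.dist y (c ^ k • y) = k * l) {e e' : V}
    (he : T.Adj y e) (he' : T.Adj y e')
    (hd : ∀ k : ℕ, T.dist e (c ^ (k + 1) • y) + 1 = (k + 1) * l)
    (hd' : ∀ k : ℕ, T.dist e' (c⁻¹ ^ (k + 1) • y) + 1 = (k + 1) * l) {g : L} (hy : g • y = y)
    (hne : g • e ≠ e') : ∃ n ∈ fixP c⁻¹ y, n * g ∈ fixP c y := by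
  have hq : ∀ k : ℕ, T.dist y (g • c ^ k • y) = k * l := fun k => by
    rw [← hb, ← h.dist_smul g y (c ^ k • y), hy]
  refine h.b_decomp hb fun j k => ?_
  rcases j with _ | j
  · simpa using hq k
  rcases k with _ | k
  · rw [pow_zero, one_smul, hy, SimpleGraph.dist_comm, h.ax_inv hb]
  have := h.b_gate he' (by simpa [hy] using h.adj g y e he) hne (p := c⁻¹ ^ (j + 1) • y)
    (q := g • c ^ (k + 1) • y) (by rw [hd', h.ax_inv hb]) (by rw [h.dist_smul, hd, hq])
  rw [this, h.ax_inv hb, hq]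
  ring

/-- A closed subgroup containing the stabiliser of `y` and `c` is everything. -/
theorem _root_.Pool.Agent.Lib.MP_60cbcc_al.H3Z.TreeAct.b_eq_top
    (h : TreeAct L T) (hl : 0 < l) (hb : ∀ k : ℕ, T.dist y (c ^ k • y) = k * l)
    (H : Subgroup L) (hs : ∀ g : L, g • y = y → g ∈ H) (hc : c ∈ H) : H = ⊤ := by
  have ho : IsOpen (H : Set L) :=
    H.isOpen_of_mem_nhds (Filter.mem_of_superset ((h.stab y).2.mem_nhds (one_smul L y)) hs)
  have horb : ∀ (r : ℕ) (v : V), T.dist y v = r → ∃ a ∈ H, T.dist y (a • v) ≤ l := by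
    intro r
    induction r using Nat.strong_induction_on with
    | _ r ih =>
      intro v hv
      by_cases hr : r ≤ l
      · exact ⟨1, one_mem _, by rwa [one_smul, hv]⟩
      have hrl : r ≤ r * l := Nat.le_mul_of_pos_right r hl
      obtain ⟨u, hu1, hu2⟩ := h.exists_mid y (c ^ r • y) (k := r - l) (by rw [hb]; omega)
      have a1 := h.b_tri y (c • y) (c • u)
      have a2 := h.b_tri y (c • u) (c • c ^ r • y)
      have a3 := hb 1
      have a4 := hb (r + 1)
      rw [pow_one] at a3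
      rw [pow_succ', mul_smul, add_mul] at a4
      rw [h.dist_smul] at a1 a2
      rw [hb] at hu2
      obtain ⟨s, hs1, hs2⟩ := h.sph y v (c • u) (by omega)
      obtain ⟨a, ha, ha2⟩ := ih (r - l) (by omega) u hu1
      refine ⟨a * c⁻¹ * s, mul_mem (mul_mem ha (inv_mem hc)) (hs s hs1), ?_⟩
      rwa [mul_smul, mul_smul, hs2, inv_smul_smul]
  have hK : IsCompact (⋃ v ∈ {w | T.dist y w ≤ l}, {n : L | n • y = v}) :=
    (h.ball_fin y l).isCompact_biUnion fun v _ => h.b_mv_compact y v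
  have : DiscreteTopology (L ⧸ H) := QuotientGroup.discreteTopology ho
  have hfin := (hK.image (QuotientGroup.continuous_mk (N := H))).finite_of_discrete
  have : Finite (L ⧸ H) := by
    refine Set.finite_univ_iff.1 (hfin.subset fun x _ => ?_)
    obtain ⟨g, rfl⟩ := QuotientGroup.mk_surjective x
    obtain ⟨a, ha, ha2⟩ := horb _ (g⁻¹ • y) rfl
    refine ⟨g * a⁻¹, Set.mem_biUnion (x := (g * a⁻¹) • y) ?_ rfl, ?_⟩
    · change T.dist y ((g * a⁻¹) • y) ≤ l
      rw [← h.dist_smul (a * g⁻¹), smul_smul (a * g⁻¹) (g * a⁻¹), SimpleGraph.dist_comm,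
        mul_smul a g⁻¹]
      simpa using ha2
    · rw [QuotientGroup.eq]
      simpa using ha
  exact h.nfi H (H.isClosed_of_isOpen ho) H.finiteIndex_of_finite_quotient

end Tree0

theorem TreeAct.mau (h : TreeAct L T) {b : L} {y : V} {l : ℕ} (hl : 0 < l)
    (hb : ∀ k : ℕ, T.dist y (b ^ k • y) = k * l) : Mau {b} := by
  intro φ hc h1 hi hm hF
  have h0 : ∀ g, 0 ≤ φ g := fun g => by
    have := hm g g⁻¹
    rw [mul_inv_cancel, h1, hi] at this
    linarith
  let Z : Subgroup L :=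
    { carrier := {g | φ g = 0}
      one_mem' := h1
      mul_mem' := fun {x z} (hx : φ x = 0) (hz : φ z = 0) =>
        le_antisymm (by linarith [hm x z]) (h0 _)
      inv_mem' := fun {x} (hx : φ x = 0) => (hi x).trans hx }
  have hbZ : b ∈ Z := hF b rfl
  have hle : ∀ z ∈ Z, ∀ g, φ (z * g * z⁻¹) ≤ φ g := fun z (hz : φ z = 0) g => by
    linarith [hm (z * g) z⁻¹, hm z g, hi z]
  have hcj : ∀ z ∈ Z, ∀ g, φ (z * g * z⁻¹) = φ g := fun z hz g =>
    le_antisymm (hle z hz g) (by simpa [mul_assoc] using hle z⁻¹ (inv_mem hz) (z * g * z⁻¹))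
  have hA := h.fixA_compact b y
  let ψ : L → ℝ := fun g => sSup ((fun m => φ (m * g * m⁻¹)) '' (fixA b y : Set L))
  have hψc : Continuous ψ := hA.continuous_sSup (f := fun g m => φ (m * g * m⁻¹))
    (show Continuous fun p : L × L => φ (p.2 * p.1 * p.2⁻¹) by fun_prop)
  have hψle : ∀ g, ∀ m ∈ fixA b y, φ (m * g * m⁻¹) ≤ ψ g := fun g m hm =>
    le_csSup (hA.image (by fun_prop)).bddAbove ⟨m, hm, rfl⟩
  have hψ0 : ∀ g, 0 ≤ ψ g := fun g => (h0 _).trans (hψle g 1 (one_mem _))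
  have hψ1 : ψ 1 = 0 := le_antisymm (csSup_le ⟨_, 1, one_mem _, rfl⟩ (by
    rintro _ ⟨m, -, rfl⟩
    simp [h1])) (hψ0 1)
  have hψj' : ∀ (k : ℤ) g, ψ (b ^ k * g * (b ^ k)⁻¹) ≤ ψ g := fun k g =>
    csSup_le ⟨_, 1, one_mem _, rfl⟩ (by
      rintro _ ⟨m, hm, rfl⟩
      have e := hψle g _ (fixA_conj hm (-k))
      rw [← hcj _ (zpow_mem hbZ k)] at e
      refine le_of_eq_of_le (congrArg φ ?_) e
      group)
  have hψj : ∀ (k : ℤ) g, ψ (b ^ k * g * (b ^ k)⁻¹) = ψ g := fun k g =>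
    le_antisymm (hψj' k g) (by
      refine le_of_eq_of_le (congrArg ψ ?_) (hψj' (-k) (b ^ k * g * (b ^ k)⁻¹))
      group)
  let N : Subgroup L :=
    { carrier := {g | ∀ m ∈ fixA b y, m * g * m⁻¹ ∈ Z}
      one_mem' := fun m _ => by simp
      mul_mem' := fun {x z} hx hz m hm => by
        convert mul_mem (hx m hm) (hz m hm) using 1
        group
      inv_mem' := fun {x} hx m hm => by
        convert inv_mem (hx m hm) using 1
        group }
  have hN : ∀ g, ψ g = 0 → g ∈ N := fun g hg m hm => le_antisymm (hg ▸ hψle g m hm) (h0 _)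
  have hP : ∀ n ∈ fixP b y, ∃ m ∈ fixA b y, m⁻¹ * n ∈ N := fun n hn => by
    obtain ⟨m, hm, e⟩ := h.exists_fixA hψc hψ1 hψ0 hψj hn
    exact ⟨m, hm, hN _ e⟩
  have hQ : ∀ n ∈ fixP b⁻¹ y, ∃ m ∈ fixA b y, m⁻¹ * n ∈ N := fun n hn => by
    obtain ⟨m, hm, e⟩ := h.exists_fixA hψc hψ1 hψ0
      (fun k g => by rw [inv_zpow']; exact hψj (-k) g) hn
    exact ⟨m, fixA_inv b y ▸ hm, hN _ e⟩
  let H : Subgroup L := Subgroup.normalizer (N : Set L)
  have hAN : ∀ a ∈ fixA b y, ∀ g ∈ N, a * g * a⁻¹ ∈ N := fun a ha g hg m hm => by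
    convert hg (m * a) (mul_mem hm ha) using 1
    group
  have hAH : ∀ a ∈ fixA b y, a ∈ H := fun a ha => Subgroup.mem_normalizer_iff.2 fun g =>
    ⟨hAN a ha g, fun hg => by simpa [mul_assoc] using hAN a⁻¹ (inv_mem ha) _ hg⟩
  have hbN : ∀ (k : ℤ), ∀ g ∈ N, b ^ k * g * (b ^ k)⁻¹ ∈ N := fun k g hg m hm => by
    have e := hg _ (fixA_conj hm (-k))
    convert mul_mem (mul_mem (zpow_mem hbZ k) e) (inv_mem (zpow_mem hbZ k)) using 1
    group
  have hbH : b ∈ H := Subgroup.mem_normalizer_iff.2 fun g =>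
    ⟨fun hg => by simpa using hbN 1 g hg, fun hg => by simpa [mul_assoc] using hbN (-1) _ hg⟩
  have hPH : ∀ n, n ∈ fixP b y ∨ n ∈ fixP b⁻¹ y → n ∈ H := fun n hn => by
    obtain ⟨m, hm, e⟩ := hn.elim (hP n) (hQ n)
    simpa using mul_mem (hAH m hm) (Subgroup.le_normalizer e)
  obtain ⟨e, he, hd⟩ := h.b_exists_dir hl hb
  obtain ⟨e', he', hd'⟩ := h.b_exists_dir hl (h.ax_inv hb)
  have hfw : ∀ g : L, g • y = y → g • e ≠ e' → g ∈ H := fun g hy hne => by
    obtain ⟨n, hn, hng⟩ := h.decomp_of_ne hb he he' hd hd' hy hne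
    simpa using mul_mem (inv_mem (hPH n (.inr hn))) (hPH _ (.inl hng))
  obtain ⟨e3, he3, hn1, hn2⟩ : ∃ e3, T.Adj y e3 ∧ e3 ≠ e ∧ e3 ≠ e' := by
    by_contra hcon
    have hsub : T.neighborSet y ⊆ {e, e'} := fun x hx => by
      by_contra hx'
      exact hcon ⟨x, hx, fun hh => hx' (.inl hh), fun hh => hx' (.inr hh)⟩
    have := Set.ncard_le_ncard hsub (Set.toFinite _)
    have h2 : ({e, e'} : Set V).ncard ≤ 2 := (Set.ncard_insert_le _ _).trans (by simp)
    have := (h.deg y).2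
    omega
  obtain ⟨s, hsy, hse⟩ := h.sph y e' e3
    (by rw [SimpleGraph.dist_eq_one_iff_adj.2 he', SimpleGraph.dist_eq_one_iff_adj.2 he3])
  obtain ⟨n, hn, hns⟩ := h.decomp_of_ne (h.ax_inv hb) he' he hd' (by simpa using hd) hsy
    (by rwa [hse])
  rw [inv_inv] at hn
  have hsH : s ∈ H := by
    simpa using mul_mem (inv_mem (hPH n (.inl hn))) (hPH _ (.inr hns))
  have hH : H = ⊤ := h.b_eq_top hl hb H (fun g hy => by
    by_cases hge : g • e = e'
    · simpa using mul_mem (inv_mem hsH) (hfw (s * g) (by rw [mul_smul, hy, hsy])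
        (by rwa [mul_smul, hge, hse]))
    · exact hfw g hy hge) hbH
  have hNn : N.Normal := Subgroup.normalizer_eq_top_iff.1 hH
  have hNc : IsClosed (N : Set L) := by
    have : (N : Set L) = ⋂ m ∈ fixA b y, {g | φ (m * g * m⁻¹) = 0} := by
      ext g
      rw [Set.mem_iInter₂]
      rfl
    rw [this]
    exact isClosed_biInter fun m _ => isClosed_eq (by fun_prop) continuous_const
  rcases h.qs N hNn hNc with hcen | htop
  · exfalso
    obtain ⟨m, hm, e1⟩ := hP n hn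
    have f1 : n • b⁻¹ ^ 1 • y = b⁻¹ ^ 1 • y := by
      have a1 := h.central_fix (hcen e1) (b⁻¹ ^ 1 • y)
      have a2 := (fixA_inv b y ▸ hm : m ∈ fixA b⁻¹ y) 1
      rw [mul_smul, inv_smul_eq_iff] at a1
      rw [a1]
      simpa using a2
    have f2 : s • b⁻¹ ^ 1 • y = b⁻¹ ^ 1 • y := by
      have := hns 1
      rw [mul_smul] at this
      exact MulAction.injective n (this.trans f1.symm)
    have a1 := hd' 0
    have a2 := h.ax_inv hb 1
    have a3 : T.dist e3 (b⁻¹ ^ 1 • y) = T.dist e' (b⁻¹ ^ 1 • y) := by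
      rw [← h.dist_smul s e', hse, f2]
    have a4 := SimpleGraph.dist_eq_one_iff_adj.2 he'
    have a5 := SimpleGraph.dist_eq_one_iff_adj.2 he3
    rw [zero_add] at a1
    exact hn2 (h.uniq (p := y) (q := b⁻¹ ^ 1 • y) (by omega) (by omega) (by omega))
  · intro g
    have : g ∈ N := htop ▸ Subgroup.mem_top g
    have hz : g ∈ Z := by simpa using this 1 (one_mem _)
    exact hz

end Pool.Agent.Lib.MP_60cbcc_al.H3Z
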