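import Pool.Agent.Lib.MP_60cbcc_al.H8WHarm

/-!
The limit function on a product of two groups splits as a sum.
-/

namespace Pool.Agent.Lib.MP_60cbcc_al.H8W

open MeasureTheory Set Filter Topology
open scoped ENNReal Pointwise

section
variable {G : Type} [Group G] [MeasurableSpace G] [TopologicalSpace G] [IsTopologicalGroup G]
  [BorelSpace G] [LocallyCompactSpace G] (μ : Measure G) [μ.IsHaarMeasure]

theorem invInv [SecondCountableTopology G] [μ.IsMulRightInvariant] : μ.IsInvInvariant := by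
  constructor
  let c : ℝ≥0∞ := Measure.haarScalarFactor μ.inv μ
  have hc : μ.inv = c • μ := Measure.isMulLeftInvariant_eq_smul μ.inv μ
  have μeq : μ = c ^ 2 • μ := by
    nth_rewrite 1 [← μ.inv_inv, Measure.inv_def μ.inv]
    rw [hc, Measure.map_smul, ← Measure.inv_def μ, hc, smul_smul, pow_two]
  have K : TopologicalSpace.PositiveCompacts G := Classical.arbitrary _
  have : c ^ 2 * μ K = 1 ^ 2 * μ K := by
    conv_rhs => rw [μeq]
    simp
  have : c ^ 2 = 1 ^ 2 :=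
    (ENNReal.mul_left_inj (Measure.measure_pos_of_nonempty_interior _ K.interior_nonempty).ne'
      K.isCompact.measure_lt_top.ne).1 this
  rw [hc, (ENNReal.pow_right_strictMono two_ne_zero).injective this, one_smul]

theorem exists_den [T2Space G] [μ.IsInvInvariant]
    (h : ∃ S : Set G, IsCompact S ∧ Subgroup.closure S = ⊤) : ∃ (Q : Set G) (ρ : G → ℝ),
    IsCompact Q ∧ Den Q ρ ∧ Sym Q (μ.withDensity fun s => ENNReal.ofReal (ρ s)) := by
  obtain ⟨S, hS, hg⟩ := h
  obtain ⟨f, h1, -, h2, h3⟩ :=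
    exists_continuous_one_zero_of_isCompact (hS.insert 1) isClosed_empty (disjoint_empty _)
  have hQ : IsCompact (tsupport f ∪ (tsupport f)⁻¹) := h2.isCompact.union h2.isCompact.inv
  have hc : Continuous fun s => f s + f s⁻¹ := by fun_prop
  have h0 : ∀ s, 0 ≤ f s + f s⁻¹ := fun s => add_nonneg (h3 _).1 (h3 _).1
  have hs : ∀ s, s ∉ tsupport f ∪ (tsupport f)⁻¹ → f s + f s⁻¹ = 0 := fun s hs => by
    rw [image_eq_zero_of_notMem_tsupport fun h => hs (.inl h),
      image_eq_zero_of_notMem_tsupport fun h => hs (.inr h), add_zero]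
  have hp : ∀ s ∈ insert 1 S, 0 < f s + f s⁻¹ := fun s hs =>
    add_pos_of_pos_of_nonneg (by rw [h1 hs]; exact one_pos) (h3 _).1
  have hcs := HasCompactSupport.intro hQ hs
  have hI : 0 < ∫ s, f s + f s⁻¹ ∂μ :=
    hc.integral_pos_of_hasCompactSupport_nonneg_nonzero hcs h0 (hp 1 (mem_insert _ _)).ne'
  set I := ∫ s, f s + f s⁻¹ ∂μ with hId
  have hm : Measurable fun s => ENNReal.ofReal (I⁻¹ * (f s + f s⁻¹)) :=
    (hc.measurable.const_mul _).ennreal_ofReal
  refine ⟨_, fun s => I⁻¹ * (f s + f s⁻¹), hQ, ⟨by fun_prop, fun s => mul_nonneg (inv_pos.2 hI).le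
    (h0 s), fun s => by rw [inv_inv, add_comm], mul_pos (inv_pos.2 hI) (hp 1 (mem_insert _ _)),
    fun s h => by rw [hs s h, mul_zero], top_le_iff.1 (hg.ge.trans (Subgroup.closure_mono
      fun s h => mul_pos (inv_pos.2 hI) (hp s (.inr h))))⟩, ⟨?_⟩, ⟨Measure.ext fun A hA => ?_⟩, ?_⟩
  · rw [withDensity_apply _ MeasurableSet.univ, Measure.restrict_univ,
      ← ofReal_integral_eq_lintegral_ofReal
        ((hc.integrable_of_hasCompactSupport hcs).const_mul _)
        (.of_forall fun s => mul_nonneg (inv_pos.2 hI).le (h0 s)), integral_const_mul,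
      inv_mul_cancel₀ hI.ne', ENNReal.ofReal_one]
  · rw [Measure.inv_apply, withDensity_apply _ hA, withDensity_apply _ hA.inv,
      ← lintegral_indicator hA, ← lintegral_indicator hA.inv, ← lintegral_inv_eq_self]
    refine lintegral_congr fun s => ?_
    by_cases h : s ∈ A <;> simp [h, add_comm]
  · refine (ae_withDensity_iff hm).2 (.of_forall fun s h => by_contra fun h' => h ?_)
    rw [hs s h', mul_zero, ENNReal.ofReal_zero]

omit [LocallyCompactSpace G] in
theorem Den.top {Q : Set G} {ρ : G → ℝ} (hρ : Den Q ρ) (H : Subgroup G)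
    (h : ∀ᵐ s ∂μ.withDensity fun s => ENNReal.ofReal (ρ s), s ∈ H) (s : G) : s ∈ H := by
  rw [ae_withDensity_iff hρ.cont.measurable.ennreal_ofReal] at h
  refine (Subgroup.closure_le H).2 (fun s (hs : 0 < ρ s) => ?_) (hρ.gen.ge (Subgroup.mem_top s))
  have h' := (measurePreserving_mul_left μ s⁻¹).quasiMeasurePreserving.ae h
  have ho : IsOpen ({x | 0 < ρ x} ∩ {x | 0 < ρ (s⁻¹ * x)}) :=
    (isOpen_lt continuous_const hρ.cont).inter
      (isOpen_lt continuous_const (hρ.cont.comp (by fun_prop)))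
  obtain ⟨x, hx, h1, h2⟩ := Measure.exists_mem_of_measure_ne_zero_of_ae
    (ho.measure_pos μ ⟨s, hs, by simpa using hρ.one⟩).ne' (ae_restrict_of_ae (h.and h'))
  simpa using H.mul_mem (h1 (by simpa using hx.1)) (H.inv_mem (h2 (by simpa using hx.2)))

omit [IsTopologicalGroup G] [LocallyCompactSpace G] in
theorem Sym.map {H : Type} [Group H] [MeasurableSpace H] [TopologicalSpace H] [BorelSpace H]
    [MeasurableInv G] [MeasurableInv H] {Q : Set G} {Q' : Set H} {ν : Measure G} (h : Sym Q ν)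
    (φ : G →* H) (hφ : Continuous φ) (hQ : MeasurableSet Q') (h' : ∀ s ∈ Q, φ s ∈ Q') :
    Sym Q' (ν.map φ) := by
  have := h.prob
  have := h.inv
  refine ⟨Measure.isProbabilityMeasure_map hφ.measurable.aemeasurable, ⟨?_⟩,
    (ae_map_iff hφ.measurable.aemeasurable hQ).2 (h.supp.mono h')⟩
  rw [Measure.inv_def, Measure.map_map measurable_inv hφ.measurable]
  nth_rewrite 2 [← Measure.map_inv_eq_self ν]
  rw [Measure.map_map hφ.measurable measurable_inv]
  congr 1; ext s; simp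

end

variable {G₁ G₂ Ω : Type} [Group G₁] [MeasurableSpace G₁] [TopologicalSpace G₁]
  [IsTopologicalGroup G₁] [BorelSpace G₁] [LocallyCompactSpace G₁] [SecondCountableTopology G₁]
  [T2Space G₁] [Group G₂] [MeasurableSpace G₂] [TopologicalSpace G₂]
  [IsTopologicalGroup G₂] [BorelSpace G₂] [LocallyCompactSpace G₂] [SecondCountableTopology G₂]
  [T2Space G₂] {μ₁ : Measure G₁} {μ₂ : Measure G₂} [μ₁.IsHaarMeasure] [μ₂.IsHaarMeasure]
  [μ₁.IsMulRightInvariant] [μ₂.IsMulRightInvariant] [MeasurableSpace Ω] [MulAction (G₁ × G₂) Ω]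
  [MeasurableSMul₂ (G₁ × G₂) Ω] {m : Measure Ω} [SFinite m] [SMulInvariantMeasure (G₁ × G₂) Ω m]
  {o : Ω} {χ : Ω → ℝ}

theorem core (h₁ : ∃ S : Set G₁, IsCompact S ∧ Subgroup.closure S = ⊤)
    (h₂ : ∃ S : Set G₂, IsCompact S ∧ Subgroup.closure S = ⊤) (hS : Sp (μ₁.prod μ₂) m o)
    (hχ : Cut (G₁ × G₂) o χ) (hp : m {x | χ x = 1} = ∞) (hn : m {x | χ x = -1} = ∞) :
    ∃ F : G₁ × G₂ → ℝ, Continuous F ∧ (∀ g g', g • o = g' • o → F g = F g') ∧
      (∀ g₀, (∀ g, F g ≤ F g₀) → ∀ g, F g = F g₀) ∧ (∀ c, ¬ ∀ g, F g = c) ∧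
      (∀ s t, F (s, t) - F (s, 1) = F (1, t) - F 1) ∧
      (Lyap o {g : G₁ × G₂ | g.1 = 1} → ∀ s, F (s, 1) = F 1) ∧
      (Lyap o {g : G₁ × G₂ | g.2 = 1} → ∀ t, F (1, t) = F 1) := by
  have := invInv μ₁
  have := invInv μ₂
  obtain ⟨Q₁, ρ₁, hQ₁, d₁, s₁⟩ := exists_den μ₁ h₁
  obtain ⟨Q₂, ρ₂, hQ₂, d₂, s₂⟩ := exists_den μ₂ h₂
  have := s₁.prob; have := s₂.prob; have := s₁.inv; have := s₂.inv
  have o₁ : (1 : G₁) ∈ Q₁ := by_contra fun h => d₁.one.ne' (d₁.supp _ h)
  have o₂ : (1 : G₂) ∈ Q₂ := by_contra fun h => d₂.one.ne' (d₂.supp _ h)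
  have hQ := hQ₁.prod hQ₂
  set ν₁ := μ₁.withDensity fun s => ENNReal.ofReal (ρ₁ s) with e₁
  set ν₂ := μ₂.withDensity fun s => ENNReal.ofReal (ρ₂ s) with e₂
  have c₁ : Continuous (MonoidHom.inl G₁ G₂) := .prodMk continuous_id continuous_const
  have c₂ : Continuous (MonoidHom.inr G₁ G₂) := .prodMk continuous_const continuous_id
  have hρ : Den (Q₁ ×ˢ Q₂) fun g => ρ₁ g.1 * ρ₂ g.2 := by
    refine ⟨(d₁.cont.comp continuous_fst).mul (d₂.cont.comp continuous_snd),
      fun g => mul_nonneg (d₁.nonneg _) (d₂.nonneg _), fun g => by simp [d₁.symm, d₂.symm],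
      mul_pos d₁.one d₂.one, fun g hg => ?_, top_le_iff.1 ?_⟩
    · rcases not_and_or.1 hg with h | h
      exacts [by rw [d₁.supp _ h, zero_mul], by rw [d₂.supp _ h, mul_zero]]
    · rw [← Subgroup.top_prod_top, ← d₁.gen, ← d₂.gen, ← Subgroup.closure_prod d₁.one d₂.one]
      exact Subgroup.closure_mono fun g hg => (mul_pos hg.1 hg.2 : 0 < ρ₁ g.1 * ρ₂ g.2)
  have h3 : ν₁.prod ν₂ = (μ₁.prod μ₂).withDensity fun g => ENNReal.ofReal (ρ₁ g.1 * ρ₂ g.2) := by
    rw [prod_withDensity d₁.cont.measurable.ennreal_ofReal d₂.cont.measurable.ennreal_ofReal]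
    simp only [ENNReal.ofReal_mul (d₁.nonneg _)]
  let S : Sys (Q₁ ×ˢ Q₂) :=
    { ν₁ := ν₁.map (MonoidHom.inl G₁ G₂)
      ν₂ := ν₂.map (MonoidHom.inr G₁ G₂)
      ν₃ := ν₁.prod ν₂
      s₁ := s₁.map _ c₁ hQ.measurableSet fun s hs => ⟨hs, o₂⟩
      s₂ := s₂.map _ c₂ hQ.measurableSet fun s hs => ⟨o₁, hs⟩
      s₃ := ⟨inferInstance, ⟨by
          rw [Measure.inv_def]
          exact ((Measure.measurePreserving_inv ν₁).prod (Measure.measurePreserving_inv ν₂)).map_eq⟩,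
        (Measure.ae_prod_mem_iff_ae_ae_mem hQ.measurableSet).2
          (s₁.supp.mono fun _ h => s₂.supp.mono fun _ h' => ⟨h, h'⟩)⟩
      comm := by
        have a₁ : ∀ᵐ s ∂ν₁.map (MonoidHom.inl G₁ G₂), s.2 = 1 :=
          (ae_map_iff c₁.measurable.aemeasurable
            (measurable_snd (measurableSet_singleton 1))).2 (.of_forall fun _ => rfl)
        have a₂ : ∀ᵐ s ∂ν₂.map (MonoidHom.inr G₁ G₂), s.1 = 1 :=
          (ae_map_iff c₂.measurable.aemeasurable
            (measurable_fst (measurableSet_singleton 1))).2 (.of_forall fun _ => rfl)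
        exact a₁.mono fun s hs => a₂.mono fun t ht => Prod.ext (by simp [ht]) (by simp [hs])
      conv := by
        rw [Measure.map_prod_map _ _ c₁.measurable c₂.measurable,
          Measure.map_map (by fun_prop) (c₁.measurable.prodMap c₂.measurable)]
        conv_lhs => rw [← Measure.map_id (μ := ν₁.prod ν₂)]
        congr 1; ext p <;> simp }
  obtain ⟨f, hf⟩ := S.exists_seq hS hρ hQ h3 hχ hp hn
  obtain ⟨F, hF⟩ := hf.exists_lim S hS hρ hQ h3 hχ
  have hb : ∀ i, Bd (f i) := fun i => (hf.gd i).toBd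
  have sy : ∀ (s : G₁) (t : G₂) i x, mix (f i) ((s, 1) : G₁ × G₂) (1, t) x =
      mix (f i) ((1, t) : G₁ × G₂) (s, 1) x := fun s t i x => by
    simp only [mix, ← mul_smul, Prod.mk_mul_mk, mul_one, one_mul]; ring
  have all : ∀ (s : G₁) (t : G₂), Z0 m fun i => mix (f i) ((1, t) : G₁ × G₂) (s, 1) := by
    intro s t
    refine d₁.top μ₁ ((mixSub m f hb (1, t)).comap (MonoidHom.inl G₁ G₂)) ?_ s
    filter_upwards [ae_of_ae_map c₁.measurable.aemeasurable (hf.ae_mix S)] with s hs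
    exact Z0.congr (d₂.top μ₂ ((mixSub m f hb (s, 1)).comap (MonoidHom.inr G₁ G₂))
      (ae_of_ae_map c₂.measurable.aemeasurable hs) t) (sy s t)
  obtain ⟨σ, hσ, hσ'⟩ := hS.sec
  refine ⟨F, hF.cont, hF.inv, hF.max, hF.nc, fun s t => ?_, fun h s => ?_, fun h t => ?_⟩
  · have := hF.mix _ _ (all s t) 1
    simp only [Prod.mk_mul_mk, mul_one, one_mul] at this
    linarith
  · simpa using hF.diff (s, 1) (h.z0 hσ hσ' (fun i => (hf.gd i).diff _) fun p hp =>
      (all s p.2).congr fun i x => by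
        rw [← sy, show ((1, p.2) : G₁ × G₂) = p from Prod.ext hp.symm rfl, mix]; ring) 1
  · simpa using hF.diff (1, t) (h.z0 hσ hσ' (fun i => (hf.gd i).diff _) fun p hp =>
      (all p.1 t).congr fun i x => by
        rw [show ((p.1, 1) : G₁ × G₂) = p from Prod.ext rfl hp.symm, mix]; ring) 1

end Pool.Agent.Lib.MP_60cbcc_al.H8W
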