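import Pool.Agent.Lib.MP_60cbcc_al.H3ZSec
import Pool.Agent.Lib.MP_60cbcc_al.H8WProd

/-!
Symmetric compactly supported generating walks, and splittings of a group as a product.
-/

set_option linter.unusedSectionVars false

namespace Pool.Agent.Lib.MP_60cbcc_al.H3Z

open MeasureTheory Set Filter Topology
open scoped ENNReal NNReal RealInnerProductSpace

/-- A symmetric probability measure with bounded compactly supported density, moving continuously
under translation, whose convolution powers dominate Haar measure on compact sets. -/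
structure Walk (L : Type) [Group L] [TopologicalSpace L] [MeasurableSpace L] where
  lam : Measure L
  haar : lam.IsHaarMeasure
  r : Measure L
  prob : IsProbabilityMeasure r
  symm : r.IsInvInvariant
  S : Set L
  cpt : IsCompact S
  one : 1 ∈ S
  M : ℝ≥0
  le : r ≤ M • lam.restrict S
  cont : ∀ ε : ℝ≥0, 0 < ε → ∀ᶠ u in 𝓝 (1 : L), ∃ ρ a b : Measure L,
    r.map (u * ·) = ρ + a ∧ r = ρ + b ∧ a univ ≤ ε ∧ b univ ≤ ε
  dom : ∀ K : Set L, IsCompact K → ∃ (N : ℕ) (c : ℝ≥0), lam.restrict K ≤ c • cpow r N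
  K : Subgroup L
  kc : IsCompact (K : Set L)
  kS : ∀ k ∈ K, ∀ s ∈ S, k * s ∈ S
  kr : ∀ k ∈ K, r.map (k * ·) = r

attribute [instance] Walk.haar Walk.prob Walk.symm

section
variable {L : Type} [Group L] [TopologicalSpace L] [IsTopologicalGroup L] [LocallyCompactSpace L]
  [SecondCountableTopology L] [T2Space L] [MeasurableSpace L] [BorelSpace L]

open Pointwise in
private theorem wk_step (lam : Measure L) [lam.IsHaarMeasure] {T B : Set L} (hT : IsCompact T)
    (hB : IsCompact B) (hi : T⁻¹ = T) : lam T • lam.restrict (B * T * T) ≤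
      lam.restrict (B * T) ∗ₘ lam.restrict (T * T * T) := by
  refine Measure.le_iff.2 fun A hA => ?_
  have m1 := (hB.mul hT).measurableSet
  have m2 := ((hT.mul hT).mul hT).measurableSet
  have m3 := ((hB.mul hT).mul hT).measurableSet
  have mE : MeasurableSet {p : L × L | p.1 ∈ B * T ∧ p.1⁻¹ * p.2 ∈ T * T * T ∧ p.2 ∈ A} :=
    (measurable_fst m1).inter (((measurable_fst.inv.mul measurable_snd) m2).inter
      (measurable_snd hA))
  have e : (fun p : L × L => p.1 * p.2) ⁻¹' A ∩ (B * T) ×ˢ (T * T * T) =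
      (fun z : L × L => (z.1, z.1 * z.2)) ⁻¹'
        {p : L × L | p.1 ∈ B * T ∧ p.1⁻¹ * p.2 ∈ T * T * T ∧ p.2 ∈ A} := by
    ext p
    simp only [mem_inter_iff, mem_preimage, mem_prod, mem_ofPred_eq, inv_mul_cancel_left]
    tauto
  rw [Measure.mconv, Measure.map_apply measurable_mul hA, Measure.prod_restrict,
    Measure.restrict_apply (measurable_mul hA), e,
    (measurePreserving_prod_mul lam lam).measure_preimage mE.nullMeasurableSet,
    Measure.prod_apply_symm mE, Measure.smul_apply, Measure.restrict_apply hA, smul_eq_mul,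
    ← setLIntegral_const, ← lintegral_indicator (hA.inter m3)]
  refine lintegral_mono fun g => ?_
  by_cases hg : g ∈ A ∩ (B * T * T)
  swap
  · exact (indicator_of_notMem hg _).trans_le zero_le
  rw [indicator_of_mem hg]
  obtain ⟨hg, _, ⟨b, hb, s, hs, rfl⟩, t, ht, rfl⟩ := hg
  rw [← measure_preimage_mul lam b⁻¹ T]
  refine measure_mono fun a ha => ⟨⟨b, hb, _, ha, by simp⟩, ?_, hg⟩
  have h : (b⁻¹ * a)⁻¹ ∈ T := by rwa [← Set.mem_inv, hi]
  exact ⟨_, ⟨_, h, s, hs, rfl⟩, t, ht, by simp [mul_assoc]⟩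

open Pointwise in
theorem exists_walk (lam : Measure L) [lam.IsHaarMeasure] [lam.IsMulRightInvariant]
    (h : ∃ S : Set L, IsCompact S ∧ Subgroup.closure S = ⊤) (K : Subgroup L)
    (hK : IsCompact (K : Set L)) : ∃ W : Walk L, W.K = K := by
  have := H8W.invInv lam
  obtain ⟨S₀, hS₀, hg⟩ := h
  obtain ⟨C, hC, hC1⟩ := exists_compact_mem_nhds (1 : L)
  obtain ⟨T₀, hT₀, hi₀, h1₀, hs₀⟩ :
      ∃ T : Set L, IsCompact T ∧ T⁻¹ = T ∧ T ∈ 𝓝 (1 : L) ∧ S₀ ⊆ T :=
    ⟨(S₀ ∪ C) ∪ (S₀ ∪ C)⁻¹, (hS₀.union hC).union (hS₀.union hC).inv,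
      by rw [union_inv, inv_inv, union_comm],
      mem_of_superset hC1 (subset_union_right.trans subset_union_left),
      subset_union_left.trans subset_union_left⟩
  obtain ⟨T, hT, hi, h1, hs, hk⟩ : ∃ T : Set L, IsCompact T ∧ T⁻¹ = T ∧ T ∈ 𝓝 (1 : L) ∧ S₀ ⊆ T ∧
      ∀ k ∈ K, ∀ t ∈ T, k * t ∈ T := by
    have h0 : T₀ ⊆ K * T₀ * K := (subset_mul_right _ K.one_mem).trans (subset_mul_left _ K.one_mem)
    refine ⟨K * T₀ * K, (hK.mul hT₀).mul hK, by simp only [mul_inv_rev, hi₀, inv_coe_set, mul_assoc],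
      mem_of_superset h1₀ h0, hs₀.trans h0, ?_⟩
    rintro k hk _ ⟨_, ⟨a, ha, b, hb, rfl⟩, c, hc, rfl⟩
    exact ⟨_, ⟨_, K.mul_mem hk ha, b, hb, rfl⟩, c, hc, by simp only [mul_assoc]⟩
  have kS : ∀ k ∈ K, ∀ s ∈ T * T * T, k * s ∈ T * T * T := by
    rintro k hk' _ ⟨_, ⟨a, ha, b, hb, rfl⟩, c, hc, rfl⟩
    exact ⟨_, ⟨_, hk k hk' a ha, b, hb, rfl⟩, c, hc, by simp only [mul_assoc]⟩
  have o1 := mem_of_mem_nhds h1
  have hS := (hT.mul hT).mul hT
  have sub : T ⊆ T * T * T := (subset_mul_left _ o1).trans (subset_mul_left _ o1)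
  have pT : lam T ≠ 0 := (Measure.measure_pos_of_mem_nhds lam h1).ne'
  have pS : lam (T * T * T) ≠ 0 := fun c => pT (measure_mono_null sub c)
  have fS := hS.measure_ne_top (μ := lam)
  obtain ⟨κ, hκ⟩ : ∃ κ : ℝ≥0, (κ : ℝ≥0∞) = (lam (T * T * T))⁻¹ :=
    ⟨_, ENNReal.coe_toNNReal (ENNReal.inv_ne_top.2 pS)⟩
  have prob : IsProbabilityMeasure (κ • lam.restrict (T * T * T)) := ⟨by
    rw [Measure.coe_nnreal_smul_apply, Measure.restrict_apply_univ, hκ,
      ENNReal.inv_mul_cancel pS fS]⟩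
  have back : lam.restrict (T * T * T) = lam (T * T * T) • κ • lam.restrict (T * T * T) := by
    rw [ENNReal.smul_def, smul_smul, hκ, ENNReal.mul_inv_cancel pS fS, one_smul]
  have cp : ∀ n : ℕ, IsCompact (T ^ n) := fun n => by
    induction n with
    | zero => exact pow_zero T ▸ isCompact_singleton
    | succ n ih => exact pow_succ T n ▸ ih.mul hT
  have dom : ∀ n : ℕ, ∃ c : ℝ≥0∞, c ≠ ⊤ ∧
      lam.restrict (T ^ (n + 1)) ≤ c • cpow (κ • lam.restrict (T * T * T)) (n + 1) := fun n => by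
    induction n with
    | zero =>
      refine ⟨_, fS, ?_⟩
      rw [cpow, cpow, Measure.dirac_one_mconv, ← back, zero_add, pow_one]
      exact Measure.restrict_mono sub le_rfl
    | succ n ih =>
      obtain ⟨c, hc, ih⟩ := ih
      refine ⟨(lam T)⁻¹ * (c * lam (T * T * T)),
        ENNReal.mul_ne_top (ENNReal.inv_ne_top.2 pT) (ENNReal.mul_ne_top hc fS), ?_⟩
      have k := (wk_step lam hT (cp n) hi).trans (Measure.map_mono
        (Measure.prod_mono (pow_succ T n ▸ ih) back.le) measurable_mul)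
      rw [← Measure.mconv, Measure.mconv_smul_left, Measure.mconv_smul_right, smul_smul, ← cpow,
        ← pow_succ, ← pow_succ] at k
      refine Measure.le_iff'.2 fun A => ?_
      have k := Measure.le_iff'.1 k A
      simp only [Measure.smul_apply, smul_eq_mul] at k ⊢
      rw [mul_assoc]
      exact (ENNReal.mul_le_iff_le_inv pT hT.measure_ne_top).1 k
  have gen : ∀ g : L, ∃ n : ℕ, g ∈ T ^ n := fun g => by
    induction (hg ▸ Subgroup.mem_top g : g ∈ Subgroup.closure S₀) using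
      Subgroup.closure_induction with
    | mem x hx => exact ⟨1, by simpa using hs hx⟩
    | one => exact ⟨0, by simp⟩
    | mul x y _ _ a b =>
      obtain ⟨n, a⟩ := a
      obtain ⟨m, b⟩ := b
      exact ⟨n + m, pow_add T n m ▸ mul_mem_mul a b⟩
    | inv x _ a => exact a.imp fun n a => by rwa [← Set.mem_inv, ← inv_pow, hi]
  refine ⟨⟨lam, ‹_›, _, prob, ⟨?_⟩, _, hS, sub o1, κ, le_rfl, fun ε hε => ?_, fun K hK => ?_,
    K, hK, kS, fun k hk => ?_⟩, rfl⟩
  · ext A hA
    have e : (T * T * T)⁻¹ = T * T * T := by simp only [mul_inv_rev, hi, mul_assoc]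
    rw [Measure.inv_apply, Measure.coe_nnreal_smul_apply, Measure.coe_nnreal_smul_apply,
      Measure.restrict_apply hA.inv, Measure.restrict_apply hA, ← Measure.measure_inv, inter_inv,
      inv_inv, e]
  · generalize T * T * T = S at *
    have t := ENNReal.Tendsto.const_mul (a := κ)
      (tendsto_measure_smul_sdiff_isCompact_isClosed (μ := lam) hS hS.isClosed)
      (Or.inr ENNReal.coe_ne_top)
    rw [mul_zero] at t
    filter_upwards [t.eventually_le_const (ENNReal.coe_pos.2 hε)] with u hu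
    have mS := hS.measurableSet
    have mU := (hS.smul u).measurableSet
    have e1 : (κ • lam.restrict S).map (u * ·) =
        κ • lam.restrict (u • S ∩ S) + κ • lam.restrict (u • S \ S) := by
      rw [← smul_add, Measure.restrict_inter_add_sdiff _ mS, Measure.map_smul]
      congr 1
      ext A hA
      rw [Measure.map_apply (measurable_const_mul u) hA, Measure.restrict_apply hA,
        Measure.restrict_apply (measurable_const_mul u hA), ← measure_preimage_mul lam u (A ∩ _)]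
      congr 1
      ext g
      simp [smul_mem_smul_set_iff, ← smul_eq_mul]
    have e2 : κ • lam.restrict S = κ • lam.restrict (u • S ∩ S) + κ • lam.restrict (S \ u • S) := by
      rw [← smul_add, inter_comm, Measure.restrict_inter_add_sdiff _ mU]
    have e3 : (κ • lam.restrict (u • S \ S)) univ ≤ ε := by
      rwa [Measure.coe_nnreal_smul_apply, Measure.restrict_apply_univ]
    refine ⟨_, _, _, e1, e2, e3, le_of_eq_of_le ?_ e3⟩
    have e4 := congrArg (· univ) e1
    have e5 := congrArg (· univ) e2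
    simp only [Measure.map_apply (measurable_const_mul u) MeasurableSet.univ, preimage_univ,
      Measure.add_apply] at e4 e5
    refine (ENNReal.add_right_inj (ne_top_of_le_ne_top (measure_ne_top (κ • lam.restrict S) univ)
      (e5 ▸ le_self_add))).1 (e5.symm.trans e4)
  · obtain ⟨n, hn⟩ : ∃ n : ℕ, K ⊆ T ^ (n + 1) := by
      refine hK.induction_on (p := fun K => ∃ n : ℕ, K ⊆ T ^ (n + 1)) ⟨0, empty_subset _⟩
        (fun _ _ h h' => h'.imp fun _ => h.trans) ?_ fun g _ => ?_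
      · rintro _ _ ⟨n, a⟩ ⟨m, b⟩
        exact ⟨n + m, union_subset (a.trans (pow_subset_pow_right o1 (by omega)))
          (b.trans (pow_subset_pow_right o1 (by omega)))⟩
      · obtain ⟨n, hn⟩ := gen g
        refine ⟨_, mem_nhdsWithin_of_mem_nhds ?_, n, Subset.rfl⟩
        refine mem_of_superset (smul_mem_nhds_self.2 (by simpa using h1) : g • T ∈ 𝓝 g) ?_
        rintro _ ⟨t, ht, rfl⟩
        exact pow_succ T n ▸ mul_mem_mul hn ht
    obtain ⟨c, hc, h⟩ := dom n
    lift c to ℝ≥0 using hc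
    exact ⟨_, c, (Measure.restrict_mono hn le_rfl).trans h⟩
  · ext A hA
    rw [Measure.map_apply (measurable_const_mul k) hA, Measure.coe_nnreal_smul_apply,
      Measure.coe_nnreal_smul_apply, Measure.restrict_apply hA,
      Measure.restrict_apply (measurable_const_mul k hA), ← measure_preimage_mul lam k (A ∩ _)]
    congr 2
    ext g
    exact and_congr_right fun _ => ⟨kS k hk g, fun h => by simpa using kS _ (K.inv_mem hk) _ h⟩

theorem Walk.ae_mem (W : Walk L) : ∀ᵐ s ∂W.r, s ∈ W.S :=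
  (Measure.absolutelyContinuous_of_le_smul (c := W.M) W.le).ae_le
    (ae_restrict_mem W.cpt.measurableSet)

/-- Averages move slowly under left translation. -/
theorem Walk.osc (W : Walk L) (E : Type) [NormedAddCommGroup E] [NormedSpace ℝ E]
    [CompleteSpace E] {ε : ℝ} (hε : 0 < ε) : ∀ᶠ u in 𝓝 (1 : L), ∀ f : L → E,
    StronglyMeasurable f → (∃ C, ∀ s, ‖f s‖ ≤ C) → ∀ (z : E) (D : ℝ),
    (∀ s ∈ W.S, ‖f s - z‖ ≤ D) → (∀ s ∈ W.S, ‖f (u * s) - z‖ ≤ D) →
    ‖∫ s, f (u * s) ∂W.r - ∫ s, f s ∂W.r‖ ≤ ε * D := by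
  lift ε to ℝ≥0 using hε.le
  filter_upwards [W.cont (ε / 2) (half_pos hε)] with u ⟨ρ, a, b, e1, e2, ha, hb⟩
    f hf ⟨C, hC⟩ z D h1 h2
  have hD : 0 ≤ D := (norm_nonneg _).trans (h1 1 W.one)
  have me := (MeasurableEquiv.mulLeft u).measurableEmbedding
  have : IsProbabilityMeasure (W.r.map (u * ·)) :=
    Measure.isProbabilityMeasure_map me.measurable.aemeasurable
  have i : ∀ (ν : Measure L) [IsFiniteMeasure ν], Integrable f ν := fun ν _ =>
    .of_bound hf.aestronglyMeasurable C (ae_of_all _ hC)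
  have k : ∀ (ν c : Measure L) [IsProbabilityMeasure ν], ν = ρ + c →
      c univ ≤ (ε / 2 : ℝ≥0) → (∀ᵐ s ∂ν, ‖f s - z‖ ≤ D) →
      ‖∫ s, f s ∂ν - (z + ∫ s, (f s - z) ∂ρ)‖ ≤ ε / 2 * D := by
    intro ν c _ e hc h
    have j : Integrable (fun s => f s - z) ν := (i ν).sub (integrable_const z)
    have e3 : ∫ s, (f s - z) ∂ν = ∫ s, f s ∂ν - z := by
      rw [integral_sub (i ν) (integrable_const z)]
      simp
    have l : c ≤ ν := e ▸ Measure.le_add_left le_rfl
    have := isFiniteMeasure_of_le ν l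
    rw [← sub_sub, ← e3, e, integral_add_measure (j.mono_measure (e ▸ Measure.le_add_right le_rfl))
      (j.mono_measure l), add_sub_cancel_left, mul_comm]
    exact (norm_integral_le_of_norm_le_const (ae_mono l h)).trans
      (mul_le_mul_of_nonneg_left (ENNReal.toReal_le_coe_of_le_coe hc) hD)
  have k1 := k _ a e1 ha (me.ae_map_iff.2 (W.ae_mem.mono h2))
  have k2 := k _ b e2 hb (W.ae_mem.mono h1)
  rw [show W.r.map (u * ·) = W.r.map (MeasurableEquiv.mulLeft u) from rfl, me.integral_map] at k1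
  exact (norm_sub_le_norm_sub_add_norm_sub _ _ _).trans
    ((add_le_add k1 ((norm_sub_rev _ _).trans_le k2)).trans_eq (by ring))

theorem Walk.int_K (W : Walk L) {E : Type} [NormedAddCommGroup E] [NormedSpace ℝ E] {f : L → E}
    (hf : StronglyMeasurable f) {k : L} (hk : k ∈ W.K) :
    ∫ s, f (k * s) ∂W.r = ∫ s, f s ∂W.r := by
  conv_rhs => rw [← W.kr k hk]
  rw [integral_map (measurable_const_mul k).aemeasurable hf.aestronglyMeasurable]

theorem Walk.osc' (W : Walk L) (E : Type) [NormedAddCommGroup E] [NormedSpace ℝ E]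
    [CompleteSpace E] {ε : ℝ} (hε : 0 < ε) : ∀ᶠ w in 𝓝 (1 : L), ∀ k ∈ W.K, ∀ f : L → E,
    StronglyMeasurable f → (∃ C, ∀ s, ‖f s‖ ≤ C) → ∀ (z : E) (D : ℝ),
    (∀ s ∈ W.S, ‖f s - z‖ ≤ D) → (∀ s ∈ W.S, ‖f (k * w * s) - z‖ ≤ D) →
    ‖∫ s, f (k * w * s) ∂W.r - ∫ s, f s ∂W.r‖ ≤ ε * D := by
  filter_upwards [W.osc E hε] with w hw k hk f hf hb z D h1 h2
  have := hw (fun s => f (k * s)) (hf.comp_measurable (measurable_const_mul k))
    (hb.imp fun _ h _ => h _) z D (fun s hs => h1 _ (W.kS k hk s hs))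
    (fun s hs => by simpa only [mul_assoc] using h2 s hs)
  simpa only [W.int_K hf hk, mul_assoc] using this

end

/-- A splitting of a group as a product, with walks on the factors. -/
structure Spl (G G₁ G₂ : Type) [Group G] [TopologicalSpace G] [Group G₁] [TopologicalSpace G₁]
    [MeasurableSpace G₁] [Group G₂] [TopologicalSpace G₂] [MeasurableSpace G₂] where
  e : G₁ × G₂ ≃ₜ* G
  W₁ : Walk G₁
  W₂ : Walk G₂

variable {Γ G X G₁ G₂ : Type} [Group Γ] [Countable Γ] [Group G] [TopologicalSpace G]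
  [IsTopologicalGroup G] [LocallyCompactSpace G] [SecondCountableTopology G] [T2Space G]
  [MeasurableSpace G] [BorelSpace G] [MeasurableSpace X] [MulAction Γ X] [MeasurableConstSMul Γ X]
  [Group G₁] [TopologicalSpace G₁] [IsTopologicalGroup G₁] [LocallyCompactSpace G₁]
  [SecondCountableTopology G₁] [T2Space G₁] [MeasurableSpace G₁] [BorelSpace G₁]
  [Group G₂] [TopologicalSpace G₂] [IsTopologicalGroup G₂] [LocallyCompactSpace G₂]
  [SecondCountableTopology G₂] [T2Space G₂] [MeasurableSpace G₂] [BorelSpace G₂]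
  {H : Type} [NormedAddCommGroup H] [InnerProductSpace ℝ H] [CompleteSpace H]

theorem exists_spl (S : Setup Γ (G₁ × G₂) X)
    (h₁ : ∃ S : Set G₁, IsCompact S ∧ Subgroup.closure S = ⊤)
    (h₂ : ∃ S : Set G₂, IsCompact S ∧ Subgroup.closure S = ⊤) (L₁ : Subgroup G₁)
    (L₂ : Subgroup G₂) (hL₁ : IsCompact (L₁ : Set G₁)) (hL₂ : IsCompact (L₂ : Set G₂)) :
    (∃ W : Walk G₁, W.K = L₁) ∧ ∃ W : Walk G₂, W.K = L₂ := by
  have e := Measure.isMulLeftInvariant_eq_smul
    ((Measure.haar : Measure G₁).prod (Measure.haar : Measure G₂)) S.lam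
  have r : ∀ (g : G₁) (h : G₂) (A : Set G₁) (B : Set G₂),
      Measure.haar ((· * g) ⁻¹' A) * Measure.haar ((· * h) ⁻¹' B) =
        Measure.haar A * Measure.haar B := fun g h A B => by
    rw [← Measure.prod_prod, ← Measure.prod_prod, e, Measure.coe_nnreal_smul_apply,
      Measure.coe_nnreal_smul_apply, ← measure_preimage_mul_right S.lam (g, h) (A ×ˢ B)]
    rfl
  obtain ⟨K₁, c₁, n₁⟩ := exists_compact_mem_nhds (1 : G₁)
  obtain ⟨K₂, c₂, n₂⟩ := exists_compact_mem_nhds (1 : G₂)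
  have : (Measure.haar : Measure G₁).IsMulRightInvariant := ⟨fun g => Measure.ext fun A hA => by
    rw [Measure.map_apply (measurable_mul_const g) hA]
    exact (ENNReal.mul_left_inj (Measure.measure_pos_of_mem_nhds _ n₂).ne' c₂.measure_ne_top).1
      (by simpa only [mul_one, preimage_id'] using r g 1 A K₂)⟩
  have : (Measure.haar : Measure G₂).IsMulRightInvariant := ⟨fun g => Measure.ext fun A hA => by
    rw [Measure.map_apply (measurable_mul_const g) hA]
    exact (ENNReal.mul_right_inj (Measure.measure_pos_of_mem_nhds _ n₁).ne' c₁.measure_ne_top).1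
      (by simpa only [mul_one, preimage_id'] using r 1 g K₁ A)⟩
  exact ⟨exists_walk Measure.haar h₁ L₁ hL₁, exists_walk Measure.haar h₂ L₂ hL₂⟩

namespace Spl

variable (P : Spl G G₁ G₂)

/-- The splitting with the factors exchanged. -/
def swap : Spl G G₂ G₁ where
  e := ContinuousMulEquiv.trans
    ⟨MulEquiv.prodComm, continuous_swap, continuous_swap⟩ P.e
  W₁ := P.W₂
  W₂ := P.W₁

/-- The first factor. -/
def i₁ : G₁ →* G := (P.e : G₁ × G₂ →* G).comp (MonoidHom.inl G₁ G₂)

/-- The second factor. -/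
def i₂ : G₂ →* G := (P.e : G₁ × G₂ →* G).comp (MonoidHom.inr G₁ G₂)

theorem i₁_apply (a : G₁) : P.i₁ a = P.e (a, 1) := rfl
theorem i₂_apply (b : G₂) : P.i₂ b = P.e (1, b) := rfl
theorem swap_e (b : G₂) (a : G₁) : P.swap.e (b, a) = P.e (a, b) := rfl
theorem swap_symm (g : G) : (P.swap.e.symm g).1 = (P.e.symm g).2 := rfl
theorem mul_i₁ (a s : G₁) (b : G₂) : P.e (a, b) * P.i₁ s = P.e (a * s, b) := by
  rw [i₁_apply, ← map_mul]; simp
theorem mul_i₂ (a : G₁) (b t : G₂) : P.e (a, b) * P.i₂ t = P.e (a, b * t) := by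
  rw [i₂_apply, ← map_mul]; simp
theorem cont_i₁ : Continuous P.i₁ := P.e.continuous_toFun.comp (Continuous.prodMk_left (1 : G₂))
theorem cont_i₂ : Continuous P.i₂ := P.e.continuous_toFun.comp (Continuous.prodMk_right (1 : G₁))

/-- The walk in the first factor. -/
noncomputable def ν₁ : Measure G := P.W₁.r.map P.i₁

/-- The walk in the second factor. -/
noncomputable def ν₂ : Measure G := P.W₂.r.map P.i₂

instance prob₁ : IsProbabilityMeasure P.ν₁ :=
  Measure.isProbabilityMeasure_map P.cont_i₁.measurable.aemeasurable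
instance prob₂ : IsProbabilityMeasure P.ν₂ :=
  Measure.isProbabilityMeasure_map P.cont_i₂.measurable.aemeasurable

instance symm₁ : P.ν₁.IsInvInvariant := by
  refine ⟨?_⟩
  rw [ν₁, Measure.inv_def, Measure.map_map measurable_inv P.cont_i₁.measurable]
  conv_rhs => rw [← Measure.map_inv_eq_self P.W₁.r]
  rw [Measure.map_map P.cont_i₁.measurable measurable_inv]
  congr 1
  exact funext fun s => (map_inv P.i₁ s).symm

instance symm₂ : P.ν₂.IsInvInvariant := P.swap.symm₁

variable (S : Setup Γ G X) (V : Γ → X → H →ₗᵢ[ℝ] H)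

/-- Averaging in the first factor. -/
noncomputable def R₁ : Module.End ℝ (Sec S V) := Av S V P.ν₁

/-- Averaging in the second factor. -/
noncomputable def R₂ : Module.End ℝ (Sec S V) := Av S V P.ν₂

theorem swap_R₁ : P.swap.R₁ S V = P.R₂ S V := rfl
theorem swap_R₂ : P.swap.R₂ S V = P.R₁ S V := rfl

variable {S V}

theorem R₁_apply (u : Sec S V) (x : X) (a : G₁) (b : G₂) :
    P.R₁ S V u (x, P.e (a, b)) = ∫ s, u (x, P.e (a * s, b)) ∂P.W₁.r := by
  rw [R₁, Av_apply, ν₁, integral_map P.cont_i₁.measurable.aemeasurable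
    (int_sl S V u _ _ _).aestronglyMeasurable]
  simp only [mul_i₁]

theorem R₂_apply (u : Sec S V) (x : X) (a : G₁) (b : G₂) :
    P.R₂ S V u (x, P.e (a, b)) = ∫ t, u (x, P.e (a, b * t)) ∂P.W₂.r := P.swap.R₁_apply u x b a

theorem comm : Commute (P.R₁ S V) (P.R₂ S V) := by
  refine LinearMap.ext fun u => Sec.ext fun ⟨x, g⟩ => ?_
  obtain ⟨⟨a, b⟩, rfl⟩ := P.e.surjective g
  obtain ⟨C, hC⟩ := u.bdd
  have c : Continuous fun p : G₁ × G₂ => P.e (a * p.1, b * p.2) := by fun_prop
  simp only [Module.End.mul_apply, R₁_apply, R₂_apply]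
  exact integral_integral_swap (.of_bound (u.meas.comp_measurable
    (measurable_const.prodMk c.measurable)).aestronglyMeasurable C (ae_of_all _ fun _ => hC _))

theorem Tr_comm (s : G₁) : Commute (Tr S V (P.i₁ s) : Module.End ℝ (Sec S V)) (P.R₂ S V) := by
  refine LinearMap.ext fun u => Sec.ext fun ⟨x, g⟩ => ?_
  obtain ⟨⟨a, b⟩, rfl⟩ := P.e.surjective g
  simp only [Module.End.mul_apply, Tr_apply, mul_i₁, R₂_apply]

/-- Localisation in product coordinates. -/
theorem loc (S : Setup Γ G X) {K₁ : Set G₁} {K₂ : Set G₂} (h₁ : IsCompact K₁)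
    (h₂ : IsCompact K₂) : ∃ C : ℝ≥0, ∀ N : X × G → ℝ≥0∞, Measurable N → S.Inv N →
    ∫⁻ x, ∫⁻ a in K₁, ∫⁻ b in K₂, N (x, P.e (a, b)) ∂P.W₂.lam ∂P.W₁.lam ∂S.μ ≤
      C * ∫⁻ y, N y ∂S.m := by
  have hK : IsCompact (P.e '' K₁ ×ˢ K₂) := (h₁.prod h₂).image P.e.continuous
  obtain ⟨C, hC⟩ := S.loc hK
  obtain ⟨c, e⟩ : ∃ c : ℝ≥0, (P.W₁.lam.prod P.W₂.lam).map P.e = c • S.lam :=
    ⟨_, Measure.isMulLeftInvariant_eq_smul _ _⟩
  refine ⟨c * C, fun N hN hI => ?_⟩
  have m : Measurable P.e := P.e.continuous.measurable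
  have k : ∀ x, ∫⁻ a in K₁, ∫⁻ b in K₂, N (x, P.e (a, b)) ∂P.W₂.lam ∂P.W₁.lam =
      c * ∫⁻ g in P.e '' K₁ ×ˢ K₂, N (x, g) ∂S.lam := fun x => by
    have n : Measurable fun g => N (x, g) := hN.comp measurable_prodMk_left
    rw [← setLIntegral_prod (fun p => N (x, P.e p)) (n.comp m).aemeasurable, ← smul_eq_mul,
      ← lintegral_smul_measure, ← Measure.restrict_smul, ← ENNReal.smul_def, ← e,
      setLIntegral_map hK.measurableSet n m, preimage_image_eq _ P.e.injective]
  rw [lintegral_congr k, lintegral_const_mul' _ _ ENNReal.coe_ne_top, ENNReal.coe_mul, mul_assoc]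
  exact mul_le_mul_right (hC N hN hI) _

end Spl

end Pool.Agent.Lib.MP_60cbcc_al.H3Z
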