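import Pool.Agent.Lib.MP_60cbcc_al.H3ZCore
import Pool.Agent.Lib.MP_60cbcc_al.H3ZDense2
import Pool.Agent.Lib.MP_60cbcc_al.H3ZGrp

/-!
Products of at least two factors, all real or tree factors.
-/

namespace Pool.Agent.Lib.MP_60cbcc_al.H3Z

open MeasureTheory MulAction
open scoped Pointwise

set_option linter.unusedSectionVars false

/-- Relative form of the density of the commutator subgroup. -/
theorem wa_comm {Γ M L : Type} [Group Γ] [Group M] [TopologicalSpace M] [IsTopologicalGroup M]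
    [Group L] [TopologicalSpace L] [IsTopologicalGroup L] (hp : Dense (commutator L : Set L))
    (q : Γ →* M) (r : L →* M) (hr : Continuous r) (H : Subgroup Γ)
    (h : ∀ a, r a ∈ closure (q '' H)) (a : L) :
    r a ∈ closure (q '' (⁅H, H⁆ : Subgroup Γ)) := by
  have hC : IsClosed ((⁅H, H⁆.map q).topologicalClosure : Set M) :=
    Subgroup.isClosed_topologicalClosure _
  have h1 : (commutator L : Set L) ⊆ ((⁅H, H⁆.map q).topologicalClosure).comap r := by
    rw [SetLike.coe_subset_coe, commutator_def, Subgroup.commutator_le]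
    intro b _ c _
    rw [Subgroup.mem_comap, map_commutatorElement, commutatorElement_def]
    have h2 : (r b, r c) ∈ closure ((q '' H) ×ˢ (q '' H)) := by
      rw [closure_prod_eq]
      exact ⟨h b, h c⟩
    refine closure_minimal (t := {z : M × M | z.1 * z.2 * z.1⁻¹ * z.2⁻¹ ∈
      (⁅H, H⁆.map q).topologicalClosure}) ?_ (hC.preimage (by fun_prop)) h2
    rintro ⟨_, _⟩ ⟨⟨x, hx, rfl⟩, ⟨y, hy, rfl⟩⟩
    refine Subgroup.le_topologicalClosure _ ⟨_, Subgroup.commutator_mem_commutator hx hy, ?_⟩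
    rw [map_commutatorElement, commutatorElement_def]
  exact hp.induction (P := fun a => r a ∈ (⁅H, H⁆.map q).topologicalClosure) (fun a ha => h1 ha)
    (hC.preimage hr) a

theorem wa_dense {M : Type} [Group M] [TopologicalSpace M] [IsTopologicalGroup M] {S K : Set M}
    (h : ∀ g, ∃ a ∈ closure S, ∃ k ∈ K, g = a * k) : Dense (S * K) := by
  intro g
  obtain ⟨a, ha, k, hk, rfl⟩ := h g
  exact map_mem_closure (f := fun x => x * k) (by fun_prop) ha
    fun x hx => Set.mul_mem_mul hx hk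

theorem wa_cg {M L : Type} [Group M] [TopologicalSpace M] [Group L] [TopologicalSpace L]
    (h : ∃ S : Set L, IsCompact S ∧ Subgroup.closure S = ⊤) (r : L →* M) (hr : Continuous r)
    {K : Subgroup M} (hK : IsCompact (K : Set M)) (hs : ∀ g, ∃ a, ∃ k ∈ K, g = r a * k) :
    ∃ S : Set M, IsCompact S ∧ Subgroup.closure S = ⊤ := by
  obtain ⟨S, h1, h2⟩ := h
  refine ⟨r '' S ∪ K, (h1.image hr).union hK, top_unique fun g _ => ?_⟩
  obtain ⟨a, k, hk, rfl⟩ := hs g
  refine mul_mem (Subgroup.closure_mono Set.subset_union_left ?_)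
    (Subgroup.subset_closure (Or.inr hk))
  rw [← MonoidHom.map_closure, h2]
  exact ⟨a, trivial, rfl⟩

section single

variable {κ : Type} [DecidableEq κ] {A : κ → Type} [∀ i, Group (A i)]
  [∀ i, TopologicalSpace (A i)]

theorem wa_emb [∀ i, T2Space (A i)] {L : Type} [Group L] [TopologicalSpace L] (k : κ)
    (r : L →* A k) (hr : Topology.IsEmbedding r) :
    Topology.IsEmbedding ((MonoidHom.mulSingle A k).comp r) :=
  (isClosedEmbedding_update (1 : ∀ i, A i) k).isEmbedding.comp hr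

omit [∀ i, TopologicalSpace (A i)] in
theorem wa_norm {L : Type} [Group L] (k : κ) (r : L →* A k) (hn : r.range.Normal) :
    ((MonoidHom.mulSingle A k).comp r).range.Normal := by
  refine ⟨?_⟩
  rintro _ ⟨a, rfl⟩ g
  obtain ⟨b, hb⟩ := hn.conj_mem _ ⟨a, rfl⟩ (g k)
  refine ⟨b, funext fun t => ?_⟩
  by_cases h : t = k
  · subst h
    simp [hb]
  · simp [Pi.mulSingle_eq_of_ne h]

end single

variable {ι Γ X : Type} [Finite ι] {G : ι → Type} [∀ i, Group (G i)]
  [∀ i, TopologicalSpace (G i)] [∀ i, IsTopologicalGroup (G i)] [∀ i, LocallyCompactSpace (G i)]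
  [∀ i, SecondCountableTopology (G i)] [∀ i, T2Space (G i)] [∀ i, MeasurableSpace (G i)]
  [∀ i, BorelSpace (G i)] [Group Γ] [Countable Γ]

/-- The case in which every factor is the product of a rigid group and a compact group. -/
theorem wa_main [Nontrivial ι] [DecidableEq ι] {L : ι → Type} [∀ i, Group (L i)]
    [∀ i, TopologicalSpace (L i)] [∀ i, IsTopologicalGroup (L i)]
    [∀ i, SecondCountableTopology (L i)] [∀ i, T2Space (L i)] (hL : ∀ i, Rigid (L i))
    (r : ∀ i, L i →* G i) (hr : ∀ i, Topology.IsEmbedding (r i)) (hn : ∀ i, (r i).range.Normal)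
    (K : ∀ i, Subgroup (G i)) (hK : ∀ i, IsCompact (K i : Set (G i)))
    (hs : ∀ i (g : G i), ∃ a, ∃ k ∈ K i, g = r i a * k) (j : Γ →* ∀ i, G i) (hj : Lat j)
    (hq : ∀ i (k : {k // k ≠ i}) (a : L k.1),
      MonoidHom.mulSingle (fun k : {k // k ≠ i} => G k.1) k (r k.1 a) ∈
        closure (Set.range (w1q j i)))
    (hc : ∀ γ k, (∀ a, r k a * j γ k = j γ k * r k a) → γ = 1)
    [MeasurableSpace X] [MulAction Γ X] [MeasurableConstSMul Γ X] (μ : Measure X)
    [IsProbabilityMeasure μ] [SMulInvariantMeasure Γ X μ]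
    (hF : ∀ γ : Γ, MeasurableSet {x : X | γ • x = x}) :
    ∀ᵐ x ∂μ, (orbit Γ x).Finite ∨ ∀ γ : Γ, γ • x = x → γ = 1 := by
  have hA : ∀ᵐ x ∂μ, ∀ (i : ι) (k : {k // k ≠ i}), (∀ γ : Γ, γ • x = x → γ = 1) ∨
      ∀ a : L k.1, MonoidHom.mulSingle (fun k : {k // k ≠ i} => G k.1) k (r k.1 a) ∈
        closure (w1q j i '' stabilizer Γ x) := by
    refine ae_all_iff.2 fun i => ae_all_iff.2 fun k => ?_
    filter_upwards [dense_ae2 (hL k.1) (w1q j i)
      ((MonoidHom.mulSingle (fun k : {k // k ≠ i} => G k.1) k).comp (r k.1))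
      (wa_emb (A := fun k : {k // k ≠ i} => G k.1) k _ (hr k.1))
      (wa_norm (A := fun k : {k // k ≠ i} => G k.1) k _ (hn k.1)) (hq i k) μ hF] with x hx
    refine hx.imp (fun h γ hγ => hc γ k.1 fun a => ?_) id
    have h1 := congrFun (h γ hγ a) k
    simpa [w1q] using h1
  set E : Set X := {x | ¬ ((orbit Γ x).Finite ∨ ∀ γ : Γ, γ • x = x → γ = 1)} with hEd
  have hE : MeasurableSet E := by
    refine ((w1_meas_fin hF).union (s₂ := {x : X | ∀ γ : Γ, γ • x = x → γ = 1}) ?_).compl
    rw [Set.ofPred_forall]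
    refine .iInter fun γ => ?_
    by_cases h : γ = 1
    · simp [h]
    · simp only [h, imp_false]
      exact (hF γ).compl
  have hi' : ∀ (γ : Γ) x, γ • x ∈ E → x ∈ E := by
    intro γ x hx h
    refine hx (h.imp (fun h => by rwa [orbit_smul]) fun h δ hδ => ?_)
    have h1 := h (γ⁻¹ * δ * γ) (by rw [mul_smul, mul_smul, hδ, inv_smul_smul])
    calc δ = γ * (γ⁻¹ * δ * γ) * γ⁻¹ := by group
      _ = 1 := by rw [h1]; group
  have hi : ∀ (γ : Γ) x, γ • x ∈ E ↔ x ∈ E := fun γ x =>
    ⟨hi' γ x, fun h => hi' γ⁻¹ _ (by rwa [inv_smul_smul])⟩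
  rw [ae_iff]
  by_contra h0
  have := ProbabilityTheory.cond_isProbabilityMeasure (μ := μ) (s := E) h0
  have := w1_cond (Γ := Γ) μ hE hi
  obtain ⟨i⟩ : Nonempty ι := inferInstance
  have hcg : ∀ k, ∃ S : Set (G k), IsCompact S ∧ Subgroup.closure S = ⊤ := fun k =>
    wa_cg (hL k).cg (r k) (hr k).continuous (hK k) (hs k)
  refine coreK (hcg i) (w1_pi_cg fun k : {k // k ≠ i} => hcg k.1) (K i)
    (Subgroup.pi Set.univ fun k : {k // k ≠ i} => K k.1) (hK i) (isCompact_univ_pi fun k => hK k.1)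
    (((Pi.evalMonoidHom G i).comp j).prod (w1q j i)) (w1_lat (w1e G i) hj _ fun _ => rfl)
    (ProbabilityTheory.cond μ E) hF ?_ ?_
  · filter_upwards [ProbabilityTheory.cond_absolutelyContinuous.ae_le hA,
      ProbabilityTheory.ae_cond_mem hE] with x hx hx'
    have h2 : ∀ (i : ι) (k : {k // k ≠ i}) (a : L k.1),
        MonoidHom.mulSingle (fun k : {k // k ≠ i} => G k.1) k (r k.1 a) ∈
          closure (w1q j i '' (⁅stabilizer Γ x, stabilizer Γ x⁆ : Subgroup Γ)) := fun i k a =>
      wa_comm (hL k.1).perf (w1q j i)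
        ((MonoidHom.mulSingle (fun k : {k // k ≠ i} => G k.1) k).comp (r k.1))
        (wa_emb (A := fun k : {k // k ≠ i} => G k.1) k _ (hr k.1)).continuous _
        ((hx i k).resolve_left fun e => hx' (Or.inr e)) a
    constructor
    · refine wa_dense fun g => ?_
      obtain ⟨a, k, hk, rfl⟩ := hs i g
      refine ⟨r i a, ?_, k, hk, rfl⟩
      obtain ⟨i', hi'⟩ := exists_ne i
      have h1 := image_closure_subset_closure_image
        (continuous_apply (⟨i, hi'.symm⟩ : {k // k ≠ i'})) ⟨_, h2 i' ⟨i, hi'.symm⟩ a, rfl⟩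
      rw [Set.image_image] at h1
      simpa [w1q] using h1
    · refine wa_dense fun g => ?_
      choose a k hk hg using fun t : {k // k ≠ i} => hs t.1 (g t)
      refine ⟨fun t => r t.1 (a t), ?_, k, fun t _ => hk t, funext hg⟩
      exact Subgroup.pi_mem_of_mulSingle_mem
        (H := (⁅stabilizer Γ x, stabilizer Γ x⁆.map (w1q j i)).topologicalClosure) _
        fun t => h2 i t (a t)
  · filter_upwards [ProbabilityTheory.ae_cond_mem hE] with x hx h
    exact hx (Or.inl h)

theorem wrapA [Nontrivial ι] (L K : ∀ i, Subgroup (G i)) (hf : ∀ i, Low (L i) (K i))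
    (j : Γ →* ∀ i, G i) (hj : Lat j)
    (hd : ∀ i, (w1q j i).range.topologicalClosure.FiniteIndex)
    (hc : ∀ γ k, j γ k ∈ Subgroup.centralizer (L k : Set (G k)) → γ = 1)
    [MeasurableSpace X] [MulAction Γ X] [MeasurableConstSMul Γ X] (μ : Measure X)
    [IsProbabilityMeasure μ] [SMulInvariantMeasure Γ X μ]
    (hF : ∀ γ : Γ, MeasurableSet {x : X | γ • x = x}) :
    ∃ Δ : Subgroup Γ, Δ.FiniteIndex ∧
      ∀ᵐ x ∂μ, (orbit Δ x).Finite ∨ ∀ δ ∈ Δ, δ • x = x → δ = 1 := by
  classical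
  have hmul : ∀ i, ((L i ⊔ K i : Subgroup (G i)) : Set (G i)) = (L i : Set (G i)) * K i := fun i =>
    have := (hf i).norm
    Subgroup.normal_mul _ _
  have hcl : ∀ i, IsClosed ((L i ⊔ K i : Subgroup (G i)) : Set (G i)) := fun i => by
    rw [hmul]
    exact (hf i).closed.mul_right_of_isCompact (hf i).cpt
  have hop : ∀ i, IsOpen ((L i ⊔ K i : Subgroup (G i)) : Set (G i)) := fun i =>
    have := (hf i).fi
    Subgroup.isOpen_of_isClosed_of_finiteIndex _ (hcl i)
  have hlc : ∀ i, LocallyCompactSpace (L i ⊔ K i : Subgroup (G i)) := fun i =>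
    (hcl i).locallyCompactSpace
  have hsc : ∀ (i : ι) (N : Subgroup (G i)), SecondCountableTopology N := fun i N =>
    TopologicalSpace.Subtype.secondCountableTopology (N : Set (G i))
  let Δ : Subgroup Γ := ⨅ i, (L i ⊔ K i).comap ((Pi.evalMonoidHom G i).comp j)
  have hΔ : Δ.FiniteIndex := Subgroup.finiteIndex_iInf fun i =>
    have := (hf i).fi
    W2.fi_comap _ _
  let j' : Δ →* ∀ i, (L i ⊔ K i : Subgroup (G i)) := MonoidHom.pi fun i =>
    (((Pi.evalMonoidHom G i).comp j).comp Δ.subtype).codRestrict (L i ⊔ K i)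
      fun δ => Subgroup.mem_iInf.1 δ.2 i
  let e : (∀ i, (L i ⊔ K i : Subgroup (G i))) →* ∀ i, G i :=
    MonoidHom.pi fun i => (L i ⊔ K i).subtype.comp
      (Pi.evalMonoidHom (fun i => (L i ⊔ K i : Subgroup (G i))) i)
  have he : Topology.IsOpenEmbedding e := by
    refine ⟨Topology.IsEmbedding.piMap fun i => Topology.IsEmbedding.subtypeVal, ?_⟩
    have h1 : Set.range e = Set.pi Set.univ fun i => ((L i ⊔ K i : Subgroup (G i)) : Set (G i)) := by
      ext g
      constructor
      · rintro ⟨y, rfl⟩ i _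
        exact (y i).2
      · intro h
        exact ⟨fun i => ⟨g i, h i trivial⟩, rfl⟩
    rw [h1]
    exact isOpen_set_pi Set.finite_univ fun i _ => hop i
  have hj' : Lat j' := W2.lat_sub hj he Δ fun _ => rfl
  refine ⟨Δ, hΔ, ?_⟩
  have key := wa_main (G := fun i => (L i ⊔ K i : Subgroup (G i))) (L := fun i => L i)
    (fun i => (hf i).rig) (fun i => Subgroup.inclusion le_sup_left)
    (fun i => Topology.IsEmbedding.inclusion
      (SetLike.coe_subset_coe.2 (le_sup_left : L i ≤ L i ⊔ K i)))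
    (fun i => by
      rw [Subgroup.inclusion_range]
      exact (hf i).norm.subgroupOf _)
    (fun i => (K i).subgroupOf (L i ⊔ K i))
    (fun i => (hcl i).isClosedEmbedding_subtypeVal.isCompact_preimage (hf i).cpt)
    (fun i g => by
      obtain ⟨a, ha, k, hk, h⟩ := (hmul i).le g.2
      exact ⟨⟨a, ha⟩, ⟨k, Subgroup.mem_sup_right hk⟩, hk, Subtype.ext h.symm⟩)
    j' hj' (fun i k a => by
      have hin : Topology.IsInducing (Pi.map fun (t : {k // k ≠ i})
          (y : (L t.1 ⊔ K t.1 : Subgroup (G t.1))) => (y : G t.1)) :=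
        Topology.IsInducing.piMap fun _ => Topology.IsInducing.subtypeVal
      rw [hin.closure_eq_preimage_closure_image, Set.mem_preimage]
      have := hd i
      have h1 := W2.mem_clos (hf k.1).weak (hd i) Δ
        ((MonoidHom.mulSingle (fun k : {k // k ≠ i} => G k.1) k).comp (L k.1).subtype)
        ((continuous_mulSingle (A := fun k : {k // k ≠ i} => G k.1) k).comp
          continuous_subtype_val) a
      have h2 : (Pi.map fun (t : {k // k ≠ i})
          (y : (L t.1 ⊔ K t.1 : Subgroup (G t.1))) => (y : G t.1))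
          (MonoidHom.mulSingle (fun t : {k // k ≠ i} => (L t.1 ⊔ K t.1 : Subgroup (G t.1))) k
            (Subgroup.inclusion le_sup_left a)) =
          ((MonoidHom.mulSingle (fun k : {k // k ≠ i} => G k.1) k).comp (L k.1).subtype) a := by
        funext t
        by_cases h : t = k
        · subst h
          simp
        · simp [Pi.mulSingle_eq_of_ne h]
      rw [h2]
      refine closure_mono ?_ h1
      rintro _ ⟨γ, hγ, rfl⟩
      exact ⟨_, ⟨⟨γ, hγ⟩, rfl⟩, rfl⟩)
    (fun γ k h => Subtype.ext (hc γ.1 k (Subgroup.mem_centralizer_iff.2 fun a ha =>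
      congrArg Subtype.val (h ⟨a, ha⟩)))) μ (fun δ => hF δ.1)
  filter_upwards [key] with x hx
  exact hx.imp id fun h δ hδ hx => congrArg Subtype.val (h ⟨δ, hδ⟩ hx)

end Pool.Agent.Lib.MP_60cbcc_al.H3Z
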