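import Mathlib

/-!
Mass transport, Green's formula and the Bochner inequality for a group acting with finitely many
orbits and finite stabilisers on a product of two locally finite graphs.
-/

namespace Pool.Agent.Lib.MP_60cbcc_al.H8

open Finset
open scoped RealInnerProductSpace

/-- A finite set `Q` meeting every orbit, with finite return sets `T v`. -/
structure Cof (Γ V : Type) [Group Γ] [MulAction Γ V] where
  Q : Finset V
  T : V → Finset Γ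
  mem_T : ∀ v γ, γ ∈ T v ↔ γ • v ∈ Q
  ne : ∀ v, (T v).Nonempty

/-- An invariant symmetric system of finite neighbourhoods. -/
structure Nb (Γ V : Type) [Group Γ] [MulAction Γ V] where
  N : V → Finset V
  symm : ∀ a b, b ∈ N a → a ∈ N b
  inv : ∀ (γ : Γ) a b, b ∈ N a → γ • b ∈ N (γ • a)

section
variable {Γ V : Type} [Group Γ] [MulAction Γ V]

noncomputable def Cof.wt (c : Cof Γ V) (v : V) : ℝ := ((c.T v).card : ℝ)⁻¹

theorem Cof.wt_pos (c : Cof Γ V) (v : V) : 0 < c.wt v :=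
  inv_pos.2 (by exact_mod_cast (c.ne v).card_pos)

theorem Cof.sum_T {M : Type} [AddCommMonoid M] (c : Cof Γ V) (δ : Γ) (v : V) (F : Γ → M) :
    ∑ γ ∈ c.T (δ • v), F γ = ∑ γ ∈ c.T v, F (γ * δ⁻¹) := by
  refine sum_nbij' (fun γ => γ * δ) (fun γ => γ * δ⁻¹) ?_ ?_ ?_ ?_ ?_ <;>
    simp [c.mem_T, mul_smul]

theorem Cof.wt_smul (c : Cof Γ V) (δ : Γ) (v : V) : c.wt (δ • v) = c.wt v := by
  have := c.sum_T δ v fun _ => (1 : ℝ)
  simp only [sum_const, nsmul_eq_mul, mul_one] at this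
  simp [Cof.wt, this]

theorem Cof.sum_wt (c : Cof Γ V) (v : V) : ∑ _γ ∈ c.T v, c.wt v = 1 := by
  have : ((c.T v).card : ℝ) ≠ 0 := by exact_mod_cast (c.ne v).card_pos.ne'
  simp [Cof.wt, this]

/-- The integral of an invariant function over the orbit space. -/
noncomputable def Cof.I (c : Cof Γ V) (Φ : V → ℝ) : ℝ := ∑ v ∈ c.Q, c.wt v * Φ v

theorem Cof.I_add (c : Cof Γ V) (Φ Ψ : V → ℝ) :
    c.I (fun a => Φ a + Ψ a) = c.I Φ + c.I Ψ := by
  simp [Cof.I, mul_add, sum_add_distrib]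

theorem Cof.I_mul (c : Cof Γ V) (t : ℝ) (Φ : V → ℝ) : c.I (fun a => t * Φ a) = t * c.I Φ := by
  simp [Cof.I, mul_sum, mul_left_comm]

theorem Cof.I_mono (c : Cof Γ V) {Φ Ψ : V → ℝ} (h : ∀ a ∈ c.Q, Φ a ≤ Ψ a) : c.I Φ ≤ c.I Ψ :=
  sum_le_sum fun a ha => mul_le_mul_of_nonneg_left (h a ha) (c.wt_pos a).le

theorem Cof.I_nonneg (c : Cof Γ V) {Φ : V → ℝ} (h : ∀ a, 0 ≤ Φ a) : 0 ≤ c.I Φ :=
  sum_nonneg fun a _ => mul_nonneg (c.wt_pos a).le (h a)

theorem Cof.le_I (c : Cof Γ V) {Φ : V → ℝ} (h : ∀ a, 0 ≤ Φ a)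
    (hi : ∀ (γ : Γ) a, Φ (γ • a) = Φ a) (a : V) : c.wt a * Φ a ≤ c.I Φ := by
  obtain ⟨γ, hγ⟩ := c.ne a
  rw [← c.wt_smul γ, ← hi γ]
  exact single_le_sum (f := fun v => c.wt v * Φ v)
    (fun v _ => mul_nonneg (c.wt_pos v).le (h v)) ((c.mem_T _ _).1 hγ)

theorem Nb.sum_smul {M : Type} [AddCommMonoid M] (n : Nb Γ V) (γ : Γ) (a : V) (F : V → M) :
    ∑ b ∈ n.N (γ • a), F b = ∑ b ∈ n.N a, F (γ • b) := by
  refine sum_nbij' (fun b => γ⁻¹ • b) (fun b => γ • b) ?_ ?_ ?_ ?_ ?_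
  · intro b hb
    simpa using n.inv γ⁻¹ _ _ hb
  · intro b hb
    exact n.inv γ _ _ hb
  all_goals simp

/-- The mass transport principle. -/
theorem mtp (c : Cof Γ V) (n : Nb Γ V) (F : V → V → ℝ)
    (hF : ∀ (γ : Γ) a b, F (γ • a) (γ • b) = F a b) :
    c.I (fun a => ∑ b ∈ n.N a, F a b) = c.I (fun a => ∑ b ∈ n.N a, F b a) := by
  have key : ∀ G : V → V → ℝ, c.I (fun a => ∑ b ∈ n.N a, G a b) =
      ∑ x ∈ (c.Q.sigma fun a => n.N a).sigma (fun x => c.T x.2),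
        c.wt x.1.1 * c.wt x.1.2 * G x.1.1 x.1.2 := by
    intro G
    rw [sum_sigma, sum_sigma, Cof.I]
    refine sum_congr rfl fun a _ => ?_
    rw [mul_sum]
    refine sum_congr rfl fun b _ => ?_
    simp only
    rw [← sum_mul, ← mul_sum, c.sum_wt, mul_one]
  rw [key, key]
  refine sum_nbij' (fun x => ⟨⟨x.2 • x.1.2, x.2 • x.1.1⟩, x.2⁻¹⟩)
    (fun x => ⟨⟨x.2 • x.1.2, x.2 • x.1.1⟩, x.2⁻¹⟩) ?_ ?_ ?_ ?_ ?_
  · rintro ⟨⟨a, b⟩, γ⟩ h
    simp only [mem_sigma, c.mem_T, inv_smul_smul] at h ⊢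
    exact ⟨⟨h.2, n.inv _ _ _ (n.symm _ _ h.1.2)⟩, h.1.1⟩
  · rintro ⟨⟨a, b⟩, γ⟩ h
    simp only [mem_sigma, c.mem_T, inv_smul_smul] at h ⊢
    exact ⟨⟨h.2, n.inv _ _ _ (n.symm _ _ h.1.2)⟩, h.1.1⟩
  · rintro ⟨⟨a, b⟩, γ⟩ _
    simp
  · rintro ⟨⟨a, b⟩, γ⟩ _
    simp
  · rintro ⟨⟨a, b⟩, γ⟩ _
    simp only [c.wt_smul, hF]
    ring

variable {E : Type} [NormedAddCommGroup E] [InnerProductSpace ℝ E] (π : Γ → E →ₗᵢ[ℝ] E)

/-- The graph Laplacian. -/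
def Nb.lap (n : Nb Γ V) (f : V → E) (a : V) : E := ∑ b ∈ n.N a, (f a - f b)

/-- Differences of `f` are equivariant. -/
def Deq (f : V → E) : Prop := ∀ (γ : Γ) a b, f (γ • a) - f (γ • b) = π γ (f a - f b)

/-- `f` is equivariant. -/
def Leq (f : V → E) : Prop := ∀ (γ : Γ) a, f (γ • a) = π γ (f a)

variable {π}

theorem Leq.deq {f : V → E} (h : Leq π f) : Deq π f := fun γ a b => by rw [h, h, map_sub]

theorem Deq.lap {f : V → E} (h : Deq π f) (n : Nb Γ V) : Leq π (n.lap f) := fun γ a => by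
  simp only [Nb.lap, n.sum_smul, h γ, map_sum]

theorem green (c : Cof Γ V) (n : Nb Γ V) {f ξ : V → E} (hf : Deq π f) (hξ : Leq π ξ) :
    2 * c.I (fun a => ⟪n.lap f a, ξ a⟫) = c.I fun a => ∑ b ∈ n.N a, ⟪f a - f b, ξ a - ξ b⟫ := by
  have h := mtp c n (fun a b => ⟪f a - f b, ξ a⟫) fun γ a b => by
    rw [hf, hξ, LinearIsometry.inner_map_map]
  have h1 : c.I (fun a => ⟪n.lap f a, ξ a⟫) = c.I fun a => ∑ b ∈ n.N a, ⟪f a - f b, ξ a⟫ := by
    simp only [Nb.lap, sum_inner]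
  rw [two_mul, h1]
  nth_rewrite 2 [h]
  rw [← c.I_add]
  congr 1
  ext a
  rw [← sum_add_distrib]
  refine sum_congr rfl fun b _ => ?_
  rw [inner_sub_right (f a - f b), ← neg_sub (f a), inner_neg_left]
  ring

theorem lap_sq_le (c : Cof Γ V) (n : Nb Γ V) : ∃ d : ℝ, 0 ≤ d ∧ ∀ ξ : V → E, Leq π ξ →
    c.I (fun a => ‖n.lap ξ a‖ ^ 2) ≤ d * c.I fun a => ⟪n.lap ξ a, ξ a⟫ := by
  refine ⟨(∑ a ∈ c.Q, ((n.N a).card : ℝ)) * 2, by positivity, fun ξ hξ => ?_⟩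
  rw [mul_assoc, green c n hξ.deq hξ, ← c.I_mul]
  refine c.I_mono fun a ha => ?_
  simp only [real_inner_self_eq_norm_sq]
  calc ‖n.lap ξ a‖ ^ 2 ≤ (∑ b ∈ n.N a, ‖ξ a - ξ b‖) ^ 2 :=
        pow_le_pow_left₀ (norm_nonneg _) (norm_sum_le _ _) _
    _ ≤ (n.N a).card * ∑ b ∈ n.N a, ‖ξ a - ξ b‖ ^ 2 := sq_sum_le_card_mul_sum_sq
    _ ≤ _ := mul_le_mul_of_nonneg_right
        (single_le_sum (f := fun a => ((n.N a).card : ℝ)) (fun _ _ => by positivity) ha)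
        (by positivity)

end

section
variable {Γ V W : Type} [Group Γ] [MulAction Γ V] [MulAction Γ W]

/-- Neighbours in the first coordinate. -/
def Nb.left (n : Nb Γ V) (W : Type) [MulAction Γ W] : Nb Γ (V × W) where
  N a := (n.N a.1).map ⟨fun u => (u, a.2), fun _ _ h => (Prod.mk.inj h).1⟩
  symm := by
    rintro ⟨u, v⟩ b hb
    obtain ⟨u', h, rfl⟩ := mem_map.1 hb
    exact mem_map.2 ⟨u, n.symm _ _ h, rfl⟩
  inv := by
    rintro γ ⟨u, v⟩ b hb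
    obtain ⟨u', h, rfl⟩ := mem_map.1 hb
    exact mem_map.2 ⟨γ • u', n.inv _ _ _ h, rfl⟩

/-- Neighbours in the second coordinate. -/
def Nb.right (n : Nb Γ W) (V : Type) [MulAction Γ V] : Nb Γ (V × W) where
  N a := (n.N a.2).map ⟨fun v => (a.1, v), fun _ _ h => (Prod.mk.inj h).2⟩
  symm := by
    rintro ⟨u, v⟩ b hb
    obtain ⟨v', h, rfl⟩ := mem_map.1 hb
    exact mem_map.2 ⟨v, n.symm _ _ h, rfl⟩
  inv := by
    rintro γ ⟨u, v⟩ b hb
    obtain ⟨v', h, rfl⟩ := mem_map.1 hb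
    exact mem_map.2 ⟨γ • v', n.inv _ _ _ h, rfl⟩

theorem Nb.sum_left {M : Type} [AddCommMonoid M] (n : Nb Γ V) (a : V × W) (F : V × W → M) :
    ∑ b ∈ (n.left W).N a, F b = ∑ u ∈ n.N a.1, F (u, a.2) := sum_map _ _ _

theorem Nb.sum_right {M : Type} [AddCommMonoid M] (n : Nb Γ W) (a : V × W) (F : V × W → M) :
    ∑ b ∈ (n.right V).N a, F b = ∑ v ∈ n.N a.2, F (a.1, v) := sum_map _ _ _

variable {E : Type} [NormedAddCommGroup E] [InnerProductSpace ℝ E] {π : Γ → E →ₗᵢ[ℝ] E}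

/-- The mixed second difference. -/
def box {M : Type} [AddCommGroup M] (f : V × W → M) (u u' : V) (v v' : W) : M :=
  (f (u, v) - f (u', v)) - (f (u, v') - f (u', v'))

theorem Deq.box {f : V × W → E} (hf : Deq π f) (γ : Γ) (u u' : V) (v v' : W) :
    box f (γ • u) (γ • u') (γ • v) (γ • v') = π γ (box f u u' v v') := by
  rw [H8.box, H8.box, map_sub, ← hf, ← hf]
  rfl

theorem bochner (c : Cof Γ (V × W)) (n : Nb Γ V) (m : Nb Γ W) {f : V × W → E} (hf : Deq π f) :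
    4 * c.I (fun a => ⟪(n.left W).lap f a, (m.right V).lap f a⟫) =
      c.I fun a => ∑ v ∈ m.N a.2, ∑ u ∈ n.N a.1, ‖box f a.1 u a.2 v‖ ^ 2 := by
  have h := mtp c (m.right V)
    (fun a b => ∑ u ∈ n.N a.1, ⟪f (a.1, a.2) - f (u, a.2), box f a.1 u a.2 b.2⟫) fun γ a b => by
      simp only [Prod.smul_fst, Prod.smul_snd, n.sum_smul, hf.box]
      refine sum_congr rfl fun u _ => ?_
      rw [← LinearIsometry.inner_map_map (π γ) (f (a.1, a.2) - f _), ← hf]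
      rfl
  have h1 := green c (n.left W) hf (hf.lap (m.right V))
  have h2 : (c.I fun a => ∑ b ∈ (n.left W).N a,
      ⟪f a - f b, (m.right V).lap f a - (m.right V).lap f b⟫) =
      c.I fun a => ∑ b ∈ (m.right V).N a,
        ∑ u ∈ n.N a.1, ⟪f (a.1, a.2) - f (u, a.2), box f a.1 u a.2 b.2⟫ := by
    congr 1
    ext a
    rw [n.sum_left, m.sum_right, sum_comm]
    refine sum_congr rfl fun u _ => ?_
    simp only [Nb.lap, m.sum_right, ← sum_sub_distrib, inner_sum, box]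
    refine sum_congr rfl fun v _ => ?_
    congr 1
    abel
  rw [show (4 : ℝ) = 2 * 2 by norm_num, mul_assoc, h1, h2, two_mul]
  nth_rewrite 2 [h]
  rw [← c.I_add]
  congr 1
  ext a
  rw [m.sum_right, m.sum_right, ← sum_add_distrib]
  refine sum_congr rfl fun v _ => ?_
  rw [← sum_add_distrib]
  refine sum_congr rfl fun u _ => ?_
  have : box f a.1 u v a.2 = -box f a.1 u a.2 v := by simp [box]
  simp only [this, inner_neg_right]
  rw [← sub_eq_add_neg, ← inner_sub_left, ← real_inner_self_eq_norm_sq]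
  rfl

/-- The full Laplacian of the product graph. -/
def lap2 (n : Nb Γ V) (m : Nb Γ W) (f : V × W → E) (a : V × W) : E :=
  (n.left W).lap f a + (m.right V).lap f a

theorem box_le (c : Cof Γ (V × W)) (n : Nb Γ V) (m : Nb Γ W) {f : V × W → E} (hf : Deq π f)
    {u u' : V} {v v' : W} (hu : u' ∈ n.N u) (hv : v' ∈ m.N v) :
    c.wt (u, v) * ‖box f u u' v v'‖ ^ 2 ≤ 2 * c.I fun a => ‖lap2 n m f a‖ ^ 2 := by
  have h1 := c.le_I (Φ := fun a => ∑ v ∈ m.N a.2, ∑ u ∈ n.N a.1, ‖box f a.1 u a.2 v‖ ^ 2)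
    (fun _ => by positivity) (fun γ a => by
      simp only [Prod.smul_fst, Prod.smul_snd, n.sum_smul, m.sum_smul, hf.box,
        LinearIsometry.norm_map]) (u, v)
  rw [← bochner c n m hf] at h1
  have h2 : ‖box f u u' v v'‖ ^ 2 ≤ ∑ v' ∈ m.N v, ∑ u' ∈ n.N u, ‖box f u u' v v'‖ ^ 2 :=
    (single_le_sum (f := fun u' => ‖box f u u' v v'‖ ^ 2) (fun _ _ => by positivity) hu).trans
      (single_le_sum (f := fun v' => ∑ u' ∈ n.N u, ‖box f u u' v v'‖ ^ 2)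
        (fun _ _ => by positivity) hv)
  have h3 : (c.I fun a => 2 * ⟪(n.left W).lap f a, (m.right V).lap f a⟫) ≤
      c.I fun a => ‖lap2 n m f a‖ ^ 2 := c.I_mono fun a _ => by
    rw [lap2, norm_add_sq_real]
    nlinarith [sq_nonneg ‖(n.left W).lap f a‖, sq_nonneg ‖(m.right V).lap f a‖]
  rw [c.I_mul] at h3
  have := mul_le_mul_of_nonneg_left h2 (c.wt_pos (u, v)).le
  linarith

end

end Pool.Agent.Lib.MP_60cbcc_al.H8
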