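import Pool.Agent.Lib.MP_60cbcc_al.H8Pt

/-!
Harmonic limits of equivariant maps, and vanishing of reduced first cohomology.
-/

namespace Pool.Agent.Lib.MP_60cbcc_al.H8

open Finset Filter Topology MeasureTheory
open scoped RealInnerProductSpace

section
variable {Γ V : Type} [Group Γ] [MulAction Γ V]
variable {E : Type} [NormedAddCommGroup E] [InnerProductSpace ℝ E]

/-- Weighted differences along the edges that start in `Q`. -/
noncomputable def grad (c : Cof Γ V) (k : Nb Γ V) :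
    (V → E) →ₗ[ℝ] PiLp 2 fun _ : c.Q.sigma k.N => E where
  toFun f := WithLp.toLp 2 fun e => √(c.wt e.1.1) • (f e.1.1 - f e.1.2)
  map_add' f g := by ext; simp [add_sub_add_comm]
  map_smul' t f := by ext; simp [smul_comm t, smul_sub]

theorem inner_grad (c : Cof Γ V) (k : Nb Γ V) (f g : V → E) :
    ⟪grad c k f, grad c k g⟫ = c.I fun a => ∑ b ∈ k.N a, ⟪f a - f b, g a - g b⟫ := by
  rw [PiLp.inner_apply, Cof.I]
  simp only [mul_sum]
  rw [sum_sigma', ← sum_coe_sort (c.Q.sigma k.N)]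
  refine sum_congr rfl fun q _ => ?_
  simp [grad, real_inner_smul_left, real_inner_smul_right, ← mul_assoc,
    Real.mul_self_sqrt (c.wt_pos _).le]

theorem harm [CompleteSpace E] (π : Γ →* E ≃ₗᵢ[ℝ] E) (c : Cof Γ V) {k : Nb Γ V} (hk : k.Conn)
    (a₀ : V) {f : V → E} (hf : Deq (fun γ => (π γ).toLinearIsometry) f) :
    ∃ (F : V → E) (ξ : ℕ → V → E), Deq (fun γ => (π γ).toLinearIsometry) F ∧
      (c.I fun a => ‖k.lap F a‖ ^ 2) = 0 ∧ (∀ i, Leq (fun γ => (π γ).toLinearIsometry) (ξ i)) ∧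
      ∀ a b, Tendsto (fun i => (f a - ξ i a) - (f b - ξ i b)) atTop (𝓝 (F a - F b)) := by
  set R := ((leqs (fun γ => (π γ).toLinearIsometry) V).map (grad c k)).topologicalClosure
  obtain ⟨y, hy, hy'⟩ := mem_closure_iff_seq_limit.1 (R.starProjection_apply_mem (grad c k f))
  choose ξ hξ hξ' using hy
  have h0 : Tendsto (fun i => grad c k (f - ξ i)) atTop
      (𝓝 (grad c k f - R.starProjection (grad c k f))) := by
    simp only [map_sub, hξ']
    exact hy'.const_sub _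
  have hd : ∀ i, Deq (fun γ => (π γ).toLinearIsometry) (f - ξ i) := fun i γ a b => by
    simp only [Pi.sub_apply]
    rw [sub_sub_sub_comm, hf, Leq.deq (hξ i), ← map_sub, sub_sub_sub_comm]
  have h1 : ∀ a b, ∃ z, Tendsto (fun i => (f - ξ i) a - (f - ξ i) b) atTop (𝓝 z) := fun a b => by
    induction hk a b with
    | refl => exact ⟨0, by simp⟩
    | @tail x y _ hxy ih =>
      obtain ⟨z, hz⟩ := ih
      obtain ⟨γ, hγ⟩ := c.ne x
      have h2 := (((PiLp.continuous_apply 2 _ ⟨⟨γ • x, γ • y⟩, mem_sigma.2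
        ⟨(c.mem_T _ _).1 hγ, k.inv _ _ _ hxy⟩⟩).tendsto _).comp h0).const_smul (√(c.wt (γ • x)))⁻¹
      have h3 := hz.add (((π γ).symm.continuous.tendsto _).comp h2)
      refine ⟨_, h3.congr fun i => ?_⟩
      have h4 := hd i γ x y
      simp only [Function.comp, grad, LinearMap.coe_mk, AddHom.coe_mk, h4,
        inv_smul_smul₀ (Real.sqrt_pos.2 (c.wt_pos _)).ne']
      simp
  choose F hF using fun a => h1 a a₀
  have h2 : ∀ a b, Tendsto (fun i => (f - ξ i) a - (f - ξ i) b) atTop (𝓝 (F a - F b)) :=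
    fun a b => by simpa using (hF a).sub (hF b)
  have h3 : Deq (fun γ => (π γ).toLinearIsometry) F := fun γ a b =>
    tendsto_nhds_unique (h2 _ _) ((((π γ).continuous.tendsto _).comp (h2 a b)).congr fun i =>
      (hd i γ a b).symm)
  have h4 : grad c k F = grad c k f - R.starProjection (grad c k f) :=
    tendsto_nhds_unique (((PiLp.continuous_toLp 2 _).tendsto _).comp
      (tendsto_pi_nhds.2 fun e => (h2 _ _).const_smul _)) h0
  refine ⟨F, ξ, h3, ?_, hξ, h2⟩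
  have h5 := green c k h3 (h3.lap k)
  rw [← inner_grad, h4, Submodule.inner_left_of_mem_orthogonal (K := R)
    (Submodule.le_topologicalClosure _ ⟨_, h3.lap k, rfl⟩)
    (R.sub_starProjection_mem_orthogonal _)] at h5
  simpa [real_inner_self_eq_norm_sq] using h5

end

variable {Γ V W : Type} [Group Γ] [MulAction Γ V] [MulAction Γ W]

open Classical in
/-- Neighbours in the product graph. -/
noncomputable def Nb.prod (n : Nb Γ V) (m : Nb Γ W) : Nb Γ (V × W) where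
  N a := (n.left W).N a ∪ (m.right V).N a
  symm _ _ h := mem_union.2 ((mem_union.1 h).imp (Nb.symm _ _ _) (Nb.symm _ _ _))
  inv _ _ _ h := mem_union.2 ((mem_union.1 h).imp (Nb.inv _ _ _ _) (Nb.inv _ _ _ _))

theorem Nb.prod_conn {n : Nb Γ V} {m : Nb Γ W} (hn : n.Conn) (hm : m.Conn) : (n.prod m).Conn := by
  classical
  rintro ⟨u, v⟩ ⟨u', v'⟩
  exact ((hn u u').lift (fun x => (x, v)) fun a b h =>
    mem_union.2 (.inl (mem_map.2 ⟨b, h, rfl⟩))).trans ((hm v v').lift (fun y => (u', y))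
      fun a b h => mem_union.2 (.inr (mem_map.2 ⟨b, h, rfl⟩)))

theorem Nb.prod_lap {E : Type} [NormedAddCommGroup E] (n : Nb Γ V) (m : Nb Γ W) (f : V × W → E)
    (a : V × W) : (n.prod m).lap f a = lap2 n m f a := by
  classical
  rw [lap2, Nb.lap, Nb.lap, Nb.lap, ← sum_union_inter, sum_eq_zero (s := _ ∩ _), add_zero]
  · congr!
  · intro b hb
    obtain ⟨h1, h2⟩ := mem_inter.1 hb
    obtain ⟨u, -, rfl⟩ := mem_map.1 h1
    obtain ⟨v, -, h⟩ := mem_map.1 h2
    exact sub_eq_zero.2 (congrArg f (Prod.ext (Prod.mk.inj h).1 rfl))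

theorem coh [Countable Γ] (c : Cof Γ (V × W)) {n : Nb Γ V} {m : Nb Γ W} (hn : n.Conn)
    (hm : m.Conn) (a₀ : V × W) {X : Type} [MeasurableSpace X] {μ : Measure X} [MulAction Γ X]
    (hX : ∀ᵐ x ∂μ, (Rig V fun γ : Γ => γ • x = x) ∧ Rig W fun γ : Γ => γ • x = x)
    {K : Type} [NormedAddCommGroup K] [InnerProductSpace ℝ K] [CompleteSpace K]
    (π : Γ →* Lp K 2 μ ≃ₗᵢ[ℝ] Lp K 2 μ) (hπ : ∀ γ ξ, ∀ᵐ x ∂μ, γ • x = x → π γ ξ x = ξ x)
    (b : Γ → Lp K 2 μ) (hb : ∀ γ δ, b (γ * δ) = b γ + π γ (b δ)) :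
    ∃ ξ : ℕ → Lp K 2 μ, ∀ γ, Tendsto (fun i => π γ (ξ i) - ξ i) atTop (𝓝 (b γ)) := by
  have : Countable (V × W) := by
    refine Set.countable_univ_iff.1 ((Set.countable_iUnion fun γ : Γ =>
      (c.Q.finite_toSet.image fun q => γ⁻¹ • q).countable).mono fun a _ => ?_)
    obtain ⟨γ, hγ⟩ := c.ne a
    exact Set.mem_iUnion.2 ⟨γ, _, (c.mem_T _ _).1 hγ, by simp⟩
  let f : V × W → Lp K 2 μ := fun a => c.wt a • ∑ γ ∈ c.T a, b γ⁻¹
  have hf : ∀ γ a, f (γ • a) = π γ (f a) + b γ := fun γ a => by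
    have h := c.sum_wt a
    simp only [f, c.wt_smul, c.sum_T, mul_inv_rev, inv_inv, hb, sum_add_distrib, smul_add, map_smul,
      map_sum, smul_sum (r := c.wt a) (f := fun _ => b γ), ← sum_smul, h, one_smul, add_comm]
  obtain ⟨F, ξ, h1, h2, h3, h4⟩ := harm π c (Nb.prod_conn hn hm) a₀ (f := f) fun γ a a' => by
    simp [hf]
  have h5 : ∀ u u' v v', box F u u' v v' = 0 := box_zero hn hm fun u u' v v' hu hv => by
    have := box_le c n m h1 hu hv
    simp only [← Nb.prod_lap, h2, mul_zero] at this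
    simpa using nonpos_of_mul_nonpos_right this (c.wt_pos _)
  have h6 : ∀ a a', F a = F a' := fun a a' => by
    have h7 : ∀ p : (V × W) × (V × W), ∀ᵐ x ∂μ, box (fun a => F a x) p.1.1 p.2.1 p.1.2 p.2.2 = 0 :=
      fun p => by
        filter_upwards [Lp.coeFn_sub (F (p.1.1, p.1.2) - F (p.2.1, p.1.2))
          (F (p.1.1, p.2.2) - F (p.2.1, p.2.2)), Lp.coeFn_sub (F (p.1.1, p.1.2)) (F (p.2.1, p.1.2)),
          Lp.coeFn_sub (F (p.1.1, p.2.2)) (F (p.2.1, p.2.2)), Lp.coeFn_zero K 2 μ] with x e1 e2 e3 e4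
        rw [Pi.sub_apply, e2, e3, ← box, h5, e4] at e1
        exact e1.symm
    have h8 : ∀ (γ : Γ) (a a' : V × W), ∀ᵐ x ∂μ,
        γ • x = x → F (γ • a) x - F (γ • a') x = F a x - F a' x := fun γ a a' => by
      filter_upwards [hπ γ (F a - F a'), Lp.coeFn_sub (F a) (F a'),
        Lp.coeFn_sub (F (γ • a)) (F (γ • a'))] with x e1 e2 e3 hx
      rw [← Pi.sub_apply (F a), ← e2, ← e1 hx, ← Pi.sub_apply (F (γ • a)), ← e3, h1]
      rfl
    ext1
    filter_upwards [hX, ae_all_iff.2 h7, ae_all_iff.2 fun γ => ae_all_iff.2 fun a =>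
      ae_all_iff.2 (h8 γ a)] with x e1 e2 e3
    exact alg e1.1 e1.2 (D := fun a => F a x) (fun γ hγ a a' => e3 γ a a' hγ)
      (fun u u' v v' => e2 ((u, v), (u', v'))) a a'
  refine ⟨fun i => ξ i a₀ - f a₀, fun γ => ?_⟩
  have h7 := (h4 (γ • a₀) a₀).const_sub (b γ)
  rw [h6 _ a₀, sub_self, sub_zero] at h7
  refine h7.congr fun i => ?_
  rw [hf, h3 i, map_sub]
  simp only [LinearIsometryEquiv.coe_toLinearIsometry]
  abel

end Pool.Agent.Lib.MP_60cbcc_al.H8
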