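import Pool.Agent.Lib.MP_60cbcc_al.H8Top

namespace Pool.Agent.Lib.MP_60cbcc_al.H8DenseEndsOld

open scoped Pointwise

/-- In a uniform lattice of a product of two compactly generated groups with compact open
subgroups and no continuous real characters, the coset space of a subgroup with dense projections
has at most one end. -/
theorem result (G H : Type) [Group G] [TopologicalSpace G] [IsTopologicalGroup G] [T2Space G]
    [Group H] [TopologicalSpace H] [IsTopologicalGroup H] [T2Space H]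
    (hK : ∃ K : Subgroup G, IsOpen (K : Set G) ∧ IsCompact (K : Set G))
    (hL : ∃ L : Subgroup H, IsOpen (L : Set H) ∧ IsCompact (L : Set H))
    (hS : ∃ S : Set G, IsCompact S ∧ Subgroup.closure S = ⊤)
    (hT : ∃ T : Set H, IsCompact T ∧ Subgroup.closure T = ⊤)
    (hG : ∀ χ : G →* Multiplicative ℝ, Continuous χ → χ = 1)
    (hH : ∀ χ : H →* Multiplicative ℝ, Continuous χ → χ = 1)
    (Γ : Subgroup (G × H)) [DiscreteTopology Γ]
    (hΓ : ∃ C : Set (G × H), IsCompact C ∧ ∀ g, ∃ γ ∈ Γ, γ * g ∈ C)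
    (Λ : Subgroup Γ) (h₁ : DenseRange fun γ : Λ => γ.1.1.1) (h₂ : DenseRange fun γ : Λ => γ.1.1.2)
    (A : Set (Γ ⧸ Λ)) (hA : ∀ γ : Γ, (γ • A \ A).Finite) : A.Finite ∨ Aᶜ.Finite := by
  obtain ⟨K, hKo, hKc⟩ := hK
  obtain ⟨L, hLo, hLc⟩ := hL
  have h : ∀ γ : Λ, γ.1 • ((1 : Γ) : Γ ⧸ Λ) = ((1 : Γ) : Γ ⧸ Λ) := fun γ => by
    simp [QuotientGroup.eq]
  have := Pool.Agent.Lib.MP_60cbcc_al.H8.ends K L hKo hKc hLo hLc hS hT hG hH Γ hΓ
    ((1 : Γ) : Γ ⧸ Λ) (.inl ⟨h₁.mono (by rintro _ ⟨γ, rfl⟩; exact ⟨γ.1, h γ, rfl⟩),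
      h₂.mono (by rintro _ ⟨γ, rfl⟩; exact ⟨γ.1, h γ, rfl⟩)⟩) A
  rw [MulAction.orbit_eq_univ, ← Set.compl_eq_univ_sdiff] at this
  exact this (Set.subset_univ A) hA

end Pool.Agent.Lib.MP_60cbcc_al.H8DenseEndsOld
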