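import Pool.Agent.Lib.MP_60cbcc_al.H8Pt

/-!
No finite cut separates two infinite parts of a transitive action with rigid stabilisers, or with
finite stabilisers.
-/

namespace Pool.Agent.Lib.MP_60cbcc_al.H8

open Finset
open scoped RealInnerProductSpace

section
variable {Γ V Z : Type} [Group Γ] [MulAction Γ V] [MulAction Γ Z]

/-- The shift on square summable functions. -/
noncomputable def sh (Z : Type) [MulAction Γ Z] (γ : Γ) :
    lp (fun _ : Z => ℝ) 2 →ₗᵢ[ℝ] lp (fun _ : Z => ℝ) 2 where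
  toFun ξ := ⟨fun z => ξ (γ⁻¹ • z), memℓp_gen
    ((MulAction.toPerm γ⁻¹).summable_iff.2 ((memℓp_gen_iff (by norm_num)).1 (lp.memℓp ξ)))⟩
  map_add' _ _ := rfl
  map_smul' _ _ := rfl
  norm_map' ξ := by
    rw [lp.norm_eq_tsum_rpow (by norm_num), lp.norm_eq_tsum_rpow (by norm_num) ξ,
      ← (MulAction.toPerm γ⁻¹).tsum_eq fun z => ‖ξ z‖ ^ (2 : ENNReal).toReal]
    rfl

theorem sh_apply (γ : Γ) (ξ : lp (fun _ : Z => ℝ) 2) (z : Z) : sh Z γ ξ z = ξ (γ⁻¹ • z) := rfl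

/-- The invariant average of `h`. -/
noncomputable def avg (c : Cof Γ V) (h : Z → ℝ) (a : V) (z : Z) : ℝ :=
  c.wt a * ∑ γ ∈ c.T a, h (γ • z)

theorem avg_smul (c : Cof Γ V) (h : Z → ℝ) (δ : Γ) (a : V) (z : Z) :
    avg c h (δ • a) z = avg c h a (δ⁻¹ • z) := by
  simp only [avg, c.wt_smul, c.sum_T, mul_smul]

theorem avg_fin (c : Cof Γ V) {h : Z → ℝ} (hh : ∀ γ : Γ, {z | h (γ • z) ≠ h z}.Finite) (a : V) :
    {z | avg c h a z - h z ≠ 0}.Finite := by
  refine ((c.T a).finite_toSet.biUnion fun γ _ => hh γ).subset fun z hz => ?_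
  by_contra hc
  simp only [Set.mem_iUnion, Set.mem_ofPred_eq, not_exists, not_not] at hc
  refine hz ?_
  rw [avg, sum_congr rfl fun γ hγ => hc γ hγ, mul_sum, ← sum_mul, c.sum_wt, one_mul, sub_self]

theorem inner_fin (p : lp (fun _ : Z => ℝ) 2) (hp : {z | p z ≠ 0}.Finite)
    (q : lp (fun _ : Z => ℝ) 2) : ⟪p, q⟫ = ∑ z ∈ hp.toFinset, p z * q z := by
  rw [lp.inner_eq_tsum, tsum_eq_sum (s := hp.toFinset)]
  · simp [mul_comm]
  · intro z hz
    have : p z = 0 := by simpa using hz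
    simp [this]

theorem sum_sq_le (p : lp (fun _ : Z => ℝ) 2) {α : ℕ → Z} (hα : Function.Injective α) (k : ℕ) :
    ∑ i ∈ range k, p (α i) ^ 2 ≤ ‖p‖ ^ 2 := by
  have := lp.sum_rpow_le_norm_rpow (by norm_num) p ((range k).map ⟨α, hα⟩)
  simpa using this

end

theorem bdd_sum {S ι : Type} {N : S → ℝ} (s : Finset ι) {F : ι → S → ℝ}
    (h : ∀ i ∈ s, F i ∈ bdd N) : (fun f => ∑ i ∈ s, F i f) ∈ bdd N := by
  convert Submodule.sum_mem _ h using 1
  ext f
  simp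

theorem bdd_mul {S : Type} {N : S → ℝ} (t : ℝ) {F : S → ℝ} (h : F ∈ bdd N) :
    (fun f => t * F f) ∈ bdd N := Submodule.smul_mem _ t h

theorem bdd_pos {S : Type} {N : S → ℝ} (hN : ∀ f, 0 ≤ N f) {F : S → ℝ} (h : F ∈ bdd N) :
    ∃ C, 0 < C ∧ ∀ f, |F f| ≤ C * N f := by
  obtain ⟨C, h⟩ := h
  exact ⟨|C| + 1, by positivity, fun f => (h f).trans
    (mul_le_mul_of_nonneg_right (by linarith [le_abs_self C]) (hN f))⟩

variable {Γ V W Z : Type} [Group Γ] [MulAction Γ V] [MulAction Γ W] [MulAction Γ Z]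

theorem no_cut [MulAction.IsPretransitive Γ Z] (c : Cof Γ (V × W)) {n : Nb Γ V} {m : Nb Γ W}
    (hn : n.Conn) (hm : m.Conn) (a₀ : V × W) (hV : ∀ z : Z, Rig V fun γ : Γ => γ • z = z)
    (hW : ∀ z : Z, Rig W fun γ : Γ => γ • z = z) {h : Z → ℝ}
    (hh : ∀ γ : Γ, {z | h (γ • z) ≠ h z}.Finite) {A B : Set Z} (hA : A.Infinite) (hB : B.Infinite)
    (hAB : ∀ x ∈ A, ∀ y ∈ B, h x - h y = 1) : False := by
  classical
  have hpt : ∀ (z : Z) (a b : V × W),
      (fun f : {f : V × W → lp (fun _ : Z => ℝ) 2 // Deq (sh (Γ := Γ) Z) f} => (f.1 a - f.1 b) z) ∈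
      bdd fun f : {f : V × W → lp (fun _ : Z => ℝ) 2 // Deq (sh (Γ := Γ) Z) f} => nl c n m f.1 :=
    fun z a b => by
      have := pt (π := sh Z) c hn hm (hV z) (hW z) (innerSL ℝ (lp.single 2 z (1 : ℝ)))
        (fun γ hγ x => by
          simp only [innerSL_apply_apply, lp.inner_single_left, sh_apply,
            inv_smul_eq_iff.2 hγ.symm]) a b
      simpa only [innerSL_apply_apply, lp.inner_single_left, Real.inner_apply, one_mul, mul_one]
        using this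
  let f₀ : V × W → lp (fun _ : Z => ℝ) 2 := fun a => ⟨fun z => avg c h a z - h z,
    (memℓp_zero (avg_fin c hh a)).of_exponent_ge zero_le⟩
  have hf₀ : ∀ a z, f₀ a z = avg c h a z - h z := fun _ _ => rfl
  have hd : Deq (sh (Γ := Γ) Z) f₀ := fun γ a b => by
    ext z
    simp only [lp.coeFn_sub, Pi.sub_apply, sh_apply, hf₀, avg_smul]
    ring
  have hk : ∀ k : Nb Γ (V × W),
      (fun f : {f : V × W → lp (fun _ : Z => ℝ) 2 // Deq (sh (Γ := Γ) Z) f} =>
        2⁻¹ * c.I fun a => ∑ b ∈ k.N a, ⟪f₀ a - f₀ b, f.1 a - f.1 b⟫) ∈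
      bdd fun f : {f : V × W → lp (fun _ : Z => ℝ) 2 // Deq (sh (Γ := Γ) Z) f} => nl c n m f.1 :=
    fun k => bdd_mul _ <| bdd_sum _ fun a _ => bdd_mul _ <| bdd_sum _ fun b _ => by
      have hp : {z | (f₀ a - f₀ b) z ≠ 0}.Finite :=
        ((avg_fin c hh a).union (avg_fin c hh b)).subset fun z hz => by
          by_contra hc
          simp only [Set.mem_union, Set.mem_ofPred_eq, not_or, not_not] at hc
          exact hz (by simp only [lp.coeFn_sub, Pi.sub_apply, hf₀, hc.1, hc.2, sub_self])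
      simp only [inner_fin _ hp]
      exact bdd_sum _ fun z _ => bdd_mul _ (hpt z a b)
  obtain ⟨C, hC0, hC⟩ := bdd_pos (fun _ => Real.sqrt_nonneg _)
    (Submodule.add_mem _ (hk (n.left W)) (hk (m.right V)))
  obtain ⟨D, hD⟩ := poisson c n m hd hC0.le fun ξ hξ => by
    refine le_of_eq_of_le ?_ (hC ⟨ξ, hξ.deq⟩)
    congr 1
    simp only [Pi.add_apply, ← green c _ hd hξ, lap2, inner_add_left, c.I_add]
    ring
  have hA' := hA.sdiff (avg_fin c hh a₀)
  have hB' := hB.sdiff (avg_fin c hh a₀)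
  set α := fun i => (hA'.natEmbedding _ i).1 with hα
  set β := fun i => (hB'.natEmbedding _ i).1 with hβ
  have hαi : Function.Injective α := Subtype.val_injective.comp (hA'.natEmbedding _).injective
  have hβi : Function.Injective β := Subtype.val_injective.comp (hB'.natEmbedding _).injective
  choose γ hγ using fun i => MulAction.exists_smul_eq Γ (β i) (α i)
  choose K hK0 hK using fun i => bdd_pos (fun _ => Real.sqrt_nonneg _)
    (hpt (β i) ((γ i)⁻¹ • a₀) a₀)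
  obtain ⟨k, hk⟩ := exists_nat_gt (16 * D ^ 2 / c.wt a₀)
  obtain ⟨g, hg, hgD, hgε⟩ := hD (2 * (1 + ∑ i ∈ range k, K i))⁻¹
    (by have := sum_nonneg fun i (_ : i ∈ range k) => (hK0 i).le; positivity)
  have h1 : ∀ i ∈ range k, (8 : ℝ)⁻¹ ≤ g a₀ (α i) ^ 2 + g a₀ (β i) ^ 2 := fun i hi => by
    have h2 := hK i ⟨f₀ - g, fun δ a b => by
      simp only [Pi.sub_apply]
      rw [sub_sub_sub_comm, hd, hg.deq, ← map_sub, sub_sub_sub_comm]⟩
    have h3 : K i * nl c n m (f₀ - g) ≤ 2⁻¹ := by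
      refine (mul_le_mul_of_nonneg_left hgε (hK0 i).le).trans ?_
      have := single_le_sum (fun i (_ : i ∈ range k) => (hK0 i).le) hi
      rw [mul_inv_le_iff₀ (by linarith [hK0 i])]
      linarith
    have h4 := hAB _ (hA'.natEmbedding _ i).2.1 _ (hB'.natEmbedding _ i).2.1
    have h5 : avg c h a₀ (α i) - h (α i) = 0 := not_not.1 (hA'.natEmbedding _ i).2.2
    have h6 : avg c h a₀ (β i) - h (β i) = 0 := not_not.1 (hB'.natEmbedding _ i).2.2
    simp only [lp.coeFn_sub, Pi.sub_apply, hf₀, avg_smul, hg _ a₀, sh_apply, inv_inv, hγ] at h2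
    have h7 := (abs_le.1 (h2.trans h3)).2
    change h (α i) - h (β i) = 1 at h4
    nlinarith [sq_nonneg (g a₀ (α i) + g a₀ (β i)), sq_nonneg (g a₀ (α i) - g a₀ (β i) - 2⁻¹)]
  have h2 := card_nsmul_le_sum _ _ _ h1
  rw [sum_add_distrib, card_range, nsmul_eq_mul] at h2
  have h3 := c.le_I (Φ := fun a => ‖g a‖ ^ 2) (fun _ => sq_nonneg _)
    (fun δ a => by rw [hg, LinearIsometry.norm_map]) a₀
  have h4 := (Real.sqrt_le_iff.1 hgD).2
  rw [div_lt_iff₀ (c.wt_pos a₀)] at hk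
  nlinarith [sum_sq_le (g a₀) hαi k, sum_sq_le (g a₀) hβi k, c.wt_pos a₀]

theorem Cof.fin {V : Type} [MulAction Γ V] (c : Cof Γ V) (a b : V) :
    {γ : Γ | γ • a = b}.Finite := by
  obtain ⟨δ, hδ⟩ := c.ne b
  refine ((c.T a).finite_toSet.image fun γ => δ⁻¹ * γ).subset fun γ hγ => ⟨δ * γ, ?_, by simp⟩
  rw [mem_coe, c.mem_T, mul_smul, show γ • a = b from hγ, ← c.mem_T]
  exact hδ

theorem no_cut_fin [MulAction.IsPretransitive Γ Z] [Infinite V] [Infinite W] (c : Cof Γ (V × W))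
    {n : Nb Γ V} {m : Nb Γ W} (hn : n.Conn) (hm : m.Conn) (z₀ : Z)
    (hz : {γ : Γ | γ • z₀ = z₀}.Finite) {h : Z → ℝ}
    (hh : ∀ γ : Γ, {z | h (γ • z) ≠ h z}.Finite) {A B : Set Z} (hA : A.Infinite) (hB : B.Infinite)
    (hAB : ∀ x ∈ A, ∀ y ∈ B, h x - h y = 1) : False := by
  have h1 : ∀ z, {γ : Γ | γ • z₀ = z}.Finite := fun z => by
    obtain ⟨δ, rfl⟩ := MulAction.exists_smul_eq Γ z₀ z
    refine (hz.image fun γ => δ * γ).subset fun γ hγ => ⟨δ⁻¹ * γ, ?_, by simp⟩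
    rw [Set.mem_ofPred_eq, mul_smul, show γ • z₀ = δ • z₀ from hγ, inv_smul_smul]
  have h2 : ∀ k : Nb Γ (V × W), {a | ∃ b ∈ k.N a, avg c h a z₀ ≠ avg c h b z₀}.Finite := fun k => by
    refine (c.Q.finite_toSet.biUnion fun q _ => (k.N q).finite_toSet.biUnion fun b _ =>
      ((avg_fin c hh q).union (avg_fin c hh b)).biUnion fun z _ =>
        (h1 z).image fun γ => γ⁻¹ • q).subset ?_
    rintro a ⟨b, hb, hab⟩
    obtain ⟨γ, hγ⟩ := c.ne a
    simp only [Set.mem_iUnion]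
    refine ⟨γ • a, (c.mem_T _ _).1 hγ, γ • b, k.inv _ _ _ hb, γ • z₀, ?_, γ, rfl, by simp⟩
    by_contra hc
    simp only [Set.mem_union, Set.mem_ofPred_eq, not_or, not_not, avg_smul, inv_smul_smul] at hc
    exact hab (by linarith [hc.1, hc.2])
  have h3 := (h2 (n.left W)).image Prod.snd
  have h4 := (h2 (m.right V)).image Prod.fst
  have h5 : ∀ v ∉ Prod.snd '' {a | ∃ b ∈ (n.left W).N a, avg c h a z₀ ≠ avg c h b z₀},
      ∀ u u', avg c h (u, v) z₀ = avg c h (u', v) z₀ := fun v hv u u' => by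
    induction hn u u' with
    | refl => rfl
    | @tail x y _ hxy ih =>
      by_contra hc
      exact hv ⟨(x, v), ⟨(y, v), mem_map.2 ⟨y, hxy, rfl⟩, ih ▸ hc⟩, rfl⟩
  have h6 : ∀ u ∉ Prod.fst '' {a | ∃ b ∈ (m.right V).N a, avg c h a z₀ ≠ avg c h b z₀},
      ∀ v v', avg c h (u, v) z₀ = avg c h (u, v') z₀ := fun u hu v v' => by
    induction hm v v' with
    | refl => rfl
    | @tail x y _ hxy ih =>
      by_contra hc
      exact hu ⟨(u, x), ⟨(u, y), mem_map.2 ⟨y, hxy, rfl⟩, ih ▸ hc⟩, rfl⟩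
  obtain ⟨u, hu⟩ := h4.infinite_compl.nonempty
  obtain ⟨v, hv⟩ := h3.infinite_compl.nonempty
  have h7 : {z | h z ≠ avg c h (u, v) z₀}.Finite := by
    refine ((avg_fin c hh (u, v)).union (((h4.prod h3).biUnion fun a _ =>
      c.fin a (u, v)).image fun γ => γ • z₀)).subset fun z hz => ?_
    obtain ⟨γ, rfl⟩ := MulAction.exists_smul_eq Γ z₀ z
    by_contra hc
    simp only [Set.mem_union, not_or, Set.mem_ofPred_eq, not_not] at hc
    have h8 : avg c h (γ⁻¹ • (u, v)) z₀ = h (γ • z₀) := by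
      rw [avg_smul, inv_inv]
      linarith [hc.1]
    refine hc.2 ⟨γ, Set.mem_biUnion (x := γ⁻¹ • (u, v)) ⟨?_, ?_⟩ (by simp), rfl⟩
    · by_contra h9
      exact hz (h8.symm.trans ((h6 _ h9 _ v).trans (h5 v hv _ u)))
    · by_contra h9
      exact hz (h8.symm.trans ((h5 _ h9 _ u).trans (h6 u hu _ v)))
  obtain ⟨x, hx, hx'⟩ := (hA.sdiff h7).nonempty
  obtain ⟨y, hy, hy'⟩ := (hB.sdiff h7).nonempty
  have := hAB x hx y hy
  rw [not_not.1 hx', not_not.1 hy'] at this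
  simp at this

end Pool.Agent.Lib.MP_60cbcc_al.H8
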