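import Mathlib

/-!
An action by integrable powers of one transformation whose orbits have at most one end has
finite orbits.
-/

namespace Pool.Agent.Lib.MP_60cbcc_al.H8

open MeasureTheory Filter
open scoped Pointwise

variable {Γ X : Type} [Group Γ] [Countable Γ] [MulAction Γ X] [MeasurableSpace X]
  [StandardBorelSpace X] {μ : Measure X} [IsProbabilityMeasure μ]

theorem transversal (hμ : ∀ γ : Γ, MeasurePreserving (fun x : X => γ • x) μ μ) {M : Set X}
    (hM : MeasurableSet M) (h : ∀ x ∈ M, ∀ γ : Γ, γ • x ∈ M → γ • x = x) :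
    ∀ᵐ x ∂μ, x ∈ M → (MulAction.orbit Γ x).Finite := by
  obtain ⟨e, he⟩ := exists_surjective_nat Γ
  let B : ℕ → Set X := fun i => M ∩ ⋂ j < i, {x | e j • x = e i • x}ᶜ
  have hB : ∀ i, MeasurableSet (B i) := fun i => hM.inter (.iInter fun j => .iInter fun _ =>
    (measurableSet_eq_fun (hμ _).measurable (hμ _).measurable).compl)
  have h1 : ∑' i, μ ((fun x => (e i)⁻¹ • x) ⁻¹' B i) ≤ μ Set.univ :=
    tsum_measure_le_measure_univ (fun i => ((hμ _).measurable (hB i)).nullMeasurableSet)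
      ((pairwise_disjoint_on _).2 (fun i j hij => Set.disjoint_left.2 fun y hi hj => by
        have h2 := h _ hi.1 ((e j)⁻¹ * e i) (by simpa [mul_smul] using hj.1)
        have h3 := Set.mem_iInter₂.1 hj.2 i hij
        simp only [mul_smul, smul_inv_smul] at h2
        exact h3 (by simp [h2] ; rw [← h2, smul_inv_smul])) |>.aedisjoint)
  simp only [fun i => (hμ (e i)⁻¹).measure_preimage (hB i).nullMeasurableSet] at h1
  filter_upwards [ae_finite_setOfPred_mem (h1.trans_lt (measure_lt_top _ _)).ne] with x hx hxM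
  refine (hx.image fun i => e i • x).subset ?_
  rintro _ ⟨γ, rfl⟩
  classical
  have h2 : ∃ i, e i • x = γ • x := (he γ).imp fun i hi => by rw [hi]
  exact ⟨Nat.find h2, ⟨hxM, Set.mem_iInter₂.2 fun j hj h3 =>
    Nat.find_min h2 hj (h3.trans (Nat.find_spec h2))⟩, Nat.find_spec h2⟩

omit [StandardBorelSpace X] [IsProbabilityMeasure μ] in
theorem mp_zpow (T : X ≃ᵐ X) (hT : MeasurePreserving T μ μ) (k : ℤ) :
    MeasurePreserving (⇑(T.toEquiv ^ k)) μ μ := by
  induction k using Int.induction_on with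
  | zero => exact .id μ
  | succ k ih => rw [zpow_add_one]; exact ih.comp hT
  | pred k ih => rw [zpow_sub_one]; exact ih.comp hT.symm

theorem one_side (hμ : ∀ γ : Γ, MeasurePreserving (fun x : X => γ • x) μ μ)
    (T : X ≃ᵐ X) (hT : MeasurePreserving T μ μ) (c : Γ → X → ℤ)
    (hc : ∀ γ x, γ • x = (T.toEquiv ^ c γ x) x) (σ : ℤ) (hσ : σ = 1 ∨ σ = -1) :
    ∀ᵐ x ∂μ, {k : ℤ | 0 < σ * k ∧ (T.toEquiv ^ k) x ∈ MulAction.orbit Γ x}.Finite →
      (MulAction.orbit Γ x).Finite := by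
  have h := transversal hμ
    (M := ⋂ γ : Γ, ⋂ k : ℤ, ⋂ _ : 0 < σ * k, {x | γ • x = (T.toEquiv ^ k) x}ᶜ)
    (.iInter fun γ => .iInter fun k => .iInter fun _ =>
      (measurableSet_eq_fun (hμ _).measurable (mp_zpow T hT k).measurable).compl)
    fun x hx γ hy => by
      simp only [Set.mem_iInter, Set.mem_compl_iff, Set.mem_ofPred_eq] at hx hy
      rcases lt_trichotomy 0 (σ * c γ x) with h | h | h
      · exact (hx γ _ h (hc γ x)).elim
      · rw [hc, show c γ x = 0 by rcases hσ with rfl | rfl <;> omega, zpow_zero]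
        rfl
      · refine (hy γ⁻¹ (-c γ x) (by linarith) ?_).elim
        rw [inv_smul_smul, hc γ x, ← Equiv.Perm.mul_apply, ← zpow_add, neg_add_cancel, zpow_zero]
        rfl
  filter_upwards [ae_all_iff.2 fun γ : Γ => (hμ γ).quasiMeasurePreserving.ae h] with x hx hf
  obtain ⟨k, hk, hk'⟩ := Set.exists_max_image _ (fun k => σ * k) (hf.insert 0) ⟨0, .inl rfl⟩
  obtain ⟨γ, hγ⟩ : (T.toEquiv ^ k) x ∈ MulAction.orbit Γ x := by
    rcases hk with rfl | hk
    · exact MulAction.mem_orbit_self x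
    · exact hk.2
  rw [← MulAction.orbit_smul γ x]
  refine hx γ (Set.mem_iInter.2 fun δ => Set.mem_iInter₂.2 fun j hj h => ?_)
  have h0 := hk' 0 (.inl rfl)
  have := hk' (j + k) (.inr ⟨by linarith, δ * γ, by
    simp only at hγ ⊢
    rw [mul_smul, h, hγ, zpow_add, Equiv.Perm.mul_apply]⟩)
  linarith

theorem fin_orbits (hμ : ∀ γ : Γ, MeasurePreserving (fun x : X => γ • x) μ μ)
    (hend : ∀ᵐ x ∂μ, ∀ A ⊆ MulAction.orbit Γ x, (∀ γ : Γ, (γ • A \ A).Finite) →
      A.Finite ∨ (MulAction.orbit Γ x \ A).Finite)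
    (T : X ≃ᵐ X) (hT : MeasurePreserving T μ μ) (c : Γ → X → ℤ)
    (hc : ∀ γ x, γ • x = (T.toEquiv ^ c γ x) x) (hi : ∀ γ, Integrable (fun x => (c γ x : ℝ)) μ) :
    ∀ᵐ x ∂μ, (MulAction.orbit Γ x).Finite := by
  have h1 : ∀ γ, ∀ᵐ x ∂μ,
      {j : ℕ | (j : ℝ) < |(c γ ((T.toEquiv ^ (j + 1 : ℤ)) x) : ℝ)|}.Finite := fun γ => by
    let : MeasureSpace X := ⟨μ⟩
    have h := ProbabilityTheory.tsum_prob_mem_Ioi_lt_top (Ω := X) (hi γ).abs fun _ => abs_nonneg _
    refine ae_finite_setOfPred_mem (s := fun j : ℕ => (T.toEquiv ^ (j + 1 : ℤ)) ⁻¹'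
      {y | |(c γ y : ℝ)| ∈ Set.Ioi (j : ℝ)}) (ne_top_of_le_ne_top h.ne (le_of_eq ?_))
    exact tsum_congr fun j => (mp_zpow T hT _).measure_preimage
      ((hi γ).abs.aemeasurable.nullMeasurableSet_preimage measurableSet_Ioi)
  filter_upwards [hend, ae_all_iff.2 h1, one_side hμ T hT c hc 1 (.inl rfl),
    one_side hμ T hT c hc (-1) (.inr rfl)] with x hx h1 h2 h3
  by_cases hp : Function.Injective fun k : ℤ => (T.toEquiv ^ k) x
  · rcases hx (MulAction.orbit Γ x ∩ (fun k : ℤ => (T.toEquiv ^ k) x) '' Set.Ioi 0)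
      Set.inter_subset_left (fun γ => ((h1 γ).image fun j : ℕ =>
        γ • (T.toEquiv ^ (j + 1 : ℤ)) x).subset (by
          rintro _ ⟨⟨_, ⟨h4, k, hk, rfl⟩, rfl⟩, h5⟩
          obtain ⟨j, rfl⟩ : ∃ j : ℕ, k = j + 1 := ⟨(k - 1).toNat, by have : 0 < k := hk; omega⟩
          refine ⟨j, ?_, rfl⟩
          by_contra h6
          refine h5 ⟨MulAction.mem_orbit_of_mem_orbit γ h4,
            c γ ((T.toEquiv ^ (j + 1 : ℤ)) x) + (j + 1), ?_, ?_⟩
          · have h7 : |c γ ((T.toEquiv ^ (j + 1 : ℤ)) x)| ≤ j := by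
              rw [Set.mem_ofPred_eq, not_lt] at h6
              exact_mod_cast h6
            have := neg_abs_le (c γ ((T.toEquiv ^ (j + 1 : ℤ)) x))
            simp only [Set.mem_Ioi]
            omega
          · simp only
            rw [zpow_add, Equiv.Perm.mul_apply, ← hc])) with h | h
    · exact h2 ((h.preimage hp.injOn).subset fun k hk => ⟨hk.2, k, by simpa using hk.1, rfl⟩)
    · refine h3 ((h.preimage hp.injOn).subset fun k hk => ⟨hk.2, ?_⟩)
      rintro ⟨-, j, hj, h4⟩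
      have h5 : 0 < j := hj
      have := hp h4
      have := hk.1
      omega
  · obtain ⟨a, b, h4, hab⟩ := Function.not_injective_iff.1 hp
    have h5 : (T.toEquiv ^ (a - b)) x = x := by
      rw [sub_eq_neg_add, zpow_add, Equiv.Perm.mul_apply, h4, ← Equiv.Perm.mul_apply, ← zpow_add,
        neg_add_cancel, zpow_zero, Equiv.Perm.one_apply]
    refine ((Set.finite_Ico 0 |a - b|).image fun k : ℤ => (T.toEquiv ^ k) x).subset ?_
    rintro _ ⟨γ, rfl⟩
    refine ⟨c γ x % (a - b), ⟨Int.emod_nonneg _ (sub_ne_zero.2 hab),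
      Int.emod_lt_abs _ (sub_ne_zero.2 hab)⟩, ?_⟩
    simp only [hc]
    nth_rewrite 2 [← Int.emod_add_mul_ediv (c γ x) (a - b)]
    rw [zpow_add, Equiv.Perm.mul_apply, zpow_mul,
      Equiv.Perm.zpow_apply_eq_self_of_apply_eq_self h5]

end Pool.Agent.Lib.MP_60cbcc_al.H8
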