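import Pool.Agent.Lib.MP_60cbcc_al.H8Ends

/-!
From topological groups with a compact open subgroup to actions on locally finite graphs.
-/

namespace Pool.Agent.Lib.MP_60cbcc_al.H8

open Topology
open scoped Pointwise

section
variable {Γ G : Type} [Group Γ] [Group G] [TopologicalSpace G] [IsTopologicalGroup G]
  {K : Subgroup G}

theorem fin_image (ho : IsOpen (K : Set G)) {C : Set G} (hC : IsCompact C) :
    ((fun g : G => (g : G ⧸ K)) '' C).Finite :=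
  haveI := QuotientGroup.discreteTopology ho
  (hC.image QuotientGroup.continuous_mk).finite_of_discrete

theorem cpt_move (hc : IsCompact (K : Set G)) (a b : G ⧸ K) : IsCompact {g : G | g • a = b} := by
  obtain ⟨x, rfl⟩ := QuotientGroup.mk_surjective a
  obtain ⟨y, rfl⟩ := QuotientGroup.mk_surjective b
  convert hc.image (f := fun k => y * k⁻¹ * x⁻¹) (by fun_prop) using 1
  ext g
  simp only [Set.mem_ofPred_eq, MulAction.Quotient.smul_mk, smul_eq_mul, Set.mem_image,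
    SetLike.mem_coe, QuotientGroup.eq]
  exact ⟨fun h => ⟨_, h, by group⟩, by rintro ⟨k, hk, rfl⟩; simpa [mul_assoc] using hk⟩

variable [MulAction Γ (G ⧸ K)] {p : Γ →* G}

theorem exists_nb (hp : ∀ (γ : Γ) (u : G ⧸ K), γ • u = p γ • u) (ho : IsOpen (K : Set G))
    (hc : IsCompact (K : Set G)) {S : Set G} (hS : IsCompact S) (hg : Subgroup.closure S = ⊤) :
    ∃ n : Nb Γ (G ⧸ K), n.Conn := by
  have hf : ∀ a : G ⧸ K, {b : G ⧸ K | ∃ g : G, ∃ s ∈ S ∪ S⁻¹, a = g ∧ b = (g * s : G)}.Finite :=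
    fun a => by
      refine (fin_image ho ((cpt_move hc ((1 : G) : G ⧸ K) a).mul (hS.union hS.inv))).subset ?_
      rintro _ ⟨g, s, hs, rfl, rfl⟩
      exact ⟨g * s, Set.mul_mem_mul (by simp) hs, rfl⟩
  refine ⟨⟨fun a => (hf a).toFinset, fun a b h => ?_, fun γ a b h => ?_⟩, fun u u' => ?_⟩
  · obtain ⟨g, s, hs, rfl, rfl⟩ := (hf a).mem_toFinset.1 h
    exact (hf _).mem_toFinset.2 ⟨g * s, s⁻¹, by simpa [or_comm] using hs, rfl, by simp⟩
  · obtain ⟨g, s, hs, rfl, rfl⟩ := (hf a).mem_toFinset.1 h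
    exact (hf _).mem_toFinset.2 ⟨p γ * g, s, hs, hp _ _, by rw [hp, mul_assoc]; rfl⟩
  · obtain ⟨x, rfl⟩ := QuotientGroup.mk_surjective u
    obtain ⟨y, rfl⟩ := QuotientGroup.mk_surjective u'
    obtain ⟨g, rfl⟩ : ∃ g, y = x * g := ⟨x⁻¹ * y, by simp⟩
    induction (hg ▸ Subgroup.mem_top g : g ∈ Subgroup.closure S) using
      Subgroup.closure_induction_right with
    | one => rw [mul_one]
    | mul_right g _ s hs ih =>
      exact ih.tail ((hf _).mem_toFinset.2 ⟨x * g, s, .inl hs, rfl, by rw [mul_assoc]⟩)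
    | mul_inv_cancel g _ s hs ih =>
      exact ih.tail ((hf _).mem_toFinset.2 ⟨x * g, s⁻¹, .inr (by simpa using hs), rfl,
        by rw [mul_assoc]⟩)

theorem rig_of_dense (hp : ∀ (γ : Γ) (u : G ⧸ K), γ • u = p γ • u) (ho : IsOpen (K : Set G))
    (hχ : ∀ χ : G →* Multiplicative ℝ, Continuous χ → χ = 1) {P : Γ → Prop}
    (hd : Dense (p '' {γ | P γ})) : Rig (G ⧸ K) P := fun φ hφ => by
  have := QuotientGroup.discreteTopology ho
  have h1 : ∀ (g : G) u u', φ (g • u) - φ (g • u') = φ u - φ u' := fun g u u' => by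
    obtain ⟨_, ⟨γ, hγ, rfl⟩, h⟩ := hd.exists_mem_open
      (U := (fun x : G => (x • u, x • u')) ⁻¹' {(g • u, g • u')})
      ((isOpen_discrete _).preimage (by fun_prop)) ⟨g, rfl⟩
    obtain ⟨h1, h2⟩ := Prod.mk.inj h
    rw [← h1, ← h2, ← hp, ← hp, hφ γ hγ]
  have h2 := hχ (MonoidHom.mk' (fun g => Multiplicative.ofAdd (φ g - φ (1 : G))) fun g g' => by
      rw [← ofAdd_add, ← h1 g g' (1 : G)]
      simp)
    (continuous_ofAdd.comp ((continuous_of_discreteTopology (f := φ)).comp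
      QuotientGroup.continuous_mk |>.sub continuous_const))
  have h3 : ∀ g : G, φ g = φ (1 : G) := fun g =>
    sub_eq_zero.1 (ofAdd_eq_one.1 (DFunLike.congr_fun h2 g))
  intro u u'
  obtain ⟨x, rfl⟩ := QuotientGroup.mk_surjective u
  obtain ⟨y, rfl⟩ := QuotientGroup.mk_surjective u'
  rw [h3 x, h3 y]

end

variable {G H : Type} [Group G] [TopologicalSpace G] [IsTopologicalGroup G] [T2Space G]
  [Group H] [TopologicalSpace H] [IsTopologicalGroup H] [T2Space H]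

theorem fin_cpt (Γ : Subgroup (G × H)) [DiscreteTopology Γ] {C : Set (G × H)} (hC : IsCompact C) :
    {γ : Γ | γ.1 ∈ C}.Finite := by
  have := Γ.tendsto_coe_cofinite_of_discrete (isDiscrete_iff_discreteTopology.2 ‹_›)
    hC.compl_mem_cocompact
  exact (show (Subtype.val ⁻¹' C).Finite by simpa using this)

theorem setup (K : Subgroup G) (L : Subgroup H) (hKo : IsOpen (K : Set G))
    (hKc : IsCompact (K : Set G)) (hLo : IsOpen (L : Set H)) (hLc : IsCompact (L : Set H))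
    (hS : ∃ S : Set G, IsCompact S ∧ Subgroup.closure S = ⊤)
    (hT : ∃ T : Set H, IsCompact T ∧ Subgroup.closure T = ⊤)
    (hG : ∀ χ : G →* Multiplicative ℝ, Continuous χ → χ = 1)
    (hH : ∀ χ : H →* Multiplicative ℝ, Continuous χ → χ = 1)
    (Γ : Subgroup (G × H)) [DiscreteTopology Γ]
    (hΓ : ∃ C : Set (G × H), IsCompact C ∧ ∀ g, ∃ γ ∈ Γ, γ * g ∈ C) :
    ∃ (_ : MulAction Γ (G ⧸ K)) (_ : MulAction Γ (H ⧸ L)) (_ : Cof Γ ((G ⧸ K) × (H ⧸ L)))
      (n : Nb Γ (G ⧸ K)) (m : Nb Γ (H ⧸ L)), n.Conn ∧ m.Conn ∧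
      (∀ P : Γ → Prop, Dense ((fun γ : Γ => γ.1.1) '' {γ | P γ}) → Rig (G ⧸ K) P) ∧
      ∀ P : Γ → Prop, Dense ((fun γ : Γ => γ.1.2) '' {γ | P γ}) → Rig (H ⧸ L) P := by
  let p : Γ →* G := (MonoidHom.fst G H).comp Γ.subtype
  let q : Γ →* H := (MonoidHom.snd G H).comp Γ.subtype
  let := MulAction.compHom (G ⧸ K) p
  let := MulAction.compHom (H ⧸ L) q
  obtain ⟨S, hS, hS'⟩ := hS
  obtain ⟨T, hT, hT'⟩ := hT
  obtain ⟨C, hC, hC'⟩ := hΓ
  obtain ⟨n, hn⟩ := exists_nb (p := p) (fun _ _ => rfl) hKo hKc hS hS'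
  obtain ⟨m, hm⟩ := exists_nb (p := q) (fun _ _ => rfl) hLo hLc hT hT'
  have hQ := (fin_image hKo (hC.image continuous_fst)).prod (fin_image hLo (hC.image continuous_snd))
  have hf : ∀ a : (G ⧸ K) × (H ⧸ L), {γ : Γ | γ • a ∈ hQ.toFinset}.Finite := fun a => by
    refine (hQ.biUnion fun b _ =>
      fin_cpt Γ ((cpt_move hKc a.1 b.1).prod (cpt_move hLc a.2 b.2))).subset fun γ hγ => ?_
    exact Set.mem_biUnion (hQ.mem_toFinset.1 hγ) ⟨rfl, rfl⟩
  refine ⟨_, _, ⟨hQ.toFinset, fun a => (hf a).toFinset, fun a γ => (hf a).mem_toFinset,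
    fun a => ?_⟩, n, m, hn, hm, fun P => rig_of_dense (p := p) (fun _ _ => rfl) hKo hG,
    fun P => rig_of_dense (p := q) (fun _ _ => rfl) hLo hH⟩
  obtain ⟨u, hu⟩ := QuotientGroup.mk_surjective a.1
  obtain ⟨v, hv⟩ := QuotientGroup.mk_surjective a.2
  obtain ⟨γ, hγ, h⟩ := hC' (u, v)
  refine ⟨⟨γ, hγ⟩, (hf a).mem_toFinset.2 (hQ.mem_toFinset.2
    ⟨⟨_, ⟨_, h, rfl⟩, ?_⟩, ⟨_, ⟨_, h, rfl⟩, ?_⟩⟩)⟩
  · rw [Prod.smul_fst, ← hu]; rfl
  · rw [Prod.smul_snd, ← hv]; rfl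

theorem ends (K : Subgroup G) (L : Subgroup H) (hKo : IsOpen (K : Set G))
    (hKc : IsCompact (K : Set G)) (hLo : IsOpen (L : Set H)) (hLc : IsCompact (L : Set H))
    (hS : ∃ S : Set G, IsCompact S ∧ Subgroup.closure S = ⊤)
    (hT : ∃ T : Set H, IsCompact T ∧ Subgroup.closure T = ⊤)
    (hG : ∀ χ : G →* Multiplicative ℝ, Continuous χ → χ = 1)
    (hH : ∀ χ : H →* Multiplicative ℝ, Continuous χ → χ = 1)
    (Γ : Subgroup (G × H)) [DiscreteTopology Γ]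
    (hΓ : ∃ C : Set (G × H), IsCompact C ∧ ∀ g, ∃ γ ∈ Γ, γ * g ∈ C)
    {X : Type} [MulAction Γ X] (x : X)
    (hx : (Dense ((fun γ : Γ => γ.1.1) '' {γ | γ • x = x}) ∧
        Dense ((fun γ : Γ => γ.1.2) '' {γ | γ • x = x})) ∨
      (Infinite (G ⧸ K) ∧ Infinite (H ⧸ L) ∧ {γ : Γ | γ • x = x}.Finite))
    (A : Set X) (hA : A ⊆ MulAction.orbit Γ x) (hc : ∀ γ : Γ, (γ • A \ A).Finite) :
    A.Finite ∨ (MulAction.orbit Γ x \ A).Finite := by
  classical
  obtain ⟨_, _, c, n, m, hn, hm, hV, hW⟩ := setup K L hKo hKc hLo hLc hS hT hG hH Γ hΓ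
  by_contra hcon
  rw [not_or] at hcon
  have hh : ∀ γ : Γ, {z : MulAction.orbit Γ x |
      (if (γ • z).1 ∈ A then (1 : ℝ) else 0) ≠ if z.1 ∈ A then 1 else 0}.Finite := fun γ => by
    refine (((hc γ⁻¹).union ((hc γ).smul_set (a := γ⁻¹))).preimage
      Subtype.val_injective.injOn).subset fun z hz => ?_
    simp only [Set.mem_preimage, Set.mem_union, Set.mem_sdiff, Set.mem_inv_smul_set_iff,
      Set.smul_mem_smul_set_iff]
    simp only [Set.mem_ofPred_eq, MulAction.orbit.coe_smul] at hz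
    by_cases h1 : γ • z.1 ∈ A <;> by_cases h2 : z.1 ∈ A <;> simp_all
  have h1 : (Subtype.val ⁻¹' A : Set (MulAction.orbit Γ x)).Infinite :=
    Set.Infinite.preimage hcon.1 (by simpa using hA)
  have h2 : (Subtype.val ⁻¹' (MulAction.orbit Γ x \ A) : Set (MulAction.orbit Γ x)).Infinite :=
    Set.Infinite.preimage hcon.2 (by simp)
  have h3 : ∀ y ∈ (Subtype.val ⁻¹' A : Set (MulAction.orbit Γ x)),
      ∀ z ∈ (Subtype.val ⁻¹' (MulAction.orbit Γ x \ A) : Set (MulAction.orbit Γ x)),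
      ((if y.1 ∈ A then (1 : ℝ) else 0) - if z.1 ∈ A then 1 else 0) = 1 := fun y hy z hz => by
    rw [if_pos (show y.1 ∈ A from hy), if_neg hz.2, sub_zero]
  rcases hx with ⟨hp, hq⟩ | ⟨_, _, hx⟩
  · have key : ∀ {M : Type} [Group M] [TopologicalSpace M] [IsTopologicalGroup M] (r : Γ →* M),
        Dense (r '' {γ | γ • x = x}) → ∀ z : MulAction.orbit Γ x, Dense (r '' {γ | γ • z = z}) := by
      rintro M _ _ _ r hr ⟨_, δ, rfl⟩
      refine Dense.mono ?_ ((((Homeomorph.mulLeft (r δ)).trans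
        (Homeomorph.mulRight (r δ)⁻¹)).surjective.denseRange).dense_image
          (Homeomorph.continuous _) hr)
      rintro _ ⟨_, ⟨γ, hγ, rfl⟩, rfl⟩
      refine ⟨δ * γ * δ⁻¹, Subtype.ext ?_, by simp⟩
      simp [mul_smul, show γ • x = x from hγ]
    exact no_cut c hn hm ((1 : G), (1 : H))
      (fun z => hV _ (key ((MonoidHom.fst G H).comp Γ.subtype) hp z))
      (fun z => hW _ (key ((MonoidHom.snd G H).comp Γ.subtype) hq z)) hh h1 h2 h3
  · exact no_cut_fin c hn hm ⟨x, MulAction.mem_orbit_self x⟩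
      (hx.subset fun γ hγ => show γ • x = x from congrArg Subtype.val hγ) hh h1 h2 h3

end Pool.Agent.Lib.MP_60cbcc_al.H8
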