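import Pool.Agent.Lib.MP_60cbcc_al.H8SL
import Pool.Agent.Lib.MP_60cbcc_al.H8Top

/-!
`SL(2, k)` over a non-archimedean local field, and the dichotomy for stabilisers.
-/

namespace Pool.Agent.Lib.MP_60cbcc_al.H8

open Topology MeasureTheory Filter Matrix
open scoped MatrixGroups

section
variable (k : Type) [NontriviallyNormedField k] [IsUltrametricDist k]

/-- Matrices with integral entries. -/
def sli : Subgroup SL(2, k) where
  carrier := {g | ∀ i j, ‖g i j‖ ≤ 1}
  one_mem' i j := by fin_cases i <;> fin_cases j <;> simp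
  mul_mem' {g h} hg hh i j := by
    rw [show (g * h) i j = g i 0 * h 0 j + g i 1 * h 1 j by simp [mul_apply, Fin.sum_univ_two]]
    refine (IsUltrametricDist.norm_add_le_max _ _).trans (max_le ?_ ?_) <;>
      exact (norm_mul_le _ _).trans (mul_le_one₀ (hg _ _) (norm_nonneg _) (hh _ _))
  inv_mem' {g} hg i j := by
    fin_cases i <;> fin_cases j <;> simp [SpecialLinearGroup.SL2_inv_expl, hg _ _]

theorem mem_sli {g : SL(2, k)} : g ∈ sli k ↔ ∀ i j, ‖g i j‖ ≤ 1 := Iff.rfl

theorem sli_open : IsOpen (sli k : Set SL(2, k)) := by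
  have : (sli k : Set SL(2, k)) = ⋂ i, ⋂ j, (fun g => g i j) ⁻¹' Metric.closedBall 0 1 := by
    ext g
    simp [mem_sli]
  rw [this]
  exact isOpen_iInter_of_finite fun i => isOpen_iInter_of_finite fun j =>
    (IsUltrametricDist.isOpen_closedBall _ one_ne_zero).preimage (by fun_prop)

theorem sli_cpt [ProperSpace k] : IsCompact (sli k : Set SL(2, k)) := by
  have h : IsCompact (Set.univ.pi fun _ : Fin 2 => Set.univ.pi fun _ : Fin 2 =>
      Metric.closedBall (0 : k) 1) :=
    isCompact_univ_pi fun _ => isCompact_univ_pi fun _ => isCompact_closedBall _ _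
  have h' : IsCompact {M : Fin 2 → Fin 2 → k | ∀ i j, ‖M i j‖ ≤ 1} := by
    convert h using 1
    ext M
    simp [Set.mem_pi]
  exact SpecialLinearGroup.isClosedEmbedding_val.isCompact_preimage (Y := Matrix _ _ k) h'

theorem up_mem {s : k} (h : ‖s‖ ≤ 1) : up s ∈ sli k := fun i j => by
  fin_cases i <;> fin_cases j <;> simp [up, h]

theorem lo_mem {s : k} (h : ‖s‖ ≤ 1) : lo s ∈ sli k := fun i j => by
  fin_cases i <;> fin_cases j <;> simp [lo, h]

omit [IsUltrametricDist k] in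
theorem dg_pow (t : kˣ) (n : ℕ) : dg t ^ n = dg (t ^ n) := by
  induction n with
  | zero => ext i j; fin_cases i <;> fin_cases j <;> simp [dg]
  | succ n ih =>
    rw [pow_succ, ih]
    ext i j
    fin_cases i <;> fin_cases j <;> simp [dg, mul_apply, Fin.sum_univ_two, pow_succ, mul_comm]

theorem sl_cg [ProperSpace k] : ∃ S : Set SL(2, k), IsCompact S ∧ Subgroup.closure S = ⊤ := by
  obtain ⟨r, hr⟩ := exists_small (k := k)
  refine ⟨insert (dg r) (sli k), (sli_cpt k).insert _, ?_⟩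
  set L := Subgroup.closure (insert (dg r) (sli k : Set SL(2, k)))
  have h1 : ∀ n : ℕ, dg (r ^ n) ∈ L := fun n =>
    dg_pow k r n ▸ L.pow_mem (Subgroup.subset_closure (Set.mem_insert _ _)) n
  have h2 : ∀ s : k, ∃ n : ℕ, ‖((r ^ n : kˣ) : k) ^ 2 * s‖ ≤ 1 := fun s => by
    have : Tendsto (fun n : ℕ => ‖((r ^ n : kˣ) : k) ^ 2 * s‖) atTop (𝓝 0) := by
      simpa using (((tendsto_pow_atTop_nhds_zero_of_norm_lt_one hr).pow 2).mul_const s).norm
    exact (this.eventually (ge_mem_nhds one_pos)).exists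
  refine gen L (fun s => ?_) fun s => ?_ <;> obtain ⟨n, hn⟩ := h2 s
  · have : up _ ∈ L := Subgroup.subset_closure (Set.mem_insert_of_mem _ (up_mem k hn))
    rwa [← dg_up, L.mul_mem_cancel_right (L.inv_mem (h1 n)), L.mul_mem_cancel_left (h1 n)] at this
  · have : lo _ ∈ L := Subgroup.subset_closure (Set.mem_insert_of_mem _ (lo_mem k hn))
    rwa [← dg_lo, ← dg_inv, inv_inv, L.mul_mem_cancel_right (h1 n),
      L.mul_mem_cancel_left (L.inv_mem (h1 n))] at this

omit [IsUltrametricDist k] in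
theorem sl_nohom (χ : SL(2, k) →* Multiplicative ℝ) : χ = 1 := by
  obtain ⟨r, hr⟩ := exists_small (k := k)
  have h : (r : k) ^ 2 ≠ 1 := fun h => by
    have := congrArg norm h
    rw [norm_pow, norm_one] at this
    nlinarith [norm_nonneg (r : k)]
  exact MonoidHom.ker_eq_top_iff.1 (gen' _ h (fun s => by simp [mul_comm (χ (up s))])
    fun s => by simp [mul_comm (χ (lo s))])

theorem sli_inf : (sli k : Set SL(2, k)).Infinite := by
  obtain ⟨r, hr⟩ := exists_small (k := k)
  refine Set.infinite_of_injective_forall_mem (f := fun n : ℕ => up ((r : k) ^ n))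
    (fun m n h => ?_) fun n => up_mem k (by rw [norm_pow]; exact pow_le_one₀ (norm_nonneg _) hr.le)
  have := congrArg (fun g : SL(2, k) => ‖g 0 1‖) h
  simp only [up, of_apply, cons_val', cons_val_one, cons_val_fin_one, cons_val_zero, norm_pow]
    at this
  exact pow_right_injective₀ (norm_pos_iff.2 r.ne_zero) hr.ne this

theorem quot_inf : Infinite (SL(2, k) ⧸ sli k) := by
  obtain ⟨r, hr⟩ := exists_small (k := k)
  refine Subgroup.index_eq_zero_iff_infinite.1 (not_not.1 fun h => ?_)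
  obtain ⟨n, hn, -, h⟩ := Subgroup.exists_pow_mem_of_index_ne_zero h (dg r⁻¹)
  have h1 := (mem_sli k).1 (dg_pow k r⁻¹ n ▸ h) 0 0
  have h2 := pow_lt_one₀ (norm_nonneg _) hr hn.ne'
  have h3 := pow_pos (norm_pos_iff.2 r.ne_zero) n
  simp [dg, inv_le_one₀ h3] at h1
  linarith

theorem scal_mem {g : SL(2, k)} (h : g 0 1 = 0 ∧ g 1 0 = 0 ∧ g 0 0 = g 1 1) : g ∈ sli k := by
  have hd := g.det_coe
  rw [det_fin_two, h.1, h.2.2, zero_mul, sub_zero] at hd
  have h1 : ‖g 1 1‖ ≤ 1 := by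
    have := congrArg norm hd
    rw [norm_mul, norm_one] at this
    nlinarith [norm_nonneg (g 1 1)]
  intro i j
  fin_cases i <;> fin_cases j <;> simp [h, h1]

omit [IsUltrametricDist k] in
theorem scal_comm {g : SL(2, k)} (h : g 0 1 = 0 ∧ g 1 0 = 0 ∧ g 0 0 = g 1 1) (x : SL(2, k)) :
    x * g = g * x := by
  ext i j; fin_cases i <;> fin_cases j <;> simp [mul_apply, Fin.sum_univ_two, h, mul_comm]

theorem not_dense {s : Set SL(2, k)} (hs : (sli k ∩ s : Set SL(2, k)).Finite) : ¬Dense s :=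
  fun h => sli_inf k (hs.subset (hs.isClosed.closure_eq ▸ h.open_subset_closure_inter (sli_open k)))

omit [IsUltrametricDist k] in
theorem sl_sc [ProperSpace k] : SecondCountableTopology SL(2, k) :=
  haveI : SecondCountableTopology (Matrix (Fin 2) (Fin 2) k) :=
    inferInstanceAs (SecondCountableTopology (Fin 2 → Fin 2 → k))
  SpecialLinearGroup.isClosedEmbedding_val.isEmbedding.secondCountableTopology

end

variable {k l : Type} [NontriviallyNormedField k] [IsUltrametricDist k] [ProperSpace k]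
  [NontriviallyNormedField l] [IsUltrametricDist l] [ProperSpace l]

omit [IsUltrametricDist k] [IsUltrametricDist l] in
theorem lat_count (Γ : Subgroup (SL(2, k) × SL(2, l))) [DiscreteTopology Γ] : Countable Γ :=
  haveI := sl_sc k
  haveI := sl_sc l
  TopologicalSpace.separableSpace_iff_countable.1 inferInstance

theorem dich (Γ : Subgroup (SL(2, k) × SL(2, l))) [DiscreteTopology Γ]
    (h1 : DenseRange fun γ : Γ => γ.1.1) (h2 : DenseRange fun γ : Γ => γ.1.2)
    {X : Type} [MeasurableSpace X] [StandardBorelSpace X] {μ : Measure X} [IsFiniteMeasure μ]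
    [MulAction Γ X] (hμ : ∀ γ : Γ, MeasurePreserving (fun x : X => γ • x) μ μ) :
    ∀ᵐ x ∂μ, (Dense ((fun γ : Γ => γ.1.1) '' {γ | γ • x = x}) ∧
        Dense ((fun γ : Γ => γ.1.2) '' {γ | γ • x = x})) ∨
      ({γ : Γ | γ • x = x}.Finite ∧ ∀ γ : Γ, γ • x = x → γ ∈ Subgroup.center Γ) := by
  have := lat_count Γ
  have := sl_fc (k := k)
  have := sl_fc (k := l)
  have hF : ∀ γ : Γ, MeasurableSet {x : X | γ • x = x} := fun γ =>
    measurableSet_eq_fun (hμ γ).measurable measurable_id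
  have hf := fin_cpt Γ ((sli_cpt k).prod (sli_cpt l))
  filter_upwards [dense_ae (p := (MonoidHom.fst _ _).comp Γ.subtype) hF hμ h1,
    dense_ae (p := (MonoidHom.snd _ _).comp Γ.subtype) hF hμ h2] with x hx hy
  rcases hx with hx | hx <;> rcases hy with hy | hy
  · exact .inl ⟨hx, hy⟩
  · refine (not_dense k ((hf.image fun γ => γ.1.1).subset ?_) hx).elim
    rintro _ ⟨h, γ, hγ, rfl⟩
    exact ⟨γ, ⟨h, scal_mem l (hy γ hγ)⟩, rfl⟩
  · refine (not_dense l ((hf.image fun γ => γ.1.2).subset ?_) hy).elim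
    rintro _ ⟨h, γ, hγ, rfl⟩
    exact ⟨γ, ⟨scal_mem k (hx γ hγ), h⟩, rfl⟩
  · exact .inr ⟨hf.subset fun γ hγ => ⟨scal_mem k (hx γ hγ), scal_mem l (hy γ hγ)⟩,
      fun γ hγ => Subgroup.mem_center_iff.2 fun δ => Subtype.ext
        (Prod.ext (scal_comm k (hx γ hγ) _) (scal_comm l (hy γ hγ) _))⟩

open scoped Pointwise in
theorem ends_ae (Γ : Subgroup (SL(2, k) × SL(2, l))) [DiscreteTopology Γ]
    (hΓ : ∃ C : Set (SL(2, k) × SL(2, l)), IsCompact C ∧ ∀ g, ∃ γ ∈ Γ, γ * g ∈ C)
    (h1 : DenseRange fun γ : Γ => γ.1.1) (h2 : DenseRange fun γ : Γ => γ.1.2)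
    {X : Type} [MeasurableSpace X] [StandardBorelSpace X] {μ : Measure X} [IsFiniteMeasure μ]
    [MulAction Γ X] (hμ : ∀ γ : Γ, MeasurePreserving (fun x : X => γ • x) μ μ) :
    ∀ᵐ x ∂μ, ∀ A ⊆ MulAction.orbit Γ x, (∀ γ : Γ, (γ • A \ A).Finite) →
      A.Finite ∨ (MulAction.orbit Γ x \ A).Finite := by
  filter_upwards [dich Γ h1 h2 hμ] with x hx A hA hc
  exact ends (sli k) (sli l) (sli_open k) (sli_cpt k) (sli_open l) (sli_cpt l) (sl_cg k) (sl_cg l)
    (fun χ _ => sl_nohom k χ) (fun χ _ => sl_nohom l χ) Γ hΓ x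
    (hx.imp_right fun h => ⟨quot_inf k, quot_inf l, h.1⟩) A hA hc

end Pool.Agent.Lib.MP_60cbcc_al.H8
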