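import Mathlib

/-!
The sets of points whose stabiliser has a given element in the closure of its projection, and a
Mautner phenomenon for them.
-/

namespace Pool.Agent.Lib.MP_60cbcc_al.H8

open Topology MeasureTheory Filter

variable {Γ G X : Type} [Group Γ] [Group G] [TopologicalSpace G] [IsTopologicalGroup G]
  [MulAction Γ X] (p : Γ →* G)

/-- The closure of the projection of the stabiliser. -/
def cl (x : X) : Subgroup G := ((MulAction.stabilizer Γ x).map p).topologicalClosure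

/-- Points whose closed projected stabiliser contains `g`. -/
def dd (X : Type) [MulAction Γ X] (g : G) : Set X := {x | g ∈ cl p x}

/-- Points whose projected stabiliser meets `O`. -/
def ee (X : Type) [MulAction Γ X] (O : Set G) : Set X := {x | ∃ γ : Γ, γ • x = x ∧ p γ ∈ O}

variable {p}

theorem dd_sub {O : Set G} (hO : IsOpen O) {g : G} (hg : g ∈ O) : dd p X g ⊆ ee p X O := by
  intro x hx
  obtain ⟨_, h, γ, hγ, rfl⟩ := mem_closure_iff.1 hx O hO hg
  exact ⟨γ, hγ, h⟩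

theorem dd_smul (δ : Γ) {g : G} {x : X} (hx : x ∈ dd p X g) :
    δ • x ∈ dd p X (p δ * g * (p δ)⁻¹) := by
  refine map_mem_closure (f := fun y => p δ * y * (p δ)⁻¹) (by fun_prop) hx ?_
  rintro _ ⟨γ, hγ, rfl⟩
  exact ⟨δ * γ * δ⁻¹, by simp [mul_smul, show γ • x = x from hγ], by simp⟩

theorem dd_basis [FirstCountableTopology G] (g : G) : ∃ U : ℕ → Set G,
    (∀ n, IsOpen (U n) ∧ g ∈ U n) ∧ Antitone (fun n => ee p X (U n)) ∧
      dd p X g = ⋂ n, ee p X (U n) := by
  obtain ⟨U, hU, hb⟩ := (nhds_basis_opens g).exists_antitone_subbasis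
  refine ⟨U, fun n => (hU n).symm, fun m n h x ⟨γ, h1, h2⟩ => ⟨γ, h1, hb.antitone h h2⟩,
    (Set.subset_iInter fun n => dd_sub (hU n).2 (hU n).1).antisymm fun x hx => ?_⟩
  refine (mem_closure_iff_nhds_basis hb.1).2 fun n _ => ?_
  obtain ⟨γ, h1, h2⟩ := Set.mem_iInter.1 hx n
  exact ⟨_, ⟨γ, h1, rfl⟩, h2⟩

variable [FirstCountableTopology G] [Countable Γ] [MeasurableSpace X] {μ : Measure X}
  [IsFiniteMeasure μ]

omit [TopologicalSpace G] [IsTopologicalGroup G] [FirstCountableTopology G] in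
theorem ee_meas (hF : ∀ γ : Γ, MeasurableSet {x : X | γ • x = x}) (O : Set G) :
    MeasurableSet (ee p X O) := by
  rw [ee, Set.ofPred_exists]
  exact .iUnion fun γ => (hF γ).inter (.const _)

theorem dd_meas (hF : ∀ γ : Γ, MeasurableSet {x : X | γ • x = x}) (g : G) :
    MeasurableSet (dd p X g) := by
  obtain ⟨U, -, -, h⟩ := dd_basis (p := p) (X := X) g
  exact h ▸ .iInter fun n => ee_meas hF _

theorem conj_le (hF : ∀ γ : Γ, MeasurableSet {x : X | γ • x = x})
    (hμ : ∀ γ : Γ, MeasurePreserving (fun x : X => γ • x) μ μ) (hp : DenseRange p) (h g g' : G) :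
    μ (dd p X g ∩ dd p X g') ≤ μ (dd p X (h * g * h⁻¹) ∩ dd p X (h * g' * h⁻¹)) := by
  obtain ⟨U, hU, hU', h1⟩ := dd_basis (p := p) (X := X) (h * g * h⁻¹)
  obtain ⟨V, hV, hV', h2⟩ := dd_basis (p := p) (X := X) (h * g' * h⁻¹)
  rw [h1, h2, ← Set.iInter_inter_distrib, Antitone.measure_iInter
    (fun m n h => Set.inter_subset_inter (hU' h) (hV' h))
    (fun n => ((ee_meas hF _).inter (ee_meas hF _)).nullMeasurableSet) ⟨0, measure_ne_top _ _⟩]
  refine le_iInf fun n => ?_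
  obtain ⟨δ, h3, h4⟩ := hp.exists_mem_open
    (s := (fun y => y * g * y⁻¹) ⁻¹' U n ∩ (fun y => y * g' * y⁻¹) ⁻¹' V n)
    (((hU n).1.preimage (by fun_prop)).inter ((hV n).1.preimage (by fun_prop)))
    ⟨h, (hU n).2, (hV n).2⟩
  rw [← (hμ δ).measure_preimage ((ee_meas hF _).inter (ee_meas hF _)).nullMeasurableSet]
  exact measure_mono fun x hx =>
    ⟨dd_sub (hU n).1 h3 (dd_smul δ hx.1), dd_sub (hV n).1 h4 (dd_smul δ hx.2)⟩

theorem near (hF : ∀ γ : Γ, MeasurableSet {x : X | γ • x = x})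
    (hμ : ∀ γ : Γ, MeasurePreserving (fun x : X => γ • x) μ μ) (hp : DenseRange p) (a : G)
    {ε : ℝ} (hε : 0 < ε) :
    ∀ᶠ h in 𝓝 (1 : G), μ.real (dd p X a) - ε ≤ μ.real (dd p X a ∩ dd p X (h * a * h⁻¹)) := by
  obtain ⟨U, hU, hU', h1⟩ := dd_basis (p := p) (X := X) a
  have h2 := (ENNReal.tendsto_toReal (measure_ne_top _ _)).comp (tendsto_measure_iInter_atTop
    (μ := μ) (fun n => (ee_meas (p := p) hF (U n)).nullMeasurableSet) hU' ⟨0, measure_ne_top _ _⟩)
  rw [← h1] at h2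
  obtain ⟨n, hn⟩ := (h2.eventually (gt_mem_nhds (lt_add_of_pos_right _ hε))).exists
  have h3 : (fun h => h * a * h⁻¹) ⁻¹' U n ∈ 𝓝 (1 : G) :=
    ((hU n).1.preimage (by fun_prop)).mem_nhds (by simpa using (hU n).2)
  filter_upwards [h3] with h hh
  have h4 := measureReal_union_add_inter (μ := μ) (s := dd p X a)
    (dd_meas (p := p) hF (h * a * h⁻¹))
  have h5 : μ.real (dd p X a ∪ dd p X (h * a * h⁻¹)) ≤ μ.real (ee p X (U n)) :=
    measureReal_mono (Set.union_subset (dd_sub (hU n).1 (hU n).2) (dd_sub (hU n).1 hh))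
  have h6 : μ.real (dd p X a) ≤ μ.real (dd p X (h * a * h⁻¹)) :=
    ENNReal.toReal_mono (measure_ne_top _ _) (by simpa using conj_le hF hμ hp h a a)
  change μ.real _ < μ.real _ + ε at hn
  linarith

/-- The elements `g` such that almost every point of `dd a` lies in `dd g`. -/
def zz (p : Γ →* G) (μ : Measure X) (a : G) : Subgroup G where
  carrier := {g | ∀ᵐ x ∂μ, x ∈ dd p X a → x ∈ dd p X g}
  one_mem' := by
    rw [Set.mem_ofPred_eq]
    exact .of_forall fun x _ => (cl p x).one_mem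
  mul_mem' h h' := by
    rw [Set.mem_ofPred_eq] at *
    filter_upwards [h, h'] with x h h' hx using (cl p x).mul_mem (h hx) (h' hx)
  inv_mem' h := by
    rw [Set.mem_ofPred_eq] at *
    filter_upwards [h] with x h hx using (cl p x).inv_mem (h hx)

omit [FirstCountableTopology G] [Countable Γ] [IsFiniteMeasure μ] in
theorem mem_zz {a g : G} : g ∈ zz p μ a ↔ ∀ᵐ x ∂μ, x ∈ dd p X a → x ∈ dd p X g := Iff.rfl

theorem mautner (hF : ∀ γ : Γ, MeasurableSet {x : X | γ • x = x})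
    (hμ : ∀ γ : Γ, MeasurePreserving (fun x : X => γ • x) μ μ) (hp : DenseRange p) {a u : G}
    {c : ℕ → G} (hc : ∀ n, c n * a = a * c n)
    (hu : Tendsto (fun n => c n * u * (c n)⁻¹) atTop (𝓝 1)) : u * a * u⁻¹ * a⁻¹ ∈ zz p μ a := by
  refine (zz p μ a).mul_mem (mem_zz.2 ?_) ((zz p μ a).inv_mem (mem_zz.2 (.of_forall fun _ h => h)))
  have h1 : μ.real (dd p X a) ≤ μ.real (dd p X a ∩ dd p X (u * a * u⁻¹)) :=
    le_of_forall_sub_le fun ε hε => by
      obtain ⟨n, hn⟩ := (hu.eventually (near hF hμ hp a hε)).exists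
      refine hn.trans (ENNReal.toReal_mono (measure_ne_top _ _) ?_)
      convert conj_le hF hμ hp (c n)⁻¹ _ _ using 4
      · rw [mul_assoc, inv_inv, ← hc, inv_mul_cancel_left]
      · calc u * a * u⁻¹ = u * ((c n)⁻¹ * (c n * a)) * u⁻¹ := by group
          _ = _ := by rw [hc]; group
  have h2 := measureReal_inter_add_sdiff (μ := μ) (s := dd p X a)
    (dd_meas (p := p) hF (u * a * u⁻¹))
  have h3 : μ.real (dd p X a \ dd p X (u * a * u⁻¹)) = 0 := by
    linarith [measureReal_nonneg (μ := μ) (s := dd p X a \ dd p X (u * a * u⁻¹))]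
  rw [measureReal_eq_zero_iff] at h3
  filter_upwards [measure_eq_zero_iff_ae_notMem.1 h3] with x hx h
  exact not_not.1 fun h' => hx ⟨h, h'⟩

omit [FirstCountableTopology G] [IsFiniteMeasure μ] in
theorem zz_top {a : G} (h : zz p μ a = ⊤) :
    ∀ᵐ x ∂μ, x ∈ dd p X a → ∀ γ, x ∈ dd p X (p γ) := by
  filter_upwards [ae_all_iff.2 fun γ => mem_zz.1 (show p γ ∈ zz p μ a from h ▸ Subgroup.mem_top _)]
    with x hx h γ using hx γ h

omit [FirstCountableTopology G] [Countable Γ] [MeasurableSpace X] in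
theorem dense_of_dd (hp : DenseRange p) {x : X} (h : ∀ γ, x ∈ dd p X (p γ)) :
    Dense (p '' {γ | γ • x = x}) := fun g =>
  closure_minimal (Set.range_subset_iff.2 h) isClosed_closure (hp g)

end Pool.Agent.Lib.MP_60cbcc_al.H8
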