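import Pool.Agent.Lib.MP_60cbcc_al.H8Boch

/-!
Pointwise control of differences by the norm of the Laplacian, and bounded approximate
solutions of the Poisson equation.
-/

namespace Pool.Agent.Lib.MP_60cbcc_al.H8

open Finset
open scoped RealInnerProductSpace

/-- Every real function on `V` whose differences are invariant under the elements with
property `P` is constant. -/
def Rig {Γ : Type} [Group Γ] (V : Type) [MulAction Γ V] (P : Γ → Prop) : Prop :=
  ∀ φ : V → ℝ, (∀ γ, P γ → ∀ u u', φ (γ • u) - φ (γ • u') = φ u - φ u') → ∀ u u', φ u = φ u'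

/-- The graph is connected. -/
def Nb.Conn {Γ V : Type} [Group Γ] [MulAction Γ V] (n : Nb Γ V) : Prop :=
  ∀ u u', Relation.ReflTransGen (fun a b => b ∈ n.N a) u u'

section
variable {Γ V W : Type} [Group Γ] [MulAction Γ V] [MulAction Γ W]

theorem Rig.mod {P : Γ → Prop} (h : Rig V P) {M : Type} [AddCommGroup M] [Module ℝ M]
    (φ : V → M) (hφ : ∀ γ, P γ → ∀ u u', φ (γ • u) - φ (γ • u') = φ u - φ u') (u u' : V) :
    φ u = φ u' := by
  rw [← sub_eq_zero, ← Module.forall_dual_apply_eq_zero_iff ℝ]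
  intro l
  rw [map_sub, sub_eq_zero]
  exact h (fun u => l (φ u)) (fun γ hγ u u' => by rw [← map_sub, hφ γ hγ, map_sub]) u u'

theorem box_zero {M : Type} [AddCommGroup M] {n : Nb Γ V} {m : Nb Γ W} (hn : n.Conn)
    (hm : m.Conn) {D : V × W → M}
    (h : ∀ u u' v v', u' ∈ n.N u → v' ∈ m.N v → box D u u' v v' = 0) (u u' : V) (v v' : W) :
    box D u u' v v' = 0 := by
  have h1 : ∀ a b, b ∈ n.N a → box D a b v v' = 0 := fun a b hab => by
    induction hm v v' with
    | refl => simp [box]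
    | @tail x y _ hxy ih =>
      rw [show box D a b v y = box D a b v x + box D a b x y by simp only [box]; abel, ih,
        h _ _ _ _ hab hxy, add_zero]
  induction hn u u' with
  | refl => simp [box]
  | @tail a b _ hab ih =>
    rw [show box D u b v v' = box D u a v v' + box D a b v v' by simp only [box]; abel, ih,
      h1 _ _ hab, add_zero]

theorem alg {M : Type} [AddCommGroup M] [Module ℝ M] {P : Γ → Prop} (hV : Rig V P)
    (hW : Rig W P) {D : V × W → M}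
    (hD : ∀ γ, P γ → ∀ a b, D (γ • a) - D (γ • b) = D a - D b)
    (hb : ∀ u u' v v', box D u u' v v' = 0) (a b : V × W) : D a = D b := by
  have h1 : D (a.1, a.2) = D (b.1, a.2) := hV.mod (fun u => D (u, a.2)) (fun γ hγ u u' => by
    rw [← hD γ hγ (u, a.2)]
    exact sub_eq_zero.1 (hb _ _ _ _)) _ _
  have h2 : D (b.1, a.2) = D (b.1, b.2) := hW.mod (fun v => D (b.1, v)) (fun γ hγ v v' => by
    rw [← hD γ hγ (b.1, v), ← sub_eq_zero, ← hb b.1 (γ • b.1) (γ • v) (γ • v'), box]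
    simp only [Prod.smul_mk]
    abel) _ _
  exact h1.trans h2

variable {E : Type} [NormedAddCommGroup E] [InnerProductSpace ℝ E] {π : Γ → E →ₗᵢ[ℝ] E}

/-- Functions bounded by a multiple of `N`. -/
def bdd {S : Type} (N : S → ℝ) : Submodule ℝ (S → ℝ) where
  carrier := {l | ∃ C, ∀ f, |l f| ≤ C * N f}
  zero_mem' := ⟨0, by simp⟩
  add_mem' := by
    rintro l l' ⟨C, h⟩ ⟨C', h'⟩
    exact ⟨C + C', fun f => (abs_add_le _ _).trans (by linarith [h f, h' f])⟩
  smul_mem' := by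
    rintro t l ⟨C, h⟩
    refine ⟨|t| * C, fun f => ?_⟩
    rw [Pi.smul_apply, smul_eq_mul, abs_mul, mul_assoc]
    exact mul_le_mul_of_nonneg_left (h f) (abs_nonneg _)

/-- The norm of the Laplacian. -/
noncomputable def nl (c : Cof Γ (V × W)) (n : Nb Γ V) (m : Nb Γ W) (f : V × W → E) : ℝ :=
  √(c.I fun a => ‖lap2 n m f a‖ ^ 2)

theorem pt (c : Cof Γ (V × W)) {n : Nb Γ V} {m : Nb Γ W} (hn : n.Conn) (hm : m.Conn)
    {P : Γ → Prop} (hV : Rig V P) (hW : Rig W P) (ev : E →L[ℝ] ℝ)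
    (hev : ∀ γ, P γ → ∀ x, ev (π γ x) = ev x) (a b : V × W) :
    (fun f : {f : V × W → E // Deq π f} => ev (f.1 a - f.1 b)) ∈
      bdd fun f : {f : V × W → E // Deq π f} => nl c n m f.1 := by
  have h := alg hV hW (D := fun a => (bdd fun f : {f : V × W → E // Deq π f} => nl c n m f.1).mkQ
    fun f => ev (f.1 a)) (fun γ hγ a b => by
      rw [← map_sub, ← map_sub]
      congr 1
      ext f
      simp only [Pi.sub_apply, ← map_sub, f.2 γ, hev γ hγ])
    (box_zero hn hm fun u u' v v' hu hv => by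
      rw [box, ← map_sub, ← map_sub, ← map_sub, Submodule.mkQ_apply, Submodule.Quotient.mk_eq_zero]
      refine ⟨‖ev‖ * √(2 / c.wt (u, v)), fun f => ?_⟩
      simp only [Pi.sub_apply, ← map_sub]
      refine (ev.le_opNorm _).trans ?_
      rw [mul_assoc, nl, ← Real.sqrt_mul (by have := c.wt_pos (u, v); positivity)]
      refine mul_le_mul_of_nonneg_left (Real.le_sqrt_of_sq_le ?_) (norm_nonneg _)
      rw [div_mul_eq_mul_div, le_div_iff₀' (c.wt_pos _)]
      exact box_le c n m f.2 hu hv) a b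
  rw [← sub_eq_zero, ← map_sub, Submodule.mkQ_apply, Submodule.Quotient.mk_eq_zero] at h
  convert h using 1
  ext f
  simp

end

theorem iter {A : Type} [SeminormedAddCommGroup A] [InnerProductSpace ℝ A] (L : A →ₗ[ℝ] A)
    (hs : ∀ x y, ⟪L x, y⟫ = ⟪x, L y⟫) (h0 : ∀ x, 0 ≤ ⟪L x, x⟫) {d : ℝ} (hd0 : 0 ≤ d)
    (hd : ∀ x, ‖L x‖ ^ 2 ≤ d * ⟪L x, x⟫) (σ : A) {C : ℝ} (hC0 : 0 ≤ C)
    (hC : ∀ x, |⟪σ, x⟫| ≤ C * ‖L x‖) :
    ∃ B : ℝ, ∀ ε > 0, ∃ g, ‖g‖ ≤ B ∧ ‖σ - L g‖ ≤ ε := by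
  obtain ⟨t, ht, htd⟩ : ∃ t : ℝ, 0 < t ∧ t * d ≤ 1 :=
    ⟨(d + 1)⁻¹, by positivity, by rw [inv_mul_le_iff₀ (by positivity)]; linarith⟩
  set P : Module.End ℝ A := 1 - t • L with hP
  have hPx : ∀ x, P x = x - t • L x := fun x => rfl
  have hP1 : ∀ x, ‖P x‖ ≤ ‖x‖ := fun x => by
    refine (sq_le_sq₀ (norm_nonneg _) (norm_nonneg _)).1 ?_
    rw [hPx, norm_sub_sq_real, inner_smul_right, norm_smul, mul_pow, Real.norm_eq_abs, sq_abs,
      real_inner_comm]
    have h1 := mul_le_mul_of_nonneg_left (hd x) (sq_nonneg t)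
    have h2 := mul_le_mul_of_nonneg_right htd (mul_nonneg ht.le (h0 x))
    nlinarith [mul_nonneg ht.le (h0 x)]
  have hPk : ∀ k x, ‖(P ^ k) x‖ ≤ ‖x‖ := fun k => by
    induction k with
    | zero => simp
    | succ k ih => exact fun x => by rw [pow_succ, Module.End.mul_apply]; exact (ih _).trans (hP1 x)
  have hPs : ∀ k x y, ⟪(P ^ k) x, y⟫ = ⟪x, (P ^ k) y⟫ := fun k => by
    induction k with
    | zero => simp
    | succ k ih =>
      intro x y
      rw [pow_succ, Module.End.mul_apply, ih, ← pow_succ, pow_succ', Module.End.mul_apply, hPx, hPx,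
        inner_sub_left, inner_sub_right, real_inner_smul_left, real_inner_smul_right, hs]
  have hR : ∀ k x, t • L ((∑ j ∈ range k, P ^ j) x) = x - (P ^ k) x := fun k x => by
    have := congrArg (fun T : Module.End ℝ A => T x) (mul_neg_geom_sum P k)
    simpa [hP] using this
  have hB : ∀ k, t * ‖(∑ j ∈ range k, P ^ j) σ‖ ≤ 2 * C := fun k => by
    set r := (∑ j ∈ range k, P ^ j) σ with hr
    have h1 : ⟪σ, (∑ j ∈ range k, P ^ j) r⟫ = ‖r‖ ^ 2 := by
      rw [← real_inner_self_eq_norm_sq]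
      nth_rewrite 2 [hr]
      simp only [LinearMap.sum_apply, inner_sum, sum_inner, hPs]
    have h2 := hC ((∑ j ∈ range k, P ^ j) r)
    have h3 : t * ‖L ((∑ j ∈ range k, P ^ j) r)‖ ≤ 2 * ‖r‖ := by
      rw [← Real.norm_of_nonneg ht.le, ← norm_smul, hR]
      exact (norm_sub_le _ _).trans (by linarith [hPk k r])
    rw [h1, abs_of_nonneg (sq_nonneg _)] at h2
    rcases (norm_nonneg r).eq_or_lt with h | h
    · rw [← h]; linarith
    · refine le_of_mul_le_mul_right ?_ h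
      nlinarith [mul_le_mul_of_nonneg_left h2 ht.le, mul_le_mul_of_nonneg_left h3 hC0]
  refine ⟨2 * C, fun ε hε => ?_⟩
  obtain ⟨k, hk⟩ := exists_nat_gt (2 * C / (t * ε))
  have hk0 : (0 : ℝ) < k := lt_of_le_of_lt (by positivity) hk
  refine ⟨(k : ℝ)⁻¹ • ∑ j ∈ range k, t • (∑ i ∈ range j, P ^ i) σ, ?_, ?_⟩
  · rw [norm_smul, Real.norm_of_nonneg (by positivity), inv_mul_le_iff₀ hk0]
    refine (norm_sum_le _ _).trans ((sum_le_card_nsmul _ _ (2 * C) fun j _ => ?_).trans (by simp))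
    rw [norm_smul, Real.norm_of_nonneg ht.le]
    exact hB j
  · have : σ - L ((k : ℝ)⁻¹ • ∑ j ∈ range k, t • (∑ i ∈ range j, P ^ i) σ) =
        (k : ℝ)⁻¹ • (∑ j ∈ range k, P ^ j) σ := by
      rw [map_smul, map_sum]
      simp only [map_smul, hR]
      simp only [sum_sub_distrib, sum_const, card_range, smul_sub,
        ← Nat.cast_smul_eq_nsmul ℝ, smul_smul, inv_mul_cancel₀ hk0.ne', one_smul,
        LinearMap.sum_apply, sub_sub_cancel]
    rw [this, norm_smul, Real.norm_of_nonneg (by positivity), inv_mul_le_iff₀ hk0]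
    rw [div_lt_iff₀ (by positivity)] at hk
    refine le_of_mul_le_mul_left ?_ ht
    nlinarith [hB k]

section
variable {Γ V W : Type} [Group Γ] [MulAction Γ V] [MulAction Γ W]
variable {E : Type} [NormedAddCommGroup E] [InnerProductSpace ℝ E] {π : Γ → E →ₗᵢ[ℝ] E}

theorem Deq.lap2 {f : V × W → E} (hf : Deq π f) (n : Nb Γ V) (m : Nb Γ W) :
    Leq π (lap2 n m f) := fun γ a => by
  rw [H8.lap2, H8.lap2, hf.lap, hf.lap, map_add]

omit [InnerProductSpace ℝ E] in
theorem lap2_sub (n : Nb Γ V) (m : Nb Γ W) (f g : V × W → E) (a : V × W) :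
    lap2 n m (f - g) a = lap2 n m f a - lap2 n m g a := by
  simp only [lap2, Nb.lap, Pi.sub_apply, sub_sub_sub_comm (f a),
    sum_sub_distrib (f := fun b => f a - f b)]
  abel

/-- The space of equivariant functions. -/
def leqs (π : Γ → E →ₗᵢ[ℝ] E) (V : Type) [MulAction Γ V] : Submodule ℝ (V → E) where
  carrier := {f | Leq π f}
  zero_mem' := fun _ _ => by simp
  add_mem' := fun hf hg γ a => by simp [hf γ a, hg γ a]
  smul_mem' := fun t f hf γ a => by simp [hf γ a]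

/-- Weighted restriction to `Q`. -/
noncomputable def Cof.J (c : Cof Γ V) (π : Γ → E →ₗᵢ[ℝ] E) :
    leqs π V →ₗ[ℝ] PiLp 2 fun _ : c.Q => E where
  toFun f := WithLp.toLp 2 fun q => √(c.wt q) • f.1 q
  map_add' f g := by ext; simp
  map_smul' t f := by ext; simp [smul_comm t]

theorem Cof.inner_J (c : Cof Γ V) (f g : leqs π V) :
    ⟪c.J π f, c.J π g⟫ = c.I fun a => ⟪f.1 a, g.1 a⟫ := by
  rw [PiLp.inner_apply, Cof.I, ← sum_coe_sort c.Q]
  refine sum_congr rfl fun q _ => ?_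
  simp [Cof.J, real_inner_smul_left, real_inner_smul_right, ← mul_assoc,
    Real.mul_self_sqrt (c.wt_pos q).le]

theorem Cof.norm_J (c : Cof Γ V) (f : leqs π V) :
    ‖c.J π f‖ = √(c.I fun a => ‖f.1 a‖ ^ 2) := by
  simp only [← real_inner_self_eq_norm_sq, ← c.inner_J]
  rw [real_inner_self_eq_norm_sq, Real.sqrt_sq (norm_nonneg _)]

theorem poisson (c : Cof Γ (V × W)) (n : Nb Γ V) (m : Nb Γ W) {f : V × W → E} (hf : Deq π f)
    {C : ℝ} (hC0 : 0 ≤ C)
    (hC : ∀ ξ, Leq π ξ → |c.I fun a => ⟪lap2 n m f a, ξ a⟫| ≤ C * nl c n m ξ) :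
    ∃ B : ℝ, ∀ ε > 0, ∃ g, Leq π g ∧ √(c.I fun a => ‖g a‖ ^ 2) ≤ B ∧ nl c n m (f - g) ≤ ε := by
  let := SeminormedAddCommGroup.induced _ _ (c.J π)
  let := InnerProductSpace.induced (𝕜 := ℝ) (c.J π)
  let L : leqs π (V × W) →ₗ[ℝ] leqs π (V × W) :=
    { toFun := fun g => ⟨lap2 n m g.1, (Leq.deq g.2).lap2 n m⟩
      map_add' := fun g g' => by
        ext a
        simp only [lap2, Nb.lap, Submodule.coe_add, Pi.add_apply, add_sub_add_comm, sum_add_distrib]
        abel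
      map_smul' := fun t g => by
        ext a
        simp [lap2, Nb.lap, smul_sum, smul_sub, smul_comm t] }
  have hi : ∀ x y : leqs π (V × W), ⟪x, y⟫ = c.I fun a => ⟪x.1 a, y.1 a⟫ := c.inner_J
  have hn : ∀ x : leqs π (V × W), ‖x‖ = √(c.I fun a => ‖x.1 a‖ ^ 2) := c.norm_J
  have hL : ∀ x y : leqs π (V × W), ⟪L x, y⟫ = (c.I fun a => ⟪(n.left W).lap x.1 a, y.1 a⟫) +
      c.I fun a => ⟪(m.right V).lap x.1 a, y.1 a⟫ := fun x y => by
    rw [hi, ← c.I_add]
    simp only [← inner_add_left]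
    rfl
  have hp : ∀ (k : Nb Γ (V × W)) (x : leqs π (V × W)), 0 ≤ c.I fun a => ⟪k.lap x.1 a, x.1 a⟫ :=
    fun k x => by
      have := green c k (Leq.deq x.2) x.2
      have := c.I_nonneg (Φ := fun a => ∑ b ∈ k.N a, ⟪x.1 a - x.1 b, x.1 a - x.1 b⟫)
        fun a => sum_nonneg fun _ _ => real_inner_self_nonneg
      linarith
  obtain ⟨d, hd0, hd⟩ := lap_sq_le (π := π) c (n.left W)
  obtain ⟨d', hd0', hd'⟩ := lap_sq_le (π := π) c (m.right V)
  obtain ⟨B, hB⟩ := iter L (fun x y => by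
      rw [← real_inner_comm x, hL, hL]
      have h1 := green c (n.left W) (Leq.deq x.2) y.2
      have h2 := green c (n.left W) (Leq.deq y.2) x.2
      have h3 := green c (m.right V) (Leq.deq x.2) y.2
      have h4 := green c (m.right V) (Leq.deq y.2) x.2
      simp only [real_inner_comm (x.1 _ - x.1 _)] at h2 h4
      linarith)
    (fun x => by rw [hL]; exact add_nonneg (hp _ x) (hp _ x)) (d := 2 * (d + d')) (by positivity)
    (fun x => by
      rw [hn, Real.sq_sqrt (c.I_nonneg fun _ => sq_nonneg _), hL]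
      have h1 : (c.I fun a => ‖(L x).1 a‖ ^ 2) ≤ c.I fun a =>
          2 * ‖(n.left W).lap x.1 a‖ ^ 2 + 2 * ‖(m.right V).lap x.1 a‖ ^ 2 :=
        c.I_mono fun a _ => (pow_le_pow_left₀ (norm_nonneg _) (norm_add_le _ _) 2).trans (by
          nlinarith [sq_nonneg (‖(n.left W).lap x.1 a‖ - ‖(m.right V).lap x.1 a‖)])
      rw [c.I_add, c.I_mul, c.I_mul] at h1
      nlinarith [hd x.1 x.2, hd' x.1 x.2, mul_nonneg hd0 (hp (m.right V) x),
        mul_nonneg hd0' (hp (n.left W) x)])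
    ⟨lap2 n m f, hf.lap2 n m⟩ hC0 fun x => by rw [hi, hn]; exact hC x.1 x.2
  refine ⟨B, fun ε hε => ?_⟩
  obtain ⟨g, h1, h2⟩ := hB ε hε
  rw [hn] at h1 h2
  refine ⟨g.1, g.2, h1, ?_⟩
  simp only [nl, lap2_sub]
  exact h2

end

end Pool.Agent.Lib.MP_60cbcc_al.H8
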