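import Pool.Agent.Lib.MP_60cbcc_al.H8Loc
import Pool.Agent.Lib.MP_60cbcc_al.H8Coh

namespace Pool.Agent.Lib.MP_60cbcc_al.H8ReducedCohomology

open MeasureTheory Filter Topology Pool.Agent.Lib.MP_60cbcc_al.H8
open scoped MatrixGroups

/-- For an action with non-central stabilisers, the reduced first cohomology vanishes for every
representation on square integrable fields in which an element acts trivially over the points it
fixes. -/
theorem result (k l : Type) [NontriviallyNormedField k] [IsUltrametricDist k] [ProperSpace k]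
    [NontriviallyNormedField l] [IsUltrametricDist l] [ProperSpace l]
    (Γ : Subgroup (SL(2, k) × SL(2, l))) [DiscreteTopology Γ]
    (hΓ : ∃ C : Set (SL(2, k) × SL(2, l)), IsCompact C ∧ ∀ g, ∃ γ ∈ Γ, γ * g ∈ C)
    (h₁ : DenseRange fun γ : Γ => γ.1.1) (h₂ : DenseRange fun γ : Γ => γ.1.2)
    (X : Type) [MeasurableSpace X] [StandardBorelSpace X] (μ : Measure X) [IsProbabilityMeasure μ]
    [MulAction Γ X] (hμ : ∀ γ : Γ, MeasurePreserving (fun x : X => γ • x) μ μ)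
    (hX : ∀ᵐ x ∂μ, ∃ γ : Γ, γ • x = x ∧ γ ∉ Subgroup.center Γ)
    (K : Type) [NormedAddCommGroup K] [InnerProductSpace ℝ K] [CompleteSpace K]
    (π : Γ →* Lp K 2 μ ≃ₗᵢ[ℝ] Lp K 2 μ) (hπ : ∀ γ ξ, ∀ᵐ x ∂μ, γ • x = x → π γ ξ x = ξ x)
    (b : Γ → Lp K 2 μ) (hb : ∀ γ δ, b (γ * δ) = b γ + π γ (b δ)) :
    ∃ ξ : ℕ → Lp K 2 μ, ∀ γ, Tendsto (fun i => π γ (ξ i) - ξ i) atTop (𝓝 (b γ)) := by
  have := lat_count Γ
  obtain ⟨_, _, c, n, m, hn, hm, hV, hW⟩ := setup (sli k) (sli l) (sli_open k) (sli_cpt k)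
    (sli_open l) (sli_cpt l) (sl_cg k) (sl_cg l) (fun χ _ => sl_nohom k χ)
    (fun χ _ => sl_nohom l χ) Γ hΓ
  refine coh c hn hm ((1 : SL(2, k)), (1 : SL(2, l))) ?_ π hπ b hb
  filter_upwards [dich Γ h₁ h₂ hμ, hX] with x hx ⟨γ, h, h'⟩
  exact (hx.resolve_right fun H => h' (H.2 γ h)).imp (hV _) (hW _)

end Pool.Agent.Lib.MP_60cbcc_al.H8ReducedCohomology
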