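import Pool.Agent.Lib.MP_60cbcc_al.H8Mau

/-!
Stabilisers of a measure preserving action have scalar or dense projection to `SL(2, k)`.
-/

namespace Pool.Agent.Lib.MP_60cbcc_al.H8

open Topology MeasureTheory Filter Matrix
open scoped MatrixGroups

section
variable {k : Type} [Field k]

/-- Upper unipotent matrix. -/
def up (s : k) : SL(2, k) := ⟨!![1, s; 0, 1], by simp [det_fin_two]⟩

/-- Lower unipotent matrix. -/
def lo (s : k) : SL(2, k) := ⟨!![1, 0; s, 1], by simp [det_fin_two]⟩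

/-- Diagonal matrix. -/
def dg (t : kˣ) : SL(2, k) := ⟨!![t, 0; 0, (t : k)⁻¹], by simp [det_fin_two]⟩

theorem up_inv (s : k) : (up s)⁻¹ = up (-s) := by
  ext i j; fin_cases i <;> fin_cases j <;> simp [up, SpecialLinearGroup.SL2_inv_expl]

theorem lo_inv (s : k) : (lo s)⁻¹ = lo (-s) := by
  ext i j; fin_cases i <;> fin_cases j <;> simp [lo, SpecialLinearGroup.SL2_inv_expl]

theorem dg_inv (t : kˣ) : (dg t)⁻¹ = dg t⁻¹ := by
  ext i j; fin_cases i <;> fin_cases j <;> simp [dg, SpecialLinearGroup.SL2_inv_expl]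

theorem up_zero : up (0 : k) = 1 := by
  ext i j; fin_cases i <;> fin_cases j <;> simp [up]

theorem lo_zero : lo (0 : k) = 1 := by
  ext i j; fin_cases i <;> fin_cases j <;> simp [lo]

theorem dg_comm (t r : kˣ) : dg t * dg r = dg r * dg t := by
  ext i j; fin_cases i <;> fin_cases j <;> simp [dg, mul_apply, Fin.sum_univ_two, mul_comm]

theorem dg_up (t : kˣ) (s : k) : dg t * up s * (dg t)⁻¹ = up (t ^ 2 * s) := by
  rw [dg_inv]
  ext i j; fin_cases i <;> fin_cases j <;> simp [dg, up, mul_apply, Fin.sum_univ_two]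
  ring

theorem dg_lo (t : kˣ) (s : k) : dg t⁻¹ * lo s * (dg t⁻¹)⁻¹ = lo (t ^ 2 * s) := by
  rw [dg_inv]
  ext i j; fin_cases i <;> fin_cases j <;> simp [dg, lo, mul_apply, Fin.sum_univ_two]
  ring

theorem up_comm (t : kˣ) (s : k) :
    up s * dg t * (up s)⁻¹ * (dg t)⁻¹ = up ((1 - t ^ 2) * s) := by
  rw [dg_inv, up_inv]
  ext i j; fin_cases i <;> fin_cases j <;> simp [dg, up, mul_apply, Fin.sum_univ_two]
  field_simp
  ring

theorem lo_comm (t : kˣ) (s : k) :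
    lo s * dg t * (lo s)⁻¹ * (dg t)⁻¹ = lo ((t ^ 2 - 1) / t ^ 2 * s) := by
  rw [dg_inv, lo_inv]
  ext i j; fin_cases i <;> fin_cases j <;> simp [dg, lo, mul_apply, Fin.sum_univ_two]
  field_simp
  ring

theorem gen (L : Subgroup SL(2, k)) (hu : ∀ s, up s ∈ L) (hl : ∀ s, lo s ∈ L) : L = ⊤ := by
  have key : ∀ g : SL(2, k), g 1 0 ≠ 0 → g ∈ L := fun g hg => by
    have hd := g.det_coe
    rw [det_fin_two] at hd
    have : g = up ((g 0 0 - 1) / g 1 0) * lo (g 1 0) * up ((g 1 1 - 1) / g 1 0) := by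
      ext i j; fin_cases i <;> fin_cases j <;> simp [lo, up, mul_apply, Fin.sum_univ_two] <;>
        field_simp
      · ring
      · linear_combination -hd
      · ring
    exact this ▸ L.mul_mem (L.mul_mem (hu _) (hl _)) (hu _)
  refine eq_top_iff.2 fun g _ => ?_
  by_cases h : g 1 0 = 0
  · refine (L.mul_mem_cancel_left (hl 1)).1 (key _ ?_)
    have hd := g.det_coe
    rw [det_fin_two, h] at hd
    simpa [lo, mul_apply, Fin.sum_univ_two, h] using left_ne_zero_of_mul_eq_one (by simpa using hd)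
  · exact key g h

theorem gen' (L : Subgroup SL(2, k)) {t : kˣ} (ht : (t : k) ^ 2 ≠ 1)
    (hu : ∀ s, up s * dg t * (up s)⁻¹ * (dg t)⁻¹ ∈ L)
    (hl : ∀ s, lo s * dg t * (lo s)⁻¹ * (dg t)⁻¹ ∈ L) : L = ⊤ := by
  refine gen L (fun s => ?_) fun s => ?_
  · have := hu (s / (1 - t ^ 2))
    rwa [up_comm, mul_div_cancel₀ _ (sub_ne_zero.2 ht.symm)] at this
  · have := hl (s / ((t ^ 2 - 1) / t ^ 2))
    rwa [lo_comm, mul_div_cancel₀ _ (div_ne_zero (sub_ne_zero.2 ht) (by simp))] at this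

theorem conj_low (g : SL(2, k)) (hg : ¬(g 0 1 = 0 ∧ g 1 0 = 0 ∧ g 0 0 = g 1 1)) :
    ∃ h : SL(2, k), (h * g * h⁻¹) 1 0 ≠ 0 := by
  by_contra hc
  simp only [not_exists, not_not] at hc
  have h0 := hc 1
  have h1 := hc (lo 1)
  have h2 := hc (lo 1 * up (-1))
  rw [_root_.mul_inv_rev, up_inv] at h2
  simp [lo, up, mul_apply, Fin.sum_univ_two, vecMul, dotProduct] at h0 h1 h2
  exact hg ⟨h2, h0, by linear_combination h1 + h2 - h0⟩

theorem conj_dg (g : SL(2, k)) (hg : g 1 0 ≠ 0) (t : kˣ) (ht : (t : k) ^ 2 ≠ 1)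
    (htr : g 0 0 + g 1 1 = t + (t : k)⁻¹) : ∃ h : SL(2, k), h * g * h⁻¹ = dg t := by
  have hd := g.det_coe
  rw [det_fin_two] at hd
  have h0 : (t : k) ≠ 0 := t.ne_zero
  have h1 : (t : k) ^ 2 - 1 ≠ 0 := sub_ne_zero.2 ht
  refine ⟨(⟨!![t - g 1 1, (1 - t * g 1 1) / (g 1 0 * (t ^ 2 - 1)); g 1 0, t / (t ^ 2 - 1)], by
    rw [det_fin_two_of]; field_simp; ring⟩ : SL(2, k))⁻¹, ?_⟩
  rw [inv_inv, mul_assoc, inv_mul_eq_iff_eq_mul]
  have h2 : g 0 0 = t + (t : k)⁻¹ - g 1 1 := eq_sub_of_add_eq htr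
  have h3 : g 0 1 = (g 0 0 * g 1 1 - 1) / g 1 0 := by field_simp; linear_combination -hd
  ext i j; fin_cases i <;> fin_cases j <;> simp [dg, mul_apply, Fin.sum_univ_two, h3, h2] <;>
    field_simp <;> ring

theorem comm_up (g : SL(2, k)) (s : k) :
    (g * (up s * g * (up s)⁻¹)⁻¹) 1 0 = -(s * g 1 0 ^ 2) ∧
    (g * (up s * g * (up s)⁻¹)⁻¹) 0 0 + (g * (up s * g * (up s)⁻¹)⁻¹) 1 1 =
      2 + (s * g 1 0) ^ 2 := by
  have hd := g.det_coe
  rw [det_fin_two] at hd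
  rw [up_inv]
  simp [up, mul_apply, Fin.sum_univ_two, SpecialLinearGroup.SL2_inv_expl]
  exact ⟨by ring, by linear_combination 2 * hd⟩

end

variable {k : Type} [NontriviallyNormedField k]

theorem up_cont : Continuous (up : k → SL(2, k)) :=
  continuous_induced_rng.2 (continuous_matrix fun i j => by
    fin_cases i <;> fin_cases j <;> simp [up] <;> fun_prop)

theorem lo_cont : Continuous (lo : k → SL(2, k)) :=
  continuous_induced_rng.2 (continuous_matrix fun i j => by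
    fin_cases i <;> fin_cases j <;> simp [lo] <;> fun_prop)

theorem sl_fc : FirstCountableTopology SL(2, k) :=
  haveI : FirstCountableTopology (Matrix (Fin 2) (Fin 2) k) :=
    inferInstanceAs (FirstCountableTopology (Fin 2 → Fin 2 → k))
  SpecialLinearGroup.isClosedEmbedding_val.isEmbedding.firstCountableTopology

theorem exists_small : ∃ t : kˣ, ‖(t : k)‖ < 1 := by
  obtain ⟨t, h0, h1⟩ := NormedField.exists_norm_lt_one k
  exact ⟨Units.mk0 t (norm_pos_iff.1 h0), h1⟩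

variable {Γ X : Type} [Group Γ] [MulAction Γ X] {p : Γ →* SL(2, k)} [Countable Γ]
  [MeasurableSpace X] {μ : Measure X} [IsFiniteMeasure μ] [FirstCountableTopology SL(2, k)]

theorem zz_dg (hF : ∀ γ : Γ, MeasurableSet {x : X | γ • x = x})
    (hμ : ∀ γ : Γ, MeasurePreserving (fun x : X => γ • x) μ μ) (hp : DenseRange p) {t : kˣ}
    (ht : (t : k) ^ 2 ≠ 1) : zz p μ (dg t) = ⊤ := by
  obtain ⟨r, hr⟩ := exists_small (k := k)
  have h : ∀ s : k, Tendsto (fun n : ℕ => ((r ^ n : kˣ) : k) ^ 2 * s) atTop (𝓝 0) := fun s => by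
    simpa using ((tendsto_pow_atTop_nhds_zero_of_norm_lt_one hr).pow 2).mul_const s
  refine gen' _ ht (fun s => mautner hF hμ hp (c := fun n => dg (r ^ n)) (fun _ => dg_comm _ _) ?_)
    fun s => mautner hF hμ hp (c := fun n => dg (r ^ n)⁻¹) (fun _ => dg_comm _ _) ?_
  · simp only [dg_up, ← up_zero]
    exact (up_cont.tendsto 0).comp (h s)
  · simp only [dg_lo, ← lo_zero]
    exact (lo_cont.tendsto 0).comp (h s)

theorem dd_null (hF : ∀ γ : Γ, MeasurableSet {x : X | γ • x = x})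
    (hμ : ∀ γ : Γ, MeasurePreserving (fun x : X => γ • x) μ μ) (hp : DenseRange p)
    (hY : ∀ᵐ x ∂μ, ¬∀ γ, x ∈ dd p X (p γ)) (g : SL(2, k))
    (hg : ¬(g 0 1 = 0 ∧ g 1 0 = 0 ∧ g 0 0 = g 1 1)) : μ (dd p X g) = 0 := by
  have hc : ∀ h g, μ (dd p X (h * g * h⁻¹)) = 0 → μ (dd p X g) = 0 := fun h g H =>
    le_zero_iff.1 (by simpa [H] using conj_le hF hμ hp h g g)
  obtain ⟨h, hz⟩ := conj_low g hg
  refine hc h g ?_
  generalize h * g * h⁻¹ = g at hz
  by_contra h0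
  have h1 : 0 < μ.real (dd p X g) := ENNReal.toReal_pos h0 (measure_ne_top _ _)
  have h2 : Tendsto (fun m : k => up ((m - m⁻¹) / g 1 0)) (𝓝[≠] 1) (𝓝 1) := by
    have : ContinuousAt (fun m : k => up ((m - m⁻¹) / g 1 0)) 1 :=
      up_cont.continuousAt.comp (by fun_prop (disch := simp))
    simpa [up_zero] using this.tendsto.mono_left nhdsWithin_le_nhds
  have h3 : ∀ᶠ m : k in 𝓝[≠] 1, m ^ 5 - m ≠ 0 := by
    have hf : {m : k | (Polynomial.X ^ 5 - Polynomial.X : Polynomial k).IsRoot m}.Finite :=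
      Polynomial.finite_setOfPred_isRoot fun h => by
        simpa [Polynomial.coeff_X] using congrArg (Polynomial.coeff · 5) h
    filter_upwards [nhdsNE_le_cofinite 1 hf.compl_mem_cofinite] with m hm
    simpa using hm
  obtain ⟨m, hm, hm'⟩ := ((h2.eventually (near hF hμ hp g (half_pos h1))).and h3).exists
  have h4 : m ≠ 0 := by rintro rfl; simp at hm'
  obtain ⟨h5, h6⟩ := comm_up g ((m - m⁻¹) / g 1 0)
  have h7 : ((Units.mk0 (m ^ 2) (pow_ne_zero 2 h4) : kˣ) : k) ^ 2 ≠ 1 := fun h =>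
    hm' (by rw [Units.val_mk0] at h; linear_combination m * h)
  obtain ⟨h, h8⟩ := conj_dg _ (by
    rw [h5, neg_ne_zero]
    refine mul_ne_zero (div_ne_zero (fun h => hm' ?_) hz) (pow_ne_zero 2 hz)
    field_simp at h
    linear_combination m * (m ^ 2 + 1) * h) _ h7 (by
      rw [h6, Units.val_mk0]
      field_simp
      ring)
  have h9 := hc h _ (by
    rw [h8, measure_eq_zero_iff_ae_notMem]
    filter_upwards [hY, zz_top (zz_dg hF hμ hp h7)] with x h h' hx using h (h' hx))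
  rw [(measureReal_eq_zero_iff (measure_ne_top _ _)).2 (measure_mono_null
    (fun x hx => (cl p x).mul_mem hx.1 ((cl p x).inv_mem hx.2)) h9 : μ (dd p X _ ∩ dd p X _) = 0)]
    at hm
  linarith

theorem dense_ae (hF : ∀ γ : Γ, MeasurableSet {x : X | γ • x = x})
    (hμ : ∀ γ : Γ, MeasurePreserving (fun x : X => γ • x) μ μ) (hp : DenseRange p) :
    ∀ᵐ x ∂μ, Dense (p '' {γ | γ • x = x}) ∨
      ∀ γ : Γ, γ • x = x → p γ 0 1 = 0 ∧ p γ 1 0 = 0 ∧ p γ 0 0 = p γ 1 1 := by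
  have hY : MeasurableSet {x : X | ¬∀ γ, x ∈ dd p X (p γ)} := by
    simp only [Set.ofPred_forall, ← Set.compl_ofPred]
    exact (MeasurableSet.iInter fun γ => dd_meas hF _).compl
  have hi : ∀ (δ : Γ) (x : X), (∀ γ, x ∈ dd p X (p γ)) → ∀ γ, δ • x ∈ dd p X (p γ) :=
    fun δ x hx γ => by simpa [mul_assoc] using dd_smul δ (hx (δ⁻¹ * γ * δ))
  have hν : ∀ δ : Γ, MeasurePreserving (fun x : X => δ • x)
      (μ.restrict {x : X | ¬∀ γ, x ∈ dd p X (p γ)}) (μ.restrict {x | ¬∀ γ, x ∈ dd p X (p γ)}) :=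
    fun δ => by
      convert (hμ δ).restrict_preimage hY using 2
      ext x
      exact not_congr ⟨hi δ x, fun h => by simpa using hi δ⁻¹ _ h⟩
  have h : ∀ γ : Γ, ∀ᵐ x ∂μ, (¬∀ γ, x ∈ dd p X (p γ)) → γ • x = x →
      p γ 0 1 = 0 ∧ p γ 1 0 = 0 ∧ p γ 0 0 = p γ 1 1 := fun γ => by
    by_cases hg : p γ 0 1 = 0 ∧ p γ 1 0 = 0 ∧ p γ 0 0 = p γ 1 1
    · exact .of_forall fun _ _ _ => hg
    · have := dd_null hF hν hp (ae_restrict_mem hY) _ hg
      rw [measure_eq_zero_iff_ae_notMem, ae_restrict_iff' hY] at this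
      filter_upwards [this] with x hx h h'
      exact (hx h (subset_closure ⟨γ, h', rfl⟩)).elim
  filter_upwards [ae_all_iff.2 h] with x hx
  by_cases h : ∀ γ, x ∈ dd p X (p γ)
  · exact .inl (dense_of_dd hp h)
  · exact .inr fun γ => hx γ h

end Pool.Agent.Lib.MP_60cbcc_al.H8
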