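import Pool.Agent.Lib.MP_60cbcc_al.H8WOp

/-!
The Bochner inequality and the coarea bound for the walk built from two commuting averages.
-/

namespace Pool.Agent.Lib.MP_60cbcc_al.H8W

open MeasureTheory Set
open scoped ENNReal

variable {G Ω : Type} [Group G] [MeasurableSpace G] [MeasurableSpace Ω] [MulAction G Ω]

/-- Two commuting symmetric measures and their convolution. -/
structure Sys (Q : Set G) where
  ν₁ : Measure G
  ν₂ : Measure G
  ν₃ : Measure G
  s₁ : Sym Q ν₁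
  s₂ : Sym Q ν₂
  s₃ : Sym Q ν₃
  comm : ∀ᵐ s ∂ν₁, ∀ᵐ t ∂ν₂, s * t = t * s
  conv : ν₃ = (ν₁.prod ν₂).map fun p => p.1 * p.2

variable {m : Measure Ω} {Q : Set G} (S : Sys Q)

/-- The Markov operator of the walk. -/
noncomputable def Sys.P (f : Ω → ℝ) (x : Ω) : ℝ := 3⁻¹ * (T S.ν₁ f x + T S.ν₂ f x + T S.ν₃ f x)

/-- Mixed second differences. -/
def mix (f : Ω → ℝ) (s t : G) (x : Ω) : ℝ := f (s • t • x) - f (s • x) - f (t • x) + f x

/-- The squared norm. -/
noncomputable def N2 (m : Measure Ω) (f : Ω → ℝ) : ℝ≥0∞ := ∫⁻ x, ENNReal.ofReal (f x ^ 2) ∂m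

theorem L1.N2 {f : Ω → ℝ} (hf : L1 m f) : N2 m f = ENNReal.ofReal (∫ x, f x ^ 2 ∂m) :=
  (ofReal_integral_eq_lintegral_ofReal hf.sq (.of_forall fun _ => sq_nonneg _)).symm

omit [MeasurableSpace Ω] in
theorem Sys.abs_P_le {f : Ω → ℝ} {C : ℝ} (hC : ∀ x, |f x| ≤ C) (x : Ω) : |S.P f x| ≤ C := by
  have := S.s₁.prob; have := S.s₂.prob; have := S.s₃.prob
  have h1 := abs_le.1 (abs_T_le (ν := S.ν₁) hC x)
  have h2 := abs_le.1 (abs_T_le (ν := S.ν₂) hC x)
  have h3 := abs_le.1 (abs_T_le (ν := S.ν₃) hC x)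
  rw [Sys.P, abs_le]
  constructor <;> linarith

variable [MeasurableSMul₂ G Ω]

theorem Bd.P {f : Ω → ℝ} (hf : Bd f) : Bd (S.P f) :=
  have := S.s₁.prob; have := S.s₂.prob; have := S.s₃.prob
  (Bd.const _).mul (((hf.T _).add (hf.T _)).add (hf.T _))

theorem Bd.mix {f : Ω → ℝ} (hf : Bd f) : Bd fun p : (G × G) × Ω => mix f p.1.1 p.1.2 p.2 :=
  (((hf.comp (by fun_prop)).sub (hf.comp (by fun_prop))).sub (hf.comp (by fun_prop))).add
    (hf.comp measurable_snd)

theorem Sys.P_add {f g : Ω → ℝ} (hf : Bd f) (hg : Bd g) (x : Ω) :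
    S.P (fun x => f x + g x) x = S.P f x + S.P g x := by
  have := S.s₁.prob; have := S.s₂.prob; have := S.s₃.prob
  simp only [Sys.P, T_add hf hg]; ring

omit [MeasurableSpace Ω] [MeasurableSMul₂ G Ω] in
theorem Sys.P_cmul (c : ℝ) (f : Ω → ℝ) (x : Ω) : S.P (fun x => c * f x) x = c * S.P f x := by
  simp only [Sys.P, T_cmul]; ring

omit [MeasurableSpace Ω] [MeasurableSMul₂ G Ω] in
theorem Sys.P_const (c : ℝ) (x : Ω) : S.P (fun _ => c) x = c := by
  have := S.s₁.prob; have := S.s₂.prob; have := S.s₃.prob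
  simp [Sys.P, T]; ring

variable [MeasurableMul₂ G]

theorem Sys.T₃ {f : Ω → ℝ} (hf : Bd f) : T S.ν₃ f = T S.ν₂ (T S.ν₁ f) := by
  have := S.s₁.prob; have := S.s₂.prob
  ext x
  rw [T, S.conv, integral_map (by fun_prop) (hf.orb x).meas.aestronglyMeasurable,
    integral_prod_symm _ (((hf.orb x).comp (by fun_prop)).integrable _)]
  simp only [T, mul_smul]

theorem Sys.T₃' {f : Ω → ℝ} (hf : Bd f) : T S.ν₃ f = T S.ν₁ (T S.ν₂ f) := by
  have := S.s₁.prob; have := S.s₂.prob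
  ext x
  rw [T, S.conv, integral_map (by fun_prop) (hf.orb x).meas.aestronglyMeasurable,
    integral_prod _ (((hf.orb x).comp (by fun_prop)).integrable _)]
  refine integral_congr_ae (S.comm.mono fun s hs => integral_congr_ae (hs.mono fun t ht => ?_))
  simp only [ht, mul_smul]

theorem Sys.P_T₃ {f : Ω → ℝ} (hf : Bd f) (x : Ω) : S.P (T S.ν₃ f) x = T S.ν₃ (S.P f) x := by
  have := S.s₁.prob; have := S.s₂.prob; have := S.s₃.prob
  have h1 : T S.ν₁ (T S.ν₃ f) = T S.ν₃ (T S.ν₁ f) := by rw [S.T₃ hf, S.T₃' (hf.T _)]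
  have h2 : T S.ν₂ (T S.ν₃ f) = T S.ν₃ (T S.ν₂ f) := by rw [S.T₃' hf, S.T₃ (hf.T _)]
  unfold Sys.P
  rw [T_cmul, T_add ((hf.T _).add (hf.T _)) (hf.T _), T_add (hf.T _) (hf.T _), h1, h2]

variable [SFinite m]

omit [MeasurableMul₂ G] in
theorem Gd.lapP {f : Ω → ℝ} (hf : Gd m Q f) : L1 m fun x => f x - S.P f x := by
  convert (((hf.lap S.s₁).add (hf.lap S.s₂)).add (hf.lap S.s₃)).cmul 3⁻¹ using 2
  simp only [Sys.P]; ring

variable [SMulInvariantMeasure G Ω m]

omit [MeasurableMul₂ G] in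
theorem Gd.P {f : Ω → ℝ} (hf : Gd m Q f) : Gd m Q (S.P f) := by
  simpa using hf.sub (hf.lapP S).gd

variable [MeasurableInv G]

omit [MeasurableMul₂ G] in
theorem Sys.ibpP {f g : Ω → ℝ} (hf : Gd m Q f) (hg : Bd g) :
    E m S.ν₁ f g + E m S.ν₂ f g + E m S.ν₃ f g = 6 * ∫ x, (f x - S.P f x) * g x ∂m := by
  rw [ibp hf hg S.s₁, ibp hf hg S.s₂, ibp hf hg S.s₃, ← mul_add, ← mul_add,
    ← integral_add ((hf.lap S.s₁).mul hg).int ((hf.lap S.s₂).mul hg).int,
    ← integral_add (((hf.lap S.s₁).mul hg).add ((hf.lap S.s₂).mul hg)).int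
      ((hf.lap S.s₃).mul hg).int, ← integral_const_mul, ← integral_const_mul]
  refine integral_congr_ae (.of_forall fun x => ?_)
  simp only [Sys.P]; ring

omit [MeasurableMul₂ G] in
theorem Sys.P_symm {f g : Ω → ℝ} (hf : Gd m Q f) (hg : Gd m Q g) :
    ∫ x, (f x - S.P f x) * g x ∂m = ∫ x, (g x - S.P g x) * f x ∂m := by
  have h1 := S.ibpP hf hg.toBd
  have h2 := S.ibpP hg hf.toBd
  have : ∀ ν : Measure G, E m ν f g = E m ν g f := fun ν => by simp only [E, mul_comm]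
  simp only [this] at h1
  linarith

/-- The coarea condition at every level. -/
def Co (m : Measure Ω) (ν : Measure G) (f : Ω → ℝ) (φ : ℝ) : Prop :=
  ∀ t, ∫⁻ x, ∫⁻ s, {s : G | f (s • x) ≤ t}.indicator (fun _ => ENNReal.ofReal (f x - t)) s ∂ν ∂m ≤
    ENNReal.ofReal φ

omit [MeasurableMul₂ G] in
theorem Sys.co {f : Ω → ℝ} (hf : Gd m Q f) : Co m S.ν₃ f (6 * ∫ x, |f x - S.P f x| ∂m) := by
  intro t
  have := S.s₃.prob
  set g : Ω → ℝ := {x | t < f x}.indicator 1 with hgdef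
  have hg1 : ∀ x, |g x| ≤ 1 := fun x => by by_cases h : t < f x <;> simp [hgdef, h]
  have hg : Bd g :=
    ⟨measurable_one.indicator (measurableSet_lt measurable_const hf.meas), 1, hg1⟩
  have hpos : ∀ y x, 0 ≤ (f y - f x) * (g y - g x) := fun y x => by
    by_cases h : t < f x <;> by_cases h' : t < f y <;> simp [hgdef, h, h'] <;> linarith
  have hE : ∀ ν : Measure G, 0 ≤ E m ν f g := fun ν => integral_nonneg fun p => hpos _ _
  have h1 : E m S.ν₃ f g ≤ 6 * ∫ x, |f x - S.P f x| ∂m := by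
    have h2 : ∫ x, (f x - S.P f x) * g x ∂m ≤ ∫ x, |f x - S.P f x| ∂m := by
      refine integral_mono ((hf.lapP S).mul hg).int (hf.lapP S).int.abs fun x => ?_
      refine (le_abs_self _).trans ?_
      rw [abs_mul]
      exact mul_le_of_le_one_right (abs_nonneg _) (hg1 x)
    linarith [S.ibpP hf hg, hE S.ν₁, hE S.ν₂]
  refine le_trans ?_ (ENNReal.ofReal_le_ofReal h1)
  rw [E, ofReal_integral_eq_lintegral_ofReal (hf.intE hg S.s₃) (.of_forall fun p => hpos _ _),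
    lintegral_prod_symm _ (hf.intE hg S.s₃).aemeasurable.ennreal_ofReal]
  refine lintegral_mono fun x => lintegral_mono fun s => ?_
  by_cases h : f (s • x) ≤ t
  · by_cases h' : t < f x
    · simp only [indicator, mem_ofPred_eq, h, if_true, hgdef, h', not_lt.2 h, if_false,
        Pi.one_apply]
      exact ENNReal.ofReal_le_ofReal (by linarith)
    · simp [indicator, h, ENNReal.ofReal_of_nonpos (sub_nonpos.2 (not_lt.1 h'))]
  · simp [indicator, h]

/-- The total mixed energy. -/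
noncomputable def Sys.D2 (m : Measure Ω) (f : Ω → ℝ) : ℝ≥0∞ :=
  ∫⁻ s, ∫⁻ t, N2 m (mix f s t) ∂S.ν₂ ∂S.ν₁

omit [MeasurableMul₂ G] in
theorem Sys.D2_eq {f : Ω → ℝ} (hf : Gd m Q f) :
    0 ≤ ∫ x, (f x - T S.ν₁ f x) * (f x - T S.ν₂ f x) ∂m ∧
    S.D2 m f = ENNReal.ofReal (4 * ∫ x, (f x - T S.ν₁ f x) * (f x - T S.ν₂ f x) ∂m) := by
  have := S.s₁.prob; have := S.s₂.prob
  set q : Ω → ℝ := fun x => f x - T S.ν₂ f x with hq
  have hqb : Bd q := (hf.lap S.s₂).toBd
  set w : G → Ω → ℝ := fun s x => f (s • x) - f x with hw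
  have hwg : ∀ s, Gd m Q (w s) := fun s => (hf.diff s).gd
  have h0 : ∀ s, 0 ≤ E m S.ν₂ (w s) (w s) := fun s => integral_nonneg fun p => mul_self_nonneg _
  have h1 : ∀ s, ∫⁻ t, N2 m (mix f s t) ∂S.ν₂ = ENNReal.ofReal (E m S.ν₂ (w s) (w s)) := by
    intro s
    have hi := (hwg s).intE (hwg s).toBd S.s₂
    rw [E, ofReal_integral_eq_lintegral_ofReal hi (.of_forall fun p => mul_self_nonneg _),
      lintegral_prod _ hi.aemeasurable.ennreal_ofReal]
    refine lintegral_congr fun t => lintegral_congr fun x => ?_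
    simp only [hw, mix]
    congr 1; ring
  have h2 : ∀ᵐ s ∂S.ν₁, E m S.ν₂ (w s) (w s) =
      2 * ∫ x, (f (s • x) - f x) * (q (s • x) - q x) ∂m := by
    filter_upwards [S.comm] with s hs
    rw [ibp (hwg s) (hwg s).toBd S.s₂]
    congr 1
    refine integral_congr_ae (.of_forall fun x => ?_)
    have : T S.ν₂ (fun y => f (s • y)) x = T S.ν₂ f (s • x) :=
      integral_congr_ae (hs.mono fun t ht => by simp only [← mul_smul, ht])
    simp only [hw, hq, T_sub (hf.toBd.smul s) hf.toBd, this]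
    ring
  have hi := hf.intE hqb S.s₁
  have h3 : ∫ s, E m S.ν₂ (w s) (w s) ∂S.ν₁ = 4 * ∫ x, (f x - T S.ν₁ f x) * q x ∂m := by
    rw [integral_congr_ae h2, integral_const_mul, ← integral_prod _ hi]
    have := ibp hf hqb S.s₁
    rw [E] at this
    linarith
  have h4 : Integrable (fun s => E m S.ν₂ (w s) (w s)) S.ν₁ :=
    (hi.integral_prod_left.const_mul 2).congr (h2.mono fun _ h => h.symm)
  have h5 : 0 ≤ ∫ s, E m S.ν₂ (w s) (w s) ∂S.ν₁ := integral_nonneg h0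
  refine ⟨by linarith, ?_⟩
  rw [← h3, ofReal_integral_eq_lintegral_ofReal h4 (.of_forall h0)]
  exact lintegral_congr h1

omit [MeasurableMul₂ G] [MeasurableInv G] [SMulInvariantMeasure G Ω m] in
theorem Sys.N2_le_D2 {f : Ω → ℝ} (hf : Bd f) : N2 m (fun x => (f x - T S.ν₁ f x) -
    T S.ν₂ (fun x => f x - T S.ν₁ f x) x) ≤ S.D2 m f := by
  have := S.s₁.prob; have := S.s₂.prob
  have hm : Measurable fun p : (G × G) × Ω => ENNReal.ofReal (mix f p.1.1 p.1.2 p.2 ^ 2) :=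
    (hf.mix.meas.pow_const 2).ennreal_ofReal
  have h1 : S.D2 m f =
      ∫⁻ x, ∫⁻ p : G × G, ENNReal.ofReal (mix f p.1 p.2 x ^ 2) ∂S.ν₁.prod S.ν₂ ∂m := by
    rw [← lintegral_lintegral_swap hm.aemeasurable,
      lintegral_prod _ hm.lintegral_prod_right'.aemeasurable]
    rfl
  rw [h1]
  refine lintegral_mono fun x => ?_
  have hb : Bd fun p : G × G => mix f p.1 p.2 x := hf.mix.comp (φ := fun p => (p, x)) (by fun_prop)
  have h2 : (f x - T S.ν₁ f x) - T S.ν₂ (fun x => f x - T S.ν₁ f x) x =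
      ∫ p : G × G, mix f p.1 p.2 x ∂S.ν₁.prod S.ν₂ := by
    rw [sub_T (hf.sub (hf.T _)), integral_prod_symm _ (hb.integrable _)]
    refine integral_congr_ae (.of_forall fun t => ?_)
    simp only [sub_T hf]
    rw [← integral_sub (((Bd.const _).sub (hf.orb _)).integrable _)
      (((Bd.const _).sub (hf.orb _)).integrable _)]
    refine integral_congr_ae (.of_forall fun s => ?_)
    simp only [mix]; ring
  simp only
  rw [h2, ← ofReal_integral_eq_lintegral_ofReal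
    (by simpa [pow_two] using (hb.mul hb).integrable _) (.of_forall fun _ => sq_nonneg _)]
  exact ENNReal.ofReal_le_ofReal (sq_integral_le _ hb)

theorem Sys.boch {f : Ω → ℝ} (hf : Gd m Q f) :
    S.D2 m f ≤ ENNReal.ofReal (9 * ∫ x, (f x - S.P f x) ^ 2 ∂m) ∧
    N2 m (fun x => f x - T S.ν₃ f x) ≤ ENNReal.ofReal (36 * ∫ x, (f x - S.P f x) ^ 2 ∂m) := by
  have := S.s₁.prob; have := S.s₂.prob
  obtain ⟨h0, h1⟩ := S.D2_eq hf
  have h2 := S.N2_le_D2 (m := m) hf.toBd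
  have hp := hf.lap S.s₁
  have hq := hf.lap S.s₂
  have hr := (hp.gd (Q := Q)).lap S.s₂
  set p : Ω → ℝ := fun x => f x - T S.ν₁ f x with hpd
  set q : Ω → ℝ := fun x => f x - T S.ν₂ f x with hqd
  set r : Ω → ℝ := fun x => p x - T S.ν₂ p x with hrd
  have e : ∀ x, f x - T S.ν₃ f x = p x + q x - r x := fun x => by
    simp only [hrd, hpd, hqd, T_sub hf.toBd (hf.toBd.T _), S.T₃ hf.toBd]; ring
  have e' : ∀ x, 3 * (f x - S.P f x) = 2 * (p x + q x) - r x := fun x => by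
    have := e x
    simp only [Sys.P, hpd, hqd] at this ⊢; linarith
  rw [h1, hr.N2, ENNReal.ofReal_le_ofReal_iff (by positivity)] at h2
  have h3 : 4 * ∫ x, p x * q x ∂m ≤ ∫ x, (p x + q x) ^ 2 ∂m := by
    rw [← integral_const_mul]
    exact integral_mono ((hp.mul hq.toBd).cmul 4).int (hp.add hq).sq fun x => by
      nlinarith [sq_nonneg (p x - q x)]
  have h4 : 4 * ∫ x, (p x + q x) ^ 2 ∂m ≤
      18 * ∫ x, (f x - S.P f x) ^ 2 ∂m + 2 * ∫ x, r x ^ 2 ∂m := by
    rw [← integral_const_mul, ← integral_const_mul, ← integral_const_mul,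
      ← integral_add ((hf.lapP S).sq.const_mul _) (hr.sq.const_mul _)]
    refine integral_mono ((hp.add hq).sq.const_mul _)
      (((hf.lapP S).sq.const_mul _).add (hr.sq.const_mul _)) fun x => ?_
    have : p x + q x = (3 * (f x - S.P f x) + r x) / 2 := by linarith [e' x]
    simp only [this]
    nlinarith [sq_nonneg (3 * (f x - S.P f x) - r x)]
  have h5 : ∫ x, (f x - T S.ν₃ f x) ^ 2 ∂m ≤
      2 * ∫ x, (p x + q x) ^ 2 ∂m + 2 * ∫ x, r x ^ 2 ∂m := by
    rw [← integral_const_mul, ← integral_const_mul,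
      ← integral_add ((hp.add hq).sq.const_mul _) (hr.sq.const_mul _)]
    refine integral_mono (hf.lap S.s₃).sq
      (((hp.add hq).sq.const_mul _).add (hr.sq.const_mul _)) fun x => ?_
    simp only [e x]
    nlinarith [sq_nonneg (p x + q x + r x)]
  rw [h1, (hf.lap S.s₃).N2]
  exact ⟨ENNReal.ofReal_le_ofReal (by linarith), ENNReal.ofReal_le_ofReal (by linarith)⟩

end Pool.Agent.Lib.MP_60cbcc_al.H8W
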