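import Mathlib

/-!
Simple real linear Lie groups.
-/

namespace Pool.Agent.Lib.MP_60cbcc_al.H8W

open scoped Matrix

/-- The Lie algebra of a group of real matrices: all `X` with `exp (t X)` in the group for all
real `t`. -/
def lieAlg {n : ℕ} (G : Subgroup (GL (Fin n) ℝ)) : Set (Matrix (Fin n) (Fin n) ℝ) :=
  {X | ∀ t : ℝ, ∃ g ∈ G, (g : Matrix (Fin n) (Fin n) ℝ) = NormedSpace.exp (t • X)}

/-- Closed, connected, non-compact groups of real matrices that are stable under transposition and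
have a simple Lie algebra. -/
structure IsNoncompactSimple {n : ℕ} (G : Subgroup (GL (Fin n) ℝ)) : Prop where
  closed : IsClosed (G : Set (GL (Fin n) ℝ))
  connected : IsConnected (G : Set (GL (Fin n) ℝ))
  noncompact : ¬ IsCompact (G : Set (GL (Fin n) ℝ))
  transpose : ∀ g ∈ G, ∃ h ∈ G, (h : Matrix (Fin n) (Fin n) ℝ) = (g : Matrix (Fin n) (Fin n) ℝ)ᵀ
  nonabelian : ∃ X ∈ lieAlg G, ∃ Y ∈ lieAlg G, X * Y ≠ Y * X
  simple : ∀ I : Submodule ℝ (Matrix (Fin n) (Fin n) ℝ), (I : Set _) ⊆ lieAlg G →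
    (∀ X ∈ lieAlg G, ∀ Y ∈ I, X * Y - Y * X ∈ I) → I = ⊥ ∨ (I : Set _) = lieAlg G

end Pool.Agent.Lib.MP_60cbcc_al.H8W
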