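import Mathlib

/-!
Uniform irreducible lattices in products and property FW.
-/

namespace Pool.Agent.Lib.MP_60cbcc_al.H8W

open scoped Pointwise

/-- Discrete cocompact subgroups of a product with dense projection to the product of all factors
but one, for each omitted factor. -/
structure IsUniformIrreducible {ι : Type} {G : ι → Type} [∀ i, Group (G i)]
    [∀ i, TopologicalSpace (G i)] (Γ : Subgroup (∀ i, G i)) : Prop where
  discrete : DiscreteTopology Γ
  cocompact : ∃ C : Set (∀ i, G i), IsCompact C ∧ ∀ g, ∃ γ ∈ Γ, γ * g ∈ C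
  dense : ∀ i, DenseRange fun (γ : Γ) (j : {j // j ≠ i}) => γ.1 j.1

/-- Property FW: every commensurated subset of a set with an action is commensurate to an invariant
subset. -/
def HasFW (Γ : Type) [Group Γ] : Prop :=
  ∀ (X : Type) [MulAction Γ X] (A : Set X), (∀ γ : Γ, (γ • A \ A).Finite) →
    ∃ B : Set X, (∀ γ : Γ, γ • B = B) ∧ (symmDiff A B).Finite

end Pool.Agent.Lib.MP_60cbcc_al.H8W
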