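import Pool.Agent.Lib.MP_60cbcc_al.H8WTop

/-!
Drift functions from Gram determinants.
-/

namespace Pool.Agent.Lib.MP_60cbcc_al.H8W

open Set Filter Topology Matrix
open scoped MatrixOrder

variable {N k : Type} [Fintype N] [Fintype k] [DecidableEq k]

/-- The Gram determinant of the columns. -/
def gr (M : Matrix N k ℝ) : ℝ := (Mᵀ * M).det

theorem gr_mul (M : Matrix N k ℝ) (R : Matrix k k ℝ) : gr (M * R) = R.det ^ 2 * gr M := by
  rw [gr, gr, transpose_mul, Matrix.mul_assoc, ← Matrix.mul_assoc Mᵀ, det_mul, det_mul,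
    det_transpose]
  ring

theorem gr_pos {M : Matrix N k ℝ} (h : Function.Injective M.mulVec) : 0 < gr M :=
  (PosDef.conjTranspose_mul_self M h).det_pos

omit [DecidableEq k] in
theorem inj_of {l : Type} [Fintype l] {M : Matrix N k ℝ} {B : Matrix l N ℝ}
    (h : Function.Injective (B * M).mulVec) : Function.Injective M.mulVec := fun x y e =>
  h (by simp only [← mulVec_mulVec, e])

theorem inj_one : Function.Injective (1 : Matrix k k ℝ).mulVec := fun x y e => by simpa using e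

theorem det_one_add (Z : Matrix N k ℝ) :
    1 ≤ (1 + Zᵀ * Z).det ∧ ((1 + Zᵀ * Z).det = 1 → Z = 0) := by
  have hA : (Zᵀ * Z).PosSemidef := posSemidef_conjTranspose_mul_self Z
  have e : (1 + Zᵀ * Z).det = ∏ i, (1 + hA.1.eigenvalues i) := by
    have h1 := hA.1.spectral_theorem
    have h2 : 1 + Zᵀ * Z = Unitary.conjStarAlgAut ℝ _ hA.1.eigenvectorUnitary
        (diagonal fun i => 1 + hA.1.eigenvalues i) := by
      rw [← diagonal_add, map_add, diagonal_one, map_one]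
      exact congrArg _ h1
    rw [h2, Unitary.conjStarAlgAut_apply, det_mul, det_mul, mul_right_comm, ← det_mul,
      Unitary.mul_star_self_of_mem (Subtype.prop _), det_one, one_mul, det_diagonal]
  have h1 : ∀ i, 1 ≤ 1 + hA.1.eigenvalues i := fun i => by linarith [hA.eigenvalues_nonneg i]
  rw [e]
  refine ⟨Finset.one_le_prod fun i _ => h1 i, fun h => ?_⟩
  refine conjTranspose_mul_self_eq_zero.1 (hA.1.eigenvalues_eq_zero_iff.1 (funext fun i => ?_))
  rw [← Finset.mul_prod_erase _ _ (Finset.mem_univ i)] at h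
  have h2 := le_mul_of_one_le_right (zero_le_one.trans (h1 i))
    (Finset.one_le_prod (s := Finset.univ.erase i) fun j _ => h1 j)
  exact le_antisymm (by rw [h] at h2; simpa using h2) (hA.eigenvalues_nonneg i)

theorem exists_orth {M : Matrix N k ℝ} (h : Function.Injective M.mulVec) :
    ∃ R : Matrix k k ℝ, IsUnit R.det ∧ (M * R)ᵀ * (M * R) = 1 := by
  have hA : (Mᵀ * M).PosSemidef := posSemidef_conjTranspose_mul_self M
  have h1 := CFC.sqrt_mul_sqrt_self (Mᵀ * M) hA.nonneg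
  have h2 : (CFC.sqrt (Mᵀ * M))ᵀ = CFC.sqrt (Mᵀ * M) := (CFC.sqrt_nonneg (Mᵀ * M)).posSemidef.1
  generalize CFC.sqrt (Mᵀ * M) = S at h1 h2
  have h3 : IsUnit S.det := isUnit_iff_ne_zero.2 fun h0 => (gr_pos h).ne' (by
    rw [gr, ← h1, det_mul, h0, zero_mul])
  refine ⟨S⁻¹, isUnit_nonsing_inv_det S h3, ?_⟩
  rw [transpose_mul, Matrix.mul_assoc, ← Matrix.mul_assoc Mᵀ, ← h1, transpose_nonsing_inv, h2,
    mul_nonsing_inv_cancel_right _ _ h3, nonsing_inv_mul _ h3]

theorem gr_dual {A B : Matrix N k ℝ} (h : Bᵀ * A = 1) :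
    1 ≤ gr A * gr B ∧ (gr A * gr B = 1 → ∃ R : Matrix k k ℝ, A = B * R) := by
  obtain ⟨R, h1, h2⟩ := exists_orth (M := A) (inj_of (B := Bᵀ) (h ▸ inj_one))
  have h3 : (B * R⁻¹ᵀ)ᵀ * (A * R) = 1 := by
    rw [transpose_mul, transpose_transpose, Matrix.mul_assoc, ← Matrix.mul_assoc Bᵀ, h,
      Matrix.one_mul, nonsing_inv_mul _ h1]
  have h4 : (A * R)ᵀ * (B * R⁻¹ᵀ) = 1 := by simpa using congrArg transpose h3
  have h5 : gr A * gr B = (1 + (B * R⁻¹ᵀ - A * R)ᵀ * (B * R⁻¹ᵀ - A * R)).det := by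
    have h6 : gr (A * R) = 1 := by rw [gr, h2, det_one]
    rw [transpose_sub, Matrix.sub_mul, Matrix.mul_sub, Matrix.mul_sub, h2, h3, h4, sub_self,
      sub_zero, add_sub_cancel, ← gr, ← one_mul (gr (B * _)), ← h6, gr_mul, gr_mul, det_transpose,
      mul_mul_mul_comm, ← mul_pow, ← det_mul, mul_nonsing_inv _ h1, det_one, one_pow, one_mul]
  rw [h5]
  refine ⟨(det_one_add _).1, fun h6 => ⟨R⁻¹ᵀ * R⁻¹, ?_⟩⟩
  rw [← Matrix.mul_assoc, sub_eq_zero.1 ((det_one_add _).2 h6), mul_nonsing_inv_cancel_right _ _ h1]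

omit [Fintype k] in
theorem orth_cpt : IsCompact {M : Matrix N k ℝ | Mᵀ * M = 1} := by
  refine (isCompact_Icc (a := (-1 : ℝ)) (b := 1)).matrix.of_isClosed_subset
    (isClosed_eq (by fun_prop) continuous_const) fun M hM i j => ?_
  have h1 : ∑ i, M i j ^ 2 = 1 := by
    simpa [Matrix.mul_apply, pow_two] using congrFun (congrFun hM j) j
  exact abs_le.1 (abs_le_one_iff_mul_self_le_one.2 (by
    rw [← h1, ← pow_two]
    exact Finset.single_le_sum (f := fun i => M i j ^ 2) (fun _ _ => sq_nonneg _)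
      (Finset.mem_univ i)))

theorem drift_of_rep [DecidableEq N] {H : Type} [Group H] [TopologicalSpace H]
    (τ : H →* Matrix N N ℝ) (hτ : Continuous τ) (V : Submodule ℝ (N → ℝ))
    (hV : ∀ h, ∀ v ∈ V, τ h *ᵥ v ∈ V) (M₀ : Matrix N k ℝ) (h0 : Function.Injective M₀.mulVec)
    (hM : ∀ x, M₀ *ᵥ x ∈ V)
    (hP : ∀ M : Matrix N k ℝ, Function.Injective M.mulVec → (∀ x, M *ᵥ x ∈ V) →
      ∃ p, (τ p)ᵀ = τ p ∧ ∀ R : Matrix k k ℝ, τ (p * p) * M ≠ M * R)
    {L : Subgroup H} (hL : ∀ l ∈ L, ∃ R : Matrix k k ℝ, τ l * M₀ = M₀ * R) : Drift L := by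
  have pos : ∀ h {M : Matrix N k ℝ}, Function.Injective M.mulVec → Function.Injective
      (τ h * M).mulVec := fun h M hM =>
    inj_of (B := τ h⁻¹) (by rwa [← Matrix.mul_assoc, ← map_mul, inv_mul_cancel, map_one,
      Matrix.one_mul])
  set K := {M : Matrix N k ℝ | Mᵀ * M = 1 ∧ ∀ x, M *ᵥ x ∈ V} with hK
  have hKi : ∀ M ∈ K, Function.Injective M.mulVec := fun M hM =>
    inj_of (B := Mᵀ) (hM.1 ▸ inj_one)
  have hKc : IsCompact K := by
    rw [hK, ofPred_and, ofPred_forall]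
    exact orth_cpt.inter_right (isClosed_iInter fun x =>
      V.closed_of_finiteDimensional.preimage (by fun_prop))
  have cg : ∀ p, Continuous fun M : Matrix N k ℝ => gr (τ p * M) := fun p => by
    unfold gr; fun_prop
  have cl : ∀ p, ContinuousOn (fun M => Real.log (gr (τ p * M))) K := fun p =>
    (cg p).continuousOn.log fun M hM => (gr_pos (pos p (hKi M hM))).ne'
  have du : ∀ p, (τ p)ᵀ = τ p → ∀ M ∈ K, (τ p⁻¹ * M)ᵀ * (τ p * M) = 1 := fun p hp M hM => by
    have := congrArg transpose (show (τ p * M)ᵀ * (τ p⁻¹ * M) = 1 by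
      rw [transpose_mul, hp, Matrix.mul_assoc, ← Matrix.mul_assoc (τ p), ← map_mul, mul_inv_cancel,
        map_one, Matrix.one_mul, hM.1])
    rwa [transpose_mul, transpose_transpose, transpose_one] at this
  obtain ⟨t, ht⟩ := hKc.elim_finite_subcover (ι := {p // (τ p)ᵀ = τ p})
    (fun p => {M | 1 < gr (τ p * M) * gr (τ p.1⁻¹ * M)})
    (fun p => isOpen_lt continuous_const ((cg _).mul (cg _))) fun M hM => by
      obtain ⟨p, h1, h2⟩ := hP M (hKi M hM) hM.2
      refine mem_iUnion.2 ⟨⟨p, h1⟩, (gr_dual (du p h1 M hM)).1.lt_of_ne fun h3 => ?_⟩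
      obtain ⟨R, h4⟩ := (gr_dual (du p h1 M hM)).2 h3.symm
      refine h2 R ?_
      rw [map_mul, Matrix.mul_assoc, h4, ← Matrix.mul_assoc, ← Matrix.mul_assoc, ← map_mul,
        mul_inv_cancel, map_one, Matrix.one_mul]
  have lg : ∀ p, ∀ M ∈ K, Real.log (gr (τ p * M)) + Real.log (gr (τ p⁻¹ * M)) =
      Real.log (gr (τ p * M) * gr (τ p⁻¹ * M)) := fun p M hM =>
    (Real.log_mul (gr_pos (pos p (hKi M hM))).ne' (gr_pos (pos _ (hKi M hM))).ne').symm
  obtain ⟨c, hc, hc'⟩ := hKc.exists_forall_le' (a := 0)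
    (f := fun M => ∑ p : t, (Real.log (gr (τ p * M)) + Real.log (gr (τ p.1.1⁻¹ * M))))
    (continuousOn_finsetSum _ fun p _ => (cl _).add (cl _)) fun M hM => by
      obtain ⟨p, hp, h1⟩ := mem_iUnion₂.1 (ht hM)
      exact Finset.sum_pos' (fun q _ => (Real.log_nonneg (gr_dual (du _ q.1.2 M hM)).1).trans_eq
        (lg _ M hM).symm) ⟨⟨p, hp⟩, Finset.mem_univ _, (Real.log_pos h1).trans_eq (lg _ M hM).symm⟩
  have sc : ∀ (M : Matrix N k ℝ) (R : Matrix k k ℝ), Function.Injective M.mulVec → R.det ≠ 0 →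
      Real.log (gr (M * R)) = Real.log (R.det ^ 2) + Real.log (gr M) := fun M R h1 h2 => by
    rw [gr_mul, Real.log_mul (pow_ne_zero 2 h2) (gr_pos h1).ne']
  have red : ∀ h, ∃ M ∈ K, ∀ p, Real.log (gr (τ (p * h) * M₀)) - Real.log (gr (τ h * M₀)) =
      Real.log (gr (τ p * M)) := fun h => by
    obtain ⟨R, h1, h2⟩ := exists_orth (pos h h0)
    refine ⟨_, ⟨h2, fun x => ?_⟩, fun p => ?_⟩
    · rw [← mulVec_mulVec, ← mulVec_mulVec]
      exact hV _ _ (hM _)
    · have h3 := sc _ R (pos h h0) h1.ne_zero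
      rw [gr, h2, det_one, Real.log_one] at h3
      rw [← Matrix.mul_assoc, ← Matrix.mul_assoc, ← map_mul, sc _ R (pos _ h0) h1.ne_zero]
      linarith
  have cθ : Continuous fun h => Real.log (gr (τ h * M₀)) :=
    Continuous.log (by unfold gr; fun_prop) fun h => (gr_pos (pos h h0)).ne'
  refine ⟨t, inferInstance, fun p => p, fun p h => Real.log (gr (τ (p * h) * M₀)) -
    Real.log (gr (τ h * M₀)), c, hc, fun p => ?_, fun p => ?_, fun p h l hl => ?_, fun h => ?_⟩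
  · refine .sub (.log ?_ fun h => (gr_pos (pos _ h0)).ne') cθ
    simp only [map_mul]; unfold gr; fun_prop
  · obtain ⟨C, hC⟩ := hKc.exists_bound_of_continuousOn (cl p)
    refine ⟨C, fun h => ?_⟩
    obtain ⟨M, h1, h2⟩ := red h
    simpa only [h2, Real.norm_eq_abs] using hC M h1
  · obtain ⟨R, h1⟩ := hL l hl
    have h2 : R.det ≠ 0 := fun h2 => (gr_pos (pos l h0)).ne' (by rw [h1, gr_mul, h2]; simp)
    have h3 : ∀ g, τ (g * l) * M₀ = τ g * M₀ * R := fun g => by
      rw [map_mul, Matrix.mul_assoc, h1, Matrix.mul_assoc]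
    simp only [← mul_assoc, h3, sc _ R (pos _ h0) h2]
    ring
  · obtain ⟨M, h1, h2⟩ := red h
    refine (hc' M h1).trans_eq (Finset.sum_congr rfl fun p _ => ?_)
    simp only [← h2, mul_inv_cancel_left]
    ring

end Pool.Agent.Lib.MP_60cbcc_al.H8W
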