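import Pool.Agent.Lib.MP_60cbcc_al.H8WTop

/-!
Commensurated subsets for uniform lattices in products.
-/

namespace Pool.Agent.Lib.MP_60cbcc_al.H8W

open MeasureTheory Set Filter Topology
open scoped ENNReal Pointwise

section
variable {G X : Type} [Group G] (Γ : Subgroup G) [MulAction Γ X]

/-- The stabiliser of a point as a subgroup of the ambient group. -/
def St (y : X) : Subgroup G := (MulAction.stabilizer Γ y).map Γ.subtype

/-- Commensurated subsets. -/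
def Com (A : Set X) : Prop := ∀ γ : Γ, {y | ¬ (γ • y ∈ A ↔ y ∈ A)}.Finite

open Classical in
/-- The sign function of a subset, pulled back to the ambient group. -/
noncomputable def sgn (r : G → Γ) (y : X) (A : Set X) (g : G) : ℝ := if r g • y ∈ A then 1 else -1

variable {Γ} {r : G → Γ} {y : X} {A : Set X} {C : Set G}

theorem St_le : St Γ y ≤ Γ := Subgroup.map_subtype_le _

theorem mem_St {γ : Γ} : (γ : G) ∈ St Γ y ↔ γ • y = y := by simp [St]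

theorem St_smul {l : G} (hl : l ∈ St Γ y) : (⟨l, St_le hl⟩ : Γ) • y = y := mem_St.1 hl

theorem sgn_congr {g g' : G} (h : r g • y ∈ A ↔ r g' • y ∈ A) : sgn Γ r y A g = sgn Γ r y A g' := by
  by_cases h' : r g' • y ∈ A
  · rw [sgn, sgn, if_pos h', if_pos (h.2 h')]
  · rw [sgn, sgn, if_neg h', if_neg (mt h.1 h')]

theorem sgn_one {g : G} : sgn Γ r y A g = 1 ↔ r g • y ∈ A := by
  by_cases h : r g • y ∈ A <;> norm_num [sgn, h]

theorem sgn_neg {g : G} : sgn Γ r y A g = -1 ↔ r g • y ∉ A := by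
  by_cases h : r g • y ∈ A <;> norm_num [sgn, h]

variable [MeasurableSpace G]

theorem Sel.smul_inv (h : Sel Γ r) (g : G) {l : G} (hl : l ∈ St Γ y) : r (g * l) • y = r g • y := by
  rw [h.eqv g ⟨l, St_le hl⟩, mul_smul, St_smul hl]

theorem Sel.sgn_inv (h : Sel Γ r) (g l : G) (hl : l ∈ St Γ y) :
    sgn Γ r y A (g * l) = sgn Γ r y A g := sgn_congr (by rw [h.smul_inv g hl])

theorem Sel.sgn_out (h : Sel Γ r) (g : G) :
    sgn Γ r y A (g : G ⧸ St Γ y).out = sgn Γ r y A g := by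
  obtain ⟨l, hl⟩ := QuotientGroup.mk_out_eq_mul (St Γ y) g
  rw [hl, h.sgn_inv g l l.2]

variable [TopologicalSpace G] [IsTopologicalGroup G] [T2Space G] [DiscreteTopology Γ]

omit [MulAction Γ X] [MeasurableSpace G] in
theorem coc_fin (hC : IsCompact C) (hr : ∀ g, g * (r g : G)⁻¹ ∈ C) {K : Set G} (hK : IsCompact K) :
    ∃ Φ : Set Γ, Φ.Finite ∧ ∀ s ∈ K, ∀ g, r (s * g) * (r g)⁻¹ ∈ Φ :=
  ⟨_, fin_cpt Γ ((hC.inv.mul hK).mul hC), fun s hs g =>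
    ⟨_, ⟨(s * g * (r (s * g) : G)⁻¹)⁻¹, by simpa only [Set.mem_inv, inv_inv] using hr _, s, hs, rfl⟩,
      _, hr g, by simp [mul_assoc]⟩⟩

omit [MulAction Γ X] in
theorem Sel.fg (h : Sel Γ r) (hC : IsCompact C) (hr : ∀ g, g * (r g : G)⁻¹ ∈ C)
    (hG : ∃ S : Set G, IsCompact S ∧ Subgroup.closure S = ⊤) :
    ∃ Φ : Set Γ, Φ.Finite ∧ Subgroup.closure Φ = ⊤ := by
  obtain ⟨S, hS, hg⟩ := hG
  obtain ⟨Φ, hΦ, h1⟩ := coc_fin hC hr (hS.union hS.inv)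
  have h2 : ∀ g, r g ∈ Subgroup.closure (insert (r 1) Φ) := fun g => by
    have h3 : ∀ s ∈ S ∪ S⁻¹, ∀ g, r g ∈ Subgroup.closure (insert (r 1) Φ) →
        r (s * g) ∈ Subgroup.closure (insert (r 1) Φ) := fun s hs g hg => by
      simpa using mul_mem (Subgroup.subset_closure (.inr (h1 s hs g))) hg
    induction hg.ge (Subgroup.mem_top g) using Subgroup.closure_induction_left with
    | one => exact Subgroup.subset_closure (.inl rfl)
    | mul_left s hs k _ ih => exact h3 s (.inl hs) k ih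
    | inv_mul_cancel s hs k _ ih => exact h3 _ (.inr (by simpa using hs)) k ih
  refine ⟨_, hΦ.insert (r 1), top_le_iff.1 fun γ _ => ?_⟩
  simpa only [h.eqv, inv_mul_cancel_left] using mul_mem (inv_mem (h2 1)) (h2 (1 * γ))

omit [MeasurableSpace G] in
theorem sgn_cut (hC : IsCompact C) (hr : ∀ g, g * (r g : G)⁻¹ ∈ C) (hA : Com Γ A) (K : Set G)
    (hK : IsCompact K) : ∃ C', IsCompact C' ∧
      ∀ g, (∀ l ∈ St Γ y, g * l ∉ C') → ∀ s ∈ K, sgn Γ r y A (s * g) = sgn Γ r y A g := by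
  obtain ⟨Φ, hΦ, h1⟩ := coc_fin hC hr hK
  obtain ⟨T, -, hT, h2⟩ := ((hΦ.biUnion fun γ _ => hA γ).inter_of_left
    ((fun γ : Γ => γ • y) '' univ)).exists_subset_finite_image_eq inter_subset_right
  refine ⟨C * Subtype.val '' T, hC.mul (hT.image _).isCompact, fun g hg s hs => sgn_congr ?_⟩
  by_contra h3
  obtain ⟨γ, hγ, e⟩ := h2.ge (mem_inter (mem_biUnion (h1 s hs g) (by simpa [mul_smul] using h3))
    (mem_image_of_mem _ (mem_univ (r g))))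
  exact hg ((r g)⁻¹ * γ : Γ) (mem_St.2 (by rw [mul_smul, show γ • y = r g • y from e, inv_smul_smul]))
    ⟨_, hr g, _, ⟨γ, hγ, rfl⟩, by simp [mul_assoc]⟩

omit [MeasurableSpace G] in
theorem small {P : X → Prop} (hC : IsCompact C)
    (h1 : ∀ γ : Γ, (∀ l ∈ St Γ y, γ * l ∉ C) → ¬ P (γ • y)) :
    {x | x ∈ MulAction.orbit Γ y ∧ P x}.Finite := by
  refine ((fin_cpt Γ hC).image fun γ => γ • y).subset ?_
  rintro _ ⟨⟨γ, rfl⟩, hγ⟩
  have h2 := mt (h1 γ) (not_not.2 hγ)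
  push Not at h2
  obtain ⟨l, hl, h3⟩ := h2
  exact ⟨γ * ⟨l, St_le hl⟩, h3, by simp only [mul_smul, St_smul hl]⟩

omit [MeasurableSpace G] in
theorem not_const (h : ∀ γ : Γ, r γ = γ) (hp : {x | x ∈ MulAction.orbit Γ y ∧ x ∈ A}.Infinite)
    (hn : {x | x ∈ MulAction.orbit Γ y ∧ x ∉ A}.Infinite) :
    ¬ ∃ e C, IsCompact C ∧ ∀ g, (∀ l ∈ St Γ y, g * l ∉ C) → sgn Γ r y A g = e := by
  rintro ⟨e, C', h1, h2⟩
  by_cases he : e = 1
  · exact hn (small h1 fun g hg => not_not.2 (h g ▸ sgn_one.1 ((h2 g hg).trans he)))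
  · exact hp (small h1 fun g hg h3 => he ((h2 g hg).symm.trans (sgn_one.2 (by rwa [h]))))

variable [BorelSpace G] [SecondCountableTopology G]

theorem Sel.sub (h : Sel Γ r) (μ : Measure G) [μ.IsMulRightInvariant] [μ.IsOpenPosMeasure] (y : X) :
    ∃ r' : G → St Γ y, Sel (St Γ y) r' ∧ ∀ P : X → Prop,
      {x | x ∈ MulAction.orbit Γ y ∧ P x}.Infinite → μ ({g | P (r g • y)} ∩ {g | r' g = 1}) = ∞ := by
  have := count_disc Γ
  let ρ : G → St Γ y := fun g => ⟨(g : G ⧸ St Γ y).out⁻¹ * g, QuotientGroup.eq.1 (by simp)⟩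
  have hρ : ∀ g (l : St Γ y), ρ (g * l) = ρ g * l := fun g l =>
    Subtype.ext (by simp [ρ, mul_assoc])
  refine ⟨fun g => ρ (r g), ⟨(measurable_of_countable fun γ : Γ => ρ γ).comp h.meas, fun g l => by
    simp only [h.eqv g ⟨l, St_le l.2⟩, Subgroup.coe_mul, hρ]⟩, fun P hP => ?_⟩
  set T : Set Γ := {γ | P (γ • y) ∧ ρ γ = 1} with hT
  have h1 : T.Infinite := by
    refine .of_image (fun γ => γ • y) (hP.mono ?_)
    rintro _ ⟨⟨γ, rfl⟩, hγ⟩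
    have e : (γ * ⟨((ρ γ)⁻¹ : St Γ y), St_le (Subtype.prop _)⟩) • y = γ • y := by
      rw [mul_smul, St_smul (Subtype.prop ((ρ γ)⁻¹ : St Γ y))]
    exact ⟨_, ⟨e ▸ hγ, (hρ γ (ρ γ)⁻¹).trans (mul_inv_cancel _)⟩, e⟩
  have := h1.to_subtype
  have hm : MeasurableSet (r ⁻¹' T) := h.meas T.to_countable.measurableSet
  change μ (r ⁻¹' T) = ∞
  rw [← lintegral_indicator_one hm, h.unf (measurable_one.indicator hm),
    setLIntegral_congr_fun (h.mD 1) (g := fun _ => ∞), setLIntegral_const, ENNReal.top_mul h.pos]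
  intro g (hg : r g = 1)
  rw [← ENNReal.tsum_const_eq_top_of_ne_zero (α := T) one_ne_zero,
    tsum_subtype T fun _ => (1 : ℝ≥0∞)]
  refine tsum_congr fun l => ?_
  by_cases hl : l ∈ T
  · rw [indicator_of_mem hl, indicator_of_mem (by simpa [h.eqv, hg] using hl)]; rfl
  · rw [indicator_of_notMem hl, indicator_of_notMem (by simpa [h.eqv, hg] using hl)]

end

variable {G₁ G₂ X : Type} [Group G₁] [TopologicalSpace G₁] [IsTopologicalGroup G₁]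
  [LocallyCompactSpace G₁] [SecondCountableTopology G₁] [T2Space G₁] [Group G₂]
  [TopologicalSpace G₂] [IsTopologicalGroup G₂] [LocallyCompactSpace G₂]
  [SecondCountableTopology G₂] [T2Space G₂] {Γ : Subgroup (G₁ × G₂)} [DiscreteTopology Γ]
  [MulAction Γ X] {y : X} {A : Set X} [MeasurableSpace G₁] [BorelSpace G₁] [MeasurableSpace G₂]
  [BorelSpace G₂]

omit [SecondCountableTopology G₁] [T2Space G₁] [T2Space G₂] in
theorem unimod_prod (μ₁ : Measure G₁) (μ₂ : Measure G₂) [μ₁.IsHaarMeasure] [μ₂.IsHaarMeasure]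
    [(μ₁.prod μ₂).IsMulRightInvariant] : μ₁.IsMulRightInvariant ∧ μ₂.IsMulRightInvariant := by
  obtain ⟨K₁, c₁, n₁⟩ := exists_compact_mem_nhds (1 : G₁)
  obtain ⟨K₂, c₂, n₂⟩ := exists_compact_mem_nhds (1 : G₂)
  refine ⟨⟨fun s => Measure.ext fun A hA => ?_⟩, ⟨fun s => Measure.ext fun A hA => ?_⟩⟩
  · have := measure_preimage_mul_right (μ₁.prod μ₂) (s, 1) (A ×ˢ K₂)
    rw [show (fun h : G₁ × G₂ => h * (s, 1)) ⁻¹' A ×ˢ K₂ = ((· * s) ⁻¹' A) ×ˢ K₂ by ext; simp,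
      Measure.prod_prod, Measure.prod_prod] at this
    rw [Measure.map_apply (measurable_mul_const s) hA]
    exact (ENNReal.mul_left_inj (μ₂.measure_pos_of_mem_nhds n₂).ne' c₂.measure_ne_top).1 this
  · have := measure_preimage_mul_right (μ₁.prod μ₂) (1, s) (K₁ ×ˢ A)
    rw [show (fun h : G₁ × G₂ => h * (1, s)) ⁻¹' K₁ ×ˢ A = K₁ ×ˢ ((· * s) ⁻¹' A) by ext; simp,
      Measure.prod_prod, Measure.prod_prod] at this
    rw [Measure.map_apply (measurable_mul_const s) hA]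
    exact (ENNReal.mul_right_inj (μ₁.measure_pos_of_mem_nhds n₁).ne' c₁.measure_ne_top).1 this

theorem exists_split (h₁ : ∃ S : Set G₁, IsCompact S ∧ Subgroup.closure S = ⊤)
    (h₂ : ∃ S : Set G₂, IsCompact S ∧ Subgroup.closure S = ⊤) {r : G₁ × G₂ → Γ} (h : Sel Γ r)
    {C : Set (G₁ × G₂)} (hC : IsCompact C) (hr : ∀ g, g * (r g : G₁ × G₂)⁻¹ ∈ C) (hA : Com Γ A)
    (hp : {x | x ∈ MulAction.orbit Γ y ∧ x ∈ A}.Infinite)
    (hn : {x | x ∈ MulAction.orbit Γ y ∧ x ∉ A}.Infinite) :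
    ∃ (a : G₁ → ℝ) (b : G₂ → ℝ), Continuous a ∧ Continuous b ∧
      (∀ l ∈ St Γ y, ∀ s t, a (s * l.1) + b (t * l.2) = a s + b t) ∧
      (∀ s₀ t₀, (∀ s, a s ≤ a s₀) → ¬ ∀ t, b t ≤ b t₀) ∧
      (Lyap ((1 : G₁ × G₂) : (G₁ × G₂) ⧸ St Γ y) {g : G₁ × G₂ | g.1 = 1} → ∀ s, a s = a 1) ∧
      (Lyap ((1 : G₁ × G₂) : (G₁ × G₂) ⧸ St Γ y) {g : G₁ × G₂ | g.2 = 1} → ∀ t, b t = b 1) := by
  have : DiscreteTopology (St Γ y) := DiscreteTopology.of_subset ‹DiscreteTopology Γ› St_le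
  have := count_disc Γ
  have := count_disc (St Γ y)
  set μ₁ : Measure G₁ := Measure.haar
  set μ₂ : Measure G₂ := Measure.haar
  have := h.unimod hC hr (μ₁.prod μ₂)
  obtain ⟨_, _⟩ := unimod_prod μ₁ μ₂
  obtain ⟨r', h', big⟩ := h.sub (μ₁.prod μ₂) y
  have := h'.smul₂
  have := h'.inv (μ := μ₁.prod μ₂)
  have e : ∀ g : G₁ × G₂, g • ((1 : G₁ × G₂) : (G₁ × G₂) ⧸ St Γ y) = g := fun g => by simp
  have hm : Measurable fun x : (G₁ × G₂) ⧸ St Γ y => sgn Γ r y A x.out := by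
    rw [QuotientGroup.measurable_from_quotient, show (fun x : (G₁ × G₂) ⧸ St Γ y =>
      sgn Γ r y A x.out) ∘ QuotientGroup.mk = sgn Γ r y A from funext h.sgn_out]
    classical
    exact (measurable_of_countable fun γ : Γ => if γ • y ∈ A then (1 : ℝ) else -1).comp h.meas
  have hχ : Cut (G₁ × G₂) ((1 : G₁ × G₂) : (G₁ × G₂) ⧸ St Γ y) fun x => sgn Γ r y A x.out := by
    refine ⟨hm, fun x => by rw [sgn_one, sgn_neg]; exact em _, fun K hK => ?_⟩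
    obtain ⟨C', h1, h2⟩ := sgn_cut (y := y) hC hr hA K hK
    refine ⟨C', h1, fun x hx s hs => ?_⟩
    obtain ⟨g, rfl⟩ := QuotientGroup.mk_surjective x
    rw [MulAction.Quotient.smul_mk, h.sgn_out, h.sgn_out]
    exact h2 g (fun l hl h3 => hx ⟨_, h3, (e _).trans (QuotientGroup.mk_mul_of_mem _ hl)⟩) s hs
  have hq : ∀ c, qm (μ₁.prod μ₂) r' {x | sgn Γ r y A x.out = c} =
      μ₁.prod μ₂ ({g | sgn Γ r y A g = c} ∩ {g | r' g = 1}) := fun c => by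
    have h1 : MeasurableSet {x : (G₁ × G₂) ⧸ St Γ y | sgn Γ r y A x.out = c} :=
      hm (measurableSet_singleton c)
    rw [qm, Measure.map_apply QuotientGroup.measurable_coe h1,
      Measure.restrict_apply (QuotientGroup.measurable_coe h1)]
    simp only [preimage_ofPred_eq, h.sgn_out]
  obtain ⟨F, hF, inv, max, nc, sp, l₁, l₂⟩ := core (μ₁ := μ₁) (μ₂ := μ₂) h₁ h₂ h'.sp hχ
    (by rw [hq]; simpa only [sgn_one] using big (· ∈ A) hp)
    (by rw [hq]; simpa only [sgn_neg] using big (· ∉ A) hn)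
  refine ⟨fun s => F (s, 1), fun t => F (1, t), by fun_prop, by fun_prop, fun l hl s t => ?_,
    fun s₀ t₀ h1 h2 => nc _ (max (s₀, t₀) fun g => ?_), l₁, l₂⟩
  · have := inv ((s, t) * l) (s, t) (by rw [e, e, QuotientGroup.mk_mul_of_mem _ hl])
    linarith [sp s t, sp (s * l.1) (t * l.2), show F (s * l.1, t * l.2) = F (s, t) from this]
  · linarith [sp s₀ t₀, sp g.1 g.2, h1 g.1, h2 g.2]

omit [MeasurableSpace G₁] [BorelSpace G₁] [MeasurableSpace G₂] [BorelSpace G₂] [T2Space G₁]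
  [T2Space G₂] [LocallyCompactSpace G₁] [LocallyCompactSpace G₂] [SecondCountableTopology G₁]
  [SecondCountableTopology G₂] [IsTopologicalGroup G₁] [IsTopologicalGroup G₂] in
theorem endB {Λ : Subgroup (G₁ × G₂)} {a : G₁ → ℝ} {b : G₂ → ℝ} (ha : Continuous a)
    (hb : Continuous b) (inv : ∀ l ∈ Λ, ∀ s t, a (s * l.1) + b (t * l.2) = a s + b t)
    (max : ∀ s₀ t₀, (∀ s, a s ≤ a s₀) → ¬ ∀ t, b t ≤ b t₀)
    (c₁ : ∃ C, IsCompact C ∧ ∀ s, ∃ l ∈ Λ, s * l.1 ∈ C)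
    (c₂ : ∃ C, IsCompact C ∧ ∀ t, ∃ l ∈ Λ, t * l.2 ∈ C)
    (h : (∀ s, a s = a 1) ∨ ∀ t, b t = b 1) : False := by
  have h1 : ∀ l ∈ Λ, (∀ s, a (s * l.1) = a s) ∧ ∀ t, b (t * l.2) = b t := fun l hl => by
    rcases h with h | h
    · exact ⟨fun s => by rw [h, h s], fun t => by linarith [inv l hl 1 t, h (1 * l.1)]⟩
    · exact ⟨fun s => by linarith [inv l hl s 1, h (1 * l.2)], fun t => by rw [h, h t]⟩
  obtain ⟨C₁, c₁, d₁⟩ := c₁
  obtain ⟨C₂, c₂, d₂⟩ := c₂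
  obtain ⟨s₀, -, m₁⟩ := c₁.exists_isMaxOn (by obtain ⟨_, -, h⟩ := d₁ 1; exact ⟨_, h⟩)
    ha.continuousOn
  obtain ⟨t₀, -, m₂⟩ := c₂.exists_isMaxOn (by obtain ⟨_, -, h⟩ := d₂ 1; exact ⟨_, h⟩)
    hb.continuousOn
  refine max s₀ t₀ (fun s => ?_) fun t => ?_
  · obtain ⟨l, hl, h⟩ := d₁ s
    exact ((h1 l hl).1 s).ge.trans (m₁ h)
  · obtain ⟨l, hl, h⟩ := d₂ t
    exact ((h1 l hl).2 t).ge.trans (m₂ h)

omit [MeasurableSpace G₁] [BorelSpace G₁] [MeasurableSpace G₂] [BorelSpace G₂] [T2Space G₁]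
  [T2Space G₂] [LocallyCompactSpace G₁] [LocallyCompactSpace G₂] [SecondCountableTopology G₁]
  [SecondCountableTopology G₂] [IsTopologicalGroup G₂] [TopologicalSpace G₂] in
theorem add_of_dense {Λ : Subgroup (G₁ × G₂)} {a : G₁ → ℝ} {b : G₂ → ℝ} (ha : Continuous a)
    (inv : ∀ l ∈ Λ, ∀ s t, a (s * l.1) + b (t * l.2) = a s + b t)
    (hd : Dense (Prod.fst '' (Λ : Set (G₁ × G₂)))) (g x : G₁) : a (g * x) - a g = a x - a 1 :=
  hd.induction (P := fun x => a (g * x) - a g = a x - a 1) (by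
    rintro _ ⟨l, hl, rfl⟩
    have := inv l hl 1 1
    rw [one_mul] at this
    linarith [inv l hl g 1]) (isClosed_eq (by fun_prop) (by fun_prop)) x

omit [LocallyCompactSpace G₁] [LocallyCompactSpace G₂] [SecondCountableTopology G₁]
  [SecondCountableTopology G₂] [T2Space G₁] [T2Space G₂] [MeasurableSpace G₁] [BorelSpace G₁]
  [MeasurableSpace G₂] [BorelSpace G₂] [IsTopologicalGroup G₁] [IsTopologicalGroup G₂] in
theorem ker_fst (h : ∃ S : Set G₂, IsCompact S ∧ Subgroup.closure S = ⊤) :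
    ∃ Q : Set (G₁ × G₂), IsCompact Q ∧ (∀ g, MonoidHom.fst G₁ G₂ g = 1 → g ∈ Subgroup.closure Q) ∧
      ∀ q ∈ Q, MonoidHom.fst G₁ G₂ q = 1 := by
  obtain ⟨S, k, g⟩ := h
  refine ⟨_, k.image (f := MonoidHom.inr G₁ G₂) (.prodMk continuous_const continuous_id),
    fun x hx => ?_, by rintro _ ⟨t, -, rfl⟩; rfl⟩
  rw [← MonoidHom.map_closure, g]
  exact ⟨x.2, trivial, Prod.ext hx.symm rfl⟩

omit [LocallyCompactSpace G₁] [LocallyCompactSpace G₂] [SecondCountableTopology G₁]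
  [SecondCountableTopology G₂] [T2Space G₁] [T2Space G₂] [MeasurableSpace G₁] [BorelSpace G₁]
  [MeasurableSpace G₂] [BorelSpace G₂] [IsTopologicalGroup G₁] [IsTopologicalGroup G₂] in
theorem ker_snd (h : ∃ S : Set G₁, IsCompact S ∧ Subgroup.closure S = ⊤) :
    ∃ Q : Set (G₁ × G₂), IsCompact Q ∧ (∀ g, MonoidHom.snd G₁ G₂ g = 1 → g ∈ Subgroup.closure Q) ∧
      ∀ q ∈ Q, MonoidHom.snd G₁ G₂ q = 1 := by
  obtain ⟨S, k, g⟩ := h
  refine ⟨_, k.image (f := MonoidHom.inl G₁ G₂) (.prodMk continuous_id continuous_const),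
    fun x hx => ?_, by rintro _ ⟨t, -, rfl⟩; rfl⟩
  rw [← MonoidHom.map_closure, g]
  exact ⟨x.1, trivial, Prod.ext rfl hx.symm⟩

theorem coc_end [ConnectedSpace G₁] (n₁ : Nice G₁)
    (h₂ : ∃ S : Set G₂, IsCompact S ∧ Subgroup.closure S = ⊤) {L : Subgroup G₂} (n₂ : Drift L)
    (hL : ∀ n, ((1, n) : G₁ × G₂) ∈ Γ → n ∈ L) (d₁ : Dense (Prod.fst '' (Γ : Set (G₁ × G₂))))
    {r : G₁ × G₂ → Γ} (h : Sel Γ r) {C : Set (G₁ × G₂)} (hC : IsCompact C)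
    (hr : ∀ g, g * (r g : G₁ × G₂)⁻¹ ∈ C) (hr' : ∀ γ : Γ, r γ = γ) (hA : Com Γ A)
    (hp : {x | x ∈ MulAction.orbit Γ y ∧ x ∈ A}.Infinite)
    (hn : {x | x ∈ MulAction.orbit Γ y ∧ x ∉ A}.Infinite)
    (c₂ : ∃ C, IsCompact C ∧ ∀ s, ∃ l ∈ St Γ y, s * l.2 ∈ C) : False := by
  have c₁ : ∃ C, IsCompact C ∧ ∀ s, ∃ l ∈ St Γ y, s * l.1 ∈ C := by
    by_contra! h1
    obtain ⟨Q, q1, q2, q3⟩ := ker_fst (G₁ := G₁) h₂
    exact not_const hr' hp hn (caseA (i := fun s => (s, 1)) continuous_fst (by fun_prop)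
      (fun _ => rfl) q1 q2 q3 h.sgn_inv (sgn_cut hC hr hA) h1
      (esc_of_conn (i := fun s => (s, 1)) (by fun_prop) (fun _ => rfl) St_le d₁ h1))
  obtain ⟨a, b, ha, hb, inv, max, l₁, l₂⟩ := exists_split cgen h₂ h hC hr hA hp hn
  refine endB ha hb inv max c₁ c₂ ?_
  have e : ∀ g g' : G₁ × G₂, g • ((1 : G₁ × G₂) : (G₁ × G₂) ⧸ St Γ y) =
      g' • ((1 : G₁ × G₂) : (G₁ × G₂) ⧸ St Γ y) → ∃ l ∈ St Γ y, g = g' * l := fun g g' e =>
    ⟨g'⁻¹ * g, QuotientGroup.eq.1 (by simpa using e.symm), by simp⟩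
  rcases n₁.tri ((St Γ y).map (MonoidHom.fst G₁ G₂)) with h1 | h1 | h1
  · exact .inl (n₁.hom ha (add_of_dense ha inv h1))
  · obtain ⟨C₁, c₁, c₁'⟩ := c₁
    obtain ⟨r₁, -, s₁, -⟩ := exists_sel (Λ := (St Γ y).map (MonoidHom.fst G₁ G₂)) c₁ fun g => by
      obtain ⟨l, hl, h⟩ := c₁' g
      exact ⟨_, ⟨l, hl, rfl⟩, h⟩
    have := count_disc ((St Γ y).map (MonoidHom.fst G₁ G₂))
    choose u hu hu' using fun l : (St Γ y).map (MonoidHom.fst G₁ G₂) => l.2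
    refine .inl (l₁ (n₂.lyap (fun g => g.2 * (u (r₁ g.1)).2⁻¹) (measurable_snd.mul
      ((measurable_of_countable fun l => (u l).2⁻¹).comp (s₁.meas.comp measurable_fst)))
      (fun t => (1, t)) (fun _ => rfl) (fun t g => by simp [mul_assoc]) fun g g' e' => ?_))
    obtain ⟨l, hl, rfl⟩ := e g g' e'
    refine ⟨(u (r₁ g'.1) * l * (u (r₁ (g' * l).1))⁻¹).2, hL _ ?_, by simp [mul_assoc]⟩
    convert St_le (mul_mem (mul_mem (hu (r₁ g'.1)) hl) (inv_mem (hu (r₁ (g' * l).1)))) using 1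
    refine Prod.ext ?_ rfl
    have h2 : ∀ l, (u l).1 = l := hu'
    have h3 := congrArg Subtype.val (s₁.eqv g'.1 ⟨l.1, l, hl, rfl⟩)
    simp only [Prod.fst_mul, Prod.fst_inv, h2, h3, Subgroup.coe_mul, mul_inv_cancel]
  · refine .inr (l₂ (h1.lyap Prod.fst measurable_fst (fun s => (s, 1)) (fun _ => rfl)
      (fun _ _ => rfl) fun g g' e' => ?_))
    obtain ⟨l, hl, rfl⟩ := e g g' e'
    exact ⟨l.1, Subgroup.le_normalizer ⟨l, hl, rfl⟩, rfl⟩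

theorem orbit_tr [ConnectedSpace G₁] (n₁ : Nice G₁)
    (h₂ : ∃ S : Set G₂, IsCompact S ∧ Subgroup.closure S = ⊤) {L : Subgroup G₂} (n₂ : Drift L)
    (hL : ∀ n, ((1, n) : G₁ × G₂) ∈ Γ → n ∈ L) (d₁ : Dense (Prod.fst '' (Γ : Set (G₁ × G₂))))
    (d₂ : Dense (Prod.snd '' (Γ : Set (G₁ × G₂)))) {r : G₁ × G₂ → Γ} (h : Sel Γ r)
    {C : Set (G₁ × G₂)} (hC : IsCompact C) (hr : ∀ g, g * (r g : G₁ × G₂)⁻¹ ∈ C)
    (hr' : ∀ γ : Γ, r γ = γ) (hA : Com Γ A) (y : X) :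
    ∃ (U : Subgroup G₂) (B : Set X), IsOpen (U : Set G₂) ∧
      (∀ γ : Γ, γ.1.2 ∈ U → ∀ x ∈ B, γ • x ∈ B) ∧
      {x | x ∈ MulAction.orbit Γ y ∧ x ∈ symmDiff A B}.Finite := by
  by_cases hp : {x | x ∈ MulAction.orbit Γ y ∧ x ∈ A}.Finite
  · exact ⟨⊤, ∅, isOpen_univ, by simp, by simpa [Set.mem_symmDiff] using hp⟩
  by_cases hn : {x | x ∈ MulAction.orbit Γ y ∧ x ∉ A}.Finite
  · exact ⟨⊤, univ, isOpen_univ, by simp, by simpa [Set.mem_symmDiff] using hn⟩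
  obtain ⟨Q, q1, q2, q3⟩ := ker_snd (G₂ := G₂) (cgen (H := G₁))
  by_cases esc : ∀ h C, IsCompact C → ∃ g : G₁ × G₂, g.2 = h ∧ ∀ l ∈ St Γ y, g * l ∉ C
  · refine (coc_end n₁ h₂ n₂ hL d₁ h hC hr hr' hA hp hn ?_).elim
    by_contra! h1
    exact not_const hr' hp hn (caseA (i := fun s => (1, s)) continuous_snd (by fun_prop)
      (fun _ => rfl) q1 q2 q3 h.sgn_inv (sgn_cut hC hr hA) h1 esc)
  push Not at esc
  obtain ⟨h₀, C₀, hC₀, h1⟩ := esc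
  obtain ⟨U, B, C', h2, h3, h4, h5, h6⟩ := caseC (i := fun s => (1, s)) continuous_snd (by fun_prop)
    (fun _ => rfl) q1 q2 q3 St_le d₂ (sgn_cut (y := y) hC hr hA) hC₀ h1
  refine ⟨U, {x | x ∈ A ∧ ∃ γ : Γ, γ • y = x ∧ γ.1.2 ∉ B}, h2, ?_, small h3 fun γ hγ h7 => ?_⟩
  · rintro δ hδ _ ⟨h7, γ, rfl, h8⟩
    refine ⟨?_, δ * γ, mul_smul _ _ _, h5 _ hδ _ h8⟩
    have := sgn_one.1 ((h6 γ δ h8 hδ).trans (sgn_one.2 (by rwa [hr'])))
    rwa [← Subgroup.coe_mul, hr', mul_smul] at this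
  · rcases h7 with h7 | h7
    · obtain ⟨l, hl, h8⟩ := h4 γ (by_contra fun h8 => h7.2 ⟨h7.1, γ, rfl, h8⟩)
      exact hγ l hl h8
    · exact h7.2 h7.1.1

theorem dense_end (h₁ : ∃ S : Set G₁, IsCompact S ∧ Subgroup.closure S = ⊤)
    (h₂ : ∃ S : Set G₂, IsCompact S ∧ Subgroup.closure S = ⊤)
    (hom : ∀ χ : G₁ →* Multiplicative ℝ, Continuous χ → χ = 1)
    {C : Set (G₁ × G₂)} (hC : IsCompact C) (h : ∀ g, ∃ γ ∈ Γ, g * γ ∈ C) (hA : Com Γ A)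
    (d₁ : Dense (Prod.fst '' (St Γ y : Set (G₁ × G₂))))
    (c₂ : ∃ C, IsCompact C ∧ ∀ s, ∃ l ∈ St Γ y, s * l.2 ∈ C)
    (hp : {x | x ∈ MulAction.orbit Γ y ∧ x ∈ A}.Infinite)
    (hn : {x | x ∈ MulAction.orbit Γ y ∧ x ∉ A}.Infinite) : False := by
  obtain ⟨r, C', s, hC', hr, -⟩ := exists_sel hC h
  obtain ⟨a, b, ha, hb, inv, max, -⟩ := exists_split h₁ h₂ s hC' hr hA hp hn
  obtain ⟨C₁, c₁, c₁'⟩ := coc_of_dense d₁
  refine endB ha hb inv max ⟨C₁, c₁, fun s => ?_⟩ c₂ (.inl fun s => ?_)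
  · obtain ⟨_, ⟨l, hl, rfl⟩, h⟩ := c₁' s
    exact ⟨l, hl, h⟩
  · exact sub_eq_zero.1 (ofAdd_eq_one.1 (DFunLike.congr_fun (hom (MonoidHom.mk'
      (fun g => Multiplicative.ofAdd (a g - a 1)) fun g g' => by
        rw [← ofAdd_add, ← add_of_dense ha inv d₁ g g']; simp)
      (continuous_ofAdd.comp (ha.sub continuous_const))) s))

theorem fin_end [NoncompactSpace G₁] [NoncompactSpace G₂]
    (h₂ : ∃ S : Set G₂, IsCompact S ∧ Subgroup.closure S = ⊤)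
    {C : Set (G₁ × G₂)} (hC : IsCompact C) (h : ∀ g, ∃ γ ∈ Γ, g * γ ∈ C) (hA : Com Γ A)
    (hf : (St Γ y : Set (G₁ × G₂)).Finite)
    (hp : {x | x ∈ MulAction.orbit Γ y ∧ x ∈ A}.Infinite)
    (hn : {x | x ∈ MulAction.orbit Γ y ∧ x ∉ A}.Infinite) : False := by
  obtain ⟨r, C', s, hC', hr, hr'⟩ := exists_sel hC h
  obtain ⟨Q, q1, q2, q3⟩ := ker_fst (G₁ := G₁) h₂
  refine not_const hr' hp hn (caseA (i := fun s => (s, 1)) continuous_fst (by fun_prop)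
    (fun _ => rfl) q1 q2 q3 s.sgn_inv (sgn_cut hC' hr hA) (fun K hK => ?_) fun x K hK => ?_)
  · obtain ⟨x, hx⟩ := (ne_univ_iff_exists_notMem _).1
      (hK.mul (hf.image Prod.fst).isCompact.inv).ne_univ
    exact ⟨x, fun l hl h => hx ⟨_, h, l.1⁻¹, by simpa using mem_image_of_mem Prod.fst hl, by simp⟩⟩
  · obtain ⟨t, ht⟩ := (ne_univ_iff_exists_notMem _).1
      ((hK.mul hf.isCompact.inv).image continuous_snd).ne_univ
    exact ⟨(x, t), rfl, fun l hl h => ht ⟨_, ⟨_, h, l⁻¹, by simpa using hl, rfl⟩, by simp⟩⟩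

end Pool.Agent.Lib.MP_60cbcc_al.H8W
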