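import Pool.Agent.Lib.MP_60cbcc_al.H8WEnds

/-!
Every commensurated subset is commensurate to an invariant subset.
-/

namespace Pool.Agent.Lib.MP_60cbcc_al.H8W

open MeasureTheory Set Filter Topology
open scoped Pointwise

theorem com_of {G X : Type} [Group G] {Γ : Subgroup G} [MulAction Γ X] {A : Set X}
    (hA : ∀ γ : Γ, (γ • A \ A).Finite) : Com Γ A := fun γ => by
  refine ((hA γ⁻¹).union ((hA γ).smul_set (a := γ⁻¹))).subset fun z hz => ?_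
  simp only [mem_union, Set.mem_sdiff, mem_inv_smul_set_iff, smul_mem_smul_set_iff]
  simp only [mem_ofPred_eq] at hz
  tauto

theorem tr_of {G H X : Type} [Group G] [Group H] [TopologicalSpace H] {Γ : Subgroup (G × H)}
    [MulAction Γ X] {A : Set X} (hA : Com Γ A)
    (fg : ∃ Φ : Set Γ, Φ.Finite ∧ Subgroup.closure Φ = ⊤)
    (h : ∀ y, ∃ (U : Subgroup H) (B : Set X), IsOpen (U : Set H) ∧
      (∀ γ : Γ, γ.1.2 ∈ U → ∀ x ∈ B, γ • x ∈ B) ∧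
      {x | x ∈ MulAction.orbit Γ y ∧ x ∈ symmDiff A B}.Finite) :
    ∃ (U : Subgroup H) (B : Set X), IsOpen (U : Set H) ∧ (∀ γ : Γ, γ.1.2 ∈ U → γ • B = B) ∧
      (symmDiff A B).Finite := by
  obtain ⟨Φ, hΦ, hg⟩ := fg
  choose U B h1 h2 h3 using fun ω : MulAction.orbitRel.Quotient Γ X => h ω.out
  let π : X → MulAction.orbitRel.Quotient Γ X := Quotient.mk _
  have hπ : ∀ (γ : Γ) x, π (γ • x) = π x := fun γ x => Quotient.sound ⟨γ, rfl⟩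
  have hO := (hΦ.biUnion fun γ _ => hA γ).image π
  set O := π '' ⋃ γ ∈ Φ, {y | ¬ (γ • y ∈ A ↔ y ∈ A)}
  have h4 : ∀ x, π x ∉ O → ∀ γ : Γ, γ • x ∈ A ↔ x ∈ A := fun x hx γ => by
    have h5 : ∀ s ∈ Φ, ∀ δ : Γ, s • δ • x ∈ A ↔ δ • x ∈ A := fun s hs δ => by_contra fun h6 =>
      hx ⟨_, mem_biUnion hs h6, hπ δ x⟩
    induction hg.ge (Subgroup.mem_top γ) using Subgroup.closure_induction_left with
    | one => rw [one_smul]
    | mul_left s hs k _ ih => rw [mul_smul, h5 s hs]; exact ih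
    | inv_mul_cancel s hs k _ ih => rw [← h5 s hs, ← mul_smul, mul_inv_cancel_left]; exact ih
  have h5 : ∀ γ : Γ, γ.1.2 ∈ ⨅ ω ∈ O, U ω → ∀ x, π x ∈ O ∧ x ∈ B (π x) ∨ π x ∉ O ∧ x ∈ A →
      π (γ • x) ∈ O ∧ γ • x ∈ B (π (γ • x)) ∨ π (γ • x) ∉ O ∧ γ • x ∈ A := fun γ hγ x hx => by
    rw [hπ]
    exact hx.imp (fun h => ⟨h.1, h2 _ γ ((Subgroup.mem_iInf.1
      (Subgroup.mem_iInf.1 hγ _)) h.1) x h.2⟩) fun h => ⟨h.1, (h4 x h.1 γ).2 h.2⟩
  refine ⟨⨅ ω ∈ O, U ω, {x | π x ∈ O ∧ x ∈ B (π x) ∨ π x ∉ O ∧ x ∈ A}, ?_,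
    fun γ hγ => Set.ext fun x => ?_, (hO.biUnion fun ω _ => h3 ω).subset fun x hx => ?_⟩
  · simpa only [Subgroup.coe_iInf] using hO.isOpen_biInter fun ω _ => h1 ω
  · rw [mem_smul_set_iff_inv_smul_mem]
    exact ⟨fun h => by simpa using h5 γ hγ _ h, h5 γ⁻¹ (inv_mem hγ) x⟩
  · simp only [Set.mem_symmDiff, mem_ofPred_eq] at hx
    have h6 : π x ∈ O := by tauto
    exact mem_biUnion h6 ⟨Quotient.exact (Quotient.out_eq (π x)).symm, by
      rw [Set.mem_symmDiff]; tauto⟩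

theorem cgen_prod {G H : Type} [Group G] [TopologicalSpace G] [Group H] [TopologicalSpace H]
    (h₁ : ∃ S : Set G, IsCompact S ∧ Subgroup.closure S = ⊤)
    (h₂ : ∃ S : Set H, IsCompact S ∧ Subgroup.closure S = ⊤) :
    ∃ S : Set (G × H), IsCompact S ∧ Subgroup.closure S = ⊤ := by
  obtain ⟨S, k, g⟩ := h₁
  obtain ⟨T, k', g'⟩ := h₂
  refine ⟨insert 1 S ×ˢ insert 1 T, (k.insert 1).prod (k'.insert 1), ?_⟩
  rw [Subgroup.closure_prod (mem_insert _ _) (mem_insert _ _), Subgroup.closure_insert_one,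
    Subgroup.closure_insert_one, g, g', Subgroup.top_prod_top]

theorem transfix {G₁ G₂ X : Type} [Group G₁] [TopologicalSpace G₁] [IsTopologicalGroup G₁]
    [LocallyCompactSpace G₁] [SecondCountableTopology G₁] [T2Space G₁] [Group G₂]
    [TopologicalSpace G₂] [IsTopologicalGroup G₂] [LocallyCompactSpace G₂]
    [SecondCountableTopology G₂] [T2Space G₂] [ConnectedSpace G₁] (n₁ : Nice G₁)
    (h₂ : ∃ S : Set G₂, IsCompact S ∧ Subgroup.closure S = ⊤) {L : Subgroup G₂} (n₂ : Drift L)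
    {Γ : Subgroup (G₁ × G₂)} [DiscreteTopology Γ] (hL : ∀ n, ((1, n) : G₁ × G₂) ∈ Γ → n ∈ L)
    (d₁ : Dense (Prod.fst '' (Γ : Set (G₁ × G₂)))) (d₂ : Dense (Prod.snd '' (Γ : Set (G₁ × G₂))))
    {C : Set (G₁ × G₂)} (hC : IsCompact C) (h : ∀ g, ∃ γ ∈ Γ, g * γ ∈ C) [MulAction Γ X]
    {A : Set X} (hA : ∀ γ : Γ, (γ • A \ A).Finite) :
    ∃ (U : Subgroup G₂) (B : Set X), IsOpen (U : Set G₂) ∧ (∀ γ : Γ, γ.1.2 ∈ U → γ • B = B) ∧
      (symmDiff A B).Finite := by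
  borelize G₁ G₂
  obtain ⟨r, C', s, hC', hr, hr'⟩ := exists_sel hC h
  exact tr_of (com_of hA) (s.fg hC' hr (cgen_prod cgen h₂))
    (orbit_tr n₁ h₂ n₂ hL d₁ d₂ s hC' hr hr' (com_of hA))

theorem fw_prod {G₁ G₂ X : Type} [Group G₁] [TopologicalSpace G₁] [IsTopologicalGroup G₁]
    [LocallyCompactSpace G₁] [SecondCountableTopology G₁] [T2Space G₁] [Group G₂]
    [TopologicalSpace G₂] [IsTopologicalGroup G₂] [LocallyCompactSpace G₂]
    [SecondCountableTopology G₂] [T2Space G₂] [ConnectedSpace G₁] [ConnectedSpace G₂]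
    (n₁ : Nice G₁) (n₂ : Drift (Subgroup.center G₂)) {Γ : Subgroup (G₁ × G₂)} [DiscreteTopology Γ]
    (d₁ : Dense (Prod.fst '' (Γ : Set (G₁ × G₂)))) (d₂ : Dense (Prod.snd '' (Γ : Set (G₁ × G₂))))
    {C : Set (G₁ × G₂)} (hC : IsCompact C) (h : ∀ g, ∃ γ ∈ Γ, g * γ ∈ C) [MulAction Γ X]
    {A : Set X} (hA : ∀ γ : Γ, (γ • A \ A).Finite) :
    ∃ B : Set X, (∀ γ : Γ, γ • B = B) ∧ (symmDiff A B).Finite := by
  obtain ⟨U, B, h1, h2, h3⟩ := transfix n₁ cgen n₂ (fun _ => central Γ d₂) d₁ d₂ hC h hA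
  exact ⟨B, fun γ => h2 γ ((eq_top_of_nhds U (h1.mem_nhds U.one_mem)).ge trivial), h3⟩

theorem coc_inv {G : Type} [Group G] [TopologicalSpace G] [IsTopologicalGroup G] {Γ : Subgroup G}
    (h : ∃ C : Set G, IsCompact C ∧ ∀ g, ∃ γ ∈ Γ, γ * g ∈ C) :
    ∃ C : Set G, IsCompact C ∧ ∀ g, ∃ γ ∈ Γ, g * γ ∈ C := by
  obtain ⟨C, hC, h⟩ := h
  refine ⟨C⁻¹, hC.inv, fun g => ?_⟩
  obtain ⟨γ, h1, h2⟩ := h g⁻¹
  exact ⟨γ⁻¹, Γ.inv_mem h1, by simpa using h2⟩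

theorem fw_pi {ι : Type} [Finite ι] [Nontrivial ι] {G : ι → Type} [∀ i, Group (G i)]
    [∀ i, TopologicalSpace (G i)] [∀ i, IsTopologicalGroup (G i)] [∀ i, LocallyCompactSpace (G i)]
    [∀ i, SecondCountableTopology (G i)] [∀ i, T2Space (G i)] [∀ i, ConnectedSpace (G i)]
    (n : ∀ i, Nice (G i)) (Γ : Subgroup (∀ i, G i)) [DiscreteTopology Γ]
    (d : ∀ i, DenseRange fun (γ : Γ) (j : {j // j ≠ i}) => γ.1 j.1)
    {C : Set (∀ i, G i)} (hC : IsCompact C) (h : ∀ g, ∃ γ ∈ Γ, γ * g ∈ C) {X : Type}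
    [MulAction Γ X] {A : Set X} (hA : ∀ γ : Γ, (γ • A \ A).Finite) :
    ∃ B : Set X, (∀ γ : Γ, γ • B = B) ∧ (symmDiff A B).Finite := by
  classical
  obtain ⟨i, k, hik⟩ := exists_pair_ne ι
  let E := Homeomorph.piSplitAt i G
  let e : (∀ i, G i) ≃* G i × ∀ j : {j // j ≠ i}, G j := { E.toEquiv with map_mul' _ _ := rfl }
  let φ := e.subgroupMap Γ
  let := MulAction.compHom X φ.symm.toMonoidHom
  have hc : Continuous φ.symm :=
    continuous_induced_rng.2 (E.symm.continuous.comp continuous_subtype_val)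
  have : DiscreteTopology (Γ.map (e : (∀ i, G i) →* G i × ∀ j : {j // j ≠ i}, G j)) :=
    .of_continuous_injective hc φ.symm.injective
  have n₂ : Drift (Subgroup.center (∀ j : {j // j ≠ i}, G j)) :=
    (n k).cen.center (Pi.evalMonoidHom (fun j : {j // j ≠ i} => G j) ⟨k, hik.symm⟩)
      (continuous_apply _) (Function.surjective_eval _)
  obtain ⟨B, h1, h2⟩ := fw_prod (X := X) (A := A) (n i) n₂ 
    (Γ := Γ.map (e : (∀ i, G i) →* G i × ∀ j : {j // j ≠ i}, G j))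
    (Dense.mono (by rintro _ ⟨γ, rfl⟩; exact ⟨_, ⟨γ, γ.2, rfl⟩, rfl⟩)
      ((Function.surjective_eval (β := fun j : {j // j ≠ k} => G j) ⟨i, hik⟩).denseRange.comp (d k)
        (continuous_apply _)))
    (Dense.mono (by rintro _ ⟨γ, rfl⟩; exact ⟨_, ⟨γ, γ.2, rfl⟩, rfl⟩) (d i))
    (hC.inv.image E.continuous) (fun g => by
      obtain ⟨g, rfl⟩ := e.surjective g
      obtain ⟨γ, hγ, h⟩ := h g⁻¹
      exact ⟨e γ⁻¹, ⟨_, Γ.inv_mem hγ, rfl⟩, g * γ⁻¹, by simpa using h, map_mul e _ _⟩)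
    fun γ => hA (φ.symm γ)
  exact ⟨B, fun γ => by simpa only [φ.symm_apply_apply] using
    (show φ.symm (φ γ) • B = B from h1 (φ γ)), h2⟩

end Pool.Agent.Lib.MP_60cbcc_al.H8W
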