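import Pool.Agent.Lib.MP_60cbcc_al.H8WLim

/-!
The limit function: invariance, maximum principle, non-constancy and vanishing mixed differences.
-/

namespace Pool.Agent.Lib.MP_60cbcc_al.H8W

open MeasureTheory Set Filter Topology
open scoped ENNReal Pointwise

variable {G Ω : Type} [Group G] [MeasurableSpace Ω] [MulAction G Ω] {m : Measure Ω}
  [MeasurableSpace G] [MeasurableSMul₂ G Ω] [TopologicalSpace G] [IsTopologicalGroup G]
  [BorelSpace G] {o : Ω} {Q : Set G}

theorem Sym.int {ν : Measure G} (hν : Sym Q ν) (hQ : IsCompact Q) {F : G → ℝ}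
    (hF : Continuous F) (g : G) : Integrable (fun s => F (s * g)) ν := by
  have := hν.prob
  have hc : Continuous fun s => F (s * g) := by fun_prop
  obtain ⟨C, hC⟩ := hQ.exists_bound_of_continuousOn hc.continuousOn
  exact Integrable.of_bound hc.measurable.aestronglyMeasurable C (hν.supp.mono hC)

theorem LU.T {l : Filter ℕ} {u : ℕ → Ω → ℝ} {F : G → ℝ} (h : LU l o u F) (hu : ∀ i, Bd (u i))
    (hF : Continuous F) {ν : Measure G} (hν : Sym Q ν) (hQ : IsCompact Q) (g : G) :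
    Tendsto (fun i => T ν (u i) (g • o)) l (𝓝 (∫ s, F (s * g) ∂ν)) := by
  have := hν.prob
  refine Metric.tendsto_nhds.2 fun η hη => ?_
  filter_upwards [h _ (hQ.image (continuous_mul_const g)) _ (half_pos hη)] with i hi
  refine lt_of_le_of_lt ?_ (half_lt_self hη)
  rw [Real.dist_eq, H8W.T, ← integral_sub (((hu i).orb _).integrable ν) (hν.int hQ hF g)]
  simpa using norm_integral_le_of_norm_le_const (μ := ν)
    (f := fun s => u i (s • g • o) - F (s * g)) (C := η / 2)
    (hν.supp.mono fun s hs => by simpa only [mul_smul, Real.norm_eq_abs] using hi _ ⟨s, hs, rfl⟩)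

variable [SecondCountableTopology G] [T2Space G] [LocallyCompactSpace G] {μ : Measure G}
  [μ.IsHaarMeasure] [μ.IsMulRightInvariant] {ρ : G → ℝ} [SFinite m] [SMulInvariantMeasure G Ω m]
  (S : Sys Q) {χ : Ω → ℝ}

theorem pow_lim (a : ℝ) : Tendsto (fun i : ℕ => a * 2⁻¹ ^ i) atTop (𝓝 0) := by
  simpa using (tendsto_pow_atTop_nhds_zero_of_lt_one (r := (2⁻¹ : ℝ)) (by norm_num)
    (by norm_num)).const_mul a

omit [T2Space G] [LocallyCompactSpace G] [μ.IsHaarMeasure] [μ.IsMulRightInvariant] in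
theorem Seq.sq₃ {f : ℕ → Ω → ℝ} (h : Seq S μ m o χ f) (i : ℕ) :
    ∫ x, (f i x - T S.ν₃ (f i) x) ^ 2 ∂m ≤ 36 * 2⁻¹ ^ i := by
  have h1 := (S.boch (h.gd i)).2
  rw [((h.gd i).lap S.s₃).N2, ENNReal.ofReal_le_ofReal_iff
    (mul_nonneg (by norm_num) (integral_nonneg fun _ => sq_nonneg _))] at h1
  linarith [h.sq i]

omit [T2Space G] [LocallyCompactSpace G] [μ.IsHaarMeasure] [μ.IsMulRightInvariant] in
theorem Seq.z₃ {f : ℕ → Ω → ℝ} (h : Seq S μ m o χ f) :
    Z0 m fun i x => f i x - T S.ν₃ (f i) x := by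
  refine ⟨fun i => ((h.gd i).lap S.s₃).meas, ?_⟩
  have h3 := ENNReal.tendsto_ofReal (pow_lim 36)
  rw [ENNReal.ofReal_zero] at h3
  refine tendsto_of_tendsto_of_tendsto_of_le_of_le tendsto_const_nhds h3 (fun _ => zero_le) fun i => ?_
  rw [((h.gd i).lap S.s₃).N2]
  exact ENNReal.ofReal_le_ofReal (h.sq₃ S i)

omit [T2Space G] [LocallyCompactSpace G] [μ.IsHaarMeasure] [μ.IsMulRightInvariant] in
theorem Seq.ae_mix {f : ℕ → Ω → ℝ} (h : Seq S μ m o χ f) :
    ∀ᵐ s ∂S.ν₁, ∀ᵐ t ∂S.ν₂, Z0 m fun i => mix (f i) s t := by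
  have := S.s₁.prob; have := S.s₂.prob
  have hm : ∀ i, Measurable fun p : G × G => N2 m (mix (f i) p.1 p.2) := fun i =>
    ((h.gd i).toBd.mix.meas.pow_const 2).ennreal_ofReal.lintegral_prod_right'
  have hm' : Measurable fun p : G × G => ∑' i, N2 m (mix (f i) p.1 p.2) :=
    Measurable.tsum hm
  have h1 : ∫⁻ s, ∫⁻ t, ∑' i, N2 m (mix (f i) s t) ∂S.ν₂ ∂S.ν₁ ≠ ∞ := by
    have e : ∀ s, ∫⁻ t, ∑' i, N2 m (mix (f i) s t) ∂S.ν₂ = ∑' i, ∫⁻ t, N2 m (mix (f i) s t) ∂S.ν₂ :=
      fun s => lintegral_tsum fun i => ((hm i).comp measurable_prodMk_left).aemeasurable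
    simp only [e]
    rw [lintegral_tsum fun i => (hm i).lintegral_prod_right'.aemeasurable]
    refine ne_top_of_le_ne_top ?_ (ENNReal.tsum_le_tsum fun i => (S.boch (h.gd i)).1.trans
      (ENNReal.ofReal_le_ofReal (mul_le_mul_of_nonneg_left (h.sq i) (by norm_num))))
    rw [← ENNReal.ofReal_tsum_of_nonneg (fun _ => by positivity)
      ((summable_geometric_of_lt_one (by norm_num) (by norm_num)).mul_left 9)]
    exact ENNReal.ofReal_ne_top
  filter_upwards [ae_lt_top hm'.lintegral_prod_right' h1] with s hs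
  filter_upwards [ae_lt_top (hm'.comp measurable_prodMk_left) hs.ne] with t ht
  exact ⟨fun i => (h.gd i).toBd.mix.meas.comp (measurable_prodMk_left (x := (s, t))),
    ENNReal.tendsto_atTop_zero_of_tsum_ne_top ht.ne⟩

/-- The properties of the limit function. -/
structure Lim (m : Measure Ω) (o : Ω) (f : ℕ → Ω → ℝ) (F : G → ℝ) : Prop where
  cont : Continuous F
  inv : ∀ g g', g • o = g' • o → F g = F g'
  max : ∀ g₀, (∀ g, F g ≤ F g₀) → ∀ g, F g = F g₀
  nc : ∀ c, ¬ ∀ g, F g = c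
  mix : ∀ s t, (Z0 m fun i => mix (f i) s t) → ∀ g, F (s * t * g) - F (s * g) = F (t * g) - F g
  diff : ∀ s : G, (Z0 m fun i x => f i (s • x) - f i x) → ∀ g, F (s * g) = F g

theorem Seq.exists_lim (hS : Sp μ m o) (hρ : Den Q ρ) (hQ : IsCompact Q)
    (h3 : S.ν₃ = μ.withDensity fun s => ENNReal.ofReal (ρ s)) (hχ : Cut G o χ)
    {f : ℕ → Ω → ℝ} (h : Seq S μ m o χ f) : ∃ F : G → ℝ, Lim m o f F := by
  have := S.s₁.prob; have := S.s₂.prob; have := S.s₃.prob
  obtain ⟨F, hF, hL⟩ := H8W.exists_lim hρ hQ (fun i => (h.gd i).toBd) h.loc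
  rw [← h3] at hL
  have hl : ((Ultrafilter.of atTop : Ultrafilter ℕ) : Filter ℕ) ≤ atTop := Ultrafilter.of_le _
  generalize (Ultrafilter.of atTop : Ultrafilter ℕ) = l at hl hL
  set k : ℕ → Ω → ℝ := fun i => T S.ν₃ (f i) with hk
  have hkb : ∀ i, Bd (k i) := fun i => (h.gd i).toBd.T _
  have hz := h.z₃ S
  refine ⟨F, hF, fun g g' e => tendsto_nhds_unique (hL.tendsto g) (e ▸ hL.tendsto g'),
    fun g₀ h0 => ?_, fun c hc => ?_, fun s t hm g => ?_, fun s hs g => ?_⟩
  · have harm : ∀ g, F g = 3⁻¹ * (∫ s, F (s * g) ∂S.ν₁ + ∫ s, F (s * g) ∂S.ν₂ +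
        ∫ s, F (s * g) ∂S.ν₃) := fun g => by
      have h1 := (((hL.T hkb hF S.s₁ hQ g).add (hL.T hkb hF S.s₂ hQ g)).add
        (hL.T hkb hF S.s₃ hQ g)).const_mul 3⁻¹
      have h2 : Tendsto (fun i => k i (g • o) - S.P (k i) (g • o)) l (𝓝 0) := by
        refine (squeeze_zero_norm (fun i => ?_) (pow_lim 1)).mono_left hl
        rw [hk, S.P_T₃ (h.gd i).toBd, ← T_sub (h.gd i).toBd ((h.gd i).toBd.P S), one_mul]
        exact abs_T_le (h.sup i) _
      exact sub_eq_zero.1 (tendsto_nhds_unique ((hL.tendsto g).sub h1) h2)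
    have step : ∀ s, 0 < ρ s → ∀ g, F g = F g₀ → F (s * g) = F g₀ := by
      intro s hs g hg
      by_contra hne
      have le : ∀ ν, Sym Q ν → ∫ s, F (s * g) ∂ν ≤ F g₀ := fun ν hν => by
        have := hν.prob
        simpa using integral_mono (hν.int hQ hF g) (integrable_const (F g₀)) fun s => h0 _
      have h1 : 0 < ∫ s, ρ s * (F g₀ - F (s * g)) ∂μ := by
        refine Continuous.integral_pos_of_hasCompactSupport_nonneg_nonzero (x := s)
          (hρ.cont.mul (by fun_prop)) (HasCompactSupport.intro hQ fun x hx => by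
            simp [hρ.supp x hx]) (fun x => mul_nonneg (hρ.nonneg x) (sub_nonneg.2 (h0 _))) ?_
        exact mul_ne_zero hs.ne' (sub_ne_zero.2 (Ne.symm hne))
      have h2 : ∫ s, F g₀ - F (s * g) ∂S.ν₃ = ∫ s, ρ s * (F g₀ - F (s * g)) ∂μ := by
        rw [h3, integral_withDensity_eq_integral_toReal_smul (E := ℝ)
          hρ.cont.measurable.ennreal_ofReal (.of_forall fun _ => ENNReal.ofReal_lt_top)]
        simp only [ENNReal.toReal_ofReal (hρ.nonneg _), smul_eq_mul]
      rw [← h2, integral_sub (integrable_const _) (S.s₃.int hQ hF g)] at h1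
      simp only [integral_const, probReal_univ, smul_eq_mul, one_mul] at h1
      linarith [harm g, le _ S.s₁, le _ S.s₂]
    have all : ∀ s g, F g = F g₀ → F (s * g) = F g₀ := by
      intro s
      induction hρ.gen.ge (Subgroup.mem_top s) using Subgroup.closure_induction'' with
      | mem s hs => exact step s hs
      | inv_mem s hs => exact step _ (by rwa [hρ.symm])
      | one => simp
      | mul s t _ _ hs ht => intro x hx; rw [mul_assoc]; exact hs _ (ht x hx)
    exact fun g => by simpa using all (g * g₀⁻¹) g₀ rfl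
  · have hg := hχ.gd hS hQ
    have hθ := hg.lapP S
    set θ : Ω → ℝ := fun x => χ x - S.P χ x with hθd
    obtain ⟨C, hC, hb⟩ := hχ.bd Q hQ
    have h0 : ∀ x, x ∉ (· • o) '' C → θ x = 0 := fun x hx => by
      have : ∀ ν, Sym Q ν → T ν χ x = χ x := fun ν hν => by
        have := hν.prob
        rw [T, integral_congr_ae (hν.supp.mono (hb x hx))]; simp
      simp only [hθd, Sys.P, this _ S.s₁, this _ S.s₂, this _ S.s₃]; ring
    have h1 : ∫ x, θ x ∂m = 0 := by simpa [E] using S.ibpP hg (Bd.const 1)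
    set a := ∫ x, |θ x| ∂m + 1 with ha
    set b := ∫ x, θ x ^ 2 ∂m + 1 with hb'
    have ha0 : 0 < a := by have : 0 ≤ ∫ x, |θ x| ∂m := integral_nonneg fun _ => abs_nonneg _; linarith
    have hb0 : 0 < b := by have : 0 ≤ ∫ x, θ x ^ 2 ∂m := integral_nonneg fun _ => sq_nonneg _; linarith
    obtain ⟨i, h4, h5⟩ := ((hL C hC (4 * a)⁻¹ (by positivity)).and
      (((pow_lim (b * 36)).mono_left hl).eventually (gt_mem_nhds (show (0 : ℝ) < 4⁻¹ by norm_num)))).exists
    have hd := (h.gd i).lap S.s₃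
    have h6 : (1 : ℝ) ≤ (4 * b)⁻¹ * ∫ x, θ x ^ 2 ∂m + b * ∫ x, (f i x - k i x) ^ 2 ∂m +
        (4 * a)⁻¹ * ∫ x, |θ x| ∂m + c * ∫ x, θ x ∂m := by
      have i1 : Integrable (fun x => (4 * b)⁻¹ * θ x ^ 2 + b * (f i x - k i x) ^ 2) m :=
        (hθ.sq.const_mul _).add (hd.sq.const_mul _)
      have i2 : Integrable (fun x => (4 * b)⁻¹ * θ x ^ 2 + b * (f i x - k i x) ^ 2 +
          (4 * a)⁻¹ * |θ x|) m := i1.add (hθ.int.abs.const_mul _)
      rw [← h.flux i, ← integral_const_mul, ← integral_const_mul, ← integral_const_mul,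
        ← integral_const_mul, ← integral_add (hθ.sq.const_mul _) (hd.sq.const_mul _),
        ← integral_add i1 (hθ.int.abs.const_mul _), ← integral_add i2 (hθ.int.const_mul _)]
      refine integral_mono (hθ.mul (h.gd i).toBd).int (i2.add (hθ.int.const_mul _)) fun x => ?_
      have h7 : θ x * (k i x - c) ≤ (4 * a)⁻¹ * |θ x| := by
        by_cases hx : x ∈ (· • o) '' C
        · obtain ⟨g, hg, rfl⟩ := hx
          refine (le_abs_self _).trans ?_
          rw [abs_mul, mul_comm, ← hc g]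
          exact mul_le_mul_of_nonneg_right (h4 g hg) (abs_nonneg _)
        · simp [h0 x hx]
      have h8 : θ x * (f i x - k i x) ≤ (4 * b)⁻¹ * θ x ^ 2 + b * (f i x - k i x) ^ 2 := by
        rw [← sub_nonneg]
        have : (4 * b)⁻¹ * θ x ^ 2 + b * (f i x - k i x) ^ 2 - θ x * (f i x - k i x) =
            (4 * b)⁻¹ * (θ x - 2 * b * (f i x - k i x)) ^ 2 := by field_simp; ring
        rw [this]; positivity
      change θ x * f i x ≤ _
      linarith
    have h7 : (4 * b)⁻¹ * ∫ x, θ x ^ 2 ∂m ≤ 4⁻¹ := by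
      rw [inv_mul_le_iff₀ (by positivity)]; linarith
    have h8 : (4 * a)⁻¹ * ∫ x, |θ x| ∂m ≤ 4⁻¹ := by
      rw [inv_mul_le_iff₀ (by positivity)]; linarith
    have h9 := mul_le_mul_of_nonneg_left (h.sq₃ S i) hb0.le
    rw [h1] at h6
    linarith
  · have h1 : Z0 m fun i x => k i (s • t • x) + -1 * k i (s • x) + -1 * k i (t • x) + 1 * k i x :=
      (hm.sub (((((hz.smul s).smul t).sub (hz.smul s)).sub (hz.smul t)).add hz)).congr
        fun i x => by simp only [H8W.mix, hk]; ring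
    have h2 := (((((hL.smul s).smul t).add (hL.smul s) (-1) (by simp)).add (hL.smul t) (-1)
      (by simp)).add hL 1 (by simp)).eq_zero hS hl h1 (by fun_prop) g
    rw [mul_assoc]
    linarith
  · have h1 : Z0 m fun i x => k i (s • x) + -1 * k i x :=
      (hs.sub ((hz.smul s).sub hz)).congr fun i x => by simp only [hk]; ring
    have h2 := ((hL.smul s).add hL (-1) (by simp)).eq_zero hS hl h1 (by fun_prop) g
    linarith

end Pool.Agent.Lib.MP_60cbcc_al.H8W
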