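import Pool.Agent.Lib.MP_60cbcc_al.H8WDefs
import Pool.Agent.Lib.MP_60cbcc_al.H8WClosed
import Pool.Agent.Lib.MP_60cbcc_al.H8WDet
import Pool.Agent.Lib.MP_60cbcc_al.H8WFW

/-!
Subgroups of simple linear Lie groups are dense, discrete or have a normaliser with a drift.
-/

namespace Pool.Agent.Lib.MP_60cbcc_al.H8W

open Set Filter Topology Matrix NormedSpace
open scoped Kronecker

section
variable {𝔸 : Type} [NormedRing 𝔸] [NormedAlgebra ℝ 𝔸] [CompleteSpace 𝔸]

theorem conj_mem {Q : Subgroup 𝔸ˣ} {hQ : IsClosed (Q : Set 𝔸ˣ)} {g : 𝔸ˣ}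
    (hg : ∀ q ∈ Q, g * q * g⁻¹ ∈ Q) {D : 𝔸} (hD : D ∈ lieSub Q hQ) :
    (g * D * ↑g⁻¹ : 𝔸) ∈ lieSub Q hQ := fun t => by
  rw [← smul_mul_assoc, ← mul_smul_comm, expU_conj]
  exact hg _ (hD t)

theorem conj_eq (g : 𝔸ˣ) (X : 𝔸) (h : ∀ t : ℝ, expU (t • X) * g = g * expU (t • X)) :
    (g * X * ↑g⁻¹ : 𝔸) = X := by
  refine (hasDerivAt_exp_smul_zero _).unique ?_
  refine (hasDerivAt_exp_smul_zero X).congr_of_eventuallyEq (.of_forall fun t => ?_)
  simp only
  rw [← smul_mul_assoc, ← mul_smul_comm, ← val_expU, expU_conj, ← h, mul_inv_cancel_right, val_expU]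

variable [FiniteDimensional ℝ 𝔸]

theorem comm_mem (a : Submodule ℝ 𝔸) {X Y : 𝔸}
    (h : ∀ t : ℝ, (expU (t • X) * Y * ↑(expU (t • X))⁻¹ : 𝔸) ∈ a) : X * Y - Y * X ∈ a := by
  have hF : HasDerivAt (fun t : ℝ => exp (t • X) * Y * exp (t • (-X))) (X * Y - Y * X) 0 :=
    (((hasDerivAt_exp_smul_zero X).mul_const Y).mul (hasDerivAt_exp_smul_zero (-X))).congr_deriv
      (by simp [sub_eq_add_neg])
  have h' : ∀ t : ℝ, exp (t • X) * Y * exp (t • (-X)) ∈ a := fun t => by
    rw [smul_neg]; exact h t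
  exact a.closed_of_finiteDimensional.mem_of_tendsto hF.tendsto_slope_zero_right
    (Eventually.of_forall fun t => a.smul_mem _ (a.sub_mem (h' _) (h' _)))

theorem lie_comm {Q : Subgroup 𝔸ˣ} {hQ : IsClosed (Q : Set 𝔸ˣ)} {X Y : 𝔸} (hX : X ∈ lieSub Q hQ)
    (hY : Y ∈ lieSub Q hQ) : X * Y - Y * X ∈ lieSub Q hQ :=
  comm_mem _ fun t => conj_mem (fun _ h => Q.mul_mem (Q.mul_mem (hX t) h) (Q.inv_mem (hX t))) hY

theorem top_of_exp {Q : Subgroup 𝔸ˣ} (hQ : IsClosed (Q : Set 𝔸ˣ)) (hc : IsConnected (Q : Set 𝔸ˣ))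
    (H : Subgroup 𝔸ˣ) (h : ∀ D ∈ lieSub Q hQ, expU D ∈ H) : Q ≤ H := fun g hg => by
  have : ConnectedSpace Q := isConnected_iff_connectedSpace.1 hc
  have := eq_top_of_nhds (H.comap Q.subtype) (x := 1) (mem_of_superset
    (continuous_subtype_val.continuousAt.preimage_mem_nhds (exists_nhds_exp Q hQ)) fun q hq => by
      obtain ⟨D, h1, h2⟩ := hq q.2
      exact (h2 ▸ h D h1 : q.1 ∈ H))
  exact this.ge (Subgroup.mem_top (⟨g, hg⟩ : Q))

end

open scoped Matrix.Norms.Operator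

variable {n : ℕ} {G : Subgroup (GL (Fin n) ℝ)}

theorem lie_iff (h : IsNoncompactSimple G) {X : Matrix (Fin n) (Fin n) ℝ} :
    X ∈ lieSub G h.closed ↔ X ∈ lieAlg G :=
  forall_congr' fun t => ⟨fun h => ⟨_, h, rfl⟩, fun ⟨g, h1, h2⟩ =>
    (show g = expU (t • X) from Units.ext h2) ▸ h1⟩

theorem lie_tr (h : IsNoncompactSimple G) {X : Matrix (Fin n) (Fin n) ℝ}
    (hX : X ∈ lieSub G h.closed) : Xᵀ ∈ lieSub G h.closed := (lie_iff h).2 fun t => by
  obtain ⟨g, h1, h2⟩ := h.transpose _ (hX t)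
  exact ⟨g, h1, by rw [h2, ← transpose_smul, exp_transpose]; rfl⟩

theorem exists_symm (h : IsNoncompactSimple G) : ∃ X ∈ lieSub G h.closed, Xᵀ = X ∧ X ≠ 0 := by
  by_contra! h0
  have h1 : G ≤ (Matrix.orthogonalGroup (Fin n) ℝ).units :=
      top_of_exp h.closed h.connected _ fun D hD => by
    have h2 : Dᵀ = -D := eq_neg_of_add_eq_zero_left
      (h0 _ (add_mem (lie_tr h hD) hD) (by simp [add_comm]))
    have h3 : ∀ D : Matrix (Fin n) (Fin n) ℝ, Dᵀ = -D →
        exp D ∈ Matrix.orthogonalGroup (Fin n) ℝ := fun D h => by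
      rw [mem_orthogonalGroup_iff', ← exp_transpose, h]
      exact (expU D).inv_val
    exact ⟨h3 D h2, h3 (-D) (by rw [transpose_neg, h2])⟩
  refine h.noncompact ((Submonoid.units_isCompact ?_).of_isClosed_subset h.closed h1)
  convert orth_cpt (N := Fin n) (k := Fin n) using 1
  exact Set.ext fun M => mem_orthogonalGroup_iff' _ _

theorem ideal_of_symm (h : IsNoncompactSimple G) {W : Submodule ℝ (Matrix (Fin n) (Fin n) ℝ)}
    (hW : ∀ X ∈ lieSub G h.closed, Xᵀ = X → ∀ Y ∈ W, X * Y - Y * X ∈ W) :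
    ∀ X ∈ lieSub G h.closed, ∀ Y ∈ W, X * Y - Y * X ∈ W := by
  set 𝔤 := lieSub G h.closed
  set S := {X | X ∈ 𝔤 ∧ Xᵀ = X} ∪
    {Z | ∃ X ∈ 𝔤, ∃ Y ∈ 𝔤, Xᵀ = X ∧ Yᵀ = Y ∧ Z = X * Y - Y * X} with hS
  have h1 : Submodule.span ℝ S ≤ 𝔤 := Submodule.span_le.2 (by
    rintro _ (h | ⟨X, hX, Y, hY, -, -, rfl⟩)
    exacts [h.1, lie_comm hX hY])
  have p1 : ∀ X ∈ 𝔤, Xᵀ = X → X ∈ Submodule.span ℝ S := fun X h h' =>
    Submodule.subset_span (.inl ⟨h, h'⟩)
  have p2 : ∀ X ∈ 𝔤, ∀ Y ∈ 𝔤, Xᵀ = X → Yᵀ = Y → X * Y - Y * X ∈ Submodule.span ℝ S :=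
    fun X h Y h' a b => Submodule.subset_span (.inr ⟨X, h, Y, h', a, b, rfl⟩)
  have h2 : ∀ X ∈ 𝔤, ∀ Y ∈ Submodule.span ℝ S, X * Y - Y * X ∈ Submodule.span ℝ S := by
    intro X hX Y hY
    have hP : X + Xᵀ ∈ 𝔤 := add_mem hX (lie_tr h hX)
    have hK : X - Xᵀ ∈ 𝔤 := sub_mem hX (lie_tr h hX)
    have sP : (X + Xᵀ)ᵀ = X + Xᵀ := by simp [add_comm]
    have sK : (X - Xᵀ)ᵀ = -(X - Xᵀ) := by simp
    have e : X = (2⁻¹ : ℝ) • ((X + Xᵀ) + (X - Xᵀ)) := by module
    generalize X + Xᵀ = P at hP sP e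
    generalize X - Xᵀ = K at hK sK e
    have h3 : (P + K) * Y - Y * (P + K) ∈ Submodule.span ℝ S := by
      have sc : ∀ A, Aᵀ = A → (K * A - A * K)ᵀ = K * A - A * K := fun A hA => by
        simp only [transpose_sub, transpose_mul, sK, hA]; noncomm_ring
      induction hY using Submodule.span_induction with
      | mem Y hY =>
        rcases hY with hY | ⟨A, hA, B, hB, sA, sB, rfl⟩
        · convert add_mem (p2 P hP Y hY.1 sP hY.2) (p1 _ (lie_comm hK hY.1) (sc Y hY.2)) using 1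
          noncomm_ring
        · convert add_mem (p1 _ (lie_comm hP (lie_comm hA hB)) (by
            simp only [transpose_sub, transpose_mul, sP, sA, sB]; noncomm_ring))
            (add_mem (p2 _ (lie_comm hK hA) B hB (sc A sA) sB)
              (p2 A hA _ (lie_comm hK hB) sA (sc B sB))) using 1
          noncomm_ring
      | zero => simp
      | add Y Z _ _ a b => convert add_mem a b using 1; noncomm_ring
      | smul c Y _ a => simpa only [smul_sub, mul_smul_comm, smul_mul_assoc] using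
          Submodule.smul_mem _ c a
    simpa only [e, smul_sub, mul_smul_comm, smul_mul_assoc] using Submodule.smul_mem _ (2⁻¹ : ℝ) h3
  obtain ⟨X₀, a, b, c⟩ := exists_symm h
  have h3 := (h.simple _ (fun X hX => (lie_iff h).1 (h1 hX))
    fun X hX => h2 X ((lie_iff h).2 hX)).resolve_left fun h3 => c (h3.le (p1 X₀ a b))
  intro X hX
  replace hX : X ∈ Submodule.span ℝ S := h3.ge ((lie_iff h).1 hX)
  induction hX using Submodule.span_induction with
  | mem X hX =>
    rcases hX with hX | ⟨A, hA, B, hB, sA, sB, rfl⟩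
    · exact hW X hX.1 hX.2
    · intro Y hY
      convert sub_mem (hW A hA sA _ (hW B hB sB Y hY)) (hW B hB sB _ (hW A hA sA Y hY)) using 1
      noncomm_ring
  | zero => simp
  | add Y Z _ _ a b => intro U hU; convert add_mem (a U hU) (b U hU) using 1; noncomm_ring
  | smul c Y _ a => intro U hU; simpa only [smul_sub, mul_smul_comm, smul_mul_assoc] using
      Submodule.smul_mem _ c (a U hU)

/-- Matrices as column vectors. -/
noncomputable def vecE (n : ℕ) : Matrix (Fin n) (Fin n) ℝ ≃ₗ[ℝ] (Fin n × Fin n → ℝ) :=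
  .ofBijective ⟨⟨vec, vec_add⟩, vec_smul⟩ vec_bijective

/-- The adjoint action as a matrix. -/
noncomputable def adM (G : Subgroup (GL (Fin n) ℝ)) :
    G →* Matrix (Fin n × Fin n) (Fin n × Fin n) ℝ where
  toFun g := (g.1⁻¹).1ᵀ ⊗ₖ g.1.1
  map_one' := by simp
  map_mul' g h := by
    rw [← mul_kronecker_mul, ← transpose_mul]; rfl

theorem adM_vec (g : G) (X : Matrix (Fin n) (Fin n) ℝ) :
    adM G g *ᵥ vecE n X = vecE n (g.1.1 * X * (g.1⁻¹).1) :=
  kronecker_mulVec_vec g.1.1 X (g.1⁻¹).1ᵀ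

theorem drift_W (h : IsNoncompactSimple G) {W : Submodule ℝ (Matrix (Fin n) (Fin n) ℝ)}
    (h1 : W ≤ lieSub G h.closed) (h2 : W ≠ ⊥) (h3 : W ≠ lieSub G h.closed) {L : Subgroup G}
    (hL : ∀ l ∈ L, ∀ X ∈ W, l.1.1 * X * (l.1⁻¹).1 ∈ W) : Drift L := by
  let b := Module.finBasis ℝ W
  let φ : (Fin (Module.finrank ℝ W) → ℝ) →ₗ[ℝ] Fin n × Fin n → ℝ :=
    (vecE n).toLinearMap ∘ₗ W.subtype ∘ₗ b.equivFun.symm.toLinearMap
  have e : ∀ x, LinearMap.toMatrix' φ *ᵥ x = vecE n (b.equivFun.symm x) := fun x =>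
    LinearMap.toMatrix'_mulVec _ _
  refine drift_of_rep (adM G) ?_ ((lieSub G h.closed).map (vecE n).toLinearMap) ?_
    (LinearMap.toMatrix' φ) (fun x y hxy => ?_) (fun x => ⟨_, h1 (Subtype.prop _), (e x).symm⟩)
    (fun M hM hV => ?_) fun l hl => ?_
  · refine continuous_matrix fun i j => ?_
    exact ((Units.continuous_coe_inv.comp continuous_subtype_val).matrix_elem _ _).mul
      ((Units.continuous_val.comp continuous_subtype_val).matrix_elem _ _)
  · rintro g _ ⟨X, hX, rfl⟩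
    exact ⟨_, conj_mem (fun _ h => G.mul_mem (G.mul_mem g.2 h) (G.inv_mem g.2)) hX,
      (adM_vec g X).symm⟩
  · rw [e, e] at hxy
    exact b.equivFun.symm.injective (Subtype.ext ((vecE n).injective hxy))
  · by_contra! h4
    let ψ := (vecE n).symm.toLinearMap ∘ₗ M.mulVecLin
    have h5 : LinearMap.range ψ ≤ lieSub G h.closed := by
      rintro _ ⟨x, rfl⟩
      obtain ⟨X, hX, e⟩ := hV x
      exact (show X = ψ x from (vecE n).eq_symm_apply.2 e) ▸ hX
    have h6 : Module.finrank ℝ (LinearMap.range ψ) = Module.finrank ℝ W := by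
      rw [LinearMap.finrank_range_of_inj (f := ψ) fun _ _ e => hM ((vecE n).symm.injective e)]; simp
    have h7 := ideal_of_symm h (W := LinearMap.range ψ) fun X hX sX Y hY => comm_mem _ fun t => by
      obtain ⟨x, rfl⟩ := hY
      have s1 : ∀ s : ℝ, (exp (s • X))ᵀ = exp (s • X) := fun s => by
        rw [← exp_transpose, transpose_smul, sX]
      obtain ⟨R, hR⟩ := h4 ⟨_, hX (t / 2)⟩ (by
        have s2 := s1 (-(t / 2))
        rw [neg_smul] at s2
        exact (kroneckerMap_transpose _ _ _).symm.trans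
          (congrArg₂ (· ⊗ₖ ·) (congrArg transpose s2) (s1 _)))
      have s3 : (⟨_, hX (t / 2)⟩ * ⟨_, hX (t / 2)⟩ : G) = ⟨_, hX t⟩ := Subtype.ext
        ((expU_add (Commute.refl _)).symm.trans (by rw [← add_smul, add_halves]))
      refine ⟨R *ᵥ x, (vecE n).symm_apply_eq.2 ?_⟩
      rw [← adM_vec (⟨_, hX t⟩ : G), ← s3, mulVecLin_apply, mulVec_mulVec, ← hR, ← mulVec_mulVec]
      exact congrArg _ ((vecE n).apply_symm_apply _).symm
    rcases h.simple _ (fun X hX => (lie_iff h).1 (h5 hX)) fun X hX => h7 X ((lie_iff h).2 hX) with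
      h8 | h8
    · exact h2 (Submodule.finrank_eq_zero.1 (by rw [← h6, h8, finrank_bot]))
    · refine h3 (Submodule.eq_of_le_of_finrank_eq h1 ?_)
      rw [← h6, le_antisymm h5 fun X hX => h8.ge ((lie_iff h).1 hX)]
  · choose c hc using fun j => b.equivFun.symm.surjective
      ⟨_, hL l hl _ (b.equivFun.symm (Pi.single j 1)).2⟩
    refine ⟨(of c)ᵀ, Matrix.ext fun i j => ?_⟩
    have := congrFun (((e (c j)).trans (congrArg (fun X : W => vecE n X) (hc j))).trans
      ((adM_vec l _).symm.trans (congrArg _ (e _).symm))) i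
    rw [mulVec_mulVec, mulVec_single_one] at this
    exact this.symm

theorem IsNoncompactSimple.nice (h : IsNoncompactSimple G) : Nice G := by
  refine ⟨fun L => ?_, ?_⟩
  · set H := (L.map G.subtype).topologicalClosure with hH
    have hc : IsClosed (H : Set (GL (Fin n) ℝ)) := Subgroup.isClosed_topologicalClosure _
    have hle : H ≤ G := Subgroup.topologicalClosure_minimal _ (Subgroup.map_subtype_le _) h.closed
    by_cases h1 : lieSub H hc = lieSub G h.closed
    · refine .inl (Subtype.dense_iff.2 (top_of_exp h.closed h.connected H fun D hD => ?_))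
      simpa using h1.ge hD 1
    by_cases h2 : lieSub H hc = ⊥
    · refine .inr (.inl (discreteTopology_of_isOpen_singleton_one (isOpen_iff_mem_nhds.2 ?_)))
      rintro _ rfl
      refine mem_of_superset ((continuous_subtype_val.comp continuous_subtype_val).continuousAt
        (x := (1 : L)).preimage_mem_nhds (exists_nhds_exp H hc)) fun q hq => ?_
      obtain ⟨D, h3, h4⟩ := hq (Subgroup.le_topologicalClosure _ ⟨q.1, q.2, rfl⟩)
      rw [h2, Submodule.mem_bot] at h3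
      exact Subtype.ext (Subtype.ext (by rw [h3, expU_zero] at h4; exact h4))
    · refine .inr (.inr (drift_W h (W := lieSub H hc) (fun X hX t => hle (hX t)) h2 h1
        fun l hl X hX => conj_mem (fun q hq => ?_) hX))
      refine closure_mono ?_ (image_closure_subset_closure_image
        (f := fun q => l.1 * q * l.1⁻¹) (by fun_prop) ⟨q, hq, rfl⟩)
      rintro _ ⟨_, ⟨x, hx, rfl⟩, rfl⟩
      exact ⟨l * x * l⁻¹, (hl x).1 hx, rfl⟩
  · obtain ⟨X, hX, Y, hY, hXY⟩ := h.nonabelian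
    refine drift_W h (W := Submodule.span ℝ {X}) (by simpa using (lie_iff h).2 hX)
      (by simpa using fun h0 => hXY (by simp [h0])) (fun h1 => ?_) fun l hl Z hZ => ?_
    · obtain ⟨c, rfl⟩ := Submodule.mem_span_singleton.1 (h1.ge ((lie_iff h).2 hY))
      simp at hXY
    · obtain ⟨c, rfl⟩ := Submodule.mem_span_singleton.1 hZ
      rw [conj_eq l.1 _ fun t => congrArg Subtype.val (Subgroup.mem_center_iff.1 hl
        ⟨_, Submodule.smul_mem _ c ((lie_iff h).2 hX) t⟩)]
      exact hZ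

end Pool.Agent.Lib.MP_60cbcc_al.H8W

namespace Pool.Agent.Lib.MP_60cbcc_al.H8W

variable {n : ℕ} {G : Subgroup (GL (Fin n) ℝ)}

theorem sc_sub (G : Subgroup (GL (Fin n) ℝ)) : SecondCountableTopology G :=
  have : SecondCountableTopology (Matrix (Fin n) (Fin n) ℝ) :=
    inferInstanceAs (SecondCountableTopology (Fin n → Fin n → ℝ))
  have : SecondCountableTopology (Matrix (Fin n) (Fin n) ℝ)ᵐᵒᵖ :=
    MulOpposite.opHomeomorph.symm.secondCountableTopology
  have : SecondCountableTopology (GL (Fin n) ℝ) :=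
    Units.isEmbedding_embedProduct.secondCountableTopology
  Topology.IsEmbedding.subtypeVal.secondCountableTopology

theorem IsNoncompactSimple.lc (h : IsNoncompactSimple G) : LocallyCompactSpace G :=
  have : LocallyCompactSpace (Matrix (Fin n) (Fin n) ℝ) :=
    inferInstanceAs (LocallyCompactSpace (Fin n → Fin n → ℝ))
  h.closed.locallyCompactSpace

theorem IsNoncompactSimple.conn (h : IsNoncompactSimple G) : ConnectedSpace G :=
  isConnected_iff_connectedSpace.1 h.connected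

end Pool.Agent.Lib.MP_60cbcc_al.H8W
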