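import Pool.Agent.Lib.MP_60cbcc_al.H8WSeq

/-!
The locally uniform limit of the smoothed sequence.
-/

namespace Pool.Agent.Lib.MP_60cbcc_al.H8W

open MeasureTheory Set Filter Topology
open scoped ENNReal Pointwise

variable {G Ω : Type} [Group G] [MeasurableSpace Ω] [MulAction G Ω] {m : Measure Ω}

/-- Sequences of measurable functions that tend to zero in mean square. -/
structure Z0 (m : Measure Ω) (u : ℕ → Ω → ℝ) : Prop where
  meas : ∀ i, Measurable (u i)
  lim : Tendsto (fun i => N2 m (u i)) atTop (𝓝 0)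

theorem Z0.neg {u : ℕ → Ω → ℝ} (h : Z0 m u) : Z0 m fun i x => -u i x :=
  ⟨fun i => (h.meas i).neg, by simpa [N2] using h.lim⟩

theorem Z0.add {u v : ℕ → Ω → ℝ} (h : Z0 m u) (h' : Z0 m v) : Z0 m fun i x => u i x + v i x := by
  refine ⟨fun i => (h.meas i).add (h'.meas i), ?_⟩
  have h1 := (ENNReal.Tendsto.const_mul (a := 2) h.lim (by simp)).add
    (ENNReal.Tendsto.const_mul (a := 2) h'.lim (by simp))
  simp only [mul_zero, add_zero] at h1
  refine tendsto_of_tendsto_of_tendsto_of_le_of_le tendsto_const_nhds h1 (fun _ => zero_le) fun i => ?_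
  simp only [N2]
  rw [← lintegral_const_mul' _ _ (by simp), ← lintegral_const_mul' _ _ (by simp),
    ← lintegral_add_left (((h.meas i).pow_const 2).ennreal_ofReal.const_mul 2)]
  refine lintegral_mono fun x => ?_
  rw [← ENNReal.ofReal_ofNat 2, ← ENNReal.ofReal_mul (by simp), ← ENNReal.ofReal_mul (by simp)]
  exact le_trans (ENNReal.ofReal_le_ofReal (by nlinarith [sq_nonneg (u i x - v i x)]))
    ENNReal.ofReal_add_le

theorem Z0.sub {u v : ℕ → Ω → ℝ} (h : Z0 m u) (h' : Z0 m v) : Z0 m fun i x => u i x - v i x := by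
  simpa [sub_eq_add_neg] using h.add h'.neg

theorem Z0.congr {u v : ℕ → Ω → ℝ} (h : Z0 m u) (e : ∀ i x, u i x = v i x) : Z0 m v := by
  rwa [← show u = v from funext fun i => funext (e i)]

variable [MeasurableSpace G] [MeasurableSMul₂ G Ω] [SMulInvariantMeasure G Ω m]

theorem Z0.smul {u : ℕ → Ω → ℝ} (h : Z0 m u) (s : G) : Z0 m fun i x => u i (s • x) :=
  ⟨fun i => (h.meas i).comp (measurable_const_smul s), h.lim.congr fun i =>
    (lint_smul s fun x => ENNReal.ofReal (u i x ^ 2)).symm⟩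

/-- The elements `t` for which the mixed differences with `s` tend to zero. -/
def mixSub (m : Measure Ω) [SMulInvariantMeasure G Ω m] (f : ℕ → Ω → ℝ) (hf : ∀ i, Bd (f i))
    (s : G) : Subgroup G where
  carrier := {t | Z0 m fun i => mix (f i) s t}
  one_mem' := ⟨fun i => (hf i).mix.meas.comp (measurable_prodMk_left (x := (s, 1))),
    by simp [N2, mix]⟩
  mul_mem' {t t'} h h' := ((Z0.smul h t').add h').congr fun i x => by simp only [mix, mul_smul]; ring
  inv_mem' {t} h := (Z0.smul h t⁻¹).neg.congr fun i x => by simp [mix]; ring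

/-- A finite family of bounded functions with a uniformly positive drift along elements of `A`. -/
def Lyap (o : Ω) (A : Set G) : Prop :=
  ∃ (ι : Type) (_ : Fintype ι) (p : ι → G) (β : ι → G → ℝ) (c : ℝ), 0 < c ∧ (∀ j, p j ∈ A) ∧
    (∀ j, Bd (β j)) ∧ (∀ j g g', g • o = g' • o → β j g = β j g') ∧
    ∀ g, c ≤ ∑ j, (β j g - β j ((p j)⁻¹ * g))

theorem Lyap.z0 {o : Ω} {A : Set G} (h : Lyap o A) {σ : Ω → G} (hσ : Measurable σ)
    (hσ' : ∀ x, σ x • o = x) {u : ℕ → Ω → ℝ} (hu : ∀ i, L1 m (u i))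
    (hA : ∀ p ∈ A, Z0 m fun i x => u i (p • x) - u i x) : Z0 m u := by
  obtain ⟨ι, _, p, β, c, hc, hp, hβ, hi, hd⟩ := h
  choose C hC using fun j => (hβ j).bdd
  set B := ∑ j, C j + 1 with hB
  have hC0 : ∀ j, 0 ≤ C j := fun j => (abs_nonneg _).trans (hC j 1)
  have hB0 : 0 < B := by have := Finset.sum_nonneg fun j (_ : j ∈ Finset.univ) => hC0 j; linarith
  have hb : ∀ j, Bd fun x => β j (σ x) := fun j => (hβ j).comp hσ
  have hd' : ∀ x, c ≤ ∑ j, (β j (σ x) - β j (σ ((p j)⁻¹ • x))) := fun x => by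
    refine (hd (σ x)).trans_eq (Finset.sum_congr rfl fun j _ => ?_)
    rw [hi j (σ ((p j)⁻¹ • x)) ((p j)⁻¹ * σ x) (by rw [mul_smul, hσ', hσ'])]
  have key : ∀ i, c / 2 * ∫ x, u i x ^ 2 ∂m ≤
      ∑ j, C j * (2 * B / c) * ∫ x, (u i (p j • x) - u i x) ^ 2 ∂m := by
    intro i
    have h2 : L1 m fun x => u i x ^ 2 := by simpa [pow_two] using (hu i).mul (hu i).toBd
    have h3 : ∀ j, ∫ x, u i x ^ 2 * (β j (σ x) - β j (σ ((p j)⁻¹ • x))) ∂m ≤
        C j * (2 * B / c) * ∫ x, (u i (p j • x) - u i x) ^ 2 ∂m +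
          C j * (c / (2 * B)) * ∫ x, u i x ^ 2 ∂m := by
      intro j
      have h4 := (h2.smul (p j)).int
      have h5 := (((hu i).smul (p j)).sub (hu i)).sq
      simp only [mul_sub]
      rw [integral_sub (h2.mul (hb j)).int (h2.mul ((hb j).smul _)).int,
        ← int_smul (p j) fun x => u i x ^ 2 * β j (σ ((p j)⁻¹ • x))]
      simp only [inv_smul_smul]
      have e : C j * (c / (2 * B)) * ∫ x, u i x ^ 2 ∂m = C j * (c / (4 * B)) * ∫ x, u i x ^ 2 ∂m +
          C j * (c / (4 * B)) * ∫ x, u i (p j • x) ^ 2 ∂m := by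
        rw [int_smul (p j) fun x => u i x ^ 2]; field_simp; ring
      rw [e, ← integral_sub (h2.mul (hb j)).int ((h2.smul _).mul (hb j)).int, ← integral_const_mul,
        ← integral_const_mul, ← integral_const_mul,
        ← integral_add (h2.int.const_mul _) (h4.const_mul _)]
      refine le_trans ?_
        (integral_add (h5.const_mul _) ((h2.int.const_mul _).add (h4.const_mul _))).le
      refine integral_mono ((h2.mul (hb j)).sub ((h2.smul _).mul (hb j))).int
        ((h5.const_mul _).add ((h2.int.const_mul _).add (h4.const_mul _))) fun x => ?_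
      set a := u i x
      set b := u i (p j • x)
      have h6 : |a ^ 2 - b ^ 2| ≤ 2 * B / c * (b - a) ^ 2 + c / (4 * B) * (a ^ 2 + b ^ 2) := by
        have h7 : 0 < c / (4 * B) := by positivity
        have h8 : 2 * B / c = (2 * (c / (4 * B)))⁻¹ := by field_simp; ring
        rw [h8]
        generalize c / (4 * B) = η at h7
        have h9 : ∀ e : ℝ, e ^ 2 = 1 → e * (a ^ 2 - b ^ 2) ≤
            (2 * η)⁻¹ * (b - a) ^ 2 + η * (a ^ 2 + b ^ 2) := fun e he => by
          rw [← sub_nonneg]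
          have : (2 * η)⁻¹ * (b - a) ^ 2 + η * (a ^ 2 + b ^ 2) - e * (a ^ 2 - b ^ 2) =
              (2 * η)⁻¹ * ((b - a + e * η * (a + b)) ^ 2 + η ^ 2 * (a - b) ^ 2) := by
            field_simp
            linear_combination (-η ^ 2 * (a + b) ^ 2) * he
          rw [this]; positivity
        exact abs_le.2 ⟨by linarith [h9 (-1) (by norm_num)], by linarith [h9 1 (by norm_num)]⟩
      have h10 : (a ^ 2 - b ^ 2) * β j (σ x) ≤ |a ^ 2 - b ^ 2| * C j :=
        (le_abs_self _).trans (by rw [abs_mul]; gcongr; exact hC j _)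
      have h11 := mul_le_mul_of_nonneg_right h6 (hC0 j)
      simp only [Pi.add_apply]
      linarith
    have h4 : c * ∫ x, u i x ^ 2 ∂m ≤
        ∑ j, ∫ x, u i x ^ 2 * (β j (σ x) - β j (σ ((p j)⁻¹ • x))) ∂m := by
      rw [← integral_finsetSum _ fun j _ => (h2.mul ((hb j).sub ((hb j).smul _))).int,
        ← integral_const_mul]
      refine integral_mono (h2.int.const_mul _)
        (integrable_finsetSum _ fun j _ => (h2.mul ((hb j).sub ((hb j).smul _))).int) fun x => ?_
      simp only [← Finset.mul_sum, mul_comm c]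
      exact mul_le_mul_of_nonneg_left (hd' x) (sq_nonneg _)
    have h5 := h4.trans (Finset.sum_le_sum fun j _ => h3 j)
    rw [Finset.sum_add_distrib, ← Finset.sum_mul, ← Finset.sum_mul] at h5
    have h6 : (∑ j, C j) * (c / (2 * B)) ≤ c / 2 := by
      rw [← mul_div_assoc, div_le_div_iff₀ (by positivity) two_pos]; nlinarith
    have h7 : 0 ≤ ∫ x, u i x ^ 2 ∂m := integral_nonneg fun _ => sq_nonneg _
    nlinarith
  refine ⟨fun i => (hu i).meas, ?_⟩
  have h1 : ∀ j, Tendsto (fun i => ∫ x, (u i (p j • x) - u i x) ^ 2 ∂m) atTop (𝓝 0) := fun j => by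
    have := (ENNReal.tendsto_toReal (by simp)).comp (hA _ (hp j)).lim
    refine this.congr fun i => ?_
    simp only [Function.comp, (((hu i).smul (p j)).sub (hu i)).N2]
    exact ENNReal.toReal_ofReal (integral_nonneg fun _ => sq_nonneg _)
  have h2 := (tendsto_finsetSum Finset.univ fun j _ => (h1 j).const_mul (C j * (2 * B / c))).const_mul
    (c / 2)⁻¹
  simp only [mul_zero, Finset.sum_const_zero] at h2
  have h3 := ENNReal.tendsto_ofReal h2
  rw [ENNReal.ofReal_zero] at h3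
  refine tendsto_of_tendsto_of_tendsto_of_le_of_le tendsto_const_nhds h3 (fun _ => zero_le) fun i => ?_
  rw [(hu i).N2]
  exact ENNReal.ofReal_le_ofReal ((le_inv_mul_iff₀ (half_pos hc)).2 (key i))

variable [TopologicalSpace G] [IsTopologicalGroup G] [BorelSpace G] [SecondCountableTopology G]
  [T2Space G] [LocallyCompactSpace G] {μ : Measure G} [μ.IsHaarMeasure] [μ.IsMulRightInvariant]
  {o : Ω} {Q : Set G} {ρ : G → ℝ}

/-- Locally uniform convergence of the lifted functions along a filter. -/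
def LU (l : Filter ℕ) (o : Ω) (u : ℕ → Ω → ℝ) (F : G → ℝ) : Prop :=
  ∀ K : Set G, IsCompact K → ∀ η > 0, ∀ᶠ i in l, ∀ g ∈ K, |u i (g • o) - F g| ≤ η

omit [MeasurableSpace Ω] [MeasurableSpace G] [MeasurableSMul₂ G Ω] [IsTopologicalGroup G]
  [BorelSpace G] [SecondCountableTopology G] [T2Space G] [LocallyCompactSpace G] in
theorem LU.add {l : Filter ℕ} {u v : ℕ → Ω → ℝ} {F F' : G → ℝ} (h : LU l o u F) (h' : LU l o v F')
    (c : ℝ) (hc : |c| = 1) : LU l o (fun i x => u i x + c * v i x) fun g => F g + c * F' g := by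
  intro K hK η hη
  filter_upwards [h K hK _ (half_pos hη), h' K hK _ (half_pos hη)] with i h1 h2 g hg
  have := abs_add_le (u i (g • o) - F g) (c * (v i (g • o) - F' g))
  rw [abs_mul, hc, one_mul] at this
  exact le_trans (le_of_eq (congrArg abs (by ring))) (this.trans (by linarith [h1 g hg, h2 g hg]))

omit [MeasurableSpace Ω] [MeasurableSpace G] [MeasurableSMul₂ G Ω]
  [BorelSpace G] [SecondCountableTopology G] [T2Space G] [LocallyCompactSpace G] in
theorem LU.smul {l : Filter ℕ} {u : ℕ → Ω → ℝ} {F : G → ℝ} (h : LU l o u F) (s : G) :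
    LU l o (fun i x => u i (s • x)) fun g => F (s * g) := fun K hK η hη =>
  (h _ (hK.image (continuous_const_mul s)) η hη).mono fun i h g hg => by
    simpa only [mul_smul] using h _ ⟨g, hg, rfl⟩

omit [MeasurableSpace Ω] [MeasurableSpace G] [MeasurableSMul₂ G Ω] [IsTopologicalGroup G]
  [BorelSpace G] [SecondCountableTopology G] [T2Space G] [LocallyCompactSpace G] in
theorem LU.tendsto {l : Filter ℕ} {u : ℕ → Ω → ℝ} {F : G → ℝ} (h : LU l o u F) (g : G) :
    Tendsto (fun i => u i (g • o)) l (𝓝 (F g)) :=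
  Metric.tendsto_nhds.2 fun _ hη => (h {g} isCompact_singleton _ (half_pos hη)).mono fun _ h =>
    (h g rfl).trans_lt (half_lt_self hη)

omit [MeasurableSMul₂ G Ω] [SMulInvariantMeasure G Ω m] [IsTopologicalGroup G]
  [SecondCountableTopology G] [μ.IsMulRightInvariant] in
theorem LU.eq_zero (hS : Sp μ m o) {l : Filter ℕ} [l.NeBot] (hl : l ≤ atTop) {u : ℕ → Ω → ℝ}
    {F : G → ℝ} (h : LU l o u F) (hu : Z0 m u) (hF : Continuous F) (g : G) : F g = 0 := by
  by_contra h0
  have h1 : 0 < |F g| / 2 := half_pos (abs_pos.2 h0)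
  obtain ⟨V, hV, hVs, hVc⟩ := local_compact_nhds
    (hF.abs.continuousAt (x := g).eventually (lt_mem_nhds (half_lt_self (abs_pos.2 h0))))
  obtain ⟨n, hn, hup⟩ := hS.up V hVc
  have h2 := (ENNReal.Tendsto.const_mul (a := n) hu.lim (.inr hn)).mono_left hl
  have h3 : 0 < ENNReal.ofReal ((|F g| / 2 / 2) ^ 2) * μ V :=
    ENNReal.mul_pos (ENNReal.ofReal_pos.2 (by positivity)).ne' (μ.measure_pos_of_mem_nhds hV).ne'
  rw [mul_zero] at h2
  obtain ⟨i, h4, h5⟩ := ((h2.eventually (gt_mem_nhds h3)).and (h V hVc _ (half_pos h1))).exists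
  refine h4.not_ge (le_trans ?_ (hup _ ((hu.meas i).pow_const 2).ennreal_ofReal))
  rw [← setLIntegral_const]
  refine setLIntegral_mono' hVc.measurableSet fun y hy => ENNReal.ofReal_le_ofReal ?_
  rw [← sq_abs (u i _)]
  refine pow_le_pow_left₀ (half_pos h1).le ?_ 2
  have h6 : |F g| / 2 < |F y| := hVs hy
  linarith [h5 y hy, abs_sub_abs_le_abs_sub (F y) (u i (y • o)), abs_sub_comm (F y) (u i (y • o))]

omit [SMulInvariantMeasure G Ω m] [SecondCountableTopology G] in
theorem exists_lim (hρ : Den Q ρ) (hQ : IsCompact Q) {f : ℕ → Ω → ℝ} (hf : ∀ i, Bd (f i))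
    (loc : ∀ K : Set G, IsCompact K → ∃ M : ℝ≥0∞, M ≠ ∞ ∧ ∀ i,
      ∫⁻ g in K, ENNReal.ofReal |f i (g • o)| ∂μ ≤ M) : ∃ F : G → ℝ, Continuous F ∧
    LU (Ultrafilter.of atTop : Ultrafilter ℕ) o
      (fun i => T (μ.withDensity fun s => ENNReal.ofReal (ρ s)) (f i)) F := by
  set k : ℕ → G → ℝ := fun i g => T (μ.withDensity fun s => ENNReal.ofReal (ρ s)) (f i) (g • o)
    with hk
  have e : ∀ i g, k i g = ∫ y, ρ (y * g⁻¹) * f i (y • o) ∂μ := fun i g => by
    rw [hk, ← integral_mul_right_eq_self (fun y => ρ (y * g⁻¹) * f i (y • o)) g]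
    simp only [T]
    rw [integral_withDensity_eq_integral_toReal_smul (E := ℝ) hρ.cont.measurable.ennreal_ofReal
      (.of_forall fun _ => ENNReal.ofReal_lt_top)]
    simp only [ENNReal.toReal_ofReal (hρ.nonneg _), smul_eq_mul, mul_inv_cancel_right, mul_smul]
  have kb : ∀ K : Set G, IsCompact K → ∃ M : ℝ, 0 < M ∧ ∀ (a : G → ℝ) (η : ℝ), 0 ≤ η →
      (∀ y ∈ K, |a y| ≤ η) → (∀ y, y ∉ K → a y = 0) → ∀ i, |∫ y, a y * f i (y • o) ∂μ| ≤ η * M := by
    intro K hK
    obtain ⟨M, hM, h⟩ := loc K hK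
    refine ⟨M.toReal + 1, by positivity, fun a η hη h1 h2 i => ?_⟩
    refine (norm_integral_le_lintegral_norm fun y => a y * f i (y • o)).trans
      (ENNReal.toReal_le_of_le_ofReal (by positivity) ?_)
    rw [ENNReal.ofReal_mul hη, ENNReal.ofReal_add ENNReal.toReal_nonneg zero_le_one,
      ENNReal.ofReal_toReal hM]
    refine le_trans ?_ (mul_le_mul_right ((h i).trans le_self_add) _)
    rw [← lintegral_const_mul' _ _ ENNReal.ofReal_ne_top, ← lintegral_indicator hK.measurableSet]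
    refine lintegral_mono fun y => ?_
    by_cases hy : y ∈ K
    · rw [indicator_of_mem hy, ← ENNReal.ofReal_mul hη, Real.norm_eq_abs, abs_mul]
      exact ENNReal.ofReal_le_ofReal (mul_le_mul_of_nonneg_right (h1 y hy) (abs_nonneg _))
    · simp [h2 y hy]
  have hz : ∀ {N : Set G} {g y : G}, g ∈ N → y ∉ Q * N → ρ (y * g⁻¹) = 0 := fun hg hy =>
    hρ.supp _ fun h => hy ⟨_, h, _, hg, by simp⟩
  have hc : ∀ g, Continuous fun y => ρ (y * g⁻¹) := fun g => hρ.cont.comp (by fun_prop)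
  have hi : ∀ i g, Integrable (fun y => ρ (y * g⁻¹) * f i (y • o)) μ := fun i g =>
    int_mul ((hc g).integrable_of_hasCompactSupport (HasCompactSupport.intro
      (hQ.mul (isCompact_singleton (x := g))) fun y hy => hz (mem_singleton g) hy)) ((hf i).orb o)
  have eq : ∀ g₀, ∀ η > 0, ∀ᶠ g in 𝓝 g₀, ∀ i, |k i g - k i g₀| ≤ η := by
    intro g₀ η hη
    obtain ⟨N, hNc, hN⟩ := exists_compact_mem_nhds g₀
    obtain ⟨M, hM, h⟩ := kb _ (hQ.mul hNc)
    have h1 : ∀ᶠ g in 𝓝 g₀, ∀ y ∈ Q * N, |ρ (y * g⁻¹) - ρ (y * g₀⁻¹)| ≤ η / M := by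
      refine (hQ.mul hNc).eventually_forall_of_forall_eventually fun y _ => ?_
      have : Continuous fun z : G × G => |ρ (z.2 * z.1⁻¹) - ρ (z.2 * g₀⁻¹)| :=
        ((hρ.cont.comp (by fun_prop)).sub (hρ.cont.comp (by fun_prop))).abs
      exact this.continuousAt.eventually (ge_mem_nhds (by simpa using div_pos hη hM))
    filter_upwards [h1, hN] with g h1 hg i
    rw [e, e, ← integral_sub (hi i g) (hi i g₀)]
    simp only [← sub_mul]
    exact (h _ _ (div_pos hη hM).le h1 (fun y hy => by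
      rw [hz hg hy, hz (mem_of_mem_nhds hN) hy, sub_self]) i).trans_eq (div_mul_cancel₀ _ hM.ne')
  have ex : ∀ g, ∃ a, Tendsto (fun i => k i g) (Ultrafilter.of atTop : Ultrafilter ℕ) (𝓝 a) := by
    intro g
    obtain ⟨M, hM, h⟩ := kb _ (hQ.mul (isCompact_singleton (x := g)))
    obtain ⟨C, hC⟩ := (hQ.mul (isCompact_singleton (x := g))).exists_bound_of_continuousOn
      (hc g).continuousOn
    obtain ⟨a, -, ha⟩ := (isCompact_closedBall (0 : ℝ) (|C| * M)).ultrafilter_le_nhds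
      ((Ultrafilter.of atTop).map fun i => k i g) (le_principal_iff.2 (mem_map.2 (univ_mem' fun i => by
        simpa [e] using h _ _ (abs_nonneg C) (fun y hy => (hC y hy).trans (le_abs_self C))
          (fun y hy => hz (mem_singleton g) hy) i)))
    exact ⟨a, ha⟩
  choose F hF using ex
  have eqF : ∀ g₀, ∀ η > 0, ∀ᶠ g in 𝓝 g₀, |F g - F g₀| ≤ η := fun g₀ η hη =>
    (eq g₀ η hη).mono fun g h => le_of_tendsto' ((hF g).sub (hF g₀)).abs h
  refine ⟨F, continuous_iff_continuousAt.2 fun g => Metric.tendsto_nhds.2 fun η hη =>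
    (eqF g _ (half_pos hη)).mono fun _ h => h.trans_lt (half_lt_self hη), fun K hK η hη => ?_⟩
  refine hK.induction_on (p := fun K => ∀ᶠ i in (Ultrafilter.of atTop : Ultrafilter ℕ), ∀ g ∈ K,
    |k i g - F g| ≤ η) (by simp) (fun _ _ h h' => h'.mono fun _ h' g hg => h' g (h hg))
    (fun _ _ h h' => (h.and h').mono fun _ h g hg => hg.elim (h.1 g) (h.2 g)) fun g _ => ?_
  have h3 : 0 < η / 3 := by positivity
  refine ⟨_, mem_nhdsWithin_of_mem_nhds ((eq g _ h3).and (eqF g _ h3)), ?_⟩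
  filter_upwards [Metric.tendsto_nhds.1 (hF g) _ h3] with i h1 y hy
  have h4 := abs_le.1 (hy.1 i)
  have h5 := abs_le.1 hy.2
  have h6 := abs_lt.1 h1
  exact abs_le.2 ⟨by linarith, by linarith⟩

end Pool.Agent.Lib.MP_60cbcc_al.H8W
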