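import Pool.Agent.Lib.MP_60cbcc_al.H8WBoch

/-!
Local bounds on the oscillation of a function from the coarea condition.
-/

namespace Pool.Agent.Lib.MP_60cbcc_al.H8W

open MeasureTheory Set Filter Topology
open scoped ENNReal

variable {G Ω : Type} [Group G] [TopologicalSpace G] [MeasurableSpace G] [MeasurableSpace Ω]
  [MulAction G Ω]

/-- A homogeneous space whose measure is locally comparable to the Haar measure. -/
structure Sp (μ : Measure G) (m : Measure Ω) (o : Ω) : Prop where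
  sec : ∃ σ : Ω → G, Measurable σ ∧ ∀ x, σ x • o = x
  up : ∀ K : Set G, IsCompact K → ∃ n : ℝ≥0∞, n ≠ ∞ ∧ ∀ φ : Ω → ℝ≥0∞, Measurable φ →
    ∫⁻ g in K, φ (g • o) ∂μ ≤ n * ∫⁻ x, φ x ∂m
  ms : ∀ K : Set G, IsCompact K → MeasurableSet ((· • o) '' K)
  down : ∀ K : Set G, IsCompact K → ∀ φ : Ω → ℝ≥0∞, Measurable φ →
    ∫⁻ x in (· • o) '' K, φ x ∂m ≤ ∫⁻ g in K, φ (g • o) ∂μ

/-- A continuous symmetric weight carried by `Q` whose support generates the group. -/
structure Den (Q : Set G) (ρ : G → ℝ) : Prop where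
  cont : Continuous ρ
  nonneg : ∀ s, 0 ≤ ρ s
  symm : ∀ s, ρ s⁻¹ = ρ s
  one : 0 < ρ 1
  supp : ∀ s, s ∉ Q → ρ s = 0
  gen : Subgroup.closure {s | 0 < ρ s} = ⊤

variable {μ : Measure G} {m : Measure Ω} {o : Ω} {Q : Set G} {ρ : G → ℝ}

/-- The one-sided local bound on `V` relative to levels that are reached on half of `B`. -/
def Bp (μ : Measure G) (m : Measure Ω) (o : Ω) (ρ : G → ℝ) (B V : Set G) : Prop :=
  ∃ M : ℝ≥0∞, M ≠ ∞ ∧ ∀ f φ c, Bd f → 0 < φ →
    Co m (μ.withDensity fun s => ENNReal.ofReal (ρ s)) f φ →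
    μ B ≤ 2 * μ (B ∩ {g | f (g • o) ≤ c}) →
    ∫⁻ g in V, ENNReal.ofReal (f (g • o) - c) ∂μ ≤ M * ENNReal.ofReal φ

omit [TopologicalSpace G] in
theorem Bp.mono {B V V' : Set G} (h : Bp μ m o ρ B V) (hV : V' ⊆ V) : Bp μ m o ρ B V' :=
  h.imp fun _ h => ⟨h.1, fun f φ c h1 h2 h3 h4 => (lintegral_mono_set hV).trans (h.2 f φ c h1 h2 h3 h4)⟩

omit [TopologicalSpace G] in
theorem Bp.union {B V V' : Set G} (h : Bp μ m o ρ B V) (h' : Bp μ m o ρ B V') :
    Bp μ m o ρ B (V ∪ V') := by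
  obtain ⟨M, hM, h⟩ := h
  obtain ⟨M', hM', h'⟩ := h'
  refine ⟨M + M', by finiteness, fun f φ c h1 h2 h3 h4 => (lintegral_union_le _ _ _).trans ?_⟩
  rw [add_mul]
  exact add_le_add (h f φ c h1 h2 h3 h4) (h' f φ c h1 h2 h3 h4)

variable [IsTopologicalGroup G] [BorelSpace G] [SecondCountableTopology G] [T2Space G]
  [LocallyCompactSpace G] [MeasurableSMul₂ G Ω] [μ.IsHaarMeasure] [μ.IsMulRightInvariant]

theorem Bp.step (hS : Sp μ m o) (hρ : Den Q ρ) {B V : Set G} (hV : IsCompact V)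
    (hB : MeasurableSet B) (hB0 : μ B ≠ 0) {δ : ℝ} (hδ : 0 < δ)
    (h : ∀ g ∈ V, ∀ y ∈ B, δ ≤ ρ (y * g⁻¹)) : Bp μ m o ρ B V := by
  obtain ⟨n, hn, hup⟩ := hS.up V hV
  have ha : ENNReal.ofReal δ * μ B ≠ 0 := mul_ne_zero (by simpa using hδ) hB0
  refine ⟨2 * n / (ENNReal.ofReal δ * μ B), ENNReal.div_ne_top (by finiteness) ha,
    fun f φ c hf _ hco hc => ?_⟩
  have hmρ : Measurable fun s => ENNReal.ofReal (ρ s) := hρ.cont.measurable.ennreal_ofReal
  have hm : Measurable fun p : Ω × G =>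
      {s : G | f (s • p.1) ≤ c}.indicator (fun _ => ENNReal.ofReal (f p.1 - c)) p.2 :=
    Measurable.ite (measurableSet_le (hf.meas.comp (by fun_prop)) measurable_const)
      ((hf.meas.comp measurable_fst).sub_const c).ennreal_ofReal measurable_const
  have h1 := (hup _ (hm.lintegral_prod_right' (ν := μ.withDensity fun s =>
    ENNReal.ofReal (ρ s)))).trans (mul_le_mul_right (hco c) n)
  have hZ : MeasurableSet (B ∩ {g | f (g • o) ≤ c}) :=
    hB.inter (measurableSet_le (hf.orb o).meas measurable_const)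
  have h2 : ∀ g ∈ V, ENNReal.ofReal (f (g • o) - c) * (ENNReal.ofReal δ * μ B) ≤
      2 * ∫⁻ s, {s : G | f (s • g • o) ≤ c}.indicator (fun _ => ENNReal.ofReal (f (g • o) - c)) s
        ∂μ.withDensity fun s => ENNReal.ofReal (ρ s) := by
    intro g hg
    have hm' : Measurable fun s => {s : G | f (s • g • o) ≤ c}.indicator
        (fun _ => ENNReal.ofReal (f (g • o) - c)) s := hm.comp (measurable_prodMk_left (x := g • o))
    rw [lintegral_withDensity_eq_lintegral_mul _ hmρ hm', ← lintegral_mul_right_eq_self _ g⁻¹]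
    calc _ ≤ ENNReal.ofReal (f (g • o) - c) * (ENNReal.ofReal δ *
          (2 * μ (B ∩ {g | f (g • o) ≤ c}))) := by gcongr
      _ = 2 * ∫⁻ y, (B ∩ {g | f (g • o) ≤ c}).indicator
          (fun _ => ENNReal.ofReal δ * ENNReal.ofReal (f (g • o) - c)) y ∂μ := by
        rw [lintegral_indicator_const hZ]; ring
      _ ≤ _ := by
        refine mul_le_mul_right (lintegral_mono fun y => ?_) 2
        by_cases hy : y ∈ B ∩ {g | f (g • o) ≤ c}
        · have : f (y • o) ≤ c := hy.2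
          rw [indicator_of_mem hy]
          simp only [Pi.mul_apply, indicator, mem_ofPred_eq, mul_smul, inv_smul_smul, this, if_true]
          gcongr
          exact h g hg y hy.1
        · simp [indicator_of_notMem hy]
  rw [ENNReal.div_eq_inv_mul, mul_assoc, ← ENNReal.div_eq_inv_mul,
    ENNReal.le_div_iff_mul_le (.inl ha) (.inr (by finiteness)),
    ← lintegral_mul_const _ ((hf.orb o).meas.sub_const c).ennreal_ofReal, mul_assoc]
  refine le_trans (setLIntegral_mono' hV.measurableSet h2) ?_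
  rw [lintegral_const_mul' _ _ (by finiteness)]
  exact mul_le_mul_right h1 2

omit [IsTopologicalGroup G] [SecondCountableTopology G] [LocallyCompactSpace G]
  [μ.IsMulRightInvariant] in
theorem Bp.trans {A B V : Set G} (h : Bp μ m o ρ A B) (h' : Bp μ m o ρ B V) (hB : IsCompact B)
    (hB0 : μ B ≠ 0) (hV : IsCompact V) : Bp μ m o ρ A V := by
  obtain ⟨M, hM, h⟩ := h
  obtain ⟨M', hM', h'⟩ := h'
  obtain ⟨κ, hκ, hκ'⟩ : ∃ κ : ℝ, 0 < κ ∧ 2 * M ≤ ENNReal.ofReal κ * μ B := by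
    have h1 : 2 * M / μ B ≠ ∞ := ENNReal.div_ne_top (by finiteness) hB0
    refine ⟨(2 * M / μ B).toReal + 1, by positivity, ?_⟩
    rw [← ENNReal.div_le_iff hB0 hB.measure_ne_top,
      ENNReal.ofReal_add ENNReal.toReal_nonneg zero_le_one, ENNReal.ofReal_toReal h1]
    exact le_self_add
  have hVt := hV.measure_ne_top (μ := μ)
  refine ⟨M' + ENNReal.ofReal κ * μ V, by finiteness, fun f φ c hf hφ hco hc => ?_⟩
  have hZ : MeasurableSet {g : G | f (g • o) ≤ c + κ * φ} :=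
    measurableSet_le (hf.orb o).meas measurable_const
  have h1 : ENNReal.ofReal (κ * φ) * μ (B \ {g | f (g • o) ≤ c + κ * φ}) ≤
      M * ENNReal.ofReal φ := by
    refine le_trans ?_ ((lintegral_mono_set
      (sdiff_subset (t := {g | f (g • o) ≤ c + κ * φ}))).trans (h f φ c hf hφ hco hc))
    rw [← setLIntegral_const]
    refine setLIntegral_mono' (hB.measurableSet.diff hZ) fun g hg => ENNReal.ofReal_le_ofReal ?_
    linarith [not_le.1 (show ¬ f (g • o) ≤ c + κ * φ from hg.2)]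
  have h2 : 2 * μ (B \ {g | f (g • o) ≤ c + κ * φ}) ≤ μ B := by
    have h0 : ENNReal.ofReal (κ * φ) ≠ 0 := by simpa using mul_pos hκ hφ
    rw [← ENNReal.mul_le_mul_iff_right h0 ENNReal.ofReal_ne_top]
    calc _ = 2 * (ENNReal.ofReal (κ * φ) * μ (B \ {g | f (g • o) ≤ c + κ * φ})) := by ring
      _ ≤ 2 * M * ENNReal.ofReal φ := by rw [mul_assoc]; gcongr
      _ ≤ ENNReal.ofReal κ * μ B * ENNReal.ofReal φ := by gcongr
      _ = _ := by rw [ENNReal.ofReal_mul hκ.le]; ring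
  have h3 : μ B ≤ 2 * μ (B ∩ {g | f (g • o) ≤ c + κ * φ}) := by
    rw [← ENNReal.add_le_add_iff_right (hB.measure_ne_top (μ := μ)), ← two_mul]
    nth_rewrite 1 [← measure_inter_add_sdiff B hZ]
    rw [mul_add]
    gcongr
  calc _ ≤ ∫⁻ g in V, ENNReal.ofReal (f (g • o) - (c + κ * φ)) + ENNReal.ofReal (κ * φ) ∂μ := by
        refine lintegral_mono fun g => le_trans (le_of_eq ?_) ENNReal.ofReal_add_le
        congr 1; ring
    _ ≤ M' * ENNReal.ofReal φ + ENNReal.ofReal (κ * φ) * μ V := by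
        rw [lintegral_add_right _ measurable_const, setLIntegral_const]
        gcongr
        exact h' f φ _ hf hφ hco h3
    _ = _ := by rw [ENNReal.ofReal_mul hκ.le]; ring

theorem Bp.near (hS : Sp μ m o) (hρ : Den Q ρ) {x z : G} (h : 0 < ρ (x * z⁻¹)) {U U' : Set G}
    (hU : U ∈ 𝓝 x) (hU' : U' ∈ 𝓝 z) : ∃ B ∈ 𝓝 x, ∃ V ∈ 𝓝 z, B ⊆ U ∧ V ⊆ U' ∧ IsCompact B ∧
      IsCompact V ∧ ∀ B' ∈ 𝓝 x, B' ⊆ B → IsCompact B' → Bp μ m o ρ B' V := by
  have hc : Continuous fun p : G × G => ρ (p.1 * p.2⁻¹) := hρ.cont.comp (by fun_prop)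
  have h1 := hc.continuousAt (x := (x, z)).eventually (lt_mem_nhds (half_lt_self h))
  rw [nhds_prod_eq, eventually_prod_iff] at h1
  obtain ⟨pa, ha, pb, hb, hab⟩ := h1
  obtain ⟨B, hB, hBs, hBc⟩ := local_compact_nhds (inter_mem hU ha)
  obtain ⟨V, hV, hVs, hVc⟩ := local_compact_nhds (inter_mem hU' hb)
  exact ⟨B, hB, V, hV, fun y hy => (hBs hy).1, fun y hy => (hVs hy).1, hBc, hVc,
    fun B' h1 h2 h3 => Bp.step hS hρ hVc h3.measurableSet (μ.measure_pos_of_mem_nhds h1).ne'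
      (half_pos h) fun g hg y hy => (hab (hBs (h2 hy)).2 (hVs hg).2).le⟩

theorem exists_Bp (hS : Sp μ m o) (hρ : Den Q ρ) : ∃ B ∈ 𝓝 (1 : G), IsCompact B ∧
    ∀ K, IsCompact K → Bp μ m o ρ B K := by
  obtain ⟨B, hB, V, hV, -, -, hBc, hVc, h⟩ :=
    Bp.near hS hρ (x := 1) (z := 1) (by simpa using hρ.one) univ_mem univ_mem
  have h1 : ∀ s, 0 < ρ s → ∀ x, (∃ U ∈ 𝓝 x, Bp μ m o ρ B U) → ∃ U ∈ 𝓝 (s * x), Bp μ m o ρ B U := by
    rintro s hs x ⟨U, hU, hb⟩
    obtain ⟨B', hB', V', hV', h1, -, h2, h3, h4⟩ :=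
      Bp.near hS hρ (x := x) (z := s * x) (by simpa [hρ.symm] using hs) hU univ_mem
    exact ⟨V', hV', (hb.mono h1).trans (h4 B' hB' subset_rfl h2) h2
      (μ.measure_pos_of_mem_nhds hB').ne' h3⟩
  have h2 : ∀ s, ∀ x, (∃ U ∈ 𝓝 x, Bp μ m o ρ B U) → ∃ U ∈ 𝓝 (s * x), Bp μ m o ρ B U := by
    intro s
    induction hρ.gen.ge (Subgroup.mem_top s) using Subgroup.closure_induction'' with
    | mem s hs => exact h1 s hs
    | inv_mem s hs => exact h1 _ (by rwa [hρ.symm])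
    | one => simp
    | mul s t _ _ hs ht => intro x hx; rw [mul_assoc]; exact hs _ (ht x hx)
  refine ⟨B, hB, hBc, fun K hK => hK.induction_on ⟨0, by simp, by simp⟩ (fun _ _ h h' => h'.mono h)
    (fun _ _ => Bp.union) fun x _ => ?_⟩
  obtain ⟨U, hU, hb⟩ := h2 x 1 ⟨V, hV, h B hB subset_rfl hBc⟩
  exact ⟨U, mem_nhdsWithin_of_mem_nhds (by simpa using hU), hb⟩

theorem local_bound (hS : Sp μ m o) (hρ : Den Q ρ) : ∃ c : (Ω → ℝ) → ℝ, ∀ K, IsCompact K →
    ∃ M : ℝ≥0∞, M ≠ ∞ ∧ ∀ f φ, Bd f → 0 < φ →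
      Co m (μ.withDensity fun s => ENNReal.ofReal (ρ s)) f φ →
      Co m (μ.withDensity fun s => ENNReal.ofReal (ρ s)) (fun x => -f x) φ →
      ∫⁻ g in K, ENNReal.ofReal |f (g • o) - c f| ∂μ ≤ M * ENNReal.ofReal φ := by
  obtain ⟨B, hB, hBc, h⟩ := exists_Bp hS hρ
  refine ⟨fun f => sInf {t | μ B ≤ 2 * μ (B ∩ {g | f (g • o) ≤ t})}, fun K hK => ?_⟩
  obtain ⟨M, hM, h⟩ := h K hK
  have hKt := hK.measure_ne_top (μ := μ)
  refine ⟨M + M + μ K, by finiteness, fun f φ hf hφ h1 h2 => ?_⟩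
  obtain ⟨C, hC⟩ := hf.bdd
  set A := {t | μ B ≤ 2 * μ (B ∩ {g | f (g • o) ≤ t})} with hA
  have hne : A.Nonempty := ⟨C, by
    have : B ∩ {g | f (g • o) ≤ C} = B := inter_eq_left.2 fun g _ => (abs_le.1 (hC _)).2
    simp only [hA, mem_ofPred_eq, this, two_mul, le_self_add]⟩
  have hbd : BddBelow A := ⟨-C, fun t ht => by
    by_contra hlt
    have : B ∩ {g | f (g • o) ≤ t} = ∅ := eq_empty_of_forall_notMem fun g hg =>
      hlt ((abs_le.1 (hC _)).1.trans hg.2)
    simp only [hA, mem_ofPred_eq, this, measure_empty, mul_zero] at ht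
    exact (μ.measure_pos_of_mem_nhds hB).not_ge ht⟩
  have h3 : μ B ≤ 2 * μ (B ∩ {g | f (g • o) ≤ sInf A + φ}) := by
    obtain ⟨t, ht, ht'⟩ := exists_lt_of_csInf_lt hne (lt_add_of_pos_right _ hφ)
    refine le_trans ht (mul_le_mul_right (measure_mono (inter_subset_inter_right _ ?_)) 2)
    exact fun g hg => le_trans hg ht'.le
  have h4 : μ B ≤ 2 * μ (B ∩ {g | -f (g • o) ≤ -sInf A + φ}) := by
    have h5 : 2 * μ (B ∩ {g | f (g • o) ≤ sInf A - φ}) ≤ μ B :=
      (not_le.1 fun h => by linarith [csInf_le hbd h]).le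
    rw [← ENNReal.add_le_add_iff_left (hBc.measure_ne_top (μ := μ)), ← two_mul]
    nth_rewrite 1 [← measure_inter_add_sdiff B
      (measurableSet_le (hf.orb o).meas (measurable_const (a := sInf A - φ)))]
    rw [mul_add]
    refine add_le_add h5 (mul_le_mul_right (measure_mono ?_) 2)
    refine fun g hg => ⟨hg.1, ?_⟩
    have := not_le.1 (show ¬ f (g • o) ≤ sInf A - φ from hg.2)
    simp only [mem_ofPred_eq]; linarith
  calc _ ≤ ∫⁻ g in K, ENNReal.ofReal (f (g • o) - (sInf A + φ)) +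
        ENNReal.ofReal (-f (g • o) - (-sInf A + φ)) + ENNReal.ofReal φ ∂μ := by
        refine lintegral_mono fun g => ?_
        rcases le_total 0 (f (g • o) - sInf A) with h6 | h6
        · rw [abs_of_nonneg h6, add_right_comm]
          exact le_trans (le_trans (le_of_eq (by congr 1; ring)) ENNReal.ofReal_add_le) le_self_add
        · rw [abs_of_nonpos h6, add_assoc]
          exact le_trans (le_trans (le_of_eq (by congr 1; ring)) ENNReal.ofReal_add_le) le_add_self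
    _ ≤ M * ENNReal.ofReal φ + M * ENNReal.ofReal φ + ENNReal.ofReal φ * μ K := by
        rw [lintegral_add_right _ measurable_const, setLIntegral_const,
          lintegral_add_left ((hf.orb o).meas.sub_const _).ennreal_ofReal]
        gcongr
        exacts [h f φ _ hf hφ h1 h3, h _ φ _ hf.neg hφ h2 h4]
    _ = _ := by ring

end Pool.Agent.Lib.MP_60cbcc_al.H8W
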