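import Pool.Agent.Lib.MP_60cbcc_al.H8Loc
import Pool.Agent.Lib.MP_60cbcc_al.H8WFW

/-!
`SL(2, k)` over an arbitrary local field: almost every orbit has at most one end.
-/

namespace Pool.Agent.Lib.MP_60cbcc_al.H8W

open Topology MeasureTheory Filter Matrix Pool.Agent.Lib.MP_60cbcc_al.H8
open scoped MatrixGroups Pointwise

section
variable (k : Type) [NontriviallyNormedField k]

/-- Matrices with entries of norm at most two. -/
def bl : Set SL(2, k) := {g | ∀ i j, ‖g i j‖ ≤ 2}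

theorem bl_cpt [ProperSpace k] : IsCompact (bl k) :=
  SpecialLinearGroup.isClosedEmbedding_val.isCompact_preimage
    ((isCompact_closedBall (0 : k) 2).matrix (m := Fin 2) (n := Fin 2)) |>.of_isClosed_subset
    (by
      simp only [bl, Set.ofPred_forall]
      exact isClosed_iInter fun i => isClosed_iInter fun j =>
        isClosed_le (by fun_prop) continuous_const) fun g hg i j => by simpa using hg i j

theorem up_bl {s : k} (h : ‖s‖ ≤ 1) (i j) : ‖up s i j‖ < 2 := by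
  fin_cases i <;> fin_cases j <;> simp [up]; linarith

theorem lo_bl {s : k} (h : ‖s‖ ≤ 1) (i j) : ‖lo s i j‖ < 2 := by
  fin_cases i <;> fin_cases j <;> simp [lo]; linarith

theorem sl_cg' [ProperSpace k] : ∃ S : Set SL(2, k), IsCompact S ∧ Subgroup.closure S = ⊤ := by
  obtain ⟨r, hr⟩ := exists_small (k := k)
  refine ⟨insert (dg r) (bl k), (bl_cpt k).insert _, ?_⟩
  set L := Subgroup.closure (insert (dg r) (bl k))
  have h1 : ∀ n : ℕ, dg (r ^ n) ∈ L := fun n =>
    dg_pow k r n ▸ L.pow_mem (Subgroup.subset_closure (Set.mem_insert _ _)) n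
  have h2 : ∀ s : k, ∃ n : ℕ, ‖((r ^ n : kˣ) : k) ^ 2 * s‖ ≤ 1 := fun s => by
    have : Tendsto (fun n : ℕ => ‖((r ^ n : kˣ) : k) ^ 2 * s‖) atTop (𝓝 0) := by
      simpa using (((tendsto_pow_atTop_nhds_zero_of_norm_lt_one hr).pow 2).mul_const s).norm
    exact (this.eventually (ge_mem_nhds one_pos)).exists
  refine gen L (fun s => ?_) fun s => ?_ <;> obtain ⟨n, hn⟩ := h2 s
  · have : up _ ∈ L := Subgroup.subset_closure (.inr fun i j => (up_bl k hn i j).le)
    rwa [← dg_up, L.mul_mem_cancel_right (L.inv_mem (h1 n)), L.mul_mem_cancel_left (h1 n)] at this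
  · have : lo _ ∈ L := Subgroup.subset_closure (.inr fun i j => (lo_bl k hn i j).le)
    rwa [← dg_lo, ← dg_inv, inv_inv, L.mul_mem_cancel_right (h1 n),
      L.mul_mem_cancel_left (L.inv_mem (h1 n))] at this

theorem scal_bl {g : SL(2, k)} (h : g 0 1 = 0 ∧ g 1 0 = 0 ∧ g 0 0 = g 1 1) : g ∈ bl k := by
  have hd := g.det_coe
  rw [det_fin_two, h.1, h.2.2, zero_mul, sub_zero] at hd
  have h1 : ‖g 1 1‖ ≤ 2 := by
    have := congrArg norm hd
    rw [norm_mul, norm_one] at this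
    nlinarith [norm_nonneg (g 1 1)]
  intro i j
  fin_cases i <;> fin_cases j <;> simp [h, h1]

theorem not_dense' {s : Set SL(2, k)} (hs : (bl k ∩ s).Finite) : ¬Dense s := fun h => by
  obtain ⟨r, hr⟩ := exists_small (k := k)
  have ho : IsOpen {g : SL(2, k) | ∀ i j, ‖g i j‖ < 2} := by
    simp only [Set.ofPred_forall]
    exact isOpen_iInter_of_finite fun i => isOpen_iInter_of_finite fun j =>
      isOpen_lt (by fun_prop) continuous_const
  refine Set.infinite_of_injective_forall_mem (f := fun n : ℕ => up ((r : k) ^ n))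
    (s := {g : SL(2, k) | ∀ i j, ‖g i j‖ < 2}) (fun m n h => ?_)
    (fun n => up_bl k (by rw [norm_pow]; exact pow_le_one₀ (norm_nonneg _) hr.le))
    (hs.subset ((h.open_subset_closure_inter ho).trans (closure_minimal
      (Set.inter_subset_inter_left _ fun g hg i j => (hg i j).le) hs.isClosed)))
  have := congrArg (fun g : SL(2, k) => ‖g 0 1‖) h
  simp only [up, of_apply, cons_val', cons_val_one, cons_val_fin_one, cons_val_zero, norm_pow]
    at this
  exact pow_right_injective₀ (norm_pos_iff.2 r.ne_zero) hr.ne this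

theorem sl_nc : NoncompactSpace SL(2, k) := ⟨fun h => by
  obtain ⟨C, hC⟩ := h.exists_bound_of_continuousOn (f := fun g => g 0 1)
    (Continuous.continuousOn (by fun_prop))
  obtain ⟨s, hs⟩ := NormedField.exists_lt_norm k C
  exact hs.not_ge (by simpa [up] using hC (up s) trivial)⟩

theorem sl_lc [ProperSpace k] : LocallyCompactSpace SL(2, k) :=
  haveI : LocallyCompactSpace (Matrix (Fin 2) (Fin 2) k) :=
    inferInstanceAs (LocallyCompactSpace (Fin 2 → Fin 2 → k))
  SpecialLinearGroup.isClosedEmbedding_val.locallyCompactSpace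

end

variable {k l : Type} [NontriviallyNormedField k] [ProperSpace k] [NontriviallyNormedField l]
  [ProperSpace l]

theorem ends_ae' (Γ : Subgroup (SL(2, k) × SL(2, l))) [DiscreteTopology Γ]
    (hΓ : ∃ C : Set (SL(2, k) × SL(2, l)), IsCompact C ∧ ∀ g, ∃ γ ∈ Γ, γ * g ∈ C)
    (h1 : DenseRange fun γ : Γ => γ.1.1) (h2 : DenseRange fun γ : Γ => γ.1.2)
    {X : Type} [MeasurableSpace X] [StandardBorelSpace X] {μ : Measure X} [IsFiniteMeasure μ]
    [MulAction Γ X] (hμ : ∀ γ : Γ, MeasurePreserving (fun x : X => γ • x) μ μ) :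
    ∀ᵐ x ∂μ, ∀ A ⊆ MulAction.orbit Γ x, (∀ γ : Γ, (γ • A \ A).Finite) →
      A.Finite ∨ (MulAction.orbit Γ x \ A).Finite := by
  have := lat_count Γ
  have := sl_sc k; have := sl_sc l; have := sl_lc k; have := sl_lc l
  have := sl_nc k; have := sl_nc l
  borelize SL(2, k) SL(2, l)
  obtain ⟨C, hC, h⟩ := coc_inv hΓ
  have hF : ∀ γ : Γ, MeasurableSet {x : X | γ • x = x} := fun γ =>
    measurableSet_eq_fun (hμ γ).measurable measurable_id
  have hf := H8W.fin_cpt Γ ((bl_cpt k).prod (bl_cpt l))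
  filter_upwards [dense_ae (p := (MonoidHom.fst _ _).comp Γ.subtype) hF hμ h1,
    dense_ae (p := (MonoidHom.snd _ _).comp Γ.subtype) hF hμ h2] with x hx hy A hA hc
  by_contra! h3
  have hp : {z | z ∈ MulAction.orbit Γ x ∧ z ∈ A}.Infinite := h3.1.mono fun z hz => ⟨hA hz, hz⟩
  rcases hx with hx | hx <;> rcases hy with hy | hy
  · obtain ⟨K, hK, h4⟩ := coc_of_dense hy
    refine dense_end (sl_cg' k) (sl_cg' l) (fun χ _ => sl_nohom k χ) hC h (com_of hc)
      (hx.mono ?_) ⟨K, hK, fun s => ?_⟩ hp h3.2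
    · rintro _ ⟨γ, hγ, rfl⟩
      exact ⟨γ, mem_St.2 hγ, rfl⟩
    · obtain ⟨_, ⟨γ, hγ, rfl⟩, h5⟩ := h4 s
      exact ⟨γ, mem_St.2 hγ, h5⟩
  · refine not_dense' k ((hf.image fun γ => γ.1.1).subset ?_) hx
    rintro _ ⟨h, γ, hγ, rfl⟩
    exact ⟨γ, ⟨h, scal_bl l (hy γ hγ)⟩, rfl⟩
  · refine not_dense' l ((hf.image fun γ => γ.1.2).subset ?_) hy
    rintro _ ⟨h, γ, hγ, rfl⟩
    exact ⟨γ, ⟨scal_bl k (hx γ hγ), h⟩, rfl⟩
  · refine fin_end (sl_cg' l) hC h (com_of hc) ((hf.image Subtype.val).subset ?_) hp h3.2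
    rintro _ ⟨γ, hγ, rfl⟩
    exact ⟨γ, ⟨scal_bl k (hx γ hγ), scal_bl l (hy γ hγ)⟩, rfl⟩

end Pool.Agent.Lib.MP_60cbcc_al.H8W
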