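import Mathlib

/-!
Averaging operators of a measure preserving action: integration by parts, the coarea bound and the
Bochner inequality for two commuting averages.
-/

namespace Pool.Agent.Lib.MP_60cbcc_al.H8W

open MeasureTheory Set
open scoped ENNReal

variable {G Ω : Type} [Group G] [MeasurableSpace G] [MeasurableSpace Ω] [MulAction G Ω]

/-- The average of `f` over the translates of `x`. -/
noncomputable def T (ν : Measure G) (f : Ω → ℝ) (x : Ω) : ℝ := ∫ s, f (s • x) ∂ν

/-- Bounded measurable functions. -/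
structure Bd (f : Ω → ℝ) : Prop where
  meas : Measurable f
  bdd : ∃ C, ∀ x, |f x| ≤ C

/-- Bounded integrable functions. -/
structure L1 (m : Measure Ω) (f : Ω → ℝ) : Prop extends Bd f where
  int : Integrable f m

/-- Bounded functions with integrable differences, uniformly on `Q`. -/
structure Gd (m : Measure Ω) (Q : Set G) (f : Ω → ℝ) : Prop extends Bd f where
  int : ∀ s : G, Integrable (fun x => f (s • x) - f x) m
  unif : ∃ C, ∀ s ∈ Q, ∫ x, |f (s • x) - f x| ∂m ≤ C

/-- Symmetric probability measures carried by `Q`. -/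
structure Sym (Q : Set G) (ν : Measure G) : Prop where
  prob : IsProbabilityMeasure ν
  inv : ν.IsInvInvariant
  supp : ∀ᵐ s ∂ν, s ∈ Q

theorem Bd.const (c : ℝ) : Bd fun _ : Ω => c := ⟨measurable_const, |c|, fun _ => le_rfl⟩

theorem Bd.add {f g : Ω → ℝ} (hf : Bd f) (hg : Bd g) : Bd fun x => f x + g x := by
  obtain ⟨C, hC⟩ := hf.bdd
  obtain ⟨D, hD⟩ := hg.bdd
  exact ⟨hf.meas.add hg.meas, C + D, fun x => (abs_add_le _ _).trans (add_le_add (hC x) (hD x))⟩

theorem Bd.mul {f g : Ω → ℝ} (hf : Bd f) (hg : Bd g) : Bd fun x => f x * g x := by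
  obtain ⟨C, hC⟩ := hf.bdd
  obtain ⟨D, hD⟩ := hg.bdd
  exact ⟨hf.meas.mul hg.meas, C * D, fun x => by
    rw [abs_mul]; exact mul_le_mul (hC x) (hD x) (abs_nonneg _) ((abs_nonneg _).trans (hC x))⟩

theorem Bd.neg {f : Ω → ℝ} (hf : Bd f) : Bd fun x => -f x := by
  simpa using (Bd.const (-1)).mul hf

theorem Bd.sub {f g : Ω → ℝ} (hf : Bd f) (hg : Bd g) : Bd fun x => f x - g x := by
  simpa [sub_eq_add_neg] using hf.add hg.neg

theorem Bd.comp {α : Type} [MeasurableSpace α] {f : Ω → ℝ} (hf : Bd f) {φ : α → Ω}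
    (hφ : Measurable φ) : Bd fun a => f (φ a) :=
  ⟨hf.meas.comp hφ, hf.bdd.imp fun _ h _ => h _⟩

theorem Bd.integrable {f : Ω → ℝ} (hf : Bd f) (m : Measure Ω) [IsFiniteMeasure m] :
    Integrable f m := by
  obtain ⟨C, hC⟩ := hf.bdd
  exact Integrable.of_bound hf.meas.aestronglyMeasurable C (.of_forall hC)

theorem int_mul {m : Measure Ω} {f g : Ω → ℝ} (hf : Integrable f m) (hg : Bd g) :
    Integrable (fun x => f x * g x) m := by
  obtain ⟨C, hC⟩ := hg.bdd
  exact hf.mul_bdd hg.meas.aestronglyMeasurable (.of_forall hC)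

variable {m : Measure Ω} {Q : Set G} {ν : Measure G}

theorem L1.add {f g : Ω → ℝ} (hf : L1 m f) (hg : L1 m g) : L1 m fun x => f x + g x :=
  ⟨hf.toBd.add hg.toBd, hf.int.add hg.int⟩

theorem L1.sub {f g : Ω → ℝ} (hf : L1 m f) (hg : L1 m g) : L1 m fun x => f x - g x :=
  ⟨hf.toBd.sub hg.toBd, hf.int.sub hg.int⟩

theorem L1.mul {f g : Ω → ℝ} (hf : L1 m f) (hg : Bd g) : L1 m fun x => f x * g x :=
  ⟨hf.toBd.mul hg, int_mul hf.int hg⟩

theorem L1.cmul {f : Ω → ℝ} (hf : L1 m f) (c : ℝ) : L1 m fun x => c * f x :=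
  ⟨(Bd.const c).mul hf.toBd, hf.int.const_mul c⟩

theorem L1.sq {f : Ω → ℝ} (hf : L1 m f) : Integrable (fun x => f x ^ 2) m := by
  simpa [pow_two] using (hf.mul hf.toBd).int

omit [MeasurableSpace G] in
theorem Gd.add {f g : Ω → ℝ} (hf : Gd m Q f) (hg : Gd m Q g) : Gd m Q fun x => f x + g x := by
  obtain ⟨C, hC⟩ := hf.unif
  obtain ⟨D, hD⟩ := hg.unif
  refine ⟨hf.toBd.add hg.toBd, fun s => ((hf.int s).add (hg.int s)).congr (.of_forall fun x => by
    simp only [Pi.add_apply]; ring), C + D, fun s hs => ?_⟩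
  refine le_trans ?_ (add_le_add (hC s hs) (hD s hs))
  rw [← integral_add (hf.int s).abs (hg.int s).abs]
  refine integral_mono_of_nonneg (.of_forall fun _ => abs_nonneg _)
    ((hf.int s).abs.add (hg.int s).abs) (.of_forall fun x => ?_)
  exact le_trans (le_of_eq (congrArg abs (by ring))) (abs_add_le _ _)

omit [MeasurableSpace G] in
theorem Gd.cmul {f : Ω → ℝ} (hf : Gd m Q f) (c : ℝ) : Gd m Q fun x => c * f x := by
  obtain ⟨C, hC⟩ := hf.unif
  refine ⟨(Bd.const c).mul hf.toBd, fun s => by simpa [mul_sub] using (hf.int s).const_mul c,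
    |c| * C, fun s hs => ?_⟩
  simp only [← mul_sub, abs_mul, integral_const_mul]
  exact mul_le_mul_of_nonneg_left (hC s hs) (abs_nonneg _)

omit [MeasurableSpace G] in
theorem Gd.const (c : ℝ) : Gd m Q fun _ => c := ⟨Bd.const c, by simp, 0, by simp⟩

omit [MeasurableSpace G] in
theorem Gd.sub {f g : Ω → ℝ} (hf : Gd m Q f) (hg : Gd m Q g) : Gd m Q fun x => f x - g x := by
  simpa [sub_eq_add_neg] using hf.add (hg.cmul (-1))

theorem sq_integral_le {α : Type} [MeasurableSpace α] (ν : Measure α) [IsProbabilityMeasure ν]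
    {g : α → ℝ} (hg : Bd g) : (∫ a, g a ∂ν) ^ 2 ≤ ∫ a, g a ^ 2 ∂ν := by
  have h2 : Integrable (fun a => g a ^ 2) ν := by simpa [pow_two] using (hg.mul hg).integrable ν
  exact (even_two.convexOn_pow (𝕜 := ℝ)).map_integral_le (continuous_pow 2).continuousOn
    isClosed_univ (by simp) (hg.integrable ν) h2

variable [MeasurableSMul₂ G Ω]

theorem Bd.smul {f : Ω → ℝ} (hf : Bd f) (s : G) : Bd fun x => f (s • x) :=
  hf.comp (measurable_const_smul s)

theorem Bd.orb {f : Ω → ℝ} (hf : Bd f) (x : Ω) : Bd fun s : G => f (s • x) :=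
  hf.comp (measurable_smul_const x)

theorem Bd.two {f : Ω → ℝ} (hf : Bd f) : Bd fun p : G × Ω => f (p.1 • p.2) :=
  hf.comp (measurable_fst.smul measurable_snd)

omit [MeasurableSpace Ω] [MeasurableSMul₂ G Ω] in
theorem abs_T_le [IsProbabilityMeasure ν] {f : Ω → ℝ} {C : ℝ} (hC : ∀ x, |f x| ≤ C) (x : Ω) :
    |T ν f x| ≤ C := by
  simpa [T] using norm_integral_le_of_norm_le_const (μ := ν) (f := fun s => f (s • x)) (C := C)
    (.of_forall fun s => hC _)

theorem Bd.T {f : Ω → ℝ} (hf : Bd f) (ν : Measure G) [IsProbabilityMeasure ν] : Bd (T ν f) :=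
  ⟨(hf.two.meas.stronglyMeasurable.integral_prod_left' (μ := ν)).measurable,
    hf.bdd.imp fun _ h => abs_T_le h⟩

theorem T_add [IsProbabilityMeasure ν] {f g : Ω → ℝ} (hf : Bd f) (hg : Bd g) (x : Ω) :
    T ν (fun x => f x + g x) x = T ν f x + T ν g x :=
  integral_add ((hf.orb x).integrable ν) ((hg.orb x).integrable ν)

theorem T_sub [IsProbabilityMeasure ν] {f g : Ω → ℝ} (hf : Bd f) (hg : Bd g) (x : Ω) :
    T ν (fun x => f x - g x) x = T ν f x - T ν g x :=
  integral_sub ((hf.orb x).integrable ν) ((hg.orb x).integrable ν)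

omit [MeasurableSpace Ω] [MeasurableSMul₂ G Ω] in
theorem T_cmul (c : ℝ) (f : Ω → ℝ) (x : Ω) : T ν (fun x => c * f x) x = c * T ν f x :=
  integral_const_mul _ _

theorem sub_T [IsProbabilityMeasure ν] {f : Ω → ℝ} (hf : Bd f) (x : Ω) :
    f x - T ν f x = ∫ s, f x - f (s • x) ∂ν := by
  rw [integral_sub (integrable_const _) ((hf.orb x).integrable ν)]
  simp [T]

variable [SFinite m]

theorem Gd.int2 {f : Ω → ℝ} (hf : Gd m Q f) (hν : Sym Q ν) :
    Integrable (fun p : G × Ω => f (p.1 • p.2) - f p.2) (ν.prod m) := by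
  have := hν.prob
  have hm : Measurable fun p : G × Ω => f (p.1 • p.2) - f p.2 :=
    hf.toBd.two.meas.sub (hf.meas.comp measurable_snd)
  obtain ⟨C, hC⟩ := hf.unif
  rw [integrable_prod_iff hm.aestronglyMeasurable]
  refine ⟨.of_forall hf.int, Integrable.of_bound
    hm.norm.stronglyMeasurable.integral_prod_right'.aestronglyMeasurable C ?_⟩
  filter_upwards [hν.supp] with s hs
  rw [Real.norm_of_nonneg (integral_nonneg fun _ => norm_nonneg _)]
  exact hC s hs

theorem Gd.lap {f : Ω → ℝ} (hf : Gd m Q f) (hν : Sym Q ν) : L1 m fun x => f x - T ν f x := by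
  have := hν.prob
  refine ⟨hf.toBd.sub (hf.toBd.T ν), (hf.int2 hν).neg.integral_prod_right.congr
    (.of_forall fun x => ?_)⟩
  simp [sub_T hf.toBd]

variable [SMulInvariantMeasure G Ω m]

omit [SFinite m] in
theorem int_smul (s : G) (f : Ω → ℝ) : ∫ x, f (s • x) ∂m = ∫ x, f x ∂m :=
  (measurePreserving_smul s m).integral_comp (measurableEmbedding_const_smul s) f

omit [SFinite m] in
theorem lint_smul (s : G) (f : Ω → ℝ≥0∞) : ∫⁻ x, f (s • x) ∂m = ∫⁻ x, f x ∂m :=
  (measurePreserving_smul s m).lintegral_comp_emb (measurableEmbedding_const_smul s) f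

omit [SFinite m] in
theorem L1.smul {f : Ω → ℝ} (hf : L1 m f) (s : G) : L1 m fun x => f (s • x) :=
  ⟨hf.toBd.smul s, (measurePreserving_smul s m).integrable_comp_of_integrable hf.int⟩

omit [SFinite m] in
theorem L1.gd {f : Ω → ℝ} (hf : L1 m f) : Gd m Q f := by
  refine ⟨hf.toBd, fun s => ((hf.smul s).sub hf).int, 2 * ∫ x, |f x| ∂m, fun s _ => ?_⟩
  rw [two_mul]
  nth_rewrite 1 [← int_smul s fun x => |f x|]
  rw [← integral_add (hf.smul s).int.abs hf.int.abs]
  exact integral_mono_of_nonneg (.of_forall fun _ => abs_nonneg _)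
    ((hf.smul s).int.abs.add hf.int.abs) (.of_forall fun x => abs_sub _ _)

theorem Gd.T {f : Ω → ℝ} (hf : Gd m Q f) (hν : Sym Q ν) : Gd m Q (T ν f) := by
  simpa using hf.sub (hf.lap hν).gd

omit [SFinite m] [SMulInvariantMeasure G Ω m] in
theorem Gd.diff {f : Ω → ℝ} (hf : Gd m Q f) (s : G) : L1 m fun x => f (s • x) - f x :=
  ⟨(hf.toBd.smul s).sub hf.toBd, hf.int s⟩

/-- The energy pairing. -/
noncomputable def E (m : Measure Ω) (ν : Measure G) (f g : Ω → ℝ) : ℝ :=
  ∫ p : G × Ω, (f (p.1 • p.2) - f p.2) * (g (p.1 • p.2) - g p.2) ∂ν.prod m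

omit [SMulInvariantMeasure G Ω m] in
theorem Gd.intE {f g : Ω → ℝ} (hf : Gd m Q f) (hg : Bd g) (hν : Sym Q ν) :
    Integrable (fun p : G × Ω => (f (p.1 • p.2) - f p.2) * (g (p.1 • p.2) - g p.2)) (ν.prod m) :=
  int_mul (hf.int2 hν) (hg.two.sub (hg.comp measurable_snd))

variable [MeasurableInv G]

theorem ibp {f g : Ω → ℝ} (hf : Gd m Q f) (hg : Bd g) (hν : Sym Q ν) :
    E m ν f g = 2 * ∫ x, (f x - T ν f x) * g x ∂m := by
  have := hν.prob
  have := hν.inv
  have h1 : Integrable (fun p : G × Ω => (f p.2 - f (p.1 • p.2)) * g p.2) (ν.prod m) :=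
    int_mul ((hf.int2 hν).neg.congr (.of_forall fun p => by simp)) (hg.comp measurable_snd)
  have hσ : MeasurePreserving (fun p : G × Ω => (p.1⁻¹, p.1 • p.2)) (ν.prod m) (ν.prod m) :=
    (Measure.measurePreserving_inv ν).skew_product (g := fun s x => s • x)
      (measurable_fst.smul measurable_snd) (.of_forall fun s => (measurePreserving_smul s m).map_eq)
  have h2 := integral_map hσ.measurable.aemeasurable (f := fun p : G × Ω =>
    (f p.2 - f (p.1 • p.2)) * g p.2) (by rw [hσ.map_eq]; exact h1.aestronglyMeasurable)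
  have h3 := hσ.integrable_comp_of_integrable h1
  rw [hσ.map_eq] at h2
  have h4 : ∫ p : G × Ω, (f p.2 - f (p.1 • p.2)) * g p.2 ∂ν.prod m =
      ∫ x, (f x - T ν f x) * g x ∂m := by
    rw [integral_prod_symm _ h1]
    refine integral_congr_ae (.of_forall fun x => ?_)
    simp only [sub_T hf.toBd, integral_mul_const]
  rw [← h4, two_mul]
  nth_rewrite 1 [h2]
  refine Eq.trans ?_ (integral_add h3 h1)
  refine integral_congr_ae (.of_forall fun p => ?_)
  simp only [inv_smul_smul]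
  ring

theorem T_symm {f g : Ω → ℝ} (hf : Gd m Q f) (hg : Gd m Q g) (hν : Sym Q ν) :
    ∫ x, (f x - T ν f x) * g x ∂m = ∫ x, (g x - T ν g x) * f x ∂m := by
  have h1 := ibp hf hg.toBd hν
  have h2 := ibp hg hf.toBd hν
  have : E m ν f g = E m ν g f := by simp only [E, mul_comm]
  linarith

end Pool.Agent.Lib.MP_60cbcc_al.H8W
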