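import Pool.Agent.Lib.MP_60cbcc_al.H8WLoc

/-!
Normalised partial sums of the walk applied to a cut.
-/

namespace Pool.Agent.Lib.MP_60cbcc_al.H8W

open MeasureTheory Set Filter Topology
open scoped ENNReal

variable {G Ω : Type} [Group G] [MeasurableSpace G] [MeasurableSpace Ω] [MulAction G Ω]
  {μ : Measure G} {m : Measure Ω} {o : Ω} {Q : Set G} {ρ : G → ℝ} (S : Sys Q) {χ : Ω → ℝ}

/-- Partial sums of the iterates. -/
noncomputable def Sys.ps (χ : Ω → ℝ) (n : ℕ) (x : Ω) : ℝ := ∑ k ∈ Finset.range n, S.P^[k] χ x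

omit [MeasurableSpace Ω] in
theorem Sys.abs_it (h : ∀ x, |χ x| ≤ 1) (k : ℕ) (x : Ω) : |S.P^[k] χ x| ≤ 1 := by
  induction k generalizing x with
  | zero => exact h x
  | succ k ih => rw [Function.iterate_succ_apply']; exact S.abs_P_le ih x

theorem Co.mono {ν : Measure G} {f : Ω → ℝ} {φ ψ : ℝ} (h : Co m ν f φ) (h' : φ ≤ ψ) : Co m ν f ψ :=
  fun t => (h t).trans (ENNReal.ofReal_le_ofReal h')

variable [MeasurableSMul₂ G Ω] [SFinite m] [SMulInvariantMeasure G Ω m]

theorem Sys.gd_it (h : Gd m Q χ) (k : ℕ) : Gd m Q (S.P^[k] χ) ∧ L1 m fun x => χ x - S.P^[k] χ x := by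
  induction k with
  | zero => exact ⟨h, by simpa using (h.diff 1)⟩
  | succ k ih =>
    rw [Function.iterate_succ_apply']
    exact ⟨ih.1.P S, by simpa using ih.2.add (ih.1.lapP S)⟩

theorem Sys.gd_ps (h : Gd m Q χ) (n : ℕ) : Gd m Q (S.ps χ n) ∧
    (∀ x, S.ps χ n x - S.P (S.ps χ n) x = χ x - S.P^[n] χ x) ∧
    L1 m (fun x => n * χ x - S.ps χ n x) ∧
    ∫ x, |n * χ x - S.ps χ n x| ∂m ≤ ∑ k ∈ Finset.range n, ∫ x, |χ x - S.P^[k] χ x| ∂m := by
  induction n with
  | zero =>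
    have : S.ps χ 0 = fun _ => 0 := by ext; simp [Sys.ps]
    rw [this]
    exact ⟨Gd.const 0, by simp [S.P_const], by simpa using h.diff 1, by simp⟩
  | succ n ih =>
    have : S.ps χ (n + 1) = fun x => S.ps χ n x + S.P^[n] χ x := by
      ext; simp [Sys.ps, Finset.sum_range_succ]
    obtain ⟨h1, h2, h3, h4⟩ := ih
    obtain ⟨h5, h6⟩ := S.gd_it h n
    have e : ∀ x, ((n + 1 : ℕ) : ℝ) * χ x - (S.ps χ n x + S.P^[n] χ x) =
        (n * χ x - S.ps χ n x) + (χ x - S.P^[n] χ x) := fun x => by push_cast; ring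
    rw [this]
    refine ⟨h1.add h5, fun x => ?_, by simpa only [e] using h3.add h6, ?_⟩
    · rw [S.P_add h1.toBd h5.toBd, Function.iterate_succ_apply']
      linarith [h2 x]
    · rw [Finset.sum_range_succ]
      refine le_trans ?_ (add_le_add h4 le_rfl)
      rw [← integral_add h3.int.abs h6.int.abs]
      simp only [e]
      exact integral_mono (h3.add h6).int.abs (h3.int.abs.add h6.int.abs) fun x => abs_add_le _ _

variable [MeasurableInv G]

theorem Sys.co_ps (h : Gd m Q χ) (n : ℕ) {φ : ℝ} (hφ : 6 * ∫ x, |χ x - S.P^[n] χ x| ∂m ≤ φ) :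
    Co m S.ν₃ (S.ps χ n) φ ∧ Co m S.ν₃ (fun x => -S.ps χ n x) φ := by
  obtain ⟨h1, h2, -⟩ := S.gd_ps h n
  refine ⟨(S.co h1).mono (by simpa only [h2] using hφ), ?_⟩
  have := S.co (h1.cmul (-1))
  simp only [S.P_cmul] at this
  simp only [neg_mul, one_mul] at this
  refine this.mono (le_trans (le_of_eq ?_) hφ)
  congr 2; ext x
  rw [← h2, ← abs_neg]; congr 1; ring

end Pool.Agent.Lib.MP_60cbcc_al.H8W

namespace Pool.Agent.Lib.MP_60cbcc_al.H8W

open MeasureTheory Set Filter Topology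
open scoped ENNReal

variable {G Ω : Type} [Group G] [TopologicalSpace G] [MeasurableSpace G] [MeasurableSpace Ω]
  [MulAction G Ω] {μ : Measure G} {m : Measure Ω} {o : Ω} {Q : Set G} {ρ : G → ℝ} (S : Sys Q)
  {χ : Ω → ℝ}

/-- A two-valued function whose jumps stay in compact sets. -/
structure Cut (G : Type) [Group G] [TopologicalSpace G] [MulAction G Ω] (o : Ω) (χ : Ω → ℝ) :
    Prop where
  meas : Measurable χ
  val : ∀ x, χ x = 1 ∨ χ x = -1
  bd : ∀ K : Set G, IsCompact K → ∃ C : Set G, IsCompact C ∧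
    ∀ x, x ∉ (· • o) '' C → ∀ s ∈ K, χ (s • x) = χ x

omit [MeasurableSpace G] in
theorem Cut.abs (h : Cut G o χ) (x : Ω) : |χ x| = 1 := by rcases h.val x with h | h <;> simp [h]

theorem Sp.fin (hS : Sp μ m o) [IsFiniteMeasureOnCompacts μ] {K : Set G} (hK : IsCompact K) :
    m ((· • o) '' K) ≠ ∞ := by
  have := hS.down K hK (fun _ => 1) measurable_const
  simp only [lintegral_one, Measure.restrict_apply_univ] at this
  exact ne_top_of_le_ne_top hK.measure_ne_top this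

variable [MeasurableSMul₂ G Ω]

theorem Cut.gd (h : Cut G o χ) (hS : Sp μ m o) [IsFiniteMeasureOnCompacts μ] (hQ : IsCompact Q) :
    Gd m Q χ := by
  have hb : Bd χ := ⟨h.meas, 1, fun x => (h.abs x).le⟩
  have key : ∀ K : Set G, IsCompact K → ∃ A : Set Ω, MeasurableSet A ∧ m A ≠ ∞ ∧ ∀ s ∈ K, ∀ x,
      |χ (s • x) - χ x| ≤ A.indicator (fun _ => 2) x := by
    intro K hK
    obtain ⟨C, hC, h1⟩ := h.bd K hK
    refine ⟨_, hS.ms C hC, hS.fin hC, fun s hs x => ?_⟩
    by_cases hx : x ∈ (· • o) '' C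
    · rw [indicator_of_mem hx]
      linarith [abs_sub (χ (s • x)) (χ x), h.abs x, h.abs (s • x)]
    · simp [indicator_of_notMem hx, h1 x hx s hs]
  have key' : ∀ s : G, Integrable (fun x => χ (s • x) - χ x) m := fun s => by
    obtain ⟨A, h1, h2, h3⟩ := key {s} isCompact_singleton
    exact ((integrableOn_const h2).integrable_indicator h1).mono'
      ((hb.smul s).sub hb).meas.aestronglyMeasurable (.of_forall (h3 s rfl))
  obtain ⟨A, h1, h2, h3⟩ := key Q hQ
  exact ⟨hb, key', _, fun s hs => integral_mono (key' s).abs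
    ((integrableOn_const h2).integrable_indicator h1) (h3 s hs)⟩

variable [IsTopologicalGroup G] [BorelSpace G] [SecondCountableTopology G] [T2Space G]
  [LocallyCompactSpace G] [μ.IsHaarMeasure] [μ.IsMulRightInvariant] [SFinite m]
  [SMulInvariantMeasure G Ω m]

omit [T2Space G] [BorelSpace G] [μ.IsHaarMeasure] [μ.IsMulRightInvariant]
  [SFinite m] [SMulInvariantMeasure G Ω m] [MeasurableSMul₂ G Ω] in
theorem Sp.exh (hS : Sp μ m o) {A : Set Ω} (hA : m A = ∞) (j : ℝ) :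
    ∀ᶠ n in atTop, ENNReal.ofReal j ≤ m (A ∩ (· • o) '' compactCovering G n) := by
  have h1 := tendsto_measure_iUnion_atTop (μ := m)
    (s := fun n => A ∩ (· • o) '' compactCovering G n)
    fun _ _ h => inter_subset_inter_right _ (image_mono (compactCovering_subset G h))
  obtain ⟨σ, -, hσ⟩ := hS.sec
  have h2 : ⋃ n, A ∩ (· • o) '' compactCovering G n = A := by
    rw [← inter_iUnion, ← image_iUnion, iUnion_compactCovering, inter_eq_left]
    exact fun x _ => ⟨σ x, trivial, hσ x⟩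
  rw [h2, hA] at h1
  exact h1.eventually (le_mem_nhds ENNReal.ofReal_lt_top)

theorem Sys.unbdd (hS : Sp μ m o) (hρ : Den Q ρ) (hQ : IsCompact Q)
    (h3 : S.ν₃ = μ.withDensity fun s => ENNReal.ofReal (ρ s)) (h : Cut G o χ)
    (hp : m {x | χ x = 1} = ∞) (hn : m {x | χ x = -1} = ∞) (M : ℝ) :
    ∃ n, M < ∫ x, |χ x - S.P^[n] χ x| ∂m := by
  by_contra! hM
  have hM0 : 0 ≤ M := (integral_nonneg fun _ => abs_nonneg _).trans (hM 0)
  have hg := h.gd hS hQ
  obtain ⟨c, hc⟩ := local_bound hS hρ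
  obtain ⟨N, hN1, hN2⟩ := ((hS.exh hp (M + 1)).and (hS.exh hn (M + 1))).exists
  have hK := isCompact_compactCovering G N
  obtain ⟨M', hM', hc⟩ := hc _ hK
  obtain ⟨n, hn⟩ := exists_nat_gt (M'.toReal * (6 * M + 1))
  obtain ⟨h4, -, h5, h6⟩ := S.gd_ps hg n
  have h7 := S.co_ps hg n (φ := 6 * M + 1) (by linarith [hM n])
  rw [h3] at h7
  have h8 := hc _ _ h4.toBd (by positivity) h7.1 h7.2
  have h9 : ∫ x, |n * χ x - S.ps χ n x| ∂m ≤ n * M :=
    h6.trans (by simpa using Finset.sum_le_card_nsmul (Finset.range n) _ M fun k _ => hM k)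
  have key : ∀ e : ℝ, ENNReal.ofReal (M + 1) ≤ m ({x | χ x = e} ∩ (· • o) '' compactCovering G N) →
      |n * e - c (S.ps χ n)| * (M + 1) ≤ n * M + M'.toReal * (6 * M + 1) := by
    intro e he
    have hm : Measurable fun x => ENNReal.ofReal |S.ps χ n x - c (S.ps χ n)| :=
      (continuous_abs.measurable.comp (h4.meas.sub_const _)).ennreal_ofReal
    rw [← ENNReal.ofReal_le_ofReal_iff (by positivity), ENNReal.ofReal_mul (abs_nonneg _),
      ENNReal.ofReal_add (p := n * M) (by positivity) (by positivity),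
      ENNReal.ofReal_mul ENNReal.toReal_nonneg,
      ENNReal.ofReal_toReal hM']
    calc _ ≤ ∫⁻ _ in {x | χ x = e} ∩ (· • o) '' compactCovering G N,
          ENNReal.ofReal |n * e - c (S.ps χ n)| ∂m := by rw [setLIntegral_const]; gcongr
      _ ≤ ∫⁻ x in {x | χ x = e} ∩ (· • o) '' compactCovering G N,
          ENNReal.ofReal |n * χ x - S.ps χ n x| + ENNReal.ofReal |S.ps χ n x - c (S.ps χ n)| ∂m := by
        refine setLIntegral_mono' ((h.meas (measurableSet_singleton e)).inter (hS.ms _ hK))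
          fun x hx => le_trans (ENNReal.ofReal_le_ofReal ?_) ENNReal.ofReal_add_le
        rw [← (show χ x = e from hx.1)]
        exact abs_sub_le _ _ _
      _ ≤ _ := by
        rw [lintegral_add_right _ hm]
        refine add_le_add ((setLIntegral_le_lintegral _ _).trans ?_)
          ((lintegral_mono_set inter_subset_right).trans ((hS.down _ hK _ hm).trans h8))
        rw [← ofReal_integral_eq_lintegral_ofReal h5.int.abs (.of_forall fun _ => abs_nonneg _)]
        exact ENNReal.ofReal_le_ofReal h9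
  have k1 := key 1 hN1
  have k2 := key (-1) hN2
  have k3 := le_abs_self (n * 1 - c (S.ps χ n))
  have k4 := neg_le_abs (n * -1 - c (S.ps χ n))
  nlinarith

/-- The properties of the approximating sequence. -/
structure Seq (μ : Measure G) (m : Measure Ω) (o : Ω) (χ : Ω → ℝ) (f : ℕ → Ω → ℝ) : Prop where
  gd : ∀ i, Gd m Q (f i)
  loc : ∀ K : Set G, IsCompact K → ∃ M : ℝ≥0∞, M ≠ ∞ ∧ ∀ i,
    ∫⁻ g in K, ENNReal.ofReal |f i (g • o)| ∂μ ≤ M
  sup : ∀ i x, |f i x - S.P (f i) x| ≤ 2⁻¹ ^ i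
  sq : ∀ i, ∫ x, (f i x - S.P (f i) x) ^ 2 ∂m ≤ 2⁻¹ ^ i
  flux : ∀ i, ∫ x, (χ x - S.P χ x) * f i x ∂m = 1

theorem Sys.exists_seq (hS : Sp μ m o) (hρ : Den Q ρ) (hQ : IsCompact Q)
    (h3 : S.ν₃ = μ.withDensity fun s => ENNReal.ofReal (ρ s)) (h : Cut G o χ)
    (hp : m {x | χ x = 1} = ∞) (hn : m {x | χ x = -1} = ∞) : ∃ f, Seq S μ m o χ f := by
  choose n hn using fun i : ℕ => S.unbdd hS hρ hQ h3 h hp hn (2 * 2 ^ i)
  have hg := h.gd hS hQ
  obtain ⟨c, hc⟩ := local_bound hS hρ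
  set Φ : ℕ → ℝ := fun i => ∫ x, |χ x - S.P^[n i] χ x| ∂m with hΦ
  have h0 : ∀ i, 0 < Φ i := fun i => lt_trans (by positivity) (hn i)
  have h1 : ∀ i, (Φ i)⁻¹ * 2 ≤ 2⁻¹ ^ i := fun i => by
    rw [inv_mul_le_iff₀ (h0 i), inv_pow, ← div_eq_mul_inv, le_div_iff₀ (by positivity)]
    exact (hn i).le
  set f : ℕ → Ω → ℝ := fun i x => (Φ i)⁻¹ * (S.ps χ (n i) x + -c (S.ps χ (n i))) with hf
  have hfg : ∀ i, Gd m Q (f i) := fun i => ((S.gd_ps hg _).1.add (Gd.const _)).cmul _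
  have hΔ : ∀ i x, f i x - S.P (f i) x = (Φ i)⁻¹ * (χ x - S.P^[n i] χ x) := fun i x => by
    rw [hf, S.P_cmul, S.P_add (S.gd_ps hg _).1.toBd (Bd.const _), S.P_const,
      ← (S.gd_ps hg _).2.1 x]
    ring
  have h2 : ∀ i x, |χ x - S.P^[n i] χ x| ≤ 2 := fun i x => by
    linarith [abs_sub (χ x) (S.P^[n i] χ x), h.abs x, S.abs_it (fun x => (h.abs x).le) (n i) x]
  refine ⟨f, hfg, fun K hK => ?_, fun i x => ?_, fun i => ?_, fun i => ?_⟩
  · obtain ⟨M, hM, hc⟩ := hc K hK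
    refine ⟨M * ENNReal.ofReal 6, by finiteness, fun i => ?_⟩
    have h7 := S.co_ps hg (n i) le_rfl
    rw [h3] at h7
    have h8 := hc _ _ (S.gd_ps hg _).1.toBd (mul_pos (by norm_num) (h0 i)) h7.1 h7.2
    simp only [hf, abs_mul, abs_of_pos (inv_pos.2 (h0 i)), ENNReal.ofReal_mul (inv_pos.2 (h0 i)).le,
      ← sub_eq_add_neg]
    rw [lintegral_const_mul' _ _ ENNReal.ofReal_ne_top]
    refine (mul_le_mul_right h8 _).trans (le_of_eq ?_)
    rw [mul_left_comm, ← ENNReal.ofReal_mul (inv_pos.2 (h0 i)).le]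
    congr 2
    exact by rw [mul_left_comm, inv_mul_cancel₀ (h0 i).ne', mul_one]
  · rw [hΔ, abs_mul, abs_of_pos (inv_pos.2 (h0 i))]
    exact (mul_le_mul_of_nonneg_left (h2 i x) (inv_pos.2 (h0 i)).le).trans (h1 i)
  · refine le_trans ?_ (h1 i)
    have e : (Φ i)⁻¹ * 2 = ∫ x, (Φ i)⁻¹ ^ 2 * 2 * |χ x - S.P^[n i] χ x| ∂m := by
      rw [integral_const_mul]; field_simp [(h0 i).ne']; rfl
    rw [e]
    refine integral_mono ((hfg i).lapP S).sq ((S.gd_it hg _).2.int.abs.const_mul _) fun x => ?_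
    simp only [hΔ, mul_pow, mul_assoc]
    refine mul_le_mul_of_nonneg_left ?_ (sq_nonneg _)
    rw [← sq_abs, pow_two]
    exact mul_le_mul_of_nonneg_right (h2 i x) (abs_nonneg _)
  · rw [S.P_symm hg (hfg i)]
    simp only [hΔ, mul_assoc, integral_const_mul]
    rw [inv_mul_eq_one₀ (h0 i).ne']
    refine integral_congr_ae (.of_forall fun x => ?_)
    have := abs_le.1 (S.abs_it (fun x => (h.abs x).le) (n i) x)
    rcases h.val x with e | e <;> simp only [e]
    · rw [abs_of_nonneg (by linarith)]; ring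
    · rw [abs_of_nonpos (by linarith)]; ring

end Pool.Agent.Lib.MP_60cbcc_al.H8W
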