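import Pool.Agent.Lib.MP_60cbcc_al.H8WDom

/-!
Topological group arguments: drift functions, and cuts modulo a subgroup with a projection that is
not cocompact.
-/

namespace Pool.Agent.Lib.MP_60cbcc_al.H8W

open Set Filter Topology
open scoped Pointwise

variable {G H : Type} [Group G] [TopologicalSpace G] [Group H] [TopologicalSpace H]

/-- Bounded continuous functions, invariant under `L` on the right, with a uniform drift. -/
def Drift (L : Subgroup H) : Prop :=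
  ∃ (ι : Type) (_ : Fintype ι) (p : ι → H) (β : ι → H → ℝ) (c : ℝ), 0 < c ∧
    (∀ j, Continuous (β j)) ∧ (∀ j, ∃ C, ∀ h, |β j h| ≤ C) ∧
    (∀ j h, ∀ l ∈ L, β j (h * l) = β j h) ∧ ∀ h, c ≤ ∑ j, (β j h - β j ((p j)⁻¹ * h))

theorem Drift.mono {L L' : Subgroup H} (h : Drift L) (hl : L' ≤ L) : Drift L' := by
  obtain ⟨ι, _, p, β, c, h1, h2, h3, h4, h5⟩ := h
  exact ⟨ι, _, p, β, c, h1, h2, h3, fun j h l hl' => h4 j h l (hl hl'), h5⟩

theorem Drift.comap {L : Subgroup H} (h : Drift L) (π : G →* H) (hπ : Continuous π)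
    (hs : Function.Surjective π) : Drift (L.comap π) := by
  obtain ⟨ι, _, p, β, c, h1, h2, h3, h4, h5⟩ := h
  choose q hq using fun j => hs (p j)
  exact ⟨ι, _, q, fun j g => β j (π g), c, h1, fun j => (h2 j).comp hπ,
    fun j => (h3 j).imp fun _ h g => h _, fun j g l hl => by simp only [map_mul, h4 j _ _ hl],
    fun g => by simpa only [map_mul, map_inv, hq] using h5 (π g)⟩

theorem not_drift_top : ¬ Drift (⊤ : Subgroup H) := by
  rintro ⟨ι, _, p, β, c, h1, -, -, h4, h5⟩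
  have e : ∀ j h, β j h = β j 1 := fun j h => by simpa using h4 j 1 h trivial
  have := h5 1
  simp only [e _ (_ * _), sub_self, Finset.sum_const_zero] at this
  exact h1.not_ge this

theorem Drift.center (h : Drift (Subgroup.center H)) (π : G →* H) (hπ : Continuous π)
    (hs : Function.Surjective π) : Drift (Subgroup.center G) :=
  (h.comap π hπ hs).mono fun z hz => Subgroup.mem_center_iff.2 fun y => by
    obtain ⟨x, rfl⟩ := hs y
    rw [← map_mul, Subgroup.mem_center_iff.1 hz, map_mul]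

/-- The two properties of simple Lie groups that are used. -/
structure Nice (H : Type) [Group H] [TopologicalSpace H] : Prop where
  tri : ∀ L : Subgroup H, Dense (L : Set H) ∨ DiscreteTopology L ∨
    Drift (Subgroup.normalizer (L : Set H))
  cen : Drift (Subgroup.center H)

omit [TopologicalSpace G] in
theorem Drift.lyap [MeasurableSpace G] [MeasurableSpace H] [BorelSpace H] {Ω : Type}
    [MulAction G Ω] {o : Ω} {A : Set G} {L : Subgroup H} (h : Drift L) (κ : G → H)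
    (hκ : Measurable κ) (i : H → G) (hi : ∀ p, i p ∈ A) (h1 : ∀ p g, κ ((i p)⁻¹ * g) = p⁻¹ * κ g)
    (h2 : ∀ g g', g • o = g' • o → ∃ l ∈ L, κ g = κ g' * l) : Lyap o A := by
  obtain ⟨ι, _, p, β, c, h3, h4, h5, h6, h7⟩ := h
  refine ⟨ι, _, fun j => i (p j), fun j g => β j (κ g), c, h3, fun j => hi _,
    fun j => ⟨(h4 j).measurable.comp hκ, (h5 j).imp fun _ h g => h _⟩, fun j g g' e => ?_,
    fun g => by simpa only [h1] using h7 (κ g)⟩
  obtain ⟨l, hl, e'⟩ := h2 g g' e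
  simp only [e', h6 j _ l hl]

variable [IsTopologicalGroup G] [IsTopologicalGroup H]

theorem eq_top_of_nhds [ConnectedSpace H] (L : Subgroup H) {x : H} (h : (L : Set H) ∈ 𝓝 x) :
    L = ⊤ :=
  have ho := L.isOpen_of_mem_nhds h
  SetLike.coe_injective (IsClopen.eq_univ ⟨L.isClosed_of_isOpen ho, ho⟩ ⟨1, L.one_mem⟩)

theorem cgen [ConnectedSpace H] [LocallyCompactSpace H] :
    ∃ S : Set H, IsCompact S ∧ Subgroup.closure S = ⊤ := by
  obtain ⟨W, hc, hW⟩ := exists_compact_mem_nhds (1 : H)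
  exact ⟨W, hc, eq_top_of_nhds _ (mem_of_superset hW Subgroup.subset_closure)⟩

theorem Nice.hom [ConnectedSpace H] (hN : Nice H) {a : H → ℝ} (ha : Continuous a)
    (h : ∀ g x, a (g * x) - a g = a x - a 1) (x : H) : a x = a 1 := by
  let L : Subgroup H :=
    { carrier := {x | a x = a 1}
      one_mem' := rfl
      mul_mem' := fun {x y} (hx : a x = a 1) (hy : a y = a 1) =>
        show a _ = a 1 by linarith [h x y]
      inv_mem' := fun {x} (hx : a x = a 1) =>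
        show a _ = a 1 by have := h x x⁻¹; rw [mul_inv_cancel] at this; linarith }
  have h1 : ∀ g, a g⁻¹ - a 1 = a 1 - a g := fun g => by
    have := h g g⁻¹; rw [mul_inv_cancel] at this; linarith
  rcases hN.tri L with h2 | h2 | h2
  · exact h2.induction (P := fun x => a x = a 1) (fun _ h => h)
      (isClosed_eq ha continuous_const) x
  · refine (not_drift_top (hN.cen.mono fun y _ => Subgroup.mem_center_iff.2 fun g => ?_)).elim
    have hc : Continuous fun g : H => (⟨g * y * g⁻¹ * y⁻¹, show a _ = a 1 by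
        linarith [h (g * y * g⁻¹) y⁻¹, h (g * y) g⁻¹, h g y, h1 g, h1 y]⟩ : L) := by fun_prop
    have := congrArg Subtype.val (PreconnectedSpace.constant inferInstance hc (x := g) (y := 1))
    simpa [mul_inv_eq_iff_eq_mul] using this
  · have : L.Normal := ⟨fun y (hy : a y = a 1) g => show a _ = a 1 by
      linarith [h (g * y) g⁻¹, h g y, h1 g]⟩
    rw [Subgroup.normalizer_eq_top] at h2
    exact (not_drift_top h2).elim

theorem central [T2Space G] [T2Space H] [ConnectedSpace H] (Γ : Subgroup (G × H))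
    [DiscreteTopology Γ] (hd : Dense (Prod.snd '' (Γ : Set (G × H)))) {n : H}
    (hn : ((1, n) : G × H) ∈ Γ) : n ∈ Subgroup.center H := by
  have h1 : ∀ g : H, ((1, g * n * g⁻¹) : G × H) ∈ Γ := fun g =>
    hd.induction (P := fun g => ((1, g * n * g⁻¹) : G × H) ∈ Γ) (by
      rintro _ ⟨γ, hγ, rfl⟩
      convert Γ.mul_mem (Γ.mul_mem hγ hn) (Γ.inv_mem hγ) using 1
      ext <;> simp) (Γ.isClosed_of_discrete.preimage (by fun_prop)) g
  refine Subgroup.mem_center_iff.2 fun g => ?_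
  have hc : Continuous fun g : H => (⟨(1, g * n * g⁻¹), h1 g⟩ : Γ) := by fun_prop
  have := congrArg (fun x : Γ => x.1.2)
    (PreconnectedSpace.constant inferInstance hc (x := g) (y := 1))
  simpa [mul_inv_eq_iff_eq_mul] using this

theorem coc_of_dense [LocallyCompactSpace H] {S : Set H} (h : Dense S) :
    ∃ C, IsCompact C ∧ ∀ x, ∃ l ∈ S, x * l ∈ C := by
  obtain ⟨W, hc, hW⟩ := exists_compact_mem_nhds (1 : H)
  refine ⟨W, hc, fun x => ?_⟩
  obtain ⟨l, h1, h2⟩ := h.inter_nhds_nonempty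
    ((continuous_const_mul x).continuousAt (x := x⁻¹).preimage_mem_nhds (by simpa using hW))
  exact ⟨l, h1, h2⟩

section
variable [T2Space G] [LocallyCompactSpace H] {p : G →* H} {i : H → G} {Q : Set G}
  {Γ Λ : Subgroup G} {χ : G → ℝ}

omit [TopologicalSpace G] [TopologicalSpace H] [IsTopologicalGroup G] [IsTopologicalGroup H]
  [T2Space G] [LocallyCompactSpace H] in
theorem slice (hk : ∀ g, p g = 1 → g ∈ Subgroup.closure Q) (hQp : ∀ q ∈ Q, p q = 1) {C : Set G}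
    (h0 : ∀ g, (∀ l ∈ Λ, g * l ∉ C) → ∀ s ∈ Q ∪ Q⁻¹, χ (s * g) = χ g) {g g' : G}
    (hg : ∀ l ∈ Λ, p g * p l ∉ p '' C) (e : p g' = p g) : χ g' = χ g := by
  have h1 : ∀ k ∈ Subgroup.closure Q, p k = 1 ∧ χ (k * g) = χ g := by
    have h2 : ∀ s ∈ Q ∪ Q⁻¹, ∀ k, p k = 1 ∧ χ (k * g) = χ g → χ (s * k * g) = χ g :=
      fun s hs k hk => by
        rw [mul_assoc, h0 _ (fun l hl h => hg l hl ⟨_, h, by simp [hk.1]⟩) s hs, hk.2]
    intro k hk
    induction hk using Subgroup.closure_induction_left with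
    | one => simp
    | mul_left s hs k _ ih => exact ⟨by simp [hQp s hs, ih.1], h2 s (.inl hs) k ih⟩
    | inv_mul_cancel s hs k _ ih =>
      exact ⟨by simp [hQp s hs, ih.1], h2 _ (.inr (by simpa using hs)) k ih⟩
  simpa using (h1 (g' * g⁻¹) (hk _ (by simp [e]))).2

theorem open_of_slice (hi : Continuous i) (hpi : ∀ h, p (i h) = h) [DiscreteTopology Γ]
    (hle : Λ ≤ Γ) (hd : Dense (p '' Γ)) {h : H} {C : Set G} (hC : IsCompact C)
    (h1 : ∀ g, p g = h → ∃ l ∈ Λ, g * l ∈ C) :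
    IsOpen ((Λ.map p).topologicalClosure : Set H) := by
  obtain ⟨W, hWc, hW⟩ := exists_compact_mem_nhds (1 : H)
  have hf := fin_cpt Γ (((hWc.image hi).mul (isCompact_singleton (x := (i h)⁻¹))).mul hC)
  set L := (Λ.map p).topologicalClosure with hL
  have hLc : IsClosed (L : Set H) := Subgroup.isClosed_topologicalClosure _
  have h2 : (interior (L : Set H)).Nonempty := by
    by_contra! h3
    have h4 := dense_biInter_of_isOpen (f := fun φ : Γ => (fun x => (p φ)⁻¹ * x) ⁻¹' (L : Set H)ᶜ)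
      (fun φ _ => hLc.isOpen_compl.preimage (by fun_prop)) hf.countable fun φ _ =>
      (interior_eq_empty_iff_dense_compl.1 h3).preimage (isOpenMap_mul_left _)
    have h5 := hf.isOpen_biInter (f := fun φ : Γ => (fun x => (p φ)⁻¹ * x) ⁻¹' (L : Set H)ᶜ)
      fun φ _ => hLc.isOpen_compl.preimage (by fun_prop)
    obtain ⟨_, ⟨γ, hγ, rfl⟩, h6, h7⟩ := hd.exists_mem_open (h5.inter isOpen_interior)
      (by rw [inter_comm]; exact h4.inter_open_nonempty _ isOpen_interior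
            ⟨1, mem_interior_iff_mem_nhds.2 hW⟩)
    obtain ⟨l, hl, h8⟩ := h1 (i h * (i (p γ))⁻¹ * γ) (by simp [hpi])
    refine mem_iInter₂.1 h6 ⟨γ * l, Γ.mul_mem hγ (hle hl)⟩
      ⟨_, ⟨_, ⟨_, interior_subset h7, rfl⟩, _, rfl, rfl⟩, _, h8, by simp [mul_assoc]⟩ ?_
    exact Subgroup.le_topologicalClosure _ ⟨l⁻¹, Λ.inv_mem hl, by simp⟩
  obtain ⟨x, hx⟩ := h2
  exact L.isOpen_of_mem_nhds (mem_interior_iff_mem_nhds.1 hx)

omit [IsTopologicalGroup H] [T2Space G] [LocallyCompactSpace H] in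
theorem caseA (hp : Continuous p) (hi : Continuous i) (hpi : ∀ h, p (i h) = h)
    (hQ : IsCompact Q) (hk : ∀ g, p g = 1 → g ∈ Subgroup.closure Q) (hQp : ∀ q ∈ Q, p q = 1)
    (inv : ∀ g, ∀ l ∈ Λ, χ (g * l) = χ g)
    (cut : ∀ K, IsCompact K → ∃ C, IsCompact C ∧
      ∀ g, (∀ l ∈ Λ, g * l ∉ C) → ∀ s ∈ K, χ (s * g) = χ g)
    (nc : ∀ C, IsCompact C → ∃ h, ∀ l ∈ Λ, h * p l ∉ C)
    (esc : ∀ h C, IsCompact C → ∃ g, p g = h ∧ ∀ l ∈ Λ, g * l ∉ C) :
    ∃ e C, IsCompact C ∧ ∀ g, (∀ l ∈ Λ, g * l ∉ C) → χ g = e := by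
  obtain ⟨C, hC, h0⟩ := cut _ (hQ.union hQ.inv)
  obtain ⟨z, hz⟩ := nc _ (hC.image hp)
  have hz' : ∀ g, p g = z → χ g = χ (i z) := fun g e =>
    slice hk hQp h0 (by rwa [hpi]) (by rw [e, hpi])
  obtain ⟨C', hC', h1⟩ := cut _ (hC.image (f := fun c => i z * (i (p c))⁻¹) (by fun_prop))
  refine ⟨χ (i z), C', hC', fun g hg => ?_⟩
  by_cases h2 : ∀ l ∈ Λ, p g * p l ∉ p '' C
  · obtain ⟨C'', hC'', h3⟩ := cut _ (isCompact_singleton (x := i z * (i (p g))⁻¹))
    obtain ⟨g', h4, h5⟩ := esc (p g) C'' hC''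
    rw [← slice hk hQp h0 h2 h4, ← h3 g' h5 _ rfl]
    exact hz' _ (by simp [hpi, h4])
  · push Not at h2
    obtain ⟨l, hl, c, hc, e⟩ := h2
    rw [← inv g l hl, ← h1 (g * l) (fun l' hl' => by
      rw [mul_assoc]; exact hg _ (Λ.mul_mem hl hl')) _ ⟨c, hc, rfl⟩]
    exact hz' _ (by simp [hpi, e, mul_assoc])

theorem esc_of_conn [ConnectedSpace H] (hi : Continuous i) (hpi : ∀ h, p (i h) = h)
    [DiscreteTopology Γ] (hle : Λ ≤ Γ) (hd : Dense (p '' Γ))
    (nc : ∀ C, IsCompact C → ∃ h, ∀ l ∈ Λ, h * p l ∉ C) (h : H) (C : Set G) (hC : IsCompact C) :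
    ∃ g, p g = h ∧ ∀ l ∈ Λ, g * l ∉ C := by
  by_contra! h1
  have h3 := eq_top_of_nhds _ ((open_of_slice hi hpi hle hd hC h1).mem_nhds (one_mem _))
  obtain ⟨C₁, h4, h5⟩ := coc_of_dense (S := (Λ.map p : Set H)) fun x =>
    h3.ge (Subgroup.mem_top x)
  obtain ⟨y, hy⟩ := nc C₁ h4
  obtain ⟨_, ⟨l, hl, rfl⟩, h6⟩ := h5 y
  exact hy l hl h6

theorem caseC (hp : Continuous p) (hi : Continuous i) (hpi : ∀ h, p (i h) = h)
    (hQ : IsCompact Q) (hk : ∀ g, p g = 1 → g ∈ Subgroup.closure Q) (hQp : ∀ q ∈ Q, p q = 1)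
    [DiscreteTopology Γ] (hle : Λ ≤ Γ) (hd : Dense (p '' Γ))
    (cut : ∀ K, IsCompact K → ∃ C, IsCompact C ∧
      ∀ g, (∀ l ∈ Λ, g * l ∉ C) → ∀ s ∈ K, χ (s * g) = χ g)
    {h₀ : H} {C₀ : Set G} (hC₀ : IsCompact C₀) (h1 : ∀ g, p g = h₀ → ∃ l ∈ Λ, g * l ∈ C₀) :
    ∃ (U : Subgroup H) (B : Set H) (C : Set G), IsOpen (U : Set H) ∧ IsCompact C ∧
      (∀ g, p g ∈ B → ∃ l ∈ Λ, g * l ∈ C) ∧ (∀ u ∈ U, ∀ h, h ∉ B → u * h ∉ B) ∧
      ∀ g s, p g ∉ B → p s ∈ U → χ (s * g) = χ g := by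
  have hL := open_of_slice hi hpi hle hd hC₀ h1
  set L := (Λ.map p).topologicalClosure
  obtain ⟨W, hWc, hW⟩ := exists_compact_mem_nhds (1 : H)
  obtain ⟨C, hC, h0⟩ := cut _ ((hQ.union hQ.inv).union (hWc.image hi))
  let V : Subgroup H := ⨅ c ∈ p '' C, L.comap (MulAut.conj c⁻¹ : H →* H)
  have hV : ∀ u, u ∈ V ↔ ∀ c ∈ p '' C, c⁻¹ * u * c ∈ L := fun u => by simp [V]
  have h2 : (V : Set H) ∈ 𝓝 1 := by
    refine mem_of_superset ((hC.image hp).eventually_forall_of_forall_eventually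
      (P := fun u c => c⁻¹ * u * c ∈ L) fun c _ => ?_) fun u => (hV u).2
    exact (show Continuous fun z : H × H => z.2⁻¹ * z.1 * z.2 by fun_prop).continuousAt.eventually
      (hL.mem_nhds (by simp))
  have h3 : ∀ u ∈ V, ∀ h, h ∉ p '' C * (L : Set H) → u * h ∉ p '' C * (L : Set H) := by
    rintro u hu h hh ⟨c, hc, x, hx, e⟩
    exact hh ⟨c, hc, _, L.mul_mem ((hV _).1 (V.inv_mem hu) c hc) hx, by
      simp only [mul_assoc, mul_inv_cancel_left, show c * x = u * h from e, inv_mul_cancel_left]⟩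
  have h4 : ∀ g, p g ∉ p '' C * (L : Set H) → ∀ l ∈ Λ, p g * p l ∉ p '' C := fun g hg l hl h =>
    hg ⟨_, h, (p l)⁻¹, Subgroup.le_topologicalClosure _ ⟨l⁻¹, Λ.inv_mem hl, map_inv p l⟩, by simp⟩
  have h5 : ∀ g, p g ∉ p '' C * (L : Set H) → ∀ w ∈ W, χ (i w * g) = χ g := fun g hg w hw =>
    h0 g (fun l hl h => h4 g hg l hl ⟨_, h, map_mul _ _ _⟩) _ (.inr ⟨w, hw, rfl⟩)
  have h6 : Subgroup.closure (W ∩ V) ≤ V := (Subgroup.closure_le V).2 inter_subset_right
  refine ⟨Subgroup.closure (W ∩ V), p '' C * L, i '' (p '' C * W) * {(i h₀)⁻¹} * C₀,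
    Subgroup.isOpen_of_mem_nhds _ (mem_of_superset (inter_mem hW h2) Subgroup.subset_closure),
    ((((hC.image hp).mul hWc).image hi).mul isCompact_singleton).mul hC₀, ?_,
    fun u hu => h3 u (h6 hu), fun g s hg hs => ?_⟩
  · rintro g ⟨c, hc, x, hx, e⟩
    obtain ⟨_, h7, l, hl, rfl⟩ := mem_closure_iff_nhds.1 (L.inv_mem hx) _
      ((continuous_const_mul x).continuousAt (x := x⁻¹).preimage_mem_nhds (by simpa using hW))
    obtain ⟨l', hl', h8⟩ := h1 (i h₀ * (i (c * (x * p l)))⁻¹ * (g * l)) (by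
      simp [hpi, ← show c * x = p g from e, mul_assoc])
    exact ⟨l * l', Λ.mul_mem hl hl', _, ⟨_, ⟨_, ⟨c, hc, _, h7, rfl⟩, rfl⟩, _, rfl, rfl⟩, _, h8,
      by simp [mul_assoc]⟩
  · have h7 : ∀ u ∈ Subgroup.closure (W ∩ V), ∀ g', p g' = u * p g → χ g' = χ g := by
      intro u hu
      induction hu using Subgroup.closure_induction_left with
      | one =>
        exact fun g' e => slice hk hQp (fun g h s hs => h0 g h s (.inl hs)) (h4 g hg)
          (by simpa using e)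
      | mul_left w hw u hu ih =>
        intro g' e
        have e' : p ((i w)⁻¹ * g') = u * p g := by simp [hpi, e, mul_assoc]
        rw [← ih _ e', ← h5 ((i w)⁻¹ * g') (e' ▸ h3 u (h6 hu) _ hg) w hw.1, mul_inv_cancel_left]
      | inv_mul_cancel w hw u hu ih =>
        intro g' e
        rw [← ih (i w * g') (by simp [hpi, e, mul_assoc]),
          h5 _ (e ▸ h3 _ (V.mul_mem (V.inv_mem hw.2) (h6 hu)) _ hg) w hw.1]
    exact h7 _ hs _ (map_mul _ _ _)

end

open BoundedContinuousFunction in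
theorem drift_bot (h : ¬ ∃ m : (H →ᵇ ℝ) →ₗ[ℝ] ℝ, m 1 = 1 ∧ (∀ f, (∀ x, 0 ≤ f x) → 0 ≤ m f) ∧
    ∀ (g : H) (f f' : H →ᵇ ℝ), (∀ x, f' x = f (g * x)) → m f' = m f) :
    Drift (⊥ : Subgroup H) := by
  by_contra hd
  let d : H × (H →ᵇ ℝ) → H →ᵇ ℝ := fun z =>
    z.2 - z.2.compContinuous ⟨fun x => z.1⁻¹ * x, by fun_prop⟩
  have bd : ∀ f : H →ᵇ ℝ, BddAbove (range f) := fun f => f.isBounded_range.bddAbove
  obtain ⟨m, h1, h2⟩ := exists_extension_of_le_sublinear
    ⟨Submodule.span ℝ (range d), 0⟩ (fun f : H →ᵇ ℝ => ⨆ x, f x)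
    (fun c hc f => (Real.mul_iSup_of_nonneg hc.le _).symm)
    (fun f g => ciSup_le fun x => add_le_add (le_ciSup (bd f) x) (le_ciSup (bd g) x)) (by
      rintro ⟨s, hs⟩
      obtain ⟨c, rfl⟩ := Finsupp.mem_span_range_iff_exists_finsupp.1 hs
      refine le_of_not_gt fun h0 => hd ⟨c.support, inferInstance, fun j => j.1.1,
        fun j => (-c j • j.1.2 : H →ᵇ ℝ), _, neg_pos.2 h0, fun j => map_continuous _,
        fun j => ⟨_, norm_coe_le_norm (-c j • j.1.2)⟩,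
        fun j x l hl => by rw [Subgroup.mem_bot.1 hl, mul_one],
        fun x => (neg_le_neg (le_ciSup (bd _) x)).trans_eq ?_⟩
      simp [Finsupp.sum, d, mul_sub, neg_add_eq_sub,
        Finset.sum_attach c.support fun j => c j * j.2 x,
        Finset.sum_attach c.support fun j => c j * j.2 (j.1⁻¹ * x)])
  refine h ⟨m, le_antisymm (by simpa using h2 1) (by simpa using h2 (-1)), fun f hf => ?_,
    fun g f f' e => ?_⟩
  · simpa using (h2 (-f)).trans (ciSup_le fun x => neg_nonpos.2 (hf x))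
  · have h3 : m (d (g⁻¹, f)) = 0 := h1 ⟨_, Submodule.subset_span ⟨_, rfl⟩⟩
    rw [show d (g⁻¹, f) = f - f' from BoundedContinuousFunction.ext fun x => by simp [d, e],
      map_sub] at h3
    linarith

end Pool.Agent.Lib.MP_60cbcc_al.H8W
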